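import Pool.Agent.MP_797bdc_co.Lk.AStm

/-! A member of the locked class from a connected family of quads. -/

namespace Pool.Agent.MP_797bdc_co.Lk.A

open Finset

namespace Con

variable {α : Type}

/-- reached in exactly `n` steps -/
def RN (T : Finset (Finset α)) (Sig : Finset α) (q0 : Finset α) : ℕ → Finset α → Prop
  | 0, q => q = q0
  | n + 1, q => ∃ p ∈ T, ∃ f ∈ q, f ∈ p ∧ f ∉ Sig ∧ RN T Sig q0 n p

theorem rn_of {T : Finset (Finset α)} {Sig q0 q : Finset α} (h0 : q0 ∈ T) (h : Rch T Sig q0 q) :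
    q ∈ T ∧ ∃ n, RN T Sig q0 n q := by
  induction h with
  | base => exact ⟨h0, 0, rfl⟩
  | step _ hq' hf hf' hs ih =>
    obtain ⟨hq, n, hn⟩ := ih
    exact ⟨hq', n + 1, _, hq, _, hf', hf, hs, hn⟩

theorem rank {T : Finset (Finset α)} {Sig q0 : Finset α} (h0 : q0 ∈ T)
    (h : ∀ q ∈ T, Rch T Sig q0 q) :
    ∃ rk : Finset α → ℕ, ∀ q ∈ T, q ≠ q0 → ∃ p ∈ T, ∃ f ∈ q, f ∈ p ∧ f ∉ Sig ∧ rk p < rk q := by
  refine ⟨fun q => sInf {n | RN T Sig q0 n q}, fun q hq hne => ?_⟩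
  have hm : sInf {n | RN T Sig q0 n q} ∈ {n | RN T Sig q0 n q} :=
    Nat.sInf_mem (rn_of h0 (h q hq)).2
  show ∃ p ∈ T, ∃ f ∈ q, f ∈ p ∧ f ∉ Sig ∧
    sInf {n | RN T Sig q0 n p} < sInf {n | RN T Sig q0 n q}
  generalize sInf {n | RN T Sig q0 n q} = k at hm ⊢
  cases k with
  | zero => exact absurd hm hne
  | succ k =>
    obtain ⟨p, hp, f, hf, hfp, hs, hr⟩ := hm
    refine ⟨p, hp, f, hf, hfp, hs, Nat.lt_succ_of_le ?_⟩
    exact Nat.sInf_le hr

end Con

theorem acon : ACON_s := by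
  intro α _ S G Sig u T q0 hFQ hcard h0 hu huq h3 hR
  classical
  obtain ⟨rk, hrk⟩ := Con.rank h0 hR
  have key : ∀ q : Finset α, ∃ f : α, q ∈ T → f ∈ q ∧ (q = q0 → f = u) ∧
      (q ≠ q0 → f ∉ Sig ∧ ∃ p ∈ T, f ∈ p ∧ rk p < rk q) := by
    intro q
    by_cases hq : q ∈ T
    · by_cases he : q = q0
      · exact ⟨u, fun _ => ⟨he ▸ hu, fun _ => rfl, fun h => absurd he h⟩⟩
      · obtain ⟨p, hp, f, hf, hfp, hs, hlt⟩ := hrk q hq he
        exact ⟨f, fun _ => ⟨hf, fun h => absurd h he, fun _ => ⟨hs, p, hp, hfp, hlt⟩⟩⟩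
    · exact ⟨u, fun h => absurd h hq⟩
  choose e he using key
  have lt : ∀ q ∈ T, ∀ q' ∈ T, q ≠ q' → e q' ∈ q → rk q < rk q' := by
    intro q hq q' hq' hne hm
    obtain ⟨hm', hz, hnz⟩ := he q' hq'
    by_cases h' : q' = q0
    · exact absurd ((huq q hq (hz h' ▸ hm)).trans h'.symm) hne
    · obtain ⟨hs, p, hp, hfp, hlt⟩ := hnz h'
      rcases h3 _ hs q hq q' hq' p hp hm hm' hfp with h | h | h
      · exact absurd h hne
      · exact h ▸ hlt
      · rw [← h] at hlt; exact absurd hlt (lt_irrefl _)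
  have inj : Set.InjOn e T := by
    intro q hq q' hq' hee
    by_contra hne
    have h1 := lt q hq q' hq' hne (hee ▸ (he q hq).1)
    have h2 := lt q' hq' q hq (Ne.symm hne) (hee ▸ (he q' hq').1)
    omega
  have sub : T.image e ⊆ G := by
    intro a ha
    obtain ⟨q, hq, rfl⟩ := mem_image.1 ha
    exact (hFQ q hq).2 (he q hq).1
  refine ⟨G \ T.image e, sdiff_subset, ?_, ?_⟩
  · rw [card_sdiff_of_subset sub, card_image_of_injOn inj, hcard]
    omega
  · have main : ∀ k, ∀ q ∈ T, T.sup rk < rk q + k →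
        Cl (FQ S G) ((G \ T.image e : Finset α) : Set α) (e q) := by
      intro k
      induction k with
      | zero =>
        intro q hq h
        have := le_sup (f := rk) hq
        omega
      | succ k ih =>
        intro q hq h
        refine Cl.step (hFQ q hq) (he q hq).1 fun b hb hne => ?_
        by_cases hi : b ∈ T.image e
        · obtain ⟨q', hq', rfl⟩ := mem_image.1 hi
          have := lt q hq q' hq' (fun h => hne (h ▸ rfl)) hb
          exact ih q' hq' (by omega)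
        · exact Cl.base (mem_coe.2 (mem_sdiff.2 ⟨(hFQ q hq).2 hb, hi⟩))
    intro a ha
    by_cases hi : a ∈ T.image e
    · obtain ⟨q, hq, rfl⟩ := mem_image.1 hi
      exact main (T.sup rk + 1) q hq (by omega)
    · exact Cl.base (mem_coe.2 (mem_sdiff.2 ⟨ha, hi⟩))

end Pool.Agent.MP_797bdc_co.Lk.A
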