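import Pool.Agent.MP_797bdc_co.Lk.AStm

/-! Degrees of faces and quads with three faces. -/

namespace Pool.Agent.MP_797bdc_co.Lk.A

open Finset

namespace Deg

variable {n : ℕ} {M : ℕ → ℕ}

theorem srt {f : Finset ℕ} (h : f ∈ Gd n M) :
    ∃ a b c, a < b ∧ b < c ∧ c < n ∧ bit n M a b c = true ∧ f = {a, b, c} := by
  simp only [Gd, Om, mem_filter, mem_powersetCard] at h
  obtain ⟨⟨h1, h2⟩, a, ha, b, hb, c, hc, hab, hbc, hh⟩ := h
  refine ⟨a, b, c, hab, hbc, mem_range.1 (h1 hc), hh, (eq_of_subset_of_card_le ?_ ?_).symm⟩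
  · intro x hx
    simp only [mem_insert, mem_singleton] at hx
    rcases hx with rfl | rfl | rfl <;> assumption
  · rw [h2, card_eq_three.2 ⟨a, b, c, hab.ne, (hab.trans hbc).ne, hbc.ne, rfl⟩]

theorem row (h : SymM n M) {a b w : ℕ} (ha : a < n) (hb : b < n) (hw : w < n) :
    (ro n (on n) (M a) b).testBit w = true ↔ ({a, b, w} : Finset ℕ) ∈ Gd n M := by
  rw [ro_tb, mem_Gd h ha hb hw]
  exact and_iff_right hw

theorem apx_eq (h : SymM n M) {a b c : ℕ} (ha : a < n) (hb : b < n) (hc : c < n)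
    (hh : bit n M a b c = true) : apx n (Gd n M) {a, b, c} =
      bs n (ro n (on n) (M a) b &&& (ro n (on n) (M a) c &&& ro n (on n) (M b) c)) := by
  obtain ⟨hab, hac, hbc, -, -⟩ := h.2 _ ha _ hb _ hc hh
  ext w
  have e1 : insert w (({a, b, c} : Finset ℕ).erase a) = {b, c, w} := by
    ext x; simp only [mem_insert, mem_erase, mem_singleton]; omega
  have e2 : insert w (({a, b, c} : Finset ℕ).erase b) = {a, c, w} := by
    ext x; simp only [mem_insert, mem_erase, mem_singleton]; omega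
  have e3 : insert w (({a, b, c} : Finset ℕ).erase c) = {a, b, w} := by
    ext x; simp only [mem_insert, mem_erase, mem_singleton]; omega
  rw [apx, mem_filter, mem_range, mem_bs, and_tb, and_tb]
  refine and_congr_right fun hw => ?_
  rw [row h ha hb hw, row h ha hc hw, row h hb hc hw]
  constructor
  · rintro ⟨-, k⟩
    exact ⟨e3 ▸ k c (by simp), e2 ▸ k b (by simp), e1 ▸ k a (by simp)⟩
  · rintro ⟨k1, k2, k3⟩
    obtain ⟨-, p1, p2, -, -⟩ := h.2 _ ha _ hb _ hw ((mem_Gd h ha hb hw).1 k1)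
    obtain ⟨-, -, p3, -, -⟩ := h.2 _ ha _ hc _ hw ((mem_Gd h ha hc hw).1 k2)
    refine ⟨by simp only [mem_insert, mem_singleton]; omega, fun x hx => ?_⟩
    simp only [mem_insert, mem_singleton] at hx
    rcases hx with rfl | rfl | rfl
    exacts [e1 ▸ k3, e2 ▸ k2, e3 ▸ k1]

theorem chk {H1 H2 U SG : ℕ} {tM : BT} (h : cA n H1 H2 U SG tM 0 n = true) {a b c : ℕ}
    (hab : a < b) (hbc : b < c) (hc : c < n) (hh : bit n tM.get a b c = true) :
    fa1 n H1 H2 U SG a b c (ro n (on n) (tM.get a) b) (ro n (on n) (tM.get a) c)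
      (ro n (on n) (tM.get b) c)
      (ro n (on n) (tM.get a) b &&& ro n (on n) (tM.get a) c) = true := by
  have h1 : va n (on n) H1 H2 U SG tM a = true := rg_iff.1 h a (Nat.zero_le _) (by omega)
  have h2 := rg_iff.1 (an_iff.1 (an_iff.1 h1).2).2 b hab (by simp only [add_e, sub_e]; omega)
  have h3 := it_el (an_iff.1 (an_iff.1 h2).2).2 (ro_tb.2 ⟨hc, hh⟩)
  exact (an_iff.1 (an_iff.1 ((cb_iff.1 h3).1 (lt_iff.2 hbc))).2).2

theorem quad {a b c d : ℕ} (hab : a ≠ b) (hac : a ≠ c) (hbc : b ≠ c) (had : a ≠ d) (hbd : b ≠ d)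
    (hcd : c ≠ d) {t : Finset ℕ} (ht : t ∈ qd a b c d) :
    t = {a, b, c} ∨ t = {a, b, d} ∨ t = {a, c, d} ∨ t = {b, c, d} := by
  obtain ⟨h1, h2⟩ := mem_powersetCard.1 ht
  have h4 : ({a, b, c, d} : Finset ℕ).card = 4 := by
    rw [card_insert_of_notMem (by simp; omega), card_eq_three.2 ⟨b, c, d, hbc, hbd, hcd, rfl⟩]
  obtain ⟨x, hx, hxt⟩ := exists_mem_notMem_of_card_lt_card (s := t) (t := {a, b, c, d}) (by omega)
  have e : t = ({a, b, c, d} : Finset ℕ).erase x :=
    eq_of_subset_of_card_le (fun y hy => mem_erase.2 ⟨fun k => hxt (k ▸ hy), h1 hy⟩)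
      (by rw [card_erase_of_mem hx]; omega)
  simp only [mem_insert, mem_singleton] at hx
  rcases hx with rfl | rfl | rfl | rfl
  · refine Or.inr (Or.inr (Or.inr (e.trans ?_)))
    ext y; simp only [mem_insert, mem_erase, mem_singleton]; omega
  · refine Or.inr (Or.inr (Or.inl (e.trans ?_)))
    ext y; simp only [mem_insert, mem_erase, mem_singleton]; omega
  · refine Or.inr (Or.inl (e.trans ?_))
    ext y; simp only [mem_insert, mem_erase, mem_singleton]; omega
  · refine Or.inl (e.trans ?_)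
    ext y; simp only [mem_insert, mem_erase, mem_singleton]; omega

end Deg

open Deg in
theorem adeg : ADEG_s := by
  intro n s2 s7 s8 z1 z2 SG tM hM h
  refine ⟨fun f hf hu hs => ?_, ?_, fun a ha b hb c hc hh hd => ?_⟩
  · obtain ⟨a, b, c, hab, hbc, hc, hh, rfl⟩ := srt hf
    rw [apx_eq hM (by omega) (by omega) hc hh, ← Nat.and_assoc]
    rcases orr_iff.1 (an_iff.1 (chk h hab hbc hc hh)).1 with k | k
    · exact two_card (Nat.and_le_right.trans_lt (ro_lt _ _ _)) k
    · rcases orr_iff.1 k with k | k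
      · exact absurd ((m3_has a b c).set (beq_iff.1 k ▸ m3_has s2 s7 s8)) hu
      · exact absurd ((nS_not (m3_has a b c)).2 hs) (nt_iff.1 k)
  · rintro q ⟨s, hs, h4, rfl⟩ h3
    obtain ⟨f, hf⟩ := card_pos.1 (lt_of_lt_of_le (by omega : 0 < 3) h3)
    obtain ⟨hf1, hf2⟩ := mem_inter.1 hf
    obtain ⟨a, b, c, hab, hbc, hc, hh, rfl⟩ := srt hf2
    obtain ⟨k1, k2⟩ := mem_powersetCard.1 hf1
    obtain ⟨d, hd, hdf⟩ := exists_mem_notMem_of_card_lt_card (s := {a, b, c}) (t := s) (by omega)
    have hdn : d < n := mem_range.1 (hs hd)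
    have es : s = {a, b, c, d} := by
      have : insert d ({a, b, c} : Finset ℕ) = s :=
        eq_of_subset_of_card_le (insert_subset hd k1) (by rw [card_insert_of_notMem hdf]; omega)
      rw [← this]
      ext y; simp only [mem_insert, mem_singleton]; tauto
    subst es
    simp only [mem_insert, mem_singleton, not_or] at hdf
    have hq : ∀ t ∈ powersetCard 3 ({a, b, c, d} : Finset ℕ), _ := fun t ht =>
      quad hab.ne (hab.trans hbc).ne hbc.ne (Ne.symm hdf.1) (Ne.symm hdf.2.1) (Ne.symm hdf.2.2) ht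
    have ha : a < n := by omega
    have hb : b < n := by omega
    have two : ∀ g : Finset ℕ, ¬ ∀ t ∈ powersetCard 3 ({a, b, c, d} : Finset ℕ),
        t ∈ Gd n tM.get → t = {a, b, c} ∨ t = g := fun g k => by
      have : (powersetCard 3 ({a, b, c, d} : Finset ℕ) ∩ Gd n tM.get).card ≤
          ({{a, b, c}, g} : Finset (Finset ℕ)).card := card_le_card fun t ht => by
        rw [mem_insert, mem_singleton]
        exact k t (mem_inter.1 ht).1 (mem_inter.1 ht).2
      have := this.trans card_le_two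
      omega
    by_cases hall : ({a, b, d} : Finset ℕ) ∈ Gd n tM.get ∧ ({a, c, d} : Finset ℕ) ∈ Gd n tM.get ∧
        ({b, c, d} : Finset ℕ) ∈ Gd n tM.get
    · refine Or.inl fun t ht => ?_
      rcases hq t ht with rfl | rfl | rfl | rfl
      exacts [hf2, hall.1, hall.2.1, hall.2.2]
    have hE : ((ro n (on n) (tM.get a) b &&& ro n (on n) (tM.get a) c) |||
        ((ro n (on n) (tM.get a) b ||| ro n (on n) (tM.get a) c) &&&
          ro n (on n) (tM.get b) c)).testBit d = true := by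
      rw [or_tb, and_tb, and_tb, or_tb, row hM ha hb hdn, row hM ha hc hdn, row hM hb hc hdn]
      by_contra k
      by_cases p1 : ({a, b, d} : Finset ℕ) ∈ Gd n tM.get
      · refine two {a, b, d} fun t ht hG => ?_
        rcases hq t ht with rfl | rfl | rfl | rfl
        exacts [Or.inl rfl, Or.inr rfl, absurd (Or.inl ⟨p1, hG⟩) k,
          absurd (Or.inr ⟨Or.inl p1, hG⟩) k]
      by_cases p2 : ({a, c, d} : Finset ℕ) ∈ Gd n tM.get
      · refine two {a, c, d} fun t ht hG => ?_
        rcases hq t ht with rfl | rfl | rfl | rfl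
        exacts [Or.inl rfl, absurd hG p1, Or.inr rfl, absurd (Or.inr ⟨Or.inr p2, hG⟩) k]
      · refine two {b, c, d} fun t ht hG => ?_
        rcases hq t ht with rfl | rfl | rfl | rfl
        exacts [Or.inl rfl, absurd hG p1, absurd hG p2, Or.inr rfl]
    have hT : ¬ ((ro n (on n) (tM.get a) b &&& ro n (on n) (tM.get a) c) &&&
        ro n (on n) (tM.get b) c).testBit d = true := by
      rw [and_tb, and_tb, row hM ha hb hdn, row hM ha hc hdn, row hM hb hc hdn, and_assoc]
      exact hall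
    rcases orr_iff.1 (an_iff.1 (chk h hab hbc hc hh)).2 with k | k
    · have k' := beq_iff.1 k
      simp only [land_e, lor_e] at k'
      exact absurd (k' ▸ hE) hT
    · rcases orr_iff.1 (it_el k (dif_tb.2 ⟨hE, hT⟩)) with k | k
      · exact Or.inr (Or.inl (congrArg (powersetCard 3)
          ((m4_has a b c d).set (beq_iff.1 k ▸ m4_has s2 s7 s8 z1))))
      · exact Or.inr (Or.inr (congrArg (powersetCard 3)
          ((m4_has a b c d).set (beq_iff.1 k ▸ m4_has s2 s7 s8 z2))))
  · have e : dg n tM a b c = min 4 _ := pc_eq 4 (Nat.and_le_left.trans_lt (ro_lt _ _ _))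
    rw [apx_eq hM ha hb hc hh]
    simp only [land_e] at e
    omega

end Pool.Agent.MP_797bdc_co.Lk.A
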