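import Pool.Agent.MP_797bdc_co.Lk.AStm

/-! Soundness of the derivation checks. -/

namespace Pool.Agent.MP_797bdc_co.Lk.A

open Finset

theorem ader : ADER_s := by
  intro n E tM l D k P h h0 hs
  have h' : run 28 (ds n E tM) k l D = true := h
  refine run_inv (fun D => ∀ x < n, ∀ y < n, D.testBit (n * x + y) = true → P x y) ?_ h' h0
  intro e s k he hP
  simp only [ds, fb_eq, ap_eq, an_iff, lt_iff, t2_eq, lor_e] at he
  obtain ⟨⟨hx, hy, hw⟩, hb, h1, h2, h3, h4⟩ := he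
  obtain ⟨p1, p2⟩ := hs _ hx _ hy _ hw hb h3 (hP _ hx _ hw h1) (hP _ hy _ hw h2)
  refine ⟨_, fun a ha b hb hab => ?_, h4⟩
  rcases or_tb.1 hab with h | h
  · exact hP a ha b hb h
  · rcases e2_tb hx hy hb h with ⟨rfl, rfl⟩ | ⟨rfl, rfl⟩
    · exact p1
    · exact p2

theorem ask : ASK_s := by
  intro n J SK root PAR TRK tM tZ tF l Sig hM hZ hL h
  simp only [cS, fb_eq, an_iff, rg0, orr_iff, beq_iff, lt_iff, t2_eq] at h
  obtain ⟨h1, h2, h3⟩ := h
  have sy : ∀ x y, (mkZ n J tZ tF SK).Sk x y → (mkZ n J tZ tF SK).Sk y x := by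
    rintro x y ⟨hx, hy, hb⟩
    have := it_el (h2 x hx) (ro_tb.2 ⟨hy, hb⟩)
    exact ⟨hy, hx, this⟩
  refine ⟨⟨v9 TRK, fun x hx hr => ?_⟩, ?_⟩
  · obtain ⟨a, b, -⟩ := (h1 x hx).resolve_left hr
    exact ⟨a, b⟩
  obtain ⟨D', hD, hk⟩ := ader _ _ _ _ _ _ (fun x y => (mkZ n J tZ tF SK).Sk x y ∧
    Dv n root (v9 PAR) (Gd n tM.get)
      {f | (mkZ n J tZ tF SK).lab f ≠ 0 ∧ (mkZ n J tZ tF SK).lab f % 2 = 0} x y) h3 (by
    intro a ha b hb hab
    obtain ⟨x, hx, hab⟩ := ora_tb.1 hab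
    rw [cn_eq] at hab
    by_cases hr : x = root
    · rw [if_pos (beq_iff.2 hr)] at hab; simp at hab
    rw [if_neg fun e => hr (beq_iff.1 e)] at hab
    obtain ⟨q1, -, q3⟩ := (h1 x hx).resolve_left hr
    rcases e2_tb hx q1 hb hab with ⟨rfl, rfl⟩ | ⟨rfl, rfl⟩
    · exact ⟨⟨hx, q1, q3⟩, Dv.tree hx hr⟩
    · exact ⟨sy _ _ ⟨hx, q1, q3⟩, (Dv.tree hx hr).symm⟩) (by
    intro x hx y hy w hw hb hE p1 p2
    have s0 : (mkZ n J tZ tF SK).Sk x y := ⟨hx, hy, hE⟩
    obtain ⟨n1, n2, n3, -⟩ := hM.2 x hx y hy w hw hb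
    have all : ∀ a ∈ ({x, y, w} : Finset ℕ), ∀ b ∈ ({x, y, w} : Finset ℕ), a ≠ b →
        (mkZ n J tZ tF SK).Sk a b := by
      intro a ha b hb hab
      simp only [mem_insert, mem_singleton] at ha hb
      rcases ha with rfl | rfl | rfl <;> rcases hb with rfl | rfl | rfl
      · exact absurd rfl hab
      · exact s0
      · exact p1.1
      · exact sy _ _ s0
      · exact absurd rfl hab
      · exact p2.1
      · exact sy _ _ p1.1
      · exact sy _ _ p2.1
      · exact absurd rfl hab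
    have d : Dv n root (v9 PAR) (Gd n tM.get)
        {f | (mkZ n J tZ tF SK).lab f ≠ 0 ∧ (mkZ n J tZ tF SK).lab f % 2 = 0} x y := by
      refine Dv.face hx hy hw n1 n2 n3 ((mem_Gd hM hx hy hw).2 hb) ?_ p1.2 p2.2
      rintro ⟨i1, i2⟩
      obtain ⟨j, hj, ⟨p, i, hp, hi, e⟩ | ⟨p, i, hp, hi, e⟩⟩ := hL.inn _ i1 i2
      · rw [e] at all
        refine hZ.nr j hj p hp (all _ (by simp [Zn.rf]) _ (by simp [Zn.rf]) fun e' => ?_)
        have := hL.ri j hj p (by omega) (p + 1) hp e'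
        omega
      · rw [e] at all
        have hp' : p < (mkZ n J tZ tF SK).L j := by have := hp.2.2; omega
        exact hZ.nn j p hp i hi ⟨all _ (by simp [Zn.nf]) _ (by simp [Zn.nf]) (hZ.rc j hj p hp' i hi),
          all _ (by simp [Zn.nf]) _ (by simp [Zn.nf])
            (hZ.rc j hj p hp' _ (Nat.mod_lt _ (by omega)))⟩
    exact ⟨⟨s0, d⟩, sy _ _ s0, d.symm⟩)
  rintro x y ⟨hx, hy, hb⟩
  exact (hD x hx y hy (sub_el hk hb)).2

namespace Per

def P (n : ℕ) (G : Finset (Finset ℕ)) (v x y : ℕ) : Prop :=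
  x = y ∨ x = v ∨ y = v ∨ Cl (Qn n) (G : Set (Finset ℕ)) {v, x, y}

variable {n : ℕ} {G : Finset (Finset ℕ)} {v x y w : ℕ}

theorem P.symm (h : P n G v x y) : P n G v y x := by
  rcases h with h | h | h | h
  · exact Or.inl h.symm
  · exact Or.inr (Or.inr (Or.inl h))
  · exact Or.inr (Or.inl h)
  · exact Or.inr (Or.inr (Or.inr (by rwa [pair_comm y x])))

theorem rot (a b c : ℕ) : ({a, b, c} : Finset ℕ) = {c, a, b} := by
  ext i; simp only [mem_insert, mem_singleton]; omega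

theorem step (hv : v < n) (hx : x < n) (hy : y < n) (hw : w < n) (n2 : x ≠ w) (n3 : y ≠ w)
    (hc : x ≠ y → Cl (Qn n) (G : Set (Finset ℕ)) {x, y, w}) (p1 : P n G v x w)
    (p2 : P n G v y w) : P n G v x y := by
  by_cases n1 : x = y
  · exact Or.inl n1
  by_cases a1 : x = v
  · exact Or.inr (Or.inl a1)
  by_cases a2 : y = v
  · exact Or.inr (Or.inr (Or.inl a2))
  refine Or.inr (Or.inr (Or.inr ?_))
  by_cases a3 : w = v
  · rw [← a3, ← rot]; exact hc n1
  have c1 := ((p1.resolve_left n2).resolve_left a1).resolve_left a3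
  have c2 := ((p2.resolve_left n3).resolve_left a2).resolve_left a3
  have h4 : ({v, x, y, w} : Finset ℕ).card = 4 := by
    rw [card_insert_of_notMem (by simp only [mem_insert, mem_singleton]; omega)]
    rw [card_eq_three.2 ⟨x, y, w, n1, n2, n3, rfl⟩]
  refine Cl.step (q := powersetCard 3 {v, x, y, w}) ⟨_, fun i hi => ?_, h4, rfl⟩ ?_ ?_
  · simp only [mem_insert, mem_singleton] at hi
    rw [mem_range]; omega
  · rw [mem_powersetCard]
    refine ⟨fun i hi => ?_, card_eq_three.2 ⟨v, x, y, Ne.symm a1, Ne.symm a2, n1, rfl⟩⟩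
    simp only [mem_insert, mem_singleton] at hi ⊢
    omega
  · intro b hb hne
    obtain ⟨b1, b2⟩ := mem_powersetCard.1 hb
    obtain ⟨t, ht, e⟩ := exists_eq_insert_iff.2 ⟨b1, by rw [b2, h4]⟩
    have hb : ∀ i, i ∈ b ↔ i ≠ t ∧ (i = v ∨ i = x ∨ i = y ∨ i = w) := fun i => by
      rw [← erase_insert ht, e]; simp only [mem_erase, mem_insert, mem_singleton]
    have htm : t = v ∨ t = x ∨ t = y ∨ t = w := by
      have : t ∈ ({v, x, y, w} : Finset ℕ) := e ▸ mem_insert_self t b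
      simpa only [mem_insert, mem_singleton] using this
    rcases htm with r | r | r | r
    · have : b = {x, y, w} := by
        ext i; simp only [hb, mem_insert, mem_singleton]; omega
      rw [this]; exact hc n1
    · have : b = {v, y, w} := by
        ext i; simp only [hb, mem_insert, mem_singleton]; omega
      rw [this]; exact c2
    · have : b = {v, x, w} := by
        ext i; simp only [hb, mem_insert, mem_singleton]; omega
      rw [this]; exact c1
    · refine absurd ?_ hne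
      ext i; simp only [hb, mem_insert, mem_singleton]; omega

theorem ofb {M : ℕ → ℕ} (hM : SymM n M) (hv : v < n) (hx : x < n) (hy : y < n)
    (h : (M v).testBit (n * x + y) = true) : P n (Gd n M) v x y :=
  Or.inr (Or.inr (Or.inr (Cl.base ((mem_Gd hM hv hx hy).2 h))))

theorem casc {tM : BT} {E D : ℕ} {l : List ℕ} {k : ℕ → Bool} (hM : SymM n tM.get) (hv : v < n)
    (h : der n E tM l D k = true)
    (h0 : ∀ x < n, ∀ y < n, D.testBit (n * x + y) = true → P n (Gd n tM.get) v x y) :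
    ∃ D', (∀ x < n, ∀ y < n, D'.testBit (n * x + y) = true → P n (Gd n tM.get) v x y) ∧
      k D' = true :=
  ader _ _ _ _ _ _ _ h h0 fun x hx y hy w hw hb _ p1 p2 => by
    obtain ⟨-, n2, n3, -⟩ := hM.2 x hx y hy w hw hb
    have := step hv hx hy hw n2 n3 (fun _ => Cl.base ((mem_Gd hM hx hy hw).2 hb)) p1 p2
    exact ⟨this, this.symm⟩

theorem ign {tM : BT} {E z a b : ℕ} {l : List ℕ} (hM : SymM n tM.get) (hv : v < n) (hz : z < n)
    (ha : a < n) (hb : b < n) (b1 : (tM.get v).testBit (n * a + z) = true)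
    (b2 : (tM.get v).testBit (n * b + z) = true)
    (h : der n E tM l (tM.get z) (fun D => D.testBit (n * a + b)) = true) :
    P n (Gd n tM.get) v a b := by
  obtain ⟨D', hD, hk⟩ := casc hM hz h fun x hx y hy => ofb hM hz hx hy
  have n1 := (hM.2 v hv a ha z hz b1).2.2.1
  have n2 := (hM.2 v hv b hb z hz b2).2.2.1
  refine step hv ha hb hz n1 n2 (fun e => ?_) (ofb hM hv ha hz b1) (ofb hM hv hb hz b2)
  rw [rot]
  exact (((hD a ha b hb hk).resolve_left e).resolve_left n1).resolve_left n2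

end Per

theorem aper : APER_s := by
  intro hPG hC n hd v z1 z2 s0 s7 s9 root PAR tM l1 l2 l Z hM hZ h
  simp only [cC, an_iff, lt_iff, t2_eq, lor_e] at h
  obtain ⟨⟨⟨hv, hz1, hz2⟩, h0, h7, h9⟩, ⟨⟨b1, b2⟩, b3, b4⟩, d1, d2, d3⟩ := h
  have p1 := Per.ign hM hv hz1 h0 h9 b1 b2 d1
  have p2 := Per.ign hM hv hz2 h7 h9 b3 b4 d2
  obtain ⟨D', hD, hk⟩ := Per.casc hM hv d3 (by
    intro x hx y hy hb
    rcases or_tb.1 hb with hb | hb
    · exact Per.ofb hM hv hx hy hb
    rcases or_tb.1 hb with hb | hb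
    · rcases e2_tb h0 h9 hy hb with ⟨rfl, rfl⟩ | ⟨rfl, rfl⟩
      · exact p1
      · exact p1.symm
    · rcases e2_tb h7 h9 hy hb with ⟨rfl, rfl⟩ | ⟨rfl, rfl⟩
      · exact p2
      · exact p2.symm)
  simp only [rg0, orr_iff, beq_iff] at hk
  obtain ⟨trk, htr⟩ := hZ.tree
  have key : ∀ x y, Dv n root (v9 PAR) (Gd n tM.get) (Z.Iall []) x y →
      Per.P n (Gd n tM.get) v x y := by
    intro x y d
    induction d with
    | @tree x hx hr =>
      rcases hk x hx with (e | e) | e | e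
      · exact absurd e hr
      · exact Or.inr (Or.inl e)
      · exact Or.inr (Or.inr (Or.inl e))
      · exact hD _ hx _ (htr x hx hr).1 e
    | symm _ ih => exact ih.symm
    | face hx hy hw _ n2 n3 hG _ _ _ i1 i2 =>
      exact Per.step hv hx hy hw n2 n3 (fun _ => Cl.base hG) i1 i2
  have cov : ∀ x y, Z.Cov x y → Per.P n (Gd n tM.get) v x y := by
    intro x y hc
    refine key x y (hPG Z n root _ _ hZ [] ⟨by simp, by simp⟩ x y ?_)
    rcases hc with hc | ⟨k, p, i, a, b, c, d⟩ | ⟨k, p, a, b, c, d⟩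
    · exact Or.inl hc
    · exact Or.inr (Or.inl ⟨k, p, i, a, b, c, d, by simp [Zn.NGood]⟩)
    · exact Or.inr (Or.inr ⟨k, p, a, b, c, d, by simp, by simp [Zn.NGood], by simp [Zn.NGood]⟩)
  refine hC n hd _ v (fun _ _ => 0) hv (fun _ _ => rfl) fun x hx y hy n1 n2 n3 => Or.inl ?_
  have : Per.P n (Gd n tM.get) v x y := by
    rcases lt_or_gt_of_ne n1 with h | h
    · exact (hZ.cov x hx y hy h).elim (cov x y) fun c => (cov y x c).symm
    · exact (hZ.cov y hy x hx h).elim (fun c => (cov y x c).symm) (cov x y)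
  exact ((this.resolve_left n1).resolve_left n2).resolve_left n3

end Pool.Agent.MP_797bdc_co.Lk.A
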