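import Pool.Agent.MP_797bdc_co.Lk.AStm

/-! Soundness of the checks on token sets. -/

namespace Pool.Agent.MP_797bdc_co.Lk.A

open Finset

namespace AHotx

theorem lv_get {f : ℕ → Bool} (k : ℕ) : ∀ t : BT, lv t f = true → f (t.get k) = true
  | .lf _, h => h
  | .nd j l r, h => by
    have h' : an (lv l f) (lv r f) = true := h
    have e : (BT.nd j l r).get k = Bool.rec (l.get k) (r.get k) (Nat.ble j k) := rfl
    rw [e]
    cases Nat.ble j k
    · exact lv_get k l (an_iff.1 h').1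
    · exact lv_get k r (an_iff.1 h').2

theorem ky_eq (a b : ℕ) : ky a b = min a b * 512 + max a b := by
  unfold ky
  rw [cn_eq]
  by_cases h : a ≤ b
  · rw [if_pos (ble_iff.2 h), min_eq_left h, max_eq_right h]; rfl
  · rw [if_neg (fun hh => h (ble_iff.1 hh)), min_eq_right (le_of_not_ge h),
      max_eq_left (le_of_not_ge h)]; rfl

theorem hl_comm (t : BT) (a b : ℕ) : hl t a b = hl t b a := by
  unfold hl
  rw [ky_eq, ky_eq, min_comm, max_comm]

theorem hp_hl {t : BT} {f : ℕ → ℕ → ℕ → Bool} (h : hp t f = true) {a b c : ℕ} (ha : a < 512)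
    (hb : b < 512) (hc : (hl t a b).testBit c = true) :
    f (min a b) (max a b) (hl t a b) = true := by
  have h1 := lv_get (ky a b) t h
  have e : hl t a b = cn (Nat.beq (t.get (ky a b) &&& 262143) (ky a b))
      (t.get (ky a b) >>> 18) 0 := rfl
  rw [cn_eq] at e
  generalize t.get (ky a b) = x at h1 e
  by_cases hx : Nat.beq (x &&& 262143) (ky a b) = true
  · rw [if_pos hx] at e
    have h2 : f ((x >>> 9) &&& 511) (x &&& 511) (x >>> 18) = true := h1
    have hk := beq_iff.1 hx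
    have q1 : x &&& 262143 = x % 262144 := Nat.and_two_pow_sub_one_eq_mod x 18
    have q2 : x &&& 511 = x % 512 := Nat.and_two_pow_sub_one_eq_mod x 9
    have q3 : (x >>> 9) &&& 511 = (x >>> 9) % 512 := Nat.and_two_pow_sub_one_eq_mod _ 9
    have q4 : x >>> 9 = x / 512 := Nat.shiftRight_eq_div_pow x 9
    have m1 : min a b < 512 := lt_of_le_of_lt (min_le_left _ _) ha
    have m2 : max a b < 512 := max_lt ha hb
    rw [ky_eq, q1] at hk
    have r1 : (x >>> 9) &&& 511 = min a b := by rw [q3, q4]; omega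
    have r2 : x &&& 511 = max a b := by rw [q2]; omega
    rw [r1, r2, ← e] at h2
    exact h2
  · rw [if_neg hx] at e
    rw [e] at hc
    simp at hc

/-- what the check gives for one stored triple -/
structure Fa (n m : ℕ) (c3 : Bool) (tM t : BT) (a b c : ℕ) : Prop where
  cn : c < n
  ab : a ≠ b
  ca : c ≠ a
  cb : c ≠ b
  s1 : (hl t a c).testBit b = true
  s2 : (hl t b c).testBit a = true
  g2 : ∀ d < n, bit n tM.get a c d = true → bit n tM.get b c d = true →
    ¬ bit n tM.get a b d = true → ¬ (hl t a b).testBit d = true → m3 a c d = m ∨ m3 b c d = m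
  g3 : c3 = true → ∀ d < n, (hl t a b).testBit d = true →
    ((bit n tM.get a c d = true ∨ (hl t a c).testBit d = true) ∨
      (bit n tM.get b c d = true ∨ (hl t b c).testBit d = true)) →
    ¬ (bit n tM.get a c d = true ∧ bit n tM.get b c d = true) →
    (m3 a c d = m ∧ ¬ (bit n tM.get b c d = true ∨ (hl t b c).testBit d = true)) ∨
      (m3 b c d = m ∧ ¬ (bit n tM.get a c d = true ∨ (hl t a c).testBit d = true))

theorem fa_of {n m : ℕ} {c3 : Bool} {tM t : BT} {a b c : ℕ}
    (h : hk n (on n) m c3 tM t a b (hl t a b) = true) (hc : (hl t a b).testBit c = true) :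
    Fa n m c3 tM t a b c := by
  simp only [hk, ap_eq, an_iff, lt_iff, z0_iff, land_e, lor_e] at h
  obtain ⟨⟨hab, -⟩, hz, hi⟩ := h
  have hz' := and_z hz hc
  have h1 := it_el hi hc
  simp only [an_iff, orr_iff, lt_iff, tb_eq, nt_iff] at h1
  obtain ⟨k1, k2, k3, k4, k5⟩ := h1
  refine ⟨k1, hab.ne, fun e => hz' (or_tb.2 (.inr (or_tb.2 (.inl (p2_tb.2 e))))),
    fun e => hz' (or_tb.2 (.inr (or_tb.2 (.inr (p2_tb.2 e))))), k2, k3, ?_, ?_⟩
  · intro d hd u1 u2 u3 u4
    have := it_el k4 (c := d) (dif_tb.2 ⟨and_tb.2 ⟨ro_tb.2 ⟨hd, u1⟩, ro_tb.2 ⟨hd, u2⟩⟩,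
      fun hh => (or_tb.1 hh).elim (fun x => u3 (ro_tb.1 x).2) u4⟩)
    simpa only [orr_iff, beq_iff] using this
  · intro h3 d hd u1 u2 u3
    have k6 := k5.resolve_left (fun x => x h3)
    have r : ∀ x y, (ro n (on n) (tM.get x) y).testBit d = true ↔ bit n tM.get x y d = true :=
      fun x y => ro_tb.trans ⟨fun z => z.2, fun z => ⟨hd, z⟩⟩
    have := it_el k6 (c := d) (dif_tb.2 ⟨and_tb.2 ⟨u1, by simpa only [or_tb, r] using u2⟩,
      by simpa only [and_tb, r] using u3⟩)
    simpa only [orr_iff, an_iff, beq_iff, nt_iff, tb_eq, or_tb, r] using this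

theorem fa_all {n m : ℕ} {c3 : Bool} {tM t : BT} (hn : n ≤ 512) (hM : SymM n tM.get)
    (h : cH n m c3 tM t = true) {a b c : ℕ} (ha : a < n) (hb : b < n)
    (hc : (hl t a b).testBit c = true) : Fa n m c3 tM t a b c := by
  have h0 : hp t (hk n (on n) m c3 tM t) = true := h
  have h1 := hp_hl h0 (ha.trans_le hn) (hb.trans_le hn) hc
  by_cases hab : a ≤ b
  · rw [min_eq_left hab, max_eq_right hab] at h1
    exact fa_of h1 hc
  · have hba := le_of_not_ge hab
    rw [min_eq_right hba, max_eq_left hba, hl_comm t a b] at h1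
    rw [hl_comm t a b] at hc
    have F := fa_of h1 hc
    refine ⟨F.cn, F.ab.symm, F.cb, F.ca, F.s2, F.s1, ?_, ?_⟩
    · intro d hd u1 u2 u3 u4
      rw [hl_comm t a b] at u4
      exact (F.g2 d hd u2 u1 (fun z => u3 (hM.2 _ hb _ ha _ hd z).2.2.2.1) u4).symm
    · intro h3 d hd u1 u2 u3
      rw [hl_comm t a b] at u1
      exact (F.g3 h3 d hd u1 u2.symm (fun z => u3 z.symm)).symm

theorem mem_q {s f : Finset ℕ} (hs : s.card = 4) (hf : f ∈ powersetCard 3 s) :
    ∃ x ∈ s, f = s.erase x := by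
  obtain ⟨h1, h2⟩ := mem_powersetCard.1 hf
  have h3 : (s \ f).card = 1 := by rw [card_sdiff_of_subset h1]; omega
  obtain ⟨x, hx⟩ := card_eq_one.1 h3
  have hx' : x ∈ s \ f := hx ▸ mem_singleton_self x
  refine ⟨x, (mem_sdiff.1 hx').1, ?_⟩
  ext y
  rw [mem_erase]
  constructor
  · intro hy
    exact ⟨fun e => (mem_sdiff.1 hx').2 (e ▸ hy), h1 hy⟩
  · rintro ⟨y1, y2⟩
    by_contra hy
    exact y1 (mem_singleton.1 (hx ▸ mem_sdiff.2 ⟨y2, hy⟩))

theorem two_tok {n : ℕ} {q : Finset (Finset ℕ)} (hq : Qn n q) {u v : Finset ℕ} (hu : u ∈ q)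
    (hv : v ∈ q) (huv : u ≠ v) : ∃ a < n, ∃ b < n, ∃ c < n, ∃ d < n, u = {a, b, c} ∧
      v = {a, b, d} ∧ q = {u, v, {a, c, d}, {b, c, d}} ∧ q.card = 4 := by
  obtain ⟨s, hsn, hs, rfl⟩ := hq
  obtain ⟨d, hd, rfl⟩ := mem_q hs hu
  obtain ⟨c, hc, rfl⟩ := mem_q hs hv
  have hcd : c ≠ d := fun e => huv (by rw [e])
  have h2 : ((s.erase d).erase c).card = 2 := by
    rw [card_erase_of_mem (mem_erase.2 ⟨hcd, hc⟩), card_erase_of_mem hd, hs]
  obtain ⟨a, b, hab, e⟩ := card_eq_two.1 h2
  have ha : a ∈ (s.erase d).erase c := e ▸ by simp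
  have hb : b ∈ (s.erase d).erase c := e ▸ by simp
  simp only [mem_erase] at ha hb
  have es : ∀ y, y ∈ s ↔ y = a ∨ y = b ∨ y = c ∨ y = d := by
    intro y
    have := congrArg (y ∈ ·) e
    simp only [mem_erase, mem_insert, mem_singleton, eq_iff_iff] at this
    constructor
    · intro hy
      by_cases y1 : y = c
      · exact .inr (.inr (.inl y1))
      · by_cases y2 : y = d
        · exact .inr (.inr (.inr y2))
        · exact (this.1 ⟨y1, y2, hy⟩).imp_right .inl
    · rintro (rfl | rfl | rfl | rfl)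
      exacts [ha.2.2, hb.2.2, hc, hd]
  have a1 := ha.1
  have a2 := ha.2.1
  have b1 := hb.1
  have b2 := hb.2.1
  have ea : s.erase a = {b, c, d} := by
    ext y; simp only [mem_erase, es, mem_insert, mem_singleton]; omega
  have eb : s.erase b = {a, c, d} := by
    ext y; simp only [mem_erase, es, mem_insert, mem_singleton]; omega
  have ec : s.erase c = {a, b, d} := by
    ext y; simp only [mem_erase, es, mem_insert, mem_singleton]; omega
  have ed : s.erase d = {a, b, c} := by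
    ext y; simp only [mem_erase, es, mem_insert, mem_singleton]; omega
  refine ⟨a, mem_range.1 (hsn ha.2.2), b, mem_range.1 (hsn hb.2.2), c, mem_range.1 (hsn hc), d,
    mem_range.1 (hsn hd), ed, ec, ?_, by rw [card_powersetCard, hs]; rfl⟩
  have back : ∀ x ∈ s, s.erase x ∈ powersetCard 3 s := fun x hx =>
    mem_powersetCard.2 ⟨erase_subset _ _, by rw [card_erase_of_mem hx, hs]⟩
  ext f
  simp only [mem_insert, mem_singleton]
  constructor
  · intro hf
    obtain ⟨x, hx, rfl⟩ := mem_q hs hf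
    rcases (es x).1 hx with rfl | rfl | rfl | rfl
    · exact .inr (.inr (.inr ea))
    · exact .inr (.inr (.inl eb))
    · exact .inr (.inl rfl)
    · exact .inl rfl
  · rintro (rfl | rfl | rfl | rfl)
    · exact back d hd
    · exact back c hc
    · exact eb ▸ back b hb.2.2
    · exact ea ▸ back a ha.2.2

theorem perm3 (P : ℕ → ℕ → ℕ → Prop) {a b c x y z : ℕ} (n1 : x ≠ y) (n2 : z ≠ x) (n3 : z ≠ y)
    (e : ({a, b, c} : Finset ℕ) = {x, y, z}) (h1 : P x y z) (h2 : P x z y) (h3 : P y z x)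
    (h4 : P y x z) (h5 : P z x y) (h6 : P z y x) : P a b c := by
  have m : ∀ w, (w = a ∨ w = b ∨ w = c) ↔ (w = x ∨ w = y ∨ w = z) := fun w => by
    have := congrArg (w ∈ ·) e
    simpa only [mem_insert, mem_singleton, eq_iff_iff] using this
  have ma := (m a).1 (.inl rfl)
  have mb := (m b).1 (.inr (.inl rfl))
  have mc := (m c).1 (.inr (.inr rfl))
  have mx := (m x).2 (.inl rfl)
  have my := (m y).2 (.inr (.inl rfl))
  have mz := (m z).2 (.inr (.inr rfl))
  clear e m
  rcases ma with rfl | rfl | rfl <;> rcases mb with rfl | rfl | rfl <;>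
    rcases mc with rfl | rfl | rfl <;> first | assumption | (exfalso; omega)

theorem hs_bit {n m : ℕ} {c3 : Bool} {tM t : BT} (hn : n ≤ 512) (hM : SymM n tM.get)
    (h : cH n m c3 tM t = true) {a b c : ℕ} (hs : ({a, b, c} : Finset ℕ) ∈ HS n t) :
    (hl t a b).testBit c = true := by
  obtain ⟨x, hx, y, hy, z, -, h1, e⟩ := hs
  have F := fa_all hn hM h hx hy h1
  exact perm3 (fun a b c => (hl t a b).testBit c = true) F.ab F.ca F.cb e h1 F.s1 F.s2
    (hl_comm t x y ▸ h1) (hl_comm t x z ▸ F.s1) (hl_comm t y z ▸ F.s2)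

end AHotx

open AHotx

theorem ahot : AHOT_s := by
  intro n hd m c3 tM t hn hM h
  have hb : ∀ {a b c : ℕ}, a < n → b < n → c < n →
      (({a, b, c} : Finset ℕ) ∈ HS n t ↔ (hl t a b).testBit c = true) := fun ha hb hc =>
    ⟨hs_bit hn hM h, fun z => ⟨_, ha, _, hb, _, hc, z, rfl⟩⟩
  refine ⟨fun a _ b _ c _ hs => hs_bit hn hM h hs, ?_, ?_⟩
  · intro q hq hP u hu v hv nu nv hK
    by_cases huv : u = v
    · exact huv ▸ hK
    obtain ⟨a, ha, b, hb', c, hc, d, hd', rfl, rfl, e, e4⟩ := two_tok hq.1 hu hv huv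
    have hcard : (q \ Gd n tM.get).card = 2 := by
      have := card_sdiff_add_card_inter q (Gd n tM.get)
      have h2 := hq.2
      omega
    have hpair : ({{a, b, c}, {a, b, d}} : Finset (Finset ℕ)) = q \ Gd n tM.get :=
      eq_of_subset_of_card_le (by
        intro f hf
        rcases mem_insert.1 hf with rfl | hf
        · exact mem_sdiff.2 ⟨hu, nu⟩
        · rw [mem_singleton.1 hf]; exact mem_sdiff.2 ⟨hv, nv⟩) (by rw [hcard, card_pair huv])
    have q3 : ({a, c, d} : Finset ℕ) ∈ q := by rw [e]; simp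
    have q4 : ({b, c, d} : Finset ℕ) ∈ q := by rw [e]; simp
    have hsub : q ∩ Gd n tM.get ⊆ {{a, c, d}, {b, c, d}} := by
      intro f hf
      obtain ⟨f1, f2⟩ := mem_inter.1 hf
      rw [e] at f1
      simp only [mem_insert, mem_singleton] at f1 ⊢
      rcases f1 with rfl | rfl | f1 | f1
      exacts [(nu f2).elim, (nv f2).elim, .inl f1, .inr f1]
    have heq := eq_of_subset_of_card_le hsub (card_le_two.trans hq.2.ge)
    have g1 : ({a, c, d} : Finset ℕ) ∈ Gd n tM.get :=
      (mem_inter.1 (heq.ge (mem_insert_self _ _))).2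
    have g2 : ({b, c, d} : Finset ℕ) ∈ Gd n tM.get :=
      (mem_inter.1 (heq.ge (mem_insert_of_mem (mem_singleton_self _)))).2
    have F := fa_all hn hM h ha hb' ((hb ha hb' hc).1 hK)
    by_contra hno
    rcases F.g2 d hd' ((mem_Gd hM ha hc hd').1 g1) ((mem_Gd hM hb' hc hd').1 g2)
      (fun z => nv ((mem_Gd hM ha hb' hd').2 z)) (fun z => hno ((hb ha hb' hd').2 z)) with r | r
    · exact hP _ q3 (r ▸ m3_has a c d)
    · exact hP _ q4 (r ▸ m3_has b c d)
  · intro h3 f hf hm q hq h1 a0 ha0 hall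
    have e4 : q.card = 4 := (sysN n hd).Qcard q hq
    have hc2 : 1 < ((q \ Gd n tM.get).erase a0).card := by
      have := card_sdiff_add_card_inter q (Gd n tM.get)
      have h5 := pred_card_le_card_erase (s := q \ Gd n tM.get) (a := a0)
      omega
    obtain ⟨u, hu, v, hv, huv⟩ := one_lt_card.1 hc2
    simp only [mem_erase, mem_sdiff] at hu hv
    have ku := ((hall u hu.2.1 hu.1).resolve_left fun z => hu.2.2 z.1).2
    have kv := ((hall v hv.2.1 hv.1).resolve_left fun z => hv.2.2 z.1).2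
    obtain ⟨a, ha, b, hb', c, hc, d, hd', rfl, rfl, e, -⟩ := two_tok hq hu.2.1 hv.2.1 huv
    have q3 : ({a, c, d} : Finset ℕ) ∈ q := by rw [e]; simp
    have q4 : ({b, c, d} : Finset ℕ) ∈ q := by rw [e]; simp
    have hne : ({a, c, d} : Finset ℕ) ≠ {b, c, d} := by
      intro z
      rw [e, z, insert_eq_of_mem (mem_singleton_self _)] at e4
      have := card_le_three (a := ({a, b, c} : Finset ℕ)) (b := {a, b, d}) (c := {b, c, d})
      omega
    have F := fa_all hn hM h ha hb' ((hb ha hb' hc).1 ku)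
    have w : ∀ x < n, ({x, c, d} : Finset ℕ) ∈ q → ({x, c, d} : Finset ℕ) ≠ a0 →
        bit n tM.get x c d = true ∨ (hl t x c).testBit d = true := fun x hx z1 z2 =>
      (hall _ z1 z2).imp (fun z => (mem_Gd hM hx hc hd').1 z.1) fun z => (hb hx hc hd').1 z.2
    have fin : ∀ x, ({x, c, d} : Finset ℕ) ∈ q → m3 x c d = m → ({x, c, d} : Finset ℕ) = a0 := by
      intro x z1 z2
      by_contra z3
      have ef : f = {x, c, d} := hm.set (z2 ▸ m3_has x c d)
      rcases hall _ z1 z3 with z | z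
      · exact z.2 ef.symm
      · exact z.1 (ef ▸ hf)
    have := F.g3 h3 d hd' ((hb ha hb' hd').1 kv)
      (by
        by_cases z : ({a, c, d} : Finset ℕ) = a0
        · exact .inr (w b hb' q4 fun y => hne (z.trans y.symm))
        · exact .inl (w a ha q3 z))
      (fun z => hne (card_le_one.1 h1 _ (mem_inter.2 ⟨q3, (mem_Gd hM ha hc hd').2 z.1⟩) _
        (mem_inter.2 ⟨q4, (mem_Gd hM hb' hc hd').2 z.2⟩)))
    rcases this with ⟨r1, r2⟩ | ⟨r1, r2⟩
    · exact r2 (w b hb' q4 fun y => hne ((fin a q3 r1).trans y.symm))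
    · exact r2 (w a ha q3 fun y => hne (y.trans (fin b q4 r1).symm))

theorem asep : ASEP_s := by
  intro n t1 t2 hn h2 h s hs hs2
  obtain ⟨a, ha, b, hb, c, hc, h1, rfl⟩ := hs
  have k := h2 a ha b hb c hc hs2
  have h3 := hp_hl h (ha.trans_le hn) (hb.trans_le hn) h1
  have h4 : hl t1 a b &&& hl t2 (min a b) (max a b) = 0 := z0_iff.1 h3
  have e : hl t2 (min a b) (max a b) = hl t2 a b := by
    rcases le_total a b with z | z
    · rw [min_eq_left z, max_eq_right z]
    · rw [min_eq_right z, max_eq_left z, hl_comm]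
  rw [e] at h4
  exact and_z h4 h1 k

end Pool.Agent.MP_797bdc_co.Lk.A
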