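import Pool.Agent.MP_797bdc_co.Lk.AStm

/-! The ordered label run gives injective masks; injective masks give the face labels. -/

namespace Pool.Agent.MP_797bdc_co.Lk.A

open Finset

namespace OrdL

theorem step0 (J : ℕ) (B : ℕ → ℕ) (F : ℕ → ℕ → ℕ) {j q s : ℕ} (hj : j ≤ J + 1) (hq : q < B j)
    (hm : s >>> 20 < F j q) (A : Finset (ℕ × ℕ))
    (h1 : ∀ x ∈ A, x.1 ≤ J + 1 ∧ x.2 < B x.1 ∧ F x.1 x.2 ≤ s >>> 20)
    (h2 : ∀ x ∈ A, ∀ y ∈ A, F x.1 x.2 = F y.1 y.2 → x = y) (h3 : s &&& 1048575 ≤ A.card)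
    {t : ℕ} (ht : t = F j q <<< 20 + ((s &&& 1048575) + 1)) : ∃ A : Finset (ℕ × ℕ),
    (∀ x ∈ A, x.1 ≤ J + 1 ∧ x.2 < B x.1 ∧ F x.1 x.2 ≤ t >>> 20) ∧
    (∀ x ∈ A, ∀ y ∈ A, F x.1 x.2 = F y.1 y.2 → x = y) ∧ t &&& 1048575 ≤ A.card := by
  have e20 : ∀ x : ℕ, x &&& 1048575 = x % 1048576 := fun x =>
    Nat.and_two_pow_sub_one_eq_mod x 20
  have s20 : ∀ x : ℕ, x >>> 20 = x / 1048576 := fun x => Nat.shiftRight_eq_div_pow x 20
  have l20 : ∀ x : ℕ, x <<< 20 = x * 1048576 := fun x => Nat.shiftLeft_eq x 20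
  have hn : ∀ y ∈ A, F y.1 y.2 < F j q := fun y hy => (h1 y hy).2.2.trans_lt hm
  have hA : (j, q) ∉ A := fun hy => lt_irrefl _ (hn _ hy)
  rw [l20, e20] at ht
  have hle : F j q ≤ t >>> 20 := by rw [s20]; omega
  refine ⟨insert (j, q) A, fun x hx => ?_, fun x hx y hy hxy => ?_, ?_⟩
  · rcases mem_insert.1 hx with rfl | hx
    · exact ⟨hj, hq, hle⟩
    · exact ⟨(h1 x hx).1, (h1 x hx).2.1, (hn x hx).le.trans hle⟩
  · rcases mem_insert.1 hx with rfl | hx <;> rcases mem_insert.1 hy with rfl | hy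
    · rfl
    · exact absurd hxy (hn y hy).ne'
    · exact absurd hxy (hn x hx).ne
    · exact h2 x hx y hy hxy
  · rw [card_insert_of_notMem hA]
    rw [e20] at h3 ⊢
    omega

theorem step {J nT TT SG : ℕ} {tZ : BT} (e s : ℕ) (k : ℕ → Bool)
    (h : os J nT TT SG tZ e s k = true) (hs : OInv J nT TT SG tZ s) :
    ∃ s', OInv J nT TT SG tZ s' ∧ k s' = true := by
  simp only [os, fb_eq, ap_eq, an_iff, lt_iff, ble_iff] at h
  obtain ⟨hj, hq, hm, hk⟩ := h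
  obtain ⟨A, h1, h2, h3⟩ := hs
  exact ⟨_, step0 J (lb J nT tZ) (lm J TT SG tZ) hj hq hm A h1 h2 h3 rfl, hk⟩

/-- the face `f` is the vertex set of a valid label with first part `j` -/
def V (J nT TT SG : ℕ) (tZ : BT) (f : Finset ℕ) (j : ℕ) : Prop :=
  ∃ q, j ≤ J + 1 ∧ q < lb J nT tZ j ∧ HasM (lm J TT SG tZ j q) f

variable {n J nT TT SG SK : ℕ} {tZ tF : BT}

theorem V.uniq (H : Inj J nT TT SG tZ) {f : Finset ℕ} {j j' : ℕ} (h : V J nT TT SG tZ f j)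
    (h' : V J nT TT SG tZ f j') : j = j' := by
  obtain ⟨q, h1, h2, h3⟩ := h
  obtain ⟨q', h1', h2', h3'⟩ := h'
  exact (H j h1 q h2 j' h1' q' h2' (h3.mask h3')).1

theorem v_nf {j p i : ℕ} (hj : j < J) (hp : p < (mkZ n J tZ tF SK).L j) (hi : i < 4) :
    V J nT TT SG tZ ((mkZ n J tZ tF SK).nf j p i) j :=
  ⟨12 * p + i, by omega, by rw [lb_zone (n := n) (tF := tF) (SK := SK) hj]; omega, lm_nf hj hi⟩

theorem v_rf {j p i : ℕ} (hj : j < J) (hp : p + 1 < (mkZ n J tZ tF SK).L j) (hi : i < 4) :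
    V J nT TT SG tZ ((mkZ n J tZ tF SK).rf j p i) j :=
  ⟨12 * p + 4 + i, by omega, by rw [lb_zone (n := n) (tF := tF) (SK := SK) hj]; omega,
    lm_rf hj hi⟩

/-- inner faces of zone `j` -/
def In (Z : Zn) (f : Finset ℕ) (j : ℕ) : Prop :=
  j < Z.J ∧ ((∃ p i, p + 1 < Z.L j ∧ i < 4 ∧ f = Z.rf j p i) ∨
    ∃ p i, Z.Node j p ∧ i < 4 ∧ f = Z.nf j p i)

/-- node or pole faces of zone `j` -/
def Po (Z : Zn) (f : Finset ℕ) (j : ℕ) : Prop :=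
  j < Z.J ∧ ∃ p < Z.L j, ∃ i < 4, f = Z.nf j p i

theorem lab_cases (Z : Zn) (f : Finset ℕ) :
    (∃ j, In Z f j ∧ labZ Z f = 2 * (j + 1)) ∨
    ((∀ j, ¬ In Z f j) ∧ ∃ j, Po Z f j ∧ labZ Z f = 2 * (j + 1) + 1) ∨
    ((∀ j, ¬ In Z f j) ∧ (∀ j, ¬ Po Z f j) ∧ labZ Z f = 0) := by
  unfold labZ
  split_ifs with h1 h2
  · exact Or.inl ⟨_, h1.choose_spec, rfl⟩
  · exact Or.inr (Or.inl ⟨fun j hj => h1 ⟨j, hj⟩, _, h2.choose_spec, rfl⟩)
  · exact Or.inr (Or.inr ⟨fun j hj => h1 ⟨j, hj⟩, fun j hj => h2 ⟨j, hj⟩, rfl⟩)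

theorem lab_mk (f : Finset ℕ) :
    (∃ j, In (mkZ n J tZ tF SK) f j ∧ (mkZ n J tZ tF SK).lab f = 2 * (j + 1)) ∨
    ((∀ j, ¬ In (mkZ n J tZ tF SK) f j) ∧
      ∃ j, Po (mkZ n J tZ tF SK) f j ∧ (mkZ n J tZ tF SK).lab f = 2 * (j + 1) + 1) ∨
    ((∀ j, ¬ In (mkZ n J tZ tF SK) f j) ∧ (∀ j, ¬ Po (mkZ n J tZ tF SK) f j) ∧
      (mkZ n J tZ tF SK).lab f = 0) :=
  lab_cases (preZ n J tZ tF SK) f

theorem v_in {f : Finset ℕ} {j : ℕ} (h : In (mkZ n J tZ tF SK) f j) :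
    j < J ∧ V J nT TT SG tZ f j := by
  obtain ⟨hj, ⟨p, i, hp, hi, rfl⟩ | ⟨p, i, hp, hi, rfl⟩⟩ := h
  · exact ⟨hj, v_rf hj hp hi⟩
  · exact ⟨hj, v_nf hj (Nat.lt_of_succ_lt hp.2.2) hi⟩

theorem v_po {f : Finset ℕ} {j : ℕ} (h : Po (mkZ n J tZ tF SK) f j) :
    j < J ∧ V J nT TT SG tZ f j := by
  obtain ⟨hj, p, hp, i, hi, rfl⟩ := h
  exact ⟨hj, v_nf hj hp hi⟩

end OrdL

open OrdL

theorem aord : AORD_s := by
  intro J nT TT SG tZ
  refine ⟨⟨∅, by simp, by simp, by simp⟩, fun l s s' h hs => ?_, fun s hs hc => ?_⟩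
  · obtain ⟨t, h1, h2⟩ := run_inv (OInv J nT TT SG tZ) step h hs
    rwa [beq_iff.1 h2]
  · obtain ⟨A, h1, h2, h3⟩ := hs
    have hm : ∀ x : ℕ × ℕ, x ∈ ((range (J + 2)).biUnion fun j => {j} ×ˢ range (lb J nT tZ j)) ↔
        x.1 ≤ J + 1 ∧ x.2 < lb J nT tZ x.1 := fun x => by
      simp only [mem_biUnion, mem_range, mem_product, mem_singleton]
      exact ⟨fun ⟨j, a, b, c⟩ => ⟨by omega, b ▸ c⟩, fun ⟨a, b⟩ => ⟨_, by omega, rfl, b⟩⟩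
    have hA : A = (range (J + 2)).biUnion fun j => {j} ×ˢ range (lb J nT tZ j) := by
      refine eq_of_subset_of_card_le (fun x hx => (hm x).2 ⟨(h1 x hx).1, (h1 x hx).2.1⟩) ?_
      refine card_biUnion_le.trans (le_trans (le_of_eq ?_) (hc.trans h3))
      simp only [card_product, card_singleton, card_range, one_mul, cL, sm_eq, add_e]
    intro j hj q hq j' hj' q' hq' e
    exact Prod.mk.inj (h2 (j, q) (hA ▸ (hm _).2 ⟨hj, hq⟩) (j', q') (hA ▸ (hm _).2 ⟨hj', hq'⟩) e)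

theorem alab : ALAB_s := by
  intro n J nT TT SG SK tZ tF H
  refine ⟨fun j hj p hp p' hp' e => ?_, fun j hj p hp i hi => ?_, fun j hj p hp i hi => ?_,
    fun f hf => ?_, fun f h0 h2 => ?_⟩
  · have hj : j < J := hj
    have e' : (mkZ n J tZ tF SK).nf j p 0 = (mkZ n J tZ tF SK).nf j p' 0 := by
      unfold Zn.nf; rw [e]
    have hb := lb_zone (n := n) (nT := nT) (tZ := tZ) (tF := tF) (SK := SK) hj
    have a1 : HasM (lm J TT SG tZ j (12 * p + 0)) ((mkZ n J tZ tF SK).nf j p 0) :=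
      lm_nf hj (by omega)
    have a2 : HasM (lm J TT SG tZ j (12 * p' + 0)) ((mkZ n J tZ tF SK).nf j p' 0) :=
      lm_nf hj (by omega)
    rw [← e'] at a2
    have := (H j (by omega) _ (by omega) j (by omega) _ (by omega) (a1.mask a2)).2
    omega
  · have hv := v_nf (nT := nT) (TT := TT) (SG := SG) hj hp hi
    rcases lab_mk (n := n) (J := J) (SK := SK) (tZ := tZ) (tF := tF)
      ((mkZ n J tZ tF SK).nf j p i) with ⟨j', a, b⟩ | ⟨a, j', b, c⟩ | ⟨_, a, _⟩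
    · have := hv.uniq H (v_in a).2
      rw [b]; omega
    · have := hv.uniq H (v_po b).2
      refine ⟨by rw [c]; omega, fun hN => absurd ⟨hj, Or.inr ⟨p, i, hN, hi, rfl⟩⟩ (a j)⟩
    · exact absurd ⟨hj, p, hp, i, hi, rfl⟩ (a j)
  · have hI : In (mkZ n J tZ tF SK) ((mkZ n J tZ tF SK).rf j p i) j :=
      ⟨hj, Or.inl ⟨p, i, hp, hi, rfl⟩⟩
    rcases lab_mk (n := n) (J := J) (SK := SK) (tZ := tZ) (tF := tF)
      ((mkZ n J tZ tF SK).rf j p i) with ⟨j', a, b⟩ | ⟨a, _⟩ | ⟨a, _⟩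
    · rw [b, (v_in (nT := nT) (TT := TT) (SG := SG) hI).2.uniq H (v_in a).2]
    · exact absurd hI (a j)
    · exact absurd hI (a j)
  · obtain ⟨q, hq, rfl⟩ := mem_image.1 hf
    have hv : V J nT TT SG tZ (sgf SG q) (J + 1) :=
      ⟨q, le_rfl, by rw [lb_sig]; exact mem_range.1 hq, lm_sig q⟩
    rcases lab_mk (n := n) (J := J) (SK := SK) (tZ := tZ) (tF := tF) (sgf SG q) with
      ⟨j', a, _⟩ | ⟨_, j', a, _⟩ | ⟨_, _, a⟩
    · have h1 := v_in (nT := nT) (TT := TT) (SG := SG) a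
      have := hv.uniq H h1.2
      omega
    · have h1 := v_po (nT := nT) (TT := TT) (SG := SG) a
      have := hv.uniq H h1.2
      omega
    · exact a
  · rcases lab_mk (n := n) (J := J) (SK := SK) (tZ := tZ) (tF := tF) f with
      ⟨j', a, _⟩ | ⟨_, j', _, a⟩ | ⟨_, _, a⟩
    · exact ⟨j', a⟩
    · omega
    · exact absurd a h0

end Pool.Agent.MP_797bdc_co.Lk.A
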