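import Pool.Agent.MP_797bdc_co.Lk.AStm

/-! The listed quads lie in the face set and are counted correctly. -/

namespace Pool.Agent.MP_797bdc_co.Lk.A

open Finset

namespace RC1

/-- Four different vertices. -/
def Dif (a b c d : ℕ) : Prop := a ≠ b ∧ a ≠ c ∧ a ≠ d ∧ b ≠ c ∧ b ≠ d ∧ c ≠ d

theorem card4 {a b c d : ℕ} (h : Dif a b c d) : ({a, b, c, d} : Finset ℕ).card = 4 := by
  obtain ⟨h1, h2, h3, h4, h5, h6⟩ := h
  simp [*]

theorem fq {n a b c d : ℕ} (hd : DimP n) {G : Finset (Finset ℕ)} (h : Dif a b c d) (ha : a < n)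
    (hb : b < n) (hc : c < n) (hd' : d < n) (g1 : {a, c, d} ∈ G) (g2 : {b, c, d} ∈ G)
    (g3 : {a, b, c} ∈ G) (g4 : {a, b, d} ∈ G) :
    FQ (sysN n hd) G (powersetCard 3 {a, b, c, d}) := by
  have h4 := card4 h
  refine ⟨⟨_, fun x hx => ?_, h4, rfl⟩, fun f hf => ?_⟩
  · simp only [mem_insert, mem_singleton] at hx
    rw [mem_range]; omega
  obtain ⟨h1, h2, h3, h4', h5, h6⟩ := h
  obtain ⟨hs, hc⟩ := mem_powersetCard.1 hf
  obtain ⟨x, hx, hn⟩ := exists_mem_notMem_of_card_lt_card (s := f) (t := {a, b, c, d}) (by omega)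
  have e : f = ({a, b, c, d} : Finset ℕ).erase x :=
    eq_of_subset_of_card_le (subset_erase.2 ⟨hs, hn⟩) (by rw [card_erase_of_mem hx]; omega)
  simp only [mem_insert, mem_singleton] at hx
  rcases hx with rfl | rfl | rfl | rfl
  · convert g2 using 1
    rw [e]; ext y; simp only [mem_erase, mem_insert, mem_singleton]; omega
  · convert g1 using 1
    rw [e]; ext y; simp only [mem_erase, mem_insert, mem_singleton]; omega
  · convert g4 using 1
    rw [e]; ext y; simp only [mem_erase, mem_insert, mem_singleton]; omega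
  · convert g3 using 1
    rw [e]; ext y; simp only [mem_erase, mem_insert, mem_singleton]; omega

theorem pw_sub {s t : Finset ℕ} (hs : s.card = 4) (e : powersetCard 3 s = powersetCard 3 t) :
    s ⊆ t := fun x hx => by
  obtain ⟨u, h1, h2, h3⟩ := exists_subsuperset_card_eq (singleton_subset_iff.2 hx)
    (n := 3) (by simp) (by omega)
  exact (mem_powersetCard.1 (e ▸ mem_powersetCard.2 ⟨h2, h3⟩)).1 (h1 (mem_singleton_self x))

theorem lab_inj {J nT TT SG : ℕ} {tZ : BT} (H : Inj J nT TT SG tZ) {j q j' q' : ℕ}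
    {s t : Finset ℕ} (hj : j ≤ J + 1) (hq : q < lb J nT tZ j) (hj' : j' ≤ J + 1)
    (hq' : q' < lb J nT tZ j') (ms : HasM (lm J TT SG tZ j q) s) (mt : HasM (lm J TT SG tZ j' q') t)
    (hs : s.card = 4) (ht : t.card = 4) (e : powersetCard 3 s = powersetCard 3 t) :
    j = j' ∧ q = q' :=
  H j hj q hq j' hj' q' hq'
    (ms.mask ((Subset.antisymm (pw_sub hs e) (pw_sub ht e.symm)).symm ▸ mt))

theorem md4 (t : ℕ) : t % 4 < 4 := Nat.mod_lt _ (by omega)

theorem zdif {Z : Zn} {n root : ℕ} {par : ℕ → ℕ} {G : Finset (Finset ℕ)} (H : Z.OK n root par G)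
    {j p i : ℕ} (hj : j < Z.J) (hq : p + 1 < Z.L j) (hi : i < 4) :
    Dif (Z.rim j p) (Z.rim j (p + 1)) (Z.c j i) (Z.c j ((i + 1) % 4)) :=
  ⟨fun m => by have := H.ri j hj p (by omega) _ hq m; omega, H.rc j hj p (by omega) i hi,
    H.rc j hj p (by omega) _ (md4 _), H.rc j hj _ hq i hi, H.rc j hj _ hq _ (md4 _),
    fun m => by have := H.ci j hj i hi _ (md4 _) m; omega⟩

theorem tk_of {n J nT TT SG U q0 : ℕ} {tM tZ : BT} {l : List ℕ}
    (h : cR n J nT TT SG U q0 tM tZ l = true) {q : ℕ} (hq : q < nT) : tk n TT tM q = true := by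
  have h1 := al_iff.1 (an_iff.1 h).1 (q / 64) (by
    show q / 64 < nT >>> 6 + 1
    rw [Nat.shiftRight_eq_div_pow]; omega)
  have h2 := rg_iff.1 h1 q (by show q / 64 * 64 ≤ q; omega) (by show q < q / 64 * 64 + 64; omega)
  exact (orr_iff.1 h2).resolve_left fun e => absurd (ble_iff.1 e) (by omega)

theorem sk_ok {n TT : ℕ} {tM : BT} (hd : DimP n) (hM : SymM n tM.get) {q : ℕ}
    (h : tk n TT tM q = true) : (skv TT q).card = 4 ∧
      FQ (sysN n hd) (Gd n tM.get) (powersetCard 3 (skv TT q)) := by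
  simp only [tk, fb_eq, ap_eq, an_iff, lt_iff, t2_eq] at h
  obtain ⟨⟨⟨ha, hb⟩, hc, hd'⟩, ⟨b1, b2⟩, b3, b4⟩ := h
  obtain ⟨n1, n2, n3, -⟩ := hM.2 _ ha _ hb _ hc b1
  obtain ⟨-, n4, n5, -⟩ := hM.2 _ ha _ hb _ hd' b2
  obtain ⟨-, -, n6, -⟩ := hM.2 _ ha _ hc _ hd' b3
  have D : Dif _ _ _ _ := ⟨n1, n2, n4, n3, n5, n6⟩
  exact ⟨card4 D, fq hd D ha hb hc hd' ((mem_Gd hM ha hc hd').2 b3) ((mem_Gd hM hb hc hd').2 b4)
    ((mem_Gd hM ha hb hc).2 b1) ((mem_Gd hM ha hb hd').2 b2)⟩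

end RC1

open RC1 in
theorem arc1 : ARC1_s := by
  intro n hd J nT TT SG SK U q0 tM tZ tF l root par hM H hI hR
  have sk := fun q (hq : q < nT) => sk_ok hd hM (tk_of hR hq)
  have ms : ∀ x : (_ : ℕ) × (ℕ × ℕ), x ∈ ((range (mkZ n J tZ tF SK).J).sigma fun j =>
      range ((mkZ n J tZ tF SK).L j - 1) ×ˢ range 4) →
      x.1 < J ∧ x.2.1 + 1 < (mkZ n J tZ tF SK).L x.1 ∧ x.2.2 < 4 := fun x hx => by
    simp only [mem_sigma, mem_product, mem_range] at hx
    exact ⟨hx.1, by omega, hx.2.2⟩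
  have zb : ∀ j < J, ∀ p i, p + 1 < (mkZ n J tZ tF SK).L j → i < 4 →
      12 * p + 8 + i < lb J nT tZ j := fun j hj p i hp hi => by
    rw [lb_zone (n := n) (tF := tF) (SK := SK) hj]; omega
  refine ⟨fun q hq => ?_, ?_⟩
  · rcases mem_union.1 hq with hq | hq
    · obtain ⟨x, hx, rfl⟩ := mem_image.1 hq
      obtain ⟨hj, hp, hi⟩ := ms x hx
      exact fq hd (zdif H hj hp hi) (H.rn _ hj _ (by omega)) (H.rn _ hj _ hp) (H.cn _ hj _ hi)
        (H.cn _ hj _ (md4 _)) (H.nfG _ hj _ (by omega) _ hi).1 (H.nfG _ hj _ hp _ hi).1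
        (H.rfG _ hj _ hp _ hi).1 (H.rfG _ hj _ hp _ (md4 _)).1
    · obtain ⟨x, hx, rfl⟩ := mem_image.1 hq
      exact (sk x (mem_range.1 hx)).2
  · rw [TQ, card_union_of_disjoint, card_image_of_injOn, card_image_of_injOn, card_sigma,
      card_range]
    · simp only [card_product, card_range, cT, sm_eq, add_e, mul_e, sub_e]
      exact le_rfl
    · intro x hx y hy e
      have hx := mem_range.1 (mem_coe.1 hx)
      have hy := mem_range.1 (mem_coe.1 hy)
      exact (lab_inj hI (by omega) (lb_sk.symm ▸ hx) (by omega) (lb_sk.symm ▸ hy) (lm_sk x)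
        (lm_sk y) (sk x hx).1 (sk y hy).1 e).2
    · rintro ⟨j, p, i⟩ hx ⟨j', p', i'⟩ hy e
      obtain ⟨hj, hp, hi⟩ := ms _ (mem_coe.1 hx)
      obtain ⟨hj', hp', hi'⟩ := ms _ (mem_coe.1 hy)
      dsimp only at hj hp hi hj' hp' hi'
      obtain ⟨rfl, e2⟩ := lab_inj hI (by omega) (zb j hj p i hp hi) (by omega)
        (zb j' hj' p' i' hp' hi') (lm_tet hj hi) (lm_tet hj' hi') (card4 (zdif H hj hp hi))
        (card4 (zdif H hj' hp' hi')) e
      obtain rfl : p = p' := by omega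
      obtain rfl : i = i' := by omega
      rfl
    · rw [disjoint_left]
      intro q hq hq'
      obtain ⟨⟨j, p, i⟩, hx, rfl⟩ := mem_image.1 hq
      obtain ⟨y, hy, e⟩ := mem_image.1 hq'
      obtain ⟨hj, hp, hi⟩ := ms _ hx
      dsimp only at hj hp hi
      have hy := mem_range.1 hy
      have := (lab_inj hI (by omega) (lb_sk.symm ▸ hy) (by omega) (zb j hj p i hp hi) (lm_sk y)
        (lm_tet hj hi) (sk y hy).1 (card4 (zdif H hj hp hi)) e).1
      omega

end Pool.Agent.MP_797bdc_co.Lk.A
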