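import Pool.Agent.MP_797bdc_co.Lk.AStm

/-! All listed quads are reached in the dual graph. -/

namespace Pool.Agent.MP_797bdc_co.Lk.A

open Finset

namespace ARC2

variable {n J nT TT SG SK root : ℕ} {tZ tF : BT} {par : ℕ → ℕ} {M : ℕ → ℕ}
  {p0 : Finset (Finset ℕ)}

lemma card3 {f : Finset ℕ} (h : f ∈ Gd n M) : f.card = 3 :=
  (mem_powersetCard.1 (mem_filter.1 h).1).2

lemma tet_mem {Z : Zn} {j p i : ℕ} (hj : j < Z.J) (hp : p + 1 < Z.L j) (hi : i < 4) :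
    Z.tet j p i ∈ TQ Z nT TT :=
  mem_union_left _ (mem_image.2 ⟨⟨j, p, i⟩, mem_sigma.2 ⟨mem_range.2 hj,
    mem_product.2 ⟨mem_range.2 (by simp only; omega), mem_range.2 hi⟩⟩, rfl⟩)

lemma sk_mem {Z : Zn} {q : ℕ} (hq : q < nT) : powersetCard 3 (skv TT q) ∈ TQ Z nT TT :=
  mem_union_right _ (mem_image.2 ⟨q, mem_range.2 hq, rfl⟩)

lemma nsig (hI : Inj J nT TT SG tZ) {j q : ℕ} (hj : j < J) (hq : q < lb J nT tZ j) {f : Finset ℕ}
    (h : HasM (lm J TT SG tZ j q) f) : f ∉ SigD SG := fun hf => by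
  obtain ⟨r, hr, rfl⟩ := mem_image.1 hf
  have := (hI j (by omega) q hq (J + 1) le_rfl r (by rw [lb_sig]; exact mem_range.1 hr)
    (h.mask (lm_sig r))).1
  omega

/-- all quads of one zone are joined -/
lemma zone (hZ : (mkZ n J tZ tF SK).OK n root par (Gd n M)) (hI : Inj J nT TT SG tZ) {j : ℕ}
    (hj : j < J) {p i : ℕ} (hp : p + 1 < (mkZ n J tZ tF SK).L j) (hi : i < 4)
    (h : Rch (TQ (mkZ n J tZ tF SK) nT TT) (SigD SG) p0 ((mkZ n J tZ tF SK).tet j p i)) :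
    ∀ p', p' + 1 < (mkZ n J tZ tF SK).L j → ∀ i' < 4,
      Rch (TQ (mkZ n J tZ tF SK) nT TT) (SigD SG) p0 ((mkZ n J tZ tF SK).tet j p' i') := by
  have hl := lb_zone (n := n) (nT := nT) (tZ := tZ) (tF := tF) (SK := SK) hj
  have hr := fun p i hi => lm_rf (n := n) (TT := TT) (SG := SG) (tZ := tZ) (tF := tF) (SK := SK)
    (p := p) (i := i) hj hi
  have hn := fun p i hi => lm_nf (n := n) (TT := TT) (SG := SG) (tZ := tZ) (tF := tF) (SK := SK)
    (p := p) (i := i) hj hi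
  have hj' : j < (mkZ n J tZ tF SK).J := hj
  generalize mkZ n J tZ tF SK = Z at *
  have rot : ∀ p, p + 1 < Z.L j → ∀ i < 4, Rch (TQ Z nT TT) (SigD SG) p0 (Z.tet j p i) →
      Rch (TQ Z nT TT) (SigD SG) p0 (Z.tet j p ((i + 1) % 4)) := fun p hp i _ h => by
    have hi' : (i + 1) % 4 < 4 := Nat.mod_lt _ (by omega)
    have hc := card3 (hZ.rfG j hj' p hp _ hi').1
    exact h.step (f := Z.rf j p ((i + 1) % 4)) (tet_mem hj' hp hi')
      (mem_powersetCard.2 ⟨by simp [Zn.rf, insert_subset_iff], hc⟩)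
      (mem_powersetCard.2 ⟨by simp [Zn.rf, insert_subset_iff], hc⟩)
      (nsig hI hj (by omega) (hr p _ hi'))
  have all : ∀ p, p + 1 < Z.L j → ∀ i < 4, Rch (TQ Z nT TT) (SigD SG) p0 (Z.tet j p i) →
      ∀ i' < 4, Rch (TQ Z nT TT) (SigD SG) p0 (Z.tet j p i') := fun p hp i hi h i' hi' => by
    have h1 := rot p hp i hi h
    have h2 := rot p hp _ (Nat.mod_lt _ (by omega)) h1
    have h3 := rot p hp _ (Nat.mod_lt _ (by omega)) h2
    have : i' = i ∨ i' = (i + 1) % 4 ∨ i' = ((i + 1) % 4 + 1) % 4 ∨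
      i' = (((i + 1) % 4 + 1) % 4 + 1) % 4 := by omega
    rcases this with rfl | rfl | rfl | rfl
    exacts [h, h1, h2, h3]
  have ud : ∀ p, p + 2 < Z.L j → (Rch (TQ Z nT TT) (SigD SG) p0 (Z.tet j p i) ↔
      Rch (TQ Z nT TT) (SigD SG) p0 (Z.tet j (p + 1) i)) := fun p hp => by
    have hc := card3 (hZ.nfG j hj' (p + 1) (by omega) i hi).1
    have a1 : Z.nf j (p + 1) i ∈ Z.tet j p i :=
      mem_powersetCard.2 ⟨by simp [Zn.nf], hc⟩
    have a2 : Z.nf j (p + 1) i ∈ Z.tet j (p + 1) i :=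
      mem_powersetCard.2 ⟨by simp [Zn.nf, insert_subset_iff], hc⟩
    have a3 := nsig hI hj (by omega) (hn (p + 1) i hi)
    exact ⟨fun h => h.step (tet_mem hj' hp hi) a1 a2 a3,
      fun h => h.step (tet_mem hj' (by omega) hi) a2 a1 a3⟩
  have z : ∀ p, p + 1 < Z.L j → (Rch (TQ Z nT TT) (SigD SG) p0 (Z.tet j 0 i) ↔
      Rch (TQ Z nT TT) (SigD SG) p0 (Z.tet j p i)) := fun p => by
    induction p with
    | zero => exact fun _ => Iff.rfl
    | succ p ih => exact fun hp => (ih (by omega)).trans (ud p hp)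
  exact fun p' hp' => all p' hp' i hi ((z p' hp').1 ((z p hp).2 h))

/-- the owners recorded in `s` are reached -/
def P (Z : Zn) (nT TT SG : ℕ) (p0 : Finset (Finset ℕ)) (s : ℕ) : Prop :=
  (∀ j < Z.J, s.testBit j = true → ∀ p, p + 1 < Z.L j → ∀ i < 4,
    Rch (TQ Z nT TT) (SigD SG) p0 (Z.tet j p i)) ∧
  ∀ q, s.testBit (q + Z.J) = true → Rch (TQ Z nT TT) (SigD SG) p0 (powersetCard 3 (skv TT q))

lemma label (hZ : (mkZ n J tZ tF SK).OK n root par (Gd n M)) (hI : Inj J nT TT SG tZ) {j q : ℕ}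
    (h : lq J nT tZ j q = true) : ∃ V, HasM (lm J TT SG tZ j q) V ∧
      powersetCard 3 V ∈ TQ (mkZ n J tZ tF SK) nT TT ∧ ∀ s, P (mkZ n J tZ tF SK) nT TT SG p0 s →
      (s.testBit (ow J j q) = true →
        Rch (TQ (mkZ n J tZ tF SK) nT TT) (SigD SG) p0 (powersetCard 3 V)) ∧
      (Rch (TQ (mkZ n J tZ tF SK) nT TT) (SigD SG) p0 (powersetCard 3 V) →
        P (mkZ n J tZ tF SK) nT TT SG p0 (s ||| p2 (ow J j q))) := by
  simp only [lq, an_iff, orr_iff, lt_iff, ble_iff, beq_iff, mod_e] at h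
  obtain ⟨h1, h2, h3⟩ := h
  have eJ : (mkZ n J tZ tF SK).J = J := rfl
  rcases h1.lt_or_eq with hj | rfl
  · have h3 : 8 ≤ q % 12 := h3.resolve_left hj.ne
    have eo : ow J j q = j := by simp only [ow, cn_eq, lt_iff, if_pos hj]
    rw [lb_zone (n := n) (tF := tF) (SK := SK) hj] at h2
    obtain ⟨p, i, hi, rfl⟩ : ∃ p i, i < 4 ∧ q = 12 * p + 8 + i :=
      ⟨q / 12, q % 12 - 8, by omega, by omega⟩
    have hp : p + 1 < (mkZ n J tZ tF SK).L j := by omega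
    rw [eo]
    refine ⟨_, lm_tet hj hi, tet_mem (Z := mkZ n J tZ tF SK) hj hp hi, fun s hs =>
      ⟨fun hb => hs.1 j hj hb p hp i hi, fun hr => ⟨fun j' hj' hb => ?_, fun q' hb => ?_⟩⟩⟩
    · rcases or_tb.1 hb with hb | hb
      · exact hs.1 j' hj' hb
      · rw [p2_tb.1 hb]
        exact zone hZ hI hj hp hi hr
    · rcases or_tb.1 hb with hb | hb
      · exact hs.2 q' hb
      · have := p2_tb.1 hb
        omega
  · have eo : ow j j q = q + j := by simp only [ow, cn_eq, lt_iff, lt_irrefl, if_false, add_e]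
    rw [lb_sk] at h2
    rw [eo]
    refine ⟨_, lm_sk q, sk_mem h2, fun s hs =>
      ⟨hs.2 q, fun hr => ⟨fun j' hj' hb => ?_, fun q' hb => ?_⟩⟩⟩
    · rcases or_tb.1 hb with hb | hb
      · exact hs.1 j' hj' hb
      · have := p2_tb.1 hb
        omega
    · rcases or_tb.1 hb with hb | hb
      · exact hs.2 q' hb
      · have := p2_tb.1 hb
        rwa [show q' = q by omega]

lemma step (hZ : (mkZ n J tZ tF SK).OK n root par (Gd n M)) (hI : Inj J nT TT SG tZ) (e s : ℕ)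
    (k : ℕ → Bool) (h : rs J nT TT SG tZ e s k = true) (hs : P (mkZ n J tZ tF SK) nT TT SG p0 s) :
    ∃ s', P (mkZ n J tZ tF SK) nT TT SG p0 s' ∧ k s' = true := by
  simp only [rs, fb_eq, ap_eq, an_iff, beq_iff, tb_eq, land_e, lor_e] at h
  obtain ⟨h1, h2, h3, h4, h5, h6⟩ := h
  obtain ⟨V, m1, -, r1⟩ := label (p0 := p0) hZ hI h1
  obtain ⟨V', m2, t2, r2⟩ := label (p0 := p0) hZ hI h2
  have hm := fun x => (and_tb.trans (and_congr (m1 x) (m2 x))).trans mem_inter.symm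
  rw [pc_eq _ Nat.lt_two_pow_self, HasM.set (s' := V ∩ V') (fun x => ⟨fun h => mem_bs.2
    ⟨Nat.lt_two_pow_self.trans_le (Nat.ge_two_pow_of_testBit h), h⟩, fun h => (mem_bs.1 h).2⟩)
    hm] at h4
  have hc : (V ∩ V').card = 3 := by omega
  exact ⟨_, (r2 s hs).2 (((r1 s hs).1 h3).step t2 (mem_powersetCard.2 ⟨inter_subset_left, hc⟩)
    (mem_powersetCard.2 ⟨inter_subset_right, hc⟩) ((nS_not hm).1 h5)), h6⟩

end ARC2

open ARC2 in
theorem arc2 : ARC2_s := by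
  intro n J nT TT SG SK U q0 tM tZ tF l root par u hZ hI hU hu h
  simp only [cR, an_iff, lt_iff, add_e] at h
  obtain ⟨-, h1, h2, h3⟩ := h
  have eJ : (mkZ n J tZ tF SK).J = J := rfl
  obtain ⟨s, hs, e⟩ := run_inv (P (mkZ n J tZ tF SK) nT TT SG (powersetCard 3 (skv TT q0)))
    (step hZ hI) h3 ⟨fun j hj hb => by have := p2_tb.1 hb; omega, fun q hb => by
      have := p2_tb.1 hb
      rw [show q = q0 by omega]
      exact .base⟩
  have hb : ∀ c < J + nT, s.testBit c = true := fun c hc => by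
    rw [← beq_iff.1 e, on_eq, Nat.testBit_two_pow_sub_one, decide_eq_true hc]
  refine ⟨_, sk_mem h1, mem_powersetCard.2 ⟨fun x hx => (lm_sk q0 x).1 (sub_el h2 ((hU x).2 hx)), hu⟩,
    fun q hq => ?_⟩
  rcases mem_union.1 hq with hq | hq
  · obtain ⟨⟨j, p, i⟩, hx, rfl⟩ := mem_image.1 hq
    simp only [mem_sigma, mem_product, mem_range] at hx
    exact hs.1 j hx.1 (hb j (by omega)) p (by omega) i hx.2.2
  · obtain ⟨q, hx, rfl⟩ := mem_image.1 hq
    exact hs.2 q (hb _ (by have := mem_range.1 hx; omega))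

end Pool.Agent.MP_797bdc_co.Lk.A
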