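import Pool.Agent.MP_797bdc_co.Lk.AStm

/-! Static checker: symmetry of the link matrices and the number of faces. -/

namespace Pool.Agent.MP_797bdc_co.Lk.A

open Finset

namespace Asym

theorem facts {n H1 H2 U SG : ℕ} {tM : BT} (h : cA n H1 H2 U SG tM 0 n = true) {a : ℕ}
    (ha : a < n) : tM.get a < 2 ^ (n * n) ∧ (∀ c < n, ¬ bit n tM.get a a c = true) ∧
    ∀ b < n, a < b → ∀ c < n, (bit n tM.get a b c = true ↔ bit n tM.get b a c = true) ∧
      (bit n tM.get a b c = true → c ≠ a ∧ c ≠ b ∧ bit n tM.get a c b = true ∧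
        (b < c → bit n tM.get b c a = true)) := by
  have h0 : rg (nat_lit 0) n (va n (on n) H1 H2 U SG tM) = true := h
  have h1 := rg0.1 h0 a ha
  simp only [va, ap_eq, an_iff, z0_iff, rg_iff, shr_e, mul_e, add_e, sub_e] at h1
  obtain ⟨h1, h2, h3⟩ := h1
  refine ⟨?_, fun c hc e => ?_, fun b hb hab c hc => ?_⟩
  · rw [Nat.shiftRight_eq_div_pow] at h1
    exact (Nat.div_eq_zero_iff_lt (by positivity)).1 h1
  · have := ro_tb.2 ⟨hc, e⟩
    rw [h2] at this
    simp at this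
  · have h4 := h3 b hab (by omega)
    simp only [pa, an_iff, beq_iff, z0_iff, land_e, lor_e] at h4
    obtain ⟨h4, h5, h6⟩ := h4
    refine ⟨⟨fun e => (ro_tb.1 (h4 ▸ ro_tb.2 ⟨hc, e⟩)).2,
      fun e => (ro_tb.1 (h4.symm ▸ ro_tb.2 ⟨hc, e⟩)).2⟩, fun e => ?_⟩
    have hx := ro_tb.2 ⟨hc, e⟩
    have h7 := and_z h5 hx
    have h8 := cb_iff.1 (it_el h6 hx)
    refine ⟨fun k => h7 (or_tb.2 (Or.inl (p2_tb.2 k))), fun k => h7 (or_tb.2 (Or.inr (p2_tb.2 k))),
      ?_⟩
    by_cases hbc : b < c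
    · have h9 := h8.1 (lt_iff.2 hbc)
      simp only [fa, an_iff, tb_eq] at h9
      exact ⟨(ro_tb.1 h9.1).2, fun _ => (ro_tb.1 h9.2.1).2⟩
    · have h9 := h8.2 fun k => hbc (lt_iff.1 k)
      rw [t2_eq] at h9
      exact ⟨h9, fun k => absurd k hbc⟩

theorem tri_inj {a b c x y z : ℕ} (h1 : a < b) (h2 : b < c) (h3 : x < y) (h4 : y < z)
    (h : ({a, b, c} : Finset ℕ) = {x, y, z}) : a = x ∧ b = y ∧ c = z := by
  have e := fun t => Finset.ext_iff.1 h t
  simp only [mem_insert, mem_singleton] at e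
  have e1 := (e a).1 (by simp)
  have e2 := (e b).1 (by simp)
  have e3 := (e c).1 (by simp)
  omega

end Asym

theorem asym : ASYM_s := by
  intro n H1 H2 U SG tM h
  refine ⟨fun a ha => (Asym.facts h ha).1, fun a ha b hb c hc e => ?_⟩
  rcases lt_trichotomy a b with hab | rfl | hab
  · obtain ⟨r, t⟩ := (Asym.facts h ha).2.2 b hb hab c hc
    obtain ⟨t1, t2, t3, -⟩ := t e
    exact ⟨hab.ne, t1.symm, t2.symm, r.1 e, t3⟩
  · exact absurd e ((Asym.facts h ha).2.1 c hc)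
  · obtain ⟨r, t⟩ := (Asym.facts h hb).2.2 a ha hab c hc
    obtain ⟨t1, t2, t3, t4⟩ := t (r.2 e)
    refine ⟨hab.ne', t2.symm, t1.symm, r.2 e, ?_⟩
    rcases lt_or_gt_of_ne t2 with hca | hac
    · refine ((Asym.facts h hc).2.2 a ha hca b hb).1.1 ?_
      rcases lt_or_gt_of_ne t1 with hcb | hbc
      · obtain ⟨r', t'⟩ := (Asym.facts h hc).2.2 b hb hcb a ha
        exact (t' (r'.2 t3)).2.2.1
      · exact (((Asym.facts h hb).2.2 c hc hbc a ha).2 t3).2.2.2 hca
    · exact t4 hac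

theorem anum : ANUM_s := by
  intro n tM h
  have e : cN n tM = ((range n).sigma fun a => (range (n - (a + 1))).sigma fun k =>
      bs n (ro n (on n) (tM.get a) (a + 1 + k) >>> (a + 1 + k + 1))).card := by
    simp only [cN, cn1, fn_eq, aq_eq, sm_eq, add_e, sub_e, shr_e, card_sigma]
    refine sum_congr rfl fun a _ => sum_congr rfl fun k _ => ?_
    rw [pc_eq (n := n) n ((Nat.shiftRight_le _ _).trans_lt (ro_lt _ _ _))]
    exact min_eq_right ((card_filter_le _ _).trans (card_range n).le)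
  rw [e]
  symm
  refine card_bij (fun x _ => {x.1, x.1 + 1 + x.2.1, x.1 + 1 + x.2.1 + 1 + x.2.2}) ?_ ?_ ?_
  · rintro ⟨a, k, j⟩ hx
    simp only [mem_sigma, mem_range, mem_bs, Nat.testBit_shiftRight, ro_tb] at hx
    exact (mem_Gd h hx.1 (show a + 1 + k < n by omega) hx.2.2.2.1).2 hx.2.2.2.2
  · rintro ⟨a, k, j⟩ - ⟨a', k', j'⟩ - hx
    obtain ⟨e1, e2, e3⟩ := Asym.tri_inj (by omega) (by omega) (by omega) (by omega) hx
    simp only at e1 e2 e3
    obtain rfl : a = a' := e1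
    obtain rfl : k = k' := by omega
    obtain rfl : j = j' := by omega
    rfl
  · intro s hs
    simp only [Gd, Om, mem_filter, mem_powersetCard] at hs
    obtain ⟨⟨h1, h2⟩, a, ha, b, hb, c, hc, hab, hbc, hbit⟩ := hs
    have hc' := mem_range.1 (h1 hc)
    obtain ⟨k, rfl⟩ : ∃ k, b = a + 1 + k := ⟨b - (a + 1), by omega⟩
    obtain ⟨j, rfl⟩ : ∃ j, c = a + 1 + k + 1 + j := ⟨c - (a + 1 + k + 1), by omega⟩
    refine ⟨⟨a, k, j⟩, ?_, ?_⟩
    · simp only [mem_sigma, mem_range, mem_bs, Nat.testBit_shiftRight, ro_tb]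
      exact ⟨by omega, by omega, by omega, hc', hbit⟩
    · refine eq_of_subset_of_card_le (fun t ht => ?_) ?_
      · simp only [mem_insert, mem_singleton] at ht
        rcases ht with rfl | rfl | rfl <;> assumption
      · rw [h2, card_eq_three.2 ⟨_, _, _, hab.ne, (hab.trans hbc).ne, hbc.ne, rfl⟩]

end Pool.Agent.MP_797bdc_co.Lk.A
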