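import Pool.Agent.MP_797bdc_co.Lk.AStm

/-! Soundness of the zone check and of the cover check. -/

namespace Pool.Agent.MP_797bdc_co.Lk.A

open Finset

namespace Zon

theorem nw_lt (r i : ℕ) : nw r i (nat_lit 3) < 4 :=
  Nat.lt_succ_of_le Nat.and_le_right

theorem pr_s {n J SK : ℕ} {tZ tF : BT} {x c r : ℕ} (hx : x < n) (hc : c < n)
    (h : pr n J SK tZ tF x c r = true) :
    (x < n ∧ c < n ∧ SK.testBit (n * x + c) = true) ∨ ∃ j' p' i',
      (j' < J ∧ 0 < p' ∧ p' + 1 < zl (tZ.get j')) ∧ i' < 4 ∧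
      nnr (nrec (tF.get j') p') < nnr r ∧
      ((zr (tZ.get j') p' = x ∧ zc (tZ.get j') i' = c ∧
          (∀ k, (nfo (nrec (tF.get j') p')).testBit k = true → (nfo r).testBit k = true) ∧
          ∀ k, (nfu (nrec (tF.get j') p')).testBit k = true → (nfu r).testBit k = true) ∨
       (zr (tZ.get j') p' = c ∧ zc (tZ.get j') i' = x ∧
          ∀ k, (nfu (nrec (tF.get j') p')).testBit k = true → (nfo r).testBit k = true)) := by
  simp only [pr, nd, fb_eq, ap_eq, cb_iff, an_iff, lt_iff, t2_eq, add_e] at h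
  by_cases e : z0 (nw r (nat_lit 4) (nat_lit 3)) = true
  · exact Or.inl ⟨hx, hc, h.1 e⟩
  · obtain ⟨h1, h2, h3, h4⟩ := h.2 e
    refine Or.inr ⟨_, _, _, h1, nw_lt r (nat_lit 2), h2, ?_⟩
    by_cases e' : Nat.beq (nw r (nat_lit 4) (nat_lit 3)) (nat_lit 1) = true
    · obtain ⟨a, b, c, d⟩ := h3 e'
      exact Or.inl ⟨beq_iff.1 a, beq_iff.1 b, fun k => sub_el c, fun k => sub_el d⟩
    · obtain ⟨a, b, c⟩ := h4 e'
      exact Or.inr ⟨beq_iff.1 a, beq_iff.1 b, fun k => sub_el c⟩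

theorem no_s {n J SK MB : ℕ} {tZ tF : BT} {j z f x p : ℕ}
    (h : no n (on n) J SK MB tZ tF j z f x p (zc z 0) (zc z 1) (zc z 2) (zc z 3) = true) :
    (nfu (nrec f p)).testBit j = true ∧
    (∀ k, (nfo (nrec f p)).testBit k = true → (nfu (nrec f p)).testBit k = true) ∧
    (∀ k, MB.testBit (x * 256 + k) = true → ¬ (nfo (nrec f p)).testBit k = true) ∧
    (∀ i < 4, ¬ ((zc z i < n ∧ SK.testBit (n * x + zc z i) = true) ∧
      (zc z ((i + 1) % 4) < n ∧ SK.testBit (n * x + zc z ((i + 1) % 4)) = true))) ∧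
    ∃ i < 4, pr n J SK tZ tF x (zc z i) (nrec f p) = true := by
  simp only [no, ap_eq, an_iff, orr_iff, nt_iff, tb_eq, z0_iff, ro_tb, land_e, shr_e, mul_e] at h
  obtain ⟨h1, h2, h3, h4, h5⟩ := h
  refine ⟨h1, fun k => sub_el h2, fun k hk => and_z h3 ?_, fun i hi hh => h4 ?_,
    _, nw_lt _ (nat_lit 0), h5⟩
  · rw [Nat.testBit_shiftRight]; exact hk
  · interval_cases i
    · exact ⟨Or.inl hh.1, Or.inl hh.2⟩
    · exact ⟨Or.inr hh.2, Or.inl hh.1⟩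
    · exact ⟨Or.inr hh.1, Or.inr hh.2⟩
    · exact ⟨Or.inl hh.2, Or.inr hh.1⟩

theorem po_s {n J SK MB : ℕ} {tM tZ tF : BT} {j z f L p : ℕ}
    (h : po n (on n) J SK MB tZ tF j z f L (zc z 0) (zc z 1) (zc z 2) (zc z 3) (tM.get (zc z 0))
      (tM.get (zc z 1)) (tM.get (zc z 2)) (tM.get (zc z 3)) p = true) :
    zr z p < n ∧ MB.testBit (zr z p * 256 + j) = true ∧
    (∀ i < 4, bit n tM.get (zc z i) (zr z p) (zc z ((i + 1) % 4)) = true) ∧
    (p + 1 < L → (∀ i < 4, bit n tM.get (zc z i) (zr z p) (zr z (p + 1)) = true) ∧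
      ¬ SK.testBit (n * zr z p + zr z (p + 1)) = true ∧
      (0 < p → no n (on n) J SK MB tZ tF j z f (zr z p) p (zc z 0) (zc z 1) (zc z 2) (zc z 3)
        = true)) := by
  simp only [po, fb_eq, ap_eq, cb_iff, an_iff, lt_iff, nt_iff, tb_eq, t2_eq, z0_iff, land_e, and_tb,
    ro_tb, add_e, mul_e] at h
  obtain ⟨h1, h2, a0, a1, a2, a3, h3, -⟩ := h
  refine ⟨h1, h2, fun i hi => ?_, fun hp => ?_⟩
  · interval_cases i
    · exact a0.2
    · exact a1.2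
    · exact a2.2
    · exact a3.2
  · obtain ⟨⟨⟨b0, b1⟩, b2, b3⟩, h4, -, h5⟩ := h3 hp
    refine ⟨fun i hi => ?_, h4, fun h0 => h5 h0.ne'⟩
    interval_cases i
    · exact b0.2
    · exact b1.2
    · exact b2.2
    · exact b3.2

theorem zo_s {n J SK MB : ℕ} {tM tZ tF : BT} {j : ℕ}
    (h : zo n (on n) J SK MB tM tZ tF j = true) :
    (∀ i < 4, zc (tZ.get j) i < n) ∧ 1 < zl (tZ.get j) ∧ zc (tZ.get j) 0 ≠ zc (tZ.get j) 2 ∧
    zc (tZ.get j) 1 ≠ zc (tZ.get j) 3 ∧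
    (∀ i < 4, SK.testBit (n * zc (tZ.get j) i + zc (tZ.get j) ((i + 1) % 4)) = true ∧
      SK.testBit (n * zr (tZ.get j) 0 + zc (tZ.get j) i) = true ∧
      SK.testBit (n * zr (tZ.get j) (zl (tZ.get j) - 1) + zc (tZ.get j) i) = true) ∧
    ∀ p < zl (tZ.get j), po n (on n) J SK MB tZ tF j (tZ.get j) (tF.get j) (zl (tZ.get j))
      (zc (tZ.get j) 0) (zc (tZ.get j) 1) (zc (tZ.get j) 2) (zc (tZ.get j) 3)
      (tM.get (zc (tZ.get j) 0)) (tM.get (zc (tZ.get j) 1)) (tM.get (zc (tZ.get j) 2))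
      (tM.get (zc (tZ.get j) 3)) p = true := by
  simp only [zo, fb_eq, ap_eq, an_iff, lt_iff, nt_iff, t2_eq, rg0, beq_iff, sub_e] at h
  obtain ⟨⟨⟨c0, c1⟩, c2, c3⟩, ⟨h1, h2, h3⟩, ⟨⟨s0, s1⟩, s2, s3⟩, ⟨u, v⟩, h4⟩ := h
  have hm : ∀ i < 4, (m4 (zc (tZ.get j) 0) (zc (tZ.get j) 1) (zc (tZ.get j) 2)
      (zc (tZ.get j) 3)).testBit (zc (tZ.get j) i) = true := fun i hi => by
    rw [m4_has]
    interval_cases i <;> simp
  refine ⟨fun i hi => ?_, h1, h2, h3, fun i hi =>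
    ⟨?_, (ro_tb.1 (sub_el u (hm i hi))).2, (ro_tb.1 (sub_el v (hm i hi))).2⟩, h4⟩
  · interval_cases i
    exacts [c0, c1, c2, c3]
  · interval_cases i
    exacts [s0, s1, s2, s3]

theorem shl_s {n H r x y : ℕ} (h : (H <<< (n * r)).testBit (n * x + y) = true) :
    ∃ c, H.testBit c = true ∧ n * x + y = n * r + c := by
  rw [Nat.testBit_shiftLeft, Bool.and_eq_true, decide_eq_true_iff] at h
  exact ⟨_, h.2, by have := h.1; omega⟩

end Zon

open Zon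

theorem azon : AZON_s := by
  intro n J SK MB tM tZ tF hS h
  simp only [cZ, an_iff, fb_eq, rg0] at h
  have hz := fun j hj => zo_s (h.2 j hj)
  have hc : ∀ j < J, ∀ i < 4, zc (tZ.get j) i < n := fun j hj => (hz j hj).1
  have hp := fun j hj p hp => po_s ((hz j hj).2.2.2.2.2 p hp)
  have hr : ∀ j < J, ∀ p < zl (tZ.get j), zr (tZ.get j) p < n := fun j hj p h => (hp j hj p h).1
  have m4 : ∀ i : ℕ, (i + 1) % 4 < 4 := fun i => Nat.mod_lt _ (by omega)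
  have hb := fun j hj p h i hi => hS.2 _ (hc j hj i hi) _ (hr j hj p h) _ (hc j hj _ (m4 i))
    ((hp j hj p h).2.2.1 i hi)
  have hn := fun j p (h : j < J ∧ 0 < p ∧ p + 1 < zl (tZ.get j)) =>
    no_s (((hp j h.1 p (by omega)).2.2.2 h.2.2).2.2 h.2.1)
  refine ⟨fun j hj => (hz j hj).2.1, hc, fun j hj i hi i' hi' (e : zc _ i = zc _ i') => ?_, hr,
    fun j hj p h i hi => (hb j hj p h i hi).1.symm, fun j hj p h i hi => ?_,
    fun j hj p h i hi => ?_, fun j hj i hi => ?_,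
    fun j p h => ⟨(hn j p h).1, (hn j p h).2.1⟩, fun j p h => ?_,
    fun k p h j hj p' hp' (e : zr _ _ = zr _ _) => ?_,
    fun j hj p h hh => ((hp j hj p (Nat.lt_of_succ_lt h)).2.2.2 h).2.1 hh.2.2,
    fun j p h i hi hh => (hn j p h).2.2.2.1 i hi ⟨hh.1.2, hh.2.2⟩⟩
  · have h0 : 0 < zl (tZ.get j) := Nat.lt_of_succ_lt (hz j hj).2.1
    have a0 : zc (tZ.get j) 0 ≠ zc (tZ.get j) 1 := (hb j hj 0 h0 0 (by omega)).2.1
    have a1 : zc (tZ.get j) 1 ≠ zc (tZ.get j) 2 := (hb j hj 0 h0 1 (by omega)).2.1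
    have a2 : zc (tZ.get j) 2 ≠ zc (tZ.get j) 3 := (hb j hj 0 h0 2 (by omega)).2.1
    have a3 : zc (tZ.get j) 3 ≠ zc (tZ.get j) 0 := (hb j hj 0 h0 3 (by omega)).2.1
    have a4 := (hz j hj).2.2.1
    have a5 := (hz j hj).2.2.2.1
    interval_cases i <;> interval_cases i' <;> first | rfl | exact absurd e (by assumption) |
      exact absurd e.symm (by assumption)
  · have := (mem_Gd hS (hc j hj i hi) (hr j hj p h) (hc j hj _ (m4 i))).2
      ((hp j hj p h).2.2.1 i hi)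
    rw [insert_comm] at this
    exact this
  · have h' : p < zl (tZ.get j) := Nat.lt_of_succ_lt h
    have := (mem_Gd hS (hc j hj i hi) (hr j hj p h') (hr j hj _ h)).2
      (((hp j hj p h').2.2.2 h).1 i hi)
    rw [insert_comm, pair_comm] at this
    exact this
  · have h1 := (hz j hj).2.1
    obtain ⟨a, b, c⟩ := (hz j hj).2.2.2.2.1 i hi
    exact ⟨⟨hc j hj i hi, hc j hj _ (m4 i), a⟩, ⟨hr j hj 0 (by omega), hc j hj i hi, b⟩,
      hr j hj (zl (tZ.get j) - 1) (by omega), hc j hj i hi, c⟩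
  · obtain ⟨i, hi, hh⟩ := (hn j p h).2.2.2.2
    exact ⟨i, hi, pr_s (hr j h.1 p (Nat.lt_of_succ_lt h.2.2)) (hc j h.1 i hi) hh⟩
  · exact (hn k p h).2.2.1 j (e ▸ (hp j hj p' hp').2.1)

theorem acov : ACOV_s := by
  intro n J SK tZ tF G hZ h x hx y hy hxy
  simp only [cV, fb_eq, ap_eq, rg0, beq_iff, lor_e] at h
  have h1 : (on n).testBit y = true := by
    rw [on_eq, Nat.testBit_two_pow_sub_one]; exact decide_eq_true hy
  rw [← h x hx, or_tb, p2_tb, ro_tb, or_tb] at h1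
  have hc : ∀ j < J, ∀ i < 4, zc (tZ.get j) i < n := hZ.cn
  have hr : ∀ j < J, ∀ p < zl (tZ.get j), zr (tZ.get j) p < n := hZ.rn
  rcases h1 with ⟨-, h1 | h1⟩ | h1
  · exact Or.inl (Or.inl ⟨hx, hy, h1⟩)
  · simp only [cv, cv1, aq_eq, fn_eq, lor_e, or_tb, ora_tb, sub_e, add_e, mul_e, shl_e] at h1
    obtain ⟨j, hj, ⟨p, hp, h1⟩ | ⟨p, hp, h1⟩ | ⟨i, hi, h1⟩⟩ := h1
    · have hp' : p + 1 < zl (tZ.get j) := by omega
      rcases e2_tb (hr j hj p (by omega)) (hr j hj _ hp') hy h1 with ⟨a, b⟩ | ⟨a, b⟩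
      · exact Or.inl (Or.inr (Or.inr ⟨j, p, hj, hp', a, b⟩))
      · exact Or.inr (Or.inr (Or.inr ⟨j, p, hj, hp', b, a⟩))
    · obtain ⟨c, h2, h3⟩ := shl_s h1
      obtain ⟨i, hi, h2⟩ := ora_tb.1 h2
      rw [p2_tb.1 h2] at h3
      obtain ⟨a, b⟩ := pos_inj hy (hc j hj i hi) h3
      have hp' : p + 1 + 1 < zl (tZ.get j) := by omega
      exact Or.inl (Or.inr (Or.inl ⟨j, p + 1, i, ⟨hj, Nat.succ_pos _, hp'⟩, hi, a, b⟩))
    · obtain ⟨c, h2, h3⟩ := shl_s h1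
      obtain ⟨p, hp, h2⟩ := ora_tb.1 h2
      rw [p2_tb.1 h2] at h3
      have hp' : p + 1 + 1 < zl (tZ.get j) := by omega
      obtain ⟨a, b⟩ := pos_inj hy (hr j hj _ (by omega)) h3
      exact Or.inr (Or.inr (Or.inl ⟨j, p + 1, i, ⟨hj, Nat.succ_pos _, hp'⟩, hi, b, a⟩))
  · omega

end Pool.Agent.MP_797bdc_co.Lk.A
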