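import Pool.Agent.MP_797bdc_co.Lk.Stm

/-! Safe pairs are derivable. -/

namespace Pool.Agent.MP_797bdc_co.Lk

open Finset

namespace PG

variable {Z : Zn} {n root : ℕ} {par : ℕ → ℕ} {G : Finset (Finset ℕ)} {cs : List (ℕ × ℕ × ℕ)}

theorem anti {I I' : Set (Finset ℕ)} (h : I ⊆ I') {x y : ℕ} (d : Dv n root par G I' x y) :
    Dv n root par G I x y := by
  induction d with
  | tree a b => exact .tree a b
  | symm _ ih => exact .symm ih
  | face a b c d e f g k _ _ i1 i2 => exact .face a b c d e f g (fun m => k (h m)) i1 i2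

theorem lab_core (H : Z.OK n root par G) {j p0 p1 : ℕ} (hj : j < Z.J) {f : Finset ℕ}
    (hf : f ∈ Z.Icore j p0 p1) : Z.lab f = 2 * (j + 1) := by
  rcases hf with ⟨p, i, a, -, -, b, rfl⟩ | ⟨p, i, a, b, rfl⟩
  · obtain ⟨-, h1, h2⟩ := H.nfG j hj p (by have := a.2.2; omega) i b
    have := h2 a
    omega
  · exact (H.rfG j hj p a i b).2

theorem sk (H : Z.OK n root par G) (C : Z.CoresOK cs) {x y : ℕ} (h : Z.Sk x y) :
    Dv n root par G (Z.Iall cs) x y := by
  refine anti ?_ (H.sk x y h)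
  rintro f ⟨c, hc, hf⟩
  have := lab_core H (C.1 c hc).1 hf
  constructor <;> omega

theorem nf_not (H : Z.OK n root par G) (C : Z.CoresOK cs) {k p i : ℕ} (hN : Z.Node k p)
    (hg : Z.NGood cs k p) (hi : i < 4) : Z.nf k p i ∉ Z.Iall cs := by
  rintro ⟨c, hc, hf⟩
  obtain ⟨c1, c2, c3⟩ := C.1 c hc
  obtain ⟨hk, p0, pL⟩ := id hN
  have h1 := lab_core H c1 hf
  have h2 := (H.nfG k hk p (by omega) i hi).2.1
  obtain rfl : k = c.1 := by omega
  rcases hf with ⟨q, l, a, a0, a1, b, e⟩ | ⟨q, l, a, b, e⟩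
  · have m : Z.rim c.1 p ∈ Z.nf c.1 q l := e ▸ by simp [Zn.nf]
    have qL := a.2.2
    simp only [Zn.nf, mem_insert, mem_singleton] at m
    rcases m with m | m | m
    · obtain rfl := H.ri _ hk p (by omega) q (by omega) m
      rcases hg c hc with ⟨m | m, -⟩ | m
      · exact a0 (H.ri _ hk p (by omega) _ (by omega) m)
      · exact a1 (H.ri _ hk p (by omega) _ c3 m)
      · exact m (H.fu _ _ hN).1
    · exact H.rc _ hk p (by omega) l b m
    · exact H.rc _ hk p (by omega) _ (Nat.mod_lt _ (by omega)) m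
  · have key : ∀ t < 4, Z.c c.1 t ∈ Z.rf c.1 q l → t = l := fun t ht m => by
      simp only [Zn.rf, mem_insert, mem_singleton] at m
      rcases m with m | m | m
      · exact absurd m.symm (H.rc _ hk q (by omega) t ht)
      · exact absurd m.symm (H.rc _ hk _ a t ht)
      · exact H.ci _ hk t ht l b m
    have e1 := key i hi (e ▸ by simp [Zn.nf])
    have e2 := key ((i + 1) % 4) (Nat.mod_lt _ (by omega)) (e ▸ by simp [Zn.nf])
    omega

theorem turn (H : Z.OK n root par G) (C : Z.CoresOK cs) {k p i : ℕ} (hN : Z.Node k p)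
    (hg : Z.NGood cs k p) (hi : i < 4) (d : Dv n root par G (Z.Iall cs) (Z.rim k p) (Z.c k i)) :
    Dv n root par G (Z.Iall cs) (Z.rim k p) (Z.c k ((i + 1) % 4)) := by
  obtain ⟨hk, p0, pL⟩ := id hN
  have h4 : (i + 1) % 4 < 4 := Nat.mod_lt _ (by omega)
  have e : ({Z.rim k p, Z.c k ((i + 1) % 4), Z.c k i} : Finset ℕ) = Z.nf k p i := by
    rw [Zn.nf, pair_comm]
  refine .face (H.rn k hk p (by omega)) (H.cn k hk _ h4) (H.cn k hk i hi)
    (H.rc k hk p (by omega) _ h4) (H.rc k hk p (by omega) i hi)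
    (fun m => by have := H.ci k hk _ h4 i hi m; omega) ?_ ?_ d
    (.symm (sk H C (H.skc k hk i hi).1))
  · rw [e]
    exact (H.nfG k hk p (by omega) i hi).1
  · rw [e]
    exact nf_not H C hN hg hi

theorem node (H : Z.OK n root par G) (C : Z.CoresOK cs) (r : ℕ) : ∀ k p, Z.nrk k p = r →
    Z.Node k p → Z.NGood cs k p → ∀ i < 4, Dv n root par G (Z.Iall cs) (Z.rim k p) (Z.c k i) := by
  induction r using Nat.strong_induction_on with
  | _ r ih =>
  intro k p hr hN hg
  obtain ⟨i0, hi, h⟩ := H.par k p hN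
  have d0 : Dv n root par G (Z.Iall cs) (Z.rim k p) (Z.c k i0) := by
    rcases h with h | ⟨j, q, l, a, b, c, ⟨e1, e2, f1, f2⟩ | ⟨e1, e2, f⟩⟩
    · exact sk H C h
    · rw [← e1, ← e2]
      refine ih _ (hr ▸ c) j q rfl a (fun x hx => ?_) l b
      rw [e1]
      exact (hg x hx).imp (fun m => ⟨m.1, fun t => m.2 (f1 _ t)⟩) fun m t => m (f2 _ t)
    · rw [← e1, ← e2]
      refine .symm (ih _ (hr ▸ c) j q rfl a (fun x hx => Or.inr fun t => ?_) l b)
      exact (hg x hx).elim (fun m => m.2 (f _ t)) fun m => m ((H.fu k p hN).2 _ (f _ t))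
  have m4 : ∀ t, t % 4 < 4 := fun t => Nat.mod_lt _ (by omega)
  have d1 := turn H C hN hg hi d0
  have d2 := turn H C hN hg (m4 _) d1
  have d3 := turn H C hN hg (m4 _) d2
  intro i h4
  have : i = i0 ∨ i = (i0 + 1) % 4 ∨ i = ((i0 + 1) % 4 + 1) % 4 ∨
      i = (((i0 + 1) % 4 + 1) % 4 + 1) % 4 := by omega
  rcases this with rfl | rfl | rfl | rfl <;> assumption

end PG

theorem pg : PG_s := by
  rintro Z n root par G H cs C x y (h | ⟨k, p, i, a, b, rfl, rfl, c⟩ |
    ⟨k, p, hk, pL, rfl, rfl, hz, g1, g2⟩)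
  · exact PG.sk H C h
  · exact PG.node H C _ k p rfl a c i b
  · obtain ⟨r1, r2⟩ := H.rfG k hk p pL 0 (by omega)
    refine .face (w := Z.c k 0) (H.rn k hk p (by omega)) (H.rn k hk _ pL) (H.cn k hk 0 (by omega))
      (fun m => by have := H.ri k hk p (by omega) _ pL m; omega)
      (H.rc k hk p (by omega) 0 (by omega)) (H.rc k hk _ pL 0 (by omega)) r1 ?_ ?_ ?_
    · rintro ⟨c, hc, hf⟩
      have := PG.lab_core H (C.1 c hc).1 hf
      rw [Zn.rf] at r2
      exact hz c hc (by omega)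
    · by_cases hN : Z.Node k p
      · exact PG.node H C _ k p rfl hN (g1 hN) 0 (by omega)
      · obtain rfl : p = 0 := by
          by_contra m
          exact hN ⟨hk, by omega, pL⟩
        exact PG.sk H C (H.skc k hk 0 (by omega)).2.1
    · by_cases hN : Z.Node k (p + 1)
      · exact PG.node H C _ k _ rfl hN (g2 hN) 0 (by omega)
      · have : p + 1 = Z.L k - 1 := by
          by_contra m
          exact hN ⟨hk, by omega, by omega⟩
        rw [this]
        exact PG.sk H C (H.skc k hk 0 (by omega)).2.2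

end Pool.Agent.MP_797bdc_co.Lk
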