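import Pool.Agent.MP_797bdc_co.Lk.AAsm
import Pool.Agent.MP_797bdc_co.Lk.ASYM
import Pool.Agent.MP_797bdc_co.Lk.ADEG
import Pool.Agent.MP_797bdc_co.Lk.AORD
import Pool.Agent.MP_797bdc_co.Lk.AZON
import Pool.Agent.MP_797bdc_co.Lk.ADER
import Pool.Agent.MP_797bdc_co.Lk.ACON
import Pool.Agent.MP_797bdc_co.Lk.ARC1
import Pool.Agent.MP_797bdc_co.Lk.ARC2
import Pool.Agent.MP_797bdc_co.Lk.AHOT
import Pool.Agent.MP_797bdc_co.Lk.PG
import Pool.Agent.MP_797bdc_co.Lk.SMALL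

/-! The static part from the kernel runs. -/

namespace Pool.Agent.MP_797bdc_co.Lk.A

theorem partA_gen {n J nT TT SG SK MB root PAR TRK q0 s0 s2 s7 s8 s9 z1 z2 v g sF : ℕ} {tM tZ tF tK1 tK2 : BT}
    {lS l1 l2 lC lR : List ℕ} (hd : DimP n)
    (hA : cA n (m4 s2 s7 s8 z1) (m4 s2 s7 s8 z2) (m3 s2 s7 s8) SG tM 0 n = true)
    (hN : cN n tM = g) (hB : cB n s2 s7 s8 z1 z2 SG tM = true)
    (hZ : cZ n J SK MB tM tZ tF = true) (hV : cV n J SK tZ = true)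
    (hS : cS n SK root PAR TRK tM lS = true)
    (hC : cC n v z1 z2 s0 s7 s9 root PAR tM l1 l2 lC = true) (hO : OInv J nT TT SG tZ sF)
    (hQ : cQ n J nT g sF tZ = true) (hR : cR n J nT TT SG (m3 s2 s7 s8) q0 tM tZ lR = true)
    (hH : ∀ q < 15, ∃ t, cH1 n s2 s7 s8 z1 z2 (sg SG q) tM t = true)
    (hK : cK n s2 s7 s8 z1 z2 tM tK1 tK2 = true) :
    PartA n hd tM.get (mkZ n J tZ tF SK) root (v9 PAR) (SigD SG) s2 s7 s8 z1 z2 :=
  partA_of asym adeg anum aord alab azon acov ask aper acon arc1 arc2 ahot asep pg casc hd hA hN hB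
    hZ hV hS hC hO hQ hR hH hK

end Pool.Agent.MP_797bdc_co.Lk.A
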