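import Pool.Agent.MP_797bdc_co.Lk.Stm

namespace Pool.Agent.MP_797bdc_co.Lk

open Finset

namespace CNT

variable {n : ℕ} {G : Finset (Finset ℕ)} {f : Finset ℕ}

lemma card_side (h3 : f.card = 3) {w x : ℕ} (hw : w ∉ f) (hx : x ∈ f) :
    insert w (f.erase x) ∈ powersetCard 3 (insert w f) :=
  mem_powersetCard.2 ⟨insert_subset_insert _ (erase_subset _ _), by
    rw [card_insert_of_notMem fun h => hw (mem_of_mem_erase h), card_erase_of_mem hx, h3]⟩

lemma fq_iff (hd : DimP n) (hG : G ⊆ Om n) (hf : f ∈ G) (q : Finset (Finset ℕ)) :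
    FQ (sysN n hd) G q ∧ f ∈ q ↔ ∃ w ∈ apx n G f, powersetCard 3 (insert w f) = q := by
  obtain ⟨f1, f3⟩ := mem_powersetCard.1 (hG hf)
  constructor
  · rintro ⟨⟨⟨s, s1, s2, rfl⟩, h⟩, h'⟩
    obtain ⟨w, hw, rfl⟩ := exists_eq_insert_iff.2 ⟨(mem_powersetCard.1 h').1, by omega⟩
    exact ⟨w, mem_filter.2 ⟨s1 (mem_insert_self _ _), hw, fun x hx => h (card_side f3 hw hx)⟩, rfl⟩
  · rintro ⟨w, hw, rfl⟩
    obtain ⟨w1, w2, w3⟩ := mem_filter.1 hw
    have c4 : (insert w f).card = 4 := by rw [card_insert_of_notMem w2, f3]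
    refine ⟨⟨⟨_, insert_subset w1 f1, c4, rfl⟩, fun t ht => ?_⟩,
      mem_powersetCard.2 ⟨subset_insert _ _, f3⟩⟩
    obtain ⟨t1, t2⟩ := mem_powersetCard.1 ht
    obtain ⟨y, hy, e⟩ := exists_eq_insert_iff.2 ⟨t1, by omega⟩
    rw [← erase_insert hy, e]
    rcases mem_insert.1 (e ▸ mem_insert_self y t) with rfl | h
    · rwa [erase_insert w2]
    · rw [erase_insert_of_ne (by rintro rfl; exact w2 h)]
      exact w3 y h

lemma inj (hG : G ⊆ Om n) (hf : f ∈ G) :
    Set.InjOn (fun w => powersetCard 3 (insert w f)) (apx n G f) := fun w hw w' _ h => by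
  have f3 := (mem_powersetCard.1 (hG hf)).2
  have w2 := (mem_filter.1 hw).2.1
  obtain ⟨x, hx⟩ := card_pos.1 (show 0 < f.card by omega)
  have := card_side f3 w2 hx
  rw [show powersetCard 3 (insert w f) = _ from h] at this
  exact (mem_insert.1 ((mem_powersetCard.1 this).1 (mem_insert_self _ _))).resolve_right w2

open Classical in
lemma card_eq (hd : DimP n) (hG : G ⊆ Om n) (hf : f ∈ G) :
    ((G.powerset.filter (FQ (sysN n hd) G)).filter (f ∈ ·)).card = (apx n G f).card := by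
  rw [← card_image_of_injOn (inj hG hf)]
  congr 1
  ext q
  rw [mem_image, ← fq_iff hd hG hf, mem_filter, mem_filter, mem_powerset]
  exact ⟨fun h => ⟨h.1.2, h.2⟩, fun h => ⟨⟨h.1.2, h.1⟩, h.2⟩⟩

end CNT

theorem cnt : CNT_s := by
  classical
  intro n hd G Sig u hG hu hS h1 h3 h2 hc
  have mem : ∀ f q, q ∈ (G.powerset.filter (FQ (sysN n hd) G)).filter (f ∈ ·) ↔
      FQ (sysN n hd) G q ∧ f ∈ q := fun f q => by
    rw [mem_filter, mem_filter, mem_powerset]
    exact ⟨fun h => ⟨h.1.2, h.2⟩, fun h => ⟨⟨h.1.2, h.1⟩, h.2⟩⟩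
  refine ⟨fun f hf hfu => ?_, fun f hf hfS q1 q2 q3 a1 a2 a3 b1 b2 b3 => ?_,
    G.powerset.filter (FQ (sysN n hd) G), fun q hq => mem_filter.2 ⟨mem_powerset.2 hq.2, hq⟩, ?_⟩
  · have : 1 < (apx n G f).card := by
      by_cases c : f ∈ Sig
      · rw [h3 f hf c]; norm_num
      · rw [h2 f hf hfu c]; norm_num
    rw [← CNT.card_eq hd hG hf] at this
    obtain ⟨q, hq, q', hq', h⟩ := one_lt_card.1 this
    rw [mem] at hq hq'
    exact ⟨q, q', hq.1, hq'.1, h, hq.2, hq'.2⟩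
  · by_contra h
    push Not at h
    have := two_lt_card_iff.2 ⟨q1, q2, q3, (mem f _).2 ⟨a1, b1⟩, (mem f _).2 ⟨a2, b2⟩,
      (mem f _).2 ⟨a3, b3⟩, h⟩
    rw [CNT.card_eq hd hG hf] at this
    by_cases c : f = u
    · rw [c, h1] at this; omega
    · rw [h2 f hf c hfS] at this; omega
  · have e := sum_card_bipartiteAbove_eq_sum_card_bipartiteBelow (s := G)
      (t := G.powerset.filter (FQ (sysN n hd) G)) (· ∈ ·)
    simp only [bipartiteAbove, bipartiteBelow] at e
    rw [sum_congr rfl fun f hf => CNT.card_eq hd hG hf, eq_comm,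
      sum_const_nat (m := 4) fun q hq => by
      rw [filter_mem_eq_inter, inter_eq_right.2 (mem_filter.1 hq).2.2]
      exact (sysN n hd).Qcard q (mem_filter.1 hq).2.1] at e
    have e2 : ∑ f ∈ G, ((apx n G f).card + if f = u then 1 else 0) =
        ∑ f ∈ G, (2 + if f ∈ Sig then 1 else 0) := sum_congr rfl fun f hf => by
      split_ifs with c c' c'
      · exact absurd (c ▸ c') hS
      · rw [c, h1]
      · rw [h3 f hf c']
      · rw [h2 f hf c c']
    rw [sum_add_distrib, sum_add_distrib, ← e, sum_ite_eq', if_pos hu,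
      sum_const_nat fun _ _ => rfl, ← card_filter, filter_mem_eq_inter] at e2
    have := card_le_card (inter_subset_right (s₁ := G) (s₂ := Sig))
    omega

end Pool.Agent.MP_797bdc_co.Lk
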