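import Pool.Agent.MP_797bdc_co.Lk.AStm
import Pool.Agent.MP_797bdc_co.Lk.CNT

/-! Assembly of the static part. -/

namespace Pool.Agent.MP_797bdc_co.Lk.A

open Finset

/-- The static facts about the instance. -/
structure PartA (n : ℕ) (hd : DimP n) (M : ℕ → ℕ) (Z : Zn) (root : ℕ) (par : ℕ → ℕ)
    (Sig : Finset (Finset ℕ)) (s2 s7 s8 z1 z2 : ℕ) : Prop where
  sym : SymM n M
  base : Base (sysN n hd) (Gd n M) Sig {s2, s7, s8} {s2, s7, z1} {s7, s8, z2} (qd s2 s7 s8 z1)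
    (qd s2 s7 s8 z2)
  ins : ∃ R, InS (sysN n hd) (Gd n M) R
  ok : Z.OK n root par (Gd n M)
  lab : ∀ f ∈ Sig, Z.lab f = 0
  hot : ∀ m ∈ Sig, ∃ H, Hot (sysN n hd) (Gd n M) {s2, s7, z1} {s7, s8, z2} m H
  sep : ∃ K1 K2 : Set (Finset ℕ), {s2, s7, z1} ∈ K1 ∧ {s7, s8, z2} ∈ K2 ∧
    GClosed (sysN n hd) (Gd n M) (fun _ => True) K1 ∧
    GClosed (sysN n hd) (Gd n M) (fun _ => True) K2 ∧ ∀ t, t ∈ K1 → t ∉ K2
  tok : ∃ t ∈ Om n, t ∉ Gd n M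

theorem cA_app {n H1 H2 U SG : ℕ} {tM : BT} {a k b l m : ℕ} (hb : a + k = b) (hm : k + l = m)
    (h1 : cA n H1 H2 U SG tM a k = true) (h2 : cA n H1 H2 U SG tM b l = true) :
    cA n H1 H2 U SG tM a m = true := by
  simp only [cA, fb_eq, rg_iff] at *
  intro x hx hx'
  by_cases h : x < b
  · exact h1 x hx (by omega)
  · exact h2 x (by omega) (by omega)

theorem mem_qd4 {a b c d : ℕ} (hab : a ≠ b) (hac : a ≠ c) (had : a ≠ d) (hbc : b ≠ c) (hbd : b ≠ d)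
    (hcd : c ≠ d) {t : Finset ℕ} :
    t ∈ qd a b c d ↔ t = {a, b, c} ∨ t = {a, b, d} ∨ t = {a, c, d} ∨ t = {b, c, d} := by
  have c4 : ({a, b, c, d} : Finset ℕ).card = 4 := card_eq_four.2 ⟨a, b, c, d, hab, hac, had, hbc,
    hbd, hcd, rfl⟩
  rw [qd, mem_powersetCard]
  constructor
  · rintro ⟨h1, h2⟩
    obtain ⟨y, hy, e⟩ := exists_eq_insert_iff.2 ⟨h1, by omega⟩
    have hy' : y ∈ ({a, b, c, d} : Finset ℕ) := e ▸ mem_insert_self y t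
    rw [← erase_insert hy, e]
    simp only [mem_insert, mem_singleton] at hy'
    rcases hy' with rfl | rfl | rfl | rfl
    · refine Or.inr (Or.inr (Or.inr ?_)); ext; simp; omega
    · refine Or.inr (Or.inr (Or.inl ?_)); ext; simp; omega
    · refine Or.inr (Or.inl ?_); ext; simp; omega
    · refine Or.inl ?_; ext; simp; omega
  · rintro (rfl | rfl | rfl | rfl) <;> refine ⟨by simp [subset_iff], card_eq_three.2 ⟨_, _, _, ?_, ?_, ?_, rfl⟩⟩ <;> assumption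

theorem qn_qd {n a b c d : ℕ} (ha : a < n) (hb : b < n) (hc : c < n) (hd : d < n) (hab : a ≠ b)
    (hac : a ≠ c) (had : a ≠ d) (hbc : b ≠ c) (hbd : b ≠ d) (hcd : c ≠ d) : Qn n (qd a b c d) :=
  ⟨_, by simp [subset_iff, *], card_eq_four.2 ⟨a, b, c, d, hab, hac, had, hbc, hbd, hcd, rfl⟩, rfl⟩

theorem partA_of (asym : ASYM_s) (adeg : ADEG_s) (anum : ANUM_s) (aord : AORD_s) (alab : ALAB_s)
    (azon : AZON_s) (acov : ACOV_s) (ask : ASK_s) (aper : APER_s) (acon : ACON_s) (arc1 : ARC1_s)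
    (arc2 : ARC2_s) (ahot : AHOT_s) (asep : ASEP_s) (pg : PG_s) (casc : CASC_s)
    {n J nT TT SG SK MB root PAR TRK q0 s0 s2 s7 s8 s9 z1 z2 v g sF : ℕ} {tM tZ tF tK1 tK2 : BT}
    {lS l1 l2 lC lR : List ℕ} (hd : DimP n)
    (hA : cA n (m4 s2 s7 s8 z1) (m4 s2 s7 s8 z2) (m3 s2 s7 s8) SG tM 0 n = true)
    (hN : cN n tM = g) (hB : cB n s2 s7 s8 z1 z2 SG tM = true)
    (hZ : cZ n J SK MB tM tZ tF = true) (hV : cV n J SK tZ = true)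
    (hS : cS n SK root PAR TRK tM lS = true)
    (hC : cC n v z1 z2 s0 s7 s9 root PAR tM l1 l2 lC = true) (hO : OInv J nT TT SG tZ sF)
    (hQ : cQ n J nT g sF tZ = true) (hR : cR n J nT TT SG (m3 s2 s7 s8) q0 tM tZ lR = true)
    (hH : ∀ q < 15, ∃ t, cH1 n s2 s7 s8 z1 z2 (sg SG q) tM t = true)
    (hK : cK n s2 s7 s8 z1 z2 tM tK1 tK2 = true) :
    PartA n hd tM.get (mkZ n J tZ tF SK) root (v9 PAR) (SigD SG) s2 s7 s8 z1 z2 := by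
  have sym := asym _ _ _ _ _ _ hA
  obtain ⟨d2, c2, dgq⟩ := adeg _ _ _ _ _ _ _ _ sym hA
  have hG : Gd n tM.get ⊆ Om n := filter_subset _ _
  simp only [cB, an_iff, ble_iff, lt_iff, t2_eq, beq_iff, nt_iff, al_iff, fb_eq] at hB
  obtain ⟨⟨⟨n512, b2, b7⟩, b8, y1, y2⟩, ⟨u1, u2, u3⟩, ⟨a1, a2, a3⟩, ⟨e1, e2, e3⟩, hsg⟩ := hB
  simp only [cQ, fb_eq, an_iff, ble_iff, add_e, mul_e, sub_e, div_e, land_e] at hQ
  obtain ⟨q1, q2, q3⟩ := hQ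
  have hr : (n - 1).choose 2 = (n - 1) * (n - 2) / 2 := by
    rw [Nat.choose_two_right]; rfl
  have inj := (aord J nT TT SG tZ).2.2 sF hO q3
  have lab := alab n J nT TT SG SK tZ tF inj
  have zd := azon _ _ _ _ _ _ _ sym hZ
  obtain ⟨tree, sk⟩ := ask _ _ _ _ _ _ _ _ _ _ _ sym zd lab hS
  have ok : (mkZ n J tZ tF SK).OK n root (v9 PAR) (Gd n tM.get) :=
    ⟨zd.cn, zd.ci, zd.rn, lab.ri, zd.rc, fun j hj p hp i hi => ⟨zd.nfG j hj p hp i hi,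
      lab.nf j hj p hp i hi⟩, fun j hj p hp i hi => ⟨zd.rfG j hj p hp i hi, lab.rf j hj p hp i hi⟩,
      tree, sk, zd.skc, zd.fu, zd.par, zd.mem, acov _ _ _ _ _ _ zd hV⟩
  have uG := (mem_Gd sym b2 b7 b8).2 u1
  have uS := (nS_not (m3_has s2 s7 s8)).1 u3
  have u4 := dgq _ b2 _ b7 _ b8 u1 (by omega)
  rw [u2] at u4
  have sG : ∀ f ∈ SigD SG, f ∈ Gd n tM.get ∧ (apx n (Gd n tM.get) f).card = 3 := fun f hf => by
    obtain ⟨q, hq, rfl⟩ := mem_image.1 hf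
    obtain ⟨⟨h1, h2, h3⟩, h4, h5⟩ := hsg q (mem_range.1 hq)
    exact ⟨(mem_Gd sym h1 h2 h3).2 h4, (dgq _ h1 _ h2 _ h3 h4 (by omega)).trans h5⟩
  have gc := (anum n tM sym).trans hN
  have sc : (SigD SG).card ≤ 15 := card_image_le.trans (by simp)
  obtain ⟨k1, k2, FS, k3, k4⟩ := cnt n hd _ (SigD SG) _ hG uG uS u4 (fun f _ hf => (sG f hf).2) d2
    (by omega)
  obtain ⟨n27, n28, n78, -⟩ := sym.2 _ b2 _ b7 _ b8 u1
  obtain ⟨-, n21, n81, -⟩ := sym.2 _ b2 _ b8 _ y1 a2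
  obtain ⟨-, n71, -⟩ := sym.2 _ b7 _ b8 _ y1 a3
  obtain ⟨-, n22, n72, -⟩ := sym.2 _ b2 _ b7 _ y2 e2
  obtain ⟨-, -, n82, -⟩ := sym.2 _ b2 _ b8 _ y2 e3
  have t1 : {s2, s7, z1} ∉ Gd n tM.get := fun h => a1 ((mem_Gd sym b2 b7 y1).1 h)
  have base : Base (sysN n hd) (Gd n tM.get) (SigD SG) {s2, s7, s8} {s2, s7, z1} {s7, s8, z2}
      (qd s2 s7 s8 z1) (qd s2 s7 s8 z2) := by
    refine ⟨hG, aper pg casc _ hd _ _ _ _ _ _ _ _ _ _ _ _ _ sym ok hC, uG, k1, k2, ⟨FS, k3, k4⟩, uS,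
      c2, ⟨qn_qd b2 b7 b8 y1 n27 n28 n21 n78 n71 n81, ?_, ?_, t1, fun b hb => ?_⟩,
      qn_qd b2 b7 b8 y2 n27 n28 n22 n78 n72 n82, ?_, ?_,
      fun h => e1 ((mem_Gd sym b7 b8 y2).1 h), fun b hb => ?_⟩
    · simp [mem_qd4 n27 n28 n21 n78 n71 n81]
    · simp [mem_qd4 n27 n28 n21 n78 n71 n81]
    · rcases (mem_qd4 n27 n28 n21 n78 n71 n81).1 hb with rfl | rfl | rfl | rfl
      exacts [fun _ => uG, fun h => absurd rfl h, fun _ => (mem_Gd sym b2 b8 y1).2 a2,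
        fun _ => (mem_Gd sym b7 b8 y1).2 a3]
    · simp [mem_qd4 n27 n28 n22 n78 n72 n82]
    · simp [mem_qd4 n27 n28 n22 n78 n72 n82]
    · rcases (mem_qd4 n27 n28 n22 n78 n72 n82).1 hb with rfl | rfl | rfl | rfl
      exacts [fun _ => uG, fun _ => (mem_Gd sym b2 b7 y2).2 e2,
        fun _ => (mem_Gd sym b2 b8 y2).2 e3, fun h => absurd rfl h]
  refine ⟨sym, base, ?_, ok, lab.sig, fun m hm => ?_, ?_, _, ?_, t1⟩
  · obtain ⟨r1, r2⟩ := arc1 _ hd _ _ _ _ _ _ _ _ _ _ _ _ _ sym ok inj hR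
    obtain ⟨p0, r3, r4, r5⟩ := arc2 _ _ _ _ _ _ _ _ _ _ _ _ _ _ _ ok inj (m3_has s2 s7 s8)
      (card_eq_three.2 ⟨_, _, _, n27, n28, n78, rfl⟩) hR
    have := card_le_card (fun q hq => k3 q (r1 q hq))
    refine acon _ _ _ (SigD SG) _ _ p0 r1 (show _ = (n - 1).choose 2 + _ by omega) r3 r4
      (fun q hq hu => ?_) (fun f hf q1 h1 q2 h2 q3 h3 m1 =>
        k2 f ((r1 q1 h1).2 m1) hf q1 q2 q3 (r1 _ h1) (r1 _ h2) (r1 _ h3) m1) r5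
    obtain ⟨w, hw, rfl⟩ := (CNT.fq_iff hd hG uG q).1 ⟨r1 q hq, hu⟩
    obtain ⟨w', hw', rfl⟩ := (CNT.fq_iff hd hG uG p0).1 ⟨r1 p0 r3, r4⟩
    rw [card_le_one.1 u4.le w hw w' hw']
  · obtain ⟨q, hq, rfl⟩ := mem_image.1 hm
    obtain ⟨t, ht⟩ := hH q (mem_range.1 hq)
    simp only [cH1, an_iff, tb_eq] at ht
    obtain ⟨-, g2, g3⟩ := ahot n hd _ _ _ _ n512 sym ht.2
    exact ⟨HS n t, ⟨_, b2, _, b7, _, y1, ht.1.1, rfl⟩, ⟨_, b7, _, b8, _, y2, ht.1.2, rfl⟩,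
      fun q' h1 h2 => g2 q' h1 fun f hf e => h2 ((sg_has SG q).set e ▸ hf),
      g3 rfl _ (sG _ hm).1 (sg_has SG q)⟩
  · simp only [cK, an_iff, tb_eq] at hK
    obtain ⟨⟨g1, g2⟩, g3, g4, g5⟩ := hK
    have z : ∀ q, Gate (sysN n hd) (Gd n tM.get) q → ∀ f ∈ q, ¬ HasM (nat_lit 0) f := by
      rintro q ⟨⟨s, -, -, rfl⟩, -⟩ f hf e
      obtain ⟨x, hx⟩ := card_pos.1 (show 0 < f.card by rw [(mem_powersetCard.1 hf).2]; omega)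
      simpa using (e x).2 hx
    obtain ⟨-, i1, -⟩ := ahot n hd _ _ _ _ n512 sym g3
    obtain ⟨i2, i3, -⟩ := ahot n hd _ _ _ _ n512 sym g4
    exact ⟨HS n tK1, HS n tK2, ⟨_, b2, _, b7, _, y1, g1, rfl⟩, ⟨_, b7, _, b8, _, y2, g2, rfl⟩,
      fun q h _ => i1 q h (z q h), fun q h _ => i3 q h (z q h), asep n _ _ n512 i2 g5⟩
  · exact mem_powersetCard.2 ⟨by simp [subset_iff, *], card_eq_three.2 ⟨_, _, _, n27, n21, n71, rfl⟩⟩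

end Pool.Agent.MP_797bdc_co.Lk.A
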