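import Pool.Agent.MP_797bdc_co.Lk.Prim

/-! Checker for the static part of the instance (natural numbers only). -/

namespace Pool.Agent.MP_797bdc_co.Lk.A

open Nat (add mul sub land lor shiftRight shiftLeft ble beq div mod)

noncomputable section

def nt (a : Bool) : Bool := Bool.rec true false a
def z0 (x : Nat) : Bool := beq x (nat_lit 0)
def fn (x : Nat) (f : Nat → Nat) : Nat := Nat.rec (nat_lit 0) (fun k _ => f k) (add x (nat_lit 1))
def ap (x : Nat) (f : Nat → Bool) : Bool := f x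
def aq (x : Nat) (f : Nat → Nat) : Nat := f x
def LG : Nat := nat_lit 0x4160c2483cd84b85845366e09133d70c5584a7e9ccb9c290149513d9dec6cc3f04ad6d854c941b6a7ee998149cd1d4b5f05df92c1c14002d1c87bd4cda3ac47d384c02babaddcd85c9a66f250efb6f7ba82af768666a242be09d656914253342c0e0063a6ff754ba303afc14e800051b486393dc7c356a9ff3778c76d9c49d3eac6e1cf5831f2c45d5e66b7e639d58861fa4f039a52de69d515977f30dc516f800a8fc95924de2a50f936739d159e0b34fc2729dc572c7ca4d8e87f053b95a313b0b8dc3e706fa5d45dc003eedd74c7ad1bad0f3b1fa3f1517f424500608a492b50443237e55e3badd7cf65ad1caaa68019037fb7c9d41e23db58dc56bceab8fb0818fb2e23ba7c4d613fe40782c90630b4580b0cebbb818733a8e7e8eb3f98691cfe309400208239ae1298087a1513cca51a52cc6be05b263b5dc84e8d5ebe86c01c7a90e7e6bf56f324af1dede954854477f294167b7dd17445bef3e500bf6da9fef1360e6c59e47a2c65cbd5cfb02a5272c92fa2003e32354649cd9d691c6287bb17bdc9127179bd05c0775bd5ac758f8bc44c0a442036bbb73b11b4ce3fd9d3476335cb70fec5da4c7f1dc80b315ae8c1a7d17e08c2f0008b060729b25266ab5ed0255d0d71870bee5bc2f284ef501bd737d13fb5fd6bb123a64ab405372e0048b239c381ebdd11f296fabab1e90d20356dc6b1dd2c5adb604b3b2c973a6fb8b84206641a7675ce2af5de839fdc89dfc6198e012d90e6cf3102d6a884348cf456a4a58e945a053456d7882b8fecc52ccd43f5233e81274804ad207f52b870c89003404a86202948040000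
/-- the lowest set bit, by a table -/
def lo (X : Nat) : Nat :=
  bt LG (mul (mod (sub X (land X (sub X (nat_lit 1)))) (nat_lit 523)) (nat_lit 9)) (nat_lit 511)
/-- `f` holds at all set bits -/
def it (k : Nat) (f : Nat → Bool) : Nat → Bool :=
  Nat.rec (fun X => z0 X) (fun _ ih X =>
    cb (z0 X) true (fb (lo X) fun c => an (f c) (ih (Nat.xor X (p2 c))))) k
/-- number of set bits, cut off at `k` -/
def pc (k : Nat) : Nat → Nat :=
  Nat.rec (fun _ => nat_lit 0) (fun _ ih X =>
    cn (z0 X) (nat_lit 0) (add (ih (land X (sub X (nat_lit 1)))) (nat_lit 1))) k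
/-- exactly two set bits -/
def two1 (Y : Nat) : Bool := an (nt (z0 Y)) (z0 (land Y (sub Y (nat_lit 1))))
def two (X : Nat) : Bool := two1 (land X (sub X (nat_lit 1)))
def ora (k : Nat) (g : Nat → Nat) : Nat := Nat.rec (nat_lit 0) (fun i ih => lor (g i) ih) k
def sm (k : Nat) (g : Nat → Nat) : Nat := Nat.rec (nat_lit 0) (fun i ih => add (g i) ih) k
def rg (a k : Nat) (f : Nat → Bool) : Bool := al k fun i => fb (add a i) f
def on (n : Nat) : Nat := sub (p2 n) (nat_lit 1)
/-- row `b` of the matrix `m`; `F = 2 ^ n - 1` -/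
def ro (n F m b : Nat) : Nat := land (shiftRight m (mul n b)) F
def t2 (n m x y : Nat) : Bool := tb m (add (mul n x) y)
def e2 (n x y : Nat) : Nat := lor (p2 (add (mul n x) y)) (p2 (add (mul n y) x))
def m3 (a b c : Nat) : Nat := lor (p2 a) (lor (p2 b) (p2 c))
def m4 (a b c d : Nat) : Nat := lor (m3 a b c) (p2 d)
def v9 (x i : Nat) : Nat := bt x (mul i (nat_lit 9)) (nat_lit 511)
def sub? (x y : Nat) : Bool := beq (land x y) x
def dif (x y : Nat) : Nat := Nat.xor x (land x y)
def sq (SG q i : Nat) : Nat := v9 SG (add (mul q (nat_lit 3)) i)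
/-- mask of the special face `q < 15` -/
def sg (SG q : Nat) : Nat := m3 (sq SG q (nat_lit 0)) (sq SG q (nat_lit 1)) (sq SG q (nat_lit 2))
/-- `m` is not the mask of a special face -/
def nS (SG m : Nat) : Bool := al (nat_lit 15) fun q => nt (beq (sg SG q) m)

/-- run through the `w`-bit entries (all non-zero) of the numbers in `l` with a state -/
def run1 (w W : Nat) (st : Nat → Nat → (Nat → Bool) → Bool) (k : Nat → Bool) (fuel : Nat) :
    Nat → Nat → Bool :=
  Nat.rec (fun _ _ => false) (fun _ ih X s =>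
    cb (z0 X) (k s) (fb (land X W) fun e => st e s fun s' => fb (shiftRight X w) fun X' => ih X' s'))
    fuel
def run (w : Nat) (st : Nat → Nat → (Nat → Bool) → Bool) (k : Nat → Bool) (l : List Nat) :
    Nat → Bool :=
  List.rec k (fun X _ ih s => run1 w (on w) st ih (nat_lit 300) X s) l

/-! faces -/

def fa2 (n H1 H2 : Nat) (U SG : Nat) (a b c T E : Nat) : Bool :=
  an (orr (two T) (orr (beq U (m3 a b c)) (nt (nS SG (m3 a b c)))))
    (orr (beq E T) (it n (fun d => orr (beq (m4 a b c d) H1) (beq (m4 a b c d) H2)) (dif E T)))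
def fa1 (n H1 H2 : Nat) (U SG : Nat) (a b c X Y Z XY : Nat) : Bool :=
  fa2 n H1 H2 U SG a b c (land XY Z) (lor XY (land (lor X Y) Z))
def fa (n H1 H2 : Nat) (U SG : Nat) (a b c X Y Z : Nat) : Bool :=
  an (tb Y b) (an (tb Z a) (fa1 n H1 H2 U SG a b c X Y Z (land X Y)))
def pa (n F H1 H2 : Nat) (U SG : Nat) (a b Ma Mb X : Nat) : Bool :=
  an (beq X (ro n F Mb a)) (an (z0 (land X (lor (p2 a) (p2 b))))
    (it n (fun c => cb (lt b c) (fa n H1 H2 U SG a b c X (ro n F Ma c) (ro n F Mb c))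
      (t2 n Ma c b)) X))
def va (n F H1 H2 : Nat) (U SG : Nat) (tM : BT) (a : Nat) : Bool :=
  ap (tM.get a) fun Ma => an (z0 (shiftRight Ma (mul n n))) (an (z0 (ro n F Ma a))
    (rg (add a (nat_lit 1)) (sub n (add a (nat_lit 1))) fun b =>
      pa n F H1 H2 U SG a b Ma (tM.get b) (ro n F Ma b)))
/-- vertices `a0 ≤ a < a0 + k` -/
def cA (n H1 H2 : Nat) (U SG : Nat) (tM : BT) (a0 k : Nat) : Bool :=
  fb (on n) fun F => fb H1 fun H1 => fb H2 fun H2 => rg a0 k (va n F H1 H2 U SG tM)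
def cn1 (n F a Ma : Nat) : Nat :=
  sm (sub n (add a (nat_lit 1))) fun k => fn (add (add a (nat_lit 1)) k) fun b =>
    aq (shiftRight (ro n F Ma b) (add b (nat_lit 1))) (pc n)
/-- the number of faces -/
def cN (n : Nat) (tM : BT) : Nat :=
  fn (on n) fun F => sm n fun a => aq (tM.get a) (cn1 n F a)
/-- the number of quads at a face -/
def dg (n : Nat) (tM : BT) (a b c : Nat) : Nat :=
  pc (nat_lit 4) (land (ro n (on n) (tM.get a) b)
    (land (ro n (on n) (tM.get a) c) (ro n (on n) (tM.get b) c)))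

/-- the device -/
def cB (n s2 s7 s8 z1 z2 SG : Nat) (tM : BT) : Bool :=
  an (an (an (ble n (nat_lit 512)) (an (lt s2 n) (lt s7 n))) (an (lt s8 n) (an (lt z1 n) (lt z2 n))))
  (an (an (t2 n (tM.get s2) s7 s8) (an (beq (dg n tM s2 s7 s8) (nat_lit 1)) (nS SG (m3 s2 s7 s8))))
  (an (an (nt (t2 n (tM.get s2) s7 z1)) (an (t2 n (tM.get s2) s8 z1) (t2 n (tM.get s7) s8 z1)))
  (an (an (nt (t2 n (tM.get s7) s8 z2)) (an (t2 n (tM.get s2) s7 z2) (t2 n (tM.get s2) s8 z2)))
    (al (nat_lit 15) fun q => fb (sq SG q (nat_lit 0)) fun a => fb (sq SG q (nat_lit 1)) fun b =>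
      fb (sq SG q (nat_lit 2)) fun c => an (an (lt a n) (an (lt b n) (lt c n)))
        (an (t2 n (tM.get a) b c) (beq (dg n tM a b c) (nat_lit 3)))))))

/-! zones -/

def nw (r i w : Nat) : Nat := bt r (add i (nat_lit 528)) w
def nd (J : Nat) (tZ : BT) (j p : Nat) : Bool :=
  an (lt j J) (an (lt (nat_lit 0) p) (lt (add p (nat_lit 1)) (zl (tZ.get j))))
/-- the parent of a node: witness fields `i` (2 bits), `i'` (2), type (2), `j'` (8), `p'` (9) -/
def pr (n J SK : Nat) (tZ tF : BT) (x c r : Nat) : Bool :=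
  cb (z0 (nw r (nat_lit 4) (nat_lit 3))) (t2 n SK x c)
    (fb (nw r (nat_lit 6) (nat_lit 255)) fun j' => fb (nw r (nat_lit 14) (nat_lit 511)) fun p' =>
      ap (nrec (tF.get j') p') fun r' => ap (tZ.get j') fun z' =>
      an (nd J tZ j' p') (an (lt (nnr r') (nnr r))
        (cb (beq (nw r (nat_lit 4) (nat_lit 3)) (nat_lit 1))
          (an (beq (zr z' p') x) (an (beq (zc z' (nw r (nat_lit 2) (nat_lit 3))) c)
            (an (sub? (nfo r') (nfo r)) (sub? (nfu r') (nfu r)))))
          (an (beq (zr z' p') c) (an (beq (zc z' (nw r (nat_lit 2) (nat_lit 3))) x)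
            (sub? (nfu r') (nfo r)))))))
def no (n F J SK MB : Nat) (tZ tF : BT) (j z f x p c0 c1 c2 c3 : Nat) : Bool :=
  ap (nrec f p) fun r => ap (ro n F SK x) fun S =>
    an (tb (nfu r) j) (an (sub? (nfo r) (nfu r))
    (an (z0 (land (shiftRight MB (mul x (nat_lit 256))) (nfo r)))
    (an (nt (an (orr (tb S c0) (tb S c2)) (orr (tb S c1) (tb S c3))))
      (pr n J SK tZ tF x (zc z (nw r (nat_lit 0) (nat_lit 3))) r))))
def po (n F J SK MB : Nat) (tZ tF : BT) (j z f L c0 c1 c2 c3 M0 M1 M2 M3 p : Nat) : Bool :=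
  fb (zr z p) fun x => an (lt x n) (an (tb MB (add (mul x (nat_lit 256)) j))
    (ap (ro n F M0 x) fun R0 => ap (ro n F M1 x) fun R1 => ap (ro n F M2 x) fun R2 =>
      ap (ro n F M3 x) fun R3 =>
    an (tb R0 c1) (an (tb R1 c2) (an (tb R2 c3) (an (tb R3 c0)
    (cb (lt (add p (nat_lit 1)) L)
      (fb (zr z (add p (nat_lit 1))) fun y =>
        an (tb (land (land R0 R1) (land R2 R3)) y) (an (nt (t2 n SK x y))
          (cb (z0 p) true (no n F J SK MB tZ tF j z f x p c0 c1 c2 c3)))) true))))))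
def zo (n F J SK MB : Nat) (tM tZ tF : BT) (j : Nat) : Bool :=
  ap (tZ.get j) fun z => ap (tF.get j) fun f => fb (zl z) fun L =>
  fb (zc z (nat_lit 0)) fun c0 => fb (zc z (nat_lit 1)) fun c1 => fb (zc z (nat_lit 2)) fun c2 =>
  fb (zc z (nat_lit 3)) fun c3 =>
  ap (tM.get c0) fun M0 => ap (tM.get c1) fun M1 => ap (tM.get c2) fun M2 => ap (tM.get c3) fun M3 =>
    an (an (an (lt c0 n) (lt c1 n)) (an (lt c2 n) (lt c3 n)))
    (an (an (lt (nat_lit 1) L) (an (nt (beq c0 c2)) (nt (beq c1 c3))))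
    (an (an (an (t2 n SK c0 c1) (t2 n SK c1 c2)) (an (t2 n SK c2 c3) (t2 n SK c3 c0)))
    (an (an (sub? (m4 c0 c1 c2 c3) (ro n F SK (zr z (nat_lit 0))))
        (sub? (m4 c0 c1 c2 c3) (ro n F SK (zr z (sub L (nat_lit 1))))))
      (rg (nat_lit 0) L (po n F J SK MB tZ tF j z f L c0 c1 c2 c3 M0 M1 M2 M3)))))
def cZ (n J SK MB : Nat) (tM tZ tF : BT) : Bool :=
  an (ble J (nat_lit 256)) (fb (on n) fun F => rg (nat_lit 0) J (zo n F J SK MB tM tZ tF))

/-- pairs covered by the zone with record `z` -/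
def cv1 (n z L H N : Nat) : Nat :=
  lor (ora (sub L (nat_lit 1)) fun p => e2 n (zr z p) (zr z (add p (nat_lit 1))))
    (lor (ora (sub L (nat_lit 2)) fun p => shiftLeft H (mul n (zr z (add p (nat_lit 1)))))
      (ora (nat_lit 4) fun i => shiftLeft N (mul n (zc z i))))
def cv (n J : Nat) (tZ : BT) : Nat :=
  ora J fun j => aq (tZ.get j) fun z => fn (zl z) fun L =>
    aq (ora (nat_lit 4) fun i => p2 (zc z i)) fun H =>
    aq (ora (sub L (nat_lit 2)) fun p => p2 (zr z (add p (nat_lit 1)))) fun N => cv1 n z L H N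
def cV (n J SK : Nat) (tZ : BT) : Bool :=
  fb (on n) fun F => ap (lor SK (cv n J tZ)) fun C =>
    rg (nat_lit 0) n fun x => beq (lor (ro n F C x) (p2 x)) F

/-! derivations -/

/-- entry `x, y, w` (9 bits each) and a marker bit -/
def ds (n E : Nat) (tM : BT) (e D : Nat) (k : Nat → Bool) : Bool :=
  fb (v9 e (nat_lit 0)) fun x => fb (v9 e (nat_lit 1)) fun y => fb (v9 e (nat_lit 2)) fun w =>
    an (an (lt x n) (an (lt y n) (lt w n)))
    (an (t2 n (tM.get x) y w) (an (t2 n D x w) (an (t2 n D y w) (an (t2 n E x y)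
      (ap (lor D (e2 n x y)) k)))))
def der (n E : Nat) (tM : BT) (l : List Nat) (D : Nat) (k : Nat → Bool) : Bool :=
  fb E fun E => fb D (run (nat_lit 28) (ds n E tM) k l)
/-- tree, symmetry and derivation of the skeleton pairs -/
def cS (n SK root PAR TRK : Nat) (tM : BT) (l : List Nat) : Bool :=
  an (rg (nat_lit 0) n fun x => orr (beq x root) (fb (v9 PAR x) fun y =>
      an (lt y n) (an (lt (v9 TRK y) (v9 TRK x)) (t2 n SK x y))))
  (an (fb (on n) fun F => rg (nat_lit 0) n fun x => it n (fun y => t2 n SK y x) (ro n F SK x))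
    (der n SK tM l (ora n fun x => cn (beq x root) (nat_lit 0) (e2 n x (v9 PAR x))) (sub? SK)))
/-- the cascade from the cone point `v`, ignited through `z1`, `z2`, reaches the tree edges -/
def cC (n v z1 z2 s0 s7 s9 root PAR : Nat) (tM : BT) (l1 l2 l : List Nat) : Bool :=
  an (an (an (lt v n) (an (lt z1 n) (lt z2 n))) (an (lt s0 n) (an (lt s7 n) (lt s9 n))))
  (an (an (an (t2 n (tM.get v) s0 z1) (t2 n (tM.get v) s9 z1))
      (an (t2 n (tM.get v) s7 z2) (t2 n (tM.get v) s9 z2)))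
  (an (der n (on (mul n n)) tM l1 (tM.get z1) fun D => t2 n D s0 s9)
  (an (der n (on (mul n n)) tM l2 (tM.get z2) fun D => t2 n D s7 s9)
    (der n (on (mul n n)) tM l (lor (tM.get v) (lor (e2 n s0 s9) (e2 n s7 s9))) fun D =>
      rg (nat_lit 0) n fun x => orr (orr (beq x root) (beq x v))
        (orr (beq (v9 PAR x) v) (t2 n D x (v9 PAR x)))))))

/-! labels: `(j, q)`, zone objects for `j < J`, skeleton quads for `j = J`, `Sig` for `j = J + 1` -/

def zm (z p k i : Nat) : Nat :=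
  aq (lor (p2 (zr z p)) (p2 (zc z i))) fun m =>
    cn (z0 k) (lor m (p2 (zc z (land (add i (nat_lit 1)) (nat_lit 3)))))
      (aq (lor m (p2 (zr z (add p (nat_lit 1))))) fun m' =>
        cn (beq k (nat_lit 1)) m' (lor m' (p2 (zc z (land (add i (nat_lit 1)) (nat_lit 3))))))
def tq (TT q i : Nat) : Nat := v9 TT (add (mul q (nat_lit 4)) i)
def tm (t : Nat) : Nat :=
  m4 (v9 t (nat_lit 0)) (v9 t (nat_lit 1)) (v9 t (nat_lit 2)) (v9 t (nat_lit 3))
/-- the vertex mask of a label -/
def lm (J TT SG : Nat) (tZ : BT) (j q : Nat) : Nat :=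
  cn (lt j J) (aq (tZ.get j) fun z => fn (div q (nat_lit 12)) fun p =>
      fn (land q (nat_lit 3)) fun i => zm z p (shiftRight (mod q (nat_lit 12)) (nat_lit 2)) i)
    (cn (beq j J) (fn (bt TT (mul q (nat_lit 36)) (nat_lit 68719476735)) tm)
      (sg SG q))
/-- the number of labels with first part `j` -/
def lb (J nT : Nat) (tZ : BT) (j : Nat) : Nat :=
  cn (lt j J) (sub (mul (zl (tZ.get j)) (nat_lit 12)) (nat_lit 8)) (cn (beq j J) nT (nat_lit 15))
/-- entry `j` (8 bits), `q` (14 bits), marker bit; state = count + 2 ^ 20 * last mask -/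
def os (J nT TT SG : Nat) (tZ : BT) (e s : Nat) (k : Nat → Bool) : Bool :=
  fb (land e (nat_lit 255)) fun j => fb (bt e (nat_lit 8) (nat_lit 16383)) fun q =>
    an (ble j (add J (nat_lit 1))) (an (lt q (lb J nT tZ j))
      (ap (lm J TT SG tZ j q) fun m => an (lt (shiftRight s (nat_lit 20)) m)
        (fb (add (shiftLeft m (nat_lit 20)) (add (land s (nat_lit 1048575)) (nat_lit 1))) k)))
def cO (J nT TT SG : Nat) (tZ : BT) (l : List Nat) (s s' : Nat) : Bool :=
  run (nat_lit 23) (os J nT TT SG tZ) (beq s') l s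
def cL (J nT : Nat) (tZ : BT) : Nat := sm (add J (nat_lit 2)) (lb J nT tZ)

/-- the number of listed quads -/
def cT (J nT : Nat) (tZ : BT) : Nat :=
  add (sm J fun j => mul (sub (zl (tZ.get j)) (nat_lit 1)) (nat_lit 4)) nT
/-- the counts: `g` faces, `s` the last state of the label run -/
def cQ (n J nT g s : Nat) (tZ : BT) : Bool :=
  fb (div (mul (sub n (nat_lit 1)) (sub n (nat_lit 2))) (nat_lit 2)) fun r =>
    an (ble (add (mul r (nat_lit 4)) (nat_lit 15)) (add (mul g (nat_lit 2)) (nat_lit 1)))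
      (an (ble g (add r (cT J nT tZ))) (ble (cL J nT tZ) (land s (nat_lit 1048575))))

/-! the dual graph -/

def tk (n TT : Nat) (tM : BT) (q : Nat) : Bool :=
  fb (tq TT q (nat_lit 0)) fun a => fb (tq TT q (nat_lit 1)) fun b =>
  fb (tq TT q (nat_lit 2)) fun c => fb (tq TT q (nat_lit 3)) fun d =>
    an (an (an (lt a n) (lt b n)) (an (lt c n) (lt d n)))
      (ap (tM.get a) fun Ma => an (an (t2 n Ma b c) (t2 n Ma b d))
        (an (t2 n Ma c d) (t2 n (tM.get b) c d)))
def ow (J j q : Nat) : Nat := cn (lt j J) j (add q J)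
/-- the label is a quad -/
def lq (J nT : Nat) (tZ : BT) (j q : Nat) : Bool :=
  an (ble j J) (an (lt q (lb J nT tZ j)) (orr (beq j J) (ble (nat_lit 8) (mod q (nat_lit 12)))))
/-- entry: two labels (22 bits each), marker bit; state = owners reached -/
def rs (J nT TT SG : Nat) (tZ : BT) (e s : Nat) (k : Nat → Bool) : Bool :=
  fb (land e (nat_lit 255)) fun j => fb (bt e (nat_lit 8) (nat_lit 16383)) fun q =>
  fb (bt e (nat_lit 22) (nat_lit 255)) fun j' => fb (bt e (nat_lit 30) (nat_lit 16383)) fun q' =>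
    an (lq J nT tZ j q) (an (lq J nT tZ j' q') (an (tb s (ow J j q))
      (ap (land (lm J TT SG tZ j q) (lm J TT SG tZ j' q')) fun m =>
        an (beq (pc (nat_lit 4) m) (nat_lit 3)) (an (nS SG m)
          (ap (lor s (p2 (ow J j' q'))) k)))))
/-- skeleton quads lie in `G`, the quad `q0` contains `U`, all owners are reached -/
def cR (n J nT TT SG U q0 : Nat) (tM tZ : BT) (l : List Nat) : Bool :=
  an (al (add (shiftRight nT (nat_lit 6)) (nat_lit 1)) fun i => rg (mul i (nat_lit 64)) (nat_lit 64)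
      fun q => orr (ble nT q) (tk n TT tM q))
    (an (lt q0 nT) (an (sub? U (lm J TT SG tZ J q0))
      (run (nat_lit 45) (rs J nT TT SG tZ) (beq (on (add J nT))) l (p2 (add q0 J)))))

/-! sets of tokens: leaves `key + 2 ^ 18 * link`, `key = 512 * min + max` -/

def ky (a b : Nat) : Nat := cn (ble a b) (add (mul a (nat_lit 512)) b) (add (mul b (nat_lit 512)) a)
def hl (t : BT) (a b : Nat) : Nat :=
  fn (ky a b) fun k => aq (t.get k) fun x =>
    cn (beq (land x (nat_lit 262143)) k) (shiftRight x (nat_lit 18)) (nat_lit 0)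
def lv (t : BT) (f : Nat → Bool) : Bool := BT.rec f (fun _ _ _ l r => an l r) t
/-- `f a b X` for every stored pair, `X` its link -/
def hp (t : BT) (f : Nat → Nat → Nat → Bool) : Bool :=
  lv t fun x => fb (bt x (nat_lit 9) (nat_lit 511)) fun a => fb (land x (nat_lit 511)) fun b =>
    ap (shiftRight x (nat_lit 18)) (f a b)
/-- closed under the gates that avoid the face with mask `m`; with `c3` also the condition on
quads with at most one face -/
def hk (n F m : Nat) (c3 : Bool) (tM t : BT) (a b X : Nat) : Bool :=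
  ap (tM.get a) fun Ma => ap (tM.get b) fun Mb => ap (ro n F Ma b) fun L =>
    an (an (lt a b) (lt b n)) (an (z0 (land X (lor L (lor (p2 a) (p2 b)))))
      (it n (fun c => ap (ro n F Ma c) fun Y => ap (ro n F Mb c) fun Z =>
        ap (hl t a c) fun A => ap (hl t b c) fun B =>
        an (lt c n) (an (tb A b) (an (tb B a)
        (an (it n (fun d => orr (beq (m3 a c d) m) (beq (m3 b c d) m))
            (dif (land Y Z) (lor L X)))
          (orr (nt c3) (it n (fun d => orr (an (beq (m3 a c d) m) (nt (tb (lor Z B) d)))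
              (an (beq (m3 b c d) m) (nt (tb (lor Y A) d))))
            (dif (land X (lor (lor Y A) (lor Z B))) (land Y Z)))))))) X))
def cH (n m : Nat) (c3 : Bool) (tM t : BT) : Bool := fb (on n) fun F => hp t (hk n F m c3 tM t)
def cH1 (n s2 s7 s8 z1 z2 m : Nat) (tM t : BT) : Bool :=
  an (an (tb (hl t s2 s7) z1) (tb (hl t s7 s8) z2)) (cH n m true tM t)
def cK (n s2 s7 s8 z1 z2 : Nat) (tM t1 t2 : BT) : Bool :=
  an (an (tb (hl t1 s2 s7) z1) (tb (hl t2 s7 s8) z2))
    (an (cH n (nat_lit 0) false tM t1) (an (cH n (nat_lit 0) false tM t2)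
      (hp t1 fun a b X => z0 (land X (hl t2 a b)))))

end

end Pool.Agent.MP_797bdc_co.Lk.A
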