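import Pool.Agent.MP_797bdc_co.Lk.Dat
import Pool.Agent.MP_797bdc_co.Lk.AChk

/-! Basic facts about the primitive operations of the static checker. -/

namespace Pool.Agent.MP_797bdc_co.Lk.A

open Finset

theorem add_e (a b : ℕ) : Nat.add a b = a + b := rfl
theorem sub_e (a b : ℕ) : Nat.sub a b = a - b := rfl
theorem mul_e (a b : ℕ) : Nat.mul a b = a * b := rfl
theorem div_e (a b : ℕ) : Nat.div a b = a / b := rfl
theorem mod_e (a b : ℕ) : Nat.mod a b = a % b := rfl
theorem land_e (a b : ℕ) : Nat.land a b = a &&& b := rfl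
theorem lor_e (a b : ℕ) : Nat.lor a b = a ||| b := rfl
theorem xor_e (a b : ℕ) : Nat.xor a b = a ^^^ b := rfl
theorem shr_e (a b : ℕ) : Nat.shiftRight a b = a >>> b := rfl
theorem shl_e (a b : ℕ) : Nat.shiftLeft a b = a <<< b := rfl
theorem beq_iff {a b : ℕ} : Nat.beq a b = true ↔ a = b := Nat.beq_eq.to_iff
theorem ble_iff {a b : ℕ} : Nat.ble a b = true ↔ a ≤ b := Nat.ble_eq.to_iff
theorem nt_iff {a : Bool} : nt a = true ↔ ¬ a = true := by cases a <;> simp [nt]
theorem z0_iff {x : ℕ} : z0 x = true ↔ x = 0 := beq_iff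
theorem fn_eq (x : ℕ) (f : ℕ → ℕ) : fn x f = f x := rfl
theorem ap_eq (x : ℕ) (f : ℕ → Bool) : ap x f = f x := rfl
theorem aq_eq (x : ℕ) (f : ℕ → ℕ) : aq x f = f x := rfl
theorem cb_iff {c a b : Bool} : cb c a b = true ↔ (c = true → a = true) ∧ (¬ c = true → b = true) := by
  cases c <;> simp [cb]
theorem on_eq (n : ℕ) : on n = 2 ^ n - 1 := by rw [← p2_eq]; rfl
theorem p2_tb {i c : ℕ} : (p2 i).testBit c = true ↔ c = i := by
  rw [p2_eq, Nat.testBit_two_pow, decide_eq_true_iff, eq_comm]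
theorem or_tb {x y c : ℕ} : (x ||| y).testBit c = true ↔ x.testBit c = true ∨ y.testBit c = true := by
  rw [Nat.testBit_or, Bool.or_eq_true]
theorem and_tb {x y c : ℕ} : (x &&& y).testBit c = true ↔ x.testBit c = true ∧ y.testBit c = true := by
  rw [Nat.testBit_and, Bool.and_eq_true]
theorem and_z {x y c : ℕ} (h : x &&& y = 0) (hx : x.testBit c = true) : ¬ y.testBit c = true :=
  fun hy => by simpa [h] using and_tb.2 ⟨hx, hy⟩

theorem it_el {k : ℕ} {f : ℕ → Bool} {X c : ℕ} (h : it k f X = true) (hc : X.testBit c = true) :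
    f c = true := by
  induction k generalizing X with
  | zero => rw [z0_iff.1 h] at hc; simp at hc
  | succ k ih =>
    have h' : cb (z0 X) true (an (f (lo X)) (it k f (X ^^^ p2 (lo X)))) = true := h
    obtain ⟨h1, h2⟩ := an_iff.1 ((cb_iff.1 h').2 fun e => by rw [z0_iff.1 e] at hc; simp at hc)
    by_cases e : c = lo X
    · rwa [e]
    · refine ih h2 ?_
      rw [Nat.testBit_xor, hc, Bool.eq_false_iff.2 fun h => e (p2_tb.1 h)]; rfl

/-- the set bits below `n` -/
def bs (n X : ℕ) : Finset ℕ := (range n).filter (X.testBit · = true)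

theorem mem_bs {n X c : ℕ} : c ∈ bs n X ↔ c < n ∧ X.testBit c = true := by simp [bs]

theorem low (X : ℕ) (h : X ≠ 0) : ∃ c, X.testBit c = true ∧
    ∀ d, (X &&& (X - 1)).testBit d = true ↔ X.testBit d = true ∧ d ≠ c := by
  induction X using Nat.binaryRec with
  | zero => exact absurd rfl h
  | bit b m ih =>
    cases b
    · have hm : m ≠ 0 := by rintro rfl; exact h rfl
      obtain ⟨c, h1, h2⟩ := ih hm
      have e : Nat.bit false m - 1 = Nat.bit true (m - 1) := by simp [Nat.bit]; omega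
      refine ⟨c + 1, by rwa [Nat.testBit_bit_succ], fun d => ?_⟩
      rw [e, Nat.land_bit]
      cases d with
      | zero => simp
      | succ d => simp only [Nat.testBit_bit_succ, h2]; simp
    · have e : Nat.bit true m - 1 = Nat.bit false m := by simp [Nat.bit]
      refine ⟨0, by rw [Nat.testBit_bit_zero], fun d => ?_⟩
      rw [e, Nat.land_bit]
      cases d with
      | zero => simp
      | succ d => simp only [Nat.testBit_bit_succ, Nat.and_self]; simp

theorem bs_low {n X : ℕ} (hX : X < 2 ^ n) (h : X ≠ 0) :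
    (bs n X).card = (bs n (X &&& (X - 1))).card + 1 := by
  obtain ⟨c, h1, h2⟩ := low X h
  have hc : c ∈ bs n X := mem_bs.2 ⟨by
    by_contra hc
    rw [Nat.testBit_lt_two_pow (hX.trans_le (Nat.pow_le_pow_right two_pos (not_lt.1 hc)))] at h1
    simp at h1, h1⟩
  rw [← card_erase_add_one hc]
  congr 2
  ext d
  simp only [mem_erase, mem_bs, h2]; tauto

theorem bs_zero (n : ℕ) : bs n 0 = ∅ := by simp [bs]

theorem pc_eq {n : ℕ} (k : ℕ) {X : ℕ} (hX : X < 2 ^ n) : pc k X = min k (bs n X).card := by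
  induction k generalizing X with
  | zero => rw [Nat.zero_min]; rfl
  | succ k ih =>
    have h' : pc (k + 1) X = cn (z0 X) 0 (pc k (X &&& (X - 1)) + 1) := rfl
    rw [h', cn_eq]
    by_cases h : X = 0
    · rw [if_pos (z0_iff.2 h), h, bs_zero]; simp
    · rw [if_neg fun e => h (z0_iff.1 e), ih (Nat.and_le_left.trans_lt hX), bs_low hX h]; omega

theorem two_card {n X : ℕ} (hX : X < 2 ^ n) (h : two X = true) : (bs n X).card = 2 := by
  obtain ⟨h1, h2⟩ := an_iff.1 h
  have h1 : X &&& (X - 1) ≠ 0 := fun e => nt_iff.1 h1 (z0_iff.2 e)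
  have h2 : (X &&& (X - 1)) &&& ((X &&& (X - 1)) - 1) = 0 := z0_iff.1 h2
  rw [bs_low hX (by rintro rfl; exact h1 rfl), bs_low (Nat.and_le_left.trans_lt hX) h1, h2, bs_zero]
  rfl

theorem ora_tb {k : ℕ} {g : ℕ → ℕ} {c : ℕ} :
    (ora k g).testBit c = true ↔ ∃ i < k, (g i).testBit c = true := by
  induction k with
  | zero => simp [ora]
  | succ k ih =>
    have h : ora (k + 1) g = g k ||| ora k g := rfl
    rw [h, or_tb, ih, Nat.exists_lt_succ_right, or_comm]

theorem sm_eq (k : ℕ) (g : ℕ → ℕ) : sm k g = ∑ i ∈ range k, g i := by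
  induction k with
  | zero => rfl
  | succ k ih =>
    have h : sm (k + 1) g = g k + sm k g := rfl
    rw [h, ih, sum_range_succ, add_comm]

theorem rg_iff {a k : ℕ} {f : ℕ → Bool} :
    rg a k f = true ↔ ∀ x, a ≤ x → x < a + k → f x = true := by
  have h : rg a k f = al k fun i => f (a + i) := rfl
  rw [h, al_iff]
  refine ⟨fun H x h1 h2 => ?_, fun H i hi => H _ (by omega) (by omega)⟩
  have := H (x - a) (by omega)
  rwa [Nat.add_sub_cancel' h1] at this

theorem rg0 {k : ℕ} {f : ℕ → Bool} : rg (nat_lit 0) k f = true ↔ ∀ x < k, f x = true := by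
  rw [rg_iff]; simp

theorem ro_tb {n m b c : ℕ} :
    (ro n (on n) m b).testBit c = true ↔ c < n ∧ m.testBit (n * b + c) = true := by
  have h : ro n (on n) m b = (m >>> (n * b)) &&& on n := rfl
  rw [h, and_tb, on_eq, Nat.testBit_two_pow_sub_one, Nat.testBit_shiftRight, decide_eq_true_iff,
    and_comm]

theorem ro_lt (n m b : ℕ) : ro n (on n) m b < 2 ^ n :=
  Nat.and_le_right.trans_lt (by rw [on_eq]; exact Nat.sub_one_lt (by positivity))

theorem t2_eq (n m x y : ℕ) : t2 n m x y = m.testBit (n * x + y) := tb_eq _ _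

theorem pos_inj {n a b x y : ℕ} (hb : b < n) (hy : y < n) (h : n * a + b = n * x + y) :
    a = x ∧ b = y := by
  have h1 := congrArg (· % n) h
  simp only [Nat.mul_add_mod, Nat.mod_eq_of_lt hb, Nat.mod_eq_of_lt hy] at h1
  subst h1
  exact ⟨Nat.eq_of_mul_eq_mul_left (by omega) (Nat.add_right_cancel h), rfl⟩

theorem e2_tb {n x y a b : ℕ} (hx : x < n) (hy : y < n) (hb : b < n)
    (h : (e2 n x y).testBit (n * a + b) = true) : (a = x ∧ b = y) ∨ (a = y ∧ b = x) :=
  (or_tb.1 h).imp (fun h => pos_inj hb hy (p2_tb.1 h)) fun h => pos_inj hb hx (p2_tb.1 h)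

/-- `m` is the bit mask of `s` -/
def HasM (m : ℕ) (s : Finset ℕ) : Prop := ∀ x, m.testBit x = true ↔ x ∈ s

theorem HasM.mask {m m' : ℕ} {s : Finset ℕ} (h : HasM m s) (h' : HasM m' s) : m = m' :=
  Nat.eq_of_testBit_eq fun i => Bool.eq_iff_iff.2 ((h i).trans (h' i).symm)
theorem HasM.set {m : ℕ} {s s' : Finset ℕ} (h : HasM m s) (h' : HasM m s') : s = s' :=
  Finset.ext fun i => (h i).symm.trans (h' i)
theorem m3_has (a b c : ℕ) : HasM (m3 a b c) {a, b, c} := fun x => by
  simp only [m3, lor_e, or_tb, p2_tb, mem_insert, mem_singleton]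
theorem m4_has (a b c d : ℕ) : HasM (m4 a b c d) {a, b, c, d} := fun x => by
  simp only [m4, m3, lor_e, or_tb, p2_tb, mem_insert, mem_singleton, or_assoc]

theorem sub_el {x y c : ℕ} (h : sub? x y = true) (hc : x.testBit c = true) : y.testBit c = true := by
  rw [← beq_iff.1 h] at hc; exact (and_tb.1 hc).2
theorem dif_tb {x y c : ℕ} :
    (dif x y).testBit c = true ↔ x.testBit c = true ∧ ¬ y.testBit c = true := by
  have h : dif x y = x ^^^ (x &&& y) := rfl
  rw [h, Nat.testBit_xor, Nat.testBit_and]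
  cases x.testBit c <;> cases y.testBit c <;> simp
theorem nS_iff {SG m : ℕ} : nS SG m = true ↔ ∀ q < 15, sg SG q ≠ m := by
  simp only [nS, al_iff, nt_iff, beq_iff]

theorem run_inv {w : ℕ} {st : ℕ → ℕ → (ℕ → Bool) → Bool} (P : ℕ → Prop)
    (hst : ∀ e s k, st e s k = true → P s → ∃ s', P s' ∧ k s' = true) {k : ℕ → Bool}
    {l : List ℕ} {s : ℕ} (h : run w st k l s = true) (hs : P s) : ∃ s', P s' ∧ k s' = true := by
  have one : ∀ (k : ℕ → Bool) (fuel X s : ℕ), run1 w (on w) st k fuel X s = true → P s →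
      ∃ s', P s' ∧ k s' = true := by
    intro k fuel
    induction fuel with
    | zero => intro X s h; exact absurd h Bool.false_ne_true
    | succ m ih =>
      intro X s h hs
      have h' : cb (z0 X) (k s) (st (X &&& on w) s fun s' =>
        run1 w (on w) st k m (X >>> w) s') = true := h
      by_cases e : z0 X = true
      · exact ⟨s, hs, (cb_iff.1 h').1 e⟩
      · obtain ⟨s', h1, h2⟩ := hst _ _ _ ((cb_iff.1 h').2 e) hs
        exact ih _ _ h2 h1
  induction l generalizing s with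
  | nil => exact ⟨s, hs, h⟩
  | cons X l ih =>
    obtain ⟨s', h1, h2⟩ := one (run w st k l) 300 X s h hs
    exact ih h2 h1

/-- the special faces -/
def sgf (SG q : ℕ) : Finset ℕ := {sq SG q 0, sq SG q 1, sq SG q 2}
def SigD (SG : ℕ) : Finset (Finset ℕ) := (range 15).image (sgf SG)
/-- the vertices of the skeleton quad `q` -/
def skv (TT q : ℕ) : Finset ℕ := {tq TT q 0, tq TT q 1, tq TT q 2, tq TT q 3}

theorem sg_has (SG q : ℕ) : HasM (sg SG q) (sgf SG q) := m3_has _ _ _
theorem nS_not {SG m : ℕ} {s : Finset ℕ} (hm : HasM m s) : nS SG m = true ↔ s ∉ SigD SG := by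
  rw [nS_iff, SigD, mem_image]
  constructor
  · rintro h ⟨q, hq, rfl⟩
    exact h q (mem_range.1 hq) ((sg_has SG q).mask hm)
  · intro h q hq e
    exact h ⟨q, mem_range.2 hq, (sg_has SG q).set (e ▸ hm)⟩

section
variable {n J nT TT SG SK : ℕ} {tZ tF : BT} {j p i : ℕ}

theorem lm_zone (hj : j < J) (k : ℕ) (hk : k < 3) (hi : i < 4) :
    lm J TT SG tZ j (12 * p + 4 * k + i) = zm (tZ.get j) p k i := by
  simp only [lm, cn_eq, lt_iff, if_pos hj, aq_eq, fn_eq, div_e, land_e, mod_e, shr_e]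
  have e : ∀ x : ℕ, x &&& 3 = x % 4 := fun x => Nat.and_two_pow_sub_one_eq_mod x 2
  rw [e, Nat.shiftRight_eq_div_pow]
  congr 1 <;> omega

theorem lm_nf (hj : j < J) (hi : i < 4) :
    HasM (lm J TT SG tZ j (12 * p + i)) ((mkZ n J tZ tF SK).nf j p i) := fun x => by
  have e : ∀ x : ℕ, x &&& 3 = x % 4 := fun x => Nat.and_two_pow_sub_one_eq_mod x 2
  rw [show 12 * p + i = 12 * p + 4 * 0 + i from rfl, lm_zone hj 0 (by omega) hi]
  simp [zm, aq_eq, cn_eq, z0_iff, e, p2_tb, Zn.nf, mkZ, preZ, or_assoc]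

theorem lm_rf (hj : j < J) (hi : i < 4) :
    HasM (lm J TT SG tZ j (12 * p + 4 + i)) ((mkZ n J tZ tF SK).rf j p i) := fun x => by
  rw [show 12 * p + 4 + i = 12 * p + 4 * 1 + i from rfl, lm_zone hj 1 (by omega) hi]
  simp [zm, aq_eq, cn_eq, z0_iff, p2_tb, Zn.rf, mkZ, preZ]
  tauto

theorem lm_tet (hj : j < J) (hi : i < 4) :
    HasM (lm J TT SG tZ j (12 * p + 8 + i)) {(mkZ n J tZ tF SK).rim j p,
      (mkZ n J tZ tF SK).rim j (p + 1), (mkZ n J tZ tF SK).c j i,
      (mkZ n J tZ tF SK).c j ((i + 1) % 4)} := fun x => by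
  have e : ∀ x : ℕ, x &&& 3 = x % 4 := fun x => Nat.and_two_pow_sub_one_eq_mod x 2
  rw [show 12 * p + 8 + i = 12 * p + 4 * 2 + i from rfl, lm_zone hj 2 (by omega) hi]
  simp [zm, aq_eq, cn_eq, z0_iff, e, p2_tb, mkZ, preZ]
  tauto

theorem lm_sig (q : ℕ) : HasM (lm J TT SG tZ (J + 1) q) (sgf SG q) := by
  simp only [lm, cn_eq, lt_iff, beq_iff]
  rw [if_neg (by omega), if_neg (by omega)]
  exact sg_has SG q

theorem lm_sk (q : ℕ) : HasM (lm J TT SG tZ J q) (skv TT q) := by
  have e : ∀ i < 4, v9 (bt TT (q * 36) 68719476735) i = tq TT q i := fun i hi => by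
    simp only [v9, tq, bt_eq, mul_e, add_e]
    refine Nat.eq_of_testBit_eq fun c => ?_
    simp only [Nat.testBit_and, Nat.testBit_shiftRight,
      show 68719476735 = 2 ^ 36 - 1 from rfl, show 511 = 2 ^ 9 - 1 from rfl,
      Nat.testBit_two_pow_sub_one]
    by_cases hc : c < 9
    · rw [decide_eq_true (by omega : i * 9 + c < 36), Bool.and_true]
      congr 2; ring
    · simp [hc]
  simp only [lm, cn_eq, lt_iff, beq_iff, lt_irrefl, if_false, if_true, fn_eq, tm, mul_e]
  rw [e 0 (by omega), e 1 (by omega), e 2 (by omega), e 3 (by omega)]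
  exact m4_has _ _ _ _

theorem lb_zone (hj : j < J) : lb J nT tZ j = (mkZ n J tZ tF SK).L j * 12 - 8 := by
  simp only [lb, cn_eq, lt_iff, if_pos hj]; rfl
theorem lb_sk : lb J nT tZ J = nT := by simp [lb, cn_eq, lt_iff]
theorem lb_sig : lb J nT tZ (J + 1) = 15 := by simp [lb, cn_eq, lt_iff]

end

end Pool.Agent.MP_797bdc_co.Lk.A
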