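import Pool.Agent.MP_797bdc_co.Lk.Prim
import Pool.Agent.MP_797bdc_co.Lk.DM0
import Pool.Agent.MP_797bdc_co.Lk.DM1
import Pool.Agent.MP_797bdc_co.Lk.DM2
import Pool.Agent.MP_797bdc_co.Lk.DM3
import Pool.Agent.MP_797bdc_co.Lk.DM4
import Pool.Agent.MP_797bdc_co.Lk.DM5
import Pool.Agent.MP_797bdc_co.Lk.DM6
import Pool.Agent.MP_797bdc_co.Lk.DM7

/-! Link matrices. -/

namespace Pool.Agent.MP_797bdc_co.Lk.Da

noncomputable def tM : BT := (.nd (nat_lit 160) (.nd (nat_lit 80) (.nd (nat_lit 40) (.nd (nat_lit 20) (.nd (nat_lit 10) (.nd (nat_lit 5) (.nd (nat_lit 2) (.nd (nat_lit 1) (.lf m0) (.lf m1)) (.nd (nat_lit 3) (.lf m2) (.nd (nat_lit 4) (.lf m3) (.lf m4)))) (.nd (nat_lit 7) (.nd (nat_lit 6) (.lf m5) (.lf m6)) (.nd (nat_lit 8) (.lf m7) (.nd (nat_lit 9) (.lf m8) (.lf m9))))) (.nd (nat_lit 15) (.nd (nat_lit 12) (.nd (nat_lit 11) (.lf m10) (.lf m11)) (.nd (nat_lit 13) (.lf m12)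 (.nd (nat_lit 14) (.lf m13) (.lf m14)))) (.nd (nat_lit 17) (.nd (nat_lit 16) (.lf m15) (.lf m16)) (.nd (nat_lit 18) (.lf m17) (.nd (nat_lit 19) (.lf m18) (.lf m19)))))) (.nd (nat_lit 30) (.nd (nat_lit 25) (.nd (nat_lit 22) (.nd (nat_lit 21) (.lf m20) (.lf m21)) (.nd (nat_lit 23) (.lf m22) (.nd (nat_lit 24) (.lf m23) (.lf m24)))) (.nd (nat_lit 27) (.nd (nat_lit 26) (.lf m25) (.lf m26)) (.nd (nat_lit 28) (.lf m27) (.nd (nat_lit 29) (.lf m28) (.lf m29))))) (.nd (nat_lit 35) (.nd (nat_lit 32) (.nd (nat_lit 31) (.lf m30) (.lf m31)) (.nd (nat_lit 33) (.lf m32) (.nd (nat_lit 34) (.lf m33) (.lf m34)))) (.nd (nat_lit 37) (.nd (nat_lit 36) (.lf m35) (.lf m36)) (.nd (nat_lit 38) (.lf m37) (.nd (nat_lit 39) (.lf m38) (.lf m39))))))) (.nd (nat_lit 60) (.nd (nat_lit 50) (.nd (nat_lit 45) (.nd (nat_lit 42) (.nd (nat_lit 41) (.lf m40) (.lf m41)) (.nd (nat_lit 43) (.lf m42) (.nd (nat_lit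 44) (.lf m43) (.lf m44)))) (.nd (nat_lit 47) (.nd (nat_lit 46) (.lf m45) (.lf m46)) (.nd (nat_lit 48) (.lf m47) (.nd (nat_lit 49) (.lf m48) (.lf m49))))) (.nd (nat_lit 55) (.nd (nat_lit 52) (.nd (nat_lit 51) (.lf m50) (.lf m51)) (.nd (nat_lit 53) (.lf m52) (.nd (nat_lit 54) (.lf m53) (.lf m54)))) (.nd (nat_lit 57) (.nd (nat_lit 56) (.lf m55) (.lf m56)) (.nd (nat_lit 58) (.lf m57) (.nd (nat_lit 59) (.lf m58) (.lf m59)))))) (.nd (nat_lit 70) (.nd (nat_lit 65) (.nd (nat_lit 62) (.nd (nat_lit 61) (.lf m60) (.lf m61)) (.nd (nat_lit 63) (.lf m62) (.nd (nat_lit 64) (.lf m63) (.lf m64)))) (.nd (nat_lit 67) (.nd (nat_lit 66) (.lf m65) (.lf m66)) (.nd (nat_lit 68) (.lf m67) (.nd (nat_lit 69) (.lf m68) (.lf m69))))) (.nd (nat_lit 75) (.nd (nat_lit 72) (.nd (nat_lit 71) (.lf m70) (.lf m71)) (.nd (nat_lit 73) (.lf m72) (.nd (nat_lit 74) (.lf m73) (.lf m74)))) (.nd (nat_lit 77) (.nd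 (nat_lit 76) (.lf m75) (.lf m76)) (.nd (nat_lit 78) (.lf m77) (.nd (nat_lit 79) (.lf m78) (.lf m79)))))))) (.nd (nat_lit 120) (.nd (nat_lit 100) (.nd (nat_lit 90) (.nd (nat_lit 85) (.nd (nat_lit 82) (.nd (nat_lit 81) (.lf m80) (.lf m81)) (.nd (nat_lit 83) (.lf m82) (.nd (nat_lit 84) (.lf m83) (.lf m84)))) (.nd (nat_lit 87) (.nd (nat_lit 86) (.lf m85) (.lf m86)) (.nd (nat_lit 88) (.lf m87) (.nd (nat_lit 89) (.lf m88) (.lf m89))))) (.nd (nat_lit 95) (.nd (nat_lit 92) (.nd (nat_lit 91) (.lf m90) (.lf m91)) (.nd (nat_lit 93) (.lf m92) (.nd (nat_lit 94) (.lf m93) (.lf m94)))) (.nd (nat_lit 97) (.nd (nat_lit 96) (.lf m95) (.lf m96)) (.nd (nat_lit 98) (.lf m97) (.nd (nat_lit 99) (.lf m98) (.lf m99)))))) (.nd (nat_lit 110) (.nd (nat_lit 105) (.nd (nat_lit 102) (.nd (nat_lit 101) (.lf m100) (.lf m101)) (.nd (nat_lit 103) (.lf m102) (.nd (nat_lit 104) (.lf m103) (.lf m104)))) (.nd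 (nat_lit 107) (.nd (nat_lit 106) (.lf m105) (.lf m106)) (.nd (nat_lit 108) (.lf m107) (.nd (nat_lit 109) (.lf m108) (.lf m109))))) (.nd (nat_lit 115) (.nd (nat_lit 112) (.nd (nat_lit 111) (.lf m110) (.lf m111)) (.nd (nat_lit 113) (.lf m112) (.nd (nat_lit 114) (.lf m113) (.lf m114)))) (.nd (nat_lit 117) (.nd (nat_lit 116) (.lf m115) (.lf m116)) (.nd (nat_lit 118) (.lf m117) (.nd (nat_lit 119) (.lf m118) (.lf m119))))))) (.nd (nat_lit 140) (.nd (nat_lit 130) (.nd (nat_lit 125) (.nd (nat_lit 122) (.nd (nat_lit 121) (.lf m120) (.lf m121)) (.nd (nat_lit 123) (.lf m122) (.nd (nat_lit 124) (.lf m123) (.lf m124)))) (.nd (nat_lit 127) (.nd (nat_lit 126) (.lf m125) (.lf m126)) (.nd (nat_lit 128) (.lf m127) (.nd (nat_lit 129) (.lf m128) (.lf m129))))) (.nd (nat_lit 135) (.nd (nat_lit 132) (.nd (nat_lit 131) (.lf m130) (.lf m131)) (.nd (nat_lit 133) (.lf m132) (.nd (nat_lit 134) (.lf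 m133) (.lf m134)))) (.nd (nat_lit 137) (.nd (nat_lit 136) (.lf m135) (.lf m136)) (.nd (nat_lit 138) (.lf m137) (.nd (nat_lit 139) (.lf m138) (.lf m139)))))) (.nd (nat_lit 150) (.nd (nat_lit 145) (.nd (nat_lit 142) (.nd (nat_lit 141) (.lf m140) (.lf m141)) (.nd (nat_lit 143) (.lf m142) (.nd (nat_lit 144) (.lf m143) (.lf m144)))) (.nd (nat_lit 147) (.nd (nat_lit 146) (.lf m145) (.lf m146)) (.nd (nat_lit 148) (.lf m147) (.nd (nat_lit 149) (.lf m148) (.lf m149))))) (.nd (nat_lit 155) (.nd (nat_lit 152) (.nd (nat_lit 151) (.lf m150) (.lf m151)) (.nd (nat_lit 153) (.lf m152) (.nd (nat_lit 154) (.lf m153) (.lf m154)))) (.nd (nat_lit 157) (.nd (nat_lit 156) (.lf m155) (.lf m156)) (.nd (nat_lit 158) (.lf m157) (.nd (nat_lit 159) (.lf m158) (.lf m159))))))))) (.nd (nat_lit 240) (.nd (nat_lit 200) (.nd (nat_lit 180) (.nd (nat_lit 170) (.nd (nat_lit 165) (.nd (nat_lit 162) (.nd (nat_lit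 161) (.lf m160) (.lf m161)) (.nd (nat_lit 163) (.lf m162) (.nd (nat_lit 164) (.lf m163) (.lf m164)))) (.nd (nat_lit 167) (.nd (nat_lit 166) (.lf m165) (.lf m166)) (.nd (nat_lit 168) (.lf m167) (.nd (nat_lit 169) (.lf m168) (.lf m169))))) (.nd (nat_lit 175) (.nd (nat_lit 172) (.nd (nat_lit 171) (.lf m170) (.lf m171)) (.nd (nat_lit 173) (.lf m172) (.nd (nat_lit 174) (.lf m173) (.lf m174)))) (.nd (nat_lit 177) (.nd (nat_lit 176) (.lf m175) (.lf m176)) (.nd (nat_lit 178) (.lf m177) (.nd (nat_lit 179) (.lf m178) (.lf m179)))))) (.nd (nat_lit 190) (.nd (nat_lit 185) (.nd (nat_lit 182) (.nd (nat_lit 181) (.lf m180) (.lf m181)) (.nd (nat_lit 183) (.lf m182) (.nd (nat_lit 184) (.lf m183) (.lf m184)))) (.nd (nat_lit 187) (.nd (nat_lit 186) (.lf m185) (.lf m186)) (.nd (nat_lit 188) (.lf m187) (.nd (nat_lit 189) (.lf m188) (.lf m189))))) (.nd (nat_lit 195) (.nd (nat_lit 192) (.nd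 (nat_lit 191) (.lf m190) (.lf m191)) (.nd (nat_lit 193) (.lf m192) (.nd (nat_lit 194) (.lf m193) (.lf m194)))) (.nd (nat_lit 197) (.nd (nat_lit 196) (.lf m195) (.lf m196)) (.nd (nat_lit 198) (.lf m197) (.nd (nat_lit 199) (.lf m198) (.lf m199))))))) (.nd (nat_lit 220) (.nd (nat_lit 210) (.nd (nat_lit 205) (.nd (nat_lit 202) (.nd (nat_lit 201) (.lf m200) (.lf m201)) (.nd (nat_lit 203) (.lf m202) (.nd (nat_lit 204) (.lf m203) (.lf m204)))) (.nd (nat_lit 207) (.nd (nat_lit 206) (.lf m205) (.lf m206)) (.nd (nat_lit 208) (.lf m207) (.nd (nat_lit 209) (.lf m208) (.lf m209))))) (.nd (nat_lit 215) (.nd (nat_lit 212) (.nd (nat_lit 211) (.lf m210) (.lf m211)) (.nd (nat_lit 213) (.lf m212) (.nd (nat_lit 214) (.lf m213) (.lf m214)))) (.nd (nat_lit 217) (.nd (nat_lit 216) (.lf m215) (.lf m216)) (.nd (nat_lit 218) (.lf m217) (.nd (nat_lit 219) (.lf m218) (.lf m219)))))) (.nd (nat_lit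 230) (.nd (nat_lit 225) (.nd (nat_lit 222) (.nd (nat_lit 221) (.lf m220) (.lf m221)) (.nd (nat_lit 223) (.lf m222) (.nd (nat_lit 224) (.lf m223) (.lf m224)))) (.nd (nat_lit 227) (.nd (nat_lit 226) (.lf m225) (.lf m226)) (.nd (nat_lit 228) (.lf m227) (.nd (nat_lit 229) (.lf m228) (.lf m229))))) (.nd (nat_lit 235) (.nd (nat_lit 232) (.nd (nat_lit 231) (.lf m230) (.lf m231)) (.nd (nat_lit 233) (.lf m232) (.nd (nat_lit 234) (.lf m233) (.lf m234)))) (.nd (nat_lit 237) (.nd (nat_lit 236) (.lf m235) (.lf m236)) (.nd (nat_lit 238) (.lf m237) (.nd (nat_lit 239) (.lf m238) (.lf m239)))))))) (.nd (nat_lit 280) (.nd (nat_lit 260) (.nd (nat_lit 250) (.nd (nat_lit 245) (.nd (nat_lit 242) (.nd (nat_lit 241) (.lf m240) (.lf m241)) (.nd (nat_lit 243) (.lf m242) (.nd (nat_lit 244) (.lf m243) (.lf m244)))) (.nd (nat_lit 247) (.nd (nat_lit 246) (.lf m245) (.lf m246)) (.nd (nat_lit 248) (.lf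 m247) (.nd (nat_lit 249) (.lf m248) (.lf m249))))) (.nd (nat_lit 255) (.nd (nat_lit 252) (.nd (nat_lit 251) (.lf m250) (.lf m251)) (.nd (nat_lit 253) (.lf m252) (.nd (nat_lit 254) (.lf m253) (.lf m254)))) (.nd (nat_lit 257) (.nd (nat_lit 256) (.lf m255) (.lf m256)) (.nd (nat_lit 258) (.lf m257) (.nd (nat_lit 259) (.lf m258) (.lf m259)))))) (.nd (nat_lit 270) (.nd (nat_lit 265) (.nd (nat_lit 262) (.nd (nat_lit 261) (.lf m260) (.lf m261)) (.nd (nat_lit 263) (.lf m262) (.nd (nat_lit 264) (.lf m263) (.lf m264)))) (.nd (nat_lit 267) (.nd (nat_lit 266) (.lf m265) (.lf m266)) (.nd (nat_lit 268) (.lf m267) (.nd (nat_lit 269) (.lf m268) (.lf m269))))) (.nd (nat_lit 275) (.nd (nat_lit 272) (.nd (nat_lit 271) (.lf m270) (.lf m271)) (.nd (nat_lit 273) (.lf m272) (.nd (nat_lit 274) (.lf m273) (.lf m274)))) (.nd (nat_lit 277) (.nd (nat_lit 276) (.lf m275) (.lf m276)) (.nd (nat_lit 278)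 (.lf m277) (.nd (nat_lit 279) (.lf m278) (.lf m279))))))) (.nd (nat_lit 300) (.nd (nat_lit 290) (.nd (nat_lit 285) (.nd (nat_lit 282) (.nd (nat_lit 281) (.lf m280) (.lf m281)) (.nd (nat_lit 283) (.lf m282) (.nd (nat_lit 284) (.lf m283) (.lf m284)))) (.nd (nat_lit 287) (.nd (nat_lit 286) (.lf m285) (.lf m286)) (.nd (nat_lit 288) (.lf m287) (.nd (nat_lit 289) (.lf m288) (.lf m289))))) (.nd (nat_lit 295) (.nd (nat_lit 292) (.nd (nat_lit 291) (.lf m290) (.lf m291)) (.nd (nat_lit 293) (.lf m292) (.nd (nat_lit 294) (.lf m293) (.lf m294)))) (.nd (nat_lit 297) (.nd (nat_lit 296) (.lf m295) (.lf m296)) (.nd (nat_lit 298) (.lf m297) (.nd (nat_lit 299) (.lf m298) (.lf m299)))))) (.nd (nat_lit 310) (.nd (nat_lit 305) (.nd (nat_lit 302) (.nd (nat_lit 301) (.lf m300) (.lf m301)) (.nd (nat_lit 303) (.lf m302) (.nd (nat_lit 304) (.lf m303) (.lf m304)))) (.nd (nat_lit 307) (.nd (nat_lit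 306) (.lf m305) (.lf m306)) (.nd (nat_lit 308) (.lf m307) (.nd (nat_lit 309) (.lf m308) (.lf m309))))) (.nd (nat_lit 315) (.nd (nat_lit 312) (.nd (nat_lit 311) (.lf m310) (.lf m311)) (.nd (nat_lit 313) (.lf m312) (.nd (nat_lit 314) (.lf m313) (.lf m314)))) (.nd (nat_lit 318) (.nd (nat_lit 316) (.lf m315) (.nd (nat_lit 317) (.lf m316) (.lf m317))) (.nd (nat_lit 319) (.lf m318) (.nd (nat_lit 320) (.lf m319) (.lf m320))))))))))

end Pool.Agent.MP_797bdc_co.Lk.Da
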