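import Pool.Agent.MP_797bdc_co.Lk.AChk
import Pool.Agent.MP_797bdc_co.Lk.DM
import Pool.Agent.MP_797bdc_co.Lk.DZ

/-! Kernel runs of the static checker. -/

namespace Pool.Agent.MP_797bdc_co.Lk.Da

open A

set_option maxRecDepth 100000

theorem rA0 : cA n (A.m4 s2 s7 s8 z1) (A.m4 s2 s7 s8 z2) (A.m3 s2 s7 s8) SG tM 0 4 = true := by
  decide +kernel
theorem rA1 : cA n (A.m4 s2 s7 s8 z1) (A.m4 s2 s7 s8 z2) (A.m3 s2 s7 s8) SG tM 4 4 = true := by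
  decide +kernel
theorem rA2 : cA n (A.m4 s2 s7 s8 z1) (A.m4 s2 s7 s8 z2) (A.m3 s2 s7 s8) SG tM 8 4 = true := by
  decide +kernel
theorem rA3 : cA n (A.m4 s2 s7 s8 z1) (A.m4 s2 s7 s8 z2) (A.m3 s2 s7 s8) SG tM 12 4 = true := by
  decide +kernel
theorem rA4 : cA n (A.m4 s2 s7 s8 z1) (A.m4 s2 s7 s8 z2) (A.m3 s2 s7 s8) SG tM 16 4 = true := by
  decide +kernel
theorem rA5 : cA n (A.m4 s2 s7 s8 z1) (A.m4 s2 s7 s8 z2) (A.m3 s2 s7 s8) SG tM 20 4 = true := by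
  decide +kernel
theorem rA6 : cA n (A.m4 s2 s7 s8 z1) (A.m4 s2 s7 s8 z2) (A.m3 s2 s7 s8) SG tM 24 4 = true := by
  decide +kernel
theorem rA7 : cA n (A.m4 s2 s7 s8 z1) (A.m4 s2 s7 s8 z2) (A.m3 s2 s7 s8) SG tM 28 4 = true := by
  decide +kernel
theorem rA8 : cA n (A.m4 s2 s7 s8 z1) (A.m4 s2 s7 s8 z2) (A.m3 s2 s7 s8) SG tM 32 4 = true := by
  decide +kernel
theorem rA9 : cA n (A.m4 s2 s7 s8 z1) (A.m4 s2 s7 s8 z2) (A.m3 s2 s7 s8) SG tM 36 4 = true := by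
  decide +kernel
theorem rA10 : cA n (A.m4 s2 s7 s8 z1) (A.m4 s2 s7 s8 z2) (A.m3 s2 s7 s8) SG tM 40 4 = true := by
  decide +kernel
theorem rA11 : cA n (A.m4 s2 s7 s8 z1) (A.m4 s2 s7 s8 z2) (A.m3 s2 s7 s8) SG tM 44 4 = true := by
  decide +kernel

end Pool.Agent.MP_797bdc_co.Lk.Da
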