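import Pool.Agent.MP_797bdc_co.Lk.AChk
import Pool.Agent.MP_797bdc_co.Lk.DM
import Pool.Agent.MP_797bdc_co.Lk.DZ

/-! Kernel runs of the static checker. -/

namespace Pool.Agent.MP_797bdc_co.Lk.Da

open A

set_option maxRecDepth 100000

theorem rA12 : cA n (A.m4 s2 s7 s8 z1) (A.m4 s2 s7 s8 z2) (A.m3 s2 s7 s8) SG tM 48 4 = true := by
  decide +kernel
theorem rA13 : cA n (A.m4 s2 s7 s8 z1) (A.m4 s2 s7 s8 z2) (A.m3 s2 s7 s8) SG tM 52 4 = true := by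
  decide +kernel
theorem rA14 : cA n (A.m4 s2 s7 s8 z1) (A.m4 s2 s7 s8 z2) (A.m3 s2 s7 s8) SG tM 56 4 = true := by
  decide +kernel
theorem rA15 : cA n (A.m4 s2 s7 s8 z1) (A.m4 s2 s7 s8 z2) (A.m3 s2 s7 s8) SG tM 60 4 = true := by
  decide +kernel
theorem rA16 : cA n (A.m4 s2 s7 s8 z1) (A.m4 s2 s7 s8 z2) (A.m3 s2 s7 s8) SG tM 64 4 = true := by
  decide +kernel
theorem rA17 : cA n (A.m4 s2 s7 s8 z1) (A.m4 s2 s7 s8 z2) (A.m3 s2 s7 s8) SG tM 68 4 = true := by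
  decide +kernel
theorem rA18 : cA n (A.m4 s2 s7 s8 z1) (A.m4 s2 s7 s8 z2) (A.m3 s2 s7 s8) SG tM 72 4 = true := by
  decide +kernel
theorem rA19 : cA n (A.m4 s2 s7 s8 z1) (A.m4 s2 s7 s8 z2) (A.m3 s2 s7 s8) SG tM 76 4 = true := by
  decide +kernel
theorem rA20 : cA n (A.m4 s2 s7 s8 z1) (A.m4 s2 s7 s8 z2) (A.m3 s2 s7 s8) SG tM 80 8 = true := by
  decide +kernel
theorem rA21 : cA n (A.m4 s2 s7 s8 z1) (A.m4 s2 s7 s8 z2) (A.m3 s2 s7 s8) SG tM 88 8 = true := by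
  decide +kernel
theorem rA22 : cA n (A.m4 s2 s7 s8 z1) (A.m4 s2 s7 s8 z2) (A.m3 s2 s7 s8) SG tM 96 8 = true := by
  decide +kernel
theorem rA23 : cA n (A.m4 s2 s7 s8 z1) (A.m4 s2 s7 s8 z2) (A.m3 s2 s7 s8) SG tM 104 8 = true := by
  decide +kernel

end Pool.Agent.MP_797bdc_co.Lk.Da
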