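import Pool.Agent.MP_797bdc_co.Lk.AChk
import Pool.Agent.MP_797bdc_co.Lk.DM
import Pool.Agent.MP_797bdc_co.Lk.DZ

/-! Kernel runs of the static checker. -/

namespace Pool.Agent.MP_797bdc_co.Lk.Da

open A

set_option maxRecDepth 100000

theorem rA24 : cA n (A.m4 s2 s7 s8 z1) (A.m4 s2 s7 s8 z2) (A.m3 s2 s7 s8) SG tM 112 8 = true := by
  decide +kernel
theorem rA25 : cA n (A.m4 s2 s7 s8 z1) (A.m4 s2 s7 s8 z2) (A.m3 s2 s7 s8) SG tM 120 8 = true := by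
  decide +kernel
theorem rA26 : cA n (A.m4 s2 s7 s8 z1) (A.m4 s2 s7 s8 z2) (A.m3 s2 s7 s8) SG tM 128 8 = true := by
  decide +kernel
theorem rA27 : cA n (A.m4 s2 s7 s8 z1) (A.m4 s2 s7 s8 z2) (A.m3 s2 s7 s8) SG tM 136 8 = true := by
  decide +kernel
theorem rA28 : cA n (A.m4 s2 s7 s8 z1) (A.m4 s2 s7 s8 z2) (A.m3 s2 s7 s8) SG tM 144 8 = true := by
  decide +kernel
theorem rA29 : cA n (A.m4 s2 s7 s8 z1) (A.m4 s2 s7 s8 z2) (A.m3 s2 s7 s8) SG tM 152 8 = true := by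
  decide +kernel
theorem rA30 : cA n (A.m4 s2 s7 s8 z1) (A.m4 s2 s7 s8 z2) (A.m3 s2 s7 s8) SG tM 160 20 = true := by
  decide +kernel
theorem rA31 : cA n (A.m4 s2 s7 s8 z1) (A.m4 s2 s7 s8 z2) (A.m3 s2 s7 s8) SG tM 180 20 = true := by
  decide +kernel
theorem rA32 : cA n (A.m4 s2 s7 s8 z1) (A.m4 s2 s7 s8 z2) (A.m3 s2 s7 s8) SG tM 200 20 = true := by
  decide +kernel
theorem rA33 : cA n (A.m4 s2 s7 s8 z1) (A.m4 s2 s7 s8 z2) (A.m3 s2 s7 s8) SG tM 220 20 = true := by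
  decide +kernel
theorem rA34 : cA n (A.m4 s2 s7 s8 z1) (A.m4 s2 s7 s8 z2) (A.m3 s2 s7 s8) SG tM 240 20 = true := by
  decide +kernel
theorem rA35 : cA n (A.m4 s2 s7 s8 z1) (A.m4 s2 s7 s8 z2) (A.m3 s2 s7 s8) SG tM 260 20 = true := by
  decide +kernel
theorem rA36 : cA n (A.m4 s2 s7 s8 z1) (A.m4 s2 s7 s8 z2) (A.m3 s2 s7 s8) SG tM 280 20 = true := by
  decide +kernel
theorem rA37 : cA n (A.m4 s2 s7 s8 z1) (A.m4 s2 s7 s8 z2) (A.m3 s2 s7 s8) SG tM 300 20 = true := by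
  decide +kernel
theorem rA38 : cA n (A.m4 s2 s7 s8 z1) (A.m4 s2 s7 s8 z2) (A.m3 s2 s7 s8) SG tM 320 1 = true := by
  decide +kernel

end Pool.Agent.MP_797bdc_co.Lk.Da
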