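import Pool.Agent.MP_797bdc_co.Lk.AChk
import Pool.Agent.MP_797bdc_co.Lk.DM
import Pool.Agent.MP_797bdc_co.Lk.DZ
import Pool.Agent.MP_797bdc_co.Lk.DA1

/-! Kernel runs of the static checker. -/

namespace Pool.Agent.MP_797bdc_co.Lk.Da

open A

set_option maxRecDepth 100000

theorem rN : cN n tM = 102087 := by
  decide +kernel
theorem rB : cB n s2 s7 s8 z1 z2 SG tM = true := by
  decide +kernel
theorem rZ : cZ n J SK MB tM tZ tF = true := by
  decide +kernel
theorem rV : cV n J SK tZ = true := by
  decide +kernel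
theorem rS : cS n SK root PAR TRK tM lS = true := by
  decide +kernel
theorem rC : cC n v z1 z2 s0 s7 s9 root PAR tM l1 l2 lC = true := by
  decide +kernel
theorem rR : cR n J nT TT SG (A.m3 s2 s7 s8) q0 tM tZ lR = true := by
  decide +kernel

end Pool.Agent.MP_797bdc_co.Lk.Da
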