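import Pool.Agent.MP_797bdc_co.Lk.AChk
import Pool.Agent.MP_797bdc_co.Lk.DZ
import Pool.Agent.MP_797bdc_co.Lk.DA1
import Pool.Agent.MP_797bdc_co.Lk.DA2

/-! Kernel runs of the static checker. -/

namespace Pool.Agent.MP_797bdc_co.Lk.Da

open A

set_option maxRecDepth 100000

theorem rO0 : cO J nT TT SG tZ lO0 0 sO1 = true := by
  decide +kernel
theorem rO1 : cO J nT TT SG tZ lO1 sO1 sO2 = true := by
  decide +kernel
theorem rO2 : cO J nT TT SG tZ lO2 sO2 sO3 = true := by
  decide +kernel
theorem rO3 : cO J nT TT SG tZ lO3 sO3 sO4 = true := by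
  decide +kernel
theorem rO4 : cO J nT TT SG tZ lO4 sO4 sO5 = true := by
  decide +kernel
theorem rO5 : cO J nT TT SG tZ lO5 sO5 sO6 = true := by
  decide +kernel
theorem rO6 : cO J nT TT SG tZ lO6 sO6 sO7 = true := by
  decide +kernel
theorem rO7 : cO J nT TT SG tZ lO7 sO7 sO8 = true := by
  decide +kernel
theorem rO8 : cO J nT TT SG tZ lO8 sO8 sO9 = true := by
  decide +kernel
theorem rO9 : cO J nT TT SG tZ lO9 sO9 sO10 = true := by
  decide +kernel
theorem rO10 : cO J nT TT SG tZ lO10 sO10 sO11 = true := by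
  decide +kernel
theorem rO11 : cO J nT TT SG tZ lO11 sO11 sO12 = true := by
  decide +kernel
theorem rO12 : cO J nT TT SG tZ lO12 sO12 sO13 = true := by
  decide +kernel
theorem rO13 : cO J nT TT SG tZ lO13 sO13 sO14 = true := by
  decide +kernel
theorem rO14 : cO J nT TT SG tZ lO14 sO14 sO15 = true := by
  decide +kernel
theorem rO15 : cO J nT TT SG tZ lO15 sO15 sO16 = true := by
  decide +kernel
theorem rQ : cQ n J nT 102087 sO16 tZ = true := by
  decide +kernel

end Pool.Agent.MP_797bdc_co.Lk.Da
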