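import Pool.Agent.MP_797bdc_co.Lk.AChk
import Pool.Agent.MP_797bdc_co.Lk.DM
import Pool.Agent.MP_797bdc_co.Lk.DZ
import Pool.Agent.MP_797bdc_co.Lk.DA3

/-! Kernel runs of the static checker. -/

namespace Pool.Agent.MP_797bdc_co.Lk.Da

open A

set_option maxRecDepth 100000

theorem rH0 : cH1 n s2 s7 s8 z1 z2 (sg SG 0) tM tH0 = true := by
  decide +kernel
theorem rH1 : cH1 n s2 s7 s8 z1 z2 (sg SG 1) tM tH1 = true := by
  decide +kernel
theorem rH2 : cH1 n s2 s7 s8 z1 z2 (sg SG 2) tM tH2 = true := by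
  decide +kernel
theorem rH3 : cH1 n s2 s7 s8 z1 z2 (sg SG 3) tM tH3 = true := by
  decide +kernel
theorem rH4 : cH1 n s2 s7 s8 z1 z2 (sg SG 4) tM tH4 = true := by
  decide +kernel
theorem rH5 : cH1 n s2 s7 s8 z1 z2 (sg SG 5) tM tH5 = true := by
  decide +kernel
theorem rH6 : cH1 n s2 s7 s8 z1 z2 (sg SG 6) tM tH6 = true := by
  decide +kernel
theorem rH7 : cH1 n s2 s7 s8 z1 z2 (sg SG 7) tM tH7 = true := by
  decide +kernel
theorem rH8 : cH1 n s2 s7 s8 z1 z2 (sg SG 8) tM tH8 = true := by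
  decide +kernel
theorem rH9 : cH1 n s2 s7 s8 z1 z2 (sg SG 9) tM tH9 = true := by
  decide +kernel
theorem rH10 : cH1 n s2 s7 s8 z1 z2 (sg SG 10) tM tH10 = true := by
  decide +kernel
theorem rH11 : cH1 n s2 s7 s8 z1 z2 (sg SG 11) tM tH11 = true := by
  decide +kernel
theorem rH12 : cH1 n s2 s7 s8 z1 z2 (sg SG 12) tM tH12 = true := by
  decide +kernel
theorem rH13 : cH1 n s2 s7 s8 z1 z2 (sg SG 13) tM tH13 = true := by
  decide +kernel
theorem rH14 : cH1 n s2 s7 s8 z1 z2 (sg SG 14) tM tH14 = true := by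
  decide +kernel
theorem rK : cK n s2 s7 s8 z1 z2 tM tK1 tK2 = true := by
  decide +kernel

end Pool.Agent.MP_797bdc_co.Lk.Da
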