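import Pool.Agent.MP_797bdc_co.Lk.AAll
import Pool.Agent.MP_797bdc_co.Lk.RA1
import Pool.Agent.MP_797bdc_co.Lk.RA2
import Pool.Agent.MP_797bdc_co.Lk.RA3
import Pool.Agent.MP_797bdc_co.Lk.RA4
import Pool.Agent.MP_797bdc_co.Lk.RA5
import Pool.Agent.MP_797bdc_co.Lk.RA6

/-! The static facts for the instance. -/

namespace Pool.Agent.MP_797bdc_co.Lk.Da

open A

theorem qA1 : cA n (A.m4 s2 s7 s8 z1) (A.m4 s2 s7 s8 z2) (A.m3 s2 s7 s8) SG tM 0 8 = true :=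
  cA_app rfl rfl rA0 rA1
theorem qA2 : cA n (A.m4 s2 s7 s8 z1) (A.m4 s2 s7 s8 z2) (A.m3 s2 s7 s8) SG tM 0 12 = true :=
  cA_app rfl rfl qA1 rA2
theorem qA3 : cA n (A.m4 s2 s7 s8 z1) (A.m4 s2 s7 s8 z2) (A.m3 s2 s7 s8) SG tM 0 16 = true :=
  cA_app rfl rfl qA2 rA3
theorem qA4 : cA n (A.m4 s2 s7 s8 z1) (A.m4 s2 s7 s8 z2) (A.m3 s2 s7 s8) SG tM 0 20 = true :=
  cA_app rfl rfl qA3 rA4
theorem qA5 : cA n (A.m4 s2 s7 s8 z1) (A.m4 s2 s7 s8 z2) (A.m3 s2 s7 s8) SG tM 0 24 = true :=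
  cA_app rfl rfl qA4 rA5
theorem qA6 : cA n (A.m4 s2 s7 s8 z1) (A.m4 s2 s7 s8 z2) (A.m3 s2 s7 s8) SG tM 0 28 = true :=
  cA_app rfl rfl qA5 rA6
theorem qA7 : cA n (A.m4 s2 s7 s8 z1) (A.m4 s2 s7 s8 z2) (A.m3 s2 s7 s8) SG tM 0 32 = true :=
  cA_app rfl rfl qA6 rA7
theorem qA8 : cA n (A.m4 s2 s7 s8 z1) (A.m4 s2 s7 s8 z2) (A.m3 s2 s7 s8) SG tM 0 36 = true :=
  cA_app rfl rfl qA7 rA8
theorem qA9 : cA n (A.m4 s2 s7 s8 z1) (A.m4 s2 s7 s8 z2) (A.m3 s2 s7 s8) SG tM 0 40 = true :=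
  cA_app rfl rfl qA8 rA9
theorem qA10 : cA n (A.m4 s2 s7 s8 z1) (A.m4 s2 s7 s8 z2) (A.m3 s2 s7 s8) SG tM 0 44 = true :=
  cA_app rfl rfl qA9 rA10
theorem qA11 : cA n (A.m4 s2 s7 s8 z1) (A.m4 s2 s7 s8 z2) (A.m3 s2 s7 s8) SG tM 0 48 = true :=
  cA_app rfl rfl qA10 rA11
theorem qA12 : cA n (A.m4 s2 s7 s8 z1) (A.m4 s2 s7 s8 z2) (A.m3 s2 s7 s8) SG tM 0 52 = true :=
  cA_app rfl rfl qA11 rA12
theorem qA13 : cA n (A.m4 s2 s7 s8 z1) (A.m4 s2 s7 s8 z2) (A.m3 s2 s7 s8) SG tM 0 56 = true :=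
  cA_app rfl rfl qA12 rA13
theorem qA14 : cA n (A.m4 s2 s7 s8 z1) (A.m4 s2 s7 s8 z2) (A.m3 s2 s7 s8) SG tM 0 60 = true :=
  cA_app rfl rfl qA13 rA14
theorem qA15 : cA n (A.m4 s2 s7 s8 z1) (A.m4 s2 s7 s8 z2) (A.m3 s2 s7 s8) SG tM 0 64 = true :=
  cA_app rfl rfl qA14 rA15
theorem qA16 : cA n (A.m4 s2 s7 s8 z1) (A.m4 s2 s7 s8 z2) (A.m3 s2 s7 s8) SG tM 0 68 = true :=
  cA_app rfl rfl qA15 rA16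
theorem qA17 : cA n (A.m4 s2 s7 s8 z1) (A.m4 s2 s7 s8 z2) (A.m3 s2 s7 s8) SG tM 0 72 = true :=
  cA_app rfl rfl qA16 rA17
theorem qA18 : cA n (A.m4 s2 s7 s8 z1) (A.m4 s2 s7 s8 z2) (A.m3 s2 s7 s8) SG tM 0 76 = true :=
  cA_app rfl rfl qA17 rA18
theorem qA19 : cA n (A.m4 s2 s7 s8 z1) (A.m4 s2 s7 s8 z2) (A.m3 s2 s7 s8) SG tM 0 80 = true :=
  cA_app rfl rfl qA18 rA19
theorem qA20 : cA n (A.m4 s2 s7 s8 z1) (A.m4 s2 s7 s8 z2) (A.m3 s2 s7 s8) SG tM 0 88 = true :=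
  cA_app rfl rfl qA19 rA20
theorem qA21 : cA n (A.m4 s2 s7 s8 z1) (A.m4 s2 s7 s8 z2) (A.m3 s2 s7 s8) SG tM 0 96 = true :=
  cA_app rfl rfl qA20 rA21
theorem qA22 : cA n (A.m4 s2 s7 s8 z1) (A.m4 s2 s7 s8 z2) (A.m3 s2 s7 s8) SG tM 0 104 = true :=
  cA_app rfl rfl qA21 rA22
theorem qA23 : cA n (A.m4 s2 s7 s8 z1) (A.m4 s2 s7 s8 z2) (A.m3 s2 s7 s8) SG tM 0 112 = true :=
  cA_app rfl rfl qA22 rA23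
theorem qA24 : cA n (A.m4 s2 s7 s8 z1) (A.m4 s2 s7 s8 z2) (A.m3 s2 s7 s8) SG tM 0 120 = true :=
  cA_app rfl rfl qA23 rA24
theorem qA25 : cA n (A.m4 s2 s7 s8 z1) (A.m4 s2 s7 s8 z2) (A.m3 s2 s7 s8) SG tM 0 128 = true :=
  cA_app rfl rfl qA24 rA25
theorem qA26 : cA n (A.m4 s2 s7 s8 z1) (A.m4 s2 s7 s8 z2) (A.m3 s2 s7 s8) SG tM 0 136 = true :=
  cA_app rfl rfl qA25 rA26
theorem qA27 : cA n (A.m4 s2 s7 s8 z1) (A.m4 s2 s7 s8 z2) (A.m3 s2 s7 s8) SG tM 0 144 = true :=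
  cA_app rfl rfl qA26 rA27
theorem qA28 : cA n (A.m4 s2 s7 s8 z1) (A.m4 s2 s7 s8 z2) (A.m3 s2 s7 s8) SG tM 0 152 = true :=
  cA_app rfl rfl qA27 rA28
theorem qA29 : cA n (A.m4 s2 s7 s8 z1) (A.m4 s2 s7 s8 z2) (A.m3 s2 s7 s8) SG tM 0 160 = true :=
  cA_app rfl rfl qA28 rA29
theorem qA30 : cA n (A.m4 s2 s7 s8 z1) (A.m4 s2 s7 s8 z2) (A.m3 s2 s7 s8) SG tM 0 180 = true :=
  cA_app rfl rfl qA29 rA30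
theorem qA31 : cA n (A.m4 s2 s7 s8 z1) (A.m4 s2 s7 s8 z2) (A.m3 s2 s7 s8) SG tM 0 200 = true :=
  cA_app rfl rfl qA30 rA31
theorem qA32 : cA n (A.m4 s2 s7 s8 z1) (A.m4 s2 s7 s8 z2) (A.m3 s2 s7 s8) SG tM 0 220 = true :=
  cA_app rfl rfl qA31 rA32
theorem qA33 : cA n (A.m4 s2 s7 s8 z1) (A.m4 s2 s7 s8 z2) (A.m3 s2 s7 s8) SG tM 0 240 = true :=
  cA_app rfl rfl qA32 rA33
theorem qA34 : cA n (A.m4 s2 s7 s8 z1) (A.m4 s2 s7 s8 z2) (A.m3 s2 s7 s8) SG tM 0 260 = true :=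
  cA_app rfl rfl qA33 rA34
theorem qA35 : cA n (A.m4 s2 s7 s8 z1) (A.m4 s2 s7 s8 z2) (A.m3 s2 s7 s8) SG tM 0 280 = true :=
  cA_app rfl rfl qA34 rA35
theorem qA36 : cA n (A.m4 s2 s7 s8 z1) (A.m4 s2 s7 s8 z2) (A.m3 s2 s7 s8) SG tM 0 300 = true :=
  cA_app rfl rfl qA35 rA36
theorem qA37 : cA n (A.m4 s2 s7 s8 z1) (A.m4 s2 s7 s8 z2) (A.m3 s2 s7 s8) SG tM 0 320 = true :=
  cA_app rfl rfl qA36 rA37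
theorem qA38 : cA n (A.m4 s2 s7 s8 z1) (A.m4 s2 s7 s8 z2) (A.m3 s2 s7 s8) SG tM 0 n = true :=
  cA_app rfl rfl qA37 rA38
theorem qO0 : OInv J nT TT SG tZ 0 := (aord J nT TT SG tZ).1
theorem qO1 : OInv J nT TT SG tZ sO1 := (aord J nT TT SG tZ).2.1 _ _ _ rO0 qO0
theorem qO2 : OInv J nT TT SG tZ sO2 := (aord J nT TT SG tZ).2.1 _ _ _ rO1 qO1
theorem qO3 : OInv J nT TT SG tZ sO3 := (aord J nT TT SG tZ).2.1 _ _ _ rO2 qO2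
theorem qO4 : OInv J nT TT SG tZ sO4 := (aord J nT TT SG tZ).2.1 _ _ _ rO3 qO3
theorem qO5 : OInv J nT TT SG tZ sO5 := (aord J nT TT SG tZ).2.1 _ _ _ rO4 qO4
theorem qO6 : OInv J nT TT SG tZ sO6 := (aord J nT TT SG tZ).2.1 _ _ _ rO5 qO5
theorem qO7 : OInv J nT TT SG tZ sO7 := (aord J nT TT SG tZ).2.1 _ _ _ rO6 qO6
theorem qO8 : OInv J nT TT SG tZ sO8 := (aord J nT TT SG tZ).2.1 _ _ _ rO7 qO7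
theorem qO9 : OInv J nT TT SG tZ sO9 := (aord J nT TT SG tZ).2.1 _ _ _ rO8 qO8
theorem qO10 : OInv J nT TT SG tZ sO10 := (aord J nT TT SG tZ).2.1 _ _ _ rO9 qO9
theorem qO11 : OInv J nT TT SG tZ sO11 := (aord J nT TT SG tZ).2.1 _ _ _ rO10 qO10
theorem qO12 : OInv J nT TT SG tZ sO12 := (aord J nT TT SG tZ).2.1 _ _ _ rO11 qO11
theorem qO13 : OInv J nT TT SG tZ sO13 := (aord J nT TT SG tZ).2.1 _ _ _ rO12 qO12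
theorem qO14 : OInv J nT TT SG tZ sO14 := (aord J nT TT SG tZ).2.1 _ _ _ rO13 qO13
theorem qO15 : OInv J nT TT SG tZ sO15 := (aord J nT TT SG tZ).2.1 _ _ _ rO14 qO14
theorem qO16 : OInv J nT TT SG tZ sO16 := (aord J nT TT SG tZ).2.1 _ _ _ rO15 qO15
theorem qH : ∀ q < 15, ∃ t, cH1 n s2 s7 s8 z1 z2 (sg SG q) tM t = true := by
  intro q hq
  interval_cases q
  exacts [⟨_, rH0⟩, ⟨_, rH1⟩, ⟨_, rH2⟩, ⟨_, rH3⟩, ⟨_, rH4⟩, ⟨_, rH5⟩, ⟨_, rH6⟩, ⟨_, rH7⟩, ⟨_, rH8⟩, ⟨_, rH9⟩, ⟨_, rH10⟩, ⟨_, rH11⟩, ⟨_, rH12⟩, ⟨_, rH13⟩, ⟨_, rH14⟩]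

theorem partA (hd : DimP n) :
    PartA n hd tM.get (mkZ n J tZ tF SK) root (v9 PAR) (SigD SG) s2 s7 s8 z1 z2 :=
  partA_gen hd qA38 rN rB rZ rV rS rC qO16 rQ rR qH rK

end Pool.Agent.MP_797bdc_co.Lk.Da
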