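import Pool.Agent.MP_797bdc_co.Lk.ABas

/-! Soundness statements for the static checker. -/

namespace Pool.Agent.MP_797bdc_co.Lk.A

open Finset

/-- symmetry of the link matrices -/
def ASYM_s : Prop := ∀ n H1 H2 U SG tM, cA n H1 H2 U SG tM 0 n = true → SymM n tM.get

/-- degrees and the condition on quads with three faces -/
def ADEG_s : Prop := ∀ n s2 s7 s8 z1 z2 SG tM, SymM n tM.get →
  cA n (m4 s2 s7 s8 z1) (m4 s2 s7 s8 z2) (m3 s2 s7 s8) SG tM 0 n = true →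
  (∀ f ∈ Gd n tM.get, f ≠ {s2, s7, s8} → f ∉ SigD SG → (apx n (Gd n tM.get) f).card = 2) ∧
  (∀ q, Qn n q → 3 ≤ (q ∩ Gd n tM.get).card →
    q ⊆ Gd n tM.get ∨ q = qd s2 s7 s8 z1 ∨ q = qd s2 s7 s8 z2) ∧
  ∀ a < n, ∀ b < n, ∀ c < n, bit n tM.get a b c = true → dg n tM a b c < 4 →
    (apx n (Gd n tM.get) {a, b, c}).card = dg n tM a b c

/-- the number of faces -/
def ANUM_s : Prop := ∀ n (tM : BT), SymM n tM.get → (Gd n tM.get).card = cN n tM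

/-- the vertex mask determines the label -/
def Inj (J nT TT SG : ℕ) (tZ : BT) : Prop := ∀ j ≤ J + 1, ∀ q < lb J nT tZ j, ∀ j' ≤ J + 1,
  ∀ q' < lb J nT tZ j', lm J TT SG tZ j q = lm J TT SG tZ j' q' → j = j' ∧ q = q'

def OInv (J nT TT SG : ℕ) (tZ : BT) (s : ℕ) : Prop := ∃ A : Finset (ℕ × ℕ),
  (∀ x ∈ A, x.1 ≤ J + 1 ∧ x.2 < lb J nT tZ x.1 ∧ lm J TT SG tZ x.1 x.2 ≤ s >>> 20) ∧
  (∀ x ∈ A, ∀ y ∈ A, lm J TT SG tZ x.1 x.2 = lm J TT SG tZ y.1 y.2 → x = y) ∧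
  s &&& 1048575 ≤ A.card

def AORD_s : Prop := ∀ J nT TT SG tZ, OInv J nT TT SG tZ 0 ∧
  (∀ l s s', cO J nT TT SG tZ l s s' = true → OInv J nT TT SG tZ s → OInv J nT TT SG tZ s') ∧
  ∀ s, OInv J nT TT SG tZ s → cL J nT tZ ≤ s &&& 1048575 → Inj J nT TT SG tZ

/-- labels of faces -/
structure Lab (Z : Zn) (Sig : Finset (Finset ℕ)) : Prop where
  ri : ∀ j < Z.J, ∀ p < Z.L j, ∀ p' < Z.L j, Z.rim j p = Z.rim j p' → p = p'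
  nf : ∀ j < Z.J, ∀ p < Z.L j, ∀ i < 4, Z.lab (Z.nf j p i) / 2 = j + 1 ∧
    (Z.Node j p → Z.lab (Z.nf j p i) % 2 = 0)
  rf : ∀ j < Z.J, ∀ p, p + 1 < Z.L j → ∀ i < 4, Z.lab (Z.rf j p i) = 2 * (j + 1)
  sig : ∀ f ∈ Sig, Z.lab f = 0
  inn : ∀ f, Z.lab f ≠ 0 → Z.lab f % 2 = 0 → ∃ j < Z.J, (∃ p i, p + 1 < Z.L j ∧ i < 4 ∧
    f = Z.rf j p i) ∨ ∃ p i, Z.Node j p ∧ i < 4 ∧ f = Z.nf j p i

def ALAB_s : Prop := ∀ n J nT TT SG SK tZ tF, Inj J nT TT SG tZ →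
  Lab (mkZ n J tZ tF SK) (SigD SG)

/-- what the zone check gives -/
structure ZD (Z : Zn) (n : ℕ) (G : Finset (Finset ℕ)) : Prop where
  L2 : ∀ j < Z.J, 1 < Z.L j
  cn : ∀ j < Z.J, ∀ i < 4, Z.c j i < n
  ci : ∀ j < Z.J, ∀ i < 4, ∀ i' < 4, Z.c j i = Z.c j i' → i = i'
  rn : ∀ j < Z.J, ∀ p < Z.L j, Z.rim j p < n
  rc : ∀ j < Z.J, ∀ p < Z.L j, ∀ i < 4, Z.rim j p ≠ Z.c j i
  nfG : ∀ j < Z.J, ∀ p < Z.L j, ∀ i < 4, Z.nf j p i ∈ G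
  rfG : ∀ j < Z.J, ∀ p, p + 1 < Z.L j → ∀ i < 4, Z.rf j p i ∈ G
  skc : ∀ j < Z.J, ∀ i < 4, Z.Sk (Z.c j i) (Z.c j ((i + 1) % 4)) ∧ Z.Sk (Z.rim j 0) (Z.c j i) ∧
    Z.Sk (Z.rim j (Z.L j - 1)) (Z.c j i)
  fu : ∀ j p, Z.Node j p → Z.Fu j p j ∧ ∀ k, Z.Fo j p k → Z.Fu j p k
  par : ∀ j p, Z.Node j p → ∃ i < 4, Z.Sk (Z.rim j p) (Z.c j i) ∨
    ∃ j' p' i', Z.Node j' p' ∧ i' < 4 ∧ Z.nrk j' p' < Z.nrk j p ∧
      ((Z.rim j' p' = Z.rim j p ∧ Z.c j' i' = Z.c j i ∧ (∀ k, Z.Fo j' p' k → Z.Fo j p k) ∧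
          ∀ k, Z.Fu j' p' k → Z.Fu j p k) ∨
       (Z.rim j' p' = Z.c j i ∧ Z.c j' i' = Z.rim j p ∧ ∀ k, Z.Fu j' p' k → Z.Fo j p k))
  mem : ∀ k p, Z.Node k p → ∀ j < Z.J, ∀ p' < Z.L j, Z.rim j p' = Z.rim k p → ¬ Z.Fo k p j
  nr : ∀ j < Z.J, ∀ p, p + 1 < Z.L j → ¬ Z.Sk (Z.rim j p) (Z.rim j (p + 1))
  nn : ∀ j p, Z.Node j p → ∀ i < 4,
    ¬ (Z.Sk (Z.rim j p) (Z.c j i) ∧ Z.Sk (Z.rim j p) (Z.c j ((i + 1) % 4)))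

def AZON_s : Prop := ∀ n J SK MB tM tZ tF, SymM n tM.get → cZ n J SK MB tM tZ tF = true →
  ZD (mkZ n J tZ tF SK) n (Gd n tM.get)

def ACOV_s : Prop := ∀ n J SK tZ tF G, ZD (mkZ n J tZ tF SK) n G → cV n J SK tZ = true →
  ∀ x < n, ∀ y < n, x < y → (mkZ n J tZ tF SK).Cov x y ∨ (mkZ n J tZ tF SK).Cov y x

/-- generic derivation -/
def ADER_s : Prop := ∀ n E tM l D k (P : ℕ → ℕ → Prop), der n E tM l D k = true →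
  (∀ x < n, ∀ y < n, D.testBit (n * x + y) = true → P x y) →
  (∀ x < n, ∀ y < n, ∀ w < n, bit n tM.get x y w = true → E.testBit (n * x + y) = true →
    P x w → P y w → P x y ∧ P y x) →
  ∃ D', (∀ x < n, ∀ y < n, D'.testBit (n * x + y) = true → P x y) ∧ k D' = true

def ASK_s : Prop := ∀ n J SK root PAR TRK tM tZ tF l Sig, SymM n tM.get →
  ZD (mkZ n J tZ tF SK) n (Gd n tM.get) → Lab (mkZ n J tZ tF SK) Sig →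
  cS n SK root PAR TRK tM l = true → TreeOK n root (v9 PAR) ∧ ∀ x y, (mkZ n J tZ tF SK).Sk x y →
    Dv n root (v9 PAR) (Gd n tM.get)
      {f | (mkZ n J tZ tF SK).lab f ≠ 0 ∧ (mkZ n J tZ tF SK).lab f % 2 = 0} x y

def APER_s : Prop := PG_s → CASC_s → ∀ n (hd : DimP n) v z1 z2 s0 s7 s9 root PAR tM l1 l2 l (Z : Zn),
  SymM n tM.get → Z.OK n root (v9 PAR) (Gd n tM.get) →
  cC n v z1 z2 s0 s7 s9 root PAR tM l1 l2 l = true → Perc (sysN n hd) (Gd n tM.get)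

/-- quads of `T` reached from `q0` through faces outside `Sig` -/
inductive Rch {α : Type} (T : Finset (Finset α)) (Sig : Finset α) (q0 : Finset α) : Finset α → Prop
  | base : Rch T Sig q0 q0
  | step {q q' : Finset α} {f : α} : Rch T Sig q0 q → q' ∈ T → f ∈ q → f ∈ q' → f ∉ Sig →
      Rch T Sig q0 q'

def ACON_s : Prop := ∀ (α : Type) [DecidableEq α] (S : Sys α) (G Sig : Finset α) (u : α)
  (T : Finset (Finset α)) (q0 : Finset α), (∀ q ∈ T, FQ S G q) → G.card = S.r + T.card →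
  q0 ∈ T → u ∈ q0 → (∀ q ∈ T, u ∈ q → q = q0) →
  (∀ f, f ∉ Sig → ∀ q1 ∈ T, ∀ q2 ∈ T, ∀ q3 ∈ T, f ∈ q1 → f ∈ q2 → f ∈ q3 →
    q1 = q2 ∨ q1 = q3 ∨ q2 = q3) →
  (∀ q ∈ T, Rch T Sig q0 q) → ∃ R, InS S G R

/-- the listed quads -/
def TQ (Z : Zn) (nT TT : ℕ) : Finset (Finset (Finset ℕ)) :=
  ((range Z.J).sigma fun j => range (Z.L j - 1) ×ˢ range 4).image
    (fun x => Z.tet x.1 x.2.1 x.2.2) ∪ (range nT).image fun q => powersetCard 3 (skv TT q)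

def ARC1_s : Prop := ∀ n (hd : DimP n) J nT TT SG SK U q0 tM tZ tF l root par, SymM n tM.get →
  (mkZ n J tZ tF SK).OK n root par (Gd n tM.get) → Inj J nT TT SG tZ →
  cR n J nT TT SG U q0 tM tZ l = true →
  (∀ q ∈ TQ (mkZ n J tZ tF SK) nT TT, FQ (sysN n hd) (Gd n tM.get) q) ∧
    cT J nT tZ ≤ (TQ (mkZ n J tZ tF SK) nT TT).card

def ARC2_s : Prop := ∀ n J nT TT SG SK U q0 tM tZ tF l root par u,
  (mkZ n J tZ tF SK).OK n root par (Gd n tM.get) → Inj J nT TT SG tZ → HasM U u → u.card = 3 →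
  cR n J nT TT SG U q0 tM tZ l = true →
  ∃ p0 ∈ TQ (mkZ n J tZ tF SK) nT TT, u ∈ p0 ∧
    ∀ q ∈ TQ (mkZ n J tZ tF SK) nT TT, Rch (TQ (mkZ n J tZ tF SK) nT TT) (SigD SG) p0 q

/-- the token set stored in `t` -/
def HS (n : ℕ) (t : BT) : Set (Finset ℕ) :=
  {s | ∃ a < n, ∃ b < n, ∃ c < n, (hl t a b).testBit c = true ∧ s = {a, b, c}}

def AHOT_s : Prop := ∀ n (hd : DimP n) m c3 tM t, n ≤ 512 → SymM n tM.get →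
  cH n m c3 tM t = true →
  (∀ a < n, ∀ b < n, ∀ c < n, {a, b, c} ∈ HS n t → (hl t a b).testBit c = true) ∧
  GClosed (sysN n hd) (Gd n tM.get) (fun q => ∀ f ∈ q, ¬ HasM m f) (HS n t) ∧
  (c3 = true → ∀ f ∈ Gd n tM.get, HasM m f → ∀ q, Qn n q → (q ∩ Gd n tM.get).card ≤ 1 → ∀ a ∈ q,
    ¬ ∀ b ∈ q, b ≠ a → (b ∈ Gd n tM.get ∧ b ≠ f) ∨ (b ∉ Gd n tM.get ∧ b ∈ HS n t))

def ASEP_s : Prop := ∀ n (t1 t2 : BT), n ≤ 512 →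
  (∀ a < n, ∀ b < n, ∀ c < n, {a, b, c} ∈ HS n t2 → (hl t2 a b).testBit c = true) →
  (hp t1 fun a b X => z0 (Nat.land X (hl t2 a b))) = true → ∀ s ∈ HS n t1, s ∉ HS n t2

end Pool.Agent.MP_797bdc_co.Lk.A
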