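import Pool.Agent.MP_797bdc_co.Lk.Prim

/-! Gate lists of the explicit blocks (shared by the checkers P and X). -/

namespace Pool.Agent.MP_797bdc_co.Lk

open Nat (add mul sub land lor shiftRight shiftLeft ble beq)

noncomputable section

/-- block record: number of gates (10 bits), flag (1 bit), top token (27 bits), gates (36 bits) -/
def xk (r : Nat) : Nat := land r (nat_lit 1023)
def xnl (r : Nat) : Nat := bt r (nat_lit 10) (nat_lit 1)
def xt0 (r : Nat) : Nat := bt r (nat_lit 11) (nat_lit 511)
def xt1 (r : Nat) : Nat := bt r (nat_lit 20) (nat_lit 511)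
def xt2 (r : Nat) : Nat := bt r (nat_lit 29) (nat_lit 511)
def xg (r i : Nat) : Nat := bt r (add (mul i (nat_lit 36)) (nat_lit 38)) (nat_lit 68719476735)
/-- gate record: `d` lowest, then `c`, `b`, `a` (9 bits each); the apex pair is `g >>> 18` -/
def gd (g : Nat) : Nat := land g (nat_lit 511)
def gc (g : Nat) : Nat := bt g (nat_lit 9) (nat_lit 511)
def gb (g : Nat) : Nat := bt g (nat_lit 18) (nat_lit 511)
def ga (g : Nat) : Nat := bt g (nat_lit 27) (nat_lit 511)

end

end Pool.Agent.MP_797bdc_co.Lk
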