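import Pool.Agent.MP_797bdc_co.Lk.Stm2

/-! Version with safe tokens and gates through `u`. -/

namespace Pool.Agent.MP_797bdc_co.Lk

open Finset

section Abs
variable {α : Type} [DecidableEq α] (S : Sys α) (G : Finset α)

/-- Block property with safe tokens. -/
def BPon2 (noLoc : Finset α → Prop) (safe : Finset α → α → Prop) (B : Finset α → Prop) : Prop :=
  ∀ X : Set α, FClosed S G X → ∀ D : Finset (Finset α), (∀ q ∈ D, Gate S G q ∧ B q) → TEven G D →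
    ∀ q0 ∈ D, ∀ m ∈ q0, m ∈ G → m ∉ X →
    (∀ q ∈ D, ∀ f ∈ q, f ∈ G → f ∉ X → q = q0 ∧ f = m) →
    ¬ noLoc q0 ∧ ∃ χ, Ev (FQ S G) χ ∧ (∀ a ∈ X, a ∈ G → χ a = 0) ∧ (∃ a ∈ G, χ a ≠ 0) ∧
      ∀ φ, Ev S.Q φ → (∀ a ∈ G, φ a = χ a) →
        (∃ q ∈ D, ∃ t ∈ q, t ∉ G ∧ φ t = 0) ∧ ∀ t, safe q0 t → φ t = 0

structure Hull2 (u τ1 τ2 : α) (h1 h2 : Finset α) (noLoc : Finset α → Prop)
    (safe : Finset α → α → Prop) (K : Set α)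
    (gen : Finset α → Prop) (sat : Finset α → Set α) : Prop where
  Kt : ∀ t ∈ K, t ∉ G
  Kc : GClosed S G (u ∉ ·) K
  st : ∀ q, gen q → ∀ t ∈ sat q, t ∉ G ∧ t ∉ K ∧ t ≠ τ1 ∧ t ≠ τ2
  sc : ∀ q, gen q → GClosed S G (u ∉ ·) (sat q)
  sd : ∀ q q', gen q → gen q' → ∀ t, t ∈ sat q → t ∈ sat q' → q = q'
  sn : ∀ q, gen q → ∀ q', Gate S G q' → ∀ t ∈ q', t ∈ sat q →
        noLoc q' ∨ ∃ b ∈ q, b ∈ K ∧ safe q' b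
  ge : ∀ q, gen q → ∃ t ∈ q, t ∈ sat q ∧ ∀ b ∈ q, b ≠ t → b ∈ G ∨ b ∈ K
  cl : ∀ q, S.Q q → u ∉ q → ¬ q ⊆ G → ∀ a ∈ q,
        (∀ b ∈ q, b ≠ a → b ∈ G ∨ b ∈ K ∨ ∃ p, gen p ∧ b ∈ sat p) → Gate S G q ∨ gen q
  cu : ∀ q, S.Q q → u ∈ q → ¬ q ⊆ G →
        (∀ b ∈ q, b ≠ u → b ∈ G ∨ b ∈ K ∨ ∃ p, gen p ∧ b ∈ sat p) →
        q = h1 ∨ q = h2 ∨ (Gate S G q ∧ ∀ t ∈ q, t ∉ G → t ∈ K)

structure LockH2 (Sig : Finset α) (u τ1 τ2 : α) (h1 h2 : Finset α) (noLoc : Finset α → Prop)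
    (safe : Finset α → α → Prop) : Prop where
  base : Base S G Sig u τ1 τ2 h1 h2
  bp : BPon2 S G noLoc safe (fun _ => True)
  cold : ∀ ρ ∈ S.Ω, ρ ∉ G → ∃ K gen sat, ρ ∈ K ∧ Hull2 S G u τ1 τ2 h1 h2 noLoc safe K gen sat
  hot : ∀ m ∈ Sig, ∃ H, Hot S G τ1 τ2 m H
  sep : ∃ K1 K2 : Set α, τ1 ∈ K1 ∧ τ2 ∈ K2 ∧ GClosed S G (fun _ => True) K1 ∧
    GClosed S G (fun _ => True) K2 ∧ ∀ t, t ∈ K1 → t ∉ K2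

end Abs

def LOCK2_s : Prop := ∀ (α : Type) [DecidableEq α] (S : Sys α) (G Sig : Finset α) (u τ1 τ2 : α)
  (h1 h2 : Finset α) (noLoc : Finset α → Prop) (safe : Finset α → α → Prop),
  LockH2 S G Sig u τ1 τ2 h1 h2 noLoc safe →
  ∀ R, InS S G R → ∀ g ∈ R, ∀ ρ ∈ S.Ω, ρ ∉ R → Perc S (insert ρ (R.erase g)) →
    InS S G (insert ρ (R.erase g))

def RANK2_s : Prop := ∀ (α β : Type) [DecidableEq α] (S : Sys α) (G : Finset α)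
  (noLoc : Finset α → Prop) (safe : Finset α → α → Prop) (blk : Finset α → β) (rk : β → ℕ)
  (top : β → α),
  (∀ q q', Gate S G q → Gate S G q' → ∀ t ∈ q, t ∈ q' → t ∉ G → blk q ≠ blk q' →
     rk (blk q') ≤ rk (blk q) → rk (blk q') < rk (blk q) ∧ t = top (blk q)) →
  (∀ B, BPon2 S G noLoc safe (blk · = B)) → BPon2 S G noLoc safe (fun _ => True)

def GENF2_s : Prop := ∀ (α : Type) [DecidableEq α] (S : Sys α) (G : Finset α)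
  (noLoc B : Finset α → Prop) (safe : Finset α → α → Prop) (k : ℕ) (γ : ℕ → Finset α)
  (cls : ℕ → Prop) (s : ℕ) (sm : ℕ → Finset α), Ears S G B k γ cls {τ | ∃ i < s, τ = sm i} →
  Peel s sm ∅ ∅ →
  (∀ f, ∀ i < s, ∀ l < s, ∀ p < s, f ∈ sm i → f ∈ sm l → f ∈ sm p → i = l ∨ i = p ∨ l = p) →
  BPon2 S G noLoc safe B

def GENL3_s : Prop := ∀ (α : Type) [DecidableEq α] (S : Sys α) (G Sig : Finset α) (u τ1 τ2 : α)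
  (h1 h2 : Finset α), Base S G Sig u τ1 τ2 h1 h2 →
  ∀ (noLoc B : Finset α → Prop) (safe : Finset α → α → Prop) (k : ℕ) (γ : ℕ → Finset α)
  (cls : ℕ → Prop) (s : ℕ)
  (sm : ℕ → Finset α) (Reg : Set (Finset α)) (I : Set α) (e : ℕ) (κ : ℕ → α → ZMod 2)
  (fk : ℕ → α),
  (∀ q, Gate S G q → B q → ¬ noLoc q) →
  Ears S G B k γ cls ({τ | ∃ i < s, τ = sm i} ∪ Reg) →
  Peel s sm Reg {f | ∃ i < e, f = fk i} →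
  (∀ f ∈ Sig, ∀ τ τ', τ ∈ {τ | ∃ i < s, τ = sm i} ∪ Reg → τ' ∈ {τ | ∃ i < s, τ = sm i} ∪ Reg →
     f ∈ τ → f ∈ τ' → τ = τ') →
  (∀ f, ∀ τ ∈ Reg, ∀ τ' ∈ Reg, τ ≠ τ' → f ∈ τ → f ∈ τ' → f ∈ I) →
  (∀ i < e, Ev S.Q (κ i) ∧ κ i (fk i) = 1 ∧ (∀ l < i, κ i (fk l) = 0) ∧
     ∀ f ∈ G, κ i f ≠ 0 → ∃ τ ∈ {τ | ∃ i < s, τ = sm i} ∪ Reg,
       ∃ τ' ∈ {τ | ∃ i < s, τ = sm i} ∪ Reg, τ ≠ τ' ∧ f ∈ τ ∧ f ∈ τ') →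
  (∀ i < k, cls i → ∃ t ∈ γ i, t ∉ G ∧ (∀ l < e, κ l t = 0) ∧
     ∀ ψ, Ev S.Q ψ → (∀ f ∈ G, f ∉ I → ψ f = 0) → ψ t = 0) →
  (∀ q, Gate S G q → B q → ∀ t, safe q t → (∀ l < e, κ l t = 0) ∧
     ∀ ψ, Ev S.Q ψ → (∀ f ∈ G, f ∉ I → ψ f = 0) → ψ t = 0) →
  BPon2 S G noLoc safe B

def ZB2_s : Prop := ∀ (Z : Zn) n (hd : DimP n) root par G Sig u τ1 τ2 h1 h2,
  Base (sysN n hd) G Sig u τ1 τ2 h1 h2 → Z.OK n root par G → (∀ f ∈ Sig, Z.lab f = 0) →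
  ∀ j < Z.J, ∀ p0 p1, p0 < p1 → p1 < Z.L j → (∀ i < 4, {Z.rim j p0, Z.rim j p1, Z.c j i} ∉ G) →
  ∀ (noLoc B : Finset (Finset ℕ) → Prop) (safe : Finset (Finset ℕ) → Finset ℕ → Prop),
    (∀ q, Gate (sysN n hd) G q → B q → ¬ noLoc q ∧
      (∃ i < 4, q = qd (Z.rim j p0) (Z.rim j p1) (Z.c j i) (Z.c j ((i + 1) % 4))) ∧
      ∀ t, safe q t → ∀ ψ, Ev (Qn n) ψ → (∀ f ∈ G, f ∉ Z.Iall [(j, p0, p1)] → ψ f = 0) → ψ t = 0) →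
    BPon2 (sysN n hd) G noLoc safe B

end Pool.Agent.MP_797bdc_co.Lk
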