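import Pool.Agent.MP_797bdc_co.Lk.Dat
import Pool.Agent.MP_797bdc_co.Lk.Stm3
import Pool.Agent.MP_797bdc_co.Lk.PrimB

/-! Interface of the three checkers P, X, H of the token structure. -/

namespace Pool.Agent.MP_797bdc_co.Lk

open Finset

/-- The gates with a marked token: bit `c` of `SM a b` marks the role of `{a, b, c}` at the
apex pair `a < b`. -/
def noLocS (n : ℕ) (G : Finset (Finset ℕ)) (SM : ℕ → ℕ → ℕ) (q : Finset (Finset ℕ)) : Prop :=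
  ∃ a < n, ∃ b < n, ∃ c < n, ∃ d < n, a < b ∧ c ≠ d ∧ q = qd a b c d ∧
    ({a, c, d} : Finset ℕ) ∈ G ∧ ({b, c, d} : Finset ℕ) ∈ G ∧
    ({a, b, c} : Finset ℕ) ∉ G ∧ ({a, b, d} : Finset ℕ) ∉ G ∧ (SM a b).testBit c = true

/-- Quad number `i` of the block record `r`. -/
def xq (r i : ℕ) : Finset (Finset ℕ) :=
  qd (ga (xg r i)) (gb (xg r i)) (gc (xg r i)) (gd (xg r i))

/-- Goal of checker X for one block record. -/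
def XOK (n : ℕ) (hd : DimP n) (G : Finset (Finset ℕ)) (r : ℕ) : Prop :=
  ∀ noLoc B : Finset (Finset ℕ) → Prop,
    (∀ q, Gate (sysN n hd) G q → B q → (∃ i < xk r, q = xq r i) ∧ (xnl r = 0 → ¬ noLoc q)) →
    BPon (sysN n hd) G noLoc B

/-- Goal of checker H. -/
def HOK (n : ℕ) (hd : DimP n) (G : Finset (Finset ℕ)) (u τ1 τ2 : Finset ℕ)
    (h1 h2 : Finset (Finset ℕ)) (SM : ℕ → ℕ → ℕ) : Prop :=
  ∀ ρ ∈ Om n, ρ ∉ G → ∃ K gen sat, ρ ∈ K ∧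
    Hull (sysN n hd) G u τ1 τ2 h1 h2 (noLocS n G SM) K gen sat

/-- Normal form of a gate: apex pair `a < b`, edge `c < d`. -/
def GNF_s : Prop := ∀ n (hd : DimP n) (G : Finset (Finset ℕ)), G ⊆ Om n →
  (∀ q, Gate (sysN n hd) G q → ∃ a < n, ∃ b < n, ∃ c < n, ∃ d < n, a < b ∧ c < d ∧
    a ≠ c ∧ a ≠ d ∧ b ≠ c ∧ b ≠ d ∧ q = qd a b c d ∧
    ({a, c, d} : Finset ℕ) ∈ G ∧ ({b, c, d} : Finset ℕ) ∈ G ∧
    ({a, b, c} : Finset ℕ) ∉ G ∧ ({a, b, d} : Finset ℕ) ∉ G) ∧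
  (∀ a b c d : ℕ, a ≠ b → a ≠ c → a ≠ d → b ≠ c → b ≠ d → c ≠ d → ∀ t,
    t ∈ qd a b c d ↔ t = {a, b, c} ∨ t = {a, b, d} ∨ t = {a, c, d} ∨ t = {b, c, d}) ∧
  (∀ a b c d a' b' c' d' : ℕ, a < b → a' < b' → c ≠ d → c' ≠ d' → qd a b c d = qd a' b' c' d' →
    ({a, c, d} : Finset ℕ) ∈ G → ({b, c, d} : Finset ℕ) ∈ G →
    ({a, b, c} : Finset ℕ) ∉ G → ({a, b, d} : Finset ℕ) ∉ G →
    ({a', c', d'} : Finset ℕ) ∈ G → ({b', c', d'} : Finset ℕ) ∈ G →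
    ({a', b', c'} : Finset ℕ) ∉ G → ({a', b', d'} : Finset ℕ) ∉ G →
    a = a' ∧ b = b' ∧ ((c = c' ∧ d = d') ∨ (c = d' ∧ d = c'))) ∧
  (∀ a < n, ∀ b < n, ∀ c < n, ∀ d < n, a ≠ b →
    ({a, c, d} : Finset ℕ) ∈ G → ({b, c, d} : Finset ℕ) ∈ G →
    ({a, b, c} : Finset ℕ) ∉ G → ({a, b, d} : Finset ℕ) ∉ G → Gate (sysN n hd) G (qd a b c d))

/-- A block with at most one gate. -/
def ONE_s : Prop := ∀ (α : Type) [DecidableEq α] (S : Sys α) (G : Finset α)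
  (noLoc B : Finset α → Prop) (q0 : Finset α), (∀ q, Gate S G q → B q → q = q0) →
  BPon S G noLoc B

/-- The hull conditions `cl` and `cu` from a condition on pairs of tokens of `H`. -/
def PCL_s : Prop := ∀ n (hd : DimP n) (G Sig : Finset (Finset ℕ)) (u τ1 τ2 : Finset ℕ)
  (h1 h2 : Finset (Finset ℕ)), Base (sysN n hd) G Sig u τ1 τ2 h1 h2 →
  ∀ (H : Set (Finset ℕ)) (gen : Finset (Finset ℕ) → Prop), (∀ t ∈ H, t ∉ G) →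
  (∀ a < n, ∀ b < n, ∀ c < n, ∀ d < n, a ≠ b → a ≠ c → a ≠ d → b ≠ c → b ≠ d → c ≠ d →
    ({a, b, c} : Finset ℕ) ∈ H → ({a, b, d} : Finset ℕ) ∈ H →
    (({a, c, d} : Finset ℕ) ∈ G ∧ ({b, c, d} : Finset ℕ) ∈ G ∧
      ({a, c, d} : Finset ℕ) ≠ u ∧ ({b, c, d} : Finset ℕ) ≠ u) ∨
    (gen (qd a b c d) ∧ u ∉ qd a b c d) ∨
    ((({a, c, d} : Finset ℕ) ∈ G → ({a, c, d} : Finset ℕ) = u) ∧ ({a, c, d} : Finset ℕ) ∉ H ∧
      (({b, c, d} : Finset ℕ) ∈ G → ({b, c, d} : Finset ℕ) = u) ∧ ({b, c, d} : Finset ℕ) ∉ H)) →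
  (∀ q, (sysN n hd).Q q → u ∉ q → ¬ q ⊆ G → ∀ a ∈ q,
        (∀ b ∈ q, b ≠ a → b ∈ G ∨ b ∈ H) → Gate (sysN n hd) G q ∨ gen q) ∧
  (∀ q, (sysN n hd).Q q → u ∈ q → ¬ q ⊆ G →
        (∀ b ∈ q, b ≠ u → b ∈ G ∨ b ∈ H) → q = h1 ∨ q = h2)

/-- `S` is the column vector (stride `n`) of the mask `C`. -/
def Spr (n S C : ℕ) : Prop := ∀ i, S.testBit i = true ↔ ∃ c < n, i = n * c ∧ C.testBit c = true

/-- Outer products and the basic column vectors. -/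
def MAT_s : Prop := ∀ n, 0 < n →
  (∀ S C D, Spr n S C → D < 2 ^ n → ∀ c, ∀ d < n,
    ((S * D).testBit (n * c + d) = true ↔ c < n ∧ C.testBit c = true ∧ D.testBit d = true)) ∧
  (∀ S C S' C', Spr n S C → Spr n S' C' → Spr n (S ||| S') (C ||| C')) ∧
  (∀ c < n, Spr n (2 ^ (n * c)) (2 ^ c)) ∧ Spr n 0 0 ∧
  Spr n ((2 ^ (n * n) - 1) / (2 ^ n - 1)) (2 ^ n - 1) ∧
  (∀ M, SymM n M → ∀ a < n, ∀ b < n, ∀ ONES, Spr n ONES (2 ^ n - 1) →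
    Spr n ((M a >>> b) &&& ONES) ((M a >>> (n * b)) &&& (2 ^ n - 1))) ∧
  (∀ m r, ∀ d < n, ((m >>> (n * r)) &&& (2 ^ n - 1)).testBit d = m.testBit (n * r + d))

end Pool.Agent.MP_797bdc_co.Lk
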