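import Pool.Agent.MP_797bdc_co.Lk.Stm

/-! Bubble lemma. -/

namespace Pool.Agent.MP_797bdc_co.Lk

open Finset

namespace BUB

/-- Fewer equations than unknowns over `ZMod 2`. -/
lemma ker {α : Type} [DecidableEq α] (A : Finset α) (N : Finset (Finset α))
    (h : N.card < A.card) : ∃ χ : α → ZMod 2, (∃ a, χ a ≠ 0) ∧ (∀ a, χ a ≠ 0 → a ∈ A) ∧
      ∀ q ∈ N, ∑ a ∈ q, χ a = 0 := by
  have : Fact (Nat.Prime 2) := ⟨Nat.prime_two⟩
  let B : Matrix N A (ZMod 2) := fun q a => if a.1 ∈ q.1 then 1 else 0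
  obtain ⟨x, hx, hx0⟩ := (Submodule.ne_bot_iff _).1
    (LinearMap.ker_ne_bot_of_finrank_lt (f := B.mulVecLin) (by simpa using h))
  obtain ⟨a, ha⟩ := Function.ne_iff.1 hx0
  refine ⟨fun b => if hb : b ∈ A then x ⟨b, hb⟩ else 0, ⟨a.1, by simpa using ha⟩,
    fun b hb => by_contra fun h0 => hb (dif_neg h0), fun q hq => ?_⟩
  have h1 : ∑ b : A, (if b.1 ∈ q then 1 else 0) * x b = 0 := congrFun (LinearMap.mem_ker.1 hx) ⟨q, hq⟩
  rw [← sum_subset (inter_subset_right (s₁ := A)) fun b hb hb' =>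
    dif_neg fun h0 => hb' (mem_inter.2 ⟨h0, hb⟩), ← sum_ite_mem, ← sum_coe_sort A]
  exact (sum_congr rfl fun b _ => by simp).trans h1

end BUB

theorem bub : BUB_s := by
  classical
  intro α _ W M mo h2 hd hm ⟨q0, hq0, hq0'⟩
  set N := W.filter (fun q => ∃ a ∈ q, a ∈ M) with hN
  set M1 := (W.biUnion id).filter (· ∈ M) with hM1
  set M2 := M1.filter (fun a => (W.filter (a ∈ ·)).card = 2) with hM2
  have hq0N : q0 ∈ N := mem_filter.2 ⟨hq0, hq0'⟩
  have c1 : N.card * 2 ≤ ∑ q ∈ W, (M1.filter (· ∈ q)).card := by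
    refine le_trans ?_ (sum_le_sum_of_subset (filter_subset (fun q => ∃ a ∈ q, a ∈ M) W))
    refine card_nsmul_le_sum N _ 2 fun q hq => ?_
    obtain ⟨hW, a, ha, haM⟩ := mem_filter.1 hq
    obtain ⟨b, hb, hba, hbM⟩ := h2 q hW a ha haM
    exact one_lt_card.2 ⟨b, by simp only [hM1, mem_filter, mem_biUnion]; exact ⟨⟨⟨q, hW, hb⟩, hbM⟩, hb⟩,
      a, by simp only [hM1, mem_filter, mem_biUnion]; exact ⟨⟨⟨q, hW, ha⟩, haM⟩, ha⟩, hba⟩
  have c2 : ∑ q ∈ W, (M1.filter (· ∈ q)).card = ∑ a ∈ M1, (W.filter (a ∈ ·)).card := by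
    simp only [card_filter]; exact sum_comm
  have c3 : ∑ a ∈ M2, (W.filter (a ∈ ·)).card = M2.card * 2 :=
    sum_const_nat fun a ha => (mem_filter.1 ha).2
  have key : ∀ a ∈ M1.filter (fun a => ¬ (W.filter (a ∈ ·)).card = 2), mo = some a := fun a ha => by
    obtain ⟨ha1, ha2⟩ := mem_filter.1 ha
    obtain ⟨ha3, haM⟩ := mem_filter.1 ha1
    obtain ⟨q, hq, haq⟩ := mem_biUnion.1 ha3
    by_contra h0
    rcases hd a haM h0 with h | h
    · exact (card_pos.2 ⟨q, mem_filter.2 ⟨hq, haq⟩⟩).ne' h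
    · exact ha2 h
  have c4 : ∑ a ∈ M1.filter (fun a => ¬ (W.filter (a ∈ ·)).card = 2), (W.filter (a ∈ ·)).card ≤ 1 := by
    refine (sum_le_card_nsmul _ _ 1 fun a ha => hm a (key a ha)).trans ?_
    rw [smul_eq_mul, mul_one]
    exact card_le_one.2 fun a ha b hb => Option.some.inj ((key a ha).symm.trans (key b hb))
  have c5 := sum_filter_add_sum_filter_not M1 (fun a => (W.filter (a ∈ ·)).card = 2)
    fun a => (W.filter (a ∈ ·)).card
  have c6 := card_erase_add_one hq0N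
  obtain ⟨χ, h0, hs, he⟩ := BUB.ker M2 (N.erase q0) (by rw [← hM2] at c5; omega)
  have hs' : ∀ a, χ a ≠ 0 → a ∈ M ∧ (W.filter (a ∈ ·)).card = 2 := fun a ha =>
    ⟨(mem_filter.1 (mem_filter.1 (hs a ha)).1).2, (mem_filter.1 (hs a ha)).2⟩
  have e1 : ∀ q ∈ W.erase q0, ∑ a ∈ q, χ a = 0 := fun q hq => by
    by_cases hqN : q ∈ N
    · exact he q (mem_erase.2 ⟨(mem_erase.1 hq).1, hqN⟩)
    · exact sum_eq_zero fun a ha => by_contra fun h =>
        hqN (mem_filter.2 ⟨(mem_erase.1 hq).2, a, ha, (hs' a h).1⟩)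
  have e2 : ∑ q ∈ W, ∑ a ∈ q, χ a = 0 := by
    rw [sum_comm' (t' := W.biUnion id) (s' := fun a => W.filter (a ∈ ·)) fun q a => by
      simp only [mem_filter, mem_biUnion, id]; exact ⟨fun h => ⟨h, q, h⟩, fun h => h.1⟩]
    refine sum_eq_zero fun a _ => ?_
    by_cases h : χ a = 0
    · simp [h]
    · rw [sum_const, (hs' a h).2, two_nsmul]; exact CharTwo.add_self_eq_zero _
  refine ⟨χ, h0, hs', fun q hq => ?_⟩
  by_cases h : q = q0
  · rwa [← add_sum_erase W _ hq0, sum_eq_zero e1, add_zero, ← h] at e2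
  · exact e1 q (mem_erase.2 ⟨h, hq⟩)

end Pool.Agent.MP_797bdc_co.Lk
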