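import Pool.Agent.MP_797bdc_co.Lk.Reach

/-! Case B of the lock argument. -/

namespace Pool.Agent.MP_797bdc_co.Lk

open Finset

namespace CB

variable {α : Type} [DecidableEq α] {S : Sys α} {G Sig : Finset α} {u τ1 τ2 : α} {h1 h2 : Finset α}

/-- An `F`-closed set of faces without `u` is closed under all quads. -/
lemma u_mem (B : Base S G Sig u τ1 τ2 h1 h2) {R : Finset α} (hR : R ⊆ G)
    (hu : ¬ Cl (FQ S G) (R : Set α) u) {a : α} (h : Cl S.Q (R : Set α) a) :
    Cl (FQ S G) (R : Set α) a := by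
  induction h with
  | base h => exact .base h
  | @step q a hq ha _ ih =>
    have k : ∀ τ, u ∈ q → τ ∈ q → τ ∉ G → Cl (FQ S G) (R : Set α) a := fun τ hu' hτ hτG => by
      by_cases e : u = a
      · exact absurd (cl_sub hR (ih τ hτ fun e' => hτG (e' ▸ e ▸ B.uG))) hτG
      · exact absurd (ih u hu' e) hu
    rcases B.c2 q hq (three_le hq fun b hb hne => cl_sub hR (ih b hb hne)) with h | rfl | rfl
    · exact .step ⟨hq, h⟩ ha ih
    · exact k τ1 B.hq1.2.1 B.hq1.2.2.1 B.hq1.2.2.2.1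
    · exact k τ2 B.hq2.2.1 B.hq2.2.2.1 B.hq2.2.2.2.1

/-- A proper closed set containing `u` and `Sig ∩ G` carries a bubble. -/
lemma bubble (hb : BUB_s) (B : Base S G Sig u τ1 τ2 h1 h2) {X : Set α} (hX : FClosed S G X)
    (hu : u ∈ X) (hS : ∀ m ∈ Sig, m ∈ G → m ∈ X) {a : α} (ha : a ∈ G) (haX : a ∉ X) :
    ∃ χ, Ev (FQ S G) χ ∧ (∀ a ∈ X, χ a = 0) ∧ ∃ a ∈ G, χ a ≠ 0 := by
  classical
  obtain ⟨FS, hFS, -⟩ := B.cnt
  have hW : ∀ q, q ∈ FS.filter (FQ S G) ↔ FQ S G q := fun q =>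
    ⟨fun h => (mem_filter.1 h).2, fun h => mem_filter.2 ⟨hFS q h, h⟩⟩
  obtain ⟨χ, ⟨b, hb0⟩, g1, g2⟩ := hb α (FS.filter (FQ S G)) {f | f ∈ G ∧ f ∉ X} none
    (fun q hq a ha haM => by
      by_contra hc
      refine haM.2 (hX q ((hW q).1 hq) a ha fun b hb hne => by_contra fun hbX => ?_)
      exact hc ⟨b, hb, hne, ((hW q).1 hq).2 hb, hbX⟩)
    (fun f hf _ => by
      obtain ⟨q, q', hq, hq', hne, hfq, hfq'⟩ := B.deg2 f hf.1 fun e => hf.2 (e ▸ hu)
      refine .inr (card_eq_two.2 ⟨q, q', hne, ?_⟩)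
      ext p
      rw [mem_filter, hW, mem_insert, mem_singleton]
      refine ⟨fun hp => ?_, ?_⟩
      · rcases B.degle f hf.1 (fun h => hf.2 (hS f h hf.1)) q q' p hq hq' hp.1 hfq hfq' hp.2 with
          h | h | h
        exacts [absurd h hne, .inl h.symm, .inr h.symm]
      · rintro (rfl | rfl)
        exacts [⟨hq, hfq⟩, ⟨hq', hfq'⟩])
    (fun _ h => absurd h (by simp))
    (by
      obtain ⟨q, -, hq, -, -, hfq, -⟩ := B.deg2 a ha fun e => haX (e ▸ hu)
      exact ⟨q, (hW q).2 hq, a, hfq, ha, haX⟩)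
  exact ⟨χ, fun q hq => g2 q ((hW q).2 hq), fun a ha => by_contra fun h => (g1 a h).1.2 ha,
    b, (g1 b hb0).1.1, hb0⟩

/-- the tokens reached from a fired hot quad -/
def A (S : Sys α) (G : Finset α) (X : Set α) (h : Finset α) (τ t : α) : Prop :=
  (∀ b ∈ h, b ≠ τ → b ∈ X) ∧ Reach S G (In G X) τ t

end CB

open CB in
theorem cbT (hb : BUB_s) (ha : LA_s) : CB_s := by
  intro α _ S G Sig u τ1 τ2 h1 h2 noLoc H R hR R' hR' hp a haG
  have B := H.base
  by_contra haX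
  have hXc := cl_closed (S := S) (G := G) (R' : Set α)
  generalize hXe : {a | Cl (FQ S G) (R' : Set α) a} = X at hXc
  have hX : ∀ b, b ∈ X ↔ Cl (FQ S G) (R' : Set α) b := fun b => by rw [← hXe]; rfl
  have hXG : ∀ b ∈ X, b ∈ G := fun b h => cl_sub hR' ((hX b).1 h)
  have no : ∀ χ, Ev (FQ S G) χ → (∀ a ∈ X, a ∈ G → χ a = 0) → ¬ ∃ a ∈ G, χ a ≠ 0 :=
    fun χ h h' ⟨b, hbG, hb0⟩ => hb0 ((ha α S G B.GΩ B.perc R hR).2 R' hR' hp χ h
      (fun a h => h' a ((hX a).2 (.base h)) (hR' h)) b hbG)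
  have hu : u ∈ X := (hX u).2 (by_contra fun hu => haX (u_mem B hR' hu (hp a (B.GΩ haG))))
  obtain ⟨m, hmS, hmG, hmX⟩ : ∃ m ∈ Sig, m ∈ G ∧ m ∉ X := by
    by_contra hc
    obtain ⟨χ, g1, g2, g3⟩ := bubble hb B hXc hu
      (fun m h h' => by_contra fun h'' => hc ⟨m, h, h', h''⟩) haG fun h => haX ((hX a).1 h)
    exact no χ g1 (fun a h _ => g2 a h) g3
  obtain ⟨Ht, hot⟩ := H.hot m hmS
  obtain ⟨K1, K2, k1, k2, c1, c2, dis⟩ := H.sep
  have t1 : ∀ t, A S G X h1 τ1 t → t ∉ G ∧ t ∈ K1 ∧ t ∈ Ht := fun t h =>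
    ⟨h.2.tok B.hq1.2.2.2.1, h.2.sub c1 (fun _ _ _ => trivial) k1,
      h.2.sub hot.cl (fun q _ hq hm => hmX (hq m hm hmG)) hot.t1⟩
  have t2 : ∀ t, A S G X h2 τ2 t → t ∉ G ∧ t ∈ K2 ∧ t ∈ Ht := fun t h =>
    ⟨h.2.tok B.hq2.2.2.2.1, h.2.sub c2 (fun _ _ _ => trivial) k2,
      h.2.sub hot.cl (fun q _ hq hm => hmX (hq m hm hmG)) hot.t2⟩
  have zG : ∀ b ∈ G, b ∈ X ∨ A S G X h1 τ1 b ∨ A S G X h2 τ2 b → b ∈ X := fun b hbG h =>
    h.elim id fun h => absurd hbG (h.elim (fun h => (t1 b h).1) fun h => (t2 b h).1)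
  have key : ∀ b, Cl S.Q (R' : Set α) b → b ∈ X ∨ A S G X h1 τ1 b ∨ A S G X h2 τ2 b := by
    intro b h
    induction h with
    | base h => exact .inl ((hX _).2 (.base h))
    | @step q b hq hbq _ ih =>
      rcases lt_trichotomy (q ∩ G).card 2 with hc | hc | hc
      · refine absurd (fun f hf hne => ?_) (hot.c3 q hq (by omega) b hbq)
        rcases ih f hf hne with h | h | h
        · exact .inl ⟨hXG f h, fun e => hmX (e ▸ h)⟩
        · exact .inr ⟨(t1 f h).1, (t1 f h).2.2⟩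
        · exact .inr ⟨(t2 f h).1, (t2 f h).2.2⟩
      · have hg : Gate S G q := ⟨hq, hc⟩
        by_cases hbG : b ∈ G
        · refine .inl (by_contra fun hbX => ?_)
          have tk : ∀ s ∈ q, s ∉ G → A S G X h1 τ1 s ∨ A S G X h2 τ2 s := fun s hs hsG =>
            (ih s hs fun e => hsG (e ▸ hbG)).resolve_left fun h => hsG (hXG s h)
          have ho : ∀ f ∈ q, f ∈ G → f ≠ b → f ∈ X := fun f hf hfG hne => zG f hfG (ih f hf hne)
          obtain ⟨t, ht, htG, -⟩ := gate_other hg b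
          rcases tk t ht htG with h | h
          · obtain ⟨-, χ, g1, g2, g3, -⟩ := Reach.bp (r := τ1) H.bp hXc hg hbq hbG hbX ho
              fun s hs hsG => ((tk s hs hsG).resolve_right fun h' =>
                dis s (c1 q hg trivial t ht s hs htG hsG (t1 t h).2.1) (t2 s h').2.1).2
            exact no χ g1 g2 g3
          · obtain ⟨-, χ, g1, g2, g3, -⟩ := Reach.bp (r := τ2) H.bp hXc hg hbq hbG hbX ho
              fun s hs hsG => ((tk s hs hsG).resolve_left fun h' =>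
                dis s (t1 s h').2.1 (c2 q hg trivial t ht s hs htG hsG (t2 t h).2.1)).2
            exact no χ g1 g2 g3
        · have hI : In G X q := fun f hf hfG => zG f hfG (ih f hf fun e => hbG (e ▸ hfG))
          obtain ⟨t, ht, htG, hne⟩ := gate_other hg b
          rcases ih t ht hne with h | h | h
          · exact absurd (hXG t h) htG
          · exact .inr (.inl ⟨h.1, .step hg hI ht hbq htG hbG h.2⟩)
          · exact .inr (.inr ⟨h.1, .step hg hI ht hbq htG hbG h.2⟩)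
      · rcases B.c2 q hq hc with h | rfl | rfl
        · exact .inl (hXc q ⟨hq, h⟩ b hbq fun f hf hne => zG f (h hf) (ih f hf hne))
        · by_cases e : b = τ1
          · subst e
            exact .inr (.inl ⟨fun f hf hne => zG f (B.hq1.2.2.2.2 f hf hne) (ih f hf hne), .root⟩)
          · rcases ih τ1 B.hq1.2.2.1 (Ne.symm e) with h | h | h
            · exact absurd (hXG _ h) B.hq1.2.2.2.1
            · exact .inl (h.1 b hbq e)
            · exact absurd (t2 _ h).2.1 (dis _ k1)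
        · by_cases e : b = τ2
          · subst e
            exact .inr (.inr ⟨fun f hf hne => zG f (B.hq2.2.2.2.2 f hf hne) (ih f hf hne), .root⟩)
          · rcases ih τ2 B.hq2.2.2.1 (Ne.symm e) with h | h | h
            · exact absurd (hXG _ h) B.hq2.2.2.2.1
            · exact absurd k2 (dis _ (t1 _ h).2.1)
            · exact .inl (h.1 b hbq e)
  exact haX ((hX a).1 (zG a haG (key a (hp a (B.GΩ haG)))))

end Pool.Agent.MP_797bdc_co.Lk
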