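import Pool.Agent.MP_797bdc_co.Lk.HD

/-! Dead quads. -/

namespace Pool.Agent.MP_797bdc_co.Lk.Da

def DL : List H.DR := [
  ⟨nat_lit 10471866948, nat_lit 68, [],
    [nat_lit 17831425],
    [nat_lit 17831425, nat_lit 27822081]⟩,
  ⟨nat_lit 14247528516, nat_lit 68, [nat_lit 20482052],
    [nat_lit 20482052, nat_lit 17831428],
    []⟩]
noncomputable def dd : Nat → Bool := H.ddf DL

end Pool.Agent.MP_797bdc_co.Lk.Da
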