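import Pool.Agent.MP_797bdc_co.Lk.XD
import Pool.Agent.MP_797bdc_co.Lk.DM
import Pool.Agent.MP_797bdc_co.Lk.DZ

/-! Global data of checker X. -/

set_option maxRecDepth 100000
set_option linter.defProp false

namespace Pool.Agent.MP_797bdc_co.Lk.Da

noncomputable def xon : Nat := nat_lit 0x1ffffffffffffffffffffffffffffffffffffffffffffffffffffffffffffffffffffffffffffffff
noncomputable def xones : Nat := Nat.div (Nat.sub (p2 (nat_lit 128400)) (nat_lit 1)) xon
noncomputable def xsg : Nat := (nat_lit 0x2000000000000020001000000000000000000000000000000000000000000000000000000000000000000000000080100008000000000000000000000000000000000000000000010000000000000000080000000000000800000000000000000000000001000000000000000000000000000000000000000000000000002004000000000000000000000000008000000000000000000000400000000000000000000000000000020000000000000000000000000000000000000000000400000000000000000000000000000000000000008000000000000000100000200000000000000000000000000000000000000000000000000400000000000000000000000800001000000000000000000000080000000000000000000000000000000000000000000000000004000000000000000000000000000400000000000000002000000000080000000000000000000000000000000000000000000000000002000000000000000000000000000400000000000000000000000100000000000000000000002000000000000000000000000000000002000000000000000000000000800000000000000000000000000000000000000000000400000000000000000200000020000000000000000000000000000000080000000000000000000000000000000000000001000000100000000000000000000000000000000000000000000000000000010000000000400000000000000800000000000000000000000000000002000000000000000000000000000000002000000000000004000000000000)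
noncomputable def xsm : Nat := (nat_lit 0x200000000000000002000010000000000000000080000000002400800040000004000000000800)
noncomputable def xE : XE := ⟨n, xon, xones, nat_lit 400, J, tM, tZ, tF, SK, nat_lit 15, xsg, xsm⟩

end Pool.Agent.MP_797bdc_co.Lk.Da
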