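import Pool.Agent.MP_797bdc_co.Lk.DG0
import Pool.Agent.MP_797bdc_co.Lk.DG1
import Pool.Agent.MP_797bdc_co.Lk.DG2
import Pool.Agent.MP_797bdc_co.Lk.DG3
import Pool.Agent.MP_797bdc_co.Lk.DG4
import Pool.Agent.MP_797bdc_co.Lk.DG5
import Pool.Agent.MP_797bdc_co.Lk.DG6
import Pool.Agent.MP_797bdc_co.Lk.DG7
import Pool.Agent.MP_797bdc_co.Lk.DG8
import Pool.Agent.MP_797bdc_co.Lk.DG9
import Pool.Agent.MP_797bdc_co.Lk.DG10
import Pool.Agent.MP_797bdc_co.Lk.DG11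
import Pool.Agent.MP_797bdc_co.Lk.DG12
import Pool.Agent.MP_797bdc_co.Lk.DG13
import Pool.Agent.MP_797bdc_co.Lk.DG14
import Pool.Agent.MP_797bdc_co.Lk.DG15

/-! Block records. -/

set_option maxRecDepth 100000
set_option linter.defProp false

namespace Pool.Agent.MP_797bdc_co.Lk.Da

noncomputable def tG : BT := (.nd (nat_lit 11845) (.nd (nat_lit 5934) (.nd (nat_lit 2973) (.nd (nat_lit 1497) tG0 tG1) (.nd (nat_lit 4463) tG2 tG3)) (.nd (nat_lit 8858) (.nd (nat_lit 7402) tG4 tG5) (.nd (nat_lit 10348) tG6 tG7))) (.nd (nat_lit 17042) (.nd (nat_lit 14590) (.nd (nat_lit 13273) tG8 tG9) (.nd (nat_lit 15834) tG10 tG11)) (.nd (nat_lit 19407) (.nd (nat_lit 18228) tG12 tG13) (.nd (nat_lit 20587) tG14 tG15))))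
def NX : Nat := nat_lit 21747

end Pool.Agent.MP_797bdc_co.Lk.Da
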