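import Pool.Agent.MP_797bdc_co.Lk.DI0
import Pool.Agent.MP_797bdc_co.Lk.DI1
import Pool.Agent.MP_797bdc_co.Lk.DI2
import Pool.Agent.MP_797bdc_co.Lk.SM
import Pool.Agent.MP_797bdc_co.Lk.DM

namespace Pool.Agent.MP_797bdc_co.Lk.H

noncomputable section

set_option maxRecDepth 100000
set_option linter.defProp false

noncomputable def tI : BT := (BT.nd (nat_lit 1184) (BT.nd (nat_lit 576) (BT.nd (nat_lit 288) (BT.nd (nat_lit 128) (BT.nd (nat_lit 64) (BT.nd (nat_lit 32) tI0 tI1) (BT.nd (nat_lit 96) tI2 tI3)) (BT.nd (nat_lit 192) (BT.nd (nat_lit 160) tI4 tI5) (BT.nd (nat_lit 224) tI6 (BT.nd (nat_lit 256) tI7 tI8)))) (BT.nd (nat_lit 416) (BT.nd (nat_lit 352) (BT.nd (nat_lit 320) tI9 tI10) (BT.nd (nat_lit 384) tI11 tI12)) (BT.nd (nat_lit 480) (BT.nd (nat_lit 448) tI13 tI14) (BT.nd (nat_lit 512) tI15 (BT.nd (nat_lit 544) tI16 tI17))))) (BT.nd (nat_lit 864) (BT.nd (nat_lit 704) (BT.nd (nat_lit 640) (BT.nd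 (nat_lit 608) tI18 tI19) (BT.nd (nat_lit 672) tI20 tI21)) (BT.nd (nat_lit 768) (BT.nd (nat_lit 736) tI22 tI23) (BT.nd (nat_lit 800) tI24 (BT.nd (nat_lit 832) tI25 tI26)))) (BT.nd (nat_lit 1024) (BT.nd (nat_lit 928) (BT.nd (nat_lit 896) tI27 tI28) (BT.nd (nat_lit 960) tI29 (BT.nd (nat_lit 992) tI30 tI31))) (BT.nd (nat_lit 1088) (BT.nd (nat_lit 1056) tI32 tI33) (BT.nd (nat_lit 1120) tI34 (BT.nd (nat_lit 1152) tI35 tI36)))))) (BT.nd (nat_lit 1760) (BT.nd (nat_lit 1472) (BT.nd (nat_lit 1312) (BT.nd (nat_lit 1248) (BT.nd (nat_lit 1216) tI37 tI38) (BT.nd (nat_lit 1280) tI39 tI40)) (BT.nd (nat_lit 1376) (BT.nd (nat_lit 1344) tI41 tI42) (BT.nd (nat_lit 1408) tI43 (BT.nd (nat_lit 1440) tI44 tI45)))) (BT.nd (nat_lit 1600) (BT.nd (nat_lit 1536) (BT.nd (nat_lit 1504) tI46 tI47) (BT.nd (nat_lit 1568) tI48 tI49)) (BT.nd (nat_lit 1664) (BT.nd (nat_lit 1632) tI50 tI51) (BT.nd (nat_lit 1696) tI52 (BT.nd (nat_lit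 1728) tI53 tI54))))) (BT.nd (nat_lit 2048) (BT.nd (nat_lit 1888) (BT.nd (nat_lit 1824) (BT.nd (nat_lit 1792) tI55 tI56) (BT.nd (nat_lit 1856) tI57 tI58)) (BT.nd (nat_lit 1952) (BT.nd (nat_lit 1920) tI59 tI60) (BT.nd (nat_lit 1984) tI61 (BT.nd (nat_lit 2016) tI62 tI63)))) (BT.nd (nat_lit 2208) (BT.nd (nat_lit 2112) (BT.nd (nat_lit 2080) tI64 tI65) (BT.nd (nat_lit 2144) tI66 (BT.nd (nat_lit 2176) tI67 tI68))) (BT.nd (nat_lit 2272) (BT.nd (nat_lit 2240) tI69 tI70) (BT.nd (nat_lit 2304) tI71 (BT.nd (nat_lit 2336) tI72 tI73)))))))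
def ZT (j : Nat) : Nat := Nat.shiftRight (nat_lit 0x9f84a7c499e90678429d86674249c8267045224dc45369a856681a99896642a988326037978465c3e084b48d2c959265440104a49128938ae4c4e928be484a918a2444c90902403c20c7c8b1e27c74031c8d80234348c93230018b93a2c3c8a92e282b8992224358893620178788e1c3a86936180f858e6144f09c249f08838e60c4e8290e08028193604258092e0008233fc16fe7e835f8317d8b5f41c7c8d9f04a7b819ec3d7a8a5e82e79871e40b78885e00e77839dc3a76931d8167580dd4217481dd0027391dcc1d7286dc837718cdc44b70929c02c6f91dbc126e87db8446d8d5b4316c8c1b0496b921ac286a90da8296991da42e68919a03d679159c0c6688d981165881941d6482990320d31c6cc6628b18822618ed8444608e180045f90d7c425e90978275d8fd74265c905703f5b8e16c1b5a8f96840598fd6433588f9603d578c15c090f2b478ac558bd543b192a476a8538e94c13528d14839518994406508e140180c27c149e152746e9c0426c5a9a4c8d930354b8d12c331925462941824c069202a4432900ba3c288e4681d182f1222c5c8a448b51027438b10c2b4287908151520c5282408a100273f898fc1f129f4487c3d88cf422109e42c783b814ec203a87ce8140f1cc3a7238870e01b37868dc19001b41e6c0c1ac2e6a34858d0150a19c2666091941a6431844c4100818408602f83cbc0e06974185c0596c145a0496410580395c0c562a814a8040194c045228804a000)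 (Nat.mul j (nat_lit 36))
def NI : Nat := (nat_lit 301503)
def PG : Nat := (nat_lit 10041)
def PM : Nat := (nat_lit 10041)
def PS : Nat := (nat_lit 10168)
def ON : Nat := Nat.div (Nat.sub (Nat.shiftLeft (nat_lit 1) (nat_lit 103041)) (nat_lit 1)) (ful (nat_lit 321))
def fU (x t x' t' a b0 k R : Nat) : Bool :=
  unitOK (nat_lit 321) (BT.get Da.tM) ZT (BT.get tI) (nat_lit 11) (nat_lit 78) (nat_lit 106) (nat_lit 301503) (nat_lit 10041) (nat_lit 10041) (nat_lit 10168) ON Da.SM x t x' t' a b0 k R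
def fP (s e k R : Nat) : Bool := plainU (nat_lit 321) (BT.get Da.tM) ZT (BT.get tI) (nat_lit 11) (nat_lit 78) (nat_lit 106) (nat_lit 301503) (nat_lit 10041) s e k R
def SU (x t x' t' : Nat) : Prop := ∃ a b0 k R, fU x t x' t' a b0 k R = true
def SP (s _t e _t' : Nat) : Prop := ∃ k R, fP s e k R = true
theorem sU {x0 t0 x t : Nat} (h : Ch SU x0 t0 x t) (x' t' a b0 k R : Nat)
    (e : fU x t x' t' a b0 k R = true) : Ch SU x0 t0 x' t' := h.snoc ⟨a, b0, k, R, e⟩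
theorem sP {x0 s : Nat} (h : Ch SP x0 (nat_lit 0) s (nat_lit 0)) (e k R : Nat)
    (q : fP s e k R = true) : Ch SP x0 (nat_lit 0) e (nat_lit 0) := h.snoc ⟨k, R, q⟩

end

end Pool.Agent.MP_797bdc_co.Lk.H
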