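import Pool.Agent.MP_797bdc_co.Lk.Stm

/-! The dimension bound for cocycles of the simplex. -/

namespace Pool.Agent.MP_797bdc_co.Lk

open Finset

namespace DIM

/-- Pairs avoiding the vertex `0`. -/
def Pr (n : ℕ) : Finset (Finset ℕ) := powersetCard 2 ((range n).erase 0)

theorem card_Pr (n : ℕ) : (Pr n).card = (n - 1).choose 2 := by
  rcases Nat.eq_zero_or_pos n with rfl | hn
  · simp [Pr]
  · rw [Pr, card_powersetCard, card_erase_of_mem (mem_range.2 hn), card_range]

/-- The coboundary of a function on pairs. -/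
def cob (n : ℕ) (ω : Pr n → ZMod 2) (s : Finset ℕ) : ZMod 2 :=
  ∑ p : Pr n, if (p : Finset ℕ) ⊆ s then ω p else 0

theorem cnt (p s : Finset ℕ) (hp : p.card = 2) (hs : s.card = 4) :
    (((powersetCard 3 s).filter (p ⊆ ·)).card : ZMod 2) = 0 := by
  by_cases h : p ⊆ s
  · rw [card_filter_powersetCard_subset p s 3 h (by omega), hp, hs]
    rfl
  · have : (powersetCard 3 s).filter (p ⊆ ·) = ∅ := by
      refine filter_eq_empty_iff.2 fun a ha hpa => h (hpa.trans (mem_powersetCard.1 ha).1)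
    rw [this]
    simp

theorem ev (n : ℕ) (ω : Pr n → ZMod 2) : Ev (Qn n) (cob n ω) := by
  rintro q ⟨s, -, hs, rfl⟩
  simp only [cob]
  rw [sum_comm]
  refine sum_eq_zero fun p _ => ?_
  rw [← sum_filter, sum_const, nsmul_eq_mul, cnt p s (mem_powersetCard.1 p.2).2 hs, zero_mul]

theorem cob_sub (n : ℕ) (ω ω' : Pr n → ZMod 2) (s : Finset ℕ) :
    cob n (ω - ω') s = cob n ω s - cob n ω' s := by
  simp only [cob]
  rw [← sum_sub_distrib]
  refine sum_congr rfl fun p _ => ?_
  split_ifs <;> simp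

theorem cob_ins (n : ℕ) (ω : Pr n → ZMod 2) (p : Pr n) : cob n ω (insert 0 (p : Finset ℕ)) = ω p := by
  simp only [cob]
  rw [sum_eq_single p]
  · rw [if_pos (subset_insert _ _)]
  · intro r _ hr
    rw [if_neg]
    intro h
    apply hr
    have h1 := mem_powersetCard.1 r.2
    have h2 := mem_powersetCard.1 p.2
    refine Subtype.ext (eq_of_subset_of_card_le (fun x hx => ?_) (by rw [h1.2, h2.2]))
    rcases mem_insert.1 (h hx) with h0 | h0
    · exact absurd h0 (mem_erase.1 (h1.1 hx)).1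
    · exact h0
  · intro h
    exact absurd (mem_univ p) h

end DIM

theorem dim : DIM_s := by
  intro n Y hY
  rw [← DIM.card_Pr] at hY
  have hlt : Fintype.card (Y → ZMod 2) < Fintype.card (DIM.Pr n → ZMod 2) := by
    simp only [Fintype.card_fun, ZMod.card, Fintype.card_coe]
    exact Nat.pow_lt_pow_right (by norm_num) hY
  obtain ⟨ω, ω', hne, he⟩ := Fintype.exists_ne_map_eq_of_card_lt
    (fun (ω : DIM.Pr n → ZMod 2) (y : Y) => DIM.cob n ω y) hlt
  refine ⟨DIM.cob n (ω - ω'), DIM.ev n _, fun a ha => ?_, ?_⟩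
  · rw [DIM.cob_sub, sub_eq_zero]
    exact congrFun he ⟨a, ha⟩
  · obtain ⟨p, hp⟩ := Function.ne_iff.1 hne
    have h2 := mem_powersetCard.1 p.2
    have h0 : 0 ∉ (p : Finset ℕ) := fun h => (mem_erase.1 (h2.1 h)).1 rfl
    refine ⟨insert 0 (p : Finset ℕ), ?_, ?_⟩
    · refine mem_powersetCard.2 ⟨?_, by rw [card_insert_of_notMem h0, h2.2]⟩
      intro x hx
      obtain ⟨y, hy⟩ : (p : Finset ℕ).Nonempty := card_pos.1 (by rw [h2.2]; norm_num)
      have hyn := mem_range.1 (mem_erase.1 (h2.1 hy)).2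
      rcases mem_insert.1 hx with rfl | hx
      · exact mem_range.2 (by omega)
      · exact (mem_erase.1 (h2.1 hx)).2
    · rw [DIM.cob_ins]
      exact sub_ne_zero.2 hp

end Pool.Agent.MP_797bdc_co.Lk
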