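import Pool.Agent.MP_797bdc_co.Lk.Prim

/-! Further safe tokens of the explicit blocks. -/

namespace Pool.Agent.MP_797bdc_co.Lk.Da

noncomputable def tW : BT := (.nd (nat_lit 9507) (.nd (nat_lit 2914) (.lf (nat_lit 0x11dbf3f0000000000000000011dbd3f000000000000000000488eaf000000000000000000588eaf04)) (.nd (nat_lit 9506) (.lf (nat_lit 0x11dbf3f0000000000000000011dbd3f000000000000000000488eaf000000000000000000588eaf04)) (.lf (nat_lit 0xc4d8fc000000000000000000c49885000000000000000000c4784c03)))) (.nd (nat_lit 13519) (.lf (nat_lit 0x81d1dc000000000000c4d8fcc2f3220000020188a8c4988500000100c4540c0bd0c4784c03)) (.nd (nat_lit 14049) (.lf (nat_lit 0x64c2f38a63c501c90828950d24c2f380a3c501c90828950c02)) (.lf (nat_lit 0x74e6ec00000000000000000074e4ec000000000000000000743c50000000000000000000583a5004)))))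

end Pool.Agent.MP_797bdc_co.Lk.Da
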