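import Pool.Agent.MP_797bdc_co.Lk.DX0
import Pool.Agent.MP_797bdc_co.Lk.DX1
import Pool.Agent.MP_797bdc_co.Lk.DX2
import Pool.Agent.MP_797bdc_co.Lk.DX3
import Pool.Agent.MP_797bdc_co.Lk.DX4
import Pool.Agent.MP_797bdc_co.Lk.DX5
import Pool.Agent.MP_797bdc_co.Lk.DX6
import Pool.Agent.MP_797bdc_co.Lk.DX7
import Pool.Agent.MP_797bdc_co.Lk.DX8
import Pool.Agent.MP_797bdc_co.Lk.DX9
import Pool.Agent.MP_797bdc_co.Lk.DX10
import Pool.Agent.MP_797bdc_co.Lk.DX11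
import Pool.Agent.MP_797bdc_co.Lk.DX12
import Pool.Agent.MP_797bdc_co.Lk.DX13
import Pool.Agent.MP_797bdc_co.Lk.DX14
import Pool.Agent.MP_797bdc_co.Lk.DX15

/-! Block certificates. -/

set_option maxRecDepth 100000
set_option linter.defProp false

namespace Pool.Agent.MP_797bdc_co.Lk.Da

noncomputable def tX : BT := (.nd (nat_lit 11845) (.nd (nat_lit 5934) (.nd (nat_lit 2973) (.nd (nat_lit 1497) tX0 tX1) (.nd (nat_lit 4463) tX2 tX3)) (.nd (nat_lit 8858) (.nd (nat_lit 7402) tX4 tX5) (.nd (nat_lit 10348) tX6 tX7))) (.nd (nat_lit 17042) (.nd (nat_lit 14590) (.nd (nat_lit 13273) tX8 tX9) (.nd (nat_lit 15834) tX10 tX11)) (.nd (nat_lit 19407) (.nd (nat_lit 18228) tX12 tX13) (.nd (nat_lit 20587) tX14 tX15))))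

end Pool.Agent.MP_797bdc_co.Lk.Da
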