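import Pool.Agent.MP_797bdc_co.Lk.HC
import Pool.Agent.MP_797bdc_co.Lk.PrimB

/-! Checker S (safe tokens): definitions for kernel evaluation. -/

namespace Pool.Agent.MP_797bdc_co.Lk.S

open Nat (add mul sub div mod land lor xor shiftRight shiftLeft ble beq)
open H (fn z0 df sb orl alB m2 Lf vm ia ib iC)

noncomputable section

def nt (a : Bool) : Bool := Bool.rec true false a

section
variable (n J : Nat) (tZ tF : BT) (SK : Nat) (e : Nat) (cj c0 c1 : Nat → Nat)

/-- the node `(k, p)` is safe for the cores `(cj l, c0 l, c1 l)`, `l < e` -/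
def ngd (k p : Nat) : Bool := al e (fun l =>
  orr (nt (tb (nfu (nrec (tF.get k) p)) (cj l)))
    (an (orr (beq (zr (tZ.get k) p) (zr (tZ.get (cj l)) (c0 l)))
        (beq (zr (tZ.get k) p) (zr (tZ.get (cj l)) (c1 l))))
      (nt (tb (nfo (nrec (tF.get k) p)) (cj l)))))
def ndb (k p : Nat) : Bool :=
  an (lt k J) (an (lt (nat_lit 0) p) (lt (add p (nat_lit 1)) (zl (tZ.get k))))
/-- the pair `x y` is safe: kind 0 skeleton, kind 1 node `(k, p)` with hub `i`, else rim pair -/
def pg1 (x y ty i k p : Nat) : Bool :=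
  cb (z0 ty) (an (an (lt x n) (lt y n)) (tb SK (add (mul n x) y)))
    (cb (beq ty (nat_lit 1))
      (an (an (ndb J tZ k p) (lt i (nat_lit 4)))
        (an (an (beq x (zr (tZ.get k) p)) (beq y (zc (tZ.get k) i))) (ngd tZ tF e cj c0 c1 k p)))
      (an (an (an (lt k J) (lt (add p (nat_lit 1)) (zl (tZ.get k))))
          (an (beq x (zr (tZ.get k) p)) (beq y (zr (tZ.get k) (add p (nat_lit 1))))))
        (an (al e (fun l => nt (beq (cj l) k)))
          (an (cb (ndb J tZ k p) (ngd tZ tF e cj c0 c1 k p) true)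
            (cb (ndb J tZ k (add p (nat_lit 1))) (ngd tZ tF e cj c0 c1 k (add p (nat_lit 1)))
              true)))))
/-- witness of 24 bits: kind 2, swap 1, hub 2, zone 9, position 9 -/
def pgd (x y w : Nat) : Bool :=
  pg1 n J tZ tF SK e cj c0 c1 (cn (tb w (nat_lit 2)) y x) (cn (tb w (nat_lit 2)) x y)
    (land w (nat_lit 3)) (bt w (nat_lit 3) (nat_lit 3)) (bt w (nat_lit 5) (nat_lit 511))
    (bt w (nat_lit 14) (nat_lit 511))
/-- the cores are well formed -/
def cok : Bool := al e (fun l =>
  an (an (lt (cj l) J) (an (lt (c0 l) (c1 l)) (lt (c1 l) (zl (tZ.get (cj l))))))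
    (al l (fun l' => nt (beq (cj l') (cj l)))))
/-- the three pairs of the token `x y z` are safe; witnesses for `xy`, `xz`, `yz` -/
def tks (x y z w : Nat) : Bool :=
  an (an (an (lt x n) (an (lt y n) (lt z n))) (nt (orr (beq x y) (orr (beq x z) (beq y z)))))
    (an (pgd n J tZ tF SK e cj c0 c1 x y w)
      (an (pgd n J tZ tF SK e cj c0 c1 x z (shiftRight w (nat_lit 24)))
        (pgd n J tZ tF SK e cj c0 c1 y z (shiftRight w (nat_lit 48)))))
end

section
variable (n J : Nat) (M Zt It : Nat → Nat) (tZ tF tG : BT) (SK : Nat)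
  (xsb : Nat → Nat → Nat → Nat → Bool)

/-- the token is safe for the four-cycle block of zone `j` at the apex pair `a b` -/
def zs (j a b x y z p0 p1 w : Nat) : Bool :=
  an (an (cok J tZ (nat_lit 1) (fun _ => j) (fun _ => p0) (fun _ => p1))
      (orr (an (beq (zr (tZ.get j) p0) a) (beq (zr (tZ.get j) p1) b))
        (an (beq (zr (tZ.get j) p0) b) (beq (zr (tZ.get j) p1) a))))
    (tks n J tZ tF SK (nat_lit 1) (fun _ => j) (fun _ => p0) (fun _ => p1) x y z w)
def dsb (a b v x y z w : Nat) : Bool :=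
  cb (beq (mod v (nat_lit 4)) (nat_lit 1))
    (zs n J tZ tF SK (div v (nat_lit 4)) a b x y z (land w (nat_lit 511))
      (bt w (nat_lit 9) (nat_lit 511)) (shiftRight w (nat_lit 18)))
    (cb (beq (mod v (nat_lit 4)) (nat_lit 2)) (xsb (div v (nat_lit 4)) x y z) true)
def vX (r a b : Nat) : Nat := orl (xk r) (fun i =>
  cn (an (beq (ga (xg r i)) a) (beq (gb (xg r i)) b)) (m2 (gc (xg r i)) (gd (xg r i))) (nat_lit 0))
/-- vertex mask of the block `v` at the apex pair `a b` -/
def vmk (a b v : Nat) : Nat :=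
  cn (beq (mod v (nat_lit 4)) (nat_lit 1)) (vm tZ.get (div v (nat_lit 4)))
    (cn (beq (mod v (nat_lit 4)) (nat_lit 2))
      (fn (tG.get (div v (nat_lit 4))) (fun r => vX r a b))
      (cn (beq (mod v (nat_lit 4)) (nat_lit 3))
        (m2 (mod (div v (nat_lit 4)) (nat_lit 512)) (div (div v (nat_lit 4)) (nat_lit 512)))
        (nat_lit 0)))
def q0 (c : Nat) : Nat := mod c (nat_lit 512)
def q1 (c : Nat) : Nat := mod (div c (nat_lit 512)) (nat_lit 512)
def q2 (c : Nat) : Nat := mod (div c (nat_lit 262144)) (nat_lit 512)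
def q3 (c : Nat) : Nat := mod (div c (nat_lit 134217728)) (nat_lit 512)
/-- token number `e` of the quad `c` is allowed by `f` and safe for the block `v` -/
def gdb (c f a b v e w : Nat) : Bool :=
  an (an (lt e (nat_lit 3)) (tb f e))
    (fb (cn (beq e (nat_lit 2)) (q1 c) (q0 c)) (fun x => fb (cn (z0 e) (q1 c) (q2 c)) (fun y =>
      fb (q3 c) (fun z => dsb n J tZ tF SK xsb a b v x y z w))))
def fld (s l : Nat) : Nat := land (shiftRight s (mul (nat_lit 20) l)) (nat_lit 1048575)
/-- witness number `l` (96 bits) of the record `R` -/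
def wit (R l : Nat) : Nat :=
  bt R (add (mul l (nat_lit 96)) (nat_lit 8)) (nat_lit 79228162514264337593543950335)
def um (c f a b s R l : Nat) : Nat :=
  fn (fld s l) (fun v => fn (wit R l) (fun w =>
    cn (gdb n J tZ tF SK xsb c f a b v (land w (nat_lit 3)) (shiftRight w (nat_lit 2)))
      (vmk tZ tG a b v) (nat_lit 0)))
def itm (c f a b C s R : Nat) : Bool := alB (fun p =>
  sb (df (land (Lf n M a p) (Lf n M b p)) (Lf n M a b))
    (orl (land R (nat_lit 255)) (fun l => fn (um n J tZ tF tG SK xsb c f a b s R l)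
      (fun U => cn (tb U p) U (nat_lit 0))))) C
/-- all gates at the items `s ≤ p < s + m` lie in listed blocks with a safe token -/
def sfe (SD W : Nat → Nat → Nat) (i s m c f : Nat) : Bool :=
  fb i (fun i => fb s (fun s => fb c (fun c => fb f (fun f => al m (fun k =>
    fb (ia It (add s k)) (fun a => fb (ib It (add s k)) (fun b =>
      fb (iC Zt It (add s k)) (fun C => fb (SD a b) (fun t => fb (W i k) (fun R =>
        itm n J M tZ tF tG SK xsb c f a b C t R))))))))))
end

/-- token number `k` of a list of tokens: count 8 bits, then fields of 27 bits -/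
def t0 (T k : Nat) : Nat := bt T (add (mul k (nat_lit 27)) (nat_lit 8)) (nat_lit 511)
def t1 (T k : Nat) : Nat := bt T (add (mul k (nat_lit 27)) (nat_lit 17)) (nat_lit 511)
def t2 (T k : Nat) : Nat := bt T (add (mul k (nat_lit 27)) (nat_lit 26)) (nat_lit 511)
def tN (T : Nat) : Nat := land T (nat_lit 255)
/-- the block never closes, or the token is in its list -/
def xsl (tG : BT) (XT : Nat → Nat) (id x y z : Nat) : Bool :=
  cb (z0 (xnl (tG.get id))) (fb (XT id) (fun T => nt (al (tN T) (fun k =>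
    nt (beq (H.m3 (t0 T k) (t1 T k) (t2 T k)) (H.m3 x y z)))))) true

end

end Pool.Agent.MP_797bdc_co.Lk.S
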