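import Pool.Agent.MP_797bdc_co.Lk.XD

/-! Checker X: running over two trees. -/

namespace Pool.Agent.MP_797bdc_co.Lk

/-- test of the token `x y z` for block `id`; `tW.get id` = number (8 bits) and records (96 bits) -/
noncomputable def xsw (E : XE) (tG tX tW : BT) (id x y z : Nat) : Bool :=
  cb (iz (xnl (tG.get id))) (fb (tW.get id) fun W =>
    Nat.rec false (fun k ih => orr ih (fb (rec_ (Nat.shiftRight W (nat_lit 8)) (nat_lit 96) k) fun t =>
      cb (Nat.beq (m3 t) (Nat.lor (m2 x y) (p2 z))) (xsb E (tX.get id) t) false))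
      (Nat.land W (nat_lit 255))) true

def OK2 (f : Nat → Nat → Nat) (t t' : BT) : Prop := ∀ i, f (t.get i) (t'.get i) = 0

theorem ok2_nd {f : Nat → Nat → Nat} {l r l' r' : BT} (k : Nat) (h1 : OK2 f l l')
    (h2 : OK2 f r r') : OK2 f (.nd k l r) (.nd k l' r') := by
  intro i
  show f (Bool.rec (l.get i) (r.get i) (Nat.ble k i)) (Bool.rec (l'.get i) (r'.get i) (Nat.ble k i)) = 0
  cases Nat.ble k i
  · exact h1 i
  · exact h2 i

theorem ok2_all {f : Nat → Nat → Nat} : ∀ {t t' : BT}, BT.all2 f t t' = 0 → OK2 f t t'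
  | .lf _, .lf _, h => fun _ => h
  | .lf _, .nd _ _ _, h => absurd h (by show ¬ (1 : Nat) = 0; decide)
  | .nd _ _ _, .lf _, h => absurd h (by show ¬ (1 : Nat) = 0; decide)
  | .nd k l r, .nd k' l' r', h => by
    have h' : (k ^^^ k') ||| (BT.all2 f l l' ||| BT.all2 f r r') = 0 := h
    rw [Nat.or_eq_zero_iff, Nat.or_eq_zero_iff] at h'
    have e : k = k' := by
      have h1 : k ^^^ (k ^^^ k') = k' := by rw [← Nat.xor_assoc, Nat.xor_self, Nat.zero_xor]
      rw [h'.1, Nat.xor_zero] at h1; exact h1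
    subst e
    exact ok2_nd k (ok2_all h'.2.1) (ok2_all h'.2.2)

theorem ok2_of {f : Nat → Nat → Nat} {t t' : BT} (h : iz (BT.all2 f t t') = true) : OK2 f t t' :=
  ok2_all (Nat.eq_of_beq_eq_true h)

end Pool.Agent.MP_797bdc_co.Lk
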