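import Pool.Agent.MP_797bdc_co.Lk.DH
import Pool.Agent.MP_797bdc_co.Lk.SC
import Pool.Agent.MP_797bdc_co.Lk.XA
import Pool.Agent.MP_797bdc_co.Lk.DZ
import Pool.Agent.MP_797bdc_co.Lk.SD
import Pool.Agent.MP_797bdc_co.Lk.DE
import Pool.Agent.MP_797bdc_co.Lk.DG
import Pool.Agent.MP_797bdc_co.Lk.DX
import Pool.Agent.MP_797bdc_co.Lk.DW
import Pool.Agent.MP_797bdc_co.Lk.DD

namespace Pool.Agent.MP_797bdc_co.Lk.H

noncomputable section

set_option maxRecDepth 100000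
set_option linter.defProp false

def sfE : Nat → Nat → Nat → Nat → Nat → Bool :=
  S.sfe Da.n Da.J (BT.get Da.tM) ZT (BT.get tI) Da.tZ Da.tF Da.tG Da.SK
    (xsw Da.xE Da.tG Da.tX Da.tW) Da.SD Da.SW
def ddE : Nat → Bool := ddf Da.DL
def fG (s e : Nat) (L : List Nat) : Bool :=
  genU (nat_lit 321) (BT.get Da.tM) ZT (BT.get tI) (nat_lit 11) (nat_lit 78) (nat_lit 106) (nat_lit 301503) (nat_lit 10041) (nat_lit 10168) (m3 (nat_lit 11) (nat_lit 78) (nat_lit 1)) (m3 (nat_lit 78) (nat_lit 106) (nat_lit 4)) sfE ddE s e L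
def SG (s _t e _t' : Nat) : Prop := ∃ L, fG s e L = true
theorem sG {x0 s : Nat} (h : Ch SG x0 (nat_lit 0) s (nat_lit 0)) (e : Nat) (L : List Nat)
    (q : fG s e L = true) : Ch SG x0 (nat_lit 0) e (nat_lit 0) := h.snoc ⟨L, q⟩

end

end Pool.Agent.MP_797bdc_co.Lk.H
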