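import Pool.Agent.MP_797bdc_co.Lk.Stm

namespace Pool.Agent.MP_797bdc_co.Lk

open Finset

namespace DUAL

variable {n d : ℕ}

lemma bdry_eq_zero {σ ρ : Finset (Fin n)} (h : ¬ ρ ⊆ σ) : bdry σ ρ = 0 := by
  refine Finset.sum_eq_zero fun v _ => ?_
  rw [if_neg]
  rintro rfl
  exact h (erase_subset _ _)

lemma bdry_ne_zero {σ ρ : Finset (Fin n)} (h : ρ ⊆ σ) (hc : σ.card = ρ.card + 1) :
    bdry σ ρ ≠ 0 := by
  obtain ⟨v, hv, rfl⟩ := Finset.exists_eq_insert_iff.mpr ⟨h, hc.symm⟩
  unfold bdry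
  rw [Finset.sum_eq_single v]
  · rw [if_pos (erase_insert hv)]
    exact pow_ne_zero _ (by norm_num)
  · intro w hw hwv
    rw [if_neg]
    intro e
    have : v ∈ (insert v ρ).erase w := mem_erase.mpr ⟨hwv.symm, mem_insert_self _ _⟩
    rw [e] at this
    exact hv this
  · intro h'
    exact (h' (mem_insert_self _ _)).elim

lemma coeff_zero {T : Finset (Finset (Fin n))} (h : Collapsible d T)
    (hT : ∀ σ ∈ T, σ.card = d + 1) (g : Finset (Fin n) → ℚ)
    (hg : ∑ σ ∈ T, g σ • bdry σ = 0) : ∀ σ ∈ T, g σ = 0 := by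
  induction h with
  | empty => simp
  | step T σ ρ hσ hρ hsub huniq _ ih =>
    have h0 : g σ = 0 := by
      have := congrFun hg ρ
      rw [Finset.sum_apply, Finset.sum_eq_single σ] at this
      · simp only [Pi.smul_apply, smul_eq_mul, Pi.zero_apply, mul_eq_zero] at this
        exact this.resolve_right (bdry_ne_zero hsub (by rw [hT σ hσ, hρ]))
      · intro σ' h' hne
        rw [Pi.smul_apply, bdry_eq_zero fun hs => hne (huniq σ' h' hs), smul_zero]
      · exact fun h' => (h' hσ).elim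
    have h1 : ∑ σ' ∈ T.erase σ, g σ' • bdry σ' = 0 := by
      rw [← Finset.add_sum_erase _ _ hσ, h0, zero_smul, zero_add] at hg
      exact hg
    intro σ' h'
    by_cases e : σ' = σ
    · rw [e, h0]
    · exact ih (fun s hs => hT s (mem_of_mem_erase hs)) h1 σ' (mem_erase.mpr ⟨e, h'⟩)

lemma lin_indep {T : Finset (Finset (Fin n))} (h : Collapsible d T)
    (hT : ∀ σ ∈ T, σ.card = d + 1) : LinearIndependent ℚ (fun σ : T => bdry σ.1) := by
  rw [Fintype.linearIndependent_iff]
  intro g hg σ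
  have := coeff_zero h hT (fun s => if hs : s ∈ T then g ⟨s, hs⟩ else 0) (by
    rw [← hg, ← Finset.sum_coe_sort T]
    refine Finset.sum_congr rfl fun s _ => ?_
    simp) σ.1 σ.2
  simpa using this

section
variable {α : Type} [DecidableEq α] {P P' : Finset α → Prop} {Y Y' : Set α} {a : α}

omit [DecidableEq α] in
lemma cl_trans (h : Cl P Y a) (hP : ∀ q, P q → P' q) (hY : ∀ b ∈ Y, Cl P' Y' b) : Cl P' Y' a := by
  induction h with
  | base h => exact hY _ h
  | step hq ha _ ih => exact .step (hP _ hq) ha ih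

omit [DecidableEq α] in
lemma cl_first (h : Cl P Y a) (ha : a ∉ Y) :
    ∃ q b, P q ∧ b ∈ q ∧ b ∉ Y ∧ ∀ c ∈ q, c ≠ b → c ∈ Y := by
  induction h with
  | base h => exact (ha h).elim
  | @step q a hq haq _ ih =>
    by_cases h : ∀ c ∈ q, c ≠ a → c ∈ Y
    · exact ⟨q, a, hq, haq, ha, h⟩
    · push Not at h
      obtain ⟨c, h1, h2, h3⟩ := h
      exact ih c h1 h2 h3

end

/-- The complement of a face. -/
def co (σ : Finset (Fin n)) : Finset ℕ := σᶜ.map Fin.valEmbedding

lemma co_sub {σ ρ : Finset (Fin n)} : co σ ⊆ co ρ ↔ ρ ⊆ σ := by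
  rw [co, co, map_subset_map, compl_subset_compl]

lemma co_inj {σ ρ : Finset (Fin n)} : co σ = co ρ ↔ σ = ρ := by
  rw [co, co, map_inj, compl_inj_iff]

lemma co_card (σ : Finset (Fin n)) : (co σ).card + σ.card = n := by
  rw [co, card_map, card_compl_add_card, Fintype.card_fin]

lemma co_range (σ : Finset (Fin n)) : co σ ⊆ range n := by
  intro x hx
  obtain ⟨i, -, rfl⟩ := mem_map.1 hx
  exact mem_range.2 i.2

lemma co_surj {s : Finset ℕ} (hs : s ⊆ range n) : ∃ σ : Finset (Fin n), co σ = s := by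
  refine ⟨univ.filter fun i => i.1 ∉ s, ?_⟩
  ext x
  simp only [co, mem_map, mem_compl, mem_filter, mem_univ, true_and, not_not, Fin.valEmbedding_apply]
  exact ⟨fun ⟨i, hi, e⟩ => e ▸ hi, fun h => ⟨⟨x, mem_range.1 (hs h)⟩, h, rfl⟩⟩

lemma co_mem {σ : Finset (Fin n)} (hn : 6 ≤ n) : co σ ∈ Om n ↔ σ.card = n - 4 + 1 := by
  have := co_card σ
  rw [Om, mem_powersetCard, and_iff_right (co_range σ)]
  omega

/-- The triples whose complement is not a face. -/
def du (T : Finset (Finset (Fin n))) : Finset (Finset ℕ) := Om n \ T.image co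

lemma mem_du {T : Finset (Finset (Fin n))} {σ : Finset (Fin n)} :
    co σ ∈ du T ↔ co σ ∈ Om n ∧ σ ∉ T := by
  simp [du, co_inj]

lemma om_co {a : Finset ℕ} (ha : a ∈ Om n) : ∃ σ : Finset (Fin n), co σ = a :=
  co_surj (mem_powersetCard.1 ha).1

lemma perc_of (hn : 6 ≤ n) {T : Finset (Finset (Fin n))} (h : Collapsible (n - 4) T) :
    ∀ a ∈ Om n, Cl (Qn n) (du T : Set (Finset ℕ)) a := by
  induction h with
  | empty => exact fun a ha => .base (by simpa [du] using ha)
  | step T σ ρ hσ hρ hsub huniq _ ih =>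
    refine fun a ha => cl_trans (ih a ha) (fun _ => id) fun b hb => ?_
    obtain ⟨τ, rfl⟩ := om_co (mem_sdiff.1 hb).1
    rw [mem_coe, mem_du] at hb
    by_cases e : τ = σ
    · subst e
      have := co_card ρ
      refine .step ⟨co ρ, co_range ρ, by omega, rfl⟩ (mem_powersetCard.2
        ⟨co_sub.2 hsub, (mem_powersetCard.1 hb.1).2⟩) fun c hc hne => .base ?_
      have h1 : c ∈ Om n := powersetCard_mono (co_range ρ) hc
      obtain ⟨τ', rfl⟩ := om_co h1
      exact mem_du.2 ⟨h1, fun h => hne (by rw [huniq τ' h (co_sub.1 (mem_powersetCard.1 hc).1)])⟩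
    · exact .base (mem_du.2 ⟨hb.1, fun h => hb.2 (mem_erase.2 ⟨e, h⟩)⟩)

lemma coll_of (hn : 6 ≤ n) (m : ℕ) : ∀ T : Finset (Finset (Fin n)), T.card = m →
    (∀ σ ∈ T, σ.card = n - 4 + 1) → (∀ a ∈ Om n, Cl (Qn n) (du T : Set (Finset ℕ)) a) →
    Collapsible (n - 4) T := by
  induction m with
  | zero => exact fun T hT _ _ => card_eq_zero.1 hT ▸ .empty
  | succ m ih =>
    intro T hT hc hp
    obtain ⟨τ, hτ⟩ := card_pos.1 (m.succ_pos.trans_eq hT.symm)
    obtain ⟨q, b, ⟨s, hs, hs4, rfl⟩, hb, hb', h⟩ :=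
      cl_first (hp _ ((co_mem hn).2 (hc τ hτ))) fun e => (mem_du.1 e).2 hτ
    obtain ⟨ρ, rfl⟩ := co_surj hs
    have h1 : b ∈ Om n := powersetCard_mono hs hb
    obtain ⟨σ, rfl⟩ := om_co h1
    have hσ : σ ∈ T := by_contra fun e => hb' (mem_du.2 ⟨h1, e⟩)
    have := co_card ρ
    refine .step T σ ρ hσ (by omega) (co_sub.1 (mem_powersetCard.1 hb).1)
      (fun σ' h' hs' => by_contra fun e => (mem_du.1 (h (co σ') (mem_powersetCard.2 ⟨co_sub.2 hs',
        (mem_powersetCard.1 ((co_mem hn).2 (hc σ' h'))).2⟩) (mt co_inj.1 e))).2 h')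
      (ih _ (by rw [card_erase_of_mem hσ, hT]; rfl) (fun _ h => hc _ (mem_of_mem_erase h))
        fun a ha => cl_trans (hp a ha) (fun _ => id) fun b hb => .base ?_)
    exact sdiff_subset_sdiff subset_rfl (image_subset_image (erase_subset _ _)) hb

lemma choose3 (hn : 6 ≤ n) : n.choose 3 = (n - 1).choose 2 + (n - 1).choose 3 ∧
    (n - 1).choose (n - 4) = (n - 1).choose 3 := by
  obtain ⟨m, rfl⟩ : ∃ m, n = m + 4 := ⟨n - 4, by omega⟩
  exact ⟨Nat.choose_succ_succ' (m + 3) 2, Nat.choose_symm_add⟩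

lemma exists_T (hn : 6 ≤ n) {R : Finset (Finset ℕ)} (hR : R ⊆ Om n)
    (hc : R.card = (n - 1).choose 2) (hp : ∀ a ∈ Om n, Cl (Qn n) (R : Set (Finset ℕ)) a) :
    ∃ T : Finset (Finset (Fin n)), du T = R ∧ IsHypertree n (n - 4) T ∧ Collapsible (n - 4) T := by
  let T : Finset (Finset (Fin n)) := univ.filter fun σ => co σ ∈ Om n \ R
  have h1 : T.image co = Om n \ R := by
    ext a
    simp only [T, mem_image, mem_filter, mem_univ, true_and]
    refine ⟨fun ⟨σ, h, e⟩ => e ▸ h, fun h => ?_⟩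
    obtain ⟨σ, rfl⟩ := om_co (mem_sdiff.1 h).1
    exact ⟨σ, h, rfl⟩
  have h2 : du T = R := by rw [du, h1, Finset.sdiff_sdiff_eq_self hR]
  have h3 : ∀ σ ∈ T, σ.card = n - 4 + 1 := fun σ h =>
    (co_mem hn).1 (mem_sdiff.1 (mem_filter.1 h).2).1
  have h4 := coll_of hn _ T rfl h3 (h2 ▸ hp)
  refine ⟨T, h2, ⟨h3, lin_indep h4 h3, ?_⟩, h4⟩
  have h5 := card_sdiff_add_card_eq_card hR
  rw [← h1, card_image_of_injective _ fun _ _ => co_inj.1, hc, Om, card_powersetCard,
    card_range] at h5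
  have := choose3 hn
  omega

end DUAL

open DUAL in
theorem dual : DUAL_s := by
  rintro n hn hd G hG hp ⟨R, hR⟩ ⟨t, ht, htG⟩ hcl
  obtain ⟨T, hT, h1, h2⟩ := exists_T hn (hR.1.trans hG) hR.2.1 fun a ha =>
    cl_trans (hp a ha) (fun _ => id) fun b hb =>
      cl_trans (hR.2.2 b hb) (fun _ h => h.1) fun _ => .base
  obtain ⟨v, hv⟩ := card_pos.1 ((Nat.succ_pos 2).trans_eq (mem_powersetCard.1 ht).2.symm)
  have hvn : v ∈ range n := (mem_powersetCard.1 ht).1 hv
  obtain ⟨T', hT', h3, h4⟩ := exists_T hn (filter_subset (v ∈ ·) (Om n)) (by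
      have e : (Om n).filter (v ∉ ·) = powersetCard 3 ((range n).erase v) := by
        ext a
        simp only [Om, mem_filter, mem_powersetCard, subset_erase]
        tauto
      have := card_filter_add_card_filter_not (s := Om n) (v ∈ ·)
      rw [e, card_powersetCard, card_erase_of_mem hvn, card_range, Om, card_powersetCard,
        card_range] at this
      have := choose3 hn
      rw [Om]
      omega) fun a ha => by
    by_cases h : v ∈ a
    · exact .base (mem_filter.2 ⟨ha, h⟩)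
    obtain ⟨a1, a2⟩ := mem_powersetCard.1 ha
    have a3 := insert_subset hvn a1
    refine .step ⟨insert v a, a3, by rw [card_insert_of_notMem h, a2], rfl⟩
      (mem_powersetCard.2 ⟨subset_insert _ _, a2⟩) fun b hb hne =>
        .base (mem_filter.2 ⟨powersetCard_mono a3 hb, by_contra fun e => hne ?_⟩)
    obtain ⟨b1, b2⟩ := mem_powersetCard.1 hb
    exact eq_of_subset_of_card_le ((subset_insert_iff_of_notMem e).1 b1) (by omega)
  refine ⟨T, T', h1, h2, h3, h4, fun h => ?_⟩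
  have key : InS (sysN n hd) G (du T') := by
    clear h3 h4 hT'
    induction h with
    | refl => exact hT ▸ hR
    | @tail A B _ hx ih =>
      obtain ⟨hA, -, hB, hB', τ, hτ, σ, hσ, rfl⟩ := hx
      have a1 := (co_mem hn).2 (hA.1 τ hτ)
      have a2 := (co_mem hn).2 (hB.1 σ (mem_insert_self _ _))
      have e : du (insert σ (A.erase τ)) = insert (co τ) ((du A).erase (co σ)) := by
        ext a
        refine ⟨fun h => ?_, fun h => ?_⟩
        · obtain ⟨ρ, rfl⟩ := om_co (mem_sdiff.1 h).1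
          simp only [mem_du, mem_insert, mem_erase, co_inj, ne_eq] at h ⊢
          tauto
        · have : a ∈ Om n := by
            rcases mem_insert.1 h with rfl | h
            exacts [a1, (mem_sdiff.1 (mem_of_mem_erase h)).1]
          obtain ⟨ρ, rfl⟩ := om_co this
          simp only [mem_du, mem_insert, mem_erase, co_inj, ne_eq] at h ⊢
          refine ⟨this, ?_⟩
          rcases h with rfl | h
          · rintro (rfl | h)
            exacts [hσ hτ, h.1 rfl]
          · tauto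
      have h5 := perc_of hn hB'
      rw [e] at h5 ⊢
      exact hcl _ ih _ (mem_du.2 ⟨a2, hσ⟩) _ a1 (fun h => (mem_du.1 h).2 hτ) h5
  exact htG (key.1 (hT' ▸ mem_filter.2 ⟨ht, hv⟩))

end Pool.Agent.MP_797bdc_co.Lk
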