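/-! Primitive operations for the kernel checks (no imports). -/

namespace Pool.Agent.MP_797bdc_co.Lk

open Nat (add mul sub land lor shiftRight shiftLeft ble beq)

noncomputable section

def an (a b : Bool) : Bool := Bool.rec false b a
def orr (a b : Bool) : Bool := Bool.rec b true a
def cb (c a b : Bool) : Bool := Bool.rec b a c
def cn (c : Bool) (a b : Nat) : Nat := Bool.rec b a c
/-- evaluate `x`, then go on -/
def fb (x : Nat) (f : Nat → Bool) : Bool := Nat.rec false (fun k _ => f k) (add x (nat_lit 1))
def bt (x i w : Nat) : Nat := land (shiftRight x i) w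
/-- bit test -/
def tb (x i : Nat) : Bool := beq (land (shiftRight x i) (nat_lit 1)) (nat_lit 1)
def p2 (i : Nat) : Nat := shiftLeft (nat_lit 1) i
def lt (a b : Nat) : Bool := ble (add a (nat_lit 1)) b
def al (n : Nat) (f : Nat → Bool) : Bool := Nat.rec true (fun k ih => an (f k) ih) n

/-- search tree of numbers -/
inductive BT
  | lf (x : Nat)
  | nd (k : Nat) (l r : BT)

def BT.get (t : BT) (i : Nat) : Nat :=
  BT.rec (fun x => x) (fun k _ _ l r => Bool.rec l r (ble k i)) t

/-- zone record: four hubs, length, rim -/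
def zc (z i : Nat) : Nat := bt z (mul i (nat_lit 9)) (nat_lit 511)
def zl (z : Nat) : Nat := bt z (nat_lit 36) (nat_lit 511)
def zr (z p : Nat) : Nat := bt z (add (mul p (nat_lit 9)) (nat_lit 45)) (nat_lit 511)
/-- node record `p` of a zone: 256 bits `Fo`, 256 bits `Fu`, 16 bits rank, 48 bits witness -/
def nrec (f p : Nat) : Nat := bt f (mul p (nat_lit 576)) (sub (p2 (nat_lit 576)) (nat_lit 1))
def nfo (r : Nat) : Nat := land r (nat_lit 0xffffffffffffffffffffffffffffffffffffffffffffffffffffffffffffffff)
def nfu (r : Nat) : Nat := bt r (nat_lit 256) (nat_lit 0xffffffffffffffffffffffffffffffffffffffffffffffffffffffffffffffff)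
def nnr (r : Nat) : Nat := bt r (nat_lit 512) (nat_lit 65535)

end

end Pool.Agent.MP_797bdc_co.Lk
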