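import Pool.Agent.MP_797bdc_co.Lk.Rep
import Pool.Agent.MP_797bdc_co.Lk.Prim

/-! Data access shared by the kernel checks. -/

namespace Pool.Agent.MP_797bdc_co.Lk

open Nat (add mul sub land lor shiftRight shiftLeft ble beq)

noncomputable section

open Classical in
/-- the label of a face: `2 (j + 1)` inside zone `j`, `2 (j + 1) + 1` at its poles -/
def labZ (Z : Zn) (f : Finset ℕ) : ℕ :=
  if h : ∃ j < Z.J, (∃ p i, p + 1 < Z.L j ∧ i < 4 ∧ f = Z.rf j p i) ∨
      ∃ p i, Z.Node j p ∧ i < 4 ∧ f = Z.nf j p i then 2 * (h.choose + 1)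
  else if h : ∃ j < Z.J, ∃ p < Z.L j, ∃ i < 4, f = Z.nf j p i then 2 * (h.choose + 1) + 1 else 0

def preZ (n J : ℕ) (tZ tF : BT) (SK : ℕ) : Zn where
  J := J
  c j i := zc (tZ.get j) i
  L j := zl (tZ.get j)
  rim j p := zr (tZ.get j) p
  lab _ := 0
  Sk x y := x < n ∧ y < n ∧ SK.testBit (n * x + y) = true
  Fo j p k := (nfo (nrec (tF.get j) p)).testBit k = true
  Fu j p k := (nfu (nrec (tF.get j) p)).testBit k = true
  nrk j p := nnr (nrec (tF.get j) p)

/-- The zone structure given by the data. -/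
def mkZ (n J : ℕ) (tZ tF : BT) (SK : ℕ) : Zn :=
  { preZ n J tZ tF SK with lab := labZ (preZ n J tZ tF SK) }

end

theorem an_iff {a b : Bool} : an a b = true ↔ a = true ∧ b = true := by
  cases a <;> cases b <;> simp [an]
theorem orr_iff {a b : Bool} : orr a b = true ↔ a = true ∨ b = true := by
  cases a <;> cases b <;> simp [orr]
theorem cb_eq (c a b : Bool) : cb c a b = if c = true then a else b := by cases c <;> rfl
theorem cn_eq (c : Bool) (a b : ℕ) : cn c a b = if c = true then a else b := by cases c <;> rfl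
theorem fb_eq (x : ℕ) (f : ℕ → Bool) : fb x f = f x := rfl
theorem bt_eq (x i w : ℕ) : bt x i w = (x >>> i) &&& w := rfl
theorem tb_eq (x i : ℕ) : tb x i = x.testBit i := by
  have h : tb x i = ((x >>> i) &&& 1 == 1) := by
    rw [Bool.eq_iff_iff, beq_iff_eq]; exact Nat.beq_eq.to_iff
  rw [h, Nat.testBit, Nat.and_comm, Nat.one_and_eq_mod_two]
  rcases Nat.mod_two_eq_zero_or_one (x >>> i) with h | h <;> simp [h]
theorem p2_eq (i : ℕ) : p2 i = 2 ^ i := Nat.one_shiftLeft i
theorem lt_iff {a b : ℕ} : lt a b = true ↔ a < b := Nat.ble_eq.to_iff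
theorem al_iff {n : ℕ} {f : ℕ → Bool} : al n f = true ↔ ∀ k < n, f k = true := by
  induction n with
  | zero => simp [al]
  | succ n ih =>
    have h : al (n + 1) f = an (f n) (al n f) := rfl
    rw [h, an_iff, ih, Nat.forall_lt_succ_right, and_comm]

end Pool.Agent.MP_797bdc_co.Lk
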