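import Pool.Agent.MP_797bdc_co.Lk.BI

/-! Outer products and column vectors of bit matrices with stride `n`. -/

namespace Pool.Agent.MP_797bdc_co.Lk

/-- The number with rows `f 0, …, f (k - 1)`, each of width `n`. -/
def matR (n : ℕ) (f : ℕ → ℕ) : ℕ → ℕ
  | 0 => 0
  | k + 1 => 2 ^ (n * k) * f k + matR n f k

theorem matR_lt {n : ℕ} {f : ℕ → ℕ} (hf : ∀ c, f c < 2 ^ n) (k : ℕ) :
    matR n f k < 2 ^ (n * k) := by
  induction k with
  | zero => simp [matR]
  | succ k ih =>
    have h1 : 2 ^ (n * k) * (f k + 1) ≤ 2 ^ (n * k) * 2 ^ n := Nat.mul_le_mul_left _ (hf k)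
    rw [matR, Nat.mul_succ, pow_add]
    rw [Nat.mul_succ] at h1
    omega

theorem matR_bit {n : ℕ} {f : ℕ → ℕ} (hf : ∀ c, f c < 2 ^ n) (k c d : ℕ) (hd : d < n) :
    (matR n f k).testBit (n * c + d) = (decide (c < k) && (f c).testBit d) := by
  induction k with
  | zero => simp [matR]
  | succ k ih =>
    rw [matR, Nat.testBit_two_pow_mul_add _ (matR_lt hf k)]
    rcases lt_trichotomy c k with h | h | h
    · have h1 : n * (c + 1) ≤ n * k := Nat.mul_le_mul_left _ h
      rw [Nat.mul_succ] at h1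
      rw [if_pos (by omega), ih]
      simp [h, Nat.lt_succ_of_lt h]
    · subst h
      rw [if_neg (by omega)]
      simp
    · have h1 : n * (k + 1) ≤ n * c := Nat.mul_le_mul_left _ h
      rw [Nat.mul_succ] at h1
      rw [if_neg (by omega), Nat.testBit_eq_false_of_lt
        (lt_of_lt_of_le (hf k) (Nat.pow_le_pow_right (by norm_num) (by omega)))]
      have : ¬ c < k + 1 := by omega
      simp [this]

theorem matR_mul (n : ℕ) (f : ℕ → ℕ) (D k : ℕ) :
    matR n f k * D = matR n (fun c => f c * D) k := by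
  induction k with
  | zero => simp [matR]
  | succ k ih => rw [matR, matR, ← ih]; ring

theorem matR_geom (n k : ℕ) : matR n (fun _ => 1) k * (2 ^ n - 1) + 1 = 2 ^ (n * k) := by
  obtain ⟨m, hm⟩ : ∃ m, 2 ^ n = m + 1 := ⟨2 ^ n - 1, by have := Nat.one_le_two_pow (n := n); omega⟩
  induction k with
  | zero => simp [matR]
  | succ k ih =>
    rw [matR, Nat.mul_succ n k, pow_add, add_mul, add_assoc, ih, hm]
    simp only [Nat.add_sub_cancel]
    ring

theorem matR_spr {n : ℕ} (hn : 0 < n) (f : ℕ → ℕ) (C : ℕ) (h1 : ∀ c, f c ≤ 1)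
    (h2 : ∀ c < n, f c = 1 ↔ C.testBit c = true) : Spr n (matR n f n) C := by
  have hf : ∀ c, f c < 2 ^ n := fun c => lt_of_le_of_lt (h1 c) (Nat.one_lt_two_pow (by omega))
  intro i
  constructor
  · intro h
    rw [← Nat.div_add_mod i n, matR_bit hf _ _ _ (Nat.mod_lt _ hn)] at h
    simp only [Bool.and_eq_true, decide_eq_true_eq] at h
    obtain ⟨hc, hb⟩ := h
    have e : f (i / n) = 1 := by
      rcases Nat.le_one_iff_eq_zero_or_eq_one.1 (h1 (i / n)) with e | e
      · rw [e] at hb; simp at hb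
      · exact e
    rw [e, Nat.testBit_one_eq_true_iff_self_eq_zero] at hb
    refine ⟨i / n, hc, ?_, (h2 _ hc).1 e⟩
    have := Nat.div_add_mod i n
    omega
  · rintro ⟨c, hc, rfl, hb⟩
    have := matR_bit hf n c 0 hn
    rw [add_zero] at this
    rw [this, (h2 c hc).2 hb]
    simp [hc]

theorem spr_uniq {n S S' C : ℕ} (h : Spr n S C) (h' : Spr n S' C) : S = S' :=
  Nat.eq_of_testBit_eq fun i => Bool.eq_iff_iff.2 ((h i).trans (h' i).symm)

theorem mat : MAT_s := by
  intro n hn
  refine ⟨?_, ?_, ?_, ?_, ?_, ?_, ?_⟩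
  · intro S C D hS hD c d hd
    have h := matR_spr hn (fun c => if C.testBit c = true then 1 else 0) C
      (fun c => by split_ifs <;> omega) (fun c _ => by split_ifs with h <;> simp [h])
    rw [spr_uniq hS h, matR_mul, matR_bit (fun c => by
      split_ifs
      · simpa using hD
      · simp) _ _ _ hd]
    by_cases hb : C.testBit c = true <;> simp [hb]
  · intro S C S' C' h h' i
    rw [Nat.testBit_or, Bool.or_eq_true, h i, h' i]
    constructor
    · rintro (⟨c, hc, e, hb⟩ | ⟨c, hc, e, hb⟩) <;> exact ⟨c, hc, e, by simp [hb]⟩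
    · rintro ⟨c, hc, e, hb⟩
      rw [Nat.testBit_or, Bool.or_eq_true] at hb
      exact hb.imp (fun hb => ⟨c, hc, e, hb⟩) (fun hb => ⟨c, hc, e, hb⟩)
  · intro c hc i
    simp only [Nat.testBit_two_pow, decide_eq_true_eq]
    constructor
    · rintro rfl
      exact ⟨c, hc, rfl, rfl⟩
    · rintro ⟨c', -, rfl, rfl⟩
      rfl
  · intro i
    simp
  · have h1 : 0 < 2 ^ n - 1 := by
      have := Nat.one_lt_two_pow (n := n) (by omega)
      omega
    have e : (2 ^ (n * n) - 1) / (2 ^ n - 1) = matR n (fun _ => 1) n := by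
      rw [← matR_geom n n, Nat.add_sub_cancel, Nat.mul_div_cancel _ h1]
    rw [e]
    exact matR_spr hn _ _ (fun _ => le_rfl) (fun c hc => by simp [hc])
  · intro M hM a ha b hb O hO i
    rw [Nat.testBit_and, Bool.and_eq_true, hO i, Nat.testBit_shiftRight]
    constructor
    · rintro ⟨h, c, hc, rfl, -⟩
      refine ⟨c, hc, rfl, ?_⟩
      have h' : bit n M a c b = true := by rwa [bit, add_comm]
      have := (hM.2 a ha c hc b hb h').2.2.2.2
      rw [bit] at this
      simp [this, hc]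
    · rintro ⟨c, hc, rfl, h⟩
      rw [Nat.testBit_and, Bool.and_eq_true, Nat.testBit_shiftRight] at h
      have := (hM.2 a ha b hb c hc h.1).2.2.2.2
      rw [bit, add_comm] at this
      exact ⟨this, c, hc, rfl, h.2⟩
  · intro m r d hd
    simp [hd]

end Pool.Agent.MP_797bdc_co.Lk
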