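import Pool.Agent.MP_797bdc_co.Lk.DD
import Pool.Agent.MP_797bdc_co.Lk.DM
import Pool.Agent.MP_797bdc_co.Lk.DZ

/-! Dead quads: kernel run. -/

namespace Pool.Agent.MP_797bdc_co.Lk.Da

theorem rD : H.dall n tM.get s2 s7 s8 DL = true := by decide +kernel

end Pool.Agent.MP_797bdc_co.Lk.Da
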