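import Pool.Agent.MP_797bdc_co.Lk.DH

namespace Pool.Agent.MP_797bdc_co.Lk.H

noncomputable section

set_option maxRecDepth 100000
set_option linter.defProp false

noncomputable def cP0_0 : Ch SP (nat_lit 10041) (nat_lit 0) (nat_lit 10247) (nat_lit 0) :=
  sP Ch.nil (nat_lit 10247) (nat_lit 134) (nat_lit 0x20405030502070a0c0206020303020403020201010101010101010101010101010101010101010101010101010101010101010101010101010101010301010101010101030101010101010101010101010101010101010101010403010101010101010103010102010101010101010101010101010101010101010101010101010101010101) (by decide +kernel)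
noncomputable def cP0_1 : Ch SP (nat_lit 10041) (nat_lit 0) (nat_lit 10374) (nat_lit 0) :=
  sP cP0_0 (nat_lit 10374) (nat_lit 33) (nat_lit 0x704020b05050203030304040202020604020b0304020203030202070402060302) (by decide +kernel)
noncomputable def cP0_2 : Ch SP (nat_lit 10041) (nat_lit 0) (nat_lit 10454) (nat_lit 0) :=
  sP cP0_1 (nat_lit 10454) (nat_lit 17) (nat_lit 0x702020203040402020303091104020c02) (by decide +kernel)
noncomputable def cP0_3 : Ch SP (nat_lit 10041) (nat_lit 0) (nat_lit 10571) (nat_lit 0) :=
  sP cP0_2 (nat_lit 10571) (nat_lit 29) (nat_lit 0x20303020209070404020204020a090406030507020202020402020704) (by decide +kernel)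
noncomputable def cP0_4 : Ch SP (nat_lit 10041) (nat_lit 0) (nat_lit 10703) (nat_lit 0) :=
  sP cP0_3 (nat_lit 10703) (nat_lit 35) (nat_lit 0x30402030605080502020404020b030202020306060404020202070403060202040302) (by decide +kernel)
noncomputable def cP0_5 : Ch SP (nat_lit 10041) (nat_lit 0) (nat_lit 10835) (nat_lit 0) :=
  sP cP0_4 (nat_lit 10835) (nat_lit 31) (nat_lit 0x90907040504030305060405040202030a0503020203020304050202030704) (by decide +kernel)
noncomputable def cP0_6 : Ch SP (nat_lit 10041) (nat_lit 0) (nat_lit 10947) (nat_lit 0) :=
  sP cP0_5 (nat_lit 10947) (nat_lit 25) (nat_lit 0x40603020208060902020206070205040408030203050a0403) (by decide +kernel)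
noncomputable def cP0_7 : Ch SP (nat_lit 10041) (nat_lit 0) (nat_lit 11047) (nat_lit 0) :=
  sP cP0_6 (nat_lit 11047) (nat_lit 22) (nat_lit 0x8020302030e0506030406060a020206060203020203) (by decide +kernel)
noncomputable def cP0_8 : Ch SP (nat_lit 10041) (nat_lit 0) (nat_lit 11153) (nat_lit 0) :=
  sP cP0_7 (nat_lit 11153) (nat_lit 26) (nat_lit 0x502060505030203030502100402060406090203020202020302) (by decide +kernel)
noncomputable def cP0_9 : Ch SP (nat_lit 10041) (nat_lit 0) (nat_lit 11265) (nat_lit 0) :=
  sP cP0_8 (nat_lit 11265) (nat_lit 26) (nat_lit 0xd05050406020204020202020704050203030403050403030b06) (by decide +kernel)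
noncomputable def cP0_10 : Ch SP (nat_lit 10041) (nat_lit 0) (nat_lit 11436) (nat_lit 0) :=
  sP cP0_9 (nat_lit 11436) (nat_lit 52) (nat_lit 0x8040303020302020302080502030404040202020203020202020202050407040602020603050202040203030203060504020202) (by decide +kernel)
noncomputable def cP0_11 : Ch SP (nat_lit 10041) (nat_lit 0) (nat_lit 11554) (nat_lit 0) :=
  sP cP0_10 (nat_lit 11554) (nat_lit 27) (nat_lit 0x60302030b06040607060302040503090406030304050202050202) (by decide +kernel)
noncomputable def cP0_12 : Ch SP (nat_lit 10041) (nat_lit 0) (nat_lit 11725) (nat_lit 0) :=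
  sP cP0_11 (nat_lit 11725) (nat_lit 53) (nat_lit 0x702020402020207040403020303030302060202020404020202020202030203030203020202040403040302030404030406090306) (by decide +kernel)
noncomputable def cP0_13 : Ch SP (nat_lit 10041) (nat_lit 0) (nat_lit 11863) (nat_lit 0) :=
  sP cP0_12 (nat_lit 11863) (nat_lit 38) (nat_lit 0x604030202020203020302020202040309050902050304040202090705050203030204030402) (by decide +kernel)
noncomputable def cP0_14 : Ch SP (nat_lit 10041) (nat_lit 0) (nat_lit 12037) (nat_lit 0) :=
  sP cP0_13 (nat_lit 12037) (nat_lit 58) (nat_lit 0x4060303090202020303020203020702030303020304030402020203020303030403020402020206070302030202020205020204020202030202) (by decide +kernel)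
noncomputable def cP0_15 : Ch SP (nat_lit 10041) (nat_lit 0) (nat_lit 12204) (nat_lit 0) :=
  sP cP0_14 (nat_lit 12204) (nat_lit 48) (nat_lit 0xa0603020506020403020303050203030205050305040205030606050203020205020403040202020302020203050202) (by decide +kernel)
noncomputable def cP0_16 : Ch SP (nat_lit 10041) (nat_lit 0) (nat_lit 12304) (nat_lit 0) :=
  sP cP0_15 (nat_lit 12304) (nat_lit 23) (nat_lit 0x50b03030e020302050305060404030203020203030a02) (by decide +kernel)
noncomputable def cP0_17 : Ch SP (nat_lit 10041) (nat_lit 0) (nat_lit 12480) (nat_lit 0) :=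
  sP cP0_16 (nat_lit 12480) (nat_lit 54) (nat_lit 0x40303020404050303040403020802050405030204040303020303020203030404020302040202040203020302060304040302030205) (by decide +kernel)
noncomputable def cP0_18 : Ch SP (nat_lit 10041) (nat_lit 0) (nat_lit 12601) (nat_lit 0) :=
  sP cP0_17 (nat_lit 12601) (nat_lit 30) (nat_lit 0x6070b060502030402020604020903020202070802020405020303020203) (by decide +kernel)
noncomputable def cP0_19 : Ch SP (nat_lit 10041) (nat_lit 0) (nat_lit 12744) (nat_lit 0) :=
  sP cP0_18 (nat_lit 12744) (nat_lit 41) (nat_lit 0x6040302020302050402020302030203050a0302030202020303060203050302090302020208030307) (by decide +kernel)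
noncomputable def cP0_20 : Ch SP (nat_lit 10041) (nat_lit 0) (nat_lit 12876) (nat_lit 0) :=
  sP cP0_19 (nat_lit 12876) (nat_lit 34) (nat_lit 0xb02020207030302040d050305030402020502020203050304030403060403040204) (by decide +kernel)
noncomputable def cP0_21 : Ch SP (nat_lit 10041) (nat_lit 0) (nat_lit 13031) (nat_lit 0) :=
  sP cP0_20 (nat_lit 13031) (nat_lit 46) (nat_lit 0x4060302020202020203020402040402020203090303040303030703030402050303070303040302020403080302) (by decide +kernel)
noncomputable def cP0_22 : Ch SP (nat_lit 10041) (nat_lit 0) (nat_lit 13210) (nat_lit 0) :=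
  sP cP0_21 (nat_lit 13210) (nat_lit 57) (nat_lit 0x60502030202040502030202020202030205030206020402020306030203030203050202030204020202030404020202050505020402080304) (by decide +kernel)
noncomputable def cP0_23 : Ch SP (nat_lit 10041) (nat_lit 0) (nat_lit 13387) (nat_lit 0) :=
  sP cP0_22 (nat_lit 13387) (nat_lit 57) (nat_lit 0x30202020302030403080202040203040302050704040402040204020203020202030504040202020302030204060302020304050302030203) (by decide +kernel)
noncomputable def cP0_24 : Ch SP (nat_lit 10041) (nat_lit 0) (nat_lit 13571) (nat_lit 0) :=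
  sP cP0_23 (nat_lit 13571) (nat_lit 59) (nat_lit 0x503050202030404040505020202020303020302050202030202020302020202040202030202040504030404050604050302020402030304050302) (by decide +kernel)
noncomputable def cP0_25 : Ch SP (nat_lit 10041) (nat_lit 0) (nat_lit 13728) (nat_lit 0) :=
  sP cP0_24 (nat_lit 13728) (nat_lit 45) (nat_lit 0x40503040303040603030304060304020205020202020602030605030606030203080204020202030302020304) (by decide +kernel)
noncomputable def cP0_26 : Ch SP (nat_lit 10041) (nat_lit 0) (nat_lit 13854) (nat_lit 0) :=
  sP cP0_25 (nat_lit 13854) (nat_lit 34) (nat_lit 0x10020304060202020205020602040202020905070202070503020203020203020303) (by decide +kernel)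
noncomputable def cP0_27 : Ch SP (nat_lit 10041) (nat_lit 0) (nat_lit 14030) (nat_lit 0) :=
  sP cP0_26 (nat_lit 14030) (nat_lit 54) (nat_lit 0x80205040203020503020203020307060302030203020206030203040202030405020503030405050403020202030202060402030202) (by decide +kernel)
noncomputable def cP0_28 : Ch SP (nat_lit 10041) (nat_lit 0) (nat_lit 14175) (nat_lit 0) :=
  sP cP0_27 (nat_lit 14175) (nat_lit 39) (nat_lit 0x80602030303030205030305070505040302050504050402020206020203050302020703030204) (by decide +kernel)
noncomputable def cP0_29 : Ch SP (nat_lit 10041) (nat_lit 0) (nat_lit 14334) (nat_lit 0) :=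
  sP cP0_28 (nat_lit 14334) (nat_lit 48) (nat_lit 0x40505040602030305050203040402020204050303020407020302030507020202020202050208020202030202030302) (by decide +kernel)
noncomputable def cP0_30 : Ch SP (nat_lit 10041) (nat_lit 0) (nat_lit 14407) (nat_lit 0) :=
  sP cP0_29 (nat_lit 14407) (nat_lit 15) (nat_lit 0x180608020303060202030303030203) (by decide +kernel)
noncomputable def cP0_31 : Ch SP (nat_lit 10041) (nat_lit 0) (nat_lit 14558) (nat_lit 0) :=
  sP cP0_30 (nat_lit 14558) (nat_lit 43) (nat_lit 0xb05030203030303030202020202030305040202050302030302050403040205030203030407020205030b) (by decide +kernel)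
noncomputable def cP0_32 : Ch SP (nat_lit 10041) (nat_lit 0) (nat_lit 14731) (nat_lit 0) :=
  sP cP0_31 (nat_lit 14731) (nat_lit 54) (nat_lit 0x30202020405030305030302020302060302020208040202040404020302030304030205030503030404050202030403060203020302) (by decide +kernel)
noncomputable def cP0_33 : Ch SP (nat_lit 10041) (nat_lit 0) (nat_lit 14857) (nat_lit 0) :=
  sP cP0_32 (nat_lit 14857) (nat_lit 35) (nat_lit 0x2020205070604020202040604020402020206030303030404020202020e0603040302) (by decide +kernel)
noncomputable def cP0_34 : Ch SP (nat_lit 10041) (nat_lit 0) (nat_lit 14964) (nat_lit 0) :=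
  sP cP0_33 (nat_lit 14964) (nat_lit 31) (nat_lit 0x5020202020512020202020804030305030402050202030203030202020203) (by decide +kernel)
noncomputable def cP0_35 : Ch SP (nat_lit 10041) (nat_lit 0) (nat_lit 15125) (nat_lit 0) :=
  sP cP0_34 (nat_lit 15125) (nat_lit 45) (nat_lit 0x60202020406020204030304030404020503020304030403050505060304020702050202020304050603040204) (by decide +kernel)
noncomputable def cP0_36 : Ch SP (nat_lit 10041) (nat_lit 0) (nat_lit 15272) (nat_lit 0) :=
  sP cP0_35 (nat_lit 15272) (nat_lit 41) (nat_lit 0x303030304040207020202020905020205030203020504020304040303050802030605020205020405) (by decide +kernel)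
noncomputable def cP0_37 : Ch SP (nat_lit 10041) (nat_lit 0) (nat_lit 15451) (nat_lit 0) :=
  sP cP0_36 (nat_lit 15451) (nat_lit 55) (nat_lit 0x8020502030303040508020302020303040502030202050202040405040303040302030202020303030205020402020305030305020402) (by decide +kernel)
noncomputable def cP0_38 : Ch SP (nat_lit 10041) (nat_lit 0) (nat_lit 15604) (nat_lit 0) :=
  sP cP0_37 (nat_lit 15604) (nat_lit 42) (nat_lit 0x9070206070403020302020203020a030202020303050302050304040203030602050604020302020503) (by decide +kernel)
noncomputable def cP0_39 : Ch SP (nat_lit 10041) (nat_lit 0) (nat_lit 15719) (nat_lit 0) :=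
  sP cP0_38 (nat_lit 15719) (nat_lit 24) (nat_lit 0x1a0303060302080702030308020305040705030302020302) (by decide +kernel)
noncomputable def cP0_40 : Ch SP (nat_lit 10041) (nat_lit 0) (nat_lit 15795) (nat_lit 0) :=
  sP cP0_39 (nat_lit 15795) (nat_lit 15) (nat_lit 0x16040b080504030202020304020202) (by decide +kernel)
noncomputable def cP0_41 : Ch SP (nat_lit 10041) (nat_lit 0) (nat_lit 15890) (nat_lit 0) :=
  sP cP0_40 (nat_lit 15890) (nat_lit 21) (nat_lit 0x8070303030204030205030a030304030402110303) (by decide +kernel)
noncomputable def cP0_42 : Ch SP (nat_lit 10041) (nat_lit 0) (nat_lit 15985) (nat_lit 0) :=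
  sP cP0_41 (nat_lit 15985) (nat_lit 20) (nat_lit 0x1505080304020202040603070a02030204030202) (by decide +kernel)
noncomputable def cP0_43 : Ch SP (nat_lit 10041) (nat_lit 0) (nat_lit 16079) (nat_lit 0) :=
  sP cP0_42 (nat_lit 16079) (nat_lit 18) (nat_lit 0x12040302050307060202060404040502020f) (by decide +kernel)
noncomputable def cP0_44 : Ch SP (nat_lit 10041) (nat_lit 0) (nat_lit 16208) (nat_lit 0) :=
  sP cP0_43 (nat_lit 16208) (nat_lit 36) (nat_lit 0x30202070206020603050b02080507020202040202030204020303020402080203020202) (by decide +kernel)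
noncomputable def cP0_45 : Ch SP (nat_lit 10041) (nat_lit 0) (nat_lit 16296) (nat_lit 0) :=
  sP cP0_44 (nat_lit 16296) (nat_lit 18) (nat_lit 0x1404020205050203030202060b0a04020302) (by decide +kernel)
noncomputable def cP0_46 : Ch SP (nat_lit 10041) (nat_lit 0) (nat_lit 16390) (nat_lit 0) :=
  sP cP0_45 (nat_lit 16390) (nat_lit 21) (nat_lit 0x16030303030203030c050302030405020205020502) (by decide +kernel)
noncomputable def cP0_47 : Ch SP (nat_lit 10041) (nat_lit 0) (nat_lit 16520) (nat_lit 0) :=
  sP cP0_46 (nat_lit 16520) (nat_lit 29) (nat_lit 0x170403030403040203020302020b02020404020203020e070302020606) (by decide +kernel)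
noncomputable def cP0_48 : Ch SP (nat_lit 10041) (nat_lit 0) (nat_lit 16677) (nat_lit 0) :=
  sP cP0_47 (nat_lit 16677) (nat_lit 49) (nat_lit 0xb030305030203020303030306050202020603020302020402020302030202020202030406020203020303030204030507) (by decide +kernel)
noncomputable def cP0_49 : Ch SP (nat_lit 10041) (nat_lit 0) (nat_lit 16793) (nat_lit 0) :=
  sP cP0_48 (nat_lit 16793) (nat_lit 27) (nat_lit 0xc0202020c03020302030603030203020509050302030209090403) (by decide +kernel)
noncomputable def cP0_50 : Ch SP (nat_lit 10041) (nat_lit 0) (nat_lit 16924) (nat_lit 0) :=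
  sP cP0_49 (nat_lit 16924) (nat_lit 37) (nat_lit 0x404060202020202020403030304020404040b02020203020202050302080502020203060a) (by decide +kernel)
noncomputable def cP0_51 : Ch SP (nat_lit 10041) (nat_lit 0) (nat_lit 17074) (nat_lit 0) :=
  sP cP0_50 (nat_lit 17074) (nat_lit 40) (nat_lit 0x8050202020203030404080205040404050202050403030304030304040407060802050203020202) (by decide +kernel)
noncomputable def cP0_52 : Ch SP (nat_lit 10041) (nat_lit 0) (nat_lit 17271) (nat_lit 0) :=
  sP cP0_51 (nat_lit 17271) (nat_lit 70) (nat_lit 0xb020202020202050202020402020204070203040202060203020202030502050203040205030202020202020202040403040202020302020202030403030202030202020202) (by decide +kernel)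
noncomputable def cP0_53 : Ch SP (nat_lit 10041) (nat_lit 0) (nat_lit 17382) (nat_lit 0) :=
  sP cP0_52 (nat_lit 17382) (nat_lit 16) (nat_lit 0x2c040206030505020205030411020502) (by decide +kernel)
noncomputable def cP0_54 : Ch SP (nat_lit 10041) (nat_lit 0) (nat_lit 17565) (nat_lit 0) :=
  sP cP0_53 (nat_lit 17565) (nat_lit 57) (nat_lit 0xd0302040404030204030302020404020305020202060202030202030302020202070902020402050203020202030402030203020302040603) (by decide +kernel)
noncomputable def cP0_55 : Ch SP (nat_lit 10041) (nat_lit 0) (nat_lit 17749) (nat_lit 0) :=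
  sP cP0_54 (nat_lit 17749) (nat_lit 65) (nat_lit 0x602020203020302020204020202020402040602020206020309020203020202020402030303020202020202020202040207020202030202060304030202060202) (by decide +kernel)
noncomputable def cP0_56 : Ch SP (nat_lit 10041) (nat_lit 0) (nat_lit 17931) (nat_lit 0) :=
  sP cP0_55 (nat_lit 17931) (nat_lit 60) (nat_lit 0x70302020303040202040303040202020303040203040303030203020204050302020504020208020602020202060605020302020202030202020203) (by decide +kernel)
noncomputable def cP0_57 : Ch SP (nat_lit 10041) (nat_lit 0) (nat_lit 17994) (nat_lit 0) :=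
  sP cP0_56 (nat_lit 17994) (nat_lit 15) (nat_lit 0x180303030203020202040205040202) (by decide +kernel)
noncomputable def cP0_58 : Ch SP (nat_lit 10041) (nat_lit 0) (nat_lit 18045) (nat_lit 0) :=
  sP cP0_57 (nat_lit 18045) (nat_lit 7) (nat_lit 0x190b0203040402) (by decide +kernel)
noncomputable def cP0_59 : Ch SP (nat_lit 10041) (nat_lit 0) (nat_lit 18235) (nat_lit 0) :=
  sP cP0_58 (nat_lit 18235) (nat_lit 67) (nat_lit 0x4020402020402030203020303020203020302020202020202020202020502020305020204040509020303040205040202020305020502020203020202020404020402) (by decide +kernel)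
noncomputable def cP0_60 : Ch SP (nat_lit 10041) (nat_lit 0) (nat_lit 18347) (nat_lit 0) :=
  sP cP0_59 (nat_lit 18347) (nat_lit 33) (nat_lit 0xa0203030302020202050404020503030202020202020402130202020502020302) (by decide +kernel)
noncomputable def cP0_61 : Ch SP (nat_lit 10041) (nat_lit 0) (nat_lit 18441) (nat_lit 0) :=
  sP cP0_60 (nat_lit 18441) (nat_lit 17) (nat_lit 0x3202020203050202050202030202030502) (by decide +kernel)
noncomputable def cP0_62 : Ch SP (nat_lit 10041) (nat_lit 0) (nat_lit 18642) (nat_lit 0) :=
  sP cP0_61 (nat_lit 18642) (nat_lit 72) (nat_lit 0x40204030404030202020302030403030203020302020204030202020902040302020202030303020202030302050203020202020402050302050302030502020203030203020202) (by decide +kernel)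
noncomputable def cP0_63 : Ch SP (nat_lit 10041) (nat_lit 0) (nat_lit 18811) (nat_lit 0) :=
  sP cP0_62 (nat_lit 18811) (nat_lit 52) (nat_lit 0x4030302030204070402030203020203020302030203020202040305030605040302020203040303020407060204020404040206) (by decide +kernel)
noncomputable def cP0_64 : Ch SP (nat_lit 10041) (nat_lit 0) (nat_lit 18987) (nat_lit 0) :=
  sP cP0_63 (nat_lit 18987) (nat_lit 59) (nat_lit 0x403020204020304020206040202020304020502040504040202020204030202020403090503020302020202040203070202020202020302030203) (by decide +kernel)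
noncomputable def cP0_65 : Ch SP (nat_lit 10041) (nat_lit 0) (nat_lit 19184) (nat_lit 0) :=
  sP cP0_64 (nat_lit 19184) (nat_lit 73) (nat_lit 0x5020204020204020402030202030202020502030202020202020204020204020302060202020204020203020203020203020207030202020205020202020405030202020308020202) (by decide +kernel)
noncomputable def cP0_66 : Ch SP (nat_lit 10041) (nat_lit 0) (nat_lit 19361) (nat_lit 0) :=
  sP cP0_65 (nat_lit 19361) (nat_lit 61) (nat_lit 0x6050402030202020602030203040304040203020202030203020202020203030402020404020403020c02020203030402020302030203020203020202) (by decide +kernel)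
noncomputable def cP0_67 : Ch SP (nat_lit 10041) (nat_lit 0) (nat_lit 19545) (nat_lit 0) :=
  sP cP0_66 (nat_lit 19545) (nat_lit 62) (nat_lit 0x404020303040402030202020204020402020203020307020302020303030504020402080404040302030203020202020204060403020202020204020203) (by decide +kernel)
noncomputable def cP0_68 : Ch SP (nat_lit 10041) (nat_lit 0) (nat_lit 19725) (nat_lit 0) :=
  sP cP0_67 (nat_lit 19725) (nat_lit 60) (nat_lit 0x30203020204050202060404030202030704030402020408040202030202030203020203020302040202030304020304020203020502040502020202) (by decide +kernel)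
noncomputable def cP0_69 : Ch SP (nat_lit 10041) (nat_lit 0) (nat_lit 19870) (nat_lit 0) :=
  sP cP0_68 (nat_lit 19870) (nat_lit 43) (nat_lit 0x2030202020202040203020202040408030203030307020204020202030204050b04050302040307050303) (by decide +kernel)
noncomputable def cP0_70 : Ch SP (nat_lit 10041) (nat_lit 0) (nat_lit 20032) (nat_lit 0) :=
  sP cP0_69 (nat_lit 20032) (nat_lit 50) (nat_lit 0x60205020204020203040a020202020407020402040403030204020305020303050303030302020203040304020602020204) (by decide +kernel)
noncomputable def cP0_71 : Ch SP (nat_lit 10041) (nat_lit 0) (nat_lit 20200) (nat_lit 0) :=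
  sP cP0_70 (nat_lit 20200) (nat_lit 56) (nat_lit 0x203020209020302080204020206030202030202020202020302020302020203020202030305050302020502050302050702030303030204) (by decide +kernel)
noncomputable def cP0_72 : Ch SP (nat_lit 10041) (nat_lit 0) (nat_lit 20330) (nat_lit 0) :=
  sP cP0_71 (nat_lit 20330) (nat_lit 37) (nat_lit 0x20205040602030204020303020202020c0206040203040203030302020502020903020805) (by decide +kernel)
noncomputable def cP0_73 : Ch SP (nat_lit 10041) (nat_lit 0) (nat_lit 20423) (nat_lit 0) :=
  sP cP0_72 (nat_lit 20423) (nat_lit 19) (nat_lit 0x906020c050406030304060e04020202020205) (by decide +kernel)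
noncomputable def cP0_74 : Ch SP (nat_lit 10041) (nat_lit 0) (nat_lit 20502) (nat_lit 0) :=
  sP cP0_73 (nat_lit 20502) (nat_lit 14) (nat_lit 0x402080305030203080e04020c09) (by decide +kernel)
noncomputable def cP0_75 : Ch SP (nat_lit 10041) (nat_lit 0) (nat_lit 20623) (nat_lit 0) :=
  sP cP0_74 (nat_lit 20623) (nat_lit 30) (nat_lit 0x8020d070502020302020503030303020202050804040303050704030402) (by decide +kernel)
noncomputable def cP0_76 : Ch SP (nat_lit 10041) (nat_lit 0) (nat_lit 20703) (nat_lit 0) :=
  sP cP0_75 (nat_lit 20703) (nat_lit 12) (nat_lit 0xf0f06090404040204030707) (by decide +kernel)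
noncomputable def cP0_77 : Ch SP (nat_lit 10041) (nat_lit 0) (nat_lit 20795) (nat_lit 0) :=
  sP cP0_76 (nat_lit 20795) (nat_lit 21) (nat_lit 0x402030f040403030302020209040c050503020203) (by decide +kernel)
noncomputable def cP0_78 : Ch SP (nat_lit 10041) (nat_lit 0) (nat_lit 20887) (nat_lit 0) :=
  sP cP0_77 (nat_lit 20887) (nat_lit 21) (nat_lit 0x1208030203020602020d0205020202040304020304) (by decide +kernel)
noncomputable def cP0_79 : Ch SP (nat_lit 10041) (nat_lit 0) (nat_lit 21031) (nat_lit 0) :=
  sP cP0_78 (nat_lit 21031) (nat_lit 40) (nat_lit 0x805020304020202020a050602020302040403020304030205050802040302020206070203030203) (by decide +kernel)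
noncomputable def cP0_80 : Ch SP (nat_lit 10041) (nat_lit 0) (nat_lit 21184) (nat_lit 0) :=
  sP cP0_79 (nat_lit 21184) (nat_lit 41) (nat_lit 0x705090302020304060404040202030502020405040603030302020703070403030302040303020404) (by decide +kernel)
noncomputable def cP0_81 : Ch SP (nat_lit 10041) (nat_lit 0) (nat_lit 21287) (nat_lit 0) :=
  sP cP0_80 (nat_lit 21287) (nat_lit 25) (nat_lit 0x3070404020204081002040202050703040302030303020206) (by decide +kernel)
noncomputable def cP0_82 : Ch SP (nat_lit 10041) (nat_lit 0) (nat_lit 21397) (nat_lit 0) :=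
  sP cP0_81 (nat_lit 21397) (nat_lit 21) (nat_lit 0xe060202020809020409050202030609060402020b) (by decide +kernel)
noncomputable def cP0_83 : Ch SP (nat_lit 10041) (nat_lit 0) (nat_lit 21539) (nat_lit 0) :=
  sP cP0_82 (nat_lit 21539) (nat_lit 35) (nat_lit 0xa02020204030303080707040202070302030606030504050202030207050402050502) (by decide +kernel)
noncomputable def cP0_84 : Ch SP (nat_lit 10041) (nat_lit 0) (nat_lit 21654) (nat_lit 0) :=
  sP cP0_83 (nat_lit 21654) (nat_lit 25) (nat_lit 0x9070407020204060c07060304070202020205020205070303) (by decide +kernel)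
noncomputable def cP0_85 : Ch SP (nat_lit 10041) (nat_lit 0) (nat_lit 21785) (nat_lit 0) :=
  sP cP0_84 (nat_lit 21785) (nat_lit 34) (nat_lit 0xf060604050506040402020202040702020202040202050302040a02040302020202) (by decide +kernel)
noncomputable def cP0_86 : Ch SP (nat_lit 10041) (nat_lit 0) (nat_lit 21930) (nat_lit 0) :=
  sP cP0_85 (nat_lit 21930) (nat_lit 41) (nat_lit 0xe07020903030303050203050404030403020202020205020202020302020603020202030205030802) (by decide +kernel)
noncomputable def cP0_87 : Ch SP (nat_lit 10041) (nat_lit 0) (nat_lit 22093) (nat_lit 0) :=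
  sP cP0_86 (nat_lit 22093) (nat_lit 48) (nat_lit 0x60404030707030205020305020202020203020504020703020504020202060202040402020702030304030303040302) (by decide +kernel)
noncomputable def cP0_88 : Ch SP (nat_lit 10041) (nat_lit 0) (nat_lit 22249) (nat_lit 0) :=
  sP cP0_87 (nat_lit 22249) (nat_lit 49) (nat_lit 0x60202020202020202030c0302040305020206020305020203040202030503020205050202020402060205020402020403) (by decide +kernel)
noncomputable def cP0_89 : Ch SP (nat_lit 10041) (nat_lit 0) (nat_lit 22408) (nat_lit 0) :=
  sP cP0_88 (nat_lit 22408) (nat_lit 49) (nat_lit 0x2040203030606040202020202030303040204040809020305020306040202030502020303020502020202020303040302) (by decide +kernel)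
noncomputable def cP0_90 : Ch SP (nat_lit 10041) (nat_lit 0) (nat_lit 22572) (nat_lit 0) :=
  sP cP0_89 (nat_lit 22572) (nat_lit 51) (nat_lit 0x3030503020304020305020403020202030303040302020205040203030204030403040302030302020602050b050203040202) (by decide +kernel)
noncomputable def cP0_91 : Ch SP (nat_lit 10041) (nat_lit 0) (nat_lit 22721) (nat_lit 0) :=
  sP cP0_90 (nat_lit 22721) (nat_lit 45) (nat_lit 0x50b02020404020202020203060503020203020204020303060402020202020303030305020206040303030902) (by decide +kernel)
noncomputable def cP0_92 : Ch SP (nat_lit 10041) (nat_lit 0) (nat_lit 22873) (nat_lit 0) :=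
  sP cP0_91 (nat_lit 22873) (nat_lit 47) (nat_lit 0x402020408090202020403030204020206020802030202040203020203030304040202020702030702020202030303) (by decide +kernel)
noncomputable def cP0_93 : Ch SP (nat_lit 10041) (nat_lit 0) (nat_lit 23042) (nat_lit 0) :=
  sP cP0_92 (nat_lit 23042) (nat_lit 54) (nat_lit 0x60409050204020404020203030602030402020302030306020202030304030202020202020203030402020202030302020204040507) (by decide +kernel)
noncomputable def cP0_94 : Ch SP (nat_lit 10041) (nat_lit 0) (nat_lit 23202) (nat_lit 0) :=
  sP cP0_93 (nat_lit 23202) (nat_lit 48) (nat_lit 0x60203020302070202040302060504040204070202030202030305030502030203020302030305020204020203070604) (by decide +kernel)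
noncomputable def cP0_95 : Ch SP (nat_lit 10041) (nat_lit 0) (nat_lit 23365) (nat_lit 0) :=
  sP cP0_94 (nat_lit 23365) (nat_lit 50) (nat_lit 0xa04040202020304020405020202040204020203050203030302030203020303050302020602020203050406020607020203) (by decide +kernel)
noncomputable def cP0_96 : Ch SP (nat_lit 10041) (nat_lit 0) (nat_lit 23501) (nat_lit 0) :=
  sP cP0_95 (nat_lit 23501) (nat_lit 36) (nat_lit 0xb0304020306030203020204030207040302020206040406020502020606040406020502) (by decide +kernel)
noncomputable def cP0_97 : Ch SP (nat_lit 10041) (nat_lit 0) (nat_lit 23665) (nat_lit 0) :=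
  sP cP0_96 (nat_lit 23665) (nat_lit 51) (nat_lit 0x70202020205020302020202020202020404030403030205040302030704020206020202090402020302020204070603020404) (by decide +kernel)
noncomputable def cP0_98 : Ch SP (nat_lit 10041) (nat_lit 0) (nat_lit 23814) (nat_lit 0) :=
  sP cP0_97 (nat_lit 23814) (nat_lit 43) (nat_lit 0x4020502030203030304020302020602020407020802020304030608050203060303020302020402040207) (by decide +kernel)
noncomputable def cP0_99 : Ch SP (nat_lit 10041) (nat_lit 0) (nat_lit 23960) (nat_lit 0) :=
  sP cP0_98 (nat_lit 23960) (nat_lit 42) (nat_lit 0xd0304020204020202020202040209030304020407050304020304040405040304030202020403020203) (by decide +kernel)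
noncomputable def cP0_100 : Ch SP (nat_lit 10041) (nat_lit 0) (nat_lit 24119) (nat_lit 0) :=
  sP cP0_99 (nat_lit 24119) (nat_lit 47) (nat_lit 0x50503060403050303030402020303030305040202020402020b050602020402050303030402020302040203040202) (by decide +kernel)
noncomputable def cP0_101 : Ch SP (nat_lit 10041) (nat_lit 0) (nat_lit 24282) (nat_lit 0) :=
  sP cP0_100 (nat_lit 24282) (nat_lit 50) (nat_lit 0x202030202020203070203050303020307080303030203020502020203020203030405060202040504040204020203030505) (by decide +kernel)
noncomputable def cP0_102 : Ch SP (nat_lit 10041) (nat_lit 0) (nat_lit 24423) (nat_lit 0) :=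
  sP cP0_101 (nat_lit 24423) (nat_lit 38) (nat_lit 0x606040402090604060404080302040302020505020203020202020402030303040202030902) (by decide +kernel)
noncomputable def cP0_103 : Ch SP (nat_lit 10041) (nat_lit 0) (nat_lit 24550) (nat_lit 0) :=
  sP cP0_102 (nat_lit 24550) (nat_lit 37) (nat_lit 0x40202020303060304030402020603040202020f0203020303030503020203040202020408) (by decide +kernel)
noncomputable def cP0_104 : Ch SP (nat_lit 10041) (nat_lit 0) (nat_lit 24665) (nat_lit 0) :=
  sP cP0_103 (nat_lit 24665) (nat_lit 30) (nat_lit 0x70203040209030202030302020202050b03050d02020202020308030303) (by decide +kernel)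
noncomputable def cP0_105 : Ch SP (nat_lit 10041) (nat_lit 0) (nat_lit 24822) (nat_lit 0) :=
  sP cP0_104 (nat_lit 24822) (nat_lit 47) (nat_lit 0x50a020206040407050202030306030602020302040203040402030204020502040402020403020303030302020202) (by decide +kernel)
noncomputable def cP0_106 : Ch SP (nat_lit 10041) (nat_lit 0) (nat_lit 24966) (nat_lit 0) :=
  sP cP0_105 (nat_lit 24966) (nat_lit 42) (nat_lit 0x6030a0202030202040a0205030205020204020204020702040404030203050302060202020202040402) (by decide +kernel)
noncomputable def cP0_107 : Ch SP (nat_lit 10041) (nat_lit 0) (nat_lit 25112) (nat_lit 0) :=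
  sP cP0_106 (nat_lit 25112) (nat_lit 40) (nat_lit 0x30304020a0403040403040403040404030402040206030403050302030905030204020202040303) (by decide +kernel)
noncomputable def cP0_108 : Ch SP (nat_lit 10041) (nat_lit 0) (nat_lit 25234) (nat_lit 0) :=
  sP cP0_107 (nat_lit 25234) (nat_lit 31) (nat_lit 0x307020702030304060302020202020207020a020409050202060405070203) (by decide +kernel)
noncomputable def cP0_109 : Ch SP (nat_lit 10041) (nat_lit 0) (nat_lit 25364) (nat_lit 0) :=
  sP cP0_108 (nat_lit 25364) (nat_lit 36) (nat_lit 0x502030202020202040402030302020203040204020308020a060702020502020a040604) (by decide +kernel)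
noncomputable def cP0_110 : Ch SP (nat_lit 10041) (nat_lit 0) (nat_lit 25495) (nat_lit 0) :=
  sP cP0_109 (nat_lit 25495) (nat_lit 38) (nat_lit 0x30e040205020304020303030807030402020203040204020202060405020202030204020202) (by decide +kernel)
noncomputable def cP0_111 : Ch SP (nat_lit 10041) (nat_lit 0) (nat_lit 25695) (nat_lit 0) :=
  sP cP0_110 (nat_lit 25695) (nat_lit 70) (nat_lit 0x3030202020303020204020302020602030303030203030203020303040402020304040202050202020202030304030204020302020407030203030402020404020302030402) (by decide +kernel)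
noncomputable def cP0_112 : Ch SP (nat_lit 10041) (nat_lit 0) (nat_lit 25852) (nat_lit 0) :=
  sP cP0_111 (nat_lit 25852) (nat_lit 47) (nat_lit 0x404070306070203020405040402030203050405020304030202020203020304020904020203020203020202020405) (by decide +kernel)
noncomputable def cP0_113 : Ch SP (nat_lit 10041) (nat_lit 0) (nat_lit 25991) (nat_lit 0) :=
  sP cP0_112 (nat_lit 25991) (nat_lit 34) (nat_lit 0x1c110203020202020703040302020402020204020303020202030207040302050303) (by decide +kernel)
noncomputable def cP0_114 : Ch SP (nat_lit 10041) (nat_lit 0) (nat_lit 26082) (nat_lit 0) :=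
  sP cP0_113 (nat_lit 26082) (nat_lit 18) (nat_lit 0x7030605030302040202070a0e0609020303) (by decide +kernel)
noncomputable def cP0_115 : Ch SP (nat_lit 10041) (nat_lit 0) (nat_lit 26189) (nat_lit 0) :=
  sP cP0_114 (nat_lit 26189) (nat_lit 21) (nat_lit 0x130605030402020407050b02080806020202020403) (by decide +kernel)
noncomputable def cP0_116 : Ch SP (nat_lit 10041) (nat_lit 0) (nat_lit 26315) (nat_lit 0) :=
  sP cP0_115 (nat_lit 26315) (nat_lit 30) (nat_lit 0x8060604020206060702040402020603060603030302050202060202030b) (by decide +kernel)
noncomputable def cP0_117 : Ch SP (nat_lit 10041) (nat_lit 0) (nat_lit 26457) (nat_lit 0) :=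
  sP cP0_116 (nat_lit 26457) (nat_lit 26) (nat_lit 0x3107030202020308020702020204020405070602020202060405) (by decide +kernel)
noncomputable def cP0_118 : Ch SP (nat_lit 10041) (nat_lit 0) (nat_lit 26611) (nat_lit 0) :=
  sP cP0_117 (nat_lit 26611) (nat_lit 44) (nat_lit 0x507030302030305030302020403030203080405020304040502020303040403030305030202030202070802) (by decide +kernel)
noncomputable def cP0_119 : Ch SP (nat_lit 10041) (nat_lit 0) (nat_lit 26706) (nat_lit 0) :=
  sP cP0_118 (nat_lit 26706) (nat_lit 21) (nat_lit 0xb04030302020204060202020203040a0205020f09) (by decide +kernel)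
noncomputable def cP0_120 : Ch SP (nat_lit 10041) (nat_lit 0) (nat_lit 26792) (nat_lit 0) :=
  sP cP0_119 (nat_lit 26792) (nat_lit 17) (nat_lit 0xf03050305020306020303040204060d07) (by decide +kernel)
noncomputable def cP0_121 : Ch SP (nat_lit 10041) (nat_lit 0) (nat_lit 26905) (nat_lit 0) :=
  sP cP0_120 (nat_lit 26905) (nat_lit 28) (nat_lit 0x504030605020202080603020302040302020e040202020604040902) (by decide +kernel)
noncomputable def cP0_122 : Ch SP (nat_lit 10041) (nat_lit 0) (nat_lit 26985) (nat_lit 0) :=
  sP cP0_121 (nat_lit 26985) (nat_lit 14) (nat_lit 0x905030c0202020e0307020d0402) (by decide +kernel)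
noncomputable def cP0_123 : Ch SP (nat_lit 10041) (nat_lit 0) (nat_lit 27101) (nat_lit 0) :=
  sP cP0_122 (nat_lit 27101) (nat_lit 30) (nat_lit 0x9020202020605050a02020302030402020303030503020a020d02030202) (by decide +kernel)
noncomputable def cP0_124 : Ch SP (nat_lit 10041) (nat_lit 0) (nat_lit 27253) (nat_lit 0) :=
  sP cP0_123 (nat_lit 27253) (nat_lit 46) (nat_lit 0x40602030303070302020402030302020206020202060404020205050302020202030205020304020a0202040207) (by decide +kernel)
noncomputable def cP0_125 : Ch SP (nat_lit 10041) (nat_lit 0) (nat_lit 27344) (nat_lit 0) :=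
  sP cP0_124 (nat_lit 27344) (nat_lit 16) (nat_lit 0xe0b070503030708050204020202020e) (by decide +kernel)
noncomputable def cP0_126 : Ch SP (nat_lit 10041) (nat_lit 0) (nat_lit 27448) (nat_lit 0) :=
  sP cP0_125 (nat_lit 27448) (nat_lit 24) (nat_lit 0x80e0303060502060302030202020302020402090702020a) (by decide +kernel)
noncomputable def cP0_127 : Ch SP (nat_lit 10041) (nat_lit 0) (nat_lit 27554) (nat_lit 0) :=
  sP cP0_126 (nat_lit 27554) (nat_lit 27) (nat_lit 0x40803040403020402040203020904020303100205030402020204) (by decide +kernel)
noncomputable def cP0_128 : Ch SP (nat_lit 10041) (nat_lit 0) (nat_lit 27687) (nat_lit 0) :=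
  sP cP0_127 (nat_lit 27687) (nat_lit 34) (nat_lit 0xf020202020202030302020703020502020504070505070a06020204030305020203) (by decide +kernel)
noncomputable def cP0_129 : Ch SP (nat_lit 10041) (nat_lit 0) (nat_lit 27818) (nat_lit 0) :=
  sP cP0_128 (nat_lit 27818) (nat_lit 40) (nat_lit 0x2030303020203020502020704030302020204030202020f07040406030502020202030202030202) (by decide +kernel)
noncomputable def cP0_130 : Ch SP (nat_lit 10041) (nat_lit 0) (nat_lit 27977) (nat_lit 0) :=
  sP cP0_129 (nat_lit 27977) (nat_lit 50) (nat_lit 0xc02020502040202020202020503020302050403020203020202040403020403030307020503020204030303020205030206) (by decide +kernel)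
noncomputable def cP0_131 : Ch SP (nat_lit 10041) (nat_lit 0) (nat_lit 28106) (nat_lit 0) :=
  sP cP0_130 (nat_lit 28106) (nat_lit 34) (nat_lit 0x120f0402020306040203030203040202020305020603030702020202030402020202) (by decide +kernel)
noncomputable def cP0_132 : Ch SP (nat_lit 10041) (nat_lit 0) (nat_lit 28164) (nat_lit 0) :=
  sP cP0_131 (nat_lit 28164) (nat_lit 13) (nat_lit 0xa160302030202020202030302) (by decide +kernel)
noncomputable def cP0_133 : Ch SP (nat_lit 10041) (nat_lit 0) (nat_lit 28357) (nat_lit 0) :=
  sP cP0_132 (nat_lit 28357) (nat_lit 66) (nat_lit 0x60302040302020203050304020206020302030202020304030202030204020304040302020203030202040302020402020203020404030504020505020202040302) (by decide +kernel)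
noncomputable def cP0_134 : Ch SP (nat_lit 10041) (nat_lit 0) (nat_lit 28521) (nat_lit 0) :=
  sP cP0_133 (nat_lit 28521) (nat_lit 53) (nat_lit 0x204020204020202030205040302020202080204020202030202020202050503020202030205020204070203040304020704030208) (by decide +kernel)
noncomputable def cP0_135 : Ch SP (nat_lit 10041) (nat_lit 0) (nat_lit 28728) (nat_lit 0) :=
  sP cP0_134 (nat_lit 28728) (nat_lit 75) (nat_lit 0x30305030203030202050202020204030704040302030203020202040203020302020204020203020203030204020303020203040202030404030203020302040404030202020202020202) (by decide +kernel)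
noncomputable def cP0_136 : Ch SP (nat_lit 10041) (nat_lit 0) (nat_lit 28901) (nat_lit 0) :=
  sP cP0_135 (nat_lit 28901) (nat_lit 57) (nat_lit 0xe0303020502020702020202020202020402020203020202020202030302030304020403030302040302050605030202020403030203020305) (by decide +kernel)
noncomputable def cP0_137 : Ch SP (nat_lit 10041) (nat_lit 0) (nat_lit 29021) (nat_lit 0) :=
  sP cP0_136 (nat_lit 29021) (nat_lit 34) (nat_lit 0x2020303030402060203020204030302030306020203020203030b050e0405020202) (by decide +kernel)
noncomputable def cP0_138 : Ch SP (nat_lit 10041) (nat_lit 0) (nat_lit 29214) (nat_lit 0) :=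
  sP cP0_137 (nat_lit 29214) (nat_lit 65) (nat_lit 0xd02020203040205030302070304030202030402020202020302030302020205040203030204050302030202020202040304020203020303040502020203020203) (by decide +kernel)
noncomputable def cP0_139 : Ch SP (nat_lit 10041) (nat_lit 0) (nat_lit 29318) (nat_lit 0) :=
  sP cP0_138 (nat_lit 29318) (nat_lit 29) (nat_lit 0x1402060202040403020202040403020203070203050402020302020203) (by decide +kernel)
noncomputable def cP0_140 : Ch SP (nat_lit 10041) (nat_lit 0) (nat_lit 29488) (nat_lit 0) :=
  sP cP0_139 (nat_lit 29488) (nat_lit 56) (nat_lit 0x302030502020303020402020203030302030303040b02020303020203050303040202040202030502030202020202050207030405020302) (by decide +kernel)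
noncomputable def cP0_141 : Ch SP (nat_lit 10041) (nat_lit 0) (nat_lit 29664) (nat_lit 0) :=
  sP cP0_140 (nat_lit 29664) (nat_lit 57) (nat_lit 0x40302050404020404040205020302050202020204020204030202030303020203020302030202040202030a02040303040204030204040305) (by decide +kernel)
noncomputable def cP0_142 : Ch SP (nat_lit 10041) (nat_lit 0) (nat_lit 29842) (nat_lit 0) :=
  sP cP0_141 (nat_lit 29842) (nat_lit 57) (nat_lit 0x30403030202030503020205040302030203030203030302020202030202050302040207020302020406060303020202040604040404020205) (by decide +kernel)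
noncomputable def cP0_143 : Ch SP (nat_lit 10041) (nat_lit 0) (nat_lit 29998) (nat_lit 0) :=
  sP cP0_142 (nat_lit 29998) (nat_lit 50) (nat_lit 0x2030302020303040402020303040702020202020302030202040202020302070405030306020304030302030c0202040202) (by decide +kernel)
noncomputable def cP0_144 : Ch SP (nat_lit 10041) (nat_lit 0) (nat_lit 30176) (nat_lit 0) :=
  sP cP0_143 (nat_lit 30176) (nat_lit 59) (nat_lit 0x702020203030204020303020302030202030303040204020202020402040205050205030202020204050302020202040307030203030209030302) (by decide +kernel)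
noncomputable def cP0_145 : Ch SP (nat_lit 10041) (nat_lit 0) (nat_lit 30356) (nat_lit 0) :=
  sP cP0_144 (nat_lit 30356) (nat_lit 63) (nat_lit 0x30202030203090202020205070704020302020204030202020202020302020702020504020202020202020303030302040202040203030202020202030403) (by decide +kernel)
noncomputable def cP0_146 : Ch SP (nat_lit 10041) (nat_lit 0) (nat_lit 30517) (nat_lit 0) :=
  sP cP0_145 (nat_lit 30517) (nat_lit 48) (nat_lit 0x70604040403030402090202020202050603020403020205030603020604030503020403020202020302020302030402) (by decide +kernel)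
noncomputable def cP0_147 : Ch SP (nat_lit 10041) (nat_lit 0) (nat_lit 30664) (nat_lit 0) :=
  sP cP0_146 (nat_lit 30664) (nat_lit 44) (nat_lit 0x30502030202030202030202020205020303040403020302050d030203020404030305020206040603050303) (by decide +kernel)
noncomputable def cP0_148 : Ch SP (nat_lit 10041) (nat_lit 0) (nat_lit 30812) (nat_lit 0) :=
  sP cP0_147 (nat_lit 30812) (nat_lit 43) (nat_lit 0x3030202030302030305050202020602020205050204020404020407020b05020303020504030503020304) (by decide +kernel)
noncomputable def cP0_149 : Ch SP (nat_lit 10041) (nat_lit 0) (nat_lit 30992) (nat_lit 0) :=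
  sP cP0_148 (nat_lit 30992) (nat_lit 58) (nat_lit 0x9030702020202020203030202020303030303030202020604030402020303060202040304020302020302020302040302090505020302040302) (by decide +kernel)
noncomputable def cP0_150 : Ch SP (nat_lit 10041) (nat_lit 0) (nat_lit 31164) (nat_lit 0) :=
  sP cP0_149 (nat_lit 31164) (nat_lit 56) (nat_lit 0x40302050304030202020302030302020203040305050403050502030203040203020202020202030202020203030402020305020a030207) (by decide +kernel)
noncomputable def cP0_151 : Ch SP (nat_lit 10041) (nat_lit 0) (nat_lit 31339) (nat_lit 0) :=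
  sP cP0_150 (nat_lit 31339) (nat_lit 55) (nat_lit 0x3040202020202020405050303040202020202040303030402020203040604030204040306030303030204050202030207050502040203) (by decide +kernel)
noncomputable def cP0_152 : Ch SP (nat_lit 10041) (nat_lit 0) (nat_lit 31502) (nat_lit 0) :=
  sP cP0_151 (nat_lit 31502) (nat_lit 50) (nat_lit 0x703030205030602020402020202020802020203020303030205020402020302030708050203070404030503020202020202) (by decide +kernel)
noncomputable def cP0_153 : Ch SP (nat_lit 10041) (nat_lit 0) (nat_lit 31651) (nat_lit 0) :=
  sP cP0_152 (nat_lit 31651) (nat_lit 44) (nat_lit 0xb02020206020302020204020203030504050404030204030302020302040302020205040707030304030402) (by decide +kernel)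
noncomputable def cP0_154 : Ch SP (nat_lit 10041) (nat_lit 0) (nat_lit 31812) (nat_lit 0) :=
  sP cP0_153 (nat_lit 31812) (nat_lit 49) (nat_lit 0x705020504030203020203030b030302020202020404030402020304040202040802050302030202040503020303020303) (by decide +kernel)
noncomputable def cP0_155 : Ch SP (nat_lit 10041) (nat_lit 0) (nat_lit 32003) (nat_lit 0) :=
  sP cP0_154 (nat_lit 32003) (nat_lit 66) (nat_lit 0x60303020502030202020403030302020402020202040504030202020302030305020302020203020204020204020303030302020202020802070402050202030302) (by decide +kernel)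
noncomputable def cP0_156 : Ch SP (nat_lit 10041) (nat_lit 0) (nat_lit 32128) (nat_lit 0) :=
  sP cP0_155 (nat_lit 32128) (nat_lit 32) (nat_lit 0x60702030306060203020306080a030402040202030906020202030303020402) (by decide +kernel)
noncomputable def cP0_157 : Ch SP (nat_lit 10041) (nat_lit 0) (nat_lit 32277) (nat_lit 0) :=
  sP cP0_156 (nat_lit 32277) (nat_lit 44) (nat_lit 0x80402090204040203020404030304020306020304020502020202030202030204030303020602020a020403) (by decide +kernel)
noncomputable def cP0_158 : Ch SP (nat_lit 10041) (nat_lit 0) (nat_lit 32373) (nat_lit 0) :=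
  sP cP0_157 (nat_lit 32373) (nat_lit 20) (nat_lit 0x1306050303030204070f05020202020505020202) (by decide +kernel)
noncomputable def cP0_159 : Ch SP (nat_lit 10041) (nat_lit 0) (nat_lit 32443) (nat_lit 0) :=
  sP cP0_158 (nat_lit 32443) (nat_lit 13) (nat_lit 0x1803040304020703020302020b) (by decide +kernel)
noncomputable def cP0_160 : Ch SP (nat_lit 10041) (nat_lit 0) (nat_lit 32543) (nat_lit 0) :=
  sP cP0_159 (nat_lit 32543) (nat_lit 22) (nat_lit 0x90505030502050c0c07060403030303020302020202) (by decide +kernel)
noncomputable def cP0_161 : Ch SP (nat_lit 10041) (nat_lit 0) (nat_lit 32667) (nat_lit 0) :=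
  sP cP0_160 (nat_lit 32667) (nat_lit 32) (nat_lit 0x20803030c050302060205060404020202020203030204030506020408030204) (by decide +kernel)
noncomputable def cP0_162 : Ch SP (nat_lit 10041) (nat_lit 0) (nat_lit 32799) (nat_lit 0) :=
  sP cP0_161 (nat_lit 32799) (nat_lit 29) (nat_lit 0x14020302040202050b02020706050506040403030203030a0405020302) (by decide +kernel)
noncomputable def cP0_163 : Ch SP (nat_lit 10041) (nat_lit 0) (nat_lit 32833) (nat_lit 0) :=
  sP cP0_162 (nat_lit 32833) (nat_lit 5) (nat_lit 0x319020202) (by decide +kernel)
noncomputable def cP0_164 : Ch SP (nat_lit 10041) (nat_lit 0) (nat_lit 32965) (nat_lit 0) :=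
  sP cP0_163 (nat_lit 32965) (nat_lit 32) (nat_lit 0xc09020705020207040204030302020303050303040302090502040904020203) (by decide +kernel)
noncomputable def cP0_165 : Ch SP (nat_lit 10041) (nat_lit 0) (nat_lit 33078) (nat_lit 0) :=
  sP cP0_164 (nat_lit 33078) (nat_lit 27) (nat_lit 0xf0403050302020407030202080202070403060502030202050406) (by decide +kernel)
noncomputable def cP0_166 : Ch SP (nat_lit 10041) (nat_lit 0) (nat_lit 33183) (nat_lit 0) :=
  sP cP0_165 (nat_lit 33183) (nat_lit 19) (nat_lit 0x18060d020302030704020302030a0b04020202) (by decide +kernel)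
noncomputable def cP0_167 : Ch SP (nat_lit 10041) (nat_lit 0) (nat_lit 33308) (nat_lit 0) :=
  sP cP0_166 (nat_lit 33308) (nat_lit 30) (nat_lit 0x60405030603090507020704020302020203030303020209080205060502) (by decide +kernel)
noncomputable def cP0_168 : Ch SP (nat_lit 10041) (nat_lit 0) (nat_lit 33416) (nat_lit 0) :=
  sP cP0_167 (nat_lit 33416) (nat_lit 23) (nat_lit 0x3030b0705030206020609030407020803050303070303) (by decide +kernel)
noncomputable def cP0_169 : Ch SP (nat_lit 10041) (nat_lit 0) (nat_lit 33565) (nat_lit 0) :=
  sP cP0_168 (nat_lit 33565) (nat_lit 30) (nat_lit 0x220a02070306020203020302020303040408060707020502040403040203) (by decide +kernel)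
noncomputable def cP0_170 : Ch SP (nat_lit 10041) (nat_lit 0) (nat_lit 33710) (nat_lit 0) :=
  sP cP0_169 (nat_lit 33710) (nat_lit 38) (nat_lit 0xd040d0206030202030603050402020704040403020402050202020403020503020403040202) (by decide +kernel)
noncomputable def cP0_171 : Ch SP (nat_lit 10041) (nat_lit 0) (nat_lit 33848) (nat_lit 0) :=
  sP cP0_170 (nat_lit 33848) (nat_lit 37) (nat_lit 0x9020204020405030204040202020206020208040206050204030602020505020208020209) (by decide +kernel)
noncomputable def cP0_172 : Ch SP (nat_lit 10041) (nat_lit 0) (nat_lit 33984) (nat_lit 0) :=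
  sP cP0_171 (nat_lit 33984) (nat_lit 36) (nat_lit 0x30304030202030202020303030202020803030309050202040206050705060504040408) (by decide +kernel)
noncomputable def cP0_173 : Ch SP (nat_lit 10041) (nat_lit 0) (nat_lit 34137) (nat_lit 0) :=
  sP cP0_172 (nat_lit 34137) (nat_lit 45) (nat_lit 0x60709020303050204020303040203020205050202020302020405020202040304020307030203060302020504) (by decide +kernel)
noncomputable def cP0_174 : Ch SP (nat_lit 10041) (nat_lit 0) (nat_lit 34281) (nat_lit 0) :=
  sP cP0_173 (nat_lit 34281) (nat_lit 41) (nat_lit 0x30a030202040202040304080303020503020403030202060408020205060203020404020402020205) (by decide +kernel)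
noncomputable def cP0_175 : Ch SP (nat_lit 10041) (nat_lit 0) (nat_lit 34436) (nat_lit 0) :=
  sP cP0_174 (nat_lit 34436) (nat_lit 44) (nat_lit 0x802030604040402030202020a04080303040304020402020402020402030202040603020302040203040505) (by decide +kernel)
noncomputable def cP0_176 : Ch SP (nat_lit 10041) (nat_lit 0) (nat_lit 34606) (nat_lit 0) :=
  sP cP0_175 (nat_lit 34606) (nat_lit 55) (nat_lit 0x4020802030202040302030304020302020205020202040204020602030202020202020302020403050507020705030304050202020302) (by decide +kernel)
noncomputable def cP0_177 : Ch SP (nat_lit 10041) (nat_lit 0) (nat_lit 34776) (nat_lit 0) :=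
  sP cP0_176 (nat_lit 34776) (nat_lit 50) (nat_lit 0xf02060503020202060303020303020207040304020402020503020402020202020503060202030403040504020302030204) (by decide +kernel)
noncomputable def cP0_178 : Ch SP (nat_lit 10041) (nat_lit 0) (nat_lit 34939) (nat_lit 0) :=
  sP cP0_177 (nat_lit 34939) (nat_lit 49) (nat_lit 0x5030403020702020403050203030205030303020308020203020702030203020203020306050202030207040504020303) (by decide +kernel)
noncomputable def cP0_179 : Ch SP (nat_lit 10041) (nat_lit 0) (nat_lit 35095) (nat_lit 0) :=
  sP cP0_178 (nat_lit 35095) (nat_lit 46) (nat_lit 0x5020504030202030304020302020305030602030a06020302020405020403020303020407030205030205040202) (by decide +kernel)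
noncomputable def cP0_180 : Ch SP (nat_lit 10041) (nat_lit 0) (nat_lit 35242) (nat_lit 0) :=
  sP cP0_179 (nat_lit 35242) (nat_lit 44) (nat_lit 0x502040303020202070403030302030203020202090709020303050203020202050402030403020202030207) (by decide +kernel)
noncomputable def cP0_181 : Ch SP (nat_lit 10041) (nat_lit 0) (nat_lit 35401) (nat_lit 0) :=
  sP cP0_180 (nat_lit 35401) (nat_lit 45) (nat_lit 0x80705030202040202050505020302020505030303020207040502040502030202020504050203020405020502) (by decide +kernel)
noncomputable def cP0_182 : Ch SP (nat_lit 10041) (nat_lit 0) (nat_lit 35533) (nat_lit 0) :=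
  sP cP0_181 (nat_lit 35533) (nat_lit 33) (nat_lit 0x40605030305030302030402040304030307090208030206030304020903030206) (by decide +kernel)
noncomputable def cP0_183 : Ch SP (nat_lit 10041) (nat_lit 0) (nat_lit 35660) (nat_lit 0) :=
  sP cP0_182 (nat_lit 35660) (nat_lit 33) (nat_lit 0x4030502020303030602020602040703020202030b040602020306050509030203) (by decide +kernel)
noncomputable def cP0_184 : Ch SP (nat_lit 10041) (nat_lit 0) (nat_lit 35818) (nat_lit 0) :=
  sP cP0_183 (nat_lit 35818) (nat_lit 47) (nat_lit 0x905020302020202030502030405060202020304030203020605020204020502030503070303030202020206040304) (by decide +kernel)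
noncomputable def cP0_185 : Ch SP (nat_lit 10041) (nat_lit 0) (nat_lit 35965) (nat_lit 0) :=
  sP cP0_184 (nat_lit 35965) (nat_lit 39) (nat_lit 0xe0307030304030203020408060302030706060402020202030305030204030202020405020303) (by decide +kernel)
noncomputable def cP0_186 : Ch SP (nat_lit 10041) (nat_lit 0) (nat_lit 36109) (nat_lit 0) :=
  sP cP0_185 (nat_lit 36109) (nat_lit 40) (nat_lit 0x4060202020503020202050202030404030304060208020309040202050703040302040502050303) (by decide +kernel)
noncomputable def cP0_187 : Ch SP (nat_lit 10041) (nat_lit 0) (nat_lit 36284) (nat_lit 0) :=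
  sP cP0_186 (nat_lit 36284) (nat_lit 55) (nat_lit 0x3030304020402030304020702030202040303020307020304030203040305040302020202030502050307040402030203030203020403) (by decide +kernel)
noncomputable def cP0_188 : Ch SP (nat_lit 10041) (nat_lit 0) (nat_lit 36456) (nat_lit 0) :=
  sP cP0_187 (nat_lit 36456) (nat_lit 53) (nat_lit 0x302030204030504020205030605040504020203030402060302020206020405050402030403020202030205020403040202040202) (by decide +kernel)
noncomputable def cP0_189 : Ch SP (nat_lit 10041) (nat_lit 0) (nat_lit 36651) (nat_lit 0) :=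
  sP cP0_188 (nat_lit 36651) (nat_lit 68) (nat_lit 0x302020302030202030502030202030302030302030402030202020304030203020404030303030202020202020304030206030202020202030205040802030404030502) (by decide +kernel)
noncomputable def cP0_190 : Ch SP (nat_lit 10041) (nat_lit 0) (nat_lit 36820) (nat_lit 0) :=
  sP cP0_189 (nat_lit 36820) (nat_lit 52) (nat_lit 0x4040203050302080304050205020502030203020204030302060202030204030303020402030503040804030302020302030302) (by decide +kernel)
noncomputable def cP0_191 : Ch SP (nat_lit 10041) (nat_lit 0) (nat_lit 36988) (nat_lit 0) :=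
  sP cP0_190 (nat_lit 36988) (nat_lit 50) (nat_lit 0x804020404030205070306020302050604020602040202020202020202020203040204050205040202020206020405060202) (by decide +kernel)
noncomputable def cP0_192 : Ch SP (nat_lit 10041) (nat_lit 0) (nat_lit 37112) (nat_lit 0) :=
  sP cP0_191 (nat_lit 37112) (nat_lit 31) (nat_lit 0x14020303040603030405040203020203040203030406040302040503020604) (by decide +kernel)
noncomputable def cP0_193 : Ch SP (nat_lit 10041) (nat_lit 0) (nat_lit 37279) (nat_lit 0) :=
  sP cP0_192 (nat_lit 37279) (nat_lit 50) (nat_lit 0xa06050202040604050502040702020203020202070303040202040205030202020502030302020202030302050202040403) (by decide +kernel)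
noncomputable def cP0_194 : Ch SP (nat_lit 10041) (nat_lit 0) (nat_lit 37406) (nat_lit 0) :=
  sP cP0_193 (nat_lit 37406) (nat_lit 32) (nat_lit 0x2020207050404030408040309050404030203040303030202020205060a0502) (by decide +kernel)
noncomputable def cP0_195 : Ch SP (nat_lit 10041) (nat_lit 0) (nat_lit 37522) (nat_lit 0) :=
  sP cP0_194 (nat_lit 37522) (nat_lit 31) (nat_lit 0x30702040202040402020204020503040502040b0304020207030202020d02) (by decide +kernel)
noncomputable def cP0_196 : Ch SP (nat_lit 10041) (nat_lit 0) (nat_lit 37625) (nat_lit 0) :=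
  sP cP0_195 (nat_lit 37625) (nat_lit 22) (nat_lit 0xd020302020302070606060405040603020709070202) (by decide +kernel)
noncomputable def cP0_197 : Ch SP (nat_lit 10041) (nat_lit 0) (nat_lit 37760) (nat_lit 0) :=
  sP cP0_196 (nat_lit 37760) (nat_lit 33) (nat_lit 0xe07040202020502030202040203070a0202030402070503030202040302090902) (by decide +kernel)
noncomputable def cP0_198 : Ch SP (nat_lit 10041) (nat_lit 0) (nat_lit 37889) (nat_lit 0) :=
  sP cP0_197 (nat_lit 37889) (nat_lit 32) (nat_lit 0xb050a0306080306020306020303040203040304020202030308020206030302) (by decide +kernel)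
noncomputable def cP0_199 : Ch SP (nat_lit 10041) (nat_lit 0) (nat_lit 38024) (nat_lit 0) :=
  sP cP0_198 (nat_lit 38024) (nat_lit 38) (nat_lit 0x404020403020602020302030702020b02020203040202020506070302020204050904030302) (by decide +kernel)
noncomputable def cP0_200 : Ch SP (nat_lit 10041) (nat_lit 0) (nat_lit 38108) (nat_lit 0) :=
  sP cP0_199 (nat_lit 38108) (nat_lit 15) (nat_lit 0x30307090202040e07070203080409) (by decide +kernel)
noncomputable def cP0_201 : Ch SP (nat_lit 10041) (nat_lit 0) (nat_lit 38224) (nat_lit 0) :=
  sP cP0_200 (nat_lit 38224) (nat_lit 30) (nat_lit 0x20403020303020302050302030202080604020204060c09090302030203) (by decide +kernel)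
noncomputable def cP0_202 : Ch SP (nat_lit 10041) (nat_lit 0) (nat_lit 38340) (nat_lit 0) :=
  sP cP0_201 (nat_lit 38340) (nat_lit 30) (nat_lit 0x20202060e06030802020306020202040403040502030503020502020703) (by decide +kernel)
noncomputable def cP0_203 : Ch SP (nat_lit 10041) (nat_lit 0) (nat_lit 38479) (nat_lit 0) :=
  sP cP0_202 (nat_lit 38479) (nat_lit 37) (nat_lit 0x802030202080504090504030a050302020503030202020203020702020302060502040302) (by decide +kernel)
noncomputable def cP0_204 : Ch SP (nat_lit 10041) (nat_lit 0) (nat_lit 38610) (nat_lit 0) :=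
  sP cP0_203 (nat_lit 38610) (nat_lit 38) (nat_lit 0xa0203030202020203020202090302030702020203040d030307020403020203020404020302) (by decide +kernel)
noncomputable def cP0_205 : Ch SP (nat_lit 10041) (nat_lit 0) (nat_lit 38768) (nat_lit 0) :=
  sP cP0_204 (nat_lit 38768) (nat_lit 49) (nat_lit 0x14020202020203020404020204080204020203040204020402040305040202020305030502020202030203020302030202) (by decide +kernel)
noncomputable def cP0_206 : Ch SP (nat_lit 10041) (nat_lit 0) (nat_lit 38925) (nat_lit 0) :=
  sP cP0_205 (nat_lit 38925) (nat_lit 48) (nat_lit 0x60202030305080704020508050303040702020402020202040202020402020203020203040203020202030307020202) (by decide +kernel)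
noncomputable def cP0_207 : Ch SP (nat_lit 10041) (nat_lit 0) (nat_lit 39113) (nat_lit 0) :=
  sP cP0_206 (nat_lit 39113) (nat_lit 62) (nat_lit 0x603030302040203020204030204020203020206050403020502020202020203030203020202020205030303050203050403040405040402020402020205) (by decide +kernel)
noncomputable def cP0_208 : Ch SP (nat_lit 10041) (nat_lit 0) (nat_lit 39260) (nat_lit 0) :=
  sP cP0_207 (nat_lit 39260) (nat_lit 43) (nat_lit 0x7050202020607050502020203020202020706020207020702040202030603050303020403030202020203) (by decide +kernel)
noncomputable def cP0_209 : Ch SP (nat_lit 10041) (nat_lit 0) (nat_lit 39408) (nat_lit 0) :=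
  sP cP0_208 (nat_lit 39408) (nat_lit 47) (nat_lit 0x702020402020302020503020303030502020203020602030204020a0303020202020502020202030202030202070a) (by decide +kernel)
noncomputable def cP0_210 : Ch SP (nat_lit 10041) (nat_lit 0) (nat_lit 39578) (nat_lit 0) :=
  sP cP0_209 (nat_lit 39578) (nat_lit 55) (nat_lit 0x7040202020302030502030a03020208030202040202020403030302020202030203040202020204030202030206030602070302030202) (by decide +kernel)
noncomputable def cP0_211 : Ch SP (nat_lit 10041) (nat_lit 0) (nat_lit 39715) (nat_lit 0) :=
  sP cP0_210 (nat_lit 39715) (nat_lit 38) (nat_lit 0x504020202030702070402020604020202040404020307020b02020205030206020502050303) (by decide +kernel)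
noncomputable def cP0_212 : Ch SP (nat_lit 10041) (nat_lit 0) (nat_lit 39848) (nat_lit 0) :=
  sP cP0_211 (nat_lit 39848) (nat_lit 37) (nat_lit 0x40302020304030402030603040202020202050c0402030902050604030202030702040203) (by decide +kernel)
noncomputable def cP0_213 : Ch SP (nat_lit 10041) (nat_lit 0) (nat_lit 39996) (nat_lit 0) :=
  sP cP0_212 (nat_lit 39996) (nat_lit 44) (nat_lit 0x702050202030605090304070302020203070302070202020202060302020202030202020302070402020303) (by decide +kernel)
noncomputable def cP0_214 : Ch SP (nat_lit 10041) (nat_lit 0) (nat_lit 40173) (nat_lit 0) :=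
  sP cP0_213 (nat_lit 40173) (nat_lit 56) (nat_lit 0x602030605020503030202020305050204030202040504020203020302030302020502020202030202020302020202070407040205030305) (by decide +kernel)
noncomputable def cP0_215 : Ch SP (nat_lit 10041) (nat_lit 0) (nat_lit 40313) (nat_lit 0) :=
  sP cP0_214 (nat_lit 40313) (nat_lit 42) (nat_lit 0xb02030202020303020202030206020303020b0602020402020306020407020203030202040303040402) (by decide +kernel)
noncomputable def cP0_216 : Ch SP (nat_lit 10041) (nat_lit 0) (nat_lit 40494) (nat_lit 0) :=
  sP cP0_215 (nat_lit 40494) (nat_lit 61) (nat_lit 0x4020603020302070202030502030304020202030402030202020402080202020202050504030203020202020202030305020503020302030206030202) (by decide +kernel)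
noncomputable def cP0_217 : Ch SP (nat_lit 10041) (nat_lit 0) (nat_lit 40648) (nat_lit 0) :=
  sP cP0_216 (nat_lit 40648) (nat_lit 47) (nat_lit 0x6030306020202020303030303070b0302020302020303020302020302050203020203070502040703040202020303) (by decide +kernel)
noncomputable def cP0_218 : Ch SP (nat_lit 10041) (nat_lit 0) (nat_lit 40864) (nat_lit 0) :=
  sP cP0_217 (nat_lit 40864) (nat_lit 68) (nat_lit 0x1b03030203020302020302020302030302020202020202020202030402020303020406020303030507020205020302050202020404020504020202030202020404050203) (by decide +kernel)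
noncomputable def cP0_219 : Ch SP (nat_lit 10041) (nat_lit 0) (nat_lit 41051) (nat_lit 0) :=
  sP cP0_218 (nat_lit 41051) (nat_lit 66) (nat_lit 0x20303030202020304020202080202040204030202020403020202030303030303020403030502020304050202030205020203020302020203030202020309020202) (by decide +kernel)
noncomputable def cP0_220 : Ch SP (nat_lit 10041) (nat_lit 0) (nat_lit 41209) (nat_lit 0) :=
  sP cP0_219 (nat_lit 41209) (nat_lit 49) (nat_lit 0x3020203060208020203020302020309030402030202040303070307020402020502020303050202020303050303020303) (by decide +kernel)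
noncomputable def cP0_221 : Ch SP (nat_lit 10041) (nat_lit 0) (nat_lit 41307) (nat_lit 0) :=
  sP cP0_220 (nat_lit 41307) (nat_lit 23) (nat_lit 0x20209070f020203030303030403020204030802050308) (by decide +kernel)
noncomputable def cP0_222 : Ch SP (nat_lit 10041) (nat_lit 0) (nat_lit 41456) (nat_lit 0) :=
  sP cP0_221 (nat_lit 41456) (nat_lit 48) (nat_lit 0x20303020203020402020304030503020b03020202020203080705030202020202030204020202040202020203090203) (by decide +kernel)
noncomputable def cP0_223 : Ch SP (nat_lit 10041) (nat_lit 0) (nat_lit 41601) (nat_lit 0) :=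
  sP cP0_222 (nat_lit 41601) (nat_lit 40) (nat_lit 0x6020204040202020203020303050403020203090706070402020503030203020303070604020405) (by decide +kernel)
noncomputable def cP0_224 : Ch SP (nat_lit 10041) (nat_lit 0) (nat_lit 41679) (nat_lit 0) :=
  sP cP0_223 (nat_lit 41679) (nat_lit 13) (nat_lit 0x90302090d0402020407040c07) (by decide +kernel)
noncomputable def cP0_225 : Ch SP (nat_lit 10041) (nat_lit 0) (nat_lit 41790) (nat_lit 0) :=
  sP cP0_224 (nat_lit 41790) (nat_lit 23) (nat_lit 0x90604060203020a04030204070203020607020409030b) (by decide +kernel)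
noncomputable def cP0_226 : Ch SP (nat_lit 10041) (nat_lit 0) (nat_lit 41888) (nat_lit 0) :=
  sP cP0_225 (nat_lit 41888) (nat_lit 20) (nat_lit 0x1202020b04040604050402020305070902040202) (by decide +kernel)
noncomputable def cP0_227 : Ch SP (nat_lit 10041) (nat_lit 0) (nat_lit 41997) (nat_lit 0) :=
  sP cP0_226 (nat_lit 41997) (nat_lit 26) (nat_lit 0x903060402060e07020203020505020303030203020206030307) (by decide +kernel)
noncomputable def cP0_228 : Ch SP (nat_lit 10041) (nat_lit 0) (nat_lit 42116) (nat_lit 0) :=
  sP cP0_227 (nat_lit 42116) (nat_lit 26) (nat_lit 0x11050604020806040202030305040204030205020b0407030203) (by decide +kernel)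
noncomputable def cP0_229 : Ch SP (nat_lit 10041) (nat_lit 0) (nat_lit 42251) (nat_lit 0) :=
  sP cP0_228 (nat_lit 42251) (nat_lit 36) (nat_lit 0x70202020402030302030804060302020307040304040202040707030202020207090303) (by decide +kernel)
noncomputable def cP0_230 : Ch SP (nat_lit 10041) (nat_lit 0) (nat_lit 42320) (nat_lit 0) :=
  sP cP0_229 (nat_lit 42320) (nat_lit 14) (nat_lit 0x502030206040702020315050502) (by decide +kernel)
noncomputable def cP0_231 : Ch SP (nat_lit 10041) (nat_lit 0) (nat_lit 42429) (nat_lit 0) :=
  sP cP0_230 (nat_lit 42429) (nat_lit 25) (nat_lit 0x70a0202020203030205060602040d05050305060505020202) (by decide +kernel)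
noncomputable def cP0_232 : Ch SP (nat_lit 10041) (nat_lit 0) (nat_lit 42549) (nat_lit 0) :=
  sP cP0_231 (nat_lit 42549) (nat_lit 31) (nat_lit 0x302020807020202030c020303030202080505020502060207050302040402) (by decide +kernel)
noncomputable def cP0_233 : Ch SP (nat_lit 10041) (nat_lit 0) (nat_lit 42686) (nat_lit 0) :=
  sP cP0_232 (nat_lit 42686) (nat_lit 38) (nat_lit 0x202040304030202030202030205030206020302060707030202020407040408030609020202) (by decide +kernel)
noncomputable def cP0_234 : Ch SP (nat_lit 10041) (nat_lit 0) (nat_lit 42810) (nat_lit 0) :=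
  sP cP0_233 (nat_lit 42810) (nat_lit 19) (nat_lit 0x3e040304060502020407040402030303020202) (by decide +kernel)
noncomputable def cP0_235 : Ch SP (nat_lit 10041) (nat_lit 0) (nat_lit 42893) (nat_lit 0) :=
  sP cP0_234 (nat_lit 42893) (nat_lit 18) (nat_lit 0x402020c020202030a03020702070303020f) (by decide +kernel)
noncomputable def cP0_236 : Ch SP (nat_lit 10041) (nat_lit 0) (nat_lit 43026) (nat_lit 0) :=
  sP cP0_235 (nat_lit 43026) (nat_lit 35) (nat_lit 0x40607050502030203020202030305020404060302020306020303050b020205080402) (by decide +kernel)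
noncomputable def cP0_237 : Ch SP (nat_lit 10041) (nat_lit 0) (nat_lit 43179) (nat_lit 0) :=
  sP cP0_236 (nat_lit 43179) (nat_lit 44) (nat_lit 0x302020302020203020305040406080403060604060503020303030302040202050208020403020303020205) (by decide +kernel)
noncomputable def cP0_238 : Ch SP (nat_lit 10041) (nat_lit 0) (nat_lit 43366) (nat_lit 0) :=
  sP cP0_237 (nat_lit 43366) (nat_lit 60) (nat_lit 0xa0402030202030302040202030202040202040305060303020402030304020402020502030503050204020403030303020403020204050203020302) (by decide +kernel)
noncomputable def cP0_239 : Ch SP (nat_lit 10041) (nat_lit 0) (nat_lit 43537) (nat_lit 0) :=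
  sP cP0_238 (nat_lit 43537) (nat_lit 53) (nat_lit 0x404040402030206040302020303030304020303030302030403020402040202030402020306020402060202030702050702020205) (by decide +kernel)
noncomputable def cP0_240 : Ch SP (nat_lit 10041) (nat_lit 0) (nat_lit 43676) (nat_lit 0) :=
  sP cP0_239 (nat_lit 43676) (nat_lit 41) (nat_lit 0xa040306020304030202020204020c0502030603020202050204020503020202020203020303050402) (by decide +kernel)
noncomputable def cP0_241 : Ch SP (nat_lit 10041) (nat_lit 0) (nat_lit 43815) (nat_lit 0) :=
  sP cP0_240 (nat_lit 43815) (nat_lit 40) (nat_lit 0x304020202020202030209020207030a040302030703020304050303030302030303030205020308) (by decide +kernel)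
noncomputable def cP0_242 : Ch SP (nat_lit 10041) (nat_lit 0) (nat_lit 43996) (nat_lit 0) :=
  sP cP0_241 (nat_lit 43996) (nat_lit 60) (nat_lit 0x30302020202040204030303030202020204020203020305020303040503020304040202050402020302020202020202030508020402040307040403) (by decide +kernel)
noncomputable def cP0_243 : Ch SP (nat_lit 10041) (nat_lit 0) (nat_lit 44150) (nat_lit 0) :=
  sP cP0_242 (nat_lit 44150) (nat_lit 44) (nat_lit 0x303020202070705040607070402020202030403030206020204020204020304020303030405040203050304) (by decide +kernel)
noncomputable def cP0_244 : Ch SP (nat_lit 10041) (nat_lit 0) (nat_lit 44249) (nat_lit 0) :=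
  sP cP0_243 (nat_lit 44249) (nat_lit 23) (nat_lit 0x402080303030302040510020803070205030603030202) (by decide +kernel)
noncomputable def cP0_245 : Ch SP (nat_lit 10041) (nat_lit 0) (nat_lit 44384) (nat_lit 0) :=
  sP cP0_244 (nat_lit 44384) (nat_lit 35) (nat_lit 0x5030702030403020202050204050402040503060407020206020a0604020306020303) (by decide +kernel)
noncomputable def cP0_246 : Ch SP (nat_lit 10041) (nat_lit 0) (nat_lit 44525) (nat_lit 0) :=
  sP cP0_245 (nat_lit 44525) (nat_lit 38) (nat_lit 0x702020806060402020708030203050303040202020203070502030402030205030303050303) (by decide +kernel)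
noncomputable def cP0_247 : Ch SP (nat_lit 10041) (nat_lit 0) (nat_lit 44684) (nat_lit 0) :=
  sP cP0_246 (nat_lit 44684) (nat_lit 47) (nat_lit 0x404020306030502060502030205020302050303070302030302020503030705020207030402050202020203020402) (by decide +kernel)
noncomputable def cP0_248 : Ch SP (nat_lit 10041) (nat_lit 0) (nat_lit 44815) (nat_lit 0) :=
  sP cP0_247 (nat_lit 44815) (nat_lit 38) (nat_lit 0x50202050202030202020202050302020202020202020202020202050504050b090406030509) (by decide +kernel)
noncomputable def cP0_249 : Ch SP (nat_lit 10041) (nat_lit 0) (nat_lit 44937) (nat_lit 0) :=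
  sP cP0_248 (nat_lit 44937) (nat_lit 32) (nat_lit 0x60508040203030204020202020509030402050302020302030c020204020507) (by decide +kernel)
noncomputable def cP0_250 : Ch SP (nat_lit 10041) (nat_lit 0) (nat_lit 45065) (nat_lit 0) :=
  sP cP0_249 (nat_lit 45065) (nat_lit 36) (nat_lit 0x90303070202090302030302020202030208020203050308020202020702020802020205) (by decide +kernel)
noncomputable def cP0_251 : Ch SP (nat_lit 10041) (nat_lit 0) (nat_lit 45244) (nat_lit 0) :=
  sP cP0_250 (nat_lit 45244) (nat_lit 59) (nat_lit 0x204030303030302020203050402050209020402020403020305040502030403020203050503030202030402030202020304030202020202020205) (by decide +kernel)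
noncomputable def cP0_252 : Ch SP (nat_lit 10041) (nat_lit 0) (nat_lit 45403) (nat_lit 0) :=
  sP cP0_251 (nat_lit 45403) (nat_lit 50) (nat_lit 0x502020303020302020303030a03020403030403020203040304020302040302030402020a04020503020502030205020202) (by decide +kernel)
noncomputable def cP0_253 : Ch SP (nat_lit 10041) (nat_lit 0) (nat_lit 45560) (nat_lit 0) :=
  sP cP0_252 (nat_lit 45560) (nat_lit 45) (nat_lit 0x70502020202040803040602040403040204030202020305020202050202050203040207060304060203030205) (by decide +kernel)
noncomputable def cP0_254 : Ch SP (nat_lit 10041) (nat_lit 0) (nat_lit 45726) (nat_lit 0) :=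
  sP cP0_253 (nat_lit 45726) (nat_lit 51) (nat_lit 0x40303020605050305030402080305040207020202020503030202020203020204030303030202050302040203050203020304) (by decide +kernel)
noncomputable def cP0_255 : Ch SP (nat_lit 10041) (nat_lit 0) (nat_lit 45888) (nat_lit 0) :=
  sP cP0_254 (nat_lit 45888) (nat_lit 51) (nat_lit 0x30302020207030403020203020202020206040302020205030704030402020203030208040602030302040202020803030203) (by decide +kernel)
noncomputable def cP0_256 : Ch SP (nat_lit 10041) (nat_lit 0) (nat_lit 46054) (nat_lit 0) :=
  sP cP0_255 (nat_lit 46054) (nat_lit 49) (nat_lit 0x9030504030202030205020202070503030402070403060202050404040203040302030202020405030504020202020203) (by decide +kernel)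
noncomputable def cP0_257 : Ch SP (nat_lit 10041) (nat_lit 0) (nat_lit 46196) (nat_lit 0) :=
  sP cP0_256 (nat_lit 46196) (nat_lit 41) (nat_lit 0x20202030703020203050205060405040b040702040202040402040302030302070302020402020202) (by decide +kernel)
noncomputable def cP0_258 : Ch SP (nat_lit 10041) (nat_lit 0) (nat_lit 46303) (nat_lit 0) :=
  sP cP0_257 (nat_lit 46303) (nat_lit 32) (nat_lit 0x302020304040203020213040202020302030203020303020206030304050203) (by decide +kernel)
noncomputable def cP0_259 : Ch SP (nat_lit 10041) (nat_lit 0) (nat_lit 46451) (nat_lit 0) :=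
  sP cP0_258 (nat_lit 46451) (nat_lit 43) (nat_lit 0x3050209030502030303020203040202020303050304030402060709030303020302020202030702030502) (by decide +kernel)
noncomputable def cP0_260 : Ch SP (nat_lit 10041) (nat_lit 0) (nat_lit 46625) (nat_lit 0) :=
  sP cP0_259 (nat_lit 46625) (nat_lit 51) (nat_lit 0xe0305030402040205020302030303020202030203020502040306050403050303020202020602030703060206020202040202) (by decide +kernel)
noncomputable def cP0_261 : Ch SP (nat_lit 10041) (nat_lit 0) (nat_lit 46775) (nat_lit 0) :=
  sP cP0_260 (nat_lit 46775) (nat_lit 39) (nat_lit 0xf05020206070402030203020202050205040203020403020202080705020303020a0402050204) (by decide +kernel)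
noncomputable def cP0_262 : Ch SP (nat_lit 10041) (nat_lit 0) (nat_lit 46881) (nat_lit 0) :=
  sP cP0_261 (nat_lit 46881) (nat_lit 27) (nat_lit 0x70203020202030705100506020204020403030802020203040203) (by decide +kernel)
noncomputable def cP0_263 : Ch SP (nat_lit 10041) (nat_lit 0) (nat_lit 47027) (nat_lit 0) :=
  sP cP0_262 (nat_lit 47027) (nat_lit 40) (nat_lit 0x8090702030302050402020302020203020502050302030303020302030206030808040207050202) (by decide +kernel)
noncomputable def cP0_264 : Ch SP (nat_lit 10041) (nat_lit 0) (nat_lit 47176) (nat_lit 0) :=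
  sP cP0_263 (nat_lit 47176) (nat_lit 42) (nat_lit 0x70202070209040304040303020403020203020302030204030206090303030305030504020502030204) (by decide +kernel)
noncomputable def cP0_265 : Ch SP (nat_lit 10041) (nat_lit 0) (nat_lit 47276) (nat_lit 0) :=
  sP cP0_264 (nat_lit 47276) (nat_lit 19) (nat_lit 0xd030a0d05050402030303040203080a050202) (by decide +kernel)
noncomputable def cP0_266 : Ch SP (nat_lit 10041) (nat_lit 0) (nat_lit 47381) (nat_lit 0) :=
  sP cP0_265 (nat_lit 47381) (nat_lit 25) (nat_lit 0x3050409020303100403040302030303020402050405040603) (by decide +kernel)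

end

end Pool.Agent.MP_797bdc_co.Lk.H
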