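import Pool.Agent.MP_797bdc_co.Lk.DH

namespace Pool.Agent.MP_797bdc_co.Lk.H

noncomputable section

set_option maxRecDepth 100000
set_option linter.defProp false

noncomputable def cP1_0 : Ch SP (nat_lit 47381) (nat_lit 0) (nat_lit 47478) (nat_lit 0) :=
  sP Ch.nil (nat_lit 47478) (nat_lit 23) (nat_lit 0x2020202020402040c0f04040602050404050202020505) (by decide +kernel)
noncomputable def cP1_1 : Ch SP (nat_lit 47381) (nat_lit 0) (nat_lit 47601) (nat_lit 0) :=
  sP cP1_0 (nat_lit 47601) (nat_lit 29) (nat_lit 0x90402030302030505030202030306030404040a020b03060202090305) (by decide +kernel)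
noncomputable def cP1_2 : Ch SP (nat_lit 47381) (nat_lit 0) (nat_lit 47711) (nat_lit 0) :=
  sP cP1_1 (nat_lit 47711) (nat_lit 25) (nat_lit 0x309030203020503050303020306050705030b03020406020a) (by decide +kernel)
noncomputable def cP1_3 : Ch SP (nat_lit 47381) (nat_lit 0) (nat_lit 47772) (nat_lit 0) :=
  sP cP1_2 (nat_lit 47772) (nat_lit 11) (nat_lit 0x4040302020214030a0902) (by decide +kernel)
noncomputable def cP1_4 : Ch SP (nat_lit 47381) (nat_lit 0) (nat_lit 47929) (nat_lit 0) :=
  sP cP1_3 (nat_lit 47929) (nat_lit 49) (nat_lit 0x603020302020402020304020303030302030402020306040802020b020302040203060304030202020202030302020603) (by decide +kernel)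
noncomputable def cP1_5 : Ch SP (nat_lit 47381) (nat_lit 0) (nat_lit 48119) (nat_lit 0) :=
  sP cP1_4 (nat_lit 48119) (nat_lit 63) (nat_lit 0x60302020204030302020204020404020205030303030206030207030202020303020403020302030304020202030402040303040203020303030403060302) (by decide +kernel)
noncomputable def cP1_6 : Ch SP (nat_lit 47381) (nat_lit 0) (nat_lit 48238) (nat_lit 0) :=
  sP cP1_5 (nat_lit 48238) (nat_lit 34) (nat_lit 0x4020303050402020302020202020303040502021104030603020502040602020303) (by decide +kernel)
noncomputable def cP1_7 : Ch SP (nat_lit 47381) (nat_lit 0) (nat_lit 48397) (nat_lit 0) :=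
  sP cP1_6 (nat_lit 48397) (nat_lit 49) (nat_lit 0x305020903020303030302040302020304020302030405060303020a030403020203020302030202040203030202030505) (by decide +kernel)
noncomputable def cP1_8 : Ch SP (nat_lit 47381) (nat_lit 0) (nat_lit 48560) (nat_lit 0) :=
  sP cP1_7 (nat_lit 48560) (nat_lit 51) (nat_lit 0x202030202020306030203020903020303030302040304020304040202030204050202030303030303030203030a0403040403) (by decide +kernel)
noncomputable def cP1_9 : Ch SP (nat_lit 47381) (nat_lit 0) (nat_lit 48680) (nat_lit 0) :=
  sP cP1_8 (nat_lit 48680) (nat_lit 30) (nat_lit 0x110302020204020403040202020606050403050706060304030203030203) (by decide +kernel)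
noncomputable def cP1_10 : Ch SP (nat_lit 47381) (nat_lit 0) (nat_lit 48840) (nat_lit 0) :=
  sP cP1_9 (nat_lit 48840) (nat_lit 50) (nat_lit 0x604020302020208020206040a02030202020203020402020403030602060402020403040202040403020202030303020303) (by decide +kernel)
noncomputable def cP1_11 : Ch SP (nat_lit 47381) (nat_lit 0) (nat_lit 49031) (nat_lit 0) :=
  sP cP1_10 (nat_lit 49031) (nat_lit 63) (nat_lit 0x8020203040302020306040203020203030303030302020a030204030303020202030303020303030202020303020203050202030302020305050303030403) (by decide +kernel)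
noncomputable def cP1_12 : Ch SP (nat_lit 47381) (nat_lit 0) (nat_lit 49225) (nat_lit 0) :=
  sP cP1_11 (nat_lit 49225) (nat_lit 68) (nat_lit 0x203020205020202020202030403030202020203020305020504040302020202030202030305040203050402030603020303030202040402020202030403020202020702) (by decide +kernel)
noncomputable def cP1_13 : Ch SP (nat_lit 47381) (nat_lit 0) (nat_lit 49412) (nat_lit 0) :=
  sP cP1_12 (nat_lit 49412) (nat_lit 63) (nat_lit 0x30302070202040204030203020203040203020603030302040203030504030202030202030202040203030403030304030202040202040202030202040802) (by decide +kernel)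
noncomputable def cP1_14 : Ch SP (nat_lit 47381) (nat_lit 0) (nat_lit 49556) (nat_lit 0) :=
  sP cP1_13 (nat_lit 49556) (nat_lit 41) (nat_lit 0x702080404020c03060202040203030303020402030302030203030302020402040302030604060402) (by decide +kernel)
noncomputable def cP1_15 : Ch SP (nat_lit 47381) (nat_lit 0) (nat_lit 49732) (nat_lit 0) :=
  sP cP1_14 (nat_lit 49732) (nat_lit 57) (nat_lit 0x20303040404070402030502020202030304040203030305040303030302020405020502020205030202050302020303020202020202030802) (by decide +kernel)
noncomputable def cP1_16 : Ch SP (nat_lit 47381) (nat_lit 0) (nat_lit 49922) (nat_lit 0) :=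
  sP cP1_15 (nat_lit 49922) (nat_lit 65) (nat_lit 0x202030303030402030202030202020503030203060302030302020302030302030503020303020305020303030302020303030403020209030303030202040204) (by decide +kernel)
noncomputable def cP1_17 : Ch SP (nat_lit 47381) (nat_lit 0) (nat_lit 50110) (nat_lit 0) :=
  sP cP1_16 (nat_lit 50110) (nat_lit 63) (nat_lit 0x50304020202020202030202020202070203020302030305030403040403030202020402020302020302030403020506040402020405040303030203040302) (by decide +kernel)
noncomputable def cP1_18 : Ch SP (nat_lit 47381) (nat_lit 0) (nat_lit 50330) (nat_lit 0) :=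
  sP cP1_17 (nat_lit 50330) (nat_lit 82) (nat_lit 0x3020202020302020202030302020202040302030304040204020402030302020303030304030302040203020202030402020203040203030303020202030503020504020302040202030202030203020202) (by decide +kernel)
noncomputable def cP1_19 : Ch SP (nat_lit 47381) (nat_lit 0) (nat_lit 50468) (nat_lit 0) :=
  sP cP1_18 (nat_lit 50468) (nat_lit 40) (nat_lit 0x2020207020202080504030202050302020304020204030302040903030403030202030b02030305) (by decide +kernel)
noncomputable def cP1_20 : Ch SP (nat_lit 47381) (nat_lit 0) (nat_lit 50680) (nat_lit 0) :=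
  sP cP1_19 (nat_lit 50680) (nat_lit 74) (nat_lit 0x803020305040302040303020202020202030302030303020203020302030302020303030206030204040302030302030202020203030203030703030303030202020303030302050202) (by decide +kernel)
noncomputable def cP1_21 : Ch SP (nat_lit 47381) (nat_lit 0) (nat_lit 50845) (nat_lit 0) :=
  sP cP1_20 (nat_lit 50845) (nat_lit 51) (nat_lit 0x50303060406020304030303020303040204030203040a04060302020302040202040302020202050206030202020303020302) (by decide +kernel)
noncomputable def cP1_22 : Ch SP (nat_lit 47381) (nat_lit 0) (nat_lit 51009) (nat_lit 0) :=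
  sP cP1_21 (nat_lit 51009) (nat_lit 53) (nat_lit 0x20202020402020a020902030402030302030303030402020303040302020302030203030402030204030203020507040302020304) (by decide +kernel)
noncomputable def cP1_23 : Ch SP (nat_lit 47381) (nat_lit 0) (nat_lit 51203) (nat_lit 0) :=
  sP cP1_22 (nat_lit 51203) (nat_lit 67) (nat_lit 0xc020202050705020402020302020202020204020302020203030202020303020302030403020204030202030406030202020304020402050303020202020205020202) (by decide +kernel)
noncomputable def cP1_24 : Ch SP (nat_lit 47381) (nat_lit 0) (nat_lit 51318) (nat_lit 0) :=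
  sP cP1_23 (nat_lit 51318) (nat_lit 25) (nat_lit 0xb040305030205050303030805060703020803040303050704) (by decide +kernel)
noncomputable def cP1_25 : Ch SP (nat_lit 47381) (nat_lit 0) (nat_lit 51429) (nat_lit 0) :=
  sP cP1_24 (nat_lit 51429) (nat_lit 25) (nat_lit 0xb020404020202020402030204090302060d03090504040405) (by decide +kernel)
noncomputable def cP1_26 : Ch SP (nat_lit 47381) (nat_lit 0) (nat_lit 51526) (nat_lit 0) :=
  sP cP1_25 (nat_lit 51526) (nat_lit 19) (nat_lit 0x9020503020603090203060f04060304040308) (by decide +kernel)
noncomputable def cP1_27 : Ch SP (nat_lit 47381) (nat_lit 0) (nat_lit 51614) (nat_lit 0) :=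
  sP cP1_26 (nat_lit 51614) (nat_lit 19) (nat_lit 0x505020203020203020202060c090303020a0d) (by decide +kernel)
noncomputable def cP1_28 : Ch SP (nat_lit 47381) (nat_lit 0) (nat_lit 51738) (nat_lit 0) :=
  sP cP1_27 (nat_lit 51738) (nat_lit 31) (nat_lit 0xa020702020402020305020202030c020203030403030b0602030308030206) (by decide +kernel)
noncomputable def cP1_29 : Ch SP (nat_lit 47381) (nat_lit 0) (nat_lit 51841) (nat_lit 0) :=
  sP cP1_28 (nat_lit 51841) (nat_lit 20) (nat_lit 0xa0403040204030b0303050c0205050702040608) (by decide +kernel)
noncomputable def cP1_30 : Ch SP (nat_lit 47381) (nat_lit 0) (nat_lit 51969) (nat_lit 0) :=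
  sP cP1_29 (nat_lit 51969) (nat_lit 34) (nat_lit 0x305020505030d080502020203040404030206050403020703030202020304020302) (by decide +kernel)
noncomputable def cP1_31 : Ch SP (nat_lit 47381) (nat_lit 0) (nat_lit 52064) (nat_lit 0) :=
  sP cP1_30 (nat_lit 52064) (nat_lit 24) (nat_lit 0x40203030403050403020302070202031305020603030203) (by decide +kernel)
noncomputable def cP1_32 : Ch SP (nat_lit 47381) (nat_lit 0) (nat_lit 52171) (nat_lit 0) :=
  sP cP1_31 (nat_lit 52171) (nat_lit 25) (nat_lit 0x502020302030303020d090902060206040404090503020202) (by decide +kernel)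
noncomputable def cP1_33 : Ch SP (nat_lit 47381) (nat_lit 0) (nat_lit 52250) (nat_lit 0) :=
  sP cP1_32 (nat_lit 52250) (nat_lit 20) (nat_lit 0x402020207150202030402020303030305020205) (by decide +kernel)
noncomputable def cP1_34 : Ch SP (nat_lit 47381) (nat_lit 0) (nat_lit 52401) (nat_lit 0) :=
  sP cP1_33 (nat_lit 52401) (nat_lit 43) (nat_lit 0xa02020205060202040303070502030303040205020c030402020405020203020202040404030303030203) (by decide +kernel)
noncomputable def cP1_35 : Ch SP (nat_lit 47381) (nat_lit 0) (nat_lit 52541) (nat_lit 0) :=
  sP cP1_34 (nat_lit 52541) (nat_lit 38) (nat_lit 0x90405040a020302020202020202080406020303020206030202040409020202030307020305) (by decide +kernel)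
noncomputable def cP1_36 : Ch SP (nat_lit 47381) (nat_lit 0) (nat_lit 52698) (nat_lit 0) :=
  sP cP1_35 (nat_lit 52698) (nat_lit 41) (nat_lit 0x803020202020303050503040706040303070304050207050303050405030503040503020303020402) (by decide +kernel)
noncomputable def cP1_37 : Ch SP (nat_lit 47381) (nat_lit 0) (nat_lit 52821) (nat_lit 0) :=
  sP cP1_36 (nat_lit 52821) (nat_lit 31) (nat_lit 0x6050404030304070d03030208030304020202070402020303030203070402) (by decide +kernel)
noncomputable def cP1_38 : Ch SP (nat_lit 47381) (nat_lit 0) (nat_lit 52991) (nat_lit 0) :=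
  sP cP1_37 (nat_lit 52991) (nat_lit 52) (nat_lit 0x2030206030404030204030302040203030304020202020502040405040205020507050202040206030202020403040502030402) (by decide +kernel)
noncomputable def cP1_39 : Ch SP (nat_lit 47381) (nat_lit 0) (nat_lit 53121) (nat_lit 0) :=
  sP cP1_38 (nat_lit 53121) (nat_lit 34) (nat_lit 0x503060703030507020204020802020b040202050202030203040303030607030202) (by decide +kernel)
noncomputable def cP1_40 : Ch SP (nat_lit 47381) (nat_lit 0) (nat_lit 53304) (nat_lit 0) :=
  sP cP1_39 (nat_lit 53304) (nat_lit 60) (nat_lit 0x50403020202020202030404030403050302040202020204060505020305030402020203020302020302050203020302020204030303020902040203) (by decide +kernel)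
noncomputable def cP1_41 : Ch SP (nat_lit 47381) (nat_lit 0) (nat_lit 53401) (nat_lit 0) :=
  sP cP1_40 (nat_lit 53401) (nat_lit 22) (nat_lit 0xc0604020304050203020f04020302020d0202020502) (by decide +kernel)
noncomputable def cP1_42 : Ch SP (nat_lit 47381) (nat_lit 0) (nat_lit 53525) (nat_lit 0) :=
  sP cP1_41 (nat_lit 53525) (nat_lit 30) (nat_lit 0x5040b06060204070204040402020a020503020405040403020403040402) (by decide +kernel)
noncomputable def cP1_43 : Ch SP (nat_lit 47381) (nat_lit 0) (nat_lit 53658) (nat_lit 0) :=
  sP cP1_42 (nat_lit 53658) (nat_lit 36) (nat_lit 0x7030304020303030303020b020205040304030405020302020402020a02030605040403) (by decide +kernel)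
noncomputable def cP1_44 : Ch SP (nat_lit 47381) (nat_lit 0) (nat_lit 53775) (nat_lit 0) :=
  sP cP1_43 (nat_lit 53775) (nat_lit 29) (nat_lit 0x30202030305030d020205040305030205030207030507090504030202) (by decide +kernel)
noncomputable def cP1_45 : Ch SP (nat_lit 47381) (nat_lit 0) (nat_lit 53943) (nat_lit 0) :=
  sP cP1_44 (nat_lit 53943) (nat_lit 54) (nat_lit 0x30304030203020203020503050203020503040202020507030302070302040202050202020202030202030402030903020302050203) (by decide +kernel)
noncomputable def cP1_46 : Ch SP (nat_lit 47381) (nat_lit 0) (nat_lit 54123) (nat_lit 0) :=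
  sP cP1_45 (nat_lit 54123) (nat_lit 56) (nat_lit 0x1004030303020202090304030203030205020202050302030303020202020203040202020207030202020302040203030304030202070304) (by decide +kernel)
noncomputable def cP1_47 : Ch SP (nat_lit 47381) (nat_lit 0) (nat_lit 54285) (nat_lit 0) :=
  sP cP1_46 (nat_lit 54285) (nat_lit 50) (nat_lit 0x703020203020202040305040303060305060203020205040402040402020303070502020202020702020206030202020302) (by decide +kernel)
noncomputable def cP1_48 : Ch SP (nat_lit 47381) (nat_lit 0) (nat_lit 54451) (nat_lit 0) :=
  sP cP1_47 (nat_lit 54451) (nat_lit 54) (nat_lit 0x70703020505020303030707020302030202020202020302020202020302030202030202020207020204040603020302020404040203) (by decide +kernel)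
noncomputable def cP1_49 : Ch SP (nat_lit 47381) (nat_lit 0) (nat_lit 54601) (nat_lit 0) :=
  sP cP1_48 (nat_lit 54601) (nat_lit 45) (nat_lit 0x408040202030304050b0402020302020202070303020203020303040402020503020202020203030505040304) (by decide +kernel)
noncomputable def cP1_50 : Ch SP (nat_lit 47381) (nat_lit 0) (nat_lit 54768) (nat_lit 0) :=
  sP cP1_49 (nat_lit 54768) (nat_lit 47) (nat_lit 0x904020302030202030204030207040603020204030303020302020402020204030505030402050704040504050406) (by decide +kernel)
noncomputable def cP1_51 : Ch SP (nat_lit 47381) (nat_lit 0) (nat_lit 54926) (nat_lit 0) :=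
  sP cP1_50 (nat_lit 54926) (nat_lit 47) (nat_lit 0x40603030303020302020303030306020303030302030203020203030202030304040302020205040507070a020404) (by decide +kernel)
noncomputable def cP1_52 : Ch SP (nat_lit 47381) (nat_lit 0) (nat_lit 55068) (nat_lit 0) :=
  sP cP1_51 (nat_lit 55068) (nat_lit 38) (nat_lit 0x506090502020305020302020503020202030303070402020304070302040302070604040207) (by decide +kernel)
noncomputable def cP1_53 : Ch SP (nat_lit 47381) (nat_lit 0) (nat_lit 55229) (nat_lit 0) :=
  sP cP1_52 (nat_lit 55229) (nat_lit 51) (nat_lit 0x60303040202030203030602030202080202030403020206040202020509050202020802020203020203030202020203030205) (by decide +kernel)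
noncomputable def cP1_54 : Ch SP (nat_lit 47381) (nat_lit 0) (nat_lit 55388) (nat_lit 0) :=
  sP cP1_53 (nat_lit 55388) (nat_lit 48) (nat_lit 0x90303020602060202030402030202030502060203030404050402030706060302040302030203020402030202020202) (by decide +kernel)
noncomputable def cP1_55 : Ch SP (nat_lit 47381) (nat_lit 0) (nat_lit 55566) (nat_lit 0) :=
  sP cP1_54 (nat_lit 55566) (nat_lit 57) (nat_lit 0x703030302020202040202020b0303030205020302020304040303030302030303030404020302020502030303020203020402020204050406) (by decide +kernel)
noncomputable def cP1_56 : Ch SP (nat_lit 47381) (nat_lit 0) (nat_lit 55733) (nat_lit 0) :=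
  sP cP1_55 (nat_lit 55733) (nat_lit 51) (nat_lit 0x50502020202020202030203040202030203020203050402020403030205030302030803060403030202030404040703050307) (by decide +kernel)
noncomputable def cP1_57 : Ch SP (nat_lit 47381) (nat_lit 0) (nat_lit 55825) (nat_lit 0) :=
  sP cP1_56 (nat_lit 55825) (nat_lit 25) (nat_lit 0x3040205040303020414030503020302030305030202020202) (by decide +kernel)
noncomputable def cP1_58 : Ch SP (nat_lit 47381) (nat_lit 0) (nat_lit 55980) (nat_lit 0) :=
  sP cP1_57 (nat_lit 55980) (nat_lit 44) (nat_lit 0xd03050607040503060407020303020202030304030306060202020302020202020202040303030402030302) (by decide +kernel)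
noncomputable def cP1_59 : Ch SP (nat_lit 47381) (nat_lit 0) (nat_lit 56078) (nat_lit 0) :=
  sP cP1_58 (nat_lit 56078) (nat_lit 20) (nat_lit 0xa0903020906030e050202040502020202070405) (by decide +kernel)
noncomputable def cP1_60 : Ch SP (nat_lit 47381) (nat_lit 0) (nat_lit 56191) (nat_lit 0) :=
  sP cP1_59 (nat_lit 56191) (nat_lit 26) (nat_lit 0x6050d0204080406050702020302030705040503020503030202) (by decide +kernel)
noncomputable def cP1_61 : Ch SP (nat_lit 47381) (nat_lit 0) (nat_lit 56276) (nat_lit 0) :=
  sP cP1_60 (nat_lit 56276) (nat_lit 11) (nat_lit 0x150507070b0203040d0a02) (by decide +kernel)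
noncomputable def cP1_62 : Ch SP (nat_lit 47381) (nat_lit 0) (nat_lit 56399) (nat_lit 0) :=
  sP cP1_61 (nat_lit 56399) (nat_lit 29) (nat_lit 0xb0202020208040302030303020202060d030204050704080404050205) (by decide +kernel)
noncomputable def cP1_63 : Ch SP (nat_lit 47381) (nat_lit 0) (nat_lit 56508) (nat_lit 0) :=
  sP cP1_62 (nat_lit 56508) (nat_lit 25) (nat_lit 0x2020202040208040706030b05020305020a05020307040602) (by decide +kernel)
noncomputable def cP1_64 : Ch SP (nat_lit 47381) (nat_lit 0) (nat_lit 56595) (nat_lit 0) :=
  sP cP1_63 (nat_lit 56595) (nat_lit 17) (nat_lit 0x704020b09060403030202050502020f05) (by decide +kernel)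
noncomputable def cP1_65 : Ch SP (nat_lit 47381) (nat_lit 0) (nat_lit 56723) (nat_lit 0) :=
  sP cP1_64 (nat_lit 56723) (nat_lit 30) (nat_lit 0xb040405060303030302040203040405030202020307060202020b090407) (by decide +kernel)
noncomputable def cP1_66 : Ch SP (nat_lit 47381) (nat_lit 0) (nat_lit 56847) (nat_lit 0) :=
  sP cP1_65 (nat_lit 56847) (nat_lit 27) (nat_lit 0xd0405060502040803070303030304060502020302040307040805) (by decide +kernel)
noncomputable def cP1_67 : Ch SP (nat_lit 47381) (nat_lit 0) (nat_lit 56983) (nat_lit 0) :=
  sP cP1_66 (nat_lit 56983) (nat_lit 38) (nat_lit 0x7030804080b0502030202040304020208060302020202030202020205040202040202050202) (by decide +kernel)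
noncomputable def cP1_68 : Ch SP (nat_lit 47381) (nat_lit 0) (nat_lit 57128) (nat_lit 0) :=
  sP cP1_67 (nat_lit 57128) (nat_lit 44) (nat_lit 0x7060f0702030303030203020202030303040303040303030202030203020203030403020202040303040202) (by decide +kernel)
noncomputable def cP1_69 : Ch SP (nat_lit 47381) (nat_lit 0) (nat_lit 57259) (nat_lit 0) :=
  sP cP1_68 (nat_lit 57259) (nat_lit 35) (nat_lit 0x404070203020303090303030303030202020702030307020202020209030306090305) (by decide +kernel)
noncomputable def cP1_70 : Ch SP (nat_lit 47381) (nat_lit 0) (nat_lit 57453) (nat_lit 0) :=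
  sP cP1_69 (nat_lit 57453) (nat_lit 66) (nat_lit 0x50203030804030302020603030303020202020202030403050303030202040203020304030203020303020303020203040203020303030302030203060205020202) (by decide +kernel)
noncomputable def cP1_71 : Ch SP (nat_lit 47381) (nat_lit 0) (nat_lit 57610) (nat_lit 0) :=
  sP cP1_70 (nat_lit 57610) (nat_lit 47) (nat_lit 0x9040703030302030d0606020202040302020303030202030302020402040203030302030205030203020203040204) (by decide +kernel)
noncomputable def cP1_72 : Ch SP (nat_lit 47381) (nat_lit 0) (nat_lit 57747) (nat_lit 0) :=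
  sP cP1_71 (nat_lit 57747) (nat_lit 38) (nat_lit 0xb02030802050302050403020302020202030204020203050302080603050403020405020404) (by decide +kernel)
noncomputable def cP1_73 : Ch SP (nat_lit 47381) (nat_lit 0) (nat_lit 57933) (nat_lit 0) :=
  sP cP1_72 (nat_lit 57933) (nat_lit 61) (nat_lit 0x4040303030303060302020402040703030203020204030305020504030202020303020202020203030203030202040304030602030304050202030203) (by decide +kernel)
noncomputable def cP1_74 : Ch SP (nat_lit 47381) (nat_lit 0) (nat_lit 58086) (nat_lit 0) :=
  sP cP1_73 (nat_lit 58086) (nat_lit 45) (nat_lit 0x7020202050b030503030304020202020605040303030403030205030202040202030603030203020503040302) (by decide +kernel)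
noncomputable def cP1_75 : Ch SP (nat_lit 47381) (nat_lit 0) (nat_lit 58250) (nat_lit 0) :=
  sP cP1_74 (nat_lit 58250) (nat_lit 50) (nat_lit 0x203020402040306020203020202030303080202030503050203080703030203040302030304050303030303030304030302) (by decide +kernel)
noncomputable def cP1_76 : Ch SP (nat_lit 47381) (nat_lit 0) (nat_lit 58408) (nat_lit 0) :=
  sP cP1_75 (nat_lit 58408) (nat_lit 48) (nat_lit 0x90503060202030203050302020305030303070203030303020202090202040402020305030204030203030202030502) (by decide +kernel)
noncomputable def cP1_77 : Ch SP (nat_lit 47381) (nat_lit 0) (nat_lit 58557) (nat_lit 0) :=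
  sP cP1_76 (nat_lit 58557) (nat_lit 44) (nat_lit 0x80303040203020203020202020202030202060304090402020304020302020303030204030b050505020305) (by decide +kernel)
noncomputable def cP1_78 : Ch SP (nat_lit 47381) (nat_lit 0) (nat_lit 58731) (nat_lit 0) :=
  sP cP1_77 (nat_lit 58731) (nat_lit 57) (nat_lit 0x80207020303020303040202020205020302030202020202020302020305050302020505040209030402020202020303020303020703030202) (by decide +kernel)
noncomputable def cP1_79 : Ch SP (nat_lit 47381) (nat_lit 0) (nat_lit 58903) (nat_lit 0) :=
  sP cP1_78 (nat_lit 58903) (nat_lit 56) (nat_lit 0x303030403020803030202020302020204030304020302020402020503030202030306020202020303020506030203030303030802020206) (by decide +kernel)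
noncomputable def cP1_80 : Ch SP (nat_lit 47381) (nat_lit 0) (nat_lit 59099) (nat_lit 0) :=
  sP cP1_79 (nat_lit 59099) (nat_lit 70) (nat_lit 0x2050302020304020302020203020202080203020502030403020202010203040304050303020202050303030402020203020303040205020202020302020502020302030302) (by decide +kernel)
noncomputable def cP1_81 : Ch SP (nat_lit 47381) (nat_lit 0) (nat_lit 59280) (nat_lit 0) :=
  sP cP1_80 (nat_lit 59280) (nat_lit 59) (nat_lit 0x302030305020204040203020202040303020302030205020302030203030203030305030402020202050507030403020402020303030304080203) (by decide +kernel)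
noncomputable def cP1_82 : Ch SP (nat_lit 47381) (nat_lit 0) (nat_lit 59463) (nat_lit 0) :=
  sP cP1_81 (nat_lit 59463) (nat_lit 60) (nat_lit 0x20303030202020408020203030402020202020402020304020302050302040402040303030304040205020505030403030202050202020504020303) (by decide +kernel)
noncomputable def cP1_83 : Ch SP (nat_lit 47381) (nat_lit 0) (nat_lit 59626) (nat_lit 0) :=
  sP cP1_82 (nat_lit 59626) (nat_lit 50) (nat_lit 0xa02050203020203030403020204030404020203040205030302020402050606020803020305030302060203020202020202) (by decide +kernel)
noncomputable def cP1_84 : Ch SP (nat_lit 47381) (nat_lit 0) (nat_lit 59815) (nat_lit 0) :=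
  sP cP1_83 (nat_lit 59815) (nat_lit 63) (nat_lit 0x30704020302030205020305030306020303030304020205050305030402030203030302020302020203020203050303020302020203030304030302020302) (by decide +kernel)
noncomputable def cP1_85 : Ch SP (nat_lit 47381) (nat_lit 0) (nat_lit 59983) (nat_lit 0) :=
  sP cP1_84 (nat_lit 59983) (nat_lit 54) (nat_lit 0x503030203030403030202020303020203030c0403020205030303060203020303020303020302030205030202030202040302030505) (by decide +kernel)
noncomputable def cP1_86 : Ch SP (nat_lit 47381) (nat_lit 0) (nat_lit 60177) (nat_lit 0) :=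
  sP cP1_85 (nat_lit 60177) (nat_lit 68) (nat_lit 0x503030504030202020403030207060203020205060402020202030202020204020202020203020202030302020302020303030304030202030203020502030302030303) (by decide +kernel)
noncomputable def cP1_87 : Ch SP (nat_lit 47381) (nat_lit 0) (nat_lit 60383) (nat_lit 0) :=
  sP cP1_86 (nat_lit 60383) (nat_lit 75) (nat_lit 0x50403020202020302030304020303020203020302020202020205030303040202020302020202020202020302020202030302020205030203030502060503020702040503020302020202) (by decide +kernel)
noncomputable def cP1_88 : Ch SP (nat_lit 47381) (nat_lit 0) (nat_lit 60524) (nat_lit 0) :=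
  sP cP1_87 (nat_lit 60524) (nat_lit 42) (nat_lit 0x90205030202020202030202090303020a07040202020306030202040202030303030204040303050202) (by decide +kernel)
noncomputable def cP1_89 : Ch SP (nat_lit 47381) (nat_lit 0) (nat_lit 60639) (nat_lit 0) :=
  sP cP1_88 (nat_lit 60639) (nat_lit 25) (nat_lit 0xf040502040206070e04040603030403030602020502020502) (by decide +kernel)
noncomputable def cP1_90 : Ch SP (nat_lit 47381) (nat_lit 0) (nat_lit 60782) (nat_lit 0) :=
  sP cP1_89 (nat_lit 60782) (nat_lit 40) (nat_lit 0x403020203030d050502030303020703030203040302020405040304050204020204040404020305) (by decide +kernel)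
noncomputable def cP1_91 : Ch SP (nat_lit 47381) (nat_lit 0) (nat_lit 60884) (nat_lit 0) :=
  sP cP1_90 (nat_lit 60884) (nat_lit 26) (nat_lit 0x803020202020306030302030302110708050503020202020302) (by decide +kernel)
noncomputable def cP1_92 : Ch SP (nat_lit 47381) (nat_lit 0) (nat_lit 60996) (nat_lit 0) :=
  sP cP1_91 (nat_lit 60996) (nat_lit 25) (nat_lit 0x202070402020303030507070c030505020403080605030603) (by decide +kernel)
noncomputable def cP1_93 : Ch SP (nat_lit 47381) (nat_lit 0) (nat_lit 61042) (nat_lit 0) :=
  sP cP1_92 (nat_lit 61042) (nat_lit 6) (nat_lit 0x203160a0603) (by decide +kernel)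
noncomputable def cP1_94 : Ch SP (nat_lit 47381) (nat_lit 0) (nat_lit 61151) (nat_lit 0) :=
  sP cP1_93 (nat_lit 61151) (nat_lit 25) (nat_lit 0x60707060503020505030b040604020c030203020202020302) (by decide +kernel)
noncomputable def cP1_95 : Ch SP (nat_lit 47381) (nat_lit 0) (nat_lit 61262) (nat_lit 0) :=
  sP cP1_94 (nat_lit 61262) (nat_lit 27) (nat_lit 0xc050302050302070403030207050402020204020b040203030207) (by decide +kernel)
noncomputable def cP1_96 : Ch SP (nat_lit 47381) (nat_lit 0) (nat_lit 61361) (nat_lit 0) :=
  sP cP1_95 (nat_lit 61361) (nat_lit 18) (nat_lit 0x7080b08070405020507030a030304020406) (by decide +kernel)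
noncomputable def cP1_97 : Ch SP (nat_lit 47381) (nat_lit 0) (nat_lit 61463) (nat_lit 0) :=
  sP cP1_96 (nat_lit 61463) (nat_lit 21) (nat_lit 0x7050402020b080502070304020a0b060203020204) (by decide +kernel)
noncomputable def cP1_98 : Ch SP (nat_lit 47381) (nat_lit 0) (nat_lit 61570) (nat_lit 0) :=
  sP cP1_97 (nat_lit 61570) (nat_lit 20) (nat_lit 0xd04030803020e07030705020203060505040308) (by decide +kernel)
noncomputable def cP1_99 : Ch SP (nat_lit 47381) (nat_lit 0) (nat_lit 61666) (nat_lit 0) :=
  sP cP1_98 (nat_lit 61666) (nat_lit 23) (nat_lit 0x402020305050502020202020502030611090502030404) (by decide +kernel)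
noncomputable def cP1_100 : Ch SP (nat_lit 47381) (nat_lit 0) (nat_lit 61788) (nat_lit 0) :=
  sP cP1_99 (nat_lit 61788) (nat_lit 29) (nat_lit 0xb0502030204050702030402070b050203030202080902020207020302) (by decide +kernel)
noncomputable def cP1_101 : Ch SP (nat_lit 47381) (nat_lit 0) (nat_lit 61915) (nat_lit 0) :=
  sP cP1_100 (nat_lit 61915) (nat_lit 30) (nat_lit 0x90203020203030a02030403060305040205040202030207040605090408) (by decide +kernel)
noncomputable def cP1_102 : Ch SP (nat_lit 47381) (nat_lit 0) (nat_lit 62023) (nat_lit 0) :=
  sP cP1_101 (nat_lit 62023) (nat_lit 27) (nat_lit 0x7050302060202020303030205030202030a0e03020a0502020302) (by decide +kernel)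
noncomputable def cP1_103 : Ch SP (nat_lit 47381) (nat_lit 0) (nat_lit 62163) (nat_lit 0) :=
  sP cP1_102 (nat_lit 62163) (nat_lit 38) (nat_lit 0x702020202020409070503020303020403030402020202020205020307020605050803030208) (by decide +kernel)
noncomputable def cP1_104 : Ch SP (nat_lit 47381) (nat_lit 0) (nat_lit 62298) (nat_lit 0) :=
  sP cP1_103 (nat_lit 62298) (nat_lit 36) (nat_lit 0x20302050302060303040203070409030203080304040804030408030403020302020202) (by decide +kernel)
noncomputable def cP1_105 : Ch SP (nat_lit 47381) (nat_lit 0) (nat_lit 62455) (nat_lit 0) :=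
  sP cP1_104 (nat_lit 62455) (nat_lit 50) (nat_lit 0x202020208030204030504020303060202020702020202050208080202030203020506040202030202020302030202020303) (by decide +kernel)
noncomputable def cP1_106 : Ch SP (nat_lit 47381) (nat_lit 0) (nat_lit 62635) (nat_lit 0) :=
  sP cP1_105 (nat_lit 62635) (nat_lit 60) (nat_lit 0x20302030205030205070403020302020502020305020504020705030203020202020402030202020302020202030202030204040304060203030302) (by decide +kernel)
noncomputable def cP1_107 : Ch SP (nat_lit 47381) (nat_lit 0) (nat_lit 62738) (nat_lit 0) :=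
  sP cP1_106 (nat_lit 62738) (nat_lit 21) (nat_lit 0x3040d050306050906090504030402040502020405) (by decide +kernel)
noncomputable def cP1_108 : Ch SP (nat_lit 47381) (nat_lit 0) (nat_lit 62878) (nat_lit 0) :=
  sP cP1_107 (nat_lit 62878) (nat_lit 37) (nat_lit 0x3040306040403020404030604020303020304030203020303030305070209030302080408) (by decide +kernel)
noncomputable def cP1_109 : Ch SP (nat_lit 47381) (nat_lit 0) (nat_lit 63021) (nat_lit 0) :=
  sP cP1_108 (nat_lit 63021) (nat_lit 44) (nat_lit 0x80402030303020402020402020303050305030202020302050207040202020302030e020205020203020302) (by decide +kernel)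
noncomputable def cP1_110 : Ch SP (nat_lit 47381) (nat_lit 0) (nat_lit 63196) (nat_lit 0) :=
  sP cP1_109 (nat_lit 63196) (nat_lit 56) (nat_lit 0x504030305030202030302020203040204040303030304020303060202050603060202020202020202020303020205070302070302040202) (by decide +kernel)
noncomputable def cP1_111 : Ch SP (nat_lit 47381) (nat_lit 0) (nat_lit 63320) (nat_lit 0) :=
  sP cP1_110 (nat_lit 63320) (nat_lit 32) (nat_lit 0x60202050202020304080308040a020202030807030203070203020504040202) (by decide +kernel)
noncomputable def cP1_112 : Ch SP (nat_lit 47381) (nat_lit 0) (nat_lit 63484) (nat_lit 0) :=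
  sP cP1_111 (nat_lit 63484) (nat_lit 50) (nat_lit 0x204040203030803040404020302030602020302020403020203040304050203040204020306020204030802050403020203) (by decide +kernel)
noncomputable def cP1_113 : Ch SP (nat_lit 47381) (nat_lit 0) (nat_lit 63637) (nat_lit 0) :=
  sP cP1_112 (nat_lit 63637) (nat_lit 46) (nat_lit 0x2020303020202020207020303030203030204020202030208070304080304040202030305020706030204050203) (by decide +kernel)
noncomputable def cP1_114 : Ch SP (nat_lit 47381) (nat_lit 0) (nat_lit 63767) (nat_lit 0) :=
  sP cP1_113 (nat_lit 63767) (nat_lit 34) (nat_lit 0x602050905020603040606020203060302020303020203020a030703030402030402) (by decide +kernel)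
noncomputable def cP1_115 : Ch SP (nat_lit 47381) (nat_lit 0) (nat_lit 63940) (nat_lit 0) :=
  sP cP1_114 (nat_lit 63940) (nat_lit 55) (nat_lit 0x2030206040604040403020303020404020303020303030308020203040302040203040703020203020302030204030203020602020203) (by decide +kernel)
noncomputable def cP1_116 : Ch SP (nat_lit 47381) (nat_lit 0) (nat_lit 64088) (nat_lit 0) :=
  sP cP1_115 (nat_lit 64088) (nat_lit 41) (nat_lit 0x205020202050202060202020302060603050202030502070305050504030604030406020303020307) (by decide +kernel)
noncomputable def cP1_117 : Ch SP (nat_lit 47381) (nat_lit 0) (nat_lit 64225) (nat_lit 0) :=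
  sP cP1_116 (nat_lit 64225) (nat_lit 36) (nat_lit 0x6030402020205030202030402020503070a030302040606020403060302050207030405) (by decide +kernel)
noncomputable def cP1_118 : Ch SP (nat_lit 47381) (nat_lit 0) (nat_lit 64383) (nat_lit 0) :=
  sP cP1_117 (nat_lit 64383) (nat_lit 49) (nat_lit 0x2020503050202020303030303020302020203020702030702030505030203050202040202020903030203030202060307) (by decide +kernel)
noncomputable def cP1_119 : Ch SP (nat_lit 47381) (nat_lit 0) (nat_lit 64515) (nat_lit 0) :=
  sP cP1_118 (nat_lit 64515) (nat_lit 33) (nat_lit 0x40602090302030204060202030203020303070305070304030603050204060805) (by decide +kernel)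
noncomputable def cP1_120 : Ch SP (nat_lit 47381) (nat_lit 0) (nat_lit 64685) (nat_lit 0) :=
  sP cP1_119 (nat_lit 64685) (nat_lit 52) (nat_lit 0x5050303020304020304030203040403030503030405020302020402030602050304020303020508030603020302030202020302) (by decide +kernel)
noncomputable def cP1_121 : Ch SP (nat_lit 47381) (nat_lit 0) (nat_lit 64832) (nat_lit 0) :=
  sP cP1_120 (nat_lit 64832) (nat_lit 42) (nat_lit 0x110703030302030403020302030309030302020504040402040502040303020202020202030302030304) (by decide +kernel)
noncomputable def cP1_122 : Ch SP (nat_lit 47381) (nat_lit 0) (nat_lit 64982) (nat_lit 0) :=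
  sP cP1_121 (nat_lit 64982) (nat_lit 50) (nat_lit 0x903020303020302020303020202020202020202020202030202020402020a04020d02020302030203040402030302030502) (by decide +kernel)
noncomputable def cP1_123 : Ch SP (nat_lit 47381) (nat_lit 0) (nat_lit 65121) (nat_lit 0) :=
  sP cP1_122 (nat_lit 65121) (nat_lit 38) (nat_lit 0x304020303030a04030203040703050302040304070903030305050403020202020502030202) (by decide +kernel)
noncomputable def cP1_124 : Ch SP (nat_lit 47381) (nat_lit 0) (nat_lit 65258) (nat_lit 0) :=
  sP cP1_123 (nat_lit 65258) (nat_lit 35) (nat_lit 0x6050302020304050605030202030b0503040504020705030404070304020202030303) (by decide +kernel)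
noncomputable def cP1_125 : Ch SP (nat_lit 47381) (nat_lit 0) (nat_lit 65413) (nat_lit 0) :=
  sP cP1_124 (nat_lit 65413) (nat_lit 45) (nat_lit 0x60202080603030303040502030302030405040302030303030303020304020203020302040808040302030402) (by decide +kernel)
noncomputable def cP1_126 : Ch SP (nat_lit 47381) (nat_lit 0) (nat_lit 65558) (nat_lit 0) :=
  sP cP1_125 (nat_lit 65558) (nat_lit 41) (nat_lit 0x50304020203020503070302040205020804020202050203030202040405030202030503040202070a) (by decide +kernel)
noncomputable def cP1_127 : Ch SP (nat_lit 47381) (nat_lit 0) (nat_lit 65691) (nat_lit 0) :=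
  sP cP1_126 (nat_lit 65691) (nat_lit 36) (nat_lit 0x202070403030803040402030904030307030404020305020a0303050202030202020302) (by decide +kernel)
noncomputable def cP1_128 : Ch SP (nat_lit 47381) (nat_lit 0) (nat_lit 65840) (nat_lit 0) :=
  sP cP1_127 (nat_lit 65840) (nat_lit 43) (nat_lit 0x3020203030304020204020303020302030608030203020302030702060407030509030202050403030204) (by decide +kernel)
noncomputable def cP1_129 : Ch SP (nat_lit 47381) (nat_lit 0) (nat_lit 66007) (nat_lit 0) :=
  sP cP1_128 (nat_lit 66007) (nat_lit 52) (nat_lit 0x2020302020205020604020502040402030208040303040304020502020402030302020205030406020202030402070303020403) (by decide +kernel)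
noncomputable def cP1_130 : Ch SP (nat_lit 47381) (nat_lit 0) (nat_lit 66137) (nat_lit 0) :=
  sP cP1_129 (nat_lit 66137) (nat_lit 33) (nat_lit 0x70403050203020b05080703070504070402030204020202020602030203020303) (by decide +kernel)
noncomputable def cP1_131 : Ch SP (nat_lit 47381) (nat_lit 0) (nat_lit 66262) (nat_lit 0) :=
  sP cP1_130 (nat_lit 66262) (nat_lit 33) (nat_lit 0x407050202020203080405030206020203030202020607060902020302020a0203) (by decide +kernel)
noncomputable def cP1_132 : Ch SP (nat_lit 47381) (nat_lit 0) (nat_lit 66381) (nat_lit 0) :=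
  sP cP1_131 (nat_lit 66381) (nat_lit 29) (nat_lit 0x9020204030302040409030603040702020302020302020c0804040206) (by decide +kernel)
noncomputable def cP1_133 : Ch SP (nat_lit 47381) (nat_lit 0) (nat_lit 66512) (nat_lit 0) :=
  sP cP1_132 (nat_lit 66512) (nat_lit 30) (nat_lit 0x130202020304050a030b0303040203020202030402080305020503040802) (by decide +kernel)
noncomputable def cP1_134 : Ch SP (nat_lit 47381) (nat_lit 0) (nat_lit 66594) (nat_lit 0) :=
  sP cP1_133 (nat_lit 66594) (nat_lit 22) (nat_lit 0xc020205030302020202030202140202040202030203) (by decide +kernel)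
noncomputable def cP1_135 : Ch SP (nat_lit 47381) (nat_lit 0) (nat_lit 66703) (nat_lit 0) :=
  sP cP1_134 (nat_lit 66703) (nat_lit 24) (nat_lit 0xa020202050402040202080c0303040c0204020507020208) (by decide +kernel)
noncomputable def cP1_136 : Ch SP (nat_lit 47381) (nat_lit 0) (nat_lit 66814) (nat_lit 0) :=
  sP cP1_135 (nat_lit 66814) (nat_lit 27) (nat_lit 0x304030202040502020403020c0a05030202090804040202020406) (by decide +kernel)
noncomputable def cP1_137 : Ch SP (nat_lit 47381) (nat_lit 0) (nat_lit 66922) (nat_lit 0) :=
  sP cP1_136 (nat_lit 66922) (nat_lit 25) (nat_lit 0x14050702020205030202030502020608040202020206020408) (by decide +kernel)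
noncomputable def cP1_138 : Ch SP (nat_lit 47381) (nat_lit 0) (nat_lit 67066) (nat_lit 0) :=
  sP cP1_137 (nat_lit 67066) (nat_lit 42) (nat_lit 0x50503020205020702020502030402020209020802020503020303080202060302020302020605020302) (by decide +kernel)
noncomputable def cP1_139 : Ch SP (nat_lit 47381) (nat_lit 0) (nat_lit 67221) (nat_lit 0) :=
  sP cP1_138 (nat_lit 67221) (nat_lit 43) (nat_lit 0x6030306030604040307060304030402070502030704020303040204020202040207040203020303020202) (by decide +kernel)
noncomputable def cP1_140 : Ch SP (nat_lit 47381) (nat_lit 0) (nat_lit 67394) (nat_lit 0) :=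
  sP cP1_139 (nat_lit 67394) (nat_lit 53) (nat_lit 0xb02020205040303030204060202030502030704020403050302080208030302060202030402020202030202020402020202020203) (by decide +kernel)
noncomputable def cP1_141 : Ch SP (nat_lit 47381) (nat_lit 0) (nat_lit 67570) (nat_lit 0) :=
  sP cP1_140 (nat_lit 67570) (nat_lit 59) (nat_lit 0x402030202020202020302030303020306030204020202030304020202020302030203020702060304060302080206030202020202020602040402) (by decide +kernel)
noncomputable def cP1_142 : Ch SP (nat_lit 47381) (nat_lit 0) (nat_lit 67748) (nat_lit 0) :=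
  sP cP1_141 (nat_lit 67748) (nat_lit 54) (nat_lit 0xb0304040202020304020406020203020303030203020203020506030202030505060202050403020204020504020602020402030303) (by decide +kernel)
noncomputable def cP1_143 : Ch SP (nat_lit 47381) (nat_lit 0) (nat_lit 67875) (nat_lit 0) :=
  sP cP1_142 (nat_lit 67875) (nat_lit 34) (nat_lit 0x802020502030202040402020202040204020205080204040c050a02040302040303) (by decide +kernel)
noncomputable def cP1_144 : Ch SP (nat_lit 47381) (nat_lit 0) (nat_lit 68058) (nat_lit 0) :=
  sP cP1_143 (nat_lit 68058) (nat_lit 62) (nat_lit 0x303030504030303030603030204020303020303020306020202030302030402020202020202020702020302020203030505080202020404020203020202) (by decide +kernel)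
noncomputable def cP1_145 : Ch SP (nat_lit 47381) (nat_lit 0) (nat_lit 68208) (nat_lit 0) :=
  sP cP1_144 (nat_lit 68208) (nat_lit 44) (nat_lit 0x60202020302050204020207040503020a050203030605030203030202020203020402070203070402030302) (by decide +kernel)
noncomputable def cP1_146 : Ch SP (nat_lit 47381) (nat_lit 0) (nat_lit 68389) (nat_lit 0) :=
  sP cP1_145 (nat_lit 68389) (nat_lit 59) (nat_lit 0x302020504040505020202040405040303040603040204020202020202030202020302020403020202060204030306020404040402020202020204) (by decide +kernel)
noncomputable def cP1_147 : Ch SP (nat_lit 47381) (nat_lit 0) (nat_lit 68545) (nat_lit 0) :=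
  sP cP1_146 (nat_lit 68545) (nat_lit 48) (nat_lit 0xa02030a0303030305050305020203020703020302020407030303020202020203030203030503020402030202020202) (by decide +kernel)
noncomputable def cP1_148 : Ch SP (nat_lit 47381) (nat_lit 0) (nat_lit 68728) (nat_lit 0) :=
  sP cP1_147 (nat_lit 68728) (nat_lit 63) (nat_lit 0x20203030202020202020305030203070502020202030504020202020102030704040302020702020403020204040602030203020302020303030402030202) (by decide +kernel)
noncomputable def cP1_149 : Ch SP (nat_lit 47381) (nat_lit 0) (nat_lit 68902) (nat_lit 0) :=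
  sP cP1_148 (nat_lit 68902) (nat_lit 56) (nat_lit 0x303020602030203020303040302020202020507040402020204050903030304020405020403020404030303040203030202030202020202) (by decide +kernel)
noncomputable def cP1_150 : Ch SP (nat_lit 47381) (nat_lit 0) (nat_lit 69051) (nat_lit 0) :=
  sP cP1_149 (nat_lit 69051) (nat_lit 44) (nat_lit 0xc020302020202030403060402060b0202020204020405020402020202030702040402020204020202030603) (by decide +kernel)
noncomputable def cP1_151 : Ch SP (nat_lit 47381) (nat_lit 0) (nat_lit 69230) (nat_lit 0) :=
  sP cP1_150 (nat_lit 69230) (nat_lit 61) (nat_lit 0x3020303020603030202040202020302020203020702030403020303050204060206020203050202020802020303030202030202020304020202020502) (by decide +kernel)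
noncomputable def cP1_152 : Ch SP (nat_lit 47381) (nat_lit 0) (nat_lit 69382) (nat_lit 0) :=
  sP cP1_151 (nat_lit 69382) (nat_lit 46) (nat_lit 0x6080602040203030202020203020202050703020302020303020304020204050205020202030802040902030203) (by decide +kernel)
noncomputable def cP1_153 : Ch SP (nat_lit 47381) (nat_lit 0) (nat_lit 69533) (nat_lit 0) :=
  sP cP1_152 (nat_lit 69533) (nat_lit 44) (nat_lit 0xd02020202030603020205030203020204020305020403070303040304060202030304020204020506020502) (by decide +kernel)
noncomputable def cP1_154 : Ch SP (nat_lit 47381) (nat_lit 0) (nat_lit 69687) (nat_lit 0) :=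
  sP cP1_153 (nat_lit 69687) (nat_lit 51) (nat_lit 0x20304020202060502030203020502030d02020204020203020202020202020202020303020202040602050403060202050203) (by decide +kernel)
noncomputable def cP1_155 : Ch SP (nat_lit 47381) (nat_lit 0) (nat_lit 69857) (nat_lit 0) :=
  sP cP1_154 (nat_lit 69857) (nat_lit 54) (nat_lit 0x60204020202060202050203030306030302060304060304020306020302030502020604030203020203020202020402050202020402) (by decide +kernel)
noncomputable def cP1_156 : Ch SP (nat_lit 47381) (nat_lit 0) (nat_lit 70023) (nat_lit 0) :=
  sP cP1_155 (nat_lit 70023) (nat_lit 52) (nat_lit 0x4040303020202050202040203020806050405030203030202020203030502020205030205030302030502020202020402020607) (by decide +kernel)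
noncomputable def cP1_157 : Ch SP (nat_lit 47381) (nat_lit 0) (nat_lit 70187) (nat_lit 0) :=
  sP cP1_156 (nat_lit 70187) (nat_lit 55) (nat_lit 0x6020603030304030302020303020703060b03030202020202020202020202030202020202020302030302020202030605020402020303) (by decide +kernel)
noncomputable def cP1_158 : Ch SP (nat_lit 47381) (nat_lit 0) (nat_lit 70316) (nat_lit 0) :=
  sP cP1_157 (nat_lit 70316) (nat_lit 30) (nat_lit 0xd0408030305060502040603020203030204030b08070302020203020503) (by decide +kernel)
noncomputable def cP1_159 : Ch SP (nat_lit 47381) (nat_lit 0) (nat_lit 70453) (nat_lit 0) :=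
  sP cP1_158 (nat_lit 70453) (nat_lit 28) (nat_lit 0x21040607020406020205090a02020207030202040205030205020202) (by decide +kernel)
noncomputable def cP1_160 : Ch SP (nat_lit 47381) (nat_lit 0) (nat_lit 70572) (nat_lit 0) :=
  sP cP1_159 (nat_lit 70572) (nat_lit 29) (nat_lit 0xa02020204020302060504070302030405050203060908030203020208) (by decide +kernel)
noncomputable def cP1_161 : Ch SP (nat_lit 47381) (nat_lit 0) (nat_lit 70660) (nat_lit 0) :=
  sP cP1_160 (nat_lit 70660) (nat_lit 18) (nat_lit 0xe0502020602030407030204030f05040502) (by decide +kernel)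
noncomputable def cP1_162 : Ch SP (nat_lit 47381) (nat_lit 0) (nat_lit 70789) (nat_lit 0) :=
  sP cP1_161 (nat_lit 70789) (nat_lit 33) (nat_lit 0x8040504020c020304030205020805020202020402020502040205050403040604) (by decide +kernel)
noncomputable def cP1_163 : Ch SP (nat_lit 47381) (nat_lit 0) (nat_lit 70910) (nat_lit 0) :=
  sP cP1_162 (nat_lit 70910) (nat_lit 31) (nat_lit 0x70502020206060505020402020302020305030305030404040e0405020203) (by decide +kernel)
noncomputable def cP1_164 : Ch SP (nat_lit 47381) (nat_lit 0) (nat_lit 71020) (nat_lit 0) :=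
  sP cP1_163 (nat_lit 71020) (nat_lit 23) (nat_lit 0xb030202040907040304080202020e0507020302030605) (by decide +kernel)
noncomputable def cP1_165 : Ch SP (nat_lit 47381) (nat_lit 0) (nat_lit 71124) (nat_lit 0) :=
  sP cP1_164 (nat_lit 71124) (nat_lit 25) (nat_lit 0x4020202020404020203020306080609020206040203020e08) (by decide +kernel)
noncomputable def cP1_166 : Ch SP (nat_lit 47381) (nat_lit 0) (nat_lit 71270) (nat_lit 0) :=
  sP cP1_165 (nat_lit 71270) (nat_lit 43) (nat_lit 0xa020304020202030502020302030204020202020a03030705040205040304020502040402050202020502) (by decide +kernel)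
noncomputable def cP1_167 : Ch SP (nat_lit 47381) (nat_lit 0) (nat_lit 71422) (nat_lit 0) :=
  sP cP1_166 (nat_lit 71422) (nat_lit 45) (nat_lit 0x40202030402020402020302020305070302030407020203030304020303030303020202020904020704070504) (by decide +kernel)
noncomputable def cP1_168 : Ch SP (nat_lit 47381) (nat_lit 0) (nat_lit 71470) (nat_lit 0) :=
  sP cP1_167 (nat_lit 71470) (nat_lit 5) (nat_lit 0x1e0c020202) (by decide +kernel)
noncomputable def cP1_169 : Ch SP (nat_lit 47381) (nat_lit 0) (nat_lit 71610) (nat_lit 0) :=
  sP cP1_168 (nat_lit 71610) (nat_lit 42) (nat_lit 0x30202020202040303020202030302020202050607070402020302060502020c06030602020202050202) (by decide +kernel)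
noncomputable def cP1_170 : Ch SP (nat_lit 47381) (nat_lit 0) (nat_lit 71790) (nat_lit 0) :=
  sP cP1_169 (nat_lit 71790) (nat_lit 61) (nat_lit 0x604030203040306030302040302040303030202020203030202030202030402020203030204020a050203020202020504020304020203020302030202) (by decide +kernel)
noncomputable def cP1_171 : Ch SP (nat_lit 47381) (nat_lit 0) (nat_lit 71928) (nat_lit 0) :=
  sP cP1_170 (nat_lit 71928) (nat_lit 38) (nat_lit 0x403070302090303080404020304020202030205040204020202030206040202020607030208) (by decide +kernel)
noncomputable def cP1_172 : Ch SP (nat_lit 47381) (nat_lit 0) (nat_lit 72076) (nat_lit 0) :=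
  sP cP1_171 (nat_lit 72076) (nat_lit 45) (nat_lit 0x30302020207020302020204030202030202050302020205060402020804020208020202030202040309040604) (by decide +kernel)
noncomputable def cP1_173 : Ch SP (nat_lit 47381) (nat_lit 0) (nat_lit 72185) (nat_lit 0) :=
  sP cP1_172 (nat_lit 72185) (nat_lit 26) (nat_lit 0x80402020c02020b060608020205020202050502030205040302) (by decide +kernel)
noncomputable def cP1_174 : Ch SP (nat_lit 47381) (nat_lit 0) (nat_lit 72357) (nat_lit 0) :=
  sP cP1_173 (nat_lit 72357) (nat_lit 54) (nat_lit 0x40303020203020203050403030302040502030405020502070302040202030208020202060302020303050205040404020302020203) (by decide +kernel)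
noncomputable def cP1_175 : Ch SP (nat_lit 47381) (nat_lit 0) (nat_lit 72520) (nat_lit 0) :=
  sP cP1_174 (nat_lit 72520) (nat_lit 48) (nat_lit 0x30403040405030207050302030202020603040203030302020202020204070403020502020505040303040405020504) (by decide +kernel)
noncomputable def cP1_176 : Ch SP (nat_lit 47381) (nat_lit 0) (nat_lit 72717) (nat_lit 0) :=
  sP cP1_175 (nat_lit 72717) (nat_lit 69) (nat_lit 0x703020302020302040404020202020203040203020302020202030202020302040404020202040402030202030205030403030402030a0303030203030202020204020202) (by decide +kernel)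
noncomputable def cP1_177 : Ch SP (nat_lit 47381) (nat_lit 0) (nat_lit 72905) (nat_lit 0) :=
  sP cP1_176 (nat_lit 72905) (nat_lit 62) (nat_lit 0x502020302020402020205020202030203020202040604020303020302030302030205050203040504020202040204030204050603020403040305020302) (by decide +kernel)
noncomputable def cP1_178 : Ch SP (nat_lit 47381) (nat_lit 0) (nat_lit 73014) (nat_lit 0) :=
  sP cP1_177 (nat_lit 73014) (nat_lit 28) (nat_lit 0x9020409020205030205020205020203030405050202030202020410) (by decide +kernel)
noncomputable def cP1_179 : Ch SP (nat_lit 47381) (nat_lit 0) (nat_lit 73181) (nat_lit 0) :=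
  sP cP1_178 (nat_lit 73181) (nat_lit 50) (nat_lit 0x602020202030404020202030606020402030303040302020204040703020204060205040403030302030302030603020704) (by decide +kernel)
noncomputable def cP1_180 : Ch SP (nat_lit 47381) (nat_lit 0) (nat_lit 73343) (nat_lit 0) :=
  sP cP1_179 (nat_lit 73343) (nat_lit 48) (nat_lit 0x50203050502020305020303070302020205020406020504020502030202030502020402020202050705030302020407) (by decide +kernel)
noncomputable def cP1_181 : Ch SP (nat_lit 47381) (nat_lit 0) (nat_lit 73496) (nat_lit 0) :=
  sP cP1_180 (nat_lit 73496) (nat_lit 48) (nat_lit 0x403020303020302030202040603020303020303030403020b0704020203020302020202060402030902020202020403) (by decide +kernel)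
noncomputable def cP1_182 : Ch SP (nat_lit 47381) (nat_lit 0) (nat_lit 73663) (nat_lit 0) :=
  sP cP1_181 (nat_lit 73663) (nat_lit 54) (nat_lit 0xd0302040504040302020302020203030302020504030402030402020202020303020202020305030202020204020302030303040605) (by decide +kernel)
noncomputable def cP1_183 : Ch SP (nat_lit 47381) (nat_lit 0) (nat_lit 73765) (nat_lit 0) :=
  sP cP1_182 (nat_lit 73765) (nat_lit 27) (nat_lit 0x703030202040d0202020402020203020203030303050f02050303) (by decide +kernel)
noncomputable def cP1_184 : Ch SP (nat_lit 47381) (nat_lit 0) (nat_lit 73926) (nat_lit 0) :=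
  sP cP1_183 (nat_lit 73926) (nat_lit 49) (nat_lit 0x4040305030302020205050205020302030202020205030209030204040404030204030402020207020702040202040204) (by decide +kernel)
noncomputable def cP1_185 : Ch SP (nat_lit 47381) (nat_lit 0) (nat_lit 74072) (nat_lit 0) :=
  sP cP1_184 (nat_lit 74072) (nat_lit 44) (nat_lit 0x702030905020204060204020202020702020304050202020203040209040403020202020302020703030202) (by decide +kernel)
noncomputable def cP1_186 : Ch SP (nat_lit 47381) (nat_lit 0) (nat_lit 74237) (nat_lit 0) :=
  sP cP1_185 (nat_lit 74237) (nat_lit 50) (nat_lit 0x306020303020202030202060604020403030606030303030307040202060202050502030302030302020202050404030203) (by decide +kernel)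
noncomputable def cP1_187 : Ch SP (nat_lit 47381) (nat_lit 0) (nat_lit 74385) (nat_lit 0) :=
  sP cP1_186 (nat_lit 74385) (nat_lit 40) (nat_lit 0x17060606030203020403020202030503020302030202080506030402020403030203020402020202) (by decide +kernel)
noncomputable def cP1_188 : Ch SP (nat_lit 47381) (nat_lit 0) (nat_lit 74499) (nat_lit 0) :=
  sP cP1_187 (nat_lit 74499) (nat_lit 27) (nat_lit 0x302050702030303070402080202030b0a04030206020304060403) (by decide +kernel)
noncomputable def cP1_189 : Ch SP (nat_lit 47381) (nat_lit 0) (nat_lit 74607) (nat_lit 0) :=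
  sP cP1_188 (nat_lit 74607) (nat_lit 19) (nat_lit 0x12070306090303050e03030504080604020203) (by decide +kernel)
noncomputable def cP1_190 : Ch SP (nat_lit 47381) (nat_lit 0) (nat_lit 74735) (nat_lit 0) :=
  sP cP1_189 (nat_lit 74735) (nat_lit 34) (nat_lit 0x50302020202020403080b0404030702030303070302020202050607020502020602) (by decide +kernel)
noncomputable def cP1_191 : Ch SP (nat_lit 47381) (nat_lit 0) (nat_lit 74850) (nat_lit 0) :=
  sP cP1_190 (nat_lit 74850) (nat_lit 26) (nat_lit 0xb030404040202020205020205080404030208050202020b040c) (by decide +kernel)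
noncomputable def cP1_192 : Ch SP (nat_lit 47381) (nat_lit 0) (nat_lit 74979) (nat_lit 0) :=
  sP cP1_191 (nat_lit 74979) (nat_lit 30) (nat_lit 0x50406030205060403040402020402090406070303070603020304020608) (by decide +kernel)
noncomputable def cP1_193 : Ch SP (nat_lit 47381) (nat_lit 0) (nat_lit 75108) (nat_lit 0) :=
  sP cP1_192 (nat_lit 75108) (nat_lit 34) (nat_lit 0xb070404030202030203030507030203030403020307020202040402090503030205) (by decide +kernel)
noncomputable def cP1_194 : Ch SP (nat_lit 47381) (nat_lit 0) (nat_lit 75166) (nat_lit 0) :=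
  sP cP1_193 (nat_lit 75166) (nat_lit 9) (nat_lit 0x40402110203030710) (by decide +kernel)
noncomputable def cP1_195 : Ch SP (nat_lit 47381) (nat_lit 0) (nat_lit 75304) (nat_lit 0) :=
  sP cP1_194 (nat_lit 75304) (nat_lit 38) (nat_lit 0x302060303030906030303030408080303020202020603020305020202040404020302030802) (by decide +kernel)
noncomputable def cP1_196 : Ch SP (nat_lit 47381) (nat_lit 0) (nat_lit 75425) (nat_lit 0) :=
  sP cP1_195 (nat_lit 75425) (nat_lit 35) (nat_lit 0x202030f02040303020202020203020a02030303050206050302020203020405030304) (by decide +kernel)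
noncomputable def cP1_197 : Ch SP (nat_lit 47381) (nat_lit 0) (nat_lit 75597) (nat_lit 0) :=
  sP cP1_196 (nat_lit 75597) (nat_lit 53) (nat_lit 0x605050604040503020303040203020406030203020203020507030203020502020203040202020303020702030404030203020202) (by decide +kernel)
noncomputable def cP1_198 : Ch SP (nat_lit 47381) (nat_lit 0) (nat_lit 75787) (nat_lit 0) :=
  sP cP1_197 (nat_lit 75787) (nat_lit 65) (nat_lit 0x302020302030303040203030302020302020505030404030204020303020202030204030303020303020202040309030202040204020404020504020202020302) (by decide +kernel)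
noncomputable def cP1_199 : Ch SP (nat_lit 47381) (nat_lit 0) (nat_lit 75958) (nat_lit 0) :=
  sP cP1_198 (nat_lit 75958) (nat_lit 52) (nat_lit 0x6050202020202050302020302020502020702020503030302020204030203020403030304050504030306030506070203020204) (by decide +kernel)
noncomputable def cP1_200 : Ch SP (nat_lit 47381) (nat_lit 0) (nat_lit 76128) (nat_lit 0) :=
  sP cP1_199 (nat_lit 76128) (nat_lit 54) (nat_lit 0x60205050205040203030302020202030406020603020305020302020307060202030202020305020303020605030303020202020202) (by decide +kernel)
noncomputable def cP1_201 : Ch SP (nat_lit 47381) (nat_lit 0) (nat_lit 76302) (nat_lit 0) :=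
  sP cP1_200 (nat_lit 76302) (nat_lit 57) (nat_lit 0x80606030302020203030202030303050203030202020203030202020602020302030306020405030203070302060303030202030202020202) (by decide +kernel)
noncomputable def cP1_202 : Ch SP (nat_lit 47381) (nat_lit 0) (nat_lit 76457) (nat_lit 0) :=
  sP cP1_201 (nat_lit 76457) (nat_lit 44) (nat_lit 0x1102060202030305030205030202020202020503020204040305040202020503050802020403050402050202) (by decide +kernel)
noncomputable def cP1_203 : Ch SP (nat_lit 47381) (nat_lit 0) (nat_lit 76598) (nat_lit 0) :=
  sP cP1_202 (nat_lit 76598) (nat_lit 40) (nat_lit 0x905020a03020203020504060402020a020402020502040402020303030502030302020403040202) (by decide +kernel)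
noncomputable def cP1_204 : Ch SP (nat_lit 47381) (nat_lit 0) (nat_lit 76667) (nat_lit 0) :=
  sP cP1_203 (nat_lit 76667) (nat_lit 12) (nat_lit 0x140603040905030705020203) (by decide +kernel)
noncomputable def cP1_205 : Ch SP (nat_lit 47381) (nat_lit 0) (nat_lit 76825) (nat_lit 0) :=
  sP cP1_204 (nat_lit 76825) (nat_lit 47) (nat_lit 0x90406020502020203020602040303050203030202020202020305050202040305020402020a030304050302020502) (by decide +kernel)
noncomputable def cP1_206 : Ch SP (nat_lit 47381) (nat_lit 0) (nat_lit 76930) (nat_lit 0) :=
  sP cP1_205 (nat_lit 76930) (nat_lit 24) (nat_lit 0x509030204040202040406090402020203080b020a030202) (by decide +kernel)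
noncomputable def cP1_207 : Ch SP (nat_lit 47381) (nat_lit 0) (nat_lit 77081) (nat_lit 0) :=
  sP cP1_206 (nat_lit 77081) (nat_lit 43) (nat_lit 0x6050203040208020202070204050704030703030207020302020302030202020405020405050303030202) (by decide +kernel)
noncomputable def cP1_208 : Ch SP (nat_lit 47381) (nat_lit 0) (nat_lit 77195) (nat_lit 0) :=
  sP cP1_207 (nat_lit 77195) (nat_lit 31) (nat_lit 0x4020202070202030502040202020307020404020202040606050203020310) (by decide +kernel)
noncomputable def cP1_209 : Ch SP (nat_lit 47381) (nat_lit 0) (nat_lit 77368) (nat_lit 0) :=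
  sP cP1_208 (nat_lit 77368) (nat_lit 56) (nat_lit 0x503060203020303050602030202020506040503030602020202030602020403030206020202020702020202020202020302030202050203) (by decide +kernel)
noncomputable def cP1_210 : Ch SP (nat_lit 47381) (nat_lit 0) (nat_lit 77570) (nat_lit 0) :=
  sP cP1_209 (nat_lit 77570) (nat_lit 71) (nat_lit 0x504020306040202020202020203020202020205040202020202020203050402020204040202030303030302020303020302030302020302020303040206030402030204040306) (by decide +kernel)
noncomputable def cP1_211 : Ch SP (nat_lit 47381) (nat_lit 0) (nat_lit 77707) (nat_lit 0) :=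
  sP cP1_210 (nat_lit 77707) (nat_lit 36) (nat_lit 0x603050302030403060402030304040203030502040b0206030504020902020204030503) (by decide +kernel)
noncomputable def cP1_212 : Ch SP (nat_lit 47381) (nat_lit 0) (nat_lit 77881) (nat_lit 0) :=
  sP cP1_211 (nat_lit 77881) (nat_lit 55) (nat_lit 0x8050204020306030202020303050204020502020404020202020303040202020202070605030205020203020204020306040303020302) (by decide +kernel)
noncomputable def cP1_213 : Ch SP (nat_lit 47381) (nat_lit 0) (nat_lit 78043) (nat_lit 0) :=
  sP cP1_212 (nat_lit 78043) (nat_lit 48) (nat_lit 0x30503030403050202020402050202040202030202020502020402050302060306040804020306030604040203030402) (by decide +kernel)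
noncomputable def cP1_214 : Ch SP (nat_lit 47381) (nat_lit 0) (nat_lit 78180) (nat_lit 0) :=
  sP cP1_213 (nat_lit 78180) (nat_lit 34) (nat_lit 0x6030304030304060705030303080404060202020402060605020304020507050302) (by decide +kernel)
noncomputable def cP1_215 : Ch SP (nat_lit 47381) (nat_lit 0) (nat_lit 78341) (nat_lit 0) :=
  sP cP1_214 (nat_lit 78341) (nat_lit 43) (nat_lit 0xf020203070603030202020703030303060202030a04030503020203020303020402030504060302020504) (by decide +kernel)
noncomputable def cP1_216 : Ch SP (nat_lit 47381) (nat_lit 0) (nat_lit 78509) (nat_lit 0) :=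
  sP cP1_215 (nat_lit 78509) (nat_lit 53) (nat_lit 0x90304020202020203020304050303030202040503020202020203030209030305020a030203020502030304020402020202020403) (by decide +kernel)
noncomputable def cP1_217 : Ch SP (nat_lit 47381) (nat_lit 0) (nat_lit 78648) (nat_lit 0) :=
  sP cP1_216 (nat_lit 78648) (nat_lit 35) (nat_lit 0x605020709080404060705040402040305040402020203020304040402020302020405) (by decide +kernel)
noncomputable def cP1_218 : Ch SP (nat_lit 47381) (nat_lit 0) (nat_lit 78813) (nat_lit 0) :=
  sP cP1_217 (nat_lit 78813) (nat_lit 51) (nat_lit 0x30502040503020203020202030202020402040407020202020302020205020702040704020302040705030203030402040305) (by decide +kernel)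
noncomputable def cP1_219 : Ch SP (nat_lit 47381) (nat_lit 0) (nat_lit 78963) (nat_lit 0) :=
  sP cP1_218 (nat_lit 78963) (nat_lit 43) (nat_lit 0x50303020302020402030705030302020204030303030203020303030203020503060602050b0604030304) (by decide +kernel)
noncomputable def cP1_220 : Ch SP (nat_lit 47381) (nat_lit 0) (nat_lit 79124) (nat_lit 0) :=
  sP cP1_219 (nat_lit 79124) (nat_lit 47) (nat_lit 0xd02020202020205020202020302050203020402040502090303040202050502070302020304030507020503040202) (by decide +kernel)
noncomputable def cP1_221 : Ch SP (nat_lit 47381) (nat_lit 0) (nat_lit 79263) (nat_lit 0) :=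
  sP cP1_220 (nat_lit 79263) (nat_lit 42) (nat_lit 0x802020303020204020403020302020202050a0c03020403020702020303020202020703050202020202) (by decide +kernel)
noncomputable def cP1_222 : Ch SP (nat_lit 47381) (nat_lit 0) (nat_lit 79436) (nat_lit 0) :=
  sP cP1_221 (nat_lit 79436) (nat_lit 57) (nat_lit 0x603020302030403030403050303020303020202020202020802030202020202030303050203020202070402030202020202030502020a0503) (by decide +kernel)
noncomputable def cP1_223 : Ch SP (nat_lit 47381) (nat_lit 0) (nat_lit 79576) (nat_lit 0) :=
  sP cP1_222 (nat_lit 79576) (nat_lit 42) (nat_lit 0x2020707070304030502020c020202040703020302020304030203030202020202020202020304050304) (by decide +kernel)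
noncomputable def cP1_224 : Ch SP (nat_lit 47381) (nat_lit 0) (nat_lit 79685) (nat_lit 0) :=
  sP cP1_223 (nat_lit 79685) (nat_lit 24) (nat_lit 0x507070704030302030208040a040c030403040402030203) (by decide +kernel)
noncomputable def cP1_225 : Ch SP (nat_lit 47381) (nat_lit 0) (nat_lit 79794) (nat_lit 0) :=
  sP cP1_224 (nat_lit 79794) (nat_lit 26) (nat_lit 0x90204020902040202040904030c050503050202020206020205) (by decide +kernel)
noncomputable def cP1_226 : Ch SP (nat_lit 47381) (nat_lit 0) (nat_lit 79884) (nat_lit 0) :=
  sP cP1_225 (nat_lit 79884) (nat_lit 20) (nat_lit 0x902020212080404020302020202070507030204) (by decide +kernel)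
noncomputable def cP1_227 : Ch SP (nat_lit 47381) (nat_lit 0) (nat_lit 79989) (nat_lit 0) :=
  sP cP1_226 (nat_lit 79989) (nat_lit 22) (nat_lit 0xa050d05040502020a0406070403020202030202020a) (by decide +kernel)
noncomputable def cP1_228 : Ch SP (nat_lit 47381) (nat_lit 0) (nat_lit 80073) (nat_lit 0) :=
  sP cP1_227 (nat_lit 80073) (nat_lit 18) (nat_lit 0x707040202020b100302020303020203020b) (by decide +kernel)
noncomputable def cP1_229 : Ch SP (nat_lit 47381) (nat_lit 0) (nat_lit 80153) (nat_lit 0) :=
  sP cP1_228 (nat_lit 80153) (nat_lit 16) (nat_lit 0x8030203020707040204021405050204) (by decide +kernel)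
noncomputable def cP1_230 : Ch SP (nat_lit 47381) (nat_lit 0) (nat_lit 80263) (nat_lit 0) :=
  sP cP1_229 (nat_lit 80263) (nat_lit 26) (nat_lit 0x20209070302020205020203070402060502040208080b020305) (by decide +kernel)
noncomputable def cP1_231 : Ch SP (nat_lit 47381) (nat_lit 0) (nat_lit 80412) (nat_lit 0) :=
  sP cP1_230 (nat_lit 80412) (nat_lit 38) (nat_lit 0xc06050404050203020202020202020207070402020806050404030204050202020604040504) (by decide +kernel)
noncomputable def cP1_232 : Ch SP (nat_lit 47381) (nat_lit 0) (nat_lit 80516) (nat_lit 0) :=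
  sP cP1_231 (nat_lit 80516) (nat_lit 23) (nat_lit 0x8030a0203030202090703060203070202030202070d03) (by decide +kernel)
noncomputable def cP1_233 : Ch SP (nat_lit 47381) (nat_lit 0) (nat_lit 80605) (nat_lit 0) :=
  sP cP1_232 (nat_lit 80605) (nat_lit 20) (nat_lit 0x50302020503020302050a050302020202110707) (by decide +kernel)
noncomputable def cP1_234 : Ch SP (nat_lit 47381) (nat_lit 0) (nat_lit 80707) (nat_lit 0) :=
  sP cP1_233 (nat_lit 80707) (nat_lit 19) (nat_lit 0x6090807040503020602050508060202090a03) (by decide +kernel)
noncomputable def cP1_235 : Ch SP (nat_lit 47381) (nat_lit 0) (nat_lit 80804) (nat_lit 0) :=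
  sP cP1_234 (nat_lit 80804) (nat_lit 21) (nat_lit 0x90404030302040204040603021206030302050406) (by decide +kernel)
noncomputable def cP1_236 : Ch SP (nat_lit 47381) (nat_lit 0) (nat_lit 80852) (nat_lit 0) :=
  sP cP1_235 (nat_lit 80852) (nat_lit 7) (nat_lit 0x5030207030517) (by decide +kernel)
noncomputable def cP1_237 : Ch SP (nat_lit 47381) (nat_lit 0) (nat_lit 81028) (nat_lit 0) :=
  sP cP1_236 (nat_lit 81028) (nat_lit 51) (nat_lit 0xc0402040608050202040207030405020303030504040302040302020302020402020202020202030303020404050204040205) (by decide +kernel)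
noncomputable def cP1_238 : Ch SP (nat_lit 47381) (nat_lit 0) (nat_lit 81189) (nat_lit 0) :=
  sP cP1_237 (nat_lit 81189) (nat_lit 48) (nat_lit 0x20207060202020603020403030302020503030204020408030303030305020404030304040202020403040302030703) (by decide +kernel)
noncomputable def cP1_239 : Ch SP (nat_lit 47381) (nat_lit 0) (nat_lit 81358) (nat_lit 0) :=
  sP cP1_238 (nat_lit 81358) (nat_lit 54) (nat_lit 0x30203020303020602050302050503020303030202020305050202060402020202020302030205030207050203020702020202040206) (by decide +kernel)
noncomputable def cP1_240 : Ch SP (nat_lit 47381) (nat_lit 0) (nat_lit 81453) (nat_lit 0) :=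
  sP cP1_239 (nat_lit 81453) (nat_lit 22) (nat_lit 0xf030d02020204060305080203030303040205020302) (by decide +kernel)
noncomputable def cP1_241 : Ch SP (nat_lit 47381) (nat_lit 0) (nat_lit 81636) (nat_lit 0) :=
  sP cP1_240 (nat_lit 81636) (nat_lit 61) (nat_lit 0x3030206040302020502020202020403050204020402020402030304020203020409030502020202040302030302020302030303040203030305040202) (by decide +kernel)
noncomputable def cP1_242 : Ch SP (nat_lit 47381) (nat_lit 0) (nat_lit 81806) (nat_lit 0) :=
  sP cP1_241 (nat_lit 81806) (nat_lit 51) (nat_lit 0x40303020402030303050603020204050303050303020203030305030203030304030402030303030203090703020303030304) (by decide +kernel)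
noncomputable def cP1_243 : Ch SP (nat_lit 47381) (nat_lit 0) (nat_lit 81969) (nat_lit 0) :=
  sP cP1_242 (nat_lit 81969) (nat_lit 48) (nat_lit 0x60604030203030202030303020202060204030705060403030203020303030602030603030602030303020304030402) (by decide +kernel)
noncomputable def cP1_244 : Ch SP (nat_lit 47381) (nat_lit 0) (nat_lit 82150) (nat_lit 0) :=
  sP cP1_243 (nat_lit 82150) (nat_lit 58) (nat_lit 0x7020302020202020202020304020703030203020203030202050403030404030403020302030303030409030303070203030205030302030302) (by decide +kernel)
noncomputable def cP1_245 : Ch SP (nat_lit 47381) (nat_lit 0) (nat_lit 82326) (nat_lit 0) :=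
  sP cP1_244 (nat_lit 82326) (nat_lit 55) (nat_lit 0xa03050202020302020302040402040202020205020202040302020202020203030a040505030203070403040302030302020306030302) (by decide +kernel)
noncomputable def cP1_246 : Ch SP (nat_lit 47381) (nat_lit 0) (nat_lit 82458) (nat_lit 0) :=
  sP cP1_245 (nat_lit 82458) (nat_lit 33) (nat_lit 0x7030504030203050304040405040302030302020c020403030303070304070703) (by decide +kernel)
noncomputable def cP1_247 : Ch SP (nat_lit 47381) (nat_lit 0) (nat_lit 82605) (nat_lit 0) :=
  sP cP1_246 (nat_lit 82605) (nat_lit 43) (nat_lit 0x202050502020303030502060607020203020b040503020202020203050304030204020503030202020405) (by decide +kernel)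
noncomputable def cP1_248 : Ch SP (nat_lit 47381) (nat_lit 0) (nat_lit 82763) (nat_lit 0) :=
  sP cP1_247 (nat_lit 82763) (nat_lit 46) (nat_lit 0x6030302020706040304060206020404030204050204030303030303030303020202040207020202080203040302) (by decide +kernel)
noncomputable def cP1_249 : Ch SP (nat_lit 47381) (nat_lit 0) (nat_lit 82939) (nat_lit 0) :=
  sP cP1_248 (nat_lit 82939) (nat_lit 53) (nat_lit 0x703020202020303020402020404030503030703030603060302030303030404050403030502050302060202030202040303020303) (by decide +kernel)
noncomputable def cP1_250 : Ch SP (nat_lit 47381) (nat_lit 0) (nat_lit 83103) (nat_lit 0) :=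
  sP cP1_249 (nat_lit 83103) (nat_lit 51) (nat_lit 0x20304030205020404020203090303030202040206030303030303030203050204020304040302020203020303050202030309) (by decide +kernel)
noncomputable def cP1_251 : Ch SP (nat_lit 47381) (nat_lit 0) (nat_lit 83271) (nat_lit 0) :=
  sP cP1_250 (nat_lit 83271) (nat_lit 51) (nat_lit 0x40203020302050403060504040303080504050303020504030502030202020402030202020504030503030202020202030303) (by decide +kernel)
noncomputable def cP1_252 : Ch SP (nat_lit 47381) (nat_lit 0) (nat_lit 83438) (nat_lit 0) :=
  sP cP1_251 (nat_lit 83438) (nat_lit 50) (nat_lit 0x404040703030202050803020303030503040304050302020302020203030703030503030303030303030205020303020303) (by decide +kernel)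
noncomputable def cP1_253 : Ch SP (nat_lit 47381) (nat_lit 0) (nat_lit 83597) (nat_lit 0) :=
  sP cP1_252 (nat_lit 83597) (nat_lit 50) (nat_lit 0x303020203020203060203020202040207070202030302020302050204020202020502020506030502070208020305020203) (by decide +kernel)
noncomputable def cP1_254 : Ch SP (nat_lit 47381) (nat_lit 0) (nat_lit 83735) (nat_lit 0) :=
  sP cP1_253 (nat_lit 83735) (nat_lit 37) (nat_lit 0x303050a050503020209070305030203020605020302040302040404030203020304040303) (by decide +kernel)
noncomputable def cP1_255 : Ch SP (nat_lit 47381) (nat_lit 0) (nat_lit 83889) (nat_lit 0) :=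
  sP cP1_254 (nat_lit 83889) (nat_lit 46) (nat_lit 0x7040304020303030202020504020403030403020202020502030402030202030302030203020902030206060707) (by decide +kernel)
noncomputable def cP1_256 : Ch SP (nat_lit 47381) (nat_lit 0) (nat_lit 84061) (nat_lit 0) :=
  sP cP1_255 (nat_lit 84061) (nat_lit 52) (nat_lit 0x5030303020202030503030502020204040304020305030204030405030203030303050502040302050502020402030206020505) (by decide +kernel)
noncomputable def cP1_257 : Ch SP (nat_lit 47381) (nat_lit 0) (nat_lit 84227) (nat_lit 0) :=
  sP cP1_256 (nat_lit 84227) (nat_lit 51) (nat_lit 0x40302050302030307020203020202020203080305030203020303030503030302050302050203020503040704040302020205) (by decide +kernel)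
noncomputable def cP1_258 : Ch SP (nat_lit 47381) (nat_lit 0) (nat_lit 84391) (nat_lit 0) :=
  sP cP1_257 (nat_lit 84391) (nat_lit 48) (nat_lit 0x70204070304030403020204050303020502060202020202020502040204020407040202030203040303050404030306) (by decide +kernel)
noncomputable def cP1_259 : Ch SP (nat_lit 47381) (nat_lit 0) (nat_lit 84534) (nat_lit 0) :=
  sP cP1_258 (nat_lit 84534) (nat_lit 42) (nat_lit 0xd0202030302100202050202020303030303050304030302030403030303030202040303030302020303) (by decide +kernel)
noncomputable def cP1_260 : Ch SP (nat_lit 47381) (nat_lit 0) (nat_lit 84657) (nat_lit 0) :=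
  sP cP1_259 (nat_lit 84657) (nat_lit 32) (nat_lit 0x5030202040304030c05050402040302020b0703020203030206060203030203) (by decide +kernel)
noncomputable def cP1_261 : Ch SP (nat_lit 47381) (nat_lit 0) (nat_lit 84802) (nat_lit 0) :=
  sP cP1_260 (nat_lit 84802) (nat_lit 39) (nat_lit 0x4030504040a020302020204020403030303020705030405040503040504040703030404020202) (by decide +kernel)
noncomputable def cP1_262 : Ch SP (nat_lit 47381) (nat_lit 0) (nat_lit 84938) (nat_lit 0) :=
  sP cP1_261 (nat_lit 84938) (nat_lit 36) (nat_lit 0x5070402030502030302020a020307020504030604020202060306040202020402030408) (by decide +kernel)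
noncomputable def cP1_263 : Ch SP (nat_lit 47381) (nat_lit 0) (nat_lit 85048) (nat_lit 0) :=
  sP cP1_262 (nat_lit 85048) (nat_lit 30) (nat_lit 0x140205050403020302050303040408030402030202020202030303020202) (by decide +kernel)
noncomputable def cP1_264 : Ch SP (nat_lit 47381) (nat_lit 0) (nat_lit 85123) (nat_lit 0) :=
  sP cP1_263 (nat_lit 85123) (nat_lit 14) (nat_lit 0xb14050302030207070403030302) (by decide +kernel)
noncomputable def cP1_265 : Ch SP (nat_lit 47381) (nat_lit 0) (nat_lit 85257) (nat_lit 0) :=
  sP cP1_264 (nat_lit 85257) (nat_lit 39) (nat_lit 0xb0303030304020402030203020307020303020202030302020204020303040303020203040c08) (by decide +kernel)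
noncomputable def cP1_266 : Ch SP (nat_lit 47381) (nat_lit 0) (nat_lit 85395) (nat_lit 0) :=
  sP cP1_265 (nat_lit 85395) (nat_lit 39) (nat_lit 0x303030203020203020202030202030b0604020804020204030202060406050303040702030206) (by decide +kernel)
noncomputable def cP1_267 : Ch SP (nat_lit 47381) (nat_lit 0) (nat_lit 85546) (nat_lit 0) :=
  sP cP1_266 (nat_lit 85546) (nat_lit 44) (nat_lit 0x602020807060402020302070202040202020207040202030302030203030303030704020403030304050402) (by decide +kernel)
noncomputable def cP1_268 : Ch SP (nat_lit 47381) (nat_lit 0) (nat_lit 85714) (nat_lit 0) :=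
  sP cP1_267 (nat_lit 85714) (nat_lit 53) (nat_lit 0x603030303030303020203030303020203020304020308030303020307030203030202020302020202020303020308070305030602) (by decide +kernel)
noncomputable def cP1_269 : Ch SP (nat_lit 47381) (nat_lit 0) (nat_lit 85888) (nat_lit 0) :=
  sP cP1_268 (nat_lit 85888) (nat_lit 57) (nat_lit 0x20704040403030205020203020302030202080602030303020502020202040202020304040202030504050202020505040202020202020302) (by decide +kernel)
noncomputable def cP1_270 : Ch SP (nat_lit 47381) (nat_lit 0) (nat_lit 86037) (nat_lit 0) :=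
  sP cP1_269 (nat_lit 86037) (nat_lit 45) (nat_lit 0xb020202030204030503030403020304020203030202030202020303030305020303030203020c050504040203) (by decide +kernel)
noncomputable def cP1_271 : Ch SP (nat_lit 47381) (nat_lit 0) (nat_lit 86217) (nat_lit 0) :=
  sP cP1_270 (nat_lit 86217) (nat_lit 61) (nat_lit 0x4020204040203040302020203050206020402030306020303050203030304020302030302020209020203020406020202040202020203030203020202) (by decide +kernel)
noncomputable def cP1_272 : Ch SP (nat_lit 47381) (nat_lit 0) (nat_lit 86388) (nat_lit 0) :=
  sP cP1_271 (nat_lit 86388) (nat_lit 54) (nat_lit 0xb0202030303030204030203020304040302030404040302020203030202020802080202020403020203060203030403040202030303) (by decide +kernel)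
noncomputable def cP1_273 : Ch SP (nat_lit 47381) (nat_lit 0) (nat_lit 86542) (nat_lit 0) :=
  sP cP1_272 (nat_lit 86542) (nat_lit 46) (nat_lit 0xe030203020504070403030303030304020203020203030403030202020302030303030202030204020e02020203) (by decide +kernel)
noncomputable def cP1_274 : Ch SP (nat_lit 47381) (nat_lit 0) (nat_lit 86705) (nat_lit 0) :=
  sP cP1_273 (nat_lit 86705) (nat_lit 46) (nat_lit 0x8020302030303040202030403080304030403030503030305020303060303030305060303030303030302050603) (by decide +kernel)
noncomputable def cP1_275 : Ch SP (nat_lit 47381) (nat_lit 0) (nat_lit 86880) (nat_lit 0) :=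
  sP cP1_274 (nat_lit 86880) (nat_lit 56) (nat_lit 0x304050402030303030303020203020306050203030302020203020303030203020303020303030202020203050408020304030504080202) (by decide +kernel)
noncomputable def cP1_276 : Ch SP (nat_lit 47381) (nat_lit 0) (nat_lit 87024) (nat_lit 0) :=
  sP cP1_275 (nat_lit 87024) (nat_lit 43) (nat_lit 0x20208020203020303020405020202040302050c0403020202020504030602040202020202050405050303) (by decide +kernel)
noncomputable def cP1_277 : Ch SP (nat_lit 47381) (nat_lit 0) (nat_lit 87178) (nat_lit 0) :=
  sP cP1_276 (nat_lit 87178) (nat_lit 44) (nat_lit 0x705020303020404030202030405040208030303050303060a03030302020402030302020304030402030205) (by decide +kernel)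
noncomputable def cP1_278 : Ch SP (nat_lit 47381) (nat_lit 0) (nat_lit 87345) (nat_lit 0) :=
  sP cP1_277 (nat_lit 87345) (nat_lit 56) (nat_lit 0x202030303020202030303040302020203020302020305020202030502040409020202020b03020202030402040303020403030502030202) (by decide +kernel)
noncomputable def cP1_279 : Ch SP (nat_lit 47381) (nat_lit 0) (nat_lit 87465) (nat_lit 0) :=
  sP cP1_278 (nat_lit 87465) (nat_lit 30) (nat_lit 0x30203030203060702030303030304050402020d06070606030302020306) (by decide +kernel)
noncomputable def cP1_280 : Ch SP (nat_lit 47381) (nat_lit 0) (nat_lit 87626) (nat_lit 0) :=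
  sP cP1_279 (nat_lit 87626) (nat_lit 51) (nat_lit 0x50203030903030202020302030403050b02030403040202020503020303020203030303020502050202020204020303020204) (by decide +kernel)
noncomputable def cP1_281 : Ch SP (nat_lit 47381) (nat_lit 0) (nat_lit 87834) (nat_lit 0) :=
  sP cP1_280 (nat_lit 87834) (nat_lit 68) (nat_lit 0x1602020302020402020202020202030202020205020604020203040408040202050302040203030202030202020302020203020302030403020205020302040202030304) (by decide +kernel)
noncomputable def cP1_282 : Ch SP (nat_lit 47381) (nat_lit 0) (nat_lit 87977) (nat_lit 0) :=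
  sP cP1_281 (nat_lit 87977) (nat_lit 42) (nat_lit 0x303030404030202020304030502030305020203030302030202050203020b03030304050b0303040302) (by decide +kernel)
noncomputable def cP1_283 : Ch SP (nat_lit 47381) (nat_lit 0) (nat_lit 88159) (nat_lit 0) :=
  sP cP1_282 (nat_lit 88159) (nat_lit 59) (nat_lit 0x503030306020303030302040803040204020205020505050302020206020303020202020304020202030203040203020302030204020502020205) (by decide +kernel)
noncomputable def cP1_284 : Ch SP (nat_lit 47381) (nat_lit 0) (nat_lit 88328) (nat_lit 0) :=
  sP cP1_283 (nat_lit 88328) (nat_lit 51) (nat_lit 0x80502020303030206020202060303030203040402020504030206040503040603060203020406020203020202020302030402) (by decide +kernel)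

end

end Pool.Agent.MP_797bdc_co.Lk.H
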