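import Pool.Agent.MP_797bdc_co.Lk.DH

namespace Pool.Agent.MP_797bdc_co.Lk.H

noncomputable section

set_option maxRecDepth 100000
set_option linter.defProp false

noncomputable def cP2_0 : Ch SP (nat_lit 88328) (nat_lit 0) (nat_lit 88472) (nat_lit 0) :=
  sP Ch.nil (nat_lit 88472) (nat_lit 40) (nat_lit 0x3050804020202050203020305050402040402020203020303050304080303020402020603020708) (by decide +kernel)
noncomputable def cP2_1 : Ch SP (nat_lit 88328) (nat_lit 0) (nat_lit 88555) (nat_lit 0) :=
  sP cP2_0 (nat_lit 88555) (nat_lit 15) (nat_lit 0x505050303030709020b0f06030204) (by decide +kernel)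
noncomputable def cP2_2 : Ch SP (nat_lit 88328) (nat_lit 0) (nat_lit 88711) (nat_lit 0) :=
  sP cP2_1 (nat_lit 88711) (nat_lit 44) (nat_lit 0x502020206030403040706020302030206030503030402020606050307030303020302020202070303040402) (by decide +kernel)
noncomputable def cP2_3 : Ch SP (nat_lit 88328) (nat_lit 0) (nat_lit 88860) (nat_lit 0) :=
  sP cP2_2 (nat_lit 88860) (nat_lit 42) (nat_lit 0xa0302020202040303020202020303040302020208070202090704030203030202080402020508020303) (by decide +kernel)
noncomputable def cP2_4 : Ch SP (nat_lit 88328) (nat_lit 0) (nat_lit 88973) (nat_lit 0) :=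
  sP cP2_3 (nat_lit 88973) (nat_lit 28) (nat_lit 0x90206020202030404030403040202040206080402020c030a020303) (by decide +kernel)
noncomputable def cP2_5 : Ch SP (nat_lit 88328) (nat_lit 0) (nat_lit 89173) (nat_lit 0) :=
  sP cP2_4 (nat_lit 89173) (nat_lit 71) (nat_lit 0x202020202030203040303020203020303030502020202030302030202020202060302030206030203040302030202030205030402020203030202040502050302020203050503) (by decide +kernel)
noncomputable def cP2_6 : Ch SP (nat_lit 88328) (nat_lit 0) (nat_lit 89310) (nat_lit 0) :=
  sP cP2_5 (nat_lit 89310) (nat_lit 35) (nat_lit 0x609070203020302030302020202020305050804050204050404060702040602050204) (by decide +kernel)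
noncomputable def cP2_7 : Ch SP (nat_lit 88328) (nat_lit 0) (nat_lit 89497) (nat_lit 0) :=
  sP cP2_6 (nat_lit 89497) (nat_lit 63) (nat_lit 0x90702020405020203020202020302030303030207020204030502030203020502030205050202020302020202020203040403030202020202050402040202) (by decide +kernel)
noncomputable def cP2_8 : Ch SP (nat_lit 88328) (nat_lit 0) (nat_lit 89666) (nat_lit 0) :=
  sP cP2_7 (nat_lit 89666) (nat_lit 54) (nat_lit 0x70203030203030202020602020203020203020905020303030203030304020202020202050304040204030208020304040202040404) (by decide +kernel)
noncomputable def cP2_9 : Ch SP (nat_lit 88328) (nat_lit 0) (nat_lit 89817) (nat_lit 0) :=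
  sP cP2_8 (nat_lit 89817) (nat_lit 46) (nat_lit 0x802030302060202020e030203030302040204040307030303020202020202020404030202030203040402040502) (by decide +kernel)
noncomputable def cP2_10 : Ch SP (nat_lit 88328) (nat_lit 0) (nat_lit 89959) (nat_lit 0) :=
  sP cP2_9 (nat_lit 89959) (nat_lit 47) (nat_lit 0x302020203030203020302020202030405021003030202020202020305030203020203020302040203030505050202) (by decide +kernel)
noncomputable def cP2_11 : Ch SP (nat_lit 88328) (nat_lit 0) (nat_lit 90112) (nat_lit 0) :=
  sP cP2_10 (nat_lit 90112) (nat_lit 53) (nat_lit 0x30302020402040202070202020202040203020303020303020202050202030202040304020202020303040302020f030202020302) (by decide +kernel)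
noncomputable def cP2_12 : Ch SP (nat_lit 88328) (nat_lit 0) (nat_lit 90276) (nat_lit 0) :=
  sP cP2_11 (nat_lit 90276) (nat_lit 54) (nat_lit 0x202020203020302030203020203030203020302040404020202050402020204040302020203020c0205040404050202050202060303) (by decide +kernel)
noncomputable def cP2_13 : Ch SP (nat_lit 88328) (nat_lit 0) (nat_lit 90441) (nat_lit 0) :=
  sP cP2_12 (nat_lit 90441) (nat_lit 60) (nat_lit 0x100302030202020202020202060202040303020202020303020202020202020202040502020202020202040203020502030202020404030203020302) (by decide +kernel)
noncomputable def cP2_14 : Ch SP (nat_lit 88328) (nat_lit 0) (nat_lit 90633) (nat_lit 0) :=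
  sP cP2_13 (nat_lit 90633) (nat_lit 62) (nat_lit 0xc07030202030702020704030203030203020203030205030302030204030203030203020202030302040302020302020404020202040303050202060202) (by decide +kernel)
noncomputable def cP2_15 : Ch SP (nat_lit 88328) (nat_lit 0) (nat_lit 90818) (nat_lit 0) :=
  sP cP2_14 (nat_lit 90818) (nat_lit 64) (nat_lit 0x20304020202030203060203020302040302020204020303040204050303020402040202030305030202030302020303020203020203020402020a0202050302) (by decide +kernel)
noncomputable def cP2_16 : Ch SP (nat_lit 88328) (nat_lit 0) (nat_lit 90990) (nat_lit 0) :=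
  sP cP2_15 (nat_lit 90990) (nat_lit 59) (nat_lit 0x203020204040202030c02030204020205020203020503030203020402020402040502020302030204020204020405020303020203020202020204) (by decide +kernel)
noncomputable def cP2_17 : Ch SP (nat_lit 88328) (nat_lit 0) (nat_lit 91124) (nat_lit 0) :=
  sP cP2_16 (nat_lit 91124) (nat_lit 44) (nat_lit 0x303030502020302020302020302030202020202031102040202030504030202050302020202040303020502) (by decide +kernel)
noncomputable def cP2_18 : Ch SP (nat_lit 88328) (nat_lit 0) (nat_lit 91339) (nat_lit 0) :=
  sP cP2_17 (nat_lit 91339) (nat_lit 80) (nat_lit 0x502020603020302020302030202020202020305020502020204020403030404020302020202020402020303020203020302030203020305030202020202030202020203020202020502020603030402) (by decide +kernel)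
noncomputable def cP2_19 : Ch SP (nat_lit 88328) (nat_lit 0) (nat_lit 91535) (nat_lit 0) :=
  sP cP2_18 (nat_lit 91535) (nat_lit 66) (nat_lit 0x50202020303060204020302030204040303030202020302030202020403030402030203050203020602050403040203020302040403020302040303020302020405) (by decide +kernel)
noncomputable def cP2_20 : Ch SP (nat_lit 88328) (nat_lit 0) (nat_lit 91712) (nat_lit 0) :=
  sP cP2_19 (nat_lit 91712) (nat_lit 55) (nat_lit 0x3020405020303040204020204020405040404050202020203060203020302020302020206040402030502030304040404050303020404) (by decide +kernel)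
noncomputable def cP2_21 : Ch SP (nat_lit 88328) (nat_lit 0) (nat_lit 91871) (nat_lit 0) :=
  sP cP2_20 (nat_lit 91871) (nat_lit 54) (nat_lit 0x2020202020403030303020402030202050202020202030302030e030203020204030302020305030202020202030302030206050304) (by decide +kernel)
noncomputable def cP2_22 : Ch SP (nat_lit 88328) (nat_lit 0) (nat_lit 91939) (nat_lit 0) :=
  sP cP2_21 (nat_lit 91939) (nat_lit 10) (nat_lit 0x2b020302020205040203) (by decide +kernel)
noncomputable def cP2_23 : Ch SP (nat_lit 88328) (nat_lit 0) (nat_lit 92097) (nat_lit 0) :=
  sP cP2_22 (nat_lit 92097) (nat_lit 50) (nat_lit 0x3020202020302040302020204020202050302020302020205080407020202030704040302030a0204030302040403020203) (by decide +kernel)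
noncomputable def cP2_24 : Ch SP (nat_lit 88328) (nat_lit 0) (nat_lit 92183) (nat_lit 0) :=
  sP cP2_23 (nat_lit 92183) (nat_lit 16) (nat_lit 0x7040302020a020e0b02040208050505) (by decide +kernel)
noncomputable def cP2_25 : Ch SP (nat_lit 88328) (nat_lit 0) (nat_lit 92299) (nat_lit 0) :=
  sP cP2_24 (nat_lit 92299) (nat_lit 28) (nat_lit 0x9020203020207030d030402050503050702020402020b0202020406) (by decide +kernel)
noncomputable def cP2_26 : Ch SP (nat_lit 88328) (nat_lit 0) (nat_lit 92400) (nat_lit 0) :=
  sP cP2_25 (nat_lit 92400) (nat_lit 22) (nat_lit 0x7070303030302031009060607030404030203020302) (by decide +kernel)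
noncomputable def cP2_27 : Ch SP (nat_lit 88328) (nat_lit 0) (nat_lit 92497) (nat_lit 0) :=
  sP cP2_26 (nat_lit 92497) (nat_lit 22) (nat_lit 0xf0404040203020303040402020303040302020f0805) (by decide +kernel)
noncomputable def cP2_28 : Ch SP (nat_lit 88328) (nat_lit 0) (nat_lit 92645) (nat_lit 0) :=
  sP cP2_27 (nat_lit 92645) (nat_lit 41) (nat_lit 0x504020502040202050403020604050202020208030605040402020303020406020303040302070207) (by decide +kernel)
noncomputable def cP2_29 : Ch SP (nat_lit 88328) (nat_lit 0) (nat_lit 92794) (nat_lit 0) :=
  sP cP2_28 (nat_lit 92794) (nat_lit 40) (nat_lit 0x5040403030403030302020303050403050208060205050504030403030204020604020202030904) (by decide +kernel)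
noncomputable def cP2_30 : Ch SP (nat_lit 88328) (nat_lit 0) (nat_lit 92942) (nat_lit 0) :=
  sP cP2_29 (nat_lit 92942) (nat_lit 45) (nat_lit 0x50305040203040304020202050203020203040203020202070203020202030302070302020a05020303020903) (by decide +kernel)
noncomputable def cP2_31 : Ch SP (nat_lit 88328) (nat_lit 0) (nat_lit 93049) (nat_lit 0) :=
  sP cP2_30 (nat_lit 93049) (nat_lit 28) (nat_lit 0x3030202050f0304030203030303030402020604030202020402050c) (by decide +kernel)
noncomputable def cP2_32 : Ch SP (nat_lit 88328) (nat_lit 0) (nat_lit 93237) (nat_lit 0) :=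
  sP cP2_31 (nat_lit 93237) (nat_lit 65) (nat_lit 0x302020202030204030203030203020205020404040203030202030303030202030202020202020203030202020202020702020402030405050303020205040706) (by decide +kernel)
noncomputable def cP2_33 : Ch SP (nat_lit 88328) (nat_lit 0) (nat_lit 93396) (nat_lit 0) :=
  sP cP2_32 (nat_lit 93396) (nat_lit 47) (nat_lit 0x402020904020503030305070304050405030203020202030303030202030504030202020304020803020403030204) (by decide +kernel)
noncomputable def cP2_34 : Ch SP (nat_lit 88328) (nat_lit 0) (nat_lit 93578) (nat_lit 0) :=
  sP cP2_33 (nat_lit 93578) (nat_lit 60) (nat_lit 0x40702020306030302050203020203020403020202030305020203020202020202070303030202020202060504030303030302050303020405020303) (by decide +kernel)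
noncomputable def cP2_35 : Ch SP (nat_lit 88328) (nat_lit 0) (nat_lit 93758) (nat_lit 0) :=
  sP cP2_34 (nat_lit 93758) (nat_lit 60) (nat_lit 0x30403030202030203040404070202020203030202020204020203030206040302020202020402050504040303020302020702030502020202020306) (by decide +kernel)
noncomputable def cP2_36 : Ch SP (nat_lit 88328) (nat_lit 0) (nat_lit 93948) (nat_lit 0) :=
  sP cP2_35 (nat_lit 93948) (nat_lit 67) (nat_lit 0x2030302030202060403050202020202020302020504030402020202020202020302040305030202030602020202030802020203050302020203030502030203040202) (by decide +kernel)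
noncomputable def cP2_37 : Ch SP (nat_lit 88328) (nat_lit 0) (nat_lit 94119) (nat_lit 0) :=
  sP cP2_36 (nat_lit 94119) (nat_lit 52) (nat_lit 0x5040202070603020206030202030203040302020204030202030503050303040504040602020206030302020503050202020304) (by decide +kernel)
noncomputable def cP2_38 : Ch SP (nat_lit 88328) (nat_lit 0) (nat_lit 94290) (nat_lit 0) :=
  sP cP2_37 (nat_lit 94290) (nat_lit 56) (nat_lit 0x202030402020202020407020303090304020306030202070202020302020303020302030302020502050304020302040404020304020203) (by decide +kernel)
noncomputable def cP2_39 : Ch SP (nat_lit 88328) (nat_lit 0) (nat_lit 94461) (nat_lit 0) :=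
  sP cP2_38 (nat_lit 94461) (nat_lit 55) (nat_lit 0x3040202020202040204030403030302020202040204020306020202070503070306030203020202020402020306020203020307030304) (by decide +kernel)
noncomputable def cP2_40 : Ch SP (nat_lit 88328) (nat_lit 0) (nat_lit 94640) (nat_lit 0) :=
  sP cP2_39 (nat_lit 94640) (nat_lit 59) (nat_lit 0x702030203020305040202020203020304020804030802020202050202030204030603030202050302020202040202020202020602030204050202) (by decide +kernel)
noncomputable def cP2_41 : Ch SP (nat_lit 88328) (nat_lit 0) (nat_lit 94819) (nat_lit 0) :=
  sP cP2_40 (nat_lit 94819) (nat_lit 57) (nat_lit 0xe0205030402040202030202020203020203070304030205040603040302020202030403030302030302030302020303020302030202020406) (by decide +kernel)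
noncomputable def cP2_42 : Ch SP (nat_lit 88328) (nat_lit 0) (nat_lit 94964) (nat_lit 0) :=
  sP cP2_41 (nat_lit 94964) (nat_lit 46) (nat_lit 0x902020202020202050203020202020302050202020203030203020202090803030202020202060302050304020b) (by decide +kernel)
noncomputable def cP2_43 : Ch SP (nat_lit 88328) (nat_lit 0) (nat_lit 95109) (nat_lit 0) :=
  sP cP2_42 (nat_lit 95109) (nat_lit 41) (nat_lit 0xa04060503020202020302020305030402020302030202020402020202020708080708020504020202) (by decide +kernel)
noncomputable def cP2_44 : Ch SP (nat_lit 88328) (nat_lit 0) (nat_lit 95312) (nat_lit 0) :=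
  sP cP2_43 (nat_lit 95312) (nat_lit 72) (nat_lit 0x50303040205030202020403030202020203020302020402020304020302020202020303020202030302020302030303030305020203030405070303020402020202030303030502) (by decide +kernel)
noncomputable def cP2_45 : Ch SP (nat_lit 88328) (nat_lit 0) (nat_lit 95472) (nat_lit 0) :=
  sP cP2_44 (nat_lit 95472) (nat_lit 48) (nat_lit 0x40202040504030a02020403020402050302030204020504030204030303060202020406020303050305020205030202) (by decide +kernel)
noncomputable def cP2_46 : Ch SP (nat_lit 88328) (nat_lit 0) (nat_lit 95669) (nat_lit 0) :=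
  sP cP2_45 (nat_lit 95669) (nat_lit 67) (nat_lit 0x6040202030204040503050203040202030302020602020203030403020202020605060402030202020302020302050303020203030303020204020402020202020204) (by decide +kernel)
noncomputable def cP2_47 : Ch SP (nat_lit 88328) (nat_lit 0) (nat_lit 95814) (nat_lit 0) :=
  sP cP2_46 (nat_lit 95814) (nat_lit 45) (nat_lit 0xd0402030302020403020302040202030202030303040204020303020203030202050202020205090306050302) (by decide +kernel)
noncomputable def cP2_48 : Ch SP (nat_lit 88328) (nat_lit 0) (nat_lit 95925) (nat_lit 0) :=
  sP cP2_47 (nat_lit 95925) (nat_lit 29) (nat_lit 0xb020202050302030603030302020e0603020502030703030303030203) (by decide +kernel)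
noncomputable def cP2_49 : Ch SP (nat_lit 88328) (nat_lit 0) (nat_lit 96109) (nat_lit 0) :=
  sP cP2_48 (nat_lit 96109) (nat_lit 60) (nat_lit 0x30203020304030203040202030304040202030503020804030302030304040403020202020302050302030403020302040305040206020202020403) (by decide +kernel)
noncomputable def cP2_50 : Ch SP (nat_lit 88328) (nat_lit 0) (nat_lit 96249) (nat_lit 0) :=
  sP cP2_49 (nat_lit 96249) (nat_lit 40) (nat_lit 0xa03040206020404040202050407020202020204020405040305020302030302020a020403020204) (by decide +kernel)
noncomputable def cP2_51 : Ch SP (nat_lit 88328) (nat_lit 0) (nat_lit 96435) (nat_lit 0) :=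
  sP cP2_50 (nat_lit 96435) (nat_lit 64) (nat_lit 0x3020203020207020204020202030202020604030403020402030202020303020202030205030303020208050302030403020205030304030302030202020204) (by decide +kernel)
noncomputable def cP2_52 : Ch SP (nat_lit 88328) (nat_lit 0) (nat_lit 96598) (nat_lit 0) :=
  sP cP2_51 (nat_lit 96598) (nat_lit 48) (nat_lit 0x60305020302050202020202030404070505020303040505030202050302040202020208050403030602060203020202) (by decide +kernel)
noncomputable def cP2_53 : Ch SP (nat_lit 88328) (nat_lit 0) (nat_lit 96740) (nat_lit 0) :=
  sP cP2_52 (nat_lit 96740) (nat_lit 39) (nat_lit 0x304020405060406020203070204040302050402020405020303020a0203020206030202060603) (by decide +kernel)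
noncomputable def cP2_54 : Ch SP (nat_lit 88328) (nat_lit 0) (nat_lit 96907) (nat_lit 0) :=
  sP cP2_53 (nat_lit 96907) (nat_lit 51) (nat_lit 0x40304020203030403020302020306020406020304030205030202040802050205030202020202040303070304050203030502) (by decide +kernel)
noncomputable def cP2_55 : Ch SP (nat_lit 88328) (nat_lit 0) (nat_lit 97009) (nat_lit 0) :=
  sP cP2_54 (nat_lit 97009) (nat_lit 20) (nat_lit 0x903040302050409030208020204080d05030409) (by decide +kernel)
noncomputable def cP2_56 : Ch SP (nat_lit 88328) (nat_lit 0) (nat_lit 97073) (nat_lit 0) :=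
  sP cP2_55 (nat_lit 97073) (nat_lit 10) (nat_lit 0x1b0b0503040502030202) (by decide +kernel)
noncomputable def cP2_57 : Ch SP (nat_lit 88328) (nat_lit 0) (nat_lit 97124) (nat_lit 0) :=
  sP cP2_56 (nat_lit 97124) (nat_lit 7) (nat_lit 0x18030302090505) (by decide +kernel)
noncomputable def cP2_58 : Ch SP (nat_lit 88328) (nat_lit 0) (nat_lit 97230) (nat_lit 0) :=
  sP cP2_57 (nat_lit 97230) (nat_lit 24) (nat_lit 0x90204060304040304060b04020d03020202040308030202) (by decide +kernel)
noncomputable def cP2_59 : Ch SP (nat_lit 88328) (nat_lit 0) (nat_lit 97349) (nat_lit 0) :=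
  sP cP2_58 (nat_lit 97349) (nat_lit 30) (nat_lit 0xa050404020202050202020e02030a040202020203050804040402020204) (by decide +kernel)
noncomputable def cP2_60 : Ch SP (nat_lit 88328) (nat_lit 0) (nat_lit 97501) (nat_lit 0) :=
  sP cP2_59 (nat_lit 97501) (nat_lit 45) (nat_lit 0x30302080405020203030302020203020403020204020402040604030202020807020802030205030505020302) (by decide +kernel)
noncomputable def cP2_61 : Ch SP (nat_lit 88328) (nat_lit 0) (nat_lit 97641) (nat_lit 0) :=
  sP cP2_60 (nat_lit 97641) (nat_lit 39) (nat_lit 0x9050202040303050202020604020502030203020202030a070304040205030302030402040405) (by decide +kernel)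
noncomputable def cP2_62 : Ch SP (nat_lit 88328) (nat_lit 0) (nat_lit 97759) (nat_lit 0) :=
  sP cP2_61 (nat_lit 97759) (nat_lit 31) (nat_lit 0x203020203020803020406080b020304020202020202050708080302020204) (by decide +kernel)
noncomputable def cP2_63 : Ch SP (nat_lit 88328) (nat_lit 0) (nat_lit 97943) (nat_lit 0) :=
  sP cP2_62 (nat_lit 97943) (nat_lit 62) (nat_lit 0x305030407040303040202020203020202050502050503030202050205030202020302030202030202020302020302020204040203020202030205070302) (by decide +kernel)
noncomputable def cP2_64 : Ch SP (nat_lit 88328) (nat_lit 0) (nat_lit 97980) (nat_lit 0) :=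
  sP cP2_63 (nat_lit 97980) (nat_lit 5) (nat_lit 0x1902050302) (by decide +kernel)
noncomputable def cP2_65 : Ch SP (nat_lit 88328) (nat_lit 0) (nat_lit 98113) (nat_lit 0) :=
  sP cP2_64 (nat_lit 98113) (nat_lit 39) (nat_lit 0x70202030303030302020503030402020205020203040403020310040402030303040202050303) (by decide +kernel)
noncomputable def cP2_66 : Ch SP (nat_lit 88328) (nat_lit 0) (nat_lit 98312) (nat_lit 0) :=
  sP cP2_65 (nat_lit 98312) (nat_lit 69) (nat_lit 0x30403050204050302040302030202020202030203040203040202070502030202030204040204040203020202020303030302020503030202030302020302020404030203) (by decide +kernel)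
noncomputable def cP2_67 : Ch SP (nat_lit 88328) (nat_lit 0) (nat_lit 98503) (nat_lit 0) :=
  sP cP2_66 (nat_lit 98503) (nat_lit 63) (nat_lit 0x50304050203030202020202040202020303040302030302020403020402040402030203040202040303020202020202050405070303030403030602030403) (by decide +kernel)
noncomputable def cP2_68 : Ch SP (nat_lit 88328) (nat_lit 0) (nat_lit 98658) (nat_lit 0) :=
  sP cP2_67 (nat_lit 98658) (nat_lit 45) (nat_lit 0x40402030404020602020203030307030303020204090406040203040205030302030202020405070502030302) (by decide +kernel)
noncomputable def cP2_69 : Ch SP (nat_lit 88328) (nat_lit 0) (nat_lit 98818) (nat_lit 0) :=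
  sP cP2_68 (nat_lit 98818) (nat_lit 52) (nat_lit 0x30202070202020204030202020202020b0303030202020205050305030302030304040202080602020202020303030302020304) (by decide +kernel)
noncomputable def cP2_70 : Ch SP (nat_lit 88328) (nat_lit 0) (nat_lit 98974) (nat_lit 0) :=
  sP cP2_69 (nat_lit 98974) (nat_lit 43) (nat_lit 0x8030203040203050502050505030205030503020205090505060202020203020202030403020307020404) (by decide +kernel)
noncomputable def cP2_71 : Ch SP (nat_lit 88328) (nat_lit 0) (nat_lit 99132) (nat_lit 0) :=
  sP cP2_70 (nat_lit 99132) (nat_lit 49) (nat_lit 0x4060302020205030503020303020202020208030202020206050204040402020203020303030202040202080303040209) (by decide +kernel)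
noncomputable def cP2_72 : Ch SP (nat_lit 88328) (nat_lit 0) (nat_lit 99320) (nat_lit 0) :=
  sP cP2_71 (nat_lit 99320) (nat_lit 64) (nat_lit 0x4030405040202030202040203030202020404040404040404020203020403020402050202020403020202020303030202020503030202090302020302020202) (by decide +kernel)
noncomputable def cP2_73 : Ch SP (nat_lit 88328) (nat_lit 0) (nat_lit 99454) (nat_lit 0) :=
  sP cP2_72 (nat_lit 99454) (nat_lit 36) (nat_lit 0x30403050b08050402020302040308030502050203040504030202020203020302070204) (by decide +kernel)
noncomputable def cP2_74 : Ch SP (nat_lit 88328) (nat_lit 0) (nat_lit 99626) (nat_lit 0) :=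
  sP cP2_73 (nat_lit 99626) (nat_lit 53) (nat_lit 0xb05030302020603040402070602040302020204040202020405020202020703030405030204030202030202020202020203020404) (by decide +kernel)
noncomputable def cP2_75 : Ch SP (nat_lit 88328) (nat_lit 0) (nat_lit 99800) (nat_lit 0) :=
  sP cP2_74 (nat_lit 99800) (nat_lit 57) (nat_lit 0x50803030402020202020204050202020508040202020402020402020202020205060203030203020204020402020306020504050202020202) (by decide +kernel)
noncomputable def cP2_76 : Ch SP (nat_lit 88328) (nat_lit 0) (nat_lit 99957) (nat_lit 0) :=
  sP cP2_75 (nat_lit 99957) (nat_lit 46) (nat_lit 0xe030303020203020508030302020205070306040302020402020202020202040202030503020303020405020505) (by decide +kernel)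
noncomputable def cP2_77 : Ch SP (nat_lit 88328) (nat_lit 0) (nat_lit 100153) (nat_lit 0) :=
  sP cP2_76 (nat_lit 100153) (nat_lit 66) (nat_lit 0x50402030204020402040302070305030205050202040203020202020303020303020203030303020203030203040205020305020302020203020302050503030302) (by decide +kernel)
noncomputable def cP2_78 : Ch SP (nat_lit 88328) (nat_lit 0) (nat_lit 100315) (nat_lit 0) :=
  sP cP2_77 (nat_lit 100315) (nat_lit 51) (nat_lit 0x5020202020302020403020206020604030303030302050203030303050304020b030404020302020505030302040202020202) (by decide +kernel)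
noncomputable def cP2_79 : Ch SP (nat_lit 88328) (nat_lit 0) (nat_lit 100473) (nat_lit 0) :=
  sP cP2_78 (nat_lit 100473) (nat_lit 48) (nat_lit 0x90403020203030203020205060403030202020704030302020202020302040206060202030204030507050302020204) (by decide +kernel)
noncomputable def cP2_80 : Ch SP (nat_lit 88328) (nat_lit 0) (nat_lit 100654) (nat_lit 0) :=
  sP cP2_79 (nat_lit 100654) (nat_lit 60) (nat_lit 0x60202030304020203030202020203020207030303030202020302020306030402050605030402030202020202030303030303030902030202050202) (by decide +kernel)
noncomputable def cP2_81 : Ch SP (nat_lit 88328) (nat_lit 0) (nat_lit 100795) (nat_lit 0) :=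
  sP cP2_80 (nat_lit 100795) (nat_lit 37) (nat_lit 0x4070704030203020902050405020302020504030703070403020205030306020203030404) (by decide +kernel)
noncomputable def cP2_82 : Ch SP (nat_lit 88328) (nat_lit 0) (nat_lit 100902) (nat_lit 0) :=
  sP cP2_81 (nat_lit 100902) (nat_lit 22) (nat_lit 0x120603050a0309040202030402050405030203050603) (by decide +kernel)
noncomputable def cP2_83 : Ch SP (nat_lit 88328) (nat_lit 0) (nat_lit 100996) (nat_lit 0) :=
  sP cP2_82 (nat_lit 100996) (nat_lit 20) (nat_lit 0xe06050203020705020305020207090a03020302) (by decide +kernel)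
noncomputable def cP2_84 : Ch SP (nat_lit 88328) (nat_lit 0) (nat_lit 101129) (nat_lit 0) :=
  sP cP2_83 (nat_lit 101129) (nat_lit 31) (nat_lit 0xf0703070302070703020a0502020204040705030302020404040302040203) (by decide +kernel)
noncomputable def cP2_85 : Ch SP (nat_lit 88328) (nat_lit 0) (nat_lit 101277) (nat_lit 0) :=
  sP cP2_84 (nat_lit 101277) (nat_lit 42) (nat_lit 0xb0702050303020302030203020203040505030302020304050603040704050303020202020302020702) (by decide +kernel)
noncomputable def cP2_86 : Ch SP (nat_lit 88328) (nat_lit 0) (nat_lit 101368) (nat_lit 0) :=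
  sP cP2_85 (nat_lit 101368) (nat_lit 16) (nat_lit 0x904020206040309060908020302070f) (by decide +kernel)
noncomputable def cP2_87 : Ch SP (nat_lit 88328) (nat_lit 0) (nat_lit 101478) (nat_lit 0) :=
  sP cP2_86 (nat_lit 101478) (nat_lit 26) (nat_lit 0x803020304020209030a02020203030d05050406030302020702) (by decide +kernel)
noncomputable def cP2_88 : Ch SP (nat_lit 88328) (nat_lit 0) (nat_lit 101592) (nat_lit 0) :=
  sP cP2_87 (nat_lit 101592) (nat_lit 25) (nat_lit 0xa02050403060605020703030203030305030704040e030502) (by decide +kernel)
noncomputable def cP2_89 : Ch SP (nat_lit 88328) (nat_lit 0) (nat_lit 101769) (nat_lit 0) :=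
  sP cP2_88 (nat_lit 101769) (nat_lit 58) (nat_lit 0x6020302050202020203020303020602030202020703040403020203040202020203030303090304040303030302020207030302020503020202) (by decide +kernel)
noncomputable def cP2_90 : Ch SP (nat_lit 88328) (nat_lit 0) (nat_lit 101927) (nat_lit 0) :=
  sP cP2_89 (nat_lit 101927) (nat_lit 48) (nat_lit 0x20302020205020203020205080202090502020202020503030502020403050302050305040502040203030203040503) (by decide +kernel)
noncomputable def cP2_91 : Ch SP (nat_lit 88328) (nat_lit 0) (nat_lit 102117) (nat_lit 0) :=
  sP cP2_90 (nat_lit 102117) (nat_lit 64) (nat_lit 0x3020202020203020303030502030502030402020405030202020205020502040305020604040403020203020202020202050303040203020403020203020306) (by decide +kernel)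
noncomputable def cP2_92 : Ch SP (nat_lit 88328) (nat_lit 0) (nat_lit 102282) (nat_lit 0) :=
  sP cP2_91 (nat_lit 102282) (nat_lit 53) (nat_lit 0x503020603020702030203020405030203020603020502030204020302030306030202030202030202020304030609020202020202) (by decide +kernel)
noncomputable def cP2_93 : Ch SP (nat_lit 88328) (nat_lit 0) (nat_lit 102380) (nat_lit 0) :=
  sP cP2_92 (nat_lit 102380) (nat_lit 23) (nat_lit 0x502041204020402040203030308040602030204040504) (by decide +kernel)
noncomputable def cP2_94 : Ch SP (nat_lit 88328) (nat_lit 0) (nat_lit 102559) (nat_lit 0) :=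
  sP cP2_93 (nat_lit 102559) (nat_lit 59) (nat_lit 0x402040202020303050603070304030202050302020203030204020303020504060203020204020203020205020202020207020202030303020305) (by decide +kernel)
noncomputable def cP2_95 : Ch SP (nat_lit 88328) (nat_lit 0) (nat_lit 102725) (nat_lit 0) :=
  sP cP2_94 (nat_lit 102725) (nat_lit 52) (nat_lit 0x4040202020303040302020505030202030208020302020203030204050305030602020202020202070203050302030603050502) (by decide +kernel)
noncomputable def cP2_96 : Ch SP (nat_lit 88328) (nat_lit 0) (nat_lit 102860) (nat_lit 0) :=
  sP cP2_95 (nat_lit 102860) (nat_lit 35) (nat_lit 0x309050202020202020502020403020505050404050708050402030308030203040305) (by decide +kernel)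
noncomputable def cP2_97 : Ch SP (nat_lit 88328) (nat_lit 0) (nat_lit 103015) (nat_lit 0) :=
  sP cP2_96 (nat_lit 103015) (nat_lit 47) (nat_lit 0x30302050302020203020503020302030302030b030302030205030702030204060303060303030303060302030203) (by decide +kernel)
noncomputable def cP2_98 : Ch SP (nat_lit 88328) (nat_lit 0) (nat_lit 103211) (nat_lit 0) :=
  sP cP2_97 (nat_lit 103211) (nat_lit 69) (nat_lit 0x30203020202030606020203020203030203030302060203020302030702020302020302030304030206030203040204020304020203020302030202020202030404030202) (by decide +kernel)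
noncomputable def cP2_99 : Ch SP (nat_lit 88328) (nat_lit 0) (nat_lit 103378) (nat_lit 0) :=
  sP cP2_98 (nat_lit 103378) (nat_lit 53) (nat_lit 0x304060602020303050805030208030205030402020603020202020202020302020203030303030403020202030204030302020205) (by decide +kernel)
noncomputable def cP2_100 : Ch SP (nat_lit 88328) (nat_lit 0) (nat_lit 103547) (nat_lit 0) :=
  sP cP2_99 (nat_lit 103547) (nat_lit 54) (nat_lit 0x90305030202020203050402040302020205020302020203020302020803030806020205020303020302020402030208020202030202) (by decide +kernel)
noncomputable def cP2_101 : Ch SP (nat_lit 88328) (nat_lit 0) (nat_lit 103707) (nat_lit 0) :=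
  sP cP2_100 (nat_lit 103707) (nat_lit 47) (nat_lit 0x602030702020703020506030302020203030302060304030303040302030303050703030203030302070502030202) (by decide +kernel)
noncomputable def cP2_102 : Ch SP (nat_lit 88328) (nat_lit 0) (nat_lit 103874) (nat_lit 0) :=
  sP cP2_101 (nat_lit 103874) (nat_lit 51) (nat_lit 0x5020a020203060402030303050303020203030303050303040202030302050404020702020303030403030203020303020305) (by decide +kernel)
noncomputable def cP2_103 : Ch SP (nat_lit 88328) (nat_lit 0) (nat_lit 104015) (nat_lit 0) :=
  sP cP2_102 (nat_lit 104015) (nat_lit 38) (nat_lit 0xf05030208020202020203030306080303020303030202030603020306020404030406020402) (by decide +kernel)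
noncomputable def cP2_104 : Ch SP (nat_lit 88328) (nat_lit 0) (nat_lit 104173) (nat_lit 0) :=
  sP cP2_103 (nat_lit 104173) (nat_lit 47) (nat_lit 0x205060202040205050304020206040303030203040203050502020203020205020303030402020503080205020207) (by decide +kernel)
noncomputable def cP2_105 : Ch SP (nat_lit 88328) (nat_lit 0) (nat_lit 104316) (nat_lit 0) :=
  sP cP2_104 (nat_lit 104316) (nat_lit 44) (nat_lit 0x20406030202020302070703020305020d030202020202020202020203020303030203020504030504040204) (by decide +kernel)
noncomputable def cP2_106 : Ch SP (nat_lit 88328) (nat_lit 0) (nat_lit 104514) (nat_lit 0) :=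
  sP cP2_105 (nat_lit 104514) (nat_lit 68) (nat_lit 0x202020502030305020403020302030302030203020403020404040303020302050302020502030202020203050304030305030303050203020203020202020205030303) (by decide +kernel)
noncomputable def cP2_107 : Ch SP (nat_lit 88328) (nat_lit 0) (nat_lit 104683) (nat_lit 0) :=
  sP cP2_106 (nat_lit 104683) (nat_lit 53) (nat_lit 0x202020202050306020302020203060202020503020202020202060302030405030303030504070403020307020404030403030204) (by decide +kernel)
noncomputable def cP2_108 : Ch SP (nat_lit 88328) (nat_lit 0) (nat_lit 104858) (nat_lit 0) :=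
  sP cP2_107 (nat_lit 104858) (nat_lit 55) (nat_lit 0x4020204030503020302020803030405030202020402030203030403030303030303030302020207030404030206030305020305020203) (by decide +kernel)
noncomputable def cP2_109 : Ch SP (nat_lit 88328) (nat_lit 0) (nat_lit 105004) (nat_lit 0) :=
  sP cP2_108 (nat_lit 105004) (nat_lit 39) (nat_lit 0x60403050304020502030304020203030602030202050405050506020308020205030303090403) (by decide +kernel)
noncomputable def cP2_110 : Ch SP (nat_lit 88328) (nat_lit 0) (nat_lit 105083) (nat_lit 0) :=
  sP cP2_109 (nat_lit 105083) (nat_lit 13) (nat_lit 0x9040704060703020512090302) (by decide +kernel)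
noncomputable def cP2_111 : Ch SP (nat_lit 88328) (nat_lit 0) (nat_lit 105198) (nat_lit 0) :=
  sP cP2_110 (nat_lit 105198) (nat_lit 28) (nat_lit 0x70c0202020202060603030402030202020905070202050605020208) (by decide +kernel)
noncomputable def cP2_112 : Ch SP (nat_lit 88328) (nat_lit 0) (nat_lit 105246) (nat_lit 0) :=
  sP cP2_111 (nat_lit 105246) (nat_lit 6) (nat_lit 0x150d05030402) (by decide +kernel)
noncomputable def cP2_113 : Ch SP (nat_lit 88328) (nat_lit 0) (nat_lit 105381) (nat_lit 0) :=
  sP cP2_112 (nat_lit 105381) (nat_lit 39) (nat_lit 0x503020202050a0202020203040203030908060304090203030305030302020203020203020202) (by decide +kernel)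
noncomputable def cP2_114 : Ch SP (nat_lit 88328) (nat_lit 0) (nat_lit 105491) (nat_lit 0) :=
  sP cP2_113 (nat_lit 105491) (nat_lit 28) (nat_lit 0xd0404020202020603020204030503040204050502020c0502020206) (by decide +kernel)
noncomputable def cP2_115 : Ch SP (nat_lit 88328) (nat_lit 0) (nat_lit 105650) (nat_lit 0) :=
  sP cP2_114 (nat_lit 105650) (nat_lit 46) (nat_lit 0xd030502030403030403040303020303020303020203040202030303030603030503020205020402030205020707) (by decide +kernel)
noncomputable def cP2_116 : Ch SP (nat_lit 88328) (nat_lit 0) (nat_lit 105770) (nat_lit 0) :=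
  sP cP2_115 (nat_lit 105770) (nat_lit 28) (nat_lit 0x2030209070302050305020202070206050805040508030204040703) (by decide +kernel)
noncomputable def cP2_117 : Ch SP (nat_lit 88328) (nat_lit 0) (nat_lit 105945) (nat_lit 0) :=
  sP cP2_116 (nat_lit 105945) (nat_lit 55) (nat_lit 0x7030303030503030702030203020402040506020203030202020302020202040202030402020302040304040704020503040402020303) (by decide +kernel)
noncomputable def cP2_118 : Ch SP (nat_lit 88328) (nat_lit 0) (nat_lit 106095) (nat_lit 0) :=
  sP cP2_117 (nat_lit 106095) (nat_lit 45) (nat_lit 0x50b04020303040302070302020202020402020208020203060306040205030305030202020503020202020303) (by decide +kernel)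
noncomputable def cP2_119 : Ch SP (nat_lit 88328) (nat_lit 0) (nat_lit 106259) (nat_lit 0) :=
  sP cP2_118 (nat_lit 106259) (nat_lit 48) (nat_lit 0x40603020404040302030303040304040402020202020203030207020705030302040703040303020403040203020506) (by decide +kernel)
noncomputable def cP2_120 : Ch SP (nat_lit 88328) (nat_lit 0) (nat_lit 106432) (nat_lit 0) :=
  sP cP2_119 (nat_lit 106432) (nat_lit 56) (nat_lit 0x304020603040303040202030303030202060304020709020202040603040303030203040203020202030202020203040202020304020302) (by decide +kernel)
noncomputable def cP2_121 : Ch SP (nat_lit 88328) (nat_lit 0) (nat_lit 106554) (nat_lit 0) :=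
  sP cP2_120 (nat_lit 106554) (nat_lit 31) (nat_lit 0x302030503050202020505020404060c070304030907020304020203020303) (by decide +kernel)
noncomputable def cP2_122 : Ch SP (nat_lit 88328) (nat_lit 0) (nat_lit 106749) (nat_lit 0) :=
  sP cP2_121 (nat_lit 106749) (nat_lit 65) (nat_lit 0xa02030203030302030703030203020202020203030302020302020202020303020302020304030302020202060304030306040202040604020505020303020203) (by decide +kernel)
noncomputable def cP2_123 : Ch SP (nat_lit 88328) (nat_lit 0) (nat_lit 106908) (nat_lit 0) :=
  sP cP2_122 (nat_lit 106908) (nat_lit 49) (nat_lit 0x7030402030302060302020b02070302030202030205020503060302020303020203020603040402020202020303020304) (by decide +kernel)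
noncomputable def cP2_124 : Ch SP (nat_lit 88328) (nat_lit 0) (nat_lit 107059) (nat_lit 0) :=
  sP cP2_123 (nat_lit 107059) (nat_lit 42) (nat_lit 0x20205030202030205030302020207050504050603030405050603040206040202060406020202030205) (by decide +kernel)
noncomputable def cP2_125 : Ch SP (nat_lit 88328) (nat_lit 0) (nat_lit 107195) (nat_lit 0) :=
  sP cP2_124 (nat_lit 107195) (nat_lit 37) (nat_lit 0x903020203030303050b030803040403050402030203020303020302020203030407020505) (by decide +kernel)
noncomputable def cP2_126 : Ch SP (nat_lit 88328) (nat_lit 0) (nat_lit 107312) (nat_lit 0) :=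
  sP cP2_125 (nat_lit 107312) (nat_lit 34) (nat_lit 0x3030202020204030202030202040204020402100902020202030606050403020302) (by decide +kernel)
noncomputable def cP2_127 : Ch SP (nat_lit 88328) (nat_lit 0) (nat_lit 107495) (nat_lit 0) :=
  sP cP2_126 (nat_lit 107495) (nat_lit 62) (nat_lit 0x203020305030203020302020304040307020202070303070403030202030202020202020202060302040205030303020204020205030302020303020302) (by decide +kernel)
noncomputable def cP2_128 : Ch SP (nat_lit 88328) (nat_lit 0) (nat_lit 107677) (nat_lit 0) :=
  sP cP2_127 (nat_lit 107677) (nat_lit 59) (nat_lit 0x404040306030203020602030203040402030302050202020204020302030202040202020305050402040504020503030202020605030202030202) (by decide +kernel)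
noncomputable def cP2_129 : Ch SP (nat_lit 88328) (nat_lit 0) (nat_lit 107832) (nat_lit 0) :=
  sP cP2_128 (nat_lit 107832) (nat_lit 44) (nat_lit 0x707050302060303030405030202050303020207020503020203030205030502020703030502030302020306) (by decide +kernel)
noncomputable def cP2_130 : Ch SP (nat_lit 88328) (nat_lit 0) (nat_lit 108007) (nat_lit 0) :=
  sP cP2_129 (nat_lit 108007) (nat_lit 55) (nat_lit 0x6050303020403030202030202030303020303080202020205020302020502030202080306030302030303060205030403020204030303) (by decide +kernel)
noncomputable def cP2_131 : Ch SP (nat_lit 88328) (nat_lit 0) (nat_lit 108181) (nat_lit 0) :=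
  sP cP2_130 (nat_lit 108181) (nat_lit 58) (nat_lit 0x4020202030202030303030203030204050302050302020203040203040202020403030203020303020402050204020302020307030b02030203) (by decide +kernel)
noncomputable def cP2_132 : Ch SP (nat_lit 88328) (nat_lit 0) (nat_lit 108344) (nat_lit 0) :=
  sP cP2_131 (nat_lit 108344) (nat_lit 54) (nat_lit 0x20202020203020502070202050202020302020202020502020302050203030202020402050302050402030203020303030902020509) (by decide +kernel)
noncomputable def cP2_133 : Ch SP (nat_lit 88328) (nat_lit 0) (nat_lit 108503) (nat_lit 0) :=
  sP cP2_132 (nat_lit 108503) (nat_lit 49) (nat_lit 0x702030602030302020302020203020202020208020405020205030304040202050304020404020207030b040202020202) (by decide +kernel)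
noncomputable def cP2_134 : Ch SP (nat_lit 88328) (nat_lit 0) (nat_lit 108651) (nat_lit 0) :=
  sP cP2_133 (nat_lit 108651) (nat_lit 46) (nat_lit 0xf020202020204060305050206020204020203020202020202020203040203030403040307030402020202020602) (by decide +kernel)
noncomputable def cP2_135 : Ch SP (nat_lit 88328) (nat_lit 0) (nat_lit 108756) (nat_lit 0) :=
  sP cP2_134 (nat_lit 108756) (nat_lit 26) (nat_lit 0xe04070302020a03020203050203030303040208020207050202) (by decide +kernel)
noncomputable def cP2_136 : Ch SP (nat_lit 88328) (nat_lit 0) (nat_lit 108829) (nat_lit 0) :=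
  sP cP2_135 (nat_lit 108829) (nat_lit 15) (nat_lit 0x40304030302021409050302030604) (by decide +kernel)
noncomputable def cP2_137 : Ch SP (nat_lit 88328) (nat_lit 0) (nat_lit 108953) (nat_lit 0) :=
  sP cP2_136 (nat_lit 108953) (nat_lit 27) (nat_lit 0xd04040302020502020205040408040303040a0205030209050905) (by decide +kernel)
noncomputable def cP2_138 : Ch SP (nat_lit 88328) (nat_lit 0) (nat_lit 109096) (nat_lit 0) :=
  sP cP2_137 (nat_lit 109096) (nat_lit 41) (nat_lit 0x502040202020a02020203060408060304050402020202020203030302030602030309020302020504) (by decide +kernel)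
noncomputable def cP2_139 : Ch SP (nat_lit 88328) (nat_lit 0) (nat_lit 109226) (nat_lit 0) :=
  sP cP2_138 (nat_lit 109226) (nat_lit 37) (nat_lit 0xd040304021003020302020203030203020202030403080204050303020203030402020202) (by decide +kernel)
noncomputable def cP2_140 : Ch SP (nat_lit 88328) (nat_lit 0) (nat_lit 109364) (nat_lit 0) :=
  sP cP2_139 (nat_lit 109364) (nat_lit 40) (nat_lit 0x2020403020402090305040804020403090302040203060402020202020902020202040202030303) (by decide +kernel)
noncomputable def cP2_141 : Ch SP (nat_lit 88328) (nat_lit 0) (nat_lit 109547) (nat_lit 0) :=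
  sP cP2_140 (nat_lit 109547) (nat_lit 63) (nat_lit 0x20204030302030203020503070203020204020205030303020302020202050202020203020202030202020605030202040302020202020508030203050402) (by decide +kernel)
noncomputable def cP2_142 : Ch SP (nat_lit 88328) (nat_lit 0) (nat_lit 109695) (nat_lit 0) :=
  sP cP2_141 (nat_lit 109695) (nat_lit 40) (nat_lit 0x5040405060403030403030607020304020606020404020302020202050306020303060202020308) (by decide +kernel)
noncomputable def cP2_143 : Ch SP (nat_lit 88328) (nat_lit 0) (nat_lit 109860) (nat_lit 0) :=
  sP cP2_142 (nat_lit 109860) (nat_lit 49) (nat_lit 0x7030802030202030302020404050202040203030702040402030404030202020203040404020404030203030408060202) (by decide +kernel)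
noncomputable def cP2_144 : Ch SP (nat_lit 88328) (nat_lit 0) (nat_lit 110013) (nat_lit 0) :=
  sP cP2_143 (nat_lit 110013) (nat_lit 46) (nat_lit 0x5040209040202040203020503060302030202020403030305020404070302030202040202020409020503020202) (by decide +kernel)
noncomputable def cP2_145 : Ch SP (nat_lit 88328) (nat_lit 0) (nat_lit 110133) (nat_lit 0) :=
  sP cP2_144 (nat_lit 110133) (nat_lit 30) (nat_lit 0x402020d0702020402040303020202020605060505040705070302030204) (by decide +kernel)
noncomputable def cP2_146 : Ch SP (nat_lit 88328) (nat_lit 0) (nat_lit 110271) (nat_lit 0) :=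
  sP cP2_145 (nat_lit 110271) (nat_lit 39) (nat_lit 0x90305020202030302030203020e02030302040207050202030502020302030303030208050304) (by decide +kernel)
noncomputable def cP2_147 : Ch SP (nat_lit 88328) (nat_lit 0) (nat_lit 110452) (nat_lit 0) :=
  sP cP2_146 (nat_lit 110452) (nat_lit 62) (nat_lit 0x202030302020304050502030303020302030205020302030203020202040403020302040202020303040204020703020303020203020203020302020a04) (by decide +kernel)
noncomputable def cP2_148 : Ch SP (nat_lit 88328) (nat_lit 0) (nat_lit 110613) (nat_lit 0) :=
  sP cP2_147 (nat_lit 110613) (nat_lit 50) (nat_lit 0x703030206050403020405040207030203040302020c02040202030202040204030302030203020302020303020304020202) (by decide +kernel)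
noncomputable def cP2_149 : Ch SP (nat_lit 88328) (nat_lit 0) (nat_lit 110816) (nat_lit 0) :=
  sP cP2_148 (nat_lit 110816) (nat_lit 63) (nat_lit 0x140303030202040302040504040403020504050202020303030302020302030203020203020203040204030403030202050503020404030202040202030202) (by decide +kernel)
noncomputable def cP2_150 : Ch SP (nat_lit 88328) (nat_lit 0) (nat_lit 110976) (nat_lit 0) :=
  sP cP2_149 (nat_lit 110976) (nat_lit 48) (nat_lit 0x70204050302030202020502040302020203070403040302030302040a05020204050202040203060304020203030303) (by decide +kernel)
noncomputable def cP2_151 : Ch SP (nat_lit 88328) (nat_lit 0) (nat_lit 111123) (nat_lit 0) :=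
  sP cP2_150 (nat_lit 111123) (nat_lit 47) (nat_lit 0x50302020302020303020f030202020203020402030404030202040505030202040304030404030202020203030203) (by decide +kernel)
noncomputable def cP2_152 : Ch SP (nat_lit 88328) (nat_lit 0) (nat_lit 111334) (nat_lit 0) :=
  sP cP2_151 (nat_lit 111334) (nat_lit 79) (nat_lit 0x2020302020303030402020502020404040202060202020304030202020202040204020303040202030204020202030202020204020302030202070203020302020302030202040204030202020202) (by decide +kernel)
noncomputable def cP2_153 : Ch SP (nat_lit 88328) (nat_lit 0) (nat_lit 111510) (nat_lit 0) :=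
  sP cP2_152 (nat_lit 111510) (nat_lit 58) (nat_lit 0x6030505020203030303020502060205030502030702030304030203020302020302020202030308020203020203020303030203020204030202) (by decide +kernel)
noncomputable def cP2_154 : Ch SP (nat_lit 88328) (nat_lit 0) (nat_lit 111691) (nat_lit 0) :=
  sP cP2_153 (nat_lit 111691) (nat_lit 58) (nat_lit 0x5030202020205020602040302050203030402020204040302020203030402060203030303020603030303030206030302020302020504030306) (by decide +kernel)
noncomputable def cP2_155 : Ch SP (nat_lit 88328) (nat_lit 0) (nat_lit 111889) (nat_lit 0) :=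
  sP cP2_154 (nat_lit 111889) (nat_lit 69) (nat_lit 0x20202020302030302030302030202020302030303040302020303040203030302050203040304050404020302020602020202020202030302030204020602030205030504) (by decide +kernel)
noncomputable def cP2_156 : Ch SP (nat_lit 88328) (nat_lit 0) (nat_lit 112059) (nat_lit 0) :=
  sP cP2_155 (nat_lit 112059) (nat_lit 53) (nat_lit 0x506030404040203040204040402020202030304090304020302020203020302040303030202020302030402030302050302050703) (by decide +kernel)
noncomputable def cP2_157 : Ch SP (nat_lit 88328) (nat_lit 0) (nat_lit 112181) (nat_lit 0) :=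
  sP cP2_156 (nat_lit 112181) (nat_lit 32) (nat_lit 0x4030207020306030207090d0404030202020203030402030404020205030304) (by decide +kernel)
noncomputable def cP2_158 : Ch SP (nat_lit 88328) (nat_lit 0) (nat_lit 112268) (nat_lit 0) :=
  sP cP2_157 (nat_lit 112268) (nat_lit 16) (nat_lit 0x50702030b0203020b060c0608020502) (by decide +kernel)
noncomputable def cP2_159 : Ch SP (nat_lit 88328) (nat_lit 0) (nat_lit 112419) (nat_lit 0) :=
  sP cP2_158 (nat_lit 112419) (nat_lit 44) (nat_lit 0x703060402020304030203030302020502020503020303040303040203030202030503020803030202050a05) (by decide +kernel)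
noncomputable def cP2_160 : Ch SP (nat_lit 88328) (nat_lit 0) (nat_lit 112555) (nat_lit 0) :=
  sP cP2_159 (nat_lit 112555) (nat_lit 38) (nat_lit 0x303020506050402020202020302030202050502020303020205050304080402030304030c06) (by decide +kernel)
noncomputable def cP2_161 : Ch SP (nat_lit 88328) (nat_lit 0) (nat_lit 112610) (nat_lit 0) :=
  sP cP2_160 (nat_lit 112610) (nat_lit 7) (nat_lit 0x8030508020815) (by decide +kernel)
noncomputable def cP2_162 : Ch SP (nat_lit 88328) (nat_lit 0) (nat_lit 112749) (nat_lit 0) :=
  sP cP2_161 (nat_lit 112749) (nat_lit 38) (nat_lit 0x802030303020a05020304020202020207020307030302040303030307020207070302050303) (by decide +kernel)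
noncomputable def cP2_163 : Ch SP (nat_lit 88328) (nat_lit 0) (nat_lit 112843) (nat_lit 0) :=
  sP cP2_162 (nat_lit 112843) (nat_lit 22) (nat_lit 0x702020206030203060e020703040d03020403020202) (by decide +kernel)
noncomputable def cP2_164 : Ch SP (nat_lit 88328) (nat_lit 0) (nat_lit 112988) (nat_lit 0) :=
  sP cP2_163 (nat_lit 112988) (nat_lit 42) (nat_lit 0x50303020203030202020205030204050204020202020803040204060402070502020203020a04070303) (by decide +kernel)
noncomputable def cP2_165 : Ch SP (nat_lit 88328) (nat_lit 0) (nat_lit 113173) (nat_lit 0) :=
  sP cP2_164 (nat_lit 113173) (nat_lit 60) (nat_lit 0x50302060303030403020302020303030202040502040203040203020303020303060303020302030303030204030304030202040602020202050207) (by decide +kernel)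
noncomputable def cP2_166 : Ch SP (nat_lit 88328) (nat_lit 0) (nat_lit 113331) (nat_lit 0) :=
  sP cP2_165 (nat_lit 113331) (nat_lit 49) (nat_lit 0x3030207020203020203020402030907080204040302020203030205030202050303030304020405050202020203020302) (by decide +kernel)
noncomputable def cP2_167 : Ch SP (nat_lit 88328) (nat_lit 0) (nat_lit 113454) (nat_lit 0) :=
  sP cP2_166 (nat_lit 113454) (nat_lit 34) (nat_lit 0x4020304020302020204020302020b030d0604050303030603020303020502050202) (by decide +kernel)
noncomputable def cP2_168 : Ch SP (nat_lit 88328) (nat_lit 0) (nat_lit 113601) (nat_lit 0) :=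
  sP cP2_167 (nat_lit 113601) (nat_lit 39) (nat_lit 0x70205080302020202030202030303060502060408050204040203060705030404020302020405) (by decide +kernel)
noncomputable def cP2_169 : Ch SP (nat_lit 88328) (nat_lit 0) (nat_lit 113779) (nat_lit 0) :=
  sP cP2_168 (nat_lit 113779) (nat_lit 59) (nat_lit 0xa04030202020406040704030202040604030402030205020203020302020202030302020204020303020202030302030305030302030202020202) (by decide +kernel)
noncomputable def cP2_170 : Ch SP (nat_lit 88328) (nat_lit 0) (nat_lit 113901) (nat_lit 0) :=
  sP cP2_169 (nat_lit 113901) (nat_lit 33) (nat_lit 0x3030402020202030604070303020203030c020202020202030702090903050303) (by decide +kernel)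
noncomputable def cP2_171 : Ch SP (nat_lit 88328) (nat_lit 0) (nat_lit 114042) (nat_lit 0) :=
  sP cP2_170 (nat_lit 114042) (nat_lit 39) (nat_lit 0x40402020202030804020302040303080902020302020303040206020502040704030303020606) (by decide +kernel)
noncomputable def cP2_172 : Ch SP (nat_lit 88328) (nat_lit 0) (nat_lit 114204) (nat_lit 0) :=
  sP cP2_171 (nat_lit 114204) (nat_lit 50) (nat_lit 0x202040202020203030302040304020205020402020202020604030302030503040209020404060202020502050604060203) (by decide +kernel)
noncomputable def cP2_173 : Ch SP (nat_lit 88328) (nat_lit 0) (nat_lit 114361) (nat_lit 0) :=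
  sP cP2_172 (nat_lit 114361) (nat_lit 48) (nat_lit 0xa030202050202020202020302040403030302020204080a020203050202020503040203040307030503020202020203) (by decide +kernel)
noncomputable def cP2_174 : Ch SP (nat_lit 88328) (nat_lit 0) (nat_lit 114520) (nat_lit 0) :=
  sP cP2_173 (nat_lit 114520) (nat_lit 49) (nat_lit 0x3020302030305040302020203050402030303020c02030203020705050202030303030303020303030403030502030303) (by decide +kernel)
noncomputable def cP2_175 : Ch SP (nat_lit 88328) (nat_lit 0) (nat_lit 114681) (nat_lit 0) :=
  sP cP2_174 (nat_lit 114681) (nat_lit 47) (nat_lit 0x702040202020307030502030603040303020203020202060303040306040503040302020a04030202030203030304) (by decide +kernel)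
noncomputable def cP2_176 : Ch SP (nat_lit 88328) (nat_lit 0) (nat_lit 114835) (nat_lit 0) :=
  sP cP2_175 (nat_lit 114835) (nat_lit 45) (nat_lit 0x60304020203070402070402020708030206060402020303040202020304020303020204020303050204020303) (by decide +kernel)
noncomputable def cP2_177 : Ch SP (nat_lit 88328) (nat_lit 0) (nat_lit 114966) (nat_lit 0) :=
  sP cP2_176 (nat_lit 114966) (nat_lit 37) (nat_lit 0x2030203030302050205040605020a0305020b020204020302020402050204020802020302) (by decide +kernel)
noncomputable def cP2_178 : Ch SP (nat_lit 88328) (nat_lit 0) (nat_lit 115176) (nat_lit 0) :=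
  sP cP2_177 (nat_lit 115176) (nat_lit 74) (nat_lit 0x602060302030202020203020403040203040204050302040302020202020202020203040302030203030203040204020303050302020303020202050303020202050303030304020202) (by decide +kernel)
noncomputable def cP2_179 : Ch SP (nat_lit 88328) (nat_lit 0) (nat_lit 115382) (nat_lit 0) :=
  sP cP2_178 (nat_lit 115382) (nat_lit 73) (nat_lit 0x4020203050202040304040302020404040203020204030303020203030202030203030203020704050202020304050203030202030402020302020303020202020202020303030203) (by decide +kernel)
noncomputable def cP2_180 : Ch SP (nat_lit 88328) (nat_lit 0) (nat_lit 115538) (nat_lit 0) :=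
  sP cP2_179 (nat_lit 115538) (nat_lit 44) (nat_lit 0x504050202040502040303020202030706040503030403050209030203050504020503020504020203030202) (by decide +kernel)
noncomputable def cP2_181 : Ch SP (nat_lit 88328) (nat_lit 0) (nat_lit 115715) (nat_lit 0) :=
  sP cP2_180 (nat_lit 115715) (nat_lit 59) (nat_lit 0x706030303020303020502020206030302020402020302020202040205040202030202020302030302080603020302030209020202020202030302) (by decide +kernel)
noncomputable def cP2_182 : Ch SP (nat_lit 88328) (nat_lit 0) (nat_lit 115804) (nat_lit 0) :=
  sP cP2_181 (nat_lit 115804) (nat_lit 24) (nat_lit 0x30303020205030703020214020303030202030205050202) (by decide +kernel)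
noncomputable def cP2_183 : Ch SP (nat_lit 88328) (nat_lit 0) (nat_lit 115951) (nat_lit 0) :=
  sP cP2_182 (nat_lit 115951) (nat_lit 45) (nat_lit 0x40302030202030202020304020203050303040202050206030203030204080d02020402030502020304020403) (by decide +kernel)
noncomputable def cP2_184 : Ch SP (nat_lit 88328) (nat_lit 0) (nat_lit 116112) (nat_lit 0) :=
  sP cP2_183 (nat_lit 116112) (nat_lit 52) (nat_lit 0x50202040203040503030303030204040502020c0302040302020203070204030502020202030203020202040302030402020202) (by decide +kernel)
noncomputable def cP2_185 : Ch SP (nat_lit 88328) (nat_lit 0) (nat_lit 116272) (nat_lit 0) :=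
  sP cP2_184 (nat_lit 116272) (nat_lit 49) (nat_lit 0x4020302020503020408020306040303030607020303020602020303020202020202030504020302020204030303030308) (by decide +kernel)
noncomputable def cP2_186 : Ch SP (nat_lit 88328) (nat_lit 0) (nat_lit 116425) (nat_lit 0) :=
  sP cP2_185 (nat_lit 116425) (nat_lit 46) (nat_lit 0x3030302050303060203020903020202030206040502020605020302020305030202040302020802050202020306) (by decide +kernel)
noncomputable def cP2_187 : Ch SP (nat_lit 88328) (nat_lit 0) (nat_lit 116521) (nat_lit 0) :=
  sP cP2_186 (nat_lit 116521) (nat_lit 19) (nat_lit 0xc0d020202030303030802050a040602040408) (by decide +kernel)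
noncomputable def cP2_188 : Ch SP (nat_lit 88328) (nat_lit 0) (nat_lit 116655) (nat_lit 0) :=
  sP cP2_187 (nat_lit 116655) (nat_lit 36) (nat_lit 0x30602030209020602020302050503020a03040302070303030203020304030507030304) (by decide +kernel)
noncomputable def cP2_189 : Ch SP (nat_lit 88328) (nat_lit 0) (nat_lit 116767) (nat_lit 0) :=
  sP cP2_188 (nat_lit 116767) (nat_lit 26) (nat_lit 0x803030503030202020b050203030e0503030304070402030405) (by decide +kernel)
noncomputable def cP2_190 : Ch SP (nat_lit 88328) (nat_lit 0) (nat_lit 116851) (nat_lit 0) :=
  sP cP2_189 (nat_lit 116851) (nat_lit 15) (nat_lit 0x902070202020405040b020c040909) (by decide +kernel)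
noncomputable def cP2_191 : Ch SP (nat_lit 88328) (nat_lit 0) (nat_lit 116978) (nat_lit 0) :=
  sP cP2_190 (nat_lit 116978) (nat_lit 29) (nat_lit 0x90306060605020503050308020302020206060405030404020203060a) (by decide +kernel)
noncomputable def cP2_192 : Ch SP (nat_lit 88328) (nat_lit 0) (nat_lit 117121) (nat_lit 0) :=
  sP cP2_191 (nat_lit 117121) (nat_lit 38) (nat_lit 0x502040203050402020304030203050203040302020405020209060604020705050803030304) (by decide +kernel)
noncomputable def cP2_193 : Ch SP (nat_lit 88328) (nat_lit 0) (nat_lit 117256) (nat_lit 0) :=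
  sP cP2_192 (nat_lit 117256) (nat_lit 40) (nat_lit 0x302020205020d020709020203030304030402040203020302030202030203020204020403040307) (by decide +kernel)
noncomputable def cP2_194 : Ch SP (nat_lit 88328) (nat_lit 0) (nat_lit 117382) (nat_lit 0) :=
  sP cP2_193 (nat_lit 117382) (nat_lit 34) (nat_lit 0xb0302030202020503040303030402030303070303030303020306020702020e0302) (by decide +kernel)
noncomputable def cP2_195 : Ch SP (nat_lit 88328) (nat_lit 0) (nat_lit 117548) (nat_lit 0) :=
  sP cP2_194 (nat_lit 117548) (nat_lit 52) (nat_lit 0x8030203030402030202070402040303030202030302020202030302030303020303020206030202030503040906030303020304) (by decide +kernel)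
noncomputable def cP2_196 : Ch SP (nat_lit 88328) (nat_lit 0) (nat_lit 117748) (nat_lit 0) :=
  sP cP2_195 (nat_lit 117748) (nat_lit 68) (nat_lit 0x604050403020406030202030303030304030202060503030205030203030202030202030402020202020302030302020303030303030203030203030202030304020302) (by decide +kernel)
noncomputable def cP2_197 : Ch SP (nat_lit 88328) (nat_lit 0) (nat_lit 117927) (nat_lit 0) :=
  sP cP2_196 (nat_lit 117927) (nat_lit 62) (nat_lit 0x40204020302020302020503030503030203030302020202040203030302020202020202030302030303020b020303020302020203020205030302030803) (by decide +kernel)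
noncomputable def cP2_198 : Ch SP (nat_lit 88328) (nat_lit 0) (nat_lit 118067) (nat_lit 0) :=
  sP cP2_197 (nat_lit 118067) (nat_lit 40) (nat_lit 0x30203050303030202020a07030404030a0504030202030304050206020204030202030602020202) (by decide +kernel)
noncomputable def cP2_199 : Ch SP (nat_lit 88328) (nat_lit 0) (nat_lit 118230) (nat_lit 0) :=
  sP cP2_198 (nat_lit 118230) (nat_lit 48) (nat_lit 0x50304050706080306040203020202020403030302020202030203030204020303020203050302040303020506050404) (by decide +kernel)
noncomputable def cP2_200 : Ch SP (nat_lit 88328) (nat_lit 0) (nat_lit 118387) (nat_lit 0) :=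
  sP cP2_199 (nat_lit 118387) (nat_lit 48) (nat_lit 0x20202040302020803030603060207030202020308030303020202060202030602040203020305020203030302040404) (by decide +kernel)
noncomputable def cP2_201 : Ch SP (nat_lit 88328) (nat_lit 0) (nat_lit 118550) (nat_lit 0) :=
  sP cP2_200 (nat_lit 118550) (nat_lit 49) (nat_lit 0xb030302020503040302090506030302020308020202020502030302040302020206040403020302030304030202030202) (by decide +kernel)
noncomputable def cP2_202 : Ch SP (nat_lit 88328) (nat_lit 0) (nat_lit 118727) (nat_lit 0) :=
  sP cP2_201 (nat_lit 118727) (nat_lit 61) (nat_lit 0x403020202030202060202020303030202020203030203030203020405040604030203020803020202020403020202020a020203020302020203020205) (by decide +kernel)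
noncomputable def cP2_203 : Ch SP (nat_lit 88328) (nat_lit 0) (nat_lit 118904) (nat_lit 0) :=
  sP cP2_202 (nat_lit 118904) (nat_lit 57) (nat_lit 0x50402030302040703030202030503020502060302030302020202030303040403020603030602020202020303020203040203030203060402) (by decide +kernel)
noncomputable def cP2_204 : Ch SP (nat_lit 88328) (nat_lit 0) (nat_lit 119029) (nat_lit 0) :=
  sP cP2_203 (nat_lit 119029) (nat_lit 37) (nat_lit 0x30202080502030202020203030302020e0a03020302030303020303020702030303020303) (by decide +kernel)
noncomputable def cP2_205 : Ch SP (nat_lit 88328) (nat_lit 0) (nat_lit 119197) (nat_lit 0) :=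
  sP cP2_204 (nat_lit 119197) (nat_lit 54) (nat_lit 0x403030302020303020303040302070402020a0303030507040203050302020302030202030203030202040205020202040403020202) (by decide +kernel)
noncomputable def cP2_206 : Ch SP (nat_lit 88328) (nat_lit 0) (nat_lit 119371) (nat_lit 0) :=
  sP cP2_205 (nat_lit 119371) (nat_lit 55) (nat_lit 0xc030402030402020507020203030203040503030405030303030302020303020203050303020303030202050302030302020302020303) (by decide +kernel)
noncomputable def cP2_207 : Ch SP (nat_lit 88328) (nat_lit 0) (nat_lit 119566) (nat_lit 0) :=
  sP cP2_206 (nat_lit 119566) (nat_lit 64) (nat_lit 0x3030403030303030504020402030303020202030503030203030302040302040302030302030203030304030302020206050404040203040302020302030404) (by decide +kernel)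
noncomputable def cP2_208 : Ch SP (nat_lit 88328) (nat_lit 0) (nat_lit 119726) (nat_lit 0) :=
  sP cP2_207 (nat_lit 119726) (nat_lit 50) (nat_lit 0x40303030202030a020302030302050203020304030208020302030302060203020202040702020403020203030604030303) (by decide +kernel)
noncomputable def cP2_209 : Ch SP (nat_lit 88328) (nat_lit 0) (nat_lit 119829) (nat_lit 0) :=
  sP cP2_208 (nat_lit 119829) (nat_lit 25) (nat_lit 0x3040405020302030a090603020905020203020d0203020202) (by decide +kernel)
noncomputable def cP2_210 : Ch SP (nat_lit 88328) (nat_lit 0) (nat_lit 119986) (nat_lit 0) :=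
  sP cP2_209 (nat_lit 119986) (nat_lit 47) (nat_lit 0x602030203030302020305030202060303040302040306030202030302060302030403030203030903030204030209) (by decide +kernel)
noncomputable def cP2_211 : Ch SP (nat_lit 88328) (nat_lit 0) (nat_lit 120155) (nat_lit 0) :=
  sP cP2_210 (nat_lit 120155) (nat_lit 52) (nat_lit 0x3040302020402020302040303030403030203030202070304030604020202080402020302020503040403040506040302020303) (by decide +kernel)
noncomputable def cP2_212 : Ch SP (nat_lit 88328) (nat_lit 0) (nat_lit 120333) (nat_lit 0) :=
  sP cP2_211 (nat_lit 120333) (nat_lit 57) (nat_lit 0x70303030302040303030202020203030202030303030202040206040806030205050303020203030402020202030302030203050303020305) (by decide +kernel)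
noncomputable def cP2_213 : Ch SP (nat_lit 88328) (nat_lit 0) (nat_lit 120534) (nat_lit 0) :=
  sP cP2_212 (nat_lit 120534) (nat_lit 70) (nat_lit 0x5020202020403020302020302020703020507020303030202030203020302020402030304030202030302020302030303050302030204030303030202020503030203020502) (by decide +kernel)
noncomputable def cP2_214 : Ch SP (nat_lit 88328) (nat_lit 0) (nat_lit 120703) (nat_lit 0) :=
  sP cP2_213 (nat_lit 120703) (nat_lit 52) (nat_lit 0x4030302020304020402040202040404020306020203020403040405030209050305030403020302020403060305020202020302) (by decide +kernel)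
noncomputable def cP2_215 : Ch SP (nat_lit 88328) (nat_lit 0) (nat_lit 120851) (nat_lit 0) :=
  sP cP2_214 (nat_lit 120851) (nat_lit 44) (nat_lit 0x2020603030203020704030202020202020203060303040203020202020404030904040204020a0404030503) (by decide +kernel)
noncomputable def cP2_216 : Ch SP (nat_lit 88328) (nat_lit 0) (nat_lit 120998) (nat_lit 0) :=
  sP cP2_215 (nat_lit 120998) (nat_lit 38) (nat_lit 0x804020403020302080303060303030205030404040302070507050603030202040204080203) (by decide +kernel)
noncomputable def cP2_217 : Ch SP (nat_lit 88328) (nat_lit 0) (nat_lit 121136) (nat_lit 0) :=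
  sP cP2_216 (nat_lit 121136) (nat_lit 39) (nat_lit 0x50402070302020203020202020202020406020203060202050504020202030b02050509050502) (by decide +kernel)
noncomputable def cP2_218 : Ch SP (nat_lit 88328) (nat_lit 0) (nat_lit 121268) (nat_lit 0) :=
  sP cP2_217 (nat_lit 121268) (nat_lit 33) (nat_lit 0x90604020b02030704020303020303060402030705020403030204020305060403) (by decide +kernel)
noncomputable def cP2_219 : Ch SP (nat_lit 88328) (nat_lit 0) (nat_lit 121456) (nat_lit 0) :=
  sP cP2_218 (nat_lit 121456) (nat_lit 68) (nat_lit 0x20203020404020202030203020203030204020502020202020b020402050303030602030303030202030202030202030402020303030302020202020402030202030202) (by decide +kernel)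
noncomputable def cP2_220 : Ch SP (nat_lit 88328) (nat_lit 0) (nat_lit 121616) (nat_lit 0) :=
  sP cP2_219 (nat_lit 121616) (nat_lit 51) (nat_lit 0x50304020203020303020302030602030302090302020202020205030205020504020902020202070202030202020305040402) (by decide +kernel)
noncomputable def cP2_221 : Ch SP (nat_lit 88328) (nat_lit 0) (nat_lit 121768) (nat_lit 0) :=
  sP cP2_220 (nat_lit 121768) (nat_lit 49) (nat_lit 0x50203030202030202030303040203020205020202020d0302060603020204040302040303030203020202030207020302) (by decide +kernel)
noncomputable def cP2_222 : Ch SP (nat_lit 88328) (nat_lit 0) (nat_lit 121975) (nat_lit 0) :=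
  sP cP2_221 (nat_lit 121975) (nat_lit 76) (nat_lit 0x2020204020203040203040402030202020202020302020202020303030204020202020206020304030602050202030203020205020203050403020303020202030203020405020203020302) (by decide +kernel)
noncomputable def cP2_223 : Ch SP (nat_lit 88328) (nat_lit 0) (nat_lit 122140) (nat_lit 0) :=
  sP cP2_222 (nat_lit 122140) (nat_lit 48) (nat_lit 0x80603020203040304040502040907050403030402060302020403020202030303020303050202020402040203020403) (by decide +kernel)
noncomputable def cP2_224 : Ch SP (nat_lit 88328) (nat_lit 0) (nat_lit 122318) (nat_lit 0) :=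
  sP cP2_223 (nat_lit 122318) (nat_lit 59) (nat_lit 0x403050204030303030203020202040303020304030204040404030304020202020402030902040202090204020202020202030203020203030402) (by decide +kernel)
noncomputable def cP2_225 : Ch SP (nat_lit 88328) (nat_lit 0) (nat_lit 122504) (nat_lit 0) :=
  sP cP2_224 (nat_lit 122504) (nat_lit 62) (nat_lit 0x202020202020404020204050303020202030303020202030405020203040404040402020303030308020303030303030302030605020302040203020204) (by decide +kernel)
noncomputable def cP2_226 : Ch SP (nat_lit 88328) (nat_lit 0) (nat_lit 122680) (nat_lit 0) :=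
  sP cP2_225 (nat_lit 122680) (nat_lit 57) (nat_lit 0x30205030303030403030204050207040502020505020704050202020206020202020202020202020403030302020302030403050202020402) (by decide +kernel)
noncomputable def cP2_227 : Ch SP (nat_lit 88328) (nat_lit 0) (nat_lit 122846) (nat_lit 0) :=
  sP cP2_226 (nat_lit 122846) (nat_lit 51) (nat_lit 0x90702030302030204020204030302020303030205020903020205020902030203030205050303020202030202050303020204) (by decide +kernel)
noncomputable def cP2_228 : Ch SP (nat_lit 88328) (nat_lit 0) (nat_lit 123046) (nat_lit 0) :=
  sP cP2_227 (nat_lit 123046) (nat_lit 73) (nat_lit 0x3030202020403020202030203040202030204020302070302020203030202040404020202030405080303020302020202020403020202020202020203050203040302020203020202) (by decide +kernel)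
noncomputable def cP2_229 : Ch SP (nat_lit 88328) (nat_lit 0) (nat_lit 123192) (nat_lit 0) :=
  sP cP2_228 (nat_lit 123192) (nat_lit 42) (nat_lit 0x30207030404050302020505040302020509020602020202040608030403030403020202060202020202) (by decide +kernel)
noncomputable def cP2_230 : Ch SP (nat_lit 88328) (nat_lit 0) (nat_lit 123379) (nat_lit 0) :=
  sP cP2_229 (nat_lit 123379) (nat_lit 62) (nat_lit 0x503050403030202050402050504030402020203030302030303020302030202020602020303020204040505030202020202050207020302020202030302) (by decide +kernel)
noncomputable def cP2_231 : Ch SP (nat_lit 88328) (nat_lit 0) (nat_lit 123546) (nat_lit 0) :=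
  sP cP2_230 (nat_lit 123546) (nat_lit 51) (nat_lit 0x30602040303020503020403020402020302030303060407050205020202020305080402020403030204040202040203030303) (by decide +kernel)
noncomputable def cP2_232 : Ch SP (nat_lit 88328) (nat_lit 0) (nat_lit 123741) (nat_lit 0) :=
  sP cP2_231 (nat_lit 123741) (nat_lit 70) (nat_lit 0x40405020404020203020303020202020302030303030302020302020403020202060a0202020202020202020202020303030205030302020203030302020204030202020504) (by decide +kernel)
noncomputable def cP2_233 : Ch SP (nat_lit 88328) (nat_lit 0) (nat_lit 123934) (nat_lit 0) :=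
  sP cP2_232 (nat_lit 123934) (nat_lit 67) (nat_lit 0x9040202030303050203040204020202030204020202020204060303040302020305040302020302040302030203020202020203030202040403030202020203020502) (by decide +kernel)
noncomputable def cP2_234 : Ch SP (nat_lit 88328) (nat_lit 0) (nat_lit 124080) (nat_lit 0) :=
  sP cP2_233 (nat_lit 124080) (nat_lit 44) (nat_lit 0x502020209030204020303030504070303020205040b02020206050302020203020202030303020403020203) (by decide +kernel)
noncomputable def cP2_235 : Ch SP (nat_lit 88328) (nat_lit 0) (nat_lit 124202) (nat_lit 0) :=
  sP cP2_234 (nat_lit 124202) (nat_lit 29) (nat_lit 0x803030504040205090a03020503030204030205070203050707020202) (by decide +kernel)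
noncomputable def cP2_236 : Ch SP (nat_lit 88328) (nat_lit 0) (nat_lit 124315) (nat_lit 0) :=
  sP cP2_235 (nat_lit 124315) (nat_lit 30) (nat_lit 0x302070202020e040402030305040205020302030303020303030202080a) (by decide +kernel)
noncomputable def cP2_237 : Ch SP (nat_lit 88328) (nat_lit 0) (nat_lit 124488) (nat_lit 0) :=
  sP cP2_236 (nat_lit 124488) (nat_lit 56) (nat_lit 0x603090203030403070303020802020203050202020403040202030202030402050402020302020404030203020203040402020202020203) (by decide +kernel)
noncomputable def cP2_238 : Ch SP (nat_lit 88328) (nat_lit 0) (nat_lit 124632) (nat_lit 0) :=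
  sP cP2_237 (nat_lit 124632) (nat_lit 42) (nat_lit 0x9040303040202020202030202020202030203030505040302030202020a040903030306060202020207) (by decide +kernel)
noncomputable def cP2_239 : Ch SP (nat_lit 88328) (nat_lit 0) (nat_lit 124811) (nat_lit 0) :=
  sP cP2_238 (nat_lit 124811) (nat_lit 60) (nat_lit 0x30206050408030304020304020502020202050302020205020402020204020203030203020202040203020203020205040202030202020302070205) (by decide +kernel)
noncomputable def cP2_240 : Ch SP (nat_lit 88328) (nat_lit 0) (nat_lit 124976) (nat_lit 0) :=
  sP cP2_239 (nat_lit 124976) (nat_lit 52) (nat_lit 0x3030203090403020303020307020702060206020303020303050303020204030203020502030203020302020303040302020502) (by decide +kernel)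
noncomputable def cP2_241 : Ch SP (nat_lit 88328) (nat_lit 0) (nat_lit 125149) (nat_lit 0) :=
  sP cP2_240 (nat_lit 125149) (nat_lit 58) (nat_lit 0x20302020202030202020603020302020403030302030204040202050703030402020204020302030302030203030405060a0202020202020303) (by decide +kernel)
noncomputable def cP2_242 : Ch SP (nat_lit 88328) (nat_lit 0) (nat_lit 125308) (nat_lit 0) :=
  sP cP2_241 (nat_lit 125308) (nat_lit 48) (nat_lit 0x20208020203050502020502060302020602030202030202030203030203070305020603040303060305030402020403) (by decide +kernel)
noncomputable def cP2_243 : Ch SP (nat_lit 88328) (nat_lit 0) (nat_lit 125500) (nat_lit 0) :=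
  sP cP2_242 (nat_lit 125500) (nat_lit 67) (nat_lit 0x2020203020206030302020206020203020206030202020302020203020202020504030303020403030202040405020503020205020204030303030205020202020503) (by decide +kernel)
noncomputable def cP2_244 : Ch SP (nat_lit 88328) (nat_lit 0) (nat_lit 125701) (nat_lit 0) :=
  sP cP2_243 (nat_lit 125701) (nat_lit 72) (nat_lit 0x60202080202020202020202020203030202020202030202050302020205030202020302020203020202040403030302060305040305020302020504050302020202030202030302) (by decide +kernel)
noncomputable def cP2_245 : Ch SP (nat_lit 88328) (nat_lit 0) (nat_lit 125897) (nat_lit 0) :=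
  sP cP2_244 (nat_lit 125897) (nat_lit 68) (nat_lit 0x303020403020307030202020302040302030205040403020203040302020203020203020203020302030204020302020404030202030402020205050203020406020402) (by decide +kernel)
noncomputable def cP2_246 : Ch SP (nat_lit 88328) (nat_lit 0) (nat_lit 126079) (nat_lit 0) :=
  sP cP2_245 (nat_lit 126079) (nat_lit 58) (nat_lit 0x8020702050303020303050303030303050302030302020402020402020203020705030503030203020302020202020206030304030402020303) (by decide +kernel)
noncomputable def cP2_247 : Ch SP (nat_lit 88328) (nat_lit 0) (nat_lit 126270) (nat_lit 0) :=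
  sP cP2_246 (nat_lit 126270) (nat_lit 64) (nat_lit 0x5020204020404020403030203020202030203030202060404070304020205020503020205020304030203030203030203020202020202050403020404020302) (by decide +kernel)
noncomputable def cP2_248 : Ch SP (nat_lit 88328) (nat_lit 0) (nat_lit 126423) (nat_lit 0) :=
  sP cP2_247 (nat_lit 126423) (nat_lit 47) (nat_lit 0x2030203050508060305030203020202020504020303020504020402020302020504040b0202030302020302020203) (by decide +kernel)
noncomputable def cP2_249 : Ch SP (nat_lit 88328) (nat_lit 0) (nat_lit 126623) (nat_lit 0) :=
  sP cP2_248 (nat_lit 126623) (nat_lit 70) (nat_lit 0x2040204040203030502020202050204030202030205030202050404020202020303020602030303020303030205030402040203020302030304020203020202030303020302) (by decide +kernel)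
noncomputable def cP2_250 : Ch SP (nat_lit 88328) (nat_lit 0) (nat_lit 126767) (nat_lit 0) :=
  sP cP2_249 (nat_lit 126767) (nat_lit 42) (nat_lit 0xd0202030302020402040902020202020509040202030202050302030203070403030302030205020403) (by decide +kernel)
noncomputable def cP2_251 : Ch SP (nat_lit 88328) (nat_lit 0) (nat_lit 126902) (nat_lit 0) :=
  sP cP2_250 (nat_lit 126902) (nat_lit 37) (nat_lit 0x90302030306030302030603020303040302030305080304030602020205020202030c0203) (by decide +kernel)
noncomputable def cP2_252 : Ch SP (nat_lit 88328) (nat_lit 0) (nat_lit 127065) (nat_lit 0) :=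
  sP cP2_251 (nat_lit 127065) (nat_lit 50) (nat_lit 0xb03040403040402020404020302020504020203050203040302040302020502020303030202050504020303020202040405) (by decide +kernel)
noncomputable def cP2_253 : Ch SP (nat_lit 88328) (nat_lit 0) (nat_lit 127235) (nat_lit 0) :=
  sP cP2_252 (nat_lit 127235) (nat_lit 51) (nat_lit 0x30304030303030302030702040504040204040302020202020304030202020302050307030503030506030405020303040204) (by decide +kernel)
noncomputable def cP2_254 : Ch SP (nat_lit 88328) (nat_lit 0) (nat_lit 127369) (nat_lit 0) :=
  sP cP2_253 (nat_lit 127369) (nat_lit 39) (nat_lit 0x50403050703020302030202030506020203030305020e02020303040302040202020202040206) (by decide +kernel)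
noncomputable def cP2_255 : Ch SP (nat_lit 88328) (nat_lit 0) (nat_lit 127475) (nat_lit 0) :=
  sP cP2_254 (nat_lit 127475) (nat_lit 22) (nat_lit 0xa050507020505020202020c0505050702050a020303) (by decide +kernel)
noncomputable def cP2_256 : Ch SP (nat_lit 88328) (nat_lit 0) (nat_lit 127606) (nat_lit 0) :=
  sP cP2_255 (nat_lit 127606) (nat_lit 33) (nat_lit 0x30203020705050603020306020302020509040203090503040403030304050207) (by decide +kernel)
noncomputable def cP2_257 : Ch SP (nat_lit 88328) (nat_lit 0) (nat_lit 127739) (nat_lit 0) :=
  sP cP2_256 (nat_lit 127739) (nat_lit 37) (nat_lit 0x2020202040907020302040202020706020302020808020203040702050205020202040404) (by decide +kernel)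
noncomputable def cP2_258 : Ch SP (nat_lit 88328) (nat_lit 0) (nat_lit 127840) (nat_lit 0) :=
  sP cP2_257 (nat_lit 127840) (nat_lit 22) (nat_lit 0x10020a060203020206020504020205040d0202020702) (by decide +kernel)
noncomputable def cP2_259 : Ch SP (nat_lit 88328) (nat_lit 0) (nat_lit 127961) (nat_lit 0) :=
  sP cP2_258 (nat_lit 127961) (nat_lit 30) (nat_lit 0x40502040203070602020303080804020a08040203020202050305020206) (by decide +kernel)
noncomputable def cP2_260 : Ch SP (nat_lit 88328) (nat_lit 0) (nat_lit 128087) (nat_lit 0) :=
  sP cP2_259 (nat_lit 128087) (nat_lit 34) (nat_lit 0x60202030202020902020602090404030502030304030203020b0502030202070403) (by decide +kernel)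
noncomputable def cP2_261 : Ch SP (nat_lit 88328) (nat_lit 0) (nat_lit 128179) (nat_lit 0) :=
  sP cP2_260 (nat_lit 128179) (nat_lit 22) (nat_lit 0x8020203020209020602021203020309020205030203) (by decide +kernel)
noncomputable def cP2_262 : Ch SP (nat_lit 88328) (nat_lit 0) (nat_lit 128384) (nat_lit 0) :=
  sP cP2_261 (nat_lit 128384) (nat_lit 73) (nat_lit 0x2030303020202070302030403020303020303030202030504040303030203020202030303020202040203030203040202030202030502020203030303020204050302040204020202) (by decide +kernel)
noncomputable def cP2_263 : Ch SP (nat_lit 88328) (nat_lit 0) (nat_lit 128523) (nat_lit 0) :=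
  sP cP2_262 (nat_lit 128523) (nat_lit 40) (nat_lit 0x2030703070207030302020b03020403070203020402020202020603050202030403030306020203) (by decide +kernel)
noncomputable def cP2_264 : Ch SP (nat_lit 88328) (nat_lit 0) (nat_lit 128685) (nat_lit 0) :=
  sP cP2_263 (nat_lit 128685) (nat_lit 49) (nat_lit 0x4020502020302030202020302020302050405050604060405030208020203020204030302020508030402040402030202) (by decide +kernel)
noncomputable def cP2_265 : Ch SP (nat_lit 88328) (nat_lit 0) (nat_lit 128838) (nat_lit 0) :=
  sP cP2_264 (nat_lit 128838) (nat_lit 45) (nat_lit 0x20503060202020902060202050302030404040303030203020203030303060405030203020702060206030202) (by decide +kernel)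
noncomputable def cP2_266 : Ch SP (nat_lit 88328) (nat_lit 0) (nat_lit 129012) (nat_lit 0) :=
  sP cP2_265 (nat_lit 129012) (nat_lit 55) (nat_lit 0x2030203050204030403030203030304030205030203030302020205020203030205030203050202030303020603030307070302060302) (by decide +kernel)
noncomputable def cP2_267 : Ch SP (nat_lit 88328) (nat_lit 0) (nat_lit 129201) (nat_lit 0) :=
  sP cP2_266 (nat_lit 129201) (nat_lit 64) (nat_lit 0x8050302020303020204030404020202020202020202020304030303040205050302020205060202030208020304020202020202030202020203030202030505) (by decide +kernel)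
noncomputable def cP2_268 : Ch SP (nat_lit 88328) (nat_lit 0) (nat_lit 129382) (nat_lit 0) :=
  sP cP2_267 (nat_lit 129382) (nat_lit 59) (nat_lit 0x903020303030302020302020302030302030202020403020304050204020205020209020203040402030302030403030302020203040303050602) (by decide +kernel)
noncomputable def cP2_269 : Ch SP (nat_lit 88328) (nat_lit 0) (nat_lit 129546) (nat_lit 0) :=
  sP cP2_268 (nat_lit 129546) (nat_lit 52) (nat_lit 0x403050203030202030306020204030202020201030602030a030205020203020503020203020703050203040305020303030302) (by decide +kernel)
noncomputable def cP2_270 : Ch SP (nat_lit 88328) (nat_lit 0) (nat_lit 129706) (nat_lit 0) :=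
  sP cP2_269 (nat_lit 129706) (nat_lit 50) (nat_lit 0x50203020204040203040203040403020204030303020302020b050302030209020303020304050302020203050303030202) (by decide +kernel)
noncomputable def cP2_271 : Ch SP (nat_lit 88328) (nat_lit 0) (nat_lit 129833) (nat_lit 0) :=
  sP cP2_270 (nat_lit 129833) (nat_lit 35) (nat_lit 0x203020302020202020304020405030203030c06050202060208040603040209030202) (by decide +kernel)
noncomputable def cP2_272 : Ch SP (nat_lit 88328) (nat_lit 0) (nat_lit 130005) (nat_lit 0) :=
  sP cP2_271 (nat_lit 130005) (nat_lit 54) (nat_lit 0x30302030302030402030403040202050302020304050204020203070202040202040308020304020502030405040202030302060402) (by decide +kernel)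
noncomputable def cP2_273 : Ch SP (nat_lit 88328) (nat_lit 0) (nat_lit 130180) (nat_lit 0) :=
  sP cP2_272 (nat_lit 130180) (nat_lit 56) (nat_lit 0x302020302020202040205040205020503020303070302030203030405020204020302020303050403020402020602040203030602070203) (by decide +kernel)
noncomputable def cP2_274 : Ch SP (nat_lit 88328) (nat_lit 0) (nat_lit 130339) (nat_lit 0) :=
  sP cP2_273 (nat_lit 130339) (nat_lit 49) (nat_lit 0x306020203020205040a020304030302040703040304030203020502040403020302020203020303030305020202070202) (by decide +kernel)
noncomputable def cP2_275 : Ch SP (nat_lit 88328) (nat_lit 0) (nat_lit 130492) (nat_lit 0) :=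
  sP cP2_274 (nat_lit 130492) (nat_lit 47) (nat_lit 0x302020502030403020503030204030302050b05030203030205020204020203030502020202020203020705020702) (by decide +kernel)
noncomputable def cP2_276 : Ch SP (nat_lit 88328) (nat_lit 0) (nat_lit 130680) (nat_lit 0) :=
  sP cP2_275 (nat_lit 130680) (nat_lit 65) (nat_lit 0x402040203040502020303020202020502060209020302020202030303020203020302030302020203020204020402050304030402030602030202030304020202) (by decide +kernel)
noncomputable def cP2_277 : Ch SP (nat_lit 88328) (nat_lit 0) (nat_lit 130822) (nat_lit 0) :=
  sP cP2_276 (nat_lit 130822) (nat_lit 41) (nat_lit 0x508090902020303050202050202020304020302060305020307020503030205020302020202030302) (by decide +kernel)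
noncomputable def cP2_278 : Ch SP (nat_lit 88328) (nat_lit 0) (nat_lit 131016) (nat_lit 0) :=
  sP cP2_277 (nat_lit 131016) (nat_lit 67) (nat_lit 0x2020203030203030605020303020502020202030302030703030202030605020302030202020303020402030402030302030305030303030202030202040303020203) (by decide +kernel)
noncomputable def cP2_279 : Ch SP (nat_lit 88328) (nat_lit 0) (nat_lit 131175) (nat_lit 0) :=
  sP cP2_278 (nat_lit 131175) (nat_lit 49) (nat_lit 0x3060202040203080302020502030207020403020302020302020202030303030204070206020203030304020805020403) (by decide +kernel)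
noncomputable def cP2_280 : Ch SP (nat_lit 88328) (nat_lit 0) (nat_lit 131320) (nat_lit 0) :=
  sP cP2_279 (nat_lit 131320) (nat_lit 37) (nat_lit 0xe0a030302070a050703030505030202020303020305020303020202030205040302020602) (by decide +kernel)
noncomputable def cP2_281 : Ch SP (nat_lit 88328) (nat_lit 0) (nat_lit 131422) (nat_lit 0) :=
  sP cP2_280 (nat_lit 131422) (nat_lit 21) (nat_lit 0xf0709030303020208060509030305020205040402) (by decide +kernel)
noncomputable def cP2_282 : Ch SP (nat_lit 88328) (nat_lit 0) (nat_lit 131506) (nat_lit 0) :=
  sP cP2_281 (nat_lit 131506) (nat_lit 19) (nat_lit 0x2090405070602030305020202050203021202) (by decide +kernel)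
noncomputable def cP2_283 : Ch SP (nat_lit 88328) (nat_lit 0) (nat_lit 131660) (nat_lit 0) :=
  sP cP2_282 (nat_lit 131660) (nat_lit 37) (nat_lit 0x10050304020206040303090805030203050404020304030402030205030506030306030204) (by decide +kernel)
noncomputable def cP2_284 : Ch SP (nat_lit 88328) (nat_lit 0) (nat_lit 131746) (nat_lit 0) :=
  sP cP2_283 (nat_lit 131746) (nat_lit 17) (nat_lit 0xc030503080c04020c0304040203030303) (by decide +kernel)
noncomputable def cP2_285 : Ch SP (nat_lit 88328) (nat_lit 0) (nat_lit 131866) (nat_lit 0) :=
  sP cP2_284 (nat_lit 131866) (nat_lit 28) (nat_lit 0x6070506030203070203020703060303090903030302070405030202) (by decide +kernel)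
noncomputable def cP2_286 : Ch SP (nat_lit 88328) (nat_lit 0) (nat_lit 131948) (nat_lit 0) :=
  sP cP2_285 (nat_lit 131948) (nat_lit 19) (nat_lit 0x7040303050202020408040414030302020202) (by decide +kernel)
noncomputable def cP2_287 : Ch SP (nat_lit 88328) (nat_lit 0) (nat_lit 132109) (nat_lit 0) :=
  sP cP2_286 (nat_lit 132109) (nat_lit 50) (nat_lit 0x40503030205030303030203030208020b020305030402030305020302030202020303050303020203030202030204020305) (by decide +kernel)
noncomputable def cP2_288 : Ch SP (nat_lit 88328) (nat_lit 0) (nat_lit 132289) (nat_lit 0) :=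
  sP cP2_287 (nat_lit 132289) (nat_lit 57) (nat_lit 0x40303030405030403020203040504020703020203020203030205050303020303040403020203030207050202020204030203030304020303) (by decide +kernel)

end

end Pool.Agent.MP_797bdc_co.Lk.H
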