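import Pool.Agent.MP_797bdc_co.Lk.DQ
import Pool.Agent.MP_797bdc_co.Lk.RU0
import Pool.Agent.MP_797bdc_co.Lk.RU1
import Pool.Agent.MP_797bdc_co.Lk.RU2
import Pool.Agent.MP_797bdc_co.Lk.RU3
import Pool.Agent.MP_797bdc_co.Lk.RU4
import Pool.Agent.MP_797bdc_co.Lk.RU5
import Pool.Agent.MP_797bdc_co.Lk.RU6
import Pool.Agent.MP_797bdc_co.Lk.RU7
import Pool.Agent.MP_797bdc_co.Lk.RU8
import Pool.Agent.MP_797bdc_co.Lk.RU9
import Pool.Agent.MP_797bdc_co.Lk.RU10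
import Pool.Agent.MP_797bdc_co.Lk.RU11
import Pool.Agent.MP_797bdc_co.Lk.RG0
import Pool.Agent.MP_797bdc_co.Lk.RG1
import Pool.Agent.MP_797bdc_co.Lk.RP0
import Pool.Agent.MP_797bdc_co.Lk.RP1
import Pool.Agent.MP_797bdc_co.Lk.RP2
import Pool.Agent.MP_797bdc_co.Lk.RP3
import Pool.Agent.MP_797bdc_co.Lk.RP4
import Pool.Agent.MP_797bdc_co.Lk.RP5

namespace Pool.Agent.MP_797bdc_co.Lk.H

noncomputable section

set_option maxRecDepth 100000
set_option linter.defProp false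

theorem allU : Ch SU (nat_lit 0) (nat_lit 0) (nat_lit 163649) (nat_lit 301503) :=
  (((((((((((cU0_118).trans cU1_129).trans cU2_126).trans cU3_126).trans cU4_123).trans cU5_103).trans cU6_112).trans cU7_103).trans cU8_114).trans cU9_114).trans cU10_116).trans cU11_144
theorem allG : Ch SG (nat_lit 0) (nat_lit 0) (nat_lit 10041) (nat_lit 0) :=
  (cG0_42).trans cG1_75
theorem allP : Ch SP (nat_lit 10041) (nat_lit 0) (nat_lit 301503) (nat_lit 0) :=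
  (((((cP0_266).trans cP1_284).trans cP2_288).trans cP3_290).trans cP4_295).trans cP5_299
theorem c1 : Ch (fun x t x' t' => ∃ a b0 k R,
    unitOK Da.n Da.tM.get ZT tI.get Da.s2 Da.s7 Da.s8 NI PG PM PS ON Da.SM x t x' t' a b0 k R = true)
    0 0 163649 NI := allU
theorem c2 : Ch (fun s _ e _ => ∃ L, genU Da.n Da.tM.get ZT tI.get Da.s2 Da.s7 Da.s8 NI PM PS (m3 Da.s2 Da.s7 Da.z1)
    (m3 Da.s7 Da.s8 Da.z2) (S.sfe Da.n Da.J Da.tM.get ZT tI.get Da.tZ Da.tF Da.tG Da.SK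
      (xsw Da.xE Da.tG Da.tX Da.tW) Da.SD Da.SW) (ddf Da.DL) s e L = true) 0 0 PG 0 := allG
theorem c3 : Ch (fun s _ e _ => ∃ k R,
    plainU Da.n Da.tM.get ZT tI.get Da.s2 Da.s7 Da.s8 NI PG s e k R = true) PG 0 NI 0 := allP

end

end Pool.Agent.MP_797bdc_co.Lk.H
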