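import Pool.Agent.MP_797bdc_co.Lk.XA
import Pool.Agent.MP_797bdc_co.Lk.DE
import Pool.Agent.MP_797bdc_co.Lk.DG0
import Pool.Agent.MP_797bdc_co.Lk.DX0

/-! Run of checker X. -/

set_option maxRecDepth 100000
set_option linter.defProp false

namespace Pool.Agent.MP_797bdc_co.Lk.Da

noncomputable def rx0 : iz (BT.all2 (xchk xE) g0 x0) = true := by decide +kernel
noncomputable def rx1 : iz (BT.all2 (xchk xE) g1 x1) = true := by decide +kernel
noncomputable def rx9 : iz (BT.all2 (xchk xE) g9 x9) = true := by decide +kernel
noncomputable def rx18 : iz (BT.all2 (xchk xE) g18 x18) = true := by decide +kernel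
noncomputable def rx19 : iz (BT.all2 (xchk xE) g19 x19) = true := by decide +kernel
noncomputable def rx27 : iz (BT.all2 (xchk xE) g27 x27) = true := by decide +kernel
noncomputable def rx38 : iz (BT.all2 (xchk xE) g38 x38) = true := by decide +kernel
noncomputable def rx45 : iz (BT.all2 (xchk xE) g45 x45) = true := by decide +kernel
noncomputable def rx47 : iz (BT.all2 (xchk xE) g47 x47) = true := by decide +kernel
noncomputable def rx58 : iz (BT.all2 (xchk xE) g58 x58) = true := by decide +kernel
noncomputable def rx64 : iz (BT.all2 (xchk xE) g64 x64) = true := by decide +kernel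
noncomputable def rx72 : iz (BT.all2 (xchk xE) g72 x72) = true := by decide +kernel
noncomputable def rx84 : iz (BT.all2 (xchk xE) g84 x84) = true := by decide +kernel
noncomputable def rx90 : iz (BT.all2 (xchk xE) g90 x90) = true := by decide +kernel
noncomputable def rx102 : iz (BT.all2 (xchk xE) g102 x102) = true := by decide +kernel
noncomputable def rx110 : iz (BT.all2 (xchk xE) g110 x110) = true := by decide +kernel
noncomputable def rx121 : iz (BT.all2 (xchk xE) g121 x121) = true := by decide +kernel
noncomputable def rx131 : iz (BT.all2 (xchk xE) g131 x131) = true := by decide +kernel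
noncomputable def rx141 : iz (BT.all2 (xchk xE) g141 x141) = true := by decide +kernel
noncomputable def rx149 : iz (BT.all2 (xchk xE) g149 x149) = true := by decide +kernel
noncomputable def rx158 : iz (BT.all2 (xchk xE) g158 x158) = true := by decide +kernel
noncomputable def rx169 : iz (BT.all2 (xchk xE) g169 x169) = true := by decide +kernel
noncomputable def rx177 : iz (BT.all2 (xchk xE) g177 x177) = true := by decide +kernel
noncomputable def rx185 : iz (BT.all2 (xchk xE) g185 x185) = true := by decide +kernel
noncomputable def rx191 : iz (BT.all2 (xchk xE) g191 x191) = true := by decide +kernel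
noncomputable def rx196 : iz (BT.all2 (xchk xE) g196 x196) = true := by decide +kernel
noncomputable def rx202 : iz (BT.all2 (xchk xE) g202 x202) = true := by decide +kernel
noncomputable def rx215 : iz (BT.all2 (xchk xE) g215 x215) = true := by decide +kernel
noncomputable def rx226 : iz (BT.all2 (xchk xE) g226 x226) = true := by decide +kernel
noncomputable def rx233 : iz (BT.all2 (xchk xE) g233 x233) = true := by decide +kernel
noncomputable def rx241 : iz (BT.all2 (xchk xE) g241 x241) = true := by decide +kernel
noncomputable def rx245 : iz (BT.all2 (xchk xE) g245 x245) = true := by decide +kernel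
noncomputable def rx251 : iz (BT.all2 (xchk xE) g251 x251) = true := by decide +kernel
noncomputable def rx257 : iz (BT.all2 (xchk xE) g257 x257) = true := by decide +kernel
noncomputable def rx266 : iz (BT.all2 (xchk xE) g266 x266) = true := by decide +kernel
noncomputable def rx278 : iz (BT.all2 (xchk xE) g278 x278) = true := by decide +kernel
noncomputable def rx284 : iz (BT.all2 (xchk xE) g284 x284) = true := by decide +kernel
noncomputable def rx290 : iz (BT.all2 (xchk xE) g290 x290) = true := by decide +kernel
noncomputable def rx300 : iz (BT.all2 (xchk xE) g300 x300) = true := by decide +kernel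
noncomputable def rx306 : iz (BT.all2 (xchk xE) g306 x306) = true := by decide +kernel
noncomputable def rx312 : iz (BT.all2 (xchk xE) g312 x312) = true := by decide +kernel
noncomputable def rx320 : iz (BT.all2 (xchk xE) g320 x320) = true := by decide +kernel
noncomputable def rx329 : iz (BT.all2 (xchk xE) g329 x329) = true := by decide +kernel
noncomputable def rx338 : iz (BT.all2 (xchk xE) g338 x338) = true := by decide +kernel
noncomputable def rx345 : iz (BT.all2 (xchk xE) g345 x345) = true := by decide +kernel
noncomputable def rx354 : iz (BT.all2 (xchk xE) g354 x354) = true := by decide +kernel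
noncomputable def rx361 : iz (BT.all2 (xchk xE) g361 x361) = true := by decide +kernel
noncomputable def rx371 : iz (BT.all2 (xchk xE) g371 x371) = true := by decide +kernel
noncomputable def rx383 : iz (BT.all2 (xchk xE) g383 x383) = true := by decide +kernel
noncomputable def rx394 : iz (BT.all2 (xchk xE) g394 x394) = true := by decide +kernel
noncomputable def rx402 : iz (BT.all2 (xchk xE) g402 x402) = true := by decide +kernel
noncomputable def rx411 : iz (BT.all2 (xchk xE) g411 x411) = true := by decide +kernel
noncomputable def rx416 : iz (BT.all2 (xchk xE) g416 x416) = true := by decide +kernel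
noncomputable def rx424 : iz (BT.all2 (xchk xE) g424 x424) = true := by decide +kernel
noncomputable def rx436 : iz (BT.all2 (xchk xE) g436 x436) = true := by decide +kernel
noncomputable def rx445 : iz (BT.all2 (xchk xE) g445 x445) = true := by decide +kernel
noncomputable def rx454 : iz (BT.all2 (xchk xE) g454 x454) = true := by decide +kernel
noncomputable def rx461 : iz (BT.all2 (xchk xE) g461 x461) = true := by decide +kernel
noncomputable def rx467 : iz (BT.all2 (xchk xE) g467 x467) = true := by decide +kernel
noncomputable def rx470 : iz (BT.all2 (xchk xE) g470 x470) = true := by decide +kernel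
noncomputable def rx480 : iz (BT.all2 (xchk xE) g480 x480) = true := by decide +kernel
noncomputable def rx485 : iz (BT.all2 (xchk xE) g485 x485) = true := by decide +kernel
noncomputable def rx494 : iz (BT.all2 (xchk xE) g494 x494) = true := by decide +kernel
noncomputable def rx500 : iz (BT.all2 (xchk xE) g500 x500) = true := by decide +kernel
noncomputable def rx502 : iz (BT.all2 (xchk xE) g502 x502) = true := by decide +kernel
noncomputable def rx511 : iz (BT.all2 (xchk xE) g511 x511) = true := by decide +kernel
noncomputable def rx516 : iz (BT.all2 (xchk xE) g516 x516) = true := by decide +kernel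
noncomputable def rx527 : iz (BT.all2 (xchk xE) g527 x527) = true := by decide +kernel
noncomputable def rx536 : iz (BT.all2 (xchk xE) g536 x536) = true := by decide +kernel
noncomputable def rx543 : iz (BT.all2 (xchk xE) g543 x543) = true := by decide +kernel
noncomputable def rx552 : iz (BT.all2 (xchk xE) g552 x552) = true := by decide +kernel
noncomputable def rx562 : iz (BT.all2 (xchk xE) g562 x562) = true := by decide +kernel
noncomputable def rx572 : iz (BT.all2 (xchk xE) g572 x572) = true := by decide +kernel
noncomputable def rx578 : iz (BT.all2 (xchk xE) g578 x578) = true := by decide +kernel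
noncomputable def rx590 : iz (BT.all2 (xchk xE) g590 x590) = true := by decide +kernel
noncomputable def rx603 : iz (BT.all2 (xchk xE) g603 x603) = true := by decide +kernel
noncomputable def rx609 : iz (BT.all2 (xchk xE) g609 x609) = true := by decide +kernel
noncomputable def rx619 : iz (BT.all2 (xchk xE) g619 x619) = true := by decide +kernel
noncomputable def rx628 : iz (BT.all2 (xchk xE) g628 x628) = true := by decide +kernel
noncomputable def rx638 : iz (BT.all2 (xchk xE) g638 x638) = true := by decide +kernel
noncomputable def rx647 : iz (BT.all2 (xchk xE) g647 x647) = true := by decide +kernel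
noncomputable def rx654 : iz (BT.all2 (xchk xE) g654 x654) = true := by decide +kernel
noncomputable def rx664 : iz (BT.all2 (xchk xE) g664 x664) = true := by decide +kernel
noncomputable def rx665 : iz (BT.all2 (xchk xE) g665 x665) = true := by decide +kernel
noncomputable def rx670 : iz (BT.all2 (xchk xE) g670 x670) = true := by decide +kernel
noncomputable def rx678 : iz (BT.all2 (xchk xE) g678 x678) = true := by decide +kernel
noncomputable def rx687 : iz (BT.all2 (xchk xE) g687 x687) = true := by decide +kernel
noncomputable def rx698 : iz (BT.all2 (xchk xE) g698 x698) = true := by decide +kernel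
noncomputable def rx708 : iz (BT.all2 (xchk xE) g708 x708) = true := by decide +kernel
noncomputable def rx717 : iz (BT.all2 (xchk xE) g717 x717) = true := by decide +kernel
noncomputable def rx724 : iz (BT.all2 (xchk xE) g724 x724) = true := by decide +kernel
noncomputable def rx734 : iz (BT.all2 (xchk xE) g734 x734) = true := by decide +kernel
noncomputable def rx745 : iz (BT.all2 (xchk xE) g745 x745) = true := by decide +kernel
noncomputable def rx754 : iz (BT.all2 (xchk xE) g754 x754) = true := by decide +kernel
noncomputable def rx763 : iz (BT.all2 (xchk xE) g763 x763) = true := by decide +kernel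
noncomputable def rx776 : iz (BT.all2 (xchk xE) g776 x776) = true := by decide +kernel
noncomputable def rx787 : iz (BT.all2 (xchk xE) g787 x787) = true := by decide +kernel
noncomputable def rx790 : iz (BT.all2 (xchk xE) g790 x790) = true := by decide +kernel
noncomputable def rx796 : iz (BT.all2 (xchk xE) g796 x796) = true := by decide +kernel
noncomputable def rx805 : iz (BT.all2 (xchk xE) g805 x805) = true := by decide +kernel
noncomputable def rx809 : iz (BT.all2 (xchk xE) g809 x809) = true := by decide +kernel
noncomputable def rx820 : iz (BT.all2 (xchk xE) g820 x820) = true := by decide +kernel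
noncomputable def rx826 : iz (BT.all2 (xchk xE) g826 x826) = true := by decide +kernel
noncomputable def rx833 : iz (BT.all2 (xchk xE) g833 x833) = true := by decide +kernel
noncomputable def rx842 : iz (BT.all2 (xchk xE) g842 x842) = true := by decide +kernel
noncomputable def rx851 : iz (BT.all2 (xchk xE) g851 x851) = true := by decide +kernel
noncomputable def rx857 : iz (BT.all2 (xchk xE) g857 x857) = true := by decide +kernel
noncomputable def rx870 : iz (BT.all2 (xchk xE) g870 x870) = true := by decide +kernel
noncomputable def rx880 : iz (BT.all2 (xchk xE) g880 x880) = true := by decide +kernel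
noncomputable def rx892 : iz (BT.all2 (xchk xE) g892 x892) = true := by decide +kernel
noncomputable def rx898 : iz (BT.all2 (xchk xE) g898 x898) = true := by decide +kernel
noncomputable def rx908 : iz (BT.all2 (xchk xE) g908 x908) = true := by decide +kernel
noncomputable def rx914 : iz (BT.all2 (xchk xE) g914 x914) = true := by decide +kernel
noncomputable def rx920 : iz (BT.all2 (xchk xE) g920 x920) = true := by decide +kernel
noncomputable def rx929 : iz (BT.all2 (xchk xE) g929 x929) = true := by decide +kernel
noncomputable def rx932 : iz (BT.all2 (xchk xE) g932 x932) = true := by decide +kernel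
noncomputable def rx941 : iz (BT.all2 (xchk xE) g941 x941) = true := by decide +kernel
noncomputable def rx949 : iz (BT.all2 (xchk xE) g949 x949) = true := by decide +kernel
noncomputable def rx958 : iz (BT.all2 (xchk xE) g958 x958) = true := by decide +kernel
noncomputable def rx964 : iz (BT.all2 (xchk xE) g964 x964) = true := by decide +kernel
noncomputable def rx973 : iz (BT.all2 (xchk xE) g973 x973) = true := by decide +kernel
noncomputable def rx985 : iz (BT.all2 (xchk xE) g985 x985) = true := by decide +kernel
noncomputable def rx991 : iz (BT.all2 (xchk xE) g991 x991) = true := by decide +kernel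
noncomputable def rx994 : iz (BT.all2 (xchk xE) g994 x994) = true := by decide +kernel
noncomputable def rx1002 : iz (BT.all2 (xchk xE) g1002 x1002) = true := by decide +kernel
noncomputable def rx1008 : iz (BT.all2 (xchk xE) g1008 x1008) = true := by decide +kernel
noncomputable def rx1013 : iz (BT.all2 (xchk xE) g1013 x1013) = true := by decide +kernel
noncomputable def rx1025 : iz (BT.all2 (xchk xE) g1025 x1025) = true := by decide +kernel
noncomputable def rx1034 : iz (BT.all2 (xchk xE) g1034 x1034) = true := by decide +kernel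
noncomputable def rx1043 : iz (BT.all2 (xchk xE) g1043 x1043) = true := by decide +kernel
noncomputable def rx1053 : iz (BT.all2 (xchk xE) g1053 x1053) = true := by decide +kernel
noncomputable def rx1062 : iz (BT.all2 (xchk xE) g1062 x1062) = true := by decide +kernel
noncomputable def rx1064 : iz (BT.all2 (xchk xE) g1064 x1064) = true := by decide +kernel
noncomputable def rx1074 : iz (BT.all2 (xchk xE) g1074 x1074) = true := by decide +kernel
noncomputable def rx1075 : iz (BT.all2 (xchk xE) g1075 x1075) = true := by decide +kernel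
noncomputable def rx1087 : iz (BT.all2 (xchk xE) g1087 x1087) = true := by decide +kernel
noncomputable def rx1097 : iz (BT.all2 (xchk xE) g1097 x1097) = true := by decide +kernel
noncomputable def rx1102 : iz (BT.all2 (xchk xE) g1102 x1102) = true := by decide +kernel
noncomputable def rx1108 : iz (BT.all2 (xchk xE) g1108 x1108) = true := by decide +kernel
noncomputable def rx1117 : iz (BT.all2 (xchk xE) g1117 x1117) = true := by decide +kernel
noncomputable def rx1125 : iz (BT.all2 (xchk xE) g1125 x1125) = true := by decide +kernel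
noncomputable def rx1136 : iz (BT.all2 (xchk xE) g1136 x1136) = true := by decide +kernel
noncomputable def rx1145 : iz (BT.all2 (xchk xE) g1145 x1145) = true := by decide +kernel
noncomputable def rx1157 : iz (BT.all2 (xchk xE) g1157 x1157) = true := by decide +kernel
noncomputable def rx1166 : iz (BT.all2 (xchk xE) g1166 x1166) = true := by decide +kernel
noncomputable def rx1176 : iz (BT.all2 (xchk xE) g1176 x1176) = true := by decide +kernel
noncomputable def rx1180 : iz (BT.all2 (xchk xE) g1180 x1180) = true := by decide +kernel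
noncomputable def rx1191 : iz (BT.all2 (xchk xE) g1191 x1191) = true := by decide +kernel
noncomputable def rx1197 : iz (BT.all2 (xchk xE) g1197 x1197) = true := by decide +kernel
noncomputable def rx1207 : iz (BT.all2 (xchk xE) g1207 x1207) = true := by decide +kernel
noncomputable def rx1213 : iz (BT.all2 (xchk xE) g1213 x1213) = true := by decide +kernel
noncomputable def rx1219 : iz (BT.all2 (xchk xE) g1219 x1219) = true := by decide +kernel
noncomputable def rx1231 : iz (BT.all2 (xchk xE) g1231 x1231) = true := by decide +kernel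
noncomputable def rx1240 : iz (BT.all2 (xchk xE) g1240 x1240) = true := by decide +kernel
noncomputable def rx1247 : iz (BT.all2 (xchk xE) g1247 x1247) = true := by decide +kernel
noncomputable def rx1260 : iz (BT.all2 (xchk xE) g1260 x1260) = true := by decide +kernel
noncomputable def rx1266 : iz (BT.all2 (xchk xE) g1266 x1266) = true := by decide +kernel
noncomputable def rx1275 : iz (BT.all2 (xchk xE) g1275 x1275) = true := by decide +kernel
noncomputable def rx1283 : iz (BT.all2 (xchk xE) g1283 x1283) = true := by decide +kernel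
noncomputable def rx1291 : iz (BT.all2 (xchk xE) g1291 x1291) = true := by decide +kernel
noncomputable def rx1300 : iz (BT.all2 (xchk xE) g1300 x1300) = true := by decide +kernel
noncomputable def rx1308 : iz (BT.all2 (xchk xE) g1308 x1308) = true := by decide +kernel
noncomputable def rx1317 : iz (BT.all2 (xchk xE) g1317 x1317) = true := by decide +kernel
noncomputable def rx1326 : iz (BT.all2 (xchk xE) g1326 x1326) = true := by decide +kernel
noncomputable def rx1336 : iz (BT.all2 (xchk xE) g1336 x1336) = true := by decide +kernel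
noncomputable def rx1348 : iz (BT.all2 (xchk xE) g1348 x1348) = true := by decide +kernel
noncomputable def rx1355 : iz (BT.all2 (xchk xE) g1355 x1355) = true := by decide +kernel
noncomputable def rx1361 : iz (BT.all2 (xchk xE) g1361 x1361) = true := by decide +kernel
noncomputable def rx1371 : iz (BT.all2 (xchk xE) g1371 x1371) = true := by decide +kernel
noncomputable def rx1377 : iz (BT.all2 (xchk xE) g1377 x1377) = true := by decide +kernel
noncomputable def rx1385 : iz (BT.all2 (xchk xE) g1385 x1385) = true := by decide +kernel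
noncomputable def rx1397 : iz (BT.all2 (xchk xE) g1397 x1397) = true := by decide +kernel
noncomputable def rx1407 : iz (BT.all2 (xchk xE) g1407 x1407) = true := by decide +kernel
noncomputable def rx1411 : iz (BT.all2 (xchk xE) g1411 x1411) = true := by decide +kernel
noncomputable def rx1419 : iz (BT.all2 (xchk xE) g1419 x1419) = true := by decide +kernel
noncomputable def rx1424 : iz (BT.all2 (xchk xE) g1424 x1424) = true := by decide +kernel
noncomputable def rx1429 : iz (BT.all2 (xchk xE) g1429 x1429) = true := by decide +kernel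
noncomputable def rx1437 : iz (BT.all2 (xchk xE) g1437 x1437) = true := by decide +kernel
noncomputable def rx1446 : iz (BT.all2 (xchk xE) g1446 x1446) = true := by decide +kernel
noncomputable def rx1451 : iz (BT.all2 (xchk xE) g1451 x1451) = true := by decide +kernel
noncomputable def rx1458 : iz (BT.all2 (xchk xE) g1458 x1458) = true := by decide +kernel
noncomputable def rx1467 : iz (BT.all2 (xchk xE) g1467 x1467) = true := by decide +kernel
noncomputable def rx1478 : iz (BT.all2 (xchk xE) g1478 x1478) = true := by decide +kernel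
noncomputable def rx1486 : iz (BT.all2 (xchk xE) g1486 x1486) = true := by decide +kernel
noncomputable def rx1496 : iz (BT.all2 (xchk xE) g1496 x1496) = true := by decide +kernel
noncomputable def rX0 : OK2 (xchk xE) tG0 tX0 := (ok2_nd (nat_lit 745) (ok2_nd (nat_lit 361) (ok2_nd (nat_lit 185) (ok2_nd (nat_lit 72) (ok2_nd (nat_lit 27) (ok2_nd (nat_lit 9) (ok2_nd (nat_lit 1) (ok2_of rx0) (ok2_of rx1)) (ok2_nd (nat_lit 18) (ok2_of rx9) (ok2_nd (nat_lit 19) (ok2_of rx18) (ok2_of rx19)))) (ok2_nd (nat_lit 47) (ok2_nd (nat_lit 38) (ok2_of rx27) (ok2_nd (nat_lit 45) (ok2_of rx38) (ok2_of rx45))) (ok2_nd (nat_lit 58) (ok2_of rx47) (ok2_nd (nat_lit 64) (ok2_of rx58) (ok2_of rx64))))) (ok2_nd (nat_lit 131) (ok2_nd (nat_lit 102) (ok2_nd (nat_lit 84) (ok2_of rx72) (ok2_nd (nat_lit 90) (ok2_of rx84) (ok2_of rx90))) (ok2_nd (nat_lit 110) (ok2_of rx102) (ok2_nd (nat_lit 121) (ok2_of rx110) (ok2_of rx121)))) (ok2_nd (nat_lit 158) (ok2_nd (nat_lit 141) (ok2_of rx131) (ok2_nd (nat_lit 149) (ok2_of rx141) (ok2_of rx149))) (ok2_nd (nat_lit 169) (ok2_of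 rx158) (ok2_nd (nat_lit 177) (ok2_of rx169) (ok2_of rx177)))))) (ok2_nd (nat_lit 266) (ok2_nd (nat_lit 226) (ok2_nd (nat_lit 196) (ok2_nd (nat_lit 191) (ok2_of rx185) (ok2_of rx191)) (ok2_nd (nat_lit 202) (ok2_of rx196) (ok2_nd (nat_lit 215) (ok2_of rx202) (ok2_of rx215)))) (ok2_nd (nat_lit 245) (ok2_nd (nat_lit 233) (ok2_of rx226) (ok2_nd (nat_lit 241) (ok2_of rx233) (ok2_of rx241))) (ok2_nd (nat_lit 251) (ok2_of rx245) (ok2_nd (nat_lit 257) (ok2_of rx251) (ok2_of rx257))))) (ok2_nd (nat_lit 312) (ok2_nd (nat_lit 290) (ok2_nd (nat_lit 278) (ok2_of rx266) (ok2_nd (nat_lit 284) (ok2_of rx278) (ok2_of rx284))) (ok2_nd (nat_lit 300) (ok2_of rx290) (ok2_nd (nat_lit 306) (ok2_of rx300) (ok2_of rx306)))) (ok2_nd (nat_lit 338) (ok2_nd (nat_lit 320) (ok2_of rx312) (ok2_nd (nat_lit 329) (ok2_of rx320) (ok2_of rx329))) (ok2_nd (nat_lit 345) (ok2_of rx338) (ok2_nd (nat_lit 354) (ok2_of rx345) (ok2_of rx354))))))) (ok2_nd (nat_lit 543) (ok2_nd (nat_lit 461) (ok2_nd (nat_lit 411) (ok2_nd (nat_lit 383) (ok2_nd (nat_lit 371) (ok2_of rx361) (ok2_of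 rx371)) (ok2_nd (nat_lit 394) (ok2_of rx383) (ok2_nd (nat_lit 402) (ok2_of rx394) (ok2_of rx402)))) (ok2_nd (nat_lit 436) (ok2_nd (nat_lit 416) (ok2_of rx411) (ok2_nd (nat_lit 424) (ok2_of rx416) (ok2_of rx424))) (ok2_nd (nat_lit 445) (ok2_of rx436) (ok2_nd (nat_lit 454) (ok2_of rx445) (ok2_of rx454))))) (ok2_nd (nat_lit 500) (ok2_nd (nat_lit 480) (ok2_nd (nat_lit 467) (ok2_of rx461) (ok2_nd (nat_lit 470) (ok2_of rx467) (ok2_of rx470))) (ok2_nd (nat_lit 485) (ok2_of rx480) (ok2_nd (nat_lit 494) (ok2_of rx485) (ok2_of rx494)))) (ok2_nd (nat_lit 516) (ok2_nd (nat_lit 502) (ok2_of rx500) (ok2_nd (nat_lit 511) (ok2_of rx502) (ok2_of rx511))) (ok2_nd (nat_lit 527) (ok2_of rx516) (ok2_nd (nat_lit 536) (ok2_of rx527) (ok2_of rx536)))))) (ok2_nd (nat_lit 647) (ok2_nd (nat_lit 590) (ok2_nd (nat_lit 562) (ok2_nd (nat_lit 552) (ok2_of rx543) (ok2_of rx552)) (ok2_nd (nat_lit 572) (ok2_of rx562) (ok2_nd (nat_lit 578) (ok2_of rx572) (ok2_of rx578)))) (ok2_nd (nat_lit 619) (ok2_nd (nat_lit 603) (ok2_of rx590) (ok2_nd (nat_lit 609) (ok2_of rx603) (ok2_of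 rx609))) (ok2_nd (nat_lit 628) (ok2_of rx619) (ok2_nd (nat_lit 638) (ok2_of rx628) (ok2_of rx638))))) (ok2_nd (nat_lit 687) (ok2_nd (nat_lit 665) (ok2_nd (nat_lit 654) (ok2_of rx647) (ok2_nd (nat_lit 664) (ok2_of rx654) (ok2_of rx664))) (ok2_nd (nat_lit 670) (ok2_of rx665) (ok2_nd (nat_lit 678) (ok2_of rx670) (ok2_of rx678)))) (ok2_nd (nat_lit 717) (ok2_nd (nat_lit 698) (ok2_of rx687) (ok2_nd (nat_lit 708) (ok2_of rx698) (ok2_of rx708))) (ok2_nd (nat_lit 724) (ok2_of rx717) (ok2_nd (nat_lit 734) (ok2_of rx724) (ok2_of rx734)))))))) (ok2_nd (nat_lit 1108) (ok2_nd (nat_lit 932) (ok2_nd (nat_lit 833) (ok2_nd (nat_lit 790) (ok2_nd (nat_lit 763) (ok2_nd (nat_lit 754) (ok2_of rx745) (ok2_of rx754)) (ok2_nd (nat_lit 776) (ok2_of rx763) (ok2_nd (nat_lit 787) (ok2_of rx776) (ok2_of rx787)))) (ok2_nd (nat_lit 809) (ok2_nd (nat_lit 796) (ok2_of rx790) (ok2_nd (nat_lit 805) (ok2_of rx796) (ok2_of rx805))) (ok2_nd (nat_lit 820) (ok2_of rx809) (ok2_nd (nat_lit 826) (ok2_of rx820) (ok2_of rx826))))) (ok2_nd (nat_lit 892) (ok2_nd (nat_lit 857) (ok2_nd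 (nat_lit 842) (ok2_of rx833) (ok2_nd (nat_lit 851) (ok2_of rx842) (ok2_of rx851))) (ok2_nd (nat_lit 870) (ok2_of rx857) (ok2_nd (nat_lit 880) (ok2_of rx870) (ok2_of rx880)))) (ok2_nd (nat_lit 914) (ok2_nd (nat_lit 898) (ok2_of rx892) (ok2_nd (nat_lit 908) (ok2_of rx898) (ok2_of rx908))) (ok2_nd (nat_lit 920) (ok2_of rx914) (ok2_nd (nat_lit 929) (ok2_of rx920) (ok2_of rx929)))))) (ok2_nd (nat_lit 1013) (ok2_nd (nat_lit 973) (ok2_nd (nat_lit 949) (ok2_nd (nat_lit 941) (ok2_of rx932) (ok2_of rx941)) (ok2_nd (nat_lit 958) (ok2_of rx949) (ok2_nd (nat_lit 964) (ok2_of rx958) (ok2_of rx964)))) (ok2_nd (nat_lit 994) (ok2_nd (nat_lit 985) (ok2_of rx973) (ok2_nd (nat_lit 991) (ok2_of rx985) (ok2_of rx991))) (ok2_nd (nat_lit 1002) (ok2_of rx994) (ok2_nd (nat_lit 1008) (ok2_of rx1002) (ok2_of rx1008))))) (ok2_nd (nat_lit 1064) (ok2_nd (nat_lit 1043) (ok2_nd (nat_lit 1025) (ok2_of rx1013) (ok2_nd (nat_lit 1034) (ok2_of rx1025) (ok2_of rx1034))) (ok2_nd (nat_lit 1053) (ok2_of rx1043) (ok2_nd (nat_lit 1062) (ok2_of rx1053) (ok2_of rx1062)))) (ok2_nd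 (nat_lit 1087) (ok2_nd (nat_lit 1074) (ok2_of rx1064) (ok2_nd (nat_lit 1075) (ok2_of rx1074) (ok2_of rx1075))) (ok2_nd (nat_lit 1097) (ok2_of rx1087) (ok2_nd (nat_lit 1102) (ok2_of rx1097) (ok2_of rx1102))))))) (ok2_nd (nat_lit 1308) (ok2_nd (nat_lit 1207) (ok2_nd (nat_lit 1157) (ok2_nd (nat_lit 1125) (ok2_nd (nat_lit 1117) (ok2_of rx1108) (ok2_of rx1117)) (ok2_nd (nat_lit 1136) (ok2_of rx1125) (ok2_nd (nat_lit 1145) (ok2_of rx1136) (ok2_of rx1145)))) (ok2_nd (nat_lit 1180) (ok2_nd (nat_lit 1166) (ok2_of rx1157) (ok2_nd (nat_lit 1176) (ok2_of rx1166) (ok2_of rx1176))) (ok2_nd (nat_lit 1191) (ok2_of rx1180) (ok2_nd (nat_lit 1197) (ok2_of rx1191) (ok2_of rx1197))))) (ok2_nd (nat_lit 1260) (ok2_nd (nat_lit 1231) (ok2_nd (nat_lit 1213) (ok2_of rx1207) (ok2_nd (nat_lit 1219) (ok2_of rx1213) (ok2_of rx1219))) (ok2_nd (nat_lit 1240) (ok2_of rx1231) (ok2_nd (nat_lit 1247) (ok2_of rx1240) (ok2_of rx1247)))) (ok2_nd (nat_lit 1283) (ok2_nd (nat_lit 1266) (ok2_of rx1260) (ok2_nd (nat_lit 1275) (ok2_of rx1266) (ok2_of rx1275))) (ok2_nd (nat_lit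 1291) (ok2_of rx1283) (ok2_nd (nat_lit 1300) (ok2_of rx1291) (ok2_of rx1300)))))) (ok2_nd (nat_lit 1411) (ok2_nd (nat_lit 1361) (ok2_nd (nat_lit 1336) (ok2_nd (nat_lit 1317) (ok2_of rx1308) (ok2_nd (nat_lit 1326) (ok2_of rx1317) (ok2_of rx1326))) (ok2_nd (nat_lit 1348) (ok2_of rx1336) (ok2_nd (nat_lit 1355) (ok2_of rx1348) (ok2_of rx1355)))) (ok2_nd (nat_lit 1385) (ok2_nd (nat_lit 1371) (ok2_of rx1361) (ok2_nd (nat_lit 1377) (ok2_of rx1371) (ok2_of rx1377))) (ok2_nd (nat_lit 1397) (ok2_of rx1385) (ok2_nd (nat_lit 1407) (ok2_of rx1397) (ok2_of rx1407))))) (ok2_nd (nat_lit 1451) (ok2_nd (nat_lit 1429) (ok2_nd (nat_lit 1419) (ok2_of rx1411) (ok2_nd (nat_lit 1424) (ok2_of rx1419) (ok2_of rx1424))) (ok2_nd (nat_lit 1437) (ok2_of rx1429) (ok2_nd (nat_lit 1446) (ok2_of rx1437) (ok2_of rx1446)))) (ok2_nd (nat_lit 1478) (ok2_nd (nat_lit 1458) (ok2_of rx1451) (ok2_nd (nat_lit 1467) (ok2_of rx1458) (ok2_of rx1467))) (ok2_nd (nat_lit 1486) (ok2_of rx1478) (ok2_nd (nat_lit 1496) (ok2_of rx1486) (ok2_of rx1496)))))))))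

end Pool.Agent.MP_797bdc_co.Lk.Da
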