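import Pool.Agent.MP_797bdc_co.Lk.XA
import Pool.Agent.MP_797bdc_co.Lk.DE
import Pool.Agent.MP_797bdc_co.Lk.DG1
import Pool.Agent.MP_797bdc_co.Lk.DX1

/-! Run of checker X. -/

set_option maxRecDepth 100000
set_option linter.defProp false

namespace Pool.Agent.MP_797bdc_co.Lk.Da

noncomputable def rx1497 : iz (BT.all2 (xchk xE) g1497 x1497) = true := by decide +kernel
noncomputable def rx1501 : iz (BT.all2 (xchk xE) g1501 x1501) = true := by decide +kernel
noncomputable def rx1509 : iz (BT.all2 (xchk xE) g1509 x1509) = true := by decide +kernel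
noncomputable def rx1522 : iz (BT.all2 (xchk xE) g1522 x1522) = true := by decide +kernel
noncomputable def rx1531 : iz (BT.all2 (xchk xE) g1531 x1531) = true := by decide +kernel
noncomputable def rx1538 : iz (BT.all2 (xchk xE) g1538 x1538) = true := by decide +kernel
noncomputable def rx1546 : iz (BT.all2 (xchk xE) g1546 x1546) = true := by decide +kernel
noncomputable def rx1552 : iz (BT.all2 (xchk xE) g1552 x1552) = true := by decide +kernel
noncomputable def rx1558 : iz (BT.all2 (xchk xE) g1558 x1558) = true := by decide +kernel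
noncomputable def rx1563 : iz (BT.all2 (xchk xE) g1563 x1563) = true := by decide +kernel
noncomputable def rx1572 : iz (BT.all2 (xchk xE) g1572 x1572) = true := by decide +kernel
noncomputable def rx1582 : iz (BT.all2 (xchk xE) g1582 x1582) = true := by decide +kernel
noncomputable def rx1590 : iz (BT.all2 (xchk xE) g1590 x1590) = true := by decide +kernel
noncomputable def rx1598 : iz (BT.all2 (xchk xE) g1598 x1598) = true := by decide +kernel
noncomputable def rx1609 : iz (BT.all2 (xchk xE) g1609 x1609) = true := by decide +kernel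
noncomputable def rx1618 : iz (BT.all2 (xchk xE) g1618 x1618) = true := by decide +kernel
noncomputable def rx1623 : iz (BT.all2 (xchk xE) g1623 x1623) = true := by decide +kernel
noncomputable def rx1631 : iz (BT.all2 (xchk xE) g1631 x1631) = true := by decide +kernel
noncomputable def rx1643 : iz (BT.all2 (xchk xE) g1643 x1643) = true := by decide +kernel
noncomputable def rx1649 : iz (BT.all2 (xchk xE) g1649 x1649) = true := by decide +kernel
noncomputable def rx1659 : iz (BT.all2 (xchk xE) g1659 x1659) = true := by decide +kernel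
noncomputable def rx1667 : iz (BT.all2 (xchk xE) g1667 x1667) = true := by decide +kernel
noncomputable def rx1676 : iz (BT.all2 (xchk xE) g1676 x1676) = true := by decide +kernel
noncomputable def rx1689 : iz (BT.all2 (xchk xE) g1689 x1689) = true := by decide +kernel
noncomputable def rx1695 : iz (BT.all2 (xchk xE) g1695 x1695) = true := by decide +kernel
noncomputable def rx1703 : iz (BT.all2 (xchk xE) g1703 x1703) = true := by decide +kernel
noncomputable def rx1712 : iz (BT.all2 (xchk xE) g1712 x1712) = true := by decide +kernel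
noncomputable def rx1720 : iz (BT.all2 (xchk xE) g1720 x1720) = true := by decide +kernel
noncomputable def rx1727 : iz (BT.all2 (xchk xE) g1727 x1727) = true := by decide +kernel
noncomputable def rx1738 : iz (BT.all2 (xchk xE) g1738 x1738) = true := by decide +kernel
noncomputable def rx1741 : iz (BT.all2 (xchk xE) g1741 x1741) = true := by decide +kernel
noncomputable def rx1749 : iz (BT.all2 (xchk xE) g1749 x1749) = true := by decide +kernel
noncomputable def rx1757 : iz (BT.all2 (xchk xE) g1757 x1757) = true := by decide +kernel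
noncomputable def rx1767 : iz (BT.all2 (xchk xE) g1767 x1767) = true := by decide +kernel
noncomputable def rx1776 : iz (BT.all2 (xchk xE) g1776 x1776) = true := by decide +kernel
noncomputable def rx1781 : iz (BT.all2 (xchk xE) g1781 x1781) = true := by decide +kernel
noncomputable def rx1791 : iz (BT.all2 (xchk xE) g1791 x1791) = true := by decide +kernel
noncomputable def rx1795 : iz (BT.all2 (xchk xE) g1795 x1795) = true := by decide +kernel
noncomputable def rx1801 : iz (BT.all2 (xchk xE) g1801 x1801) = true := by decide +kernel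
noncomputable def rx1810 : iz (BT.all2 (xchk xE) g1810 x1810) = true := by decide +kernel
noncomputable def rx1817 : iz (BT.all2 (xchk xE) g1817 x1817) = true := by decide +kernel
noncomputable def rx1827 : iz (BT.all2 (xchk xE) g1827 x1827) = true := by decide +kernel
noncomputable def rx1832 : iz (BT.all2 (xchk xE) g1832 x1832) = true := by decide +kernel
noncomputable def rx1843 : iz (BT.all2 (xchk xE) g1843 x1843) = true := by decide +kernel
noncomputable def rx1844 : iz (BT.all2 (xchk xE) g1844 x1844) = true := by decide +kernel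
noncomputable def rx1852 : iz (BT.all2 (xchk xE) g1852 x1852) = true := by decide +kernel
noncomputable def rx1861 : iz (BT.all2 (xchk xE) g1861 x1861) = true := by decide +kernel
noncomputable def rx1873 : iz (BT.all2 (xchk xE) g1873 x1873) = true := by decide +kernel
noncomputable def rx1883 : iz (BT.all2 (xchk xE) g1883 x1883) = true := by decide +kernel
noncomputable def rx1890 : iz (BT.all2 (xchk xE) g1890 x1890) = true := by decide +kernel
noncomputable def rx1897 : iz (BT.all2 (xchk xE) g1897 x1897) = true := by decide +kernel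
noncomputable def rx1906 : iz (BT.all2 (xchk xE) g1906 x1906) = true := by decide +kernel
noncomputable def rx1915 : iz (BT.all2 (xchk xE) g1915 x1915) = true := by decide +kernel
noncomputable def rx1921 : iz (BT.all2 (xchk xE) g1921 x1921) = true := by decide +kernel
noncomputable def rx1927 : iz (BT.all2 (xchk xE) g1927 x1927) = true := by decide +kernel
noncomputable def rx1933 : iz (BT.all2 (xchk xE) g1933 x1933) = true := by decide +kernel
noncomputable def rx1940 : iz (BT.all2 (xchk xE) g1940 x1940) = true := by decide +kernel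
noncomputable def rx1948 : iz (BT.all2 (xchk xE) g1948 x1948) = true := by decide +kernel
noncomputable def rx1958 : iz (BT.all2 (xchk xE) g1958 x1958) = true := by decide +kernel
noncomputable def rx1963 : iz (BT.all2 (xchk xE) g1963 x1963) = true := by decide +kernel
noncomputable def rx1972 : iz (BT.all2 (xchk xE) g1972 x1972) = true := by decide +kernel
noncomputable def rx1981 : iz (BT.all2 (xchk xE) g1981 x1981) = true := by decide +kernel
noncomputable def rx1990 : iz (BT.all2 (xchk xE) g1990 x1990) = true := by decide +kernel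
noncomputable def rx1999 : iz (BT.all2 (xchk xE) g1999 x1999) = true := by decide +kernel
noncomputable def rx2008 : iz (BT.all2 (xchk xE) g2008 x2008) = true := by decide +kernel
noncomputable def rx2011 : iz (BT.all2 (xchk xE) g2011 x2011) = true := by decide +kernel
noncomputable def rx2022 : iz (BT.all2 (xchk xE) g2022 x2022) = true := by decide +kernel
noncomputable def rx2024 : iz (BT.all2 (xchk xE) g2024 x2024) = true := by decide +kernel
noncomputable def rx2034 : iz (BT.all2 (xchk xE) g2034 x2034) = true := by decide +kernel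
noncomputable def rx2047 : iz (BT.all2 (xchk xE) g2047 x2047) = true := by decide +kernel
noncomputable def rx2057 : iz (BT.all2 (xchk xE) g2057 x2057) = true := by decide +kernel
noncomputable def rx2067 : iz (BT.all2 (xchk xE) g2067 x2067) = true := by decide +kernel
noncomputable def rx2080 : iz (BT.all2 (xchk xE) g2080 x2080) = true := by decide +kernel
noncomputable def rx2092 : iz (BT.all2 (xchk xE) g2092 x2092) = true := by decide +kernel
noncomputable def rx2099 : iz (BT.all2 (xchk xE) g2099 x2099) = true := by decide +kernel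
noncomputable def rx2104 : iz (BT.all2 (xchk xE) g2104 x2104) = true := by decide +kernel
noncomputable def rx2113 : iz (BT.all2 (xchk xE) g2113 x2113) = true := by decide +kernel
noncomputable def rx2121 : iz (BT.all2 (xchk xE) g2121 x2121) = true := by decide +kernel
noncomputable def rx2129 : iz (BT.all2 (xchk xE) g2129 x2129) = true := by decide +kernel
noncomputable def rx2138 : iz (BT.all2 (xchk xE) g2138 x2138) = true := by decide +kernel
noncomputable def rx2146 : iz (BT.all2 (xchk xE) g2146 x2146) = true := by decide +kernel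
noncomputable def rx2156 : iz (BT.all2 (xchk xE) g2156 x2156) = true := by decide +kernel
noncomputable def rx2157 : iz (BT.all2 (xchk xE) g2157 x2157) = true := by decide +kernel
noncomputable def rx2163 : iz (BT.all2 (xchk xE) g2163 x2163) = true := by decide +kernel
noncomputable def rx2169 : iz (BT.all2 (xchk xE) g2169 x2169) = true := by decide +kernel
noncomputable def rx2173 : iz (BT.all2 (xchk xE) g2173 x2173) = true := by decide +kernel
noncomputable def rx2176 : iz (BT.all2 (xchk xE) g2176 x2176) = true := by decide +kernel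
noncomputable def rx2185 : iz (BT.all2 (xchk xE) g2185 x2185) = true := by decide +kernel
noncomputable def rx2192 : iz (BT.all2 (xchk xE) g2192 x2192) = true := by decide +kernel
noncomputable def rx2198 : iz (BT.all2 (xchk xE) g2198 x2198) = true := by decide +kernel
noncomputable def rx2211 : iz (BT.all2 (xchk xE) g2211 x2211) = true := by decide +kernel
noncomputable def rx2216 : iz (BT.all2 (xchk xE) g2216 x2216) = true := by decide +kernel
noncomputable def rx2222 : iz (BT.all2 (xchk xE) g2222 x2222) = true := by decide +kernel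
noncomputable def rx2230 : iz (BT.all2 (xchk xE) g2230 x2230) = true := by decide +kernel
noncomputable def rx2236 : iz (BT.all2 (xchk xE) g2236 x2236) = true := by decide +kernel
noncomputable def rx2245 : iz (BT.all2 (xchk xE) g2245 x2245) = true := by decide +kernel
noncomputable def rx2251 : iz (BT.all2 (xchk xE) g2251 x2251) = true := by decide +kernel
noncomputable def rx2257 : iz (BT.all2 (xchk xE) g2257 x2257) = true := by decide +kernel
noncomputable def rx2263 : iz (BT.all2 (xchk xE) g2263 x2263) = true := by decide +kernel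
noncomputable def rx2265 : iz (BT.all2 (xchk xE) g2265 x2265) = true := by decide +kernel
noncomputable def rx2275 : iz (BT.all2 (xchk xE) g2275 x2275) = true := by decide +kernel
noncomputable def rx2283 : iz (BT.all2 (xchk xE) g2283 x2283) = true := by decide +kernel
noncomputable def rx2292 : iz (BT.all2 (xchk xE) g2292 x2292) = true := by decide +kernel
noncomputable def rx2305 : iz (BT.all2 (xchk xE) g2305 x2305) = true := by decide +kernel
noncomputable def rx2314 : iz (BT.all2 (xchk xE) g2314 x2314) = true := by decide +kernel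
noncomputable def rx2324 : iz (BT.all2 (xchk xE) g2324 x2324) = true := by decide +kernel
noncomputable def rx2334 : iz (BT.all2 (xchk xE) g2334 x2334) = true := by decide +kernel
noncomputable def rx2343 : iz (BT.all2 (xchk xE) g2343 x2343) = true := by decide +kernel
noncomputable def rx2348 : iz (BT.all2 (xchk xE) g2348 x2348) = true := by decide +kernel
noncomputable def rx2359 : iz (BT.all2 (xchk xE) g2359 x2359) = true := by decide +kernel
noncomputable def rx2363 : iz (BT.all2 (xchk xE) g2363 x2363) = true := by decide +kernel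
noncomputable def rx2373 : iz (BT.all2 (xchk xE) g2373 x2373) = true := by decide +kernel
noncomputable def rx2379 : iz (BT.all2 (xchk xE) g2379 x2379) = true := by decide +kernel
noncomputable def rx2388 : iz (BT.all2 (xchk xE) g2388 x2388) = true := by decide +kernel
noncomputable def rx2398 : iz (BT.all2 (xchk xE) g2398 x2398) = true := by decide +kernel
noncomputable def rx2410 : iz (BT.all2 (xchk xE) g2410 x2410) = true := by decide +kernel
noncomputable def rx2420 : iz (BT.all2 (xchk xE) g2420 x2420) = true := by decide +kernel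
noncomputable def rx2432 : iz (BT.all2 (xchk xE) g2432 x2432) = true := by decide +kernel
noncomputable def rx2440 : iz (BT.all2 (xchk xE) g2440 x2440) = true := by decide +kernel
noncomputable def rx2450 : iz (BT.all2 (xchk xE) g2450 x2450) = true := by decide +kernel
noncomputable def rx2457 : iz (BT.all2 (xchk xE) g2457 x2457) = true := by decide +kernel
noncomputable def rx2465 : iz (BT.all2 (xchk xE) g2465 x2465) = true := by decide +kernel
noncomputable def rx2472 : iz (BT.all2 (xchk xE) g2472 x2472) = true := by decide +kernel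
noncomputable def rx2478 : iz (BT.all2 (xchk xE) g2478 x2478) = true := by decide +kernel
noncomputable def rx2488 : iz (BT.all2 (xchk xE) g2488 x2488) = true := by decide +kernel
noncomputable def rx2497 : iz (BT.all2 (xchk xE) g2497 x2497) = true := by decide +kernel
noncomputable def rx2505 : iz (BT.all2 (xchk xE) g2505 x2505) = true := by decide +kernel
noncomputable def rx2513 : iz (BT.all2 (xchk xE) g2513 x2513) = true := by decide +kernel
noncomputable def rx2519 : iz (BT.all2 (xchk xE) g2519 x2519) = true := by decide +kernel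
noncomputable def rx2527 : iz (BT.all2 (xchk xE) g2527 x2527) = true := by decide +kernel
noncomputable def rx2535 : iz (BT.all2 (xchk xE) g2535 x2535) = true := by decide +kernel
noncomputable def rx2545 : iz (BT.all2 (xchk xE) g2545 x2545) = true := by decide +kernel
noncomputable def rx2554 : iz (BT.all2 (xchk xE) g2554 x2554) = true := by decide +kernel
noncomputable def rx2557 : iz (BT.all2 (xchk xE) g2557 x2557) = true := by decide +kernel
noncomputable def rx2567 : iz (BT.all2 (xchk xE) g2567 x2567) = true := by decide +kernel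
noncomputable def rx2569 : iz (BT.all2 (xchk xE) g2569 x2569) = true := by decide +kernel
noncomputable def rx2580 : iz (BT.all2 (xchk xE) g2580 x2580) = true := by decide +kernel
noncomputable def rx2582 : iz (BT.all2 (xchk xE) g2582 x2582) = true := by decide +kernel
noncomputable def rx2592 : iz (BT.all2 (xchk xE) g2592 x2592) = true := by decide +kernel
noncomputable def rx2602 : iz (BT.all2 (xchk xE) g2602 x2602) = true := by decide +kernel
noncomputable def rx2613 : iz (BT.all2 (xchk xE) g2613 x2613) = true := by decide +kernel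
noncomputable def rx2618 : iz (BT.all2 (xchk xE) g2618 x2618) = true := by decide +kernel
noncomputable def rx2621 : iz (BT.all2 (xchk xE) g2621 x2621) = true := by decide +kernel
noncomputable def rx2630 : iz (BT.all2 (xchk xE) g2630 x2630) = true := by decide +kernel
noncomputable def rx2639 : iz (BT.all2 (xchk xE) g2639 x2639) = true := by decide +kernel
noncomputable def rx2650 : iz (BT.all2 (xchk xE) g2650 x2650) = true := by decide +kernel
noncomputable def rx2656 : iz (BT.all2 (xchk xE) g2656 x2656) = true := by decide +kernel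
noncomputable def rx2665 : iz (BT.all2 (xchk xE) g2665 x2665) = true := by decide +kernel
noncomputable def rx2672 : iz (BT.all2 (xchk xE) g2672 x2672) = true := by decide +kernel
noncomputable def rx2679 : iz (BT.all2 (xchk xE) g2679 x2679) = true := by decide +kernel
noncomputable def rx2685 : iz (BT.all2 (xchk xE) g2685 x2685) = true := by decide +kernel
noncomputable def rx2695 : iz (BT.all2 (xchk xE) g2695 x2695) = true := by decide +kernel
noncomputable def rx2703 : iz (BT.all2 (xchk xE) g2703 x2703) = true := by decide +kernel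
noncomputable def rx2710 : iz (BT.all2 (xchk xE) g2710 x2710) = true := by decide +kernel
noncomputable def rx2722 : iz (BT.all2 (xchk xE) g2722 x2722) = true := by decide +kernel
noncomputable def rx2726 : iz (BT.all2 (xchk xE) g2726 x2726) = true := by decide +kernel
noncomputable def rx2734 : iz (BT.all2 (xchk xE) g2734 x2734) = true := by decide +kernel
noncomputable def rx2741 : iz (BT.all2 (xchk xE) g2741 x2741) = true := by decide +kernel
noncomputable def rx2750 : iz (BT.all2 (xchk xE) g2750 x2750) = true := by decide +kernel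
noncomputable def rx2758 : iz (BT.all2 (xchk xE) g2758 x2758) = true := by decide +kernel
noncomputable def rx2767 : iz (BT.all2 (xchk xE) g2767 x2767) = true := by decide +kernel
noncomputable def rx2777 : iz (BT.all2 (xchk xE) g2777 x2777) = true := by decide +kernel
noncomputable def rx2786 : iz (BT.all2 (xchk xE) g2786 x2786) = true := by decide +kernel
noncomputable def rx2795 : iz (BT.all2 (xchk xE) g2795 x2795) = true := by decide +kernel
noncomputable def rx2800 : iz (BT.all2 (xchk xE) g2800 x2800) = true := by decide +kernel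
noncomputable def rx2809 : iz (BT.all2 (xchk xE) g2809 x2809) = true := by decide +kernel
noncomputable def rx2814 : iz (BT.all2 (xchk xE) g2814 x2814) = true := by decide +kernel
noncomputable def rx2820 : iz (BT.all2 (xchk xE) g2820 x2820) = true := by decide +kernel
noncomputable def rx2829 : iz (BT.all2 (xchk xE) g2829 x2829) = true := by decide +kernel
noncomputable def rx2837 : iz (BT.all2 (xchk xE) g2837 x2837) = true := by decide +kernel
noncomputable def rx2847 : iz (BT.all2 (xchk xE) g2847 x2847) = true := by decide +kernel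
noncomputable def rx2855 : iz (BT.all2 (xchk xE) g2855 x2855) = true := by decide +kernel
noncomputable def rx2866 : iz (BT.all2 (xchk xE) g2866 x2866) = true := by decide +kernel
noncomputable def rx2879 : iz (BT.all2 (xchk xE) g2879 x2879) = true := by decide +kernel
noncomputable def rx2888 : iz (BT.all2 (xchk xE) g2888 x2888) = true := by decide +kernel
noncomputable def rx2894 : iz (BT.all2 (xchk xE) g2894 x2894) = true := by decide +kernel
noncomputable def rx2903 : iz (BT.all2 (xchk xE) g2903 x2903) = true := by decide +kernel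
noncomputable def rx2909 : iz (BT.all2 (xchk xE) g2909 x2909) = true := by decide +kernel
noncomputable def rx2911 : iz (BT.all2 (xchk xE) g2911 x2911) = true := by decide +kernel
noncomputable def rx2919 : iz (BT.all2 (xchk xE) g2919 x2919) = true := by decide +kernel
noncomputable def rx2932 : iz (BT.all2 (xchk xE) g2932 x2932) = true := by decide +kernel
noncomputable def rx2942 : iz (BT.all2 (xchk xE) g2942 x2942) = true := by decide +kernel
noncomputable def rx2948 : iz (BT.all2 (xchk xE) g2948 x2948) = true := by decide +kernel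
noncomputable def rx2959 : iz (BT.all2 (xchk xE) g2959 x2959) = true := by decide +kernel
noncomputable def rx2964 : iz (BT.all2 (xchk xE) g2964 x2964) = true := by decide +kernel
noncomputable def rX1 : OK2 (xchk xE) tG1 tX1 := (ok2_nd (nat_lit 2222) (ok2_nd (nat_lit 1861) (ok2_nd (nat_lit 1689) (ok2_nd (nat_lit 1582) (ok2_nd (nat_lit 1538) (ok2_nd (nat_lit 1509) (ok2_nd (nat_lit 1501) (ok2_of rx1497) (ok2_of rx1501)) (ok2_nd (nat_lit 1522) (ok2_of rx1509) (ok2_nd (nat_lit 1531) (ok2_of rx1522) (ok2_of rx1531)))) (ok2_nd (nat_lit 1558) (ok2_nd (nat_lit 1546) (ok2_of rx1538) (ok2_nd (nat_lit 1552) (ok2_of rx1546) (ok2_of rx1552))) (ok2_nd (nat_lit 1563) (ok2_of rx1558) (ok2_nd (nat_lit 1572) (ok2_of rx1563) (ok2_of rx1572))))) (ok2_nd (nat_lit 1631) (ok2_nd (nat_lit 1609) (ok2_nd (nat_lit 1590) (ok2_of rx1582) (ok2_nd (nat_lit 1598) (ok2_of rx1590) (ok2_of rx1598))) (ok2_nd (nat_lit 1618) (ok2_of rx1609) (ok2_nd (nat_lit 1623) (ok2_of rx1618) (ok2_of rx1623)))) (ok2_nd (nat_lit 1659) (ok2_nd (nat_lit 1643) (ok2_of rx1631)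 (ok2_nd (nat_lit 1649) (ok2_of rx1643) (ok2_of rx1649))) (ok2_nd (nat_lit 1667) (ok2_of rx1659) (ok2_nd (nat_lit 1676) (ok2_of rx1667) (ok2_of rx1676)))))) (ok2_nd (nat_lit 1776) (ok2_nd (nat_lit 1727) (ok2_nd (nat_lit 1703) (ok2_nd (nat_lit 1695) (ok2_of rx1689) (ok2_of rx1695)) (ok2_nd (nat_lit 1712) (ok2_of rx1703) (ok2_nd (nat_lit 1720) (ok2_of rx1712) (ok2_of rx1720)))) (ok2_nd (nat_lit 1749) (ok2_nd (nat_lit 1738) (ok2_of rx1727) (ok2_nd (nat_lit 1741) (ok2_of rx1738) (ok2_of rx1741))) (ok2_nd (nat_lit 1757) (ok2_of rx1749) (ok2_nd (nat_lit 1767) (ok2_of rx1757) (ok2_of rx1767))))) (ok2_nd (nat_lit 1817) (ok2_nd (nat_lit 1795) (ok2_nd (nat_lit 1781) (ok2_of rx1776) (ok2_nd (nat_lit 1791) (ok2_of rx1781) (ok2_of rx1791))) (ok2_nd (nat_lit 1801) (ok2_of rx1795) (ok2_nd (nat_lit 1810) (ok2_of rx1801) (ok2_of rx1810)))) (ok2_nd (nat_lit 1843) (ok2_nd (nat_lit 1827) (ok2_of rx1817) (ok2_nd (nat_lit 1832) (ok2_of rx1827) (ok2_of rx1832))) (ok2_nd (nat_lit 1844) (ok2_of rx1843) (ok2_nd (nat_lit 1852) (ok2_of rx1844) (ok2_of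 rx1852))))))) (ok2_nd (nat_lit 2047) (ok2_nd (nat_lit 1948) (ok2_nd (nat_lit 1906) (ok2_nd (nat_lit 1883) (ok2_nd (nat_lit 1873) (ok2_of rx1861) (ok2_of rx1873)) (ok2_nd (nat_lit 1890) (ok2_of rx1883) (ok2_nd (nat_lit 1897) (ok2_of rx1890) (ok2_of rx1897)))) (ok2_nd (nat_lit 1927) (ok2_nd (nat_lit 1915) (ok2_of rx1906) (ok2_nd (nat_lit 1921) (ok2_of rx1915) (ok2_of rx1921))) (ok2_nd (nat_lit 1933) (ok2_of rx1927) (ok2_nd (nat_lit 1940) (ok2_of rx1933) (ok2_of rx1940))))) (ok2_nd (nat_lit 1999) (ok2_nd (nat_lit 1972) (ok2_nd (nat_lit 1958) (ok2_of rx1948) (ok2_nd (nat_lit 1963) (ok2_of rx1958) (ok2_of rx1963))) (ok2_nd (nat_lit 1981) (ok2_of rx1972) (ok2_nd (nat_lit 1990) (ok2_of rx1981) (ok2_of rx1990)))) (ok2_nd (nat_lit 2022) (ok2_nd (nat_lit 2008) (ok2_of rx1999) (ok2_nd (nat_lit 2011) (ok2_of rx2008) (ok2_of rx2011))) (ok2_nd (nat_lit 2024) (ok2_of rx2022) (ok2_nd (nat_lit 2034) (ok2_of rx2024) (ok2_of rx2034)))))) (ok2_nd (nat_lit 2146) (ok2_nd (nat_lit 2099) (ok2_nd (nat_lit 2067) (ok2_nd (nat_lit 2057) (ok2_of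 rx2047) (ok2_of rx2057)) (ok2_nd (nat_lit 2080) (ok2_of rx2067) (ok2_nd (nat_lit 2092) (ok2_of rx2080) (ok2_of rx2092)))) (ok2_nd (nat_lit 2121) (ok2_nd (nat_lit 2104) (ok2_of rx2099) (ok2_nd (nat_lit 2113) (ok2_of rx2104) (ok2_of rx2113))) (ok2_nd (nat_lit 2129) (ok2_of rx2121) (ok2_nd (nat_lit 2138) (ok2_of rx2129) (ok2_of rx2138))))) (ok2_nd (nat_lit 2176) (ok2_nd (nat_lit 2163) (ok2_nd (nat_lit 2156) (ok2_of rx2146) (ok2_nd (nat_lit 2157) (ok2_of rx2156) (ok2_of rx2157))) (ok2_nd (nat_lit 2169) (ok2_of rx2163) (ok2_nd (nat_lit 2173) (ok2_of rx2169) (ok2_of rx2173)))) (ok2_nd (nat_lit 2198) (ok2_nd (nat_lit 2185) (ok2_of rx2176) (ok2_nd (nat_lit 2192) (ok2_of rx2185) (ok2_of rx2192))) (ok2_nd (nat_lit 2211) (ok2_of rx2198) (ok2_nd (nat_lit 2216) (ok2_of rx2211) (ok2_of rx2216)))))))) (ok2_nd (nat_lit 2592) (ok2_nd (nat_lit 2410) (ok2_nd (nat_lit 2305) (ok2_nd (nat_lit 2257) (ok2_nd (nat_lit 2236) (ok2_nd (nat_lit 2230) (ok2_of rx2222) (ok2_of rx2230)) (ok2_nd (nat_lit 2245) (ok2_of rx2236) (ok2_nd (nat_lit 2251) (ok2_of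 rx2245) (ok2_of rx2251)))) (ok2_nd (nat_lit 2275) (ok2_nd (nat_lit 2263) (ok2_of rx2257) (ok2_nd (nat_lit 2265) (ok2_of rx2263) (ok2_of rx2265))) (ok2_nd (nat_lit 2283) (ok2_of rx2275) (ok2_nd (nat_lit 2292) (ok2_of rx2283) (ok2_of rx2292))))) (ok2_nd (nat_lit 2359) (ok2_nd (nat_lit 2334) (ok2_nd (nat_lit 2314) (ok2_of rx2305) (ok2_nd (nat_lit 2324) (ok2_of rx2314) (ok2_of rx2324))) (ok2_nd (nat_lit 2343) (ok2_of rx2334) (ok2_nd (nat_lit 2348) (ok2_of rx2343) (ok2_of rx2348)))) (ok2_nd (nat_lit 2379) (ok2_nd (nat_lit 2363) (ok2_of rx2359) (ok2_nd (nat_lit 2373) (ok2_of rx2363) (ok2_of rx2373))) (ok2_nd (nat_lit 2388) (ok2_of rx2379) (ok2_nd (nat_lit 2398) (ok2_of rx2388) (ok2_of rx2398)))))) (ok2_nd (nat_lit 2505) (ok2_nd (nat_lit 2457) (ok2_nd (nat_lit 2432) (ok2_nd (nat_lit 2420) (ok2_of rx2410) (ok2_of rx2420)) (ok2_nd (nat_lit 2440) (ok2_of rx2432) (ok2_nd (nat_lit 2450) (ok2_of rx2440) (ok2_of rx2450)))) (ok2_nd (nat_lit 2478) (ok2_nd (nat_lit 2465) (ok2_of rx2457) (ok2_nd (nat_lit 2472) (ok2_of rx2465) (ok2_of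 rx2472))) (ok2_nd (nat_lit 2488) (ok2_of rx2478) (ok2_nd (nat_lit 2497) (ok2_of rx2488) (ok2_of rx2497))))) (ok2_nd (nat_lit 2554) (ok2_nd (nat_lit 2527) (ok2_nd (nat_lit 2513) (ok2_of rx2505) (ok2_nd (nat_lit 2519) (ok2_of rx2513) (ok2_of rx2519))) (ok2_nd (nat_lit 2535) (ok2_of rx2527) (ok2_nd (nat_lit 2545) (ok2_of rx2535) (ok2_of rx2545)))) (ok2_nd (nat_lit 2569) (ok2_nd (nat_lit 2557) (ok2_of rx2554) (ok2_nd (nat_lit 2567) (ok2_of rx2557) (ok2_of rx2567))) (ok2_nd (nat_lit 2580) (ok2_of rx2569) (ok2_nd (nat_lit 2582) (ok2_of rx2580) (ok2_of rx2582))))))) (ok2_nd (nat_lit 2777) (ok2_nd (nat_lit 2679) (ok2_nd (nat_lit 2630) (ok2_nd (nat_lit 2613) (ok2_nd (nat_lit 2602) (ok2_of rx2592) (ok2_of rx2602)) (ok2_nd (nat_lit 2618) (ok2_of rx2613) (ok2_nd (nat_lit 2621) (ok2_of rx2618) (ok2_of rx2621)))) (ok2_nd (nat_lit 2656) (ok2_nd (nat_lit 2639) (ok2_of rx2630) (ok2_nd (nat_lit 2650) (ok2_of rx2639) (ok2_of rx2650))) (ok2_nd (nat_lit 2665) (ok2_of rx2656) (ok2_nd (nat_lit 2672) (ok2_of rx2665) (ok2_of rx2672))))) (ok2_nd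 (nat_lit 2726) (ok2_nd (nat_lit 2703) (ok2_nd (nat_lit 2685) (ok2_of rx2679) (ok2_nd (nat_lit 2695) (ok2_of rx2685) (ok2_of rx2695))) (ok2_nd (nat_lit 2710) (ok2_of rx2703) (ok2_nd (nat_lit 2722) (ok2_of rx2710) (ok2_of rx2722)))) (ok2_nd (nat_lit 2750) (ok2_nd (nat_lit 2734) (ok2_of rx2726) (ok2_nd (nat_lit 2741) (ok2_of rx2734) (ok2_of rx2741))) (ok2_nd (nat_lit 2758) (ok2_of rx2750) (ok2_nd (nat_lit 2767) (ok2_of rx2758) (ok2_of rx2767)))))) (ok2_nd (nat_lit 2879) (ok2_nd (nat_lit 2820) (ok2_nd (nat_lit 2800) (ok2_nd (nat_lit 2786) (ok2_of rx2777) (ok2_nd (nat_lit 2795) (ok2_of rx2786) (ok2_of rx2795))) (ok2_nd (nat_lit 2809) (ok2_of rx2800) (ok2_nd (nat_lit 2814) (ok2_of rx2809) (ok2_of rx2814)))) (ok2_nd (nat_lit 2847) (ok2_nd (nat_lit 2829) (ok2_of rx2820) (ok2_nd (nat_lit 2837) (ok2_of rx2829) (ok2_of rx2837))) (ok2_nd (nat_lit 2855) (ok2_of rx2847) (ok2_nd (nat_lit 2866) (ok2_of rx2855) (ok2_of rx2866))))) (ok2_nd (nat_lit 2919) (ok2_nd (nat_lit 2903) (ok2_nd (nat_lit 2888) (ok2_of rx2879) (ok2_nd (nat_lit 2894)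 (ok2_of rx2888) (ok2_of rx2894))) (ok2_nd (nat_lit 2909) (ok2_of rx2903) (ok2_nd (nat_lit 2911) (ok2_of rx2909) (ok2_of rx2911)))) (ok2_nd (nat_lit 2948) (ok2_nd (nat_lit 2932) (ok2_of rx2919) (ok2_nd (nat_lit 2942) (ok2_of rx2932) (ok2_of rx2942))) (ok2_nd (nat_lit 2959) (ok2_of rx2948) (ok2_nd (nat_lit 2964) (ok2_of rx2959) (ok2_of rx2964)))))))))

end Pool.Agent.MP_797bdc_co.Lk.Da
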