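import Pool.Agent.MP_797bdc_co.Lk.XA
import Pool.Agent.MP_797bdc_co.Lk.DE
import Pool.Agent.MP_797bdc_co.Lk.DG10
import Pool.Agent.MP_797bdc_co.Lk.DX10

/-! Run of checker X. -/

set_option maxRecDepth 100000
set_option linter.defProp false

namespace Pool.Agent.MP_797bdc_co.Lk.Da

noncomputable def rx14590 : iz (BT.all2 (xchk xE) g14590 x14590) = true := by decide +kernel
noncomputable def rx14595 : iz (BT.all2 (xchk xE) g14595 x14595) = true := by decide +kernel
noncomputable def rx14600 : iz (BT.all2 (xchk xE) g14600 x14600) = true := by decide +kernel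
noncomputable def rx14605 : iz (BT.all2 (xchk xE) g14605 x14605) = true := by decide +kernel
noncomputable def rx14614 : iz (BT.all2 (xchk xE) g14614 x14614) = true := by decide +kernel
noncomputable def rx14620 : iz (BT.all2 (xchk xE) g14620 x14620) = true := by decide +kernel
noncomputable def rx14626 : iz (BT.all2 (xchk xE) g14626 x14626) = true := by decide +kernel
noncomputable def rx14632 : iz (BT.all2 (xchk xE) g14632 x14632) = true := by decide +kernel
noncomputable def rx14637 : iz (BT.all2 (xchk xE) g14637 x14637) = true := by decide +kernel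
noncomputable def rx14645 : iz (BT.all2 (xchk xE) g14645 x14645) = true := by decide +kernel
noncomputable def rx14653 : iz (BT.all2 (xchk xE) g14653 x14653) = true := by decide +kernel
noncomputable def rx14660 : iz (BT.all2 (xchk xE) g14660 x14660) = true := by decide +kernel
noncomputable def rx14665 : iz (BT.all2 (xchk xE) g14665 x14665) = true := by decide +kernel
noncomputable def rx14670 : iz (BT.all2 (xchk xE) g14670 x14670) = true := by decide +kernel
noncomputable def rx14676 : iz (BT.all2 (xchk xE) g14676 x14676) = true := by decide +kernel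
noncomputable def rx14683 : iz (BT.all2 (xchk xE) g14683 x14683) = true := by decide +kernel
noncomputable def rx14689 : iz (BT.all2 (xchk xE) g14689 x14689) = true := by decide +kernel
noncomputable def rx14694 : iz (BT.all2 (xchk xE) g14694 x14694) = true := by decide +kernel
noncomputable def rx14699 : iz (BT.all2 (xchk xE) g14699 x14699) = true := by decide +kernel
noncomputable def rx14704 : iz (BT.all2 (xchk xE) g14704 x14704) = true := by decide +kernel
noncomputable def rx14713 : iz (BT.all2 (xchk xE) g14713 x14713) = true := by decide +kernel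
noncomputable def rx14722 : iz (BT.all2 (xchk xE) g14722 x14722) = true := by decide +kernel
noncomputable def rx14728 : iz (BT.all2 (xchk xE) g14728 x14728) = true := by decide +kernel
noncomputable def rx14737 : iz (BT.all2 (xchk xE) g14737 x14737) = true := by decide +kernel
noncomputable def rx14747 : iz (BT.all2 (xchk xE) g14747 x14747) = true := by decide +kernel
noncomputable def rx14753 : iz (BT.all2 (xchk xE) g14753 x14753) = true := by decide +kernel
noncomputable def rx14763 : iz (BT.all2 (xchk xE) g14763 x14763) = true := by decide +kernel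
noncomputable def rx14773 : iz (BT.all2 (xchk xE) g14773 x14773) = true := by decide +kernel
noncomputable def rx14781 : iz (BT.all2 (xchk xE) g14781 x14781) = true := by decide +kernel
noncomputable def rx14793 : iz (BT.all2 (xchk xE) g14793 x14793) = true := by decide +kernel
noncomputable def rx14805 : iz (BT.all2 (xchk xE) g14805 x14805) = true := by decide +kernel
noncomputable def rx14814 : iz (BT.all2 (xchk xE) g14814 x14814) = true := by decide +kernel
noncomputable def rx14820 : iz (BT.all2 (xchk xE) g14820 x14820) = true := by decide +kernel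
noncomputable def rx14825 : iz (BT.all2 (xchk xE) g14825 x14825) = true := by decide +kernel
noncomputable def rx14831 : iz (BT.all2 (xchk xE) g14831 x14831) = true := by decide +kernel
noncomputable def rx14838 : iz (BT.all2 (xchk xE) g14838 x14838) = true := by decide +kernel
noncomputable def rx14844 : iz (BT.all2 (xchk xE) g14844 x14844) = true := by decide +kernel
noncomputable def rx14850 : iz (BT.all2 (xchk xE) g14850 x14850) = true := by decide +kernel
noncomputable def rx14856 : iz (BT.all2 (xchk xE) g14856 x14856) = true := by decide +kernel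
noncomputable def rx14859 : iz (BT.all2 (xchk xE) g14859 x14859) = true := by decide +kernel
noncomputable def rx14865 : iz (BT.all2 (xchk xE) g14865 x14865) = true := by decide +kernel
noncomputable def rx14871 : iz (BT.all2 (xchk xE) g14871 x14871) = true := by decide +kernel
noncomputable def rx14879 : iz (BT.all2 (xchk xE) g14879 x14879) = true := by decide +kernel
noncomputable def rx14881 : iz (BT.all2 (xchk xE) g14881 x14881) = true := by decide +kernel
noncomputable def rx14887 : iz (BT.all2 (xchk xE) g14887 x14887) = true := by decide +kernel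
noncomputable def rx14893 : iz (BT.all2 (xchk xE) g14893 x14893) = true := by decide +kernel
noncomputable def rx14899 : iz (BT.all2 (xchk xE) g14899 x14899) = true := by decide +kernel
noncomputable def rx14905 : iz (BT.all2 (xchk xE) g14905 x14905) = true := by decide +kernel
noncomputable def rx14911 : iz (BT.all2 (xchk xE) g14911 x14911) = true := by decide +kernel
noncomputable def rx14917 : iz (BT.all2 (xchk xE) g14917 x14917) = true := by decide +kernel
noncomputable def rx14925 : iz (BT.all2 (xchk xE) g14925 x14925) = true := by decide +kernel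
noncomputable def rx14931 : iz (BT.all2 (xchk xE) g14931 x14931) = true := by decide +kernel
noncomputable def rx14933 : iz (BT.all2 (xchk xE) g14933 x14933) = true := by decide +kernel
noncomputable def rx14941 : iz (BT.all2 (xchk xE) g14941 x14941) = true := by decide +kernel
noncomputable def rx14947 : iz (BT.all2 (xchk xE) g14947 x14947) = true := by decide +kernel
noncomputable def rx14953 : iz (BT.all2 (xchk xE) g14953 x14953) = true := by decide +kernel
noncomputable def rx14957 : iz (BT.all2 (xchk xE) g14957 x14957) = true := by decide +kernel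
noncomputable def rx14965 : iz (BT.all2 (xchk xE) g14965 x14965) = true := by decide +kernel
noncomputable def rx14971 : iz (BT.all2 (xchk xE) g14971 x14971) = true := by decide +kernel
noncomputable def rx14979 : iz (BT.all2 (xchk xE) g14979 x14979) = true := by decide +kernel
noncomputable def rx14986 : iz (BT.all2 (xchk xE) g14986 x14986) = true := by decide +kernel
noncomputable def rx14992 : iz (BT.all2 (xchk xE) g14992 x14992) = true := by decide +kernel
noncomputable def rx15000 : iz (BT.all2 (xchk xE) g15000 x15000) = true := by decide +kernel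
noncomputable def rx15008 : iz (BT.all2 (xchk xE) g15008 x15008) = true := by decide +kernel
noncomputable def rx15017 : iz (BT.all2 (xchk xE) g15017 x15017) = true := by decide +kernel
noncomputable def rx15024 : iz (BT.all2 (xchk xE) g15024 x15024) = true := by decide +kernel
noncomputable def rx15031 : iz (BT.all2 (xchk xE) g15031 x15031) = true := by decide +kernel
noncomputable def rx15037 : iz (BT.all2 (xchk xE) g15037 x15037) = true := by decide +kernel
noncomputable def rx15043 : iz (BT.all2 (xchk xE) g15043 x15043) = true := by decide +kernel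
noncomputable def rx15053 : iz (BT.all2 (xchk xE) g15053 x15053) = true := by decide +kernel
noncomputable def rx15061 : iz (BT.all2 (xchk xE) g15061 x15061) = true := by decide +kernel
noncomputable def rx15066 : iz (BT.all2 (xchk xE) g15066 x15066) = true := by decide +kernel
noncomputable def rx15073 : iz (BT.all2 (xchk xE) g15073 x15073) = true := by decide +kernel
noncomputable def rx15079 : iz (BT.all2 (xchk xE) g15079 x15079) = true := by decide +kernel
noncomputable def rx15085 : iz (BT.all2 (xchk xE) g15085 x15085) = true := by decide +kernel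
noncomputable def rx15089 : iz (BT.all2 (xchk xE) g15089 x15089) = true := by decide +kernel
noncomputable def rx15094 : iz (BT.all2 (xchk xE) g15094 x15094) = true := by decide +kernel
noncomputable def rx15103 : iz (BT.all2 (xchk xE) g15103 x15103) = true := by decide +kernel
noncomputable def rx15112 : iz (BT.all2 (xchk xE) g15112 x15112) = true := by decide +kernel
noncomputable def rx15117 : iz (BT.all2 (xchk xE) g15117 x15117) = true := by decide +kernel
noncomputable def rx15123 : iz (BT.all2 (xchk xE) g15123 x15123) = true := by decide +kernel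
noncomputable def rx15129 : iz (BT.all2 (xchk xE) g15129 x15129) = true := by decide +kernel
noncomputable def rx15135 : iz (BT.all2 (xchk xE) g15135 x15135) = true := by decide +kernel
noncomputable def rx15143 : iz (BT.all2 (xchk xE) g15143 x15143) = true := by decide +kernel
noncomputable def rx15153 : iz (BT.all2 (xchk xE) g15153 x15153) = true := by decide +kernel
noncomputable def rx15157 : iz (BT.all2 (xchk xE) g15157 x15157) = true := by decide +kernel
noncomputable def rx15164 : iz (BT.all2 (xchk xE) g15164 x15164) = true := by decide +kernel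
noncomputable def rx15171 : iz (BT.all2 (xchk xE) g15171 x15171) = true := by decide +kernel
noncomputable def rx15177 : iz (BT.all2 (xchk xE) g15177 x15177) = true := by decide +kernel
noncomputable def rx15186 : iz (BT.all2 (xchk xE) g15186 x15186) = true := by decide +kernel
noncomputable def rx15195 : iz (BT.all2 (xchk xE) g15195 x15195) = true := by decide +kernel
noncomputable def rx15204 : iz (BT.all2 (xchk xE) g15204 x15204) = true := by decide +kernel
noncomputable def rx15210 : iz (BT.all2 (xchk xE) g15210 x15210) = true := by decide +kernel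
noncomputable def rx15217 : iz (BT.all2 (xchk xE) g15217 x15217) = true := by decide +kernel
noncomputable def rx15224 : iz (BT.all2 (xchk xE) g15224 x15224) = true := by decide +kernel
noncomputable def rx15230 : iz (BT.all2 (xchk xE) g15230 x15230) = true := by decide +kernel
noncomputable def rx15236 : iz (BT.all2 (xchk xE) g15236 x15236) = true := by decide +kernel
noncomputable def rx15244 : iz (BT.all2 (xchk xE) g15244 x15244) = true := by decide +kernel
noncomputable def rx15248 : iz (BT.all2 (xchk xE) g15248 x15248) = true := by decide +kernel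
noncomputable def rx15254 : iz (BT.all2 (xchk xE) g15254 x15254) = true := by decide +kernel
noncomputable def rx15260 : iz (BT.all2 (xchk xE) g15260 x15260) = true := by decide +kernel
noncomputable def rx15270 : iz (BT.all2 (xchk xE) g15270 x15270) = true := by decide +kernel
noncomputable def rx15276 : iz (BT.all2 (xchk xE) g15276 x15276) = true := by decide +kernel
noncomputable def rx15282 : iz (BT.all2 (xchk xE) g15282 x15282) = true := by decide +kernel
noncomputable def rx15287 : iz (BT.all2 (xchk xE) g15287 x15287) = true := by decide +kernel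
noncomputable def rx15293 : iz (BT.all2 (xchk xE) g15293 x15293) = true := by decide +kernel
noncomputable def rx15302 : iz (BT.all2 (xchk xE) g15302 x15302) = true := by decide +kernel
noncomputable def rx15311 : iz (BT.all2 (xchk xE) g15311 x15311) = true := by decide +kernel
noncomputable def rx15317 : iz (BT.all2 (xchk xE) g15317 x15317) = true := by decide +kernel
noncomputable def rx15326 : iz (BT.all2 (xchk xE) g15326 x15326) = true := by decide +kernel
noncomputable def rx15332 : iz (BT.all2 (xchk xE) g15332 x15332) = true := by decide +kernel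
noncomputable def rx15343 : iz (BT.all2 (xchk xE) g15343 x15343) = true := by decide +kernel
noncomputable def rx15351 : iz (BT.all2 (xchk xE) g15351 x15351) = true := by decide +kernel
noncomputable def rx15359 : iz (BT.all2 (xchk xE) g15359 x15359) = true := by decide +kernel
noncomputable def rx15367 : iz (BT.all2 (xchk xE) g15367 x15367) = true := by decide +kernel
noncomputable def rx15373 : iz (BT.all2 (xchk xE) g15373 x15373) = true := by decide +kernel
noncomputable def rx15382 : iz (BT.all2 (xchk xE) g15382 x15382) = true := by decide +kernel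
noncomputable def rx15388 : iz (BT.all2 (xchk xE) g15388 x15388) = true := by decide +kernel
noncomputable def rx15396 : iz (BT.all2 (xchk xE) g15396 x15396) = true := by decide +kernel
noncomputable def rx15403 : iz (BT.all2 (xchk xE) g15403 x15403) = true := by decide +kernel
noncomputable def rx15413 : iz (BT.all2 (xchk xE) g15413 x15413) = true := by decide +kernel
noncomputable def rx15419 : iz (BT.all2 (xchk xE) g15419 x15419) = true := by decide +kernel
noncomputable def rx15426 : iz (BT.all2 (xchk xE) g15426 x15426) = true := by decide +kernel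
noncomputable def rx15432 : iz (BT.all2 (xchk xE) g15432 x15432) = true := by decide +kernel
noncomputable def rx15441 : iz (BT.all2 (xchk xE) g15441 x15441) = true := by decide +kernel
noncomputable def rx15449 : iz (BT.all2 (xchk xE) g15449 x15449) = true := by decide +kernel
noncomputable def rx15459 : iz (BT.all2 (xchk xE) g15459 x15459) = true := by decide +kernel
noncomputable def rx15465 : iz (BT.all2 (xchk xE) g15465 x15465) = true := by decide +kernel
noncomputable def rx15467 : iz (BT.all2 (xchk xE) g15467 x15467) = true := by decide +kernel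
noncomputable def rx15474 : iz (BT.all2 (xchk xE) g15474 x15474) = true := by decide +kernel
noncomputable def rx15479 : iz (BT.all2 (xchk xE) g15479 x15479) = true := by decide +kernel
noncomputable def rx15484 : iz (BT.all2 (xchk xE) g15484 x15484) = true := by decide +kernel
noncomputable def rx15490 : iz (BT.all2 (xchk xE) g15490 x15490) = true := by decide +kernel
noncomputable def rx15494 : iz (BT.all2 (xchk xE) g15494 x15494) = true := by decide +kernel
noncomputable def rx15498 : iz (BT.all2 (xchk xE) g15498 x15498) = true := by decide +kernel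
noncomputable def rx15504 : iz (BT.all2 (xchk xE) g15504 x15504) = true := by decide +kernel
noncomputable def rx15513 : iz (BT.all2 (xchk xE) g15513 x15513) = true := by decide +kernel
noncomputable def rx15519 : iz (BT.all2 (xchk xE) g15519 x15519) = true := by decide +kernel
noncomputable def rx15525 : iz (BT.all2 (xchk xE) g15525 x15525) = true := by decide +kernel
noncomputable def rx15531 : iz (BT.all2 (xchk xE) g15531 x15531) = true := by decide +kernel
noncomputable def rx15537 : iz (BT.all2 (xchk xE) g15537 x15537) = true := by decide +kernel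
noncomputable def rx15544 : iz (BT.all2 (xchk xE) g15544 x15544) = true := by decide +kernel
noncomputable def rx15553 : iz (BT.all2 (xchk xE) g15553 x15553) = true := by decide +kernel
noncomputable def rx15559 : iz (BT.all2 (xchk xE) g15559 x15559) = true := by decide +kernel
noncomputable def rx15562 : iz (BT.all2 (xchk xE) g15562 x15562) = true := by decide +kernel
noncomputable def rx15566 : iz (BT.all2 (xchk xE) g15566 x15566) = true := by decide +kernel
noncomputable def rx15575 : iz (BT.all2 (xchk xE) g15575 x15575) = true := by decide +kernel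
noncomputable def rx15585 : iz (BT.all2 (xchk xE) g15585 x15585) = true := by decide +kernel
noncomputable def rx15593 : iz (BT.all2 (xchk xE) g15593 x15593) = true := by decide +kernel
noncomputable def rx15596 : iz (BT.all2 (xchk xE) g15596 x15596) = true := by decide +kernel
noncomputable def rx15602 : iz (BT.all2 (xchk xE) g15602 x15602) = true := by decide +kernel
noncomputable def rx15610 : iz (BT.all2 (xchk xE) g15610 x15610) = true := by decide +kernel
noncomputable def rx15619 : iz (BT.all2 (xchk xE) g15619 x15619) = true := by decide +kernel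
noncomputable def rx15625 : iz (BT.all2 (xchk xE) g15625 x15625) = true := by decide +kernel
noncomputable def rx15631 : iz (BT.all2 (xchk xE) g15631 x15631) = true := by decide +kernel
noncomputable def rx15641 : iz (BT.all2 (xchk xE) g15641 x15641) = true := by decide +kernel
noncomputable def rx15647 : iz (BT.all2 (xchk xE) g15647 x15647) = true := by decide +kernel
noncomputable def rx15652 : iz (BT.all2 (xchk xE) g15652 x15652) = true := by decide +kernel
noncomputable def rx15660 : iz (BT.all2 (xchk xE) g15660 x15660) = true := by decide +kernel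
noncomputable def rx15670 : iz (BT.all2 (xchk xE) g15670 x15670) = true := by decide +kernel
noncomputable def rx15679 : iz (BT.all2 (xchk xE) g15679 x15679) = true := by decide +kernel
noncomputable def rx15686 : iz (BT.all2 (xchk xE) g15686 x15686) = true := by decide +kernel
noncomputable def rx15688 : iz (BT.all2 (xchk xE) g15688 x15688) = true := by decide +kernel
noncomputable def rx15698 : iz (BT.all2 (xchk xE) g15698 x15698) = true := by decide +kernel
noncomputable def rx15706 : iz (BT.all2 (xchk xE) g15706 x15706) = true := by decide +kernel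
noncomputable def rx15712 : iz (BT.all2 (xchk xE) g15712 x15712) = true := by decide +kernel
noncomputable def rx15721 : iz (BT.all2 (xchk xE) g15721 x15721) = true := by decide +kernel
noncomputable def rx15728 : iz (BT.all2 (xchk xE) g15728 x15728) = true := by decide +kernel
noncomputable def rx15734 : iz (BT.all2 (xchk xE) g15734 x15734) = true := by decide +kernel
noncomputable def rx15740 : iz (BT.all2 (xchk xE) g15740 x15740) = true := by decide +kernel
noncomputable def rx15744 : iz (BT.all2 (xchk xE) g15744 x15744) = true := by decide +kernel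
noncomputable def rx15748 : iz (BT.all2 (xchk xE) g15748 x15748) = true := by decide +kernel
noncomputable def rx15757 : iz (BT.all2 (xchk xE) g15757 x15757) = true := by decide +kernel
noncomputable def rx15766 : iz (BT.all2 (xchk xE) g15766 x15766) = true := by decide +kernel
noncomputable def rx15774 : iz (BT.all2 (xchk xE) g15774 x15774) = true := by decide +kernel
noncomputable def rx15780 : iz (BT.all2 (xchk xE) g15780 x15780) = true := by decide +kernel
noncomputable def rx15785 : iz (BT.all2 (xchk xE) g15785 x15785) = true := by decide +kernel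
noncomputable def rx15791 : iz (BT.all2 (xchk xE) g15791 x15791) = true := by decide +kernel
noncomputable def rx15796 : iz (BT.all2 (xchk xE) g15796 x15796) = true := by decide +kernel
noncomputable def rx15799 : iz (BT.all2 (xchk xE) g15799 x15799) = true := by decide +kernel
noncomputable def rx15806 : iz (BT.all2 (xchk xE) g15806 x15806) = true := by decide +kernel
noncomputable def rx15813 : iz (BT.all2 (xchk xE) g15813 x15813) = true := by decide +kernel
noncomputable def rx15819 : iz (BT.all2 (xchk xE) g15819 x15819) = true := by decide +kernel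
noncomputable def rx15822 : iz (BT.all2 (xchk xE) g15822 x15822) = true := by decide +kernel
noncomputable def rx15828 : iz (BT.all2 (xchk xE) g15828 x15828) = true := by decide +kernel
noncomputable def rX10 : OK2 (xchk xE) tG10 tX10 := (ok2_nd (nat_lit 15210) (ok2_nd (nat_lit 14899) (ok2_nd (nat_lit 14737) (ok2_nd (nat_lit 14660) (ok2_nd (nat_lit 14620) (ok2_nd (nat_lit 14600) (ok2_nd (nat_lit 14595) (ok2_of rx14590) (ok2_of rx14595)) (ok2_nd (nat_lit 14605) (ok2_of rx14600) (ok2_nd (nat_lit 14614) (ok2_of rx14605) (ok2_of rx14614)))) (ok2_nd (nat_lit 14637) (ok2_nd (nat_lit 14626) (ok2_of rx14620) (ok2_nd (nat_lit 14632) (ok2_of rx14626) (ok2_of rx14632))) (ok2_nd (nat_lit 14645) (ok2_of rx14637) (ok2_nd (nat_lit 14653) (ok2_of rx14645) (ok2_of rx14653))))) (ok2_nd (nat_lit 14694) (ok2_nd (nat_lit 14676) (ok2_nd (nat_lit 14665) (ok2_of rx14660) (ok2_nd (nat_lit 14670) (ok2_of rx14665) (ok2_of rx14670))) (ok2_nd (nat_lit 14683) (ok2_of rx14676) (ok2_nd (nat_lit 14689) (ok2_of rx14683) (ok2_of rx14689)))) (ok2_nd (nat_lit 14713) (ok2_nd (nat_lit 14699) (ok2_of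 rx14694) (ok2_nd (nat_lit 14704) (ok2_of rx14699) (ok2_of rx14704))) (ok2_nd (nat_lit 14722) (ok2_of rx14713) (ok2_nd (nat_lit 14728) (ok2_of rx14722) (ok2_of rx14728)))))) (ok2_nd (nat_lit 14831) (ok2_nd (nat_lit 14781) (ok2_nd (nat_lit 14753) (ok2_nd (nat_lit 14747) (ok2_of rx14737) (ok2_of rx14747)) (ok2_nd (nat_lit 14763) (ok2_of rx14753) (ok2_nd (nat_lit 14773) (ok2_of rx14763) (ok2_of rx14773)))) (ok2_nd (nat_lit 14814) (ok2_nd (nat_lit 14793) (ok2_of rx14781) (ok2_nd (nat_lit 14805) (ok2_of rx14793) (ok2_of rx14805))) (ok2_nd (nat_lit 14820) (ok2_of rx14814) (ok2_nd (nat_lit 14825) (ok2_of rx14820) (ok2_of rx14825))))) (ok2_nd (nat_lit 14865) (ok2_nd (nat_lit 14850) (ok2_nd (nat_lit 14838) (ok2_of rx14831) (ok2_nd (nat_lit 14844) (ok2_of rx14838) (ok2_of rx14844))) (ok2_nd (nat_lit 14856) (ok2_of rx14850) (ok2_nd (nat_lit 14859) (ok2_of rx14856) (ok2_of rx14859)))) (ok2_nd (nat_lit 14881) (ok2_nd (nat_lit 14871) (ok2_of rx14865) (ok2_nd (nat_lit 14879) (ok2_of rx14871) (ok2_of rx14879))) (ok2_nd (nat_lit 14887) (ok2_of rx14881) (ok2_nd (nat_lit 14893)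 (ok2_of rx14887) (ok2_of rx14893))))))) (ok2_nd (nat_lit 15053) (ok2_nd (nat_lit 14965) (ok2_nd (nat_lit 14931) (ok2_nd (nat_lit 14911) (ok2_nd (nat_lit 14905) (ok2_of rx14899) (ok2_of rx14905)) (ok2_nd (nat_lit 14917) (ok2_of rx14911) (ok2_nd (nat_lit 14925) (ok2_of rx14917) (ok2_of rx14925)))) (ok2_nd (nat_lit 14947) (ok2_nd (nat_lit 14933) (ok2_of rx14931) (ok2_nd (nat_lit 14941) (ok2_of rx14933) (ok2_of rx14941))) (ok2_nd (nat_lit 14953) (ok2_of rx14947) (ok2_nd (nat_lit 14957) (ok2_of rx14953) (ok2_of rx14957))))) (ok2_nd (nat_lit 15008) (ok2_nd (nat_lit 14986) (ok2_nd (nat_lit 14971) (ok2_of rx14965) (ok2_nd (nat_lit 14979) (ok2_of rx14971) (ok2_of rx14979))) (ok2_nd (nat_lit 14992) (ok2_of rx14986) (ok2_nd (nat_lit 15000) (ok2_of rx14992) (ok2_of rx15000)))) (ok2_nd (nat_lit 15031) (ok2_nd (nat_lit 15017) (ok2_of rx15008) (ok2_nd (nat_lit 15024) (ok2_of rx15017) (ok2_of rx15024))) (ok2_nd (nat_lit 15037) (ok2_of rx15031) (ok2_nd (nat_lit 15043) (ok2_of rx15037) (ok2_of rx15043)))))) (ok2_nd (nat_lit 15123) (ok2_nd (nat_lit 15085) (ok2_nd (nat_lit 15066)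 (ok2_nd (nat_lit 15061) (ok2_of rx15053) (ok2_of rx15061)) (ok2_nd (nat_lit 15073) (ok2_of rx15066) (ok2_nd (nat_lit 15079) (ok2_of rx15073) (ok2_of rx15079)))) (ok2_nd (nat_lit 15103) (ok2_nd (nat_lit 15089) (ok2_of rx15085) (ok2_nd (nat_lit 15094) (ok2_of rx15089) (ok2_of rx15094))) (ok2_nd (nat_lit 15112) (ok2_of rx15103) (ok2_nd (nat_lit 15117) (ok2_of rx15112) (ok2_of rx15117))))) (ok2_nd (nat_lit 15164) (ok2_nd (nat_lit 15143) (ok2_nd (nat_lit 15129) (ok2_of rx15123) (ok2_nd (nat_lit 15135) (ok2_of rx15129) (ok2_of rx15135))) (ok2_nd (nat_lit 15153) (ok2_of rx15143) (ok2_nd (nat_lit 15157) (ok2_of rx15153) (ok2_of rx15157)))) (ok2_nd (nat_lit 15186) (ok2_nd (nat_lit 15171) (ok2_of rx15164) (ok2_nd (nat_lit 15177) (ok2_of rx15171) (ok2_of rx15177))) (ok2_nd (nat_lit 15195) (ok2_of rx15186) (ok2_nd (nat_lit 15204) (ok2_of rx15195) (ok2_of rx15204)))))))) (ok2_nd (nat_lit 15525) (ok2_nd (nat_lit 15373) (ok2_nd (nat_lit 15282) (ok2_nd (nat_lit 15244) (ok2_nd (nat_lit 15224) (ok2_nd (nat_lit 15217) (ok2_of rx15210) (ok2_of rx15217)) (ok2_nd (nat_lit 15230)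 (ok2_of rx15224) (ok2_nd (nat_lit 15236) (ok2_of rx15230) (ok2_of rx15236)))) (ok2_nd (nat_lit 15260) (ok2_nd (nat_lit 15248) (ok2_of rx15244) (ok2_nd (nat_lit 15254) (ok2_of rx15248) (ok2_of rx15254))) (ok2_nd (nat_lit 15270) (ok2_of rx15260) (ok2_nd (nat_lit 15276) (ok2_of rx15270) (ok2_of rx15276))))) (ok2_nd (nat_lit 15326) (ok2_nd (nat_lit 15302) (ok2_nd (nat_lit 15287) (ok2_of rx15282) (ok2_nd (nat_lit 15293) (ok2_of rx15287) (ok2_of rx15293))) (ok2_nd (nat_lit 15311) (ok2_of rx15302) (ok2_nd (nat_lit 15317) (ok2_of rx15311) (ok2_of rx15317)))) (ok2_nd (nat_lit 15351) (ok2_nd (nat_lit 15332) (ok2_of rx15326) (ok2_nd (nat_lit 15343) (ok2_of rx15332) (ok2_of rx15343))) (ok2_nd (nat_lit 15359) (ok2_of rx15351) (ok2_nd (nat_lit 15367) (ok2_of rx15359) (ok2_of rx15367)))))) (ok2_nd (nat_lit 15459) (ok2_nd (nat_lit 15413) (ok2_nd (nat_lit 15388) (ok2_nd (nat_lit 15382) (ok2_of rx15373) (ok2_of rx15382)) (ok2_nd (nat_lit 15396) (ok2_of rx15388) (ok2_nd (nat_lit 15403) (ok2_of rx15396) (ok2_of rx15403)))) (ok2_nd (nat_lit 15432) (ok2_nd (nat_lit 15419) (ok2_of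 rx15413) (ok2_nd (nat_lit 15426) (ok2_of rx15419) (ok2_of rx15426))) (ok2_nd (nat_lit 15441) (ok2_of rx15432) (ok2_nd (nat_lit 15449) (ok2_of rx15441) (ok2_of rx15449))))) (ok2_nd (nat_lit 15490) (ok2_nd (nat_lit 15474) (ok2_nd (nat_lit 15465) (ok2_of rx15459) (ok2_nd (nat_lit 15467) (ok2_of rx15465) (ok2_of rx15467))) (ok2_nd (nat_lit 15479) (ok2_of rx15474) (ok2_nd (nat_lit 15484) (ok2_of rx15479) (ok2_of rx15484)))) (ok2_nd (nat_lit 15504) (ok2_nd (nat_lit 15494) (ok2_of rx15490) (ok2_nd (nat_lit 15498) (ok2_of rx15494) (ok2_of rx15498))) (ok2_nd (nat_lit 15513) (ok2_of rx15504) (ok2_nd (nat_lit 15519) (ok2_of rx15513) (ok2_of rx15519))))))) (ok2_nd (nat_lit 15686) (ok2_nd (nat_lit 15596) (ok2_nd (nat_lit 15559) (ok2_nd (nat_lit 15537) (ok2_nd (nat_lit 15531) (ok2_of rx15525) (ok2_of rx15531)) (ok2_nd (nat_lit 15544) (ok2_of rx15537) (ok2_nd (nat_lit 15553) (ok2_of rx15544) (ok2_of rx15553)))) (ok2_nd (nat_lit 15575) (ok2_nd (nat_lit 15562) (ok2_of rx15559) (ok2_nd (nat_lit 15566) (ok2_of rx15562) (ok2_of rx15566))) (ok2_nd (nat_lit 15585) (ok2_of rx15575)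 (ok2_nd (nat_lit 15593) (ok2_of rx15585) (ok2_of rx15593))))) (ok2_nd (nat_lit 15641) (ok2_nd (nat_lit 15619) (ok2_nd (nat_lit 15602) (ok2_of rx15596) (ok2_nd (nat_lit 15610) (ok2_of rx15602) (ok2_of rx15610))) (ok2_nd (nat_lit 15625) (ok2_of rx15619) (ok2_nd (nat_lit 15631) (ok2_of rx15625) (ok2_of rx15631)))) (ok2_nd (nat_lit 15660) (ok2_nd (nat_lit 15647) (ok2_of rx15641) (ok2_nd (nat_lit 15652) (ok2_of rx15647) (ok2_of rx15652))) (ok2_nd (nat_lit 15670) (ok2_of rx15660) (ok2_nd (nat_lit 15679) (ok2_of rx15670) (ok2_of rx15679)))))) (ok2_nd (nat_lit 15766) (ok2_nd (nat_lit 15728) (ok2_nd (nat_lit 15706) (ok2_nd (nat_lit 15688) (ok2_of rx15686) (ok2_nd (nat_lit 15698) (ok2_of rx15688) (ok2_of rx15698))) (ok2_nd (nat_lit 15712) (ok2_of rx15706) (ok2_nd (nat_lit 15721) (ok2_of rx15712) (ok2_of rx15721)))) (ok2_nd (nat_lit 15744) (ok2_nd (nat_lit 15734) (ok2_of rx15728) (ok2_nd (nat_lit 15740) (ok2_of rx15734) (ok2_of rx15740))) (ok2_nd (nat_lit 15748) (ok2_of rx15744) (ok2_nd (nat_lit 15757) (ok2_of rx15748) (ok2_of rx15757))))) (ok2_nd (nat_lit 15799) (ok2_nd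 (nat_lit 15785) (ok2_nd (nat_lit 15774) (ok2_of rx15766) (ok2_nd (nat_lit 15780) (ok2_of rx15774) (ok2_of rx15780))) (ok2_nd (nat_lit 15791) (ok2_of rx15785) (ok2_nd (nat_lit 15796) (ok2_of rx15791) (ok2_of rx15796)))) (ok2_nd (nat_lit 15819) (ok2_nd (nat_lit 15806) (ok2_of rx15799) (ok2_nd (nat_lit 15813) (ok2_of rx15806) (ok2_of rx15813))) (ok2_nd (nat_lit 15822) (ok2_of rx15819) (ok2_nd (nat_lit 15828) (ok2_of rx15822) (ok2_of rx15828)))))))))

end Pool.Agent.MP_797bdc_co.Lk.Da
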