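import Pool.Agent.MP_797bdc_co.Lk.XA
import Pool.Agent.MP_797bdc_co.Lk.DE
import Pool.Agent.MP_797bdc_co.Lk.DG11
import Pool.Agent.MP_797bdc_co.Lk.DX11

/-! Run of checker X. -/

set_option maxRecDepth 100000
set_option linter.defProp false

namespace Pool.Agent.MP_797bdc_co.Lk.Da

noncomputable def rx15834 : iz (BT.all2 (xchk xE) g15834 x15834) = true := by decide +kernel
noncomputable def rx15843 : iz (BT.all2 (xchk xE) g15843 x15843) = true := by decide +kernel
noncomputable def rx15851 : iz (BT.all2 (xchk xE) g15851 x15851) = true := by decide +kernel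
noncomputable def rx15861 : iz (BT.all2 (xchk xE) g15861 x15861) = true := by decide +kernel
noncomputable def rx15870 : iz (BT.all2 (xchk xE) g15870 x15870) = true := by decide +kernel
noncomputable def rx15876 : iz (BT.all2 (xchk xE) g15876 x15876) = true := by decide +kernel
noncomputable def rx15880 : iz (BT.all2 (xchk xE) g15880 x15880) = true := by decide +kernel
noncomputable def rx15885 : iz (BT.all2 (xchk xE) g15885 x15885) = true := by decide +kernel
noncomputable def rx15893 : iz (BT.all2 (xchk xE) g15893 x15893) = true := by decide +kernel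
noncomputable def rx15901 : iz (BT.all2 (xchk xE) g15901 x15901) = true := by decide +kernel
noncomputable def rx15908 : iz (BT.all2 (xchk xE) g15908 x15908) = true := by decide +kernel
noncomputable def rx15911 : iz (BT.all2 (xchk xE) g15911 x15911) = true := by decide +kernel
noncomputable def rx15917 : iz (BT.all2 (xchk xE) g15917 x15917) = true := by decide +kernel
noncomputable def rx15923 : iz (BT.all2 (xchk xE) g15923 x15923) = true := by decide +kernel
noncomputable def rx15927 : iz (BT.all2 (xchk xE) g15927 x15927) = true := by decide +kernel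
noncomputable def rx15933 : iz (BT.all2 (xchk xE) g15933 x15933) = true := by decide +kernel
noncomputable def rx15942 : iz (BT.all2 (xchk xE) g15942 x15942) = true := by decide +kernel
noncomputable def rx15950 : iz (BT.all2 (xchk xE) g15950 x15950) = true := by decide +kernel
noncomputable def rx15959 : iz (BT.all2 (xchk xE) g15959 x15959) = true := by decide +kernel
noncomputable def rx15964 : iz (BT.all2 (xchk xE) g15964 x15964) = true := by decide +kernel
noncomputable def rx15971 : iz (BT.all2 (xchk xE) g15971 x15971) = true := by decide +kernel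
noncomputable def rx15977 : iz (BT.all2 (xchk xE) g15977 x15977) = true := by decide +kernel
noncomputable def rx15980 : iz (BT.all2 (xchk xE) g15980 x15980) = true := by decide +kernel
noncomputable def rx15983 : iz (BT.all2 (xchk xE) g15983 x15983) = true := by decide +kernel
noncomputable def rx15989 : iz (BT.all2 (xchk xE) g15989 x15989) = true := by decide +kernel
noncomputable def rx15995 : iz (BT.all2 (xchk xE) g15995 x15995) = true := by decide +kernel
noncomputable def rx16002 : iz (BT.all2 (xchk xE) g16002 x16002) = true := by decide +kernel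
noncomputable def rx16008 : iz (BT.all2 (xchk xE) g16008 x16008) = true := by decide +kernel
noncomputable def rx16014 : iz (BT.all2 (xchk xE) g16014 x16014) = true := by decide +kernel
noncomputable def rx16019 : iz (BT.all2 (xchk xE) g16019 x16019) = true := by decide +kernel
noncomputable def rx16023 : iz (BT.all2 (xchk xE) g16023 x16023) = true := by decide +kernel
noncomputable def rx16026 : iz (BT.all2 (xchk xE) g16026 x16026) = true := by decide +kernel
noncomputable def rx16032 : iz (BT.all2 (xchk xE) g16032 x16032) = true := by decide +kernel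
noncomputable def rx16037 : iz (BT.all2 (xchk xE) g16037 x16037) = true := by decide +kernel
noncomputable def rx16043 : iz (BT.all2 (xchk xE) g16043 x16043) = true := by decide +kernel
noncomputable def rx16052 : iz (BT.all2 (xchk xE) g16052 x16052) = true := by decide +kernel
noncomputable def rx16060 : iz (BT.all2 (xchk xE) g16060 x16060) = true := by decide +kernel
noncomputable def rx16069 : iz (BT.all2 (xchk xE) g16069 x16069) = true := by decide +kernel
noncomputable def rx16075 : iz (BT.all2 (xchk xE) g16075 x16075) = true := by decide +kernel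
noncomputable def rx16079 : iz (BT.all2 (xchk xE) g16079 x16079) = true := by decide +kernel
noncomputable def rx16082 : iz (BT.all2 (xchk xE) g16082 x16082) = true := by decide +kernel
noncomputable def rx16088 : iz (BT.all2 (xchk xE) g16088 x16088) = true := by decide +kernel
noncomputable def rx16091 : iz (BT.all2 (xchk xE) g16091 x16091) = true := by decide +kernel
noncomputable def rx16097 : iz (BT.all2 (xchk xE) g16097 x16097) = true := by decide +kernel
noncomputable def rx16102 : iz (BT.all2 (xchk xE) g16102 x16102) = true := by decide +kernel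
noncomputable def rx16108 : iz (BT.all2 (xchk xE) g16108 x16108) = true := by decide +kernel
noncomputable def rx16114 : iz (BT.all2 (xchk xE) g16114 x16114) = true := by decide +kernel
noncomputable def rx16120 : iz (BT.all2 (xchk xE) g16120 x16120) = true := by decide +kernel
noncomputable def rx16128 : iz (BT.all2 (xchk xE) g16128 x16128) = true := by decide +kernel
noncomputable def rx16134 : iz (BT.all2 (xchk xE) g16134 x16134) = true := by decide +kernel
noncomputable def rx16140 : iz (BT.all2 (xchk xE) g16140 x16140) = true := by decide +kernel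
noncomputable def rx16146 : iz (BT.all2 (xchk xE) g16146 x16146) = true := by decide +kernel
noncomputable def rx16151 : iz (BT.all2 (xchk xE) g16151 x16151) = true := by decide +kernel
noncomputable def rx16156 : iz (BT.all2 (xchk xE) g16156 x16156) = true := by decide +kernel
noncomputable def rx16159 : iz (BT.all2 (xchk xE) g16159 x16159) = true := by decide +kernel
noncomputable def rx16164 : iz (BT.all2 (xchk xE) g16164 x16164) = true := by decide +kernel
noncomputable def rx16168 : iz (BT.all2 (xchk xE) g16168 x16168) = true := by decide +kernel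
noncomputable def rx16177 : iz (BT.all2 (xchk xE) g16177 x16177) = true := by decide +kernel
noncomputable def rx16183 : iz (BT.all2 (xchk xE) g16183 x16183) = true := by decide +kernel
noncomputable def rx16187 : iz (BT.all2 (xchk xE) g16187 x16187) = true := by decide +kernel
noncomputable def rx16200 : iz (BT.all2 (xchk xE) g16200 x16200) = true := by decide +kernel
noncomputable def rx16211 : iz (BT.all2 (xchk xE) g16211 x16211) = true := by decide +kernel
noncomputable def rx16220 : iz (BT.all2 (xchk xE) g16220 x16220) = true := by decide +kernel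
noncomputable def rx16231 : iz (BT.all2 (xchk xE) g16231 x16231) = true := by decide +kernel
noncomputable def rx16237 : iz (BT.all2 (xchk xE) g16237 x16237) = true := by decide +kernel
noncomputable def rx16246 : iz (BT.all2 (xchk xE) g16246 x16246) = true := by decide +kernel
noncomputable def rx16252 : iz (BT.all2 (xchk xE) g16252 x16252) = true := by decide +kernel
noncomputable def rx16258 : iz (BT.all2 (xchk xE) g16258 x16258) = true := by decide +kernel
noncomputable def rx16270 : iz (BT.all2 (xchk xE) g16270 x16270) = true := by decide +kernel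
noncomputable def rx16277 : iz (BT.all2 (xchk xE) g16277 x16277) = true := by decide +kernel
noncomputable def rx16283 : iz (BT.all2 (xchk xE) g16283 x16283) = true := by decide +kernel
noncomputable def rx16291 : iz (BT.all2 (xchk xE) g16291 x16291) = true := by decide +kernel
noncomputable def rx16297 : iz (BT.all2 (xchk xE) g16297 x16297) = true := by decide +kernel
noncomputable def rx16303 : iz (BT.all2 (xchk xE) g16303 x16303) = true := by decide +kernel
noncomputable def rx16312 : iz (BT.all2 (xchk xE) g16312 x16312) = true := by decide +kernel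
noncomputable def rx16316 : iz (BT.all2 (xchk xE) g16316 x16316) = true := by decide +kernel
noncomputable def rx16327 : iz (BT.all2 (xchk xE) g16327 x16327) = true := by decide +kernel
noncomputable def rx16333 : iz (BT.all2 (xchk xE) g16333 x16333) = true := by decide +kernel
noncomputable def rx16339 : iz (BT.all2 (xchk xE) g16339 x16339) = true := by decide +kernel
noncomputable def rx16344 : iz (BT.all2 (xchk xE) g16344 x16344) = true := by decide +kernel
noncomputable def rx16352 : iz (BT.all2 (xchk xE) g16352 x16352) = true := by decide +kernel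
noncomputable def rx16358 : iz (BT.all2 (xchk xE) g16358 x16358) = true := by decide +kernel
noncomputable def rx16364 : iz (BT.all2 (xchk xE) g16364 x16364) = true := by decide +kernel
noncomputable def rx16374 : iz (BT.all2 (xchk xE) g16374 x16374) = true := by decide +kernel
noncomputable def rx16382 : iz (BT.all2 (xchk xE) g16382 x16382) = true := by decide +kernel
noncomputable def rx16388 : iz (BT.all2 (xchk xE) g16388 x16388) = true := by decide +kernel
noncomputable def rx16393 : iz (BT.all2 (xchk xE) g16393 x16393) = true := by decide +kernel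
noncomputable def rx16399 : iz (BT.all2 (xchk xE) g16399 x16399) = true := by decide +kernel
noncomputable def rx16407 : iz (BT.all2 (xchk xE) g16407 x16407) = true := by decide +kernel
noncomputable def rx16411 : iz (BT.all2 (xchk xE) g16411 x16411) = true := by decide +kernel
noncomputable def rx16416 : iz (BT.all2 (xchk xE) g16416 x16416) = true := by decide +kernel
noncomputable def rx16422 : iz (BT.all2 (xchk xE) g16422 x16422) = true := by decide +kernel
noncomputable def rx16428 : iz (BT.all2 (xchk xE) g16428 x16428) = true := by decide +kernel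
noncomputable def rx16434 : iz (BT.all2 (xchk xE) g16434 x16434) = true := by decide +kernel
noncomputable def rx16443 : iz (BT.all2 (xchk xE) g16443 x16443) = true := by decide +kernel
noncomputable def rx16449 : iz (BT.all2 (xchk xE) g16449 x16449) = true := by decide +kernel
noncomputable def rx16459 : iz (BT.all2 (xchk xE) g16459 x16459) = true := by decide +kernel
noncomputable def rx16462 : iz (BT.all2 (xchk xE) g16462 x16462) = true := by decide +kernel
noncomputable def rx16472 : iz (BT.all2 (xchk xE) g16472 x16472) = true := by decide +kernel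
noncomputable def rx16480 : iz (BT.all2 (xchk xE) g16480 x16480) = true := by decide +kernel
noncomputable def rx16481 : iz (BT.all2 (xchk xE) g16481 x16481) = true := by decide +kernel
noncomputable def rx16490 : iz (BT.all2 (xchk xE) g16490 x16490) = true := by decide +kernel
noncomputable def rx16498 : iz (BT.all2 (xchk xE) g16498 x16498) = true := by decide +kernel
noncomputable def rx16504 : iz (BT.all2 (xchk xE) g16504 x16504) = true := by decide +kernel
noncomputable def rx16510 : iz (BT.all2 (xchk xE) g16510 x16510) = true := by decide +kernel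
noncomputable def rx16516 : iz (BT.all2 (xchk xE) g16516 x16516) = true := by decide +kernel
noncomputable def rx16522 : iz (BT.all2 (xchk xE) g16522 x16522) = true := by decide +kernel
noncomputable def rx16533 : iz (BT.all2 (xchk xE) g16533 x16533) = true := by decide +kernel
noncomputable def rx16536 : iz (BT.all2 (xchk xE) g16536 x16536) = true := by decide +kernel
noncomputable def rx16544 : iz (BT.all2 (xchk xE) g16544 x16544) = true := by decide +kernel
noncomputable def rx16550 : iz (BT.all2 (xchk xE) g16550 x16550) = true := by decide +kernel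
noncomputable def rx16555 : iz (BT.all2 (xchk xE) g16555 x16555) = true := by decide +kernel
noncomputable def rx16561 : iz (BT.all2 (xchk xE) g16561 x16561) = true := by decide +kernel
noncomputable def rx16570 : iz (BT.all2 (xchk xE) g16570 x16570) = true := by decide +kernel
noncomputable def rx16576 : iz (BT.all2 (xchk xE) g16576 x16576) = true := by decide +kernel
noncomputable def rx16581 : iz (BT.all2 (xchk xE) g16581 x16581) = true := by decide +kernel
noncomputable def rx16586 : iz (BT.all2 (xchk xE) g16586 x16586) = true := by decide +kernel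
noncomputable def rx16594 : iz (BT.all2 (xchk xE) g16594 x16594) = true := by decide +kernel
noncomputable def rx16601 : iz (BT.all2 (xchk xE) g16601 x16601) = true := by decide +kernel
noncomputable def rx16607 : iz (BT.all2 (xchk xE) g16607 x16607) = true := by decide +kernel
noncomputable def rx16614 : iz (BT.all2 (xchk xE) g16614 x16614) = true := by decide +kernel
noncomputable def rx16620 : iz (BT.all2 (xchk xE) g16620 x16620) = true := by decide +kernel
noncomputable def rx16626 : iz (BT.all2 (xchk xE) g16626 x16626) = true := by decide +kernel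
noncomputable def rx16631 : iz (BT.all2 (xchk xE) g16631 x16631) = true := by decide +kernel
noncomputable def rx16636 : iz (BT.all2 (xchk xE) g16636 x16636) = true := by decide +kernel
noncomputable def rx16642 : iz (BT.all2 (xchk xE) g16642 x16642) = true := by decide +kernel
noncomputable def rx16652 : iz (BT.all2 (xchk xE) g16652 x16652) = true := by decide +kernel
noncomputable def rx16658 : iz (BT.all2 (xchk xE) g16658 x16658) = true := by decide +kernel
noncomputable def rx16668 : iz (BT.all2 (xchk xE) g16668 x16668) = true := by decide +kernel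
noncomputable def rx16674 : iz (BT.all2 (xchk xE) g16674 x16674) = true := by decide +kernel
noncomputable def rx16680 : iz (BT.all2 (xchk xE) g16680 x16680) = true := by decide +kernel
noncomputable def rx16689 : iz (BT.all2 (xchk xE) g16689 x16689) = true := by decide +kernel
noncomputable def rx16701 : iz (BT.all2 (xchk xE) g16701 x16701) = true := by decide +kernel
noncomputable def rx16703 : iz (BT.all2 (xchk xE) g16703 x16703) = true := by decide +kernel
noncomputable def rx16709 : iz (BT.all2 (xchk xE) g16709 x16709) = true := by decide +kernel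
noncomputable def rx16716 : iz (BT.all2 (xchk xE) g16716 x16716) = true := by decide +kernel
noncomputable def rx16721 : iz (BT.all2 (xchk xE) g16721 x16721) = true := by decide +kernel
noncomputable def rx16727 : iz (BT.all2 (xchk xE) g16727 x16727) = true := by decide +kernel
noncomputable def rx16733 : iz (BT.all2 (xchk xE) g16733 x16733) = true := by decide +kernel
noncomputable def rx16741 : iz (BT.all2 (xchk xE) g16741 x16741) = true := by decide +kernel
noncomputable def rx16748 : iz (BT.all2 (xchk xE) g16748 x16748) = true := by decide +kernel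
noncomputable def rx16754 : iz (BT.all2 (xchk xE) g16754 x16754) = true := by decide +kernel
noncomputable def rx16763 : iz (BT.all2 (xchk xE) g16763 x16763) = true := by decide +kernel
noncomputable def rx16770 : iz (BT.all2 (xchk xE) g16770 x16770) = true := by decide +kernel
noncomputable def rx16777 : iz (BT.all2 (xchk xE) g16777 x16777) = true := by decide +kernel
noncomputable def rx16783 : iz (BT.all2 (xchk xE) g16783 x16783) = true := by decide +kernel
noncomputable def rx16791 : iz (BT.all2 (xchk xE) g16791 x16791) = true := by decide +kernel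
noncomputable def rx16797 : iz (BT.all2 (xchk xE) g16797 x16797) = true := by decide +kernel
noncomputable def rx16803 : iz (BT.all2 (xchk xE) g16803 x16803) = true := by decide +kernel
noncomputable def rx16809 : iz (BT.all2 (xchk xE) g16809 x16809) = true := by decide +kernel
noncomputable def rx16813 : iz (BT.all2 (xchk xE) g16813 x16813) = true := by decide +kernel
noncomputable def rx16818 : iz (BT.all2 (xchk xE) g16818 x16818) = true := by decide +kernel
noncomputable def rx16824 : iz (BT.all2 (xchk xE) g16824 x16824) = true := by decide +kernel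
noncomputable def rx16828 : iz (BT.all2 (xchk xE) g16828 x16828) = true := by decide +kernel
noncomputable def rx16834 : iz (BT.all2 (xchk xE) g16834 x16834) = true := by decide +kernel
noncomputable def rx16840 : iz (BT.all2 (xchk xE) g16840 x16840) = true := by decide +kernel
noncomputable def rx16845 : iz (BT.all2 (xchk xE) g16845 x16845) = true := by decide +kernel
noncomputable def rx16851 : iz (BT.all2 (xchk xE) g16851 x16851) = true := by decide +kernel
noncomputable def rx16860 : iz (BT.all2 (xchk xE) g16860 x16860) = true := by decide +kernel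
noncomputable def rx16866 : iz (BT.all2 (xchk xE) g16866 x16866) = true := by decide +kernel
noncomputable def rx16873 : iz (BT.all2 (xchk xE) g16873 x16873) = true := by decide +kernel
noncomputable def rx16880 : iz (BT.all2 (xchk xE) g16880 x16880) = true := by decide +kernel
noncomputable def rx16888 : iz (BT.all2 (xchk xE) g16888 x16888) = true := by decide +kernel
noncomputable def rx16895 : iz (BT.all2 (xchk xE) g16895 x16895) = true := by decide +kernel
noncomputable def rx16904 : iz (BT.all2 (xchk xE) g16904 x16904) = true := by decide +kernel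
noncomputable def rx16910 : iz (BT.all2 (xchk xE) g16910 x16910) = true := by decide +kernel
noncomputable def rx16919 : iz (BT.all2 (xchk xE) g16919 x16919) = true := by decide +kernel
noncomputable def rx16925 : iz (BT.all2 (xchk xE) g16925 x16925) = true := by decide +kernel
noncomputable def rx16935 : iz (BT.all2 (xchk xE) g16935 x16935) = true := by decide +kernel
noncomputable def rx16941 : iz (BT.all2 (xchk xE) g16941 x16941) = true := by decide +kernel
noncomputable def rx16947 : iz (BT.all2 (xchk xE) g16947 x16947) = true := by decide +kernel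
noncomputable def rx16955 : iz (BT.all2 (xchk xE) g16955 x16955) = true := by decide +kernel
noncomputable def rx16959 : iz (BT.all2 (xchk xE) g16959 x16959) = true := by decide +kernel
noncomputable def rx16964 : iz (BT.all2 (xchk xE) g16964 x16964) = true := by decide +kernel
noncomputable def rx16969 : iz (BT.all2 (xchk xE) g16969 x16969) = true := by decide +kernel
noncomputable def rx16974 : iz (BT.all2 (xchk xE) g16974 x16974) = true := by decide +kernel
noncomputable def rx16982 : iz (BT.all2 (xchk xE) g16982 x16982) = true := by decide +kernel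
noncomputable def rx16986 : iz (BT.all2 (xchk xE) g16986 x16986) = true := by decide +kernel
noncomputable def rx16992 : iz (BT.all2 (xchk xE) g16992 x16992) = true := by decide +kernel
noncomputable def rx16998 : iz (BT.all2 (xchk xE) g16998 x16998) = true := by decide +kernel
noncomputable def rx17003 : iz (BT.all2 (xchk xE) g17003 x17003) = true := by decide +kernel
noncomputable def rx17011 : iz (BT.all2 (xchk xE) g17011 x17011) = true := by decide +kernel
noncomputable def rx17017 : iz (BT.all2 (xchk xE) g17017 x17017) = true := by decide +kernel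
noncomputable def rx17023 : iz (BT.all2 (xchk xE) g17023 x17023) = true := by decide +kernel
noncomputable def rx17032 : iz (BT.all2 (xchk xE) g17032 x17032) = true := by decide +kernel
noncomputable def rX11 : OK2 (xchk xE) tG11 tX11 := (ok2_nd (nat_lit 16428) (ok2_nd (nat_lit 16114) (ok2_nd (nat_lit 15983) (ok2_nd (nat_lit 15911) (ok2_nd (nat_lit 15876) (ok2_nd (nat_lit 15851) (ok2_nd (nat_lit 15843) (ok2_of rx15834) (ok2_of rx15843)) (ok2_nd (nat_lit 15861) (ok2_of rx15851) (ok2_nd (nat_lit 15870) (ok2_of rx15861) (ok2_of rx15870)))) (ok2_nd (nat_lit 15893) (ok2_nd (nat_lit 15880) (ok2_of rx15876) (ok2_nd (nat_lit 15885) (ok2_of rx15880) (ok2_of rx15885))) (ok2_nd (nat_lit 15901) (ok2_of rx15893) (ok2_nd (nat_lit 15908) (ok2_of rx15901) (ok2_of rx15908))))) (ok2_nd (nat_lit 15950) (ok2_nd (nat_lit 15927) (ok2_nd (nat_lit 15917) (ok2_of rx15911) (ok2_nd (nat_lit 15923) (ok2_of rx15917) (ok2_of rx15923))) (ok2_nd (nat_lit 15933) (ok2_of rx15927) (ok2_nd (nat_lit 15942) (ok2_of rx15933) (ok2_of rx15942)))) (ok2_nd (nat_lit 15971) (ok2_nd (nat_lit 15959) (ok2_of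 rx15950) (ok2_nd (nat_lit 15964) (ok2_of rx15959) (ok2_of rx15964))) (ok2_nd (nat_lit 15977) (ok2_of rx15971) (ok2_nd (nat_lit 15980) (ok2_of rx15977) (ok2_of rx15980)))))) (ok2_nd (nat_lit 16043) (ok2_nd (nat_lit 16014) (ok2_nd (nat_lit 15995) (ok2_nd (nat_lit 15989) (ok2_of rx15983) (ok2_of rx15989)) (ok2_nd (nat_lit 16002) (ok2_of rx15995) (ok2_nd (nat_lit 16008) (ok2_of rx16002) (ok2_of rx16008)))) (ok2_nd (nat_lit 16026) (ok2_nd (nat_lit 16019) (ok2_of rx16014) (ok2_nd (nat_lit 16023) (ok2_of rx16019) (ok2_of rx16023))) (ok2_nd (nat_lit 16032) (ok2_of rx16026) (ok2_nd (nat_lit 16037) (ok2_of rx16032) (ok2_of rx16037))))) (ok2_nd (nat_lit 16082) (ok2_nd (nat_lit 16069) (ok2_nd (nat_lit 16052) (ok2_of rx16043) (ok2_nd (nat_lit 16060) (ok2_of rx16052) (ok2_of rx16060))) (ok2_nd (nat_lit 16075) (ok2_of rx16069) (ok2_nd (nat_lit 16079) (ok2_of rx16075) (ok2_of rx16079)))) (ok2_nd (nat_lit 16097) (ok2_nd (nat_lit 16088) (ok2_of rx16082) (ok2_nd (nat_lit 16091) (ok2_of rx16088) (ok2_of rx16091))) (ok2_nd (nat_lit 16102) (ok2_of rx16097) (ok2_nd (nat_lit 16108)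 (ok2_of rx16102) (ok2_of rx16108))))))) (ok2_nd (nat_lit 16277) (ok2_nd (nat_lit 16177) (ok2_nd (nat_lit 16146) (ok2_nd (nat_lit 16128) (ok2_nd (nat_lit 16120) (ok2_of rx16114) (ok2_of rx16120)) (ok2_nd (nat_lit 16134) (ok2_of rx16128) (ok2_nd (nat_lit 16140) (ok2_of rx16134) (ok2_of rx16140)))) (ok2_nd (nat_lit 16159) (ok2_nd (nat_lit 16151) (ok2_of rx16146) (ok2_nd (nat_lit 16156) (ok2_of rx16151) (ok2_of rx16156))) (ok2_nd (nat_lit 16164) (ok2_of rx16159) (ok2_nd (nat_lit 16168) (ok2_of rx16164) (ok2_of rx16168))))) (ok2_nd (nat_lit 16231) (ok2_nd (nat_lit 16200) (ok2_nd (nat_lit 16183) (ok2_of rx16177) (ok2_nd (nat_lit 16187) (ok2_of rx16183) (ok2_of rx16187))) (ok2_nd (nat_lit 16211) (ok2_of rx16200) (ok2_nd (nat_lit 16220) (ok2_of rx16211) (ok2_of rx16220)))) (ok2_nd (nat_lit 16252) (ok2_nd (nat_lit 16237) (ok2_of rx16231) (ok2_nd (nat_lit 16246) (ok2_of rx16237) (ok2_of rx16246))) (ok2_nd (nat_lit 16258) (ok2_of rx16252) (ok2_nd (nat_lit 16270) (ok2_of rx16258) (ok2_of rx16270)))))) (ok2_nd (nat_lit 16352) (ok2_nd (nat_lit 16312) (ok2_nd (nat_lit 16291)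 (ok2_nd (nat_lit 16283) (ok2_of rx16277) (ok2_of rx16283)) (ok2_nd (nat_lit 16297) (ok2_of rx16291) (ok2_nd (nat_lit 16303) (ok2_of rx16297) (ok2_of rx16303)))) (ok2_nd (nat_lit 16333) (ok2_nd (nat_lit 16316) (ok2_of rx16312) (ok2_nd (nat_lit 16327) (ok2_of rx16316) (ok2_of rx16327))) (ok2_nd (nat_lit 16339) (ok2_of rx16333) (ok2_nd (nat_lit 16344) (ok2_of rx16339) (ok2_of rx16344))))) (ok2_nd (nat_lit 16393) (ok2_nd (nat_lit 16374) (ok2_nd (nat_lit 16358) (ok2_of rx16352) (ok2_nd (nat_lit 16364) (ok2_of rx16358) (ok2_of rx16364))) (ok2_nd (nat_lit 16382) (ok2_of rx16374) (ok2_nd (nat_lit 16388) (ok2_of rx16382) (ok2_of rx16388)))) (ok2_nd (nat_lit 16411) (ok2_nd (nat_lit 16399) (ok2_of rx16393) (ok2_nd (nat_lit 16407) (ok2_of rx16399) (ok2_of rx16407))) (ok2_nd (nat_lit 16416) (ok2_of rx16411) (ok2_nd (nat_lit 16422) (ok2_of rx16416) (ok2_of rx16422)))))))) (ok2_nd (nat_lit 16733) (ok2_nd (nat_lit 16581) (ok2_nd (nat_lit 16504) (ok2_nd (nat_lit 16462) (ok2_nd (nat_lit 16443) (ok2_nd (nat_lit 16434) (ok2_of rx16428) (ok2_of rx16434)) (ok2_nd (nat_lit 16449)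 (ok2_of rx16443) (ok2_nd (nat_lit 16459) (ok2_of rx16449) (ok2_of rx16459)))) (ok2_nd (nat_lit 16481) (ok2_nd (nat_lit 16472) (ok2_of rx16462) (ok2_nd (nat_lit 16480) (ok2_of rx16472) (ok2_of rx16480))) (ok2_nd (nat_lit 16490) (ok2_of rx16481) (ok2_nd (nat_lit 16498) (ok2_of rx16490) (ok2_of rx16498))))) (ok2_nd (nat_lit 16544) (ok2_nd (nat_lit 16522) (ok2_nd (nat_lit 16510) (ok2_of rx16504) (ok2_nd (nat_lit 16516) (ok2_of rx16510) (ok2_of rx16516))) (ok2_nd (nat_lit 16533) (ok2_of rx16522) (ok2_nd (nat_lit 16536) (ok2_of rx16533) (ok2_of rx16536)))) (ok2_nd (nat_lit 16561) (ok2_nd (nat_lit 16550) (ok2_of rx16544) (ok2_nd (nat_lit 16555) (ok2_of rx16550) (ok2_of rx16555))) (ok2_nd (nat_lit 16570) (ok2_of rx16561) (ok2_nd (nat_lit 16576) (ok2_of rx16570) (ok2_of rx16576)))))) (ok2_nd (nat_lit 16652) (ok2_nd (nat_lit 16614) (ok2_nd (nat_lit 16594) (ok2_nd (nat_lit 16586) (ok2_of rx16581) (ok2_of rx16586)) (ok2_nd (nat_lit 16601) (ok2_of rx16594) (ok2_nd (nat_lit 16607) (ok2_of rx16601) (ok2_of rx16607)))) (ok2_nd (nat_lit 16631) (ok2_nd (nat_lit 16620) (ok2_of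 rx16614) (ok2_nd (nat_lit 16626) (ok2_of rx16620) (ok2_of rx16626))) (ok2_nd (nat_lit 16636) (ok2_of rx16631) (ok2_nd (nat_lit 16642) (ok2_of rx16636) (ok2_of rx16642))))) (ok2_nd (nat_lit 16701) (ok2_nd (nat_lit 16674) (ok2_nd (nat_lit 16658) (ok2_of rx16652) (ok2_nd (nat_lit 16668) (ok2_of rx16658) (ok2_of rx16668))) (ok2_nd (nat_lit 16680) (ok2_of rx16674) (ok2_nd (nat_lit 16689) (ok2_of rx16680) (ok2_of rx16689)))) (ok2_nd (nat_lit 16716) (ok2_nd (nat_lit 16703) (ok2_of rx16701) (ok2_nd (nat_lit 16709) (ok2_of rx16703) (ok2_of rx16709))) (ok2_nd (nat_lit 16721) (ok2_of rx16716) (ok2_nd (nat_lit 16727) (ok2_of rx16721) (ok2_of rx16727))))))) (ok2_nd (nat_lit 16880) (ok2_nd (nat_lit 16809) (ok2_nd (nat_lit 16770) (ok2_nd (nat_lit 16748) (ok2_nd (nat_lit 16741) (ok2_of rx16733) (ok2_of rx16741)) (ok2_nd (nat_lit 16754) (ok2_of rx16748) (ok2_nd (nat_lit 16763) (ok2_of rx16754) (ok2_of rx16763)))) (ok2_nd (nat_lit 16791) (ok2_nd (nat_lit 16777) (ok2_of rx16770) (ok2_nd (nat_lit 16783) (ok2_of rx16777) (ok2_of rx16783))) (ok2_nd (nat_lit 16797) (ok2_of rx16791)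 (ok2_nd (nat_lit 16803) (ok2_of rx16797) (ok2_of rx16803))))) (ok2_nd (nat_lit 16840) (ok2_nd (nat_lit 16824) (ok2_nd (nat_lit 16813) (ok2_of rx16809) (ok2_nd (nat_lit 16818) (ok2_of rx16813) (ok2_of rx16818))) (ok2_nd (nat_lit 16828) (ok2_of rx16824) (ok2_nd (nat_lit 16834) (ok2_of rx16828) (ok2_of rx16834)))) (ok2_nd (nat_lit 16860) (ok2_nd (nat_lit 16845) (ok2_of rx16840) (ok2_nd (nat_lit 16851) (ok2_of rx16845) (ok2_of rx16851))) (ok2_nd (nat_lit 16866) (ok2_of rx16860) (ok2_nd (nat_lit 16873) (ok2_of rx16866) (ok2_of rx16873)))))) (ok2_nd (nat_lit 16964) (ok2_nd (nat_lit 16925) (ok2_nd (nat_lit 16904) (ok2_nd (nat_lit 16888) (ok2_of rx16880) (ok2_nd (nat_lit 16895) (ok2_of rx16888) (ok2_of rx16895))) (ok2_nd (nat_lit 16910) (ok2_of rx16904) (ok2_nd (nat_lit 16919) (ok2_of rx16910) (ok2_of rx16919)))) (ok2_nd (nat_lit 16947) (ok2_nd (nat_lit 16935) (ok2_of rx16925) (ok2_nd (nat_lit 16941) (ok2_of rx16935) (ok2_of rx16941))) (ok2_nd (nat_lit 16955) (ok2_of rx16947) (ok2_nd (nat_lit 16959) (ok2_of rx16955) (ok2_of rx16959))))) (ok2_nd (nat_lit 16998) (ok2_nd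 (nat_lit 16982) (ok2_nd (nat_lit 16969) (ok2_of rx16964) (ok2_nd (nat_lit 16974) (ok2_of rx16969) (ok2_of rx16974))) (ok2_nd (nat_lit 16986) (ok2_of rx16982) (ok2_nd (nat_lit 16992) (ok2_of rx16986) (ok2_of rx16992)))) (ok2_nd (nat_lit 17017) (ok2_nd (nat_lit 17003) (ok2_of rx16998) (ok2_nd (nat_lit 17011) (ok2_of rx17003) (ok2_of rx17011))) (ok2_nd (nat_lit 17023) (ok2_of rx17017) (ok2_nd (nat_lit 17032) (ok2_of rx17023) (ok2_of rx17032)))))))))

end Pool.Agent.MP_797bdc_co.Lk.Da
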