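import Pool.Agent.MP_797bdc_co.Lk.XA
import Pool.Agent.MP_797bdc_co.Lk.DE
import Pool.Agent.MP_797bdc_co.Lk.DG12
import Pool.Agent.MP_797bdc_co.Lk.DX12

/-! Run of checker X. -/

set_option maxRecDepth 100000
set_option linter.defProp false

namespace Pool.Agent.MP_797bdc_co.Lk.Da

noncomputable def rx17042 : iz (BT.all2 (xchk xE) g17042 x17042) = true := by decide +kernel
noncomputable def rx17045 : iz (BT.all2 (xchk xE) g17045 x17045) = true := by decide +kernel
noncomputable def rx17053 : iz (BT.all2 (xchk xE) g17053 x17053) = true := by decide +kernel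
noncomputable def rx17059 : iz (BT.all2 (xchk xE) g17059 x17059) = true := by decide +kernel
noncomputable def rx17064 : iz (BT.all2 (xchk xE) g17064 x17064) = true := by decide +kernel
noncomputable def rx17070 : iz (BT.all2 (xchk xE) g17070 x17070) = true := by decide +kernel
noncomputable def rx17076 : iz (BT.all2 (xchk xE) g17076 x17076) = true := by decide +kernel
noncomputable def rx17084 : iz (BT.all2 (xchk xE) g17084 x17084) = true := by decide +kernel
noncomputable def rx17091 : iz (BT.all2 (xchk xE) g17091 x17091) = true := by decide +kernel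
noncomputable def rx17099 : iz (BT.all2 (xchk xE) g17099 x17099) = true := by decide +kernel
noncomputable def rx17102 : iz (BT.all2 (xchk xE) g17102 x17102) = true := by decide +kernel
noncomputable def rx17110 : iz (BT.all2 (xchk xE) g17110 x17110) = true := by decide +kernel
noncomputable def rx17116 : iz (BT.all2 (xchk xE) g17116 x17116) = true := by decide +kernel
noncomputable def rx17124 : iz (BT.all2 (xchk xE) g17124 x17124) = true := by decide +kernel
noncomputable def rx17130 : iz (BT.all2 (xchk xE) g17130 x17130) = true := by decide +kernel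
noncomputable def rx17132 : iz (BT.all2 (xchk xE) g17132 x17132) = true := by decide +kernel
noncomputable def rx17138 : iz (BT.all2 (xchk xE) g17138 x17138) = true := by decide +kernel
noncomputable def rx17142 : iz (BT.all2 (xchk xE) g17142 x17142) = true := by decide +kernel
noncomputable def rx17150 : iz (BT.all2 (xchk xE) g17150 x17150) = true := by decide +kernel
noncomputable def rx17156 : iz (BT.all2 (xchk xE) g17156 x17156) = true := by decide +kernel
noncomputable def rx17160 : iz (BT.all2 (xchk xE) g17160 x17160) = true := by decide +kernel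
noncomputable def rx17166 : iz (BT.all2 (xchk xE) g17166 x17166) = true := by decide +kernel
noncomputable def rx17175 : iz (BT.all2 (xchk xE) g17175 x17175) = true := by decide +kernel
noncomputable def rx17184 : iz (BT.all2 (xchk xE) g17184 x17184) = true := by decide +kernel
noncomputable def rx17192 : iz (BT.all2 (xchk xE) g17192 x17192) = true := by decide +kernel
noncomputable def rx17196 : iz (BT.all2 (xchk xE) g17196 x17196) = true := by decide +kernel
noncomputable def rx17202 : iz (BT.all2 (xchk xE) g17202 x17202) = true := by decide +kernel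
noncomputable def rx17208 : iz (BT.all2 (xchk xE) g17208 x17208) = true := by decide +kernel
noncomputable def rx17217 : iz (BT.all2 (xchk xE) g17217 x17217) = true := by decide +kernel
noncomputable def rx17224 : iz (BT.all2 (xchk xE) g17224 x17224) = true := by decide +kernel
noncomputable def rx17230 : iz (BT.all2 (xchk xE) g17230 x17230) = true := by decide +kernel
noncomputable def rx17237 : iz (BT.all2 (xchk xE) g17237 x17237) = true := by decide +kernel
noncomputable def rx17245 : iz (BT.all2 (xchk xE) g17245 x17245) = true := by decide +kernel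
noncomputable def rx17251 : iz (BT.all2 (xchk xE) g17251 x17251) = true := by decide +kernel
noncomputable def rx17259 : iz (BT.all2 (xchk xE) g17259 x17259) = true := by decide +kernel
noncomputable def rx17265 : iz (BT.all2 (xchk xE) g17265 x17265) = true := by decide +kernel
noncomputable def rx17272 : iz (BT.all2 (xchk xE) g17272 x17272) = true := by decide +kernel
noncomputable def rx17279 : iz (BT.all2 (xchk xE) g17279 x17279) = true := by decide +kernel
noncomputable def rx17287 : iz (BT.all2 (xchk xE) g17287 x17287) = true := by decide +kernel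
noncomputable def rx17296 : iz (BT.all2 (xchk xE) g17296 x17296) = true := by decide +kernel
noncomputable def rx17301 : iz (BT.all2 (xchk xE) g17301 x17301) = true := by decide +kernel
noncomputable def rx17307 : iz (BT.all2 (xchk xE) g17307 x17307) = true := by decide +kernel
noncomputable def rx17313 : iz (BT.all2 (xchk xE) g17313 x17313) = true := by decide +kernel
noncomputable def rx17316 : iz (BT.all2 (xchk xE) g17316 x17316) = true := by decide +kernel
noncomputable def rx17325 : iz (BT.all2 (xchk xE) g17325 x17325) = true := by decide +kernel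
noncomputable def rx17326 : iz (BT.all2 (xchk xE) g17326 x17326) = true := by decide +kernel
noncomputable def rx17332 : iz (BT.all2 (xchk xE) g17332 x17332) = true := by decide +kernel
noncomputable def rx17342 : iz (BT.all2 (xchk xE) g17342 x17342) = true := by decide +kernel
noncomputable def rx17351 : iz (BT.all2 (xchk xE) g17351 x17351) = true := by decide +kernel
noncomputable def rx17360 : iz (BT.all2 (xchk xE) g17360 x17360) = true := by decide +kernel
noncomputable def rx17366 : iz (BT.all2 (xchk xE) g17366 x17366) = true := by decide +kernel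
noncomputable def rx17370 : iz (BT.all2 (xchk xE) g17370 x17370) = true := by decide +kernel
noncomputable def rx17377 : iz (BT.all2 (xchk xE) g17377 x17377) = true := by decide +kernel
noncomputable def rx17380 : iz (BT.all2 (xchk xE) g17380 x17380) = true := by decide +kernel
noncomputable def rx17385 : iz (BT.all2 (xchk xE) g17385 x17385) = true := by decide +kernel
noncomputable def rx17393 : iz (BT.all2 (xchk xE) g17393 x17393) = true := by decide +kernel
noncomputable def rx17401 : iz (BT.all2 (xchk xE) g17401 x17401) = true := by decide +kernel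
noncomputable def rx17409 : iz (BT.all2 (xchk xE) g17409 x17409) = true := by decide +kernel
noncomputable def rx17417 : iz (BT.all2 (xchk xE) g17417 x17417) = true := by decide +kernel
noncomputable def rx17423 : iz (BT.all2 (xchk xE) g17423 x17423) = true := by decide +kernel
noncomputable def rx17435 : iz (BT.all2 (xchk xE) g17435 x17435) = true := by decide +kernel
noncomputable def rx17441 : iz (BT.all2 (xchk xE) g17441 x17441) = true := by decide +kernel
noncomputable def rx17448 : iz (BT.all2 (xchk xE) g17448 x17448) = true := by decide +kernel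
noncomputable def rx17456 : iz (BT.all2 (xchk xE) g17456 x17456) = true := by decide +kernel
noncomputable def rx17465 : iz (BT.all2 (xchk xE) g17465 x17465) = true := by decide +kernel
noncomputable def rx17470 : iz (BT.all2 (xchk xE) g17470 x17470) = true := by decide +kernel
noncomputable def rx17473 : iz (BT.all2 (xchk xE) g17473 x17473) = true := by decide +kernel
noncomputable def rx17479 : iz (BT.all2 (xchk xE) g17479 x17479) = true := by decide +kernel
noncomputable def rx17487 : iz (BT.all2 (xchk xE) g17487 x17487) = true := by decide +kernel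
noncomputable def rx17493 : iz (BT.all2 (xchk xE) g17493 x17493) = true := by decide +kernel
noncomputable def rx17500 : iz (BT.all2 (xchk xE) g17500 x17500) = true := by decide +kernel
noncomputable def rx17507 : iz (BT.all2 (xchk xE) g17507 x17507) = true := by decide +kernel
noncomputable def rx17511 : iz (BT.all2 (xchk xE) g17511 x17511) = true := by decide +kernel
noncomputable def rx17520 : iz (BT.all2 (xchk xE) g17520 x17520) = true := by decide +kernel
noncomputable def rx17526 : iz (BT.all2 (xchk xE) g17526 x17526) = true := by decide +kernel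
noncomputable def rx17531 : iz (BT.all2 (xchk xE) g17531 x17531) = true := by decide +kernel
noncomputable def rx17536 : iz (BT.all2 (xchk xE) g17536 x17536) = true := by decide +kernel
noncomputable def rx17545 : iz (BT.all2 (xchk xE) g17545 x17545) = true := by decide +kernel
noncomputable def rx17550 : iz (BT.all2 (xchk xE) g17550 x17550) = true := by decide +kernel
noncomputable def rx17555 : iz (BT.all2 (xchk xE) g17555 x17555) = true := by decide +kernel
noncomputable def rx17561 : iz (BT.all2 (xchk xE) g17561 x17561) = true := by decide +kernel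
noncomputable def rx17568 : iz (BT.all2 (xchk xE) g17568 x17568) = true := by decide +kernel
noncomputable def rx17574 : iz (BT.all2 (xchk xE) g17574 x17574) = true := by decide +kernel
noncomputable def rx17582 : iz (BT.all2 (xchk xE) g17582 x17582) = true := by decide +kernel
noncomputable def rx17588 : iz (BT.all2 (xchk xE) g17588 x17588) = true := by decide +kernel
noncomputable def rx17597 : iz (BT.all2 (xchk xE) g17597 x17597) = true := by decide +kernel
noncomputable def rx17601 : iz (BT.all2 (xchk xE) g17601 x17601) = true := by decide +kernel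
noncomputable def rx17606 : iz (BT.all2 (xchk xE) g17606 x17606) = true := by decide +kernel
noncomputable def rx17611 : iz (BT.all2 (xchk xE) g17611 x17611) = true := by decide +kernel
noncomputable def rx17615 : iz (BT.all2 (xchk xE) g17615 x17615) = true := by decide +kernel
noncomputable def rx17618 : iz (BT.all2 (xchk xE) g17618 x17618) = true := by decide +kernel
noncomputable def rx17624 : iz (BT.all2 (xchk xE) g17624 x17624) = true := by decide +kernel
noncomputable def rx17632 : iz (BT.all2 (xchk xE) g17632 x17632) = true := by decide +kernel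
noncomputable def rx17642 : iz (BT.all2 (xchk xE) g17642 x17642) = true := by decide +kernel
noncomputable def rx17644 : iz (BT.all2 (xchk xE) g17644 x17644) = true := by decide +kernel
noncomputable def rx17650 : iz (BT.all2 (xchk xE) g17650 x17650) = true := by decide +kernel
noncomputable def rx17657 : iz (BT.all2 (xchk xE) g17657 x17657) = true := by decide +kernel
noncomputable def rx17663 : iz (BT.all2 (xchk xE) g17663 x17663) = true := by decide +kernel
noncomputable def rx17668 : iz (BT.all2 (xchk xE) g17668 x17668) = true := by decide +kernel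
noncomputable def rx17675 : iz (BT.all2 (xchk xE) g17675 x17675) = true := by decide +kernel
noncomputable def rx17678 : iz (BT.all2 (xchk xE) g17678 x17678) = true := by decide +kernel
noncomputable def rx17686 : iz (BT.all2 (xchk xE) g17686 x17686) = true := by decide +kernel
noncomputable def rx17691 : iz (BT.all2 (xchk xE) g17691 x17691) = true := by decide +kernel
noncomputable def rx17699 : iz (BT.all2 (xchk xE) g17699 x17699) = true := by decide +kernel
noncomputable def rx17708 : iz (BT.all2 (xchk xE) g17708 x17708) = true := by decide +kernel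
noncomputable def rx17714 : iz (BT.all2 (xchk xE) g17714 x17714) = true := by decide +kernel
noncomputable def rx17723 : iz (BT.all2 (xchk xE) g17723 x17723) = true := by decide +kernel
noncomputable def rx17732 : iz (BT.all2 (xchk xE) g17732 x17732) = true := by decide +kernel
noncomputable def rx17738 : iz (BT.all2 (xchk xE) g17738 x17738) = true := by decide +kernel
noncomputable def rx17744 : iz (BT.all2 (xchk xE) g17744 x17744) = true := by decide +kernel
noncomputable def rx17750 : iz (BT.all2 (xchk xE) g17750 x17750) = true := by decide +kernel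
noncomputable def rx17755 : iz (BT.all2 (xchk xE) g17755 x17755) = true := by decide +kernel
noncomputable def rx17759 : iz (BT.all2 (xchk xE) g17759 x17759) = true := by decide +kernel
noncomputable def rx17765 : iz (BT.all2 (xchk xE) g17765 x17765) = true := by decide +kernel
noncomputable def rx17771 : iz (BT.all2 (xchk xE) g17771 x17771) = true := by decide +kernel
noncomputable def rx17780 : iz (BT.all2 (xchk xE) g17780 x17780) = true := by decide +kernel
noncomputable def rx17784 : iz (BT.all2 (xchk xE) g17784 x17784) = true := by decide +kernel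
noncomputable def rx17792 : iz (BT.all2 (xchk xE) g17792 x17792) = true := by decide +kernel
noncomputable def rx17797 : iz (BT.all2 (xchk xE) g17797 x17797) = true := by decide +kernel
noncomputable def rx17805 : iz (BT.all2 (xchk xE) g17805 x17805) = true := by decide +kernel
noncomputable def rx17811 : iz (BT.all2 (xchk xE) g17811 x17811) = true := by decide +kernel
noncomputable def rx17817 : iz (BT.all2 (xchk xE) g17817 x17817) = true := by decide +kernel
noncomputable def rx17823 : iz (BT.all2 (xchk xE) g17823 x17823) = true := by decide +kernel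
noncomputable def rx17830 : iz (BT.all2 (xchk xE) g17830 x17830) = true := by decide +kernel
noncomputable def rx17836 : iz (BT.all2 (xchk xE) g17836 x17836) = true := by decide +kernel
noncomputable def rx17842 : iz (BT.all2 (xchk xE) g17842 x17842) = true := by decide +kernel
noncomputable def rx17852 : iz (BT.all2 (xchk xE) g17852 x17852) = true := by decide +kernel
noncomputable def rx17859 : iz (BT.all2 (xchk xE) g17859 x17859) = true := by decide +kernel
noncomputable def rx17868 : iz (BT.all2 (xchk xE) g17868 x17868) = true := by decide +kernel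
noncomputable def rx17878 : iz (BT.all2 (xchk xE) g17878 x17878) = true := by decide +kernel
noncomputable def rx17884 : iz (BT.all2 (xchk xE) g17884 x17884) = true := by decide +kernel
noncomputable def rx17890 : iz (BT.all2 (xchk xE) g17890 x17890) = true := by decide +kernel
noncomputable def rx17900 : iz (BT.all2 (xchk xE) g17900 x17900) = true := by decide +kernel
noncomputable def rx17901 : iz (BT.all2 (xchk xE) g17901 x17901) = true := by decide +kernel
noncomputable def rx17907 : iz (BT.all2 (xchk xE) g17907 x17907) = true := by decide +kernel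
noncomputable def rx17913 : iz (BT.all2 (xchk xE) g17913 x17913) = true := by decide +kernel
noncomputable def rx17919 : iz (BT.all2 (xchk xE) g17919 x17919) = true := by decide +kernel
noncomputable def rx17924 : iz (BT.all2 (xchk xE) g17924 x17924) = true := by decide +kernel
noncomputable def rx17929 : iz (BT.all2 (xchk xE) g17929 x17929) = true := by decide +kernel
noncomputable def rx17933 : iz (BT.all2 (xchk xE) g17933 x17933) = true := by decide +kernel
noncomputable def rx17940 : iz (BT.all2 (xchk xE) g17940 x17940) = true := by decide +kernel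
noncomputable def rx17946 : iz (BT.all2 (xchk xE) g17946 x17946) = true := by decide +kernel
noncomputable def rx17953 : iz (BT.all2 (xchk xE) g17953 x17953) = true := by decide +kernel
noncomputable def rx17959 : iz (BT.all2 (xchk xE) g17959 x17959) = true := by decide +kernel
noncomputable def rx17966 : iz (BT.all2 (xchk xE) g17966 x17966) = true := by decide +kernel
noncomputable def rx17970 : iz (BT.all2 (xchk xE) g17970 x17970) = true := by decide +kernel
noncomputable def rx17975 : iz (BT.all2 (xchk xE) g17975 x17975) = true := by decide +kernel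
noncomputable def rx17977 : iz (BT.all2 (xchk xE) g17977 x17977) = true := by decide +kernel
noncomputable def rx17983 : iz (BT.all2 (xchk xE) g17983 x17983) = true := by decide +kernel
noncomputable def rx17991 : iz (BT.all2 (xchk xE) g17991 x17991) = true := by decide +kernel
noncomputable def rx17999 : iz (BT.all2 (xchk xE) g17999 x17999) = true := by decide +kernel
noncomputable def rx18002 : iz (BT.all2 (xchk xE) g18002 x18002) = true := by decide +kernel
noncomputable def rx18011 : iz (BT.all2 (xchk xE) g18011 x18011) = true := by decide +kernel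
noncomputable def rx18020 : iz (BT.all2 (xchk xE) g18020 x18020) = true := by decide +kernel
noncomputable def rx18025 : iz (BT.all2 (xchk xE) g18025 x18025) = true := by decide +kernel
noncomputable def rx18035 : iz (BT.all2 (xchk xE) g18035 x18035) = true := by decide +kernel
noncomputable def rx18039 : iz (BT.all2 (xchk xE) g18039 x18039) = true := by decide +kernel
noncomputable def rx18043 : iz (BT.all2 (xchk xE) g18043 x18043) = true := by decide +kernel
noncomputable def rx18048 : iz (BT.all2 (xchk xE) g18048 x18048) = true := by decide +kernel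
noncomputable def rx18058 : iz (BT.all2 (xchk xE) g18058 x18058) = true := by decide +kernel
noncomputable def rx18066 : iz (BT.all2 (xchk xE) g18066 x18066) = true := by decide +kernel
noncomputable def rx18072 : iz (BT.all2 (xchk xE) g18072 x18072) = true := by decide +kernel
noncomputable def rx18078 : iz (BT.all2 (xchk xE) g18078 x18078) = true := by decide +kernel
noncomputable def rx18083 : iz (BT.all2 (xchk xE) g18083 x18083) = true := by decide +kernel
noncomputable def rx18091 : iz (BT.all2 (xchk xE) g18091 x18091) = true := by decide +kernel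
noncomputable def rx18099 : iz (BT.all2 (xchk xE) g18099 x18099) = true := by decide +kernel
noncomputable def rx18100 : iz (BT.all2 (xchk xE) g18100 x18100) = true := by decide +kernel
noncomputable def rx18106 : iz (BT.all2 (xchk xE) g18106 x18106) = true := by decide +kernel
noncomputable def rx18112 : iz (BT.all2 (xchk xE) g18112 x18112) = true := by decide +kernel
noncomputable def rx18118 : iz (BT.all2 (xchk xE) g18118 x18118) = true := by decide +kernel
noncomputable def rx18124 : iz (BT.all2 (xchk xE) g18124 x18124) = true := by decide +kernel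
noncomputable def rx18131 : iz (BT.all2 (xchk xE) g18131 x18131) = true := by decide +kernel
noncomputable def rx18139 : iz (BT.all2 (xchk xE) g18139 x18139) = true := by decide +kernel
noncomputable def rx18146 : iz (BT.all2 (xchk xE) g18146 x18146) = true := by decide +kernel
noncomputable def rx18152 : iz (BT.all2 (xchk xE) g18152 x18152) = true := by decide +kernel
noncomputable def rx18163 : iz (BT.all2 (xchk xE) g18163 x18163) = true := by decide +kernel
noncomputable def rx18170 : iz (BT.all2 (xchk xE) g18170 x18170) = true := by decide +kernel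
noncomputable def rx18177 : iz (BT.all2 (xchk xE) g18177 x18177) = true := by decide +kernel
noncomputable def rx18185 : iz (BT.all2 (xchk xE) g18185 x18185) = true := by decide +kernel
noncomputable def rx18190 : iz (BT.all2 (xchk xE) g18190 x18190) = true := by decide +kernel
noncomputable def rx18196 : iz (BT.all2 (xchk xE) g18196 x18196) = true := by decide +kernel
noncomputable def rx18202 : iz (BT.all2 (xchk xE) g18202 x18202) = true := by decide +kernel
noncomputable def rx18208 : iz (BT.all2 (xchk xE) g18208 x18208) = true := by decide +kernel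
noncomputable def rx18215 : iz (BT.all2 (xchk xE) g18215 x18215) = true := by decide +kernel
noncomputable def rx18220 : iz (BT.all2 (xchk xE) g18220 x18220) = true := by decide +kernel
noncomputable def rX12 : OK2 (xchk xE) tG12 tX12 := (ok2_nd (nat_lit 17632) (ok2_nd (nat_lit 17332) (ok2_nd (nat_lit 17184) (ok2_nd (nat_lit 17110) (ok2_nd (nat_lit 17070) (ok2_nd (nat_lit 17053) (ok2_nd (nat_lit 17045) (ok2_of rx17042) (ok2_of rx17045)) (ok2_nd (nat_lit 17059) (ok2_of rx17053) (ok2_nd (nat_lit 17064) (ok2_of rx17059) (ok2_of rx17064)))) (ok2_nd (nat_lit 17091) (ok2_nd (nat_lit 17076) (ok2_of rx17070) (ok2_nd (nat_lit 17084) (ok2_of rx17076) (ok2_of rx17084))) (ok2_nd (nat_lit 17099) (ok2_of rx17091) (ok2_nd (nat_lit 17102) (ok2_of rx17099) (ok2_of rx17102))))) (ok2_nd (nat_lit 17142) (ok2_nd (nat_lit 17130) (ok2_nd (nat_lit 17116) (ok2_of rx17110) (ok2_nd (nat_lit 17124) (ok2_of rx17116) (ok2_of rx17124))) (ok2_nd (nat_lit 17132) (ok2_of rx17130) (ok2_nd (nat_lit 17138) (ok2_of rx17132) (ok2_of rx17138)))) (ok2_nd (nat_lit 17160) (ok2_nd (nat_lit 17150) (ok2_of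 rx17142) (ok2_nd (nat_lit 17156) (ok2_of rx17150) (ok2_of rx17156))) (ok2_nd (nat_lit 17166) (ok2_of rx17160) (ok2_nd (nat_lit 17175) (ok2_of rx17166) (ok2_of rx17175)))))) (ok2_nd (nat_lit 17259) (ok2_nd (nat_lit 17217) (ok2_nd (nat_lit 17196) (ok2_nd (nat_lit 17192) (ok2_of rx17184) (ok2_of rx17192)) (ok2_nd (nat_lit 17202) (ok2_of rx17196) (ok2_nd (nat_lit 17208) (ok2_of rx17202) (ok2_of rx17208)))) (ok2_nd (nat_lit 17237) (ok2_nd (nat_lit 17224) (ok2_of rx17217) (ok2_nd (nat_lit 17230) (ok2_of rx17224) (ok2_of rx17230))) (ok2_nd (nat_lit 17245) (ok2_of rx17237) (ok2_nd (nat_lit 17251) (ok2_of rx17245) (ok2_of rx17251))))) (ok2_nd (nat_lit 17301) (ok2_nd (nat_lit 17279) (ok2_nd (nat_lit 17265) (ok2_of rx17259) (ok2_nd (nat_lit 17272) (ok2_of rx17265) (ok2_of rx17272))) (ok2_nd (nat_lit 17287) (ok2_of rx17279) (ok2_nd (nat_lit 17296) (ok2_of rx17287) (ok2_of rx17296)))) (ok2_nd (nat_lit 17316) (ok2_nd (nat_lit 17307) (ok2_of rx17301) (ok2_nd (nat_lit 17313) (ok2_of rx17307) (ok2_of rx17313))) (ok2_nd (nat_lit 17325) (ok2_of rx17316) (ok2_nd (nat_lit 17326)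 (ok2_of rx17325) (ok2_of rx17326))))))) (ok2_nd (nat_lit 17493) (ok2_nd (nat_lit 17409) (ok2_nd (nat_lit 17370) (ok2_nd (nat_lit 17351) (ok2_nd (nat_lit 17342) (ok2_of rx17332) (ok2_of rx17342)) (ok2_nd (nat_lit 17360) (ok2_of rx17351) (ok2_nd (nat_lit 17366) (ok2_of rx17360) (ok2_of rx17366)))) (ok2_nd (nat_lit 17385) (ok2_nd (nat_lit 17377) (ok2_of rx17370) (ok2_nd (nat_lit 17380) (ok2_of rx17377) (ok2_of rx17380))) (ok2_nd (nat_lit 17393) (ok2_of rx17385) (ok2_nd (nat_lit 17401) (ok2_of rx17393) (ok2_of rx17401))))) (ok2_nd (nat_lit 17456) (ok2_nd (nat_lit 17435) (ok2_nd (nat_lit 17417) (ok2_of rx17409) (ok2_nd (nat_lit 17423) (ok2_of rx17417) (ok2_of rx17423))) (ok2_nd (nat_lit 17441) (ok2_of rx17435) (ok2_nd (nat_lit 17448) (ok2_of rx17441) (ok2_of rx17448)))) (ok2_nd (nat_lit 17473) (ok2_nd (nat_lit 17465) (ok2_of rx17456) (ok2_nd (nat_lit 17470) (ok2_of rx17465) (ok2_of rx17470))) (ok2_nd (nat_lit 17479) (ok2_of rx17473) (ok2_nd (nat_lit 17487) (ok2_of rx17479) (ok2_of rx17487)))))) (ok2_nd (nat_lit 17561) (ok2_nd (nat_lit 17526) (ok2_nd (nat_lit 17507)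 (ok2_nd (nat_lit 17500) (ok2_of rx17493) (ok2_of rx17500)) (ok2_nd (nat_lit 17511) (ok2_of rx17507) (ok2_nd (nat_lit 17520) (ok2_of rx17511) (ok2_of rx17520)))) (ok2_nd (nat_lit 17545) (ok2_nd (nat_lit 17531) (ok2_of rx17526) (ok2_nd (nat_lit 17536) (ok2_of rx17531) (ok2_of rx17536))) (ok2_nd (nat_lit 17550) (ok2_of rx17545) (ok2_nd (nat_lit 17555) (ok2_of rx17550) (ok2_of rx17555))))) (ok2_nd (nat_lit 17601) (ok2_nd (nat_lit 17582) (ok2_nd (nat_lit 17568) (ok2_of rx17561) (ok2_nd (nat_lit 17574) (ok2_of rx17568) (ok2_of rx17574))) (ok2_nd (nat_lit 17588) (ok2_of rx17582) (ok2_nd (nat_lit 17597) (ok2_of rx17588) (ok2_of rx17597)))) (ok2_nd (nat_lit 17615) (ok2_nd (nat_lit 17606) (ok2_of rx17601) (ok2_nd (nat_lit 17611) (ok2_of rx17606) (ok2_of rx17611))) (ok2_nd (nat_lit 17618) (ok2_of rx17615) (ok2_nd (nat_lit 17624) (ok2_of rx17618) (ok2_of rx17624)))))))) (ok2_nd (nat_lit 17929) (ok2_nd (nat_lit 17780) (ok2_nd (nat_lit 17699) (ok2_nd (nat_lit 17663) (ok2_nd (nat_lit 17644) (ok2_nd (nat_lit 17642) (ok2_of rx17632) (ok2_of rx17642)) (ok2_nd (nat_lit 17650)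 (ok2_of rx17644) (ok2_nd (nat_lit 17657) (ok2_of rx17650) (ok2_of rx17657)))) (ok2_nd (nat_lit 17678) (ok2_nd (nat_lit 17668) (ok2_of rx17663) (ok2_nd (nat_lit 17675) (ok2_of rx17668) (ok2_of rx17675))) (ok2_nd (nat_lit 17686) (ok2_of rx17678) (ok2_nd (nat_lit 17691) (ok2_of rx17686) (ok2_of rx17691))))) (ok2_nd (nat_lit 17744) (ok2_nd (nat_lit 17723) (ok2_nd (nat_lit 17708) (ok2_of rx17699) (ok2_nd (nat_lit 17714) (ok2_of rx17708) (ok2_of rx17714))) (ok2_nd (nat_lit 17732) (ok2_of rx17723) (ok2_nd (nat_lit 17738) (ok2_of rx17732) (ok2_of rx17738)))) (ok2_nd (nat_lit 17759) (ok2_nd (nat_lit 17750) (ok2_of rx17744) (ok2_nd (nat_lit 17755) (ok2_of rx17750) (ok2_of rx17755))) (ok2_nd (nat_lit 17765) (ok2_of rx17759) (ok2_nd (nat_lit 17771) (ok2_of rx17765) (ok2_of rx17771)))))) (ok2_nd (nat_lit 17852) (ok2_nd (nat_lit 17811) (ok2_nd (nat_lit 17792) (ok2_nd (nat_lit 17784) (ok2_of rx17780) (ok2_of rx17784)) (ok2_nd (nat_lit 17797) (ok2_of rx17792) (ok2_nd (nat_lit 17805) (ok2_of rx17797) (ok2_of rx17805)))) (ok2_nd (nat_lit 17830) (ok2_nd (nat_lit 17817) (ok2_of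 rx17811) (ok2_nd (nat_lit 17823) (ok2_of rx17817) (ok2_of rx17823))) (ok2_nd (nat_lit 17836) (ok2_of rx17830) (ok2_nd (nat_lit 17842) (ok2_of rx17836) (ok2_of rx17842))))) (ok2_nd (nat_lit 17900) (ok2_nd (nat_lit 17878) (ok2_nd (nat_lit 17859) (ok2_of rx17852) (ok2_nd (nat_lit 17868) (ok2_of rx17859) (ok2_of rx17868))) (ok2_nd (nat_lit 17884) (ok2_of rx17878) (ok2_nd (nat_lit 17890) (ok2_of rx17884) (ok2_of rx17890)))) (ok2_nd (nat_lit 17913) (ok2_nd (nat_lit 17901) (ok2_of rx17900) (ok2_nd (nat_lit 17907) (ok2_of rx17901) (ok2_of rx17907))) (ok2_nd (nat_lit 17919) (ok2_of rx17913) (ok2_nd (nat_lit 17924) (ok2_of rx17919) (ok2_of rx17924))))))) (ok2_nd (nat_lit 18072) (ok2_nd (nat_lit 17991) (ok2_nd (nat_lit 17959) (ok2_nd (nat_lit 17940) (ok2_nd (nat_lit 17933) (ok2_of rx17929) (ok2_of rx17933)) (ok2_nd (nat_lit 17946) (ok2_of rx17940) (ok2_nd (nat_lit 17953) (ok2_of rx17946) (ok2_of rx17953)))) (ok2_nd (nat_lit 17975) (ok2_nd (nat_lit 17966) (ok2_of rx17959) (ok2_nd (nat_lit 17970) (ok2_of rx17966) (ok2_of rx17970))) (ok2_nd (nat_lit 17977) (ok2_of rx17975)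 (ok2_nd (nat_lit 17983) (ok2_of rx17977) (ok2_of rx17983))))) (ok2_nd (nat_lit 18035) (ok2_nd (nat_lit 18011) (ok2_nd (nat_lit 17999) (ok2_of rx17991) (ok2_nd (nat_lit 18002) (ok2_of rx17999) (ok2_of rx18002))) (ok2_nd (nat_lit 18020) (ok2_of rx18011) (ok2_nd (nat_lit 18025) (ok2_of rx18020) (ok2_of rx18025)))) (ok2_nd (nat_lit 18048) (ok2_nd (nat_lit 18039) (ok2_of rx18035) (ok2_nd (nat_lit 18043) (ok2_of rx18039) (ok2_of rx18043))) (ok2_nd (nat_lit 18058) (ok2_of rx18048) (ok2_nd (nat_lit 18066) (ok2_of rx18058) (ok2_of rx18066)))))) (ok2_nd (nat_lit 18146) (ok2_nd (nat_lit 18106) (ok2_nd (nat_lit 18091) (ok2_nd (nat_lit 18078) (ok2_of rx18072) (ok2_nd (nat_lit 18083) (ok2_of rx18078) (ok2_of rx18083))) (ok2_nd (nat_lit 18099) (ok2_of rx18091) (ok2_nd (nat_lit 18100) (ok2_of rx18099) (ok2_of rx18100)))) (ok2_nd (nat_lit 18124) (ok2_nd (nat_lit 18112) (ok2_of rx18106) (ok2_nd (nat_lit 18118) (ok2_of rx18112) (ok2_of rx18118))) (ok2_nd (nat_lit 18131) (ok2_of rx18124) (ok2_nd (nat_lit 18139) (ok2_of rx18131) (ok2_of rx18139))))) (ok2_nd (nat_lit 18190) (ok2_nd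 (nat_lit 18170) (ok2_nd (nat_lit 18152) (ok2_of rx18146) (ok2_nd (nat_lit 18163) (ok2_of rx18152) (ok2_of rx18163))) (ok2_nd (nat_lit 18177) (ok2_of rx18170) (ok2_nd (nat_lit 18185) (ok2_of rx18177) (ok2_of rx18185)))) (ok2_nd (nat_lit 18208) (ok2_nd (nat_lit 18196) (ok2_of rx18190) (ok2_nd (nat_lit 18202) (ok2_of rx18196) (ok2_of rx18202))) (ok2_nd (nat_lit 18215) (ok2_of rx18208) (ok2_nd (nat_lit 18220) (ok2_of rx18215) (ok2_of rx18220)))))))))

end Pool.Agent.MP_797bdc_co.Lk.Da
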