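import Pool.Agent.MP_797bdc_co.Lk.XA
import Pool.Agent.MP_797bdc_co.Lk.DE
import Pool.Agent.MP_797bdc_co.Lk.DG13
import Pool.Agent.MP_797bdc_co.Lk.DX13

/-! Run of checker X. -/

set_option maxRecDepth 100000
set_option linter.defProp false

namespace Pool.Agent.MP_797bdc_co.Lk.Da

noncomputable def rx18228 : iz (BT.all2 (xchk xE) g18228 x18228) = true := by decide +kernel
noncomputable def rx18234 : iz (BT.all2 (xchk xE) g18234 x18234) = true := by decide +kernel
noncomputable def rx18239 : iz (BT.all2 (xchk xE) g18239 x18239) = true := by decide +kernel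
noncomputable def rx18247 : iz (BT.all2 (xchk xE) g18247 x18247) = true := by decide +kernel
noncomputable def rx18253 : iz (BT.all2 (xchk xE) g18253 x18253) = true := by decide +kernel
noncomputable def rx18262 : iz (BT.all2 (xchk xE) g18262 x18262) = true := by decide +kernel
noncomputable def rx18270 : iz (BT.all2 (xchk xE) g18270 x18270) = true := by decide +kernel
noncomputable def rx18280 : iz (BT.all2 (xchk xE) g18280 x18280) = true := by decide +kernel
noncomputable def rx18286 : iz (BT.all2 (xchk xE) g18286 x18286) = true := by decide +kernel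
noncomputable def rx18292 : iz (BT.all2 (xchk xE) g18292 x18292) = true := by decide +kernel
noncomputable def rx18301 : iz (BT.all2 (xchk xE) g18301 x18301) = true := by decide +kernel
noncomputable def rx18305 : iz (BT.all2 (xchk xE) g18305 x18305) = true := by decide +kernel
noncomputable def rx18314 : iz (BT.all2 (xchk xE) g18314 x18314) = true := by decide +kernel
noncomputable def rx18319 : iz (BT.all2 (xchk xE) g18319 x18319) = true := by decide +kernel
noncomputable def rx18325 : iz (BT.all2 (xchk xE) g18325 x18325) = true := by decide +kernel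
noncomputable def rx18334 : iz (BT.all2 (xchk xE) g18334 x18334) = true := by decide +kernel
noncomputable def rx18336 : iz (BT.all2 (xchk xE) g18336 x18336) = true := by decide +kernel
noncomputable def rx18342 : iz (BT.all2 (xchk xE) g18342 x18342) = true := by decide +kernel
noncomputable def rx18348 : iz (BT.all2 (xchk xE) g18348 x18348) = true := by decide +kernel
noncomputable def rx18356 : iz (BT.all2 (xchk xE) g18356 x18356) = true := by decide +kernel
noncomputable def rx18362 : iz (BT.all2 (xchk xE) g18362 x18362) = true := by decide +kernel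
noncomputable def rx18369 : iz (BT.all2 (xchk xE) g18369 x18369) = true := by decide +kernel
noncomputable def rx18376 : iz (BT.all2 (xchk xE) g18376 x18376) = true := by decide +kernel
noncomputable def rx18382 : iz (BT.all2 (xchk xE) g18382 x18382) = true := by decide +kernel
noncomputable def rx18391 : iz (BT.all2 (xchk xE) g18391 x18391) = true := by decide +kernel
noncomputable def rx18397 : iz (BT.all2 (xchk xE) g18397 x18397) = true := by decide +kernel
noncomputable def rx18403 : iz (BT.all2 (xchk xE) g18403 x18403) = true := by decide +kernel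
noncomputable def rx18409 : iz (BT.all2 (xchk xE) g18409 x18409) = true := by decide +kernel
noncomputable def rx18415 : iz (BT.all2 (xchk xE) g18415 x18415) = true := by decide +kernel
noncomputable def rx18421 : iz (BT.all2 (xchk xE) g18421 x18421) = true := by decide +kernel
noncomputable def rx18428 : iz (BT.all2 (xchk xE) g18428 x18428) = true := by decide +kernel
noncomputable def rx18434 : iz (BT.all2 (xchk xE) g18434 x18434) = true := by decide +kernel
noncomputable def rx18443 : iz (BT.all2 (xchk xE) g18443 x18443) = true := by decide +kernel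
noncomputable def rx18449 : iz (BT.all2 (xchk xE) g18449 x18449) = true := by decide +kernel
noncomputable def rx18454 : iz (BT.all2 (xchk xE) g18454 x18454) = true := by decide +kernel
noncomputable def rx18456 : iz (BT.all2 (xchk xE) g18456 x18456) = true := by decide +kernel
noncomputable def rx18462 : iz (BT.all2 (xchk xE) g18462 x18462) = true := by decide +kernel
noncomputable def rx18468 : iz (BT.all2 (xchk xE) g18468 x18468) = true := by decide +kernel
noncomputable def rx18476 : iz (BT.all2 (xchk xE) g18476 x18476) = true := by decide +kernel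
noncomputable def rx18482 : iz (BT.all2 (xchk xE) g18482 x18482) = true := by decide +kernel
noncomputable def rx18487 : iz (BT.all2 (xchk xE) g18487 x18487) = true := by decide +kernel
noncomputable def rx18496 : iz (BT.all2 (xchk xE) g18496 x18496) = true := by decide +kernel
noncomputable def rx18505 : iz (BT.all2 (xchk xE) g18505 x18505) = true := by decide +kernel
noncomputable def rx18511 : iz (BT.all2 (xchk xE) g18511 x18511) = true := by decide +kernel
noncomputable def rx18518 : iz (BT.all2 (xchk xE) g18518 x18518) = true := by decide +kernel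
noncomputable def rx18523 : iz (BT.all2 (xchk xE) g18523 x18523) = true := by decide +kernel
noncomputable def rx18530 : iz (BT.all2 (xchk xE) g18530 x18530) = true := by decide +kernel
noncomputable def rx18536 : iz (BT.all2 (xchk xE) g18536 x18536) = true := by decide +kernel
noncomputable def rx18542 : iz (BT.all2 (xchk xE) g18542 x18542) = true := by decide +kernel
noncomputable def rx18550 : iz (BT.all2 (xchk xE) g18550 x18550) = true := by decide +kernel
noncomputable def rx18554 : iz (BT.all2 (xchk xE) g18554 x18554) = true := by decide +kernel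
noncomputable def rx18560 : iz (BT.all2 (xchk xE) g18560 x18560) = true := by decide +kernel
noncomputable def rx18564 : iz (BT.all2 (xchk xE) g18564 x18564) = true := by decide +kernel
noncomputable def rx18569 : iz (BT.all2 (xchk xE) g18569 x18569) = true := by decide +kernel
noncomputable def rx18573 : iz (BT.all2 (xchk xE) g18573 x18573) = true := by decide +kernel
noncomputable def rx18581 : iz (BT.all2 (xchk xE) g18581 x18581) = true := by decide +kernel
noncomputable def rx18588 : iz (BT.all2 (xchk xE) g18588 x18588) = true := by decide +kernel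
noncomputable def rx18599 : iz (BT.all2 (xchk xE) g18599 x18599) = true := by decide +kernel
noncomputable def rx18605 : iz (BT.all2 (xchk xE) g18605 x18605) = true := by decide +kernel
noncomputable def rx18611 : iz (BT.all2 (xchk xE) g18611 x18611) = true := by decide +kernel
noncomputable def rx18617 : iz (BT.all2 (xchk xE) g18617 x18617) = true := by decide +kernel
noncomputable def rx18620 : iz (BT.all2 (xchk xE) g18620 x18620) = true := by decide +kernel
noncomputable def rx18626 : iz (BT.all2 (xchk xE) g18626 x18626) = true := by decide +kernel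
noncomputable def rx18631 : iz (BT.all2 (xchk xE) g18631 x18631) = true := by decide +kernel
noncomputable def rx18637 : iz (BT.all2 (xchk xE) g18637 x18637) = true := by decide +kernel
noncomputable def rx18643 : iz (BT.all2 (xchk xE) g18643 x18643) = true := by decide +kernel
noncomputable def rx18648 : iz (BT.all2 (xchk xE) g18648 x18648) = true := by decide +kernel
noncomputable def rx18654 : iz (BT.all2 (xchk xE) g18654 x18654) = true := by decide +kernel
noncomputable def rx18662 : iz (BT.all2 (xchk xE) g18662 x18662) = true := by decide +kernel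
noncomputable def rx18667 : iz (BT.all2 (xchk xE) g18667 x18667) = true := by decide +kernel
noncomputable def rx18674 : iz (BT.all2 (xchk xE) g18674 x18674) = true := by decide +kernel
noncomputable def rx18683 : iz (BT.all2 (xchk xE) g18683 x18683) = true := by decide +kernel
noncomputable def rx18689 : iz (BT.all2 (xchk xE) g18689 x18689) = true := by decide +kernel
noncomputable def rx18693 : iz (BT.all2 (xchk xE) g18693 x18693) = true := by decide +kernel
noncomputable def rx18703 : iz (BT.all2 (xchk xE) g18703 x18703) = true := by decide +kernel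
noncomputable def rx18712 : iz (BT.all2 (xchk xE) g18712 x18712) = true := by decide +kernel
noncomputable def rx18717 : iz (BT.all2 (xchk xE) g18717 x18717) = true := by decide +kernel
noncomputable def rx18726 : iz (BT.all2 (xchk xE) g18726 x18726) = true := by decide +kernel
noncomputable def rx18732 : iz (BT.all2 (xchk xE) g18732 x18732) = true := by decide +kernel
noncomputable def rx18738 : iz (BT.all2 (xchk xE) g18738 x18738) = true := by decide +kernel
noncomputable def rx18748 : iz (BT.all2 (xchk xE) g18748 x18748) = true := by decide +kernel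
noncomputable def rx18753 : iz (BT.all2 (xchk xE) g18753 x18753) = true := by decide +kernel
noncomputable def rx18756 : iz (BT.all2 (xchk xE) g18756 x18756) = true := by decide +kernel
noncomputable def rx18763 : iz (BT.all2 (xchk xE) g18763 x18763) = true := by decide +kernel
noncomputable def rx18769 : iz (BT.all2 (xchk xE) g18769 x18769) = true := by decide +kernel
noncomputable def rx18778 : iz (BT.all2 (xchk xE) g18778 x18778) = true := by decide +kernel
noncomputable def rx18784 : iz (BT.all2 (xchk xE) g18784 x18784) = true := by decide +kernel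
noncomputable def rx18794 : iz (BT.all2 (xchk xE) g18794 x18794) = true := by decide +kernel
noncomputable def rx18801 : iz (BT.all2 (xchk xE) g18801 x18801) = true := by decide +kernel
noncomputable def rx18810 : iz (BT.all2 (xchk xE) g18810 x18810) = true := by decide +kernel
noncomputable def rx18816 : iz (BT.all2 (xchk xE) g18816 x18816) = true := by decide +kernel
noncomputable def rx18822 : iz (BT.all2 (xchk xE) g18822 x18822) = true := by decide +kernel
noncomputable def rx18828 : iz (BT.all2 (xchk xE) g18828 x18828) = true := by decide +kernel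
noncomputable def rx18836 : iz (BT.all2 (xchk xE) g18836 x18836) = true := by decide +kernel
noncomputable def rx18839 : iz (BT.all2 (xchk xE) g18839 x18839) = true := by decide +kernel
noncomputable def rx18845 : iz (BT.all2 (xchk xE) g18845 x18845) = true := by decide +kernel
noncomputable def rx18851 : iz (BT.all2 (xchk xE) g18851 x18851) = true := by decide +kernel
noncomputable def rx18860 : iz (BT.all2 (xchk xE) g18860 x18860) = true := by decide +kernel
noncomputable def rx18870 : iz (BT.all2 (xchk xE) g18870 x18870) = true := by decide +kernel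
noncomputable def rx18876 : iz (BT.all2 (xchk xE) g18876 x18876) = true := by decide +kernel
noncomputable def rx18884 : iz (BT.all2 (xchk xE) g18884 x18884) = true := by decide +kernel
noncomputable def rx18894 : iz (BT.all2 (xchk xE) g18894 x18894) = true := by decide +kernel
noncomputable def rx18902 : iz (BT.all2 (xchk xE) g18902 x18902) = true := by decide +kernel
noncomputable def rx18910 : iz (BT.all2 (xchk xE) g18910 x18910) = true := by decide +kernel
noncomputable def rx18916 : iz (BT.all2 (xchk xE) g18916 x18916) = true := by decide +kernel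
noncomputable def rx18922 : iz (BT.all2 (xchk xE) g18922 x18922) = true := by decide +kernel
noncomputable def rx18930 : iz (BT.all2 (xchk xE) g18930 x18930) = true := by decide +kernel
noncomputable def rx18936 : iz (BT.all2 (xchk xE) g18936 x18936) = true := by decide +kernel
noncomputable def rx18943 : iz (BT.all2 (xchk xE) g18943 x18943) = true := by decide +kernel
noncomputable def rx18946 : iz (BT.all2 (xchk xE) g18946 x18946) = true := by decide +kernel
noncomputable def rx18953 : iz (BT.all2 (xchk xE) g18953 x18953) = true := by decide +kernel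
noncomputable def rx18958 : iz (BT.all2 (xchk xE) g18958 x18958) = true := by decide +kernel
noncomputable def rx18963 : iz (BT.all2 (xchk xE) g18963 x18963) = true := by decide +kernel
noncomputable def rx18969 : iz (BT.all2 (xchk xE) g18969 x18969) = true := by decide +kernel
noncomputable def rx18978 : iz (BT.all2 (xchk xE) g18978 x18978) = true := by decide +kernel
noncomputable def rx18984 : iz (BT.all2 (xchk xE) g18984 x18984) = true := by decide +kernel
noncomputable def rx18993 : iz (BT.all2 (xchk xE) g18993 x18993) = true := by decide +kernel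
noncomputable def rx19001 : iz (BT.all2 (xchk xE) g19001 x19001) = true := by decide +kernel
noncomputable def rx19009 : iz (BT.all2 (xchk xE) g19009 x19009) = true := by decide +kernel
noncomputable def rx19015 : iz (BT.all2 (xchk xE) g19015 x19015) = true := by decide +kernel
noncomputable def rx19019 : iz (BT.all2 (xchk xE) g19019 x19019) = true := by decide +kernel
noncomputable def rx19027 : iz (BT.all2 (xchk xE) g19027 x19027) = true := by decide +kernel
noncomputable def rx19033 : iz (BT.all2 (xchk xE) g19033 x19033) = true := by decide +kernel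
noncomputable def rx19039 : iz (BT.all2 (xchk xE) g19039 x19039) = true := by decide +kernel
noncomputable def rx19043 : iz (BT.all2 (xchk xE) g19043 x19043) = true := by decide +kernel
noncomputable def rx19047 : iz (BT.all2 (xchk xE) g19047 x19047) = true := by decide +kernel
noncomputable def rx19053 : iz (BT.all2 (xchk xE) g19053 x19053) = true := by decide +kernel
noncomputable def rx19058 : iz (BT.all2 (xchk xE) g19058 x19058) = true := by decide +kernel
noncomputable def rx19061 : iz (BT.all2 (xchk xE) g19061 x19061) = true := by decide +kernel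
noncomputable def rx19068 : iz (BT.all2 (xchk xE) g19068 x19068) = true := by decide +kernel
noncomputable def rx19073 : iz (BT.all2 (xchk xE) g19073 x19073) = true := by decide +kernel
noncomputable def rx19076 : iz (BT.all2 (xchk xE) g19076 x19076) = true := by decide +kernel
noncomputable def rx19082 : iz (BT.all2 (xchk xE) g19082 x19082) = true := by decide +kernel
noncomputable def rx19084 : iz (BT.all2 (xchk xE) g19084 x19084) = true := by decide +kernel
noncomputable def rx19090 : iz (BT.all2 (xchk xE) g19090 x19090) = true := by decide +kernel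
noncomputable def rx19096 : iz (BT.all2 (xchk xE) g19096 x19096) = true := by decide +kernel
noncomputable def rx19102 : iz (BT.all2 (xchk xE) g19102 x19102) = true := by decide +kernel
noncomputable def rx19106 : iz (BT.all2 (xchk xE) g19106 x19106) = true := by decide +kernel
noncomputable def rx19112 : iz (BT.all2 (xchk xE) g19112 x19112) = true := by decide +kernel
noncomputable def rx19121 : iz (BT.all2 (xchk xE) g19121 x19121) = true := by decide +kernel
noncomputable def rx19128 : iz (BT.all2 (xchk xE) g19128 x19128) = true := by decide +kernel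
noncomputable def rx19136 : iz (BT.all2 (xchk xE) g19136 x19136) = true := by decide +kernel
noncomputable def rx19142 : iz (BT.all2 (xchk xE) g19142 x19142) = true := by decide +kernel
noncomputable def rx19149 : iz (BT.all2 (xchk xE) g19149 x19149) = true := by decide +kernel
noncomputable def rx19152 : iz (BT.all2 (xchk xE) g19152 x19152) = true := by decide +kernel
noncomputable def rx19158 : iz (BT.all2 (xchk xE) g19158 x19158) = true := by decide +kernel
noncomputable def rx19162 : iz (BT.all2 (xchk xE) g19162 x19162) = true := by decide +kernel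
noncomputable def rx19168 : iz (BT.all2 (xchk xE) g19168 x19168) = true := by decide +kernel
noncomputable def rx19174 : iz (BT.all2 (xchk xE) g19174 x19174) = true := by decide +kernel
noncomputable def rx19180 : iz (BT.all2 (xchk xE) g19180 x19180) = true := by decide +kernel
noncomputable def rx19188 : iz (BT.all2 (xchk xE) g19188 x19188) = true := by decide +kernel
noncomputable def rx19192 : iz (BT.all2 (xchk xE) g19192 x19192) = true := by decide +kernel
noncomputable def rx19199 : iz (BT.all2 (xchk xE) g19199 x19199) = true := by decide +kernel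
noncomputable def rx19208 : iz (BT.all2 (xchk xE) g19208 x19208) = true := by decide +kernel
noncomputable def rx19216 : iz (BT.all2 (xchk xE) g19216 x19216) = true := by decide +kernel
noncomputable def rx19220 : iz (BT.all2 (xchk xE) g19220 x19220) = true := by decide +kernel
noncomputable def rx19227 : iz (BT.all2 (xchk xE) g19227 x19227) = true := by decide +kernel
noncomputable def rx19230 : iz (BT.all2 (xchk xE) g19230 x19230) = true := by decide +kernel
noncomputable def rx19239 : iz (BT.all2 (xchk xE) g19239 x19239) = true := by decide +kernel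
noncomputable def rx19244 : iz (BT.all2 (xchk xE) g19244 x19244) = true := by decide +kernel
noncomputable def rx19247 : iz (BT.all2 (xchk xE) g19247 x19247) = true := by decide +kernel
noncomputable def rx19257 : iz (BT.all2 (xchk xE) g19257 x19257) = true := by decide +kernel
noncomputable def rx19258 : iz (BT.all2 (xchk xE) g19258 x19258) = true := by decide +kernel
noncomputable def rx19261 : iz (BT.all2 (xchk xE) g19261 x19261) = true := by decide +kernel
noncomputable def rx19271 : iz (BT.all2 (xchk xE) g19271 x19271) = true := by decide +kernel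
noncomputable def rx19281 : iz (BT.all2 (xchk xE) g19281 x19281) = true := by decide +kernel
noncomputable def rx19285 : iz (BT.all2 (xchk xE) g19285 x19285) = true := by decide +kernel
noncomputable def rx19291 : iz (BT.all2 (xchk xE) g19291 x19291) = true := by decide +kernel
noncomputable def rx19296 : iz (BT.all2 (xchk xE) g19296 x19296) = true := by decide +kernel
noncomputable def rx19303 : iz (BT.all2 (xchk xE) g19303 x19303) = true := by decide +kernel
noncomputable def rx19309 : iz (BT.all2 (xchk xE) g19309 x19309) = true := by decide +kernel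
noncomputable def rx19316 : iz (BT.all2 (xchk xE) g19316 x19316) = true := by decide +kernel
noncomputable def rx19320 : iz (BT.all2 (xchk xE) g19320 x19320) = true := by decide +kernel
noncomputable def rx19329 : iz (BT.all2 (xchk xE) g19329 x19329) = true := by decide +kernel
noncomputable def rx19335 : iz (BT.all2 (xchk xE) g19335 x19335) = true := by decide +kernel
noncomputable def rx19341 : iz (BT.all2 (xchk xE) g19341 x19341) = true := by decide +kernel
noncomputable def rx19348 : iz (BT.all2 (xchk xE) g19348 x19348) = true := by decide +kernel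
noncomputable def rx19354 : iz (BT.all2 (xchk xE) g19354 x19354) = true := by decide +kernel
noncomputable def rx19360 : iz (BT.all2 (xchk xE) g19360 x19360) = true := by decide +kernel
noncomputable def rx19367 : iz (BT.all2 (xchk xE) g19367 x19367) = true := by decide +kernel
noncomputable def rx19375 : iz (BT.all2 (xchk xE) g19375 x19375) = true := by decide +kernel
noncomputable def rx19381 : iz (BT.all2 (xchk xE) g19381 x19381) = true := by decide +kernel
noncomputable def rx19387 : iz (BT.all2 (xchk xE) g19387 x19387) = true := by decide +kernel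
noncomputable def rx19393 : iz (BT.all2 (xchk xE) g19393 x19393) = true := by decide +kernel
noncomputable def rx19399 : iz (BT.all2 (xchk xE) g19399 x19399) = true := by decide +kernel
noncomputable def rX13 : OK2 (xchk xE) tG13 tX13 := (ok2_nd (nat_lit 18828) (ok2_nd (nat_lit 18530) (ok2_nd (nat_lit 18382) (ok2_nd (nat_lit 18305) (ok2_nd (nat_lit 18262) (ok2_nd (nat_lit 18239) (ok2_nd (nat_lit 18234) (ok2_of rx18228) (ok2_of rx18234)) (ok2_nd (nat_lit 18247) (ok2_of rx18239) (ok2_nd (nat_lit 18253) (ok2_of rx18247) (ok2_of rx18253)))) (ok2_nd (nat_lit 18286) (ok2_nd (nat_lit 18270) (ok2_of rx18262) (ok2_nd (nat_lit 18280) (ok2_of rx18270) (ok2_of rx18280))) (ok2_nd (nat_lit 18292) (ok2_of rx18286) (ok2_nd (nat_lit 18301) (ok2_of rx18292) (ok2_of rx18301))))) (ok2_nd (nat_lit 18342) (ok2_nd (nat_lit 18325) (ok2_nd (nat_lit 18314) (ok2_of rx18305) (ok2_nd (nat_lit 18319) (ok2_of rx18314) (ok2_of rx18319))) (ok2_nd (nat_lit 18334) (ok2_of rx18325) (ok2_nd (nat_lit 18336) (ok2_of rx18334) (ok2_of rx18336)))) (ok2_nd (nat_lit 18362) (ok2_nd (nat_lit 18348) (ok2_of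 rx18342) (ok2_nd (nat_lit 18356) (ok2_of rx18348) (ok2_of rx18356))) (ok2_nd (nat_lit 18369) (ok2_of rx18362) (ok2_nd (nat_lit 18376) (ok2_of rx18369) (ok2_of rx18376)))))) (ok2_nd (nat_lit 18454) (ok2_nd (nat_lit 18415) (ok2_nd (nat_lit 18397) (ok2_nd (nat_lit 18391) (ok2_of rx18382) (ok2_of rx18391)) (ok2_nd (nat_lit 18403) (ok2_of rx18397) (ok2_nd (nat_lit 18409) (ok2_of rx18403) (ok2_of rx18409)))) (ok2_nd (nat_lit 18434) (ok2_nd (nat_lit 18421) (ok2_of rx18415) (ok2_nd (nat_lit 18428) (ok2_of rx18421) (ok2_of rx18428))) (ok2_nd (nat_lit 18443) (ok2_of rx18434) (ok2_nd (nat_lit 18449) (ok2_of rx18443) (ok2_of rx18449))))) (ok2_nd (nat_lit 18487) (ok2_nd (nat_lit 18468) (ok2_nd (nat_lit 18456) (ok2_of rx18454) (ok2_nd (nat_lit 18462) (ok2_of rx18456) (ok2_of rx18462))) (ok2_nd (nat_lit 18476) (ok2_of rx18468) (ok2_nd (nat_lit 18482) (ok2_of rx18476) (ok2_of rx18482)))) (ok2_nd (nat_lit 18511) (ok2_nd (nat_lit 18496) (ok2_of rx18487) (ok2_nd (nat_lit 18505) (ok2_of rx18496) (ok2_of rx18505))) (ok2_nd (nat_lit 18518) (ok2_of rx18511) (ok2_nd (nat_lit 18523)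 (ok2_of rx18518) (ok2_of rx18523))))))) (ok2_nd (nat_lit 18667) (ok2_nd (nat_lit 18599) (ok2_nd (nat_lit 18560) (ok2_nd (nat_lit 18542) (ok2_nd (nat_lit 18536) (ok2_of rx18530) (ok2_of rx18536)) (ok2_nd (nat_lit 18550) (ok2_of rx18542) (ok2_nd (nat_lit 18554) (ok2_of rx18550) (ok2_of rx18554)))) (ok2_nd (nat_lit 18573) (ok2_nd (nat_lit 18564) (ok2_of rx18560) (ok2_nd (nat_lit 18569) (ok2_of rx18564) (ok2_of rx18569))) (ok2_nd (nat_lit 18581) (ok2_of rx18573) (ok2_nd (nat_lit 18588) (ok2_of rx18581) (ok2_of rx18588))))) (ok2_nd (nat_lit 18631) (ok2_nd (nat_lit 18617) (ok2_nd (nat_lit 18605) (ok2_of rx18599) (ok2_nd (nat_lit 18611) (ok2_of rx18605) (ok2_of rx18611))) (ok2_nd (nat_lit 18620) (ok2_of rx18617) (ok2_nd (nat_lit 18626) (ok2_of rx18620) (ok2_of rx18626)))) (ok2_nd (nat_lit 18648) (ok2_nd (nat_lit 18637) (ok2_of rx18631) (ok2_nd (nat_lit 18643) (ok2_of rx18637) (ok2_of rx18643))) (ok2_nd (nat_lit 18654) (ok2_of rx18648) (ok2_nd (nat_lit 18662) (ok2_of rx18654) (ok2_of rx18662)))))) (ok2_nd (nat_lit 18748) (ok2_nd (nat_lit 18703) (ok2_nd (nat_lit 18683)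 (ok2_nd (nat_lit 18674) (ok2_of rx18667) (ok2_of rx18674)) (ok2_nd (nat_lit 18689) (ok2_of rx18683) (ok2_nd (nat_lit 18693) (ok2_of rx18689) (ok2_of rx18693)))) (ok2_nd (nat_lit 18726) (ok2_nd (nat_lit 18712) (ok2_of rx18703) (ok2_nd (nat_lit 18717) (ok2_of rx18712) (ok2_of rx18717))) (ok2_nd (nat_lit 18732) (ok2_of rx18726) (ok2_nd (nat_lit 18738) (ok2_of rx18732) (ok2_of rx18738))))) (ok2_nd (nat_lit 18784) (ok2_nd (nat_lit 18763) (ok2_nd (nat_lit 18753) (ok2_of rx18748) (ok2_nd (nat_lit 18756) (ok2_of rx18753) (ok2_of rx18756))) (ok2_nd (nat_lit 18769) (ok2_of rx18763) (ok2_nd (nat_lit 18778) (ok2_of rx18769) (ok2_of rx18778)))) (ok2_nd (nat_lit 18810) (ok2_nd (nat_lit 18794) (ok2_of rx18784) (ok2_nd (nat_lit 18801) (ok2_of rx18794) (ok2_of rx18801))) (ok2_nd (nat_lit 18816) (ok2_of rx18810) (ok2_nd (nat_lit 18822) (ok2_of rx18816) (ok2_of rx18822)))))))) (ok2_nd (nat_lit 19112) (ok2_nd (nat_lit 18984) (ok2_nd (nat_lit 18910) (ok2_nd (nat_lit 18860) (ok2_nd (nat_lit 18839) (ok2_nd (nat_lit 18836) (ok2_of rx18828) (ok2_of rx18836)) (ok2_nd (nat_lit 18845)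 (ok2_of rx18839) (ok2_nd (nat_lit 18851) (ok2_of rx18845) (ok2_of rx18851)))) (ok2_nd (nat_lit 18884) (ok2_nd (nat_lit 18870) (ok2_of rx18860) (ok2_nd (nat_lit 18876) (ok2_of rx18870) (ok2_of rx18876))) (ok2_nd (nat_lit 18894) (ok2_of rx18884) (ok2_nd (nat_lit 18902) (ok2_of rx18894) (ok2_of rx18902))))) (ok2_nd (nat_lit 18946) (ok2_nd (nat_lit 18930) (ok2_nd (nat_lit 18916) (ok2_of rx18910) (ok2_nd (nat_lit 18922) (ok2_of rx18916) (ok2_of rx18922))) (ok2_nd (nat_lit 18936) (ok2_of rx18930) (ok2_nd (nat_lit 18943) (ok2_of rx18936) (ok2_of rx18943)))) (ok2_nd (nat_lit 18963) (ok2_nd (nat_lit 18953) (ok2_of rx18946) (ok2_nd (nat_lit 18958) (ok2_of rx18953) (ok2_of rx18958))) (ok2_nd (nat_lit 18969) (ok2_of rx18963) (ok2_nd (nat_lit 18978) (ok2_of rx18969) (ok2_of rx18978)))))) (ok2_nd (nat_lit 19053) (ok2_nd (nat_lit 19019) (ok2_nd (nat_lit 19001) (ok2_nd (nat_lit 18993) (ok2_of rx18984) (ok2_of rx18993)) (ok2_nd (nat_lit 19009) (ok2_of rx19001) (ok2_nd (nat_lit 19015) (ok2_of rx19009) (ok2_of rx19015)))) (ok2_nd (nat_lit 19039) (ok2_nd (nat_lit 19027) (ok2_of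 rx19019) (ok2_nd (nat_lit 19033) (ok2_of rx19027) (ok2_of rx19033))) (ok2_nd (nat_lit 19043) (ok2_of rx19039) (ok2_nd (nat_lit 19047) (ok2_of rx19043) (ok2_of rx19047))))) (ok2_nd (nat_lit 19082) (ok2_nd (nat_lit 19068) (ok2_nd (nat_lit 19058) (ok2_of rx19053) (ok2_nd (nat_lit 19061) (ok2_of rx19058) (ok2_of rx19061))) (ok2_nd (nat_lit 19073) (ok2_of rx19068) (ok2_nd (nat_lit 19076) (ok2_of rx19073) (ok2_of rx19076)))) (ok2_nd (nat_lit 19096) (ok2_nd (nat_lit 19084) (ok2_of rx19082) (ok2_nd (nat_lit 19090) (ok2_of rx19084) (ok2_of rx19090))) (ok2_nd (nat_lit 19102) (ok2_of rx19096) (ok2_nd (nat_lit 19106) (ok2_of rx19102) (ok2_of rx19106))))))) (ok2_nd (nat_lit 19257) (ok2_nd (nat_lit 19180) (ok2_nd (nat_lit 19149) (ok2_nd (nat_lit 19128) (ok2_nd (nat_lit 19121) (ok2_of rx19112) (ok2_of rx19121)) (ok2_nd (nat_lit 19136) (ok2_of rx19128) (ok2_nd (nat_lit 19142) (ok2_of rx19136) (ok2_of rx19142)))) (ok2_nd (nat_lit 19162) (ok2_nd (nat_lit 19152) (ok2_of rx19149) (ok2_nd (nat_lit 19158) (ok2_of rx19152) (ok2_of rx19158))) (ok2_nd (nat_lit 19168) (ok2_of rx19162)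 (ok2_nd (nat_lit 19174) (ok2_of rx19168) (ok2_of rx19174))))) (ok2_nd (nat_lit 19220) (ok2_nd (nat_lit 19199) (ok2_nd (nat_lit 19188) (ok2_of rx19180) (ok2_nd (nat_lit 19192) (ok2_of rx19188) (ok2_of rx19192))) (ok2_nd (nat_lit 19208) (ok2_of rx19199) (ok2_nd (nat_lit 19216) (ok2_of rx19208) (ok2_of rx19216)))) (ok2_nd (nat_lit 19239) (ok2_nd (nat_lit 19227) (ok2_of rx19220) (ok2_nd (nat_lit 19230) (ok2_of rx19227) (ok2_of rx19230))) (ok2_nd (nat_lit 19244) (ok2_of rx19239) (ok2_nd (nat_lit 19247) (ok2_of rx19244) (ok2_of rx19247)))))) (ok2_nd (nat_lit 19329) (ok2_nd (nat_lit 19291) (ok2_nd (nat_lit 19271) (ok2_nd (nat_lit 19258) (ok2_of rx19257) (ok2_nd (nat_lit 19261) (ok2_of rx19258) (ok2_of rx19261))) (ok2_nd (nat_lit 19281) (ok2_of rx19271) (ok2_nd (nat_lit 19285) (ok2_of rx19281) (ok2_of rx19285)))) (ok2_nd (nat_lit 19309) (ok2_nd (nat_lit 19296) (ok2_of rx19291) (ok2_nd (nat_lit 19303) (ok2_of rx19296) (ok2_of rx19303))) (ok2_nd (nat_lit 19316) (ok2_of rx19309) (ok2_nd (nat_lit 19320) (ok2_of rx19316) (ok2_of rx19320))))) (ok2_nd (nat_lit 19367) (ok2_nd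 (nat_lit 19348) (ok2_nd (nat_lit 19335) (ok2_of rx19329) (ok2_nd (nat_lit 19341) (ok2_of rx19335) (ok2_of rx19341))) (ok2_nd (nat_lit 19354) (ok2_of rx19348) (ok2_nd (nat_lit 19360) (ok2_of rx19354) (ok2_of rx19360)))) (ok2_nd (nat_lit 19387) (ok2_nd (nat_lit 19375) (ok2_of rx19367) (ok2_nd (nat_lit 19381) (ok2_of rx19375) (ok2_of rx19381))) (ok2_nd (nat_lit 19393) (ok2_of rx19387) (ok2_nd (nat_lit 19399) (ok2_of rx19393) (ok2_of rx19399)))))))))

end Pool.Agent.MP_797bdc_co.Lk.Da
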