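import Pool.Agent.MP_797bdc_co.Lk.XA
import Pool.Agent.MP_797bdc_co.Lk.DE
import Pool.Agent.MP_797bdc_co.Lk.DG14
import Pool.Agent.MP_797bdc_co.Lk.DX14

/-! Run of checker X. -/

set_option maxRecDepth 100000
set_option linter.defProp false

namespace Pool.Agent.MP_797bdc_co.Lk.Da

noncomputable def rx19407 : iz (BT.all2 (xchk xE) g19407 x19407) = true := by decide +kernel
noncomputable def rx19416 : iz (BT.all2 (xchk xE) g19416 x19416) = true := by decide +kernel
noncomputable def rx19421 : iz (BT.all2 (xchk xE) g19421 x19421) = true := by decide +kernel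
noncomputable def rx19427 : iz (BT.all2 (xchk xE) g19427 x19427) = true := by decide +kernel
noncomputable def rx19436 : iz (BT.all2 (xchk xE) g19436 x19436) = true := by decide +kernel
noncomputable def rx19441 : iz (BT.all2 (xchk xE) g19441 x19441) = true := by decide +kernel
noncomputable def rx19451 : iz (BT.all2 (xchk xE) g19451 x19451) = true := by decide +kernel
noncomputable def rx19460 : iz (BT.all2 (xchk xE) g19460 x19460) = true := by decide +kernel
noncomputable def rx19466 : iz (BT.all2 (xchk xE) g19466 x19466) = true := by decide +kernel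
noncomputable def rx19472 : iz (BT.all2 (xchk xE) g19472 x19472) = true := by decide +kernel
noncomputable def rx19478 : iz (BT.all2 (xchk xE) g19478 x19478) = true := by decide +kernel
noncomputable def rx19481 : iz (BT.all2 (xchk xE) g19481 x19481) = true := by decide +kernel
noncomputable def rx19489 : iz (BT.all2 (xchk xE) g19489 x19489) = true := by decide +kernel
noncomputable def rx19495 : iz (BT.all2 (xchk xE) g19495 x19495) = true := by decide +kernel
noncomputable def rx19501 : iz (BT.all2 (xchk xE) g19501 x19501) = true := by decide +kernel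
noncomputable def rx19509 : iz (BT.all2 (xchk xE) g19509 x19509) = true := by decide +kernel
noncomputable def rx19516 : iz (BT.all2 (xchk xE) g19516 x19516) = true := by decide +kernel
noncomputable def rx19522 : iz (BT.all2 (xchk xE) g19522 x19522) = true := by decide +kernel
noncomputable def rx19528 : iz (BT.all2 (xchk xE) g19528 x19528) = true := by decide +kernel
noncomputable def rx19533 : iz (BT.all2 (xchk xE) g19533 x19533) = true := by decide +kernel
noncomputable def rx19539 : iz (BT.all2 (xchk xE) g19539 x19539) = true := by decide +kernel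
noncomputable def rx19544 : iz (BT.all2 (xchk xE) g19544 x19544) = true := by decide +kernel
noncomputable def rx19550 : iz (BT.all2 (xchk xE) g19550 x19550) = true := by decide +kernel
noncomputable def rx19556 : iz (BT.all2 (xchk xE) g19556 x19556) = true := by decide +kernel
noncomputable def rx19562 : iz (BT.all2 (xchk xE) g19562 x19562) = true := by decide +kernel
noncomputable def rx19570 : iz (BT.all2 (xchk xE) g19570 x19570) = true := by decide +kernel
noncomputable def rx19574 : iz (BT.all2 (xchk xE) g19574 x19574) = true := by decide +kernel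
noncomputable def rx19580 : iz (BT.all2 (xchk xE) g19580 x19580) = true := by decide +kernel
noncomputable def rx19586 : iz (BT.all2 (xchk xE) g19586 x19586) = true := by decide +kernel
noncomputable def rx19591 : iz (BT.all2 (xchk xE) g19591 x19591) = true := by decide +kernel
noncomputable def rx19596 : iz (BT.all2 (xchk xE) g19596 x19596) = true := by decide +kernel
noncomputable def rx19606 : iz (BT.all2 (xchk xE) g19606 x19606) = true := by decide +kernel
noncomputable def rx19612 : iz (BT.all2 (xchk xE) g19612 x19612) = true := by decide +kernel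
noncomputable def rx19618 : iz (BT.all2 (xchk xE) g19618 x19618) = true := by decide +kernel
noncomputable def rx19624 : iz (BT.all2 (xchk xE) g19624 x19624) = true := by decide +kernel
noncomputable def rx19630 : iz (BT.all2 (xchk xE) g19630 x19630) = true := by decide +kernel
noncomputable def rx19635 : iz (BT.all2 (xchk xE) g19635 x19635) = true := by decide +kernel
noncomputable def rx19638 : iz (BT.all2 (xchk xE) g19638 x19638) = true := by decide +kernel
noncomputable def rx19648 : iz (BT.all2 (xchk xE) g19648 x19648) = true := by decide +kernel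
noncomputable def rx19652 : iz (BT.all2 (xchk xE) g19652 x19652) = true := by decide +kernel
noncomputable def rx19657 : iz (BT.all2 (xchk xE) g19657 x19657) = true := by decide +kernel
noncomputable def rx19662 : iz (BT.all2 (xchk xE) g19662 x19662) = true := by decide +kernel
noncomputable def rx19668 : iz (BT.all2 (xchk xE) g19668 x19668) = true := by decide +kernel
noncomputable def rx19674 : iz (BT.all2 (xchk xE) g19674 x19674) = true := by decide +kernel
noncomputable def rx19680 : iz (BT.all2 (xchk xE) g19680 x19680) = true := by decide +kernel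
noncomputable def rx19690 : iz (BT.all2 (xchk xE) g19690 x19690) = true := by decide +kernel
noncomputable def rx19696 : iz (BT.all2 (xchk xE) g19696 x19696) = true := by decide +kernel
noncomputable def rx19705 : iz (BT.all2 (xchk xE) g19705 x19705) = true := by decide +kernel
noncomputable def rx19718 : iz (BT.all2 (xchk xE) g19718 x19718) = true := by decide +kernel
noncomputable def rx19723 : iz (BT.all2 (xchk xE) g19723 x19723) = true := by decide +kernel
noncomputable def rx19727 : iz (BT.all2 (xchk xE) g19727 x19727) = true := by decide +kernel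
noncomputable def rx19733 : iz (BT.all2 (xchk xE) g19733 x19733) = true := by decide +kernel
noncomputable def rx19742 : iz (BT.all2 (xchk xE) g19742 x19742) = true := by decide +kernel
noncomputable def rx19747 : iz (BT.all2 (xchk xE) g19747 x19747) = true := by decide +kernel
noncomputable def rx19753 : iz (BT.all2 (xchk xE) g19753 x19753) = true := by decide +kernel
noncomputable def rx19759 : iz (BT.all2 (xchk xE) g19759 x19759) = true := by decide +kernel
noncomputable def rx19767 : iz (BT.all2 (xchk xE) g19767 x19767) = true := by decide +kernel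
noncomputable def rx19772 : iz (BT.all2 (xchk xE) g19772 x19772) = true := by decide +kernel
noncomputable def rx19778 : iz (BT.all2 (xchk xE) g19778 x19778) = true := by decide +kernel
noncomputable def rx19782 : iz (BT.all2 (xchk xE) g19782 x19782) = true := by decide +kernel
noncomputable def rx19788 : iz (BT.all2 (xchk xE) g19788 x19788) = true := by decide +kernel
noncomputable def rx19796 : iz (BT.all2 (xchk xE) g19796 x19796) = true := by decide +kernel
noncomputable def rx19802 : iz (BT.all2 (xchk xE) g19802 x19802) = true := by decide +kernel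
noncomputable def rx19808 : iz (BT.all2 (xchk xE) g19808 x19808) = true := by decide +kernel
noncomputable def rx19811 : iz (BT.all2 (xchk xE) g19811 x19811) = true := by decide +kernel
noncomputable def rx19815 : iz (BT.all2 (xchk xE) g19815 x19815) = true := by decide +kernel
noncomputable def rx19824 : iz (BT.all2 (xchk xE) g19824 x19824) = true := by decide +kernel
noncomputable def rx19829 : iz (BT.all2 (xchk xE) g19829 x19829) = true := by decide +kernel
noncomputable def rx19835 : iz (BT.all2 (xchk xE) g19835 x19835) = true := by decide +kernel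
noncomputable def rx19844 : iz (BT.all2 (xchk xE) g19844 x19844) = true := by decide +kernel
noncomputable def rx19850 : iz (BT.all2 (xchk xE) g19850 x19850) = true := by decide +kernel
noncomputable def rx19855 : iz (BT.all2 (xchk xE) g19855 x19855) = true := by decide +kernel
noncomputable def rx19861 : iz (BT.all2 (xchk xE) g19861 x19861) = true := by decide +kernel
noncomputable def rx19867 : iz (BT.all2 (xchk xE) g19867 x19867) = true := by decide +kernel
noncomputable def rx19877 : iz (BT.all2 (xchk xE) g19877 x19877) = true := by decide +kernel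
noncomputable def rx19880 : iz (BT.all2 (xchk xE) g19880 x19880) = true := by decide +kernel
noncomputable def rx19890 : iz (BT.all2 (xchk xE) g19890 x19890) = true := by decide +kernel
noncomputable def rx19893 : iz (BT.all2 (xchk xE) g19893 x19893) = true := by decide +kernel
noncomputable def rx19901 : iz (BT.all2 (xchk xE) g19901 x19901) = true := by decide +kernel
noncomputable def rx19911 : iz (BT.all2 (xchk xE) g19911 x19911) = true := by decide +kernel
noncomputable def rx19916 : iz (BT.all2 (xchk xE) g19916 x19916) = true := by decide +kernel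
noncomputable def rx19922 : iz (BT.all2 (xchk xE) g19922 x19922) = true := by decide +kernel
noncomputable def rx19928 : iz (BT.all2 (xchk xE) g19928 x19928) = true := by decide +kernel
noncomputable def rx19934 : iz (BT.all2 (xchk xE) g19934 x19934) = true := by decide +kernel
noncomputable def rx19943 : iz (BT.all2 (xchk xE) g19943 x19943) = true := by decide +kernel
noncomputable def rx19952 : iz (BT.all2 (xchk xE) g19952 x19952) = true := by decide +kernel
noncomputable def rx19958 : iz (BT.all2 (xchk xE) g19958 x19958) = true := by decide +kernel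
noncomputable def rx19966 : iz (BT.all2 (xchk xE) g19966 x19966) = true := by decide +kernel
noncomputable def rx19973 : iz (BT.all2 (xchk xE) g19973 x19973) = true := by decide +kernel
noncomputable def rx19979 : iz (BT.all2 (xchk xE) g19979 x19979) = true := by decide +kernel
noncomputable def rx19985 : iz (BT.all2 (xchk xE) g19985 x19985) = true := by decide +kernel
noncomputable def rx19991 : iz (BT.all2 (xchk xE) g19991 x19991) = true := by decide +kernel
noncomputable def rx20003 : iz (BT.all2 (xchk xE) g20003 x20003) = true := by decide +kernel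
noncomputable def rx20007 : iz (BT.all2 (xchk xE) g20007 x20007) = true := by decide +kernel
noncomputable def rx20012 : iz (BT.all2 (xchk xE) g20012 x20012) = true := by decide +kernel
noncomputable def rx20018 : iz (BT.all2 (xchk xE) g20018 x20018) = true := by decide +kernel
noncomputable def rx20024 : iz (BT.all2 (xchk xE) g20024 x20024) = true := by decide +kernel
noncomputable def rx20033 : iz (BT.all2 (xchk xE) g20033 x20033) = true := by decide +kernel
noncomputable def rx20038 : iz (BT.all2 (xchk xE) g20038 x20038) = true := by decide +kernel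
noncomputable def rx20047 : iz (BT.all2 (xchk xE) g20047 x20047) = true := by decide +kernel
noncomputable def rx20055 : iz (BT.all2 (xchk xE) g20055 x20055) = true := by decide +kernel
noncomputable def rx20058 : iz (BT.all2 (xchk xE) g20058 x20058) = true := by decide +kernel
noncomputable def rx20064 : iz (BT.all2 (xchk xE) g20064 x20064) = true := by decide +kernel
noncomputable def rx20073 : iz (BT.all2 (xchk xE) g20073 x20073) = true := by decide +kernel
noncomputable def rx20079 : iz (BT.all2 (xchk xE) g20079 x20079) = true := by decide +kernel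
noncomputable def rx20087 : iz (BT.all2 (xchk xE) g20087 x20087) = true := by decide +kernel
noncomputable def rx20093 : iz (BT.all2 (xchk xE) g20093 x20093) = true := by decide +kernel
noncomputable def rx20098 : iz (BT.all2 (xchk xE) g20098 x20098) = true := by decide +kernel
noncomputable def rx20103 : iz (BT.all2 (xchk xE) g20103 x20103) = true := by decide +kernel
noncomputable def rx20107 : iz (BT.all2 (xchk xE) g20107 x20107) = true := by decide +kernel
noncomputable def rx20113 : iz (BT.all2 (xchk xE) g20113 x20113) = true := by decide +kernel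
noncomputable def rx20119 : iz (BT.all2 (xchk xE) g20119 x20119) = true := by decide +kernel
noncomputable def rx20125 : iz (BT.all2 (xchk xE) g20125 x20125) = true := by decide +kernel
noncomputable def rx20132 : iz (BT.all2 (xchk xE) g20132 x20132) = true := by decide +kernel
noncomputable def rx20135 : iz (BT.all2 (xchk xE) g20135 x20135) = true := by decide +kernel
noncomputable def rx20141 : iz (BT.all2 (xchk xE) g20141 x20141) = true := by decide +kernel
noncomputable def rx20148 : iz (BT.all2 (xchk xE) g20148 x20148) = true := by decide +kernel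
noncomputable def rx20158 : iz (BT.all2 (xchk xE) g20158 x20158) = true := by decide +kernel
noncomputable def rx20167 : iz (BT.all2 (xchk xE) g20167 x20167) = true := by decide +kernel
noncomputable def rx20173 : iz (BT.all2 (xchk xE) g20173 x20173) = true := by decide +kernel
noncomputable def rx20182 : iz (BT.all2 (xchk xE) g20182 x20182) = true := by decide +kernel
noncomputable def rx20188 : iz (BT.all2 (xchk xE) g20188 x20188) = true := by decide +kernel
noncomputable def rx20196 : iz (BT.all2 (xchk xE) g20196 x20196) = true := by decide +kernel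
noncomputable def rx20203 : iz (BT.all2 (xchk xE) g20203 x20203) = true := by decide +kernel
noncomputable def rx20209 : iz (BT.all2 (xchk xE) g20209 x20209) = true := by decide +kernel
noncomputable def rx20215 : iz (BT.all2 (xchk xE) g20215 x20215) = true := by decide +kernel
noncomputable def rx20221 : iz (BT.all2 (xchk xE) g20221 x20221) = true := by decide +kernel
noncomputable def rx20228 : iz (BT.all2 (xchk xE) g20228 x20228) = true := by decide +kernel
noncomputable def rx20234 : iz (BT.all2 (xchk xE) g20234 x20234) = true := by decide +kernel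
noncomputable def rx20240 : iz (BT.all2 (xchk xE) g20240 x20240) = true := by decide +kernel
noncomputable def rx20246 : iz (BT.all2 (xchk xE) g20246 x20246) = true := by decide +kernel
noncomputable def rx20250 : iz (BT.all2 (xchk xE) g20250 x20250) = true := by decide +kernel
noncomputable def rx20258 : iz (BT.all2 (xchk xE) g20258 x20258) = true := by decide +kernel
noncomputable def rx20261 : iz (BT.all2 (xchk xE) g20261 x20261) = true := by decide +kernel
noncomputable def rx20265 : iz (BT.all2 (xchk xE) g20265 x20265) = true := by decide +kernel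
noncomputable def rx20270 : iz (BT.all2 (xchk xE) g20270 x20270) = true := by decide +kernel
noncomputable def rx20273 : iz (BT.all2 (xchk xE) g20273 x20273) = true := by decide +kernel
noncomputable def rx20279 : iz (BT.all2 (xchk xE) g20279 x20279) = true := by decide +kernel
noncomputable def rx20288 : iz (BT.all2 (xchk xE) g20288 x20288) = true := by decide +kernel
noncomputable def rx20296 : iz (BT.all2 (xchk xE) g20296 x20296) = true := by decide +kernel
noncomputable def rx20303 : iz (BT.all2 (xchk xE) g20303 x20303) = true := by decide +kernel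
noncomputable def rx20310 : iz (BT.all2 (xchk xE) g20310 x20310) = true := by decide +kernel
noncomputable def rx20315 : iz (BT.all2 (xchk xE) g20315 x20315) = true := by decide +kernel
noncomputable def rx20321 : iz (BT.all2 (xchk xE) g20321 x20321) = true := by decide +kernel
noncomputable def rx20329 : iz (BT.all2 (xchk xE) g20329 x20329) = true := by decide +kernel
noncomputable def rx20335 : iz (BT.all2 (xchk xE) g20335 x20335) = true := by decide +kernel
noncomputable def rx20343 : iz (BT.all2 (xchk xE) g20343 x20343) = true := by decide +kernel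
noncomputable def rx20348 : iz (BT.all2 (xchk xE) g20348 x20348) = true := by decide +kernel
noncomputable def rx20353 : iz (BT.all2 (xchk xE) g20353 x20353) = true := by decide +kernel
noncomputable def rx20359 : iz (BT.all2 (xchk xE) g20359 x20359) = true := by decide +kernel
noncomputable def rx20364 : iz (BT.all2 (xchk xE) g20364 x20364) = true := by decide +kernel
noncomputable def rx20373 : iz (BT.all2 (xchk xE) g20373 x20373) = true := by decide +kernel
noncomputable def rx20379 : iz (BT.all2 (xchk xE) g20379 x20379) = true := by decide +kernel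
noncomputable def rx20384 : iz (BT.all2 (xchk xE) g20384 x20384) = true := by decide +kernel
noncomputable def rx20390 : iz (BT.all2 (xchk xE) g20390 x20390) = true := by decide +kernel
noncomputable def rx20395 : iz (BT.all2 (xchk xE) g20395 x20395) = true := by decide +kernel
noncomputable def rx20401 : iz (BT.all2 (xchk xE) g20401 x20401) = true := by decide +kernel
noncomputable def rx20405 : iz (BT.all2 (xchk xE) g20405 x20405) = true := by decide +kernel
noncomputable def rx20412 : iz (BT.all2 (xchk xE) g20412 x20412) = true := by decide +kernel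
noncomputable def rx20418 : iz (BT.all2 (xchk xE) g20418 x20418) = true := by decide +kernel
noncomputable def rx20422 : iz (BT.all2 (xchk xE) g20422 x20422) = true := by decide +kernel
noncomputable def rx20428 : iz (BT.all2 (xchk xE) g20428 x20428) = true := by decide +kernel
noncomputable def rx20434 : iz (BT.all2 (xchk xE) g20434 x20434) = true := by decide +kernel
noncomputable def rx20438 : iz (BT.all2 (xchk xE) g20438 x20438) = true := by decide +kernel
noncomputable def rx20445 : iz (BT.all2 (xchk xE) g20445 x20445) = true := by decide +kernel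
noncomputable def rx20451 : iz (BT.all2 (xchk xE) g20451 x20451) = true := by decide +kernel
noncomputable def rx20461 : iz (BT.all2 (xchk xE) g20461 x20461) = true := by decide +kernel
noncomputable def rx20467 : iz (BT.all2 (xchk xE) g20467 x20467) = true := by decide +kernel
noncomputable def rx20474 : iz (BT.all2 (xchk xE) g20474 x20474) = true := by decide +kernel
noncomputable def rx20477 : iz (BT.all2 (xchk xE) g20477 x20477) = true := by decide +kernel
noncomputable def rx20483 : iz (BT.all2 (xchk xE) g20483 x20483) = true := by decide +kernel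
noncomputable def rx20489 : iz (BT.all2 (xchk xE) g20489 x20489) = true := by decide +kernel
noncomputable def rx20495 : iz (BT.all2 (xchk xE) g20495 x20495) = true := by decide +kernel
noncomputable def rx20501 : iz (BT.all2 (xchk xE) g20501 x20501) = true := by decide +kernel
noncomputable def rx20504 : iz (BT.all2 (xchk xE) g20504 x20504) = true := by decide +kernel
noncomputable def rx20513 : iz (BT.all2 (xchk xE) g20513 x20513) = true := by decide +kernel
noncomputable def rx20519 : iz (BT.all2 (xchk xE) g20519 x20519) = true := by decide +kernel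
noncomputable def rx20524 : iz (BT.all2 (xchk xE) g20524 x20524) = true := by decide +kernel
noncomputable def rx20533 : iz (BT.all2 (xchk xE) g20533 x20533) = true := by decide +kernel
noncomputable def rx20546 : iz (BT.all2 (xchk xE) g20546 x20546) = true := by decide +kernel
noncomputable def rx20554 : iz (BT.all2 (xchk xE) g20554 x20554) = true := by decide +kernel
noncomputable def rx20560 : iz (BT.all2 (xchk xE) g20560 x20560) = true := by decide +kernel
noncomputable def rx20568 : iz (BT.all2 (xchk xE) g20568 x20568) = true := by decide +kernel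
noncomputable def rx20575 : iz (BT.all2 (xchk xE) g20575 x20575) = true := by decide +kernel
noncomputable def rx20581 : iz (BT.all2 (xchk xE) g20581 x20581) = true := by decide +kernel
noncomputable def rX14 : OK2 (xchk xE) tG14 tX14 := (ok2_nd (nat_lit 20003) (ok2_nd (nat_lit 19696) (ok2_nd (nat_lit 19556) (ok2_nd (nat_lit 19481) (ok2_nd (nat_lit 19441) (ok2_nd (nat_lit 19421) (ok2_nd (nat_lit 19416) (ok2_of rx19407) (ok2_of rx19416)) (ok2_nd (nat_lit 19427) (ok2_of rx19421) (ok2_nd (nat_lit 19436) (ok2_of rx19427) (ok2_of rx19436)))) (ok2_nd (nat_lit 19466) (ok2_nd (nat_lit 19451) (ok2_of rx19441) (ok2_nd (nat_lit 19460) (ok2_of rx19451) (ok2_of rx19460))) (ok2_nd (nat_lit 19472) (ok2_of rx19466) (ok2_nd (nat_lit 19478) (ok2_of rx19472) (ok2_of rx19478))))) (ok2_nd (nat_lit 19522) (ok2_nd (nat_lit 19501) (ok2_nd (nat_lit 19489) (ok2_of rx19481) (ok2_nd (nat_lit 19495) (ok2_of rx19489) (ok2_of rx19495))) (ok2_nd (nat_lit 19509) (ok2_of rx19501) (ok2_nd (nat_lit 19516) (ok2_of rx19509) (ok2_of rx19516)))) (ok2_nd (nat_lit 19539) (ok2_nd (nat_lit 19528) (ok2_of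 rx19522) (ok2_nd (nat_lit 19533) (ok2_of rx19528) (ok2_of rx19533))) (ok2_nd (nat_lit 19544) (ok2_of rx19539) (ok2_nd (nat_lit 19550) (ok2_of rx19544) (ok2_of rx19550)))))) (ok2_nd (nat_lit 19624) (ok2_nd (nat_lit 19586) (ok2_nd (nat_lit 19570) (ok2_nd (nat_lit 19562) (ok2_of rx19556) (ok2_of rx19562)) (ok2_nd (nat_lit 19574) (ok2_of rx19570) (ok2_nd (nat_lit 19580) (ok2_of rx19574) (ok2_of rx19580)))) (ok2_nd (nat_lit 19606) (ok2_nd (nat_lit 19591) (ok2_of rx19586) (ok2_nd (nat_lit 19596) (ok2_of rx19591) (ok2_of rx19596))) (ok2_nd (nat_lit 19612) (ok2_of rx19606) (ok2_nd (nat_lit 19618) (ok2_of rx19612) (ok2_of rx19618))))) (ok2_nd (nat_lit 19657) (ok2_nd (nat_lit 19638) (ok2_nd (nat_lit 19630) (ok2_of rx19624) (ok2_nd (nat_lit 19635) (ok2_of rx19630) (ok2_of rx19635))) (ok2_nd (nat_lit 19648) (ok2_of rx19638) (ok2_nd (nat_lit 19652) (ok2_of rx19648) (ok2_of rx19652)))) (ok2_nd (nat_lit 19674) (ok2_nd (nat_lit 19662) (ok2_of rx19657) (ok2_nd (nat_lit 19668) (ok2_of rx19662) (ok2_of rx19668))) (ok2_nd (nat_lit 19680) (ok2_of rx19674) (ok2_nd (nat_lit 19690)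 (ok2_of rx19680) (ok2_of rx19690))))))) (ok2_nd (nat_lit 19844) (ok2_nd (nat_lit 19772) (ok2_nd (nat_lit 19733) (ok2_nd (nat_lit 19718) (ok2_nd (nat_lit 19705) (ok2_of rx19696) (ok2_of rx19705)) (ok2_nd (nat_lit 19723) (ok2_of rx19718) (ok2_nd (nat_lit 19727) (ok2_of rx19723) (ok2_of rx19727)))) (ok2_nd (nat_lit 19753) (ok2_nd (nat_lit 19742) (ok2_of rx19733) (ok2_nd (nat_lit 19747) (ok2_of rx19742) (ok2_of rx19747))) (ok2_nd (nat_lit 19759) (ok2_of rx19753) (ok2_nd (nat_lit 19767) (ok2_of rx19759) (ok2_of rx19767))))) (ok2_nd (nat_lit 19808) (ok2_nd (nat_lit 19788) (ok2_nd (nat_lit 19778) (ok2_of rx19772) (ok2_nd (nat_lit 19782) (ok2_of rx19778) (ok2_of rx19782))) (ok2_nd (nat_lit 19796) (ok2_of rx19788) (ok2_nd (nat_lit 19802) (ok2_of rx19796) (ok2_of rx19802)))) (ok2_nd (nat_lit 19824) (ok2_nd (nat_lit 19811) (ok2_of rx19808) (ok2_nd (nat_lit 19815) (ok2_of rx19811) (ok2_of rx19815))) (ok2_nd (nat_lit 19829) (ok2_of rx19824) (ok2_nd (nat_lit 19835) (ok2_of rx19829) (ok2_of rx19835)))))) (ok2_nd (nat_lit 19916) (ok2_nd (nat_lit 19877) (ok2_nd (nat_lit 19855)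 (ok2_nd (nat_lit 19850) (ok2_of rx19844) (ok2_of rx19850)) (ok2_nd (nat_lit 19861) (ok2_of rx19855) (ok2_nd (nat_lit 19867) (ok2_of rx19861) (ok2_of rx19867)))) (ok2_nd (nat_lit 19893) (ok2_nd (nat_lit 19880) (ok2_of rx19877) (ok2_nd (nat_lit 19890) (ok2_of rx19880) (ok2_of rx19890))) (ok2_nd (nat_lit 19901) (ok2_of rx19893) (ok2_nd (nat_lit 19911) (ok2_of rx19901) (ok2_of rx19911))))) (ok2_nd (nat_lit 19958) (ok2_nd (nat_lit 19934) (ok2_nd (nat_lit 19922) (ok2_of rx19916) (ok2_nd (nat_lit 19928) (ok2_of rx19922) (ok2_of rx19928))) (ok2_nd (nat_lit 19943) (ok2_of rx19934) (ok2_nd (nat_lit 19952) (ok2_of rx19943) (ok2_of rx19952)))) (ok2_nd (nat_lit 19979) (ok2_nd (nat_lit 19966) (ok2_of rx19958) (ok2_nd (nat_lit 19973) (ok2_of rx19966) (ok2_of rx19973))) (ok2_nd (nat_lit 19985) (ok2_of rx19979) (ok2_nd (nat_lit 19991) (ok2_of rx19985) (ok2_of rx19991)))))))) (ok2_nd (nat_lit 20288) (ok2_nd (nat_lit 20141) (ok2_nd (nat_lit 20073) (ok2_nd (nat_lit 20033) (ok2_nd (nat_lit 20012) (ok2_nd (nat_lit 20007) (ok2_of rx20003) (ok2_of rx20007)) (ok2_nd (nat_lit 20018)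 (ok2_of rx20012) (ok2_nd (nat_lit 20024) (ok2_of rx20018) (ok2_of rx20024)))) (ok2_nd (nat_lit 20055) (ok2_nd (nat_lit 20038) (ok2_of rx20033) (ok2_nd (nat_lit 20047) (ok2_of rx20038) (ok2_of rx20047))) (ok2_nd (nat_lit 20058) (ok2_of rx20055) (ok2_nd (nat_lit 20064) (ok2_of rx20058) (ok2_of rx20064))))) (ok2_nd (nat_lit 20107) (ok2_nd (nat_lit 20093) (ok2_nd (nat_lit 20079) (ok2_of rx20073) (ok2_nd (nat_lit 20087) (ok2_of rx20079) (ok2_of rx20087))) (ok2_nd (nat_lit 20098) (ok2_of rx20093) (ok2_nd (nat_lit 20103) (ok2_of rx20098) (ok2_of rx20103)))) (ok2_nd (nat_lit 20125) (ok2_nd (nat_lit 20113) (ok2_of rx20107) (ok2_nd (nat_lit 20119) (ok2_of rx20113) (ok2_of rx20119))) (ok2_nd (nat_lit 20132) (ok2_of rx20125) (ok2_nd (nat_lit 20135) (ok2_of rx20132) (ok2_of rx20135)))))) (ok2_nd (nat_lit 20221) (ok2_nd (nat_lit 20182) (ok2_nd (nat_lit 20158) (ok2_nd (nat_lit 20148) (ok2_of rx20141) (ok2_of rx20148)) (ok2_nd (nat_lit 20167) (ok2_of rx20158) (ok2_nd (nat_lit 20173) (ok2_of rx20167) (ok2_of rx20173)))) (ok2_nd (nat_lit 20203) (ok2_nd (nat_lit 20188) (ok2_of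 rx20182) (ok2_nd (nat_lit 20196) (ok2_of rx20188) (ok2_of rx20196))) (ok2_nd (nat_lit 20209) (ok2_of rx20203) (ok2_nd (nat_lit 20215) (ok2_of rx20209) (ok2_of rx20215))))) (ok2_nd (nat_lit 20258) (ok2_nd (nat_lit 20240) (ok2_nd (nat_lit 20228) (ok2_of rx20221) (ok2_nd (nat_lit 20234) (ok2_of rx20228) (ok2_of rx20234))) (ok2_nd (nat_lit 20246) (ok2_of rx20240) (ok2_nd (nat_lit 20250) (ok2_of rx20246) (ok2_of rx20250)))) (ok2_nd (nat_lit 20270) (ok2_nd (nat_lit 20261) (ok2_of rx20258) (ok2_nd (nat_lit 20265) (ok2_of rx20261) (ok2_of rx20265))) (ok2_nd (nat_lit 20273) (ok2_of rx20270) (ok2_nd (nat_lit 20279) (ok2_of rx20273) (ok2_of rx20279))))))) (ok2_nd (nat_lit 20428) (ok2_nd (nat_lit 20359) (ok2_nd (nat_lit 20321) (ok2_nd (nat_lit 20303) (ok2_nd (nat_lit 20296) (ok2_of rx20288) (ok2_of rx20296)) (ok2_nd (nat_lit 20310) (ok2_of rx20303) (ok2_nd (nat_lit 20315) (ok2_of rx20310) (ok2_of rx20315)))) (ok2_nd (nat_lit 20343) (ok2_nd (nat_lit 20329) (ok2_of rx20321) (ok2_nd (nat_lit 20335) (ok2_of rx20329) (ok2_of rx20335))) (ok2_nd (nat_lit 20348) (ok2_of rx20343)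 (ok2_nd (nat_lit 20353) (ok2_of rx20348) (ok2_of rx20353))))) (ok2_nd (nat_lit 20395) (ok2_nd (nat_lit 20379) (ok2_nd (nat_lit 20364) (ok2_of rx20359) (ok2_nd (nat_lit 20373) (ok2_of rx20364) (ok2_of rx20373))) (ok2_nd (nat_lit 20384) (ok2_of rx20379) (ok2_nd (nat_lit 20390) (ok2_of rx20384) (ok2_of rx20390)))) (ok2_nd (nat_lit 20412) (ok2_nd (nat_lit 20401) (ok2_of rx20395) (ok2_nd (nat_lit 20405) (ok2_of rx20401) (ok2_of rx20405))) (ok2_nd (nat_lit 20418) (ok2_of rx20412) (ok2_nd (nat_lit 20422) (ok2_of rx20418) (ok2_of rx20422)))))) (ok2_nd (nat_lit 20501) (ok2_nd (nat_lit 20467) (ok2_nd (nat_lit 20445) (ok2_nd (nat_lit 20434) (ok2_of rx20428) (ok2_nd (nat_lit 20438) (ok2_of rx20434) (ok2_of rx20438))) (ok2_nd (nat_lit 20451) (ok2_of rx20445) (ok2_nd (nat_lit 20461) (ok2_of rx20451) (ok2_of rx20461)))) (ok2_nd (nat_lit 20483) (ok2_nd (nat_lit 20474) (ok2_of rx20467) (ok2_nd (nat_lit 20477) (ok2_of rx20474) (ok2_of rx20477))) (ok2_nd (nat_lit 20489) (ok2_of rx20483) (ok2_nd (nat_lit 20495) (ok2_of rx20489) (ok2_of rx20495))))) (ok2_nd (nat_lit 20546) (ok2_nd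 (nat_lit 20519) (ok2_nd (nat_lit 20504) (ok2_of rx20501) (ok2_nd (nat_lit 20513) (ok2_of rx20504) (ok2_of rx20513))) (ok2_nd (nat_lit 20524) (ok2_of rx20519) (ok2_nd (nat_lit 20533) (ok2_of rx20524) (ok2_of rx20533)))) (ok2_nd (nat_lit 20568) (ok2_nd (nat_lit 20554) (ok2_of rx20546) (ok2_nd (nat_lit 20560) (ok2_of rx20554) (ok2_of rx20560))) (ok2_nd (nat_lit 20575) (ok2_of rx20568) (ok2_nd (nat_lit 20581) (ok2_of rx20575) (ok2_of rx20581)))))))))

end Pool.Agent.MP_797bdc_co.Lk.Da
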