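import Pool.Agent.MP_797bdc_co.Lk.XA
import Pool.Agent.MP_797bdc_co.Lk.DE
import Pool.Agent.MP_797bdc_co.Lk.DG15
import Pool.Agent.MP_797bdc_co.Lk.DX15

/-! Run of checker X. -/

set_option maxRecDepth 100000
set_option linter.defProp false

namespace Pool.Agent.MP_797bdc_co.Lk.Da

noncomputable def rx20587 : iz (BT.all2 (xchk xE) g20587 x20587) = true := by decide +kernel
noncomputable def rx20593 : iz (BT.all2 (xchk xE) g20593 x20593) = true := by decide +kernel
noncomputable def rx20599 : iz (BT.all2 (xchk xE) g20599 x20599) = true := by decide +kernel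
noncomputable def rx20607 : iz (BT.all2 (xchk xE) g20607 x20607) = true := by decide +kernel
noncomputable def rx20613 : iz (BT.all2 (xchk xE) g20613 x20613) = true := by decide +kernel
noncomputable def rx20618 : iz (BT.all2 (xchk xE) g20618 x20618) = true := by decide +kernel
noncomputable def rx20622 : iz (BT.all2 (xchk xE) g20622 x20622) = true := by decide +kernel
noncomputable def rx20628 : iz (BT.all2 (xchk xE) g20628 x20628) = true := by decide +kernel
noncomputable def rx20634 : iz (BT.all2 (xchk xE) g20634 x20634) = true := by decide +kernel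
noncomputable def rx20640 : iz (BT.all2 (xchk xE) g20640 x20640) = true := by decide +kernel
noncomputable def rx20648 : iz (BT.all2 (xchk xE) g20648 x20648) = true := by decide +kernel
noncomputable def rx20657 : iz (BT.all2 (xchk xE) g20657 x20657) = true := by decide +kernel
noncomputable def rx20664 : iz (BT.all2 (xchk xE) g20664 x20664) = true := by decide +kernel
noncomputable def rx20670 : iz (BT.all2 (xchk xE) g20670 x20670) = true := by decide +kernel
noncomputable def rx20676 : iz (BT.all2 (xchk xE) g20676 x20676) = true := by decide +kernel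
noncomputable def rx20685 : iz (BT.all2 (xchk xE) g20685 x20685) = true := by decide +kernel
noncomputable def rx20694 : iz (BT.all2 (xchk xE) g20694 x20694) = true := by decide +kernel
noncomputable def rx20702 : iz (BT.all2 (xchk xE) g20702 x20702) = true := by decide +kernel
noncomputable def rx20713 : iz (BT.all2 (xchk xE) g20713 x20713) = true := by decide +kernel
noncomputable def rx20719 : iz (BT.all2 (xchk xE) g20719 x20719) = true := by decide +kernel
noncomputable def rx20725 : iz (BT.all2 (xchk xE) g20725 x20725) = true := by decide +kernel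
noncomputable def rx20726 : iz (BT.all2 (xchk xE) g20726 x20726) = true := by decide +kernel
noncomputable def rx20735 : iz (BT.all2 (xchk xE) g20735 x20735) = true := by decide +kernel
noncomputable def rx20738 : iz (BT.all2 (xchk xE) g20738 x20738) = true := by decide +kernel
noncomputable def rx20744 : iz (BT.all2 (xchk xE) g20744 x20744) = true := by decide +kernel
noncomputable def rx20750 : iz (BT.all2 (xchk xE) g20750 x20750) = true := by decide +kernel
noncomputable def rx20756 : iz (BT.all2 (xchk xE) g20756 x20756) = true := by decide +kernel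
noncomputable def rx20765 : iz (BT.all2 (xchk xE) g20765 x20765) = true := by decide +kernel
noncomputable def rx20771 : iz (BT.all2 (xchk xE) g20771 x20771) = true := by decide +kernel
noncomputable def rx20780 : iz (BT.all2 (xchk xE) g20780 x20780) = true := by decide +kernel
noncomputable def rx20786 : iz (BT.all2 (xchk xE) g20786 x20786) = true := by decide +kernel
noncomputable def rx20789 : iz (BT.all2 (xchk xE) g20789 x20789) = true := by decide +kernel
noncomputable def rx20797 : iz (BT.all2 (xchk xE) g20797 x20797) = true := by decide +kernel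
noncomputable def rx20804 : iz (BT.all2 (xchk xE) g20804 x20804) = true := by decide +kernel
noncomputable def rx20810 : iz (BT.all2 (xchk xE) g20810 x20810) = true := by decide +kernel
noncomputable def rx20817 : iz (BT.all2 (xchk xE) g20817 x20817) = true := by decide +kernel
noncomputable def rx20820 : iz (BT.all2 (xchk xE) g20820 x20820) = true := by decide +kernel
noncomputable def rx20825 : iz (BT.all2 (xchk xE) g20825 x20825) = true := by decide +kernel
noncomputable def rx20828 : iz (BT.all2 (xchk xE) g20828 x20828) = true := by decide +kernel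
noncomputable def rx20836 : iz (BT.all2 (xchk xE) g20836 x20836) = true := by decide +kernel
noncomputable def rx20842 : iz (BT.all2 (xchk xE) g20842 x20842) = true := by decide +kernel
noncomputable def rx20847 : iz (BT.all2 (xchk xE) g20847 x20847) = true := by decide +kernel
noncomputable def rx20852 : iz (BT.all2 (xchk xE) g20852 x20852) = true := by decide +kernel
noncomputable def rx20859 : iz (BT.all2 (xchk xE) g20859 x20859) = true := by decide +kernel
noncomputable def rx20864 : iz (BT.all2 (xchk xE) g20864 x20864) = true := by decide +kernel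
noncomputable def rx20870 : iz (BT.all2 (xchk xE) g20870 x20870) = true := by decide +kernel
noncomputable def rx20878 : iz (BT.all2 (xchk xE) g20878 x20878) = true := by decide +kernel
noncomputable def rx20882 : iz (BT.all2 (xchk xE) g20882 x20882) = true := by decide +kernel
noncomputable def rx20891 : iz (BT.all2 (xchk xE) g20891 x20891) = true := by decide +kernel
noncomputable def rx20898 : iz (BT.all2 (xchk xE) g20898 x20898) = true := by decide +kernel
noncomputable def rx20907 : iz (BT.all2 (xchk xE) g20907 x20907) = true := by decide +kernel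
noncomputable def rx20916 : iz (BT.all2 (xchk xE) g20916 x20916) = true := by decide +kernel
noncomputable def rx20925 : iz (BT.all2 (xchk xE) g20925 x20925) = true := by decide +kernel
noncomputable def rx20935 : iz (BT.all2 (xchk xE) g20935 x20935) = true := by decide +kernel
noncomputable def rx20941 : iz (BT.all2 (xchk xE) g20941 x20941) = true := by decide +kernel
noncomputable def rx20950 : iz (BT.all2 (xchk xE) g20950 x20950) = true := by decide +kernel
noncomputable def rx20959 : iz (BT.all2 (xchk xE) g20959 x20959) = true := by decide +kernel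
noncomputable def rx20963 : iz (BT.all2 (xchk xE) g20963 x20963) = true := by decide +kernel
noncomputable def rx20969 : iz (BT.all2 (xchk xE) g20969 x20969) = true := by decide +kernel
noncomputable def rx20976 : iz (BT.all2 (xchk xE) g20976 x20976) = true := by decide +kernel
noncomputable def rx20985 : iz (BT.all2 (xchk xE) g20985 x20985) = true := by decide +kernel
noncomputable def rx20991 : iz (BT.all2 (xchk xE) g20991 x20991) = true := by decide +kernel
noncomputable def rx20997 : iz (BT.all2 (xchk xE) g20997 x20997) = true := by decide +kernel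
noncomputable def rx21003 : iz (BT.all2 (xchk xE) g21003 x21003) = true := by decide +kernel
noncomputable def rx21010 : iz (BT.all2 (xchk xE) g21010 x21010) = true := by decide +kernel
noncomputable def rx21016 : iz (BT.all2 (xchk xE) g21016 x21016) = true := by decide +kernel
noncomputable def rx21019 : iz (BT.all2 (xchk xE) g21019 x21019) = true := by decide +kernel
noncomputable def rx21026 : iz (BT.all2 (xchk xE) g21026 x21026) = true := by decide +kernel
noncomputable def rx21029 : iz (BT.all2 (xchk xE) g21029 x21029) = true := by decide +kernel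
noncomputable def rx21039 : iz (BT.all2 (xchk xE) g21039 x21039) = true := by decide +kernel
noncomputable def rx21048 : iz (BT.all2 (xchk xE) g21048 x21048) = true := by decide +kernel
noncomputable def rx21054 : iz (BT.all2 (xchk xE) g21054 x21054) = true := by decide +kernel
noncomputable def rx21057 : iz (BT.all2 (xchk xE) g21057 x21057) = true := by decide +kernel
noncomputable def rx21061 : iz (BT.all2 (xchk xE) g21061 x21061) = true := by decide +kernel
noncomputable def rx21068 : iz (BT.all2 (xchk xE) g21068 x21068) = true := by decide +kernel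
noncomputable def rx21074 : iz (BT.all2 (xchk xE) g21074 x21074) = true := by decide +kernel
noncomputable def rx21082 : iz (BT.all2 (xchk xE) g21082 x21082) = true := by decide +kernel
noncomputable def rx21088 : iz (BT.all2 (xchk xE) g21088 x21088) = true := by decide +kernel
noncomputable def rx21098 : iz (BT.all2 (xchk xE) g21098 x21098) = true := by decide +kernel
noncomputable def rx21104 : iz (BT.all2 (xchk xE) g21104 x21104) = true := by decide +kernel
noncomputable def rx21114 : iz (BT.all2 (xchk xE) g21114 x21114) = true := by decide +kernel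
noncomputable def rx21126 : iz (BT.all2 (xchk xE) g21126 x21126) = true := by decide +kernel
noncomputable def rx21134 : iz (BT.all2 (xchk xE) g21134 x21134) = true := by decide +kernel
noncomputable def rx21140 : iz (BT.all2 (xchk xE) g21140 x21140) = true := by decide +kernel
noncomputable def rx21153 : iz (BT.all2 (xchk xE) g21153 x21153) = true := by decide +kernel
noncomputable def rx21161 : iz (BT.all2 (xchk xE) g21161 x21161) = true := by decide +kernel
noncomputable def rx21167 : iz (BT.all2 (xchk xE) g21167 x21167) = true := by decide +kernel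
noncomputable def rx21176 : iz (BT.all2 (xchk xE) g21176 x21176) = true := by decide +kernel
noncomputable def rx21182 : iz (BT.all2 (xchk xE) g21182 x21182) = true := by decide +kernel
noncomputable def rx21187 : iz (BT.all2 (xchk xE) g21187 x21187) = true := by decide +kernel
noncomputable def rx21193 : iz (BT.all2 (xchk xE) g21193 x21193) = true := by decide +kernel
noncomputable def rx21199 : iz (BT.all2 (xchk xE) g21199 x21199) = true := by decide +kernel
noncomputable def rx21202 : iz (BT.all2 (xchk xE) g21202 x21202) = true := by decide +kernel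
noncomputable def rx21207 : iz (BT.all2 (xchk xE) g21207 x21207) = true := by decide +kernel
noncomputable def rx21212 : iz (BT.all2 (xchk xE) g21212 x21212) = true := by decide +kernel
noncomputable def rx21221 : iz (BT.all2 (xchk xE) g21221 x21221) = true := by decide +kernel
noncomputable def rx21227 : iz (BT.all2 (xchk xE) g21227 x21227) = true := by decide +kernel
noncomputable def rx21230 : iz (BT.all2 (xchk xE) g21230 x21230) = true := by decide +kernel
noncomputable def rx21235 : iz (BT.all2 (xchk xE) g21235 x21235) = true := by decide +kernel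
noncomputable def rx21242 : iz (BT.all2 (xchk xE) g21242 x21242) = true := by decide +kernel
noncomputable def rx21249 : iz (BT.all2 (xchk xE) g21249 x21249) = true := by decide +kernel
noncomputable def rx21255 : iz (BT.all2 (xchk xE) g21255 x21255) = true := by decide +kernel
noncomputable def rx21259 : iz (BT.all2 (xchk xE) g21259 x21259) = true := by decide +kernel
noncomputable def rx21264 : iz (BT.all2 (xchk xE) g21264 x21264) = true := by decide +kernel
noncomputable def rx21273 : iz (BT.all2 (xchk xE) g21273 x21273) = true := by decide +kernel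
noncomputable def rx21279 : iz (BT.all2 (xchk xE) g21279 x21279) = true := by decide +kernel
noncomputable def rx21282 : iz (BT.all2 (xchk xE) g21282 x21282) = true := by decide +kernel
noncomputable def rx21293 : iz (BT.all2 (xchk xE) g21293 x21293) = true := by decide +kernel
noncomputable def rx21301 : iz (BT.all2 (xchk xE) g21301 x21301) = true := by decide +kernel
noncomputable def rx21311 : iz (BT.all2 (xchk xE) g21311 x21311) = true := by decide +kernel
noncomputable def rx21315 : iz (BT.all2 (xchk xE) g21315 x21315) = true := by decide +kernel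
noncomputable def rx21321 : iz (BT.all2 (xchk xE) g21321 x21321) = true := by decide +kernel
noncomputable def rx21326 : iz (BT.all2 (xchk xE) g21326 x21326) = true := by decide +kernel
noncomputable def rx21333 : iz (BT.all2 (xchk xE) g21333 x21333) = true := by decide +kernel
noncomputable def rx21341 : iz (BT.all2 (xchk xE) g21341 x21341) = true := by decide +kernel
noncomputable def rx21346 : iz (BT.all2 (xchk xE) g21346 x21346) = true := by decide +kernel
noncomputable def rx21354 : iz (BT.all2 (xchk xE) g21354 x21354) = true := by decide +kernel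
noncomputable def rx21363 : iz (BT.all2 (xchk xE) g21363 x21363) = true := by decide +kernel
noncomputable def rx21367 : iz (BT.all2 (xchk xE) g21367 x21367) = true := by decide +kernel
noncomputable def rx21373 : iz (BT.all2 (xchk xE) g21373 x21373) = true := by decide +kernel
noncomputable def rx21378 : iz (BT.all2 (xchk xE) g21378 x21378) = true := by decide +kernel
noncomputable def rx21383 : iz (BT.all2 (xchk xE) g21383 x21383) = true := by decide +kernel
noncomputable def rx21392 : iz (BT.all2 (xchk xE) g21392 x21392) = true := by decide +kernel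
noncomputable def rx21397 : iz (BT.all2 (xchk xE) g21397 x21397) = true := by decide +kernel
noncomputable def rx21402 : iz (BT.all2 (xchk xE) g21402 x21402) = true := by decide +kernel
noncomputable def rx21409 : iz (BT.all2 (xchk xE) g21409 x21409) = true := by decide +kernel
noncomputable def rx21415 : iz (BT.all2 (xchk xE) g21415 x21415) = true := by decide +kernel
noncomputable def rx21416 : iz (BT.all2 (xchk xE) g21416 x21416) = true := by decide +kernel
noncomputable def rx21421 : iz (BT.all2 (xchk xE) g21421 x21421) = true := by decide +kernel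
noncomputable def rx21430 : iz (BT.all2 (xchk xE) g21430 x21430) = true := by decide +kernel
noncomputable def rx21434 : iz (BT.all2 (xchk xE) g21434 x21434) = true := by decide +kernel
noncomputable def rx21440 : iz (BT.all2 (xchk xE) g21440 x21440) = true := by decide +kernel
noncomputable def rx21449 : iz (BT.all2 (xchk xE) g21449 x21449) = true := by decide +kernel
noncomputable def rx21461 : iz (BT.all2 (xchk xE) g21461 x21461) = true := by decide +kernel
noncomputable def rx21468 : iz (BT.all2 (xchk xE) g21468 x21468) = true := by decide +kernel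
noncomputable def rx21478 : iz (BT.all2 (xchk xE) g21478 x21478) = true := by decide +kernel
noncomputable def rx21484 : iz (BT.all2 (xchk xE) g21484 x21484) = true := by decide +kernel
noncomputable def rx21493 : iz (BT.all2 (xchk xE) g21493 x21493) = true := by decide +kernel
noncomputable def rx21500 : iz (BT.all2 (xchk xE) g21500 x21500) = true := by decide +kernel
noncomputable def rx21508 : iz (BT.all2 (xchk xE) g21508 x21508) = true := by decide +kernel
noncomputable def rx21517 : iz (BT.all2 (xchk xE) g21517 x21517) = true := by decide +kernel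
noncomputable def rx21523 : iz (BT.all2 (xchk xE) g21523 x21523) = true := by decide +kernel
noncomputable def rx21531 : iz (BT.all2 (xchk xE) g21531 x21531) = true := by decide +kernel
noncomputable def rx21540 : iz (BT.all2 (xchk xE) g21540 x21540) = true := by decide +kernel
noncomputable def rx21546 : iz (BT.all2 (xchk xE) g21546 x21546) = true := by decide +kernel
noncomputable def rx21551 : iz (BT.all2 (xchk xE) g21551 x21551) = true := by decide +kernel
noncomputable def rx21553 : iz (BT.all2 (xchk xE) g21553 x21553) = true := by decide +kernel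
noncomputable def rx21557 : iz (BT.all2 (xchk xE) g21557 x21557) = true := by decide +kernel
noncomputable def rx21563 : iz (BT.all2 (xchk xE) g21563 x21563) = true := by decide +kernel
noncomputable def rx21567 : iz (BT.all2 (xchk xE) g21567 x21567) = true := by decide +kernel
noncomputable def rx21574 : iz (BT.all2 (xchk xE) g21574 x21574) = true := by decide +kernel
noncomputable def rx21580 : iz (BT.all2 (xchk xE) g21580 x21580) = true := by decide +kernel
noncomputable def rx21586 : iz (BT.all2 (xchk xE) g21586 x21586) = true := by decide +kernel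
noncomputable def rx21592 : iz (BT.all2 (xchk xE) g21592 x21592) = true := by decide +kernel
noncomputable def rx21597 : iz (BT.all2 (xchk xE) g21597 x21597) = true := by decide +kernel
noncomputable def rx21601 : iz (BT.all2 (xchk xE) g21601 x21601) = true := by decide +kernel
noncomputable def rx21613 : iz (BT.all2 (xchk xE) g21613 x21613) = true := by decide +kernel
noncomputable def rx21617 : iz (BT.all2 (xchk xE) g21617 x21617) = true := by decide +kernel
noncomputable def rx21623 : iz (BT.all2 (xchk xE) g21623 x21623) = true := by decide +kernel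
noncomputable def rx21629 : iz (BT.all2 (xchk xE) g21629 x21629) = true := by decide +kernel
noncomputable def rx21638 : iz (BT.all2 (xchk xE) g21638 x21638) = true := by decide +kernel
noncomputable def rx21647 : iz (BT.all2 (xchk xE) g21647 x21647) = true := by decide +kernel
noncomputable def rx21650 : iz (BT.all2 (xchk xE) g21650 x21650) = true := by decide +kernel
noncomputable def rx21656 : iz (BT.all2 (xchk xE) g21656 x21656) = true := by decide +kernel
noncomputable def rx21662 : iz (BT.all2 (xchk xE) g21662 x21662) = true := by decide +kernel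
noncomputable def rx21668 : iz (BT.all2 (xchk xE) g21668 x21668) = true := by decide +kernel
noncomputable def rx21674 : iz (BT.all2 (xchk xE) g21674 x21674) = true := by decide +kernel
noncomputable def rx21680 : iz (BT.all2 (xchk xE) g21680 x21680) = true := by decide +kernel
noncomputable def rx21689 : iz (BT.all2 (xchk xE) g21689 x21689) = true := by decide +kernel
noncomputable def rx21695 : iz (BT.all2 (xchk xE) g21695 x21695) = true := by decide +kernel
noncomputable def rx21702 : iz (BT.all2 (xchk xE) g21702 x21702) = true := by decide +kernel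
noncomputable def rx21705 : iz (BT.all2 (xchk xE) g21705 x21705) = true := by decide +kernel
noncomputable def rx21715 : iz (BT.all2 (xchk xE) g21715 x21715) = true := by decide +kernel
noncomputable def rx21725 : iz (BT.all2 (xchk xE) g21725 x21725) = true := by decide +kernel
noncomputable def rx21729 : iz (BT.all2 (xchk xE) g21729 x21729) = true := by decide +kernel
noncomputable def rx21735 : iz (BT.all2 (xchk xE) g21735 x21735) = true := by decide +kernel
noncomputable def rx21741 : iz (BT.all2 (xchk xE) g21741 x21741) = true := by decide +kernel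
noncomputable def rx21745 : iz (BT.all2 (xchk xE) g21745 x21745) = true := by decide +kernel
noncomputable def rX15 : OK2 (xchk xE) tG15 tX15 := (ok2_nd (nat_lit 21187) (ok2_nd (nat_lit 20864) (ok2_nd (nat_lit 20735) (ok2_nd (nat_lit 20657) (ok2_nd (nat_lit 20618) (ok2_nd (nat_lit 20599) (ok2_nd (nat_lit 20593) (ok2_of rx20587) (ok2_of rx20593)) (ok2_nd (nat_lit 20607) (ok2_of rx20599) (ok2_nd (nat_lit 20613) (ok2_of rx20607) (ok2_of rx20613)))) (ok2_nd (nat_lit 20634) (ok2_nd (nat_lit 20622) (ok2_of rx20618) (ok2_nd (nat_lit 20628) (ok2_of rx20622) (ok2_of rx20628))) (ok2_nd (nat_lit 20640) (ok2_of rx20634) (ok2_nd (nat_lit 20648) (ok2_of rx20640) (ok2_of rx20648))))) (ok2_nd (nat_lit 20694) (ok2_nd (nat_lit 20670) (ok2_nd (nat_lit 20664) (ok2_of rx20657) (ok2_of rx20664)) (ok2_nd (nat_lit 20676) (ok2_of rx20670) (ok2_nd (nat_lit 20685) (ok2_of rx20676) (ok2_of rx20685)))) (ok2_nd (nat_lit 20719) (ok2_nd (nat_lit 20702) (ok2_of rx20694) (ok2_nd (nat_lit 20713) (ok2_of rx20702) (ok2_of rx20713))) (ok2_nd (nat_lit 20725) (ok2_of rx20719) (ok2_nd (nat_lit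 20726) (ok2_of rx20725) (ok2_of rx20726)))))) (ok2_nd (nat_lit 20804) (ok2_nd (nat_lit 20765) (ok2_nd (nat_lit 20744) (ok2_nd (nat_lit 20738) (ok2_of rx20735) (ok2_of rx20738)) (ok2_nd (nat_lit 20750) (ok2_of rx20744) (ok2_nd (nat_lit 20756) (ok2_of rx20750) (ok2_of rx20756)))) (ok2_nd (nat_lit 20786) (ok2_nd (nat_lit 20771) (ok2_of rx20765) (ok2_nd (nat_lit 20780) (ok2_of rx20771) (ok2_of rx20780))) (ok2_nd (nat_lit 20789) (ok2_of rx20786) (ok2_nd (nat_lit 20797) (ok2_of rx20789) (ok2_of rx20797))))) (ok2_nd (nat_lit 20828) (ok2_nd (nat_lit 20817) (ok2_nd (nat_lit 20810) (ok2_of rx20804) (ok2_of rx20810)) (ok2_nd (nat_lit 20820) (ok2_of rx20817) (ok2_nd (nat_lit 20825) (ok2_of rx20820) (ok2_of rx20825)))) (ok2_nd (nat_lit 20847) (ok2_nd (nat_lit 20836) (ok2_of rx20828) (ok2_nd (nat_lit 20842) (ok2_of rx20836) (ok2_of rx20842))) (ok2_nd (nat_lit 20852) (ok2_of rx20847) (ok2_nd (nat_lit 20859) (ok2_of rx20852) (ok2_of rx20859))))))) (ok2_nd (nat_lit 21019) (ok2_nd (nat_lit 20950) (ok2_nd (nat_lit 20898) (ok2_nd (nat_lit 20878) (ok2_nd (nat_lit 20870) (ok2_of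 rx20864) (ok2_of rx20870)) (ok2_nd (nat_lit 20882) (ok2_of rx20878) (ok2_nd (nat_lit 20891) (ok2_of rx20882) (ok2_of rx20891)))) (ok2_nd (nat_lit 20925) (ok2_nd (nat_lit 20907) (ok2_of rx20898) (ok2_nd (nat_lit 20916) (ok2_of rx20907) (ok2_of rx20916))) (ok2_nd (nat_lit 20935) (ok2_of rx20925) (ok2_nd (nat_lit 20941) (ok2_of rx20935) (ok2_of rx20941))))) (ok2_nd (nat_lit 20985) (ok2_nd (nat_lit 20963) (ok2_nd (nat_lit 20959) (ok2_of rx20950) (ok2_of rx20959)) (ok2_nd (nat_lit 20969) (ok2_of rx20963) (ok2_nd (nat_lit 20976) (ok2_of rx20969) (ok2_of rx20976)))) (ok2_nd (nat_lit 21003) (ok2_nd (nat_lit 20991) (ok2_of rx20985) (ok2_nd (nat_lit 20997) (ok2_of rx20991) (ok2_of rx20997))) (ok2_nd (nat_lit 21010) (ok2_of rx21003) (ok2_nd (nat_lit 21016) (ok2_of rx21010) (ok2_of rx21016)))))) (ok2_nd (nat_lit 21088) (ok2_nd (nat_lit 21054) (ok2_nd (nat_lit 21029) (ok2_nd (nat_lit 21026) (ok2_of rx21019) (ok2_of rx21026)) (ok2_nd (nat_lit 21039) (ok2_of rx21029) (ok2_nd (nat_lit 21048) (ok2_of rx21039) (ok2_of rx21048)))) (ok2_nd (nat_lit 21068) (ok2_nd (nat_lit 21057)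 (ok2_of rx21054) (ok2_nd (nat_lit 21061) (ok2_of rx21057) (ok2_of rx21061))) (ok2_nd (nat_lit 21074) (ok2_of rx21068) (ok2_nd (nat_lit 21082) (ok2_of rx21074) (ok2_of rx21082))))) (ok2_nd (nat_lit 21140) (ok2_nd (nat_lit 21114) (ok2_nd (nat_lit 21098) (ok2_of rx21088) (ok2_nd (nat_lit 21104) (ok2_of rx21098) (ok2_of rx21104))) (ok2_nd (nat_lit 21126) (ok2_of rx21114) (ok2_nd (nat_lit 21134) (ok2_of rx21126) (ok2_of rx21134)))) (ok2_nd (nat_lit 21167) (ok2_nd (nat_lit 21153) (ok2_of rx21140) (ok2_nd (nat_lit 21161) (ok2_of rx21153) (ok2_of rx21161))) (ok2_nd (nat_lit 21176) (ok2_of rx21167) (ok2_nd (nat_lit 21182) (ok2_of rx21176) (ok2_of rx21182)))))))) (ok2_nd (nat_lit 21461) (ok2_nd (nat_lit 21321) (ok2_nd (nat_lit 21249) (ok2_nd (nat_lit 21212) (ok2_nd (nat_lit 21199) (ok2_nd (nat_lit 21193) (ok2_of rx21187) (ok2_of rx21193)) (ok2_nd (nat_lit 21202) (ok2_of rx21199) (ok2_nd (nat_lit 21207) (ok2_of rx21202) (ok2_of rx21207)))) (ok2_nd (nat_lit 21230) (ok2_nd (nat_lit 21221) (ok2_of rx21212) (ok2_nd (nat_lit 21227) (ok2_of rx21221) (ok2_of rx21227))) (ok2_nd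 (nat_lit 21235) (ok2_of rx21230) (ok2_nd (nat_lit 21242) (ok2_of rx21235) (ok2_of rx21242))))) (ok2_nd (nat_lit 21279) (ok2_nd (nat_lit 21259) (ok2_nd (nat_lit 21255) (ok2_of rx21249) (ok2_of rx21255)) (ok2_nd (nat_lit 21264) (ok2_of rx21259) (ok2_nd (nat_lit 21273) (ok2_of rx21264) (ok2_of rx21273)))) (ok2_nd (nat_lit 21301) (ok2_nd (nat_lit 21282) (ok2_of rx21279) (ok2_nd (nat_lit 21293) (ok2_of rx21282) (ok2_of rx21293))) (ok2_nd (nat_lit 21311) (ok2_of rx21301) (ok2_nd (nat_lit 21315) (ok2_of rx21311) (ok2_of rx21315)))))) (ok2_nd (nat_lit 21392) (ok2_nd (nat_lit 21354) (ok2_nd (nat_lit 21333) (ok2_nd (nat_lit 21326) (ok2_of rx21321) (ok2_of rx21326)) (ok2_nd (nat_lit 21341) (ok2_of rx21333) (ok2_nd (nat_lit 21346) (ok2_of rx21341) (ok2_of rx21346)))) (ok2_nd (nat_lit 21373) (ok2_nd (nat_lit 21363) (ok2_of rx21354) (ok2_nd (nat_lit 21367) (ok2_of rx21363) (ok2_of rx21367))) (ok2_nd (nat_lit 21378) (ok2_of rx21373) (ok2_nd (nat_lit 21383) (ok2_of rx21378) (ok2_of rx21383))))) (ok2_nd (nat_lit 21416) (ok2_nd (nat_lit 21402) (ok2_nd (nat_lit 21397) (ok2_of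 rx21392) (ok2_of rx21397)) (ok2_nd (nat_lit 21409) (ok2_of rx21402) (ok2_nd (nat_lit 21415) (ok2_of rx21409) (ok2_of rx21415)))) (ok2_nd (nat_lit 21434) (ok2_nd (nat_lit 21421) (ok2_of rx21416) (ok2_nd (nat_lit 21430) (ok2_of rx21421) (ok2_of rx21430))) (ok2_nd (nat_lit 21440) (ok2_of rx21434) (ok2_nd (nat_lit 21449) (ok2_of rx21440) (ok2_of rx21449))))))) (ok2_nd (nat_lit 21601) (ok2_nd (nat_lit 21546) (ok2_nd (nat_lit 21500) (ok2_nd (nat_lit 21478) (ok2_nd (nat_lit 21468) (ok2_of rx21461) (ok2_of rx21468)) (ok2_nd (nat_lit 21484) (ok2_of rx21478) (ok2_nd (nat_lit 21493) (ok2_of rx21484) (ok2_of rx21493)))) (ok2_nd (nat_lit 21523) (ok2_nd (nat_lit 21508) (ok2_of rx21500) (ok2_nd (nat_lit 21517) (ok2_of rx21508) (ok2_of rx21517))) (ok2_nd (nat_lit 21531) (ok2_of rx21523) (ok2_nd (nat_lit 21540) (ok2_of rx21531) (ok2_of rx21540))))) (ok2_nd (nat_lit 21567) (ok2_nd (nat_lit 21553) (ok2_nd (nat_lit 21551) (ok2_of rx21546) (ok2_of rx21551)) (ok2_nd (nat_lit 21557) (ok2_of rx21553) (ok2_nd (nat_lit 21563) (ok2_of rx21557) (ok2_of rx21563)))) (ok2_nd (nat_lit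 21586) (ok2_nd (nat_lit 21574) (ok2_of rx21567) (ok2_nd (nat_lit 21580) (ok2_of rx21574) (ok2_of rx21580))) (ok2_nd (nat_lit 21592) (ok2_of rx21586) (ok2_nd (nat_lit 21597) (ok2_of rx21592) (ok2_of rx21597)))))) (ok2_nd (nat_lit 21674) (ok2_nd (nat_lit 21638) (ok2_nd (nat_lit 21617) (ok2_nd (nat_lit 21613) (ok2_of rx21601) (ok2_of rx21613)) (ok2_nd (nat_lit 21623) (ok2_of rx21617) (ok2_nd (nat_lit 21629) (ok2_of rx21623) (ok2_of rx21629)))) (ok2_nd (nat_lit 21656) (ok2_nd (nat_lit 21647) (ok2_of rx21638) (ok2_nd (nat_lit 21650) (ok2_of rx21647) (ok2_of rx21650))) (ok2_nd (nat_lit 21662) (ok2_of rx21656) (ok2_nd (nat_lit 21668) (ok2_of rx21662) (ok2_of rx21668))))) (ok2_nd (nat_lit 21715) (ok2_nd (nat_lit 21695) (ok2_nd (nat_lit 21680) (ok2_of rx21674) (ok2_nd (nat_lit 21689) (ok2_of rx21680) (ok2_of rx21689))) (ok2_nd (nat_lit 21702) (ok2_of rx21695) (ok2_nd (nat_lit 21705) (ok2_of rx21702) (ok2_of rx21705)))) (ok2_nd (nat_lit 21735) (ok2_nd (nat_lit 21725) (ok2_of rx21715) (ok2_nd (nat_lit 21729) (ok2_of rx21725) (ok2_of rx21729))) (ok2_nd (nat_lit 21741)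 (ok2_of rx21735) (ok2_nd (nat_lit 21745) (ok2_of rx21741) (ok2_of rx21745)))))))))

end Pool.Agent.MP_797bdc_co.Lk.Da
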