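import Pool.Agent.MP_797bdc_co.Lk.XA
import Pool.Agent.MP_797bdc_co.Lk.DE
import Pool.Agent.MP_797bdc_co.Lk.DG2
import Pool.Agent.MP_797bdc_co.Lk.DX2

/-! Run of checker X. -/

set_option maxRecDepth 100000
set_option linter.defProp false

namespace Pool.Agent.MP_797bdc_co.Lk.Da

noncomputable def rx2973 : iz (BT.all2 (xchk xE) g2973 x2973) = true := by decide +kernel
noncomputable def rx2983 : iz (BT.all2 (xchk xE) g2983 x2983) = true := by decide +kernel
noncomputable def rx2991 : iz (BT.all2 (xchk xE) g2991 x2991) = true := by decide +kernel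
noncomputable def rx2999 : iz (BT.all2 (xchk xE) g2999 x2999) = true := by decide +kernel
noncomputable def rx3006 : iz (BT.all2 (xchk xE) g3006 x3006) = true := by decide +kernel
noncomputable def rx3015 : iz (BT.all2 (xchk xE) g3015 x3015) = true := by decide +kernel
noncomputable def rx3021 : iz (BT.all2 (xchk xE) g3021 x3021) = true := by decide +kernel
noncomputable def rx3027 : iz (BT.all2 (xchk xE) g3027 x3027) = true := by decide +kernel
noncomputable def rx3033 : iz (BT.all2 (xchk xE) g3033 x3033) = true := by decide +kernel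
noncomputable def rx3042 : iz (BT.all2 (xchk xE) g3042 x3042) = true := by decide +kernel
noncomputable def rx3045 : iz (BT.all2 (xchk xE) g3045 x3045) = true := by decide +kernel
noncomputable def rx3049 : iz (BT.all2 (xchk xE) g3049 x3049) = true := by decide +kernel
noncomputable def rx3063 : iz (BT.all2 (xchk xE) g3063 x3063) = true := by decide +kernel
noncomputable def rx3075 : iz (BT.all2 (xchk xE) g3075 x3075) = true := by decide +kernel
noncomputable def rx3084 : iz (BT.all2 (xchk xE) g3084 x3084) = true := by decide +kernel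
noncomputable def rx3091 : iz (BT.all2 (xchk xE) g3091 x3091) = true := by decide +kernel
noncomputable def rx3096 : iz (BT.all2 (xchk xE) g3096 x3096) = true := by decide +kernel
noncomputable def rx3100 : iz (BT.all2 (xchk xE) g3100 x3100) = true := by decide +kernel
noncomputable def rx3109 : iz (BT.all2 (xchk xE) g3109 x3109) = true := by decide +kernel
noncomputable def rx3122 : iz (BT.all2 (xchk xE) g3122 x3122) = true := by decide +kernel
noncomputable def rx3127 : iz (BT.all2 (xchk xE) g3127 x3127) = true := by decide +kernel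
noncomputable def rx3135 : iz (BT.all2 (xchk xE) g3135 x3135) = true := by decide +kernel
noncomputable def rx3143 : iz (BT.all2 (xchk xE) g3143 x3143) = true := by decide +kernel
noncomputable def rx3151 : iz (BT.all2 (xchk xE) g3151 x3151) = true := by decide +kernel
noncomputable def rx3159 : iz (BT.all2 (xchk xE) g3159 x3159) = true := by decide +kernel
noncomputable def rx3169 : iz (BT.all2 (xchk xE) g3169 x3169) = true := by decide +kernel
noncomputable def rx3177 : iz (BT.all2 (xchk xE) g3177 x3177) = true := by decide +kernel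
noncomputable def rx3186 : iz (BT.all2 (xchk xE) g3186 x3186) = true := by decide +kernel
noncomputable def rx3194 : iz (BT.all2 (xchk xE) g3194 x3194) = true := by decide +kernel
noncomputable def rx3206 : iz (BT.all2 (xchk xE) g3206 x3206) = true := by decide +kernel
noncomputable def rx3213 : iz (BT.all2 (xchk xE) g3213 x3213) = true := by decide +kernel
noncomputable def rx3220 : iz (BT.all2 (xchk xE) g3220 x3220) = true := by decide +kernel
noncomputable def rx3229 : iz (BT.all2 (xchk xE) g3229 x3229) = true := by decide +kernel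
noncomputable def rx3240 : iz (BT.all2 (xchk xE) g3240 x3240) = true := by decide +kernel
noncomputable def rx3251 : iz (BT.all2 (xchk xE) g3251 x3251) = true := by decide +kernel
noncomputable def rx3265 : iz (BT.all2 (xchk xE) g3265 x3265) = true := by decide +kernel
noncomputable def rx3273 : iz (BT.all2 (xchk xE) g3273 x3273) = true := by decide +kernel
noncomputable def rx3278 : iz (BT.all2 (xchk xE) g3278 x3278) = true := by decide +kernel
noncomputable def rx3284 : iz (BT.all2 (xchk xE) g3284 x3284) = true := by decide +kernel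
noncomputable def rx3291 : iz (BT.all2 (xchk xE) g3291 x3291) = true := by decide +kernel
noncomputable def rx3300 : iz (BT.all2 (xchk xE) g3300 x3300) = true := by decide +kernel
noncomputable def rx3310 : iz (BT.all2 (xchk xE) g3310 x3310) = true := by decide +kernel
noncomputable def rx3319 : iz (BT.all2 (xchk xE) g3319 x3319) = true := by decide +kernel
noncomputable def rx3330 : iz (BT.all2 (xchk xE) g3330 x3330) = true := by decide +kernel
noncomputable def rx3336 : iz (BT.all2 (xchk xE) g3336 x3336) = true := by decide +kernel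
noncomputable def rx3345 : iz (BT.all2 (xchk xE) g3345 x3345) = true := by decide +kernel
noncomputable def rx3354 : iz (BT.all2 (xchk xE) g3354 x3354) = true := by decide +kernel
noncomputable def rx3360 : iz (BT.all2 (xchk xE) g3360 x3360) = true := by decide +kernel
noncomputable def rx3368 : iz (BT.all2 (xchk xE) g3368 x3368) = true := by decide +kernel
noncomputable def rx3381 : iz (BT.all2 (xchk xE) g3381 x3381) = true := by decide +kernel
noncomputable def rx3390 : iz (BT.all2 (xchk xE) g3390 x3390) = true := by decide +kernel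
noncomputable def rx3396 : iz (BT.all2 (xchk xE) g3396 x3396) = true := by decide +kernel
noncomputable def rx3404 : iz (BT.all2 (xchk xE) g3404 x3404) = true := by decide +kernel
noncomputable def rx3413 : iz (BT.all2 (xchk xE) g3413 x3413) = true := by decide +kernel
noncomputable def rx3422 : iz (BT.all2 (xchk xE) g3422 x3422) = true := by decide +kernel
noncomputable def rx3423 : iz (BT.all2 (xchk xE) g3423 x3423) = true := by decide +kernel
noncomputable def rx3432 : iz (BT.all2 (xchk xE) g3432 x3432) = true := by decide +kernel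
noncomputable def rx3438 : iz (BT.all2 (xchk xE) g3438 x3438) = true := by decide +kernel
noncomputable def rx3444 : iz (BT.all2 (xchk xE) g3444 x3444) = true := by decide +kernel
noncomputable def rx3457 : iz (BT.all2 (xchk xE) g3457 x3457) = true := by decide +kernel
noncomputable def rx3465 : iz (BT.all2 (xchk xE) g3465 x3465) = true := by decide +kernel
noncomputable def rx3467 : iz (BT.all2 (xchk xE) g3467 x3467) = true := by decide +kernel
noncomputable def rx3477 : iz (BT.all2 (xchk xE) g3477 x3477) = true := by decide +kernel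
noncomputable def rx3490 : iz (BT.all2 (xchk xE) g3490 x3490) = true := by decide +kernel
noncomputable def rx3499 : iz (BT.all2 (xchk xE) g3499 x3499) = true := by decide +kernel
noncomputable def rx3502 : iz (BT.all2 (xchk xE) g3502 x3502) = true := by decide +kernel
noncomputable def rx3511 : iz (BT.all2 (xchk xE) g3511 x3511) = true := by decide +kernel
noncomputable def rx3518 : iz (BT.all2 (xchk xE) g3518 x3518) = true := by decide +kernel
noncomputable def rx3525 : iz (BT.all2 (xchk xE) g3525 x3525) = true := by decide +kernel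
noncomputable def rx3537 : iz (BT.all2 (xchk xE) g3537 x3537) = true := by decide +kernel
noncomputable def rx3546 : iz (BT.all2 (xchk xE) g3546 x3546) = true := by decide +kernel
noncomputable def rx3550 : iz (BT.all2 (xchk xE) g3550 x3550) = true := by decide +kernel
noncomputable def rx3561 : iz (BT.all2 (xchk xE) g3561 x3561) = true := by decide +kernel
noncomputable def rx3573 : iz (BT.all2 (xchk xE) g3573 x3573) = true := by decide +kernel
noncomputable def rx3579 : iz (BT.all2 (xchk xE) g3579 x3579) = true := by decide +kernel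
noncomputable def rx3589 : iz (BT.all2 (xchk xE) g3589 x3589) = true := by decide +kernel
noncomputable def rx3598 : iz (BT.all2 (xchk xE) g3598 x3598) = true := by decide +kernel
noncomputable def rx3603 : iz (BT.all2 (xchk xE) g3603 x3603) = true := by decide +kernel
noncomputable def rx3609 : iz (BT.all2 (xchk xE) g3609 x3609) = true := by decide +kernel
noncomputable def rx3615 : iz (BT.all2 (xchk xE) g3615 x3615) = true := by decide +kernel
noncomputable def rx3619 : iz (BT.all2 (xchk xE) g3619 x3619) = true := by decide +kernel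
noncomputable def rx3628 : iz (BT.all2 (xchk xE) g3628 x3628) = true := by decide +kernel
noncomputable def rx3636 : iz (BT.all2 (xchk xE) g3636 x3636) = true := by decide +kernel
noncomputable def rx3647 : iz (BT.all2 (xchk xE) g3647 x3647) = true := by decide +kernel
noncomputable def rx3653 : iz (BT.all2 (xchk xE) g3653 x3653) = true := by decide +kernel
noncomputable def rx3662 : iz (BT.all2 (xchk xE) g3662 x3662) = true := by decide +kernel
noncomputable def rx3676 : iz (BT.all2 (xchk xE) g3676 x3676) = true := by decide +kernel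
noncomputable def rx3682 : iz (BT.all2 (xchk xE) g3682 x3682) = true := by decide +kernel
noncomputable def rx3691 : iz (BT.all2 (xchk xE) g3691 x3691) = true := by decide +kernel
noncomputable def rx3701 : iz (BT.all2 (xchk xE) g3701 x3701) = true := by decide +kernel
noncomputable def rx3706 : iz (BT.all2 (xchk xE) g3706 x3706) = true := by decide +kernel
noncomputable def rx3708 : iz (BT.all2 (xchk xE) g3708 x3708) = true := by decide +kernel
noncomputable def rx3719 : iz (BT.all2 (xchk xE) g3719 x3719) = true := by decide +kernel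
noncomputable def rx3727 : iz (BT.all2 (xchk xE) g3727 x3727) = true := by decide +kernel
noncomputable def rx3734 : iz (BT.all2 (xchk xE) g3734 x3734) = true := by decide +kernel
noncomputable def rx3740 : iz (BT.all2 (xchk xE) g3740 x3740) = true := by decide +kernel
noncomputable def rx3746 : iz (BT.all2 (xchk xE) g3746 x3746) = true := by decide +kernel
noncomputable def rx3753 : iz (BT.all2 (xchk xE) g3753 x3753) = true := by decide +kernel
noncomputable def rx3763 : iz (BT.all2 (xchk xE) g3763 x3763) = true := by decide +kernel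
noncomputable def rx3774 : iz (BT.all2 (xchk xE) g3774 x3774) = true := by decide +kernel
noncomputable def rx3783 : iz (BT.all2 (xchk xE) g3783 x3783) = true := by decide +kernel
noncomputable def rx3794 : iz (BT.all2 (xchk xE) g3794 x3794) = true := by decide +kernel
noncomputable def rx3801 : iz (BT.all2 (xchk xE) g3801 x3801) = true := by decide +kernel
noncomputable def rx3802 : iz (BT.all2 (xchk xE) g3802 x3802) = true := by decide +kernel
noncomputable def rx3811 : iz (BT.all2 (xchk xE) g3811 x3811) = true := by decide +kernel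
noncomputable def rx3818 : iz (BT.all2 (xchk xE) g3818 x3818) = true := by decide +kernel
noncomputable def rx3828 : iz (BT.all2 (xchk xE) g3828 x3828) = true := by decide +kernel
noncomputable def rx3834 : iz (BT.all2 (xchk xE) g3834 x3834) = true := by decide +kernel
noncomputable def rx3843 : iz (BT.all2 (xchk xE) g3843 x3843) = true := by decide +kernel
noncomputable def rx3853 : iz (BT.all2 (xchk xE) g3853 x3853) = true := by decide +kernel
noncomputable def rx3858 : iz (BT.all2 (xchk xE) g3858 x3858) = true := by decide +kernel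
noncomputable def rx3863 : iz (BT.all2 (xchk xE) g3863 x3863) = true := by decide +kernel
noncomputable def rx3872 : iz (BT.all2 (xchk xE) g3872 x3872) = true := by decide +kernel
noncomputable def rx3876 : iz (BT.all2 (xchk xE) g3876 x3876) = true := by decide +kernel
noncomputable def rx3886 : iz (BT.all2 (xchk xE) g3886 x3886) = true := by decide +kernel
noncomputable def rx3898 : iz (BT.all2 (xchk xE) g3898 x3898) = true := by decide +kernel
noncomputable def rx3904 : iz (BT.all2 (xchk xE) g3904 x3904) = true := by decide +kernel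
noncomputable def rx3916 : iz (BT.all2 (xchk xE) g3916 x3916) = true := by decide +kernel
noncomputable def rx3925 : iz (BT.all2 (xchk xE) g3925 x3925) = true := by decide +kernel
noncomputable def rx3935 : iz (BT.all2 (xchk xE) g3935 x3935) = true := by decide +kernel
noncomputable def rx3941 : iz (BT.all2 (xchk xE) g3941 x3941) = true := by decide +kernel
noncomputable def rx3953 : iz (BT.all2 (xchk xE) g3953 x3953) = true := by decide +kernel
noncomputable def rx3960 : iz (BT.all2 (xchk xE) g3960 x3960) = true := by decide +kernel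
noncomputable def rx3966 : iz (BT.all2 (xchk xE) g3966 x3966) = true := by decide +kernel
noncomputable def rx3972 : iz (BT.all2 (xchk xE) g3972 x3972) = true := by decide +kernel
noncomputable def rx3978 : iz (BT.all2 (xchk xE) g3978 x3978) = true := by decide +kernel
noncomputable def rx3985 : iz (BT.all2 (xchk xE) g3985 x3985) = true := by decide +kernel
noncomputable def rx3992 : iz (BT.all2 (xchk xE) g3992 x3992) = true := by decide +kernel
noncomputable def rx4001 : iz (BT.all2 (xchk xE) g4001 x4001) = true := by decide +kernel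
noncomputable def rx4011 : iz (BT.all2 (xchk xE) g4011 x4011) = true := by decide +kernel
noncomputable def rx4022 : iz (BT.all2 (xchk xE) g4022 x4022) = true := by decide +kernel
noncomputable def rx4030 : iz (BT.all2 (xchk xE) g4030 x4030) = true := by decide +kernel
noncomputable def rx4040 : iz (BT.all2 (xchk xE) g4040 x4040) = true := by decide +kernel
noncomputable def rx4046 : iz (BT.all2 (xchk xE) g4046 x4046) = true := by decide +kernel
noncomputable def rx4058 : iz (BT.all2 (xchk xE) g4058 x4058) = true := by decide +kernel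
noncomputable def rx4067 : iz (BT.all2 (xchk xE) g4067 x4067) = true := by decide +kernel
noncomputable def rx4069 : iz (BT.all2 (xchk xE) g4069 x4069) = true := by decide +kernel
noncomputable def rx4080 : iz (BT.all2 (xchk xE) g4080 x4080) = true := by decide +kernel
noncomputable def rx4086 : iz (BT.all2 (xchk xE) g4086 x4086) = true := by decide +kernel
noncomputable def rx4098 : iz (BT.all2 (xchk xE) g4098 x4098) = true := by decide +kernel
noncomputable def rx4101 : iz (BT.all2 (xchk xE) g4101 x4101) = true := by decide +kernel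
noncomputable def rx4108 : iz (BT.all2 (xchk xE) g4108 x4108) = true := by decide +kernel
noncomputable def rx4115 : iz (BT.all2 (xchk xE) g4115 x4115) = true := by decide +kernel
noncomputable def rx4124 : iz (BT.all2 (xchk xE) g4124 x4124) = true := by decide +kernel
noncomputable def rx4132 : iz (BT.all2 (xchk xE) g4132 x4132) = true := by decide +kernel
noncomputable def rx4139 : iz (BT.all2 (xchk xE) g4139 x4139) = true := by decide +kernel
noncomputable def rx4146 : iz (BT.all2 (xchk xE) g4146 x4146) = true := by decide +kernel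
noncomputable def rx4155 : iz (BT.all2 (xchk xE) g4155 x4155) = true := by decide +kernel
noncomputable def rx4161 : iz (BT.all2 (xchk xE) g4161 x4161) = true := by decide +kernel
noncomputable def rx4167 : iz (BT.all2 (xchk xE) g4167 x4167) = true := by decide +kernel
noncomputable def rx4174 : iz (BT.all2 (xchk xE) g4174 x4174) = true := by decide +kernel
noncomputable def rx4183 : iz (BT.all2 (xchk xE) g4183 x4183) = true := by decide +kernel
noncomputable def rx4194 : iz (BT.all2 (xchk xE) g4194 x4194) = true := by decide +kernel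
noncomputable def rx4200 : iz (BT.all2 (xchk xE) g4200 x4200) = true := by decide +kernel
noncomputable def rx4209 : iz (BT.all2 (xchk xE) g4209 x4209) = true := by decide +kernel
noncomputable def rx4214 : iz (BT.all2 (xchk xE) g4214 x4214) = true := by decide +kernel
noncomputable def rx4224 : iz (BT.all2 (xchk xE) g4224 x4224) = true := by decide +kernel
noncomputable def rx4231 : iz (BT.all2 (xchk xE) g4231 x4231) = true := by decide +kernel
noncomputable def rx4242 : iz (BT.all2 (xchk xE) g4242 x4242) = true := by decide +kernel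
noncomputable def rx4248 : iz (BT.all2 (xchk xE) g4248 x4248) = true := by decide +kernel
noncomputable def rx4254 : iz (BT.all2 (xchk xE) g4254 x4254) = true := by decide +kernel
noncomputable def rx4264 : iz (BT.all2 (xchk xE) g4264 x4264) = true := by decide +kernel
noncomputable def rx4268 : iz (BT.all2 (xchk xE) g4268 x4268) = true := by decide +kernel
noncomputable def rx4276 : iz (BT.all2 (xchk xE) g4276 x4276) = true := by decide +kernel
noncomputable def rx4284 : iz (BT.all2 (xchk xE) g4284 x4284) = true := by decide +kernel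
noncomputable def rx4293 : iz (BT.all2 (xchk xE) g4293 x4293) = true := by decide +kernel
noncomputable def rx4304 : iz (BT.all2 (xchk xE) g4304 x4304) = true := by decide +kernel
noncomputable def rx4312 : iz (BT.all2 (xchk xE) g4312 x4312) = true := by decide +kernel
noncomputable def rx4314 : iz (BT.all2 (xchk xE) g4314 x4314) = true := by decide +kernel
noncomputable def rx4322 : iz (BT.all2 (xchk xE) g4322 x4322) = true := by decide +kernel
noncomputable def rx4332 : iz (BT.all2 (xchk xE) g4332 x4332) = true := by decide +kernel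
noncomputable def rx4343 : iz (BT.all2 (xchk xE) g4343 x4343) = true := by decide +kernel
noncomputable def rx4355 : iz (BT.all2 (xchk xE) g4355 x4355) = true := by decide +kernel
noncomputable def rx4363 : iz (BT.all2 (xchk xE) g4363 x4363) = true := by decide +kernel
noncomputable def rx4368 : iz (BT.all2 (xchk xE) g4368 x4368) = true := by decide +kernel
noncomputable def rx4381 : iz (BT.all2 (xchk xE) g4381 x4381) = true := by decide +kernel
noncomputable def rx4390 : iz (BT.all2 (xchk xE) g4390 x4390) = true := by decide +kernel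
noncomputable def rx4399 : iz (BT.all2 (xchk xE) g4399 x4399) = true := by decide +kernel
noncomputable def rx4406 : iz (BT.all2 (xchk xE) g4406 x4406) = true := by decide +kernel
noncomputable def rx4417 : iz (BT.all2 (xchk xE) g4417 x4417) = true := by decide +kernel
noncomputable def rx4423 : iz (BT.all2 (xchk xE) g4423 x4423) = true := by decide +kernel
noncomputable def rx4432 : iz (BT.all2 (xchk xE) g4432 x4432) = true := by decide +kernel
noncomputable def rx4436 : iz (BT.all2 (xchk xE) g4436 x4436) = true := by decide +kernel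
noncomputable def rx4446 : iz (BT.all2 (xchk xE) g4446 x4446) = true := by decide +kernel
noncomputable def rx4456 : iz (BT.all2 (xchk xE) g4456 x4456) = true := by decide +kernel
noncomputable def rX2 : OK2 (xchk xE) tG2 tX2 := (ok2_nd (nat_lit 3719) (ok2_nd (nat_lit 3354) (ok2_nd (nat_lit 3151) (ok2_nd (nat_lit 3049) (ok2_nd (nat_lit 3015) (ok2_nd (nat_lit 2991) (ok2_nd (nat_lit 2983) (ok2_of rx2973) (ok2_of rx2983)) (ok2_nd (nat_lit 2999) (ok2_of rx2991) (ok2_nd (nat_lit 3006) (ok2_of rx2999) (ok2_of rx3006)))) (ok2_nd (nat_lit 3033) (ok2_nd (nat_lit 3021) (ok2_of rx3015) (ok2_nd (nat_lit 3027) (ok2_of rx3021) (ok2_of rx3027))) (ok2_nd (nat_lit 3042) (ok2_of rx3033) (ok2_nd (nat_lit 3045) (ok2_of rx3042) (ok2_of rx3045))))) (ok2_nd (nat_lit 3100) (ok2_nd (nat_lit 3084) (ok2_nd (nat_lit 3063) (ok2_of rx3049) (ok2_nd (nat_lit 3075) (ok2_of rx3063) (ok2_of rx3075))) (ok2_nd (nat_lit 3091) (ok2_of rx3084) (ok2_nd (nat_lit 3096) (ok2_of rx3091) (ok2_of rx3096)))) (ok2_nd (nat_lit 3127) (ok2_nd (nat_lit 3109) (ok2_of rx3100)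 (ok2_nd (nat_lit 3122) (ok2_of rx3109) (ok2_of rx3122))) (ok2_nd (nat_lit 3135) (ok2_of rx3127) (ok2_nd (nat_lit 3143) (ok2_of rx3135) (ok2_of rx3143)))))) (ok2_nd (nat_lit 3251) (ok2_nd (nat_lit 3194) (ok2_nd (nat_lit 3169) (ok2_nd (nat_lit 3159) (ok2_of rx3151) (ok2_of rx3159)) (ok2_nd (nat_lit 3177) (ok2_of rx3169) (ok2_nd (nat_lit 3186) (ok2_of rx3177) (ok2_of rx3186)))) (ok2_nd (nat_lit 3220) (ok2_nd (nat_lit 3206) (ok2_of rx3194) (ok2_nd (nat_lit 3213) (ok2_of rx3206) (ok2_of rx3213))) (ok2_nd (nat_lit 3229) (ok2_of rx3220) (ok2_nd (nat_lit 3240) (ok2_of rx3229) (ok2_of rx3240))))) (ok2_nd (nat_lit 3300) (ok2_nd (nat_lit 3278) (ok2_nd (nat_lit 3265) (ok2_of rx3251) (ok2_nd (nat_lit 3273) (ok2_of rx3265) (ok2_of rx3273))) (ok2_nd (nat_lit 3284) (ok2_of rx3278) (ok2_nd (nat_lit 3291) (ok2_of rx3284) (ok2_of rx3291)))) (ok2_nd (nat_lit 3330) (ok2_nd (nat_lit 3310) (ok2_of rx3300) (ok2_nd (nat_lit 3319) (ok2_of rx3310) (ok2_of rx3319))) (ok2_nd (nat_lit 3336) (ok2_of rx3330) (ok2_nd (nat_lit 3345) (ok2_of rx3336) (ok2_of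 rx3345))))))) (ok2_nd (nat_lit 3537) (ok2_nd (nat_lit 3438) (ok2_nd (nat_lit 3396) (ok2_nd (nat_lit 3368) (ok2_nd (nat_lit 3360) (ok2_of rx3354) (ok2_of rx3360)) (ok2_nd (nat_lit 3381) (ok2_of rx3368) (ok2_nd (nat_lit 3390) (ok2_of rx3381) (ok2_of rx3390)))) (ok2_nd (nat_lit 3422) (ok2_nd (nat_lit 3404) (ok2_of rx3396) (ok2_nd (nat_lit 3413) (ok2_of rx3404) (ok2_of rx3413))) (ok2_nd (nat_lit 3423) (ok2_of rx3422) (ok2_nd (nat_lit 3432) (ok2_of rx3423) (ok2_of rx3432))))) (ok2_nd (nat_lit 3490) (ok2_nd (nat_lit 3465) (ok2_nd (nat_lit 3444) (ok2_of rx3438) (ok2_nd (nat_lit 3457) (ok2_of rx3444) (ok2_of rx3457))) (ok2_nd (nat_lit 3467) (ok2_of rx3465) (ok2_nd (nat_lit 3477) (ok2_of rx3467) (ok2_of rx3477)))) (ok2_nd (nat_lit 3511) (ok2_nd (nat_lit 3499) (ok2_of rx3490) (ok2_nd (nat_lit 3502) (ok2_of rx3499) (ok2_of rx3502))) (ok2_nd (nat_lit 3518) (ok2_of rx3511) (ok2_nd (nat_lit 3525) (ok2_of rx3518) (ok2_of rx3525)))))) (ok2_nd (nat_lit 3619) (ok2_nd (nat_lit 3579) (ok2_nd (nat_lit 3550) (ok2_nd (nat_lit 3546) (ok2_of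 rx3537) (ok2_of rx3546)) (ok2_nd (nat_lit 3561) (ok2_of rx3550) (ok2_nd (nat_lit 3573) (ok2_of rx3561) (ok2_of rx3573)))) (ok2_nd (nat_lit 3603) (ok2_nd (nat_lit 3589) (ok2_of rx3579) (ok2_nd (nat_lit 3598) (ok2_of rx3589) (ok2_of rx3598))) (ok2_nd (nat_lit 3609) (ok2_of rx3603) (ok2_nd (nat_lit 3615) (ok2_of rx3609) (ok2_of rx3615))))) (ok2_nd (nat_lit 3676) (ok2_nd (nat_lit 3647) (ok2_nd (nat_lit 3628) (ok2_of rx3619) (ok2_nd (nat_lit 3636) (ok2_of rx3628) (ok2_of rx3636))) (ok2_nd (nat_lit 3653) (ok2_of rx3647) (ok2_nd (nat_lit 3662) (ok2_of rx3653) (ok2_of rx3662)))) (ok2_nd (nat_lit 3701) (ok2_nd (nat_lit 3682) (ok2_of rx3676) (ok2_nd (nat_lit 3691) (ok2_of rx3682) (ok2_of rx3691))) (ok2_nd (nat_lit 3706) (ok2_of rx3701) (ok2_nd (nat_lit 3708) (ok2_of rx3706) (ok2_of rx3708)))))))) (ok2_nd (nat_lit 4086) (ok2_nd (nat_lit 3898) (ok2_nd (nat_lit 3802) (ok2_nd (nat_lit 3753) (ok2_nd (nat_lit 3734) (ok2_nd (nat_lit 3727) (ok2_of rx3719) (ok2_of rx3727)) (ok2_nd (nat_lit 3740) (ok2_of rx3734) (ok2_nd (nat_lit 3746) (ok2_of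 rx3740) (ok2_of rx3746)))) (ok2_nd (nat_lit 3783) (ok2_nd (nat_lit 3763) (ok2_of rx3753) (ok2_nd (nat_lit 3774) (ok2_of rx3763) (ok2_of rx3774))) (ok2_nd (nat_lit 3794) (ok2_of rx3783) (ok2_nd (nat_lit 3801) (ok2_of rx3794) (ok2_of rx3801))))) (ok2_nd (nat_lit 3853) (ok2_nd (nat_lit 3828) (ok2_nd (nat_lit 3811) (ok2_of rx3802) (ok2_nd (nat_lit 3818) (ok2_of rx3811) (ok2_of rx3818))) (ok2_nd (nat_lit 3834) (ok2_of rx3828) (ok2_nd (nat_lit 3843) (ok2_of rx3834) (ok2_of rx3843)))) (ok2_nd (nat_lit 3872) (ok2_nd (nat_lit 3858) (ok2_of rx3853) (ok2_nd (nat_lit 3863) (ok2_of rx3858) (ok2_of rx3863))) (ok2_nd (nat_lit 3876) (ok2_of rx3872) (ok2_nd (nat_lit 3886) (ok2_of rx3876) (ok2_of rx3886)))))) (ok2_nd (nat_lit 3985) (ok2_nd (nat_lit 3941) (ok2_nd (nat_lit 3916) (ok2_nd (nat_lit 3904) (ok2_of rx3898) (ok2_of rx3904)) (ok2_nd (nat_lit 3925) (ok2_of rx3916) (ok2_nd (nat_lit 3935) (ok2_of rx3925) (ok2_of rx3935)))) (ok2_nd (nat_lit 3966) (ok2_nd (nat_lit 3953) (ok2_of rx3941) (ok2_nd (nat_lit 3960) (ok2_of rx3953) (ok2_of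 rx3960))) (ok2_nd (nat_lit 3972) (ok2_of rx3966) (ok2_nd (nat_lit 3978) (ok2_of rx3972) (ok2_of rx3978))))) (ok2_nd (nat_lit 4040) (ok2_nd (nat_lit 4011) (ok2_nd (nat_lit 3992) (ok2_of rx3985) (ok2_nd (nat_lit 4001) (ok2_of rx3992) (ok2_of rx4001))) (ok2_nd (nat_lit 4022) (ok2_of rx4011) (ok2_nd (nat_lit 4030) (ok2_of rx4022) (ok2_of rx4030)))) (ok2_nd (nat_lit 4067) (ok2_nd (nat_lit 4046) (ok2_of rx4040) (ok2_nd (nat_lit 4058) (ok2_of rx4046) (ok2_of rx4058))) (ok2_nd (nat_lit 4069) (ok2_of rx4067) (ok2_nd (nat_lit 4080) (ok2_of rx4069) (ok2_of rx4080))))))) (ok2_nd (nat_lit 4264) (ok2_nd (nat_lit 4167) (ok2_nd (nat_lit 4124) (ok2_nd (nat_lit 4101) (ok2_nd (nat_lit 4098) (ok2_of rx4086) (ok2_of rx4098)) (ok2_nd (nat_lit 4108) (ok2_of rx4101) (ok2_nd (nat_lit 4115) (ok2_of rx4108) (ok2_of rx4115)))) (ok2_nd (nat_lit 4146) (ok2_nd (nat_lit 4132) (ok2_of rx4124) (ok2_nd (nat_lit 4139) (ok2_of rx4132) (ok2_of rx4139))) (ok2_nd (nat_lit 4155) (ok2_of rx4146) (ok2_nd (nat_lit 4161) (ok2_of rx4155) (ok2_of rx4161))))) (ok2_nd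 (nat_lit 4214) (ok2_nd (nat_lit 4194) (ok2_nd (nat_lit 4174) (ok2_of rx4167) (ok2_nd (nat_lit 4183) (ok2_of rx4174) (ok2_of rx4183))) (ok2_nd (nat_lit 4200) (ok2_of rx4194) (ok2_nd (nat_lit 4209) (ok2_of rx4200) (ok2_of rx4209)))) (ok2_nd (nat_lit 4242) (ok2_nd (nat_lit 4224) (ok2_of rx4214) (ok2_nd (nat_lit 4231) (ok2_of rx4224) (ok2_of rx4231))) (ok2_nd (nat_lit 4248) (ok2_of rx4242) (ok2_nd (nat_lit 4254) (ok2_of rx4248) (ok2_of rx4254)))))) (ok2_nd (nat_lit 4363) (ok2_nd (nat_lit 4312) (ok2_nd (nat_lit 4284) (ok2_nd (nat_lit 4268) (ok2_of rx4264) (ok2_nd (nat_lit 4276) (ok2_of rx4268) (ok2_of rx4276))) (ok2_nd (nat_lit 4293) (ok2_of rx4284) (ok2_nd (nat_lit 4304) (ok2_of rx4293) (ok2_of rx4304)))) (ok2_nd (nat_lit 4332) (ok2_nd (nat_lit 4314) (ok2_of rx4312) (ok2_nd (nat_lit 4322) (ok2_of rx4314) (ok2_of rx4322))) (ok2_nd (nat_lit 4343) (ok2_of rx4332) (ok2_nd (nat_lit 4355) (ok2_of rx4343) (ok2_of rx4355))))) (ok2_nd (nat_lit 4417) (ok2_nd (nat_lit 4390) (ok2_nd (nat_lit 4368) (ok2_of rx4363) (ok2_nd (nat_lit 4381)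 (ok2_of rx4368) (ok2_of rx4381))) (ok2_nd (nat_lit 4399) (ok2_of rx4390) (ok2_nd (nat_lit 4406) (ok2_of rx4399) (ok2_of rx4406)))) (ok2_nd (nat_lit 4436) (ok2_nd (nat_lit 4423) (ok2_of rx4417) (ok2_nd (nat_lit 4432) (ok2_of rx4423) (ok2_of rx4432))) (ok2_nd (nat_lit 4446) (ok2_of rx4436) (ok2_nd (nat_lit 4456) (ok2_of rx4446) (ok2_of rx4456)))))))))

end Pool.Agent.MP_797bdc_co.Lk.Da
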