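import Pool.Agent.MP_797bdc_co.Lk.XA
import Pool.Agent.MP_797bdc_co.Lk.DE
import Pool.Agent.MP_797bdc_co.Lk.DG3
import Pool.Agent.MP_797bdc_co.Lk.DX3

/-! Run of checker X. -/

set_option maxRecDepth 100000
set_option linter.defProp false

namespace Pool.Agent.MP_797bdc_co.Lk.Da

noncomputable def rx4463 : iz (BT.all2 (xchk xE) g4463 x4463) = true := by decide +kernel
noncomputable def rx4471 : iz (BT.all2 (xchk xE) g4471 x4471) = true := by decide +kernel
noncomputable def rx4475 : iz (BT.all2 (xchk xE) g4475 x4475) = true := by decide +kernel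
noncomputable def rx4484 : iz (BT.all2 (xchk xE) g4484 x4484) = true := by decide +kernel
noncomputable def rx4493 : iz (BT.all2 (xchk xE) g4493 x4493) = true := by decide +kernel
noncomputable def rx4501 : iz (BT.all2 (xchk xE) g4501 x4501) = true := by decide +kernel
noncomputable def rx4510 : iz (BT.all2 (xchk xE) g4510 x4510) = true := by decide +kernel
noncomputable def rx4521 : iz (BT.all2 (xchk xE) g4521 x4521) = true := by decide +kernel
noncomputable def rx4530 : iz (BT.all2 (xchk xE) g4530 x4530) = true := by decide +kernel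
noncomputable def rx4537 : iz (BT.all2 (xchk xE) g4537 x4537) = true := by decide +kernel
noncomputable def rx4546 : iz (BT.all2 (xchk xE) g4546 x4546) = true := by decide +kernel
noncomputable def rx4555 : iz (BT.all2 (xchk xE) g4555 x4555) = true := by decide +kernel
noncomputable def rx4566 : iz (BT.all2 (xchk xE) g4566 x4566) = true := by decide +kernel
noncomputable def rx4572 : iz (BT.all2 (xchk xE) g4572 x4572) = true := by decide +kernel
noncomputable def rx4583 : iz (BT.all2 (xchk xE) g4583 x4583) = true := by decide +kernel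
noncomputable def rx4587 : iz (BT.all2 (xchk xE) g4587 x4587) = true := by decide +kernel
noncomputable def rx4596 : iz (BT.all2 (xchk xE) g4596 x4596) = true := by decide +kernel
noncomputable def rx4604 : iz (BT.all2 (xchk xE) g4604 x4604) = true := by decide +kernel
noncomputable def rx4616 : iz (BT.all2 (xchk xE) g4616 x4616) = true := by decide +kernel
noncomputable def rx4629 : iz (BT.all2 (xchk xE) g4629 x4629) = true := by decide +kernel
noncomputable def rx4636 : iz (BT.all2 (xchk xE) g4636 x4636) = true := by decide +kernel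
noncomputable def rx4637 : iz (BT.all2 (xchk xE) g4637 x4637) = true := by decide +kernel
noncomputable def rx4646 : iz (BT.all2 (xchk xE) g4646 x4646) = true := by decide +kernel
noncomputable def rx4656 : iz (BT.all2 (xchk xE) g4656 x4656) = true := by decide +kernel
noncomputable def rx4661 : iz (BT.all2 (xchk xE) g4661 x4661) = true := by decide +kernel
noncomputable def rx4669 : iz (BT.all2 (xchk xE) g4669 x4669) = true := by decide +kernel
noncomputable def rx4677 : iz (BT.all2 (xchk xE) g4677 x4677) = true := by decide +kernel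
noncomputable def rx4681 : iz (BT.all2 (xchk xE) g4681 x4681) = true := by decide +kernel
noncomputable def rx4693 : iz (BT.all2 (xchk xE) g4693 x4693) = true := by decide +kernel
noncomputable def rx4703 : iz (BT.all2 (xchk xE) g4703 x4703) = true := by decide +kernel
noncomputable def rx4709 : iz (BT.all2 (xchk xE) g4709 x4709) = true := by decide +kernel
noncomputable def rx4717 : iz (BT.all2 (xchk xE) g4717 x4717) = true := by decide +kernel
noncomputable def rx4726 : iz (BT.all2 (xchk xE) g4726 x4726) = true := by decide +kernel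
noncomputable def rx4733 : iz (BT.all2 (xchk xE) g4733 x4733) = true := by decide +kernel
noncomputable def rx4739 : iz (BT.all2 (xchk xE) g4739 x4739) = true := by decide +kernel
noncomputable def rx4747 : iz (BT.all2 (xchk xE) g4747 x4747) = true := by decide +kernel
noncomputable def rx4756 : iz (BT.all2 (xchk xE) g4756 x4756) = true := by decide +kernel
noncomputable def rx4762 : iz (BT.all2 (xchk xE) g4762 x4762) = true := by decide +kernel
noncomputable def rx4770 : iz (BT.all2 (xchk xE) g4770 x4770) = true := by decide +kernel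
noncomputable def rx4783 : iz (BT.all2 (xchk xE) g4783 x4783) = true := by decide +kernel
noncomputable def rx4792 : iz (BT.all2 (xchk xE) g4792 x4792) = true := by decide +kernel
noncomputable def rx4800 : iz (BT.all2 (xchk xE) g4800 x4800) = true := by decide +kernel
noncomputable def rx4809 : iz (BT.all2 (xchk xE) g4809 x4809) = true := by decide +kernel
noncomputable def rx4815 : iz (BT.all2 (xchk xE) g4815 x4815) = true := by decide +kernel
noncomputable def rx4820 : iz (BT.all2 (xchk xE) g4820 x4820) = true := by decide +kernel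
noncomputable def rx4830 : iz (BT.all2 (xchk xE) g4830 x4830) = true := by decide +kernel
noncomputable def rx4833 : iz (BT.all2 (xchk xE) g4833 x4833) = true := by decide +kernel
noncomputable def rx4837 : iz (BT.all2 (xchk xE) g4837 x4837) = true := by decide +kernel
noncomputable def rx4846 : iz (BT.all2 (xchk xE) g4846 x4846) = true := by decide +kernel
noncomputable def rx4857 : iz (BT.all2 (xchk xE) g4857 x4857) = true := by decide +kernel
noncomputable def rx4863 : iz (BT.all2 (xchk xE) g4863 x4863) = true := by decide +kernel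
noncomputable def rx4873 : iz (BT.all2 (xchk xE) g4873 x4873) = true := by decide +kernel
noncomputable def rx4874 : iz (BT.all2 (xchk xE) g4874 x4874) = true := by decide +kernel
noncomputable def rx4884 : iz (BT.all2 (xchk xE) g4884 x4884) = true := by decide +kernel
noncomputable def rx4893 : iz (BT.all2 (xchk xE) g4893 x4893) = true := by decide +kernel
noncomputable def rx4906 : iz (BT.all2 (xchk xE) g4906 x4906) = true := by decide +kernel
noncomputable def rx4914 : iz (BT.all2 (xchk xE) g4914 x4914) = true := by decide +kernel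
noncomputable def rx4920 : iz (BT.all2 (xchk xE) g4920 x4920) = true := by decide +kernel
noncomputable def rx4928 : iz (BT.all2 (xchk xE) g4928 x4928) = true := by decide +kernel
noncomputable def rx4938 : iz (BT.all2 (xchk xE) g4938 x4938) = true := by decide +kernel
noncomputable def rx4943 : iz (BT.all2 (xchk xE) g4943 x4943) = true := by decide +kernel
noncomputable def rx4949 : iz (BT.all2 (xchk xE) g4949 x4949) = true := by decide +kernel
noncomputable def rx4958 : iz (BT.all2 (xchk xE) g4958 x4958) = true := by decide +kernel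
noncomputable def rx4964 : iz (BT.all2 (xchk xE) g4964 x4964) = true := by decide +kernel
noncomputable def rx4973 : iz (BT.all2 (xchk xE) g4973 x4973) = true := by decide +kernel
noncomputable def rx4979 : iz (BT.all2 (xchk xE) g4979 x4979) = true := by decide +kernel
noncomputable def rx4980 : iz (BT.all2 (xchk xE) g4980 x4980) = true := by decide +kernel
noncomputable def rx4988 : iz (BT.all2 (xchk xE) g4988 x4988) = true := by decide +kernel
noncomputable def rx4999 : iz (BT.all2 (xchk xE) g4999 x4999) = true := by decide +kernel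
noncomputable def rx5007 : iz (BT.all2 (xchk xE) g5007 x5007) = true := by decide +kernel
noncomputable def rx5010 : iz (BT.all2 (xchk xE) g5010 x5010) = true := by decide +kernel
noncomputable def rx5022 : iz (BT.all2 (xchk xE) g5022 x5022) = true := by decide +kernel
noncomputable def rx5031 : iz (BT.all2 (xchk xE) g5031 x5031) = true := by decide +kernel
noncomputable def rx5032 : iz (BT.all2 (xchk xE) g5032 x5032) = true := by decide +kernel
noncomputable def rx5044 : iz (BT.all2 (xchk xE) g5044 x5044) = true := by decide +kernel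
noncomputable def rx5055 : iz (BT.all2 (xchk xE) g5055 x5055) = true := by decide +kernel
noncomputable def rx5065 : iz (BT.all2 (xchk xE) g5065 x5065) = true := by decide +kernel
noncomputable def rx5076 : iz (BT.all2 (xchk xE) g5076 x5076) = true := by decide +kernel
noncomputable def rx5082 : iz (BT.all2 (xchk xE) g5082 x5082) = true := by decide +kernel
noncomputable def rx5087 : iz (BT.all2 (xchk xE) g5087 x5087) = true := by decide +kernel
noncomputable def rx5094 : iz (BT.all2 (xchk xE) g5094 x5094) = true := by decide +kernel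
noncomputable def rx5102 : iz (BT.all2 (xchk xE) g5102 x5102) = true := by decide +kernel
noncomputable def rx5110 : iz (BT.all2 (xchk xE) g5110 x5110) = true := by decide +kernel
noncomputable def rx5121 : iz (BT.all2 (xchk xE) g5121 x5121) = true := by decide +kernel
noncomputable def rx5130 : iz (BT.all2 (xchk xE) g5130 x5130) = true := by decide +kernel
noncomputable def rx5136 : iz (BT.all2 (xchk xE) g5136 x5136) = true := by decide +kernel
noncomputable def rx5145 : iz (BT.all2 (xchk xE) g5145 x5145) = true := by decide +kernel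
noncomputable def rx5157 : iz (BT.all2 (xchk xE) g5157 x5157) = true := by decide +kernel
noncomputable def rx5165 : iz (BT.all2 (xchk xE) g5165 x5165) = true := by decide +kernel
noncomputable def rx5171 : iz (BT.all2 (xchk xE) g5171 x5171) = true := by decide +kernel
noncomputable def rx5177 : iz (BT.all2 (xchk xE) g5177 x5177) = true := by decide +kernel
noncomputable def rx5183 : iz (BT.all2 (xchk xE) g5183 x5183) = true := by decide +kernel
noncomputable def rx5190 : iz (BT.all2 (xchk xE) g5190 x5190) = true := by decide +kernel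
noncomputable def rx5199 : iz (BT.all2 (xchk xE) g5199 x5199) = true := by decide +kernel
noncomputable def rx5205 : iz (BT.all2 (xchk xE) g5205 x5205) = true := by decide +kernel
noncomputable def rx5214 : iz (BT.all2 (xchk xE) g5214 x5214) = true := by decide +kernel
noncomputable def rx5220 : iz (BT.all2 (xchk xE) g5220 x5220) = true := by decide +kernel
noncomputable def rx5228 : iz (BT.all2 (xchk xE) g5228 x5228) = true := by decide +kernel
noncomputable def rx5237 : iz (BT.all2 (xchk xE) g5237 x5237) = true := by decide +kernel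
noncomputable def rx5244 : iz (BT.all2 (xchk xE) g5244 x5244) = true := by decide +kernel
noncomputable def rx5251 : iz (BT.all2 (xchk xE) g5251 x5251) = true := by decide +kernel
noncomputable def rx5258 : iz (BT.all2 (xchk xE) g5258 x5258) = true := by decide +kernel
noncomputable def rx5264 : iz (BT.all2 (xchk xE) g5264 x5264) = true := by decide +kernel
noncomputable def rx5273 : iz (BT.all2 (xchk xE) g5273 x5273) = true := by decide +kernel
noncomputable def rx5285 : iz (BT.all2 (xchk xE) g5285 x5285) = true := by decide +kernel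
noncomputable def rx5298 : iz (BT.all2 (xchk xE) g5298 x5298) = true := by decide +kernel
noncomputable def rx5310 : iz (BT.all2 (xchk xE) g5310 x5310) = true := by decide +kernel
noncomputable def rx5320 : iz (BT.all2 (xchk xE) g5320 x5320) = true := by decide +kernel
noncomputable def rx5330 : iz (BT.all2 (xchk xE) g5330 x5330) = true := by decide +kernel
noncomputable def rx5338 : iz (BT.all2 (xchk xE) g5338 x5338) = true := by decide +kernel
noncomputable def rx5342 : iz (BT.all2 (xchk xE) g5342 x5342) = true := by decide +kernel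
noncomputable def rx5346 : iz (BT.all2 (xchk xE) g5346 x5346) = true := by decide +kernel
noncomputable def rx5355 : iz (BT.all2 (xchk xE) g5355 x5355) = true := by decide +kernel
noncomputable def rx5362 : iz (BT.all2 (xchk xE) g5362 x5362) = true := by decide +kernel
noncomputable def rx5372 : iz (BT.all2 (xchk xE) g5372 x5372) = true := by decide +kernel
noncomputable def rx5378 : iz (BT.all2 (xchk xE) g5378 x5378) = true := by decide +kernel
noncomputable def rx5391 : iz (BT.all2 (xchk xE) g5391 x5391) = true := by decide +kernel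
noncomputable def rx5396 : iz (BT.all2 (xchk xE) g5396 x5396) = true := by decide +kernel
noncomputable def rx5404 : iz (BT.all2 (xchk xE) g5404 x5404) = true := by decide +kernel
noncomputable def rx5412 : iz (BT.all2 (xchk xE) g5412 x5412) = true := by decide +kernel
noncomputable def rx5421 : iz (BT.all2 (xchk xE) g5421 x5421) = true := by decide +kernel
noncomputable def rx5427 : iz (BT.all2 (xchk xE) g5427 x5427) = true := by decide +kernel
noncomputable def rx5433 : iz (BT.all2 (xchk xE) g5433 x5433) = true := by decide +kernel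
noncomputable def rx5439 : iz (BT.all2 (xchk xE) g5439 x5439) = true := by decide +kernel
noncomputable def rx5444 : iz (BT.all2 (xchk xE) g5444 x5444) = true := by decide +kernel
noncomputable def rx5456 : iz (BT.all2 (xchk xE) g5456 x5456) = true := by decide +kernel
noncomputable def rx5462 : iz (BT.all2 (xchk xE) g5462 x5462) = true := by decide +kernel
noncomputable def rx5471 : iz (BT.all2 (xchk xE) g5471 x5471) = true := by decide +kernel
noncomputable def rx5479 : iz (BT.all2 (xchk xE) g5479 x5479) = true := by decide +kernel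
noncomputable def rx5488 : iz (BT.all2 (xchk xE) g5488 x5488) = true := by decide +kernel
noncomputable def rx5495 : iz (BT.all2 (xchk xE) g5495 x5495) = true := by decide +kernel
noncomputable def rx5501 : iz (BT.all2 (xchk xE) g5501 x5501) = true := by decide +kernel
noncomputable def rx5509 : iz (BT.all2 (xchk xE) g5509 x5509) = true := by decide +kernel
noncomputable def rx5518 : iz (BT.all2 (xchk xE) g5518 x5518) = true := by decide +kernel
noncomputable def rx5531 : iz (BT.all2 (xchk xE) g5531 x5531) = true := by decide +kernel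
noncomputable def rx5537 : iz (BT.all2 (xchk xE) g5537 x5537) = true := by decide +kernel
noncomputable def rx5542 : iz (BT.all2 (xchk xE) g5542 x5542) = true := by decide +kernel
noncomputable def rx5552 : iz (BT.all2 (xchk xE) g5552 x5552) = true := by decide +kernel
noncomputable def rx5560 : iz (BT.all2 (xchk xE) g5560 x5560) = true := by decide +kernel
noncomputable def rx5566 : iz (BT.all2 (xchk xE) g5566 x5566) = true := by decide +kernel
noncomputable def rx5578 : iz (BT.all2 (xchk xE) g5578 x5578) = true := by decide +kernel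
noncomputable def rx5590 : iz (BT.all2 (xchk xE) g5590 x5590) = true := by decide +kernel
noncomputable def rx5601 : iz (BT.all2 (xchk xE) g5601 x5601) = true := by decide +kernel
noncomputable def rx5611 : iz (BT.all2 (xchk xE) g5611 x5611) = true := by decide +kernel
noncomputable def rx5621 : iz (BT.all2 (xchk xE) g5621 x5621) = true := by decide +kernel
noncomputable def rx5622 : iz (BT.all2 (xchk xE) g5622 x5622) = true := by decide +kernel
noncomputable def rx5632 : iz (BT.all2 (xchk xE) g5632 x5632) = true := by decide +kernel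
noncomputable def rx5639 : iz (BT.all2 (xchk xE) g5639 x5639) = true := by decide +kernel
noncomputable def rx5645 : iz (BT.all2 (xchk xE) g5645 x5645) = true := by decide +kernel
noncomputable def rx5651 : iz (BT.all2 (xchk xE) g5651 x5651) = true := by decide +kernel
noncomputable def rx5659 : iz (BT.all2 (xchk xE) g5659 x5659) = true := by decide +kernel
noncomputable def rx5666 : iz (BT.all2 (xchk xE) g5666 x5666) = true := by decide +kernel
noncomputable def rx5672 : iz (BT.all2 (xchk xE) g5672 x5672) = true := by decide +kernel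
noncomputable def rx5681 : iz (BT.all2 (xchk xE) g5681 x5681) = true := by decide +kernel
noncomputable def rx5687 : iz (BT.all2 (xchk xE) g5687 x5687) = true := by decide +kernel
noncomputable def rx5697 : iz (BT.all2 (xchk xE) g5697 x5697) = true := by decide +kernel
noncomputable def rx5704 : iz (BT.all2 (xchk xE) g5704 x5704) = true := by decide +kernel
noncomputable def rx5715 : iz (BT.all2 (xchk xE) g5715 x5715) = true := by decide +kernel
noncomputable def rx5721 : iz (BT.all2 (xchk xE) g5721 x5721) = true := by decide +kernel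
noncomputable def rx5727 : iz (BT.all2 (xchk xE) g5727 x5727) = true := by decide +kernel
noncomputable def rx5733 : iz (BT.all2 (xchk xE) g5733 x5733) = true := by decide +kernel
noncomputable def rx5742 : iz (BT.all2 (xchk xE) g5742 x5742) = true := by decide +kernel
noncomputable def rx5749 : iz (BT.all2 (xchk xE) g5749 x5749) = true := by decide +kernel
noncomputable def rx5758 : iz (BT.all2 (xchk xE) g5758 x5758) = true := by decide +kernel
noncomputable def rx5766 : iz (BT.all2 (xchk xE) g5766 x5766) = true := by decide +kernel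
noncomputable def rx5774 : iz (BT.all2 (xchk xE) g5774 x5774) = true := by decide +kernel
noncomputable def rx5781 : iz (BT.all2 (xchk xE) g5781 x5781) = true := by decide +kernel
noncomputable def rx5790 : iz (BT.all2 (xchk xE) g5790 x5790) = true := by decide +kernel
noncomputable def rx5800 : iz (BT.all2 (xchk xE) g5800 x5800) = true := by decide +kernel
noncomputable def rx5804 : iz (BT.all2 (xchk xE) g5804 x5804) = true := by decide +kernel
noncomputable def rx5813 : iz (BT.all2 (xchk xE) g5813 x5813) = true := by decide +kernel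
noncomputable def rx5820 : iz (BT.all2 (xchk xE) g5820 x5820) = true := by decide +kernel
noncomputable def rx5829 : iz (BT.all2 (xchk xE) g5829 x5829) = true := by decide +kernel
noncomputable def rx5838 : iz (BT.all2 (xchk xE) g5838 x5838) = true := by decide +kernel
noncomputable def rx5850 : iz (BT.all2 (xchk xE) g5850 x5850) = true := by decide +kernel
noncomputable def rx5859 : iz (BT.all2 (xchk xE) g5859 x5859) = true := by decide +kernel
noncomputable def rx5865 : iz (BT.all2 (xchk xE) g5865 x5865) = true := by decide +kernel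
noncomputable def rx5875 : iz (BT.all2 (xchk xE) g5875 x5875) = true := by decide +kernel
noncomputable def rx5881 : iz (BT.all2 (xchk xE) g5881 x5881) = true := by decide +kernel
noncomputable def rx5888 : iz (BT.all2 (xchk xE) g5888 x5888) = true := by decide +kernel
noncomputable def rx5896 : iz (BT.all2 (xchk xE) g5896 x5896) = true := by decide +kernel
noncomputable def rx5903 : iz (BT.all2 (xchk xE) g5903 x5903) = true := by decide +kernel
noncomputable def rx5914 : iz (BT.all2 (xchk xE) g5914 x5914) = true := by decide +kernel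
noncomputable def rx5921 : iz (BT.all2 (xchk xE) g5921 x5921) = true := by decide +kernel
noncomputable def rx5928 : iz (BT.all2 (xchk xE) g5928 x5928) = true := by decide +kernel
noncomputable def rX3 : OK2 (xchk xE) tG3 tX3 := (ok2_nd (nat_lit 5190) (ok2_nd (nat_lit 4833) (ok2_nd (nat_lit 4656) (ok2_nd (nat_lit 4555) (ok2_nd (nat_lit 4501) (ok2_nd (nat_lit 4475) (ok2_nd (nat_lit 4471) (ok2_of rx4463) (ok2_of rx4471)) (ok2_nd (nat_lit 4484) (ok2_of rx4475) (ok2_nd (nat_lit 4493) (ok2_of rx4484) (ok2_of rx4493)))) (ok2_nd (nat_lit 4530) (ok2_nd (nat_lit 4510) (ok2_of rx4501) (ok2_nd (nat_lit 4521) (ok2_of rx4510) (ok2_of rx4521))) (ok2_nd (nat_lit 4537) (ok2_of rx4530) (ok2_nd (nat_lit 4546) (ok2_of rx4537) (ok2_of rx4546))))) (ok2_nd (nat_lit 4604) (ok2_nd (nat_lit 4583) (ok2_nd (nat_lit 4566) (ok2_of rx4555) (ok2_nd (nat_lit 4572) (ok2_of rx4566) (ok2_of rx4572))) (ok2_nd (nat_lit 4587) (ok2_of rx4583) (ok2_nd (nat_lit 4596) (ok2_of rx4587) (ok2_of rx4596)))) (ok2_nd (nat_lit 4636) (ok2_nd (nat_lit 4616) (ok2_of rx4604)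 (ok2_nd (nat_lit 4629) (ok2_of rx4616) (ok2_of rx4629))) (ok2_nd (nat_lit 4637) (ok2_of rx4636) (ok2_nd (nat_lit 4646) (ok2_of rx4637) (ok2_of rx4646)))))) (ok2_nd (nat_lit 4739) (ok2_nd (nat_lit 4693) (ok2_nd (nat_lit 4669) (ok2_nd (nat_lit 4661) (ok2_of rx4656) (ok2_of rx4661)) (ok2_nd (nat_lit 4677) (ok2_of rx4669) (ok2_nd (nat_lit 4681) (ok2_of rx4677) (ok2_of rx4681)))) (ok2_nd (nat_lit 4717) (ok2_nd (nat_lit 4703) (ok2_of rx4693) (ok2_nd (nat_lit 4709) (ok2_of rx4703) (ok2_of rx4709))) (ok2_nd (nat_lit 4726) (ok2_of rx4717) (ok2_nd (nat_lit 4733) (ok2_of rx4726) (ok2_of rx4733))))) (ok2_nd (nat_lit 4792) (ok2_nd (nat_lit 4762) (ok2_nd (nat_lit 4747) (ok2_of rx4739) (ok2_nd (nat_lit 4756) (ok2_of rx4747) (ok2_of rx4756))) (ok2_nd (nat_lit 4770) (ok2_of rx4762) (ok2_nd (nat_lit 4783) (ok2_of rx4770) (ok2_of rx4783)))) (ok2_nd (nat_lit 4815) (ok2_nd (nat_lit 4800) (ok2_of rx4792) (ok2_nd (nat_lit 4809) (ok2_of rx4800) (ok2_of rx4809))) (ok2_nd (nat_lit 4820) (ok2_of rx4815) (ok2_nd (nat_lit 4830) (ok2_of rx4820) (ok2_of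 rx4830))))))) (ok2_nd (nat_lit 5007) (ok2_nd (nat_lit 4920) (ok2_nd (nat_lit 4873) (ok2_nd (nat_lit 4846) (ok2_nd (nat_lit 4837) (ok2_of rx4833) (ok2_of rx4837)) (ok2_nd (nat_lit 4857) (ok2_of rx4846) (ok2_nd (nat_lit 4863) (ok2_of rx4857) (ok2_of rx4863)))) (ok2_nd (nat_lit 4893) (ok2_nd (nat_lit 4874) (ok2_of rx4873) (ok2_nd (nat_lit 4884) (ok2_of rx4874) (ok2_of rx4884))) (ok2_nd (nat_lit 4906) (ok2_of rx4893) (ok2_nd (nat_lit 4914) (ok2_of rx4906) (ok2_of rx4914))))) (ok2_nd (nat_lit 4964) (ok2_nd (nat_lit 4943) (ok2_nd (nat_lit 4928) (ok2_of rx4920) (ok2_nd (nat_lit 4938) (ok2_of rx4928) (ok2_of rx4938))) (ok2_nd (nat_lit 4949) (ok2_of rx4943) (ok2_nd (nat_lit 4958) (ok2_of rx4949) (ok2_of rx4958)))) (ok2_nd (nat_lit 4980) (ok2_nd (nat_lit 4973) (ok2_of rx4964) (ok2_nd (nat_lit 4979) (ok2_of rx4973) (ok2_of rx4979))) (ok2_nd (nat_lit 4988) (ok2_of rx4980) (ok2_nd (nat_lit 4999) (ok2_of rx4988) (ok2_of rx4999)))))) (ok2_nd (nat_lit 5094) (ok2_nd (nat_lit 5044) (ok2_nd (nat_lit 5022) (ok2_nd (nat_lit 5010) (ok2_of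 rx5007) (ok2_of rx5010)) (ok2_nd (nat_lit 5031) (ok2_of rx5022) (ok2_nd (nat_lit 5032) (ok2_of rx5031) (ok2_of rx5032)))) (ok2_nd (nat_lit 5076) (ok2_nd (nat_lit 5055) (ok2_of rx5044) (ok2_nd (nat_lit 5065) (ok2_of rx5055) (ok2_of rx5065))) (ok2_nd (nat_lit 5082) (ok2_of rx5076) (ok2_nd (nat_lit 5087) (ok2_of rx5082) (ok2_of rx5087))))) (ok2_nd (nat_lit 5145) (ok2_nd (nat_lit 5121) (ok2_nd (nat_lit 5102) (ok2_of rx5094) (ok2_nd (nat_lit 5110) (ok2_of rx5102) (ok2_of rx5110))) (ok2_nd (nat_lit 5130) (ok2_of rx5121) (ok2_nd (nat_lit 5136) (ok2_of rx5130) (ok2_of rx5136)))) (ok2_nd (nat_lit 5171) (ok2_nd (nat_lit 5157) (ok2_of rx5145) (ok2_nd (nat_lit 5165) (ok2_of rx5157) (ok2_of rx5165))) (ok2_nd (nat_lit 5177) (ok2_of rx5171) (ok2_nd (nat_lit 5183) (ok2_of rx5177) (ok2_of rx5183)))))))) (ok2_nd (nat_lit 5560) (ok2_nd (nat_lit 5378) (ok2_nd (nat_lit 5273) (ok2_nd (nat_lit 5228) (ok2_nd (nat_lit 5205) (ok2_nd (nat_lit 5199) (ok2_of rx5190) (ok2_of rx5199)) (ok2_nd (nat_lit 5214) (ok2_of rx5205) (ok2_nd (nat_lit 5220) (ok2_of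 rx5214) (ok2_of rx5220)))) (ok2_nd (nat_lit 5251) (ok2_nd (nat_lit 5237) (ok2_of rx5228) (ok2_nd (nat_lit 5244) (ok2_of rx5237) (ok2_of rx5244))) (ok2_nd (nat_lit 5258) (ok2_of rx5251) (ok2_nd (nat_lit 5264) (ok2_of rx5258) (ok2_of rx5264))))) (ok2_nd (nat_lit 5338) (ok2_nd (nat_lit 5310) (ok2_nd (nat_lit 5285) (ok2_of rx5273) (ok2_nd (nat_lit 5298) (ok2_of rx5285) (ok2_of rx5298))) (ok2_nd (nat_lit 5320) (ok2_of rx5310) (ok2_nd (nat_lit 5330) (ok2_of rx5320) (ok2_of rx5330)))) (ok2_nd (nat_lit 5355) (ok2_nd (nat_lit 5342) (ok2_of rx5338) (ok2_nd (nat_lit 5346) (ok2_of rx5342) (ok2_of rx5346))) (ok2_nd (nat_lit 5362) (ok2_of rx5355) (ok2_nd (nat_lit 5372) (ok2_of rx5362) (ok2_of rx5372)))))) (ok2_nd (nat_lit 5462) (ok2_nd (nat_lit 5421) (ok2_nd (nat_lit 5396) (ok2_nd (nat_lit 5391) (ok2_of rx5378) (ok2_of rx5391)) (ok2_nd (nat_lit 5404) (ok2_of rx5396) (ok2_nd (nat_lit 5412) (ok2_of rx5404) (ok2_of rx5412)))) (ok2_nd (nat_lit 5439) (ok2_nd (nat_lit 5427) (ok2_of rx5421) (ok2_nd (nat_lit 5433) (ok2_of rx5427) (ok2_of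 rx5433))) (ok2_nd (nat_lit 5444) (ok2_of rx5439) (ok2_nd (nat_lit 5456) (ok2_of rx5444) (ok2_of rx5456))))) (ok2_nd (nat_lit 5509) (ok2_nd (nat_lit 5488) (ok2_nd (nat_lit 5471) (ok2_of rx5462) (ok2_nd (nat_lit 5479) (ok2_of rx5471) (ok2_of rx5479))) (ok2_nd (nat_lit 5495) (ok2_of rx5488) (ok2_nd (nat_lit 5501) (ok2_of rx5495) (ok2_of rx5501)))) (ok2_nd (nat_lit 5537) (ok2_nd (nat_lit 5518) (ok2_of rx5509) (ok2_nd (nat_lit 5531) (ok2_of rx5518) (ok2_of rx5531))) (ok2_nd (nat_lit 5542) (ok2_of rx5537) (ok2_nd (nat_lit 5552) (ok2_of rx5542) (ok2_of rx5552))))))) (ok2_nd (nat_lit 5742) (ok2_nd (nat_lit 5651) (ok2_nd (nat_lit 5611) (ok2_nd (nat_lit 5578) (ok2_nd (nat_lit 5566) (ok2_of rx5560) (ok2_of rx5566)) (ok2_nd (nat_lit 5590) (ok2_of rx5578) (ok2_nd (nat_lit 5601) (ok2_of rx5590) (ok2_of rx5601)))) (ok2_nd (nat_lit 5632) (ok2_nd (nat_lit 5621) (ok2_of rx5611) (ok2_nd (nat_lit 5622) (ok2_of rx5621) (ok2_of rx5622))) (ok2_nd (nat_lit 5639) (ok2_of rx5632) (ok2_nd (nat_lit 5645) (ok2_of rx5639) (ok2_of rx5645))))) (ok2_nd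 (nat_lit 5697) (ok2_nd (nat_lit 5672) (ok2_nd (nat_lit 5659) (ok2_of rx5651) (ok2_nd (nat_lit 5666) (ok2_of rx5659) (ok2_of rx5666))) (ok2_nd (nat_lit 5681) (ok2_of rx5672) (ok2_nd (nat_lit 5687) (ok2_of rx5681) (ok2_of rx5687)))) (ok2_nd (nat_lit 5721) (ok2_nd (nat_lit 5704) (ok2_of rx5697) (ok2_nd (nat_lit 5715) (ok2_of rx5704) (ok2_of rx5715))) (ok2_nd (nat_lit 5727) (ok2_of rx5721) (ok2_nd (nat_lit 5733) (ok2_of rx5727) (ok2_of rx5733)))))) (ok2_nd (nat_lit 5838) (ok2_nd (nat_lit 5790) (ok2_nd (nat_lit 5766) (ok2_nd (nat_lit 5749) (ok2_of rx5742) (ok2_nd (nat_lit 5758) (ok2_of rx5749) (ok2_of rx5758))) (ok2_nd (nat_lit 5774) (ok2_of rx5766) (ok2_nd (nat_lit 5781) (ok2_of rx5774) (ok2_of rx5781)))) (ok2_nd (nat_lit 5813) (ok2_nd (nat_lit 5800) (ok2_of rx5790) (ok2_nd (nat_lit 5804) (ok2_of rx5800) (ok2_of rx5804))) (ok2_nd (nat_lit 5820) (ok2_of rx5813) (ok2_nd (nat_lit 5829) (ok2_of rx5820) (ok2_of rx5829))))) (ok2_nd (nat_lit 5888) (ok2_nd (nat_lit 5865) (ok2_nd (nat_lit 5850) (ok2_of rx5838) (ok2_nd (nat_lit 5859)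 (ok2_of rx5850) (ok2_of rx5859))) (ok2_nd (nat_lit 5875) (ok2_of rx5865) (ok2_nd (nat_lit 5881) (ok2_of rx5875) (ok2_of rx5881)))) (ok2_nd (nat_lit 5914) (ok2_nd (nat_lit 5896) (ok2_of rx5888) (ok2_nd (nat_lit 5903) (ok2_of rx5896) (ok2_of rx5903))) (ok2_nd (nat_lit 5921) (ok2_of rx5914) (ok2_nd (nat_lit 5928) (ok2_of rx5921) (ok2_of rx5928)))))))))

end Pool.Agent.MP_797bdc_co.Lk.Da
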