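import Pool.Agent.MP_797bdc_co.Lk.XA
import Pool.Agent.MP_797bdc_co.Lk.DE
import Pool.Agent.MP_797bdc_co.Lk.DG4
import Pool.Agent.MP_797bdc_co.Lk.DX4

/-! Run of checker X. -/

set_option maxRecDepth 100000
set_option linter.defProp false

namespace Pool.Agent.MP_797bdc_co.Lk.Da

noncomputable def rx5934 : iz (BT.all2 (xchk xE) g5934 x5934) = true := by decide +kernel
noncomputable def rx5943 : iz (BT.all2 (xchk xE) g5943 x5943) = true := by decide +kernel
noncomputable def rx5950 : iz (BT.all2 (xchk xE) g5950 x5950) = true := by decide +kernel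
noncomputable def rx5955 : iz (BT.all2 (xchk xE) g5955 x5955) = true := by decide +kernel
noncomputable def rx5959 : iz (BT.all2 (xchk xE) g5959 x5959) = true := by decide +kernel
noncomputable def rx5970 : iz (BT.all2 (xchk xE) g5970 x5970) = true := by decide +kernel
noncomputable def rx5976 : iz (BT.all2 (xchk xE) g5976 x5976) = true := by decide +kernel
noncomputable def rx5985 : iz (BT.all2 (xchk xE) g5985 x5985) = true := by decide +kernel
noncomputable def rx5993 : iz (BT.all2 (xchk xE) g5993 x5993) = true := by decide +kernel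
noncomputable def rx5996 : iz (BT.all2 (xchk xE) g5996 x5996) = true := by decide +kernel
noncomputable def rx6000 : iz (BT.all2 (xchk xE) g6000 x6000) = true := by decide +kernel
noncomputable def rx6011 : iz (BT.all2 (xchk xE) g6011 x6011) = true := by decide +kernel
noncomputable def rx6022 : iz (BT.all2 (xchk xE) g6022 x6022) = true := by decide +kernel
noncomputable def rx6027 : iz (BT.all2 (xchk xE) g6027 x6027) = true := by decide +kernel
noncomputable def rx6039 : iz (BT.all2 (xchk xE) g6039 x6039) = true := by decide +kernel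
noncomputable def rx6050 : iz (BT.all2 (xchk xE) g6050 x6050) = true := by decide +kernel
noncomputable def rx6051 : iz (BT.all2 (xchk xE) g6051 x6051) = true := by decide +kernel
noncomputable def rx6053 : iz (BT.all2 (xchk xE) g6053 x6053) = true := by decide +kernel
noncomputable def rx6061 : iz (BT.all2 (xchk xE) g6061 x6061) = true := by decide +kernel
noncomputable def rx6069 : iz (BT.all2 (xchk xE) g6069 x6069) = true := by decide +kernel
noncomputable def rx6073 : iz (BT.all2 (xchk xE) g6073 x6073) = true := by decide +kernel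
noncomputable def rx6086 : iz (BT.all2 (xchk xE) g6086 x6086) = true := by decide +kernel
noncomputable def rx6094 : iz (BT.all2 (xchk xE) g6094 x6094) = true := by decide +kernel
noncomputable def rx6100 : iz (BT.all2 (xchk xE) g6100 x6100) = true := by decide +kernel
noncomputable def rx6110 : iz (BT.all2 (xchk xE) g6110 x6110) = true := by decide +kernel
noncomputable def rx6120 : iz (BT.all2 (xchk xE) g6120 x6120) = true := by decide +kernel
noncomputable def rx6133 : iz (BT.all2 (xchk xE) g6133 x6133) = true := by decide +kernel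
noncomputable def rx6142 : iz (BT.all2 (xchk xE) g6142 x6142) = true := by decide +kernel
noncomputable def rx6148 : iz (BT.all2 (xchk xE) g6148 x6148) = true := by decide +kernel
noncomputable def rx6157 : iz (BT.all2 (xchk xE) g6157 x6157) = true := by decide +kernel
noncomputable def rx6162 : iz (BT.all2 (xchk xE) g6162 x6162) = true := by decide +kernel
noncomputable def rx6171 : iz (BT.all2 (xchk xE) g6171 x6171) = true := by decide +kernel
noncomputable def rx6180 : iz (BT.all2 (xchk xE) g6180 x6180) = true := by decide +kernel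
noncomputable def rx6189 : iz (BT.all2 (xchk xE) g6189 x6189) = true := by decide +kernel
noncomputable def rx6195 : iz (BT.all2 (xchk xE) g6195 x6195) = true := by decide +kernel
noncomputable def rx6204 : iz (BT.all2 (xchk xE) g6204 x6204) = true := by decide +kernel
noncomputable def rx6215 : iz (BT.all2 (xchk xE) g6215 x6215) = true := by decide +kernel
noncomputable def rx6223 : iz (BT.all2 (xchk xE) g6223 x6223) = true := by decide +kernel
noncomputable def rx6234 : iz (BT.all2 (xchk xE) g6234 x6234) = true := by decide +kernel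
noncomputable def rx6240 : iz (BT.all2 (xchk xE) g6240 x6240) = true := by decide +kernel
noncomputable def rx6247 : iz (BT.all2 (xchk xE) g6247 x6247) = true := by decide +kernel
noncomputable def rx6253 : iz (BT.all2 (xchk xE) g6253 x6253) = true := by decide +kernel
noncomputable def rx6262 : iz (BT.all2 (xchk xE) g6262 x6262) = true := by decide +kernel
noncomputable def rx6273 : iz (BT.all2 (xchk xE) g6273 x6273) = true := by decide +kernel
noncomputable def rx6279 : iz (BT.all2 (xchk xE) g6279 x6279) = true := by decide +kernel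
noncomputable def rx6288 : iz (BT.all2 (xchk xE) g6288 x6288) = true := by decide +kernel
noncomputable def rx6297 : iz (BT.all2 (xchk xE) g6297 x6297) = true := by decide +kernel
noncomputable def rx6306 : iz (BT.all2 (xchk xE) g6306 x6306) = true := by decide +kernel
noncomputable def rx6312 : iz (BT.all2 (xchk xE) g6312 x6312) = true := by decide +kernel
noncomputable def rx6318 : iz (BT.all2 (xchk xE) g6318 x6318) = true := by decide +kernel
noncomputable def rx6321 : iz (BT.all2 (xchk xE) g6321 x6321) = true := by decide +kernel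
noncomputable def rx6331 : iz (BT.all2 (xchk xE) g6331 x6331) = true := by decide +kernel
noncomputable def rx6339 : iz (BT.all2 (xchk xE) g6339 x6339) = true := by decide +kernel
noncomputable def rx6351 : iz (BT.all2 (xchk xE) g6351 x6351) = true := by decide +kernel
noncomputable def rx6360 : iz (BT.all2 (xchk xE) g6360 x6360) = true := by decide +kernel
noncomputable def rx6366 : iz (BT.all2 (xchk xE) g6366 x6366) = true := by decide +kernel
noncomputable def rx6375 : iz (BT.all2 (xchk xE) g6375 x6375) = true := by decide +kernel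
noncomputable def rx6382 : iz (BT.all2 (xchk xE) g6382 x6382) = true := by decide +kernel
noncomputable def rx6391 : iz (BT.all2 (xchk xE) g6391 x6391) = true := by decide +kernel
noncomputable def rx6402 : iz (BT.all2 (xchk xE) g6402 x6402) = true := by decide +kernel
noncomputable def rx6411 : iz (BT.all2 (xchk xE) g6411 x6411) = true := by decide +kernel
noncomputable def rx6420 : iz (BT.all2 (xchk xE) g6420 x6420) = true := by decide +kernel
noncomputable def rx6422 : iz (BT.all2 (xchk xE) g6422 x6422) = true := by decide +kernel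
noncomputable def rx6431 : iz (BT.all2 (xchk xE) g6431 x6431) = true := by decide +kernel
noncomputable def rx6443 : iz (BT.all2 (xchk xE) g6443 x6443) = true := by decide +kernel
noncomputable def rx6453 : iz (BT.all2 (xchk xE) g6453 x6453) = true := by decide +kernel
noncomputable def rx6464 : iz (BT.all2 (xchk xE) g6464 x6464) = true := by decide +kernel
noncomputable def rx6473 : iz (BT.all2 (xchk xE) g6473 x6473) = true := by decide +kernel
noncomputable def rx6476 : iz (BT.all2 (xchk xE) g6476 x6476) = true := by decide +kernel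
noncomputable def rx6486 : iz (BT.all2 (xchk xE) g6486 x6486) = true := by decide +kernel
noncomputable def rx6498 : iz (BT.all2 (xchk xE) g6498 x6498) = true := by decide +kernel
noncomputable def rx6505 : iz (BT.all2 (xchk xE) g6505 x6505) = true := by decide +kernel
noncomputable def rx6513 : iz (BT.all2 (xchk xE) g6513 x6513) = true := by decide +kernel
noncomputable def rx6521 : iz (BT.all2 (xchk xE) g6521 x6521) = true := by decide +kernel
noncomputable def rx6529 : iz (BT.all2 (xchk xE) g6529 x6529) = true := by decide +kernel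
noncomputable def rx6534 : iz (BT.all2 (xchk xE) g6534 x6534) = true := by decide +kernel
noncomputable def rx6543 : iz (BT.all2 (xchk xE) g6543 x6543) = true := by decide +kernel
noncomputable def rx6553 : iz (BT.all2 (xchk xE) g6553 x6553) = true := by decide +kernel
noncomputable def rx6562 : iz (BT.all2 (xchk xE) g6562 x6562) = true := by decide +kernel
noncomputable def rx6569 : iz (BT.all2 (xchk xE) g6569 x6569) = true := by decide +kernel
noncomputable def rx6575 : iz (BT.all2 (xchk xE) g6575 x6575) = true := by decide +kernel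
noncomputable def rx6583 : iz (BT.all2 (xchk xE) g6583 x6583) = true := by decide +kernel
noncomputable def rx6591 : iz (BT.all2 (xchk xE) g6591 x6591) = true := by decide +kernel
noncomputable def rx6602 : iz (BT.all2 (xchk xE) g6602 x6602) = true := by decide +kernel
noncomputable def rx6615 : iz (BT.all2 (xchk xE) g6615 x6615) = true := by decide +kernel
noncomputable def rx6624 : iz (BT.all2 (xchk xE) g6624 x6624) = true := by decide +kernel
noncomputable def rx6628 : iz (BT.all2 (xchk xE) g6628 x6628) = true := by decide +kernel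
noncomputable def rx6634 : iz (BT.all2 (xchk xE) g6634 x6634) = true := by decide +kernel
noncomputable def rx6640 : iz (BT.all2 (xchk xE) g6640 x6640) = true := by decide +kernel
noncomputable def rx6649 : iz (BT.all2 (xchk xE) g6649 x6649) = true := by decide +kernel
noncomputable def rx6662 : iz (BT.all2 (xchk xE) g6662 x6662) = true := by decide +kernel
noncomputable def rx6669 : iz (BT.all2 (xchk xE) g6669 x6669) = true := by decide +kernel
noncomputable def rx6676 : iz (BT.all2 (xchk xE) g6676 x6676) = true := by decide +kernel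
noncomputable def rx6686 : iz (BT.all2 (xchk xE) g6686 x6686) = true := by decide +kernel
noncomputable def rx6696 : iz (BT.all2 (xchk xE) g6696 x6696) = true := by decide +kernel
noncomputable def rx6702 : iz (BT.all2 (xchk xE) g6702 x6702) = true := by decide +kernel
noncomputable def rx6711 : iz (BT.all2 (xchk xE) g6711 x6711) = true := by decide +kernel
noncomputable def rx6721 : iz (BT.all2 (xchk xE) g6721 x6721) = true := by decide +kernel
noncomputable def rx6726 : iz (BT.all2 (xchk xE) g6726 x6726) = true := by decide +kernel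
noncomputable def rx6737 : iz (BT.all2 (xchk xE) g6737 x6737) = true := by decide +kernel
noncomputable def rx6748 : iz (BT.all2 (xchk xE) g6748 x6748) = true := by decide +kernel
noncomputable def rx6758 : iz (BT.all2 (xchk xE) g6758 x6758) = true := by decide +kernel
noncomputable def rx6764 : iz (BT.all2 (xchk xE) g6764 x6764) = true := by decide +kernel
noncomputable def rx6774 : iz (BT.all2 (xchk xE) g6774 x6774) = true := by decide +kernel
noncomputable def rx6784 : iz (BT.all2 (xchk xE) g6784 x6784) = true := by decide +kernel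
noncomputable def rx6793 : iz (BT.all2 (xchk xE) g6793 x6793) = true := by decide +kernel
noncomputable def rx6805 : iz (BT.all2 (xchk xE) g6805 x6805) = true := by decide +kernel
noncomputable def rx6809 : iz (BT.all2 (xchk xE) g6809 x6809) = true := by decide +kernel
noncomputable def rx6815 : iz (BT.all2 (xchk xE) g6815 x6815) = true := by decide +kernel
noncomputable def rx6821 : iz (BT.all2 (xchk xE) g6821 x6821) = true := by decide +kernel
noncomputable def rx6834 : iz (BT.all2 (xchk xE) g6834 x6834) = true := by decide +kernel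
noncomputable def rx6839 : iz (BT.all2 (xchk xE) g6839 x6839) = true := by decide +kernel
noncomputable def rx6847 : iz (BT.all2 (xchk xE) g6847 x6847) = true := by decide +kernel
noncomputable def rx6853 : iz (BT.all2 (xchk xE) g6853 x6853) = true := by decide +kernel
noncomputable def rx6857 : iz (BT.all2 (xchk xE) g6857 x6857) = true := by decide +kernel
noncomputable def rx6858 : iz (BT.all2 (xchk xE) g6858 x6858) = true := by decide +kernel
noncomputable def rx6864 : iz (BT.all2 (xchk xE) g6864 x6864) = true := by decide +kernel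
noncomputable def rx6869 : iz (BT.all2 (xchk xE) g6869 x6869) = true := by decide +kernel
noncomputable def rx6870 : iz (BT.all2 (xchk xE) g6870 x6870) = true := by decide +kernel
noncomputable def rx6877 : iz (BT.all2 (xchk xE) g6877 x6877) = true := by decide +kernel
noncomputable def rx6889 : iz (BT.all2 (xchk xE) g6889 x6889) = true := by decide +kernel
noncomputable def rx6897 : iz (BT.all2 (xchk xE) g6897 x6897) = true := by decide +kernel
noncomputable def rx6904 : iz (BT.all2 (xchk xE) g6904 x6904) = true := by decide +kernel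
noncomputable def rx6916 : iz (BT.all2 (xchk xE) g6916 x6916) = true := by decide +kernel
noncomputable def rx6925 : iz (BT.all2 (xchk xE) g6925 x6925) = true := by decide +kernel
noncomputable def rx6932 : iz (BT.all2 (xchk xE) g6932 x6932) = true := by decide +kernel
noncomputable def rx6941 : iz (BT.all2 (xchk xE) g6941 x6941) = true := by decide +kernel
noncomputable def rx6951 : iz (BT.all2 (xchk xE) g6951 x6951) = true := by decide +kernel
noncomputable def rx6957 : iz (BT.all2 (xchk xE) g6957 x6957) = true := by decide +kernel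
noncomputable def rx6966 : iz (BT.all2 (xchk xE) g6966 x6966) = true := by decide +kernel
noncomputable def rx6976 : iz (BT.all2 (xchk xE) g6976 x6976) = true := by decide +kernel
noncomputable def rx6982 : iz (BT.all2 (xchk xE) g6982 x6982) = true := by decide +kernel
noncomputable def rx6992 : iz (BT.all2 (xchk xE) g6992 x6992) = true := by decide +kernel
noncomputable def rx7003 : iz (BT.all2 (xchk xE) g7003 x7003) = true := by decide +kernel
noncomputable def rx7010 : iz (BT.all2 (xchk xE) g7010 x7010) = true := by decide +kernel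
noncomputable def rx7018 : iz (BT.all2 (xchk xE) g7018 x7018) = true := by decide +kernel
noncomputable def rx7028 : iz (BT.all2 (xchk xE) g7028 x7028) = true := by decide +kernel
noncomputable def rx7035 : iz (BT.all2 (xchk xE) g7035 x7035) = true := by decide +kernel
noncomputable def rx7041 : iz (BT.all2 (xchk xE) g7041 x7041) = true := by decide +kernel
noncomputable def rx7049 : iz (BT.all2 (xchk xE) g7049 x7049) = true := by decide +kernel
noncomputable def rx7058 : iz (BT.all2 (xchk xE) g7058 x7058) = true := by decide +kernel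
noncomputable def rx7065 : iz (BT.all2 (xchk xE) g7065 x7065) = true := by decide +kernel
noncomputable def rx7073 : iz (BT.all2 (xchk xE) g7073 x7073) = true := by decide +kernel
noncomputable def rx7082 : iz (BT.all2 (xchk xE) g7082 x7082) = true := by decide +kernel
noncomputable def rx7088 : iz (BT.all2 (xchk xE) g7088 x7088) = true := by decide +kernel
noncomputable def rx7095 : iz (BT.all2 (xchk xE) g7095 x7095) = true := by decide +kernel
noncomputable def rx7102 : iz (BT.all2 (xchk xE) g7102 x7102) = true := by decide +kernel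
noncomputable def rx7110 : iz (BT.all2 (xchk xE) g7110 x7110) = true := by decide +kernel
noncomputable def rx7119 : iz (BT.all2 (xchk xE) g7119 x7119) = true := by decide +kernel
noncomputable def rx7125 : iz (BT.all2 (xchk xE) g7125 x7125) = true := by decide +kernel
noncomputable def rx7130 : iz (BT.all2 (xchk xE) g7130 x7130) = true := by decide +kernel
noncomputable def rx7140 : iz (BT.all2 (xchk xE) g7140 x7140) = true := by decide +kernel
noncomputable def rx7148 : iz (BT.all2 (xchk xE) g7148 x7148) = true := by decide +kernel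
noncomputable def rx7156 : iz (BT.all2 (xchk xE) g7156 x7156) = true := by decide +kernel
noncomputable def rx7166 : iz (BT.all2 (xchk xE) g7166 x7166) = true := by decide +kernel
noncomputable def rx7168 : iz (BT.all2 (xchk xE) g7168 x7168) = true := by decide +kernel
noncomputable def rx7175 : iz (BT.all2 (xchk xE) g7175 x7175) = true := by decide +kernel
noncomputable def rx7187 : iz (BT.all2 (xchk xE) g7187 x7187) = true := by decide +kernel
noncomputable def rx7189 : iz (BT.all2 (xchk xE) g7189 x7189) = true := by decide +kernel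
noncomputable def rx7190 : iz (BT.all2 (xchk xE) g7190 x7190) = true := by decide +kernel
noncomputable def rx7200 : iz (BT.all2 (xchk xE) g7200 x7200) = true := by decide +kernel
noncomputable def rx7208 : iz (BT.all2 (xchk xE) g7208 x7208) = true := by decide +kernel
noncomputable def rx7215 : iz (BT.all2 (xchk xE) g7215 x7215) = true := by decide +kernel
noncomputable def rx7220 : iz (BT.all2 (xchk xE) g7220 x7220) = true := by decide +kernel
noncomputable def rx7226 : iz (BT.all2 (xchk xE) g7226 x7226) = true := by decide +kernel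
noncomputable def rx7230 : iz (BT.all2 (xchk xE) g7230 x7230) = true := by decide +kernel
noncomputable def rx7238 : iz (BT.all2 (xchk xE) g7238 x7238) = true := by decide +kernel
noncomputable def rx7246 : iz (BT.all2 (xchk xE) g7246 x7246) = true := by decide +kernel
noncomputable def rx7255 : iz (BT.all2 (xchk xE) g7255 x7255) = true := by decide +kernel
noncomputable def rx7261 : iz (BT.all2 (xchk xE) g7261 x7261) = true := by decide +kernel
noncomputable def rx7268 : iz (BT.all2 (xchk xE) g7268 x7268) = true := by decide +kernel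
noncomputable def rx7277 : iz (BT.all2 (xchk xE) g7277 x7277) = true := by decide +kernel
noncomputable def rx7286 : iz (BT.all2 (xchk xE) g7286 x7286) = true := by decide +kernel
noncomputable def rx7292 : iz (BT.all2 (xchk xE) g7292 x7292) = true := by decide +kernel
noncomputable def rx7299 : iz (BT.all2 (xchk xE) g7299 x7299) = true := by decide +kernel
noncomputable def rx7303 : iz (BT.all2 (xchk xE) g7303 x7303) = true := by decide +kernel
noncomputable def rx7315 : iz (BT.all2 (xchk xE) g7315 x7315) = true := by decide +kernel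
noncomputable def rx7321 : iz (BT.all2 (xchk xE) g7321 x7321) = true := by decide +kernel
noncomputable def rx7328 : iz (BT.all2 (xchk xE) g7328 x7328) = true := by decide +kernel
noncomputable def rx7334 : iz (BT.all2 (xchk xE) g7334 x7334) = true := by decide +kernel
noncomputable def rx7346 : iz (BT.all2 (xchk xE) g7346 x7346) = true := by decide +kernel
noncomputable def rx7359 : iz (BT.all2 (xchk xE) g7359 x7359) = true := by decide +kernel
noncomputable def rx7369 : iz (BT.all2 (xchk xE) g7369 x7369) = true := by decide +kernel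
noncomputable def rx7381 : iz (BT.all2 (xchk xE) g7381 x7381) = true := by decide +kernel
noncomputable def rx7392 : iz (BT.all2 (xchk xE) g7392 x7392) = true := by decide +kernel
noncomputable def rX4 : OK2 (xchk xE) tG4 tX4 := (ok2_nd (nat_lit 6676) (ok2_nd (nat_lit 6297) (ok2_nd (nat_lit 6100) (ok2_nd (nat_lit 6011) (ok2_nd (nat_lit 5970) (ok2_nd (nat_lit 5950) (ok2_nd (nat_lit 5943) (ok2_of rx5934) (ok2_of rx5943)) (ok2_nd (nat_lit 5955) (ok2_of rx5950) (ok2_nd (nat_lit 5959) (ok2_of rx5955) (ok2_of rx5959)))) (ok2_nd (nat_lit 5993) (ok2_nd (nat_lit 5976) (ok2_of rx5970) (ok2_nd (nat_lit 5985) (ok2_of rx5976) (ok2_of rx5985))) (ok2_nd (nat_lit 5996) (ok2_of rx5993) (ok2_nd (nat_lit 6000) (ok2_of rx5996) (ok2_of rx6000))))) (ok2_nd (nat_lit 6053) (ok2_nd (nat_lit 6039) (ok2_nd (nat_lit 6022) (ok2_of rx6011) (ok2_nd (nat_lit 6027) (ok2_of rx6022) (ok2_of rx6027))) (ok2_nd (nat_lit 6050) (ok2_of rx6039) (ok2_nd (nat_lit 6051) (ok2_of rx6050) (ok2_of rx6051)))) (ok2_nd (nat_lit 6073) (ok2_nd (nat_lit 6061) (ok2_of rx6053)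 (ok2_nd (nat_lit 6069) (ok2_of rx6061) (ok2_of rx6069))) (ok2_nd (nat_lit 6086) (ok2_of rx6073) (ok2_nd (nat_lit 6094) (ok2_of rx6086) (ok2_of rx6094)))))) (ok2_nd (nat_lit 6195) (ok2_nd (nat_lit 6148) (ok2_nd (nat_lit 6120) (ok2_nd (nat_lit 6110) (ok2_of rx6100) (ok2_of rx6110)) (ok2_nd (nat_lit 6133) (ok2_of rx6120) (ok2_nd (nat_lit 6142) (ok2_of rx6133) (ok2_of rx6142)))) (ok2_nd (nat_lit 6171) (ok2_nd (nat_lit 6157) (ok2_of rx6148) (ok2_nd (nat_lit 6162) (ok2_of rx6157) (ok2_of rx6162))) (ok2_nd (nat_lit 6180) (ok2_of rx6171) (ok2_nd (nat_lit 6189) (ok2_of rx6180) (ok2_of rx6189))))) (ok2_nd (nat_lit 6247) (ok2_nd (nat_lit 6223) (ok2_nd (nat_lit 6204) (ok2_of rx6195) (ok2_nd (nat_lit 6215) (ok2_of rx6204) (ok2_of rx6215))) (ok2_nd (nat_lit 6234) (ok2_of rx6223) (ok2_nd (nat_lit 6240) (ok2_of rx6234) (ok2_of rx6240)))) (ok2_nd (nat_lit 6273) (ok2_nd (nat_lit 6253) (ok2_of rx6247) (ok2_nd (nat_lit 6262) (ok2_of rx6253) (ok2_of rx6262))) (ok2_nd (nat_lit 6279) (ok2_of rx6273) (ok2_nd (nat_lit 6288) (ok2_of rx6279) (ok2_of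 rx6288))))))) (ok2_nd (nat_lit 6486) (ok2_nd (nat_lit 6382) (ok2_nd (nat_lit 6331) (ok2_nd (nat_lit 6312) (ok2_nd (nat_lit 6306) (ok2_of rx6297) (ok2_of rx6306)) (ok2_nd (nat_lit 6318) (ok2_of rx6312) (ok2_nd (nat_lit 6321) (ok2_of rx6318) (ok2_of rx6321)))) (ok2_nd (nat_lit 6360) (ok2_nd (nat_lit 6339) (ok2_of rx6331) (ok2_nd (nat_lit 6351) (ok2_of rx6339) (ok2_of rx6351))) (ok2_nd (nat_lit 6366) (ok2_of rx6360) (ok2_nd (nat_lit 6375) (ok2_of rx6366) (ok2_of rx6375))))) (ok2_nd (nat_lit 6431) (ok2_nd (nat_lit 6411) (ok2_nd (nat_lit 6391) (ok2_of rx6382) (ok2_nd (nat_lit 6402) (ok2_of rx6391) (ok2_of rx6402))) (ok2_nd (nat_lit 6420) (ok2_of rx6411) (ok2_nd (nat_lit 6422) (ok2_of rx6420) (ok2_of rx6422)))) (ok2_nd (nat_lit 6464) (ok2_nd (nat_lit 6443) (ok2_of rx6431) (ok2_nd (nat_lit 6453) (ok2_of rx6443) (ok2_of rx6453))) (ok2_nd (nat_lit 6473) (ok2_of rx6464) (ok2_nd (nat_lit 6476) (ok2_of rx6473) (ok2_of rx6476)))))) (ok2_nd (nat_lit 6575) (ok2_nd (nat_lit 6529) (ok2_nd (nat_lit 6505) (ok2_nd (nat_lit 6498) (ok2_of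 rx6486) (ok2_of rx6498)) (ok2_nd (nat_lit 6513) (ok2_of rx6505) (ok2_nd (nat_lit 6521) (ok2_of rx6513) (ok2_of rx6521)))) (ok2_nd (nat_lit 6553) (ok2_nd (nat_lit 6534) (ok2_of rx6529) (ok2_nd (nat_lit 6543) (ok2_of rx6534) (ok2_of rx6543))) (ok2_nd (nat_lit 6562) (ok2_of rx6553) (ok2_nd (nat_lit 6569) (ok2_of rx6562) (ok2_of rx6569))))) (ok2_nd (nat_lit 6628) (ok2_nd (nat_lit 6602) (ok2_nd (nat_lit 6583) (ok2_of rx6575) (ok2_nd (nat_lit 6591) (ok2_of rx6583) (ok2_of rx6591))) (ok2_nd (nat_lit 6615) (ok2_of rx6602) (ok2_nd (nat_lit 6624) (ok2_of rx6615) (ok2_of rx6624)))) (ok2_nd (nat_lit 6649) (ok2_nd (nat_lit 6634) (ok2_of rx6628) (ok2_nd (nat_lit 6640) (ok2_of rx6634) (ok2_of rx6640))) (ok2_nd (nat_lit 6662) (ok2_of rx6649) (ok2_nd (nat_lit 6669) (ok2_of rx6662) (ok2_of rx6669)))))))) (ok2_nd (nat_lit 7041) (ok2_nd (nat_lit 6858) (ok2_nd (nat_lit 6774) (ok2_nd (nat_lit 6721) (ok2_nd (nat_lit 6696) (ok2_nd (nat_lit 6686) (ok2_of rx6676) (ok2_of rx6686)) (ok2_nd (nat_lit 6702) (ok2_of rx6696) (ok2_nd (nat_lit 6711) (ok2_of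 rx6702) (ok2_of rx6711)))) (ok2_nd (nat_lit 6748) (ok2_nd (nat_lit 6726) (ok2_of rx6721) (ok2_nd (nat_lit 6737) (ok2_of rx6726) (ok2_of rx6737))) (ok2_nd (nat_lit 6758) (ok2_of rx6748) (ok2_nd (nat_lit 6764) (ok2_of rx6758) (ok2_of rx6764))))) (ok2_nd (nat_lit 6821) (ok2_nd (nat_lit 6805) (ok2_nd (nat_lit 6784) (ok2_of rx6774) (ok2_nd (nat_lit 6793) (ok2_of rx6784) (ok2_of rx6793))) (ok2_nd (nat_lit 6809) (ok2_of rx6805) (ok2_nd (nat_lit 6815) (ok2_of rx6809) (ok2_of rx6815)))) (ok2_nd (nat_lit 6847) (ok2_nd (nat_lit 6834) (ok2_of rx6821) (ok2_nd (nat_lit 6839) (ok2_of rx6834) (ok2_of rx6839))) (ok2_nd (nat_lit 6853) (ok2_of rx6847) (ok2_nd (nat_lit 6857) (ok2_of rx6853) (ok2_of rx6857)))))) (ok2_nd (nat_lit 6941) (ok2_nd (nat_lit 6889) (ok2_nd (nat_lit 6869) (ok2_nd (nat_lit 6864) (ok2_of rx6858) (ok2_of rx6864)) (ok2_nd (nat_lit 6870) (ok2_of rx6869) (ok2_nd (nat_lit 6877) (ok2_of rx6870) (ok2_of rx6877)))) (ok2_nd (nat_lit 6916) (ok2_nd (nat_lit 6897) (ok2_of rx6889) (ok2_nd (nat_lit 6904) (ok2_of rx6897) (ok2_of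 rx6904))) (ok2_nd (nat_lit 6925) (ok2_of rx6916) (ok2_nd (nat_lit 6932) (ok2_of rx6925) (ok2_of rx6932))))) (ok2_nd (nat_lit 6992) (ok2_nd (nat_lit 6966) (ok2_nd (nat_lit 6951) (ok2_of rx6941) (ok2_nd (nat_lit 6957) (ok2_of rx6951) (ok2_of rx6957))) (ok2_nd (nat_lit 6976) (ok2_of rx6966) (ok2_nd (nat_lit 6982) (ok2_of rx6976) (ok2_of rx6982)))) (ok2_nd (nat_lit 7018) (ok2_nd (nat_lit 7003) (ok2_of rx6992) (ok2_nd (nat_lit 7010) (ok2_of rx7003) (ok2_of rx7010))) (ok2_nd (nat_lit 7028) (ok2_of rx7018) (ok2_nd (nat_lit 7035) (ok2_of rx7028) (ok2_of rx7035))))))) (ok2_nd (nat_lit 7208) (ok2_nd (nat_lit 7125) (ok2_nd (nat_lit 7082) (ok2_nd (nat_lit 7058) (ok2_nd (nat_lit 7049) (ok2_of rx7041) (ok2_of rx7049)) (ok2_nd (nat_lit 7065) (ok2_of rx7058) (ok2_nd (nat_lit 7073) (ok2_of rx7065) (ok2_of rx7073)))) (ok2_nd (nat_lit 7102) (ok2_nd (nat_lit 7088) (ok2_of rx7082) (ok2_nd (nat_lit 7095) (ok2_of rx7088) (ok2_of rx7095))) (ok2_nd (nat_lit 7110) (ok2_of rx7102) (ok2_nd (nat_lit 7119) (ok2_of rx7110) (ok2_of rx7119))))) (ok2_nd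 (nat_lit 7168) (ok2_nd (nat_lit 7148) (ok2_nd (nat_lit 7130) (ok2_of rx7125) (ok2_nd (nat_lit 7140) (ok2_of rx7130) (ok2_of rx7140))) (ok2_nd (nat_lit 7156) (ok2_of rx7148) (ok2_nd (nat_lit 7166) (ok2_of rx7156) (ok2_of rx7166)))) (ok2_nd (nat_lit 7189) (ok2_nd (nat_lit 7175) (ok2_of rx7168) (ok2_nd (nat_lit 7187) (ok2_of rx7175) (ok2_of rx7187))) (ok2_nd (nat_lit 7190) (ok2_of rx7189) (ok2_nd (nat_lit 7200) (ok2_of rx7190) (ok2_of rx7200)))))) (ok2_nd (nat_lit 7292) (ok2_nd (nat_lit 7246) (ok2_nd (nat_lit 7226) (ok2_nd (nat_lit 7215) (ok2_of rx7208) (ok2_nd (nat_lit 7220) (ok2_of rx7215) (ok2_of rx7220))) (ok2_nd (nat_lit 7230) (ok2_of rx7226) (ok2_nd (nat_lit 7238) (ok2_of rx7230) (ok2_of rx7238)))) (ok2_nd (nat_lit 7268) (ok2_nd (nat_lit 7255) (ok2_of rx7246) (ok2_nd (nat_lit 7261) (ok2_of rx7255) (ok2_of rx7261))) (ok2_nd (nat_lit 7277) (ok2_of rx7268) (ok2_nd (nat_lit 7286) (ok2_of rx7277) (ok2_of rx7286))))) (ok2_nd (nat_lit 7334) (ok2_nd (nat_lit 7315) (ok2_nd (nat_lit 7299) (ok2_of rx7292) (ok2_nd (nat_lit 7303)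 (ok2_of rx7299) (ok2_of rx7303))) (ok2_nd (nat_lit 7321) (ok2_of rx7315) (ok2_nd (nat_lit 7328) (ok2_of rx7321) (ok2_of rx7328)))) (ok2_nd (nat_lit 7369) (ok2_nd (nat_lit 7346) (ok2_of rx7334) (ok2_nd (nat_lit 7359) (ok2_of rx7346) (ok2_of rx7359))) (ok2_nd (nat_lit 7381) (ok2_of rx7369) (ok2_nd (nat_lit 7392) (ok2_of rx7381) (ok2_of rx7392)))))))))

end Pool.Agent.MP_797bdc_co.Lk.Da
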