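import Pool.Agent.MP_797bdc_co.Lk.XA
import Pool.Agent.MP_797bdc_co.Lk.DE
import Pool.Agent.MP_797bdc_co.Lk.DG5
import Pool.Agent.MP_797bdc_co.Lk.DX5

/-! Run of checker X. -/

set_option maxRecDepth 100000
set_option linter.defProp false

namespace Pool.Agent.MP_797bdc_co.Lk.Da

noncomputable def rx7402 : iz (BT.all2 (xchk xE) g7402 x7402) = true := by decide +kernel
noncomputable def rx7411 : iz (BT.all2 (xchk xE) g7411 x7411) = true := by decide +kernel
noncomputable def rx7424 : iz (BT.all2 (xchk xE) g7424 x7424) = true := by decide +kernel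
noncomputable def rx7432 : iz (BT.all2 (xchk xE) g7432 x7432) = true := by decide +kernel
noncomputable def rx7438 : iz (BT.all2 (xchk xE) g7438 x7438) = true := by decide +kernel
noncomputable def rx7448 : iz (BT.all2 (xchk xE) g7448 x7448) = true := by decide +kernel
noncomputable def rx7452 : iz (BT.all2 (xchk xE) g7452 x7452) = true := by decide +kernel
noncomputable def rx7461 : iz (BT.all2 (xchk xE) g7461 x7461) = true := by decide +kernel
noncomputable def rx7470 : iz (BT.all2 (xchk xE) g7470 x7470) = true := by decide +kernel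
noncomputable def rx7479 : iz (BT.all2 (xchk xE) g7479 x7479) = true := by decide +kernel
noncomputable def rx7489 : iz (BT.all2 (xchk xE) g7489 x7489) = true := by decide +kernel
noncomputable def rx7501 : iz (BT.all2 (xchk xE) g7501 x7501) = true := by decide +kernel
noncomputable def rx7510 : iz (BT.all2 (xchk xE) g7510 x7510) = true := by decide +kernel
noncomputable def rx7522 : iz (BT.all2 (xchk xE) g7522 x7522) = true := by decide +kernel
noncomputable def rx7531 : iz (BT.all2 (xchk xE) g7531 x7531) = true := by decide +kernel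
noncomputable def rx7539 : iz (BT.all2 (xchk xE) g7539 x7539) = true := by decide +kernel
noncomputable def rx7547 : iz (BT.all2 (xchk xE) g7547 x7547) = true := by decide +kernel
noncomputable def rx7552 : iz (BT.all2 (xchk xE) g7552 x7552) = true := by decide +kernel
noncomputable def rx7554 : iz (BT.all2 (xchk xE) g7554 x7554) = true := by decide +kernel
noncomputable def rx7563 : iz (BT.all2 (xchk xE) g7563 x7563) = true := by decide +kernel
noncomputable def rx7577 : iz (BT.all2 (xchk xE) g7577 x7577) = true := by decide +kernel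
noncomputable def rx7586 : iz (BT.all2 (xchk xE) g7586 x7586) = true := by decide +kernel
noncomputable def rx7587 : iz (BT.all2 (xchk xE) g7587 x7587) = true := by decide +kernel
noncomputable def rx7596 : iz (BT.all2 (xchk xE) g7596 x7596) = true := by decide +kernel
noncomputable def rx7602 : iz (BT.all2 (xchk xE) g7602 x7602) = true := by decide +kernel
noncomputable def rx7610 : iz (BT.all2 (xchk xE) g7610 x7610) = true := by decide +kernel
noncomputable def rx7615 : iz (BT.all2 (xchk xE) g7615 x7615) = true := by decide +kernel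
noncomputable def rx7621 : iz (BT.all2 (xchk xE) g7621 x7621) = true := by decide +kernel
noncomputable def rx7627 : iz (BT.all2 (xchk xE) g7627 x7627) = true := by decide +kernel
noncomputable def rx7636 : iz (BT.all2 (xchk xE) g7636 x7636) = true := by decide +kernel
noncomputable def rx7640 : iz (BT.all2 (xchk xE) g7640 x7640) = true := by decide +kernel
noncomputable def rx7647 : iz (BT.all2 (xchk xE) g7647 x7647) = true := by decide +kernel
noncomputable def rx7654 : iz (BT.all2 (xchk xE) g7654 x7654) = true := by decide +kernel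
noncomputable def rx7657 : iz (BT.all2 (xchk xE) g7657 x7657) = true := by decide +kernel
noncomputable def rx7663 : iz (BT.all2 (xchk xE) g7663 x7663) = true := by decide +kernel
noncomputable def rx7669 : iz (BT.all2 (xchk xE) g7669 x7669) = true := by decide +kernel
noncomputable def rx7677 : iz (BT.all2 (xchk xE) g7677 x7677) = true := by decide +kernel
noncomputable def rx7688 : iz (BT.all2 (xchk xE) g7688 x7688) = true := by decide +kernel
noncomputable def rx7698 : iz (BT.all2 (xchk xE) g7698 x7698) = true := by decide +kernel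
noncomputable def rx7705 : iz (BT.all2 (xchk xE) g7705 x7705) = true := by decide +kernel
noncomputable def rx7711 : iz (BT.all2 (xchk xE) g7711 x7711) = true := by decide +kernel
noncomputable def rx7717 : iz (BT.all2 (xchk xE) g7717 x7717) = true := by decide +kernel
noncomputable def rx7724 : iz (BT.all2 (xchk xE) g7724 x7724) = true := by decide +kernel
noncomputable def rx7733 : iz (BT.all2 (xchk xE) g7733 x7733) = true := by decide +kernel
noncomputable def rx7742 : iz (BT.all2 (xchk xE) g7742 x7742) = true := by decide +kernel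
noncomputable def rx7751 : iz (BT.all2 (xchk xE) g7751 x7751) = true := by decide +kernel
noncomputable def rx7760 : iz (BT.all2 (xchk xE) g7760 x7760) = true := by decide +kernel
noncomputable def rx7768 : iz (BT.all2 (xchk xE) g7768 x7768) = true := by decide +kernel
noncomputable def rx7776 : iz (BT.all2 (xchk xE) g7776 x7776) = true := by decide +kernel
noncomputable def rx7785 : iz (BT.all2 (xchk xE) g7785 x7785) = true := by decide +kernel
noncomputable def rx7791 : iz (BT.all2 (xchk xE) g7791 x7791) = true := by decide +kernel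
noncomputable def rx7802 : iz (BT.all2 (xchk xE) g7802 x7802) = true := by decide +kernel
noncomputable def rx7807 : iz (BT.all2 (xchk xE) g7807 x7807) = true := by decide +kernel
noncomputable def rx7812 : iz (BT.all2 (xchk xE) g7812 x7812) = true := by decide +kernel
noncomputable def rx7818 : iz (BT.all2 (xchk xE) g7818 x7818) = true := by decide +kernel
noncomputable def rx7827 : iz (BT.all2 (xchk xE) g7827 x7827) = true := by decide +kernel
noncomputable def rx7833 : iz (BT.all2 (xchk xE) g7833 x7833) = true := by decide +kernel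
noncomputable def rx7842 : iz (BT.all2 (xchk xE) g7842 x7842) = true := by decide +kernel
noncomputable def rx7848 : iz (BT.all2 (xchk xE) g7848 x7848) = true := by decide +kernel
noncomputable def rx7857 : iz (BT.all2 (xchk xE) g7857 x7857) = true := by decide +kernel
noncomputable def rx7863 : iz (BT.all2 (xchk xE) g7863 x7863) = true := by decide +kernel
noncomputable def rx7872 : iz (BT.all2 (xchk xE) g7872 x7872) = true := by decide +kernel
noncomputable def rx7878 : iz (BT.all2 (xchk xE) g7878 x7878) = true := by decide +kernel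
noncomputable def rx7886 : iz (BT.all2 (xchk xE) g7886 x7886) = true := by decide +kernel
noncomputable def rx7895 : iz (BT.all2 (xchk xE) g7895 x7895) = true := by decide +kernel
noncomputable def rx7904 : iz (BT.all2 (xchk xE) g7904 x7904) = true := by decide +kernel
noncomputable def rx7914 : iz (BT.all2 (xchk xE) g7914 x7914) = true := by decide +kernel
noncomputable def rx7924 : iz (BT.all2 (xchk xE) g7924 x7924) = true := by decide +kernel
noncomputable def rx7934 : iz (BT.all2 (xchk xE) g7934 x7934) = true := by decide +kernel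
noncomputable def rx7942 : iz (BT.all2 (xchk xE) g7942 x7942) = true := by decide +kernel
noncomputable def rx7950 : iz (BT.all2 (xchk xE) g7950 x7950) = true := by decide +kernel
noncomputable def rx7958 : iz (BT.all2 (xchk xE) g7958 x7958) = true := by decide +kernel
noncomputable def rx7968 : iz (BT.all2 (xchk xE) g7968 x7968) = true := by decide +kernel
noncomputable def rx7976 : iz (BT.all2 (xchk xE) g7976 x7976) = true := by decide +kernel
noncomputable def rx7984 : iz (BT.all2 (xchk xE) g7984 x7984) = true := by decide +kernel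
noncomputable def rx7991 : iz (BT.all2 (xchk xE) g7991 x7991) = true := by decide +kernel
noncomputable def rx8000 : iz (BT.all2 (xchk xE) g8000 x8000) = true := by decide +kernel
noncomputable def rx8006 : iz (BT.all2 (xchk xE) g8006 x8006) = true := by decide +kernel
noncomputable def rx8012 : iz (BT.all2 (xchk xE) g8012 x8012) = true := by decide +kernel
noncomputable def rx8016 : iz (BT.all2 (xchk xE) g8016 x8016) = true := by decide +kernel
noncomputable def rx8022 : iz (BT.all2 (xchk xE) g8022 x8022) = true := by decide +kernel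
noncomputable def rx8029 : iz (BT.all2 (xchk xE) g8029 x8029) = true := by decide +kernel
noncomputable def rx8037 : iz (BT.all2 (xchk xE) g8037 x8037) = true := by decide +kernel
noncomputable def rx8045 : iz (BT.all2 (xchk xE) g8045 x8045) = true := by decide +kernel
noncomputable def rx8053 : iz (BT.all2 (xchk xE) g8053 x8053) = true := by decide +kernel
noncomputable def rx8058 : iz (BT.all2 (xchk xE) g8058 x8058) = true := by decide +kernel
noncomputable def rx8063 : iz (BT.all2 (xchk xE) g8063 x8063) = true := by decide +kernel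
noncomputable def rx8072 : iz (BT.all2 (xchk xE) g8072 x8072) = true := by decide +kernel
noncomputable def rx8081 : iz (BT.all2 (xchk xE) g8081 x8081) = true := by decide +kernel
noncomputable def rx8090 : iz (BT.all2 (xchk xE) g8090 x8090) = true := by decide +kernel
noncomputable def rx8095 : iz (BT.all2 (xchk xE) g8095 x8095) = true := by decide +kernel
noncomputable def rx8107 : iz (BT.all2 (xchk xE) g8107 x8107) = true := by decide +kernel
noncomputable def rx8116 : iz (BT.all2 (xchk xE) g8116 x8116) = true := by decide +kernel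
noncomputable def rx8122 : iz (BT.all2 (xchk xE) g8122 x8122) = true := by decide +kernel
noncomputable def rx8132 : iz (BT.all2 (xchk xE) g8132 x8132) = true := by decide +kernel
noncomputable def rx8137 : iz (BT.all2 (xchk xE) g8137 x8137) = true := by decide +kernel
noncomputable def rx8143 : iz (BT.all2 (xchk xE) g8143 x8143) = true := by decide +kernel
noncomputable def rx8152 : iz (BT.all2 (xchk xE) g8152 x8152) = true := by decide +kernel
noncomputable def rx8158 : iz (BT.all2 (xchk xE) g8158 x8158) = true := by decide +kernel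
noncomputable def rx8166 : iz (BT.all2 (xchk xE) g8166 x8166) = true := by decide +kernel
noncomputable def rx8174 : iz (BT.all2 (xchk xE) g8174 x8174) = true := by decide +kernel
noncomputable def rx8180 : iz (BT.all2 (xchk xE) g8180 x8180) = true := by decide +kernel
noncomputable def rx8187 : iz (BT.all2 (xchk xE) g8187 x8187) = true := by decide +kernel
noncomputable def rx8193 : iz (BT.all2 (xchk xE) g8193 x8193) = true := by decide +kernel
noncomputable def rx8200 : iz (BT.all2 (xchk xE) g8200 x8200) = true := by decide +kernel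
noncomputable def rx8209 : iz (BT.all2 (xchk xE) g8209 x8209) = true := by decide +kernel
noncomputable def rx8218 : iz (BT.all2 (xchk xE) g8218 x8218) = true := by decide +kernel
noncomputable def rx8227 : iz (BT.all2 (xchk xE) g8227 x8227) = true := by decide +kernel
noncomputable def rx8235 : iz (BT.all2 (xchk xE) g8235 x8235) = true := by decide +kernel
noncomputable def rx8243 : iz (BT.all2 (xchk xE) g8243 x8243) = true := by decide +kernel
noncomputable def rx8251 : iz (BT.all2 (xchk xE) g8251 x8251) = true := by decide +kernel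
noncomputable def rx8260 : iz (BT.all2 (xchk xE) g8260 x8260) = true := by decide +kernel
noncomputable def rx8265 : iz (BT.all2 (xchk xE) g8265 x8265) = true := by decide +kernel
noncomputable def rx8277 : iz (BT.all2 (xchk xE) g8277 x8277) = true := by decide +kernel
noncomputable def rx8286 : iz (BT.all2 (xchk xE) g8286 x8286) = true := by decide +kernel
noncomputable def rx8292 : iz (BT.all2 (xchk xE) g8292 x8292) = true := by decide +kernel
noncomputable def rx8301 : iz (BT.all2 (xchk xE) g8301 x8301) = true := by decide +kernel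
noncomputable def rx8311 : iz (BT.all2 (xchk xE) g8311 x8311) = true := by decide +kernel
noncomputable def rx8320 : iz (BT.all2 (xchk xE) g8320 x8320) = true := by decide +kernel
noncomputable def rx8330 : iz (BT.all2 (xchk xE) g8330 x8330) = true := by decide +kernel
noncomputable def rx8338 : iz (BT.all2 (xchk xE) g8338 x8338) = true := by decide +kernel
noncomputable def rx8340 : iz (BT.all2 (xchk xE) g8340 x8340) = true := by decide +kernel
noncomputable def rx8349 : iz (BT.all2 (xchk xE) g8349 x8349) = true := by decide +kernel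
noncomputable def rx8357 : iz (BT.all2 (xchk xE) g8357 x8357) = true := by decide +kernel
noncomputable def rx8367 : iz (BT.all2 (xchk xE) g8367 x8367) = true := by decide +kernel
noncomputable def rx8372 : iz (BT.all2 (xchk xE) g8372 x8372) = true := by decide +kernel
noncomputable def rx8377 : iz (BT.all2 (xchk xE) g8377 x8377) = true := by decide +kernel
noncomputable def rx8384 : iz (BT.all2 (xchk xE) g8384 x8384) = true := by decide +kernel
noncomputable def rx8391 : iz (BT.all2 (xchk xE) g8391 x8391) = true := by decide +kernel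
noncomputable def rx8403 : iz (BT.all2 (xchk xE) g8403 x8403) = true := by decide +kernel
noncomputable def rx8407 : iz (BT.all2 (xchk xE) g8407 x8407) = true := by decide +kernel
noncomputable def rx8416 : iz (BT.all2 (xchk xE) g8416 x8416) = true := by decide +kernel
noncomputable def rx8424 : iz (BT.all2 (xchk xE) g8424 x8424) = true := by decide +kernel
noncomputable def rx8430 : iz (BT.all2 (xchk xE) g8430 x8430) = true := by decide +kernel
noncomputable def rx8436 : iz (BT.all2 (xchk xE) g8436 x8436) = true := by decide +kernel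
noncomputable def rx8441 : iz (BT.all2 (xchk xE) g8441 x8441) = true := by decide +kernel
noncomputable def rx8447 : iz (BT.all2 (xchk xE) g8447 x8447) = true := by decide +kernel
noncomputable def rx8456 : iz (BT.all2 (xchk xE) g8456 x8456) = true := by decide +kernel
noncomputable def rx8462 : iz (BT.all2 (xchk xE) g8462 x8462) = true := by decide +kernel
noncomputable def rx8471 : iz (BT.all2 (xchk xE) g8471 x8471) = true := by decide +kernel
noncomputable def rx8477 : iz (BT.all2 (xchk xE) g8477 x8477) = true := by decide +kernel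
noncomputable def rx8488 : iz (BT.all2 (xchk xE) g8488 x8488) = true := by decide +kernel
noncomputable def rx8498 : iz (BT.all2 (xchk xE) g8498 x8498) = true := by decide +kernel
noncomputable def rx8504 : iz (BT.all2 (xchk xE) g8504 x8504) = true := by decide +kernel
noncomputable def rx8511 : iz (BT.all2 (xchk xE) g8511 x8511) = true := by decide +kernel
noncomputable def rx8522 : iz (BT.all2 (xchk xE) g8522 x8522) = true := by decide +kernel
noncomputable def rx8530 : iz (BT.all2 (xchk xE) g8530 x8530) = true := by decide +kernel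
noncomputable def rx8539 : iz (BT.all2 (xchk xE) g8539 x8539) = true := by decide +kernel
noncomputable def rx8546 : iz (BT.all2 (xchk xE) g8546 x8546) = true := by decide +kernel
noncomputable def rx8550 : iz (BT.all2 (xchk xE) g8550 x8550) = true := by decide +kernel
noncomputable def rx8560 : iz (BT.all2 (xchk xE) g8560 x8560) = true := by decide +kernel
noncomputable def rx8569 : iz (BT.all2 (xchk xE) g8569 x8569) = true := by decide +kernel
noncomputable def rx8578 : iz (BT.all2 (xchk xE) g8578 x8578) = true := by decide +kernel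
noncomputable def rx8584 : iz (BT.all2 (xchk xE) g8584 x8584) = true := by decide +kernel
noncomputable def rx8595 : iz (BT.all2 (xchk xE) g8595 x8595) = true := by decide +kernel
noncomputable def rx8602 : iz (BT.all2 (xchk xE) g8602 x8602) = true := by decide +kernel
noncomputable def rx8610 : iz (BT.all2 (xchk xE) g8610 x8610) = true := by decide +kernel
noncomputable def rx8623 : iz (BT.all2 (xchk xE) g8623 x8623) = true := by decide +kernel
noncomputable def rx8629 : iz (BT.all2 (xchk xE) g8629 x8629) = true := by decide +kernel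
noncomputable def rx8641 : iz (BT.all2 (xchk xE) g8641 x8641) = true := by decide +kernel
noncomputable def rx8649 : iz (BT.all2 (xchk xE) g8649 x8649) = true := by decide +kernel
noncomputable def rx8656 : iz (BT.all2 (xchk xE) g8656 x8656) = true := by decide +kernel
noncomputable def rx8663 : iz (BT.all2 (xchk xE) g8663 x8663) = true := by decide +kernel
noncomputable def rx8669 : iz (BT.all2 (xchk xE) g8669 x8669) = true := by decide +kernel
noncomputable def rx8679 : iz (BT.all2 (xchk xE) g8679 x8679) = true := by decide +kernel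
noncomputable def rx8687 : iz (BT.all2 (xchk xE) g8687 x8687) = true := by decide +kernel
noncomputable def rx8696 : iz (BT.all2 (xchk xE) g8696 x8696) = true := by decide +kernel
noncomputable def rx8706 : iz (BT.all2 (xchk xE) g8706 x8706) = true := by decide +kernel
noncomputable def rx8715 : iz (BT.all2 (xchk xE) g8715 x8715) = true := by decide +kernel
noncomputable def rx8721 : iz (BT.all2 (xchk xE) g8721 x8721) = true := by decide +kernel
noncomputable def rx8730 : iz (BT.all2 (xchk xE) g8730 x8730) = true := by decide +kernel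
noncomputable def rx8738 : iz (BT.all2 (xchk xE) g8738 x8738) = true := by decide +kernel
noncomputable def rx8744 : iz (BT.all2 (xchk xE) g8744 x8744) = true := by decide +kernel
noncomputable def rx8752 : iz (BT.all2 (xchk xE) g8752 x8752) = true := by decide +kernel
noncomputable def rx8759 : iz (BT.all2 (xchk xE) g8759 x8759) = true := by decide +kernel
noncomputable def rx8768 : iz (BT.all2 (xchk xE) g8768 x8768) = true := by decide +kernel
noncomputable def rx8775 : iz (BT.all2 (xchk xE) g8775 x8775) = true := by decide +kernel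
noncomputable def rx8783 : iz (BT.all2 (xchk xE) g8783 x8783) = true := by decide +kernel
noncomputable def rx8793 : iz (BT.all2 (xchk xE) g8793 x8793) = true := by decide +kernel
noncomputable def rx8803 : iz (BT.all2 (xchk xE) g8803 x8803) = true := by decide +kernel
noncomputable def rx8816 : iz (BT.all2 (xchk xE) g8816 x8816) = true := by decide +kernel
noncomputable def rx8825 : iz (BT.all2 (xchk xE) g8825 x8825) = true := by decide +kernel
noncomputable def rx8835 : iz (BT.all2 (xchk xE) g8835 x8835) = true := by decide +kernel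
noncomputable def rx8844 : iz (BT.all2 (xchk xE) g8844 x8844) = true := by decide +kernel
noncomputable def rx8850 : iz (BT.all2 (xchk xE) g8850 x8850) = true := by decide +kernel
noncomputable def rX5 : OK2 (xchk xE) tG5 tX5 := (ok2_nd (nat_lit 8116) (ok2_nd (nat_lit 7760) (ok2_nd (nat_lit 7596) (ok2_nd (nat_lit 7501) (ok2_nd (nat_lit 7448) (ok2_nd (nat_lit 7424) (ok2_nd (nat_lit 7411) (ok2_of rx7402) (ok2_of rx7411)) (ok2_nd (nat_lit 7432) (ok2_of rx7424) (ok2_nd (nat_lit 7438) (ok2_of rx7432) (ok2_of rx7438)))) (ok2_nd (nat_lit 7470) (ok2_nd (nat_lit 7452) (ok2_of rx7448) (ok2_nd (nat_lit 7461) (ok2_of rx7452) (ok2_of rx7461))) (ok2_nd (nat_lit 7479) (ok2_of rx7470) (ok2_nd (nat_lit 7489) (ok2_of rx7479) (ok2_of rx7489))))) (ok2_nd (nat_lit 7552) (ok2_nd (nat_lit 7531) (ok2_nd (nat_lit 7510) (ok2_of rx7501) (ok2_nd (nat_lit 7522) (ok2_of rx7510) (ok2_of rx7522))) (ok2_nd (nat_lit 7539) (ok2_of rx7531) (ok2_nd (nat_lit 7547) (ok2_of rx7539) (ok2_of rx7547)))) (ok2_nd (nat_lit 7577) (ok2_nd (nat_lit 7554) (ok2_of rx7552)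 (ok2_nd (nat_lit 7563) (ok2_of rx7554) (ok2_of rx7563))) (ok2_nd (nat_lit 7586) (ok2_of rx7577) (ok2_nd (nat_lit 7587) (ok2_of rx7586) (ok2_of rx7587)))))) (ok2_nd (nat_lit 7663) (ok2_nd (nat_lit 7627) (ok2_nd (nat_lit 7610) (ok2_nd (nat_lit 7602) (ok2_of rx7596) (ok2_of rx7602)) (ok2_nd (nat_lit 7615) (ok2_of rx7610) (ok2_nd (nat_lit 7621) (ok2_of rx7615) (ok2_of rx7621)))) (ok2_nd (nat_lit 7647) (ok2_nd (nat_lit 7636) (ok2_of rx7627) (ok2_nd (nat_lit 7640) (ok2_of rx7636) (ok2_of rx7640))) (ok2_nd (nat_lit 7654) (ok2_of rx7647) (ok2_nd (nat_lit 7657) (ok2_of rx7654) (ok2_of rx7657))))) (ok2_nd (nat_lit 7711) (ok2_nd (nat_lit 7688) (ok2_nd (nat_lit 7669) (ok2_of rx7663) (ok2_nd (nat_lit 7677) (ok2_of rx7669) (ok2_of rx7677))) (ok2_nd (nat_lit 7698) (ok2_of rx7688) (ok2_nd (nat_lit 7705) (ok2_of rx7698) (ok2_of rx7705)))) (ok2_nd (nat_lit 7733) (ok2_nd (nat_lit 7717) (ok2_of rx7711) (ok2_nd (nat_lit 7724) (ok2_of rx7717) (ok2_of rx7724))) (ok2_nd (nat_lit 7742) (ok2_of rx7733) (ok2_nd (nat_lit 7751) (ok2_of rx7742) (ok2_of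 rx7751))))))) (ok2_nd (nat_lit 7942) (ok2_nd (nat_lit 7842) (ok2_nd (nat_lit 7802) (ok2_nd (nat_lit 7776) (ok2_nd (nat_lit 7768) (ok2_of rx7760) (ok2_of rx7768)) (ok2_nd (nat_lit 7785) (ok2_of rx7776) (ok2_nd (nat_lit 7791) (ok2_of rx7785) (ok2_of rx7791)))) (ok2_nd (nat_lit 7818) (ok2_nd (nat_lit 7807) (ok2_of rx7802) (ok2_nd (nat_lit 7812) (ok2_of rx7807) (ok2_of rx7812))) (ok2_nd (nat_lit 7827) (ok2_of rx7818) (ok2_nd (nat_lit 7833) (ok2_of rx7827) (ok2_of rx7833))))) (ok2_nd (nat_lit 7886) (ok2_nd (nat_lit 7863) (ok2_nd (nat_lit 7848) (ok2_of rx7842) (ok2_nd (nat_lit 7857) (ok2_of rx7848) (ok2_of rx7857))) (ok2_nd (nat_lit 7872) (ok2_of rx7863) (ok2_nd (nat_lit 7878) (ok2_of rx7872) (ok2_of rx7878)))) (ok2_nd (nat_lit 7914) (ok2_nd (nat_lit 7895) (ok2_of rx7886) (ok2_nd (nat_lit 7904) (ok2_of rx7895) (ok2_of rx7904))) (ok2_nd (nat_lit 7924) (ok2_of rx7914) (ok2_nd (nat_lit 7934) (ok2_of rx7924) (ok2_of rx7934)))))) (ok2_nd (nat_lit 8022) (ok2_nd (nat_lit 7984) (ok2_nd (nat_lit 7958) (ok2_nd (nat_lit 7950) (ok2_of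 rx7942) (ok2_of rx7950)) (ok2_nd (nat_lit 7968) (ok2_of rx7958) (ok2_nd (nat_lit 7976) (ok2_of rx7968) (ok2_of rx7976)))) (ok2_nd (nat_lit 8006) (ok2_nd (nat_lit 7991) (ok2_of rx7984) (ok2_nd (nat_lit 8000) (ok2_of rx7991) (ok2_of rx8000))) (ok2_nd (nat_lit 8012) (ok2_of rx8006) (ok2_nd (nat_lit 8016) (ok2_of rx8012) (ok2_of rx8016))))) (ok2_nd (nat_lit 8063) (ok2_nd (nat_lit 8045) (ok2_nd (nat_lit 8029) (ok2_of rx8022) (ok2_nd (nat_lit 8037) (ok2_of rx8029) (ok2_of rx8037))) (ok2_nd (nat_lit 8053) (ok2_of rx8045) (ok2_nd (nat_lit 8058) (ok2_of rx8053) (ok2_of rx8058)))) (ok2_nd (nat_lit 8090) (ok2_nd (nat_lit 8072) (ok2_of rx8063) (ok2_nd (nat_lit 8081) (ok2_of rx8072) (ok2_of rx8081))) (ok2_nd (nat_lit 8095) (ok2_of rx8090) (ok2_nd (nat_lit 8107) (ok2_of rx8095) (ok2_of rx8107)))))))) (ok2_nd (nat_lit 8462) (ok2_nd (nat_lit 8292) (ok2_nd (nat_lit 8193) (ok2_nd (nat_lit 8152) (ok2_nd (nat_lit 8132) (ok2_nd (nat_lit 8122) (ok2_of rx8116) (ok2_of rx8122)) (ok2_nd (nat_lit 8137) (ok2_of rx8132) (ok2_nd (nat_lit 8143) (ok2_of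 rx8137) (ok2_of rx8143)))) (ok2_nd (nat_lit 8174) (ok2_nd (nat_lit 8158) (ok2_of rx8152) (ok2_nd (nat_lit 8166) (ok2_of rx8158) (ok2_of rx8166))) (ok2_nd (nat_lit 8180) (ok2_of rx8174) (ok2_nd (nat_lit 8187) (ok2_of rx8180) (ok2_of rx8187))))) (ok2_nd (nat_lit 8243) (ok2_nd (nat_lit 8218) (ok2_nd (nat_lit 8200) (ok2_of rx8193) (ok2_nd (nat_lit 8209) (ok2_of rx8200) (ok2_of rx8209))) (ok2_nd (nat_lit 8227) (ok2_of rx8218) (ok2_nd (nat_lit 8235) (ok2_of rx8227) (ok2_of rx8235)))) (ok2_nd (nat_lit 8265) (ok2_nd (nat_lit 8251) (ok2_of rx8243) (ok2_nd (nat_lit 8260) (ok2_of rx8251) (ok2_of rx8260))) (ok2_nd (nat_lit 8277) (ok2_of rx8265) (ok2_nd (nat_lit 8286) (ok2_of rx8277) (ok2_of rx8286)))))) (ok2_nd (nat_lit 8377) (ok2_nd (nat_lit 8338) (ok2_nd (nat_lit 8311) (ok2_nd (nat_lit 8301) (ok2_of rx8292) (ok2_of rx8301)) (ok2_nd (nat_lit 8320) (ok2_of rx8311) (ok2_nd (nat_lit 8330) (ok2_of rx8320) (ok2_of rx8330)))) (ok2_nd (nat_lit 8357) (ok2_nd (nat_lit 8340) (ok2_of rx8338) (ok2_nd (nat_lit 8349) (ok2_of rx8340) (ok2_of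 rx8349))) (ok2_nd (nat_lit 8367) (ok2_of rx8357) (ok2_nd (nat_lit 8372) (ok2_of rx8367) (ok2_of rx8372))))) (ok2_nd (nat_lit 8424) (ok2_nd (nat_lit 8403) (ok2_nd (nat_lit 8384) (ok2_of rx8377) (ok2_nd (nat_lit 8391) (ok2_of rx8384) (ok2_of rx8391))) (ok2_nd (nat_lit 8407) (ok2_of rx8403) (ok2_nd (nat_lit 8416) (ok2_of rx8407) (ok2_of rx8416)))) (ok2_nd (nat_lit 8441) (ok2_nd (nat_lit 8430) (ok2_of rx8424) (ok2_nd (nat_lit 8436) (ok2_of rx8430) (ok2_of rx8436))) (ok2_nd (nat_lit 8447) (ok2_of rx8441) (ok2_nd (nat_lit 8456) (ok2_of rx8447) (ok2_of rx8456))))))) (ok2_nd (nat_lit 8656) (ok2_nd (nat_lit 8550) (ok2_nd (nat_lit 8504) (ok2_nd (nat_lit 8477) (ok2_nd (nat_lit 8471) (ok2_of rx8462) (ok2_of rx8471)) (ok2_nd (nat_lit 8488) (ok2_of rx8477) (ok2_nd (nat_lit 8498) (ok2_of rx8488) (ok2_of rx8498)))) (ok2_nd (nat_lit 8530) (ok2_nd (nat_lit 8511) (ok2_of rx8504) (ok2_nd (nat_lit 8522) (ok2_of rx8511) (ok2_of rx8522))) (ok2_nd (nat_lit 8539) (ok2_of rx8530) (ok2_nd (nat_lit 8546) (ok2_of rx8539) (ok2_of rx8546))))) (ok2_nd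 (nat_lit 8602) (ok2_nd (nat_lit 8578) (ok2_nd (nat_lit 8560) (ok2_of rx8550) (ok2_nd (nat_lit 8569) (ok2_of rx8560) (ok2_of rx8569))) (ok2_nd (nat_lit 8584) (ok2_of rx8578) (ok2_nd (nat_lit 8595) (ok2_of rx8584) (ok2_of rx8595)))) (ok2_nd (nat_lit 8629) (ok2_nd (nat_lit 8610) (ok2_of rx8602) (ok2_nd (nat_lit 8623) (ok2_of rx8610) (ok2_of rx8623))) (ok2_nd (nat_lit 8641) (ok2_of rx8629) (ok2_nd (nat_lit 8649) (ok2_of rx8641) (ok2_of rx8649)))))) (ok2_nd (nat_lit 8752) (ok2_nd (nat_lit 8706) (ok2_nd (nat_lit 8679) (ok2_nd (nat_lit 8663) (ok2_of rx8656) (ok2_nd (nat_lit 8669) (ok2_of rx8663) (ok2_of rx8669))) (ok2_nd (nat_lit 8687) (ok2_of rx8679) (ok2_nd (nat_lit 8696) (ok2_of rx8687) (ok2_of rx8696)))) (ok2_nd (nat_lit 8730) (ok2_nd (nat_lit 8715) (ok2_of rx8706) (ok2_nd (nat_lit 8721) (ok2_of rx8715) (ok2_of rx8721))) (ok2_nd (nat_lit 8738) (ok2_of rx8730) (ok2_nd (nat_lit 8744) (ok2_of rx8738) (ok2_of rx8744))))) (ok2_nd (nat_lit 8803) (ok2_nd (nat_lit 8775) (ok2_nd (nat_lit 8759) (ok2_of rx8752) (ok2_nd (nat_lit 8768)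 (ok2_of rx8759) (ok2_of rx8768))) (ok2_nd (nat_lit 8783) (ok2_of rx8775) (ok2_nd (nat_lit 8793) (ok2_of rx8783) (ok2_of rx8793)))) (ok2_nd (nat_lit 8835) (ok2_nd (nat_lit 8816) (ok2_of rx8803) (ok2_nd (nat_lit 8825) (ok2_of rx8816) (ok2_of rx8825))) (ok2_nd (nat_lit 8844) (ok2_of rx8835) (ok2_nd (nat_lit 8850) (ok2_of rx8844) (ok2_of rx8850)))))))))

end Pool.Agent.MP_797bdc_co.Lk.Da
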