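import Pool.Agent.MP_797bdc_co.Lk.XA
import Pool.Agent.MP_797bdc_co.Lk.DE
import Pool.Agent.MP_797bdc_co.Lk.DG6
import Pool.Agent.MP_797bdc_co.Lk.DX6

/-! Run of checker X. -/

set_option maxRecDepth 100000
set_option linter.defProp false

namespace Pool.Agent.MP_797bdc_co.Lk.Da

noncomputable def rx8858 : iz (BT.all2 (xchk xE) g8858 x8858) = true := by decide +kernel
noncomputable def rx8870 : iz (BT.all2 (xchk xE) g8870 x8870) = true := by decide +kernel
noncomputable def rx8876 : iz (BT.all2 (xchk xE) g8876 x8876) = true := by decide +kernel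
noncomputable def rx8885 : iz (BT.all2 (xchk xE) g8885 x8885) = true := by decide +kernel
noncomputable def rx8892 : iz (BT.all2 (xchk xE) g8892 x8892) = true := by decide +kernel
noncomputable def rx8900 : iz (BT.all2 (xchk xE) g8900 x8900) = true := by decide +kernel
noncomputable def rx8912 : iz (BT.all2 (xchk xE) g8912 x8912) = true := by decide +kernel
noncomputable def rx8922 : iz (BT.all2 (xchk xE) g8922 x8922) = true := by decide +kernel
noncomputable def rx8924 : iz (BT.all2 (xchk xE) g8924 x8924) = true := by decide +kernel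
noncomputable def rx8936 : iz (BT.all2 (xchk xE) g8936 x8936) = true := by decide +kernel
noncomputable def rx8942 : iz (BT.all2 (xchk xE) g8942 x8942) = true := by decide +kernel
noncomputable def rx8950 : iz (BT.all2 (xchk xE) g8950 x8950) = true := by decide +kernel
noncomputable def rx8959 : iz (BT.all2 (xchk xE) g8959 x8959) = true := by decide +kernel
noncomputable def rx8968 : iz (BT.all2 (xchk xE) g8968 x8968) = true := by decide +kernel
noncomputable def rx8976 : iz (BT.all2 (xchk xE) g8976 x8976) = true := by decide +kernel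
noncomputable def rx8981 : iz (BT.all2 (xchk xE) g8981 x8981) = true := by decide +kernel
noncomputable def rx8989 : iz (BT.all2 (xchk xE) g8989 x8989) = true := by decide +kernel
noncomputable def rx8995 : iz (BT.all2 (xchk xE) g8995 x8995) = true := by decide +kernel
noncomputable def rx9005 : iz (BT.all2 (xchk xE) g9005 x9005) = true := by decide +kernel
noncomputable def rx9017 : iz (BT.all2 (xchk xE) g9017 x9017) = true := by decide +kernel
noncomputable def rx9025 : iz (BT.all2 (xchk xE) g9025 x9025) = true := by decide +kernel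
noncomputable def rx9033 : iz (BT.all2 (xchk xE) g9033 x9033) = true := by decide +kernel
noncomputable def rx9043 : iz (BT.all2 (xchk xE) g9043 x9043) = true := by decide +kernel
noncomputable def rx9052 : iz (BT.all2 (xchk xE) g9052 x9052) = true := by decide +kernel
noncomputable def rx9060 : iz (BT.all2 (xchk xE) g9060 x9060) = true := by decide +kernel
noncomputable def rx9066 : iz (BT.all2 (xchk xE) g9066 x9066) = true := by decide +kernel
noncomputable def rx9076 : iz (BT.all2 (xchk xE) g9076 x9076) = true := by decide +kernel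
noncomputable def rx9084 : iz (BT.all2 (xchk xE) g9084 x9084) = true := by decide +kernel
noncomputable def rx9090 : iz (BT.all2 (xchk xE) g9090 x9090) = true := by decide +kernel
noncomputable def rx9098 : iz (BT.all2 (xchk xE) g9098 x9098) = true := by decide +kernel
noncomputable def rx9110 : iz (BT.all2 (xchk xE) g9110 x9110) = true := by decide +kernel
noncomputable def rx9119 : iz (BT.all2 (xchk xE) g9119 x9119) = true := by decide +kernel
noncomputable def rx9126 : iz (BT.all2 (xchk xE) g9126 x9126) = true := by decide +kernel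
noncomputable def rx9135 : iz (BT.all2 (xchk xE) g9135 x9135) = true := by decide +kernel
noncomputable def rx9139 : iz (BT.all2 (xchk xE) g9139 x9139) = true := by decide +kernel
noncomputable def rx9145 : iz (BT.all2 (xchk xE) g9145 x9145) = true := by decide +kernel
noncomputable def rx9154 : iz (BT.all2 (xchk xE) g9154 x9154) = true := by decide +kernel
noncomputable def rx9164 : iz (BT.all2 (xchk xE) g9164 x9164) = true := by decide +kernel
noncomputable def rx9170 : iz (BT.all2 (xchk xE) g9170 x9170) = true := by decide +kernel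
noncomputable def rx9180 : iz (BT.all2 (xchk xE) g9180 x9180) = true := by decide +kernel
noncomputable def rx9186 : iz (BT.all2 (xchk xE) g9186 x9186) = true := by decide +kernel
noncomputable def rx9195 : iz (BT.all2 (xchk xE) g9195 x9195) = true := by decide +kernel
noncomputable def rx9197 : iz (BT.all2 (xchk xE) g9197 x9197) = true := by decide +kernel
noncomputable def rx9204 : iz (BT.all2 (xchk xE) g9204 x9204) = true := by decide +kernel
noncomputable def rx9211 : iz (BT.all2 (xchk xE) g9211 x9211) = true := by decide +kernel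
noncomputable def rx9221 : iz (BT.all2 (xchk xE) g9221 x9221) = true := by decide +kernel
noncomputable def rx9224 : iz (BT.all2 (xchk xE) g9224 x9224) = true := by decide +kernel
noncomputable def rx9233 : iz (BT.all2 (xchk xE) g9233 x9233) = true := by decide +kernel
noncomputable def rx9241 : iz (BT.all2 (xchk xE) g9241 x9241) = true := by decide +kernel
noncomputable def rx9246 : iz (BT.all2 (xchk xE) g9246 x9246) = true := by decide +kernel
noncomputable def rx9257 : iz (BT.all2 (xchk xE) g9257 x9257) = true := by decide +kernel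
noncomputable def rx9265 : iz (BT.all2 (xchk xE) g9265 x9265) = true := by decide +kernel
noncomputable def rx9278 : iz (BT.all2 (xchk xE) g9278 x9278) = true := by decide +kernel
noncomputable def rx9286 : iz (BT.all2 (xchk xE) g9286 x9286) = true := by decide +kernel
noncomputable def rx9293 : iz (BT.all2 (xchk xE) g9293 x9293) = true := by decide +kernel
noncomputable def rx9299 : iz (BT.all2 (xchk xE) g9299 x9299) = true := by decide +kernel
noncomputable def rx9305 : iz (BT.all2 (xchk xE) g9305 x9305) = true := by decide +kernel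
noncomputable def rx9318 : iz (BT.all2 (xchk xE) g9318 x9318) = true := by decide +kernel
noncomputable def rx9327 : iz (BT.all2 (xchk xE) g9327 x9327) = true := by decide +kernel
noncomputable def rx9334 : iz (BT.all2 (xchk xE) g9334 x9334) = true := by decide +kernel
noncomputable def rx9342 : iz (BT.all2 (xchk xE) g9342 x9342) = true := by decide +kernel
noncomputable def rx9350 : iz (BT.all2 (xchk xE) g9350 x9350) = true := by decide +kernel
noncomputable def rx9357 : iz (BT.all2 (xchk xE) g9357 x9357) = true := by decide +kernel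
noncomputable def rx9368 : iz (BT.all2 (xchk xE) g9368 x9368) = true := by decide +kernel
noncomputable def rx9376 : iz (BT.all2 (xchk xE) g9376 x9376) = true := by decide +kernel
noncomputable def rx9381 : iz (BT.all2 (xchk xE) g9381 x9381) = true := by decide +kernel
noncomputable def rx9393 : iz (BT.all2 (xchk xE) g9393 x9393) = true := by decide +kernel
noncomputable def rx9402 : iz (BT.all2 (xchk xE) g9402 x9402) = true := by decide +kernel
noncomputable def rx9409 : iz (BT.all2 (xchk xE) g9409 x9409) = true := by decide +kernel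
noncomputable def rx9422 : iz (BT.all2 (xchk xE) g9422 x9422) = true := by decide +kernel
noncomputable def rx9429 : iz (BT.all2 (xchk xE) g9429 x9429) = true := by decide +kernel
noncomputable def rx9438 : iz (BT.all2 (xchk xE) g9438 x9438) = true := by decide +kernel
noncomputable def rx9446 : iz (BT.all2 (xchk xE) g9446 x9446) = true := by decide +kernel
noncomputable def rx9454 : iz (BT.all2 (xchk xE) g9454 x9454) = true := by decide +kernel
noncomputable def rx9460 : iz (BT.all2 (xchk xE) g9460 x9460) = true := by decide +kernel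
noncomputable def rx9469 : iz (BT.all2 (xchk xE) g9469 x9469) = true := by decide +kernel
noncomputable def rx9474 : iz (BT.all2 (xchk xE) g9474 x9474) = true := by decide +kernel
noncomputable def rx9482 : iz (BT.all2 (xchk xE) g9482 x9482) = true := by decide +kernel
noncomputable def rx9491 : iz (BT.all2 (xchk xE) g9491 x9491) = true := by decide +kernel
noncomputable def rx9500 : iz (BT.all2 (xchk xE) g9500 x9500) = true := by decide +kernel
noncomputable def rx9509 : iz (BT.all2 (xchk xE) g9509 x9509) = true := by decide +kernel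
noncomputable def rx9520 : iz (BT.all2 (xchk xE) g9520 x9520) = true := by decide +kernel
noncomputable def rx9529 : iz (BT.all2 (xchk xE) g9529 x9529) = true := by decide +kernel
noncomputable def rx9535 : iz (BT.all2 (xchk xE) g9535 x9535) = true := by decide +kernel
noncomputable def rx9544 : iz (BT.all2 (xchk xE) g9544 x9544) = true := by decide +kernel
noncomputable def rx9553 : iz (BT.all2 (xchk xE) g9553 x9553) = true := by decide +kernel
noncomputable def rx9562 : iz (BT.all2 (xchk xE) g9562 x9562) = true := by decide +kernel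
noncomputable def rx9565 : iz (BT.all2 (xchk xE) g9565 x9565) = true := by decide +kernel
noncomputable def rx9571 : iz (BT.all2 (xchk xE) g9571 x9571) = true := by decide +kernel
noncomputable def rx9576 : iz (BT.all2 (xchk xE) g9576 x9576) = true := by decide +kernel
noncomputable def rx9583 : iz (BT.all2 (xchk xE) g9583 x9583) = true := by decide +kernel
noncomputable def rx9589 : iz (BT.all2 (xchk xE) g9589 x9589) = true := by decide +kernel
noncomputable def rx9596 : iz (BT.all2 (xchk xE) g9596 x9596) = true := by decide +kernel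
noncomputable def rx9604 : iz (BT.all2 (xchk xE) g9604 x9604) = true := by decide +kernel
noncomputable def rx9614 : iz (BT.all2 (xchk xE) g9614 x9614) = true := by decide +kernel
noncomputable def rx9626 : iz (BT.all2 (xchk xE) g9626 x9626) = true := by decide +kernel
noncomputable def rx9634 : iz (BT.all2 (xchk xE) g9634 x9634) = true := by decide +kernel
noncomputable def rx9640 : iz (BT.all2 (xchk xE) g9640 x9640) = true := by decide +kernel
noncomputable def rx9649 : iz (BT.all2 (xchk xE) g9649 x9649) = true := by decide +kernel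
noncomputable def rx9655 : iz (BT.all2 (xchk xE) g9655 x9655) = true := by decide +kernel
noncomputable def rx9661 : iz (BT.all2 (xchk xE) g9661 x9661) = true := by decide +kernel
noncomputable def rx9671 : iz (BT.all2 (xchk xE) g9671 x9671) = true := by decide +kernel
noncomputable def rx9680 : iz (BT.all2 (xchk xE) g9680 x9680) = true := by decide +kernel
noncomputable def rx9686 : iz (BT.all2 (xchk xE) g9686 x9686) = true := by decide +kernel
noncomputable def rx9697 : iz (BT.all2 (xchk xE) g9697 x9697) = true := by decide +kernel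
noncomputable def rx9703 : iz (BT.all2 (xchk xE) g9703 x9703) = true := by decide +kernel
noncomputable def rx9713 : iz (BT.all2 (xchk xE) g9713 x9713) = true := by decide +kernel
noncomputable def rx9719 : iz (BT.all2 (xchk xE) g9719 x9719) = true := by decide +kernel
noncomputable def rx9727 : iz (BT.all2 (xchk xE) g9727 x9727) = true := by decide +kernel
noncomputable def rx9740 : iz (BT.all2 (xchk xE) g9740 x9740) = true := by decide +kernel
noncomputable def rx9746 : iz (BT.all2 (xchk xE) g9746 x9746) = true := by decide +kernel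
noncomputable def rx9755 : iz (BT.all2 (xchk xE) g9755 x9755) = true := by decide +kernel
noncomputable def rx9767 : iz (BT.all2 (xchk xE) g9767 x9767) = true := by decide +kernel
noncomputable def rx9777 : iz (BT.all2 (xchk xE) g9777 x9777) = true := by decide +kernel
noncomputable def rx9786 : iz (BT.all2 (xchk xE) g9786 x9786) = true := by decide +kernel
noncomputable def rx9794 : iz (BT.all2 (xchk xE) g9794 x9794) = true := by decide +kernel
noncomputable def rx9798 : iz (BT.all2 (xchk xE) g9798 x9798) = true := by decide +kernel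
noncomputable def rx9804 : iz (BT.all2 (xchk xE) g9804 x9804) = true := by decide +kernel
noncomputable def rx9812 : iz (BT.all2 (xchk xE) g9812 x9812) = true := by decide +kernel
noncomputable def rx9819 : iz (BT.all2 (xchk xE) g9819 x9819) = true := by decide +kernel
noncomputable def rx9826 : iz (BT.all2 (xchk xE) g9826 x9826) = true := by decide +kernel
noncomputable def rx9832 : iz (BT.all2 (xchk xE) g9832 x9832) = true := by decide +kernel
noncomputable def rx9838 : iz (BT.all2 (xchk xE) g9838 x9838) = true := by decide +kernel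
noncomputable def rx9846 : iz (BT.all2 (xchk xE) g9846 x9846) = true := by decide +kernel
noncomputable def rx9851 : iz (BT.all2 (xchk xE) g9851 x9851) = true := by decide +kernel
noncomputable def rx9861 : iz (BT.all2 (xchk xE) g9861 x9861) = true := by decide +kernel
noncomputable def rx9869 : iz (BT.all2 (xchk xE) g9869 x9869) = true := by decide +kernel
noncomputable def rx9879 : iz (BT.all2 (xchk xE) g9879 x9879) = true := by decide +kernel
noncomputable def rx9886 : iz (BT.all2 (xchk xE) g9886 x9886) = true := by decide +kernel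
noncomputable def rx9892 : iz (BT.all2 (xchk xE) g9892 x9892) = true := by decide +kernel
noncomputable def rx9899 : iz (BT.all2 (xchk xE) g9899 x9899) = true := by decide +kernel
noncomputable def rx9906 : iz (BT.all2 (xchk xE) g9906 x9906) = true := by decide +kernel
noncomputable def rx9917 : iz (BT.all2 (xchk xE) g9917 x9917) = true := by decide +kernel
noncomputable def rx9921 : iz (BT.all2 (xchk xE) g9921 x9921) = true := by decide +kernel
noncomputable def rx9929 : iz (BT.all2 (xchk xE) g9929 x9929) = true := by decide +kernel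
noncomputable def rx9939 : iz (BT.all2 (xchk xE) g9939 x9939) = true := by decide +kernel
noncomputable def rx9948 : iz (BT.all2 (xchk xE) g9948 x9948) = true := by decide +kernel
noncomputable def rx9954 : iz (BT.all2 (xchk xE) g9954 x9954) = true := by decide +kernel
noncomputable def rx9957 : iz (BT.all2 (xchk xE) g9957 x9957) = true := by decide +kernel
noncomputable def rx9963 : iz (BT.all2 (xchk xE) g9963 x9963) = true := by decide +kernel
noncomputable def rx9972 : iz (BT.all2 (xchk xE) g9972 x9972) = true := by decide +kernel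
noncomputable def rx9981 : iz (BT.all2 (xchk xE) g9981 x9981) = true := by decide +kernel
noncomputable def rx9991 : iz (BT.all2 (xchk xE) g9991 x9991) = true := by decide +kernel
noncomputable def rx10001 : iz (BT.all2 (xchk xE) g10001 x10001) = true := by decide +kernel
noncomputable def rx10009 : iz (BT.all2 (xchk xE) g10009 x10009) = true := by decide +kernel
noncomputable def rx10017 : iz (BT.all2 (xchk xE) g10017 x10017) = true := by decide +kernel
noncomputable def rx10028 : iz (BT.all2 (xchk xE) g10028 x10028) = true := by decide +kernel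
noncomputable def rx10034 : iz (BT.all2 (xchk xE) g10034 x10034) = true := by decide +kernel
noncomputable def rx10043 : iz (BT.all2 (xchk xE) g10043 x10043) = true := by decide +kernel
noncomputable def rx10053 : iz (BT.all2 (xchk xE) g10053 x10053) = true := by decide +kernel
noncomputable def rx10061 : iz (BT.all2 (xchk xE) g10061 x10061) = true := by decide +kernel
noncomputable def rx10070 : iz (BT.all2 (xchk xE) g10070 x10070) = true := by decide +kernel
noncomputable def rx10075 : iz (BT.all2 (xchk xE) g10075 x10075) = true := by decide +kernel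
noncomputable def rx10085 : iz (BT.all2 (xchk xE) g10085 x10085) = true := by decide +kernel
noncomputable def rx10094 : iz (BT.all2 (xchk xE) g10094 x10094) = true := by decide +kernel
noncomputable def rx10102 : iz (BT.all2 (xchk xE) g10102 x10102) = true := by decide +kernel
noncomputable def rx10109 : iz (BT.all2 (xchk xE) g10109 x10109) = true := by decide +kernel
noncomputable def rx10117 : iz (BT.all2 (xchk xE) g10117 x10117) = true := by decide +kernel
noncomputable def rx10130 : iz (BT.all2 (xchk xE) g10130 x10130) = true := by decide +kernel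
noncomputable def rx10139 : iz (BT.all2 (xchk xE) g10139 x10139) = true := by decide +kernel
noncomputable def rx10147 : iz (BT.all2 (xchk xE) g10147 x10147) = true := by decide +kernel
noncomputable def rx10148 : iz (BT.all2 (xchk xE) g10148 x10148) = true := by decide +kernel
noncomputable def rx10154 : iz (BT.all2 (xchk xE) g10154 x10154) = true := by decide +kernel
noncomputable def rx10158 : iz (BT.all2 (xchk xE) g10158 x10158) = true := by decide +kernel
noncomputable def rx10165 : iz (BT.all2 (xchk xE) g10165 x10165) = true := by decide +kernel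
noncomputable def rx10172 : iz (BT.all2 (xchk xE) g10172 x10172) = true := by decide +kernel
noncomputable def rx10181 : iz (BT.all2 (xchk xE) g10181 x10181) = true := by decide +kernel
noncomputable def rx10187 : iz (BT.all2 (xchk xE) g10187 x10187) = true := by decide +kernel
noncomputable def rx10198 : iz (BT.all2 (xchk xE) g10198 x10198) = true := by decide +kernel
noncomputable def rx10204 : iz (BT.all2 (xchk xE) g10204 x10204) = true := by decide +kernel
noncomputable def rx10211 : iz (BT.all2 (xchk xE) g10211 x10211) = true := by decide +kernel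
noncomputable def rx10223 : iz (BT.all2 (xchk xE) g10223 x10223) = true := by decide +kernel
noncomputable def rx10234 : iz (BT.all2 (xchk xE) g10234 x10234) = true := by decide +kernel
noncomputable def rx10246 : iz (BT.all2 (xchk xE) g10246 x10246) = true := by decide +kernel
noncomputable def rx10254 : iz (BT.all2 (xchk xE) g10254 x10254) = true := by decide +kernel
noncomputable def rx10263 : iz (BT.all2 (xchk xE) g10263 x10263) = true := by decide +kernel
noncomputable def rx10271 : iz (BT.all2 (xchk xE) g10271 x10271) = true := by decide +kernel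
noncomputable def rx10280 : iz (BT.all2 (xchk xE) g10280 x10280) = true := by decide +kernel
noncomputable def rx10286 : iz (BT.all2 (xchk xE) g10286 x10286) = true := by decide +kernel
noncomputable def rx10298 : iz (BT.all2 (xchk xE) g10298 x10298) = true := by decide +kernel
noncomputable def rx10306 : iz (BT.all2 (xchk xE) g10306 x10306) = true := by decide +kernel
noncomputable def rx10314 : iz (BT.all2 (xchk xE) g10314 x10314) = true := by decide +kernel
noncomputable def rx10321 : iz (BT.all2 (xchk xE) g10321 x10321) = true := by decide +kernel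
noncomputable def rx10332 : iz (BT.all2 (xchk xE) g10332 x10332) = true := by decide +kernel
noncomputable def rx10342 : iz (BT.all2 (xchk xE) g10342 x10342) = true := by decide +kernel
noncomputable def rX6 : OK2 (xchk xE) tG6 tX6 := (ok2_nd (nat_lit 9596) (ok2_nd (nat_lit 9224) (ok2_nd (nat_lit 9052) (ok2_nd (nat_lit 8950) (ok2_nd (nat_lit 8900) (ok2_nd (nat_lit 8876) (ok2_nd (nat_lit 8870) (ok2_of rx8858) (ok2_of rx8870)) (ok2_nd (nat_lit 8885) (ok2_of rx8876) (ok2_nd (nat_lit 8892) (ok2_of rx8885) (ok2_of rx8892)))) (ok2_nd (nat_lit 8924) (ok2_nd (nat_lit 8912) (ok2_of rx8900) (ok2_nd (nat_lit 8922) (ok2_of rx8912) (ok2_of rx8922))) (ok2_nd (nat_lit 8936) (ok2_of rx8924) (ok2_nd (nat_lit 8942) (ok2_of rx8936) (ok2_of rx8942))))) (ok2_nd (nat_lit 8995) (ok2_nd (nat_lit 8976) (ok2_nd (nat_lit 8959) (ok2_of rx8950) (ok2_nd (nat_lit 8968) (ok2_of rx8959) (ok2_of rx8968))) (ok2_nd (nat_lit 8981) (ok2_of rx8976) (ok2_nd (nat_lit 8989) (ok2_of rx8981) (ok2_of rx8989)))) (ok2_nd (nat_lit 9025) (ok2_nd (nat_lit 9005) (ok2_of rx8995)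 (ok2_nd (nat_lit 9017) (ok2_of rx9005) (ok2_of rx9017))) (ok2_nd (nat_lit 9033) (ok2_of rx9025) (ok2_nd (nat_lit 9043) (ok2_of rx9033) (ok2_of rx9043)))))) (ok2_nd (nat_lit 9139) (ok2_nd (nat_lit 9090) (ok2_nd (nat_lit 9066) (ok2_nd (nat_lit 9060) (ok2_of rx9052) (ok2_of rx9060)) (ok2_nd (nat_lit 9076) (ok2_of rx9066) (ok2_nd (nat_lit 9084) (ok2_of rx9076) (ok2_of rx9084)))) (ok2_nd (nat_lit 9119) (ok2_nd (nat_lit 9098) (ok2_of rx9090) (ok2_nd (nat_lit 9110) (ok2_of rx9098) (ok2_of rx9110))) (ok2_nd (nat_lit 9126) (ok2_of rx9119) (ok2_nd (nat_lit 9135) (ok2_of rx9126) (ok2_of rx9135))))) (ok2_nd (nat_lit 9186) (ok2_nd (nat_lit 9164) (ok2_nd (nat_lit 9145) (ok2_of rx9139) (ok2_nd (nat_lit 9154) (ok2_of rx9145) (ok2_of rx9154))) (ok2_nd (nat_lit 9170) (ok2_of rx9164) (ok2_nd (nat_lit 9180) (ok2_of rx9170) (ok2_of rx9180)))) (ok2_nd (nat_lit 9204) (ok2_nd (nat_lit 9195) (ok2_of rx9186) (ok2_nd (nat_lit 9197) (ok2_of rx9195) (ok2_of rx9197))) (ok2_nd (nat_lit 9211) (ok2_of rx9204) (ok2_nd (nat_lit 9221) (ok2_of rx9211) (ok2_of rx9221)))))))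 (ok2_nd (nat_lit 9422) (ok2_nd (nat_lit 9318) (ok2_nd (nat_lit 9265) (ok2_nd (nat_lit 9241) (ok2_nd (nat_lit 9233) (ok2_of rx9224) (ok2_of rx9233)) (ok2_nd (nat_lit 9246) (ok2_of rx9241) (ok2_nd (nat_lit 9257) (ok2_of rx9246) (ok2_of rx9257)))) (ok2_nd (nat_lit 9293) (ok2_nd (nat_lit 9278) (ok2_of rx9265) (ok2_nd (nat_lit 9286) (ok2_of rx9278) (ok2_of rx9286))) (ok2_nd (nat_lit 9299) (ok2_of rx9293) (ok2_nd (nat_lit 9305) (ok2_of rx9299) (ok2_of rx9305))))) (ok2_nd (nat_lit 9368) (ok2_nd (nat_lit 9342) (ok2_nd (nat_lit 9327) (ok2_of rx9318) (ok2_nd (nat_lit 9334) (ok2_of rx9327) (ok2_of rx9334))) (ok2_nd (nat_lit 9350) (ok2_of rx9342) (ok2_nd (nat_lit 9357) (ok2_of rx9350) (ok2_of rx9357)))) (ok2_nd (nat_lit 9393) (ok2_nd (nat_lit 9376) (ok2_of rx9368) (ok2_nd (nat_lit 9381) (ok2_of rx9376) (ok2_of rx9381))) (ok2_nd (nat_lit 9402) (ok2_of rx9393) (ok2_nd (nat_lit 9409) (ok2_of rx9402) (ok2_of rx9409)))))) (ok2_nd (nat_lit 9509) (ok2_nd (nat_lit 9460) (ok2_nd (nat_lit 9438) (ok2_nd (nat_lit 9429) (ok2_of rx9422) (ok2_of rx9429))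 (ok2_nd (nat_lit 9446) (ok2_of rx9438) (ok2_nd (nat_lit 9454) (ok2_of rx9446) (ok2_of rx9454)))) (ok2_nd (nat_lit 9482) (ok2_nd (nat_lit 9469) (ok2_of rx9460) (ok2_nd (nat_lit 9474) (ok2_of rx9469) (ok2_of rx9474))) (ok2_nd (nat_lit 9491) (ok2_of rx9482) (ok2_nd (nat_lit 9500) (ok2_of rx9491) (ok2_of rx9500))))) (ok2_nd (nat_lit 9562) (ok2_nd (nat_lit 9535) (ok2_nd (nat_lit 9520) (ok2_of rx9509) (ok2_nd (nat_lit 9529) (ok2_of rx9520) (ok2_of rx9529))) (ok2_nd (nat_lit 9544) (ok2_of rx9535) (ok2_nd (nat_lit 9553) (ok2_of rx9544) (ok2_of rx9553)))) (ok2_nd (nat_lit 9576) (ok2_nd (nat_lit 9565) (ok2_of rx9562) (ok2_nd (nat_lit 9571) (ok2_of rx9565) (ok2_of rx9571))) (ok2_nd (nat_lit 9583) (ok2_of rx9576) (ok2_nd (nat_lit 9589) (ok2_of rx9583) (ok2_of rx9589)))))))) (ok2_nd (nat_lit 9957) (ok2_nd (nat_lit 9794) (ok2_nd (nat_lit 9686) (ok2_nd (nat_lit 9640) (ok2_nd (nat_lit 9614) (ok2_nd (nat_lit 9604) (ok2_of rx9596) (ok2_of rx9604)) (ok2_nd (nat_lit 9626) (ok2_of rx9614) (ok2_nd (nat_lit 9634) (ok2_of rx9626) (ok2_of rx9634))))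 (ok2_nd (nat_lit 9661) (ok2_nd (nat_lit 9649) (ok2_of rx9640) (ok2_nd (nat_lit 9655) (ok2_of rx9649) (ok2_of rx9655))) (ok2_nd (nat_lit 9671) (ok2_of rx9661) (ok2_nd (nat_lit 9680) (ok2_of rx9671) (ok2_of rx9680))))) (ok2_nd (nat_lit 9740) (ok2_nd (nat_lit 9713) (ok2_nd (nat_lit 9697) (ok2_of rx9686) (ok2_nd (nat_lit 9703) (ok2_of rx9697) (ok2_of rx9703))) (ok2_nd (nat_lit 9719) (ok2_of rx9713) (ok2_nd (nat_lit 9727) (ok2_of rx9719) (ok2_of rx9727)))) (ok2_nd (nat_lit 9767) (ok2_nd (nat_lit 9746) (ok2_of rx9740) (ok2_nd (nat_lit 9755) (ok2_of rx9746) (ok2_of rx9755))) (ok2_nd (nat_lit 9777) (ok2_of rx9767) (ok2_nd (nat_lit 9786) (ok2_of rx9777) (ok2_of rx9786)))))) (ok2_nd (nat_lit 9869) (ok2_nd (nat_lit 9826) (ok2_nd (nat_lit 9804) (ok2_nd (nat_lit 9798) (ok2_of rx9794) (ok2_of rx9798)) (ok2_nd (nat_lit 9812) (ok2_of rx9804) (ok2_nd (nat_lit 9819) (ok2_of rx9812) (ok2_of rx9819)))) (ok2_nd (nat_lit 9846) (ok2_nd (nat_lit 9832) (ok2_of rx9826) (ok2_nd (nat_lit 9838) (ok2_of rx9832) (ok2_of rx9838))) (ok2_nd (nat_lit 9851) (ok2_of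 rx9846) (ok2_nd (nat_lit 9861) (ok2_of rx9851) (ok2_of rx9861))))) (ok2_nd (nat_lit 9917) (ok2_nd (nat_lit 9892) (ok2_nd (nat_lit 9879) (ok2_of rx9869) (ok2_nd (nat_lit 9886) (ok2_of rx9879) (ok2_of rx9886))) (ok2_nd (nat_lit 9899) (ok2_of rx9892) (ok2_nd (nat_lit 9906) (ok2_of rx9899) (ok2_of rx9906)))) (ok2_nd (nat_lit 9939) (ok2_nd (nat_lit 9921) (ok2_of rx9917) (ok2_nd (nat_lit 9929) (ok2_of rx9921) (ok2_of rx9929))) (ok2_nd (nat_lit 9948) (ok2_of rx9939) (ok2_nd (nat_lit 9954) (ok2_of rx9948) (ok2_of rx9954))))))) (ok2_nd (nat_lit 10148) (ok2_nd (nat_lit 10053) (ok2_nd (nat_lit 10001) (ok2_nd (nat_lit 9972) (ok2_nd (nat_lit 9963) (ok2_of rx9957) (ok2_of rx9963)) (ok2_nd (nat_lit 9981) (ok2_of rx9972) (ok2_nd (nat_lit 9991) (ok2_of rx9981) (ok2_of rx9991)))) (ok2_nd (nat_lit 10028) (ok2_nd (nat_lit 10009) (ok2_of rx10001) (ok2_nd (nat_lit 10017) (ok2_of rx10009) (ok2_of rx10017))) (ok2_nd (nat_lit 10034) (ok2_of rx10028) (ok2_nd (nat_lit 10043) (ok2_of rx10034) (ok2_of rx10043))))) (ok2_nd (nat_lit 10102) (ok2_nd (nat_lit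 10075) (ok2_nd (nat_lit 10061) (ok2_of rx10053) (ok2_nd (nat_lit 10070) (ok2_of rx10061) (ok2_of rx10070))) (ok2_nd (nat_lit 10085) (ok2_of rx10075) (ok2_nd (nat_lit 10094) (ok2_of rx10085) (ok2_of rx10094)))) (ok2_nd (nat_lit 10130) (ok2_nd (nat_lit 10109) (ok2_of rx10102) (ok2_nd (nat_lit 10117) (ok2_of rx10109) (ok2_of rx10117))) (ok2_nd (nat_lit 10139) (ok2_of rx10130) (ok2_nd (nat_lit 10147) (ok2_of rx10139) (ok2_of rx10147)))))) (ok2_nd (nat_lit 10246) (ok2_nd (nat_lit 10187) (ok2_nd (nat_lit 10165) (ok2_nd (nat_lit 10154) (ok2_of rx10148) (ok2_nd (nat_lit 10158) (ok2_of rx10154) (ok2_of rx10158))) (ok2_nd (nat_lit 10172) (ok2_of rx10165) (ok2_nd (nat_lit 10181) (ok2_of rx10172) (ok2_of rx10181)))) (ok2_nd (nat_lit 10211) (ok2_nd (nat_lit 10198) (ok2_of rx10187) (ok2_nd (nat_lit 10204) (ok2_of rx10198) (ok2_of rx10204))) (ok2_nd (nat_lit 10223) (ok2_of rx10211) (ok2_nd (nat_lit 10234) (ok2_of rx10223) (ok2_of rx10234))))) (ok2_nd (nat_lit 10298) (ok2_nd (nat_lit 10271) (ok2_nd (nat_lit 10254) (ok2_of rx10246) (ok2_nd (nat_lit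 10263) (ok2_of rx10254) (ok2_of rx10263))) (ok2_nd (nat_lit 10280) (ok2_of rx10271) (ok2_nd (nat_lit 10286) (ok2_of rx10280) (ok2_of rx10286)))) (ok2_nd (nat_lit 10321) (ok2_nd (nat_lit 10306) (ok2_of rx10298) (ok2_nd (nat_lit 10314) (ok2_of rx10306) (ok2_of rx10314))) (ok2_nd (nat_lit 10332) (ok2_of rx10321) (ok2_nd (nat_lit 10342) (ok2_of rx10332) (ok2_of rx10342)))))))))

end Pool.Agent.MP_797bdc_co.Lk.Da
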