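import Pool.Agent.MP_797bdc_co.Lk.XA
import Pool.Agent.MP_797bdc_co.Lk.DE
import Pool.Agent.MP_797bdc_co.Lk.DG7
import Pool.Agent.MP_797bdc_co.Lk.DX7

/-! Run of checker X. -/

set_option maxRecDepth 100000
set_option linter.defProp false

namespace Pool.Agent.MP_797bdc_co.Lk.Da

noncomputable def rx10348 : iz (BT.all2 (xchk xE) g10348 x10348) = true := by decide +kernel
noncomputable def rx10357 : iz (BT.all2 (xchk xE) g10357 x10357) = true := by decide +kernel
noncomputable def rx10362 : iz (BT.all2 (xchk xE) g10362 x10362) = true := by decide +kernel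
noncomputable def rx10372 : iz (BT.all2 (xchk xE) g10372 x10372) = true := by decide +kernel
noncomputable def rx10381 : iz (BT.all2 (xchk xE) g10381 x10381) = true := by decide +kernel
noncomputable def rx10391 : iz (BT.all2 (xchk xE) g10391 x10391) = true := by decide +kernel
noncomputable def rx10402 : iz (BT.all2 (xchk xE) g10402 x10402) = true := by decide +kernel
noncomputable def rx10411 : iz (BT.all2 (xchk xE) g10411 x10411) = true := by decide +kernel
noncomputable def rx10417 : iz (BT.all2 (xchk xE) g10417 x10417) = true := by decide +kernel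
noncomputable def rx10426 : iz (BT.all2 (xchk xE) g10426 x10426) = true := by decide +kernel
noncomputable def rx10434 : iz (BT.all2 (xchk xE) g10434 x10434) = true := by decide +kernel
noncomputable def rx10440 : iz (BT.all2 (xchk xE) g10440 x10440) = true := by decide +kernel
noncomputable def rx10447 : iz (BT.all2 (xchk xE) g10447 x10447) = true := by decide +kernel
noncomputable def rx10455 : iz (BT.all2 (xchk xE) g10455 x10455) = true := by decide +kernel
noncomputable def rx10464 : iz (BT.all2 (xchk xE) g10464 x10464) = true := by decide +kernel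
noncomputable def rx10470 : iz (BT.all2 (xchk xE) g10470 x10470) = true := by decide +kernel
noncomputable def rx10476 : iz (BT.all2 (xchk xE) g10476 x10476) = true := by decide +kernel
noncomputable def rx10485 : iz (BT.all2 (xchk xE) g10485 x10485) = true := by decide +kernel
noncomputable def rx10493 : iz (BT.all2 (xchk xE) g10493 x10493) = true := by decide +kernel
noncomputable def rx10498 : iz (BT.all2 (xchk xE) g10498 x10498) = true := by decide +kernel
noncomputable def rx10508 : iz (BT.all2 (xchk xE) g10508 x10508) = true := by decide +kernel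
noncomputable def rx10518 : iz (BT.all2 (xchk xE) g10518 x10518) = true := by decide +kernel
noncomputable def rx10530 : iz (BT.all2 (xchk xE) g10530 x10530) = true := by decide +kernel
noncomputable def rx10539 : iz (BT.all2 (xchk xE) g10539 x10539) = true := by decide +kernel
noncomputable def rx10547 : iz (BT.all2 (xchk xE) g10547 x10547) = true := by decide +kernel
noncomputable def rx10552 : iz (BT.all2 (xchk xE) g10552 x10552) = true := by decide +kernel
noncomputable def rx10560 : iz (BT.all2 (xchk xE) g10560 x10560) = true := by decide +kernel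
noncomputable def rx10568 : iz (BT.all2 (xchk xE) g10568 x10568) = true := by decide +kernel
noncomputable def rx10574 : iz (BT.all2 (xchk xE) g10574 x10574) = true := by decide +kernel
noncomputable def rx10584 : iz (BT.all2 (xchk xE) g10584 x10584) = true := by decide +kernel
noncomputable def rx10588 : iz (BT.all2 (xchk xE) g10588 x10588) = true := by decide +kernel
noncomputable def rx10594 : iz (BT.all2 (xchk xE) g10594 x10594) = true := by decide +kernel
noncomputable def rx10597 : iz (BT.all2 (xchk xE) g10597 x10597) = true := by decide +kernel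
noncomputable def rx10604 : iz (BT.all2 (xchk xE) g10604 x10604) = true := by decide +kernel
noncomputable def rx10607 : iz (BT.all2 (xchk xE) g10607 x10607) = true := by decide +kernel
noncomputable def rx10613 : iz (BT.all2 (xchk xE) g10613 x10613) = true := by decide +kernel
noncomputable def rx10623 : iz (BT.all2 (xchk xE) g10623 x10623) = true := by decide +kernel
noncomputable def rx10634 : iz (BT.all2 (xchk xE) g10634 x10634) = true := by decide +kernel
noncomputable def rx10639 : iz (BT.all2 (xchk xE) g10639 x10639) = true := by decide +kernel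
noncomputable def rx10647 : iz (BT.all2 (xchk xE) g10647 x10647) = true := by decide +kernel
noncomputable def rx10654 : iz (BT.all2 (xchk xE) g10654 x10654) = true := by decide +kernel
noncomputable def rx10662 : iz (BT.all2 (xchk xE) g10662 x10662) = true := by decide +kernel
noncomputable def rx10671 : iz (BT.all2 (xchk xE) g10671 x10671) = true := by decide +kernel
noncomputable def rx10674 : iz (BT.all2 (xchk xE) g10674 x10674) = true := by decide +kernel
noncomputable def rx10680 : iz (BT.all2 (xchk xE) g10680 x10680) = true := by decide +kernel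
noncomputable def rx10689 : iz (BT.all2 (xchk xE) g10689 x10689) = true := by decide +kernel
noncomputable def rx10700 : iz (BT.all2 (xchk xE) g10700 x10700) = true := by decide +kernel
noncomputable def rx10703 : iz (BT.all2 (xchk xE) g10703 x10703) = true := by decide +kernel
noncomputable def rx10712 : iz (BT.all2 (xchk xE) g10712 x10712) = true := by decide +kernel
noncomputable def rx10720 : iz (BT.all2 (xchk xE) g10720 x10720) = true := by decide +kernel
noncomputable def rx10726 : iz (BT.all2 (xchk xE) g10726 x10726) = true := by decide +kernel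
noncomputable def rx10732 : iz (BT.all2 (xchk xE) g10732 x10732) = true := by decide +kernel
noncomputable def rx10741 : iz (BT.all2 (xchk xE) g10741 x10741) = true := by decide +kernel
noncomputable def rx10750 : iz (BT.all2 (xchk xE) g10750 x10750) = true := by decide +kernel
noncomputable def rx10760 : iz (BT.all2 (xchk xE) g10760 x10760) = true := by decide +kernel
noncomputable def rx10767 : iz (BT.all2 (xchk xE) g10767 x10767) = true := by decide +kernel
noncomputable def rx10774 : iz (BT.all2 (xchk xE) g10774 x10774) = true := by decide +kernel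
noncomputable def rx10780 : iz (BT.all2 (xchk xE) g10780 x10780) = true := by decide +kernel
noncomputable def rx10788 : iz (BT.all2 (xchk xE) g10788 x10788) = true := by decide +kernel
noncomputable def rx10794 : iz (BT.all2 (xchk xE) g10794 x10794) = true := by decide +kernel
noncomputable def rx10802 : iz (BT.all2 (xchk xE) g10802 x10802) = true := by decide +kernel
noncomputable def rx10806 : iz (BT.all2 (xchk xE) g10806 x10806) = true := by decide +kernel
noncomputable def rx10819 : iz (BT.all2 (xchk xE) g10819 x10819) = true := by decide +kernel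
noncomputable def rx10827 : iz (BT.all2 (xchk xE) g10827 x10827) = true := by decide +kernel
noncomputable def rx10836 : iz (BT.all2 (xchk xE) g10836 x10836) = true := by decide +kernel
noncomputable def rx10844 : iz (BT.all2 (xchk xE) g10844 x10844) = true := by decide +kernel
noncomputable def rx10851 : iz (BT.all2 (xchk xE) g10851 x10851) = true := by decide +kernel
noncomputable def rx10856 : iz (BT.all2 (xchk xE) g10856 x10856) = true := by decide +kernel
noncomputable def rx10864 : iz (BT.all2 (xchk xE) g10864 x10864) = true := by decide +kernel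
noncomputable def rx10872 : iz (BT.all2 (xchk xE) g10872 x10872) = true := by decide +kernel
noncomputable def rx10881 : iz (BT.all2 (xchk xE) g10881 x10881) = true := by decide +kernel
noncomputable def rx10889 : iz (BT.all2 (xchk xE) g10889 x10889) = true := by decide +kernel
noncomputable def rx10895 : iz (BT.all2 (xchk xE) g10895 x10895) = true := by decide +kernel
noncomputable def rx10907 : iz (BT.all2 (xchk xE) g10907 x10907) = true := by decide +kernel
noncomputable def rx10911 : iz (BT.all2 (xchk xE) g10911 x10911) = true := by decide +kernel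
noncomputable def rx10915 : iz (BT.all2 (xchk xE) g10915 x10915) = true := by decide +kernel
noncomputable def rx10923 : iz (BT.all2 (xchk xE) g10923 x10923) = true := by decide +kernel
noncomputable def rx10930 : iz (BT.all2 (xchk xE) g10930 x10930) = true := by decide +kernel
noncomputable def rx10936 : iz (BT.all2 (xchk xE) g10936 x10936) = true := by decide +kernel
noncomputable def rx10946 : iz (BT.all2 (xchk xE) g10946 x10946) = true := by decide +kernel
noncomputable def rx10954 : iz (BT.all2 (xchk xE) g10954 x10954) = true := by decide +kernel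
noncomputable def rx10960 : iz (BT.all2 (xchk xE) g10960 x10960) = true := by decide +kernel
noncomputable def rx10972 : iz (BT.all2 (xchk xE) g10972 x10972) = true := by decide +kernel
noncomputable def rx10981 : iz (BT.all2 (xchk xE) g10981 x10981) = true := by decide +kernel
noncomputable def rx10990 : iz (BT.all2 (xchk xE) g10990 x10990) = true := by decide +kernel
noncomputable def rx10996 : iz (BT.all2 (xchk xE) g10996 x10996) = true := by decide +kernel
noncomputable def rx11004 : iz (BT.all2 (xchk xE) g11004 x11004) = true := by decide +kernel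
noncomputable def rx11013 : iz (BT.all2 (xchk xE) g11013 x11013) = true := by decide +kernel
noncomputable def rx11020 : iz (BT.all2 (xchk xE) g11020 x11020) = true := by decide +kernel
noncomputable def rx11031 : iz (BT.all2 (xchk xE) g11031 x11031) = true := by decide +kernel
noncomputable def rx11040 : iz (BT.all2 (xchk xE) g11040 x11040) = true := by decide +kernel
noncomputable def rx11047 : iz (BT.all2 (xchk xE) g11047 x11047) = true := by decide +kernel
noncomputable def rx11055 : iz (BT.all2 (xchk xE) g11055 x11055) = true := by decide +kernel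
noncomputable def rx11065 : iz (BT.all2 (xchk xE) g11065 x11065) = true := by decide +kernel
noncomputable def rx11073 : iz (BT.all2 (xchk xE) g11073 x11073) = true := by decide +kernel
noncomputable def rx11079 : iz (BT.all2 (xchk xE) g11079 x11079) = true := by decide +kernel
noncomputable def rx11088 : iz (BT.all2 (xchk xE) g11088 x11088) = true := by decide +kernel
noncomputable def rx11090 : iz (BT.all2 (xchk xE) g11090 x11090) = true := by decide +kernel
noncomputable def rx11099 : iz (BT.all2 (xchk xE) g11099 x11099) = true := by decide +kernel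
noncomputable def rx11111 : iz (BT.all2 (xchk xE) g11111 x11111) = true := by decide +kernel
noncomputable def rx11120 : iz (BT.all2 (xchk xE) g11120 x11120) = true := by decide +kernel
noncomputable def rx11131 : iz (BT.all2 (xchk xE) g11131 x11131) = true := by decide +kernel
noncomputable def rx11143 : iz (BT.all2 (xchk xE) g11143 x11143) = true := by decide +kernel
noncomputable def rx11150 : iz (BT.all2 (xchk xE) g11150 x11150) = true := by decide +kernel
noncomputable def rx11162 : iz (BT.all2 (xchk xE) g11162 x11162) = true := by decide +kernel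
noncomputable def rx11174 : iz (BT.all2 (xchk xE) g11174 x11174) = true := by decide +kernel
noncomputable def rx11183 : iz (BT.all2 (xchk xE) g11183 x11183) = true := by decide +kernel
noncomputable def rx11192 : iz (BT.all2 (xchk xE) g11192 x11192) = true := by decide +kernel
noncomputable def rx11203 : iz (BT.all2 (xchk xE) g11203 x11203) = true := by decide +kernel
noncomputable def rx11214 : iz (BT.all2 (xchk xE) g11214 x11214) = true := by decide +kernel
noncomputable def rx11223 : iz (BT.all2 (xchk xE) g11223 x11223) = true := by decide +kernel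
noncomputable def rx11233 : iz (BT.all2 (xchk xE) g11233 x11233) = true := by decide +kernel
noncomputable def rx11239 : iz (BT.all2 (xchk xE) g11239 x11239) = true := by decide +kernel
noncomputable def rx11251 : iz (BT.all2 (xchk xE) g11251 x11251) = true := by decide +kernel
noncomputable def rx11259 : iz (BT.all2 (xchk xE) g11259 x11259) = true := by decide +kernel
noncomputable def rx11270 : iz (BT.all2 (xchk xE) g11270 x11270) = true := by decide +kernel
noncomputable def rx11276 : iz (BT.all2 (xchk xE) g11276 x11276) = true := by decide +kernel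
noncomputable def rx11288 : iz (BT.all2 (xchk xE) g11288 x11288) = true := by decide +kernel
noncomputable def rx11295 : iz (BT.all2 (xchk xE) g11295 x11295) = true := by decide +kernel
noncomputable def rx11306 : iz (BT.all2 (xchk xE) g11306 x11306) = true := by decide +kernel
noncomputable def rx11314 : iz (BT.all2 (xchk xE) g11314 x11314) = true := by decide +kernel
noncomputable def rx11320 : iz (BT.all2 (xchk xE) g11320 x11320) = true := by decide +kernel
noncomputable def rx11330 : iz (BT.all2 (xchk xE) g11330 x11330) = true := by decide +kernel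
noncomputable def rx11340 : iz (BT.all2 (xchk xE) g11340 x11340) = true := by decide +kernel
noncomputable def rx11346 : iz (BT.all2 (xchk xE) g11346 x11346) = true := by decide +kernel
noncomputable def rx11360 : iz (BT.all2 (xchk xE) g11360 x11360) = true := by decide +kernel
noncomputable def rx11371 : iz (BT.all2 (xchk xE) g11371 x11371) = true := by decide +kernel
noncomputable def rx11377 : iz (BT.all2 (xchk xE) g11377 x11377) = true := by decide +kernel
noncomputable def rx11383 : iz (BT.all2 (xchk xE) g11383 x11383) = true := by decide +kernel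
noncomputable def rx11392 : iz (BT.all2 (xchk xE) g11392 x11392) = true := by decide +kernel
noncomputable def rx11395 : iz (BT.all2 (xchk xE) g11395 x11395) = true := by decide +kernel
noncomputable def rx11408 : iz (BT.all2 (xchk xE) g11408 x11408) = true := by decide +kernel
noncomputable def rx11420 : iz (BT.all2 (xchk xE) g11420 x11420) = true := by decide +kernel
noncomputable def rx11426 : iz (BT.all2 (xchk xE) g11426 x11426) = true := by decide +kernel
noncomputable def rx11435 : iz (BT.all2 (xchk xE) g11435 x11435) = true := by decide +kernel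
noncomputable def rx11444 : iz (BT.all2 (xchk xE) g11444 x11444) = true := by decide +kernel
noncomputable def rx11453 : iz (BT.all2 (xchk xE) g11453 x11453) = true := by decide +kernel
noncomputable def rx11462 : iz (BT.all2 (xchk xE) g11462 x11462) = true := by decide +kernel
noncomputable def rx11468 : iz (BT.all2 (xchk xE) g11468 x11468) = true := by decide +kernel
noncomputable def rx11477 : iz (BT.all2 (xchk xE) g11477 x11477) = true := by decide +kernel
noncomputable def rx11483 : iz (BT.all2 (xchk xE) g11483 x11483) = true := by decide +kernel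
noncomputable def rx11492 : iz (BT.all2 (xchk xE) g11492 x11492) = true := by decide +kernel
noncomputable def rx11504 : iz (BT.all2 (xchk xE) g11504 x11504) = true := by decide +kernel
noncomputable def rx11513 : iz (BT.all2 (xchk xE) g11513 x11513) = true := by decide +kernel
noncomputable def rx11518 : iz (BT.all2 (xchk xE) g11518 x11518) = true := by decide +kernel
noncomputable def rx11527 : iz (BT.all2 (xchk xE) g11527 x11527) = true := by decide +kernel
noncomputable def rx11537 : iz (BT.all2 (xchk xE) g11537 x11537) = true := by decide +kernel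
noncomputable def rx11541 : iz (BT.all2 (xchk xE) g11541 x11541) = true := by decide +kernel
noncomputable def rx11549 : iz (BT.all2 (xchk xE) g11549 x11549) = true := by decide +kernel
noncomputable def rx11557 : iz (BT.all2 (xchk xE) g11557 x11557) = true := by decide +kernel
noncomputable def rx11570 : iz (BT.all2 (xchk xE) g11570 x11570) = true := by decide +kernel
noncomputable def rx11576 : iz (BT.all2 (xchk xE) g11576 x11576) = true := by decide +kernel
noncomputable def rx11583 : iz (BT.all2 (xchk xE) g11583 x11583) = true := by decide +kernel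
noncomputable def rx11593 : iz (BT.all2 (xchk xE) g11593 x11593) = true := by decide +kernel
noncomputable def rx11602 : iz (BT.all2 (xchk xE) g11602 x11602) = true := by decide +kernel
noncomputable def rx11614 : iz (BT.all2 (xchk xE) g11614 x11614) = true := by decide +kernel
noncomputable def rx11618 : iz (BT.all2 (xchk xE) g11618 x11618) = true := by decide +kernel
noncomputable def rx11629 : iz (BT.all2 (xchk xE) g11629 x11629) = true := by decide +kernel
noncomputable def rx11634 : iz (BT.all2 (xchk xE) g11634 x11634) = true := by decide +kernel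
noncomputable def rx11644 : iz (BT.all2 (xchk xE) g11644 x11644) = true := by decide +kernel
noncomputable def rx11649 : iz (BT.all2 (xchk xE) g11649 x11649) = true := by decide +kernel
noncomputable def rx11661 : iz (BT.all2 (xchk xE) g11661 x11661) = true := by decide +kernel
noncomputable def rx11667 : iz (BT.all2 (xchk xE) g11667 x11667) = true := by decide +kernel
noncomputable def rx11676 : iz (BT.all2 (xchk xE) g11676 x11676) = true := by decide +kernel
noncomputable def rx11685 : iz (BT.all2 (xchk xE) g11685 x11685) = true := by decide +kernel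
noncomputable def rx11694 : iz (BT.all2 (xchk xE) g11694 x11694) = true := by decide +kernel
noncomputable def rx11705 : iz (BT.all2 (xchk xE) g11705 x11705) = true := by decide +kernel
noncomputable def rx11712 : iz (BT.all2 (xchk xE) g11712 x11712) = true := by decide +kernel
noncomputable def rx11719 : iz (BT.all2 (xchk xE) g11719 x11719) = true := by decide +kernel
noncomputable def rx11725 : iz (BT.all2 (xchk xE) g11725 x11725) = true := by decide +kernel
noncomputable def rx11733 : iz (BT.all2 (xchk xE) g11733 x11733) = true := by decide +kernel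
noncomputable def rx11741 : iz (BT.all2 (xchk xE) g11741 x11741) = true := by decide +kernel
noncomputable def rx11747 : iz (BT.all2 (xchk xE) g11747 x11747) = true := by decide +kernel
noncomputable def rx11752 : iz (BT.all2 (xchk xE) g11752 x11752) = true := by decide +kernel
noncomputable def rx11761 : iz (BT.all2 (xchk xE) g11761 x11761) = true := by decide +kernel
noncomputable def rx11770 : iz (BT.all2 (xchk xE) g11770 x11770) = true := by decide +kernel
noncomputable def rx11779 : iz (BT.all2 (xchk xE) g11779 x11779) = true := by decide +kernel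
noncomputable def rx11785 : iz (BT.all2 (xchk xE) g11785 x11785) = true := by decide +kernel
noncomputable def rx11792 : iz (BT.all2 (xchk xE) g11792 x11792) = true := by decide +kernel
noncomputable def rx11804 : iz (BT.all2 (xchk xE) g11804 x11804) = true := by decide +kernel
noncomputable def rx11813 : iz (BT.all2 (xchk xE) g11813 x11813) = true := by decide +kernel
noncomputable def rx11819 : iz (BT.all2 (xchk xE) g11819 x11819) = true := by decide +kernel
noncomputable def rx11825 : iz (BT.all2 (xchk xE) g11825 x11825) = true := by decide +kernel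
noncomputable def rx11829 : iz (BT.all2 (xchk xE) g11829 x11829) = true := by decide +kernel
noncomputable def rx11835 : iz (BT.all2 (xchk xE) g11835 x11835) = true := by decide +kernel
noncomputable def rX7 : OK2 (xchk xE) tG7 tX7 := (ok2_nd (nat_lit 11055) (ok2_nd (nat_lit 10700) (ok2_nd (nat_lit 10539) (ok2_nd (nat_lit 10440) (ok2_nd (nat_lit 10391) (ok2_nd (nat_lit 10362) (ok2_nd (nat_lit 10357) (ok2_of rx10348) (ok2_of rx10357)) (ok2_nd (nat_lit 10372) (ok2_of rx10362) (ok2_nd (nat_lit 10381) (ok2_of rx10372) (ok2_of rx10381)))) (ok2_nd (nat_lit 10417) (ok2_nd (nat_lit 10402) (ok2_of rx10391) (ok2_nd (nat_lit 10411) (ok2_of rx10402) (ok2_of rx10411))) (ok2_nd (nat_lit 10426) (ok2_of rx10417) (ok2_nd (nat_lit 10434) (ok2_of rx10426) (ok2_of rx10434))))) (ok2_nd (nat_lit 10485) (ok2_nd (nat_lit 10464) (ok2_nd (nat_lit 10447) (ok2_of rx10440) (ok2_nd (nat_lit 10455) (ok2_of rx10447) (ok2_of rx10455))) (ok2_nd (nat_lit 10470) (ok2_of rx10464) (ok2_nd (nat_lit 10476) (ok2_of rx10470) (ok2_of rx10476)))) (ok2_nd (nat_lit 10508) (ok2_nd (nat_lit 10493) (ok2_of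 rx10485) (ok2_nd (nat_lit 10498) (ok2_of rx10493) (ok2_of rx10498))) (ok2_nd (nat_lit 10518) (ok2_of rx10508) (ok2_nd (nat_lit 10530) (ok2_of rx10518) (ok2_of rx10530)))))) (ok2_nd (nat_lit 10607) (ok2_nd (nat_lit 10574) (ok2_nd (nat_lit 10552) (ok2_nd (nat_lit 10547) (ok2_of rx10539) (ok2_of rx10547)) (ok2_nd (nat_lit 10560) (ok2_of rx10552) (ok2_nd (nat_lit 10568) (ok2_of rx10560) (ok2_of rx10568)))) (ok2_nd (nat_lit 10594) (ok2_nd (nat_lit 10584) (ok2_of rx10574) (ok2_nd (nat_lit 10588) (ok2_of rx10584) (ok2_of rx10588))) (ok2_nd (nat_lit 10597) (ok2_of rx10594) (ok2_nd (nat_lit 10604) (ok2_of rx10597) (ok2_of rx10604))))) (ok2_nd (nat_lit 10654) (ok2_nd (nat_lit 10634) (ok2_nd (nat_lit 10613) (ok2_of rx10607) (ok2_nd (nat_lit 10623) (ok2_of rx10613) (ok2_of rx10623))) (ok2_nd (nat_lit 10639) (ok2_of rx10634) (ok2_nd (nat_lit 10647) (ok2_of rx10639) (ok2_of rx10647)))) (ok2_nd (nat_lit 10674) (ok2_nd (nat_lit 10662) (ok2_of rx10654) (ok2_nd (nat_lit 10671) (ok2_of rx10662) (ok2_of rx10671))) (ok2_nd (nat_lit 10680) (ok2_of rx10674) (ok2_nd (nat_lit 10689)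 (ok2_of rx10680) (ok2_of rx10689))))))) (ok2_nd (nat_lit 10872) (ok2_nd (nat_lit 10780) (ok2_nd (nat_lit 10732) (ok2_nd (nat_lit 10712) (ok2_nd (nat_lit 10703) (ok2_of rx10700) (ok2_of rx10703)) (ok2_nd (nat_lit 10720) (ok2_of rx10712) (ok2_nd (nat_lit 10726) (ok2_of rx10720) (ok2_of rx10726)))) (ok2_nd (nat_lit 10760) (ok2_nd (nat_lit 10741) (ok2_of rx10732) (ok2_nd (nat_lit 10750) (ok2_of rx10741) (ok2_of rx10750))) (ok2_nd (nat_lit 10767) (ok2_of rx10760) (ok2_nd (nat_lit 10774) (ok2_of rx10767) (ok2_of rx10774))))) (ok2_nd (nat_lit 10827) (ok2_nd (nat_lit 10802) (ok2_nd (nat_lit 10788) (ok2_of rx10780) (ok2_nd (nat_lit 10794) (ok2_of rx10788) (ok2_of rx10794))) (ok2_nd (nat_lit 10806) (ok2_of rx10802) (ok2_nd (nat_lit 10819) (ok2_of rx10806) (ok2_of rx10819)))) (ok2_nd (nat_lit 10851) (ok2_nd (nat_lit 10836) (ok2_of rx10827) (ok2_nd (nat_lit 10844) (ok2_of rx10836) (ok2_of rx10844))) (ok2_nd (nat_lit 10856) (ok2_of rx10851) (ok2_nd (nat_lit 10864) (ok2_of rx10856) (ok2_of rx10864)))))) (ok2_nd (nat_lit 10954) (ok2_nd (nat_lit 10911) (ok2_nd (nat_lit 10889)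 (ok2_nd (nat_lit 10881) (ok2_of rx10872) (ok2_of rx10881)) (ok2_nd (nat_lit 10895) (ok2_of rx10889) (ok2_nd (nat_lit 10907) (ok2_of rx10895) (ok2_of rx10907)))) (ok2_nd (nat_lit 10930) (ok2_nd (nat_lit 10915) (ok2_of rx10911) (ok2_nd (nat_lit 10923) (ok2_of rx10915) (ok2_of rx10923))) (ok2_nd (nat_lit 10936) (ok2_of rx10930) (ok2_nd (nat_lit 10946) (ok2_of rx10936) (ok2_of rx10946))))) (ok2_nd (nat_lit 11004) (ok2_nd (nat_lit 10981) (ok2_nd (nat_lit 10960) (ok2_of rx10954) (ok2_nd (nat_lit 10972) (ok2_of rx10960) (ok2_of rx10972))) (ok2_nd (nat_lit 10990) (ok2_of rx10981) (ok2_nd (nat_lit 10996) (ok2_of rx10990) (ok2_of rx10996)))) (ok2_nd (nat_lit 11031) (ok2_nd (nat_lit 11013) (ok2_of rx11004) (ok2_nd (nat_lit 11020) (ok2_of rx11013) (ok2_of rx11020))) (ok2_nd (nat_lit 11040) (ok2_of rx11031) (ok2_nd (nat_lit 11047) (ok2_of rx11040) (ok2_of rx11047)))))))) (ok2_nd (nat_lit 11468) (ok2_nd (nat_lit 11270) (ok2_nd (nat_lit 11150) (ok2_nd (nat_lit 11090) (ok2_nd (nat_lit 11073) (ok2_nd (nat_lit 11065) (ok2_of rx11055) (ok2_of rx11065)) (ok2_nd (nat_lit 11079)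 (ok2_of rx11073) (ok2_nd (nat_lit 11088) (ok2_of rx11079) (ok2_of rx11088)))) (ok2_nd (nat_lit 11120) (ok2_nd (nat_lit 11099) (ok2_of rx11090) (ok2_nd (nat_lit 11111) (ok2_of rx11099) (ok2_of rx11111))) (ok2_nd (nat_lit 11131) (ok2_of rx11120) (ok2_nd (nat_lit 11143) (ok2_of rx11131) (ok2_of rx11143))))) (ok2_nd (nat_lit 11214) (ok2_nd (nat_lit 11183) (ok2_nd (nat_lit 11162) (ok2_of rx11150) (ok2_nd (nat_lit 11174) (ok2_of rx11162) (ok2_of rx11174))) (ok2_nd (nat_lit 11192) (ok2_of rx11183) (ok2_nd (nat_lit 11203) (ok2_of rx11192) (ok2_of rx11203)))) (ok2_nd (nat_lit 11239) (ok2_nd (nat_lit 11223) (ok2_of rx11214) (ok2_nd (nat_lit 11233) (ok2_of rx11223) (ok2_of rx11233))) (ok2_nd (nat_lit 11251) (ok2_of rx11239) (ok2_nd (nat_lit 11259) (ok2_of rx11251) (ok2_of rx11259)))))) (ok2_nd (nat_lit 11371) (ok2_nd (nat_lit 11314) (ok2_nd (nat_lit 11288) (ok2_nd (nat_lit 11276) (ok2_of rx11270) (ok2_of rx11276)) (ok2_nd (nat_lit 11295) (ok2_of rx11288) (ok2_nd (nat_lit 11306) (ok2_of rx11295) (ok2_of rx11306)))) (ok2_nd (nat_lit 11340) (ok2_nd (nat_lit 11320) (ok2_of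 rx11314) (ok2_nd (nat_lit 11330) (ok2_of rx11320) (ok2_of rx11330))) (ok2_nd (nat_lit 11346) (ok2_of rx11340) (ok2_nd (nat_lit 11360) (ok2_of rx11346) (ok2_of rx11360))))) (ok2_nd (nat_lit 11420) (ok2_nd (nat_lit 11392) (ok2_nd (nat_lit 11377) (ok2_of rx11371) (ok2_nd (nat_lit 11383) (ok2_of rx11377) (ok2_of rx11383))) (ok2_nd (nat_lit 11395) (ok2_of rx11392) (ok2_nd (nat_lit 11408) (ok2_of rx11395) (ok2_of rx11408)))) (ok2_nd (nat_lit 11444) (ok2_nd (nat_lit 11426) (ok2_of rx11420) (ok2_nd (nat_lit 11435) (ok2_of rx11426) (ok2_of rx11435))) (ok2_nd (nat_lit 11453) (ok2_of rx11444) (ok2_nd (nat_lit 11462) (ok2_of rx11453) (ok2_of rx11462))))))) (ok2_nd (nat_lit 11661) (ok2_nd (nat_lit 11557) (ok2_nd (nat_lit 11513) (ok2_nd (nat_lit 11483) (ok2_nd (nat_lit 11477) (ok2_of rx11468) (ok2_of rx11477)) (ok2_nd (nat_lit 11492) (ok2_of rx11483) (ok2_nd (nat_lit 11504) (ok2_of rx11492) (ok2_of rx11504)))) (ok2_nd (nat_lit 11537) (ok2_nd (nat_lit 11518) (ok2_of rx11513) (ok2_nd (nat_lit 11527) (ok2_of rx11518) (ok2_of rx11527))) (ok2_nd (nat_lit 11541) (ok2_of rx11537)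 (ok2_nd (nat_lit 11549) (ok2_of rx11541) (ok2_of rx11549))))) (ok2_nd (nat_lit 11614) (ok2_nd (nat_lit 11583) (ok2_nd (nat_lit 11570) (ok2_of rx11557) (ok2_nd (nat_lit 11576) (ok2_of rx11570) (ok2_of rx11576))) (ok2_nd (nat_lit 11593) (ok2_of rx11583) (ok2_nd (nat_lit 11602) (ok2_of rx11593) (ok2_of rx11602)))) (ok2_nd (nat_lit 11634) (ok2_nd (nat_lit 11618) (ok2_of rx11614) (ok2_nd (nat_lit 11629) (ok2_of rx11618) (ok2_of rx11629))) (ok2_nd (nat_lit 11644) (ok2_of rx11634) (ok2_nd (nat_lit 11649) (ok2_of rx11644) (ok2_of rx11649)))))) (ok2_nd (nat_lit 11752) (ok2_nd (nat_lit 11712) (ok2_nd (nat_lit 11685) (ok2_nd (nat_lit 11667) (ok2_of rx11661) (ok2_nd (nat_lit 11676) (ok2_of rx11667) (ok2_of rx11676))) (ok2_nd (nat_lit 11694) (ok2_of rx11685) (ok2_nd (nat_lit 11705) (ok2_of rx11694) (ok2_of rx11705)))) (ok2_nd (nat_lit 11733) (ok2_nd (nat_lit 11719) (ok2_of rx11712) (ok2_nd (nat_lit 11725) (ok2_of rx11719) (ok2_of rx11725))) (ok2_nd (nat_lit 11741) (ok2_of rx11733) (ok2_nd (nat_lit 11747) (ok2_of rx11741) (ok2_of rx11747))))) (ok2_nd (nat_lit 11804) (ok2_nd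 (nat_lit 11779) (ok2_nd (nat_lit 11761) (ok2_of rx11752) (ok2_nd (nat_lit 11770) (ok2_of rx11761) (ok2_of rx11770))) (ok2_nd (nat_lit 11785) (ok2_of rx11779) (ok2_nd (nat_lit 11792) (ok2_of rx11785) (ok2_of rx11792)))) (ok2_nd (nat_lit 11825) (ok2_nd (nat_lit 11813) (ok2_of rx11804) (ok2_nd (nat_lit 11819) (ok2_of rx11813) (ok2_of rx11819))) (ok2_nd (nat_lit 11829) (ok2_of rx11825) (ok2_nd (nat_lit 11835) (ok2_of rx11829) (ok2_of rx11835)))))))))

end Pool.Agent.MP_797bdc_co.Lk.Da
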