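import Pool.Agent.MP_797bdc_co.Lk.XA
import Pool.Agent.MP_797bdc_co.Lk.DE
import Pool.Agent.MP_797bdc_co.Lk.DG8
import Pool.Agent.MP_797bdc_co.Lk.DX8

/-! Run of checker X. -/

set_option maxRecDepth 100000
set_option linter.defProp false

namespace Pool.Agent.MP_797bdc_co.Lk.Da

noncomputable def rx11845 : iz (BT.all2 (xchk xE) g11845 x11845) = true := by decide +kernel
noncomputable def rx11855 : iz (BT.all2 (xchk xE) g11855 x11855) = true := by decide +kernel
noncomputable def rx11860 : iz (BT.all2 (xchk xE) g11860 x11860) = true := by decide +kernel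
noncomputable def rx11861 : iz (BT.all2 (xchk xE) g11861 x11861) = true := by decide +kernel
noncomputable def rx11867 : iz (BT.all2 (xchk xE) g11867 x11867) = true := by decide +kernel
noncomputable def rx11873 : iz (BT.all2 (xchk xE) g11873 x11873) = true := by decide +kernel
noncomputable def rx11878 : iz (BT.all2 (xchk xE) g11878 x11878) = true := by decide +kernel
noncomputable def rx11886 : iz (BT.all2 (xchk xE) g11886 x11886) = true := by decide +kernel
noncomputable def rx11897 : iz (BT.all2 (xchk xE) g11897 x11897) = true := by decide +kernel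
noncomputable def rx11903 : iz (BT.all2 (xchk xE) g11903 x11903) = true := by decide +kernel
noncomputable def rx11914 : iz (BT.all2 (xchk xE) g11914 x11914) = true := by decide +kernel
noncomputable def rx11923 : iz (BT.all2 (xchk xE) g11923 x11923) = true := by decide +kernel
noncomputable def rx11931 : iz (BT.all2 (xchk xE) g11931 x11931) = true := by decide +kernel
noncomputable def rx11940 : iz (BT.all2 (xchk xE) g11940 x11940) = true := by decide +kernel
noncomputable def rx11950 : iz (BT.all2 (xchk xE) g11950 x11950) = true := by decide +kernel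
noncomputable def rx11963 : iz (BT.all2 (xchk xE) g11963 x11963) = true := by decide +kernel
noncomputable def rx11973 : iz (BT.all2 (xchk xE) g11973 x11973) = true := by decide +kernel
noncomputable def rx11983 : iz (BT.all2 (xchk xE) g11983 x11983) = true := by decide +kernel
noncomputable def rx11989 : iz (BT.all2 (xchk xE) g11989 x11989) = true := by decide +kernel
noncomputable def rx11999 : iz (BT.all2 (xchk xE) g11999 x11999) = true := by decide +kernel
noncomputable def rx12004 : iz (BT.all2 (xchk xE) g12004 x12004) = true := by decide +kernel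
noncomputable def rx12010 : iz (BT.all2 (xchk xE) g12010 x12010) = true := by decide +kernel
noncomputable def rx12013 : iz (BT.all2 (xchk xE) g12013 x12013) = true := by decide +kernel
noncomputable def rx12022 : iz (BT.all2 (xchk xE) g12022 x12022) = true := by decide +kernel
noncomputable def rx12029 : iz (BT.all2 (xchk xE) g12029 x12029) = true := by decide +kernel
noncomputable def rx12035 : iz (BT.all2 (xchk xE) g12035 x12035) = true := by decide +kernel
noncomputable def rx12043 : iz (BT.all2 (xchk xE) g12043 x12043) = true := by decide +kernel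
noncomputable def rx12050 : iz (BT.all2 (xchk xE) g12050 x12050) = true := by decide +kernel
noncomputable def rx12055 : iz (BT.all2 (xchk xE) g12055 x12055) = true := by decide +kernel
noncomputable def rx12067 : iz (BT.all2 (xchk xE) g12067 x12067) = true := by decide +kernel
noncomputable def rx12073 : iz (BT.all2 (xchk xE) g12073 x12073) = true := by decide +kernel
noncomputable def rx12079 : iz (BT.all2 (xchk xE) g12079 x12079) = true := by decide +kernel
noncomputable def rx12086 : iz (BT.all2 (xchk xE) g12086 x12086) = true := by decide +kernel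
noncomputable def rx12096 : iz (BT.all2 (xchk xE) g12096 x12096) = true := by decide +kernel
noncomputable def rx12099 : iz (BT.all2 (xchk xE) g12099 x12099) = true := by decide +kernel
noncomputable def rx12107 : iz (BT.all2 (xchk xE) g12107 x12107) = true := by decide +kernel
noncomputable def rx12116 : iz (BT.all2 (xchk xE) g12116 x12116) = true := by decide +kernel
noncomputable def rx12118 : iz (BT.all2 (xchk xE) g12118 x12118) = true := by decide +kernel
noncomputable def rx12126 : iz (BT.all2 (xchk xE) g12126 x12126) = true := by decide +kernel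
noncomputable def rx12132 : iz (BT.all2 (xchk xE) g12132 x12132) = true := by decide +kernel
noncomputable def rx12138 : iz (BT.all2 (xchk xE) g12138 x12138) = true := by decide +kernel
noncomputable def rx12146 : iz (BT.all2 (xchk xE) g12146 x12146) = true := by decide +kernel
noncomputable def rx12157 : iz (BT.all2 (xchk xE) g12157 x12157) = true := by decide +kernel
noncomputable def rx12164 : iz (BT.all2 (xchk xE) g12164 x12164) = true := by decide +kernel
noncomputable def rx12170 : iz (BT.all2 (xchk xE) g12170 x12170) = true := by decide +kernel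
noncomputable def rx12178 : iz (BT.all2 (xchk xE) g12178 x12178) = true := by decide +kernel
noncomputable def rx12184 : iz (BT.all2 (xchk xE) g12184 x12184) = true := by decide +kernel
noncomputable def rx12190 : iz (BT.all2 (xchk xE) g12190 x12190) = true := by decide +kernel
noncomputable def rx12201 : iz (BT.all2 (xchk xE) g12201 x12201) = true := by decide +kernel
noncomputable def rx12210 : iz (BT.all2 (xchk xE) g12210 x12210) = true := by decide +kernel
noncomputable def rx12216 : iz (BT.all2 (xchk xE) g12216 x12216) = true := by decide +kernel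
noncomputable def rx12224 : iz (BT.all2 (xchk xE) g12224 x12224) = true := by decide +kernel
noncomputable def rx12232 : iz (BT.all2 (xchk xE) g12232 x12232) = true := by decide +kernel
noncomputable def rx12239 : iz (BT.all2 (xchk xE) g12239 x12239) = true := by decide +kernel
noncomputable def rx12249 : iz (BT.all2 (xchk xE) g12249 x12249) = true := by decide +kernel
noncomputable def rx12254 : iz (BT.all2 (xchk xE) g12254 x12254) = true := by decide +kernel
noncomputable def rx12260 : iz (BT.all2 (xchk xE) g12260 x12260) = true := by decide +kernel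
noncomputable def rx12264 : iz (BT.all2 (xchk xE) g12264 x12264) = true := by decide +kernel
noncomputable def rx12265 : iz (BT.all2 (xchk xE) g12265 x12265) = true := by decide +kernel
noncomputable def rx12269 : iz (BT.all2 (xchk xE) g12269 x12269) = true := by decide +kernel
noncomputable def rx12279 : iz (BT.all2 (xchk xE) g12279 x12279) = true := by decide +kernel
noncomputable def rx12291 : iz (BT.all2 (xchk xE) g12291 x12291) = true := by decide +kernel
noncomputable def rx12295 : iz (BT.all2 (xchk xE) g12295 x12295) = true := by decide +kernel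
noncomputable def rx12308 : iz (BT.all2 (xchk xE) g12308 x12308) = true := by decide +kernel
noncomputable def rx12313 : iz (BT.all2 (xchk xE) g12313 x12313) = true := by decide +kernel
noncomputable def rx12322 : iz (BT.all2 (xchk xE) g12322 x12322) = true := by decide +kernel
noncomputable def rx12332 : iz (BT.all2 (xchk xE) g12332 x12332) = true := by decide +kernel
noncomputable def rx12338 : iz (BT.all2 (xchk xE) g12338 x12338) = true := by decide +kernel
noncomputable def rx12347 : iz (BT.all2 (xchk xE) g12347 x12347) = true := by decide +kernel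
noncomputable def rx12357 : iz (BT.all2 (xchk xE) g12357 x12357) = true := by decide +kernel
noncomputable def rx12366 : iz (BT.all2 (xchk xE) g12366 x12366) = true := by decide +kernel
noncomputable def rx12378 : iz (BT.all2 (xchk xE) g12378 x12378) = true := by decide +kernel
noncomputable def rx12386 : iz (BT.all2 (xchk xE) g12386 x12386) = true := by decide +kernel
noncomputable def rx12396 : iz (BT.all2 (xchk xE) g12396 x12396) = true := by decide +kernel
noncomputable def rx12402 : iz (BT.all2 (xchk xE) g12402 x12402) = true := by decide +kernel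
noncomputable def rx12412 : iz (BT.all2 (xchk xE) g12412 x12412) = true := by decide +kernel
noncomputable def rx12419 : iz (BT.all2 (xchk xE) g12419 x12419) = true := by decide +kernel
noncomputable def rx12425 : iz (BT.all2 (xchk xE) g12425 x12425) = true := by decide +kernel
noncomputable def rx12438 : iz (BT.all2 (xchk xE) g12438 x12438) = true := by decide +kernel
noncomputable def rx12441 : iz (BT.all2 (xchk xE) g12441 x12441) = true := by decide +kernel
noncomputable def rx12449 : iz (BT.all2 (xchk xE) g12449 x12449) = true := by decide +kernel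
noncomputable def rx12461 : iz (BT.all2 (xchk xE) g12461 x12461) = true := by decide +kernel
noncomputable def rx12467 : iz (BT.all2 (xchk xE) g12467 x12467) = true := by decide +kernel
noncomputable def rx12474 : iz (BT.all2 (xchk xE) g12474 x12474) = true := by decide +kernel
noncomputable def rx12485 : iz (BT.all2 (xchk xE) g12485 x12485) = true := by decide +kernel
noncomputable def rx12495 : iz (BT.all2 (xchk xE) g12495 x12495) = true := by decide +kernel
noncomputable def rx12504 : iz (BT.all2 (xchk xE) g12504 x12504) = true := by decide +kernel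
noncomputable def rx12513 : iz (BT.all2 (xchk xE) g12513 x12513) = true := by decide +kernel
noncomputable def rx12520 : iz (BT.all2 (xchk xE) g12520 x12520) = true := by decide +kernel
noncomputable def rx12525 : iz (BT.all2 (xchk xE) g12525 x12525) = true := by decide +kernel
noncomputable def rx12531 : iz (BT.all2 (xchk xE) g12531 x12531) = true := by decide +kernel
noncomputable def rx12537 : iz (BT.all2 (xchk xE) g12537 x12537) = true := by decide +kernel
noncomputable def rx12543 : iz (BT.all2 (xchk xE) g12543 x12543) = true := by decide +kernel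
noncomputable def rx12552 : iz (BT.all2 (xchk xE) g12552 x12552) = true := by decide +kernel
noncomputable def rx12556 : iz (BT.all2 (xchk xE) g12556 x12556) = true := by decide +kernel
noncomputable def rx12561 : iz (BT.all2 (xchk xE) g12561 x12561) = true := by decide +kernel
noncomputable def rx12570 : iz (BT.all2 (xchk xE) g12570 x12570) = true := by decide +kernel
noncomputable def rx12580 : iz (BT.all2 (xchk xE) g12580 x12580) = true := by decide +kernel
noncomputable def rx12586 : iz (BT.all2 (xchk xE) g12586 x12586) = true := by decide +kernel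
noncomputable def rx12599 : iz (BT.all2 (xchk xE) g12599 x12599) = true := by decide +kernel
noncomputable def rx12605 : iz (BT.all2 (xchk xE) g12605 x12605) = true := by decide +kernel
noncomputable def rx12613 : iz (BT.all2 (xchk xE) g12613 x12613) = true := by decide +kernel
noncomputable def rx12619 : iz (BT.all2 (xchk xE) g12619 x12619) = true := by decide +kernel
noncomputable def rx12629 : iz (BT.all2 (xchk xE) g12629 x12629) = true := by decide +kernel
noncomputable def rx12638 : iz (BT.all2 (xchk xE) g12638 x12638) = true := by decide +kernel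
noncomputable def rx12647 : iz (BT.all2 (xchk xE) g12647 x12647) = true := by decide +kernel
noncomputable def rx12654 : iz (BT.all2 (xchk xE) g12654 x12654) = true := by decide +kernel
noncomputable def rx12660 : iz (BT.all2 (xchk xE) g12660 x12660) = true := by decide +kernel
noncomputable def rx12669 : iz (BT.all2 (xchk xE) g12669 x12669) = true := by decide +kernel
noncomputable def rx12678 : iz (BT.all2 (xchk xE) g12678 x12678) = true := by decide +kernel
noncomputable def rx12687 : iz (BT.all2 (xchk xE) g12687 x12687) = true := by decide +kernel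
noncomputable def rx12693 : iz (BT.all2 (xchk xE) g12693 x12693) = true := by decide +kernel
noncomputable def rx12699 : iz (BT.all2 (xchk xE) g12699 x12699) = true := by decide +kernel
noncomputable def rx12708 : iz (BT.all2 (xchk xE) g12708 x12708) = true := by decide +kernel
noncomputable def rx12716 : iz (BT.all2 (xchk xE) g12716 x12716) = true := by decide +kernel
noncomputable def rx12726 : iz (BT.all2 (xchk xE) g12726 x12726) = true := by decide +kernel
noncomputable def rx12732 : iz (BT.all2 (xchk xE) g12732 x12732) = true := by decide +kernel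
noncomputable def rx12738 : iz (BT.all2 (xchk xE) g12738 x12738) = true := by decide +kernel
noncomputable def rx12747 : iz (BT.all2 (xchk xE) g12747 x12747) = true := by decide +kernel
noncomputable def rx12750 : iz (BT.all2 (xchk xE) g12750 x12750) = true := by decide +kernel
noncomputable def rx12754 : iz (BT.all2 (xchk xE) g12754 x12754) = true := by decide +kernel
noncomputable def rx12759 : iz (BT.all2 (xchk xE) g12759 x12759) = true := by decide +kernel
noncomputable def rx12768 : iz (BT.all2 (xchk xE) g12768 x12768) = true := by decide +kernel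
noncomputable def rx12777 : iz (BT.all2 (xchk xE) g12777 x12777) = true := by decide +kernel
noncomputable def rx12783 : iz (BT.all2 (xchk xE) g12783 x12783) = true := by decide +kernel
noncomputable def rx12792 : iz (BT.all2 (xchk xE) g12792 x12792) = true := by decide +kernel
noncomputable def rx12802 : iz (BT.all2 (xchk xE) g12802 x12802) = true := by decide +kernel
noncomputable def rx12810 : iz (BT.all2 (xchk xE) g12810 x12810) = true := by decide +kernel
noncomputable def rx12817 : iz (BT.all2 (xchk xE) g12817 x12817) = true := by decide +kernel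
noncomputable def rx12825 : iz (BT.all2 (xchk xE) g12825 x12825) = true := by decide +kernel
noncomputable def rx12833 : iz (BT.all2 (xchk xE) g12833 x12833) = true := by decide +kernel
noncomputable def rx12838 : iz (BT.all2 (xchk xE) g12838 x12838) = true := by decide +kernel
noncomputable def rx12843 : iz (BT.all2 (xchk xE) g12843 x12843) = true := by decide +kernel
noncomputable def rx12849 : iz (BT.all2 (xchk xE) g12849 x12849) = true := by decide +kernel
noncomputable def rx12851 : iz (BT.all2 (xchk xE) g12851 x12851) = true := by decide +kernel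
noncomputable def rx12863 : iz (BT.all2 (xchk xE) g12863 x12863) = true := by decide +kernel
noncomputable def rx12870 : iz (BT.all2 (xchk xE) g12870 x12870) = true := by decide +kernel
noncomputable def rx12877 : iz (BT.all2 (xchk xE) g12877 x12877) = true := by decide +kernel
noncomputable def rx12881 : iz (BT.all2 (xchk xE) g12881 x12881) = true := by decide +kernel
noncomputable def rx12890 : iz (BT.all2 (xchk xE) g12890 x12890) = true := by decide +kernel
noncomputable def rx12902 : iz (BT.all2 (xchk xE) g12902 x12902) = true := by decide +kernel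
noncomputable def rx12912 : iz (BT.all2 (xchk xE) g12912 x12912) = true := by decide +kernel
noncomputable def rx12922 : iz (BT.all2 (xchk xE) g12922 x12922) = true := by decide +kernel
noncomputable def rx12932 : iz (BT.all2 (xchk xE) g12932 x12932) = true := by decide +kernel
noncomputable def rx12935 : iz (BT.all2 (xchk xE) g12935 x12935) = true := by decide +kernel
noncomputable def rx12938 : iz (BT.all2 (xchk xE) g12938 x12938) = true := by decide +kernel
noncomputable def rx12950 : iz (BT.all2 (xchk xE) g12950 x12950) = true := by decide +kernel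
noncomputable def rx12955 : iz (BT.all2 (xchk xE) g12955 x12955) = true := by decide +kernel
noncomputable def rx12967 : iz (BT.all2 (xchk xE) g12967 x12967) = true := by decide +kernel
noncomputable def rx12979 : iz (BT.all2 (xchk xE) g12979 x12979) = true := by decide +kernel
noncomputable def rx12989 : iz (BT.all2 (xchk xE) g12989 x12989) = true := by decide +kernel
noncomputable def rx13002 : iz (BT.all2 (xchk xE) g13002 x13002) = true := by decide +kernel
noncomputable def rx13012 : iz (BT.all2 (xchk xE) g13012 x13012) = true := by decide +kernel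
noncomputable def rx13021 : iz (BT.all2 (xchk xE) g13021 x13021) = true := by decide +kernel
noncomputable def rx13029 : iz (BT.all2 (xchk xE) g13029 x13029) = true := by decide +kernel
noncomputable def rx13035 : iz (BT.all2 (xchk xE) g13035 x13035) = true := by decide +kernel
noncomputable def rx13044 : iz (BT.all2 (xchk xE) g13044 x13044) = true := by decide +kernel
noncomputable def rx13050 : iz (BT.all2 (xchk xE) g13050 x13050) = true := by decide +kernel
noncomputable def rx13063 : iz (BT.all2 (xchk xE) g13063 x13063) = true := by decide +kernel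
noncomputable def rx13070 : iz (BT.all2 (xchk xE) g13070 x13070) = true := by decide +kernel
noncomputable def rx13076 : iz (BT.all2 (xchk xE) g13076 x13076) = true := by decide +kernel
noncomputable def rx13088 : iz (BT.all2 (xchk xE) g13088 x13088) = true := by decide +kernel
noncomputable def rx13094 : iz (BT.all2 (xchk xE) g13094 x13094) = true := by decide +kernel
noncomputable def rx13105 : iz (BT.all2 (xchk xE) g13105 x13105) = true := by decide +kernel
noncomputable def rx13111 : iz (BT.all2 (xchk xE) g13111 x13111) = true := by decide +kernel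
noncomputable def rx13119 : iz (BT.all2 (xchk xE) g13119 x13119) = true := by decide +kernel
noncomputable def rx13128 : iz (BT.all2 (xchk xE) g13128 x13128) = true := by decide +kernel
noncomputable def rx13137 : iz (BT.all2 (xchk xE) g13137 x13137) = true := by decide +kernel
noncomputable def rx13142 : iz (BT.all2 (xchk xE) g13142 x13142) = true := by decide +kernel
noncomputable def rx13148 : iz (BT.all2 (xchk xE) g13148 x13148) = true := by decide +kernel
noncomputable def rx13153 : iz (BT.all2 (xchk xE) g13153 x13153) = true := by decide +kernel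
noncomputable def rx13162 : iz (BT.all2 (xchk xE) g13162 x13162) = true := by decide +kernel
noncomputable def rx13175 : iz (BT.all2 (xchk xE) g13175 x13175) = true := by decide +kernel
noncomputable def rx13184 : iz (BT.all2 (xchk xE) g13184 x13184) = true := by decide +kernel
noncomputable def rx13193 : iz (BT.all2 (xchk xE) g13193 x13193) = true := by decide +kernel
noncomputable def rx13195 : iz (BT.all2 (xchk xE) g13195 x13195) = true := by decide +kernel
noncomputable def rx13201 : iz (BT.all2 (xchk xE) g13201 x13201) = true := by decide +kernel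
noncomputable def rx13209 : iz (BT.all2 (xchk xE) g13209 x13209) = true := by decide +kernel
noncomputable def rx13216 : iz (BT.all2 (xchk xE) g13216 x13216) = true := by decide +kernel
noncomputable def rx13223 : iz (BT.all2 (xchk xE) g13223 x13223) = true := by decide +kernel
noncomputable def rx13229 : iz (BT.all2 (xchk xE) g13229 x13229) = true := by decide +kernel
noncomputable def rx13236 : iz (BT.all2 (xchk xE) g13236 x13236) = true := by decide +kernel
noncomputable def rx13249 : iz (BT.all2 (xchk xE) g13249 x13249) = true := by decide +kernel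
noncomputable def rx13256 : iz (BT.all2 (xchk xE) g13256 x13256) = true := by decide +kernel
noncomputable def rx13264 : iz (BT.all2 (xchk xE) g13264 x13264) = true := by decide +kernel
noncomputable def rX8 : OK2 (xchk xE) tG8 tX8 := (ok2_nd (nat_lit 12543) (ok2_nd (nat_lit 12184) (ok2_nd (nat_lit 12022) (ok2_nd (nat_lit 11923) (ok2_nd (nat_lit 11873) (ok2_nd (nat_lit 11860) (ok2_nd (nat_lit 11855) (ok2_of rx11845) (ok2_of rx11855)) (ok2_nd (nat_lit 11861) (ok2_of rx11860) (ok2_nd (nat_lit 11867) (ok2_of rx11861) (ok2_of rx11867)))) (ok2_nd (nat_lit 11897) (ok2_nd (nat_lit 11878) (ok2_of rx11873) (ok2_nd (nat_lit 11886) (ok2_of rx11878) (ok2_of rx11886))) (ok2_nd (nat_lit 11903) (ok2_of rx11897) (ok2_nd (nat_lit 11914) (ok2_of rx11903) (ok2_of rx11914))))) (ok2_nd (nat_lit 11983) (ok2_nd (nat_lit 11950) (ok2_nd (nat_lit 11931) (ok2_of rx11923) (ok2_nd (nat_lit 11940) (ok2_of rx11931) (ok2_of rx11940))) (ok2_nd (nat_lit 11963) (ok2_of rx11950) (ok2_nd (nat_lit 11973) (ok2_of rx11963) (ok2_of rx11973)))) (ok2_nd (nat_lit 12004) (ok2_nd (nat_lit 11989) (ok2_of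 rx11983) (ok2_nd (nat_lit 11999) (ok2_of rx11989) (ok2_of rx11999))) (ok2_nd (nat_lit 12010) (ok2_of rx12004) (ok2_nd (nat_lit 12013) (ok2_of rx12010) (ok2_of rx12013)))))) (ok2_nd (nat_lit 12099) (ok2_nd (nat_lit 12055) (ok2_nd (nat_lit 12035) (ok2_nd (nat_lit 12029) (ok2_of rx12022) (ok2_of rx12029)) (ok2_nd (nat_lit 12043) (ok2_of rx12035) (ok2_nd (nat_lit 12050) (ok2_of rx12043) (ok2_of rx12050)))) (ok2_nd (nat_lit 12079) (ok2_nd (nat_lit 12067) (ok2_of rx12055) (ok2_nd (nat_lit 12073) (ok2_of rx12067) (ok2_of rx12073))) (ok2_nd (nat_lit 12086) (ok2_of rx12079) (ok2_nd (nat_lit 12096) (ok2_of rx12086) (ok2_of rx12096))))) (ok2_nd (nat_lit 12138) (ok2_nd (nat_lit 12118) (ok2_nd (nat_lit 12107) (ok2_of rx12099) (ok2_nd (nat_lit 12116) (ok2_of rx12107) (ok2_of rx12116))) (ok2_nd (nat_lit 12126) (ok2_of rx12118) (ok2_nd (nat_lit 12132) (ok2_of rx12126) (ok2_of rx12132)))) (ok2_nd (nat_lit 12164) (ok2_nd (nat_lit 12146) (ok2_of rx12138) (ok2_nd (nat_lit 12157) (ok2_of rx12146) (ok2_of rx12157))) (ok2_nd (nat_lit 12170) (ok2_of rx12164) (ok2_nd (nat_lit 12178)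 (ok2_of rx12170) (ok2_of rx12178))))))) (ok2_nd (nat_lit 12357) (ok2_nd (nat_lit 12264) (ok2_nd (nat_lit 12224) (ok2_nd (nat_lit 12201) (ok2_nd (nat_lit 12190) (ok2_of rx12184) (ok2_of rx12190)) (ok2_nd (nat_lit 12210) (ok2_of rx12201) (ok2_nd (nat_lit 12216) (ok2_of rx12210) (ok2_of rx12216)))) (ok2_nd (nat_lit 12249) (ok2_nd (nat_lit 12232) (ok2_of rx12224) (ok2_nd (nat_lit 12239) (ok2_of rx12232) (ok2_of rx12239))) (ok2_nd (nat_lit 12254) (ok2_of rx12249) (ok2_nd (nat_lit 12260) (ok2_of rx12254) (ok2_of rx12260))))) (ok2_nd (nat_lit 12308) (ok2_nd (nat_lit 12279) (ok2_nd (nat_lit 12265) (ok2_of rx12264) (ok2_nd (nat_lit 12269) (ok2_of rx12265) (ok2_of rx12269))) (ok2_nd (nat_lit 12291) (ok2_of rx12279) (ok2_nd (nat_lit 12295) (ok2_of rx12291) (ok2_of rx12295)))) (ok2_nd (nat_lit 12332) (ok2_nd (nat_lit 12313) (ok2_of rx12308) (ok2_nd (nat_lit 12322) (ok2_of rx12313) (ok2_of rx12322))) (ok2_nd (nat_lit 12338) (ok2_of rx12332) (ok2_nd (nat_lit 12347) (ok2_of rx12338) (ok2_of rx12347)))))) (ok2_nd (nat_lit 12449) (ok2_nd (nat_lit 12402) (ok2_nd (nat_lit 12378)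 (ok2_nd (nat_lit 12366) (ok2_of rx12357) (ok2_of rx12366)) (ok2_nd (nat_lit 12386) (ok2_of rx12378) (ok2_nd (nat_lit 12396) (ok2_of rx12386) (ok2_of rx12396)))) (ok2_nd (nat_lit 12425) (ok2_nd (nat_lit 12412) (ok2_of rx12402) (ok2_nd (nat_lit 12419) (ok2_of rx12412) (ok2_of rx12419))) (ok2_nd (nat_lit 12438) (ok2_of rx12425) (ok2_nd (nat_lit 12441) (ok2_of rx12438) (ok2_of rx12441))))) (ok2_nd (nat_lit 12504) (ok2_nd (nat_lit 12474) (ok2_nd (nat_lit 12461) (ok2_of rx12449) (ok2_nd (nat_lit 12467) (ok2_of rx12461) (ok2_of rx12467))) (ok2_nd (nat_lit 12485) (ok2_of rx12474) (ok2_nd (nat_lit 12495) (ok2_of rx12485) (ok2_of rx12495)))) (ok2_nd (nat_lit 12525) (ok2_nd (nat_lit 12513) (ok2_of rx12504) (ok2_nd (nat_lit 12520) (ok2_of rx12513) (ok2_of rx12520))) (ok2_nd (nat_lit 12531) (ok2_of rx12525) (ok2_nd (nat_lit 12537) (ok2_of rx12531) (ok2_of rx12537)))))))) (ok2_nd (nat_lit 12881) (ok2_nd (nat_lit 12726) (ok2_nd (nat_lit 12629) (ok2_nd (nat_lit 12580) (ok2_nd (nat_lit 12556) (ok2_nd (nat_lit 12552) (ok2_of rx12543) (ok2_of rx12552)) (ok2_nd (nat_lit 12561)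 (ok2_of rx12556) (ok2_nd (nat_lit 12570) (ok2_of rx12561) (ok2_of rx12570)))) (ok2_nd (nat_lit 12605) (ok2_nd (nat_lit 12586) (ok2_of rx12580) (ok2_nd (nat_lit 12599) (ok2_of rx12586) (ok2_of rx12599))) (ok2_nd (nat_lit 12613) (ok2_of rx12605) (ok2_nd (nat_lit 12619) (ok2_of rx12613) (ok2_of rx12619))))) (ok2_nd (nat_lit 12678) (ok2_nd (nat_lit 12654) (ok2_nd (nat_lit 12638) (ok2_of rx12629) (ok2_nd (nat_lit 12647) (ok2_of rx12638) (ok2_of rx12647))) (ok2_nd (nat_lit 12660) (ok2_of rx12654) (ok2_nd (nat_lit 12669) (ok2_of rx12660) (ok2_of rx12669)))) (ok2_nd (nat_lit 12699) (ok2_nd (nat_lit 12687) (ok2_of rx12678) (ok2_nd (nat_lit 12693) (ok2_of rx12687) (ok2_of rx12693))) (ok2_nd (nat_lit 12708) (ok2_of rx12699) (ok2_nd (nat_lit 12716) (ok2_of rx12708) (ok2_of rx12716)))))) (ok2_nd (nat_lit 12802) (ok2_nd (nat_lit 12754) (ok2_nd (nat_lit 12738) (ok2_nd (nat_lit 12732) (ok2_of rx12726) (ok2_of rx12732)) (ok2_nd (nat_lit 12747) (ok2_of rx12738) (ok2_nd (nat_lit 12750) (ok2_of rx12747) (ok2_of rx12750)))) (ok2_nd (nat_lit 12777) (ok2_nd (nat_lit 12759) (ok2_of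 rx12754) (ok2_nd (nat_lit 12768) (ok2_of rx12759) (ok2_of rx12768))) (ok2_nd (nat_lit 12783) (ok2_of rx12777) (ok2_nd (nat_lit 12792) (ok2_of rx12783) (ok2_of rx12792))))) (ok2_nd (nat_lit 12843) (ok2_nd (nat_lit 12825) (ok2_nd (nat_lit 12810) (ok2_of rx12802) (ok2_nd (nat_lit 12817) (ok2_of rx12810) (ok2_of rx12817))) (ok2_nd (nat_lit 12833) (ok2_of rx12825) (ok2_nd (nat_lit 12838) (ok2_of rx12833) (ok2_of rx12838)))) (ok2_nd (nat_lit 12863) (ok2_nd (nat_lit 12849) (ok2_of rx12843) (ok2_nd (nat_lit 12851) (ok2_of rx12849) (ok2_of rx12851))) (ok2_nd (nat_lit 12870) (ok2_of rx12863) (ok2_nd (nat_lit 12877) (ok2_of rx12870) (ok2_of rx12877))))))) (ok2_nd (nat_lit 13088) (ok2_nd (nat_lit 12979) (ok2_nd (nat_lit 12932) (ok2_nd (nat_lit 12902) (ok2_nd (nat_lit 12890) (ok2_of rx12881) (ok2_of rx12890)) (ok2_nd (nat_lit 12912) (ok2_of rx12902) (ok2_nd (nat_lit 12922) (ok2_of rx12912) (ok2_of rx12922)))) (ok2_nd (nat_lit 12950) (ok2_nd (nat_lit 12935) (ok2_of rx12932) (ok2_nd (nat_lit 12938) (ok2_of rx12935) (ok2_of rx12938))) (ok2_nd (nat_lit 12955) (ok2_of rx12950)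 (ok2_nd (nat_lit 12967) (ok2_of rx12955) (ok2_of rx12967))))) (ok2_nd (nat_lit 13035) (ok2_nd (nat_lit 13012) (ok2_nd (nat_lit 12989) (ok2_of rx12979) (ok2_nd (nat_lit 13002) (ok2_of rx12989) (ok2_of rx13002))) (ok2_nd (nat_lit 13021) (ok2_of rx13012) (ok2_nd (nat_lit 13029) (ok2_of rx13021) (ok2_of rx13029)))) (ok2_nd (nat_lit 13063) (ok2_nd (nat_lit 13044) (ok2_of rx13035) (ok2_nd (nat_lit 13050) (ok2_of rx13044) (ok2_of rx13050))) (ok2_nd (nat_lit 13070) (ok2_of rx13063) (ok2_nd (nat_lit 13076) (ok2_of rx13070) (ok2_of rx13076)))))) (ok2_nd (nat_lit 13184) (ok2_nd (nat_lit 13137) (ok2_nd (nat_lit 13111) (ok2_nd (nat_lit 13094) (ok2_of rx13088) (ok2_nd (nat_lit 13105) (ok2_of rx13094) (ok2_of rx13105))) (ok2_nd (nat_lit 13119) (ok2_of rx13111) (ok2_nd (nat_lit 13128) (ok2_of rx13119) (ok2_of rx13128)))) (ok2_nd (nat_lit 13153) (ok2_nd (nat_lit 13142) (ok2_of rx13137) (ok2_nd (nat_lit 13148) (ok2_of rx13142) (ok2_of rx13148))) (ok2_nd (nat_lit 13162) (ok2_of rx13153) (ok2_nd (nat_lit 13175) (ok2_of rx13162) (ok2_of rx13175))))) (ok2_nd (nat_lit 13223) (ok2_nd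 (nat_lit 13201) (ok2_nd (nat_lit 13193) (ok2_of rx13184) (ok2_nd (nat_lit 13195) (ok2_of rx13193) (ok2_of rx13195))) (ok2_nd (nat_lit 13209) (ok2_of rx13201) (ok2_nd (nat_lit 13216) (ok2_of rx13209) (ok2_of rx13216)))) (ok2_nd (nat_lit 13249) (ok2_nd (nat_lit 13229) (ok2_of rx13223) (ok2_nd (nat_lit 13236) (ok2_of rx13229) (ok2_of rx13236))) (ok2_nd (nat_lit 13256) (ok2_of rx13249) (ok2_nd (nat_lit 13264) (ok2_of rx13256) (ok2_of rx13264)))))))))

end Pool.Agent.MP_797bdc_co.Lk.Da
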