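import Pool.Agent.MP_797bdc_co.Lk.DG
import Pool.Agent.MP_797bdc_co.Lk.DX
import Pool.Agent.MP_797bdc_co.Lk.RX0
import Pool.Agent.MP_797bdc_co.Lk.RX1
import Pool.Agent.MP_797bdc_co.Lk.RX2
import Pool.Agent.MP_797bdc_co.Lk.RX3
import Pool.Agent.MP_797bdc_co.Lk.RX4
import Pool.Agent.MP_797bdc_co.Lk.RX5
import Pool.Agent.MP_797bdc_co.Lk.RX6
import Pool.Agent.MP_797bdc_co.Lk.RX7
import Pool.Agent.MP_797bdc_co.Lk.RX8
import Pool.Agent.MP_797bdc_co.Lk.RX9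
import Pool.Agent.MP_797bdc_co.Lk.RX10
import Pool.Agent.MP_797bdc_co.Lk.RX11
import Pool.Agent.MP_797bdc_co.Lk.RX12
import Pool.Agent.MP_797bdc_co.Lk.RX13
import Pool.Agent.MP_797bdc_co.Lk.RX14
import Pool.Agent.MP_797bdc_co.Lk.RX15

/-! Run of checker X. -/

set_option maxRecDepth 100000
set_option linter.defProp false

namespace Pool.Agent.MP_797bdc_co.Lk.Da

theorem rXpre : iz (xpre xE SG) = true := by decide +kernel
theorem rX : OK2 (xchk xE) tG tX := (ok2_nd (nat_lit 11845) (ok2_nd (nat_lit 5934) (ok2_nd (nat_lit 2973) (ok2_nd (nat_lit 1497) rX0 rX1) (ok2_nd (nat_lit 4463) rX2 rX3)) (ok2_nd (nat_lit 8858) (ok2_nd (nat_lit 7402) rX4 rX5) (ok2_nd (nat_lit 10348) rX6 rX7))) (ok2_nd (nat_lit 17042) (ok2_nd (nat_lit 14590) (ok2_nd (nat_lit 13273) rX8 rX9) (ok2_nd (nat_lit 15834) rX10 rX11)) (ok2_nd (nat_lit 19407) (ok2_nd (nat_lit 18228) rX12 rX13) (ok2_nd (nat_lit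 20587) rX14 rX15))))

end Pool.Agent.MP_797bdc_co.Lk.Da
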