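import Pool.Agent.MP_797bdc_co.Lk.Top
import Pool.Agent.MP_797bdc_co.Lk.AFin
import Pool.Agent.MP_797bdc_co.Lk.RH
import Pool.Agent.MP_797bdc_co.Lk.RX
import Pool.Agent.MP_797bdc_co.Lk.RD
import Pool.Agent.MP_797bdc_co.Lk.P.PFin

/-! The main statement for the instance. -/

namespace Pool.Agent.MP_797bdc_co.Lk

theorem main : MAIN_s :=
  have hd : DimP Da.n := dim Da.n
  have pa := Da.partA hd
  top (E := Da.xE) (by decide) (by decide) hd pa Da.rXpre Da.rX
    (P.pfin zbA hd pa.sym pa.base pa.ok pa.lab) (by decide +kernel) Da.rD H.c1 (by decide)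
    (le_refl _) H.c2 H.c3

end Pool.Agent.MP_797bdc_co.Lk
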