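import Pool.Agent.MP_797bdc_co.Lk.Stm

namespace Pool.Agent.MP_797bdc_co.Lk

open Finset

namespace GEN

theorem ev_sd {β : Type} [DecidableEq β] (A B : Finset β) (p : β → Prop) [DecidablePred p] :
    Even (((symmDiff A B).filter p).card + (A.filter p).card + (B.filter p).card) := by
  have e : (symmDiff A B).filter p = (A.filter p \ B.filter p) ∪ (B.filter p \ A.filter p) := by
    ext x; simp only [mem_filter, mem_symmDiff, mem_union, mem_sdiff]; tauto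
  have h1 := card_sdiff_add_card_inter (A.filter p) (B.filter p)
  have h2 := card_sdiff_add_card_inter (B.filter p) (A.filter p)
  rw [inter_comm] at h2
  rw [e, card_union_of_disjoint disjoint_sdiff_sdiff, Nat.even_iff]
  omega

variable {α : Type} [DecidableEq α] {S : Sys α} {G : Finset α} {B : Finset α → Prop} {k : ℕ}
  {γ : ℕ → Finset α} {cls : ℕ → Prop} {Wall : Set (Finset α)}

theorem top (h : Ears S G B k γ cls Wall) {J : Finset ℕ} {i : ℕ} (hi : i ∈ J) (hk : i < k)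
    (hJ : ∀ l ∈ J, l ≤ i) (ev : ∀ t, t ∉ G → Even (J.filter (t ∈ γ ·)).card) : cls i := by
  by_contra c
  obtain ⟨s, h1, h2, h3⟩ := h.tree i hk c
  have e : J.filter (s ∈ γ ·) = {i} := by
    ext l
    rw [mem_filter, mem_singleton]
    refine ⟨fun hl => ?_, fun hl => hl ▸ ⟨hi, h1⟩⟩
    by_contra c1
    exact h3 l (lt_of_le_of_ne (hJ l hl.1) c1) hl.2
  have := ev s h2
  rw [e, card_singleton] at this
  exact Nat.not_even_one this

theorem fill (h : Ears S G B k γ cls Wall) : ∀ j ≤ k, ∀ J : Finset ℕ, (∀ l ∈ J, l < j) →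
    (∀ t, t ∉ G → Even (J.filter (t ∈ γ ·)).card) → ∃ w : Finset (Finset α), (∀ τ ∈ w, τ ∈ Wall) ∧
      ∀ f ∈ G, Even ((J.filter (f ∈ γ ·)).card + (w.filter (f ∈ ·)).card)
  | 0, _, J, hJ, _ => ⟨∅, by simp, fun f _ => by
      rw [eq_empty_of_forall_notMem fun l hl => absurd (hJ l hl) (Nat.not_lt_zero l)]; simp⟩
  | j + 1, hj, J, hJ, ev => by
    by_cases c : j ∈ J
    · obtain ⟨C, w, a1, a2, a3, a4, a5⟩ :=
        h.close j hj (top h c hj (fun l hl => Nat.lt_succ_iff.1 (hJ l hl)) ev)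
      obtain ⟨w', b1, b2⟩ := fill h j (by omega) (symmDiff J C) (fun l hl => by
        rw [mem_symmDiff] at hl
        have : l ≠ j := by rintro rfl; tauto
        rcases hl with hl | hl
        · have := hJ l hl.1; omega
        · have := a2 l hl.1; omega) (fun t ht => by
        have e1 := ev_sd J C (t ∈ γ ·)
        have e2 := ev t ht
        have e3 := a4 t ht
        rw [Nat.even_iff] at *
        omega)
      refine ⟨symmDiff w w', fun τ hτ => ?_, fun f hf => ?_⟩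
      · rcases mem_symmDiff.1 hτ with hτ | hτ
        exacts [a3 τ hτ.1, b1 τ hτ.1]
      · have e1 := ev_sd J C (f ∈ γ ·)
        have e2 := ev_sd w w' (f ∈ ·)
        have e3 := a5 f hf
        have e4 := b2 f hf
        rw [Nat.even_iff] at *
        omega
    · exact fill h j (by omega) J (fun l hl => by
        have := hJ l hl
        have : l ≠ j := by rintro rfl; exact c hl
        omega) ev

/-- the local cycle given by the bubble lemma -/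
theorem core (hb : BUB_s) (h : Ears S G B k γ cls Wall)
    (h3 : ∀ f ∈ G, ∀ q1 ∈ Wall, ∀ q2 ∈ Wall, ∀ q3 ∈ Wall, f ∈ q1 → f ∈ q2 → f ∈ q3 →
      q1 = q2 ∨ q1 = q3 ∨ q2 = q3)
    {X : Set α} (hX : FClosed S G X) {D : Finset (Finset α)} (hD : ∀ q ∈ D, Gate S G q ∧ B q)
    (ev : TEven G D) {q0 : Finset α} (h0 : q0 ∈ D) {m : α} (m0 : m ∈ q0) (mG : m ∈ G) (mX : m ∉ X)
    (uq : ∀ q ∈ D, ∀ f ∈ q, f ∈ G → f ∉ X → q = q0 ∧ f = m) :
    (∃ i < k, cls i ∧ γ i ∈ D) ∧ ∃ (w : Finset (Finset α)) (χ : α → ZMod 2),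
      (∀ τ ∈ w, τ ∈ Wall) ∧ (∃ a, χ a ≠ 0) ∧ (∀ q ∈ w, ∑ a ∈ q, χ a = 0) ∧
      ∀ a, χ a ≠ 0 → a ∈ G ∧ a ∉ X ∧ ∃ τ ∈ w, ∃ τ' ∈ w, τ ≠ τ' ∧ a ∈ τ ∧ a ∈ τ' := by
  set J := (range k).filter (γ · ∈ D) with hJ
  have mJ : ∀ l, l ∈ J ↔ l < k ∧ γ l ∈ D := fun l => by rw [hJ, mem_filter, mem_range]
  have cd : ∀ t, (J.filter (t ∈ γ ·)).card = (D.filter (t ∈ ·)).card := fun t => by
    refine card_bij (fun l _ => γ l) (fun l hl => ?_) (fun l hl l' hl' e => ?_) fun q hq => ?_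
    · rw [mem_filter] at hl ⊢; exact ⟨((mJ l).1 hl.1).2, hl.2⟩
    · exact h.inj l ((mJ l).1 (mem_filter.1 hl).1).1 l' ((mJ l').1 (mem_filter.1 hl').1).1 e
    · rw [mem_filter] at hq
      obtain ⟨i, hi, rfl⟩ := h.cov q (hD q hq.1).1 (hD q hq.1).2
      exact ⟨i, mem_filter.2 ⟨(mJ i).2 ⟨hi, hq.1⟩, hq.2⟩, rfl⟩
  have evJ : ∀ t, t ∉ G → Even (J.filter (t ∈ γ ·)).card := fun t ht => cd t ▸ ev t ht
  have ne : J.Nonempty := by
    obtain ⟨i, hi, e⟩ := h.cov q0 (hD q0 h0).1 (hD q0 h0).2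
    exact ⟨i, (mJ i).2 ⟨hi, e ▸ h0⟩⟩
  have tp := (mJ _).1 (J.max'_mem ne)
  refine ⟨⟨_, tp.1, top h (J.max'_mem ne) tp.1 (fun l hl => J.le_max' l hl) evJ, tp.2⟩, ?_⟩
  obtain ⟨w, w1, w2⟩ := fill h k le_rfl J (fun l hl => ((mJ l).1 hl).1) evJ
  have le2 : ∀ f ∈ G, (w.filter (f ∈ ·)).card ≤ 2 := fun f hf => by
    by_contra c
    obtain ⟨q1, q2, q3, a1, a2, a3, b1, b2, b3⟩ := two_lt_card_iff.1 (not_le.1 c)
    rw [mem_filter] at a1 a2 a3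
    have := h3 f hf q1 (w1 _ a1.1) q2 (w1 _ a2.1) q3 (w1 _ a3.1) a1.2 a2.2 a3.2
    tauto
  have dm : (w.filter (m ∈ ·)).card = 1 := by
    have e : D.filter (m ∈ ·) = {q0} := by
      ext q
      rw [mem_filter, mem_singleton]
      exact ⟨fun hq => (uq q hq.1 m hq.2 mG mX).1, fun hq => hq ▸ ⟨h0, m0⟩⟩
    have e1 := w2 m mG
    have := le2 m mG
    rw [cd, e, card_singleton, Nat.even_iff] at e1
    omega
  obtain ⟨χ, c1, c2, c3⟩ := hb α w {f | f ∈ G ∧ f ∉ X} (some m) (fun q hq a ha haM => by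
      have fq := h.wF q (w1 q hq)
      by_contra c
      exact haM.2 (hX q fq a ha fun b hb hba => by
        by_contra c1; exact c ⟨b, hb, hba, fq.2 hb, c1⟩))
    (fun f hf hne => by
      have e : D.filter (f ∈ ·) = ∅ := filter_eq_empty_iff.2 fun q hq hfq =>
        hne (congrArg some (uq q hq f hfq hf.1 hf.2).2.symm)
      have e1 := w2 f hf.1
      have := le2 f hf.1
      rw [cd, e, card_empty, Nat.even_iff] at e1
      omega)
    (fun f hf => by rw [← Option.some.inj hf, dm])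
    (by
      obtain ⟨q, hq⟩ := card_pos.1 (dm ▸ Nat.one_pos : 0 < (w.filter (m ∈ ·)).card)
      rw [mem_filter] at hq
      exact ⟨q, hq.1, m, hq.2, mG, mX⟩)
  refine ⟨w, χ, w1, c1, c3, fun a ha => ?_⟩
  obtain ⟨⟨a1, a2⟩, a3⟩ := c2 a ha
  obtain ⟨τ, τ', b1, b2, b3⟩ := one_lt_card_iff.1 (by omega : 1 < (w.filter (a ∈ ·)).card)
  rw [mem_filter] at b1 b2
  exact ⟨a1, a2, τ, b1.1, τ', b2.1, b3, b1.2, b2.2⟩

theorem peel {s : ℕ} {sm : ℕ → Finset α} {Reg : Set (Finset α)} {fk : Set α}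
    (hp : Peel s sm Reg fk) (ψ : α → ZMod 2) (P : Finset α → Prop) (h0 : ∀ f ∈ fk, ψ f = 0)
    (ev : ∀ i < s, P (sm i) → ∑ a ∈ sm i, ψ a = 0)
    (h2 : ∀ i < s, P (sm i) → ∀ f ∈ sm i, ψ f ≠ 0 → ∃ τ τ', τ ≠ τ' ∧ f ∈ τ ∧ f ∈ τ' ∧
      ((P τ ∧ ∃ l < s, τ = sm l) ∨ τ ∈ Reg) ∧ ((P τ' ∧ ∃ l < s, τ' = sm l) ∨ τ' ∈ Reg)) :
    ∀ i < s, P (sm i) → ∀ f ∈ sm i, ψ f = 0 := by
  intro i
  induction i using Nat.strong_induction_on with
  | _ i ih =>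
  intro hi hP f hf
  by_contra c
  have lat : ∀ g ∈ sm i, ψ g ≠ 0 → (∃ l < s, i < l ∧ g ∈ sm l) ∨ ∃ τ ∈ Reg, g ∈ τ := by
    intro g hg cg
    have key : ∀ τ, τ ≠ sm i → g ∈ τ → ((P τ ∧ ∃ l < s, τ = sm l) ∨ τ ∈ Reg) →
        (∃ l < s, i < l ∧ g ∈ sm l) ∨ ∃ τ ∈ Reg, g ∈ τ := by
      rintro τ a1 a2 (⟨a3, l, a4, rfl⟩ | a3)
      · rcases lt_trichotomy l i with c1 | c1 | c1
        · exact absurd (ih l c1 a4 a3 g a2) cg
        · exact absurd (congrArg sm c1) a1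
        · exact Or.inl ⟨l, a4, c1, a2⟩
      · exact Or.inr ⟨τ, a3, a2⟩
    obtain ⟨τ, τ', b1, b2, b3, b4, b5⟩ := h2 i hi hP g hg cg
    by_cases e : τ = sm i
    · exact key τ' (fun e' => b1 (e.trans e'.symm)) b3 b5
    · exact key τ e b2 b4
  have e := ev i hi hP
  rw [sum_eq_single_of_mem f hf fun g hg hne => by
    by_contra cg
    exact hne (hp i hi g hg f hf (fun hh => cg (h0 g hh)) (fun hh => c (h0 f hh)) (lat g hg cg)
      (lat f hf c))] at e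
  exact c e

end GEN

open GEN

theorem genf (hb : BUB_s) : GENF_s := by
  intro α _ S G noLoc B k γ cls s sm h hp h3 X hX D hD ev q0 h0 m m0 mG mX uq
  exfalso
  obtain ⟨-, w, χ, w1, ⟨a, ha⟩, c2, c3⟩ := core hb h (by
    rintro f - _ ⟨i, hi, rfl⟩ _ ⟨l, hl, rfl⟩ _ ⟨p, hp, rfl⟩ a1 a2 a3
    exact (h3 f i hi l hl p hp a1 a2 a3).imp (congrArg sm) (Or.imp (congrArg sm) (congrArg sm)))
    hX hD ev h0 m0 mG mX uq
  obtain ⟨-, -, τ, a1, -, -, -, a2, -⟩ := c3 a ha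
  obtain ⟨i, hi, rfl⟩ := w1 τ a1
  refine ha (peel hp χ (· ∈ w) (fun f hf => hf.elim) (fun l _ hl => c2 _ hl)
    (fun l _ _ f _ hf => ?_) i hi a1 a a2)
  obtain ⟨-, -, τ, b1, τ', b2, b3, b4, b5⟩ := c3 f hf
  exact ⟨τ, τ', b3, b4, b5, Or.inl ⟨b1, w1 τ b1⟩, Or.inl ⟨b2, w1 τ' b2⟩⟩

theorem genl (hb : BUB_s) : GENL_s := by
  intro α _ S G Sig u τ1 τ2 h1 h2 base noLoc B k γ cls s sm Reg I e κ fk hn h hp hS hI hκ ht
    X hX D hD ev q0 h0 m m0 mG mX uq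
  obtain ⟨⟨i0, i1, i2, i3⟩, w, χ, w1, ⟨a, ha⟩, c2, c3⟩ := core hb h (fun f hf q1 a1 q2 a2 q3 a3
      b1 b2 b3 => by
    by_cases c : f ∈ Sig
    · exact Or.inl (hS f c q1 q2 a1 a2 b1 b2)
    · exact base.degle f hf c q1 q2 q3 (h.wF _ a1) (h.wF _ a2) (h.wF _ a3) b1 b2 b3)
    hX hD ev h0 m0 mG mX uq
  refine ⟨hn q0 (hD q0 h0).1 (hD q0 h0).2, χ, fun q hq => ?_, fun b hb _ => ?_,
    ⟨a, (c3 a ha).1, ha⟩, fun φ hφ eφ => ?_⟩
  · by_cases c : q ∈ w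
    · exact c2 q c
    refine sum_eq_zero fun b hb => ?_
    by_contra cb
    obtain ⟨b1, -, τ, b2, τ', b3, b4, b5, b6⟩ := c3 b cb
    rcases base.degle b b1 (fun hs => b4 (hS b hs τ τ' (w1 _ b2) (w1 _ b3) b5 b6)) q τ τ' hq
      (h.wF _ (w1 _ b2)) (h.wF _ (w1 _ b3)) hb b5 b6 with rfl | rfl | c1
    exacts [c b2, c b3, b4 c1]
  · by_contra cb
    exact (c3 b cb).2.1 hb
  obtain ⟨t, t1, t2, t3, t4⟩ := ht i0 i1 i2
  have step : ∀ j ≤ e, ∃ ψ, Ev S.Q ψ ∧ ψ t = φ t ∧ (∀ l < j, ψ (fk l) = 0) ∧ ∀ f ∈ G, ψ f ≠ 0 →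
      ∃ τ τ', τ ≠ τ' ∧ f ∈ τ ∧ f ∈ τ' ∧ τ ∈ {τ | ∃ i < s, τ = sm i} ∪ Reg ∧
        τ' ∈ {τ | ∃ i < s, τ = sm i} ∪ Reg := by
    intro j
    induction j with
    | zero =>
      refine fun _ => ⟨φ, hφ, rfl, fun l hl => absurd hl (Nat.not_lt_zero l), fun f hf c => ?_⟩
      obtain ⟨-, -, τ, b2, τ', b3, b4, b5, b6⟩ := c3 f (eφ f hf ▸ c)
      exact ⟨τ, τ', b4, b5, b6, w1 _ b2, w1 _ b3⟩
    | succ j ih =>
      intro hj
      obtain ⟨ψ, p1, p2, p3, p4⟩ := ih (by omega)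
      by_cases c : ψ (fk j) = 0
      · refine ⟨ψ, p1, p2, fun l hl => ?_, p4⟩
        rcases Nat.lt_succ_iff_lt_or_eq.1 hl with hl | rfl
        exacts [p3 l hl, c]
      obtain ⟨k1, k2, k3, k4⟩ := hκ j hj
      refine ⟨fun x => ψ x + κ j x, fun q hq => by rw [sum_add_distrib, p1 q hq, k1 q hq, add_zero],
        by beta_reduce; rw [t3 j hj, add_zero, p2], fun l hl => ?_, fun f hf cf => ?_⟩
      · beta_reduce
        rcases Nat.lt_succ_iff_lt_or_eq.1 hl with hl | rfl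
        · rw [p3 l hl, k3 l hl, add_zero]
        · rw [k2]
          revert c
          generalize ψ (fk l) = x
          revert x; decide
      · by_cases c1 : ψ f = 0
        · obtain ⟨p, b1, p', b2, b3, b4, b5⟩ := k4 f hf fun c2 => cf (by
            beta_reduce; rw [c1, c2, add_zero])
          exact ⟨_, _, b3, b4, b5, Or.inl ⟨p, b1, rfl⟩, Or.inl ⟨p', b2, rfl⟩⟩
        · exact p4 f hf c1
  obtain ⟨ψ, p1, p2, p3, p4⟩ := step e le_rfl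
  have fq : ∀ i < s, FQ S G (sm i) := fun i hi => h.wF _ (Or.inl ⟨i, hi, rfl⟩)
  have z := peel hp ψ (fun _ => True) (by rintro f ⟨l, hl, rfl⟩; exact p3 l hl)
    (fun i hi _ => p1 _ (fq i hi).1) fun i hi _ f hf c => by
      obtain ⟨τ, τ', b1, b2, b3, b4, b5⟩ := p4 f ((fq i hi).2 hf) c
      exact ⟨τ, τ', b1, b2, b3, b4.imp (fun x => ⟨trivial, x⟩) id, b5.imp (fun x => ⟨trivial, x⟩) id⟩
  refine ⟨γ i0, i3, t, t1, t2, p2 ▸ t4 ψ p1 fun f hf hfI => ?_⟩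
  by_contra c
  obtain ⟨τ, τ', b1, b2, b3, b4, b5⟩ := p4 f hf c
  rcases b4 with ⟨i, hi, rfl⟩ | b4
  · exact c (z i hi trivial f b2)
  rcases b5 with ⟨i, hi, rfl⟩ | b5
  · exact c (z i hi trivial f b3)
  exact hfI (hI f τ b4 τ' b5 b1 b2 b3)

end Pool.Agent.MP_797bdc_co.Lk
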