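import Pool.Agent.MP_797bdc_co.Lk.Stm3
import Pool.Agent.MP_797bdc_co.Lk.GEN

namespace Pool.Agent.MP_797bdc_co.Lk

open Finset GEN

theorem genf2 (hb : BUB_s) : GENF2_s := by
  intro α _ S G noLoc B safe k γ cls s sm h hp h3 X hX D hD ev q0 h0 m m0 mG mX uq
  exfalso
  obtain ⟨-, w, χ, w1, ⟨a, ha⟩, c2, c3⟩ := core hb h (by
    rintro f - _ ⟨i, hi, rfl⟩ _ ⟨l, hl, rfl⟩ _ ⟨p, hp, rfl⟩ a1 a2 a3
    exact (h3 f i hi l hl p hp a1 a2 a3).imp (congrArg sm) (Or.imp (congrArg sm) (congrArg sm)))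
    hX hD ev h0 m0 mG mX uq
  obtain ⟨-, -, τ, a1, -, -, -, a2, -⟩ := c3 a ha
  obtain ⟨i, hi, rfl⟩ := w1 τ a1
  refine ha (peel hp χ (· ∈ w) (fun f hf => hf.elim) (fun l _ hl => c2 _ hl)
    (fun l _ _ f _ hf => ?_) i hi a1 a a2)
  obtain ⟨-, -, τ, b1, τ', b2, b3, b4, b5⟩ := c3 f hf
  exact ⟨τ, τ', b3, b4, b5, Or.inl ⟨b1, w1 τ b1⟩, Or.inl ⟨b2, w1 τ' b2⟩⟩

theorem genl3 (hb : BUB_s) : GENL3_s := by
  intro α _ S G Sig u τ1 τ2 h1 h2 base noLoc B safe k γ cls s sm Reg I e κ fk hn h hp hS hI hκ ht hsf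
    X hX D hD ev q0 h0 m m0 mG mX uq
  obtain ⟨⟨i0, i1, i2, i3⟩, w, χ, w1, ⟨a, ha⟩, c2, c3⟩ := core hb h (fun f hf q1 a1 q2 a2 q3 a3
      b1 b2 b3 => by
    by_cases c : f ∈ Sig
    · exact Or.inl (hS f c q1 q2 a1 a2 b1 b2)
    · exact base.degle f hf c q1 q2 q3 (h.wF _ a1) (h.wF _ a2) (h.wF _ a3) b1 b2 b3)
    hX hD ev h0 m0 mG mX uq
  refine ⟨hn q0 (hD q0 h0).1 (hD q0 h0).2, χ, fun q hq => ?_, fun b hb _ => ?_,
    ⟨a, (c3 a ha).1, ha⟩, fun φ hφ eφ => ?_⟩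
  · by_cases c : q ∈ w
    · exact c2 q c
    refine sum_eq_zero fun b hb => ?_
    by_contra cb
    obtain ⟨b1, -, τ, b2, τ', b3, b4, b5, b6⟩ := c3 b cb
    rcases base.degle b b1 (fun hs => b4 (hS b hs τ τ' (w1 _ b2) (w1 _ b3) b5 b6)) q τ τ' hq
      (h.wF _ (w1 _ b2)) (h.wF _ (w1 _ b3)) hb b5 b6 with rfl | rfl | c1
    exacts [c b2, c b3, b4 c1]
  · by_contra cb
    exact (c3 b cb).2.1 hb
  suffices key : ∀ t, (∀ l < e, κ l t = 0) →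
      (∀ ψ, Ev S.Q ψ → (∀ f ∈ G, f ∉ I → ψ f = 0) → ψ t = 0) → φ t = 0 by
    obtain ⟨t, t1, t2, t3, t4⟩ := ht i0 i1 i2
    exact ⟨⟨γ i0, i3, t, t1, t2, key t t3 t4⟩, fun t h' =>
      key t (hsf q0 (hD q0 h0).1 (hD q0 h0).2 t h').1 (hsf q0 (hD q0 h0).1 (hD q0 h0).2 t h').2⟩
  intro t t3 t4
  have step : ∀ j ≤ e, ∃ ψ, Ev S.Q ψ ∧ ψ t = φ t ∧ (∀ l < j, ψ (fk l) = 0) ∧ ∀ f ∈ G, ψ f ≠ 0 →
      ∃ τ τ', τ ≠ τ' ∧ f ∈ τ ∧ f ∈ τ' ∧ τ ∈ {τ | ∃ i < s, τ = sm i} ∪ Reg ∧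
        τ' ∈ {τ | ∃ i < s, τ = sm i} ∪ Reg := by
    intro j
    induction j with
    | zero =>
      refine fun _ => ⟨φ, hφ, rfl, fun l hl => absurd hl (Nat.not_lt_zero l), fun f hf c => ?_⟩
      obtain ⟨-, -, τ, b2, τ', b3, b4, b5, b6⟩ := c3 f (eφ f hf ▸ c)
      exact ⟨τ, τ', b4, b5, b6, w1 _ b2, w1 _ b3⟩
    | succ j ih =>
      intro hj
      obtain ⟨ψ, p1, p2, p3, p4⟩ := ih (by omega)
      by_cases c : ψ (fk j) = 0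
      · refine ⟨ψ, p1, p2, fun l hl => ?_, p4⟩
        rcases Nat.lt_succ_iff_lt_or_eq.1 hl with hl | rfl
        exacts [p3 l hl, c]
      obtain ⟨k1, k2, k3, k4⟩ := hκ j hj
      refine ⟨fun x => ψ x + κ j x, fun q hq => by rw [sum_add_distrib, p1 q hq, k1 q hq, add_zero],
        by beta_reduce; rw [t3 j hj, add_zero, p2], fun l hl => ?_, fun f hf cf => ?_⟩
      · beta_reduce
        rcases Nat.lt_succ_iff_lt_or_eq.1 hl with hl | rfl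
        · rw [p3 l hl, k3 l hl, add_zero]
        · rw [k2]
          revert c
          generalize ψ (fk l) = x
          revert x; decide
      · by_cases c1 : ψ f = 0
        · obtain ⟨p, b1, p', b2, b3, b4, b5⟩ := k4 f hf fun c2 => cf (by
            beta_reduce; rw [c1, c2, add_zero])
          exact ⟨p, p', b3, b4, b5, b1, b2⟩
        · exact p4 f hf c1
  obtain ⟨ψ, p1, p2, p3, p4⟩ := step e le_rfl
  have fq : ∀ i < s, FQ S G (sm i) := fun i hi => h.wF _ (Or.inl ⟨i, hi, rfl⟩)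
  have z := peel hp ψ (fun _ => True) (by rintro f ⟨l, hl, rfl⟩; exact p3 l hl)
    (fun i hi _ => p1 _ (fq i hi).1) fun i hi _ f hf c => by
      obtain ⟨τ, τ', b1, b2, b3, b4, b5⟩ := p4 f ((fq i hi).2 hf) c
      exact ⟨τ, τ', b1, b2, b3, b4.imp (fun x => ⟨trivial, x⟩) id, b5.imp (fun x => ⟨trivial, x⟩) id⟩
  refine p2 ▸ t4 ψ p1 fun f hf hfI => ?_
  by_contra c
  obtain ⟨τ, τ', b1, b2, b3, b4, b5⟩ := p4 f hf c
  rcases b4 with ⟨i, hi, rfl⟩ | b4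
  · exact c (z i hi trivial f b2)
  rcases b5 with ⟨i, hi, rfl⟩ | b5
  · exact c (z i hi trivial f b3)
  exact hfI (hI f τ b4 τ' b5 b1 b2 b3)

end Pool.Agent.MP_797bdc_co.Lk
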