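import Pool.Agent.MP_797bdc_co.Lk.BI

/-! Normal form of gates. -/

namespace Pool.Agent.MP_797bdc_co.Lk

open Finset

theorem gnf_mem {a b c d : ℕ} (hab : a ≠ b) (hac : a ≠ c) (had : a ≠ d) (hbc : b ≠ c)
    (hbd : b ≠ d) (hcd : c ≠ d) (t : Finset ℕ) :
    t ∈ qd a b c d ↔ t = {a, b, c} ∨ t = {a, b, d} ∨ t = {a, c, d} ∨ t = {b, c, d} := by
  constructor
  · intro h
    obtain ⟨h1, h2⟩ := mem_powersetCard.1 h
    have h4 : ({a, b, c, d} : Finset ℕ).card = 4 := by simp [*]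
    obtain ⟨x, hx, hxf⟩ := exists_mem_notMem_of_card_lt_card (show t.card < _ by rw [h4, h2]; omega)
    have h5 : t = ({a, b, c, d} : Finset ℕ).erase x :=
      eq_of_subset_of_card_le (subset_erase.2 ⟨h1, hxf⟩) (by rw [card_erase_of_mem hx, h4, h2])
    simp only [mem_insert, mem_singleton] at hx
    rcases hx with rfl | rfl | rfl | rfl
    · right; right; right; rw [h5]; ext y; simp only [mem_erase, mem_insert, mem_singleton]; omega
    · right; right; left; rw [h5]; ext y; simp only [mem_erase, mem_insert, mem_singleton]; omega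
    · right; left; rw [h5]; ext y; simp only [mem_erase, mem_insert, mem_singleton]; omega
    · left; rw [h5]; ext y; simp only [mem_erase, mem_insert, mem_singleton]; omega
  · rintro (rfl | rfl | rfl | rfl) <;>
      exact mem_powersetCard.2 ⟨fun y => by simp only [mem_insert, mem_singleton]; omega, by simp [*]⟩

theorem gnf_ne {n a c d : ℕ} (h : ({a, c, d} : Finset ℕ) ∈ Om n) : a ≠ c ∧ a ≠ d ∧ c ≠ d := by
  have h3 := (mem_powersetCard.1 h).2
  refine ⟨?_, ?_, ?_⟩ <;> rintro rfl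
  · rw [insert_eq_of_mem (mem_insert_self _ _)] at h3
    exact absurd (h3 ▸ card_le_two) (by omega)
  · rw [insert_eq_of_mem (by simp)] at h3
    exact absurd (h3 ▸ card_le_two) (by omega)
  · rw [pair_eq_singleton] at h3
    exact absurd (h3 ▸ card_le_two) (by omega)

theorem gnf_two {s : Finset ℕ} (h : s.card = 2) : ∃ a b, a < b ∧ s = {a, b} := by
  obtain ⟨a, b, hab, rfl⟩ := card_eq_two.1 h
  rcases lt_or_gt_of_ne hab with h | h
  exacts [⟨a, b, h, rfl⟩, ⟨b, a, h, pair_comm _ _⟩]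

theorem gnf_tri {a b c d a' b' c' d' : ℕ} (hab' : a' ≠ b') (p1 : a ≠ c) (p2 : a ≠ d)
    (p3 : b ≠ c) (p4 : b ≠ d) (hcd : c ≠ d)
    (h : ∀ y, y = a ∨ y = c ∨ y = d ↔ y = a' ∨ y = c' ∨ y = d')
    (h' : ∀ y, y = b ∨ y = c ∨ y = d ↔ y = b' ∨ y = c' ∨ y = d') :
    a = a' ∧ b = b' ∧ ((c = c' ∧ d = d') ∨ (c = d' ∧ d = c')) := by
  have k : ∀ {x y p q z : ℕ}, x ≠ y → (z = x ∨ z = p ∨ z = q) → (z = y ∨ z = p ∨ z = q) →
      z = p ∨ z = q := fun e s t => s.elim (fun s => t.resolve_left fun t => e (s.symm.trans t)) id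
  have c1 := k hab' ((h c).1 (.inr (.inl rfl))) ((h' c).1 (.inr (.inl rfl)))
  have c2 := k hab' ((h d).1 (.inr (.inr rfl))) ((h' d).1 (.inr (.inr rfl)))
  have c3 : (c = c' ∧ d = d') ∨ (c = d' ∧ d = c') := by
    rcases c1 with rfl | rfl <;> rcases c2 with rfl | rfl <;> simp at hcd ⊢
  refine ⟨((h a).1 (.inl rfl)).resolve_right ?_, ((h' b).1 (.inl rfl)).resolve_right ?_, c3⟩ <;>
    rcases c3 with ⟨rfl, rfl⟩ | ⟨rfl, rfl⟩ <;> simp [*]

theorem gnf : GNF_s := by
  intro n hd G hG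
  refine ⟨?_, fun a b c d => gnf_mem, ?_, ?_⟩
  · rintro q ⟨⟨s, hs, h4, rfl⟩, h2⟩
    have hP : (s.filter fun x => s.erase x ∈ G).card = 2 := by
      rw [← h2]
      refine card_bij (fun x _ => s.erase x) (fun x hx => ?_) (fun x hx y _ e => ?_) fun t ht => ?_
      · obtain ⟨h, h'⟩ := mem_filter.1 hx
        exact mem_inter.2 ⟨mem_powersetCard.2 ⟨erase_subset _ _, by rw [card_erase_of_mem h, h4]⟩, h'⟩
      · exact erase_injOn s (mem_filter.1 hx).1 (mem_filter.1 ‹_›).1 e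
      · obtain ⟨h, h'⟩ := mem_inter.1 ht
        obtain ⟨h1, h3⟩ := mem_powersetCard.1 h
        obtain ⟨x, hx, hxf⟩ := exists_mem_notMem_of_card_lt_card (show t.card < s.card by omega)
        have h5 : t = s.erase x :=
          eq_of_subset_of_card_le (subset_erase.2 ⟨h1, hxf⟩) (by rw [card_erase_of_mem hx, h4, h3])
        exact ⟨x, mem_filter.2 ⟨hx, h5 ▸ h'⟩, h5.symm⟩
    have hN : (s.filter fun x => ¬ s.erase x ∈ G).card = 2 := by
      have := card_filter_add_card_filter_not (s := s) fun x => s.erase x ∈ G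
      omega
    obtain ⟨a, b, hab, e1⟩ := gnf_two hP
    obtain ⟨c, d, hcd, e2⟩ := gnf_two hN
    have ha := mem_filter.1 (e1 ▸ mem_insert_self a {b} : a ∈ s.filter fun x => s.erase x ∈ G)
    have hb := mem_filter.1 (e1 ▸ (by simp : b ∈ ({a, b} : Finset ℕ)) :
      b ∈ s.filter fun x => s.erase x ∈ G)
    have hc := mem_filter.1 (e2 ▸ mem_insert_self c {d} : c ∈ s.filter fun x => ¬ s.erase x ∈ G)
    have hd' := mem_filter.1 (e2 ▸ (by simp : d ∈ ({c, d} : Finset ℕ)) :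
      d ∈ s.filter fun x => ¬ s.erase x ∈ G)
    have hac : a ≠ c := fun e => hc.2 (e ▸ ha.2)
    have had : a ≠ d := fun e => hd'.2 (e ▸ ha.2)
    have hbc : b ≠ c := fun e => hc.2 (e ▸ hb.2)
    have hbd : b ≠ d := fun e => hd'.2 (e ▸ hb.2)
    have es : s = {a, b, c, d} := by
      rw [← filter_union_filter_not_eq (fun x => s.erase x ∈ G) s, e1, e2]
      ext y; simp only [mem_union, mem_insert, mem_singleton, or_assoc]
    have ea : s.erase a = {b, c, d} := by
      rw [es]; ext y; simp only [mem_erase, mem_insert, mem_singleton]; omega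
    have eb : s.erase b = {a, c, d} := by
      rw [es]; ext y; simp only [mem_erase, mem_insert, mem_singleton]; omega
    have ec : s.erase c = {a, b, d} := by
      rw [es]; ext y; simp only [mem_erase, mem_insert, mem_singleton]; omega
    have ed : s.erase d = {a, b, c} := by
      rw [es]; ext y; simp only [mem_erase, mem_insert, mem_singleton]; omega
    exact ⟨a, mem_range.1 (hs ha.1), b, mem_range.1 (hs hb.1), c, mem_range.1 (hs hc.1), d,
      mem_range.1 (hs hd'.1), hab, hcd, hac, had, hbc, hbd, by rw [qd, ← es], eb ▸ hb.2, ea ▸ ha.2,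
      ed ▸ hd'.2, ec ▸ hc.2⟩
  · intro a b c d a' b' c' d' hab hab' hcd hcd' e g1 g2 _ _ g1' g2' n1 n2
    obtain ⟨p1, p2, -⟩ := gnf_ne (hG g1)
    obtain ⟨p3, p4, -⟩ := gnf_ne (hG g2)
    obtain ⟨r1, r2, -⟩ := gnf_ne (hG g1')
    obtain ⟨r3, r4, -⟩ := gnf_ne (hG g2')
    have k : ∀ x, x ≠ c → x ≠ d → ({x, c, d} : Finset ℕ) ∈ G → x = a ∨ x = b →
        (∀ y, y = x ∨ y = c ∨ y = d ↔ y = a' ∨ y = c' ∨ y = d') ∨
          ∀ y, y = x ∨ y = c ∨ y = d ↔ y = b' ∨ y = c' ∨ y = d' := fun x _ _ g hx => by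
      have m : ({x, c, d} : Finset ℕ) ∈ qd a' b' c' d' := by
        rw [← e, gnf_mem hab.ne p1 p2 p3 p4 hcd]
        rcases hx with rfl | rfl <;> simp
      rcases (gnf_mem hab'.ne r1 r2 r3 r4 hcd' _).1 m with h | h | h | h
      · exact absurd (h ▸ g) n1
      · exact absurd (h ▸ g) n2
      · exact .inl fun y => by simpa using Finset.ext_iff.1 h y
      · exact .inr fun y => by simpa using Finset.ext_iff.1 h y
    have z : ∀ x, (∀ y, y = a ∨ y = c ∨ y = d ↔ y = x ∨ y = c' ∨ y = d') →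
        (∀ y, y = b ∨ y = c ∨ y = d ↔ y = x ∨ y = c' ∨ y = d') → False := fun x h h' => by
      rcases (h' a).2 ((h a).1 (.inl rfl)) with t | t | t
      exacts [hab.ne t, p1 t, p2 t]
    rcases k a p1 p2 g1 (.inl rfl) with h | h <;> rcases k b p3 p4 g2 (.inr rfl) with h' | h'
    · exact (z _ h h').elim
    · exact gnf_tri hab'.ne p1 p2 p3 p4 hcd h h'
    · obtain ⟨rfl, rfl, -⟩ := gnf_tri hab'.ne' p1 p2 p3 p4 hcd h h'
      exact absurd hab hab'.not_gt
    · exact (z _ h h').elim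
  · intro a ha b hb c hc d hd' hab g1 g2 n1 n2
    obtain ⟨p1, p2, hcd⟩ := gnf_ne (hG g1)
    obtain ⟨p3, p4, -⟩ := gnf_ne (hG g2)
    refine ⟨⟨{a, b, c, d}, fun y => ?_, by simp [*], rfl⟩, ?_⟩
    · simp only [mem_insert, mem_singleton, mem_range]; omega
    · have : qd a b c d ∩ G = {{a, c, d}, {b, c, d}} := by
        ext t
        rw [mem_inter, gnf_mem hab p1 p2 p3 p4 hcd, mem_insert, mem_singleton]
        constructor
        · rintro ⟨rfl | rfl | h, g⟩
          exacts [absurd g n1, absurd g n2, h]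
        · rintro (rfl | rfl)
          exacts [⟨.inr (.inr (.inl rfl)), g1⟩, ⟨.inr (.inr (.inr rfl)), g2⟩]
      rw [this, card_pair]
      intro e
      simpa [hab, p1, p2] using Finset.ext_iff.1 e a

end Pool.Agent.MP_797bdc_co.Lk
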