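import Pool.Agent.MP_797bdc_co.Lk.Prim

/-! Checker H (hulls): definitions for kernel evaluation. -/

namespace Pool.Agent.MP_797bdc_co.Lk.H

open Nat (add mul sub land lor xor shiftRight shiftLeft ble beq)

noncomputable section

/-- evaluate `x`, then go on -/
def fn (x : Nat) (f : Nat → Nat) : Nat := Nat.rec (nat_lit 0) (fun k _ => f k) (add x (nat_lit 1))
def z0 (x : Nat) : Bool := beq x (nat_lit 0)
def df (x y : Nat) : Nat := xor x (land x y)
def sb (x y : Nat) : Bool := beq (land x y) x
def orl (k : Nat) (g : Nat → Nat) : Nat := Nat.rec (nat_lit 0) (fun i r => lor (g i) r) k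
def sml (k : Nat) (g : Nat → Nat) : Nat := Nat.rec (nat_lit 0) (fun i r => add (g i) r) k
/-- the exponent of a power of two below `2 ^ 512` -/
def lg (x : Nat) : Nat := land (shiftRight (nat_lit 0x1054182441d36095854214d4dc09098f5618554249f538cb4e0a40289509d673d86c61dc11596d42932281b653dba330144e5472955f02d7e2581c0a0005a1c83dd531b43a621f4708c015cae5b9cd42d264ccf2285be6dd7b540ab6ec8633489055e04e99552142298d0580e0030e95fd7525c8c074fc0a5a0000515a418725dc3e0d5551ff1b9e30ecd9624747d4c670d3d3051f161172bc665bd98739584307e49d034d14b3cc9d289656fd306e1455f000545f22b1246f0a921d93338e72299e058d3784724ed156587c5256350df029ce534513584e3385e7035e93a85d6000f5d9d7261eb235ad078ec3f43f0a85f6844500182148925a8110643772978774dd3e5d93591c5549a001901bded791d40f08f3698d629af1d4b87d82031db2710ee4f84d308ff4807816441460b42c02c19cbb5c061665a873da3565f9434471fc304a000410234d584530083d054278ca28c945986b7016c4c5b56e4135195e5f41b001c7548397ccbf2b5cc494f16f57a2a885221df6514133cdf3a17422cfb67c5005ddb351fe788d81cc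c54f11e4586565d571f5025289c5912f510007c5232a1923999d348714507b589ef39112389e67a05c039d67a9ac3ac3e1784460491040365dcdc7611b2658f7b1d32398c6b8b707db13b44c3f877100b30acba181a7689f81182f0002260c0714cc924c6a5adb40495d069c60e0be72cf05e48477940379733e84f769fd35cc4474645590126d2e001226459c1c07a7b9117945b755ab0f4432403536d1a639d262cb66c04b1d8b22e5a67dc2e08406320696cd5c714bd3bc834fd72139fc30c634012d4859b1e510169aa10834465d12d44a2c5a50b4051a15b2f0825c5fb1892c6690f6a4337404969004568817e92b43832120032012a0c4024a40100000)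
  (mul (Nat.mod x (nat_lit 523)) (nat_lit 10))) (nat_lit 1023)
/-- union of `g d` over the bits `d` of `W` -/
def orB (g : Nat → Nat) (W : Nat) : Nat :=
  Nat.rec (motive := fun _ => Nat → Nat) (fun _ => nat_lit 0)
    (fun _ ih V => Bool.rec (lor (g (lg (xor V (land V (sub V (nat_lit 1))))))
      (ih (land V (sub V (nat_lit 1))))) (nat_lit 0) (beq V (nat_lit 0))) (nat_lit 512) W
/-- `g d` for all bits `d` of `W` -/
def alB (g : Nat → Bool) (W : Nat) : Bool :=
  Nat.rec (motive := fun _ => Nat → Bool) (fun _ => true)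
    (fun _ ih V => Bool.rec (Bool.rec false (ih (land V (sub V (nat_lit 1))))
      (fb (lg (xor V (land V (sub V (nat_lit 1))))) g)) true (beq V (nat_lit 0))) (nat_lit 512) W
def m2 (x y : Nat) : Nat := lor (shiftLeft (nat_lit 1) x) (shiftLeft (nat_lit 1) y)
def m3 (x y z : Nat) : Nat :=
  lor (lor (shiftLeft (nat_lit 1) x) (shiftLeft (nat_lit 1) y)) (shiftLeft (nat_lit 1) z)
def ful (n : Nat) : Nat := sub (shiftLeft (nat_lit 1) n) (nat_lit 1)
def lo (x : Nat) : Nat := land x (sub (shiftLeft (nat_lit 1) (nat_lit 512)) (nat_lit 1))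
def row (n m r : Nat) : Nat := land (shiftRight m (mul n r)) (ful n)
def atom (R i : Nat) : Nat := land (shiftRight R (mul i (nat_lit 10))) (nat_lit 1023)

section
variable (n : Nat) (M Zt It : Nat → Nat) (u0 u1 u2 : Nat)

/-- the two bits of the edge `p q` -/
def ed (p q : Nat) : Nat := m2 (add (mul n p) q) (add (mul n q) p)
/-- link matrix without the face `u0 u1 u2` -/
def mm (b : Nat) : Nat := Bool.rec (M b)
  (df (M b) (cn (beq b u0) (ed n u1 u2) (cn (beq b u1) (ed n u0 u2) (ed n u0 u1))))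
  (tb (m3 u0 u1 u2) b)
def Lm (z w : Nat) : Nat := row n (fn z (mm n M u0 u1 u2)) w
def Lf (z w : Nat) : Nat := row n (fn z M) w

def vm (j : Nat) : Nat := lor (m2 (zc (Zt j) (nat_lit 0)) (zc (Zt j) (nat_lit 1)))
  (m2 (zc (Zt j) (nat_lit 2)) (zc (Zt j) (nat_lit 3)))
def sp (j : Nat) : Nat :=
  lor (m2 (mul n (zc (Zt j) (nat_lit 0))) (mul n (zc (Zt j) (nat_lit 1))))
    (m2 (mul n (zc (Zt j) (nat_lit 2))) (mul n (zc (Zt j) (nat_lit 3))))
def kx (j : Nat) : Nat := lor (shiftLeft (mul (sp n Zt j) (vm Zt j)) (nat_lit 512)) (vm Zt j)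
/-- mask of an atom: a vertex or the four-cycle of a zone -/
def am (v : Nat) : Nat :=
  Bool.rec (shiftLeft (nat_lit 1) v) (vm Zt (sub v (nat_lit 512))) (ble (nat_lit 512) v)
/-- column vector (above bit 512) and mask of an atom -/
def ax (v : Nat) : Nat :=
  Bool.rec (m2 (add (mul n v) (nat_lit 512)) v)
    (lor (shiftLeft (sp n Zt (sub v (nat_lit 512))) (nat_lit 512)) (vm Zt (sub v (nat_lit 512))))
    (ble (nat_lit 512) v)
def gX (R x : Nat) : Nat := orl (land x (nat_lit 255))
  (fun i => fn (atom R (add (shiftRight x (nat_lit 8)) i)) (ax n Zt))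
def gO (X : Nat) : Nat :=
  lor (shiftLeft (mul (shiftRight X (nat_lit 512)) (lo X)) (nat_lit 512)) (lo X)
/-- vertex mask of the component described by the slot `s` -/
def cM (R s : Nat) : Nat :=
  Bool.rec (Bool.rec
      (orl (bt s (nat_lit 2) (nat_lit 255))
        (fun i => fn (atom R (add (shiftRight s (nat_lit 10)) i)) (am Zt)))
      (m2 (bt s (nat_lit 2) (nat_lit 511)) (bt s (nat_lit 11) (nat_lit 511)))
      (beq (land s (nat_lit 3)) (nat_lit 1)))
    (fn (shiftRight s (nat_lit 2)) (vm Zt)) (beq (land s (nat_lit 3)) (nat_lit 0))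
/-- square of the component (above bit 512) and its mask -/
def cO (R s : Nat) : Nat :=
  Bool.rec (Bool.rec (gO (gX n Zt R (shiftRight s (nat_lit 2))))
      (lor (shiftLeft (ed n (bt s (nat_lit 2) (nat_lit 511)) (bt s (nat_lit 11) (nat_lit 511)))
          (nat_lit 512))
        (m2 (bt s (nat_lit 2) (nat_lit 511)) (bt s (nat_lit 11) (nat_lit 511))))
      (beq (land s (nat_lit 3)) (nat_lit 1)))
    (fn (shiftRight s (nat_lit 2)) (kx n Zt)) (beq (land s (nat_lit 3)) (nat_lit 0))

/-! Items: 128 headers of 64 bits per chunk, then the atoms. -/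
def ch (p : Nat) : Nat := fn (shiftRight p (nat_lit 7)) It
def hd (p : Nat) : Nat := land (shiftRight (ch It p) (mul (land p (nat_lit 127)) (nat_lit 64)))
  (nat_lit 18446744073709551615)
def ib (p : Nat) : Nat := land (hd It p) (nat_lit 511)
def ia (p : Nat) : Nat := bt (hd It p) (nat_lit 9) (nat_lit 511)
def isl (p : Nat) : Nat := bt (hd It p) (nat_lit 18) (nat_lit 16777215)
def ilc (p : Nat) : Nat := bt (hd It p) (nat_lit 42) (nat_lit 255)
def ilo (p : Nat) : Nat := shiftRight (hd It p) (nat_lit 50)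
def iC (p : Nat) : Nat := cM Zt (ch It p) (isl It p)
def iO (p : Nat) : Nat := cO n Zt (ch It p) (isl It p)
def iA (p : Nat) : Nat := m2 (ia It p) (ib It p)
def iLM (p : Nat) : Nat := orl (ilc It p)
  (fun l => shiftLeft (nat_lit 1) (atom (ch It p) (add (ilo It p) (mul l (nat_lit 2)))))

/-! The pass over the pairs. A pair record: three counts (8 bits), pointers (20 bits, one more
than used), solo slots (24 bits), atoms. -/
def pg (r : Nat) : Nat := land r (nat_lit 255)
def pl (r : Nat) : Nat := bt r (nat_lit 8) (nat_lit 255)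
def ps (r : Nat) : Nat := bt r (nat_lit 16) (nat_lit 255)
def ptr (r i : Nat) : Nat :=
  land (shiftRight r (add (mul i (nat_lit 20)) (nat_lit 24))) (nat_lit 1048575)
def sl (r i : Nat) : Nat := land (shiftRight r (add (mul i (nat_lit 24))
  (add (mul (add (pg r) (pl r)) (nat_lit 20)) (nat_lit 44)))) (nat_lit 16777215)
def dup (x : Nat) : Nat := lor (shiftLeft x (nat_lit 512)) x
/-- vertices that may have a gate at the apex pair `a c` (low part) or `b c` (high part) -/
def nb (a b : Nat) : Nat :=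
  orB (fun d => lor (row n (M b) d) (shiftLeft (row n (M a) d) (nat_lit 512))) (row n (M a) b)
def rc (ON a b : Nat) : Nat :=
  lor (mul (land (shiftRight (M a) b) ON) (ful n)) (mul ON (row n (M a) b))
def er (PM PS : Nat) (SM : Nat → Nat → Nat) (a b N p q : Nat) : Nat :=
  add (add (xor (land (hd It p) (nat_lit 262143)) (add (mul a (nat_lit 512)) b))
      (sub (add p (nat_lit 1)) q))
    (add (df (land (dup (lo (iO n Zt It p))) N) (iLM It p))
      (Bool.rec (nat_lit 0)
        (Bool.rec (nat_lit 0) (df (lo (iO n Zt It p)) (SM a b)) (ble PM p))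
        (ble (add p (nat_lit 1)) PS)))
def pairE (NI PG PM PS ON : Nat) (SM : Nat → Nat → Nat) (a b r N OG OL OS : Nat) : Nat :=
  add (add (add
      (add (sml (pg r) (fun i => er n Zt It PM PS SM a b N (ptr r i) (ptr r (add i (nat_lit 1)))))
        (sml (pl r) (fun i => er n Zt It PM PS SM a b N (ptr r (add (pg r) i))
          (ptr r (add (add (pg r) i) (nat_lit 1))))))
      (add (sub (ptr r (add (pg r) (pl r))) NI)
        (sml (pg r) (fun i => sub (add (ptr r i) (nat_lit 1)) PG))))
    (add (xor (add (add (sml (pg r) (fun i => lo (iO n Zt It (ptr r i))))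
          (sml (pl r) (fun i => lo (iO n Zt It (ptr r (add (pg r) i))))))
          (sml (ps r) (fun i => lo (cO n Zt r (sl r i))))) (lo (lor (lor OL OS) OG)))
      (add (land (lo (lor (lor OL OS) OG)) (lor (row n (M a) b) (m2 a b)))
        (add (sub (lo (lor (lor OL OS) OG)) (ful n)) (land (dup (lo OS)) N)))))
    (add (df (land (mm n M u0 u1 u2 a) (mm n M u0 u1 u2 b))
        (lor (shiftRight (lor (lor OL OS) OG) (nat_lit 512)) (rc n M ON a b)))
      (land (xor (mm n M u0 u1 u2 a) (mm n M u0 u1 u2 b)) (shiftRight (lor OL OS) (nat_lit 512))))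
def pairOK (NI PG PM PS ON : Nat) (SM : Nat → Nat → Nat) (a b r : Nat) : Bool :=
  z0 (pairE n M Zt It u0 u1 u2 NI PG PM PS ON SM a b r (nb n M a b)
    (orl (pg r) (fun i => iO n Zt It (ptr r i)))
    (orl (pl r) (fun i => iO n Zt It (ptr r (add (pg r) i))))
    (orl (ps r) (fun i => cO n Zt r (sl r i))))
/-- record number `i` of the unit `R` (offsets of 16 bits, in units of 4 bits) -/
def prec (R i : Nat) : Nat := shiftRight R
  (mul (land (shiftRight R (mul i (nat_lit 16))) (nat_lit 65535)) (nat_lit 4))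
/-- the pairs `a, b0 + i` for `i < k`; the key moves from `x` to `x'`, the count from `t` to `t'` -/
def unitOK (NI PG PM PS ON : Nat) (SM : Nat → Nat → Nat) (x t x' t' a b0 k R : Nat) : Bool :=
  an (an (an (lt a b0) (ble (add b0 k) n)) (beq x' (add (add (mul a (nat_lit 512)) b0) k)))
  (an (orr (beq x (add (mul a (nat_lit 512)) b0))
      (an (an (beq b0 (add a (nat_lit 1))) (ble x (mul a (nat_lit 512))))
        (ble (add (mul a (nat_lit 512)) n) (add x (nat_lit 512)))))
  (an (al k (fun i => fb (add b0 i) (fun b =>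
      pairOK n M Zt It u0 u1 u2 NI PG PM PS ON SM a b (prec R i))))
    (beq t' (add t (sml k (fun i => add (pg (prec R i)) (pl (prec R i))))))))

/-! Tests inside a class with entries `i < m`. -/
def hm1 (A C T : Nat) : Nat :=
  Bool.rec (Bool.rec (Bool.rec (xor A (land A T)) (nat_lit 0)
        (beq (land (xor T (land A T)) C) (nat_lit 0))) C (beq (land A T) T))
    (nat_lit 0) (beq (land A T) (nat_lit 0))
/-- third vertices of the tokens through the pair with mask `T` -/
def hm (eA eC : Nat → Nat) (m T : Nat) : Nat := orl m (fun i => hm1 (eA i) (eC i) T)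
def tw (Hm Ex : Nat → Nat) (z w x W : Nat) : Bool :=
  cb (z0 (df W (Ex (m3 x z w)))) true
    (cb (tb (Lm n M u0 u1 u2 z w) x) (sb (df W (Ex (m3 x z w))) (Lm n M u0 u1 u2 z w))
      (z0 (land (lor (df W (Ex (m3 x z w))) (p2 x)) (lor (Lm n M u0 u1 u2 z w) (Hm (m2 z w))))))
def tp (Ex : Nat → Nat) (x y z W : Nat) : Bool :=
  z0 (df (land (xor (Lm n M u0 u1 u2 x z) (Lm n M u0 u1 u2 y z)) W) (Ex (m3 x y z)))
def tr (Hm Ex : Nat → Nat) (x y z W : Nat) : Bool :=
  an (tp n M u0 u1 u2 Ex x y z W)
    (z0 (land (df (df W (Ex (m3 x y z))) (Lm n M u0 u1 u2 x z)) (lor (Hm (m2 x z)) (Hm (m2 y z)))))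
/-- one common apex vertex, mask `I`; `Y`, `Y'` are the masks of the other apex vertices -/
def one (Hm Ex : Nat → Nat) (gq : Bool) (C C' I Y Y' : Nat) : Bool :=
  an (cb (z0 (land C C')) true
      (tw n M u0 u1 u2 Hm Ex (lg Y) (lg Y') (lg I) (land C C')))
    (cb (z0 (land C Y'))
      (cb (z0 (land C' Y)) true (tr n M u0 u1 u2 Hm Ex (lg I) (lg Y) (lg Y') C))
      (cb (z0 (land C' Y)) (tr n M u0 u1 u2 Hm Ex (lg I) (lg Y') (lg Y) C') gq))
def dis (Hm Ex : Nat → Nat) (A C A' C' : Nat) : Bool :=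
  cb (z0 (land C A')) true (alB (fun p => alB (fun q =>
    tw n M u0 u1 u2 Hm Ex (lg (xor A (p2 p))) (lg (xor A' (p2 q))) p (p2 q)) (land C A'))
    (land C' A))
def px (Hm Ex : Nat → Nat) (gq sm : Bool) (A C A' C' : Nat) : Bool :=
  cb (z0 (land A A')) (dis n M u0 u1 u2 Hm Ex A C A' C')
    (cb (beq (land A A') A) sm
      (one n M u0 u1 u2 Hm Ex gq C C' (land A A') (xor A (land A A')) (xor A' (land A A'))))
def cross (Ex eA eC : Nat → Nat) (gq sm : Nat → Nat → Bool) (m : Nat) : Bool :=
  al m (fun i => al i (fun k =>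
    px n M u0 u1 u2 (hm eA eC m) Ex (gq i k) (sm i k) (eA i) (eC i) (eA k) (eC k)))
def lk1 (s m a b c k : Nat) : Nat :=
  add (add (xor (iA It (add s k))
      (m2 (add a (mul (shiftRight c (nat_lit 9)) (sub b a))) (land c (nat_lit 511))))
    (sub (add k (nat_lit 1)) m))
    (sub (nat_lit 1) (land (shiftRight (iC Zt It (add s k))
      (sub b (mul (shiftRight c (nat_lit 9)) (sub b a)))) (nat_lit 1)))
def lnk (s m : Nat) : Bool := z0 (sml m (fun i => sml (ilc It (add s i)) (fun l =>
  fn (atom (ch It (add s i)) (add (add (ilo It (add s i)) (mul l (nat_lit 2))) (nat_lit 1)))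
    (lk1 Zt It s m (ia It (add s i)) (ib It (add s i))
      (atom (ch It (add s i)) (add (ilo It (add s i)) (mul l (nat_lit 2))))))))
def plain (s m : Nat) : Bool := an (lnk Zt It s m)
  (cross n M u0 u1 u2 (fun _ => nat_lit 0) (fun i => iA It (add s i)) (fun i => iC Zt It (add s i))
    (fun _ _ => true) (fun _ _ => false) m)
/-- `k` classes without exceptions, sizes in `R` (8 bits), items from `s` to `e` -/
def plainU (NI PG s e k R : Nat) : Bool := an (an (ble PG s) (ble e NI))
  (Nat.rec (motive := fun _ => Nat → Nat → Bool) (fun s _ => beq s e)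
    (fun _ ih s R => fb (land R (nat_lit 255)) (fun m => an (plain n M Zt It u0 u1 u2 s m)
      (fb (add s m) (fun s' => ih s' (shiftRight R (nat_lit 8)))))) k s R)

/-! Classes with exceptional quads. Record: `s` 20, `m0` 8, `m` 8, `ng` 8 bits, quads of 96 bits,
then one byte per further entry. -/
def gs (R : Nat) : Nat := land R (nat_lit 1048575)
def g0 (R : Nat) : Nat := bt R (nat_lit 20) (nat_lit 255)
def gm (R : Nat) : Nat := bt R (nat_lit 28) (nat_lit 255)
def gn (R : Nat) : Nat := bt R (nat_lit 36) (nat_lit 255)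
def gq (R g : Nat) : Nat :=
  bt R (add (mul g (nat_lit 96)) (nat_lit 44)) (nat_lit 79228162514264337593543950335)
def qx (R g : Nat) : Nat := land (gq R g) (nat_lit 511)
def qy (R g : Nat) : Nat := bt (gq R g) (nat_lit 9) (nat_lit 511)
def qz (R g : Nat) : Nat := bt (gq R g) (nat_lit 18) (nat_lit 511)
def qw (R g : Nat) : Nat := bt (gq R g) (nat_lit 27) (nat_lit 511)
def qk (R g : Nat) : Nat := bt (gq R g) (nat_lit 36) (nat_lit 3)
def qs (R g : Nat) : Nat := bt (gq R g) (nat_lit 38) (nat_lit 1048575)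
def qm (R g : Nat) : Nat := bt (gq R g) (nat_lit 58) (nat_lit 255)
def qo (R g : Nat) : Nat := bt (gq R g) (nat_lit 66) (nat_lit 255)
def qf (R g : Nat) : Nat := bt (gq R g) (nat_lit 74) (nat_lit 7)
def qi (R g : Nat) : Nat := shiftRight (gq R g) (nat_lit 77)
def qQ (R g : Nat) : Nat := lor (m3 (qx R g) (qy R g) (qz R g)) (p2 (qw R g))
/-- the quad that owns the entry `i` -/
def ds (R i : Nat) : Nat := bt R (add (add (mul (gn R) (nat_lit 96)) (nat_lit 44))
  (mul (sub i (g0 R)) (nat_lit 8))) (nat_lit 255)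
def ep (R i : Nat) : Nat := add (qs R (ds R i)) (sub i (qo R (ds R i)))
def ev (f : Nat → Nat) (v : Nat) (R i : Nat) : Nat :=
  cn (lt i (g0 R)) (f (add (gs R) i)) (cn (z0 (qm R (ds R i))) v (f (ep R i)))
def ea (R i : Nat) : Nat := ev (ia It) (qx R (ds R i)) R i
def eb (R i : Nat) : Nat := ev (ib It) (qy R (ds R i)) R i
def eC (R i : Nat) : Nat := ev (iC Zt It) (p2 (qz R (ds R i))) R i
def eA (R i : Nat) : Nat := m2 (ea It R i) (eb It R i)
def eg (R i : Nat) : Nat := cn (lt i (g0 R)) (nat_lit 0) (add (ds R i) (nat_lit 1))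
def exm (R T : Nat) : Nat :=
  orl (gn R) (fun g => cn (sb T (qQ R g)) (xor (qQ R g) T) (nat_lit 0))
/-- third vertices of the tokens of the items `s ≤ p < s + m` through the pair `x y` -/
def km (s m x y : Nat) : Nat :=
  hm (fun i => iA It (add s i)) (fun i => iC Zt It (add s i)) m (m2 x y)
def tin (T A C : Nat) : Bool := an (sb A T) (cb (z0 (land (xor T A) C)) false true)
def sameE (R i k : Nat) : Bool :=
  alB (fun c => tp n M u0 u1 u2 (exm R) (ea It R i) (eb It R i) c (eC Zt It R k)) (eC Zt It R i)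
def entOK (T1 T2 R i : Nat) : Bool :=
  an (sameE n M Zt It u0 u1 u2 R i i) (cb (lt i (g0 R)) true
    (an (an (lt (ds R i) (gn R)) (z0 (qk R (ds R i))))
      (an (orr (z0 (qm R (ds R i))) (lt (sub i (qo R (ds R i))) (qm R (ds R i))))
        (cb (orr (tin T1 (eA It R i) (eC Zt It R i)) (tin T2 (eA It R i) (eC Zt It R i)))
          false true))))
def kin (R f x y w : Nat) : Bool := cb (z0 f) (tb (Lf n M x y) w) (tb (km Zt It (gs R) (g0 R) x y) w)
def genQ (NI PM PS : Nat) (sfe : Nat → Nat → Nat → Nat → Nat → Bool) (R g x y z w : Nat) : Bool :=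
  an (an (an (kin n M Zt It R (land (qf R g) (nat_lit 1)) x y w)
      (kin n M Zt It R (land (qf R g) (nat_lit 2)) x z w))
      (kin n M Zt It R (land (qf R g) (nat_lit 4)) y z w))
    (an (ble (g0 R) (qo R g))
    (cb (z0 (qm R g))
      (an (an (lt x y) (lt (qo R g) (gm R))) (an (beq (ds R (qo R g)) g)
        (z0 (add (land (Lf n M x y) (lor (p2 z) (lor (Lf n M x z) (Lf n M y z))))
          (land (Lf n M x z) (Lf n M y z))))))
      (an (an (ble (add (qs R g) (qm R g)) NI) (ble (add (qo R g) (qm R g)) (gm R)))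
        (an (an (al (qm R g) (fun i => beq (ds R (add (qo R g) i)) g))
            (tb (km Zt It (qs R g) (qm R g) x y) z))
          (an (fb (qs R g) (fun s => lnk Zt It s (qm R g)))
            (cb (z0 (qi R g)) (an (ble PM (qs R g)) (ble (add (qs R g) (qm R g)) PS))
              (sfe (qi R g) (qs R g) (qm R g) (land (gq R g) (nat_lit 68719476735)) (qf R g))))))))
def quadOK (NI PM PS : Nat) (sfe : Nat → Nat → Nat → Nat → Nat → Bool) (dd : Nat → Bool)
    (R g x y z w : Nat) : Bool :=
  an (an (beq (add (add (p2 x) (p2 y)) (add (p2 z) (p2 w))) (qQ R g)) (ble (qQ R g) (ful n)))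
    (an (orr (beq (qk R g) (nat_lit 1)) (cb (sb (m3 u0 u1 u2) (qQ R g)) false true))
      (cb (z0 (qk R g)) (genQ n M Zt It NI PM PS sfe R g x y z w)
        (an (an (sb (m2 z w) (km Zt It (gs R) (g0 R) x y)) (tb (Lf n M x z) w))
          (cb (beq (qk R g) (nat_lit 1)) (tb (Lf n M y z) w)
            (an (dd (land (gq R g) (nat_lit 68719476735)))
              (z0 (land (p2 w) (lor (Lf n M y z)
                (hm (eA It R) (eC Zt It R) (gm R) (m2 y z))))))))))
def genOK (NI PM PS T1 T2 : Nat) (sfe : Nat → Nat → Nat → Nat → Nat → Bool) (dd : Nat → Bool)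
    (R : Nat) : Bool :=
  an (an (an (ble (add (gs R) (g0 R)) NI) (ble (g0 R) (gm R)))
      (fb (gs R) (fun s => lnk Zt It s (g0 R))))
    (an (an (al (gm R) (entOK n M Zt It u0 u1 u2 T1 T2 R))
        (al (gn R) (fun g => quadOK n M Zt It u0 u1 u2 NI PM PS sfe dd R g
          (qx R g) (qy R g) (qz R g) (qw R g))))
      (cross n M u0 u1 u2 (exm R) (eA It R) (eC Zt It R) (fun i k => beq (eg R i) (eg R k))
        (fun i k => an (orr (beq (eg R i) (eg R k)) (z0 (land (eC Zt It R i) (eC Zt It R k))))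
          (sameE n M Zt It u0 u1 u2 R i k)) (gm R)))
/-- the classes of the list `L` cover the items from `s` to `e` -/
def genU (NI PM PS T1 T2 : Nat) (sfe : Nat → Nat → Nat → Nat → Nat → Bool) (dd : Nat → Bool)
    (s e : Nat) (L : List Nat) : Bool :=
  List.rec (motive := fun _ => Nat → Bool) (fun s => beq s e)
    (fun R _ ih s => an (an (beq (gs R) s) (genOK n M Zt It u0 u1 u2 NI PM PS T1 T2 sfe dd R))
      (ih (add (gs R) (g0 R)))) L s

end

end

/-- chains of checked steps -/
inductive Ch (S : Nat → Nat → Nat → Nat → Prop) (x t : Nat) : Nat → Nat → Prop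
  | nil : Ch S x t x t
  | snoc {y s y' s' : Nat} : Ch S x t y s → S y s y' s' → Ch S x t y' s'

theorem Ch.trans {S : Nat → Nat → Nat → Nat → Prop} {x t y s z r : Nat} (h : Ch S x t y s)
    (k : Ch S y s z r) : Ch S x t z r := by
  induction k with
  | nil => exact h
  | snoc _ e ih => exact ih.snoc e

end Pool.Agent.MP_797bdc_co.Lk.H
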