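import Pool.Agent.MP_797bdc_co.Lk.HS
import Pool.Agent.MP_797bdc_co.Lk.HC

/-! Checker H: basic bit lemmas and the structures given by the data. -/

namespace Pool.Agent.MP_797bdc_co.Lk.H

open Finset

/-- the table of items given by the data -/
noncomputable def mkI (NI PG PM PS : ℕ) (Zt It : ℕ → ℕ) : IT where
  N := NI
  PG := PG
  PM := PM
  PS := PS
  a := ia It
  b := ib It
  C := iC Zt It
  LM := iLM It

/-- the class with exceptions given by the record `R` -/
noncomputable def mkD (Zt It : ℕ → ℕ) (R : ℕ) : GD where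
  m := gm R
  ea := ea It R
  eb := eb It R
  eC := eC Zt It R
  eg := eg R
  ng := gn R
  kd := qk R
  x := qx R
  y := qy R
  z := qz R
  w := qw R
  ss := qs R
  sm := qm R

def HmOK (Hm : ℕ → ℕ) (H : Set (Finset ℕ)) : Prop := ∀ z w v, z ≠ w → v ≠ z → v ≠ w →
  ({z, w, v} : Finset ℕ) ∈ H → (Hm (m2 z w)).testBit v = true
def ExOK (Ex : ℕ → ℕ) (ex : Finset (Finset ℕ) → Prop) : Prop := ∀ x y z v, x ≠ y → x ≠ z → y ≠ z →
  (Ex (m3 x y z)).testBit v = true → ex (qd x y z v)
/-- the vertices of a quad code -/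
def cx (c : ℕ) : ℕ := c % 512
def cy (c : ℕ) : ℕ := c / 512 % 512
def cz (c : ℕ) : ℕ := c / 262144 % 512
def cw (c : ℕ) : ℕ := c / 134217728 % 512
/-- the tokens of the quad `c` selected by the flags `f` -/
def TS (c f : ℕ) : Set (Finset ℕ) := {t | (f.testBit 0 = true ∧ t = {cx c, cy c, cw c}) ∨
  (f.testBit 1 = true ∧ t = {cx c, cz c, cw c}) ∨ (f.testBit 2 = true ∧ t = {cy c, cz c, cw c})}
def SfeOK (n : ℕ) (G : Finset (Finset ℕ)) (SM : ℕ → ℕ → ℕ)
    (safe : Finset (Finset ℕ) → Finset ℕ → Prop) (I : IT)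
    (sfe : ℕ → ℕ → ℕ → ℕ → ℕ → Bool) : Prop :=
  ∀ i s m c f, sfe i s m c f = true → s + m ≤ I.N → ∀ k < m,
    ISafe n G (noLocS n G SM) safe (I.a (s + k)) (I.b (s + k)) (I.C (s + k)) (TS c f)
def DdOK (n : ℕ) (hd : DimP n) (G : Finset (Finset ℕ)) (u : Finset ℕ) (dd : ℕ → Bool) : Prop :=
  ∀ c, dd c = true → Dead0 n hd G u (cx c) (cy c) (cz c) (cw c)

theorem fn_eq (x : ℕ) (f : ℕ → ℕ) : fn x f = f x := rfl
theorem z0_iff {x : ℕ} : z0 x = true ↔ x = 0 := Nat.beq_eq.to_iff
theorem df_bit (x y i : ℕ) : (df x y).testBit i = (x.testBit i && !y.testBit i) := by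
  show (x ^^^ (x &&& y)).testBit i = _
  rw [Nat.testBit_xor, Nat.testBit_and]
  cases x.testBit i <;> cases y.testBit i <;> rfl
theorem HB0_zero {x : ℕ} : x = 0 ↔ ∀ i, x.testBit i = false :=
  ⟨fun h i => by rw [h, Nat.zero_testBit], Nat.zero_of_testBit_eq_false⟩
theorem df_zero {x y : ℕ} : df x y = 0 ↔ ∀ i, x.testBit i = true → y.testBit i = true := by
  rw [HB0_zero]
  refine forall_congr' fun i => ?_
  rw [df_bit]
  cases x.testBit i <;> cases y.testBit i <;> simp
theorem sb_iff {x y : ℕ} : sb x y = true ↔ ∀ i, x.testBit i = true → y.testBit i = true := by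
  have h : sb x y = true ↔ x &&& y = x := Nat.beq_eq.to_iff
  rw [h]
  constructor
  · intro e i hi
    rw [← e, Nat.testBit_and, Bool.and_eq_true] at hi
    exact hi.2
  · intro e
    refine Nat.eq_of_testBit_eq fun i => ?_
    rw [Nat.testBit_and]
    have := e i
    revert this
    cases x.testBit i <;> cases y.testBit i <;> simp
theorem land_zero {x y : ℕ} :
    Nat.land x y = 0 ↔ ∀ i, x.testBit i = true → y.testBit i = true → False := by
  show x &&& y = 0 ↔ _
  rw [HB0_zero]
  refine forall_congr' fun i => ?_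
  rw [Nat.testBit_and]
  cases x.testBit i <;> cases y.testBit i <;> simp
theorem xor_zero {x y : ℕ} : Nat.xor x y = 0 ↔ x = y := Nat.xor_eq_zero_iff
theorem HB0_or {x y i : ℕ} :
    (Nat.lor x y).testBit i = true ↔ x.testBit i = true ∨ y.testBit i = true := by
  show (x ||| y).testBit i = true ↔ _
  rw [Nat.testBit_or, Bool.or_eq_true]
theorem orl_bit {k : ℕ} {g : ℕ → ℕ} {i : ℕ} :
    (orl k g).testBit i = true ↔ ∃ j < k, (g j).testBit i = true := by
  induction k with
  | zero =>
    have h : orl 0 g = 0 := rfl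
    simp [h]
  | succ k ih =>
    have h : orl (k + 1) g = Nat.lor (g k) (orl k g) := rfl
    rw [h, HB0_or, ih, Nat.exists_lt_succ_right, or_comm]
theorem sml_eq (k : ℕ) (g : ℕ → ℕ) : sml k g = ∑ j ∈ range k, g j := by
  induction k with
  | zero => rfl
  | succ k ih =>
    have h : sml (k + 1) g = g k + sml k g := rfl
    rw [h, ih, sum_range_succ, add_comm]
theorem sml_zero {k : ℕ} {g : ℕ → ℕ} : sml k g = 0 ↔ ∀ j < k, g j = 0 := by
  rw [sml_eq, sum_eq_zero_iff]
  simp only [mem_range]
theorem lt_of_bits {x k : ℕ} : x < 2 ^ k ↔ ∀ i, x.testBit i = true → i < k := by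
  constructor
  · intro h i hi
    by_contra c
    have h2 : x < 2 ^ i := h.trans_le (Nat.pow_le_pow_right (by norm_num) (by omega))
    rw [Nat.testBit_lt_two_pow h2] at hi
    exact Bool.false_ne_true hi
  · intro h
    refine Nat.lt_pow_two_of_testBit x fun i hi => ?_
    by_contra c
    have := h i (by simpa using c)
    omega
theorem lg_pow : ∀ k < 512, lg (2 ^ k) = k := by decide +kernel
/-- a number with exactly one bit -/
theorem lg_one {x k : ℕ} (hk : k < 512) (h : ∀ i, x.testBit i = true ↔ i = k) : lg x = k := by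
  have e : x = 2 ^ k := Nat.eq_of_testBit_eq fun i => by
    rw [Nat.testBit_two_pow, Bool.eq_iff_iff, h, decide_eq_true_iff, eq_comm]
  rw [e, lg_pow k hk]
/-- clearing the lowest bit -/
theorem HB0_low : ∀ V : ℕ, V ≠ 0 → ∃ k, V.testBit k = true ∧ (∀ d, V.testBit d = true → k ≤ d) ∧
    ∀ d, (V &&& (V - 1)).testBit d = true ↔ V.testBit d = true ∧ d ≠ k := by
  intro V
  induction V using Nat.strong_induction_on with
  | _ V ih =>
    intro h
    rcases Nat.mod_two_eq_zero_or_one V with e | e
    · obtain ⟨k, k1, k2, k3⟩ := ih (V / 2) (by omega) (by omega)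
      have z : V.testBit 0 = false := by rw [Nat.testBit_zero]; simp [e]
      refine ⟨k + 1, by rw [Nat.testBit_succ]; exact k1, ?_, ?_⟩
      · intro d hd
        cases d with
        | zero => rw [z] at hd; exact absurd hd Bool.false_ne_true
        | succ d => rw [Nat.testBit_succ] at hd; have := k2 d hd; omega
      · intro d
        cases d with
        | zero => rw [Nat.testBit_and, z]; simp
        | succ d =>
          have q : (V - 1) / 2 = V / 2 - 1 := by omega
          rw [Nat.testBit_and, Nat.testBit_succ, Nat.testBit_succ, q, ← Nat.testBit_and, k3]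
          simp
    · refine ⟨0, by rw [Nat.testBit_zero]; simp [e], fun d _ => Nat.zero_le d, ?_⟩
      intro d
      cases d with
      | zero =>
        have q : (V - 1) % 2 = 0 := by omega
        rw [Nat.testBit_and, Nat.testBit_zero (x := V - 1)]
        simp [q]
      | succ d =>
        have q : (V - 1) / 2 = V / 2 := by omega
        rw [Nat.testBit_and, Nat.testBit_succ, Nat.testBit_succ, q]
        simp
theorem HB0_step {V f : ℕ} (h : V ≠ 0) (h1 : V < 2 ^ 512)
    (h2 : ∀ d, V.testBit d = true → 512 ≤ d + (f + 1)) :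
    ∃ k, lg (Nat.xor V (Nat.land V (Nat.sub V (nat_lit 1)))) = k ∧ V.testBit k = true ∧
      Nat.land V (Nat.sub V (nat_lit 1)) < 2 ^ 512 ∧
      (∀ d, (Nat.land V (Nat.sub V (nat_lit 1))).testBit d = true → 512 ≤ d + f) ∧
      ∀ d, (Nat.land V (Nat.sub V (nat_lit 1))).testBit d = true ↔ V.testBit d = true ∧ d ≠ k := by
  obtain ⟨k, k1, k2, k3⟩ := HB0_low V h
  refine ⟨k, lg_one (lt_of_bits.1 h1 k k1) fun i => ?_, k1,
    lt_of_bits.2 fun i hi => lt_of_bits.1 h1 i ((k3 i).1 hi).1, fun d hd => ?_, k3⟩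
  · show (V ^^^ (V &&& (V - 1))).testBit i = true ↔ _
    have := k3 i
    rw [Nat.testBit_xor]
    by_cases e : i = k
    · subst e
      cases q : (V &&& (V - 1)).testBit i <;> simp_all
    · cases q : (V &&& (V - 1)).testBit i <;> cases r : V.testBit i <;> simp_all
  · have a := (k3 d).1 hd
    have := k2 d a.1
    have := h2 k k1
    have := a.2
    omega
theorem HB0_nil {W : ℕ} (h1 : W < 2 ^ 512) (h2 : ∀ d, W.testBit d = true → 512 ≤ d + 0) :
    ∀ d, ¬ W.testBit d = true := fun d c => by
  have := lt_of_bits.1 h1 d c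
  have := h2 d c
  omega
theorem HB0_orB (g : ℕ → ℕ) (i f : ℕ) : ∀ W, W < 2 ^ 512 →
    (∀ d, W.testBit d = true → 512 ≤ d + f) →
    ((Nat.rec (motive := fun _ => ℕ → ℕ) (fun _ => nat_lit 0)
      (fun _ ih V => Bool.rec (Nat.lor (g (lg (Nat.xor V (Nat.land V (Nat.sub V (nat_lit 1))))))
        (ih (Nat.land V (Nat.sub V (nat_lit 1)))))
        (nat_lit 0) (Nat.beq V (nat_lit 0))) f W).testBit i = true ↔
      ∃ d, W.testBit d = true ∧ (g d).testBit i = true) := by
  induction f with
  | zero =>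
    intro W h h'
    show (0 : ℕ).testBit i = true ↔ _
    simp only [Nat.zero_testBit, Bool.false_eq_true, false_iff]
    rintro ⟨d, c, -⟩
    exact HB0_nil h h' d c
  | succ f ih =>
    intro W h h'
    by_cases e : W = 0
    · subst e
      show (0 : ℕ).testBit i = true ↔ _
      simp
    · have b : Nat.beq W (nat_lit 0) = false := by
        rw [← Bool.not_eq_true]; exact fun c => e (Nat.beq_eq.to_iff.1 c)
      obtain ⟨k, k0, k1, k2, k3, k4⟩ := HB0_step e h h'
      simp only [b]
      rw [HB0_or, ih _ k2 k3, k0]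
      constructor
      · rintro (c | ⟨d, c, c'⟩)
        · exact ⟨_, k1, c⟩
        · exact ⟨d, ((k4 d).1 c).1, c'⟩
      · rintro ⟨d, c, c'⟩
        by_cases q : d = k
        · exact Or.inl (q ▸ c')
        · exact Or.inr ⟨d, (k4 d).2 ⟨c, q⟩, c'⟩
theorem orB_bit {g : ℕ → ℕ} {W i : ℕ} (h : W < 2 ^ 512) :
    (orB g W).testBit i = true ↔ ∃ d, W.testBit d = true ∧ (g d).testBit i = true := by
  unfold orB
  exact HB0_orB g i (nat_lit 512) W h fun d _ => Nat.le_add_left _ _
theorem HB0_alB (g : ℕ → Bool) (f : ℕ) : ∀ W, W < 2 ^ 512 →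
    (∀ d, W.testBit d = true → 512 ≤ d + f) →
    ((Nat.rec (motive := fun _ => ℕ → Bool) (fun _ => true)
      (fun _ ih V => Bool.rec (Bool.rec false
        (ih (Nat.land V (Nat.sub V (nat_lit 1))))
        (fb (lg (Nat.xor V (Nat.land V (Nat.sub V (nat_lit 1))))) g)) true
        (Nat.beq V (nat_lit 0))) f W) = true ↔
      ∀ d, W.testBit d = true → g d = true) := by
  induction f with
  | zero =>
    intro W h h'
    show true = true ↔ _
    simp only [true_iff]
    exact fun d c => absurd c (HB0_nil h h' d)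
  | succ f ih =>
    intro W h h'
    by_cases e : W = 0
    · subst e
      show true = true ↔ _
      simp
    · have b : Nat.beq W (nat_lit 0) = false := by
        rw [← Bool.not_eq_true]; exact fun c => e (Nat.beq_eq.to_iff.1 c)
      obtain ⟨k, k0, k1, k2, k3, k4⟩ := HB0_step e h h'
      have kk := ih _ k2 k3
      simp only [b]
      rw [fb_eq, k0]
      cases q : g k
      · simp only [Bool.false_eq_true, false_iff]
        intro c
        rw [c _ k1] at q
        exact Bool.false_ne_true q.symm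
      · simp only []
        rw [kk]
        constructor
        · intro c d hd
          by_cases r : d = k
          · exact r ▸ q
          · exact c d ((k4 d).2 ⟨hd, r⟩)
        · intro c d hd
          exact c d ((k4 d).1 hd).1
theorem alB_iff {g : ℕ → Bool} {W : ℕ} (h : W < 2 ^ 512) :
    alB g W = true ↔ ∀ d, W.testBit d = true → g d = true := by
  unfold alB
  exact HB0_alB g (nat_lit 512) W h fun d _ => Nat.le_add_left _ _
theorem p2_bit {x i : ℕ} : (p2 x).testBit i = true ↔ i = x := by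
  rw [p2_eq, Nat.testBit_two_pow, decide_eq_true_iff, eq_comm]
theorem m2_bit {x y i : ℕ} : (m2 x y).testBit i = true ↔ i = x ∨ i = y := by
  show (Nat.lor (p2 x) (p2 y)).testBit i = true ↔ _
  rw [HB0_or, p2_bit, p2_bit]
theorem m3_bit {x y z i : ℕ} : (m3 x y z).testBit i = true ↔ i = x ∨ i = y ∨ i = z := by
  show (Nat.lor (Nat.lor (p2 x) (p2 y)) (p2 z)).testBit i = true ↔ _
  rw [HB0_or, HB0_or, p2_bit, p2_bit, p2_bit, or_assoc]
theorem ful_eq (n : ℕ) : ful n = 2 ^ n - 1 := by
  show p2 n - 1 = _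
  rw [p2_eq]
theorem HB0_ful {x n i : ℕ} :
    (Nat.land x (ful n)).testBit i = true ↔ i < n ∧ x.testBit i = true := by
  show (x &&& ful n).testBit i = true ↔ _
  rw [ful_eq, Nat.testBit_and, Nat.testBit_two_pow_sub_one, Bool.and_eq_true, decide_eq_true_iff,
    and_comm]
theorem lo_bit {x i : ℕ} : (lo x).testBit i = true ↔ i < 512 ∧ x.testBit i = true :=
  HB0_ful (n := 512)
theorem row_bit {n m r d : ℕ} :
    (row n m r).testBit d = true ↔ d < n ∧ m.testBit (n * r + d) = true := by
  show (Nat.land (m >>> (n * r)) (ful n)).testBit d = true ↔ _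
  rw [HB0_ful, Nat.testBit_shiftRight]
theorem dup_lo {x i : ℕ} (h : x.testBit i = true) : (dup x).testBit i = true :=
  HB0_or.2 (Or.inr h)
theorem dup_hi {x i : ℕ} (h : x.testBit i = true) : (dup x).testBit (512 + i) = true := by
  refine HB0_or.2 (Or.inl ?_)
  show (x <<< 512).testBit (512 + i) = true
  rw [Nat.testBit_shiftLeft]
  simp [h]
theorem HB0_add (x : ℕ) : ∀ y : ℕ, (x ||| y) + (x &&& y) = x + y := by
  induction x using Nat.strong_induction_on with
  | _ x ih =>
    intro y
    by_cases e : x = 0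
    · subst e; simp
    · have h := ih (x / 2) (by omega) (y / 2)
      rw [← Nat.or_div_two, ← Nat.and_div_two] at h
      have h1 := Nat.or_mod_two_eq_one (a := x) (b := y)
      have h2 := Nat.and_mod_two_eq_one (a := x) (b := y)
      omega
theorem lor_le_add (x y : ℕ) : Nat.lor x y ≤ x + y := by
  have := HB0_add x y
  show x ||| y ≤ _
  omega
theorem disj_of_add {x y : ℕ} (h : x + y ≤ Nat.lor x y) : Nat.land x y = 0 := by
  have := HB0_add x y
  have h' : x + y ≤ x ||| y := h
  show x &&& y = 0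
  omega
theorem orl_le (k : ℕ) (g : ℕ → ℕ) : orl k g ≤ sml k g := by
  induction k with
  | zero => exact le_rfl
  | succ k ih =>
    show Nat.lor (g k) (orl k g) ≤ g k + sml k g
    have := lor_le_add (g k) (orl k g)
    omega
theorem orl_disj {k : ℕ} {g : ℕ → ℕ} (h : sml k g ≤ orl k g) :
    ∀ i < k, ∀ j < k, i ≠ j → Nat.land (g i) (g j) = 0 := by
  induction k with
  | zero => intro i hi; omega
  | succ k ih =>
    have h' : g k + sml k g ≤ Nat.lor (g k) (orl k g) := h
    have h1 := lor_le_add (g k) (orl k g)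
    have h2 := orl_le k g
    have h3 := land_zero.1 (disj_of_add (x := g k) (y := orl k g) (by omega))
    have h4 := ih (by omega)
    intro i hi j hj e
    by_cases a : i = k
    · subst a
      exact land_zero.2 fun t c c' => h3 t c (orl_bit.2 ⟨j, by omega, c'⟩)
    · by_cases b : j = k
      · subst b
        exact land_zero.2 fun t c c' => h3 t c' (orl_bit.2 ⟨i, by omega, c⟩)
      · exact h4 i (by omega) j (by omega) e
theorem qd_perm {a b c d a' b' c' d' : ℕ} (h : ∀ v, (v = a ∨ v = b ∨ v = c ∨ v = d) ↔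
    (v = a' ∨ v = b' ∨ v = c' ∨ v = d')) : qd a b c d = qd a' b' c' d' := by
  unfold qd
  congr 1
  ext v
  simp only [mem_insert, mem_singleton]
  exact h v

end Pool.Agent.MP_797bdc_co.Lk.H
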