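import Pool.Agent.MP_797bdc_co.Lk.HB0

/-! Checker H: link matrices. -/

namespace Pool.Agent.MP_797bdc_co.Lk.H

open Finset

variable {n : ℕ} {M : ℕ → ℕ} {Zt It : ℕ → ℕ} {u0 u1 u2 : ℕ}

theorem HB1_row (hM : SymM n M) {z w v : ℕ} (hz : z < n) (hw : w < n) :
    (row n (M z) w).testBit v = true ↔ v < n ∧ ({z, w, v} : Finset ℕ) ∈ Gd n M := by
  rw [row_bit]
  exact and_congr_right fun hv => (mem_Gd hM hz hw hv).symm

theorem HB1_lt {m r k : ℕ} (hk : n ≤ k) : row n m r < 2 ^ k :=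
  lt_of_bits.2 fun _ hi => (row_bit.1 hi).1.trans_le hk

theorem HB1_div {c d p q : ℕ} (hd : d < n) (hq : q < n) :
    n * c + d = n * p + q ↔ c = p ∧ d = q := by
  refine ⟨fun h => ?_, fun h => by rw [h.1, h.2]⟩
  have h1 : d = q := by
    have := congrArg (· % n) h
    simpa only [Nat.mul_add_mod, Nat.mod_eq_of_lt hd, Nat.mod_eq_of_lt hq] using this
  subst h1
  exact ⟨Nat.eq_of_mul_eq_mul_left (by omega) (Nat.add_right_cancel h), rfl⟩

theorem HB1_ed {b c d p q : ℕ} (hd : d < n) (hp : p < n) (hq : q < n) (h1 : b ≠ c) (h2 : b ≠ d)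
    (h3 : c ≠ d) : (ed n p q).testBit (n * c + d) = true ↔
      ({b, c, d} : Finset ℕ) = {b, p, q} := by
  have e : ed n p q = m2 (n * p + q) (n * q + p) := rfl
  rw [e, m2_bit, HB1_div hd hq, HB1_div hd hp]
  constructor
  · rintro (⟨rfl, rfl⟩ | ⟨rfl, rfl⟩)
    · rfl
    · rw [pair_comm]
  · intro h
    have k1 : c ∈ ({b, p, q} : Finset ℕ) := h ▸ by simp
    have k2 : d ∈ ({b, p, q} : Finset ℕ) := h ▸ by simp
    simp only [mem_insert, mem_singleton] at k1 k2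
    omega

theorem Lf_bit (hM : SymM n M) {z w v : ℕ} (hz : z < n) (hw : w < n) :
    (Lf n M z w).testBit v = true ↔ v < n ∧ ({z, w, v} : Finset ℕ) ∈ Gd n M :=
  HB1_row hM hz hw

theorem mm_bit (hM : SymM n M) (hu : ({u0, u1, u2} : Finset ℕ) ∈ Gd n M) {b c d : ℕ}
    (hb : b < n) (hc : c < n) (hd : d < n) :
    (mm n M u0 u1 u2 b).testBit (n * c + d) = true ↔ Gm (Gd n M) {u0, u1, u2} {b, c, d} := by
  have hs : ({u0, u1, u2} : Finset ℕ) ⊆ range n := (mem_powersetCard.1 (mem_filter.1 hu).1).1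
  have l0 : u0 < n := mem_range.1 (hs (by simp))
  have l1 : u1 < n := mem_range.1 (hs (by simp))
  have l2 : u2 < n := mem_range.1 (hs (by simp))
  have g : (M b).testBit (n * c + d) = true ↔ ({b, c, d} : Finset ℕ) ∈ Gd n M :=
    (mem_Gd hM hb hc hd).symm
  unfold mm Gm
  cases ht : tb (m3 u0 u1 u2) b with
  | false =>
    show (M b).testBit (n * c + d) = true ↔ _
    rw [g]
    refine ⟨fun h => ⟨h, fun e => ?_⟩, fun h => h.1⟩
    have k : b ∈ ({u0, u1, u2} : Finset ℕ) := e ▸ by simp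
    simp only [mem_insert, mem_singleton] at k
    rw [tb_eq, m3_bit.2 k] at ht
    exact Bool.noConfusion ht
  | true =>
    show (df (M b) _).testBit (n * c + d) = true ↔ _
    rw [df_bit, Bool.and_eq_true, g]
    refine and_congr_right fun h => ?_
    obtain ⟨h1, h2, h3, -⟩ := hM.2 b hb c hc d hd (g.2 h)
    rw [Bool.not_eq_true', ← Bool.not_eq_true]
    refine not_congr ?_
    rw [tb_eq, m3_bit] at ht
    rw [cn_eq, cn_eq]
    by_cases e0 : b = u0
    · rw [if_pos (Nat.beq_eq.to_iff.2 e0), HB1_ed hd l1 l2 h1 h2 h3, e0]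
    rw [if_neg fun k => e0 (Nat.beq_eq.to_iff.1 k)]
    by_cases e1 : b = u1
    · rw [if_pos (Nat.beq_eq.to_iff.2 e1), HB1_ed hd l0 l2 h1 h2 h3, e1, insert_comm u1 u0]
    rw [if_neg fun k => e1 (Nat.beq_eq.to_iff.1 k)]
    have e2 : b = u2 := by omega
    rw [HB1_ed hd l0 l1 h1 h2 h3, e2, insert_comm u2 u0, pair_comm u2 u1]

theorem Lm_bit (hM : SymM n M) (hu : ({u0, u1, u2} : Finset ℕ) ∈ Gd n M) {z w v : ℕ}
    (hz : z < n) (hw : w < n) : (Lm n M u0 u1 u2 z w).testBit v = true ↔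
      v < n ∧ Gm (Gd n M) {u0, u1, u2} {z, w, v} := by
  have e : Lm n M u0 u1 u2 z w = row n (mm n M u0 u1 u2 z) w := rfl
  rw [e, row_bit]
  exact and_congr_right fun hv => mm_bit hM hu hz hw hv

theorem nb_lo (hM : SymM n M) (hn : n ≤ 512) {a b c d : ℕ} (ha : a < n) (hb : b < n) (hc : c < n)
    (hd : d < n) (h1 : ({a, b, d} : Finset ℕ) ∈ Gd n M) (h2 : ({b, c, d} : Finset ℕ) ∈ Gd n M) :
    (nb n M a b).testBit c = true := by
  unfold nb
  rw [orB_bit (HB1_lt hn)]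
  refine ⟨d, (HB1_row hM ha hb).2 ⟨hd, h1⟩, ?_⟩
  show (row n (M b) d ||| row n (M a) d <<< 512).testBit c = true
  rw [Nat.testBit_or, (HB1_row hM hb hd).2 ⟨hc, pair_comm c d ▸ h2⟩, Bool.true_or]

theorem nb_hi (hM : SymM n M) (hn : n ≤ 512) {a b c d : ℕ} (ha : a < n) (hb : b < n) (hc : c < n)
    (hd : d < n) (h1 : ({a, b, d} : Finset ℕ) ∈ Gd n M) (h2 : ({a, c, d} : Finset ℕ) ∈ Gd n M) :
    (nb n M a b).testBit (512 + c) = true := by
  unfold nb
  rw [orB_bit (HB1_lt hn)]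
  refine ⟨d, (HB1_row hM ha hb).2 ⟨hd, h1⟩, ?_⟩
  show (row n (M b) d ||| row n (M a) d <<< 512).testBit (512 + c) = true
  rw [Nat.testBit_or, Nat.testBit_shiftLeft, Nat.add_sub_cancel_left,
    (HB1_row hM ha hd).2 ⟨hc, pair_comm c d ▸ h2⟩]
  simp

theorem rc_bit (hmat : MAT_s) (hM : SymM n M) {ON a b c d : ℕ} (hO : Spr n ON (2 ^ n - 1))
    (ha : a < n) (hb : b < n) (hc : c < n) (hd : d < n)
    (h : (rc n M ON a b).testBit (n * c + d) = true) :
    ({a, b, c} : Finset ℕ) ∈ Gd n M ∨ ({a, b, d} : Finset ℕ) ∈ Gd n M := by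
  obtain ⟨p1, -, -, -, -, p6, p7⟩ := hmat n (by omega)
  have e : rc n M ON a b = ((M a >>> b) &&& ON) * ful n ||| ON * row n (M a) b := rfl
  rw [e, Nat.testBit_or, Bool.or_eq_true, ful_eq] at h
  rcases h with h | h
  · have k := ((p1 _ _ _ (p6 M hM a ha b hb ON hO) (Nat.sub_one_lt (by positivity)) c d hd).1
      h).2.1
    rw [p7 _ _ _ hc] at k
    exact .inl ((mem_Gd hM ha hb hc).2 k)
  · exact .inr ((HB1_row hM ha hb).1 ((p1 _ _ _ hO (HB1_lt le_rfl) c d hd).1 h).2.2).2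

end Pool.Agent.MP_797bdc_co.Lk.H
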