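import Pool.Agent.MP_797bdc_co.Lk.HB0

/-! Checker H: components. -/

namespace Pool.Agent.MP_797bdc_co.Lk.H

open Finset

variable {n : ℕ} {M : ℕ → ℕ} {Zt It : ℕ → ℕ} {u0 u1 u2 : ℕ}

theorem HB2_ext {x y : ℕ} (h : ∀ i, x.testBit i = true ↔ y.testBit i = true) : x = y :=
  Nat.eq_of_testBit_eq fun i => Bool.eq_iff_iff.2 (h i)

theorem HB2_or {x y i : ℕ} : (Nat.lor x y).testBit i = true ↔
    x.testBit i = true ∨ y.testBit i = true := by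
  change (x ||| y).testBit i = true ↔ _
  rw [Nat.testBit_or, Bool.or_eq_true]

theorem HB2_sl {x i : ℕ} : (Nat.shiftLeft x 512).testBit i = true ↔
    512 ≤ i ∧ x.testBit (i - 512) = true := by
  change (x <<< 512).testBit i = true ↔ _
  rw [Nat.testBit_shiftLeft, Bool.and_eq_true, decide_eq_true_iff]

theorem HB2_hi {Y C i : ℕ} (hC : C < 2 ^ 512) :
    (Nat.lor (Nat.shiftLeft Y 512) C).testBit (512 + i) = true ↔ Y.testBit i = true := by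
  rw [HB2_or, HB2_sl, Nat.add_sub_cancel_left]
  refine ⟨fun h => h.elim (·.2) fun h => ?_, fun h => Or.inl ⟨by omega, h⟩⟩
  have := lt_of_bits.1 hC _ h
  omega

theorem HB2_low {Y C i : ℕ} (hi : i < 512) :
    (Nat.lor (Nat.shiftLeft Y 512) C).testBit i = true ↔ C.testBit i = true := by
  rw [HB2_or, HB2_sl]
  exact ⟨fun h => h.elim (fun h => by omega) id, Or.inr⟩

theorem HB2_lo {Y C : ℕ} (hC : C < 2 ^ 512) : lo (Nat.lor (Nat.shiftLeft Y 512) C) = C :=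
  HB2_ext fun i => by
    rw [lo_bit]
    exact ⟨fun h => (HB2_low h.1).1 h.2, fun h =>
      ⟨lt_of_bits.1 hC _ h, (HB2_low (lt_of_bits.1 hC _ h)).2 h⟩⟩

theorem HB2_bt (x i : ℕ) : bt x i 511 < 512 := Nat.lt_succ_of_le Nat.and_le_right

theorem HB2_vm {j i : ℕ} : (vm Zt j).testBit i = true ↔
    (i = zc (Zt j) 0 ∨ i = zc (Zt j) 1) ∨ i = zc (Zt j) 2 ∨ i = zc (Zt j) 3 := by
  unfold vm
  rw [HB2_or, m2_bit, m2_bit]

theorem HB2_vm_lt (j : ℕ) : vm Zt j < 2 ^ 512 := lt_of_bits.2 fun i h => by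
  rcases HB2_vm.1 h with (h | h) | h | h <;> rw [h] <;> exact HB2_bt _ _

theorem HB2_sp {j i : ℕ} : (sp n Zt j).testBit i = true ↔
    ∃ c, (vm Zt j).testBit c = true ∧ i = n * c := by
  unfold sp
  rw [HB2_or, m2_bit, m2_bit]
  simp only [HB2_vm]
  constructor
  · rintro ((h | h) | h | h)
    · exact ⟨_, Or.inl (Or.inl rfl), h⟩
    · exact ⟨_, Or.inl (Or.inr rfl), h⟩
    · exact ⟨_, Or.inr (Or.inl rfl), h⟩
    · exact ⟨_, Or.inr (Or.inr rfl), h⟩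
  · rintro ⟨c, (rfl | rfl) | rfl | rfl, h⟩
    · exact Or.inl (Or.inl h)
    · exact Or.inl (Or.inr h)
    · exact Or.inr (Or.inl h)
    · exact Or.inr (Or.inr h)

theorem HB2_atom (v : ℕ) : am Zt v < 2 ^ 512 ∧
    (∀ i < 512, (ax n Zt v).testBit i = true ↔ (am Zt v).testBit i = true) ∧
    ∀ i, (ax n Zt v).testBit (512 + i) = true ↔ ∃ c, (am Zt v).testBit c = true ∧ i = n * c := by
  unfold am ax
  cases hv : Nat.ble (nat_lit 512) v
  · have hv' : v < 512 := by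
      by_contra h
      rw [Nat.ble_eq_true_of_le (not_lt.1 h)] at hv
      exact Bool.noConfusion hv
    change p2 v < _ ∧ (∀ i < 512, (m2 (n * v + 512) v).testBit i = true ↔
      (p2 v).testBit i = true) ∧ ∀ i, (m2 (n * v + 512) v).testBit (512 + i) = true ↔
      ∃ c, (p2 v).testBit c = true ∧ i = n * c
    simp only [m2_bit, p2_bit, lt_of_bits]
    refine ⟨fun i h => h ▸ hv', fun i hi => ⟨fun h => h.elim (fun h => by omega) id, Or.inr⟩,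
      fun i => ⟨fun h => ⟨v, rfl, by omega⟩, ?_⟩⟩
    rintro ⟨c, rfl, h⟩
    omega
  · exact ⟨HB2_vm_lt _, fun i hi => HB2_low hi, fun i => (HB2_hi (HB2_vm_lt _)).trans HB2_sp⟩

/-- mask of a list of atoms -/
noncomputable def HB2_mk (Zt : ℕ → ℕ) (R x : ℕ) : ℕ :=
  orl (x &&& 255) (fun i => am Zt (atom R (x >>> 8 + i)))

theorem HB2_gX {R x i : ℕ} : (gX n Zt R x).testBit i = true ↔
    ∃ j < x &&& 255, (ax n Zt (atom R (x >>> 8 + j))).testBit i = true := by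
  unfold gX
  simp only [fn_eq]
  exact orl_bit

theorem HB2_mk_lt (R x : ℕ) : HB2_mk Zt R x < 2 ^ 512 := lt_of_bits.2 fun i h => by
  obtain ⟨j, -, h⟩ := orl_bit.1 h
  exact lt_of_bits.1 (HB2_atom (n := 0) _).1 _ h

theorem HB2_gX_lo (R x : ℕ) : lo (gX n Zt R x) = HB2_mk Zt R x := HB2_ext fun i => by
  rw [lo_bit, HB2_gX]
  constructor
  · rintro ⟨hi, j, hj, h⟩
    exact orl_bit.2 ⟨j, hj, ((HB2_atom _).2.1 i hi).1 h⟩
  · intro h
    have hi := lt_of_bits.1 (HB2_mk_lt R x) _ h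
    obtain ⟨j, hj, h⟩ := orl_bit.1 h
    exact ⟨hi, j, hj, ((HB2_atom _).2.1 i hi).2 h⟩

theorem HB2_gX_hi {R x : ℕ} (h : HB2_mk Zt R x < 2 ^ n) :
    Spr n (gX n Zt R x >>> 512) (HB2_mk Zt R x) := fun i => by
  rw [Nat.testBit_shiftRight, HB2_gX]
  constructor
  · rintro ⟨j, hj, h'⟩
    obtain ⟨c, hc, e⟩ := ((HB2_atom _).2.2 i).1 h'
    have hm : (HB2_mk Zt R x).testBit c = true := orl_bit.2 ⟨j, hj, hc⟩
    exact ⟨c, lt_of_bits.1 h _ hm, e, hm⟩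
  · rintro ⟨c, -, e, hm⟩
    obtain ⟨j, hj, hc⟩ := orl_bit.1 hm
    exact ⟨j, hj, ((HB2_atom _).2.2 i).2 ⟨c, hc, e⟩⟩

/-- the three kinds of slots -/
theorem HB2_cases (R s : ℕ) :
    (∃ j, cM Zt R s = vm Zt j ∧
      cO n Zt R s = Nat.lor (Nat.shiftLeft (sp n Zt j * vm Zt j) 512) (vm Zt j)) ∨
    (∃ p < 512, ∃ q < 512, cM Zt R s = m2 p q ∧
      cO n Zt R s = Nat.lor (Nat.shiftLeft (ed n p q) 512) (m2 p q)) ∨
    ∃ x, cM Zt R s = HB2_mk Zt R x ∧ cO n Zt R s =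
      Nat.lor (Nat.shiftLeft (gX n Zt R x >>> 512 * HB2_mk Zt R x) 512) (HB2_mk Zt R x) := by
  unfold cM cO
  cases Nat.beq (Nat.land s (nat_lit 3)) (nat_lit 0)
  · cases Nat.beq (Nat.land s (nat_lit 3)) (nat_lit 1)
    · refine Or.inr (Or.inr ⟨s >>> 2, ?_, ?_⟩)
      · simp only [fn_eq, HB2_mk, ← Nat.shiftRight_add]
        rfl
      · rw [← HB2_gX_lo (n := n)]
        rfl
    · exact Or.inr (Or.inl ⟨_, HB2_bt s 2, _, HB2_bt s 11, rfl, rfl⟩)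
  · exact Or.inl ⟨s >>> 2, fn_eq _ _, fn_eq _ _⟩

theorem HB2_m2_lt {p q : ℕ} (hp : p < 512) (hq : q < 512) : m2 p q < 2 ^ 512 :=
  lt_of_bits.2 fun i h => by rcases m2_bit.1 h with h | h <;> omega

theorem cM_lt (R s : ℕ) : cM Zt R s < 2 ^ 512 := by
  rcases HB2_cases (n := 0) (Zt := Zt) R s with ⟨j, e, -⟩ | ⟨p, hp, q, hq, e, -⟩ | ⟨x, e, -⟩ <;>
    rw [e]
  exacts [HB2_vm_lt _, HB2_m2_lt hp hq, HB2_mk_lt _ _]
theorem lo_cO (R s : ℕ) : lo (cO n Zt R s) = cM Zt R s := by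
  rcases HB2_cases (n := n) (Zt := Zt) R s with
    ⟨j, e, e'⟩ | ⟨p, hp, q, hq, e, e'⟩ | ⟨x, e, e'⟩ <;> rw [e, e']
  exacts [HB2_lo (HB2_vm_lt _), HB2_lo (HB2_m2_lt hp hq), HB2_lo (HB2_mk_lt _ _)]

theorem HB2_inj {c d p q : ℕ} (hd : d < n) (hq : q < n) (h : n * c + d = n * p + q) :
    c = p ∧ d = q := by
  have h1 := congrArg (· % n) h
  simp only [Nat.mul_add_mod, Nat.mod_eq_of_lt hd, Nat.mod_eq_of_lt hq] at h1
  subst h1
  exact ⟨Nat.eq_of_mul_eq_mul_left (by omega) (Nat.add_right_cancel h), rfl⟩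

theorem cO_sq (hmat : MAT_s) {R s c d : ℕ} (h : cM Zt R s < 2 ^ n) (hc : c < n) (hd : d < n)
    (hcd : c ≠ d) : (cO n Zt R s).testBit (512 + (n * c + d)) = true ↔
      (cM Zt R s).testBit c = true ∧ (cM Zt R s).testBit d = true := by
  have hm := (hmat n (by omega)).1
  rcases HB2_cases (n := n) (Zt := Zt) R s with
    ⟨j, e, e'⟩ | ⟨p, hp, q, hq, e, e'⟩ | ⟨x, e, e'⟩ <;> rw [e] at h <;> rw [e, e']
  · have hs : Spr n (sp n Zt j) (vm Zt j) := fun i => HB2_sp.trans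
      ⟨fun ⟨c, h1, h2⟩ => ⟨c, lt_of_bits.1 h _ h1, h2, h1⟩, fun ⟨c, _, h2, h1⟩ => ⟨c, h1, h2⟩⟩
    rw [HB2_hi (HB2_vm_lt _), hm _ _ _ hs h c d hd]
    exact and_iff_right hc
  · have hp' : p < n := lt_of_bits.1 h _ (m2_bit.2 (Or.inl rfl))
    have hq' : q < n := lt_of_bits.1 h _ (m2_bit.2 (Or.inr rfl))
    rw [HB2_hi (HB2_m2_lt hp hq), m2_bit, m2_bit]
    refine (m2_bit (x := n * p + q) (y := n * q + p)).trans ⟨?_, ?_⟩
    · rintro (h | h)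
      · exact ⟨Or.inl (HB2_inj hd hq' h).1, Or.inr (HB2_inj hd hq' h).2⟩
      · exact ⟨Or.inr (HB2_inj hd hp' h).1, Or.inl (HB2_inj hd hp' h).2⟩
    · rintro ⟨rfl | rfl, rfl | rfl⟩
      exacts [absurd rfl hcd, Or.inl rfl, Or.inr rfl, absurd rfl hcd]
  · rw [HB2_hi (HB2_mk_lt _ _), hm _ _ _ (HB2_gX_hi h) h c d hd]
    exact and_iff_right hc

end Pool.Agent.MP_797bdc_co.Lk.H
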