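import Pool.Agent.MP_797bdc_co.Lk.HB1
import Pool.Agent.MP_797bdc_co.Lk.HB2

/-! Checker H: one pair. -/

namespace Pool.Agent.MP_797bdc_co.Lk.H

open Finset

variable {n : ℕ} {M : ℕ → ℕ} {Zt It : ℕ → ℕ} {u0 u1 u2 : ℕ}

theorem HB3_add {x y : ℕ} (h : Nat.add x y = 0) : x = 0 ∧ y = 0 := Nat.add_eq_zero_iff.1 h
theorem HB3_sub {x y : ℕ} (h : Nat.sub x y = 0) : x ≤ y := Nat.sub_eq_zero_iff_le.1 h
theorem HB3_lor {x y i : ℕ} :
    (Nat.lor x y).testBit i = true ↔ x.testBit i = true ∨ y.testBit i = true := by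
  rw [← Bool.or_eq_true_iff, ← Nat.testBit_or]; rfl
theorem HB3_land {x y i : ℕ} :
    (Nat.land x y).testBit i = true ↔ x.testBit i = true ∧ y.testBit i = true := by
  rw [← Bool.and_eq_true_iff, ← Nat.testBit_and]; rfl
theorem HB3_shr {x k i : ℕ} : (Nat.shiftRight x k).testBit i = x.testBit (k + i) :=
  Nat.testBit_shiftRight x

theorem HB3_key {h a b : ℕ} (hb : b < 512) (e : h &&& 262143 = a * 512 + b) :
    (h >>> 9) &&& 511 = a ∧ h &&& 511 = b := by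
  have e1 : h &&& 262143 = h % 262144 := Nat.and_two_pow_sub_one_eq_mod h 18
  have e2 : h &&& 511 = h % 512 := Nat.and_two_pow_sub_one_eq_mod h 9
  have e3 : (h >>> 9) &&& 511 = (h >>> 9) % 512 := Nat.and_two_pow_sub_one_eq_mod _ 9
  rw [e3, e2, Nat.shiftRight_eq_div_pow]
  rw [e1] at e
  omega

/-- The components `j < T` of a pair. -/
theorem HB3_abs (hmat : MAT_s) (hM : SymM n M)
    (hu : ({u0, u1, u2} : Finset ℕ) ∈ Gd n M) {ON a b T g U V : ℕ} {R s : ℕ → ℕ}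
    (hO : Spr n ON (2 ^ n - 1)) (hab : a < b) (hb : b < n)
    (hU : ∀ t, U.testBit t = true ↔ ∃ j < T, (cO n Zt (R j) (s j)).testBit t = true)
    (hV : ∀ t, ∀ j < T, g ≤ j → (cO n Zt (R j) (s j)).testBit t = true → V.testBit t = true)
    (e4 : ∑ j ∈ range T, cM Zt (R j) (s j) = lo U)
    (e5 : Nat.land (lo U) (Nat.lor (row n (M a) b) (m2 a b)) = 0) (e6 : lo U ≤ ful n)
    (e8 : df (Nat.land (mm n M u0 u1 u2 a) (mm n M u0 u1 u2 b))
      (Nat.lor (Nat.shiftRight U 512) (rc n M ON a b)) = 0)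
    (e9 : Nat.land (Nat.xor (mm n M u0 u1 u2 a) (mm n M u0 u1 u2 b)) (Nat.shiftRight V 512) = 0) :
    (∀ c < n, ∀ d < n, Gm (Gd n M) {u0, u1, u2} {a, c, d} → Gm (Gd n M) {u0, u1, u2} {b, c, d} →
      ({a, b, c} : Finset ℕ) ∉ Gd n M → ({a, b, d} : Finset ℕ) ∉ Gd n M →
      ∃ j < T, (cM Zt (R j) (s j)).testBit c = true) ∧
    ∀ j < T, Wf n (Gd n M) a b (cM Zt (R j) (s j)) ∧
      (∀ c, (cM Zt (R j) (s j)).testBit c = true → ∀ d < n, Gm (Gd n M) {u0, u1, u2} {a, c, d} →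
        Gm (Gd n M) {u0, u1, u2} {b, c, d} → ({a, b, d} : Finset ℕ) ∉ Gd n M →
        (cM Zt (R j) (s j)).testBit d = true) ∧
      (g ≤ j → Par (Gd n M) {u0, u1, u2} a b (cM Zt (R j) (s j))) := by
  have ha : a < n := hab.trans hb
  have hlo : ∀ t, (lo U).testBit t = true ↔ ∃ j < T, (cM Zt (R j) (s j)).testBit t = true := by
    intro t
    simp only [lo_bit, hU, ← lo_cO (n := n)]
    exact ⟨fun ⟨h, j, hj, h'⟩ => ⟨j, hj, h, h'⟩, fun ⟨j, hj, h, h'⟩ => ⟨h, j, hj, h'⟩⟩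
  have hdj := orl_disj (k := T) (g := fun j => cM Zt (R j) (s j)) (by
    rw [sml_eq, e4]
    exact le_of_eq (Nat.eq_of_testBit_eq fun t => Bool.eq_iff_iff.2 ((hlo t).trans orl_bit.symm)))
  have hlt : ∀ t, (lo U).testBit t = true → t < n := lt_of_bits.1 (by
    rw [ful_eq] at e6
    have := Nat.two_pow_pos n
    omega)
  have hwf : ∀ j < T, Wf n (Gd n M) a b (cM Zt (R j) (s j)) := fun j hj => ⟨hab, hb, fun c hc => by
    have h1 := (hlo c).2 ⟨j, hj, hc⟩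
    have h2 := land_zero.1 e5 c h1
    rw [HB3_lor, m2_bit] at h2
    refine ⟨hlt c h1, fun e => h2 (.inr (.inl e)), fun e => h2 (.inr (.inr e)), fun e => h2 (.inl ?_)⟩
    have h3 := (Lf_bit hM ha hb).2 ⟨hlt c h1, e⟩
    rwa [Lf, fn_eq] at h3⟩
  have hC : ∀ j < T, cM Zt (R j) (s j) < 2 ^ n := fun j hj =>
    lt_of_bits.2 fun c hc => ((hwf j hj).2.2 c hc).1
  have hed : ∀ c < n, ∀ d < n, Gm (Gd n M) {u0, u1, u2} {a, c, d} →
      Gm (Gd n M) {u0, u1, u2} {b, c, d} →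
      ({a, b, c} : Finset ℕ) ∉ Gd n M → ({a, b, d} : Finset ℕ) ∉ Gd n M →
      ∃ j < T, (cM Zt (R j) (s j)).testBit c = true ∧ (cM Zt (R j) (s j)).testBit d = true := by
    intro c hc d hd h1 h2 h3 h4
    have hcd : c ≠ d := (hM.2 a ha c hc d hd ((mem_Gd hM ha hc hd).1 h1.1)).2.2.1
    have h5 := df_zero.1 e8 (n * c + d)
      (HB3_land.2 ⟨(mm_bit hM hu ha hc hd).2 h1, (mm_bit hM hu hb hc hd).2 h2⟩)
    rcases HB3_lor.1 h5 with h5 | h5
    · rw [HB3_shr] at h5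
      obtain ⟨j, hj, h5⟩ := (hU _).1 h5
      exact ⟨j, hj, (cO_sq hmat (hC j hj) hc hd hcd).1 h5⟩
    · exact ((rc_bit hmat hM hO ha hb hc hd h5).elim h3 h4).elim
  refine ⟨fun c hc d hd h1 h2 h3 h4 => (hed c hc d hd h1 h2 h3 h4).imp fun j h => ⟨h.1, h.2.1⟩,
    fun j hj => ⟨hwf j hj, fun c hc d hd h1 h2 h4 => ?_, fun hg c d hc hd hcd => ?_⟩⟩
  · obtain ⟨hcn, -, -, h3⟩ := (hwf j hj).2.2 c hc
    obtain ⟨k, hk, h5, h6⟩ := hed c hcn d hd h1 h2 h3 h4
    by_cases e : j = k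
    · exact e ▸ h6
    · exact (land_zero.1 (hdj j hj k hk e) c hc h5).elim
  · have hcn := ((hwf j hj).2.2 c hc).1
    have hdn := ((hwf j hj).2.2 d hd).1
    have h1 := hV _ j hj hg ((cO_sq hmat (hC j hj) hcn hdn hcd).2 ⟨hc, hd⟩)
    have h2 := fun h => land_zero.1 e9 (n * c + d) h (HB3_shr.trans h1)
    rw [← mm_bit hM hu ha hcn hdn, ← mm_bit hM hu hb hcn hdn, ← Bool.eq_iff_iff]
    by_contra h3
    exact h2 ((Nat.testBit_xor _ _ _).trans (by simpa using h3))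

theorem pair_sound (hmat : MAT_s) (hM : SymM n M) (hn : n ≤ 512)
    (hu : ({u0, u1, u2} : Finset ℕ) ∈ Gd n M) {NI PG PM PS ON : ℕ} {SM : ℕ → ℕ → ℕ}
    (hO : Spr n ON (2 ^ n - 1)) {a b r : ℕ} (hab : a < b) (hb : b < n)
    (h : pairOK n M Zt It u0 u1 u2 NI PG PM PS ON SM a b r = true) :
    (mkI NI PG PM PS Zt It).Cov n (Gd n M) {u0, u1, u2} a b ∧
    ∀ i < pg r + pl r, ptr r i < ptr r (i + 1) ∧ ptr r i < NI ∧ ia It (ptr r i) = a ∧
      ib It (ptr r i) = b ∧ (mkI NI PG PM PS Zt It).Good n (Gd n M) {u0, u1, u2} SM (ptr r i) := by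
  have ha : a < n := hab.trans hb
  obtain ⟨h1, h2⟩ := HB3_add (z0_iff.1 h)
  obtain ⟨e8, e9⟩ := HB3_add h2
  obtain ⟨h1, h2⟩ := HB3_add h1
  obtain ⟨e4, h2⟩ := HB3_add h2
  obtain ⟨e5, h2⟩ := HB3_add h2
  obtain ⟨e6, e7⟩ := HB3_add h2
  obtain ⟨e1, h2⟩ := HB3_add h1
  obtain ⟨e2, e3⟩ := HB3_add h2
  replace e1 : ∀ i < pg r + pl r,
      er n Zt It PM PS SM a b (nb n M a b) (ptr r i) (ptr r (Nat.add i (nat_lit 1))) = 0 := by
    obtain ⟨f1, f2⟩ := HB3_add e1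
    intro i hi
    by_cases c : i < pg r
    · exact sml_zero.1 f1 i c
    · obtain ⟨j, rfl⟩ := Nat.exists_eq_add_of_le (Nat.le_of_not_lt c)
      exact sml_zero.1 f2 j (by omega)
  replace e2 : ptr r (pg r + pl r) ≤ NI := HB3_sub e2
  replace e3 : ∀ i < pg r, ptr r i + 1 ≤ PG := fun i hi => HB3_sub (sml_zero.1 e3 i hi)
  replace e4 := xor_zero.1 e4
  clear h h1 h2
  generalize hg : pg r = g at *
  generalize hl : pl r = l at *
  generalize hs : ps r = m at *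
  let R : ℕ → ℕ := fun j => if j < g + l then ch It (ptr r j) else r
  let s : ℕ → ℕ := fun j => if j < g + l then isl It (ptr r j) else sl r (j - (g + l))
  have r1 : ∀ j < g + l, R j = ch It (ptr r j) ∧ s j = isl It (ptr r j) := fun j hj =>
    ⟨if_pos hj, if_pos hj⟩
  have r2 : ∀ i, R (g + l + i) = r ∧ s (g + l + i) = sl r i := fun i =>
    ⟨if_neg (by omega), (if_neg (by omega)).trans (by rw [Nat.add_sub_cancel_left])⟩
  have o1 : ∀ j < g + l, cO n Zt (R j) (s j) = iO n Zt It (ptr r j) := fun j hj => by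
    rw [(r1 j hj).1, (r1 j hj).2]; rfl
  have c1 : ∀ j < g + l, cM Zt (R j) (s j) = iC Zt It (ptr r j) := fun j hj => by
    rw [(r1 j hj).1, (r1 j hj).2]; rfl
  have o2 : ∀ i, cO n Zt (R (g + l + i)) (s (g + l + i)) = cO n Zt r (sl r i) := fun i => by
    rw [(r2 i).1, (r2 i).2]
  have hV : ∀ t, ∀ j < g + l + m, g ≤ j → (cO n Zt (R j) (s j)).testBit t = true →
      (Nat.lor (orl l fun i => iO n Zt It (ptr r (Nat.add g i)))
        (orl m fun i => cO n Zt r (sl r i))).testBit t = true := by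
    intro t j hj hgj ht
    rw [HB3_lor, orl_bit, orl_bit]
    by_cases e : j < g + l
    · obtain ⟨i, rfl⟩ := Nat.exists_eq_add_of_le hgj
      exact .inl ⟨i, by omega, o1 _ e ▸ ht⟩
    · obtain ⟨i, rfl⟩ := Nat.exists_eq_add_of_le (not_lt.1 e)
      exact .inr ⟨i, by omega, o2 i ▸ ht⟩
  obtain ⟨k1, k2⟩ := HB3_abs (T := g + l + m) (R := R) (s := s) hmat hM hu hO hab hb
    (fun t => by
      constructor
      · intro ht
        rw [HB3_lor, HB3_lor, orl_bit, orl_bit, orl_bit] at ht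
        rcases ht with (⟨i, hi, ht⟩ | ⟨i, hi, ht⟩) | ⟨i, hi, ht⟩
        · exact ⟨g + i, by omega, by rw [o1 (g + i) (by omega)]; exact ht⟩
        · exact ⟨g + l + i, by omega, (o2 i).symm ▸ ht⟩
        · exact ⟨i, by omega, by rw [o1 i (by omega)]; exact ht⟩
      · rintro ⟨j, hj, ht⟩
        rw [HB3_lor]
        by_cases e : g ≤ j
        · exact .inl (hV t j hj e ht)
        · exact .inr (orl_bit.2 ⟨j, by omega, o1 j (by omega) ▸ ht⟩))
    hV (by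
      rw [← e4, sum_range_add, sum_range_add, sml_eq, sml_eq, sml_eq]
      refine congrArg₂ _ (congrArg₂ _ (sum_congr rfl fun i hi => ?_) (sum_congr rfl fun i hi => ?_))
        (sum_congr rfl fun i hi => ?_)
      · rw [← lo_cO (n := n), o1 _ (by have := mem_range.1 hi; omega)]
      · rw [← lo_cO (n := n), o1 _ (by have := mem_range.1 hi; omega)]; rfl
      · rw [← lo_cO (n := n), o2])
    e5 (HB3_sub e6) e8 e9
  have f : ∀ i < g + l, ptr r i < ptr r (i + 1) ∧ ia It (ptr r i) = a ∧ ib It (ptr r i) = b ∧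
      (∀ t, (dup (iC Zt It (ptr r i))).testBit t = true → (nb n M a b).testBit t = true →
        (iLM It (ptr r i)).testBit t = true) ∧
      (PM ≤ ptr r i → ptr r i < PS → ∀ c, (iC Zt It (ptr r i)).testBit c = true →
        (SM a b).testBit c = true) := by
    intro i hi
    obtain ⟨h1, h2⟩ := HB3_add (e1 i hi)
    obtain ⟨x1, x2⟩ := HB3_add h1
    obtain ⟨x3, x4⟩ := HB3_add h2
    have e : lo (iO n Zt It (ptr r i)) = iC Zt It (ptr r i) := lo_cO _ _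
    rw [e] at x3 x4
    obtain ⟨y1, y2⟩ := HB3_key (by omega) (xor_zero.1 x1)
    refine ⟨HB3_sub x2, y1, y2, fun t t1 t2 => df_zero.1 x3 t (HB3_land.2 ⟨t1, t2⟩), fun p1 p2 => ?_⟩
    rw [Nat.ble_eq.to_iff.2 p1, (Nat.ble_eq.to_iff.2 p2 : Nat.ble (Nat.add _ 1) PS = true)] at x4
    exact df_zero.1 x4
  have mono : ∀ k i, i + k = g + l → ptr r i ≤ NI := by
    intro k
    induction k with
    | zero => intro i hi; exact (show i = g + l from hi) ▸ e2
    | succ k ih => intro i hi; exact (f i (by omega)).1.le.trans (ih (i + 1) (by omega))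
  have hNI : ∀ i < g + l, ptr r i < NI := fun i hi =>
    (f i hi).1.trans_le (mono (g + l - (i + 1)) (i + 1) (by omega))
  refine ⟨fun c hc d hd h1 h2 h3 h4 => ?_, fun i hi => ?_⟩
  · obtain ⟨j, hj, hc'⟩ := k1 c hc d hd h1 h2 h3 h4
    by_cases e : j < g + l
    · exact .inr ⟨ptr r j, hNI j e, (f j e).2.1, (f j e).2.2.1, by rw [c1 j e] at hc'; exact hc'⟩
    · obtain ⟨w1, w2, w3⟩ := k2 j hj
      obtain ⟨i, rfl⟩ := Nat.exists_eq_add_of_le (not_lt.1 e)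
      have z : ∀ c, (cM Zt (R (g + l + i)) (s (g + l + i))).testBit c = true →
          (lo (orl m fun i => cO n Zt r (sl r i))).testBit c = true := fun c hc => by
        rw [← lo_cO (n := n), o2, lo_bit] at hc
        exact lo_bit.2 ⟨hc.1, orl_bit.2 ⟨i, by omega, hc.2⟩⟩
      exact .inl ⟨_, ⟨w1, w2, fun c hc d hd h1 h2 => (land_zero.1 e7 _ (dup_lo (z c hc))
          (nb_lo hM hn ha hb (w1.2.2 c hc).1 hd h1 h2)).elim,
        fun c hc d hd h1 h2 => (land_zero.1 e7 _ (dup_hi (z c hc))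
          (nb_hi hM hn ha hb (w1.2.2 c hc).1 hd h1 h2)).elim⟩, w3 (by omega), hc'⟩
  · obtain ⟨f1, f2, f3, f4, f5⟩ := f i hi
    obtain ⟨w1, w2, w3⟩ := k2 i (by omega)
    rw [c1 i hi] at w1 w2 w3
    refine ⟨f1, hNI i hi, f2, f3, ?_⟩
    show GoodC n _ _ (ia It _) (ib It _) (iC Zt It _) (iLM It _) ∧
      (PG ≤ _ → Par _ _ (ia It _) (ib It _) (iC Zt It _)) ∧
      (PM ≤ _ → _ < PS → ∀ c, (iC Zt It _).testBit c = true →
        (SM (ia It _) (ib It _)).testBit c = true)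
    rw [f2, f3]
    refine ⟨⟨w1, w2, fun c hc d hd h1 h2 => f4 _ (dup_lo hc)
        (nb_lo hM hn ha hb (w1.2.2 c hc).1 hd h1 h2),
      fun c hc d hd h1 h2 => f4 _ (dup_hi hc) (nb_hi hM hn ha hb (w1.2.2 c hc).1 hd h1 h2)⟩,
      fun p => w3 (not_lt.1 fun q => ?_), f5⟩
    have := e3 i q
    omega

end Pool.Agent.MP_797bdc_co.Lk.H
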