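import Pool.Agent.MP_797bdc_co.Lk.HB3

/-! Checker H: all pairs, counting the items. -/

namespace Pool.Agent.MP_797bdc_co.Lk.H

open Finset

variable {n : ℕ} {M : ℕ → ℕ} {Zt It : ℕ → ℕ} {u0 u1 u2 : ℕ}

open Classical in
/-- the good items with key below `x` -/
noncomputable def hb4F (NI : ℕ) (Q : ℕ → Prop) (key : ℕ → ℕ) (x : ℕ) : Finset ℕ :=
  (range NI).filter fun p => Q p ∧ key p < x

theorem hb4_mem {NI : ℕ} {Q : ℕ → Prop} {key : ℕ → ℕ} {x p : ℕ} :
    p ∈ hb4F NI Q key x ↔ p < NI ∧ Q p ∧ key p < x := by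
  simp only [hb4F, mem_filter, mem_range]

theorem hb4_mono {NI : ℕ} {Q : ℕ → Prop} {key : ℕ → ℕ} {x y : ℕ} (h : x ≤ y) :
    (hb4F NI Q key x).card ≤ (hb4F NI Q key y).card :=
  card_le_card fun _ hp => by
    rw [hb4_mem] at hp ⊢; exact ⟨hp.1, hp.2.1, hp.2.2.trans_le h⟩

theorem hb4_one {NI : ℕ} {Q : ℕ → Prop} {key : ℕ → ℕ} {y c : ℕ} {f : ℕ → ℕ}
    (h : ∀ j < c, f j < f (j + 1) ∧ f j < NI ∧ key (f j) = y ∧ Q (f j)) :
    (hb4F NI Q key y).card + c ≤ (hb4F NI Q key (y + 1)).card := by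
  have m : ∀ j, j ≤ c → ∀ i < j, f i < f j := by
    intro j
    induction j with
    | zero => intro _ i hi; omega
    | succ j ih =>
      intro hj i hi
      have := (h j hj).1
      rcases Nat.lt_succ_iff_lt_or_eq.1 hi with e | rfl
      · exact (ih (by omega) i e).trans this
      · exact this
  have hc : ((range c).image f).card = c := by
    rw [card_image_of_injOn, card_range]
    intro i hi j hj e
    rw [coe_range, Set.mem_Iio] at hi hj
    rcases lt_trichotomy i j with l | l | l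
    · exact absurd e (m j hj.le i l).ne
    · exact l
    · exact absurd e (m i hi.le j l).ne'
  rw [← hc, ← card_union_of_disjoint]
  · refine card_le_card fun p hp => ?_
    rw [mem_union, mem_image, hb4_mem] at hp
    rw [hb4_mem]
    rcases hp with hp | ⟨j, hj, rfl⟩
    · exact ⟨hp.1, hp.2.1, by omega⟩
    · obtain ⟨-, h2, h3, h4⟩ := h j (mem_range.1 hj)
      exact ⟨h2, h4, by omega⟩
  · rw [disjoint_left]
    intro p hp hq
    obtain ⟨j, hj, rfl⟩ := mem_image.1 hq
    have := (h j (mem_range.1 hj)).2.2.1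
    have := (hb4_mem.1 hp).2.2
    omega

theorem hb4_many {NI : ℕ} {Q : ℕ → Prop} {key : ℕ → ℕ} {y k : ℕ} {c : ℕ → ℕ} {f : ℕ → ℕ → ℕ}
    (h : ∀ i < k, ∀ j < c i, f i j < f i (j + 1) ∧ f i j < NI ∧ key (f i j) = y + i ∧ Q (f i j)) :
    (hb4F NI Q key y).card + ∑ i ∈ range k, c i ≤ (hb4F NI Q key (y + k)).card := by
  induction k with
  | zero => simp
  | succ k ih =>
    have h1 := ih fun i hi => h i (by omega)
    have h2 := hb4_one (h k (by omega))
    rw [sum_range_succ, ← add_assoc y]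
    omega

theorem pairs_sound (hmat : MAT_s) (hM : SymM n M) (hn : n ≤ 512)
    (hu : ({u0, u1, u2} : Finset ℕ) ∈ Gd n M) {NI PG PM PS ON : ℕ} {SM : ℕ → ℕ → ℕ}
    (hO : Spr n ON (2 ^ n - 1)) {x t : ℕ}
    (h : Ch (fun x t x' t' => ∃ a b0 k R,
      unitOK n M Zt It u0 u1 u2 NI PG PM PS ON SM x t x' t' a b0 k R = true) 0 0 x t)
    (hx : 512 * (n - 2) + n ≤ x) (ht : NI ≤ t) :
    (∀ p < NI, (mkI NI PG PM PS Zt It).Good n (Gd n M) {u0, u1, u2} SM p) ∧
    ∀ a b, a < b → b < n → (mkI NI PG PM PS Zt It).Cov n (Gd n M) {u0, u1, u2} a b := by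
  have inv : (∀ a b, a < b → b < n → 512 * a + b < x →
      (mkI NI PG PM PS Zt It).Cov n (Gd n M) {u0, u1, u2} a b) ∧
      t ≤ (hb4F NI ((mkI NI PG PM PS Zt It).Good n (Gd n M) {u0, u1, u2} SM)
        (fun p => 512 * ia It p + ib It p) x).card := by
    clear hx ht
    induction h with
    | nil => exact ⟨fun a b _ _ h => absurd h (Nat.not_lt_zero _), Nat.zero_le _⟩
    | @snoc y s y' s' _ e ih =>
      obtain ⟨a, b0, k, R, e⟩ := e
      simp only [unitOK, an_iff, orr_iff, lt_iff, al_iff, fb_eq, Nat.ble_eq, Nat.beq_eq, sml_eq,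
        Nat.add_eq, Nat.mul_eq] at e
      obtain ⟨⟨⟨h1, h2⟩, h3⟩, h4, h5, h6⟩ := e
      have h3 : y' = a * 512 + b0 + k := h3
      have h4 : y = a * 512 + b0 ∨ (b0 = a + 1 ∧ y ≤ a * 512) ∧ a * 512 + n ≤ y + 512 := h4
      have p := fun i (hi : i < k) => pair_sound hmat hM hn hu hO (by omega : a < b0 + i)
        (by omega : b0 + i < n) (h5 i hi)
      refine ⟨fun a' b' l1 l2 l3 => ?_, ?_⟩
      · by_cases l : 512 * a' + b' < y
        · exact ih.1 a' b' l1 l2 l
        · obtain rfl : a' = a := by omega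
          obtain ⟨i, rfl⟩ : ∃ i, b' = b0 + i := ⟨b' - b0, by omega⟩
          exact (p i (by omega)).1
      · have q := hb4_many (NI := NI) (y := 512 * a + b0) (k := k)
          (Q := (mkI NI PG PM PS Zt It).Good n (Gd n M) {u0, u1, u2} SM)
          (key := fun p => 512 * ia It p + ib It p)
          (c := fun i => pg (prec R i) + pl (prec R i)) (f := fun i => ptr (prec R i))
          fun i hi j hj => by
            obtain ⟨a1, a2, a3, a4, a5⟩ := (p i hi).2 j hj
            exact ⟨a1, a2, by simp only [a3, a4]; omega, a5⟩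
        have r := hb4_mono (NI := NI)
          (Q := (mkI NI PG PM PS Zt It).Good n (Gd n M) {u0, u1, u2} SM)
          (key := fun p => 512 * ia It p + ib It p) (by omega : y ≤ 512 * a + b0)
        have := ih.2
        rw [show y' = 512 * a + b0 + k by omega]
        omega
  refine ⟨fun p hp => ?_, fun a b l1 l2 => inv.1 a b l1 l2 (by omega)⟩
  have e := eq_of_subset_of_card_le (fun q hq => mem_range.2 (hb4_mem.1 hq).1)
    ((card_range NI).trans_le (ht.trans inv.2))
  exact (hb4_mem.1 (e ▸ mem_range.2 hp)).2.1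

end Pool.Agent.MP_797bdc_co.Lk.H
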