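import Pool.Agent.MP_797bdc_co.Lk.HB1

/-! Checker H: the tests for one pair of tokens. -/

namespace Pool.Agent.MP_797bdc_co.Lk.H

open Finset

variable {n : ℕ} {M : ℕ → ℕ} {Zt It : ℕ → ℕ} {u0 u1 u2 : ℕ}

theorem HB5_hm1 (A C T : ℕ) : hm1 A C T = if Nat.land A T = 0 then 0 else
    if Nat.land A T = T then C else
    if Nat.land (df T A) C = 0 then 0 else df A T := by
  have e : Nat.xor T (Nat.land A T) = df T A := by
    show T ^^^ (A &&& T) = T ^^^ (T &&& A)
    rw [Nat.and_comm]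
  have b : ∀ (x y p q : ℕ), (Bool.rec p q (Nat.beq x y) : ℕ) = if x = y then q else p := by
    intro x y p q
    by_cases h : x = y
    · rw [if_pos h, Nat.beq_eq.to_iff.2 h]
    · rw [if_neg h]
      have : Nat.beq x y = false := by
        cases hb : Nat.beq x y
        · rfl
        · exact absurd (Nat.beq_eq.to_iff.1 hb) h
      rw [this]
  unfold hm1
  rw [b, b, b, e]
  rfl
theorem HB5_land (x y i : ℕ) : (Nat.land x y).testBit i = (x.testBit i && y.testBit i) :=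
  Nat.testBit_and x y i
theorem HB5_lor (x y i : ℕ) : (Nat.lor x y).testBit i = (x.testBit i || y.testBit i) :=
  Nat.testBit_or x y i
theorem HB5_xor (x y i : ℕ) : (Nat.xor x y).testBit i = (x.testBit i ^^ y.testBit i) :=
  Nat.testBit_xor x y i
theorem HB5_df {x y i : ℕ} :
    (df x y).testBit i = true ↔ x.testBit i = true ∧ ¬ y.testBit i = true := by
  rw [df_bit]; simp
theorem HB5_rot (x z w : ℕ) : ({x, z, w} : Finset ℕ) = {z, w, x} := by
  ext t; simp only [mem_insert, mem_singleton]; grind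

theorem hm_mem {G : Finset (Finset ℕ)} {ea eb eC eA : ℕ → ℕ} {m : ℕ}
    (hw : ∀ i < m, Wf n G (ea i) (eb i) (eC i)) (hA : ∀ i, eA i = m2 (ea i) (eb i))
    {z w v : ℕ} (hzw : z ≠ w) (h : (hm eA eC m (m2 z w)).testBit v = true) :
    ({z, w, v} : Finset ℕ) ∈ HE ea eb eC m := by
  obtain ⟨i, hi, h⟩ := orl_bit.1 h
  refine ⟨i, hi, ?_⟩
  have hab : ea i ≠ eb i := (hw i hi).1.ne
  rw [hA, HB5_hm1] at h
  clear hw hA
  generalize ea i = a at *
  generalize eb i = b at *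
  generalize eC i = C at *
  split_ifs at h with h0 h1 h2
  · exact absurd h (by rw [Nat.zero_testBit]; decide)
  · have hz : (Nat.land (m2 a b) (m2 z w)).testBit z = true := by
      rw [h1]; exact m2_bit.2 (Or.inl rfl)
    have hw' : (Nat.land (m2 a b) (m2 z w)).testBit w = true := by
      rw [h1]; exact m2_bit.2 (Or.inr rfl)
    rw [HB5_land, Bool.and_eq_true, m2_bit] at hz hw'
    refine ⟨v, h, ?_⟩
    ext t; simp only [mem_insert, mem_singleton]; grind
  · exact absurd h (by rw [Nat.zero_testBit]; decide)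
  · rw [land_zero] at h0 h2
    push Not at h0 h2
    obtain ⟨k, k1, k2, -⟩ := h0
    obtain ⟨c, c1, c2, -⟩ := h2
    rw [HB5_df, m2_bit, m2_bit] at c1 h
    rw [m2_bit] at k1 k2
    refine ⟨c, c2, ?_⟩
    ext t; simp only [mem_insert, mem_singleton]; grind
theorem hm_ok {G : Finset (Finset ℕ)} {ea eb eC eA : ℕ → ℕ} {m : ℕ}
    (hw : ∀ i < m, Wf n G (ea i) (eb i) (eC i)) (hA : ∀ i, eA i = m2 (ea i) (eb i)) :
    HmOK (hm eA eC m) (HE ea eb eC m) := by
  rintro z w v hzw hvz hvw ⟨i, hi, c, hc, e⟩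
  refine orl_bit.2 ⟨i, hi, ?_⟩
  have hab : ea i ≠ eb i := (hw i hi).1.ne
  obtain ⟨-, hca, hcb, -⟩ := (hw i hi).2.2 c hc
  rw [hA, HB5_hm1]
  clear hw hA
  generalize ea i = a at *
  generalize eb i = b at *
  generalize eC i = C at *
  have e' : ∀ t, (t = z ∨ t = w ∨ t = v) ↔ (t = a ∨ t = b ∨ t = c) := by
    intro t
    have := Finset.ext_iff.1 e t
    simpa only [mem_insert, mem_singleton] using this
  have ez := (e' z).1 (Or.inl rfl)
  have ew := (e' w).1 (Or.inr (Or.inl rfl))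
  have ev := (e' v).1 (Or.inr (Or.inr rfl))
  clear e e'
  split_ifs with h0 h1 h2
  · exfalso
    rw [land_zero] at h0
    have q1 := h0 z
    have q2 := h0 w
    rw [m2_bit, m2_bit] at q1 q2
    by_cases hz : z = c
    · exact q2 (by grind) (Or.inr rfl)
    · exact q1 (by grind) (Or.inl rfl)
  · have hz : (Nat.land (m2 a b) (m2 z w)).testBit z = true := by
      rw [h1]; exact m2_bit.2 (Or.inl rfl)
    have hw' : (Nat.land (m2 a b) (m2 z w)).testBit w = true := by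
      rw [h1]; exact m2_bit.2 (Or.inr rfl)
    rw [HB5_land, Bool.and_eq_true, m2_bit] at hz hw'
    have : v = c := by grind
    rw [this]; exact hc
  · exfalso
    rw [land_zero] at h2
    have q := h2 c
    rw [HB5_df, m2_bit, m2_bit] at q
    by_cases hv : v = c
    · apply h1
      apply Nat.eq_of_testBit_eq
      intro t
      rw [Bool.eq_iff_iff, HB5_land, Bool.and_eq_true, m2_bit, m2_bit]
      grind
    · exact q ⟨by grind, by grind⟩ hc
  · rw [HB5_df, m2_bit, m2_bit]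
    by_cases hv : v = c
    · exfalso
      apply h1
      apply Nat.eq_of_testBit_eq
      intro t
      rw [Bool.eq_iff_iff, HB5_land, Bool.and_eq_true, m2_bit, m2_bit]
      grind
    · grind
theorem tw_sound (hM : SymM n M) (hu : ({u0, u1, u2} : Finset ℕ) ∈ Gd n M) {Hm Ex : ℕ → ℕ}
    {H : Set (Finset ℕ)} {ex : Finset (Finset ℕ) → Prop} (hH : HmOK Hm H) (hE : ExOK Ex ex)
    {z w x W : ℕ} (hz : z < n) (hw : w < n) (hx : x < n) (hzw : z ≠ w) (hxz : x ≠ z) (hxw : x ≠ w)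
    (h : tw n M u0 u1 u2 Hm Ex z w x W = true) {c : ℕ} (hc : W.testBit c = true) (hcn : c < n)
    (h2 : c ≠ z) (h3 : c ≠ w) : PCq (Gd n M) {u0, u1, u2} H ex x c z w := by
  by_cases hE' : (Ex (m3 x z w)).testBit c = true
  · refine Or.inr (Or.inl ?_)
    have := hE x z w c hxz hxw hzw hE'
    rwa [qd_perm (a' := x) (b' := c) (c' := z) (d' := w) (fun v => by grind)] at this
  have hD : (df W (Ex (m3 x z w))).testBit c = true := HB5_df.2 ⟨hc, hE'⟩
  unfold tw at h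
  rw [cb_eq, cb_eq, tb_eq] at h
  split_ifs at h with h0 h1
  · rw [z0_iff.1 h0, Nat.zero_testBit] at hD; exact absurd hD (by decide)
  · refine Or.inl ⟨?_, ?_⟩
    · rw [HB5_rot x]; exact ((Lm_bit hM hu hz hw).1 h1).2
    · rw [HB5_rot c]; exact ((Lm_bit hM hu hz hw).1 (sb_iff.1 h c hD)).2
  · have h' := land_zero.1 (z0_iff.1 h)
    have qx := h' x (by rw [HB5_lor, p2_bit.2 rfl, Bool.or_true])
    have qc := h' c (by rw [HB5_lor, hD, Bool.true_or])
    rw [HB5_lor, Bool.or_eq_true] at qx qc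
    refine Or.inr (Or.inr ⟨fun g => qx (Or.inl ?_), fun g => qx (Or.inr ?_),
      fun g => qc (Or.inl ?_), fun g => qc (Or.inr ?_)⟩)
    · rw [HB5_rot x] at g; exact (Lm_bit hM hu hz hw).2 ⟨hx, g⟩
    · rw [HB5_rot x] at g; exact hH z w x hzw hxz hxw g
    · rw [HB5_rot c] at g; exact (Lm_bit hM hu hz hw).2 ⟨hcn, g⟩
    · rw [HB5_rot c] at g; exact hH z w c hzw h2 h3 g
theorem tp_sound (hM : SymM n M) (hu : ({u0, u1, u2} : Finset ℕ) ∈ Gd n M) {Ex : ℕ → ℕ}
    {ex : Finset (Finset ℕ) → Prop} (hE : ExOK Ex ex)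
    {x y z W : ℕ} (hx : x < n) (hy : y < n) (hz : z < n) (hxy : x ≠ y) (hxz : x ≠ z) (hyz : y ≠ z)
    (h : tp n M u0 u1 u2 Ex x y z W = true) {w : ℕ} (hw : W.testBit w = true) (hwn : w < n) :
    PPq (Gd n M) {u0, u1, u2} ex x y z w := by
  have h' := df_zero.1 (z0_iff.1 h) w
  by_cases hE' : (Ex (m3 x y z)).testBit w = true
  · exact Or.inl (hE x y z w hxy hxz hyz hE')
  refine Or.inr ?_
  rw [HB5_land, HB5_xor, hw, Bool.and_true] at h'
  have a1 := Lm_bit hM hu (v := w) hx hz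
  have a2 := Lm_bit hM hu (v := w) hy hz
  simp only [hwn, true_and] at a1 a2
  rw [← a1, ← a2]
  revert h'
  cases (Lm n M u0 u1 u2 x z).testBit w <;> cases (Lm n M u0 u1 u2 y z).testBit w <;>
    simp [hE']
theorem tr_sound (hM : SymM n M) (hu : ({u0, u1, u2} : Finset ℕ) ∈ Gd n M) {Hm Ex : ℕ → ℕ}
    {H : Set (Finset ℕ)} {ex : Finset (Finset ℕ) → Prop} (hH : HmOK Hm H) (hE : ExOK Ex ex)
    {x y z W : ℕ} (hx : x < n) (hy : y < n) (hz : z < n) (hxy : x ≠ y) (hxz : x ≠ z) (hyz : y ≠ z)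
    (h : tr n M u0 u1 u2 Hm Ex x y z W = true) {w : ℕ} (hw : W.testBit w = true) (hwn : w < n)
    (h1 : w ≠ x) (h2 : w ≠ y) (h3 : w ≠ z) : PCq (Gd n M) {u0, u1, u2} H ex x y z w := by
  obtain ⟨hp, hq⟩ := an_iff.1 h
  by_cases hE' : (Ex (m3 x y z)).testBit w = true
  · exact Or.inr (Or.inl (hE x y z w hxy hxz hyz hE'))
  rcases tp_sound hM hu hE hx hy hz hxy hxz hyz hp hw hwn with g | g
  · exact Or.inr (Or.inl g)
  by_cases hG : Gm (Gd n M) {u0, u1, u2} {x, z, w}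
  · exact Or.inl ⟨hG, g.1 hG⟩
  have q := land_zero.1 (z0_iff.1 hq) w
    (HB5_df.2 ⟨HB5_df.2 ⟨hw, hE'⟩, fun a => hG ((Lm_bit hM hu hx hz).1 a).2⟩)
  rw [HB5_lor, Bool.or_eq_true] at q
  exact Or.inr (Or.inr ⟨hG, fun a => q (Or.inl (hH x z w hxz h1 h3 a)), fun a => hG (g.2 a),
    fun a => q (Or.inr (hH y z w hyz h2 h3 a))⟩)

end Pool.Agent.MP_797bdc_co.Lk.H
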