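import Pool.Agent.MP_797bdc_co.Lk.HB5

/-! Checker H: all pairs of entries. -/

namespace Pool.Agent.MP_797bdc_co.Lk.H

open Finset

variable {n : ℕ} {M : ℕ → ℕ} {Zt It : ℕ → ℕ} {u0 u1 u2 : ℕ}

theorem HB6_land {x y i : ℕ} :
    (Nat.land x y).testBit i = true ↔ x.testBit i = true ∧ y.testBit i = true := by
  have h : (Nat.land x y).testBit i = (x.testBit i && y.testBit i) := Nat.testBit_and x y i
  rw [h, Bool.and_eq_true]

theorem HB6_xor {x y i : ℕ} :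
    (Nat.xor x y).testBit i = true ↔ ¬ (x.testBit i = true ↔ y.testBit i = true) := by
  have h : (Nat.xor x y).testBit i = (x.testBit i ^^ y.testBit i) := Nat.testBit_xor x y i
  rw [h]
  cases x.testBit i <;> cases y.testBit i <;> simp

theorem HB6_tri {x y z a b c : ℕ} (h : ({x, y, z} : Finset ℕ) = {a, b, c}) :
    ((x = a ∨ x = b ∨ x = c) ∧ (y = a ∨ y = b ∨ y = c) ∧ (z = a ∨ z = b ∨ z = c)) ∧
    (a = x ∨ a = y ∨ a = z) ∧ (b = x ∨ b = y ∨ b = z) ∧ (c = x ∨ c = y ∨ c = z) := by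
  have k := fun t => (Finset.ext_iff.1 h t)
  simp only [mem_insert, mem_singleton] at k
  exact ⟨⟨(k x).1 (.inl rfl), (k y).1 (.inr (.inl rfl)), (k z).1 (.inr (.inr rfl))⟩,
    (k a).2 (.inl rfl), (k b).2 (.inr (.inl rfl)), (k c).2 (.inr (.inr rfl))⟩

theorem HB6_s1 {G : Finset (Finset ℕ)} {u : Finset ℕ} {H : Set (Finset ℕ)}
    {ex : Finset (Finset ℕ) → Prop} {x y z w : ℕ} (h : PCq G u H ex x y z w) :
    PCq G u H ex y x z w := by
  rcases h with h | h | h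
  · exact .inl h.symm
  · exact .inr (.inl ((qd_perm (fun v => or_left_comm) : qd x y z w = qd y x z w) ▸ h))
  · exact .inr (.inr ⟨h.2.2.1, h.2.2.2, h.1, h.2.1⟩)

theorem HB6_s2 {G : Finset (Finset ℕ)} {u : Finset ℕ} {H : Set (Finset ℕ)}
    {ex : Finset (Finset ℕ) → Prop} {x y z w : ℕ} (h : PCq G u H ex x y z w) :
    PCq G u H ex x y w z := by
  unfold PCq at h ⊢
  rw [pair_comm w z, (qd_perm (fun v => by rw [@or_comm (v = w)]) : qd x y w z = qd x y z w)]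
  exact h

theorem HB6_tk (a b C : ℕ) : Tk a b C = Tk b a C := by
  unfold Tk
  simp only [insert_comm a b]

/-- the conclusion for two entries -/
def HB6_P (G : Finset (Finset ℕ)) (u : Finset ℕ) (H : Set (Finset ℕ))
    (ex : Finset (Finset ℕ) → Prop) (g : Bool) (T T' : Set (Finset ℕ)) : Prop :=
  (∀ x y z w : ℕ, x ≠ y → x ≠ z → x ≠ w → y ≠ z → y ≠ w → z ≠ w →
    ({x, y, z} : Finset ℕ) ∈ T → ({x, y, w} : Finset ℕ) ∈ T' →
    ({x, y, z} : Finset ℕ) ∉ T' → ({x, y, w} : Finset ℕ) ∉ T → PCq G u H ex x y z w) ∧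
  ∀ t, t ∈ T → t ∈ T' → g = true

theorem HB6_nz {x y i : ℕ} (h : x.testBit i = true) (h' : y.testBit i = true) :
    ¬ z0 (Nat.land x y) = true := fun e => land_zero.1 (z0_iff.1 e) i h h'

theorem HB6_k3 {v y z p c : ℕ} (e1 : v ≠ y) (e2 : v ≠ z) (e3 : y ≠ z)
    (h : y = v ∨ y = p ∨ y = c) (h' : z = v ∨ z = p ∨ z = c) :
    (y = p ∧ z = c) ∨ (y = c ∧ z = p) := by omega

theorem HB6_k4 {v x y z w : ℕ} (e : z ≠ w) (h : v = x ∨ v = y ∨ v = z)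
    (h' : v = x ∨ v = y ∨ v = w) : v = x ∨ v = y := by omega

theorem HB6_b {v p q i : ℕ} (e1 : v ≠ p) (e : p ≠ q) :
    ((i = v ∨ i = p) ∧ (i = v ∨ i = q) ↔ i = v) ∧ (¬ (i = v ∨ i = p ↔ i = v) ↔ i = p) := by omega

theorem HB6_one (hn : n ≤ 512) (hM : SymM n M) (hu : ({u0, u1, u2} : Finset ℕ) ∈ Gd n M) {Hm Ex : ℕ → ℕ}
    {H : Set (Finset ℕ)} {ex : Finset (Finset ℕ) → Prop} (hH : HmOK Hm H) (hE : ExOK Ex ex)
    {g : Bool} {v p q A A' C C' : ℕ} (hv : v < n) (hp : p < n) (hq : q < n) (hvp : v ≠ p)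
    (hvq : v ≠ q) (hpq : p ≠ q) (hA : ∀ i, A.testBit i = true ↔ i = v ∨ i = p)
    (hA' : ∀ i, A'.testBit i = true ↔ i = v ∨ i = q)
    (hC : ∀ c, C.testBit c = true → c < n ∧ c ≠ v ∧ c ≠ p)
    (hC' : ∀ c, C'.testBit c = true → c < n ∧ c ≠ v ∧ c ≠ q)
    (h : one n M u0 u1 u2 Hm Ex g C C' (Nat.land A A') (Nat.xor A (Nat.land A A'))
      (Nat.xor A' (Nat.land A A')) = true) :
    HB6_P (Gd n M) {u0, u1, u2} H ex g (Tk v p C) (Tk v q C') := by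
  have b1 : ∀ i, (Nat.land A A').testBit i = true ↔ i = v := fun i => by
    rw [HB6_land, hA, hA']; exact (HB6_b hvp hpq).1
  have b2 : ∀ i, (Nat.xor A (Nat.land A A')).testBit i = true ↔ i = p := fun i => by
    rw [HB6_xor, hA, b1]; exact (HB6_b hvp hpq).2
  have b3 : ∀ i, (Nat.xor A' (Nat.land A A')).testBit i = true ↔ i = q := fun i => by
    rw [HB6_xor, hA', b1]; exact (HB6_b hvq hpq.symm).2
  unfold one at h
  rw [lg_one (by omega) b1, lg_one (by omega) b2, lg_one (by omega) b3, an_iff] at h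
  generalize Nat.xor A (Nat.land A A') = Y at h b2
  generalize Nat.xor A' (Nat.land A A') = Y' at h b3
  obtain ⟨h1, h2⟩ := h
  have z1 : ¬ C.testBit q = true → z0 (Nat.land C Y') = true := fun e =>
    z0_iff.2 (land_zero.2 fun i a b => e ((b3 i).1 b ▸ a))
  have z2 : ¬ C'.testBit p = true → z0 (Nat.land C' Y) = true := fun e =>
    z0_iff.2 (land_zero.2 fun i a b => e ((b2 i).1 b ▸ a))
  have main : ∀ y z w : ℕ, v ≠ y → v ≠ z → v ≠ w → y ≠ z → y ≠ w → z ≠ w →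
      ({v, y, z} : Finset ℕ) ∈ Tk v p C → ({v, y, w} : Finset ℕ) ∈ Tk v q C' →
      ({v, y, z} : Finset ℕ) ∉ Tk v q C' → ({v, y, w} : Finset ℕ) ∉ Tk v p C →
      PCq (Gd n M) {u0, u1, u2} H ex v y z w := by
    rintro y z w e1 e2 e3 e4 e5 e6 ⟨c, hc, t⟩ ⟨c', hc', t'⟩ n1 n2
    obtain ⟨l, l1, l2⟩ := hC c hc
    obtain ⟨l', l1', l2'⟩ := hC' c' hc'
    obtain ⟨-, ty, tz⟩ := (HB6_tri t).1
    obtain ⟨-, ty', tw'⟩ := (HB6_tri t').1
    have k1 : (y = p ∧ z = c) ∨ (y = c ∧ z = p) := HB6_k3 e1 e2 e4 ty tz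
    have k2 : (y = q ∧ w = c') ∨ (y = c' ∧ w = q) := HB6_k3 e1 e3 e5 ty' tw'
    rcases k1 with ⟨rfl, rfl⟩ | ⟨rfl, rfl⟩ <;> rcases k2 with ⟨r, rfl⟩ | ⟨r, rfl⟩
    · exact (hpq r).elim
    · subst r
      have a1 : ¬ C.testBit w = true := fun e => n2 ⟨w, e, rfl⟩
      rw [cb_eq, if_pos (z1 a1), cb_eq, if_neg (HB6_nz hc' ((b2 _).2 rfl))] at h2
      exact HB6_s2 (tr_sound hM hu hH hE hv hp hq hvp hvq hpq h2 hc l l1 l2 e6)
    · subst r
      have a1 : ¬ C'.testBit z = true := fun e => n1 ⟨z, e, rfl⟩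
      rw [cb_eq, if_neg (HB6_nz hc ((b3 _).2 rfl)), cb_eq, if_pos (z2 a1)] at h2
      exact tr_sound hM hu hH hE hv hq hp hvq hvp hpq.symm h2 hc' l' l1' l2' e6.symm
    · subst r
      rw [cb_eq, if_neg (HB6_nz hc hc')] at h1
      exact tw_sound hM hu hH hE hp hq hv hpq hvp hvq h1 (HB6_land.2 ⟨hc, hc'⟩) l l2 l2'
  refine ⟨fun x y z w e1 e2 e3 e4 e5 e6 t t' n1 n2 => ?_, ?_⟩
  · have k : v = x ∨ v = y := by
      obtain ⟨c, -, t⟩ := t
      obtain ⟨c', -, t'⟩ := t'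
      exact HB6_k4 e6 (HB6_tri t).2.1 (HB6_tri t').2.1
    rcases k with rfl | rfl
    · exact main y z w e1 e2 e3 e4 e5 e6 t t' n1 n2
    · rw [insert_comm] at t t' n1 n2
      exact HB6_s1 (main x z w e1.symm e4 e5 e2 e3 e6 t t' n1 n2)
  · rintro t ⟨c, hc, rfl⟩ ⟨c', hc', t'⟩
    have a := (HB6_tri t').1.2.1
    have a' := (HB6_tri t').2.2.1
    obtain rfl : p = c' := (a.resolve_left hvp.symm).resolve_left hpq
    obtain rfl : q = c := (a'.resolve_left hvq.symm).resolve_left hpq.symm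
    rwa [cb_eq, if_neg (HB6_nz hc ((b3 _).2 rfl)), cb_eq,
      if_neg (HB6_nz hc' ((b2 _).2 rfl))] at h2

theorem HB6_k1 {a b a' b' x p q : ℕ} (d1 : a ≠ a') (d2 : a ≠ b') (d3 : b ≠ a') (d4 : b ≠ b')
    (h : x = a ∨ x = b ∨ x = q) (h' : x = a' ∨ x = b' ∨ x = p) : x = p ∨ x = q := by
  rcases h with rfl | rfl | rfl
  · exact .inl ((h'.resolve_left d1).resolve_left d2)
  · exact .inl ((h'.resolve_left d3).resolve_left d4)
  · exact .inr rfl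

theorem HB6_k2 {a b p q z : ℕ} (h : a ≠ b) (qa : q ≠ a) (qb : q ≠ b)
    (ta : a = p ∨ a = q ∨ a = z) (tb : b = p ∨ b = q ∨ b = z) :
    (p = a ∧ z = b) ∨ (p = b ∧ z = a) := by omega

theorem HB6_dis (hM : SymM n M) (hn : n ≤ 512) (hu : ({u0, u1, u2} : Finset ℕ) ∈ Gd n M)
    {Hm Ex : ℕ → ℕ}
    {H : Set (Finset ℕ)} {ex : Finset (Finset ℕ) → Prop} (hH : HmOK Hm H) (hE : ExOK Ex ex)
    {g : Bool} {a b a' b' C C' : ℕ} (w : Wf n (Gd n M) a b C) (w' : Wf n (Gd n M) a' b' C')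
    (d1 : a ≠ a') (d2 : a ≠ b') (d3 : b ≠ a') (d4 : b ≠ b')
    (h : dis n M u0 u1 u2 Hm Ex (m2 a b) C (m2 a' b') C' = true) :
    HB6_P (Gd n M) {u0, u1, u2} H ex g (Tk a b C) (Tk a' b' C') := by
  obtain ⟨hab, hb, hC⟩ := w
  obtain ⟨hab', hb', hC'⟩ := w'
  have lt : ∀ {X Y : ℕ}, (∀ c, X.testBit c = true → c < n) → Nat.land X Y < 2 ^ 512 :=
    fun hX => lt_of_bits.2 fun i hi => lt_of_lt_of_le (hX i (HB6_land.1 hi).1) hn
  have lg' : ∀ {a b p z : ℕ}, a < b → b < n → (p = a ∧ z = b) ∨ (p = b ∧ z = a) →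
      lg (Nat.xor (m2 a b) (p2 p)) = z := fun hne hlt hp =>
    lg_one (by omega) fun i => by rw [HB6_xor, m2_bit, p2_bit]; omega
  have main : ∀ p q z w : ℕ, C.testBit q = true → C'.testBit p = true →
      (p = a ∧ z = b) ∨ (p = b ∧ z = a) → (q = a' ∧ w = b') ∨ (q = b' ∧ w = a') →
      PCq (Gd n M) {u0, u1, u2} H ex p q z w := by
    intro p q z w hq hp k k'
    have mq : (m2 a' b').testBit q = true := m2_bit.2 (by omega)
    have mp : (m2 a b).testBit p = true := m2_bit.2 (by omega)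
    unfold dis at h
    rw [cb_eq, if_neg (HB6_nz hq mq), alB_iff (lt fun c hc => (hC' c hc).1)] at h
    have h1 := h p (HB6_land.2 ⟨hp, mp⟩)
    rw [alB_iff (lt fun c hc => (hC c hc).1)] at h1
    have h2 := h1 q (HB6_land.2 ⟨hq, mq⟩)
    rw [lg' hab hb k, lg' hab' hb' k'] at h2
    exact tw_sound hM hu hH hE (by omega) (by omega) (by omega) (by omega) (by omega) (by omega)
      h2 (p2_bit.2 rfl) (by omega) (by omega) (by omega)
  refine ⟨?_, ?_⟩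
  · rintro x y z w e1 e2 e3 e4 e5 e6 ⟨q, hq, t⟩ ⟨p, hp, t'⟩ - -
    obtain ⟨⟨tx, ty, -⟩, ta, tb, -⟩ := HB6_tri t
    obtain ⟨⟨tx', ty', -⟩, ta', tb', -⟩ := HB6_tri t'
    have qa := (hC q hq).2.1
    have qb := (hC q hq).2.2.1
    have pa := (hC' p hp).2.1
    have pb := (hC' p hp).2.2.1
    rcases HB6_k1 d1 d2 d3 d4 tx tx' with rfl | rfl <;>
      rcases HB6_k1 d1 d2 d3 d4 ty ty' with rfl | rfl
    · exact (e1 rfl).elim
    · exact main _ _ z w hq hp (HB6_k2 hab.ne qa qb ta tb)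
        (HB6_k2 hab'.ne pa pb (or_left_comm.1 ta') (or_left_comm.1 tb'))
    · exact HB6_s1 (main _ _ z w hq hp
        (HB6_k2 hab.ne qa qb (or_left_comm.1 ta) (or_left_comm.1 tb))
        (HB6_k2 hab'.ne pa pb ta' tb'))
    · exact (e1 rfl).elim
  · rintro t ⟨c, -, rfl⟩ ⟨c', -, t'⟩
    obtain ⟨t1, t2, -⟩ := (HB6_tri t').1
    exact (hab.ne (((t1.resolve_left d1).resolve_left d2).trans
      ((t2.resolve_left d3).resolve_left d4).symm)).elim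

theorem HB6_px (hM : SymM n M) (hn : n ≤ 512) (hu : ({u0, u1, u2} : Finset ℕ) ∈ Gd n M)
    {Hm Ex : ℕ → ℕ}
    {H : Set (Finset ℕ)} {ex : Finset (Finset ℕ) → Prop} (hH : HmOK Hm H) (hE : ExOK Ex ex)
    {g s : Bool} {a b a' b' C C' : ℕ} (w : Wf n (Gd n M) a b C) (w' : Wf n (Gd n M) a' b' C')
    (h : px n M u0 u1 u2 Hm Ex g s (m2 a b) C (m2 a' b') C' = true) :
    (a = a' → b = b' → s = true) ∧ (¬ (a = a' ∧ b = b') →
      HB6_P (Gd n M) {u0, u1, u2} H ex g (Tk a b C) (Tk a' b' C')) := by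
  unfold px at h
  rw [cb_eq] at h
  split_ifs at h with h0
  · have z := land_zero.1 (z0_iff.1 h0)
    have d1 : a ≠ a' := fun e => z a (m2_bit.2 (.inl rfl)) (m2_bit.2 (.inl e))
    have d2 : a ≠ b' := fun e => z a (m2_bit.2 (.inl rfl)) (m2_bit.2 (.inr e))
    have d3 : b ≠ a' := fun e => z b (m2_bit.2 (.inr rfl)) (m2_bit.2 (.inl e))
    have d4 : b ≠ b' := fun e => z b (m2_bit.2 (.inr rfl)) (m2_bit.2 (.inr e))
    exact ⟨fun e => (d1 e).elim, fun _ => HB6_dis hM hn hu hH hE w w' d1 d2 d3 d4 h⟩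
  obtain ⟨hab, hb, hC⟩ := w
  obtain ⟨hab', hb', hC'⟩ := w'
  rw [cb_eq] at h
  split_ifs at h with h1
  · refine ⟨fun _ _ => h, fun hne => (hne ?_).elim⟩
    have z := sb_iff.1 (show sb (m2 a b) (m2 a' b') = true from h1)
    have z1 := m2_bit.1 (z a (m2_bit.2 (.inl rfl)))
    have z2 := m2_bit.1 (z b (m2_bit.2 (.inr rfl)))
    omega
  have hne : ¬ (a = a' ∧ b = b') := by
    rintro ⟨rfl, rfl⟩
    exact h1 (show sb (m2 a b) (m2 a b) = true from sb_iff.2 fun _ h => h)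
  refine ⟨fun e e' => (hne ⟨e, e'⟩).elim, fun _ => ?_⟩
  have k : a = a' ∨ a = b' ∨ b = a' ∨ b = b' := by
    by_contra k
    refine h0 (z0_iff.2 (land_zero.2 fun i p q => ?_))
    rw [m2_bit] at p q
    omega
  have c1 : ∀ c, C.testBit c = true → c < n ∧ c ≠ a ∧ c ≠ b := fun c hc =>
    ⟨(hC c hc).1, (hC c hc).2.1, (hC c hc).2.2.1⟩
  have c2 : ∀ c, C.testBit c = true → c < n ∧ c ≠ b ∧ c ≠ a := fun c hc =>
    ⟨(hC c hc).1, (hC c hc).2.2.1, (hC c hc).2.1⟩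
  have c1' : ∀ c, C'.testBit c = true → c < n ∧ c ≠ a' ∧ c ≠ b' := fun c hc =>
    ⟨(hC' c hc).1, (hC' c hc).2.1, (hC' c hc).2.2.1⟩
  have c2' : ∀ c, C'.testBit c = true → c < n ∧ c ≠ b' ∧ c ≠ a' := fun c hc =>
    ⟨(hC' c hc).1, (hC' c hc).2.2.1, (hC' c hc).2.1⟩
  have m1 : ∀ x y i : ℕ, (m2 x y).testBit i = true ↔ i = x ∨ i = y := fun _ _ _ => m2_bit
  have m1' : ∀ x y i : ℕ, (m2 x y).testBit i = true ↔ i = y ∨ i = x := fun _ _ _ =>
    m2_bit.trans or_comm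
  rcases k with rfl | rfl | rfl | rfl
  · exact HB6_one hn hM hu hH hE (by omega) hb hb' hab.ne hab'.ne (by omega) (m1 _ _) (m1 _ _)
      c1 c1' h
  · rw [HB6_tk a']
    exact HB6_one hn hM hu hH hE hb' hb (by omega) hab.ne hab'.ne' (by omega) (m1 _ _) (m1' _ _)
      c1 c2' h
  · rw [HB6_tk a]
    exact HB6_one hn hM hu hH hE hb (by omega) hb' hab.ne' hab'.ne (by omega) (m1' _ _) (m1 _ _)
      c2 c1' h
  · rw [HB6_tk a, HB6_tk a']
    exact HB6_one hn hM hu hH hE hb (by omega) (by omega) hab.ne' hab'.ne' (by omega) (m1' _ _)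
      (m1' _ _) c2 c2' h

theorem cross_sound (hM : SymM n M) (hn : n ≤ 512) (hu : ({u0, u1, u2} : Finset ℕ) ∈ Gd n M)
    {Ex ea eb eC eA : ℕ → ℕ} {gq sm : ℕ → ℕ → Bool} {m : ℕ} {ex : Finset (Finset ℕ) → Prop}
    (hw : ∀ i < m, Wf n (Gd n M) (ea i) (eb i) (eC i)) (hA : ∀ i, eA i = m2 (ea i) (eb i))
    (hE : ExOK Ex ex) (h : cross n M u0 u1 u2 Ex eA eC gq sm m = true) :
    CrossOK (Gd n M) {u0, u1, u2} ex ea eb eC m ∧
    (∀ i < m, ∀ k < i, ea i = ea k → eb i = eb k → sm i k = true) ∧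
    ∀ i < m, ∀ k < i, ¬ (ea i = ea k ∧ eb i = eb k) → ∀ t, t ∈ Tk (ea i) (eb i) (eC i) →
      t ∈ Tk (ea k) (eb k) (eC k) → gq i k = true := by
  have key : ∀ i < m, ∀ k < i, (ea i = ea k → eb i = eb k → sm i k = true) ∧
      (¬ (ea i = ea k ∧ eb i = eb k) → HB6_P (Gd n M) {u0, u1, u2} (HE ea eb eC m) ex (gq i k)
        (Tk (ea i) (eb i) (eC i)) (Tk (ea k) (eb k) (eC k))) := by
    intro i hi k hk
    have h1 := al_iff.1 (al_iff.1 h i hi) k hk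
    rw [hA i, hA k] at h1
    exact HB6_px hM hn hu (hm_ok hw hA) hE (hw i hi) (hw k (hk.trans hi)) h1
  refine ⟨?_, fun i hi k hk => (key i hi k hk).1, fun i hi k hk hne => ((key i hi k hk).2 hne).2⟩
  intro i hi k hk hne x y z w e1 e2 e3 e4 e5 e6 t t' n1 n2
  rcases lt_trichotomy k i with l | rfl | l
  · exact ((key i hi k l).2 hne).1 x y z w e1 e2 e3 e4 e5 e6 t t' n1 n2
  · exact (hne ⟨rfl, rfl⟩).elim
  · exact HB6_s2 (((key k hk i l).2 fun e => hne ⟨e.1.symm, e.2.symm⟩).1 x y w z e1 e3 e2 e5 e4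
      e6.symm t' t n2 n1)

end Pool.Agent.MP_797bdc_co.Lk.H
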