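import Pool.Agent.MP_797bdc_co.Lk.HB6

/-! Checker H: links and classes without exceptions. -/

namespace Pool.Agent.MP_797bdc_co.Lk.H

open Finset

variable {n : ℕ} {M : ℕ → ℕ} {Zt It : ℕ → ℕ} {u0 u1 u2 : ℕ}

theorem HB7_an {a b : Bool} (h : an a b = true) : a = true ∧ b = true := by
  cases a <;> cases b <;> simp_all [an]

theorem HB7_fb (x : ℕ) (f : ℕ → Bool) : fb x f = f x := rfl

theorem HB7_pair {a b c d : ℕ} (h : m2 a b = m2 c d) : ({a, b} : Finset ℕ) = {c, d} := by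
  ext v
  simp only [mem_insert, mem_singleton]
  rw [← m2_bit, ← m2_bit, h]

theorem HB7_bit {x j : ℕ} (h : 1 - (x >>> j &&& 1) = 0) : x.testBit j = true := by
  rw [Nat.and_one_is_mod, Nat.shiftRight_eq_div_pow] at h
  rw [Nat.testBit_eq_decide_div_mod_eq]
  have := Nat.mod_lt (x / 2 ^ j) (show 0 < 2 by norm_num)
  simp only [decide_eq_true_eq]
  omega

theorem HB7_lk1 {s m a b c k : ℕ} (h : lk1 Zt It s m a b c k = 0) :
    k < m ∧ ({ia It (s + k), ib It (s + k)} : Finset ℕ) = {a + c / 512 * (b - a), c % 512} ∧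
      (iC Zt It (s + k)).testBit (b - c / 512 * (b - a)) = true := by
  have h' : (Nat.xor (m2 (ia It (s + k)) (ib It (s + k)))
      (m2 (a + (c >>> 9) * (b - a)) (c &&& 511)) + (k + 1 - m)) +
      (1 - ((iC Zt It (s + k)) >>> (b - (c >>> 9) * (b - a)) &&& 1)) = 0 := h
  have e1 : c >>> 9 = c / 512 := by rw [Nat.shiftRight_eq_div_pow]
  have e2 : c &&& 511 = c % 512 := Nat.and_two_pow_sub_one_eq_mod c 9
  rw [e1, e2] at h'
  have h1 := Nat.eq_zero_of_add_eq_zero_right h'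
  have h2 := Nat.eq_zero_of_add_eq_zero_left h'
  have h3 := Nat.eq_zero_of_add_eq_zero_right h1
  have h4 := Nat.eq_zero_of_add_eq_zero_left h1
  exact ⟨by omega, HB7_pair (xor_zero.1 h3), HB7_bit h2⟩

theorem lnk_sound {NI PG PM PS s m : ℕ} (hab : ∀ i < m, ia It (s + i) < ib It (s + i))
    (h : lnk Zt It s m = true) : (mkI NI PG PM PS Zt It).Lnk s m := by
  have h0 := sml_zero.1 (z0_iff.1 h)
  have key : ∀ i < m, ∀ v, (iLM It (s + i)).testBit v = true → ∃ k,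
      lk1 Zt It s m (ia It (s + i)) (ib It (s + i)) v k = 0 := by
    intro i hi v hv
    obtain ⟨l, hl, hb⟩ := orl_bit.1 hv
    have e : v = _ := p2_bit.1 hb
    have h1 := sml_zero.1 (h0 i hi) l hl
    rw [fn_eq] at h1
    exact ⟨_, by rw [e]; exact h1⟩
  intro i hi c hc
  have hl := hab i hi
  refine ⟨fun hv => ?_, fun hv => ?_⟩
  · obtain ⟨k, hk⟩ := key i hi c hv
    obtain ⟨k1, k2, k3⟩ := HB7_lk1 hk
    have e1 : c / 512 = 0 := by omega
    have e2 : c % 512 = c := by omega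
    rw [e1, e2, Nat.zero_mul, Nat.add_zero] at k2
    rw [e1, Nat.zero_mul, Nat.sub_zero] at k3
    exact ⟨k, k1, k2, k3⟩
  · obtain ⟨k, hk⟩ := key i hi (512 + c) hv
    obtain ⟨k1, k2, k3⟩ := HB7_lk1 hk
    have e1 : (512 + c) / 512 = 1 := by omega
    have e2 : (512 + c) % 512 = c := by omega
    have e3 : ia It (s + i) + 1 * (ib It (s + i) - ia It (s + i)) = ib It (s + i) := by omega
    have e4 : ib It (s + i) - 1 * (ib It (s + i) - ia It (s + i)) = ia It (s + i) := by omega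
    rw [e1, e2, e3] at k2
    rw [e1, e4] at k3
    exact ⟨k, k1, k2, k3⟩

theorem HB7_plain (hM : SymM n M) (hn : n ≤ 512) (hu : ({u0, u1, u2} : Finset ℕ) ∈ Gd n M)
    {NI PG PM PS : ℕ} {SM : ℕ → ℕ → ℕ}
    (hg : ∀ p < NI, (mkI NI PG PM PS Zt It).Good n (Gd n M) {u0, u1, u2} SM p) {s m : ℕ}
    (h1 : PG ≤ s) (h2 : s + m ≤ NI) (h : plain n M Zt It u0 u1 u2 s m = true) :
    (mkI NI PG PM PS Zt It).Plain (Gd n M) {u0, u1, u2} s m := by
  obtain ⟨hl, hc⟩ := HB7_an h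
  have hw : ∀ i < m, Wf n (Gd n M) (ia It (s + i)) (ib It (s + i)) (iC Zt It (s + i)) :=
    fun i hi => (hg (s + i) (by omega)).1.wf
  have hE : ExOK (fun _ => 0) (fun _ => False) := by
    intro x y z v _ _ _ hv
    simp at hv
  obtain ⟨c1, c2, -⟩ := cross_sound (ea := fun i => ia It (s + i)) (eb := fun i => ib It (s + i))
    (eC := fun i => iC Zt It (s + i)) (eA := fun i => iA It (s + i)) hM hn hu hw (fun _ => rfl)
    hE hc
  refine ⟨h1, h2, lnk_sound (fun i hi => (hw i hi).1) hl, ?_, c1⟩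
  intro i hi k hk ea eb
  rcases lt_trichotomy i k with t | t | t
  · exact absurd (c2 k hk i t ea.symm eb.symm) (by simp)
  · exact t
  · exact absurd (c2 i hi k t ea eb) (by simp)

/-- the loop of `plainU` -/
noncomputable def HB7_loop (n : ℕ) (M Zt It : ℕ → ℕ) (u0 u1 u2 e k : ℕ) : ℕ → ℕ → Bool :=
  Nat.rec (motive := fun _ => ℕ → ℕ → Bool) (fun s _ => Nat.beq s e)
    (fun _ ih s R => fb (Nat.land R (nat_lit 255)) (fun m => an (plain n M Zt It u0 u1 u2 s m)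
      (fb (Nat.add s m) (fun s' => ih s' (Nat.shiftRight R (nat_lit 8)))))) k

theorem HB7_loop_sound {e : ℕ} (k : ℕ) : ∀ s R, HB7_loop n M Zt It u0 u1 u2 e k s R = true →
    s ≤ e ∧ ∀ p, s ≤ p → p < e → ∃ s' m, s ≤ s' ∧ s' + m ≤ e ∧ s' ≤ p ∧ p < s' + m ∧
      plain n M Zt It u0 u1 u2 s' m = true := by
  induction k with
  | zero =>
    intro s R h
    have e0 : s = e := Nat.eq_of_beq_eq_true h
    exact ⟨e0.le, fun p h1 h2 => by omega⟩
  | succ k ih =>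
    intro s R h
    have h' : an (plain n M Zt It u0 u1 u2 s (Nat.land R 255))
        (HB7_loop n M Zt It u0 u1 u2 e k (s + Nat.land R 255) (Nat.shiftRight R 8)) = true := h
    obtain ⟨a1, a2⟩ := HB7_an h'
    obtain ⟨b1, b2⟩ := ih _ _ a2
    refine ⟨by omega, fun p h1 h2 => ?_⟩
    by_cases hp : p < s + Nat.land R 255
    · exact ⟨s, _, le_rfl, b1, h1, hp, a1⟩
    · obtain ⟨s', m, c1, c2, c3, c4, c5⟩ := b2 p (by omega) h2
      exact ⟨s', m, by omega, c2, c3, c4, c5⟩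

theorem plainU_sound (hM : SymM n M) (hn : n ≤ 512) (hu : ({u0, u1, u2} : Finset ℕ) ∈ Gd n M)
    {NI PG PM PS : ℕ} {SM : ℕ → ℕ → ℕ}
    (hg : ∀ p < NI, (mkI NI PG PM PS Zt It).Good n (Gd n M) {u0, u1, u2} SM p) {s e k R : ℕ}
    (h : plainU n M Zt It u0 u1 u2 NI PG s e k R = true) : ∀ p, s ≤ p → p < e →
      ∃ s' m, s' ≤ p ∧ p < s' + m ∧ (mkI NI PG PM PS Zt It).Plain (Gd n M) {u0, u1, u2} s' m := by
  obtain ⟨a, hl⟩ := HB7_an h
  obtain ⟨a1, a2⟩ := HB7_an a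
  have b1 : PG ≤ s := Nat.le_of_ble_eq_true a1
  have b2 : e ≤ NI := Nat.le_of_ble_eq_true a2
  intro p h1 h2
  obtain ⟨s', m, c1, c2, c3, c4, c5⟩ := (HB7_loop_sound k s R hl).2 p h1 h2
  exact ⟨s', m, c3, c4, HB7_plain hM hn hu hg (by omega) (by omega) c5⟩

end Pool.Agent.MP_797bdc_co.Lk.H
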