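import Pool.Agent.MP_797bdc_co.Lk.HB7

/-! Checker H: the exceptional quads of a class. -/

namespace Pool.Agent.MP_797bdc_co.Lk.H

open Finset

variable {n : ℕ} {M : ℕ → ℕ} {Zt It : ℕ → ℕ} {u0 u1 u2 : ℕ}

theorem HB8_lor (a b i : ℕ) : (Nat.lor a b).testBit i = true ↔
    a.testBit i = true ∨ b.testBit i = true := by
  have h : (Nat.lor a b).testBit i = (a.testBit i || b.testBit i) := Nat.testBit_or a b i
  rw [h, Bool.or_eq_true]
theorem HB8_beq {a b : ℕ} : Nat.beq a b = true ↔ a = b := Nat.beq_eq.to_iff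
theorem HB8_ble {a b : ℕ} : Nat.ble a b = true ↔ a ≤ b := Nat.ble_eq.to_iff
theorem HB8_qQ (R g i : ℕ) : (qQ R g).testBit i = true ↔
    i = qx R g ∨ i = qy R g ∨ i = qz R g ∨ i = qw R g := by
  unfold qQ
  rw [HB8_lor, m3_bit, p2_bit, or_assoc, or_assoc]
theorem HB8_ne {x y z w : ℕ}
    (h : p2 x + p2 y + (p2 z + p2 w) = Nat.lor (m3 x y z) (p2 w)) :
    x ≠ y ∧ x ≠ z ∧ x ≠ w ∧ y ≠ z ∧ y ≠ w ∧ z ≠ w := by
  have e3 : m3 x y z = Nat.lor (m2 x y) (p2 z) := rfl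
  have e2 : m2 x y = Nat.lor (p2 x) (p2 y) := rfl
  have a1 := lor_le_add (m3 x y z) (p2 w)
  have a2 := lor_le_add (m2 x y) (p2 z)
  have a3 := lor_le_add (p2 x) (p2 y)
  rw [← e3] at a2
  rw [← e2] at a3
  have d1 := land_zero.1 (disj_of_add (x := m3 x y z) (y := p2 w) (by omega)) w
  have d2 := land_zero.1 (disj_of_add (x := m2 x y) (y := p2 z) (by rw [← e3]; omega)) z
  have d3 := land_zero.1 (disj_of_add (x := p2 x) (y := p2 y) (by rw [← e2]; omega)) y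
  rw [m3_bit, p2_bit] at d1
  rw [m2_bit, p2_bit] at d2
  rw [p2_bit, p2_bit] at d3
  refine ⟨fun e => d3 e.symm rfl, fun e => d2 (Or.inl e.symm) rfl,
    fun e => d1 (Or.inl e.symm) rfl, fun e => d2 (Or.inr e.symm) rfl,
    fun e => d1 (Or.inr (Or.inl e.symm)) rfl, fun e => d1 (Or.inr (Or.inr e.symm)) rfl⟩
theorem HB8_c (R g : ℕ) :
    cx (Nat.land (gq R g) (nat_lit 68719476735)) = qx R g ∧
    cy (Nat.land (gq R g) (nat_lit 68719476735)) = qy R g ∧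
    cz (Nat.land (gq R g) (nat_lit 68719476735)) = qz R g ∧
    cw (Nat.land (gq R g) (nat_lit 68719476735)) = qw R g := by
  have h1 : ∀ a, Nat.land a (nat_lit 68719476735) = a % 68719476736 :=
    fun a => Nat.and_two_pow_sub_one_eq_mod a 36
  have h2 : ∀ a, Nat.land a (nat_lit 511) = a % 512 :=
    fun a => Nat.and_two_pow_sub_one_eq_mod a 9
  have h3 : ∀ a i, bt a i (nat_lit 511) = a / 2 ^ i % 512 := fun a i => by
    rw [← Nat.shiftRight_eq_div_pow]; exact h2 _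
  have e1 : qx R g = gq R g % 512 := h2 _
  have e2 : qy R g = gq R g / 512 % 512 := h3 _ 9
  have e3 : qz R g = gq R g / 262144 % 512 := h3 _ 18
  have e4 : qw R g = gq R g / 134217728 % 512 := h3 _ 27
  rw [h1, e1, e2, e3, e4]
  unfold cx cy cz cw
  generalize gq R g = q
  omega
theorem HB8_km {NI PG PM PS : ℕ} {SM : ℕ → ℕ → ℕ}
    (hg : ∀ p < NI, (mkI NI PG PM PS Zt It).Good n (Gd n M) {u0, u1, u2} SM p) {s m x y w : ℕ}
    (hr : s + m ≤ NI) (hxy : x ≠ y) (h : (km Zt It s m x y).testBit w = true) :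
    ({x, y, w} : Finset ℕ) ∈ (mkI NI PG PM PS Zt It).Kr s m :=
  hm_mem (n := n) (G := Gd n M) (ea := fun i => ia It (s + i)) (eb := fun i => ib It (s + i))
    (eC := fun i => iC Zt It (s + i)) (eA := fun i => iA It (s + i))
    (fun i hi => (hg (s + i) (by omega)).1.wf) (fun _ => rfl) hxy h
theorem HB8_kin (hM : SymM n M) {NI PG PM PS : ℕ} {SM : ℕ → ℕ → ℕ}
    (hg : ∀ p < NI, (mkI NI PG PM PS Zt It).Good n (Gd n M) {u0, u1, u2} SM p) {R f x y w : ℕ}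
    (hr : gs R + g0 R ≤ NI) (hx : x < n) (hy : y < n) (hxy : x ≠ y)
    (h : kin n M Zt It R f x y w = true) :
    (({x, y, w} : Finset ℕ) ∈ Gd n M ∨
      ({x, y, w} : Finset ℕ) ∈ (mkI NI PG PM PS Zt It).Kr (gs R) (g0 R)) ∧
    (f ≠ 0 → ({x, y, w} : Finset ℕ) ∈ (mkI NI PG PM PS Zt It).Kr (gs R) (g0 R)) := by
  unfold kin at h
  rw [cb_eq, tb_eq, tb_eq] at h
  by_cases hf : f = 0
  · rw [if_pos (z0_iff.2 hf)] at h
    exact ⟨Or.inl ((Lf_bit hM hx hy).1 h).2, fun k => (k hf).elim⟩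
  · rw [if_neg (fun k => hf (z0_iff.1 k))] at h
    exact ⟨Or.inr (HB8_km hg hr hxy h), fun _ => HB8_km hg hr hxy h⟩
theorem HB8_in {x y z w : ℕ} (nxy : x ≠ y) (nxz : x ≠ z) (nxw : x ≠ w) (nyz : y ≠ z)
    (nyw : y ≠ w) (nzw : z ≠ w) : ({x, y, w} : Finset ℕ) ∈ qd x y z w ∧
    ({x, z, w} : Finset ℕ) ∈ qd x y z w ∧ ({y, z, w} : Finset ℕ) ∈ qd x y z w :=
  ⟨mem_powersetCard.2 ⟨by intro i; simp only [mem_insert, mem_singleton]; tauto,
      card_eq_three.2 ⟨_, _, _, nxy, nxw, nyw, rfl⟩⟩,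
    mem_powersetCard.2 ⟨by intro i; simp only [mem_insert, mem_singleton]; tauto,
      card_eq_three.2 ⟨_, _, _, nxz, nxw, nzw, rfl⟩⟩,
    mem_powersetCard.2 ⟨by intro i; simp only [mem_insert, mem_singleton]; tauto,
      card_eq_three.2 ⟨_, _, _, nyz, nyw, nzw, rfl⟩⟩⟩
theorem HB8_fl {f i m : ℕ} (h : f.testBit i = true) (e : m.testBit i = true) :
    Nat.land f m ≠ 0 := fun k => land_zero.1 k i h e

theorem exm_ok {R : ℕ} : ExOK (exm R) (mkD Zt It R).ex := by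
  intro x y z v hxy hxz hyz h
  unfold exm at h
  obtain ⟨g, hg, h⟩ := orl_bit.1 h
  rw [cn_eq] at h
  refine ⟨g, hg, ?_⟩
  by_cases hs : sb (m3 x y z) (qQ R g) = true
  · rw [if_pos hs] at h
    have e : (Nat.xor (qQ R g) (m3 x y z)).testBit v =
        ((qQ R g).testBit v ^^ (m3 x y z).testBit v) := Nat.testBit_xor _ _ _
    rw [e] at h
    have hs' := sb_iff.1 hs
    have hv : (qQ R g).testBit v = true ∧ ¬ (m3 x y z).testBit v = true := by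
      have := hs' v
      cases h1 : (qQ R g).testBit v <;> cases h2 : (m3 x y z).testBit v <;> simp_all
    have a1 := (HB8_qQ R g x).1 (hs' x (m3_bit.2 (Or.inl rfl)))
    have a2 := (HB8_qQ R g y).1 (hs' y (m3_bit.2 (Or.inr (Or.inl rfl))))
    have a3 := (HB8_qQ R g z).1 (hs' z (m3_bit.2 (Or.inr (Or.inr rfl))))
    have a4 := (HB8_qQ R g v).1 hv.1
    have a5 : ¬ (v = x ∨ v = y ∨ v = z) := fun k => hv.2 (m3_bit.2 k)
    show qd x y z v = qd (qx R g) (qy R g) (qz R g) (qw R g)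
    generalize qx R g = a at *
    generalize qy R g = b at *
    generalize qz R g = c at *
    generalize qw R g = d at *
    have hc : ({x, y, z, v} : Finset ℕ).card = 4 := card_eq_four.2
      ⟨x, y, z, v, hxy, hxz, fun e => a5 (Or.inl e.symm), hyz,
        fun e => a5 (Or.inr (Or.inl e.symm)), fun e => a5 (Or.inr (Or.inr e.symm)), rfl⟩
    have hs : ({x, y, z, v} : Finset ℕ) ⊆ {a, b, c, d} := by
      intro t ht
      simp only [mem_insert, mem_singleton] at ht ⊢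
      rcases ht with rfl | rfl | rfl | rfl <;> assumption
    unfold qd
    rw [eq_of_subset_of_card_le hs (by rw [hc]; exact card_le_four)]
  · rw [if_neg hs] at h
    exact absurd h (by rw [show (nat_lit 0 : ℕ) = 0 from rfl, Nat.zero_testBit]; simp)
/-- everything that `quadOK` gives for the quad `g` -/
theorem quad_sound (hM : SymM n M) (hdm : DimP n) {NI PG PM PS : ℕ} {SM : ℕ → ℕ → ℕ}
    {safe : Finset (Finset ℕ) → Finset ℕ → Prop} {sfe : ℕ → ℕ → ℕ → ℕ → ℕ → Bool} {dd : ℕ → Bool}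
    (hg : ∀ p < NI, (mkI NI PG PM PS Zt It).Good n (Gd n M) {u0, u1, u2} SM p)
    (hs : SfeOK n (Gd n M) SM safe (mkI NI PG PM PS Zt It) sfe)
    (hdd : DdOK n hdm (Gd n M) {u0, u1, u2} dd) {R g : ℕ} (hr : gs R + g0 R ≤ NI)
    (h : quadOK n M Zt It u0 u1 u2 NI PM PS sfe dd R g (qx R g) (qy R g) (qz R g) (qw R g) = true) :
    let I := mkI NI PG PM PS Zt It
    let K := I.Kr (gs R) (g0 R)
    let x := qx R g
    let y := qy R g
    let z := qz R g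
    let w := qw R g
    (x < n ∧ y < n ∧ z < n ∧ w < n ∧ x ≠ y ∧ x ≠ z ∧ x ≠ w ∧ y ≠ z ∧ y ≠ w ∧ z ≠ w) ∧
    (qk R g ≠ 1 → ({u0, u1, u2} : Finset ℕ) ∉ qd x y z w) ∧
    (qk R g = 0 → ({x, y, z} : Finset ℕ) ∈ (mkD Zt It R).sat I g ∧ g0 R ≤ qo R g ∧
      ((({x, y, w} : Finset ℕ) ∈ Gd n M ∨ ({x, y, w} : Finset ℕ) ∈ K) ∧
       (({x, z, w} : Finset ℕ) ∈ Gd n M ∨ ({x, z, w} : Finset ℕ) ∈ K) ∧
       (({y, z, w} : Finset ℕ) ∈ Gd n M ∨ ({y, z, w} : Finset ℕ) ∈ K)) ∧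
      (qm R g = 0 → x < y ∧ qo R g < gm R ∧ ds R (qo R g) = g ∧ ({x, y, z} : Finset ℕ) ∉ Gd n M ∧
        ∀ d < n, ¬ (({x, y, d} : Finset ℕ) ∈ Gd n M ∧ ({x, z, d} : Finset ℕ) ∈ Gd n M) ∧
          ¬ (({x, y, d} : Finset ℕ) ∈ Gd n M ∧ ({y, z, d} : Finset ℕ) ∈ Gd n M) ∧
          ¬ (({x, z, d} : Finset ℕ) ∈ Gd n M ∧ ({y, z, d} : Finset ℕ) ∈ Gd n M)) ∧
      (qm R g ≠ 0 → qo R g + qm R g ≤ gm R ∧ (∀ i < qm R g, ds R (qo R g + i) = g) ∧
        qs R g + qm R g ≤ NI ∧ I.Lnk (qs R g) (qm R g) ∧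
        ((PM ≤ qs R g ∧ qs R g + qm R g ≤ PS) ∨
          ∃ T : Set (Finset ℕ), (∀ t ∈ T, t ∈ qd x y z w ∧ t ∈ K) ∧ ∀ i < qm R g,
            ISafe n (Gd n M) (noLocS n (Gd n M) SM) safe (I.a (qs R g + i)) (I.b (qs R g + i))
              (I.C (qs R g + i)) T))) ∧
    (qk R g ≠ 0 → ({x, y, z} : Finset ℕ) ∈ K ∧ ({x, y, w} : Finset ℕ) ∈ K ∧
      ({x, z, w} : Finset ℕ) ∈ Gd n M) ∧
    (qk R g = 1 → ({y, z, w} : Finset ℕ) ∈ Gd n M) ∧
    (2 ≤ qk R g → ({y, z, w} : Finset ℕ) ∉ Gd n M ∧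
      (hm (eA It R) (eC Zt It R) (gm R) (m2 y z)).testBit w = false ∧
      Dead0 n hdm (Gd n M) {u0, u1, u2} x y z w) := by
  intro I K x y z w
  unfold quadOK at h
  simp only [an_iff, orr_iff, HB8_beq, HB8_ble] at h
  obtain ⟨⟨h1, h2⟩, h3, h4⟩ := h
  obtain ⟨nxy, nxz, nxw, nyz, nyw, nzw⟩ := HB8_ne (x := x) (y := y) (z := z) (w := w) h1
  have hlt : qQ R g < 2 ^ n := by
    rw [ful_eq] at h2
    have := Nat.two_pow_pos n
    omega
  have hb := fun i hi => lt_of_bits.1 hlt i ((HB8_qQ R g i).2 hi)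
  have hx : x < n := hb _ (Or.inl rfl)
  have hy : y < n := hb _ (Or.inr (Or.inl rfl))
  have hz : z < n := hb _ (Or.inr (Or.inr (Or.inl rfl)))
  have hw : w < n := hb _ (Or.inr (Or.inr (Or.inr rfl)))
  obtain ⟨c1, c2, c3, c4⟩ := HB8_c R g
  rw [cb_eq] at h4
  have hk : qk R g ≠ 0 → _ := fun k => by
    have h5 := h4
    rw [if_neg (fun k' => k (z0_iff.1 k')), an_iff, an_iff, tb_eq, cb_eq] at h5
    exact h5
  refine ⟨⟨hx, hy, hz, hw, nxy, nxz, nxw, nyz, nyw, nzw⟩, fun k hu => ?_, fun k => ?_,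
    fun k => ?_, fun k => ?_, fun k => ?_⟩
  · rcases h3 with h3 | h3
    · exact k h3
    · have hs : sb (m3 u0 u1 u2) (qQ R g) = true := by
        refine sb_iff.2 fun i hi => (HB8_qQ R g i).2 ?_
        have h6 : i ∈ ({x, y, z, w} : Finset ℕ) :=
          (mem_powersetCard.1 hu).1 (by simpa using m3_bit.1 hi)
        simpa using h6
      rw [cb_eq, if_pos hs] at h3
      exact absurd h3 (by simp)
  · rw [if_pos (z0_iff.2 k)] at h4
    unfold genQ at h4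
    simp only [an_iff, HB8_ble] at h4
    obtain ⟨⟨⟨k1, k2⟩, k3⟩, k4, k5⟩ := h4
    have j1 := HB8_kin hM hg hr hx hy nxy k1
    have j2 := HB8_kin hM hg hr hx hz nxz k2
    have j3 := HB8_kin hM hg hr hy hz nyz k3
    rw [cb_eq] at k5
    have hq : qm R g ≠ 0 → _ := fun q => by
      have h5 := k5
      rw [if_neg (fun k' => q (z0_iff.1 k'))] at h5
      simp only [an_iff, HB8_ble, HB8_beq, al_iff, tb_eq, fb_eq] at h5
      exact h5
    refine ⟨?_, k4, ⟨j1.1, j2.1, j3.1⟩, fun q => ?_, fun q => ?_⟩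
    · show _ ∈ (if qm R g = 0 then ({{x, y, z}} : Set (Finset ℕ)) else I.Kr (qs R g) (qm R g))
      by_cases q : qm R g = 0
      · rw [if_pos q]; rfl
      · rw [if_neg q]
        obtain ⟨⟨q1, -⟩, ⟨-, q2⟩, -⟩ := hq q
        exact HB8_km hg q1 nxy q2
    · rw [if_pos (z0_iff.2 q)] at k5
      simp only [an_iff, HB8_beq, lt_iff, z0_iff] at k5
      obtain ⟨⟨q1, q2⟩, q3, q4⟩ := k5
      obtain ⟨q5, q6⟩ := Nat.add_eq_zero_iff.1 q4
      have r1 := land_zero.1 q5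
      have r2 := land_zero.1 q6
      refine ⟨q1, q2, q3, fun e => ?_, fun d hd => ⟨fun e => ?_, fun e => ?_, fun e => ?_⟩⟩
      · exact r1 z ((Lf_bit hM hx hy).2 ⟨hz, e⟩) ((HB8_lor _ _ _).2 (Or.inl (p2_bit.2 rfl)))
      · exact r1 d ((Lf_bit hM hx hy).2 ⟨hd, e.1⟩) ((HB8_lor _ _ _).2 (Or.inr
          ((HB8_lor _ _ _).2 (Or.inl ((Lf_bit hM hx hz).2 ⟨hd, e.2⟩)))))
      · exact r1 d ((Lf_bit hM hx hy).2 ⟨hd, e.1⟩) ((HB8_lor _ _ _).2 (Or.inr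
          ((HB8_lor _ _ _).2 (Or.inr ((Lf_bit hM hy hz).2 ⟨hd, e.2⟩)))))
      · exact r2 d ((Lf_bit hM hx hz).2 ⟨hd, e.1⟩) ((Lf_bit hM hy hz).2 ⟨hd, e.2⟩)
    · obtain ⟨⟨q1, q2⟩, ⟨q3, -⟩, q4, q5⟩ := hq q
      have q1' : qs R g + qm R g ≤ NI := q1
      refine ⟨q2, q3, q1, lnk_sound (fun i hi => (hg _ (by omega)).1.wf.1) q4, ?_⟩
      rw [cb_eq] at q5
      by_cases e : z0 (qi R g) = true
      · rw [if_pos e, an_iff, HB8_ble, HB8_ble] at q5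
        exact Or.inl q5
      · rw [if_neg e] at q5
        refine Or.inr ⟨_, fun t ht => ?_, hs _ _ _ _ _ q5 q1⟩
        unfold TS at ht
        rw [c1, c2, c3, c4] at ht
        have hi := HB8_in nxy nxz nxw nyz nyw nzw
        rcases ht with ⟨f, e⟩ | ⟨f, e⟩ | ⟨f, e⟩ <;> rw [e]
        · exact ⟨hi.1, j1.2 (HB8_fl f (by decide))⟩
        · exact ⟨hi.2.1, j2.2 (HB8_fl f (by decide))⟩
        · exact ⟨hi.2.2, j3.2 (HB8_fl f (by decide))⟩
  · obtain ⟨⟨k1, k2⟩, -⟩ := hk k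
    exact ⟨HB8_km hg hr nxy (sb_iff.1 k1 z (m2_bit.2 (Or.inl rfl))),
      HB8_km hg hr nxy (sb_iff.1 k1 w (m2_bit.2 (Or.inr rfl))), ((Lf_bit hM hx hz).1 k2).2⟩
  · obtain ⟨-, k3⟩ := hk (by omega)
    rw [if_pos (HB8_beq.2 k), tb_eq] at k3
    exact ((Lf_bit hM hy hz).1 k3).2
  · obtain ⟨-, k3⟩ := hk (by omega)
    rw [if_neg (fun e => by have e' : qk R g = 1 := HB8_beq.1 e; omega), an_iff, z0_iff] at k3
    have r := land_zero.1 k3.2 w (p2_bit.2 rfl)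
    have d0 := hdd _ k3.1
    rw [c1, c2, c3, c4] at d0
    refine ⟨fun e => r ((HB8_lor _ _ _).2 (Or.inl ((Lf_bit hM hy hz).2 ⟨hw, e⟩))), ?_, d0⟩
    exact Bool.eq_false_iff.2 fun e => r ((HB8_lor _ _ _).2 (Or.inr e))

end Pool.Agent.MP_797bdc_co.Lk.H
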