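import Pool.Agent.MP_797bdc_co.Lk.HB8

/-! Checker H: classes with exceptions. -/

namespace Pool.Agent.MP_797bdc_co.Lk.H

open Finset

variable {n : ℕ} {M : ℕ → ℕ} {Zt It : ℕ → ℕ} {u0 u1 u2 : ℕ}

theorem HB9_ev1 {f : ℕ → ℕ} {v R i : ℕ} (h : i < g0 R) : ev f v R i = f (gs R + i) := by
  unfold ev; rw [cn_eq, if_pos (lt_iff.2 h)]; rfl

theorem HB9_ev2 {f : ℕ → ℕ} {v R i : ℕ} (h : ¬ i < g0 R) (h0 : qm R (ds R i) = 0) :
    ev f v R i = v := by
  unfold ev; rw [cn_eq, if_neg (fun e => h (lt_iff.1 e)), cn_eq, if_pos (z0_iff.2 h0)]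

theorem HB9_ev3 {f : ℕ → ℕ} {v R i : ℕ} (h : ¬ i < g0 R) (h0 : qm R (ds R i) ≠ 0) :
    ev f v R i = f (qs R (ds R i) + (i - qo R (ds R i))) := by
  unfold ev
  rw [cn_eq, if_neg (fun e => h (lt_iff.1 e)), cn_eq, if_neg (fun e => h0 (z0_iff.1 e))]; rfl

theorem HB9_eg1 {R i : ℕ} (h : i < g0 R) : eg R i = 0 := by
  unfold eg; rw [cn_eq, if_pos (lt_iff.2 h)]

theorem HB9_eg2 {R i : ℕ} (h : ¬ i < g0 R) : eg R i = ds R i + 1 := by
  unfold eg; rw [cn_eq, if_neg (fun e => h (lt_iff.1 e))]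

theorem HB9_tin {G : Finset (Finset ℕ)} {a b C x y z : ℕ} (hw : Wf n G a b C)
    (h : ({x, y, z} : Finset ℕ) ∈ Tk a b C) : tin (m3 x y z) (m2 a b) C = true := by
  obtain ⟨c, hc, e⟩ := h
  obtain ⟨-, hca, hcb, -⟩ := hw.2.2 c hc
  have hm : ∀ v, (v = a ∨ v = b ∨ v = c) → (m3 x y z).testBit v = true := fun v hv => by
    have : v ∈ ({x, y, z} : Finset ℕ) := by rw [e]; simpa using hv
    exact m3_bit.2 (by simpa using this)
  unfold tin
  rw [an_iff, cb_eq]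
  refine ⟨sb_iff.2 fun i hi => hm i ?_, ?_⟩
  · rcases m2_bit.1 hi with h | h
    · exact Or.inl h
    · exact Or.inr (Or.inl h)
  · rw [if_neg]
    intro e0
    refine land_zero.1 (z0_iff.1 e0) c ?_ hc
    have h1 := hm c (Or.inr (Or.inr rfl))
    have h2 : (m2 a b).testBit c = false := by
      rw [Bool.eq_false_iff]; intro h; rcases m2_bit.1 h with h | h
      · exact hca h
      · exact hcb h
    show (m3 x y z ^^^ m2 a b).testBit c = true
    rw [Nat.testBit_xor, h1, h2]; rfl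

theorem HB9_sym {G : Finset (Finset ℕ)} {u : Finset ℕ} {ex : Finset (Finset ℕ) → Prop}
    {a b c d : ℕ} (h : PPq G u ex a b d c) : PPq G u ex a b c d := by
  rcases h with h | h
  · left; rwa [qd_perm (a := a) (b := b) (c := c) (d := d) (a' := a) (b' := b) (c' := d) (d' := c)
      (fun v => by tauto)]
  · right; rwa [Finset.pair_comm c d]

theorem HB9_same (hM : SymM n M) (hn : n ≤ 512) (hu : ({u0, u1, u2} : Finset ℕ) ∈ Gd n M)
    {R i k : ℕ} (hi : Wf n (Gd n M) (ea It R i) (eb It R i) (eC Zt It R i))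
    (hk : Wf n (Gd n M) (ea It R k) (eb It R k) (eC Zt It R k))
    (h : sameE n M Zt It u0 u1 u2 R i k = true) {c d : ℕ} (hc : (eC Zt It R i).testBit c = true)
    (hd : (eC Zt It R k).testBit d = true) :
    PPq (Gd n M) {u0, u1, u2} (mkD Zt It R).ex (ea It R i) (eb It R i) c d := by
  have hl : eC Zt It R i < 2 ^ 512 :=
    lt_of_bits.2 fun v hv => lt_of_lt_of_le (hi.2.2 v hv).1 hn
  obtain ⟨h1, h2, h3, -⟩ := hi.2.2 c hc
  exact tp_sound hM hu exm_ok (hi.1.trans hi.2.1) hi.2.1 h1 hi.1.ne h2.symm h3.symm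
    ((alB_iff hl).1 h c hc) hd (hk.2.2 d hd).1

theorem gen_sound (hM : SymM n M) (hn : n ≤ 512) (hu : ({u0, u1, u2} : Finset ℕ) ∈ Gd n M)
    (hdm : DimP n) {NI PG PM PS : ℕ} {SM : ℕ → ℕ → ℕ}
    {safe : Finset (Finset ℕ) → Finset ℕ → Prop} {sfe : ℕ → ℕ → ℕ → ℕ → ℕ → Bool} {dd : ℕ → Bool}
    (hg : ∀ p < NI, (mkI NI PG PM PS Zt It).Good n (Gd n M) {u0, u1, u2} SM p)
    (hs : SfeOK n (Gd n M) SM safe (mkI NI PG PM PS Zt It) sfe)
    (hdd : DdOK n hdm (Gd n M) {u0, u1, u2} dd) {a1 b1 c1 a2 b2 c2 R : ℕ}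
    (h : genOK n M Zt It u0 u1 u2 NI PM PS (m3 a1 b1 c1) (m3 a2 b2 c2) sfe dd R = true) :
    (mkD Zt It R).OK (mkI NI PG PM PS Zt It) n hdm (Gd n M) {u0, u1, u2} {a1, b1, c1} {a2, b2, c2}
      SM safe (gs R) (g0 R) := by
  unfold genOK at h
  simp only [an_iff, fb_eq, al_iff, Nat.ble_eq] at h
  obtain ⟨⟨⟨hr, hm⟩, hl⟩, ⟨he, hq⟩, hc⟩ := h
  have hr : gs R + g0 R ≤ NI := hr
  have Q := fun g (h : g < gn R) => quad_sound hM hdm hg hs hdd hr (hq g h)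
  have W : ∀ p < NI, Wf n (Gd n M) (ia It p) (ib It p) (iC Zt It p) := fun p hp => (hg p hp).1.wf
  have E1 : ∀ i < gm R, sameE n M Zt It u0 u1 u2 R i i = true := fun i hi =>
    (an_iff.1 (he i hi)).1
  have E2 : ∀ i < gm R, ¬ i < g0 R → ds R i < gn R ∧ qk R (ds R i) = 0 ∧
      (qm R (ds R i) = 0 ∨ i - qo R (ds R i) < qm R (ds R i)) ∧
      tin (m3 a1 b1 c1) (eA It R i) (eC Zt It R i) ≠ true ∧
      tin (m3 a2 b2 c2) (eA It R i) (eC Zt It R i) ≠ true := fun i hi h0 => by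
    have h := (an_iff.1 (he i hi)).2
    rw [cb_eq, if_neg (fun e => h0 (lt_iff.1 e)), an_iff, an_iff, an_iff, orr_iff, lt_iff, lt_iff,
      z0_iff, z0_iff, cb_eq] at h
    obtain ⟨⟨h1, h2⟩, h3, h4⟩ := h
    refine ⟨h1, h2, h3, fun e => ?_, fun e => ?_⟩
    · rw [if_pos (orr_iff.2 (Or.inl e))] at h4; exact absurd h4 (by simp)
    · rw [if_pos (orr_iff.2 (Or.inr e))] at h4; exact absurd h4 (by simp)
  have wf : ∀ i < gm R, Wf n (Gd n M) (ea It R i) (eb It R i) (eC Zt It R i) := fun i hi => by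
    unfold ea eb eC
    by_cases h0 : i < g0 R
    · rw [HB9_ev1 h0, HB9_ev1 h0, HB9_ev1 h0]; exact W _ (by omega)
    · obtain ⟨h1, h2, h3, -⟩ := E2 i hi h0
      obtain ⟨⟨-, hy, hz, -, -, hxz, -, hyz, -⟩, -, hk, -⟩ := Q _ h1
      obtain ⟨-, -, -, k1, k2⟩ := hk h2
      by_cases hz0 : qm R (ds R i) = 0
      · rw [HB9_ev2 h0 hz0, HB9_ev2 h0 hz0, HB9_ev2 h0 hz0]
        obtain ⟨hxy, -, -, hG, -⟩ := k1 hz0
        refine ⟨hxy, hy, fun c hc => ?_⟩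
        rw [p2_bit.1 hc]; exact ⟨hz, hxz.symm, hyz.symm, hG⟩
      · rw [HB9_ev3 h0 hz0, HB9_ev3 h0 hz0, HB9_ev3 h0 hz0]
        have := (k2 hz0).2.2.1
        exact W _ (by omega)
  obtain ⟨C1, C2, C3⟩ := cross_sound hM hn hu wf (fun _ => rfl) exm_ok hc
  have dj : ∀ i < gm R, ∀ k < i, ∀ t, t ∈ Tk (ea It R i) (eb It R i) (eC Zt It R i) →
      t ∈ Tk (ea It R k) (eb It R k) (eC Zt It R k) → eg R i = eg R k := fun i hi k hk t h1 h2 => by
    by_cases hab : ea It R i = ea It R k ∧ eb It R i = eb It R k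
    · rcases orr_iff.1 (an_iff.1 (C2 i hi k hk hab.1 hab.2)).1 with h | h
      · exact Nat.eq_of_beq_eq_true h
      · obtain ⟨c, hc, e1⟩ := h1
        obtain ⟨d, hd, e2⟩ := h2
        obtain ⟨-, hca, hcb, -⟩ := (wf i hi).2.2 c hc
        have : c ∈ ({ea It R k, eb It R k, d} : Finset ℕ) := by rw [← e2, e1]; simp
        rw [← hab.1, ← hab.2] at this
        have hcd : c = d := by simpa [hca, hcb] using this
        exact (land_zero.1 (z0_iff.1 h) c hc (hcd ▸ hd)).elim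
    · exact Nat.eq_of_beq_eq_true (C3 i hi k hk hab t h1 h2)
  refine
    { rg := hr
      lk := lnk_sound (fun i hi => (W _ (by omega)).1) hl
      wf := wf
      k0 := ?_
      sg := ?_
      dj := fun i hi k hk t h1 h2 => ?_
      ta := fun i hi h0 => ?_
      same := fun i hi k hk ha hb c d hc hd _ => ?_
      cross := C1
      ne := fun g h => (Q g h).1
      nu := fun g h => (Q g h).2.1
      rt := fun g h h0 => ((Q g h).2.2.1 h0).1
      ge := fun g h h0 => ((Q g h).2.2.1 h0).2.2.1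
      iso := fun g h h0 h1 => (((Q g h).2.2.1 h0).2.2.2.1 h1).2.2.2.2
      sr := fun g h h0 h1 => (((Q g h).2.2.1 h0).2.2.2.2 h1).2.2
      kk := fun g h => (Q g h).2.2.2.1
      k1 := fun g h => (Q g h).2.2.2.2.1
      k2 := fun g h h0 => ?_ }
  · rintro t ⟨i, hi, ht⟩
    refine ⟨i, lt_of_lt_of_le hi hm, HB9_eg1 hi, ?_⟩
    show t ∈ Tk (ev _ _ _ _) (ev _ _ _ _) (ev _ _ _ _)
    rw [HB9_ev1 hi, HB9_ev1 hi, HB9_ev1 hi]; exact ht
  · intro g h h0 t ht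
    obtain ⟨-, h1, -, k1, k2⟩ := (Q g h).2.2.1 h0
    by_cases hz0 : qm R g = 0
    · obtain ⟨-, h2, h3, -⟩ := k1 hz0
      have h4 : ¬ qo R g < g0 R := by omega
      have h5 : qm R (ds R (qo R g)) = 0 := by rw [h3]; exact hz0
      refine ⟨qo R g, h2, (HB9_eg2 h4).trans (by rw [h3]), ?_⟩
      show t ∈ Tk (ev _ _ _ _) (ev _ _ _ _) (ev _ _ _ _)
      rw [HB9_ev2 h4 h5, HB9_ev2 h4 h5, HB9_ev2 h4 h5, h3]
      unfold GD.sat at ht
      rw [if_pos (show (mkD Zt It R).sm g = 0 from hz0)] at ht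
      exact ⟨qz R g, p2_bit.2 rfl, ht⟩
    · obtain ⟨h2, h3, -⟩ := k2 hz0
      unfold GD.sat at ht
      rw [if_neg (show ¬ (mkD Zt It R).sm g = 0 from hz0)] at ht
      obtain ⟨j, hj, ht⟩ := ht
      have hj : j < qm R g := hj
      have h4 : ¬ qo R g + j < g0 R := by omega
      have h6 := h3 j hj
      have h5 : qm R (ds R (qo R g + j)) ≠ 0 := by rw [h6]; exact hz0
      refine ⟨qo R g + j, show _ < gm R by omega, (HB9_eg2 h4).trans (by rw [h6]), ?_⟩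
      show t ∈ Tk (ev _ _ _ _) (ev _ _ _ _) (ev _ _ _ _)
      rw [HB9_ev3 h4 h5, HB9_ev3 h4 h5, HB9_ev3 h4 h5, h6, Nat.add_sub_cancel_left]
      exact ht
  · rcases lt_trichotomy k i with h | h | h
    · exact dj i hi k h t h1 h2
    · rw [h]
    · exact (dj k hk i h t h2 h1).symm
  · have h1 : ¬ i < g0 R := fun e => h0 (HB9_eg1 e)
    obtain ⟨-, -, -, h2, h3⟩ := E2 i hi h1
    exact ⟨fun e => h2 (HB9_tin (wf i hi) e), fun e => h3 (HB9_tin (wf i hi) e)⟩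
  · rcases lt_trichotomy k i with h | h | h
    · exact HB9_same hM hn hu (wf i hi) (wf k hk) (an_iff.1 (C2 i hi k h ha hb)).2 hc hd
    · subst h; exact HB9_same hM hn hu (wf k hi) (wf k hk) (E1 k hk) hc hd
    · rw [ha, hb]
      exact HB9_sym (HB9_same hM hn hu (wf k hk) (wf i hi)
        (an_iff.1 (C2 k hk i h ha.symm hb.symm)).2 hd hc)
  · obtain ⟨⟨-, -, -, -, -, -, -, hyz, hyw, hzw⟩, -, -, -, -, hk⟩ := Q g h
    obtain ⟨h1, h2, h3⟩ := hk h0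
    refine ⟨h1, fun e => ?_, h3⟩
    have := hm_ok wf (eA := eA It R) (fun _ => rfl) _ _ _ hyz hyw.symm hzw.symm e
    rw [h2] at this; exact absurd this (by simp)

end Pool.Agent.MP_797bdc_co.Lk.H
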