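import Pool.Agent.MP_797bdc_co.Lk.HB4
import Pool.Agent.MP_797bdc_co.Lk.HB9

/-! Checker H: the final statement. -/

namespace Pool.Agent.MP_797bdc_co.Lk.H

open Finset

variable {n : ℕ} {M : ℕ → ℕ} {Zt It : ℕ → ℕ} {u0 u1 u2 : ℕ}

theorem hba_ch {S : ℕ → ℕ → ℕ → ℕ → Prop} {P : ℕ → Prop}
    (hS : ∀ s t e r, S s t e r → ∀ p, s ≤ p → p < e → P p) {s t e r : ℕ} (h : Ch S s t e r) :
    ∀ p, s ≤ p → p < e → P p := by
  induction h with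
  | nil => intro p a b; omega
  | @snoc y _ _ _ _ k ih =>
    intro p a b
    rcases Nat.lt_or_ge p y with c | c
    · exact ih p a c
    · exact hS _ _ _ _ k p c b

theorem hba_gen {NI PM PS T1 T2 : ℕ} {sfe : ℕ → ℕ → ℕ → ℕ → ℕ → Bool} {dd : ℕ → Bool} {e : ℕ}
    (L : List ℕ) : ∀ s, genU n M Zt It u0 u1 u2 NI PM PS T1 T2 sfe dd s e L = true →
      ∀ p, s ≤ p → p < e → ∃ R, gs R ≤ p ∧ p < gs R + g0 R ∧
        genOK n M Zt It u0 u1 u2 NI PM PS T1 T2 sfe dd R = true := by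
  induction L with
  | nil =>
    intro s h p a b
    have k : s = e := Nat.eq_of_beq_eq_true h
    omega
  | cons R L ih =>
    intro s h p a b
    have h' : an (an (Nat.beq (gs R) s) (genOK n M Zt It u0 u1 u2 NI PM PS T1 T2 sfe dd R))
        (genU n M Zt It u0 u1 u2 NI PM PS T1 T2 sfe dd (gs R + g0 R) e L) = true := h
    rw [an_iff, an_iff] at h'
    obtain ⟨⟨k1, k2⟩, k3⟩ := h'
    have k : gs R = s := Nat.eq_of_beq_eq_true k1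
    rcases Nat.lt_or_ge p (gs R + g0 R) with c | c
    · exact ⟨R, by omega, c, k2⟩
    · exact ih _ k3 p c b

theorem hall (hmat : MAT_s) (hT : HT_s) (hM : SymM n M) (hn : n ≤ 512) (hdm : DimP n)
    {Sig : Finset (Finset ℕ)} {a1 b1 c1 a2 b2 c2 : ℕ} {h1 h2 : Finset (Finset ℕ)}
    (hB : Base (sysN n hdm) (Gd n M) Sig {u0, u1, u2} {a1, b1, c1} {a2, b2, c2} h1 h2)
    {NI PG PM PS ON : ℕ} {SM : ℕ → ℕ → ℕ} (hO : Spr n ON (2 ^ n - 1))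
    {safe : Finset (Finset ℕ) → Finset ℕ → Prop} {sfe : ℕ → ℕ → ℕ → ℕ → ℕ → Bool} {dd : ℕ → Bool}
    (hs : (∀ p < NI, (mkI NI PG PM PS Zt It).Good n (Gd n M) {u0, u1, u2} SM p) →
      SfeOK n (Gd n M) SM safe (mkI NI PG PM PS Zt It) sfe)
    (hdd : DdOK n hdm (Gd n M) {u0, u1, u2} dd) {x t e : ℕ}
    (c1' : Ch (fun x t x' t' => ∃ a b0 k R,
      unitOK n M Zt It u0 u1 u2 NI PG PM PS ON SM x t x' t' a b0 k R = true) 0 0 x t)
    (hx : 512 * (n - 2) + n ≤ x) (ht : NI ≤ t)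
    (c2' : Ch (fun s _ e _ => ∃ L, genU n M Zt It u0 u1 u2 NI PM PS (m3 a1 b1 c1) (m3 a2 b2 c2)
      sfe dd s e L = true) 0 0 e 0)
    (c3' : Ch (fun s _ e _ => ∃ k R, plainU n M Zt It u0 u1 u2 NI PG s e k R = true) e 0 NI 0) :
    HOK3 n hdm (Gd n M) {u0, u1, u2} {a1, b1, c1} {a2, b2, c2} h1 h2 SM safe := by
  have hu : ({u0, u1, u2} : Finset ℕ) ∈ Gd n M := hB.uG
  obtain ⟨hg, hc⟩ := pairs_sound hmat hM hn hu hO c1' hx ht
  refine hT n hdm (Gd n M) Sig _ _ _ h1 h2 hB hn SM safe (mkI NI PG PM PS Zt It) hg hc ?_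
  intro p hp
  rcases Nat.lt_or_ge p e with c | c
  · obtain ⟨R, k1, k2, k3⟩ := hba_ch (P := fun p => ∃ R, gs R ≤ p ∧ p < gs R + g0 R ∧
        genOK n M Zt It u0 u1 u2 NI PM PS (m3 a1 b1 c1) (m3 a2 b2 c2) sfe dd R = true)
      (fun s _ e _ h => by obtain ⟨L, h⟩ := h; exact hba_gen L s h) c2' p (Nat.zero_le p) c
    exact ⟨gs R, g0 R, k1, k2, Or.inr ⟨mkD Zt It R, gen_sound hM hn hu hdm hg (hs hg) hdd k3⟩⟩
  · obtain ⟨s, m, k1, k2, k3⟩ := hba_ch (P := fun p => ∃ s m, s ≤ p ∧ p < s + m ∧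
        (mkI NI PG PM PS Zt It).Plain (Gd n M) {u0, u1, u2} s m)
      (fun s _ e _ h => by obtain ⟨k, R, h⟩ := h; exact plainU_sound hM hn hu hg h) c3' p c hp
    exact ⟨s, m, k1, k2, Or.inl k3⟩

end Pool.Agent.MP_797bdc_co.Lk.H
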