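import Pool.Agent.MP_797bdc_co.Lk.HC

/-! Checker H: dead quads, definitions for kernel evaluation. -/

namespace Pool.Agent.MP_797bdc_co.Lk.H

open Nat (add mul sub land lor xor shiftRight shiftLeft ble beq log2)

noncomputable section

/-- the vertices of a code -/
def dx (c : Nat) : Nat := Nat.mod c (nat_lit 512)
def dy (c : Nat) : Nat := Nat.mod (Nat.div c (nat_lit 512)) (nat_lit 512)
def dz (c : Nat) : Nat := Nat.mod (Nat.div c (nat_lit 262144)) (nat_lit 512)
def dw (c : Nat) : Nat := Nat.mod (Nat.div c (nat_lit 134217728)) (nat_lit 512)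
def lany (f : Nat → Bool) (T : List Nat) : Bool := List.rec false (fun t _ ih => orr (f t) ih) T
def lall (f : Nat → Bool) (T : List Nat) : Bool := List.rec true (fun t _ ih => an (f t) ih) T
/-- the triple with mask `m` is in the list `T` -/
def tmem (T : List Nat) (m : Nat) : Bool := lany (fun t => beq (m3 (dx t) (dy t) (dz t)) m) T

/-- data of a dead quad: code, apex over `u`, one token list per face through the apex -/
structure DR where
  c : Nat
  v : Nat
  T1 : List Nat
  T2 : List Nat
  T3 : List Nat

section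
variable (n : Nat) (M : Nat → Nat) (u0 u1 u2 : Nat)

/-- the gates at the token `p q r` with apex pair `p q` that avoid the faces `um`, `em` -/
def dap (T : List Nat) (um em p q r : Nat) : Bool :=
  alB (fun d => orr (orr (orr (beq (m3 p r d) um) (beq (m3 p r d) em))
      (orr (beq (m3 q r d) um) (beq (m3 q r d) em))) (tmem T (m3 p q d)))
    (df (land (Lf n M p r) (Lf n M q r)) (Lf n M p q))
def dtk (T : List Nat) (um em a b c : Nat) : Bool :=
  an (an (lt a n) (an (lt b n) (lt c n)))
    (an (dap n M T um em a b c) (an (dap n M T um em a c b) (dap n M T um em b c a)))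
def dfc (c em : Nat) (T : List Nat) : Bool :=
  orr (beq em (m3 (dx c) (dz c) (dw c)))
    (an (an (tmem T (m3 (dx c) (dy c) (dz c))) (cb (tmem T (m3 (dx c) (dy c) (dw c))) false true))
      (lall (fun t => dtk n M T (m3 u0 u1 u2) em (dx t) (dy t) (dz t)) T))
def dq (r : DR) : Bool :=
  an (an (an (an (lt u0 n) (lt u1 n)) (an (tb (Lf n M u0 u1) u2) (tb (Lf n M u0 u1) r.v)))
      (an (tb (Lf n M u0 u2) r.v) (tb (Lf n M u1 u2) r.v)))
    (an (dfc n M u0 u1 u2 r.c (m3 u0 u1 r.v) r.T1)
      (an (dfc n M u0 u1 u2 r.c (m3 u0 u2 r.v) r.T2) (dfc n M u0 u1 u2 r.c (m3 u1 u2 r.v) r.T3)))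
/-- all records are correct -/
def dall (L : List DR) : Bool := List.rec true (fun r _ ih => an (dq n M u0 u1 u2 r) ih) L
/-- `c` is the code of a record -/
def ddf (L : List DR) (c : Nat) : Bool := List.rec false (fun r _ ih => orr (beq c r.c) ih) L

end

end

end Pool.Agent.MP_797bdc_co.Lk.H
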