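import Pool.Agent.MP_797bdc_co.Lk.HB1
import Pool.Agent.MP_797bdc_co.Lk.HD

/-! Checker H: dead quads, soundness. -/

namespace Pool.Agent.MP_797bdc_co.Lk.H

open Finset

theorem lany_iff {f : ℕ → Bool} {T : List ℕ} : lany f T = true ↔ ∃ t ∈ T, f t = true := by
  induction T with
  | nil => simp [lany]
  | cons a T ih =>
    have h : lany f (a :: T) = orr (f a) (lany f T) := rfl
    rw [h, orr_iff, ih]; simp

theorem lall_iff {f : ℕ → Bool} {T : List ℕ} : lall f T = true ↔ ∀ t ∈ T, f t = true := by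
  induction T with
  | nil => simp [lall]
  | cons a T ih =>
    have h : lall f (a :: T) = an (f a) (lall f T) := rfl
    rw [h, an_iff, ih]; simp

theorem m3_beq {a b c x y z : ℕ} :
    Nat.beq (m3 a b c) (m3 x y z) = true ↔ ({a, b, c} : Finset ℕ) = {x, y, z} := by
  rw [Nat.beq_eq]
  constructor
  · intro h
    ext i
    simp only [mem_insert, mem_singleton]
    rw [← m3_bit, ← m3_bit, h]
  · intro h
    refine Nat.eq_of_testBit_eq fun i => ?_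
    rw [Bool.eq_iff_iff, m3_bit, m3_bit]
    simpa only [mem_insert, mem_singleton] using Finset.ext_iff.1 h i

/-- the tokens of a list -/
def TL (T : List ℕ) : Set (Finset ℕ) := {s | ∃ t ∈ T, ({dx t, dy t, dz t} : Finset ℕ) = s}

theorem tmem_iff {T : List ℕ} {a b c : ℕ} :
    tmem T (m3 a b c) = true ↔ ({a, b, c} : Finset ℕ) ∈ TL T := by
  simp only [tmem, lany_iff, m3_beq, TL, Set.mem_ofPred_eq]

variable {n : ℕ} {M : ℕ → ℕ} {u0 u1 u2 : ℕ}

/-- closure at one apex pair -/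
def DAp (n : ℕ) (G : Finset (Finset ℕ)) (T : Set (Finset ℕ)) (u e : Finset ℕ) (p q r : ℕ) : Prop :=
  ∀ d < n, ({p, r, d} : Finset ℕ) ∈ G → ({q, r, d} : Finset ℕ) ∈ G →
    ({p, q, d} : Finset ℕ) ∉ G → ({p, r, d} : Finset ℕ) ≠ u → ({p, r, d} : Finset ℕ) ≠ e →
    ({q, r, d} : Finset ℕ) ≠ u → ({q, r, d} : Finset ℕ) ≠ e → ({p, q, d} : Finset ℕ) ∈ T

theorem DAp.symm {G : Finset (Finset ℕ)} {T : Set (Finset ℕ)} {u e : Finset ℕ} {p q r : ℕ}
    (h : DAp n G T u e p q r) : DAp n G T u e q p r := by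
  intro d hd h1 h2 h3 h4 h5 h6 h7
  rw [insert_comm] at h3 ⊢
  exact h d hd h2 h1 h3 h6 h7 h4 h5

theorem dap_ok (hM : SymM n M) (hn : n ≤ 512) {T : List ℕ} {e0 e1 e2 p q r : ℕ} (hp : p < n)
    (hq : q < n) (hr : r < n) (h : dap n M T (m3 u0 u1 u2) (m3 e0 e1 e2) p q r = true) :
    DAp n (Gd n M) (TL T) {u0, u1, u2} {e0, e1, e2} p q r := by
  intro d hd h1 h2 h3 h4 h5 h6 h7
  have hb : ∀ i, (df (Nat.land (Lf n M p r) (Lf n M q r)) (Lf n M p q)).testBit i = true ↔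
      ((Lf n M p r).testBit i = true ∧ (Lf n M q r).testBit i = true) ∧
        ¬ (Lf n M p q).testBit i = true := by
    intro i
    rw [df_bit, Nat.land_eq, Nat.testBit_and]
    simp
  rw [dap, alB_iff (lt_of_bits.2 fun i hi => by
    have := ((Lf_bit hM hp hr).1 ((hb i).1 hi).1.1).1
    omega)] at h
  have k := h d ((hb d).2 ⟨⟨(Lf_bit hM hp hr).2 ⟨hd, h1⟩, (Lf_bit hM hq hr).2 ⟨hd, h2⟩⟩,
    fun k => h3 ((Lf_bit hM hp hq).1 k).2⟩)
  simp only [orr_iff, m3_beq, tmem_iff] at k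
  tauto

theorem dtk_ok (hM : SymM n M) (hn : n ≤ 512) {T : List ℕ} {e0 e1 e2 a b c : ℕ}
    (h : dtk n M T (m3 u0 u1 u2) (m3 e0 e1 e2) a b c = true) {p q r : ℕ} (hpq : p ≠ q)
    (hpr : p ≠ r) (hqr : q ≠ r) (he : ({a, b, c} : Finset ℕ) = {p, q, r}) :
    DAp n (Gd n M) (TL T) {u0, u1, u2} {e0, e1, e2} p q r := by
  simp only [dtk, an_iff, lt_iff] at h
  obtain ⟨⟨ha, hb, hc⟩, h1, h2, h3⟩ := h
  have k1 := dap_ok hM hn ha hb hc h1
  have k2 := dap_ok hM hn ha hc hb h2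
  have k3 := dap_ok hM hn hb hc ha h3
  have hp : p ∈ ({a, b, c} : Finset ℕ) := by simp [he]
  have hq : q ∈ ({a, b, c} : Finset ℕ) := by simp [he]
  have hr : r ∈ ({a, b, c} : Finset ℕ) := by simp [he]
  simp only [mem_insert, mem_singleton] at hp hq hr
  rcases hp with rfl | rfl | rfl <;> rcases hq with rfl | rfl | rfl <;>
    rcases hr with rfl | rfl | rfl <;> first
    | exact absurd rfl hpq
    | exact absurd rfl hpr
    | exact absurd rfl hqr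
    | assumption
    | exact k1.symm
    | exact k2.symm
    | exact k3.symm

theorem dfc_ok (hg : GNF_s) (hd : DimP n) (hM : SymM n M) (hn : n ≤ 512) {T : List ℕ}
    {c e0 e1 e2 : ℕ} (h : dfc n M u0 u1 u2 c (m3 e0 e1 e2) T = true)
    (hf : ({e0, e1, e2} : Finset ℕ) ≠ {cx c, cz c, cw c}) :
    ∃ T : Set (Finset ℕ), GClosed (sysN n hd) (Gd n M)
      (fun p => ({u0, u1, u2} : Finset ℕ) ∉ p ∧ ({e0, e1, e2} : Finset ℕ) ∉ p) T ∧
      ({cx c, cy c, cz c} : Finset ℕ) ∈ T ∧ ({cx c, cy c, cw c} : Finset ℕ) ∉ T := by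
  simp only [dfc, orr_iff, an_iff, m3_beq, tmem_iff, lall_iff, cb_eq] at h
  obtain ⟨⟨h1, h2⟩, h3⟩ := h.resolve_left hf
  refine ⟨TL T, ?_, h1, fun k => ?_⟩
  swap
  · rw [if_pos (tmem_iff.2 (show ({dx c, dy c, dw c} : Finset ℕ) ∈ TL T from k))] at h2
    exact absurd h2 (by simp)
  obtain ⟨g1, g2, -, -⟩ := hg n hd (Gd n M) (filter_subset _ _)
  rintro q hq ⟨hu, he⟩ t ht t' ht' hG hG' ⟨s, hs, hst⟩
  obtain ⟨a, -, b, -, x, hx, y, hy, hab, hxy, ax, ay, bx, bY, rfl, f1, f2, f3, f4⟩ := g1 q hq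
  have hm := g2 a b x y hab.ne ax ay bx bY hxy.ne
  have m1 := (hm {a, x, y}).2 (by simp)
  have m2 := (hm {b, x, y}).2 (by simp)
  have c1 : ({a, y, x} : Finset ℕ) = {a, x, y} := by rw [pair_comm]
  have c2 : ({b, y, x} : Finset ℕ) = {b, x, y} := by rw [pair_comm]
  rcases (hm t).1 ht with rfl | rfl | rfl | rfl
  · rcases (hm t').1 ht' with rfl | rfl | rfl | rfl
    · exact ⟨s, hs, hst⟩
    · exact dtk_ok hM hn (h3 s hs) hab.ne ax bx hst y hy f1 f2 f4 (fun k => hu (k ▸ m1))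
        (fun k => he (k ▸ m1)) (fun k => hu (k ▸ m2)) (fun k => he (k ▸ m2))
    · exact absurd f1 hG'
    · exact absurd f2 hG'
  · rcases (hm t').1 ht' with rfl | rfl | rfl | rfl
    · refine dtk_ok hM hn (h3 s hs) hab.ne ay bY hst x hx (c1 ▸ f1) (c2 ▸ f2) f3 ?_ ?_ ?_ ?_
      · rw [c1]; exact fun k => hu (k ▸ m1)
      · rw [c1]; exact fun k => he (k ▸ m1)
      · rw [c2]; exact fun k => hu (k ▸ m2)
      · rw [c2]; exact fun k => he (k ▸ m2)
    · exact ⟨s, hs, hst⟩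
    · exact absurd f1 hG'
    · exact absurd f2 hG'
  · exact absurd f1 hG
  · exact absurd f2 hG

theorem dq_ok (hg : GNF_s) (hd : DimP n) (hM : SymM n M) (hn : n ≤ 512) {r : DR}
    (h : dq n M u0 u1 u2 r = true) :
    Dead0 n hd (Gd n M) {u0, u1, u2} (cx r.c) (cy r.c) (cz r.c) (cw r.c) := by
  simp only [dq, an_iff, lt_iff, tb_eq] at h
  obtain ⟨⟨⟨⟨h0, h1⟩, f1, f2⟩, f3, f4⟩, d1, d2, d3⟩ := h
  obtain ⟨h2, f1⟩ := (Lf_bit hM h0 h1).1 f1
  obtain ⟨hv, f2⟩ := (Lf_bit hM h0 h1).1 f2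
  have f3 := ((Lf_bit hM h0 h2).1 f3).2
  have f4 := ((Lf_bit hM h1 h2).1 f4).2
  obtain ⟨n01, n02, n12, -⟩ := hM.2 _ h0 _ h1 _ h2 ((mem_Gd hM h0 h1 h2).1 f1)
  obtain ⟨-, n0v, n1v, -⟩ := hM.2 _ h0 _ h1 _ hv ((mem_Gd hM h0 h1 hv).1 f2)
  obtain ⟨-, -, n2v, -⟩ := hM.2 _ h0 _ h2 _ hv ((mem_Gd hM h0 h2 hv).1 f3)
  have hm := (hg n hd (Gd n M) (filter_subset _ _)).2.1 u0 u1 u2 r.v n01 n02 n0v n12 n1v n2v
  refine ⟨qd u0 u1 u2 r.v, ⟨⟨{u0, u1, u2, r.v}, ?_, ?_, rfl⟩, fun t ht => ?_⟩,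
    (hm _).2 (Or.inl rfl), fun e he hu hf => ?_⟩
  · intro i hi
    simp only [mem_insert, mem_singleton] at hi
    rcases hi with rfl | rfl | rfl | rfl <;> simpa
  · rw [card_insert_of_notMem (by simp [n01, n02, n0v]), card_insert_of_notMem (by simp [n12, n1v]),
      card_pair n2v]
  · rcases (hm t).1 ht with rfl | rfl | rfl | rfl <;> assumption
  · rcases (hm e).1 he with rfl | rfl | rfl | rfl
    · exact absurd rfl hu
    · exact dfc_ok hg hd hM hn d1 hf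
    · exact dfc_ok hg hd hM hn d2 hf
    · exact dfc_ok hg hd hM hn d3 hf

/-- The check of the dead quads is sound. -/
theorem dd_ok (hg : GNF_s) (hd : DimP n) (hM : SymM n M) (hn : n ≤ 512) {L : List DR}
    (h : dall n M u0 u1 u2 L = true) : DdOK n hd (Gd n M) {u0, u1, u2} (ddf L) := by
  intro c hc
  induction L with
  | nil => exact absurd hc (by simp [ddf])
  | cons r L ih =>
    have e1 : dall n M u0 u1 u2 (r :: L) = an (dq n M u0 u1 u2 r) (dall n M u0 u1 u2 L) := rfl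
    have e2 : ddf (r :: L) c = orr (Nat.beq c r.c) (ddf L c) := rfl
    rw [e1, an_iff] at h
    rw [e2, orr_iff, Nat.beq_eq] at hc
    rcases hc with rfl | hc
    · exact dq_ok hg hd hM hn h.1
    · exact ih h.2 hc

end Pool.Agent.MP_797bdc_co.Lk.H
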