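import Pool.Agent.MP_797bdc_co.Lk.HS

/-! Row HG: hulls with exceptional quads. -/

namespace Pool.Agent.MP_797bdc_co.Lk

open Finset

namespace HGx

lemma tri {x y z a b c : ℕ} (h : ({x, y, z} : Finset ℕ) = {a, b, c}) :
    (x = a ∨ x = b ∨ x = c) ∧ (y = a ∨ y = b ∨ y = c) ∧ (z = a ∨ z = b ∨ z = c) := by
  have k := fun t => (Finset.ext_iff.1 h t)
  simp only [mem_insert, mem_singleton] at k
  exact ⟨(k x).1 (.inl rfl), (k y).1 (.inr (.inl rfl)), (k z).1 (.inr (.inr rfl))⟩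

lemma s12 (x y z : ℕ) : ({x, y, z} : Finset ℕ) = {y, x, z} := insert_comm _ _ _

lemma iso1 {G : Finset (Finset ℕ)} {x y z a b c d : ℕ} (hxy : x ≠ y) (hxz : x ≠ z) (hyz : y ≠ z)
    (e : ({x, y, z} : Finset ℕ) = {a, b, c}) (g1 : ({a, c, d} : Finset ℕ) ∈ G)
    (g2 : ({b, c, d} : Finset ℕ) ∈ G)
    (h : ¬ (({x, y, d} : Finset ℕ) ∈ G ∧ ({x, z, d} : Finset ℕ) ∈ G) ∧
      ¬ (({x, y, d} : Finset ℕ) ∈ G ∧ ({y, z, d} : Finset ℕ) ∈ G) ∧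
      ¬ (({x, z, d} : Finset ℕ) ∈ G ∧ ({y, z, d} : Finset ℕ) ∈ G)) : False := by
  obtain ⟨t1, t2, t3⟩ := tri e
  have g1' : ({c, a, d} : Finset ℕ) ∈ G := by rwa [s12]
  have g2' : ({c, b, d} : Finset ℕ) ∈ G := by rwa [s12]
  rcases t1 with rfl | rfl | rfl <;> rcases t2 with rfl | rfl | rfl <;>
    rcases t3 with rfl | rfl | rfl <;> first
    | exact hxy rfl
    | exact hxz rfl
    | exact hyz rfl
    | exact h.2.2 ⟨g1, g2⟩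
    | exact h.2.2 ⟨g2, g1⟩
    | exact h.2.1 ⟨g1, g2'⟩
    | exact h.2.1 ⟨g2, g1'⟩
    | exact h.1 ⟨g1', g2'⟩
    | exact h.1 ⟨g2', g1'⟩

lemma tkG {n : ℕ} {G : Finset (Finset ℕ)} {a b C : ℕ} (h : Wf n G a b C) {t : Finset ℕ}
    (ht : t ∈ Tk a b C) : t ∉ G := by
  obtain ⟨c, hc, rfl⟩ := ht
  exact (h.2.2 c hc).2.2.2

end HGx

open HGx in
theorem hgen (hc : PCL2_s) (ha : PCA_s) (hk : HK_s) (hg : GNF_s) : HG_s := by
  intro n hd G Sig u τ1 τ2 h1 h2 hB hn SM safe I hI s m D hD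
  have hGΩ : G ⊆ Om n := hB.GΩ
  obtain ⟨g1, g2, -, g4⟩ := hg n hd G hGΩ
  obtain ⟨-, Kc, Kt, -, -⟩ := hk n hd G u SM I hn hGΩ hI s m hD.rg hD.lk
  have HG' : ∀ t ∈ HE D.ea D.eb D.eC D.m, t ∉ G := by
    rintro t ⟨i, hi, ht⟩
    exact tkG (hD.wf i hi) ht
  have KH : ∀ t ∈ I.Kr s m, t ∈ HE D.ea D.eb D.eC D.m := fun t ht => by
    obtain ⟨i, hi, -, h⟩ := hD.k0 t ht
    exact ⟨i, hi, h⟩
  have SH : ∀ g < D.ng, D.kd g = 0 → ∀ t ∈ D.sat I g, t ∈ HE D.ea D.eb D.eC D.m :=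
    fun g hg0 k0 t ht => by
      obtain ⟨i, hi, -, h⟩ := hD.sg g hg0 k0 t ht
      exact ⟨i, hi, h⟩
  have mq : ∀ g < D.ng, ∀ t, t ∈ qd (D.x g) (D.y g) (D.z g) (D.w g) ↔
      t = {D.x g, D.y g, D.z g} ∨ t = {D.x g, D.y g, D.w g} ∨ t = {D.x g, D.z g, D.w g} ∨
        t = {D.y g, D.z g, D.w g} := fun g hg0 => by
    obtain ⟨-, -, -, -, e1, e2, e3, e4, e5, e6⟩ := hD.ne g hg0
    exact g2 _ _ _ _ e1 e2 e3 e4 e5 e6
  have isoG : ∀ g < D.ng, D.kd g = 0 → D.sm g = 0 → ∀ q, Gate (sysN n hd) G q → ∀ t ∈ q,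
      t ∉ D.sat I g := by
    intro g hg0 k0 s0 q hq t htq ht
    have tG := HG' t (SH g hg0 k0 t ht)
    have e : t = {D.x g, D.y g, D.z g} := by simpa [GD.sat, s0] using ht
    obtain ⟨-, -, -, -, e1, e2, -, e4, -, -⟩ := hD.ne g hg0
    obtain ⟨a, -, b, -, c, hcn, d, hdn, hab, hcd, n1, n2, n3, n4, rfl, f1, f2, -, -⟩ := g1 q hq
    rcases (g2 a b c d hab.ne n1 n2 n3 n4 hcd.ne t).1 htq with h | h | h | h
    · exact iso1 e1 e2 e4 (e.symm.trans h) f1 f2 (hD.iso g hg0 k0 s0 d hdn)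
    · refine iso1 e1 e2 e4 (e.symm.trans h) ?_ ?_ (hD.iso g hg0 k0 s0 c hcn)
      · rwa [pair_comm d c]
      · rwa [pair_comm d c]
    · exact tG (h ▸ f1)
    · exact tG (h ▸ f2)
  have gate1 : ∀ g < D.ng, D.kd g = 1 →
      Gate (sysN n hd) G (qd (D.x g) (D.y g) (D.z g) (D.w g)) := by
    intro g hg0 k1
    obtain ⟨a1, a2, a3, a4, e1, -⟩ := hD.ne g hg0
    obtain ⟨p1, p2, p3⟩ := hD.kk g hg0 (by omega)
    exact g4 _ a1 _ a2 _ a3 _ a4 e1 p3 (hD.k1 g hg0 k1) (Kt _ p1) (Kt _ p2)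
  obtain ⟨c1, c2⟩ := hc n hd G Sig u τ1 τ2 h1 h2 hB (HE D.ea D.eb D.eC D.m) D.ex HG'
    (ha n G u D.ex D.ea D.eb D.eC D.m hD.wf hD.same hD.cross)
  let sat : Finset (Finset ℕ) → Set (Finset ℕ) := fun q =>
    {t | ∃ g < D.ng, D.kd g = 0 ∧ q = qd (D.x g) (D.y g) (D.z g) (D.w g) ∧ t ∈ D.sat I g}
  have cv : ∀ b, (b ∈ G ∨ b ∈ I.Kr s m ∨ ∃ p, D.gen p ∧ b ∈ sat p) →
      b ∈ G ∨ b ∈ HE D.ea D.eb D.eC D.m := by
    rintro b (h | h | ⟨p, -, g, hg0, k0, -, h⟩)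
    · exact .inl h
    · exact .inr (KH b h)
    · exact .inr (SH g hg0 k0 b h)
  refine ⟨sat, Kt, Kc, ?_, ?_, ?_, ?_, ?_, ?_, ?_⟩
  · rintro q - t ⟨g, hg0, k0, -, ht⟩
    obtain ⟨i, hi, e, h⟩ := hD.sg g hg0 k0 t ht
    obtain ⟨a1, a2⟩ := hD.ta i hi (by omega)
    refine ⟨tkG (hD.wf i hi) h, fun hK => ?_, fun e' => a1 (e' ▸ h), fun e' => a2 (e' ▸ h)⟩
    obtain ⟨k, hk', e', h'⟩ := hD.k0 t hK
    have := hD.dj i hi k hk' t h h'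
    omega
  · rintro q - q' hq' hu t ht t' ht' tG t'G ⟨g, hg0, k0, e, h⟩
    by_cases s0 : D.sm g = 0
    · exact (isoG g hg0 k0 s0 q' hq' t ht h).elim
    · obtain ⟨r1, r2, -⟩ := hD.sr g hg0 k0 s0
      obtain ⟨-, cl, -⟩ := hk n hd G u SM I hn hGΩ hI _ _ r1 r2
      refine ⟨g, hg0, k0, e, ?_⟩
      simp only [GD.sat, s0, if_false] at h ⊢
      exact cl q' hq' hu t ht t' ht' tG t'G h
  · rintro q q' - - t ⟨g, hg0, k0, e, h⟩ ⟨g', hg0', k0', e', h'⟩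
    obtain ⟨i, hi, p, h⟩ := hD.sg g hg0 k0 t h
    obtain ⟨i', hi', p', h'⟩ := hD.sg g' hg0' k0' t h'
    have := hD.dj i hi i' hi' t h h'
    obtain rfl : g = g' := by omega
    exact e.trans e'.symm
  · rintro q - q' hq' t ht ⟨g, hg0, k0, e, h⟩
    by_cases s0 : D.sm g = 0
    · exact (isoG g hg0 k0 s0 q' hq' t ht h).elim
    · obtain ⟨r1, r2, r3⟩ := hD.sr g hg0 k0 s0
      obtain ⟨-, -, -, m1, m2⟩ := hk n hd G u SM I hn hGΩ hI _ _ r1 r2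
      simp only [GD.sat, s0, if_false] at h
      rcases r3 with ⟨p1, p2⟩ | ⟨T, hT, hs⟩
      · exact .inl (m1 p1 p2 q' hq' t ht h)
      · rcases m2 _ safe T hs q' hq' t ht h with h' | ⟨t0, h0, h'⟩
        · exact .inl h'
        · exact .inr ⟨t0, e ▸ (hT t0 h0).1, (hT t0 h0).2, h'⟩
  · rintro q ⟨g, hg0, k0, rfl⟩
    refine ⟨_, (mq g hg0 _).2 (.inl rfl), ⟨g, hg0, k0, rfl, hD.rt g hg0 k0⟩, fun b hb hne => ?_⟩
    obtain ⟨p1, p2, p3⟩ := hD.ge g hg0 k0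
    rcases (mq g hg0 b).1 hb with rfl | rfl | rfl | rfl
    · exact (hne rfl).elim
    · exact p1
    · exact p2
    · exact p3
  · intro q hq hu hs a haq h
    rcases c1 q hq hu hs a haq (fun b hb hne => cv b (h b hb hne)) with h' | ⟨g, hg0, rfl⟩
    · exact .inl h'
    by_cases k0 : D.kd g = 0
    · exact .inr (.inl ⟨g, hg0, k0, rfl⟩)
    by_cases k1 : D.kd g = 1
    · exact .inl (gate1 g hg0 k1)
    obtain ⟨p1, p2, p3⟩ := hD.kk g hg0 k0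
    obtain ⟨r1, r2, r3⟩ := hD.k2 g hg0 (by omega)
    obtain rfl : a = {D.y g, D.z g, D.w g} := by
      by_contra hne
      rcases cv _ (h _ ((mq g hg0 _).2 (.inr (.inr (.inr rfl)))) (Ne.symm hne)) with h' | h'
      · exact r1 h'
      · exact r2 h'
    exact .inr (.inr ⟨_, (mq g hg0 _).2 (.inr (.inr (.inl rfl))), _, (mq g hg0 _).2 (.inl rfl),
      _, (mq g hg0 _).2 (.inr (.inl rfl)), fun e => r1 (e ▸ p3), fun e => r2 (e ▸ KH _ p1),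
      fun e => r2 (e ▸ KH _ p2), p3, p1, p2, r3⟩)
  · intro q hq hu hs h
    rcases c2 q hq hu hs (fun b hb hne => cv b (h b hb hne)) with h' | h' | ⟨g, hg0, rfl⟩
    · exact .inl h'
    · exact .inr (.inl h')
    have k1 : D.kd g = 1 := by
      by_contra k1
      exact hD.nu g hg0 k1 hu
    obtain ⟨p1, p2, p3⟩ := hD.kk g hg0 (by omega)
    refine .inr (.inr ⟨gate1 g hg0 k1, fun t ht tG => ?_⟩)
    rcases (mq g hg0 t).1 ht with rfl | rfl | rfl | rfl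
    · exact p1
    · exact p2
    · exact (tG p3).elim
    · exact (tG (hD.k1 g hg0 k1)).elim

end Pool.Agent.MP_797bdc_co.Lk
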