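import Pool.Agent.MP_797bdc_co.Lk.HS

/-! A linked range of good items. -/

namespace Pool.Agent.MP_797bdc_co.Lk

open Finset

namespace HKx

theorem s12 (x y z : ℕ) : ({x, y, z} : Finset ℕ) = {y, x, z} := insert_comm x y {z}
theorem s23 (x y z : ℕ) : ({x, y, z} : Finset ℕ) = {x, z, y} := by rw [pair_comm y z]

theorem tri {a b c x y z : ℕ} (h : ({a, b, c} : Finset ℕ) = {x, y, z}) (h1 : a < b) (h2 : x < y)
    (h3 : z ≠ x) (h4 : z ≠ y) : (x = a ∧ y = b ∧ z = c) ∨ (x = a ∧ y = c ∧ z = b) ∨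
      (x = c ∧ y = a ∧ z = b) ∨ (x = b ∧ y = c ∧ z = a) ∨ (x = c ∧ y = b ∧ z = a) := by
  have e := Finset.ext_iff.1 h
  have e1 := (e x).2 (by simp)
  have e2 := (e y).2 (by simp)
  have e3 := (e z).2 (by simp)
  simp only [mem_insert, mem_singleton] at e1 e2 e3
  clear e h
  rcases e1 with p | p | p <;> rcases e2 with q | q | q <;> rcases e3 with r | r | r <;>
    first | (exfalso; omega) | simp only [p, q, r, and_self, true_or, or_true]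

theorem two {a b x y : ℕ} (h : ({x, y} : Finset ℕ) = {a, b} ∨ ({x, y} : Finset ℕ) = {b, a})
    (h1 : a < b) (h2 : x < y) : x = a ∧ y = b := by
  have h : ({x, y} : Finset ℕ) = {a, b} := h.elim id fun h => h.trans (pair_comm b a)
  have e := Finset.ext_iff.1 h
  have e1 := (e x).1 (by simp)
  have e2 := (e y).1 (by simp)
  simp only [mem_insert, mem_singleton] at e1 e2
  omega

/-- Normal form of a gate with a chosen token. -/
theorem nf (hg : GNF_s) {n : ℕ} (hd : DimP n) {G : Finset (Finset ℕ)} (hG : G ⊆ Om n) {q}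
    (hq : Gate (sysN n hd) G q) {t} (ht : t ∈ q) (htG : t ∉ G) :
    ∃ a < n, ∃ b < n, ∃ c < n, ∃ d < n, a < b ∧ c ≠ d ∧ q = qd a b c d ∧
      ({a, c, d} : Finset ℕ) ∈ G ∧ ({b, c, d} : Finset ℕ) ∈ G ∧
      ({a, b, c} : Finset ℕ) ∉ G ∧ ({a, b, d} : Finset ℕ) ∉ G ∧ t = {a, b, c} ∧
      ∀ r, r ∈ q ↔ r = {a, b, c} ∨ r = {a, b, d} ∨ r = {a, c, d} ∨ r = {b, c, d} := by
  obtain ⟨g1, g2, -⟩ := hg n hd G hG
  obtain ⟨a, ha, b, hb, c, hc, d, hd', ab, cd, ac, ad, bc, bd, rfl, f1, f2, f3, f4⟩ := g1 q hq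
  have m1 := g2 a b c d ab.ne ac ad bc bd cd.ne
  have m2 := g2 a b d c ab.ne ad ac bd bc cd.ne'
  have e : qd a b c d = qd a b d c := by
    ext r
    rw [m1, m2, s23 a d c, s23 b d c]
    exact or_left_comm
  rcases (m1 t).1 ht with rfl | rfl | rfl | rfl
  · exact ⟨a, ha, b, hb, c, hc, d, hd', ab, cd.ne, rfl, f1, f2, f3, f4, rfl, m1⟩
  · exact ⟨a, ha, b, hb, d, hd', c, hc, ab, cd.ne', e, s23 a c d ▸ f1, s23 b c d ▸ f2, f4, f3, rfl,
      e ▸ m2⟩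
  · exact absurd f1 htG
  · exact absurd f2 htG

end HKx

open HKx in
theorem hk (hg : GNF_s) : HK_s := by
  intro n hd G u SM I hn hG hI s m hm hL
  have gd := fun i (hi : i < m) => hI (s + i) (by omega)
  have p1 : ∀ a b c d, a < b → b < n → c < n → d < n → ({a, c, d} : Finset ℕ) ∈ G →
      ({b, c, d} : Finset ℕ) ∈ G → ({a, b, c} : Finset ℕ) ∈ I.Kr s m →
      ∃ i < m, I.a (s + i) = a ∧ I.b (s + i) = b ∧ (I.C (s + i)).testBit c = true := by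
    rintro a b c d ab hb hc hd' f1 f2 ⟨i, hi, z, hz, e⟩
    beta_reduce at hz e
    have g := (gd i hi).1
    obtain ⟨-, z1, z2, -⟩ := g.wf.2.2 z hz
    have fin : ∀ k < m, ({I.a (s + k), I.b (s + k)} : Finset ℕ) = {a, b} ∨
        ({I.a (s + k), I.b (s + k)} : Finset ℕ) = {b, a} → (I.C (s + k)).testBit c = true →
        ∃ i < m, I.a (s + i) = a ∧ I.b (s + i) = b ∧ (I.C (s + i)).testBit c = true :=
      fun k hk h1 h2 => ⟨k, hk, (two h1 ab (gd k hk).1.wf.1).1, (two h1 ab (gd k hk).1.wf.1).2, h2⟩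
    rcases tri e ab g.wf.1 z1 z2 with ⟨x, y, rfl⟩ | ⟨x, y, rfl⟩ | ⟨x, y, rfl⟩ | ⟨x, y, rfl⟩ |
      ⟨x, y, rfl⟩
    · exact ⟨i, hi, x, y, hz⟩
    · obtain ⟨k, hk, h1, h2⟩ := (hL i hi z (by omega)).1
        (g.l1 z hz d hd' (by rwa [x, y]) (by rwa [y, s12]))
      exact fin k hk (.inl (x ▸ h1)) (y ▸ h2)
    · obtain ⟨k, hk, h1, h2⟩ := (hL i hi z (by omega)).2
        (g.l2 z hz d hd' (by rwa [x, y, s12]) (by rwa [x, s12]))
      exact fin k hk (.inl (y ▸ h1)) (x ▸ h2)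
    · obtain ⟨k, hk, h1, h2⟩ := (hL i hi z (by omega)).1
        (g.l1 z hz d hd' (by rwa [x, y]) (by rwa [y, s12]))
      exact fin k hk (.inr (x ▸ h1)) (y ▸ h2)
    · obtain ⟨k, hk, h1, h2⟩ := (hL i hi z (by omega)).2
        (g.l2 z hz d hd' (by rwa [x, y, s12]) (by rwa [x, s12]))
      exact fin k hk (.inr (y ▸ h1)) (x ▸ h2)
  have p3 : ∀ t ∈ I.Kr s m, t ∉ G := by
    rintro t ⟨i, hi, z, hz, rfl⟩
    exact ((gd i hi).1.wf.2.2 z hz).2.2.2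
  refine ⟨p1, fun q hq hu t ht t' ht' h1 h2 hK => ?_, p3, fun k1 k2 q hq t ht hK => ?_,
    fun noLoc safe t0 H q hq t ht hK => ?_⟩
  · obtain ⟨a, -, b, hb, c, hc, d, hd', ab, -, -, f1, f2, -, f4, rfl, mq⟩ := nf hg hd hG hq ht h1
    obtain ⟨i, hi, rfl, rfl, hz⟩ := p1 a b c d ab hb hc hd' f1 f2 hK
    rcases (mq t').1 ht' with rfl | rfl | rfl | rfl
    · exact hK
    · exact ⟨i, hi, d, (gd i hi).1.cl c hz d hd'
        ⟨f1, fun e => hu ((mq u).2 (.inr (.inr (.inl e.symm))))⟩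
        ⟨f2, fun e => hu ((mq u).2 (.inr (.inr (.inr e.symm))))⟩ f4, rfl⟩
    · exact absurd f1 h2
    · exact absurd f2 h2
  · obtain ⟨a, ha, b, hb, c, hc, d, hd', ab, cd, e, f1, f2, f3, f4, rfl, -⟩ :=
      nf hg hd hG hq ht (p3 t hK)
    obtain ⟨i, hi, rfl, rfl, hz⟩ := p1 a b c d ab hb hc hd' f1 f2 hK
    exact ⟨_, ha, _, hb, c, hc, d, hd', ab, cd, e, f1, f2, f3, f4,
      (gd i hi).2.2 (by omega) (by omega) c hz⟩
  · obtain ⟨a, -, b, hb, c, hc, d, hd', ab, -, rfl, f1, f2, -, f4, rfl, -⟩ :=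
      nf hg hd hG hq ht (p3 t hK)
    obtain ⟨i, hi, rfl, rfl, hz⟩ := p1 a b c d ab hb hc hd' f1 f2 hK
    exact H i hi c hz d hd' f1 f2 f4

end Pool.Agent.MP_797bdc_co.Lk
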