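import Pool.Agent.MP_797bdc_co.Lk.HS

/-! Row HP: hulls without generating quads. -/

namespace Pool.Agent.MP_797bdc_co.Lk

open Finset

namespace HPx

lemma tri {x y z a b c : ℕ} (h : ({x, y, z} : Finset ℕ) = {a, b, c}) :
    (x = a ∨ x = b ∨ x = c) ∧ (y = a ∨ y = b ∨ y = c) ∧ (z = a ∨ z = b ∨ z = c) ∧
    (a = x ∨ a = y ∨ a = z) ∧ (b = x ∨ b = y ∨ b = z) ∧ (c = x ∨ c = y ∨ c = z) := by
  have k := fun t => (Finset.ext_iff.1 h t)
  simp only [mem_insert, mem_singleton] at k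
  exact ⟨(k x).1 (.inl rfl), (k y).1 (.inr (.inl rfl)), (k z).1 (.inr (.inr rfl)),
    (k a).2 (.inl rfl), (k b).2 (.inr (.inl rfl)), (k c).2 (.inr (.inr rfl))⟩

lemma two {a x y z w : ℕ} (h : a = x ∨ a = y ∨ a = z) (h' : a = x ∨ a = y ∨ a = w)
    (hzw : z ≠ w) : a = x ∨ a = y := by omega

lemma s12 (x y z : ℕ) : ({x, y, z} : Finset ℕ) = {y, x, z} := insert_comm _ _ _

/-- closure of a solo component along one gate -/
lemma step {n : ℕ} {G : Finset (Finset ℕ)} {u : Finset ℕ} {a b C : ℕ} (h : GoodC n G u a b C 0)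
    {a' b' c' d' : ℕ} (hab : a' < b') (hd : d' < n) (h1 : a' ≠ c') (h2 : b' ≠ c')
    (g1 : Gm G u {a', c', d'}) (g2 : Gm G u {b', c', d'})
    (n2 : ({a', b', d'} : Finset ℕ) ∉ G) (ht : ({a', b', c'} : Finset ℕ) ∈ Tk a b C) :
    ({a', b', d'} : Finset ℕ) ∈ Tk a b C := by
  obtain ⟨c, hc, e⟩ := ht
  obtain ⟨hlt, -, hw⟩ := h.wf
  obtain ⟨-, hca, hcb, -⟩ := hw c hc
  obtain ⟨t1, t2, t3, -⟩ := tri e
  have z : ∀ i, ¬ (Nat.testBit 0 i = true) := fun i => by simp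
  have cs : (a' = a ∧ b' = b ∧ c' = c) ∨ (a' = a ∧ b' = c ∧ c' = b) ∨ (a' = c ∧ b' = a ∧ c' = b) ∨
      (a' = b ∧ b' = c ∧ c' = a) ∨ (a' = c ∧ b' = b ∧ c' = a) := by
    have h0 := hab.ne
    rcases t1 with rfl | rfl | rfl <;> rcases t2 with rfl | rfl | rfl <;>
      rcases t3 with rfl | rfl | rfl <;> first
      | exact absurd rfl h0
      | exact absurd rfl h1
      | exact absurd rfl h2
      | exact absurd hlt (not_lt.2 hab.le)
      | simp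
  rcases cs with ⟨rfl, rfl, rfl⟩ | ⟨rfl, rfl, rfl⟩ | ⟨rfl, rfl, rfl⟩ | ⟨rfl, rfl, rfl⟩ |
    ⟨rfl, rfl, rfl⟩
  · exact ⟨d', h.cl _ hc d' hd g1 g2 n2, rfl⟩
  · exact (z _ (h.l1 _ hc d' hd g1.1 (s12 _ _ _ ▸ g2.1))).elim
  · exact (z _ (h.l1 _ hc d' hd g2.1 (s12 _ _ _ ▸ g1.1))).elim
  · exact (z _ (h.l2 _ hc d' hd (s12 _ _ _ ▸ g1.1) (s12 _ _ _ ▸ g2.1))).elim
  · exact (z _ (h.l2 _ hc d' hd (s12 _ _ _ ▸ g2.1) (s12 _ _ _ ▸ g1.1))).elim

lemma pcall {n : ℕ} {G : Finset (Finset ℕ)} {u : Finset ℕ} {a b C : ℕ} (h : Wf n G a b C)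
    (hp : Par G u a b C) : PCall G u (Tk a b C) (fun _ => False) := by
  rintro x y z w hxy hxz hxw hyz hyw hzw ⟨c, hc, e⟩ ⟨d, hd, e'⟩
  obtain ⟨hlt, -, hw⟩ := h
  obtain ⟨-, hca, hcb, -⟩ := hw c hc
  obtain ⟨-, hda, hdb, -⟩ := hw d hd
  have ka : a = x ∨ a = y := two (tri e).2.2.2.1 (tri e').2.2.2.1 hzw
  have kb : b = x ∨ b = y := two (tri e).2.2.2.2.1 (tri e').2.2.2.2.1 hzw
  have cs : (x = a ∧ y = b) ∨ (x = b ∧ y = a) := by clear hxz hxw hyz hyw hzw hca hcb hda hdb; omega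
  have kz : z = c := by
    have := (tri e).2.2.1
    clear ka kb hxw hyw hzw hda hdb
    omega
  have kw : w = d := by
    have := (tri e').2.2.1
    clear ka kb hxz hyz hzw hca hcb
    omega
  subst kz kw
  have p := hp z w hc hd hzw
  have na : ({a, z, w} : Finset ℕ) ∉ Tk a b C := by
    rintro ⟨f, -, ef⟩
    have := (tri ef).2.2.2.2.1
    clear ka kb cs
    omega
  have nb : ({b, z, w} : Finset ℕ) ∉ Tk a b C := by
    rintro ⟨f, -, ef⟩
    have := (tri ef).2.2.2.1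
    clear ka kb cs
    omega
  by_cases g : Gm G u {a, z, w}
  · rcases cs with ⟨rfl, rfl⟩ | ⟨rfl, rfl⟩
    · exact .inl ⟨g, p.1 g⟩
    · exact .inl ⟨p.1 g, g⟩
  · rcases cs with ⟨rfl, rfl⟩ | ⟨rfl, rfl⟩
    · exact .inr (.inr ⟨g, na, fun k => g (p.2 k), nb⟩)
    · exact .inr (.inr ⟨fun k => g (p.2 k), nb, g, na⟩)

end HPx

theorem hp (hc : PCL2_s) (hg : GNF_s) : HP_s := by
  intro n hd G Sig u τ1 τ2 h1 h2 hB noLoc safe
  have P1 : ∀ K : Set (Finset ℕ), (∀ t ∈ K, t ∉ G) → GClosed (sysN n hd) G (u ∉ ·) K →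
      PCall G u K (fun _ => False) →
      Hull3 (sysN n hd) G u τ1 τ2 h1 h2 noLoc safe K (fun _ => False) (fun _ => ∅) := by
    intro K hK hcl hP
    obtain ⟨A, B⟩ := hc n hd G Sig u τ1 τ2 h1 h2 hB K (fun _ => False) hK hP
    refine ⟨hK, hcl, fun _ h => h.elim, fun _ h => h.elim, fun _ _ h => h.elim,
      fun _ h => h.elim, fun _ h => h.elim, fun q hq hu hs a ha hb => ?_, fun q hq hu hs hb => ?_⟩
    · rcases A q hq hu hs a ha (fun b h h' => (hb b h h').imp_right fun k =>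
        k.elim id fun ⟨_, k, _⟩ => k.elim) with h | h
      · exact .inl h
      · exact h.elim
    · rcases B q hq hu hs (fun b h h' => (hb b h h').imp_right fun k =>
        k.elim id fun ⟨_, k, _⟩ => k.elim) with h | h | h
      · exact .inl h
      · exact .inr (.inl h)
      · exact h.elim
  refine ⟨P1, fun a b C hG hp => P1 _ ?_ ?_ (HPx.pcall hG.wf hp), fun ρ hρ hq => P1 _ ?_ ?_ ?_⟩
  · rintro t ⟨c, hc', rfl⟩
    exact (hG.wf.2.2 c hc').2.2.2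
  · intro q hq hu t ht t' ht' n1 n2 hK
    obtain ⟨N1, N2, -⟩ := hg n hd G hB.GΩ
    obtain ⟨a', -, b', -, c', hc', d', hd', hab, hcd, e1, e2, e3, e4, rfl, g1, g2, k1, k2⟩ :=
      N1 q hq
    have M := N2 a' b' c' d' hab.ne e1 e2 e3 e4 hcd.ne
    have u1 : ({a', c', d'} : Finset ℕ) ≠ u := fun e =>
      hu (e ▸ (M _).2 (.inr (.inr (.inl rfl))))
    have u2 : ({b', c', d'} : Finset ℕ) ≠ u := fun e =>
      hu (e ▸ (M _).2 (.inr (.inr (.inr rfl))))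
    have sw : ∀ x : ℕ, ({x, d', c'} : Finset ℕ) = {x, c', d'} := fun x => by rw [pair_comm]
    rcases (M t).1 ht with rfl | rfl | rfl | rfl
    · rcases (M t').1 ht' with rfl | rfl | rfl | rfl
      · exact hK
      · exact HPx.step hG hab hd' e1 e3 ⟨g1, u1⟩ ⟨g2, u2⟩ k2 hK
      · exact (n2 g1).elim
      · exact (n2 g2).elim
    · rcases (M t').1 ht' with rfl | rfl | rfl | rfl
      · exact HPx.step hG hab hc' e2 e4 (sw a' ▸ ⟨g1, u1⟩) (sw b' ▸ ⟨g2, u2⟩) k1 hK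
      · exact hK
      · exact (n2 g1).elim
      · exact (n2 g2).elim
    · exact (n1 g1).elim
    · exact (n1 g2).elim
  · rintro t rfl
    exact hρ
  · rintro q hq' hu t ht t' - - - rfl
    exact (hq q hq' hu ht).elim
  · intro x y z w hxy hxz hxw hyz hyw hzw e e'
    have := (HPx.tri ((Set.mem_singleton_iff.1 e).trans (Set.mem_singleton_iff.1 e').symm)).2.2.1
    omega

end Pool.Agent.MP_797bdc_co.Lk
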