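import Pool.Agent.MP_797bdc_co.Lk.Stm3

/-! Version with dead quads. -/

namespace Pool.Agent.MP_797bdc_co.Lk

open Finset

section Abs
variable {α : Type} [DecidableEq α] (S : Sys α) (G : Finset α)

/-- The quad `q` cannot produce `a` while `u` is missing. -/
def Dead (u : α) (K : Set α) (q : Finset α) (a : α) : Prop :=
  ∃ f ∈ q, ∃ t1 ∈ q, ∃ t2 ∈ q, f ≠ a ∧ t1 ≠ a ∧ t2 ≠ a ∧ f ∈ G ∧ t1 ∈ K ∧ t2 ∈ K ∧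
    ∃ τ, FQ S G τ ∧ u ∈ τ ∧ ∀ e ∈ τ, e ≠ u → e ≠ f →
      ∃ T : Set α, GClosed S G (fun p => u ∉ p ∧ e ∉ p) T ∧ t1 ∈ T ∧ t2 ∉ T

structure Hull3 (u τ1 τ2 : α) (h1 h2 : Finset α) (noLoc : Finset α → Prop)
    (safe : Finset α → α → Prop) (K : Set α)
    (gen : Finset α → Prop) (sat : Finset α → Set α) : Prop where
  Kt : ∀ t ∈ K, t ∉ G
  Kc : GClosed S G (u ∉ ·) K
  st : ∀ q, gen q → ∀ t ∈ sat q, t ∉ G ∧ t ∉ K ∧ t ≠ τ1 ∧ t ≠ τ2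
  sc : ∀ q, gen q → GClosed S G (u ∉ ·) (sat q)
  sd : ∀ q q', gen q → gen q' → ∀ t, t ∈ sat q → t ∈ sat q' → q = q'
  sn : ∀ q, gen q → ∀ q', Gate S G q' → ∀ t ∈ q', t ∈ sat q →
        noLoc q' ∨ ∃ b ∈ q, b ∈ K ∧ safe q' b
  ge : ∀ q, gen q → ∃ t ∈ q, t ∈ sat q ∧ ∀ b ∈ q, b ≠ t → b ∈ G ∨ b ∈ K
  cl : ∀ q, S.Q q → u ∉ q → ¬ q ⊆ G → ∀ a ∈ q,
        (∀ b ∈ q, b ≠ a → b ∈ G ∨ b ∈ K ∨ ∃ p, gen p ∧ b ∈ sat p) →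
        Gate S G q ∨ gen q ∨ Dead S G u K q a
  cu : ∀ q, S.Q q → u ∈ q → ¬ q ⊆ G →
        (∀ b ∈ q, b ≠ u → b ∈ G ∨ b ∈ K ∨ ∃ p, gen p ∧ b ∈ sat p) →
        q = h1 ∨ q = h2 ∨ (Gate S G q ∧ ∀ t ∈ q, t ∉ G → t ∈ K)

structure LockH3 (Sig : Finset α) (u τ1 τ2 : α) (h1 h2 : Finset α) (noLoc : Finset α → Prop)
    (safe : Finset α → α → Prop) : Prop where
  base : Base S G Sig u τ1 τ2 h1 h2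
  bp : BPon2 S G noLoc safe (fun _ => True)
  cold : ∀ ρ ∈ S.Ω, ρ ∉ G → ∃ K gen sat, ρ ∈ K ∧ Hull3 S G u τ1 τ2 h1 h2 noLoc safe K gen sat
  hot : ∀ m ∈ Sig, ∃ H, Hot S G τ1 τ2 m H
  sep : ∃ K1 K2 : Set α, τ1 ∈ K1 ∧ τ2 ∈ K2 ∧ GClosed S G (fun _ => True) K1 ∧
    GClosed S G (fun _ => True) K2 ∧ ∀ t, t ∈ K1 → t ∉ K2

end Abs

def LOCK3_s : Prop := ∀ (α : Type) [DecidableEq α] (S : Sys α) (G Sig : Finset α) (u τ1 τ2 : α)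
  (h1 h2 : Finset α) (noLoc : Finset α → Prop) (safe : Finset α → α → Prop),
  LockH3 S G Sig u τ1 τ2 h1 h2 noLoc safe →
  ∀ R, InS S G R → ∀ g ∈ R, ∀ ρ ∈ S.Ω, ρ ∉ R → Perc S (insert ρ (R.erase g)) →
    InS S G (insert ρ (R.erase g))

end Pool.Agent.MP_797bdc_co.Lk
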