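import Pool.Agent.MP_797bdc_co.Lk.BI
import Pool.Agent.MP_797bdc_co.Lk.Stm4

/-! Semantic layer of checker H (hulls). -/

namespace Pool.Agent.MP_797bdc_co.Lk

open Finset

section
variable (n : ℕ) (G : Finset (Finset ℕ)) (u : Finset ℕ)

/-- a face other than `u` -/
def Gm (f : Finset ℕ) : Prop := f ∈ G ∧ f ≠ u

/-- tokens of a component `C` (vertex mask) of the apex pair `a, b` -/
def Tk (a b C : ℕ) : Set (Finset ℕ) := {t | ∃ c, C.testBit c = true ∧ t = {a, b, c}}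

/-- well-formed component -/
def Wf (a b C : ℕ) : Prop := a < b ∧ b < n ∧
  ∀ c, C.testBit c = true → c < n ∧ c ≠ a ∧ c ≠ b ∧ ({a, b, c} : Finset ℕ) ∉ G

/-- `C` is closed under the gates without `u` at the apex pair; `LM` contains the vertices whose
token may have a gate at the apex pair `a, c` (bit `c`) or `b, c` (bit `512 + c`). -/
structure GoodC (a b C LM : ℕ) : Prop where
  wf : Wf n G a b C
  cl : ∀ c, C.testBit c = true → ∀ d < n, Gm G u {a, c, d} → Gm G u {b, c, d} →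
    ({a, b, d} : Finset ℕ) ∉ G → C.testBit d = true
  l1 : ∀ c, C.testBit c = true → ∀ d < n, ({a, b, d} : Finset ℕ) ∈ G →
    ({b, c, d} : Finset ℕ) ∈ G → LM.testBit c = true
  l2 : ∀ c, C.testBit c = true → ∀ d < n, ({a, b, d} : Finset ℕ) ∈ G →
    ({a, c, d} : Finset ℕ) ∈ G → LM.testBit (512 + c) = true

/-- parity inside a component -/
def Par (a b C : ℕ) : Prop := ∀ c d, C.testBit c = true → C.testBit d = true → c ≠ d →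
  (Gm G u {a, c, d} ↔ Gm G u {b, c, d})

/-- condition on the quad with the tokens `xyz`, `xyw` of `H` -/
def PCq (H : Set (Finset ℕ)) (ex : Finset (Finset ℕ) → Prop) (x y z w : ℕ) : Prop :=
  (Gm G u {x, z, w} ∧ Gm G u {y, z, w}) ∨ ex (qd x y z w) ∨
    (¬ Gm G u {x, z, w} ∧ ({x, z, w} : Finset ℕ) ∉ H ∧
      ¬ Gm G u {y, z, w} ∧ ({y, z, w} : Finset ℕ) ∉ H)

/-- its parity part -/
def PPq (ex : Finset (Finset ℕ) → Prop) (x y z w : ℕ) : Prop :=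
  ex (qd x y z w) ∨ (Gm G u {x, z, w} ↔ Gm G u {y, z, w})

/-- all tokens of the entries `i < m` -/
def HE (ea eb eC : ℕ → ℕ) (m : ℕ) : Set (Finset ℕ) := {t | ∃ i < m, t ∈ Tk (ea i) (eb i) (eC i)}

/-- entries with the same apex pair -/
def SameOK (gen : Finset (Finset ℕ) → Prop) (ea eb eC : ℕ → ℕ) (m : ℕ) : Prop :=
  ∀ i < m, ∀ k < m, ea i = ea k → eb i = eb k → ∀ c d, (eC i).testBit c = true →
    (eC k).testBit d = true → c ≠ d → PPq G u gen (ea i) (eb i) c d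

/-- entries with different apex pairs -/
def CrossOK (gen : Finset (Finset ℕ) → Prop) (ea eb eC : ℕ → ℕ) (m : ℕ) : Prop :=
  ∀ i < m, ∀ k < m, ¬ (ea i = ea k ∧ eb i = eb k) → ∀ x y z w : ℕ,
    x ≠ y → x ≠ z → x ≠ w → y ≠ z → y ≠ w → z ≠ w →
    ({x, y, z} : Finset ℕ) ∈ Tk (ea i) (eb i) (eC i) →
    ({x, y, w} : Finset ℕ) ∈ Tk (ea k) (eb k) (eC k) →
    ({x, y, z} : Finset ℕ) ∉ Tk (ea k) (eb k) (eC k) →
    ({x, y, w} : Finset ℕ) ∉ Tk (ea i) (eb i) (eC i) → PCq G u (HE ea eb eC m) gen x y z w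

/-- the pair condition for `H` -/
def PCall (H : Set (Finset ℕ)) (gen : Finset (Finset ℕ) → Prop) : Prop :=
  ∀ x y z w : ℕ, x ≠ y → x ≠ z → x ≠ w → y ≠ z → y ≠ w → z ≠ w →
    ({x, y, z} : Finset ℕ) ∈ H → ({x, y, w} : Finset ℕ) ∈ H → PCq G u H gen x y z w

end

/-- The table of linked components. -/
structure IT where
  N : ℕ
  PG : ℕ
  PM : ℕ
  PS : ℕ
  a : ℕ → ℕ
  b : ℕ → ℕ
  C : ℕ → ℕ
  LM : ℕ → ℕ

namespace IT
variable (I : IT) (n : ℕ) (G : Finset (Finset ℕ)) (u : Finset ℕ) (SM : ℕ → ℕ → ℕ)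

def Good (p : ℕ) : Prop := GoodC n G u (I.a p) (I.b p) (I.C p) (I.LM p) ∧
  (I.PG ≤ p → Par G u (I.a p) (I.b p) (I.C p)) ∧
  (I.PM ≤ p → p < I.PS → ∀ c, (I.C p).testBit c = true →
    (SM (I.a p) (I.b p)).testBit c = true)

/-- tokens of the items `s ≤ p < s + m` -/
def Kr (s m : ℕ) : Set (Finset ℕ) := HE (fun i => I.a (s + i)) (fun i => I.b (s + i))
  (fun i => I.C (s + i)) m

/-- the links of the items `s ≤ p < s + m` stay inside this range -/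
def Lnk (s m : ℕ) : Prop := ∀ i < m, ∀ c < 512,
  ((I.LM (s + i)).testBit c = true → ∃ k < m,
    ({I.a (s + k), I.b (s + k)} : Finset ℕ) = {I.a (s + i), c} ∧
      (I.C (s + k)).testBit (I.b (s + i)) = true) ∧
  ((I.LM (s + i)).testBit (512 + c) = true → ∃ k < m,
    ({I.a (s + k), I.b (s + k)} : Finset ℕ) = {I.b (s + i), c} ∧
      (I.C (s + k)).testBit (I.a (s + i)) = true)

/-- every gate without `u` at the apex pair `a, b` starts in a solo component or in an item -/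
def Cov (a b : ℕ) : Prop := ∀ c < n, ∀ d < n, Gm G u {a, c, d} → Gm G u {b, c, d} →
  ({a, b, c} : Finset ℕ) ∉ G → ({a, b, d} : Finset ℕ) ∉ G →
  (∃ C, GoodC n G u a b C 0 ∧ Par G u a b C ∧ C.testBit c = true) ∨
    ∃ p < I.N, I.a p = a ∧ I.b p = b ∧ (I.C p).testBit c = true

/-- a class without generating quads -/
def Plain (s m : ℕ) : Prop := I.PG ≤ s ∧ s + m ≤ I.N ∧ I.Lnk s m ∧
  (∀ i < m, ∀ k < m, I.a (s + i) = I.a (s + k) → I.b (s + i) = I.b (s + k) → i = k) ∧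
  CrossOK G u (fun _ => False) (fun i => I.a (s + i)) (fun i => I.b (s + i))
    (fun i => I.C (s + i)) m

end IT

/-- All gates at the component are marked or have a safe token in `T`. -/
def ISafe (n : ℕ) (G : Finset (Finset ℕ)) (noLoc : Finset (Finset ℕ) → Prop)
    (safe : Finset (Finset ℕ) → Finset ℕ → Prop) (a b C : ℕ) (T : Set (Finset ℕ)) : Prop :=
  ∀ c, C.testBit c = true → ∀ d < n, ({a, c, d} : Finset ℕ) ∈ G → ({b, c, d} : Finset ℕ) ∈ G →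
    ({a, b, d} : Finset ℕ) ∉ G → noLoc (qd a b c d) ∨ ∃ t ∈ T, safe (qd a b c d) t

/-- The part of `Dead` that does not mention `K`: tokens `xyz`, `xyw`, face `xzw`. -/
def Dead0 (n : ℕ) (hd : DimP n) (G : Finset (Finset ℕ)) (u : Finset ℕ) (x y z w : ℕ) : Prop :=
  ∃ τ, FQ (sysN n hd) G τ ∧ u ∈ τ ∧ ∀ e ∈ τ, e ≠ u → e ≠ {x, z, w} →
    ∃ T : Set (Finset ℕ), GClosed (sysN n hd) G (fun p => u ∉ p ∧ e ∉ p) T ∧
      ({x, y, z} : Finset ℕ) ∈ T ∧ ({x, y, w} : Finset ℕ) ∉ T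

/-- Data of a class with exceptional quads: entries `i < m` with a group number; quads `x y z w`
of kind 0 (generating, root token `xyz`, satellite = the root token alone if `sm = 0`, else a
range of items), kind 1 (gate with tokens `xyz`, `xyw` in the class), other kinds (dead). -/
structure GD where
  m : ℕ
  ea : ℕ → ℕ
  eb : ℕ → ℕ
  eC : ℕ → ℕ
  eg : ℕ → ℕ
  ng : ℕ
  kd : ℕ → ℕ
  x : ℕ → ℕ
  y : ℕ → ℕ
  z : ℕ → ℕ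
  w : ℕ → ℕ
  ss : ℕ → ℕ
  sm : ℕ → ℕ

namespace GD
variable (D : GD)
def ex (q : Finset (Finset ℕ)) : Prop := ∃ g < D.ng, q = qd (D.x g) (D.y g) (D.z g) (D.w g)
def gen (q : Finset (Finset ℕ)) : Prop :=
  ∃ g < D.ng, D.kd g = 0 ∧ q = qd (D.x g) (D.y g) (D.z g) (D.w g)
def sat (I : IT) (g : ℕ) : Set (Finset ℕ) :=
  if D.sm g = 0 then {{D.x g, D.y g, D.z g}} else I.Kr (D.ss g) (D.sm g)

structure OK (I : IT) (n : ℕ) (hd : DimP n) (G : Finset (Finset ℕ)) (u τ1 τ2 : Finset ℕ)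
    (SM : ℕ → ℕ → ℕ) (safe : Finset (Finset ℕ) → Finset ℕ → Prop) (s m : ℕ) : Prop where
  rg : s + m ≤ I.N
  lk : I.Lnk s m
  wf : ∀ i < D.m, Wf n G (D.ea i) (D.eb i) (D.eC i)
  k0 : ∀ t ∈ I.Kr s m, ∃ i < D.m, D.eg i = 0 ∧ t ∈ Tk (D.ea i) (D.eb i) (D.eC i)
  sg : ∀ g < D.ng, D.kd g = 0 → ∀ t ∈ D.sat I g,
    ∃ i < D.m, D.eg i = g + 1 ∧ t ∈ Tk (D.ea i) (D.eb i) (D.eC i)
  dj : ∀ i < D.m, ∀ k < D.m, ∀ t, t ∈ Tk (D.ea i) (D.eb i) (D.eC i) →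
    t ∈ Tk (D.ea k) (D.eb k) (D.eC k) → D.eg i = D.eg k
  ta : ∀ i < D.m, D.eg i ≠ 0 → τ1 ∉ Tk (D.ea i) (D.eb i) (D.eC i) ∧
    τ2 ∉ Tk (D.ea i) (D.eb i) (D.eC i)
  same : SameOK G u D.ex D.ea D.eb D.eC D.m
  cross : CrossOK G u D.ex D.ea D.eb D.eC D.m
  ne : ∀ g < D.ng, D.x g < n ∧ D.y g < n ∧ D.z g < n ∧ D.w g < n ∧
    D.x g ≠ D.y g ∧ D.x g ≠ D.z g ∧ D.x g ≠ D.w g ∧ D.y g ≠ D.z g ∧
    D.y g ≠ D.w g ∧ D.z g ≠ D.w g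
  nu : ∀ g < D.ng, D.kd g ≠ 1 → u ∉ qd (D.x g) (D.y g) (D.z g) (D.w g)
  rt : ∀ g < D.ng, D.kd g = 0 → ({D.x g, D.y g, D.z g} : Finset ℕ) ∈ D.sat I g
  ge : ∀ g < D.ng, D.kd g = 0 →
    (({D.x g, D.y g, D.w g} : Finset ℕ) ∈ G ∨ ({D.x g, D.y g, D.w g} : Finset ℕ) ∈ I.Kr s m) ∧
    (({D.x g, D.z g, D.w g} : Finset ℕ) ∈ G ∨ ({D.x g, D.z g, D.w g} : Finset ℕ) ∈ I.Kr s m) ∧
    (({D.y g, D.z g, D.w g} : Finset ℕ) ∈ G ∨ ({D.y g, D.z g, D.w g} : Finset ℕ) ∈ I.Kr s m)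
  iso : ∀ g < D.ng, D.kd g = 0 → D.sm g = 0 → ∀ d < n,
    ¬ (({D.x g, D.y g, d} : Finset ℕ) ∈ G ∧ ({D.x g, D.z g, d} : Finset ℕ) ∈ G) ∧
    ¬ (({D.x g, D.y g, d} : Finset ℕ) ∈ G ∧ ({D.y g, D.z g, d} : Finset ℕ) ∈ G) ∧
    ¬ (({D.x g, D.z g, d} : Finset ℕ) ∈ G ∧ ({D.y g, D.z g, d} : Finset ℕ) ∈ G)
  sr : ∀ g < D.ng, D.kd g = 0 → D.sm g ≠ 0 → D.ss g + D.sm g ≤ I.N ∧ I.Lnk (D.ss g) (D.sm g) ∧
    ((I.PM ≤ D.ss g ∧ D.ss g + D.sm g ≤ I.PS) ∨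
      ∃ T : Set (Finset ℕ), (∀ t ∈ T, t ∈ qd (D.x g) (D.y g) (D.z g) (D.w g) ∧ t ∈ I.Kr s m) ∧
        ∀ i < D.sm g, ISafe n G (noLocS n G SM) safe (I.a (D.ss g + i)) (I.b (D.ss g + i))
          (I.C (D.ss g + i)) T)
  kk : ∀ g < D.ng, D.kd g ≠ 0 → ({D.x g, D.y g, D.z g} : Finset ℕ) ∈ I.Kr s m ∧
    ({D.x g, D.y g, D.w g} : Finset ℕ) ∈ I.Kr s m ∧ ({D.x g, D.z g, D.w g} : Finset ℕ) ∈ G
  k1 : ∀ g < D.ng, D.kd g = 1 → ({D.y g, D.z g, D.w g} : Finset ℕ) ∈ G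
  k2 : ∀ g < D.ng, 2 ≤ D.kd g → ({D.y g, D.z g, D.w g} : Finset ℕ) ∉ G ∧
    ({D.y g, D.z g, D.w g} : Finset ℕ) ∉ HE D.ea D.eb D.eC D.m ∧
    Dead0 n hd G u (D.x g) (D.y g) (D.z g) (D.w g)
end GD

/-- Goal of checker H. -/
def HOK3 (n : ℕ) (hd : DimP n) (G : Finset (Finset ℕ)) (u τ1 τ2 : Finset ℕ)
    (h1 h2 : Finset (Finset ℕ)) (SM : ℕ → ℕ → ℕ)
    (safe : Finset (Finset ℕ) → Finset ℕ → Prop) : Prop :=
  ∀ ρ ∈ Om n, ρ ∉ G → ∃ K gen sat, ρ ∈ K ∧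
    Hull3 (sysN n hd) G u τ1 τ2 h1 h2 (noLocS n G SM) safe K gen sat

/-- The closure conditions of a hull from the pair condition. -/
def PCL2_s : Prop := ∀ n (hd : DimP n) (G Sig : Finset (Finset ℕ)) (u τ1 τ2 : Finset ℕ)
  (h1 h2 : Finset (Finset ℕ)), Base (sysN n hd) G Sig u τ1 τ2 h1 h2 →
  ∀ (H : Set (Finset ℕ)) (ex : Finset (Finset ℕ) → Prop), (∀ t ∈ H, t ∉ G) → PCall G u H ex →
  (∀ q, (sysN n hd).Q q → u ∉ q → ¬ q ⊆ G → ∀ a ∈ q,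
        (∀ b ∈ q, b ≠ a → b ∈ G ∨ b ∈ H) → Gate (sysN n hd) G q ∨ ex q) ∧
  (∀ q, (sysN n hd).Q q → u ∈ q → ¬ q ⊆ G →
        (∀ b ∈ q, b ≠ u → b ∈ G ∨ b ∈ H) → q = h1 ∨ q = h2 ∨ ex q)

/-- The third-token argument. -/
def PCA_s : Prop := ∀ n (G : Finset (Finset ℕ)) (u : Finset ℕ) (gen : Finset (Finset ℕ) → Prop)
  (ea eb eC : ℕ → ℕ) (m : ℕ), (∀ i < m, Wf n G (ea i) (eb i) (eC i)) →
  SameOK G u gen ea eb eC m → CrossOK G u gen ea eb eC m → PCall G u (HE ea eb eC m) gen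

/-- A linked range of good items: roles of its tokens, closure, marks. -/
def HK_s : Prop := ∀ n (hd : DimP n) (G : Finset (Finset ℕ)) (u : Finset ℕ) (SM : ℕ → ℕ → ℕ)
  (I : IT), n ≤ 512 → G ⊆ Om n → (∀ p < I.N, I.Good n G u SM p) → ∀ s m, s + m ≤ I.N →
  I.Lnk s m →
  (∀ a b c d, a < b → b < n → c < n → d < n → ({a, c, d} : Finset ℕ) ∈ G →
    ({b, c, d} : Finset ℕ) ∈ G → ({a, b, c} : Finset ℕ) ∈ I.Kr s m →
    ∃ i < m, I.a (s + i) = a ∧ I.b (s + i) = b ∧ (I.C (s + i)).testBit c = true) ∧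
  GClosed (sysN n hd) G (u ∉ ·) (I.Kr s m) ∧ (∀ t ∈ I.Kr s m, t ∉ G) ∧
    (I.PM ≤ s → s + m ≤ I.PS → ∀ q, Gate (sysN n hd) G q → ∀ t ∈ q, t ∈ I.Kr s m →
      noLocS n G SM q) ∧
    ∀ (noLoc : Finset (Finset ℕ) → Prop) (safe : Finset (Finset ℕ) → Finset ℕ → Prop)
      (T : Set (Finset ℕ)),
      (∀ i < m, ISafe n G noLoc safe (I.a (s + i)) (I.b (s + i)) (I.C (s + i)) T) →
      ∀ q, Gate (sysN n hd) G q → ∀ t ∈ q, t ∈ I.Kr s m → noLoc q ∨ ∃ t0 ∈ T, safe q t0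

/-- Hulls without generating quads. -/
def HP_s : Prop := ∀ n (hd : DimP n) (G Sig : Finset (Finset ℕ)) (u τ1 τ2 : Finset ℕ)
  (h1 h2 : Finset (Finset ℕ)), Base (sysN n hd) G Sig u τ1 τ2 h1 h2 →
  ∀ (noLoc : Finset (Finset ℕ) → Prop) (safe : Finset (Finset ℕ) → Finset ℕ → Prop),
  (∀ K : Set (Finset ℕ), (∀ t ∈ K, t ∉ G) → GClosed (sysN n hd) G (u ∉ ·) K →
    PCall G u K (fun _ => False) →
    Hull3 (sysN n hd) G u τ1 τ2 h1 h2 noLoc safe K (fun _ => False) (fun _ => ∅)) ∧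
  (∀ a b C, GoodC n G u a b C 0 → Par G u a b C →
    Hull3 (sysN n hd) G u τ1 τ2 h1 h2 noLoc safe (Tk a b C) (fun _ => False) (fun _ => ∅)) ∧
  (∀ ρ, ρ ∉ G → (∀ q, Gate (sysN n hd) G q → u ∉ q → ρ ∉ q) →
    Hull3 (sysN n hd) G u τ1 τ2 h1 h2 noLoc safe {ρ} (fun _ => False) (fun _ => ∅))

/-- Hulls with exceptional quads. -/
def HG_s : Prop := ∀ n (hd : DimP n) (G Sig : Finset (Finset ℕ)) (u τ1 τ2 : Finset ℕ)
  (h1 h2 : Finset (Finset ℕ)), Base (sysN n hd) G Sig u τ1 τ2 h1 h2 → n ≤ 512 →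
  ∀ (SM : ℕ → ℕ → ℕ) (safe : Finset (Finset ℕ) → Finset ℕ → Prop) (I : IT),
  (∀ p < I.N, I.Good n G u SM p) → ∀ s m (D : GD), D.OK I n hd G u τ1 τ2 SM safe s m →
  ∃ sat, Hull3 (sysN n hd) G u τ1 τ2 h1 h2 (noLocS n G SM) safe (I.Kr s m) D.gen sat

/-- All hulls. -/
def HT_s : Prop := ∀ n (hd : DimP n) (G Sig : Finset (Finset ℕ)) (u τ1 τ2 : Finset ℕ)
  (h1 h2 : Finset (Finset ℕ)), Base (sysN n hd) G Sig u τ1 τ2 h1 h2 → n ≤ 512 →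
  ∀ (SM : ℕ → ℕ → ℕ) (safe : Finset (Finset ℕ) → Finset ℕ → Prop) (I : IT),
  (∀ p < I.N, I.Good n G u SM p) → (∀ a b, a < b → b < n → I.Cov n G u a b) →
  (∀ p < I.N, ∃ s m, s ≤ p ∧ p < s + m ∧
    (I.Plain G u s m ∨ ∃ D : GD, D.OK I n hd G u τ1 τ2 SM safe s m)) →
  HOK3 n hd G u τ1 τ2 h1 h2 SM safe

end Pool.Agent.MP_797bdc_co.Lk
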