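import Pool.Agent.MP_797bdc_co.Lk.HS

/-! Row HT: all hulls. -/

namespace Pool.Agent.MP_797bdc_co.Lk

open Finset

theorem htT (ha : PCA_s) (hk : HK_s) (hp : HP_s) (hG : HG_s) (hg : GNF_s) : HT_s := by
  intro n hd G Sig u τ1 τ2 h1 h2 B hn SM safe I good cov rng ρ _ hρ
  have P := hp n hd G Sig u τ1 τ2 h1 h2 B (noLocS n G SM) safe
  by_cases h : ∀ q, Gate (sysN n hd) G q → u ∉ q → ρ ∉ q
  · exact ⟨{ρ}, _, _, rfl, P.2.2 ρ hρ h⟩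
  push Not at h
  obtain ⟨q, hq, hu, hr⟩ := h
  obtain ⟨N1, N2, -, -⟩ := hg n hd G B.GΩ
  obtain ⟨a, -, b, hb, c, hc, d, hd', ab, cd, ac, ad, bc, bd, rfl, g1, g2, t1, t2⟩ := N1 q hq
  have M := N2 a b c d ab.ne ac ad bc bd cd.ne
  have m1 : Gm G u {a, c, d} := ⟨g1, fun e => hu ((M u).2 (Or.inr (Or.inr (Or.inl e.symm))))⟩
  have m2 : Gm G u {b, c, d} := ⟨g2, fun e => hu ((M u).2 (Or.inr (Or.inr (Or.inr e.symm))))⟩
  have key : ∀ c < n, ∀ d < n, Gm G u {a, c, d} → Gm G u {b, c, d} →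
      ({a, b, c} : Finset ℕ) ∉ G → ({a, b, d} : Finset ℕ) ∉ G → ∃ K gen sat, {a, b, c} ∈ K ∧
        Hull3 (sysN n hd) G u τ1 τ2 h1 h2 (noLocS n G SM) safe K gen sat := by
    intro c hc d hd' m1 m2 t1 t2
    rcases cov a b ab hb c hc d hd' m1 m2 t1 t2 with ⟨C, k1, k2, k3⟩ | ⟨p, hp', e1, e2, k3⟩
    · exact ⟨Tk a b C, _, _, ⟨c, k3, rfl⟩, P.2.1 a b C k1 k2⟩
    obtain ⟨s, m, s1, s2, hh⟩ := rng p hp'
    obtain ⟨i, rfl⟩ := Nat.exists_eq_add_of_le s1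
    have mem : ({a, b, c} : Finset ℕ) ∈ I.Kr s m :=
      ⟨i, by omega, c, k3, by simp only [e1, e2]⟩
    rcases hh with ⟨p1, p2, p3, p4, p5⟩ | ⟨D, hD⟩
    · obtain ⟨-, c1, c2, -⟩ := hk n hd G u SM I hn B.GΩ good s m p2 p3
      refine ⟨_, _, _, mem, P.1 _ c2 c1 (ha n G u _ _ _ _ m
        (fun j hj => (good (s + j) (by omega)).1.wf) ?_ p5)⟩
      intro j hj k hk' e e' x y hx hy xy
      obtain rfl := p4 j hj k hk' e e'
      exact Or.inr ((good (s + j) (by omega)).2.1 (by omega) x y hx hy xy)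
    · obtain ⟨sat, hs⟩ := hG n hd G Sig u τ1 τ2 h1 h2 B hn SM safe I good s m D hD
      exact ⟨_, _, sat, mem, hs⟩
  rcases (M ρ).1 hr with rfl | rfl | rfl | rfl
  · exact key c hc d hd' m1 m2 t1 t2
  · exact key d hd' c hc (pair_comm c d ▸ m1) (pair_comm c d ▸ m2) t2 t1
  · exact absurd g1 hρ
  · exact absurd g2 hρ

end Pool.Agent.MP_797bdc_co.Lk
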