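import Pool.Agent.MP_797bdc_co.Lk.Stm

/-! Lemma A of the lock argument. -/

namespace Pool.Agent.MP_797bdc_co.Lk

open Finset

namespace LA

variable {α : Type} [DecidableEq α]

theorem van {P : Finset α → Prop} {Y : Set α} {φ : α → ZMod 2} (hφ : Ev P φ)
    (hY : ∀ a ∈ Y, φ a = 0) {a : α} (ha : Cl P Y a) : φ a = 0 := by
  induction ha with
  | base h => exact hY _ h
  | @step q a hq haq _ ih =>
    have h := hφ q hq
    rw [← Finset.add_sum_erase q φ haq, Finset.sum_eq_zero, add_zero] at h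
    · exact h
    · intro b hb
      exact ih b (Finset.mem_of_mem_erase hb) (Finset.ne_of_mem_erase hb)

theorem one_of_ne {x : ZMod 2} (h : x ≠ 0) : x = 1 := by
  revert x; decide

theorem evF {S : Sys α} {G : Finset α} {φ : α → ZMod 2} (h : Ev S.Q φ) : Ev (FQ S G) φ :=
  fun q hq => h q hq.1

omit [DecidableEq α] in
theorem ev_sub {P : Finset α → Prop} {φ χ : α → ZMod 2} (h : Ev P φ) (h' : Ev P χ) :
    Ev P (fun a => φ a - χ a) := by
  intro q hq
  rw [Finset.sum_sub_distrib, h q hq, h' q hq, sub_zero]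

theorem agree {S : Sys α} {G R : Finset α} (hR : InS S G R) {φ χ : α → ZMod 2}
    (h : Ev (FQ S G) φ) (h' : Ev (FQ S G) χ) (e : ∀ a ∈ R, φ a = χ a) :
    ∀ a ∈ G, φ a = χ a := by
  intro a ha
  have := van (Y := (R : Set α)) (ev_sub h h')
    (fun b hb => sub_eq_zero.mpr (e b (Finset.mem_coe.mp hb))) (hR.2.2 a ha)
  exact sub_eq_zero.mp this

theorem vanG {S : Sys α} {G R : Finset α} (hR : InS S G R) {φ : α → ZMod 2}
    (h : Ev (FQ S G) φ) (e : ∀ a ∈ R, φ a = 0) : ∀ a ∈ G, φ a = 0 :=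
  fun a ha => van (Y := (R : Set α)) h (fun b hb => e b (Finset.mem_coe.mp hb)) (hR.2.2 a ha)

theorem vanP {S : Sys α} {R : Finset α} (hR : Perc S R) {φ : α → ZMod 2}
    (h : Ev S.Q φ) (e : ∀ a ∈ R, φ a = 0) : ∀ a ∈ S.Ω, φ a = 0 :=
  fun a ha => van (Y := (R : Set α)) h (fun b hb => e b (Finset.mem_coe.mp hb)) (hR a ha)

theorem zero_all {R : Finset α} {g : α} {φ : α → ZMod 2} (h : ∀ a ∈ R.erase g, φ a = 0)
    (hg : φ g = 0) : ∀ a ∈ R, φ a = 0 := by
  intro a ha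
  by_cases e : a = g
  · rw [e]; exact hg
  · exact h a (Finset.mem_erase.mpr ⟨e, ha⟩)

theorem first (S : Sys α) (G : Finset α) (hG : Perc S G) (R : Finset α) (hR : InS S G R)
    (g : α) (hg : g ∈ R) :
    ∃ φ, Ev S.Q φ ∧ (∀ a ∈ R.erase g, φ a = 0) ∧ φ g = 1 ∧
     (∀ ρ, Perc S (insert ρ (R.erase g)) → φ ρ = 1) ∧
     ∀ χ, Ev (FQ S G) χ → (∀ a ∈ R.erase g, χ a = 0) → (∃ a ∈ G, χ a ≠ 0) →
       ∀ a ∈ G, φ a = χ a := by
  have hc : (R.erase g).card < S.r := by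
    rw [← hR.2.1]; exact Finset.card_erase_lt_of_mem hg
  obtain ⟨φ, hφ, h0, a, haΩ, ha⟩ := S.dim _ hc
  have hg1 : φ g = 1 := by
    apply one_of_ne
    intro e
    exact ha (vanP hG hφ (vanG hR (evF hφ) (zero_all h0 e)) a haΩ)
  refine ⟨φ, hφ, h0, hg1, ?_, ?_⟩
  · intro ρ hρ
    apply one_of_ne
    intro e
    refine ha (vanP hρ hφ ?_ a haΩ)
    intro b hb
    rcases Finset.mem_insert.mp hb with h | h
    · rw [h]; exact e
    · exact h0 b h
  · rintro χ hχ hχ0 ⟨b, hbG, hb⟩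
    have hχg : χ g = 1 := by
      apply one_of_ne
      intro e
      exact hb (vanG hR hχ (zero_all hχ0 e) b hbG)
    apply agree hR (evF hφ) hχ
    intro c hc
    by_cases e : c = g
    · rw [e, hg1, hχg]
    · have hc' : c ∈ R.erase g := Finset.mem_erase.mpr ⟨e, hc⟩
      rw [h0 c hc', hχ0 c hc']

theorem second (S : Sys α) (G : Finset α) (hΩ : G ⊆ S.Ω) (hG : Perc S G) (R : Finset α)
    (hR : InS S G R) (R' : Finset α) (hR' : R' ⊆ G) (hP : Perc S R') (χ : α → ZMod 2)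
    (hχ : Ev (FQ S G) χ) (h0 : ∀ a ∈ R', χ a = 0) : ∀ a ∈ G, χ a = 0 := by
  have hex : ∀ g : α, ∃ φ : α → ZMod 2, Ev S.Q φ ∧
      (g ∈ R → (∀ a ∈ R.erase g, φ a = 0) ∧ φ g = 1) := by
    intro g
    by_cases hg : g ∈ R
    · obtain ⟨φ, h1, h2, h3, -⟩ := first S G hG R hR g hg
      exact ⟨φ, h1, fun _ => ⟨h2, h3⟩⟩
    · exact ⟨fun _ => 0, fun q _ => Finset.sum_const_zero, fun h => absurd h hg⟩
  choose Φ hΦ hΦ' using hex
  have hψ : Ev S.Q (fun a => ∑ g ∈ R, χ g * Φ g a) := by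
    intro q hq
    rw [Finset.sum_comm]
    apply Finset.sum_eq_zero
    intro g _
    rw [← Finset.mul_sum, hΦ g q hq, mul_zero]
  have hag : ∀ a ∈ G, (∑ g ∈ R, χ g * Φ g a) = χ a := by
    apply agree hR (evF hψ) hχ
    intro a ha
    rw [← Finset.add_sum_erase R _ ha, (hΦ' a ha).2, mul_one, Finset.sum_eq_zero, add_zero]
    intro g hg
    have hgR := Finset.mem_of_mem_erase hg
    have hne := Finset.ne_of_mem_erase hg
    rw [(hΦ' g hgR).1 a (Finset.mem_erase.mpr ⟨hne.symm, ha⟩), mul_zero]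
  intro a ha
  rw [← hag a ha]
  exact vanP hP hψ (fun b hb => by rw [hag b (hR' hb)]; exact h0 b hb) a (hΩ ha)

end LA

theorem la : LA_s := by
  intro α _ S G hΩ hG R hR
  exact ⟨fun g hg => LA.first S G hG R hR g hg,
    fun R' hR' hP χ hχ h0 => LA.second S G hΩ hG R hR R' hR' hP χ hχ h0⟩

end Pool.Agent.MP_797bdc_co.Lk
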