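import Pool.Agent.MP_797bdc_co.Lk.Stm

/-! Rows LOC and SK. -/

namespace Pool.Agent.MP_797bdc_co.Lk

open Finset

namespace LOC

lemma pc3 (s : Finset ℕ) (hs : s.card = 4) : powersetCard 3 s = s.image s.erase := by
  ext t
  rw [mem_powersetCard, mem_image]
  constructor
  · rintro ⟨h1, h2⟩
    obtain ⟨a, ha, rfl⟩ := exists_eq_insert_iff.2 ⟨h1, by omega⟩
    exact ⟨a, mem_insert_self _ _, erase_insert ha⟩
  · rintro ⟨a, ha, rfl⟩
    exact ⟨erase_subset _ _, by rw [card_erase_of_mem ha, hs]⟩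

/-- The cocycle condition on a quad. -/
lemma quad {n : ℕ} {ψ : Finset ℕ → ZMod 2} (hψ : Ev (Qn n) ψ) {v a b c : ℕ} (hv : v < n)
    (ha : a < n) (hb : b < n) (hc : c < n) (h1 : v ≠ a) (h2 : v ≠ b) (h3 : v ≠ c) (h4 : a ≠ b)
    (h5 : a ≠ c) (h6 : b ≠ c) :
    ψ {a, b, c} + (ψ {v, b, c} + (ψ {v, a, c} + ψ {v, a, b})) = 0 := by
  have hcard : ({v, a, b, c} : Finset ℕ).card = 4 := by
    rw [card_insert_of_notMem (by simp [*]), card_insert_of_notMem (by simp [*]), card_pair h6]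
  have h := hψ _ ⟨{v, a, b, c}, by
    intro t ht
    simp only [mem_insert, mem_singleton] at ht
    rw [mem_range]; omega, hcard, rfl⟩
  rw [pc3 _ hcard, sum_image (erase_injOn _), sum_insert (by simp [*]), sum_insert (by simp [*]),
    sum_pair h6] at h
  have e1 : ({v, a, b, c} : Finset ℕ).erase v = {a, b, c} := by
    ext t; simp only [mem_erase, mem_insert, mem_singleton]; omega
  have e2 : ({v, a, b, c} : Finset ℕ).erase a = {v, b, c} := by
    ext t; simp only [mem_erase, mem_insert, mem_singleton]; omega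
  have e3 : ({v, a, b, c} : Finset ℕ).erase b = {v, a, c} := by
    ext t; simp only [mem_erase, mem_insert, mem_singleton]; omega
  have e4 : ({v, a, b, c} : Finset ℕ).erase c = {v, a, b} := by
    ext t; simp only [mem_erase, mem_insert, mem_singleton]; omega
  rwa [e1, e2, e3, e4] at h

/-- The potential on pairs. -/
def om (v : ℕ) (ψ : Finset ℕ → ZMod 2) (a b : ℕ) : ZMod 2 :=
  if a = v ∨ b = v then 0 else ψ {v, a, b}

lemma om_symm (v : ℕ) (ψ : Finset ℕ → ZMod 2) (a b : ℕ) : om v ψ a b = om v ψ b a := by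
  simp only [om, or_comm, pair_comm a b]

lemma z1 : ∀ a b c d : ZMod 2, a + (b + (c + d)) = 0 → a = d + c + b := by decide
lemma z2 : ∀ a b c : ZMod 2, a = b + c → c + a + b = 0 := by decide
lemma z3 : ∀ a b c x y w : ZMod 2, 0 = a + b + c → b + x + w = 0 → c + y + w = 0 →
    a + x + y = 0 := by decide
lemma z4 : ∀ a b c x y w : ZMod 2, a + x + y = 0 → b + x + w = 0 → c + y + w = 0 →
    a + b + c = 0 := by decide

lemma tri {n : ℕ} {ψ : Finset ℕ → ZMod 2} (hψ : Ev (Qn n) ψ) {v a b c : ℕ} (hv : v < n)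
    (ha : a < n) (hb : b < n) (hc : c < n) (h4 : a ≠ b) (h5 : a ≠ c) (h6 : b ≠ c) :
    ψ {a, b, c} = om v ψ a b + om v ψ a c + om v ψ b c := by
  by_cases h1 : a = v
  · subst h1
    simp [om, h4.symm, h5.symm]
  by_cases h2 : b = v
  · subst h2
    simp [om, h4, h6.symm, insert_comm a b]
  by_cases h3 : c = v
  · subst h3
    have e : ({a, b, c} : Finset ℕ) = {c, a, b} := by
      ext t; simp only [mem_insert, mem_singleton]; omega
    simp [om, h5, h6, e]
  simp only [om, h1, h2, h3, or_self, if_false]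
  exact z1 _ _ _ _ (quad hψ hv ha hb hc (Ne.symm h1) (Ne.symm h2) (Ne.symm h3) h4 h5 h6)

end LOC

theorem loc : LOC_s := by
  rintro n root par G I ⟨trk, ht⟩ x hx y hy z hz hxy hxz hyz d1 d2 d3 ψ hψ h0
  obtain ⟨h, hh⟩ : ∃ h : ℕ → ZMod 2, ∀ a < n, a ≠ root →
      h a = h (par a) + LOC.om x ψ a (par a) := by
    refine ⟨(InvImage.wf trk Nat.lt_wfRel.wf).fix fun a ih =>
      if ha : a < n ∧ a ≠ root then ih (par a) (ht a ha.1 ha.2).2 + LOC.om x ψ a (par a) else 0,
      fun a ha hr => ?_⟩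
    rw [WellFounded.fix_eq, dif_pos ⟨ha, hr⟩]
  have key : ∀ a b, Dv n root par G I a b → LOC.om x ψ a b + h a + h b = 0 := by
    intro a b d
    induction d with
    | tree ha hr => exact LOC.z2 _ _ _ (hh _ ha hr)
    | symm _ ih => rw [LOC.om_symm, add_right_comm]; exact ih
    | face ha hb hw h1 h2 h3 hG hI _ _ i1 i2 =>
      exact LOC.z3 _ _ _ _ _ _ ((h0 _ hG hI).symm.trans (LOC.tri hψ hx ha hb hw h1 h2 h3)) i1 i2
  rw [LOC.tri hψ hx hx hy hz hxy hxz hyz]
  exact LOC.z4 _ _ _ _ _ _ (key _ _ d1) (key _ _ d2) (key _ _ d3)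

theorem sk : SK_s := by
  intro n root par G I Sk srk hs hr
  have key : ∀ m x y, srk x y = m → Sk x y → x ≠ y → Dv n root par G I x y := by
    intro m
    induction m using Nat.strong_induction_on with
    | _ m ih =>
      have lt : ∀ x y, srk x y = m → Sk x y → x < y → Dv n root par G I x y := by
        intro x y hm h hxy
        rcases hr x y h hxy with ⟨h1, h2, rfl⟩ | ⟨h1, h2, rfl⟩ |
          ⟨w, h1, h2, h3, h4, h5, h6, h7, h8, h9, h10, h11⟩
        · exact .tree h1 h2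
        · exact .symm (.tree h1 h2)
        · exact .face h1 h2 h3 hxy.ne h4 h5 h6 h7 (ih _ (hm ▸ h10) _ _ rfl h8 h4)
            (ih _ (hm ▸ h11) _ _ rfl h9 h5)
      intro x y hm h hxy
      rcases lt_or_gt_of_ne hxy with h1 | h1
      · exact lt x y hm h h1
      · exact .symm (lt y x ((hs x y h).2.symm.trans hm) (hs x y h).1 h1)
  exact fun x y => key _ x y rfl

end Pool.Agent.MP_797bdc_co.Lk
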