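import Pool.Agent.MP_797bdc_co.Lk.Stm

namespace Pool.Agent.MP_797bdc_co.Lk

open Finset

namespace LOCK

variable {α : Type} [DecidableEq α] {S : Sys α} {G : Finset α} {X : Set α}

omit [DecidableEq α] in
lemma cl_le {P : Finset α → Prop} {Y Z : Set α} (h : ∀ a ∈ Y, a ∈ Z)
    (hZ : ∀ q, P q → ∀ a ∈ q, (∀ b ∈ q, b ≠ a → b ∈ Z) → a ∈ Z) {a : α} (ha : Cl P Y a) :
    a ∈ Z := by
  induction ha with
  | base h1 => exact h _ h1
  | step h1 h2 _ ih => exact hZ _ h1 _ h2 ih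

lemma gate_tok {q : Finset α} (h : Gate S G q) :
    ∃ t t', t ≠ t' ∧ ∀ s, (s ∈ q ∧ s ∉ G) ↔ (s = t ∨ s = t') := by
  have h1 := card_sdiff_add_card_inter q G
  rw [h.2, S.Qcard q h.1] at h1
  obtain ⟨t, t', hne, h2⟩ := card_eq_two.1 (show (q \ G).card = 2 by omega)
  exact ⟨t, t', hne, fun s => by rw [← mem_sdiff, h2]; simp⟩

lemma gate_two {q : Finset α} (h : Gate S G q) {t t' : α} (ht : t ∈ q) (ht' : t' ∈ q) (h1 : t ∉ G)
    (h2 : t' ∉ G) (hne : t ≠ t') (s : α) : (s ∈ q ∧ s ∉ G) ↔ (s = t ∨ s = t') := by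
  obtain ⟨a, b, -, H⟩ := gate_tok h
  have e1 := (H t).1 ⟨ht, h1⟩
  have e2 := (H t').1 ⟨ht', h2⟩
  rw [H]; grind

variable (S G X) in
/-- Gates whose faces lie in `X`. -/
def XG (q : Finset α) : Prop := Gate S G q ∧ ∀ f ∈ q, f ∈ G → f ∈ X

variable (S G X) in
/-- Tokens reached from `r`. -/
inductive Reach (r : α) : α → Prop
  | root : Reach r r
  | step {q : Finset α} {t t' : α} : Reach r t → XG S G X q → t ∈ q → t' ∈ q → t ∉ G → t' ∉ G →
      Reach r t'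

lemma sum_sd {β : Type} [DecidableEq β] (A B : Finset β) (f : β → ZMod 2) :
    ∑ x ∈ symmDiff A B, f x = ∑ x ∈ A, f x + ∑ x ∈ B, f x := by
  rw [symmDiff_def, sup_eq_union, sum_union disjoint_sdiff_sdiff, ← sum_inter_add_sum_sdiff A B,
    ← sum_inter_add_sum_sdiff B A, inter_comm B A]
  have := CharTwo.add_self_eq_zero (∑ x ∈ A ∩ B, f x)
  linear_combination -this

/-- The parity of the number of members of `D` through `s`. -/
def par (D : Finset (Finset α)) (s : α) : ZMod 2 := ∑ q ∈ D, if s ∈ q then 1 else 0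

lemma par_gate {q : Finset α} (h : Gate S G q) {t t' : α} (ht : t ∈ q) (ht' : t' ∈ q) (h1 : t ∉ G)
    (h2 : t' ∉ G) (hne : t ≠ t') {s : α} (hs : s ∉ G) :
    par {q} s = (if s = t then 1 else 0) + if s = t' then 1 else 0 := by
  have := gate_two h ht ht' h1 h2 hne s
  rw [par, sum_singleton]
  by_cases e1 : s = t <;> by_cases e2 : s = t' <;> simp_all

lemma path {r t : α} (h : Reach S G X r t) : ∃ D : Finset (Finset α),
    (∀ q ∈ D, XG S G X q ∧ ∀ s ∈ q, s ∉ G → Reach S G X r s) ∧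
      ∀ s ∉ G, par D s = (if s = t then 1 else 0) + if s = r then 1 else 0 := by
  induction h with
  | root => exact ⟨∅, by simp, fun s _ => by rw [CharTwo.add_self_eq_zero]; rfl⟩
  | @step q t t' h1 h2 h3 h4 h5 h6 ih =>
    by_cases hne : t = t'
    · exact hne ▸ ih
    obtain ⟨D, hD, hp⟩ := ih
    refine ⟨symmDiff D {q}, fun q' hq' => ?_, fun s hs => ?_⟩
    · rcases mem_symmDiff.1 hq' with h | h
      · exact hD _ h.1
      · rw [mem_singleton.1 h.1]
        exact ⟨h2, fun s hs hs' => h1.step h2 h3 hs h5 hs'⟩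
    · have e := par_gate h2.1 h3 h4 h5 h6 hne hs
      have e' := CharTwo.add_self_eq_zero (if s = t then 1 else 0 : ZMod 2)
      rw [par, sum_sd, ← par, ← par, hp s hs, e]
      linear_combination e'

lemma reach_sub {P : Finset α → Prop} {K : Set α} (hK : GClosed S G P K)
    (hP : ∀ q, XG S G X q → P q) {r t : α} (hr : r ∈ K) (h : Reach S G X r t) : t ∈ K := by
  induction h with
  | root => exact hr
  | step _ h2 h3 h4 h5 h6 ih => exact hK _ h2.1 (hP _ h2) _ h3 _ h4 h5 h6 ih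

lemma reach_phi {φ : α → ZMod 2} (hφ : Ev S.Q φ) (h0 : ∀ a ∈ X, φ a = 0) {r t : α}
    (h : Reach S G X r t) : φ t = φ r := by
  induction h with
  | root => rfl
  | @step q t t' _ h2 h3 h4 h5 h6 ih =>
    by_cases hne : t = t'
    · exact hne ▸ ih
    have e := hφ q h2.1.1
    rw [← sum_subset (s₁ := {t, t'}) (by simp [insert_subset_iff, h3, h4]) fun x hx hx' => by
      refine h0 x (h2.2 x hx (by_contra fun h => hx' ?_))
      simpa using (gate_two h2.1 h3 h4 h5 h6 hne x).1 ⟨hx, h⟩, sum_pair hne] at e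
    have e' := CharTwo.add_self_eq_zero (φ t)
    linear_combination e + ih - e'

lemma reach_back {Y : Set α} (hX : ∀ a ∈ X, Cl S.Q Y a) {r t : α} (h : Reach S G X r t)
    (ht : Cl S.Q Y t) : Cl S.Q Y r := by
  induction h with
  | root => exact ht
  | @step q t t' _ h2 h3 h4 h5 h6 ih =>
    by_cases hne : t = t'
    · exact ih (hne ▸ ht)
    refine ih (.step h2.1.1 h3 fun b hb hb' => ?_)
    by_cases hG : b ∈ G
    · exact hX _ (h2.2 b hb hG)
    · rcases (gate_two h2.1 h3 h4 h5 h6 hne b).1 ⟨hb, hG⟩ with e | e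
      · exact (hb' e).elim
      · exact e ▸ ht

/-- A gate that closes a cycle of reached tokens. -/
lemma close {noLoc : Finset α → Prop} (bp : BPon S G noLoc fun _ => True) (hX : FClosed S G X)
    {q : Finset α} (hq : Gate S G q) {a r : α} (ha : a ∈ q) (haG : a ∈ G) (haX : a ∉ X)
    (h1 : ∀ f ∈ q, f ∈ G → f ≠ a → f ∈ X) (h2 : ∀ s ∈ q, s ∉ G → Reach S G X r s) :
    ¬ noLoc q ∧ ∃ χ, Ev (FQ S G) χ ∧ (∀ a ∈ X, a ∈ G → χ a = 0) ∧ (∃ a ∈ G, χ a ≠ 0) ∧
      ∀ φ, Ev S.Q φ → (∀ a ∈ G, φ a = χ a) → ∃ t, Reach S G X r t ∧ φ t = 0 := by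
  obtain ⟨t, t', hne, H⟩ := gate_tok hq
  have e1 := (H t).2 (.inl rfl)
  have e2 := (H t').2 (.inr rfl)
  obtain ⟨D, hD, hp⟩ := path (h2 t e1.1 e1.2)
  obtain ⟨D', hD', hp'⟩ := path (h2 t' e2.1 e2.2)
  have key : ∀ p ∈ symmDiff (symmDiff D D') {q},
      p = q ∨ XG S G X p ∧ ∀ s ∈ p, s ∉ G → Reach S G X r s := fun p hp => by
    rcases mem_symmDiff.1 hp with h | h
    · rcases mem_symmDiff.1 h.1 with h | h
      exacts [.inr (hD _ h.1), .inr (hD' _ h.1)]
    · exact .inl (mem_singleton.1 h.1)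
  obtain ⟨n1, χ, c1, c2, c3, c4⟩ := bp X hX (symmDiff (symmDiff D D') {q})
    (fun p hp => ⟨(key p hp).elim (fun e => e ▸ hq) fun h => h.1.1, trivial⟩)
    (fun s hs => by
      rw [← ZMod.natCast_eq_zero_iff_even, card_filter]
      push_cast
      have e := par_gate hq e1.1 e2.1 e1.2 e2.2 hne hs
      have e3 := CharTwo.add_self_eq_zero (if s = t then 1 else 0 : ZMod 2)
      have e4 := CharTwo.add_self_eq_zero (if s = t' then 1 else 0 : ZMod 2)
      have e5 := CharTwo.add_self_eq_zero (if s = r then 1 else 0 : ZMod 2)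
      rw [sum_sd, sum_sd, ← par, ← par, ← par, hp s hs, hp' s hs, e]
      linear_combination e3 + e4 + e5)
    q (mem_symmDiff.2 (.inr ⟨mem_singleton_self q, fun h => by
      rcases mem_symmDiff.1 h with h | h
      exacts [haX ((hD _ h.1).1.2 a ha haG), haX ((hD' _ h.1).1.2 a ha haG)]⟩)) a ha haG haX
    (fun p hp f hf hfG hfX => by
      rcases key p hp with rfl | h
      · exact ⟨rfl, by_contra fun h => hfX (h1 f hf hfG h)⟩
      · exact (hfX (h.1.2 f hf hfG)).elim)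
  refine ⟨n1, χ, c1, c2, c3, fun φ hφ h => ?_⟩
  obtain ⟨p, hp, s, hs, hsG, h0⟩ := c4 φ hφ h
  exact ⟨s, (key p hp).elim (fun e => h2 s (e ▸ hs) hsG) fun h => h.2 s hs hsG, h0⟩

end LOCK

open LOCK in
theorem lock (ha : LA_s) (hu : LU_s) (hc : CB_s) : LOCK_s := by
  intro α _ S G Sig u τ1 τ2 h1 h2 noLoc H R hR g hg ρ hρ hρR hP
  have B := H.base
  have hin : ∀ a ∈ G, a ∉ R → Perc S (insert a (R.erase g)) → InS S G (insert a (R.erase g)) :=
    fun a haG haR hp => by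
      have hs : insert a (R.erase g) ⊆ G := insert_subset haG ((erase_subset _ _).trans hR.1)
      refine ⟨hs, ?_, hc α S G Sig u τ1 τ2 h1 h2 noLoc H R hR _ hs hp⟩
      rw [card_insert_of_notMem fun h => haR (mem_of_mem_erase h), card_erase_add_one hg, hR.2.1]
  by_cases hρG : ρ ∈ G
  · exact hin ρ hρG hρR hP
  exfalso
  obtain ⟨huR, huX⟩ := hu α S G Sig u τ1 τ2 h1 h2 B R hR
  obtain ⟨φ, hφ, φ0, -, φ1, φ2⟩ := (ha α S G B.GΩ B.perc R hR).1 g hg
  obtain ⟨K, gen, sat, hρK, C⟩ := H.cold ρ hρ hρG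
  set X : Set α := {a | Cl (FQ S G) (R.erase g : Finset α) a} with hXdef
  have huX : u ∉ X := huX g hg
  have hYX : ∀ a ∈ R.erase g, a ∈ X := fun a h => Cl.base h
  have hXG : ∀ a ∈ X, a ∈ G := fun a h => cl_le (Z := (G : Set α))
    (fun a h => hR.1 (mem_of_mem_erase h)) (fun q hq a ha _ => hq.2 ha) h
  have hXF : FClosed S G X := fun q hq a ha h => Cl.step hq ha h
  have hXφ : ∀ a ∈ X, φ a = 0 := fun a h => cl_le (Z := {a | φ a = 0}) φ0 (fun q hq a ha h => by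
    have e := hφ q hq.1
    rwa [sum_eq_single_of_mem a ha h] at e) h
  have hXu : ∀ q, XG S G X q → u ∉ q := fun q hq h => huX (hq.2 u h B.uG)
  have : Nonempty α := ⟨u⟩
  choose! rt rq rs ro using C.ge
  have hA0 : ∀ t, Reach S G X ρ t → t ∈ K := fun t => reach_sub C.Kc hXu hρK
  have hA : ∀ p t, gen p → Reach S G X (rt p) t → t ∈ sat p := fun p t hp =>
    reach_sub (C.sc p hp) hXu (rs p hp)
  set Z : Set α := {t | t ∈ X ∨ Reach S G X ρ t ∨ ∃ p, gen p ∧
    (∀ b ∈ p, b ≠ rt p → b ∈ X ∨ Reach S G X ρ b) ∧ Reach S G X (rt p) t} with hZ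
  have z1 : ∀ b ∈ Z, b ∈ G → b ∈ X := by
    rintro b (h | h | ⟨p, hp, -, h⟩) hb
    exacts [h, (C.Kt b (hA0 b h) hb).elim, ((C.st p hp b (hA p b hp h)).1 hb).elim]
  have z2 : ∀ b ∈ Z, b ∈ G ∨ b ∈ K ∨ ∃ p, gen p ∧ b ∈ sat p := by
    rintro b (h | h | ⟨p, hp, -, h⟩)
    exacts [.inl (hXG b h), .inr (.inl (hA0 b h)), .inr (.inr ⟨p, hp, hA p b hp h⟩)]
  have z3 : ∀ b ∈ Z, b ∈ K → Reach S G X ρ b := by
    rintro b (h | h | ⟨p, hp, -, h⟩) hb
    exacts [(C.Kt b hb (hXG b h)).elim, h, ((C.st p hp b (hA p b hp h)).2.1 hb).elim]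
  have z4 : ∀ b ∈ Z, ∀ p, gen p → b ∈ sat p →
      (∀ b ∈ p, b ≠ rt p → b ∈ X ∨ Reach S G X ρ b) ∧ Reach S G X (rt p) b := by
    rintro b (h | h | ⟨p', hp', h0, h⟩) p hp hb
    · exact ((C.st p hp b hb).1 (hXG b h)).elim
    · exact ((C.st p hp b hb).2.1 (hA0 b h)).elim
    · obtain rfl := C.sd p p' hp hp' b hb (hA p' b hp' h)
      exact ⟨h0, h⟩
  have huZ : u ∉ Z := fun h => huX (z1 u h B.uG)
  have hot : ∀ (h : Finset α) (τ : α), (τ = τ1 ∨ τ = τ2) →
      (S.Q h ∧ u ∈ h ∧ τ ∈ h ∧ τ ∉ G ∧ ∀ b ∈ h, b ≠ τ → b ∈ G) →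
      ¬ ∀ b ∈ h, b ≠ u → b ∈ Z := by
    rintro h τ hτ ⟨q1, -, q3, q4, q5⟩ hb
    have hXc : ∀ a ∈ X, Cl S.Q (insert u (R.erase g) : Finset α) a := fun a h =>
      cl_le (Z := {a | Cl S.Q (insert u (R.erase g) : Finset α) a})
        (fun a h => Cl.base (mem_coe.2 (mem_insert_of_mem h)))
        (fun q hq a ha h => Cl.step hq.1 ha h) h
    have hτ0 : Reach S G X ρ τ := by
      rcases hb τ q3 (fun e => q4 (e ▸ B.uG)) with h | h | ⟨p, hp, -, h⟩
      · exact (q4 (hXG _ h)).elim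
      · exact h
      · have := (C.st p hp τ (hA p τ hp h)).2.2
        tauto
    have hρc := reach_back hXc hτ0 (.step q1 q3 fun b hb' hne => by
      by_cases e : b = u
      · exact .base (by simp [e])
      · exact hXc b (z1 b (hb b hb' e) (q5 b hb' hne)))
    have hp : Perc S (insert u (R.erase g)) := fun a ha =>
      cl_le (Z := {a | Cl S.Q (insert u (R.erase g) : Finset α) a}) (fun a h => by
        rcases mem_insert.1 (mem_coe.1 h) with rfl | h
        exacts [hρc, hXc a (hYX a h)]) (fun q hq a ha h => Cl.step hq ha h) (hP a ha)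
    exact (hu α S G Sig u τ1 τ2 h1 h2 B _ (hin u B.uG huR hp)).1 (mem_insert_self _ _)
  refine huZ (cl_le (fun a h => ?_) (fun q hq a ha hb => ?_) (hP u (B.GΩ B.uG)))
  · rcases mem_insert.1 (mem_coe.1 h) with rfl | h
    exacts [.inr (.inl .root), .inl (hYX a h)]
  by_contra haZ
  by_cases hqG : q ⊆ G
  · exact haZ (.inl (hXF q ⟨hq, hqG⟩ a ha fun b h e => z1 b (hb b h e) (hqG h)))
  by_cases huq : u ∈ q
  · obtain rfl : u = a := by_contra fun e => huZ (hb u huq e)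
    rcases C.cu q hq huq hqG fun b h e => z2 b (hb b h e) with rfl | rfl
    exacts [hot _ _ (.inl rfl) B.hq1 hb, hot _ _ (.inr rfl) B.hq2 hb]
  rcases C.cl q hq huq hqG a ha fun b h e => z2 b (hb b h e) with hq' | hq'
  · obtain ⟨t, t', hne, T⟩ := gate_tok hq'
    by_cases haG : a ∈ G
    · have hf : ∀ f ∈ q, f ∈ G → f ≠ a → f ∈ X := fun f h hG e => z1 f (hb f h e) hG
      have htz : ∀ s ∈ q, s ∉ G → s ∈ Z := fun s h hs => hb s h fun e => hs (e ▸ haG)
      have e1 := (T t).2 (.inl rfl)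
      rcases z2 t (htz t e1.1 e1.2) with h | h | ⟨p, hp, h⟩
      · exact e1.2 h
      · obtain ⟨-, χ, c1, c2, c3, c4⟩ := close H.bp hXF hq' ha haG (fun h => haZ (.inl h)) hf
          fun s hs hs' => z3 s (htz s hs hs') (C.Kc q hq' huq t e1.1 s hs e1.2 hs' h)
        obtain ⟨s, s1, s2⟩ := c4 φ hφ (φ2 χ c1 (fun a h => c2 a (hYX a h) (hXG a (hYX a h))) c3)
        rw [reach_phi hφ hXφ s1, φ1 ρ hP] at s2
        exact one_ne_zero s2
      · exact (close H.bp hXF hq' ha haG (fun h => haZ (.inl h)) hf fun s hs hs' =>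
          (z4 s (htz s hs hs') p hp (C.sc p hp q hq' huq t e1.1 s hs e1.2 hs' h)).2).1
          (C.sn p hp q hq' t e1.1 h)
    · have hx : XG S G X q := ⟨hq', fun f h hG => z1 f (hb f h fun e => haG (e ▸ hG)) hG⟩
      obtain ⟨s, s1, s2, s3⟩ : ∃ s ∈ q, s ∉ G ∧ s ≠ a := by
        by_cases e : t = a
        · exact ⟨t', ((T t').2 (.inr rfl)).1, ((T t').2 (.inr rfl)).2, fun e' => hne (e.trans e'.symm)⟩
        · exact ⟨t, ((T t).2 (.inl rfl)).1, ((T t).2 (.inl rfl)).2, e⟩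
      rcases hb s s1 s3 with h | h | ⟨p, hp, h0, h⟩
      · exact s2 (hXG s h)
      · exact haZ (.inr (.inl (h.step hx s1 ha s2 haG)))
      · exact haZ (.inr (.inr ⟨p, hp, h0, h.step hx s1 ha s2 haG⟩))
  · by_cases e : a = rt q
    · refine haZ (.inr (.inr ⟨q, hq', fun b h hne => ?_, e ▸ .root⟩))
      have hz := hb b h (e ▸ hne)
      exact (ro q hq' b h hne).imp (z1 b hz) (z3 b hz)
    · rcases (z4 _ (hb _ (rq q hq') (Ne.symm e)) q hq' (rs q hq')).1 a ha e with h | h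
      exacts [haZ (.inl h), haZ (.inr (.inl h))]

end Pool.Agent.MP_797bdc_co.Lk
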