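import Pool.Agent.MP_797bdc_co.Lk.Stm4
import Pool.Agent.MP_797bdc_co.Lk.CB
import Pool.Agent.MP_797bdc_co.Lk.LOCK

/-! The lock theorem with safe tokens, gates through `u` and dead quads. -/

namespace Pool.Agent.MP_797bdc_co.Lk

open Finset

namespace LOCK3

variable {α : Type} [DecidableEq α] {S : Sys α} {G : Finset α} {noLoc : Finset α → Prop}
  {safe : Finset α → α → Prop}

lemma bp_of {B : Finset α → Prop} (h : BPon2 S G noLoc safe B) : BPon S G noLoc B :=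
  fun X hX D hD hE q0 h0 m hm hmG hmX hs => by
    obtain ⟨n1, χ, c1, c2, c3, c4⟩ := h X hX D hD hE q0 h0 m hm hmG hmX hs
    exact ⟨n1, χ, c1, c2, c3, fun φ hφ e => (c4 φ hφ e).1⟩

open CB in
/-- Case B under the hypotheses `LockH3`. -/
lemma cb2 (hb : BUB_s) (ha : LA_s) {Sig : Finset α} {u τ1 τ2 : α} {h1 h2 : Finset α}
    (H : LockH3 S G Sig u τ1 τ2 h1 h2 noLoc safe) {R : Finset α} (hR : InS S G R) {R' : Finset α}
    (hR' : R' ⊆ G) (hp : Perc S R') : ∀ a ∈ G, Cl (FQ S G) (R' : Set α) a := by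
  intro a haG
  have B := H.base
  by_contra haX
  have hXc := cl_closed (S := S) (G := G) (R' : Set α)
  generalize hXe : {a | Cl (FQ S G) (R' : Set α) a} = X at hXc
  have hX : ∀ b, b ∈ X ↔ Cl (FQ S G) (R' : Set α) b := fun b => by rw [← hXe]; rfl
  have hXG : ∀ b ∈ X, b ∈ G := fun b h => cl_sub hR' ((hX b).1 h)
  have no : ∀ χ, Ev (FQ S G) χ → (∀ a ∈ X, a ∈ G → χ a = 0) → ¬ ∃ a ∈ G, χ a ≠ 0 :=
    fun χ h h' ⟨b, hbG, hb0⟩ => hb0 ((ha α S G B.GΩ B.perc R hR).2 R' hR' hp χ h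
      (fun a h => h' a ((hX a).2 (.base h)) (hR' h)) b hbG)
  have hu : u ∈ X := (hX u).2 (by_contra fun hu => haX (u_mem B hR' hu (hp a (B.GΩ haG))))
  obtain ⟨m, hmS, hmG, hmX⟩ : ∃ m ∈ Sig, m ∈ G ∧ m ∉ X := by
    by_contra hc
    obtain ⟨χ, g1, g2, g3⟩ := bubble hb B hXc hu
      (fun m h h' => by_contra fun h'' => hc ⟨m, h, h', h''⟩) haG fun h => haX ((hX a).1 h)
    exact no χ g1 (fun a h _ => g2 a h) g3
  obtain ⟨Ht, hot⟩ := H.hot m hmS
  obtain ⟨K1, K2, k1, k2, c1, c2, dis⟩ := H.sep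
  have t1 : ∀ t, A S G X h1 τ1 t → t ∉ G ∧ t ∈ K1 ∧ t ∈ Ht := fun t h =>
    ⟨h.2.tok B.hq1.2.2.2.1, h.2.sub c1 (fun _ _ _ => trivial) k1,
      h.2.sub hot.cl (fun q _ hq hm => hmX (hq m hm hmG)) hot.t1⟩
  have t2 : ∀ t, A S G X h2 τ2 t → t ∉ G ∧ t ∈ K2 ∧ t ∈ Ht := fun t h =>
    ⟨h.2.tok B.hq2.2.2.2.1, h.2.sub c2 (fun _ _ _ => trivial) k2,
      h.2.sub hot.cl (fun q _ hq hm => hmX (hq m hm hmG)) hot.t2⟩
  have zG : ∀ b ∈ G, b ∈ X ∨ A S G X h1 τ1 b ∨ A S G X h2 τ2 b → b ∈ X := fun b hbG h =>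
    h.elim id fun h => absurd hbG (h.elim (fun h => (t1 b h).1) fun h => (t2 b h).1)
  have key : ∀ b, Cl S.Q (R' : Set α) b → b ∈ X ∨ A S G X h1 τ1 b ∨ A S G X h2 τ2 b := by
    intro b h
    induction h with
    | base h => exact .inl ((hX _).2 (.base h))
    | @step q b hq hbq _ ih =>
      rcases lt_trichotomy (q ∩ G).card 2 with hc | hc | hc
      · refine absurd (fun f hf hne => ?_) (hot.c3 q hq (by omega) b hbq)
        rcases ih f hf hne with h | h | h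
        · exact .inl ⟨hXG f h, fun e => hmX (e ▸ h)⟩
        · exact .inr ⟨(t1 f h).1, (t1 f h).2.2⟩
        · exact .inr ⟨(t2 f h).1, (t2 f h).2.2⟩
      · have hg : Gate S G q := ⟨hq, hc⟩
        by_cases hbG : b ∈ G
        · refine .inl (by_contra fun hbX => ?_)
          have tk : ∀ s ∈ q, s ∉ G → A S G X h1 τ1 s ∨ A S G X h2 τ2 s := fun s hs hsG =>
            (ih s hs fun e => hsG (e ▸ hbG)).resolve_left fun h => hsG (hXG s h)
          have ho : ∀ f ∈ q, f ∈ G → f ≠ b → f ∈ X := fun f hf hfG hne => zG f hfG (ih f hf hne)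
          obtain ⟨t, ht, htG, -⟩ := gate_other hg b
          rcases tk t ht htG with h | h
          · obtain ⟨-, χ, g1, g2, g3, -⟩ := Reach.bp (r := τ1) (bp_of H.bp) hXc hg hbq hbG hbX ho
              fun s hs hsG => ((tk s hs hsG).resolve_right fun h' =>
                dis s (c1 q hg trivial t ht s hs htG hsG (t1 t h).2.1) (t2 s h').2.1).2
            exact no χ g1 g2 g3
          · obtain ⟨-, χ, g1, g2, g3, -⟩ := Reach.bp (r := τ2) (bp_of H.bp) hXc hg hbq hbG hbX ho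
              fun s hs hsG => ((tk s hs hsG).resolve_left fun h' =>
                dis s (t1 s h').2.1 (c2 q hg trivial t ht s hs htG hsG (t2 t h).2.1)).2
            exact no χ g1 g2 g3
        · have hI : In G X q := fun f hf hfG => zG f hfG (ih f hf fun e => hbG (e ▸ hfG))
          obtain ⟨t, ht, htG, hne⟩ := gate_other hg b
          rcases ih t ht hne with h | h | h
          · exact absurd (hXG t h) htG
          · exact .inr (.inl ⟨h.1, .step hg hI ht hbq htG hbG h.2⟩)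
          · exact .inr (.inr ⟨h.1, .step hg hI ht hbq htG hbG h.2⟩)
      · rcases B.c2 q hq hc with h | rfl | rfl
        · exact .inl (hXc q ⟨hq, h⟩ b hbq fun f hf hne => zG f (h hf) (ih f hf hne))
        · by_cases e : b = τ1
          · subst e
            exact .inr (.inl ⟨fun f hf hne => zG f (B.hq1.2.2.2.2 f hf hne) (ih f hf hne), .root⟩)
          · rcases ih τ1 B.hq1.2.2.1 (Ne.symm e) with h | h | h
            · exact absurd (hXG _ h) B.hq1.2.2.2.1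
            · exact .inl (h.1 b hbq e)
            · exact absurd (t2 _ h).2.1 (dis _ k1)
        · by_cases e : b = τ2
          · subst e
            exact .inr (.inr ⟨fun f hf hne => zG f (B.hq2.2.2.2.2 f hf hne) (ih f hf hne), .root⟩)
          · rcases ih τ2 B.hq2.2.2.1 (Ne.symm e) with h | h | h
            · exact absurd (hXG _ h) B.hq2.2.2.2.1
            · exact absurd k2 (dis _ (t1 _ h).2.1)
            · exact .inl (h.1 b hbq e)
  exact haX ((hX a).1 (zG a haG (key a (hp a (B.GΩ haG)))))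

open LOCK in
/-- A gate that closes a cycle of reached tokens. -/
lemma close2 (bp : BPon2 S G noLoc safe fun _ => True) {X : Set α} (hX : FClosed S G X)
    {q : Finset α} (hq : Gate S G q) {a r : α} (ha : a ∈ q) (haG : a ∈ G) (haX : a ∉ X)
    (h1 : ∀ f ∈ q, f ∈ G → f ≠ a → f ∈ X) (h2 : ∀ s ∈ q, s ∉ G → Reach S G X r s) :
    ¬ noLoc q ∧ ∃ χ, Ev (FQ S G) χ ∧ (∀ a ∈ X, a ∈ G → χ a = 0) ∧ (∃ a ∈ G, χ a ≠ 0) ∧
      ∀ φ, Ev S.Q φ → (∀ a ∈ G, φ a = χ a) →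
        (∃ t, Reach S G X r t ∧ φ t = 0) ∧ ∀ t, safe q t → φ t = 0 := by
  obtain ⟨t, t', hne, H⟩ := gate_tok hq
  have e1 := (H t).2 (.inl rfl)
  have e2 := (H t').2 (.inr rfl)
  obtain ⟨D, hD, hp⟩ := path (h2 t e1.1 e1.2)
  obtain ⟨D', hD', hp'⟩ := path (h2 t' e2.1 e2.2)
  have key : ∀ p ∈ symmDiff (symmDiff D D') {q},
      p = q ∨ XG S G X p ∧ ∀ s ∈ p, s ∉ G → Reach S G X r s := fun p hp => by
    rcases mem_symmDiff.1 hp with h | h
    · rcases mem_symmDiff.1 h.1 with h | h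
      exacts [.inr (hD _ h.1), .inr (hD' _ h.1)]
    · exact .inl (mem_singleton.1 h.1)
  obtain ⟨n1, χ, c1, c2, c3, c4⟩ := bp X hX (symmDiff (symmDiff D D') {q})
    (fun p hp => ⟨(key p hp).elim (fun e => e ▸ hq) fun h => h.1.1, trivial⟩)
    (fun s hs => by
      rw [← ZMod.natCast_eq_zero_iff_even, card_filter]
      push_cast
      have e := par_gate hq e1.1 e2.1 e1.2 e2.2 hne hs
      have e3 := CharTwo.add_self_eq_zero (if s = t then 1 else 0 : ZMod 2)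
      have e4 := CharTwo.add_self_eq_zero (if s = t' then 1 else 0 : ZMod 2)
      have e5 := CharTwo.add_self_eq_zero (if s = r then 1 else 0 : ZMod 2)
      rw [sum_sd, sum_sd, ← par, ← par, ← par, hp s hs, hp' s hs, e]
      linear_combination e3 + e4 + e5)
    q (mem_symmDiff.2 (.inr ⟨mem_singleton_self q, fun h => by
      rcases mem_symmDiff.1 h with h | h
      exacts [haX ((hD _ h.1).1.2 a ha haG), haX ((hD' _ h.1).1.2 a ha haG)]⟩)) a ha haG haX
    (fun p hp f hf hfG hfX => by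
      rcases key p hp with rfl | h
      · exact ⟨rfl, by_contra fun h => hfX (h1 f hf hfG h)⟩
      · exact (hfX (h.1.2 f hf hfG)).elim)
  refine ⟨n1, χ, c1, c2, c3, fun φ hφ h => ?_⟩
  obtain ⟨⟨p, hp, s, hs, hsG, h0⟩, h3⟩ := c4 φ hφ h
  exact ⟨⟨s, (key p hp).elim (fun e => h2 s (e ▸ hs) hsG) fun h => h.2 s hs hsG, h0⟩, h3⟩

open LOCK in
lemma reach_iff {X : Set α} {P : Finset α → Prop} {K : Set α} (hK : GClosed S G P K)
    (hP : ∀ q, XG S G X q → P q) {r t : α} (h : Reach S G X r t) : r ∈ K ↔ t ∈ K := by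
  induction h with
  | root => rfl
  | step _ h2 h3 h4 h5 h6 ih =>
    exact ih.trans ⟨hK _ h2.1 (hP _ h2) _ h3 _ h4 h5 h6, hK _ h2.1 (hP _ h2) _ h4 _ h3 h6 h5⟩

end LOCK3

open LOCK LOCK3 in
theorem lock3 (hb : BUB_s) (ha : LA_s) (hu : LU_s) : LOCK3_s := by
  intro α _ S G Sig u τ1 τ2 h1 h2 noLoc safe H R hR g hg ρ hρ hρR hP
  have B := H.base
  have hin : ∀ a ∈ G, a ∉ R → Perc S (insert a (R.erase g)) → InS S G (insert a (R.erase g)) :=
    fun a haG haR hp => by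
      have hs : insert a (R.erase g) ⊆ G := insert_subset haG ((erase_subset _ _).trans hR.1)
      refine ⟨hs, ?_, cb2 hb ha H hR hs hp⟩
      rw [card_insert_of_notMem fun h => haR (mem_of_mem_erase h), card_erase_add_one hg, hR.2.1]
  by_cases hρG : ρ ∈ G
  · exact hin ρ hρG hρR hP
  exfalso
  obtain ⟨huR, huX⟩ := hu α S G Sig u τ1 τ2 h1 h2 B R hR
  obtain ⟨φ, hφ, φ0, -, φ1, φ2⟩ := (ha α S G B.GΩ B.perc R hR).1 g hg
  obtain ⟨K, gen, sat, hρK, C⟩ := H.cold ρ hρ hρG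
  set X : Set α := {a | Cl (FQ S G) (R.erase g : Finset α) a} with hXdef
  have huX : u ∉ X := huX g hg
  have hYX : ∀ a ∈ R.erase g, a ∈ X := fun a h => Cl.base h
  have hXG : ∀ a ∈ X, a ∈ G := fun a h => cl_le (Z := (G : Set α))
    (fun a h => hR.1 (mem_of_mem_erase h)) (fun q hq a ha _ => hq.2 ha) h
  have hXF : FClosed S G X := fun q hq a ha h => Cl.step hq ha h
  have hXφ : ∀ a ∈ X, φ a = 0 := fun a h => cl_le (Z := {a | φ a = 0}) φ0 (fun q hq a ha h => by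
    have e := hφ q hq.1
    rwa [sum_eq_single_of_mem a ha h] at e) h
  have hXu : ∀ q, XG S G X q → u ∉ q := fun q hq h => huX (hq.2 u h B.uG)
  have : Nonempty α := ⟨u⟩
  choose! rt rq rs ro using C.ge
  have hA0 : ∀ t, Reach S G X ρ t → t ∈ K := fun t => reach_sub C.Kc hXu hρK
  have hA : ∀ p t, gen p → Reach S G X (rt p) t → t ∈ sat p := fun p t hp =>
    reach_sub (C.sc p hp) hXu (rs p hp)
  set Z : Set α := {t | t ∈ X ∨ Reach S G X ρ t ∨ ∃ p, gen p ∧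
    (∀ b ∈ p, b ≠ rt p → b ∈ X ∨ Reach S G X ρ b) ∧ Reach S G X (rt p) t} with hZ
  have z1 : ∀ b ∈ Z, b ∈ G → b ∈ X := by
    rintro b (h | h | ⟨p, hp, -, h⟩) hb
    exacts [h, (C.Kt b (hA0 b h) hb).elim, ((C.st p hp b (hA p b hp h)).1 hb).elim]
  have z2 : ∀ b ∈ Z, b ∈ G ∨ b ∈ K ∨ ∃ p, gen p ∧ b ∈ sat p := by
    rintro b (h | h | ⟨p, hp, -, h⟩)
    exacts [.inl (hXG b h), .inr (.inl (hA0 b h)), .inr (.inr ⟨p, hp, hA p b hp h⟩)]
  have z3 : ∀ b ∈ Z, b ∈ K → Reach S G X ρ b := by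
    rintro b (h | h | ⟨p, hp, -, h⟩) hb
    exacts [(C.Kt b hb (hXG b h)).elim, h, ((C.st p hp b (hA p b hp h)).2.1 hb).elim]
  have z4 : ∀ b ∈ Z, ∀ p, gen p → b ∈ sat p →
      (∀ b ∈ p, b ≠ rt p → b ∈ X ∨ Reach S G X ρ b) ∧ Reach S G X (rt p) b := by
    rintro b (h | h | ⟨p', hp', h0, h⟩) p hp hb
    · exact ((C.st p hp b hb).1 (hXG b h)).elim
    · exact ((C.st p hp b hb).2.1 (hA0 b h)).elim
    · obtain rfl := C.sd p p' hp hp' b hb (hA p' b hp' h)
      exact ⟨h0, h⟩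
  have huZ : u ∉ Z := fun h => huX (z1 u h B.uG)
  have hot : ∀ (h : Finset α) (τ : α), (τ = τ1 ∨ τ = τ2) →
      (S.Q h ∧ u ∈ h ∧ τ ∈ h ∧ τ ∉ G ∧ ∀ b ∈ h, b ≠ τ → b ∈ G) →
      ¬ ∀ b ∈ h, b ≠ u → b ∈ Z := by
    rintro h τ hτ ⟨q1, -, q3, q4, q5⟩ hb
    have hXc : ∀ a ∈ X, Cl S.Q (insert u (R.erase g) : Finset α) a := fun a h =>
      cl_le (Z := {a | Cl S.Q (insert u (R.erase g) : Finset α) a})
        (fun a h => Cl.base (mem_coe.2 (mem_insert_of_mem h)))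
        (fun q hq a ha h => Cl.step hq.1 ha h) h
    have hτ0 : Reach S G X ρ τ := by
      rcases hb τ q3 (fun e => q4 (e ▸ B.uG)) with h | h | ⟨p, hp, -, h⟩
      · exact (q4 (hXG _ h)).elim
      · exact h
      · have := (C.st p hp τ (hA p τ hp h)).2.2
        tauto
    have hρc := reach_back hXc hτ0 (.step q1 q3 fun b hb' hne => by
      by_cases e : b = u
      · exact .base (by simp [e])
      · exact hXc b (z1 b (hb b hb' e) (q5 b hb' hne)))
    have hp : Perc S (insert u (R.erase g)) := fun a ha =>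
      cl_le (Z := {a | Cl S.Q (insert u (R.erase g) : Finset α) a}) (fun a h => by
        rcases mem_insert.1 (mem_coe.1 h) with rfl | h
        exacts [hρc, hXc a (hYX a h)]) (fun q hq a ha h => Cl.step hq ha h) (hP a ha)
    exact (hu α S G Sig u τ1 τ2 h1 h2 B _ (hin u B.uG huR hp)).1 (mem_insert_self _ _)
  have clo : ∀ q, Gate S G q → ∀ a ∈ q, a ∈ G → a ∉ X → (∀ f ∈ q, f ∈ G → f ≠ a → f ∈ X) →
      ∀ r, (∀ s ∈ q, s ∉ G → Reach S G X r s) →
      ¬ noLoc q ∧ (∃ t, Reach S G X r t ∧ φ t = 0) ∧ ∀ t, safe q t → φ t = 0 :=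
    fun q hq a ha haG haX hf r hr => by
      obtain ⟨n1, χ, c1, c2, c3, c4⟩ := close2 H.bp hXF hq ha haG haX hf hr
      exact ⟨n1, c4 φ hφ (φ2 χ c1 (fun a h => c2 a (hYX a h) (hXG a (hYX a h))) c3)⟩
  have one : ∀ s, Reach S G X ρ s → φ s ≠ 0 := fun s hs h0 => by
    rw [reach_phi hφ hXφ hs, φ1 ρ hP] at h0
    exact one_ne_zero h0
  refine huZ (cl_le (fun a h => ?_) (fun q hq a ha hb => ?_) (hP u (B.GΩ B.uG)))
  · rcases mem_insert.1 (mem_coe.1 h) with rfl | h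
    exacts [.inr (.inl .root), .inl (hYX a h)]
  by_contra haZ
  by_cases hqG : q ⊆ G
  · exact haZ (.inl (hXF q ⟨hq, hqG⟩ a ha fun b h e => z1 b (hb b h e) (hqG h)))
  by_cases huq : u ∈ q
  · obtain rfl : u = a := by_contra fun e => huZ (hb u huq e)
    rcases C.cu q hq huq hqG fun b h e => z2 b (hb b h e) with rfl | rfl | ⟨hq', hK⟩
    · exact hot _ _ (.inl rfl) B.hq1 hb
    · exact hot _ _ (.inr rfl) B.hq2 hb
    · obtain ⟨-, ⟨s, s1, s2⟩, -⟩ := clo q hq' u huq B.uG huX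
        (fun f h hG e => z1 f (hb f h e) hG) ρ
        fun s hs hs' => z3 s (hb s hs fun e => hs' (e ▸ B.uG)) (hK s hs hs')
      exact one s s1 s2
  rcases C.cl q hq huq hqG a ha fun b h e => z2 b (hb b h e) with hq' | hq' |
    ⟨f, f1, t1, a1, t2, a2, f2, b1, b2, f3, k1, k2, τ, hτ, huτ, hT⟩
  · obtain ⟨t, t', hne, T⟩ := gate_tok hq'
    by_cases haG : a ∈ G
    · have hf : ∀ f ∈ q, f ∈ G → f ≠ a → f ∈ X := fun f h hG e => z1 f (hb f h e) hG
      have htz : ∀ s ∈ q, s ∉ G → s ∈ Z := fun s h hs => hb s h fun e => hs (e ▸ haG)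
      have e1 := (T t).2 (.inl rfl)
      rcases z2 t (htz t e1.1 e1.2) with h | h | ⟨p, hp, h⟩
      · exact e1.2 h
      · obtain ⟨-, ⟨s, s1, s2⟩, -⟩ := clo q hq' a ha haG (fun h => haZ (.inl h)) hf ρ
          fun s hs hs' => z3 s (htz s hs hs') (C.Kc q hq' huq t e1.1 s hs e1.2 hs' h)
        exact one s s1 s2
      · obtain ⟨n1, -, n2⟩ := clo q hq' a ha haG (fun h => haZ (.inl h)) hf (rt p) fun s hs hs' =>
          (z4 s (htz s hs hs') p hp (C.sc p hp q hq' huq t e1.1 s hs e1.2 hs' h)).2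
        rcases C.sn p hp q hq' t e1.1 h with h' | ⟨b, b1, b2, b3⟩
        · exact n1 h'
        · rcases (z4 t (htz t e1.1 e1.2) p hp h).1 b b1
            (fun e => (C.st p hp _ (rs p hp)).2.1 (e ▸ b2)) with h' | h'
          · exact C.Kt b b2 (hXG b h')
          · exact one b h' (n2 b b3)
    · have hx : XG S G X q := ⟨hq', fun f h hG => z1 f (hb f h fun e => haG (e ▸ hG)) hG⟩
      obtain ⟨s, s1, s2, s3⟩ : ∃ s ∈ q, s ∉ G ∧ s ≠ a := by
        by_cases e : t = a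
        · exact ⟨t', ((T t').2 (.inr rfl)).1, ((T t').2 (.inr rfl)).2, fun e' => hne (e.trans e'.symm)⟩
        · exact ⟨t, ((T t).2 (.inl rfl)).1, ((T t).2 (.inl rfl)).2, e⟩
      rcases hb s s1 s3 with h | h | ⟨p, hp, h0, h⟩
      · exact s2 (hXG s h)
      · exact haZ (.inr (.inl (h.step hx s1 ha s2 haG)))
      · exact haZ (.inr (.inr ⟨p, hp, h0, h.step hx s1 ha s2 haG⟩))
  · by_cases e : a = rt q
    · refine haZ (.inr (.inr ⟨q, hq', fun b h hne => ?_, e ▸ .root⟩))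
      have hz := hb b h (e ▸ hne)
      exact (ro q hq' b h hne).imp (z1 b hz) (z3 b hz)
    · rcases (z4 _ (hb _ (rq q hq') (Ne.symm e)) q hq' (rs q hq')).1 a ha e with h | h
      exacts [haZ (.inl h), haZ (.inr (.inl h))]
  · refine huX (hXF τ hτ u huτ fun e he hne => by_contra fun heX => ?_)
    obtain ⟨T, c, i1, i2⟩ := hT e he hne fun h => heX (h ▸ z1 f (hb f f1 f2) f3)
    have hp : ∀ p, XG S G X p → u ∉ p ∧ e ∉ p := fun p hp =>
      ⟨hXu p hp, fun h => heX (hp.2 e h (hτ.2 he))⟩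
    exact i2 ((reach_iff c hp (z3 t2 (hb t2 a2 b2) k2)).1
      ((reach_iff c hp (z3 t1 (hb t1 a1 b1) k1)).2 i1))

end Pool.Agent.MP_797bdc_co.Lk
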