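import Pool.Agent.MP_797bdc_co.Lk.Stm

namespace Pool.Agent.MP_797bdc_co.Lk

open Finset

namespace LU
variable {α : Type} [DecidableEq α]

omit [DecidableEq α] in
theorem cl_mono {P P' : Finset α → Prop} {Y Y' : Set α} (hP : ∀ q, P q → P' q)
    (hY : ∀ a ∈ Y, Cl P' Y' a) {a : α} (h : Cl P Y a) : Cl P' Y' a := by
  induction h with
  | base h => exact hY _ h
  | step hq ha _ ih => exact Cl.step (hP _ hq) ha ih

theorem ev_zero {P : Finset α → Prop} {Y : Set α} {φ : α → ZMod 2} (he : Ev P φ)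
    (h0 : ∀ a ∈ Y, φ a = 0) {a : α} (h : Cl P Y a) : φ a = 0 := by
  induction h with
  | base h => exact h0 _ h
  | @step q a hq ha _ ih =>
    have h1 := he q hq
    rw [← add_sum_erase q φ ha, sum_eq_zero (fun b hb => ih b (mem_of_mem_erase hb)
      (ne_of_mem_erase hb)), add_zero] at h1
    exact h1

/-- One new element is added. -/
def Stp (P : Finset α → Prop) (Y Z : Finset α) : Prop :=
  ∃ a q, a ∉ Y ∧ Z = insert a Y ∧ P q ∧ a ∈ q ∧ q ⊆ Z

variable {P : Finset α → Prop}

theorem rt_sub {Y Z : Finset α} (h : Relation.ReflTransGen (Stp P) Y Z) : Y ⊆ Z := by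
  induction h with
  | refl => exact Subset.refl _
  | tail _ hs ih =>
    obtain ⟨a, q, -, rfl, -⟩ := hs
    exact ih.trans (subset_insert _ _)

theorem rt_cl {Y Z : Finset α} (h : Relation.ReflTransGen (Stp P) Y Z) :
    ∀ a ∈ Z, Cl P (Y : Set α) a := by
  induction h with
  | refl => exact fun a ha => Cl.base ha
  | tail _ hs ih =>
    obtain ⟨a, q, -, rfl, hq, ha, hs⟩ := hs
    intro x hx
    rcases mem_insert.1 hx with rfl | hx
    · exact Cl.step hq ha fun b hb hne => ih b ((mem_insert.1 (hs hb)).resolve_left hne)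
    · exact ih x hx

theorem rt_ins {Y Z : Finset α} (h : Relation.ReflTransGen (Stp P) Y Z) {g : α} (hg : g ∉ Z) :
    Relation.ReflTransGen (Stp P) (insert g Y) (insert g Z) := by
  induction h with
  | refl => exact .refl
  | tail _ hs ih =>
    obtain ⟨a, q, ha, rfl, hq, haq, hs⟩ := hs
    rw [mem_insert, not_or] at hg
    refine (ih hg.2).tail ⟨a, q, ?_, insert_comm _ _ _, hq, haq, hs.trans (subset_insert _ _)⟩
    rw [mem_insert, not_or]
    exact ⟨fun h => hg.1 h.symm, ha⟩

theorem ex_cl {G : Finset α} (hP : ∀ q, P q → q ⊆ G) (n : ℕ) : ∀ Y : Finset α, Y ⊆ G →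
    G.card ≤ Y.card + n → ∃ Z, Z ⊆ G ∧ Relation.ReflTransGen (Stp P) Y Z ∧
      ∀ a, Cl P (Y : Set α) a → a ∈ Z := by
  induction n with
  | zero =>
    intro Y hY hc
    have : Y = G := eq_of_subset_of_card_le hY (by simpa using hc)
    subst this
    refine ⟨Y, hY, .refl, fun a h => ?_⟩
    cases h with
    | base h => exact h
    | step hq ha _ => exact hP _ hq ha
  | succ n ih =>
    intro Y hY hc
    by_cases hs : ∃ Z, Stp P Y Z
    · obtain ⟨Z, hZ⟩ := hs
      obtain ⟨a, q, ha, rfl, hq, haq, hs⟩ := id hZ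
      obtain ⟨W, hW, hr, hcl⟩ := ih (insert a Y) (insert_subset (hP _ hq haq) hY)
        (by rw [card_insert_of_notMem ha]; omega)
      refine ⟨W, hW, .head hZ hr, fun b hb => hcl b (cl_mono (fun _ h => h) ?_ hb)⟩
      exact fun c hc => Cl.base (by simp only [coe_insert]; exact Or.inr hc)
    · refine ⟨Y, hY, .refl, fun a h => ?_⟩
      induction h with
      | base h => exact h
      | @step q a hq ha _ ih' =>
        by_contra hn
        refine hs ⟨insert a Y, a, q, hn, rfl, hq, ha, fun b hb => ?_⟩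
        by_cases hba : b = a
        · exact hba ▸ mem_insert_self _ _
        · exact mem_insert_of_mem (ih' b hb hba)

theorem rt_card {FS : Finset (Finset α)} (hF : ∀ q, P q → q ∈ FS) {Y Z : Finset α}
    (h : Relation.ReflTransGen (Stp P) Y Z) : Z.card ≤ Y.card + (FS.filter (· ⊆ Z)).card := by
  induction h with
  | refl => omega
  | @tail W _ _ hs ih =>
    obtain ⟨a, q, ha, rfl, hq, haq, hs⟩ := hs
    have h1 : insert q (FS.filter (· ⊆ W)) ⊆ FS.filter (· ⊆ insert a W) := by
      refine insert_subset (mem_filter.2 ⟨hF q hq, hs⟩) fun p hp => ?_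
      exact mem_filter.2 ⟨(mem_filter.1 hp).1, (mem_filter.1 hp).2.trans (subset_insert _ _)⟩
    have h2 := card_le_card h1
    have h3 : q ∉ FS.filter (· ⊆ W) := fun h => ha ((mem_filter.1 h).2 haq)
    rw [card_insert_of_notMem h3] at h2
    rw [card_insert_of_notMem ha]
    omega

end LU

open LU in
theorem lu : LU_s := by
  intro α _ S G Sig u τ1 τ2 h1 h2 hB R hR
  obtain ⟨hRG, hRc, hRcl⟩ := hR
  obtain ⟨FS, hFS, hcnt⟩ := hB.cnt
  have hP : ∀ q, FQ S G q → q ⊆ G := fun q h => h.2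
  have key : ∀ X, X ⊆ G → Relation.ReflTransGen (Stp (FQ S G)) R X → u ∈ X → X = G := by
    intro X hX hr hu
    obtain ⟨Z, hZ, hr', hcl⟩ := ex_cl hP G.card X hX (by omega)
    have hZG : Z = G := Subset.antisymm hZ fun a ha =>
      hcl a (cl_mono (fun _ h => h) (fun c hc => Cl.base (rt_sub hr hc)) (hRcl a ha))
    subst hZG
    rcases hr'.cases_tail with h | ⟨W, hW, hs⟩
    · exact h.symm
    exfalso
    obtain ⟨a, q, ha, hZ', hq, haq, -⟩ := hs
    have hau : a ≠ u := fun h => ha (h ▸ rt_sub hW hu)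
    obtain ⟨p, p', hp, hp', hne, hap, hap'⟩ := hB.deg2 a (hq.2 haq) hau
    have h3 := rt_card hFS (hr.trans hW)
    have h4 : insert p (insert p' (FS.filter (· ⊆ W))) ⊆ FS :=
      insert_subset (hFS p hp) (insert_subset (hFS p' hp') (filter_subset _ _))
    have h5 := card_le_card h4
    have h8 : p' ∉ FS.filter (· ⊆ W) := fun h => ha ((mem_filter.1 h).2 hap')
    rw [card_insert_of_notMem, card_insert_of_notMem h8] at h5
    · have h6 : Z.card = W.card + 1 := by rw [hZ', card_insert_of_notMem ha]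
      omega
    · rw [mem_insert, not_or]
      exact ⟨hne, fun h => ha ((mem_filter.1 h).2 hap)⟩
  have huR : u ∉ R := by
    intro hu
    have hRG' := key R hRG .refl hu
    have h4 := S.Qcard h1 hB.hq1.1
    have : ¬ h1 ⊆ {u, τ1} := fun h => by
      have h5 := card_le_card h
      have h6 : ({u, τ1} : Finset α).card ≤ 2 := card_le_two
      omega
    obtain ⟨b, hb, hb'⟩ := not_subset.1 this
    rw [mem_insert, mem_singleton, not_or] at hb'
    obtain ⟨p, -, hp, -⟩ := hB.deg2 b (hB.hq1.2.2.2.2 b hb hb'.2) hb'.1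
    have h7 : 0 < FS.card := card_pos.2 ⟨p, hFS p hp⟩
    rw [← hRG'] at hcnt
    omega
  refine ⟨huR, fun g hg hu => ?_⟩
  obtain ⟨X, hX, hr, hcl⟩ := ex_cl hP G.card (R.erase g) ((erase_subset _ _).trans hRG) (by omega)
  have hgX : g ∉ X := by
    intro hgX
    obtain ⟨φ, he, h0, a, ha, hne⟩ := S.dim (R.erase g) (by
      rw [← hRc]; exact card_erase_lt_of_mem hg)
    refine hne (ev_zero he (Y := (R.erase g : Finset α)) (fun a ha => h0 a ha) ?_)
    refine cl_mono (fun _ h => h) (fun c hc => ?_) (hB.perc a ha)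
    refine cl_mono (fun _ h => h.1) (fun d hd => ?_) (hRcl c hc)
    refine cl_mono (fun _ h => h.1) (fun _ h => Cl.base h) (rt_cl hr d ?_)
    by_cases hdg : d = g
    · exact hdg ▸ hgX
    · exact rt_sub hr (mem_erase.2 ⟨hdg, hd⟩)
  have hr' := rt_ins hr hgX
  rw [insert_erase hg] at hr'
  have hG := key _ (insert_subset (hRG hg) hX) hr' (mem_insert_of_mem (hcl u hu))
  obtain ⟨p, -, hp, -, -, hgp, -⟩ := hB.deg2 g (hRG hg) (fun h => huR (h ▸ hg))
  refine hgX (hcl g (Cl.step hp hgp fun b hb hne => rt_cl hr b ?_))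
  have := hp.2 hb
  rw [← hG] at this
  exact (mem_insert.1 this).resolve_left hne

end Pool.Agent.MP_797bdc_co.Lk

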