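import Pool.Agent.MP_797bdc_co.Lk.Stm3

/-! Ranked blocks: a token-even family of gates splits into token-even blocks. -/

namespace Pool.Agent.MP_797bdc_co.Lk

open Finset

namespace RANKW

variable {α : Type} [DecidableEq α]

/-- A family of gates that is even at every token but one is even there too. -/
theorem last (S : Sys α) (G : Finset α) (E : Finset (Finset α)) (hE : ∀ q ∈ E, Gate S G q)
    (t0 : α) (h : ∀ t, t ∉ G → t ≠ t0 → Even (E.filter (t ∈ ·)).card) : TEven G E := by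
  intro t ht
  by_cases h0 : t = t0
  swap
  · exact h t ht h0
  subst h0
  set U : Finset α := insert t (E.biUnion id) \ G with hU
  have htU : t ∈ U := by simp [hU, ht]
  have e1 : ∑ s ∈ U, (E.filter (s ∈ ·)).card = ∑ q ∈ E, (U.filter (· ∈ q)).card := by
    simp only [card_filter]
    exact sum_comm
  have e2 : ∀ q ∈ E, (U.filter (· ∈ q)).card = 2 := fun q hq => by
    have e3 : U.filter (· ∈ q) = q \ G := by
      ext s
      simp only [hU, mem_filter, mem_sdiff, mem_insert, mem_biUnion, id]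
      exact ⟨fun h => ⟨h.2, h.1.2⟩, fun h => ⟨⟨Or.inr ⟨q, hq, h.1⟩, h.2⟩, h.1⟩⟩
    have e4 := card_sdiff_add_card_inter q G
    rw [(hE q hq).2, S.Qcard q (hE q hq).1] at e4
    rw [e3]
    omega
  rw [sum_congr rfl e2, ← add_sum_erase U _ htU] at e1
  have e5 : Even (∑ s ∈ U.erase t, (E.filter (s ∈ ·)).card) :=
    even_sum _ fun s hs => h s (mem_sdiff.1 (mem_erase.1 hs).2).2 (mem_erase.1 hs).1
  have e6 : Even (∑ _q ∈ E, 2) := even_sum _ fun _ _ => even_two
  rw [← e1] at e6
  exact (Nat.even_add.1 e6).2 e5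

end RANKW

/-- Ranked blocks, weak hypothesis, with safe tokens. -/
theorem rankW : ∀ (α β : Type) [DecidableEq α] (S : Sys α) (G : Finset α)
  (noLoc : Finset α → Prop) (safe : Finset α → α → Prop) (blk : Finset α → β) (rk : β → ℕ)
  (top : β → α),
  (∀ q q', Gate S G q → Gate S G q' → ∀ t ∈ q, t ∈ q' → t ∉ G → blk q ≠ blk q' →
     t ≠ top (blk q) → rk (blk q) < rk (blk q')) →
  (∀ B, BPon2 S G noLoc safe (blk · = B)) → BPon2 S G noLoc safe (fun _ => True) := by
  classical
  intro α β _ S G noLoc safe blk rk top H hB X hX D hD hT q0 hq0 m hm hmG hmX hu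
  obtain ⟨N, hN⟩ : ∃ N, ∀ q ∈ D, rk (blk q) ≤ N :=
    ⟨D.sup fun q => rk (blk q), fun q hq => le_sup (f := fun q => rk (blk q)) hq⟩
  have key : ∀ k, ∀ B, N - rk B = k → TEven G (D.filter (blk · = B)) := by
    intro k
    induction k using Nat.strong_induction_on with
    | _ k ih =>
      intro B hk
      refine RANKW.last S G _ (fun q hq => (hD q (mem_filter.1 hq).1).1) (top B) fun t ht h0 => ?_
      rcases ((D.filter (blk · = B)).filter (t ∈ ·)).eq_empty_or_nonempty with he | ⟨q, hq⟩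
      · rw [he]; simp
      simp only [mem_filter] at hq
      obtain ⟨⟨hq, hb⟩, htq⟩ := hq
      have e1 := card_filter_add_card_filter_not (s := D.filter (t ∈ ·)) (blk · = B)
      have e2 := hT t ht
      rw [← e1, filter_comm] at e2
      refine (Nat.even_add.1 e2).2 ?_
      rw [card_eq_sum_card_image blk]
      refine even_sum _ fun B' hB' => ?_
      obtain ⟨q', hq', rfl⟩ := mem_image.1 hB'
      simp only [mem_filter] at hq'
      obtain ⟨⟨hq', htq'⟩, hb'⟩ := hq'
      have e3 : rk B < rk (blk q') :=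
        hb ▸ H q q' (hD q hq).1 (hD q' hq').1 t htq htq' ht (fun h => hb' (h.symm.trans hb))
          (hb ▸ h0)
      have e4 := ih _ (by have := hN q' hq'; omega) (blk q') rfl t ht
      refine (congrArg (fun s : Finset (Finset α) => Even s.card) ?_).mpr e4
      ext p
      simp only [mem_filter]
      exact ⟨fun h => ⟨⟨h.1.1.1, h.2⟩, h.1.1.2⟩, fun h => ⟨⟨⟨h.1.1, h.2⟩, h.1.2 ▸ hb'⟩, h.1.2⟩⟩
  obtain ⟨h1, χ, c1, c2, c3, c4⟩ := hB (blk q0) X hX (D.filter (blk · = blk q0))
    (fun q hq => ⟨(hD q (mem_filter.1 hq).1).1, (mem_filter.1 hq).2⟩) (key _ _ rfl) q0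
    (mem_filter.2 ⟨hq0, rfl⟩) m hm hmG hmX fun q hq => hu q (mem_filter.1 hq).1
  refine ⟨h1, χ, c1, c2, c3, fun φ p1 p2 => ?_⟩
  obtain ⟨⟨q, hq, h⟩, h'⟩ := c4 φ p1 p2
  exact ⟨⟨q, (mem_filter.1 hq).1, h⟩, h'⟩

/-- A block with at most one gate. -/
theorem oneW : ∀ (α : Type) [DecidableEq α] (S : Sys α) (G : Finset α)
  (noLoc : Finset α → Prop) (safe : Finset α → α → Prop) (B : Finset α → Prop) (q0 : Finset α),
  (∀ q, Gate S G q → B q → q = q0) → BPon2 S G noLoc safe B := by
  classical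
  intro α _ S G noLoc safe B q1 H X _ D hD hT q0 hq0 m _ _ _ _
  exfalso
  have e4 := card_sdiff_add_card_inter q0 G
  rw [(hD q0 hq0).1.2, S.Qcard q0 (hD q0 hq0).1.1] at e4
  obtain ⟨t, ht⟩ : (q0 \ G).Nonempty := card_pos.1 (by omega)
  have e1 : D.filter (t ∈ ·) = {q0} := by
    ext q
    simp only [mem_filter, mem_singleton]
    exact ⟨fun h => (H q (hD q h.1).1 (hD q h.1).2).trans (H q0 (hD q0 hq0).1 (hD q0 hq0).2).symm,
      fun h => h ▸ ⟨hq0, (mem_sdiff.1 ht).1⟩⟩
  have := hT t (mem_sdiff.1 ht).2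
  rw [e1, card_singleton] at this
  exact Nat.not_even_one this

end Pool.Agent.MP_797bdc_co.Lk
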