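import Pool.Agent.MP_797bdc_co.Lk.HS

/-! The third-token argument. -/

namespace Pool.Agent.MP_797bdc_co.Lk

open Finset

namespace PCAx

theorem s3 {a b c a' b' c' : ℕ} (h : ∀ t, t = a ∨ t = b ∨ t = c ↔ t = a' ∨ t = b' ∨ t = c') :
    ({a, b, c} : Finset ℕ) = {a', b', c'} := by
  ext t; simpa only [mem_insert, mem_singleton] using h t

theorem q4 {a b c d a' b' c' d' : ℕ}
    (h : ∀ t, t = a ∨ t = b ∨ t = c ∨ t = d ↔ t = a' ∨ t = b' ∨ t = c' ∨ t = d') :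
    qd a b c d = qd a' b' c' d' := by
  unfold qd; congr 1; ext t; simpa only [mem_insert, mem_singleton] using h t

theorem apex {a b C x y z : ℕ} (h : ({x, y, z} : Finset ℕ) ∈ Tk a b C) :
    (a = x ∨ a = y ∨ a = z) ∧ (b = x ∨ b = y ∨ b = z) := by
  obtain ⟨c, -, h⟩ := h
  have h1 : a ∈ ({x, y, z} : Finset ℕ) := by rw [h]; simp
  have h2 : b ∈ ({x, y, z} : Finset ℕ) := by rw [h]; simp
  simp only [mem_insert, mem_singleton] at h1 h2
  exact ⟨h1, h2⟩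

theorem noap {a b C x y z t : ℕ} (h : ({x, y, z} : Finset ℕ) ∈ Tk a b C) (ht : a = t ∨ b = t)
    (hx : t ≠ x) (hy : t ≠ y) (hz : t ≠ z) : False := by
  have h := apex h
  rcases ht with rfl | rfl
  exacts [h.1.elim hx (·.elim hy hz), h.2.elim hx (·.elim hy hz)]

theorem pr {a b x y z w : ℕ} (hab : a < b) (hzw : z ≠ w)
    (a1 : (a = x ∨ a = y ∨ a = z) ∧ (b = x ∨ b = y ∨ b = z))
    (a2 : (a = x ∨ a = y ∨ a = w) ∧ (b = x ∨ b = y ∨ b = w)) :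
    (a = x ∧ b = y) ∨ (a = y ∧ b = x) := by
  have k : ∀ {c}, (c = x ∨ c = y ∨ c = z) → (c = x ∨ c = y ∨ c = w) → c = x ∨ c = y :=
    fun s t => s.elim .inl (·.elim .inr fun s => t.elim .inl (·.elim .inr fun t =>
      absurd (s.symm.trans t) hzw))
  rcases k a1.1 a2.1 with rfl | rfl <;> rcases k a1.2 a2.2 with rfl | rfl
  exacts [absurd hab (lt_irrefl _), .inl ⟨rfl, rfl⟩, .inr ⟨rfl, rfl⟩, absurd hab (lt_irrefl _)]

theorem bit {a b C x y z : ℕ} (h : ({x, y, z} : Finset ℕ) ∈ Tk a b C) (ha : z ≠ a) (hb : z ≠ b) :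
    C.testBit z = true := by
  obtain ⟨c, hc, h⟩ := h
  have h1 : z ∈ ({a, b, c} : Finset ℕ) := by rw [← h]; simp
  simp only [mem_insert, mem_singleton] at h1
  rcases h1 with h1 | h1 | h1
  exacts [absurd h1 ha, absurd h1 hb, h1 ▸ hc]

variable {n : ℕ} {G : Finset (Finset ℕ)} {u : Finset ℕ} {gen : Finset (Finset ℕ) → Prop}
  {ea eb eC : ℕ → ℕ} {m : ℕ}

theorem notG (hW : ∀ i < m, Wf n G (ea i) (eb i) (eC i)) {t : Finset ℕ}
    (h : t ∈ HE ea eb eC m) : t ∉ G := by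
  obtain ⟨i, hi, c, hc, rfl⟩ := h
  exact ((hW i hi).2.2 c hc).2.2.2

theorem third (hW : ∀ i < m, Wf n G (ea i) (eb i) (eC i)) (hC : CrossOK G u gen ea eb eC m)
    {x y z w k l : ℕ} (hxy : x ≠ y) (hxz : x ≠ z) (hxw : x ≠ w) (hyz : y ≠ z) (hyw : y ≠ w)
    (hzw : z ≠ w) (h1 : ({x, y, z} : Finset ℕ) ∈ HE ea eb eC m) (hk : k < m)
    (h2 : ({x, y, w} : Finset ℕ) ∈ Tk (ea k) (eb k) (eC k)) (hy : ea k = y ∨ eb k = y)
    (hl : l < m) (h3 : ({x, z, w} : Finset ℕ) ∈ Tk (ea l) (eb l) (eC l))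
    (hz : ea l = z ∨ eb l = z) : gen (qd x y z w) := by
  have e1 : ({x, w, z} : Finset ℕ) = {x, z, w} := s3 fun t => by simp only [or_comm]
  have e2 : ({x, w, y} : Finset ℕ) = {x, y, w} := s3 fun t => by simp only [or_comm]
  have e3 : ({x, z, y} : Finset ℕ) = {x, y, z} := s3 fun t => by simp only [or_comm]
  have e4 : qd x w z y = qd x y z w := q4 fun t => by simp only [or_comm, or_left_comm]
  have h := hC l hl k hk (fun e => noap h3 (by rw [e.1, e.2]; exact hy) hxy.symm hyz hyw)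
    x w z y hxw hxz hxy hzw.symm hyw.symm hyz.symm (e1 ▸ h3) (e2 ▸ h2)
    (fun h => noap h hy hxy.symm hyw hyz) (fun h => noap h hz hxz.symm hzw hyz.symm)
  rcases h with h | h | h
  · exact absurd h.1.1 (e3 ▸ notG hW h1)
  · exact e4 ▸ h
  · exact absurd (e3 ▸ h1) h.2.1

theorem third2 (hW : ∀ i < m, Wf n G (ea i) (eb i) (eC i)) (hC : CrossOK G u gen ea eb eC m)
    {x y z w i k : ℕ} (hxy : x ≠ y) (hxz : x ≠ z) (hxw : x ≠ w) (hyz : y ≠ z) (hyw : y ≠ w)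
    (hzw : z ≠ w) (hi : i < m) (h1 : ({x, y, z} : Finset ℕ) ∈ Tk (ea i) (eb i) (eC i))
    (hk : k < m) (h2 : ({x, y, w} : Finset ℕ) ∈ Tk (ea k) (eb k) (eC k))
    (hyi : ea i = y ∨ eb i = y) (hyk : ea k = y ∨ eb k = y)
    (h3 : ({x, z, w} : Finset ℕ) ∈ HE ea eb eC m) : gen (qd x y z w) := by
  obtain ⟨l, hl, h3⟩ := h3
  by_cases hz : ea l = z ∨ eb l = z
  · exact third hW hC hxy hxz hxw hyz hyw hzw ⟨i, hi, h1⟩ hk h2 hyk hl h3 hz
  · have a3 := apex h3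
    have hlt := (hW l hl).1
    have e1 : ({x, w, z} : Finset ℕ) = {x, z, w} := s3 fun t => by simp only [or_comm]
    have e4 : qd x y w z = qd x y z w := q4 fun t => by simp only [or_comm]
    have hw : ea l = w ∨ eb l = w := by
      obtain ⟨s | s | s, t | t | t⟩ := a3
      exacts [absurd (s.trans t.symm) hlt.ne, absurd (.inr t) hz, .inr t, absurd (.inl s) hz,
        absurd (.inl s) hz, absurd (.inl s) hz, .inl s, .inl s, .inl s]
    exact e4 ▸ third hW hC hxy hxw hxz hyw hyz hzw.symm ⟨k, hk, h2⟩ hi h1 hyi hl (e1 ▸ h3) hw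

theorem same (hW : ∀ i < m, Wf n G (ea i) (eb i) (eC i)) (hS : SameOK G u gen ea eb eC m)
    (hC : CrossOK G u gen ea eb eC m)
    {x y z w i k : ℕ} (hxy : x ≠ y) (hxz : x ≠ z) (hxw : x ≠ w) (hyz : y ≠ z) (hyw : y ≠ w)
    (hzw : z ≠ w) (hi : i < m) (h1 : ({x, y, z} : Finset ℕ) ∈ Tk (ea i) (eb i) (eC i))
    (hk : k < m) (h2 : ({x, y, w} : Finset ℕ) ∈ Tk (ea k) (eb k) (eC k))
    (ha : ea i = ea k) (hb : eb i = eb k) : PCq G u (HE ea eb eC m) gen x y z w := by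
  have hp := pr (hW i hi).1 hzw (apex h1) (by rw [ha, hb]; exact apex h2)
  have hx : ea i = x ∨ eb i = x := hp.elim (.inl ·.1) (.inr ·.2)
  have hy : ea i = y ∨ eb i = y := hp.elim (.inr ·.2) (.inl ·.1)
  have ne : ∀ t, x ≠ t → y ≠ t → t ≠ ea i ∧ t ≠ eb i := fun t s s' => by
    rcases hp with ⟨e, e'⟩ | ⟨e, e'⟩ <;> rw [e, e']
    exacts [⟨s.symm, s'.symm⟩, ⟨s'.symm, s.symm⟩]
  have h := hS i hi k hk ha hb z w (bit h1 (ne z hxz hyz).1 (ne z hxz hyz).2)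
    (bit h2 (ha ▸ (ne w hxw hyw).1) (hb ▸ (ne w hxw hyw).2)) hzw
  have e4 : qd y x z w = qd x y z w := q4 fun t => by simp only [or_left_comm]
  have h' : gen (qd x y z w) ∨ (Gm G u {x, z, w} ↔ Gm G u {y, z, w}) := by
    rcases hp with ⟨e, e'⟩ | ⟨e, e'⟩ <;> rw [e, e'] at h
    · exact h
    · exact h.imp (fun h => e4 ▸ h) Iff.symm
  rcases h' with h' | h'
  · exact .inr (.inl h')
  by_cases hg : Gm G u {x, z, w}
  · exact .inl ⟨hg, h'.1 hg⟩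
  by_cases h3 : ({x, z, w} : Finset ℕ) ∈ HE ea eb eC m
  · exact .inr (.inl (third2 hW hC hxy hxz hxw hyz hyw hzw hi h1 hk h2 hy (ha ▸ hb ▸ hy) h3))
  by_cases h4 : ({y, z, w} : Finset ℕ) ∈ HE ea eb eC m
  · have e1 : ({y, x, z} : Finset ℕ) = {x, y, z} := s3 fun t => by simp only [or_left_comm]
    have e2 : ({y, x, w} : Finset ℕ) = {x, y, w} := s3 fun t => by simp only [or_left_comm]
    exact .inr (.inl (e4 ▸ third2 hW hC hxy.symm hyz hyw hxz hxw hzw hi (e1 ▸ h1) hk (e2 ▸ h2)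
      hx (ha ▸ hb ▸ hx) h4))
  · exact .inr (.inr ⟨hg, h3, fun h => hg (h'.2 h), h4⟩)

end PCAx

theorem pca : PCA_s := by
  intro n G u gen ea eb eC m hW hS hC x y z w hxy hxz hxw hyz hyw hzw ⟨i, hi, h1⟩ ⟨k, hk, h2⟩
  by_cases c1 : ea i = ea k ∧ eb i = eb k
  · exact PCAx.same hW hS hC hxy hxz hxw hyz hyw hzw hi h1 hk h2 c1.1 c1.2
  by_cases c2 : ({x, y, z} : Finset ℕ) ∈ Tk (ea k) (eb k) (eC k)
  · exact PCAx.same hW hS hC hxy hxz hxw hyz hyw hzw hk c2 hk h2 rfl rfl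
  by_cases c3 : ({x, y, w} : Finset ℕ) ∈ Tk (ea i) (eb i) (eC i)
  · exact PCAx.same hW hS hC hxy hxz hxw hyz hyw hzw hi h1 hi c3 rfl rfl
  exact hC i hi k hk c1 x y z w hxy hxz hxw hyz hyw hzw h1 h2 c2 c3

end Pool.Agent.MP_797bdc_co.Lk
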