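import Pool.Agent.MP_797bdc_co.Lk.HS

/-! Row PCL2. -/

namespace Pool.Agent.MP_797bdc_co.Lk

open Finset

namespace PCL2x

lemma pc3 (s : Finset ℕ) (hs : s.card = 4) : powersetCard 3 s = s.image s.erase := by
  ext t
  rw [mem_powersetCard, mem_image]
  constructor
  · rintro ⟨h1, h2⟩
    obtain ⟨a, ha, rfl⟩ := exists_eq_insert_iff.2 ⟨h1, by omega⟩
    exact ⟨a, mem_insert_self _ _, erase_insert ha⟩
  · rintro ⟨a, ha, rfl⟩
    exact ⟨erase_subset _ _, by rw [card_erase_of_mem ha, hs]⟩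

/-- Two triples of a quad share a pair. -/
lemma name {n : ℕ} {q : Finset (Finset ℕ)} (hq : Qn n q) {t t' : Finset ℕ} (ht : t ∈ q)
    (ht' : t' ∈ q) (hne : t ≠ t') : ∃ a < n, ∃ b < n, ∃ c < n, ∃ d < n, a ≠ b ∧ a ≠ c ∧ a ≠ d ∧
      b ≠ c ∧ b ≠ d ∧ c ≠ d ∧ t = {a, b, c} ∧ t' = {a, b, d} ∧ q = qd a b c d ∧
      q = {{a, b, c}, {a, b, d}, {a, c, d}, {b, c, d}} ∧
      ({a, c, d} : Finset ℕ) ≠ {b, c, d} := by
  obtain ⟨s, hs, hc, rfl⟩ := hq
  rw [pc3 s hc, mem_image] at ht ht'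
  obtain ⟨d, hd, rfl⟩ := ht
  obtain ⟨c, hcs, rfl⟩ := ht'
  have hcd : c ≠ d := fun h => hne (by rw [h])
  have h2 : ((s.erase d).erase c).card = 2 := by
    rw [card_erase_of_mem (mem_erase.2 ⟨hcd, hcs⟩), card_erase_of_mem hd, hc]
  obtain ⟨a, b, hab, h3⟩ := card_eq_two.1 h2
  have h4 : ∀ x, x ≠ c ∧ x ≠ d ∧ x ∈ s ↔ x = a ∨ x = b := fun x => by
    rw [← mem_erase, ← mem_erase, h3, mem_insert, mem_singleton]
  obtain ⟨hac, had, has⟩ := (h4 a).2 (.inl rfl)
  obtain ⟨hbc, hbd, hbs⟩ := (h4 b).2 (.inr rfl)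
  have e : s = {a, b, c, d} := by
    ext x
    simp only [mem_insert, mem_singleton]
    constructor
    · intro hx
      by_cases h5 : x = c
      · exact .inr (.inr (.inl h5))
      by_cases h6 : x = d
      · exact .inr (.inr (.inr h6))
      rcases (h4 x).1 ⟨h5, h6, hx⟩ with h | h
      · exact .inl h
      · exact .inr (.inl h)
    · rintro (rfl | rfl | rfl | rfl) <;> assumption
  have e1 : s.erase a = {b, c, d} := by
    rw [e]; ext x; simp only [mem_erase, mem_insert, mem_singleton]; omega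
  have e2 : s.erase b = {a, c, d} := by
    rw [e]; ext x; simp only [mem_erase, mem_insert, mem_singleton]; omega
  have e3 : s.erase c = {a, b, d} := by
    rw [e]; ext x; simp only [mem_erase, mem_insert, mem_singleton]; omega
  have e4 : s.erase d = {a, b, c} := by
    rw [e]; ext x; simp only [mem_erase, mem_insert, mem_singleton]; omega
  refine ⟨a, mem_range.1 (hs has), b, mem_range.1 (hs hbs), c, mem_range.1 (hs hcs), d,
    mem_range.1 (hs hd), hab, hac, had, hbc, hbd, hcd, e4, e3, by rw [e]; rfl, ?_, fun h => ?_⟩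
  · rw [pc3 s hc, ← e1, ← e2, ← e3, ← e4]
    ext x
    simp only [mem_image, mem_insert, mem_singleton]
    constructor
    · rintro ⟨y, hy, rfl⟩
      rw [e] at hy
      simp only [mem_insert, mem_singleton] at hy
      rcases hy with rfl | rfl | rfl | rfl <;> simp
    · rintro (rfl | rfl | rfl | rfl)
      exacts [⟨d, hd, rfl⟩, ⟨c, hcs, rfl⟩, ⟨b, hbs, rfl⟩, ⟨a, has, rfl⟩]
  · have : a ∈ ({b, c, d} : Finset ℕ) := h ▸ mem_insert_self _ _
    simp only [mem_insert, mem_singleton] at this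
    omega

end PCL2x

theorem pcl2 : PCL2_s := by
  classical
  intro n hd G Sig u τ1 τ2 h1 h2 hB H gen hH hP
  have one : ∀ q : Finset (Finset ℕ), (¬ ∃ t ∈ q, ∃ t' ∈ q, t ≠ t' ∧ t ∈ H ∧ t' ∈ H) →
      (q.filter (· ∈ H)).card ≤ 1 := fun q h =>
    card_le_one.2 fun t ht t' ht' => by
      by_contra hne
      exact h ⟨t, (mem_filter.1 ht).1, t', (mem_filter.1 ht').1, hne, (mem_filter.1 ht).2,
        (mem_filter.1 ht').2⟩
  refine ⟨fun q hq hu hG e he h => ?_, fun q hq hu hG h => ?_⟩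
  · by_cases h0 : ∃ t ∈ q, ∃ t' ∈ q, t ≠ t' ∧ t ∈ H ∧ t' ∈ H
    · obtain ⟨t, ht, t', ht', hne, k1, k2⟩ := h0
      obtain ⟨a, ha, b, hb, c, hc, d, hd', n1, n2, n3, n4, n5, n6, rfl, rfl, e1, e2, e3⟩ :=
        PCL2x.name hq ht ht' hne
      have m1 : ({a, c, d} : Finset ℕ) ∈ q := by rw [e2]; simp
      have m2 : ({b, c, d} : Finset ℕ) ∈ q := by rw [e2]; simp
      rcases hP a b c d n1 n2 n3 n4 n5 n6 k1 k2 with
        ⟨⟨g1, -⟩, g2, -⟩ | g1 | ⟨g1, g2, g3, g4⟩
      · refine .inl ⟨hq, ?_⟩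
        rw [e2, insert_inter_of_notMem (hH _ k1), insert_inter_of_notMem (hH _ k2),
          insert_inter_of_mem g1, singleton_inter_of_mem g2, card_pair e3]
      · exact .inr (e1 ▸ g1)
      · have f1 : ({a, c, d} : Finset ℕ) = e := by
          by_contra f
          exact (h _ m1 f).elim (fun f' => g1 ⟨f', fun k => hu (k ▸ m1)⟩) g2
        have f2 : ({b, c, d} : Finset ℕ) = e := by
          by_contra f
          exact (h _ m2 f).elim (fun f' => g3 ⟨f', fun k => hu (k ▸ m2)⟩) g4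
        exact absurd (f1.trans f2.symm) e3
    · have c1 := one q h0
      have c4 := (sysN n hd).Qcard q hq
      have c5 : q.card ≤ (insert e (q ∩ G ∪ q.filter (· ∈ H))).card :=
        card_le_card fun x hx => by
          by_cases hx' : x = e
          · exact mem_insert.2 (.inl hx')
          · exact mem_insert_of_mem (mem_union.2 ((h x hx hx').imp
              (fun f => mem_inter.2 ⟨hx, f⟩) fun f => mem_filter.2 ⟨hx, f⟩))
      have c6 := card_insert_le e (q ∩ G ∪ q.filter (· ∈ H))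
      have c7 := card_union_le (q ∩ G) (q.filter (· ∈ H))
      by_cases c8 : (q ∩ G).card = 2
      · exact .inl ⟨hq, c8⟩
      · rcases hB.c2 q hq (by omega) with f | rfl | rfl
        · exact absurd f hG
        · exact absurd hB.hq1.2.1 hu
        · exact absurd hB.hq2.2.1 hu
  · by_cases h0 : ∃ t ∈ q, ∃ t' ∈ q, t ≠ t' ∧ t ∈ H ∧ t' ∈ H
    · obtain ⟨t, ht, t', ht', hne, k1, k2⟩ := h0
      obtain ⟨a, ha, b, hb, c, hc, d, hd', n1, n2, n3, n4, n5, n6, rfl, rfl, e1, e2, e3⟩ :=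
        PCL2x.name hq ht ht' hne
      have m1 : ({a, c, d} : Finset ℕ) ∈ q := by rw [e2]; simp
      have m2 : ({b, c, d} : Finset ℕ) ∈ q := by rw [e2]; simp
      rcases hP a b c d n1 n2 n3 n4 n5 n6 k1 k2 with
        ⟨⟨-, g1⟩, -, g2⟩ | g1 | ⟨g1, g2, g3, g4⟩
      · rw [e2] at hu
        simp only [mem_insert, mem_singleton] at hu
        rcases hu with f | f | f | f
        · exact absurd hB.uG (f ▸ hH _ k1)
        · exact absurd hB.uG (f ▸ hH _ k2)
        · exact absurd f.symm g1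
        · exact absurd f.symm g2
      · exact .inr (.inr (e1 ▸ g1))
      · have f1 : ({a, c, d} : Finset ℕ) = u := by
          by_contra f
          exact (h _ m1 f).elim (fun f' => g1 ⟨f', f⟩) g2
        have f2 : ({b, c, d} : Finset ℕ) = u := by
          by_contra f
          exact (h _ m2 f).elim (fun f' => g3 ⟨f', f⟩) g4
        exact absurd (f1.trans f2.symm) e3
    · have c1 := one q h0
      have c4 := (sysN n hd).Qcard q hq
      have c5 : q.card ≤ (q ∩ G ∪ q.filter (· ∈ H)).card :=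
        card_le_card fun x hx => by
          by_cases hx' : x = u
          · exact mem_union_left _ (mem_inter.2 ⟨hx, hx' ▸ hB.uG⟩)
          · exact mem_union.2 ((h x hx hx').imp
              (fun f => mem_inter.2 ⟨hx, f⟩) fun f => mem_filter.2 ⟨hx, f⟩)
      have c7 := card_union_le (q ∩ G) (q.filter (· ∈ H))
      exact ((hB.c2 q hq (by omega)).resolve_left hG).imp_right .inl

end Pool.Agent.MP_797bdc_co.Lk
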