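import Pool.Agent.MP_797bdc_co.Lk.BI

/-! Interface of checker P with safe tokens. -/

namespace Pool.Agent.MP_797bdc_co.Lk

open Finset

/-- The number `s` lists block descriptors in fields of 20 bits. A descriptor is `4 * j + 1`
(four-cycle of zone `j`), `4 * id + 2` (explicit block `id`) or `4 * (c + 512 * d) + 3`
(single edge, `c < d`). -/
def sdm (s v : ℕ) : Prop := ∃ k, (s >>> (20 * k)) &&& 1048575 = v

/-- Vertex `c` belongs to the block `v` at the apex pair `a, b`. -/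
def VD (Z : Zn) (tG : BT) (a b v c : ℕ) : Prop :=
  (v % 4 = 1 ∧ ∃ i < 4, c = Z.c (v / 4) i) ∨
  (v % 4 = 2 ∧ ∃ i < xk (tG.get (v / 4)), ga (xg (tG.get (v / 4)) i) = a ∧
    gb (xg (tG.get (v / 4)) i) = b ∧
    (c = gc (xg (tG.get (v / 4)) i) ∨ c = gd (xg (tG.get (v / 4)) i))) ∨
  (v % 4 = 3 ∧ (c = v / 4 % 512 ∨ c = v / 4 / 512))

/-- Token `t` is safe for the block `v` at the apex pair `a, b`. -/
def DS (n : ℕ) (G : Finset (Finset ℕ)) (Z : Zn) (XS : ℕ → Finset ℕ → Prop) (a b v : ℕ)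
    (t : Finset ℕ) : Prop :=
  (v % 4 = 1 → ∀ p0 p1, p0 < p1 → p1 < Z.L (v / 4) →
    (Z.rim (v / 4) p0 = a ∧ Z.rim (v / 4) p1 = b) ∨ (Z.rim (v / 4) p0 = b ∧ Z.rim (v / 4) p1 = a) →
    ∀ ψ, Ev (Qn n) ψ → (∀ f ∈ G, f ∉ Z.Iall [(v / 4, p0, p1)] → ψ f = 0) → ψ t = 0) ∧
  (v % 4 = 2 → XS (v / 4) t)

/-- Safe tokens of the gates in the blocks listed by `SD`. -/
def safeS (n : ℕ) (G : Finset (Finset ℕ)) (Z : Zn) (tG : BT) (SD : ℕ → ℕ → ℕ)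
    (XS : ℕ → Finset ℕ → Prop) (q : Finset (Finset ℕ)) (t : Finset ℕ) : Prop :=
  ∃ a < n, ∃ b < n, ∃ c < n, ∃ d < n, a < b ∧ c ≠ d ∧ q = qd a b c d ∧
    ({a, c, d} : Finset ℕ) ∈ G ∧ ({b, c, d} : Finset ℕ) ∈ G ∧
    ({a, b, c} : Finset ℕ) ∉ G ∧ ({a, b, d} : Finset ℕ) ∉ G ∧
    ∃ v, sdm (SD a b) v ∧ VD Z tG a b v c ∧ VD Z tG a b v d ∧ DS n G Z XS a b v t

/-- Goal of checker X for one block record; `xs` is the set of its safe tokens. -/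
def XOK2 (n : ℕ) (hd : DimP n) (G : Finset (Finset ℕ)) (r : ℕ) (xs : Finset ℕ → Prop) : Prop :=
  ∀ (noLoc B : Finset (Finset ℕ) → Prop) (safe : Finset (Finset ℕ) → Finset ℕ → Prop),
    (∀ q, Gate (sysN n hd) G q → B q → (∃ i < xk r, q = xq r i) ∧
      (xnl r = 0 → ¬ noLoc q ∧ ∀ t, safe q t → xs t)) →
    BPon2 (sysN n hd) G noLoc safe B

/-- Goal of checker P. -/
def POK (n : ℕ) (hd : DimP n) (G : Finset (Finset ℕ)) (Z : Zn) (tG : BT) (NX : ℕ)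
    (SM SD : ℕ → ℕ → ℕ) : Prop :=
  ∀ XS : ℕ → Finset ℕ → Prop, (∀ id < NX, XOK2 n hd G (tG.get id) (XS id)) →
    BPon2 (sysN n hd) G (noLocS n G SM) (safeS n G Z tG SD XS) (fun _ => True)

end Pool.Agent.MP_797bdc_co.Lk
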