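import Pool.Agent.MP_797bdc_co.Lk.XA
import Pool.Agent.MP_797bdc_co.Lk.DE
import Pool.Agent.MP_797bdc_co.Lk.DG9
import Pool.Agent.MP_797bdc_co.Lk.DX9

/-! Run of checker X. -/

set_option maxRecDepth 100000
set_option linter.defProp false

namespace Pool.Agent.MP_797bdc_co.Lk.Da

noncomputable def rx13273 : iz (BT.all2 (xchk xE) g13273 x13273) = true := by decide +kernel
noncomputable def rx13279 : iz (BT.all2 (xchk xE) g13279 x13279) = true := by decide +kernel
noncomputable def rx13285 : iz (BT.all2 (xchk xE) g13285 x13285) = true := by decide +kernel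
noncomputable def rx13291 : iz (BT.all2 (xchk xE) g13291 x13291) = true := by decide +kernel
noncomputable def rx13300 : iz (BT.all2 (xchk xE) g13300 x13300) = true := by decide +kernel
noncomputable def rx13309 : iz (BT.all2 (xchk xE) g13309 x13309) = true := by decide +kernel
noncomputable def rx13319 : iz (BT.all2 (xchk xE) g13319 x13319) = true := by decide +kernel
noncomputable def rx13328 : iz (BT.all2 (xchk xE) g13328 x13328) = true := by decide +kernel
noncomputable def rx13334 : iz (BT.all2 (xchk xE) g13334 x13334) = true := by decide +kernel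
noncomputable def rx13342 : iz (BT.all2 (xchk xE) g13342 x13342) = true := by decide +kernel
noncomputable def rx13352 : iz (BT.all2 (xchk xE) g13352 x13352) = true := by decide +kernel
noncomputable def rx13358 : iz (BT.all2 (xchk xE) g13358 x13358) = true := by decide +kernel
noncomputable def rx13364 : iz (BT.all2 (xchk xE) g13364 x13364) = true := by decide +kernel
noncomputable def rx13371 : iz (BT.all2 (xchk xE) g13371 x13371) = true := by decide +kernel
noncomputable def rx13376 : iz (BT.all2 (xchk xE) g13376 x13376) = true := by decide +kernel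
noncomputable def rx13384 : iz (BT.all2 (xchk xE) g13384 x13384) = true := by decide +kernel
noncomputable def rx13392 : iz (BT.all2 (xchk xE) g13392 x13392) = true := by decide +kernel
noncomputable def rx13401 : iz (BT.all2 (xchk xE) g13401 x13401) = true := by decide +kernel
noncomputable def rx13409 : iz (BT.all2 (xchk xE) g13409 x13409) = true := by decide +kernel
noncomputable def rx13419 : iz (BT.all2 (xchk xE) g13419 x13419) = true := by decide +kernel
noncomputable def rx13428 : iz (BT.all2 (xchk xE) g13428 x13428) = true := by decide +kernel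
noncomputable def rx13436 : iz (BT.all2 (xchk xE) g13436 x13436) = true := by decide +kernel
noncomputable def rx13450 : iz (BT.all2 (xchk xE) g13450 x13450) = true := by decide +kernel
noncomputable def rx13459 : iz (BT.all2 (xchk xE) g13459 x13459) = true := by decide +kernel
noncomputable def rx13467 : iz (BT.all2 (xchk xE) g13467 x13467) = true := by decide +kernel
noncomputable def rx13477 : iz (BT.all2 (xchk xE) g13477 x13477) = true := by decide +kernel
noncomputable def rx13487 : iz (BT.all2 (xchk xE) g13487 x13487) = true := by decide +kernel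
noncomputable def rx13493 : iz (BT.all2 (xchk xE) g13493 x13493) = true := by decide +kernel
noncomputable def rx13502 : iz (BT.all2 (xchk xE) g13502 x13502) = true := by decide +kernel
noncomputable def rx13506 : iz (BT.all2 (xchk xE) g13506 x13506) = true := by decide +kernel
noncomputable def rx13509 : iz (BT.all2 (xchk xE) g13509 x13509) = true := by decide +kernel
noncomputable def rx13518 : iz (BT.all2 (xchk xE) g13518 x13518) = true := by decide +kernel
noncomputable def rx13527 : iz (BT.all2 (xchk xE) g13527 x13527) = true := by decide +kernel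
noncomputable def rx13533 : iz (BT.all2 (xchk xE) g13533 x13533) = true := by decide +kernel
noncomputable def rx13539 : iz (BT.all2 (xchk xE) g13539 x13539) = true := by decide +kernel
noncomputable def rx13547 : iz (BT.all2 (xchk xE) g13547 x13547) = true := by decide +kernel
noncomputable def rx13552 : iz (BT.all2 (xchk xE) g13552 x13552) = true := by decide +kernel
noncomputable def rx13558 : iz (BT.all2 (xchk xE) g13558 x13558) = true := by decide +kernel
noncomputable def rx13564 : iz (BT.all2 (xchk xE) g13564 x13564) = true := by decide +kernel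
noncomputable def rx13573 : iz (BT.all2 (xchk xE) g13573 x13573) = true := by decide +kernel
noncomputable def rx13581 : iz (BT.all2 (xchk xE) g13581 x13581) = true := by decide +kernel
noncomputable def rx13587 : iz (BT.all2 (xchk xE) g13587 x13587) = true := by decide +kernel
noncomputable def rx13596 : iz (BT.all2 (xchk xE) g13596 x13596) = true := by decide +kernel
noncomputable def rx13603 : iz (BT.all2 (xchk xE) g13603 x13603) = true := by decide +kernel
noncomputable def rx13611 : iz (BT.all2 (xchk xE) g13611 x13611) = true := by decide +kernel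
noncomputable def rx13618 : iz (BT.all2 (xchk xE) g13618 x13618) = true := by decide +kernel
noncomputable def rx13626 : iz (BT.all2 (xchk xE) g13626 x13626) = true := by decide +kernel
noncomputable def rx13628 : iz (BT.all2 (xchk xE) g13628 x13628) = true := by decide +kernel
noncomputable def rx13632 : iz (BT.all2 (xchk xE) g13632 x13632) = true := by decide +kernel
noncomputable def rx13634 : iz (BT.all2 (xchk xE) g13634 x13634) = true := by decide +kernel
noncomputable def rx13644 : iz (BT.all2 (xchk xE) g13644 x13644) = true := by decide +kernel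
noncomputable def rx13652 : iz (BT.all2 (xchk xE) g13652 x13652) = true := by decide +kernel
noncomputable def rx13662 : iz (BT.all2 (xchk xE) g13662 x13662) = true := by decide +kernel
noncomputable def rx13672 : iz (BT.all2 (xchk xE) g13672 x13672) = true := by decide +kernel
noncomputable def rx13678 : iz (BT.all2 (xchk xE) g13678 x13678) = true := by decide +kernel
noncomputable def rx13688 : iz (BT.all2 (xchk xE) g13688 x13688) = true := by decide +kernel
noncomputable def rx13697 : iz (BT.all2 (xchk xE) g13697 x13697) = true := by decide +kernel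
noncomputable def rx13703 : iz (BT.all2 (xchk xE) g13703 x13703) = true := by decide +kernel
noncomputable def rx13706 : iz (BT.all2 (xchk xE) g13706 x13706) = true := by decide +kernel
noncomputable def rx13712 : iz (BT.all2 (xchk xE) g13712 x13712) = true := by decide +kernel
noncomputable def rx13722 : iz (BT.all2 (xchk xE) g13722 x13722) = true := by decide +kernel
noncomputable def rx13730 : iz (BT.all2 (xchk xE) g13730 x13730) = true := by decide +kernel
noncomputable def rx13740 : iz (BT.all2 (xchk xE) g13740 x13740) = true := by decide +kernel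
noncomputable def rx13750 : iz (BT.all2 (xchk xE) g13750 x13750) = true := by decide +kernel
noncomputable def rx13759 : iz (BT.all2 (xchk xE) g13759 x13759) = true := by decide +kernel
noncomputable def rx13772 : iz (BT.all2 (xchk xE) g13772 x13772) = true := by decide +kernel
noncomputable def rx13781 : iz (BT.all2 (xchk xE) g13781 x13781) = true := by decide +kernel
noncomputable def rx13788 : iz (BT.all2 (xchk xE) g13788 x13788) = true := by decide +kernel
noncomputable def rx13794 : iz (BT.all2 (xchk xE) g13794 x13794) = true := by decide +kernel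
noncomputable def rx13800 : iz (BT.all2 (xchk xE) g13800 x13800) = true := by decide +kernel
noncomputable def rx13806 : iz (BT.all2 (xchk xE) g13806 x13806) = true := by decide +kernel
noncomputable def rx13815 : iz (BT.all2 (xchk xE) g13815 x13815) = true := by decide +kernel
noncomputable def rx13820 : iz (BT.all2 (xchk xE) g13820 x13820) = true := by decide +kernel
noncomputable def rx13826 : iz (BT.all2 (xchk xE) g13826 x13826) = true := by decide +kernel
noncomputable def rx13833 : iz (BT.all2 (xchk xE) g13833 x13833) = true := by decide +kernel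
noncomputable def rx13839 : iz (BT.all2 (xchk xE) g13839 x13839) = true := by decide +kernel
noncomputable def rx13846 : iz (BT.all2 (xchk xE) g13846 x13846) = true := by decide +kernel
noncomputable def rx13853 : iz (BT.all2 (xchk xE) g13853 x13853) = true := by decide +kernel
noncomputable def rx13864 : iz (BT.all2 (xchk xE) g13864 x13864) = true := by decide +kernel
noncomputable def rx13870 : iz (BT.all2 (xchk xE) g13870 x13870) = true := by decide +kernel
noncomputable def rx13878 : iz (BT.all2 (xchk xE) g13878 x13878) = true := by decide +kernel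
noncomputable def rx13887 : iz (BT.all2 (xchk xE) g13887 x13887) = true := by decide +kernel
noncomputable def rx13893 : iz (BT.all2 (xchk xE) g13893 x13893) = true := by decide +kernel
noncomputable def rx13899 : iz (BT.all2 (xchk xE) g13899 x13899) = true := by decide +kernel
noncomputable def rx13903 : iz (BT.all2 (xchk xE) g13903 x13903) = true := by decide +kernel
noncomputable def rx13913 : iz (BT.all2 (xchk xE) g13913 x13913) = true := by decide +kernel
noncomputable def rx13924 : iz (BT.all2 (xchk xE) g13924 x13924) = true := by decide +kernel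
noncomputable def rx13930 : iz (BT.all2 (xchk xE) g13930 x13930) = true := by decide +kernel
noncomputable def rx13938 : iz (BT.all2 (xchk xE) g13938 x13938) = true := by decide +kernel
noncomputable def rx13944 : iz (BT.all2 (xchk xE) g13944 x13944) = true := by decide +kernel
noncomputable def rx13950 : iz (BT.all2 (xchk xE) g13950 x13950) = true := by decide +kernel
noncomputable def rx13957 : iz (BT.all2 (xchk xE) g13957 x13957) = true := by decide +kernel
noncomputable def rx13964 : iz (BT.all2 (xchk xE) g13964 x13964) = true := by decide +kernel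
noncomputable def rx13970 : iz (BT.all2 (xchk xE) g13970 x13970) = true := by decide +kernel
noncomputable def rx13979 : iz (BT.all2 (xchk xE) g13979 x13979) = true := by decide +kernel
noncomputable def rx13988 : iz (BT.all2 (xchk xE) g13988 x13988) = true := by decide +kernel
noncomputable def rx13995 : iz (BT.all2 (xchk xE) g13995 x13995) = true := by decide +kernel
noncomputable def rx14000 : iz (BT.all2 (xchk xE) g14000 x14000) = true := by decide +kernel
noncomputable def rx14005 : iz (BT.all2 (xchk xE) g14005 x14005) = true := by decide +kernel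
noncomputable def rx14011 : iz (BT.all2 (xchk xE) g14011 x14011) = true := by decide +kernel
noncomputable def rx14017 : iz (BT.all2 (xchk xE) g14017 x14017) = true := by decide +kernel
noncomputable def rx14023 : iz (BT.all2 (xchk xE) g14023 x14023) = true := by decide +kernel
noncomputable def rx14029 : iz (BT.all2 (xchk xE) g14029 x14029) = true := by decide +kernel
noncomputable def rx14034 : iz (BT.all2 (xchk xE) g14034 x14034) = true := by decide +kernel
noncomputable def rx14040 : iz (BT.all2 (xchk xE) g14040 x14040) = true := by decide +kernel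
noncomputable def rx14050 : iz (BT.all2 (xchk xE) g14050 x14050) = true := by decide +kernel
noncomputable def rx14055 : iz (BT.all2 (xchk xE) g14055 x14055) = true := by decide +kernel
noncomputable def rx14062 : iz (BT.all2 (xchk xE) g14062 x14062) = true := by decide +kernel
noncomputable def rx14068 : iz (BT.all2 (xchk xE) g14068 x14068) = true := by decide +kernel
noncomputable def rx14074 : iz (BT.all2 (xchk xE) g14074 x14074) = true := by decide +kernel
noncomputable def rx14080 : iz (BT.all2 (xchk xE) g14080 x14080) = true := by decide +kernel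
noncomputable def rx14088 : iz (BT.all2 (xchk xE) g14088 x14088) = true := by decide +kernel
noncomputable def rx14092 : iz (BT.all2 (xchk xE) g14092 x14092) = true := by decide +kernel
noncomputable def rx14098 : iz (BT.all2 (xchk xE) g14098 x14098) = true := by decide +kernel
noncomputable def rx14101 : iz (BT.all2 (xchk xE) g14101 x14101) = true := by decide +kernel
noncomputable def rx14106 : iz (BT.all2 (xchk xE) g14106 x14106) = true := by decide +kernel
noncomputable def rx14112 : iz (BT.all2 (xchk xE) g14112 x14112) = true := by decide +kernel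
noncomputable def rx14119 : iz (BT.all2 (xchk xE) g14119 x14119) = true := by decide +kernel
noncomputable def rx14125 : iz (BT.all2 (xchk xE) g14125 x14125) = true := by decide +kernel
noncomputable def rx14131 : iz (BT.all2 (xchk xE) g14131 x14131) = true := by decide +kernel
noncomputable def rx14137 : iz (BT.all2 (xchk xE) g14137 x14137) = true := by decide +kernel
noncomputable def rx14143 : iz (BT.all2 (xchk xE) g14143 x14143) = true := by decide +kernel
noncomputable def rx14148 : iz (BT.all2 (xchk xE) g14148 x14148) = true := by decide +kernel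
noncomputable def rx14155 : iz (BT.all2 (xchk xE) g14155 x14155) = true := by decide +kernel
noncomputable def rx14161 : iz (BT.all2 (xchk xE) g14161 x14161) = true := by decide +kernel
noncomputable def rx14170 : iz (BT.all2 (xchk xE) g14170 x14170) = true := by decide +kernel
noncomputable def rx14176 : iz (BT.all2 (xchk xE) g14176 x14176) = true := by decide +kernel
noncomputable def rx14184 : iz (BT.all2 (xchk xE) g14184 x14184) = true := by decide +kernel
noncomputable def rx14191 : iz (BT.all2 (xchk xE) g14191 x14191) = true := by decide +kernel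
noncomputable def rx14194 : iz (BT.all2 (xchk xE) g14194 x14194) = true := by decide +kernel
noncomputable def rx14200 : iz (BT.all2 (xchk xE) g14200 x14200) = true := by decide +kernel
noncomputable def rx14204 : iz (BT.all2 (xchk xE) g14204 x14204) = true := by decide +kernel
noncomputable def rx14216 : iz (BT.all2 (xchk xE) g14216 x14216) = true := by decide +kernel
noncomputable def rx14221 : iz (BT.all2 (xchk xE) g14221 x14221) = true := by decide +kernel
noncomputable def rx14230 : iz (BT.all2 (xchk xE) g14230 x14230) = true := by decide +kernel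
noncomputable def rx14236 : iz (BT.all2 (xchk xE) g14236 x14236) = true := by decide +kernel
noncomputable def rx14245 : iz (BT.all2 (xchk xE) g14245 x14245) = true := by decide +kernel
noncomputable def rx14253 : iz (BT.all2 (xchk xE) g14253 x14253) = true := by decide +kernel
noncomputable def rx14258 : iz (BT.all2 (xchk xE) g14258 x14258) = true := by decide +kernel
noncomputable def rx14263 : iz (BT.all2 (xchk xE) g14263 x14263) = true := by decide +kernel
noncomputable def rx14269 : iz (BT.all2 (xchk xE) g14269 x14269) = true := by decide +kernel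
noncomputable def rx14275 : iz (BT.all2 (xchk xE) g14275 x14275) = true := by decide +kernel
noncomputable def rx14281 : iz (BT.all2 (xchk xE) g14281 x14281) = true := by decide +kernel
noncomputable def rx14289 : iz (BT.all2 (xchk xE) g14289 x14289) = true := by decide +kernel
noncomputable def rx14297 : iz (BT.all2 (xchk xE) g14297 x14297) = true := by decide +kernel
noncomputable def rx14302 : iz (BT.all2 (xchk xE) g14302 x14302) = true := by decide +kernel
noncomputable def rx14311 : iz (BT.all2 (xchk xE) g14311 x14311) = true := by decide +kernel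
noncomputable def rx14320 : iz (BT.all2 (xchk xE) g14320 x14320) = true := by decide +kernel
noncomputable def rx14326 : iz (BT.all2 (xchk xE) g14326 x14326) = true := by decide +kernel
noncomputable def rx14333 : iz (BT.all2 (xchk xE) g14333 x14333) = true := by decide +kernel
noncomputable def rx14339 : iz (BT.all2 (xchk xE) g14339 x14339) = true := by decide +kernel
noncomputable def rx14348 : iz (BT.all2 (xchk xE) g14348 x14348) = true := by decide +kernel
noncomputable def rx14357 : iz (BT.all2 (xchk xE) g14357 x14357) = true := by decide +kernel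
noncomputable def rx14366 : iz (BT.all2 (xchk xE) g14366 x14366) = true := by decide +kernel
noncomputable def rx14375 : iz (BT.all2 (xchk xE) g14375 x14375) = true := by decide +kernel
noncomputable def rx14381 : iz (BT.all2 (xchk xE) g14381 x14381) = true := by decide +kernel
noncomputable def rx14390 : iz (BT.all2 (xchk xE) g14390 x14390) = true := by decide +kernel
noncomputable def rx14403 : iz (BT.all2 (xchk xE) g14403 x14403) = true := by decide +kernel
noncomputable def rx14411 : iz (BT.all2 (xchk xE) g14411 x14411) = true := by decide +kernel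
noncomputable def rx14419 : iz (BT.all2 (xchk xE) g14419 x14419) = true := by decide +kernel
noncomputable def rx14425 : iz (BT.all2 (xchk xE) g14425 x14425) = true := by decide +kernel
noncomputable def rx14434 : iz (BT.all2 (xchk xE) g14434 x14434) = true := by decide +kernel
noncomputable def rx14440 : iz (BT.all2 (xchk xE) g14440 x14440) = true := by decide +kernel
noncomputable def rx14446 : iz (BT.all2 (xchk xE) g14446 x14446) = true := by decide +kernel
noncomputable def rx14454 : iz (BT.all2 (xchk xE) g14454 x14454) = true := by decide +kernel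
noncomputable def rx14464 : iz (BT.all2 (xchk xE) g14464 x14464) = true := by decide +kernel
noncomputable def rx14474 : iz (BT.all2 (xchk xE) g14474 x14474) = true := by decide +kernel
noncomputable def rx14480 : iz (BT.all2 (xchk xE) g14480 x14480) = true := by decide +kernel
noncomputable def rx14486 : iz (BT.all2 (xchk xE) g14486 x14486) = true := by decide +kernel
noncomputable def rx14491 : iz (BT.all2 (xchk xE) g14491 x14491) = true := by decide +kernel
noncomputable def rx14498 : iz (BT.all2 (xchk xE) g14498 x14498) = true := by decide +kernel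
noncomputable def rx14507 : iz (BT.all2 (xchk xE) g14507 x14507) = true := by decide +kernel
noncomputable def rx14513 : iz (BT.all2 (xchk xE) g14513 x14513) = true := by decide +kernel
noncomputable def rx14519 : iz (BT.all2 (xchk xE) g14519 x14519) = true := by decide +kernel
noncomputable def rx14524 : iz (BT.all2 (xchk xE) g14524 x14524) = true := by decide +kernel
noncomputable def rx14529 : iz (BT.all2 (xchk xE) g14529 x14529) = true := by decide +kernel
noncomputable def rx14535 : iz (BT.all2 (xchk xE) g14535 x14535) = true := by decide +kernel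
noncomputable def rx14541 : iz (BT.all2 (xchk xE) g14541 x14541) = true := by decide +kernel
noncomputable def rx14544 : iz (BT.all2 (xchk xE) g14544 x14544) = true := by decide +kernel
noncomputable def rx14550 : iz (BT.all2 (xchk xE) g14550 x14550) = true := by decide +kernel
noncomputable def rx14555 : iz (BT.all2 (xchk xE) g14555 x14555) = true := by decide +kernel
noncomputable def rx14561 : iz (BT.all2 (xchk xE) g14561 x14561) = true := by decide +kernel
noncomputable def rx14569 : iz (BT.all2 (xchk xE) g14569 x14569) = true := by decide +kernel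
noncomputable def rx14575 : iz (BT.all2 (xchk xE) g14575 x14575) = true := by decide +kernel
noncomputable def rx14584 : iz (BT.all2 (xchk xE) g14584 x14584) = true := by decide +kernel
noncomputable def rX9 : OK2 (xchk xE) tG9 tX9 := (ok2_nd (nat_lit 13964) (ok2_nd (nat_lit 13626) (ok2_nd (nat_lit 13459) (ok2_nd (nat_lit 13358) (ok2_nd (nat_lit 13309) (ok2_nd (nat_lit 13285) (ok2_nd (nat_lit 13279) (ok2_of rx13273) (ok2_of rx13279)) (ok2_nd (nat_lit 13291) (ok2_of rx13285) (ok2_nd (nat_lit 13300) (ok2_of rx13291) (ok2_of rx13300)))) (ok2_nd (nat_lit 13334) (ok2_nd (nat_lit 13319) (ok2_of rx13309) (ok2_nd (nat_lit 13328) (ok2_of rx13319) (ok2_of rx13328))) (ok2_nd (nat_lit 13342) (ok2_of rx13334) (ok2_nd (nat_lit 13352) (ok2_of rx13342) (ok2_of rx13352))))) (ok2_nd (nat_lit 13401) (ok2_nd (nat_lit 13376) (ok2_nd (nat_lit 13364) (ok2_of rx13358) (ok2_nd (nat_lit 13371) (ok2_of rx13364) (ok2_of rx13371))) (ok2_nd (nat_lit 13384) (ok2_of rx13376) (ok2_nd (nat_lit 13392) (ok2_of rx13384) (ok2_of rx13392)))) (ok2_nd (nat_lit 13428) (ok2_nd (nat_lit 13409) (ok2_of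 rx13401) (ok2_nd (nat_lit 13419) (ok2_of rx13409) (ok2_of rx13419))) (ok2_nd (nat_lit 13436) (ok2_of rx13428) (ok2_nd (nat_lit 13450) (ok2_of rx13436) (ok2_of rx13450)))))) (ok2_nd (nat_lit 13539) (ok2_nd (nat_lit 13502) (ok2_nd (nat_lit 13477) (ok2_nd (nat_lit 13467) (ok2_of rx13459) (ok2_of rx13467)) (ok2_nd (nat_lit 13487) (ok2_of rx13477) (ok2_nd (nat_lit 13493) (ok2_of rx13487) (ok2_of rx13493)))) (ok2_nd (nat_lit 13518) (ok2_nd (nat_lit 13506) (ok2_of rx13502) (ok2_nd (nat_lit 13509) (ok2_of rx13506) (ok2_of rx13509))) (ok2_nd (nat_lit 13527) (ok2_of rx13518) (ok2_nd (nat_lit 13533) (ok2_of rx13527) (ok2_of rx13533))))) (ok2_nd (nat_lit 13581) (ok2_nd (nat_lit 13558) (ok2_nd (nat_lit 13547) (ok2_of rx13539) (ok2_nd (nat_lit 13552) (ok2_of rx13547) (ok2_of rx13552))) (ok2_nd (nat_lit 13564) (ok2_of rx13558) (ok2_nd (nat_lit 13573) (ok2_of rx13564) (ok2_of rx13573)))) (ok2_nd (nat_lit 13603) (ok2_nd (nat_lit 13587) (ok2_of rx13581) (ok2_nd (nat_lit 13596) (ok2_of rx13587) (ok2_of rx13596))) (ok2_nd (nat_lit 13611) (ok2_of rx13603) (ok2_nd (nat_lit 13618)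 (ok2_of rx13611) (ok2_of rx13618))))))) (ok2_nd (nat_lit 13800) (ok2_nd (nat_lit 13703) (ok2_nd (nat_lit 13652) (ok2_nd (nat_lit 13632) (ok2_nd (nat_lit 13628) (ok2_of rx13626) (ok2_of rx13628)) (ok2_nd (nat_lit 13634) (ok2_of rx13632) (ok2_nd (nat_lit 13644) (ok2_of rx13634) (ok2_of rx13644)))) (ok2_nd (nat_lit 13678) (ok2_nd (nat_lit 13662) (ok2_of rx13652) (ok2_nd (nat_lit 13672) (ok2_of rx13662) (ok2_of rx13672))) (ok2_nd (nat_lit 13688) (ok2_of rx13678) (ok2_nd (nat_lit 13697) (ok2_of rx13688) (ok2_of rx13697))))) (ok2_nd (nat_lit 13750) (ok2_nd (nat_lit 13722) (ok2_nd (nat_lit 13706) (ok2_of rx13703) (ok2_nd (nat_lit 13712) (ok2_of rx13706) (ok2_of rx13712))) (ok2_nd (nat_lit 13730) (ok2_of rx13722) (ok2_nd (nat_lit 13740) (ok2_of rx13730) (ok2_of rx13740)))) (ok2_nd (nat_lit 13781) (ok2_nd (nat_lit 13759) (ok2_of rx13750) (ok2_nd (nat_lit 13772) (ok2_of rx13759) (ok2_of rx13772))) (ok2_nd (nat_lit 13788) (ok2_of rx13781) (ok2_nd (nat_lit 13794) (ok2_of rx13788) (ok2_of rx13794)))))) (ok2_nd (nat_lit 13878) (ok2_nd (nat_lit 13833) (ok2_nd (nat_lit 13815)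 (ok2_nd (nat_lit 13806) (ok2_of rx13800) (ok2_of rx13806)) (ok2_nd (nat_lit 13820) (ok2_of rx13815) (ok2_nd (nat_lit 13826) (ok2_of rx13820) (ok2_of rx13826)))) (ok2_nd (nat_lit 13853) (ok2_nd (nat_lit 13839) (ok2_of rx13833) (ok2_nd (nat_lit 13846) (ok2_of rx13839) (ok2_of rx13846))) (ok2_nd (nat_lit 13864) (ok2_of rx13853) (ok2_nd (nat_lit 13870) (ok2_of rx13864) (ok2_of rx13870))))) (ok2_nd (nat_lit 13924) (ok2_nd (nat_lit 13899) (ok2_nd (nat_lit 13887) (ok2_of rx13878) (ok2_nd (nat_lit 13893) (ok2_of rx13887) (ok2_of rx13893))) (ok2_nd (nat_lit 13903) (ok2_of rx13899) (ok2_nd (nat_lit 13913) (ok2_of rx13903) (ok2_of rx13913)))) (ok2_nd (nat_lit 13944) (ok2_nd (nat_lit 13930) (ok2_of rx13924) (ok2_nd (nat_lit 13938) (ok2_of rx13930) (ok2_of rx13938))) (ok2_nd (nat_lit 13950) (ok2_of rx13944) (ok2_nd (nat_lit 13957) (ok2_of rx13950) (ok2_of rx13957)))))))) (ok2_nd (nat_lit 14258) (ok2_nd (nat_lit 14106) (ok2_nd (nat_lit 14034) (ok2_nd (nat_lit 14000) (ok2_nd (nat_lit 13979) (ok2_nd (nat_lit 13970) (ok2_of rx13964) (ok2_of rx13970)) (ok2_nd (nat_lit 13988)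 (ok2_of rx13979) (ok2_nd (nat_lit 13995) (ok2_of rx13988) (ok2_of rx13995)))) (ok2_nd (nat_lit 14017) (ok2_nd (nat_lit 14005) (ok2_of rx14000) (ok2_nd (nat_lit 14011) (ok2_of rx14005) (ok2_of rx14011))) (ok2_nd (nat_lit 14023) (ok2_of rx14017) (ok2_nd (nat_lit 14029) (ok2_of rx14023) (ok2_of rx14029))))) (ok2_nd (nat_lit 14074) (ok2_nd (nat_lit 14055) (ok2_nd (nat_lit 14040) (ok2_of rx14034) (ok2_nd (nat_lit 14050) (ok2_of rx14040) (ok2_of rx14050))) (ok2_nd (nat_lit 14062) (ok2_of rx14055) (ok2_nd (nat_lit 14068) (ok2_of rx14062) (ok2_of rx14068)))) (ok2_nd (nat_lit 14092) (ok2_nd (nat_lit 14080) (ok2_of rx14074) (ok2_nd (nat_lit 14088) (ok2_of rx14080) (ok2_of rx14088))) (ok2_nd (nat_lit 14098) (ok2_of rx14092) (ok2_nd (nat_lit 14101) (ok2_of rx14098) (ok2_of rx14101)))))) (ok2_nd (nat_lit 14176) (ok2_nd (nat_lit 14137) (ok2_nd (nat_lit 14119) (ok2_nd (nat_lit 14112) (ok2_of rx14106) (ok2_of rx14112)) (ok2_nd (nat_lit 14125) (ok2_of rx14119) (ok2_nd (nat_lit 14131) (ok2_of rx14125) (ok2_of rx14131)))) (ok2_nd (nat_lit 14155) (ok2_nd (nat_lit 14143) (ok2_of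 rx14137) (ok2_nd (nat_lit 14148) (ok2_of rx14143) (ok2_of rx14148))) (ok2_nd (nat_lit 14161) (ok2_of rx14155) (ok2_nd (nat_lit 14170) (ok2_of rx14161) (ok2_of rx14170))))) (ok2_nd (nat_lit 14216) (ok2_nd (nat_lit 14194) (ok2_nd (nat_lit 14184) (ok2_of rx14176) (ok2_nd (nat_lit 14191) (ok2_of rx14184) (ok2_of rx14191))) (ok2_nd (nat_lit 14200) (ok2_of rx14194) (ok2_nd (nat_lit 14204) (ok2_of rx14200) (ok2_of rx14204)))) (ok2_nd (nat_lit 14236) (ok2_nd (nat_lit 14221) (ok2_of rx14216) (ok2_nd (nat_lit 14230) (ok2_of rx14221) (ok2_of rx14230))) (ok2_nd (nat_lit 14245) (ok2_of rx14236) (ok2_nd (nat_lit 14253) (ok2_of rx14245) (ok2_of rx14253))))))) (ok2_nd (nat_lit 14434) (ok2_nd (nat_lit 14333) (ok2_nd (nat_lit 14289) (ok2_nd (nat_lit 14269) (ok2_nd (nat_lit 14263) (ok2_of rx14258) (ok2_of rx14263)) (ok2_nd (nat_lit 14275) (ok2_of rx14269) (ok2_nd (nat_lit 14281) (ok2_of rx14275) (ok2_of rx14281)))) (ok2_nd (nat_lit 14311) (ok2_nd (nat_lit 14297) (ok2_of rx14289) (ok2_nd (nat_lit 14302) (ok2_of rx14297) (ok2_of rx14302))) (ok2_nd (nat_lit 14320) (ok2_of rx14311)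 (ok2_nd (nat_lit 14326) (ok2_of rx14320) (ok2_of rx14326))))) (ok2_nd (nat_lit 14381) (ok2_nd (nat_lit 14357) (ok2_nd (nat_lit 14339) (ok2_of rx14333) (ok2_nd (nat_lit 14348) (ok2_of rx14339) (ok2_of rx14348))) (ok2_nd (nat_lit 14366) (ok2_of rx14357) (ok2_nd (nat_lit 14375) (ok2_of rx14366) (ok2_of rx14375)))) (ok2_nd (nat_lit 14411) (ok2_nd (nat_lit 14390) (ok2_of rx14381) (ok2_nd (nat_lit 14403) (ok2_of rx14390) (ok2_of rx14403))) (ok2_nd (nat_lit 14419) (ok2_of rx14411) (ok2_nd (nat_lit 14425) (ok2_of rx14419) (ok2_of rx14425)))))) (ok2_nd (nat_lit 14519) (ok2_nd (nat_lit 14480) (ok2_nd (nat_lit 14454) (ok2_nd (nat_lit 14440) (ok2_of rx14434) (ok2_nd (nat_lit 14446) (ok2_of rx14440) (ok2_of rx14446))) (ok2_nd (nat_lit 14464) (ok2_of rx14454) (ok2_nd (nat_lit 14474) (ok2_of rx14464) (ok2_of rx14474)))) (ok2_nd (nat_lit 14498) (ok2_nd (nat_lit 14486) (ok2_of rx14480) (ok2_nd (nat_lit 14491) (ok2_of rx14486) (ok2_of rx14491))) (ok2_nd (nat_lit 14507) (ok2_of rx14498) (ok2_nd (nat_lit 14513) (ok2_of rx14507) (ok2_of rx14513))))) (ok2_nd (nat_lit 14550) (ok2_nd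 (nat_lit 14535) (ok2_nd (nat_lit 14524) (ok2_of rx14519) (ok2_nd (nat_lit 14529) (ok2_of rx14524) (ok2_of rx14529))) (ok2_nd (nat_lit 14541) (ok2_of rx14535) (ok2_nd (nat_lit 14544) (ok2_of rx14541) (ok2_of rx14544)))) (ok2_nd (nat_lit 14569) (ok2_nd (nat_lit 14555) (ok2_of rx14550) (ok2_nd (nat_lit 14561) (ok2_of rx14555) (ok2_of rx14561))) (ok2_nd (nat_lit 14575) (ok2_of rx14569) (ok2_nd (nat_lit 14584) (ok2_of rx14575) (ok2_of rx14584)))))))))

end Pool.Agent.MP_797bdc_co.Lk.Da
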