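import Pool.Agent.MP_797bdc_co.Lk.Stm

/-! Tokens reachable through gates. -/

namespace Pool.Agent.MP_797bdc_co.Lk

open Finset

namespace CB

variable {α : Type} [DecidableEq α]

/-- Tokens reachable from `r` through the gates satisfying `P`. -/
inductive Reach (S : Sys α) (G : Finset α) (P : Finset α → Prop) (r : α) : α → Prop
  | root : Reach S G P r r
  | step {q : Finset α} {t t' : α} : Gate S G q → P q → t ∈ q → t' ∈ q → t ∉ G → t' ∉ G →
      Reach S G P r t → Reach S G P r t'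

/-- All `G`-faces of `q` are in `X`. -/
def In (G : Finset α) (X : Set α) (q : Finset α) : Prop := ∀ f ∈ q, f ∈ G → f ∈ X

variable {S : Sys α} {G : Finset α} {P : Finset α → Prop} {r t t' : α} {q : Finset α}

/-- A gate has exactly two tokens. -/
lemma gate_two (h : Gate S G q) :
    ∃ t t', t ≠ t' ∧ ∀ s, s ∈ q ∧ s ∉ G ↔ s = t ∨ s = t' := by
  have h1 := card_sdiff_add_card_inter q G
  rw [h.2, S.Qcard q h.1] at h1
  obtain ⟨t, t', hne, e⟩ := card_eq_two.1 (show (q \ G).card = 2 by omega)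
  exact ⟨t, t', hne, fun s => by rw [← mem_sdiff, e, mem_insert, mem_singleton]⟩

/-- The second token of a gate. -/
lemma gate_other (h : Gate S G q) (t : α) : ∃ t' ∈ q, t' ∉ G ∧ t' ≠ t := by
  obtain ⟨a, b, hne, e⟩ := gate_two h
  by_cases ha : a = t
  · exact ⟨b, ((e b).2 (.inr rfl)).1, ((e b).2 (.inr rfl)).2, ha ▸ hne.symm⟩
  · exact ⟨a, ((e a).2 (.inl rfl)).1, ((e a).2 (.inl rfl)).2, ha⟩

lemma gate_tok (h : Gate S G q) (ht : t ∈ q) (ht' : t' ∈ q) (hG : t ∉ G) (hG' : t' ∉ G)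
    (hne : t ≠ t') {s : α} (hs : s ∈ q) (hsG : s ∉ G) : s = t ∨ s = t' := by
  obtain ⟨a, b, -, e⟩ := gate_two h
  rcases (e t).1 ⟨ht, hG⟩ with h1 | h1 <;> rcases (e t').1 ⟨ht', hG'⟩ with h2 | h2 <;>
    rcases (e s).1 ⟨hs, hsG⟩ with h3 | h3 <;> simp_all

lemma Reach.tok (hr : r ∉ G) (h : Reach S G P r t) : t ∉ G := by
  cases h with
  | root => exact hr
  | step _ _ _ _ _ h _ => exact h

lemma Reach.sub {P' : Finset α → Prop} {K : Set α} (hK : GClosed S G P' K)
    (hP : ∀ q, Gate S G q → P q → P' q) (hr : r ∈ K) (h : Reach S G P r t) : t ∈ K := by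
  induction h with
  | root => exact hr
  | step hq hp ht ht' hG hG' _ ih => exact hK _ hq (hP _ hq hp) _ ht _ ht' hG hG' ih

lemma Reach.trans (h : Reach S G P r t) (h' : Reach S G P t t') : Reach S G P r t' := by
  induction h' with
  | root => exact h
  | step hq hp ht ht' hG hG' _ ih => exact .step hq hp ht ht' hG hG' ih

lemma Reach.symm (h : Reach S G P r t) : Reach S G P t r := by
  induction h with
  | root => exact .root
  | step hq hp ht ht' hG hG' _ ih => exact (Reach.step hq hp ht' ht hG' hG .root).trans ih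

/-- Reachable tokens lie in the closure. -/
lemma Reach.cl {Y : Set α} (hP : ∀ q, Gate S G q → P q → ∀ f ∈ q, f ∈ G → Cl S.Q Y f)
    (hr : Cl S.Q Y r) (h : Reach S G P r t) : Cl S.Q Y t := by
  induction h with
  | root => exact hr
  | @step q t t' hq hp ht ht' hG hG' _ ih =>
    by_cases e : t = t'
    · exact e ▸ ih
    refine .step hq.1 ht' fun b hb hne => ?_
    by_cases hbG : b ∈ G
    · exact hP q hq hp b hb hbG
    · rcases gate_tok hq ht ht' hG hG' e hb hbG with rfl | rfl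
      · exact ih
      · exact absurd rfl hne

/-- An even function that vanishes on the faces of the gates is constant on reachable tokens. -/
lemma Reach.phi {φ : α → ZMod 2} (hφ : Ev S.Q φ)
    (hP : ∀ q, Gate S G q → P q → ∀ f ∈ q, f ∈ G → φ f = 0) (h : Reach S G P r t) : φ t = φ r := by
  induction h with
  | root => rfl
  | @step q t t' hq hp ht ht' hG hG' _ ih =>
    by_cases e : t = t'
    · exact e ▸ ih
    have h1 := hφ q hq.1
    rw [← sum_subset (s₁ := {t, t'}) (by simp [insert_subset_iff, ht, ht']), sum_pair e] at h1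
    · rw [← ih]
      have : ∀ x y : ZMod 2, x + y = 0 → y = x := by decide
      exact this _ _ h1
    · intro b hb hb'
      by_cases hbG : b ∈ G
      · exact hP q hq hp b hb hbG
      · exact absurd (by simpa using gate_tok hq ht ht' hG hG' e hb hbG) hb'

/-- parity of the number of members of `D` that contain `s` -/
def par (D : Finset (Finset α)) (s : α) : ZMod 2 := ∑ q ∈ D, if s ∈ q then 1 else 0

lemma even_of_par {D : Finset (Finset α)} {s : α} (h : par D s = 0) :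
    Even (D.filter (s ∈ ·)).card := by
  rw [par, sum_boole] at h
  exact ZMod.natCast_eq_zero_iff_even.1 h

lemma toggle (D : Finset (Finset α)) (q : Finset α) : ∃ D' : Finset (Finset α),
    (∀ p ∈ D', p ∈ D ∨ p = q) ∧ (∀ p ∈ D, p ≠ q → p ∈ D') ∧
      ∀ s, par D' s = par D s + if s ∈ q then 1 else 0 := by
  by_cases h : q ∈ D
  · refine ⟨D.erase q, fun p hp => .inl (mem_of_mem_erase hp), fun p hp hne => mem_erase.2 ⟨hne, hp⟩,
      fun s => ?_⟩
    rw [par, par, ← sum_erase_add D _ h, add_assoc, CharTwo.add_self_eq_zero, add_zero]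
  · refine ⟨insert q D, fun p hp => (mem_insert.1 hp).symm, fun p hp _ => mem_insert_of_mem hp,
      fun s => ?_⟩
    rw [par, par, sum_insert h, add_comm]

/-- Path lemma: a path from `r` to `t` added to `D₀`. -/
lemma Reach.path (h : Reach S G P r t) (D₀ : Finset (Finset α)) : ∃ D : Finset (Finset α),
    (∀ q ∈ D, q ∈ D₀ ∨ Gate S G q ∧ P q ∧ ∀ s ∈ q, s ∉ G → Reach S G P r s) ∧
      (∀ q ∈ D₀, ¬ P q → q ∈ D) ∧ ∀ s, s ∉ G →
        par D s = par D₀ s + ((if s = t then 1 else 0) + if s = r then 1 else 0) := by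
  induction h with
  | root => exact ⟨D₀, fun q hq => .inl hq, fun q hq _ => hq, fun s _ => by
      rw [CharTwo.add_self_eq_zero, add_zero]⟩
  | @step q t t' hq hp ht ht' hG hG' hr ih =>
    by_cases e : t = t'
    · exact e ▸ ih
    obtain ⟨D, h1, h2, h3⟩ := ih
    obtain ⟨D', g1, g2, g3⟩ := toggle D q
    refine ⟨D', fun p hp' => ?_, fun p hp' hn => g2 p (h2 p hp' hn) fun e => hn (e ▸ hp),
      fun s hs => ?_⟩
    · rcases g1 p hp' with h | rfl
      · exact h1 p h
      · exact .inr ⟨hq, hp, fun s hs hsG => .step hq hp ht hs hG hsG hr⟩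
    · rw [g3, h3 s hs]
      have k : ∀ x y : ZMod 2, x + (1 + y) + 1 = x + (0 + y) ∧ x + (0 + y) + 1 = x + (1 + y) := by
        decide
      by_cases e1 : s = t
      · rw [if_pos e1, if_pos (show s ∈ q from e1 ▸ ht), if_neg (show ¬ s = t' from e1 ▸ e)]
        exact (k _ _).1
      · by_cases e2 : s = t'
        · rw [if_neg e1, if_pos (show s ∈ q from e2 ▸ ht'), if_pos e2]
          exact (k _ _).2
        · rw [if_neg e1, if_neg e2, if_neg fun hsq =>
            (gate_tok hq ht ht' hG hG' e hsq hs).elim e1 e2, add_zero]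

/-- A gate outside `P` whose tokens are both reachable closes a token-even family. -/
lemma Reach.close {q₀ : Finset α} (hq : Gate S G q₀) (hn : ¬ P q₀)
    (h : ∀ s ∈ q₀, s ∉ G → Reach S G P r s) : ∃ D : Finset (Finset α), q₀ ∈ D ∧ TEven G D ∧
      ∀ q ∈ D, Gate S G q ∧ (q = q₀ ∨ P q) ∧ ∀ s ∈ q, s ∉ G → Reach S G P r s := by
  obtain ⟨a, b, hne, e⟩ := gate_two hq
  have ha := (e a).2 (.inl rfl)
  have hb := (e b).2 (.inr rfl)
  obtain ⟨D, h1, h2, h3⟩ := (h a ha.1 ha.2).path {q₀}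
  obtain ⟨D', g1, g2, g3⟩ := (h b hb.1 hb.2).path D
  refine ⟨D', g2 _ (h2 _ (mem_singleton_self _) hn) hn, fun s hs => even_of_par ?_, fun q hq' => ?_⟩
  · rw [g3 s hs, h3 s hs, par, sum_singleton]
    have k : ∀ y : ZMod 2, 1 + (1 + y) + (0 + y) = 0 ∧ 1 + (0 + y) + (1 + y) = 0 ∧
      0 + (0 + y) + (0 + y) = 0 := by decide
    by_cases e1 : s = a
    · rw [if_pos e1, if_pos (show s ∈ q₀ from e1 ▸ ha.1), if_neg (show ¬ s = b from e1 ▸ hne)]
      exact (k _).1
    · by_cases e2 : s = b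
      · rw [if_neg e1, if_pos (show s ∈ q₀ from e2 ▸ hb.1), if_pos e2]
        exact (k _).2.1
      · rw [if_neg e1, if_neg e2, if_neg fun hsq => ((e s).1 ⟨hsq, hs⟩).elim e1 e2]
        exact (k _).2.2
  · rcases g1 q hq' with h4 | h4
    · rcases h1 q h4 with h5 | h5
      · rw [mem_singleton.1 h5]
        exact ⟨hq, .inl rfl, h⟩
      · exact ⟨h5.1, .inr h5.2.1, h5.2.2⟩
    · exact ⟨h4.1, .inr h4.2.1, h4.2.2⟩

/-- The block property applied to a closing gate with the single missing face `m`. -/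
lemma Reach.bp {noLoc : Finset α → Prop} (hb : BPon S G noLoc fun _ => True) {X : Set α}
    (hX : FClosed S G X) {q₀ : Finset α} (hq : Gate S G q₀) {m : α} (hm : m ∈ q₀) (hmG : m ∈ G)
    (hmX : m ∉ X) (ho : ∀ f ∈ q₀, f ∈ G → f ≠ m → f ∈ X)
    (h : ∀ s ∈ q₀, s ∉ G → Reach S G (In G X) r s) :
    ¬ noLoc q₀ ∧ ∃ χ, Ev (FQ S G) χ ∧ (∀ a ∈ X, a ∈ G → χ a = 0) ∧ (∃ a ∈ G, χ a ≠ 0) ∧
      ∀ φ, Ev S.Q φ → (∀ a ∈ G, φ a = χ a) → ∃ t, Reach S G (In G X) r t ∧ t ∉ G ∧ φ t = 0 := by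
  obtain ⟨D, h0, h1, h2⟩ := Reach.close hq (fun hp => hmX (hp m hm hmG)) h
  obtain ⟨g0, χ, g1, g2, g3, g4⟩ := hb X hX D (fun q hq' => ⟨(h2 q hq').1, trivial⟩) h1 q₀ h0 m hm
    hmG hmX fun q hq' f hf hfG hfX => by
      rcases (h2 q hq').2.1 with rfl | hp
      · exact ⟨rfl, by_contra fun hne => hfX (ho f hf hfG hne)⟩
      · exact absurd (hp f hf hfG) hfX
  refine ⟨g0, χ, g1, g2, g3, fun φ hφ e => ?_⟩
  obtain ⟨q, hq', t, ht, htG, h⟩ := g4 φ hφ e
  exact ⟨t, (h2 q hq').2.2 t ht htG, htG, h⟩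

lemma cl_sub {R : Finset α} (hR : R ⊆ G) {a : α} (h : Cl (FQ S G) (R : Set α) a) : a ∈ G := by
  cases h with
  | base h => exact hR h
  | step hq ha _ => exact hq.2 ha

lemma cl_closed (Y : Set α) : FClosed S G {a | Cl (FQ S G) Y a} :=
  fun _ hq _ ha h => Cl.step hq ha h

/-- all faces but one lie in `G` -/
lemma three_le (hq : S.Q q) {a : α} (h : ∀ b ∈ q, b ≠ a → b ∈ G) : 3 ≤ (q ∩ G).card := by
  have h1 : q.erase a ⊆ q ∩ G := fun b hb =>
    mem_inter.2 ⟨mem_of_mem_erase hb, h b (mem_of_mem_erase hb) (ne_of_mem_erase hb)⟩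
  have h2 := card_le_card h1
  have h3 := pred_card_le_card_erase (s := q) (a := a)
  rw [S.Qcard q hq] at h3
  omega

end CB

end Pool.Agent.MP_797bdc_co.Lk
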