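import Pool.Agent.MP_797bdc_co.Lk.Stm

/-! Representation of the face set by link bit matrices. -/

namespace Pool.Agent.MP_797bdc_co.Lk

open Finset

/-- Bit `n * b + c` of `M a` says that `{a, b, c}` is a face. -/
def bit (n : ℕ) (M : ℕ → ℕ) (a b c : ℕ) : Bool := (M a).testBit (n * b + c)

def Gd (n : ℕ) (M : ℕ → ℕ) : Finset (Finset ℕ) :=
  (Om n).filter (fun s => ∃ a ∈ s, ∃ b ∈ s, ∃ c ∈ s, a < b ∧ b < c ∧ bit n M a b c = true)

def SymM (n : ℕ) (M : ℕ → ℕ) : Prop :=
  (∀ a < n, M a < 2 ^ (n * n)) ∧ ∀ a < n, ∀ b < n, ∀ c < n, bit n M a b c = true →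
    a ≠ b ∧ a ≠ c ∧ b ≠ c ∧ bit n M b a c = true ∧ bit n M a c b = true

theorem mem_Gd {n : ℕ} {M : ℕ → ℕ} (h : SymM n M) {a b c : ℕ} (ha : a < n) (hb : b < n)
    (hc : c < n) : ({a, b, c} : Finset ℕ) ∈ Gd n M ↔ bit n M a b c = true := by
  have p1 : ∀ {a b c : ℕ}, a < n → b < n → c < n → bit n M a b c = true → bit n M b a c = true :=
    fun ha hb hc hh => (h.2 _ ha _ hb _ hc hh).2.2.2.1
  have p2 : ∀ {a b c : ℕ}, a < n → b < n → c < n → bit n M a b c = true → bit n M a c b = true :=
    fun ha hb hc hh => (h.2 _ ha _ hb _ hc hh).2.2.2.2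
  constructor
  · intro hm
    simp only [Gd, mem_filter, mem_insert, mem_singleton] at hm
    obtain ⟨-, x, hx, y, hy, z, hz, hxy, hyz, hb'⟩ := hm
    rcases hx with rfl | rfl | rfl <;> rcases hy with rfl | rfl | rfl <;>
      rcases hz with rfl | rfl | rfl <;> first
      | omega
      | exact hb'
      | exact p2 ha hc hb hb'
      | exact p1 hb ha hc hb'
      | exact p1 hb ha hc (p2 hb hc ha hb')
      | exact p2 ha hc hb (p1 hc ha hb hb')
      | exact p1 hb ha hc (p2 hb hc ha (p1 hc hb ha hb'))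
  · intro hh
    obtain ⟨hab, hac, hbc, -, -⟩ := h.2 _ ha _ hb _ hc hh
    simp only [Gd, Om, mem_filter, mem_powersetCard]
    refine ⟨⟨?_, card_eq_three.2 ⟨a, b, c, hab, hac, hbc, rfl⟩⟩, ?_⟩
    · intro x hx
      simp only [mem_insert, mem_singleton] at hx
      rcases hx with rfl | rfl | rfl <;> simpa
    · have q1 := p1 ha hb hc hh
      have q2 := p2 ha hb hc hh
      have q3 := p2 hb ha hc q1
      have q4 := p1 ha hc hb q2
      have q5 := p1 hb hc ha q3
      rcases lt_or_gt_of_ne hab with h1 | h1 <;> rcases lt_or_gt_of_ne hac with h2 | h2 <;>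
        rcases lt_or_gt_of_ne hbc with h3 | h3
      all_goals first
        | omega
        | exact ⟨a, by simp, b, by simp, c, by simp, by omega, by omega, hh⟩
        | exact ⟨a, by simp, c, by simp, b, by simp, by omega, by omega, q2⟩
        | exact ⟨b, by simp, a, by simp, c, by simp, by omega, by omega, q1⟩
        | exact ⟨b, by simp, c, by simp, a, by simp, by omega, by omega, q3⟩
        | exact ⟨c, by simp, a, by simp, b, by simp, by omega, by omega, q4⟩
        | exact ⟨c, by simp, b, by simp, a, by simp, by omega, by omega, q5⟩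

end Pool.Agent.MP_797bdc_co.Lk
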