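import Pool.Agent.MP_797bdc_co.Lk.Stm

/-! Segments of a zone. -/

namespace Pool.Agent.MP_797bdc_co.Lk

open Finset

namespace SEG

/-- Four different vertices. -/
def Dif (a b c d : ℕ) : Prop := a ≠ b ∧ a ≠ c ∧ a ≠ d ∧ b ≠ c ∧ b ≠ d ∧ c ≠ d

theorem card4 {a b c d : ℕ} (h : Dif a b c d) : ({a, b, c, d} : Finset ℕ).card = 4 := by
  obtain ⟨h1, h2, h3, h4, h5, h6⟩ := h
  simp [*]

theorem mem_qd {a b c d : ℕ} (h : Dif a b c d) {f : Finset ℕ} : f ∈ qd a b c d ↔
    f = {a, c, d} ∨ f = {b, c, d} ∨ f = {a, b, c} ∨ f = {a, b, d} := by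
  have h4 := card4 h
  obtain ⟨h1, h2, h3, h4', h5, h6⟩ := h
  rw [qd, mem_powersetCard]
  constructor
  · rintro ⟨hs, hc⟩
    obtain ⟨x, hx, hn⟩ := exists_mem_notMem_of_card_lt_card (s := f) (t := {a, b, c, d}) (by omega)
    have e : f = ({a, b, c, d} : Finset ℕ).erase x :=
      eq_of_subset_of_card_le (subset_erase.2 ⟨hs, hn⟩) (by rw [card_erase_of_mem hx]; omega)
    simp only [mem_insert, mem_singleton] at hx
    rcases hx with rfl | rfl | rfl | rfl
    · refine Or.inr (Or.inl (e.trans ?_))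
      ext y; simp only [mem_erase, mem_insert, mem_singleton]; omega
    · refine Or.inl (e.trans ?_)
      ext y; simp only [mem_erase, mem_insert, mem_singleton]; omega
    · refine Or.inr (Or.inr (Or.inr (e.trans ?_)))
      ext y; simp only [mem_erase, mem_insert, mem_singleton]; omega
    · refine Or.inr (Or.inr (Or.inl (e.trans ?_)))
      ext y; simp only [mem_erase, mem_insert, mem_singleton]; omega
  · rintro (rfl | rfl | rfl | rfl) <;>
      exact ⟨by intro y; simp only [mem_insert, mem_singleton]; omega, by simp [*]⟩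

/-- Indicator of an equality. -/
def ind (f s : Finset ℕ) : ZMod 2 := if f = s then 1 else 0

theorem ind_qd {a b c d : ℕ} (h : Dif a b c d) (f : Finset ℕ) :
    (if f ∈ qd a b c d then 1 else 0 : ZMod 2) =
      ind f {a, c, d} + ind f {b, c, d} + ind f {a, b, c} + ind f {a, b, d} := by
  have hm := mem_qd h (f := f)
  obtain ⟨h1, h2, h3, h4, h5, h6⟩ := h
  have ne : ∀ {s t : Finset ℕ} (x : ℕ), x ∈ s → x ∉ t → s ≠ t ∧ t ≠ s := fun x p q =>
    ⟨fun e => q (e ▸ p), fun e => q (e ▸ p)⟩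
  have n1 := ne (s := {a, c, d}) (t := {b, c, d}) a (by simp) (by simp [*])
  have n2 := ne (s := {a, c, d}) (t := {a, b, c}) d (by simp) (by simp; omega)
  have n3 := ne (s := {a, c, d}) (t := {a, b, d}) c (by simp) (by simp; omega)
  have n4 := ne (s := {b, c, d}) (t := {a, b, c}) d (by simp) (by simp; omega)
  have n5 := ne (s := {b, c, d}) (t := {a, b, d}) c (by simp) (by simp; omega)
  have n6 := ne (s := {a, b, c}) (t := {a, b, d}) c (by simp) (by simp; omega)
  by_cases hf : f ∈ qd a b c d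
  · rw [if_pos hf]
    rcases hm.1 hf with rfl | rfl | rfl | rfl <;>
      simp [ind, n1.1, n1.2, n2.1, n2.2, n3.1, n3.2, n4.1, n4.2, n5.1, n5.2, n6.1, n6.2]
  · rw [if_neg hf]
    rw [hm] at hf
    push Not at hf
    simp [ind, hf.1, hf.2.1, hf.2.2.1, hf.2.2.2]

variable {Z : Zn} {n root : ℕ} {par : ℕ → ℕ} {G : Finset (Finset ℕ)}

theorem m4 (t : ℕ) : t % 4 < 4 := Nat.mod_lt _ (by omega)

theorem dif (H : Z.OK n root par G) {j p q i : ℕ} (hj : j < Z.J) (hpq : p < q) (hq : q < Z.L j)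
    (hi : i < 4) : Dif (Z.rim j p) (Z.rim j q) (Z.c j i) (Z.c j ((i + 1) % 4)) :=
  ⟨fun m => by have := H.ri j hj p (by omega) q hq m; omega, H.rc j hj p (by omega) i hi,
    H.rc j hj p (by omega) _ (m4 _), H.rc j hj q hq i hi, H.rc j hj q hq _ (m4 _),
    fun m => by have := H.ci j hj i hi _ (m4 _) m; omega⟩

theorem mem_tet (H : Z.OK n root par G) {j p i : ℕ} (hj : j < Z.J) (hp : p + 1 < Z.L j)
    (hi : i < 4) {f : Finset ℕ} : f ∈ Z.tet j p i ↔ f = Z.nf j p i ∨ f = Z.nf j (p + 1) i ∨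
      f = Z.rf j p i ∨ f = Z.rf j p ((i + 1) % 4) :=
  mem_qd (dif H hj (Nat.lt_succ_self p) hp hi)

theorem face (H : Z.OK n root par G) {j p i : ℕ} (hj : j < Z.J) (hp : p + 1 < Z.L j)
    (hi : i < 4) {f : Finset ℕ} (hf : f ∈ Z.tet j p i) : f ∈ G ∧ Z.lab f / 2 = j + 1 := by
  rcases (mem_tet H hj hp hi).1 hf with rfl | rfl | rfl | rfl
  · exact (H.nfG j hj p (by omega) i hi).imp_right And.left
  · exact (H.nfG j hj _ hp i hi).imp_right And.left
  · exact (H.rfG j hj p hp i hi).imp_right fun m => by omega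
  · exact (H.rfG j hj p hp _ (m4 _)).imp_right fun m => by omega

theorem nf_inj (H : Z.OK n root par G) {j p q i l : ℕ} (hj : j < Z.J) (hp : p < Z.L j)
    (hq : q < Z.L j) (hi : i < 4) (hl : l < 4) (e : Z.nf j p i = Z.nf j q l) : p = q ∧ i = l := by
  have key : ∀ t < 4, Z.c j t ∈ Z.nf j q l → t = l ∨ t = (l + 1) % 4 := fun t ht m => by
    simp only [Zn.nf, mem_insert, mem_singleton] at m
    rcases m with m | m | m
    · exact absurd m.symm (H.rc j hj q hq t ht)
    · exact Or.inl (H.ci j hj t ht l hl m)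
    · exact Or.inr (H.ci j hj t ht _ (m4 _) m)
  have e1 := key i hi (e ▸ by simp [Zn.nf])
  have e2 := key _ (m4 (i + 1)) (e ▸ by simp [Zn.nf])
  refine ⟨?_, by omega⟩
  have m : Z.rim j p ∈ Z.nf j q l := e ▸ by simp [Zn.nf]
  simp only [Zn.nf, mem_insert, mem_singleton] at m
  rcases m with m | m | m
  · exact H.ri j hj p hp q hq m
  · exact absurd m (H.rc j hj p hp l hl)
  · exact absurd m (H.rc j hj p hp _ (m4 _))

theorem nf_rf (H : Z.OK n root par G) {j p q i l : ℕ} (hj : j < Z.J) (hq : q + 1 < Z.L j)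
    (hi : i < 4) (hl : l < 4) : Z.nf j p i ≠ Z.rf j q l := fun e => by
  have key : ∀ t < 4, Z.c j t ∈ Z.rf j q l → t = l := fun t ht m => by
    simp only [Zn.rf, mem_insert, mem_singleton] at m
    rcases m with m | m | m
    · exact absurd m.symm (H.rc j hj q (by omega) t ht)
    · exact absurd m.symm (H.rc j hj _ hq t ht)
    · exact H.ci j hj t ht l hl m
  have e1 := key i hi (e ▸ by simp [Zn.nf])
  have e2 := key _ (m4 (i + 1)) (e ▸ by simp [Zn.nf])
  omega

theorem tet_inj (H : Z.OK n root par G) {j p q i l : ℕ} (hj : j < Z.J) (hp : p + 1 < Z.L j)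
    (hq : q + 1 < Z.L j) (hi : i < 4) (hl : l < 4) (e : Z.tet j p i = Z.tet j q l) :
    p = q ∧ i = l := by
  have key : ∀ t < Z.L j, Z.nf j t i ∈ Z.tet j q l → (t = q ∨ t = q + 1) ∧ i = l := fun t ht m => by
    rcases (mem_tet H hj hq hl).1 m with m | m | m | m
    · exact (nf_inj H hj ht (by omega) hi hl m).imp_left Or.inl
    · exact (nf_inj H hj ht hq hi hl m).imp_left Or.inr
    · exact absurd m (nf_rf H hj hq hi hl)
    · exact absurd m (nf_rf H hj hq hi (m4 _))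
  have e1 := key p (by omega) (e ▸ (mem_tet H hj hp hi).2 (Or.inl rfl))
  have e2 := key _ hp (e ▸ (mem_tet H hj hp hi).2 (Or.inr (Or.inl rfl)))
  omega

theorem mem_seg {j p0 p1 : ℕ} {τ : Finset (Finset ℕ)} (h : τ ∈ Z.seg j p0 p1) :
    ∃ p i, p0 ≤ p ∧ p < p1 ∧ i < 4 ∧ τ = Z.tet j p i := by
  obtain ⟨x, hx, rfl⟩ := mem_image.1 h
  rw [mem_product, mem_Ico, mem_range] at hx
  exact ⟨x.1, x.2, hx.1.1, hx.1.2, hx.2, rfl⟩

theorem ring_sum (H : Z.OK n root par G) {j p q : ℕ} (hj : j < Z.J) (hpq : p < q) (hq : q < Z.L j)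
    (f : Finset ℕ) : ∑ i ∈ range 4, (if f ∈ qd (Z.rim j p) (Z.rim j q) (Z.c j i)
      (Z.c j ((i + 1) % 4)) then 1 else 0 : ZMod 2) =
      ∑ i ∈ range 4, ind f (Z.nf j p i) + ∑ i ∈ range 4, ind f (Z.nf j q i) := by
  rw [sum_congr rfl fun i hi => ind_qd (dif H hj hpq hq (mem_range.1 hi)) f]
  simp only [sum_range_succ, sum_range_zero, Zn.nf, Nat.reduceAdd, Nat.reduceMod]
  have two : (2 : ZMod 2) = 0 := rfl
  linear_combination (ind f {Z.rim j p, Z.rim j q, Z.c j 0} + ind f {Z.rim j p, Z.rim j q, Z.c j 1} +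
    ind f {Z.rim j p, Z.rim j q, Z.c j 2} + ind f {Z.rim j p, Z.rim j q, Z.c j 3}) * two

theorem tele (A : ℕ → ZMod 2) {p0 p1 : ℕ} (h : p0 ≤ p1) :
    ∑ p ∈ Ico p0 p1, (A p + A (p + 1)) = A p0 + A p1 := by
  have two : (2 : ZMod 2) = 0 := rfl
  induction p1, h using Nat.le_induction with
  | base => simp only [Ico_self, sum_empty]; linear_combination (-A p0) * two
  | succ k hk ih => rw [sum_Ico_succ_top hk, ih]; linear_combination (A k) * two

end SEG

open SEG in
theorem seg : SEG_s := by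
  intro Z n hd root par G H
  refine ⟨fun cs C => ⟨?_, ?_, ?_⟩, fun j hj p0 p1 h01 h1 _ f _ => ?_⟩
  · rintro τ ⟨x, hx, hτ⟩
    obtain ⟨p, i, a, b, c, rfl⟩ := mem_seg hτ
    obtain ⟨c1, c2, c3⟩ := C.1 x hx
    have hp : p + 1 < Z.L x.1 := by omega
    refine ⟨⟨_, ?_, card4 (dif H c1 (Nat.lt_succ_self p) hp c), rfl⟩, fun f hf => (face H c1 hp c hf).1⟩
    intro y hy
    simp only [mem_insert, mem_singleton] at hy
    rw [mem_range]
    rcases hy with rfl | rfl | rfl | rfl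
    exacts [H.rn _ c1 p (by omega), H.rn _ c1 _ hp, H.cn _ c1 i c, H.cn _ c1 _ (m4 _)]
  · rintro f τ ⟨x, hx, hτ⟩ τ' ⟨y, hy, hτ'⟩ hne hf hf'
    obtain ⟨p, i, a, b, c, rfl⟩ := mem_seg hτ
    obtain ⟨q, l, a', b', c', rfl⟩ := mem_seg hτ'
    obtain ⟨c1, c2, c3⟩ := C.1 x hx
    obtain ⟨d1, d2, d3⟩ := C.1 y hy
    have hp : p + 1 < Z.L x.1 := by omega
    have hq : q + 1 < Z.L y.1 := by omega
    have l1 := (face H c1 hp c hf).2
    have l2 := (face H d1 hq c' hf').2
    obtain rfl : x = y := C.2 x hx y hy (by omega)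
    refine ⟨x, hx, ?_⟩
    have hpq : i = l → p ≠ q := by
      rintro rfl rfl
      exact hne rfl
    rcases (mem_tet H c1 hp c).1 hf with e | e | e | e
    rotate_left 2
    · exact Or.inr ⟨p, i, hp, c, e⟩
    · exact Or.inr ⟨p, _, hp, m4 _, e⟩
    all_goals
      rcases (mem_tet H c1 hq c').1 hf' with e' | e' | e' | e'
      rotate_left 2
      · exact Or.inr ⟨q, l, hq, c', e'⟩
      · exact Or.inr ⟨q, _, hq, m4 _, e'⟩
      all_goals
        obtain ⟨k1, k2⟩ := nf_inj H c1 (by omega) (by omega) c c' (e.symm.trans e')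
        have := hpq k2
        exact Or.inl ⟨_, i, ⟨c1, by omega, by omega⟩, by omega, by omega, c, e⟩
  · rintro f τ ⟨x, hx, hτ⟩ hf
    obtain ⟨p, i, a, b, c, rfl⟩ := mem_seg hτ
    obtain ⟨c1, c2, c3⟩ := C.1 x hx
    have := (face H c1 (by omega) c hf).2
    omega
  · rw [← ZMod.natCast_eq_zero_iff_even, Zn.seg, filter_image, card_image_of_injOn, Nat.cast_add,
      card_filter, card_filter]
    · push_cast
      have e : ∑ x ∈ Ico p0 p1 ×ˢ range 4, (if f ∈ Z.tet j x.1 x.2 then 1 else 0 : ZMod 2) =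
          ∑ i ∈ range 4, ind f (Z.nf j p0 i) + ∑ i ∈ range 4, ind f (Z.nf j p1 i) := by
        rw [sum_product, ← tele (fun p => ∑ i ∈ range 4, ind f (Z.nf j p i)) h01.le]
        exact sum_congr rfl fun p hp => ring_sum H hj (Nat.lt_succ_self p)
          (by have := (mem_Ico.1 hp).2; omega) f
      rw [ring_sum H hj h01 h1, e]
      exact CharTwo.add_self_eq_zero _
    · intro x hx y hy e
      simp only [coe_filter, mem_product, mem_Ico, mem_range, Set.mem_ofPred_eq] at hx hy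
      have := tet_inj H hj (by omega) (by omega) hx.1.2 hy.1.2 e
      exact Prod.ext this.1 this.2

end Pool.Agent.MP_797bdc_co.Lk
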