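import Pool.Agent.MP_797bdc_co.Lk.Stm

/-! Three small rows: edge cocycles, cone cascades, face ranks. -/

namespace Pool.Agent.MP_797bdc_co.Lk

open Finset

namespace SMALL

lemma pc_eq {s : Finset ℕ} (hs : s.card = 4) : powersetCard 3 s = s.image s.erase := by
  ext b
  rw [mem_powersetCard, mem_image]
  constructor
  · rintro ⟨h1, h2⟩
    obtain ⟨z, hz, hz'⟩ := exists_mem_notMem_of_card_lt_card (s := b) (t := s) (by omega)
    refine ⟨z, hz, (eq_of_subset_of_card_le (subset_erase.2 ⟨h1, hz'⟩) ?_).symm⟩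
    rw [card_erase_of_mem hz]
    omega
  · rintro ⟨z, hz, rfl⟩
    exact ⟨erase_subset _ _, by rw [card_erase_of_mem hz, hs]⟩

lemma quad {n w : ℕ} {f : Finset ℕ} (hf : f ∈ Om n) (hw : w < n) (hwf : w ∉ f) :
    Qn n (powersetCard 3 (insert w f)) ∧ f ∈ powersetCard 3 (insert w f) ∧
      ∀ b ∈ powersetCard 3 (insert w f), b ≠ f → ∃ x ∈ f, b = insert w (f.erase x) := by
  obtain ⟨h1, h2⟩ := mem_powersetCard.1 hf
  have h4 : (insert w f).card = 4 := by rw [card_insert_of_notMem hwf, h2]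
  refine ⟨⟨_, insert_subset (mem_range.2 hw) h1, h4, rfl⟩,
    mem_powersetCard.2 ⟨subset_insert _ _, h2⟩, fun b hb hne => ?_⟩
  rw [pc_eq h4, mem_image] at hb
  obtain ⟨z, hz, rfl⟩ := hb
  rcases mem_insert.1 hz with rfl | hz
  · exact absurd (erase_insert hwf) hne
  · exact ⟨z, hz, erase_insert_of_ne fun e => hwf (e ▸ hz)⟩

lemma tri {n a b c : ℕ} (ha : a < n) (hb : b < n) (hc : c < n) (h1 : a ≠ b) (h2 : a ≠ c)
    (h3 : b ≠ c) : ({a, b, c} : Finset ℕ) ∈ Om n :=
  mem_powersetCard.2 ⟨by simp [insert_subset_iff, ha, hb, hc], card_eq_three.2 ⟨a, b, c, h1, h2, h3, rfl⟩⟩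

end SMALL

open SMALL

theorem kap : KAP_s := by
  rintro n x y hxy q ⟨s, -, hs, rfl⟩
  rw [pc_eq hs, sum_image (erase_injOn s), sum_boole]
  by_cases h : x ∈ s ∧ y ∈ s
  · have e : s.filter (fun z => x ∈ s.erase z ∧ y ∈ s.erase z) = (s.erase x).erase y := by
      ext z
      simp only [mem_filter, mem_erase, h.1, h.2, and_true]
      constructor
      · rintro ⟨a, b, c⟩
        exact ⟨c.symm, b.symm, a⟩
      · rintro ⟨a, b, c⟩
        exact ⟨c, b.symm, a.symm⟩
    rw [e, card_erase_of_mem (mem_erase.2 ⟨hxy.symm, h.2⟩), card_erase_of_mem h.1, hs]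
    rfl
  · rw [filter_eq_empty_iff.2 fun z _ hz => h ⟨mem_of_mem_erase hz.1, mem_of_mem_erase hz.2⟩]
    rfl

theorem casc : CASC_s := by
  intro n hd G v rk hv hsym h
  have key : ∀ k x y, rk x y = k → x < n → y < n → x ≠ y → x ≠ v → y ≠ v →
      Cl (Qn n) (G : Set (Finset ℕ)) {v, x, y} := by
    intro k
    induction k using Nat.strong_induction_on with
    | _ k ih =>
      rintro x y rfl hx hy hxy hxv hyv
      rcases h x hx y hy hxy hxv hyv with h0 | ⟨w, hw, a1, a2, a3, a4, a5, a6⟩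
      · exact h0
      obtain ⟨q1, q2, q3⟩ := quad (tri hv hx hy hxv.symm hyv.symm hxy) hw (by simp [a1, a2, a3])
      refine Cl.step q1 q2 fun b hb hne => ?_
      obtain ⟨z, hz, rfl⟩ := q3 b hb hne
      simp only [mem_insert, mem_singleton] at hz
      rcases hz with rfl | rfl | rfl
      · refine Cl.base ?_
        convert mem_coe.2 a4 using 1
        ext t
        simp only [mem_insert, mem_erase, mem_singleton]
        omega
      · convert ih _ a6 y w rfl hy hw a3.symm hyv a1 using 1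
        ext t
        simp only [mem_insert, mem_erase, mem_singleton]
        omega
      · convert ih _ a5 x w rfl hx hw a2.symm hxv a1 using 1
        ext t
        simp only [mem_insert, mem_erase, mem_singleton]
        omega
  have cone : ∀ a ∈ Om n, v ∈ a → Cl (Qn n) (G : Set (Finset ℕ)) a := by
    intro a ha hva
    obtain ⟨h1, h2⟩ := mem_powersetCard.1 ha
    obtain ⟨x, y, hxy, e⟩ := card_eq_two.1 (show (a.erase v).card = 2 by
      rw [card_erase_of_mem hva, h2])
    have hx : x ∈ a.erase v := by simp [e]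
    have hy : y ∈ a.erase v := by simp [e]
    rw [← insert_erase hva, e]
    exact key _ x y rfl (mem_range.1 (h1 (mem_of_mem_erase hx)))
      (mem_range.1 (h1 (mem_of_mem_erase hy))) hxy (ne_of_mem_erase hx) (ne_of_mem_erase hy)
  intro a ha
  by_cases hva : v ∈ a
  · exact cone a ha hva
  obtain ⟨q1, q2, q3⟩ := quad ha hv hva
  refine Cl.step q1 q2 fun b hb hne => cone b ((sysN n hd).Qsub _ q1 hb) ?_
  obtain ⟨z, -, rfl⟩ := q3 b hb hne
  exact mem_insert_self _ _

theorem rz : RZ_s := by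
  intro n hd G frk hG h hc
  refine ⟨G.filter (frk · = 0), filter_subset _ _, hc, ?_⟩
  have key : ∀ k, ∀ f ∈ G, frk f = k →
      Cl (FQ (sysN n hd) G) (G.filter (frk · = 0) : Finset (Finset ℕ)) f := by
    intro k
    induction k using Nat.strong_induction_on with
    | _ k ih =>
      rintro f hf rfl
      rcases h f hf with h0 | ⟨w, hw, hwf, h1⟩
      · exact Cl.base (mem_coe.2 (mem_filter.2 ⟨hf, h0⟩))
      obtain ⟨q1, q2, q3⟩ := quad (hG hf) hw hwf
      refine Cl.step ⟨q1, fun b hb => ?_⟩ q2 fun b hb hne => ?_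
      · by_cases hne : b = f
        · exact hne ▸ hf
        · obtain ⟨z, hz, rfl⟩ := q3 b hb hne
          exact (h1 z hz).1
      · obtain ⟨z, hz, rfl⟩ := q3 b hb hne
        exact ih _ (h1 z hz).2 _ (h1 z hz).1 rfl
  exact fun f hf => key _ f hf rfl

end Pool.Agent.MP_797bdc_co.Lk
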