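import Pool.Agent.MP_797bdc_co.Lk.HB1
import Pool.Agent.MP_797bdc_co.Lk.PI
import Pool.Agent.MP_797bdc_co.Lk.SC

/-! Checker S (safe tokens): soundness. -/

namespace Pool.Agent.MP_797bdc_co.Lk.S

open Finset H

theorem nt_iff {a : Bool} : nt a = true ↔ ¬ a = true := by cases a <;> simp [nt]
theorem bq {a b : ℕ} : Nat.beq a b = true ↔ a = b := Nat.beq_eq.to_iff

/-- the list of cores given by three functions -/
def csL (e : ℕ) (cj c0 c1 : ℕ → ℕ) : List (ℕ × ℕ × ℕ) :=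
  (List.range e).map (fun l => (cj l, c0 l, c1 l))

theorem mem_csL {e : ℕ} {cj c0 c1 : ℕ → ℕ} {x : ℕ × ℕ × ℕ} :
    x ∈ csL e cj c0 c1 ↔ ∃ l < e, (cj l, c0 l, c1 l) = x := by
  simp [csL]

section
variable {n J : ℕ} {tZ tF : BT} {SK e : ℕ} {cj c0 c1 : ℕ → ℕ}

theorem ngd_ok {k p : ℕ} (h : ngd tZ tF e cj c0 c1 k p = true) :
    (mkZ n J tZ tF SK).NGood (csL e cj c0 c1) k p := by
  intro x hx
  obtain ⟨l, hl, rfl⟩ := mem_csL.1 hx
  have h1 := al_iff.1 h l hl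
  simp only [orr_iff, an_iff, nt_iff, tb_eq, bq] at h1
  rcases h1 with h1 | ⟨h1, h2⟩
  · exact Or.inr h1
  · exact Or.inl ⟨h1, h2⟩

theorem ndb_iff {k p : ℕ} : ndb J tZ k p = true ↔ (mkZ n J tZ tF SK).Node k p := by
  simp only [ndb, an_iff, lt_iff]
  exact Iff.rfl

theorem pg1_ok {x y ty i k p : ℕ} (h : pg1 n J tZ tF SK e cj c0 c1 x y ty i k p = true) :
    (mkZ n J tZ tF SK).PGood (csL e cj c0 c1) x y := by
  simp only [pg1, cb_eq] at h
  split_ifs at h with h1 h2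
  · simp only [an_iff, lt_iff, tb_eq] at h
    exact Or.inl ⟨h.1.1, h.1.2, h.2⟩
  · simp only [an_iff, lt_iff, bq] at h
    exact Or.inr (Or.inl ⟨k, p, i, ndb_iff.1 h.1.1, h.1.2, h.2.1.1, h.2.1.2, ngd_ok h.2.2⟩)
  all_goals
    simp only [an_iff, lt_iff, bq, al_iff, nt_iff] at h
    refine Or.inr (Or.inr ⟨k, p, h.1.1.1, h.1.1.2, h.1.2.1, h.1.2.2, ?_, ?_, ?_⟩)
    · intro z hz
      obtain ⟨l, hl, rfl⟩ := mem_csL.1 hz
      exact h.2.1 l hl
    · intro hn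
      first
        | exact ngd_ok h.2.2.1
        | exact absurd (ndb_iff.2 hn) ‹_›
    · intro hn
      first
        | exact ngd_ok h.2.2.2
        | exact absurd (ndb_iff.2 hn) ‹_›

theorem pgd_ok {x y w : ℕ} (h : pgd n J tZ tF SK e cj c0 c1 x y w = true) :
    (mkZ n J tZ tF SK).PGood (csL e cj c0 c1) x y ∨
      (mkZ n J tZ tF SK).PGood (csL e cj c0 c1) y x := by
  have h1 := pg1_ok h
  simp only [cn_eq] at h1
  split_ifs at h1
  · exact Or.inr h1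
  · exact Or.inl h1

theorem cok_ok (h : cok J tZ e cj c0 c1 = true) :
    (mkZ n J tZ tF SK).CoresOK (csL e cj c0 c1) := by
  simp only [cok, an_iff, lt_iff, bq, al_iff, nt_iff] at h
  constructor
  · intro x hx
    obtain ⟨l, hl, rfl⟩ := mem_csL.1 hx
    exact (h l hl).1
  · intro x hx y hy hxy
    obtain ⟨l, hl, rfl⟩ := mem_csL.1 hx
    obtain ⟨l', hl', rfl⟩ := mem_csL.1 hy
    rcases lt_trichotomy l l' with c | c | c
    · exact absurd hxy ((h l' hl').2 l c)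
    · rw [c]
    · exact absurd hxy.symm ((h l hl).2 l' c)

/-- A token that passes the test is killed by every cocycle localised in the cores. -/
theorem tks_ok (hp : PG_s) (hl : LOC_s) {root : ℕ} {par : ℕ → ℕ} {G : Finset (Finset ℕ)}
    (hZ : (mkZ n J tZ tF SK).OK n root par G)
    (hc : (mkZ n J tZ tF SK).CoresOK (csL e cj c0 c1)) {x y z w : ℕ}
    (h : tks n J tZ tF SK e cj c0 c1 x y z w = true) :
    ∀ ψ, Ev (Qn n) ψ → (∀ f ∈ G, f ∉ (mkZ n J tZ tF SK).Iall (csL e cj c0 c1) → ψ f = 0) →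
      ψ {x, y, z} = 0 := by
  simp only [tks, an_iff, lt_iff, bq, nt_iff, orr_iff, not_or] at h
  obtain ⟨⟨⟨hx, hy, hz⟩, hxy, hxz, hyz⟩, h1, h2, h3⟩ := h
  have dv : ∀ {a b v : ℕ}, pgd n J tZ tF SK e cj c0 c1 a b v = true →
      Dv n root par G ((mkZ n J tZ tF SK).Iall (csL e cj c0 c1)) a b := by
    intro a b v hv
    rcases pgd_ok hv with c | c
    · exact hp _ _ _ _ _ hZ _ hc _ _ c
    · exact (hp _ _ _ _ _ hZ _ hc _ _ c).symm
  exact hl n root par G _ hZ.tree x hx y hy z hz hxy hxz hyz (dv h1) (dv h2) (dv h3)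

end

section
variable {n J : ℕ} {M Zt It : ℕ → ℕ} {tZ tF tG : BT} {SK : ℕ} {xsb : ℕ → ℕ → ℕ → ℕ → Bool}
  {XS : ℕ → Finset ℕ → Prop} {root : ℕ} {par : ℕ → ℕ} {G : Finset (Finset ℕ)}

theorem dsb_ok (hp : PG_s) (hl : LOC_s) (hZ : (mkZ n J tZ tF SK).OK n root par G)
    (hx : ∀ id x y z, xsb id x y z = true → XS id {x, y, z}) {a b v x y z w : ℕ}
    (h : dsb n J tZ tF SK xsb a b v x y z w = true) :
    DS n G (mkZ n J tZ tF SK) XS a b v {x, y, z} := by
  simp only [dsb, cb_eq, bq] at h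
  constructor
  · intro hv p0 p1 h01 h1 hr
    rw [if_pos (show Nat.mod v (nat_lit 4) = nat_lit 1 from hv)] at h
    simp only [zs, an_iff, orr_iff, bq] at h
    obtain ⟨⟨hc, ho⟩, ht⟩ := h
    generalize Nat.land w (nat_lit 511) = r0 at hc ho ht
    generalize bt w (nat_lit 9) (nat_lit 511) = r1 at hc ho ht
    have hc' := cok_ok (n := n) (tF := tF) (SK := SK) hc
    have k := tks_ok hp hl hZ hc' ht
    have hb := hc'.1 (v / 4, r0, r1) (mem_csL.2 ⟨0, Nat.one_pos, rfl⟩)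
    obtain ⟨hj, hlt, hL⟩ := hb
    dsimp only at hj hlt hL
    have ri := hZ.ri _ hj
    have ho' : ((mkZ n J tZ tF SK).rim (v / 4) r0 = a ∧ (mkZ n J tZ tF SK).rim (v / 4) r1 = b) ∨
        ((mkZ n J tZ tF SK).rim (v / 4) r0 = b ∧ (mkZ n J tZ tF SK).rim (v / 4) r1 = a) := ho
    have : p0 = r0 ∧ p1 = r1 := by
      rcases hr with ⟨a1, a2⟩ | ⟨a1, a2⟩ <;> rcases ho' with ⟨b1, b2⟩ | ⟨b1, b2⟩
      · exact ⟨ri _ (by omega) _ (by omega) (a1.trans b1.symm), ri _ h1 _ hL (a2.trans b2.symm)⟩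
      · have := ri _ (show p0 < _ by omega) _ hL (a1.trans b2.symm)
        have := ri _ h1 _ (show r0 < _ by omega) (a2.trans b1.symm)
        omega
      · have := ri _ (show p0 < _ by omega) _ hL (a1.trans b2.symm)
        have := ri _ h1 _ (show r0 < _ by omega) (a2.trans b1.symm)
        omega
      · exact ⟨ri _ (by omega) _ (by omega) (a1.trans b1.symm), ri _ h1 _ hL (a2.trans b2.symm)⟩
    obtain ⟨rfl, rfl⟩ := this
    exact k
  · intro hv
    have hv' : Nat.mod v (nat_lit 4) = nat_lit 2 := hv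
    rw [if_neg (by rw [hv']; decide), if_pos hv'] at h
    exact hx _ _ _ _ h

theorem vmk_ok {a b v c : ℕ} (h : (vmk tZ tG a b v).testBit c = true) :
    VD (mkZ n J tZ tF SK) tG a b v c := by
  simp only [vmk, cn_eq, bq, fn_eq] at h
  split_ifs at h with h1 h2 h3
  · refine Or.inl ⟨h1, ?_⟩
    simp only [vm, HB0_or, m2_bit] at h
    rcases h with (h | h) | h | h
    · exact ⟨0, by norm_num, h⟩
    · exact ⟨1, by norm_num, h⟩
    · exact ⟨2, by norm_num, h⟩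
    · exact ⟨3, by norm_num, h⟩
  · refine Or.inr (Or.inl ⟨h2, ?_⟩)
    obtain ⟨i, hi, h⟩ := orl_bit.1 h
    simp only [cn_eq, an_iff, bq] at h
    split_ifs at h with h4
    · exact ⟨i, hi, h4.1, h4.2, m2_bit.1 h⟩
    · exact absurd h (by simp)
  · exact Or.inr (Or.inr ⟨h3, m2_bit.1 h⟩)
  · exact absurd h (by simp)

theorem gdb_ok (hp : PG_s) (hl : LOC_s) (hZ : (mkZ n J tZ tF SK).OK n root par G)
    (hx : ∀ id x y z, xsb id x y z = true → XS id {x, y, z}) {c f a b v e w : ℕ}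
    (h : gdb n J tZ tF SK xsb c f a b v e w = true) :
    ∃ t ∈ TS c f, DS n G (mkZ n J tZ tF SK) XS a b v t := by
  simp only [gdb, an_iff, lt_iff, tb_eq, fb_eq] at h
  obtain ⟨⟨he, hf⟩, hd⟩ := h
  refine ⟨_, ?_, dsb_ok hp hl hZ hx hd⟩
  have he' : e < 3 := he
  interval_cases e
  · exact Or.inl ⟨hf, rfl⟩
  · exact Or.inr (Or.inl ⟨hf, rfl⟩)
  · exact Or.inr (Or.inr ⟨hf, rfl⟩)

theorem itm_ok (hp : PG_s) (hl : LOC_s) (hM : SymM n M) (hn : n ≤ 512)
    (hZ : (mkZ n J tZ tF SK).OK n root par (Gd n M))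
    (hx : ∀ id x y z, xsb id x y z = true → XS id {x, y, z}) {SD : ℕ → ℕ → ℕ}
    (noLoc : Finset (Finset ℕ) → Prop) {c f a b C R : ℕ} (hw : Wf n (Gd n M) a b C)
    (h : itm n J M tZ tF tG SK xsb c f a b C (SD a b) R = true) :
    ISafe n (Gd n M) noLoc (safeS n (Gd n M) (mkZ n J tZ tF SK) tG SD XS) a b C (TS c f) := by
  intro p hp' d hd h1 h2 h3
  obtain ⟨hab, hb, hC⟩ := hw
  have ha : a < n := hab.trans hb
  have hCl : C < 2 ^ 512 := lt_of_bits.2 fun i hi => (hC i hi).1.trans_le hn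
  have k := sb_iff.1 ((alB_iff hCl).1 h p hp') d (by
    rw [df_bit]
    have e1 := (Lf_bit hM ha (hC p hp').1).2 ⟨hd, h1⟩
    have e2 := (Lf_bit hM hb (hC p hp').1).2 ⟨hd, h2⟩
    have e3 : (Lf n M a b).testBit d = false := by
      rw [Bool.eq_false_iff]; exact fun c => h3 ((Lf_bit hM ha hb).1 c).2
    have e4 : (Nat.land (Lf n M a p) (Lf n M b p)).testBit d = true := by
      show ((Lf n M a p) &&& (Lf n M b p)).testBit d = true
      rw [Nat.testBit_and, e1, e2]; rfl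
    rw [e4, e3]; rfl)
  obtain ⟨l, -, k⟩ := orl_bit.1 k
  simp only [fn_eq, cn_eq, tb_eq] at k
  split_ifs at k with k1
  swap
  · exact absurd k (by simp)
  simp only [um, fn_eq, cn_eq] at k k1
  split_ifs at k k1 with k2
  swap
  · exact absurd k (by simp)
  obtain ⟨t, ht, hds⟩ := gdb_ok hp hl hZ hx k2
  have hpd : p ≠ d := by
    rintro rfl
    exact (hM.2 a ha p hd p hd ((mem_Gd hM ha hd hd).1 h1)).2.2.1 rfl
  exact Or.inr ⟨t, ht, a, ha, b, hb, p, (hC p hp').1, d, hd, hab, hpd, rfl, h1, h2,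
    (hC p hp').2.2.2, h3, fld (SD a b) l, ⟨l, rfl⟩, vmk_ok k1, vmk_ok k, hds⟩

/-- Soundness of checker S. -/
theorem sfe_ok (hp : PG_s) (hl : LOC_s) (hM : SymM n M) (hn : n ≤ 512)
    (hZ : (mkZ n J tZ tF SK).OK n root par (Gd n M))
    (hx : ∀ id x y z, xsb id x y z = true → XS id {x, y, z}) (SM SD W : ℕ → ℕ → ℕ)
    {NI PG PM PS : ℕ} (hw : ∀ p < NI, Wf n (Gd n M) (ia It p) (ib It p) (iC Zt It p)) :
    SfeOK n (Gd n M) SM (safeS n (Gd n M) (mkZ n J tZ tF SK) tG SD XS) (mkI NI PG PM PS Zt It)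
      (sfe n J M Zt It tZ tF tG SK xsb SD W) := by
  intro i s m c f h hs k hk
  simp only [sfe, fb_eq] at h
  exact itm_ok hp hl hM hn hZ hx _ (hw (s + k) (lt_of_lt_of_le (by omega) hs)) (al_iff.1 h k hk)

/-- The same from the goodness of all items. -/
theorem sfe_ok' (hp : PG_s) (hl : LOC_s) (hM : SymM n M) (hn : n ≤ 512)
    (hZ : (mkZ n J tZ tF SK).OK n root par (Gd n M))
    (hx : ∀ id x y z, xsb id x y z = true → XS id {x, y, z}) (SM SD W : ℕ → ℕ → ℕ)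
    {NI PG PM PS : ℕ} {u : Finset ℕ}
    (hw : ∀ p < NI, (mkI NI PG PM PS Zt It).Good n (Gd n M) u SM p) :
    SfeOK n (Gd n M) SM (safeS n (Gd n M) (mkZ n J tZ tF SK) tG SD XS) (mkI NI PG PM PS Zt It)
      (sfe n J M Zt It tZ tF tG SK xsb SD W) :=
  sfe_ok hp hl hM hn hZ hx SM SD W fun p hp' => (hw p hp').1.wf

end

/-- Safe tokens of an explicit block: any token if the block never closes, else those listed. -/
def XSl (tG : BT) (XT : ℕ → ℕ) (id : ℕ) (t : Finset ℕ) : Prop :=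
  xnl (tG.get id) = 0 → ∃ k < tN (XT id), t = {t0 (XT id) k, t1 (XT id) k, t2 (XT id) k}

theorem xsl_ok (tG : BT) (XT : ℕ → ℕ) (id x y z : ℕ) (h : xsl tG XT id x y z = true) :
    XSl tG XT id {x, y, z} := by
  intro h0
  simp only [xsl, cb_eq, z0_iff, fb_eq, if_pos h0, nt_iff, al_iff, bq] at h
  push Not at h
  obtain ⟨k, hk, h⟩ := h
  refine ⟨k, hk, ?_⟩
  ext v
  simp only [mem_insert, mem_singleton]
  rw [← m3_bit, ← m3_bit, h]

end Pool.Agent.MP_797bdc_co.Lk.S
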