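import Mathlib
import Pool.Agent.MP_797bdc_co.Defs

/-! Statements for the lock argument (negative answer to the connectivity question). -/

namespace Pool.Agent.MP_797bdc_co.Lk

open Finset

section Abs
variable {α : Type} [DecidableEq α]

/-- Bootstrap closure of `Y` under the quads satisfying `P`. -/
inductive Cl (P : Finset α → Prop) (Y : Set α) : α → Prop
  | base {a : α} : a ∈ Y → Cl P Y a
  | step {q : Finset α} {a : α} : P q → a ∈ q → (∀ b ∈ q, b ≠ a → Cl P Y b) → Cl P Y a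

/-- `φ` sums to zero on every quad satisfying `P`. -/
def Ev (P : Finset α → Prop) (φ : α → ZMod 2) : Prop := ∀ q, P q → ∑ a ∈ q, φ a = 0

/-- Abstract system: ground set, quads, rank. -/
structure Sys (α : Type) [DecidableEq α] where
  Ω : Finset α
  Q : Finset α → Prop
  r : ℕ
  Qsub : ∀ q, Q q → q ⊆ Ω
  Qcard : ∀ q, Q q → q.card = 4
  dim : ∀ Y : Finset α, Y.card < r → ∃ φ, Ev Q φ ∧ (∀ a ∈ Y, φ a = 0) ∧ ∃ a ∈ Ω, φ a ≠ 0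

variable (S : Sys α) (G : Finset α)

def Perc (R : Finset α) : Prop := ∀ a ∈ S.Ω, Cl S.Q (R : Set α) a
def FQ (q : Finset α) : Prop := S.Q q ∧ q ⊆ G
def InS (R : Finset α) : Prop := R ⊆ G ∧ R.card = S.r ∧ ∀ a ∈ G, Cl (FQ S G) (R : Set α) a
def Gate (q : Finset α) : Prop := S.Q q ∧ (q ∩ G).card = 2
def FClosed (X : Set α) : Prop := ∀ q, FQ S G q → ∀ a ∈ q, (∀ b ∈ q, b ≠ a → b ∈ X) → a ∈ X
def TEven (D : Finset (Finset α)) : Prop := ∀ t, t ∉ G → Even (D.filter (t ∈ ·)).card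

/-- Block property for the gates satisfying `B`. -/
def BPon (noLoc B : Finset α → Prop) : Prop :=
  ∀ X : Set α, FClosed S G X → ∀ D : Finset (Finset α), (∀ q ∈ D, Gate S G q ∧ B q) → TEven G D →
    ∀ q0 ∈ D, ∀ m ∈ q0, m ∈ G → m ∉ X →
    (∀ q ∈ D, ∀ f ∈ q, f ∈ G → f ∉ X → q = q0 ∧ f = m) →
    ¬ noLoc q0 ∧ ∃ χ, Ev (FQ S G) χ ∧ (∀ a ∈ X, a ∈ G → χ a = 0) ∧ (∃ a ∈ G, χ a ≠ 0) ∧
      ∀ φ, Ev S.Q φ → (∀ a ∈ G, φ a = χ a) → ∃ q ∈ D, ∃ t ∈ q, t ∉ G ∧ φ t = 0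

/-- `K` is a set closed under the gates satisfying `P`. -/
def GClosed (P : Finset α → Prop) (K : Set α) : Prop :=
  ∀ q, Gate S G q → P q → ∀ t ∈ q, ∀ t' ∈ q, t ∉ G → t' ∉ G → t ∈ K → t' ∈ K

/-- Cold hull: main class `K`, generating quads `gen`, satellite classes `sat`. -/
structure Hull (u τ1 τ2 : α) (h1 h2 : Finset α) (noLoc : Finset α → Prop) (K : Set α)
    (gen : Finset α → Prop) (sat : Finset α → Set α) : Prop where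
  Kt : ∀ t ∈ K, t ∉ G
  Kc : GClosed S G (u ∉ ·) K
  st : ∀ q, gen q → ∀ t ∈ sat q, t ∉ G ∧ t ∉ K ∧ t ≠ τ1 ∧ t ≠ τ2
  sc : ∀ q, gen q → GClosed S G (u ∉ ·) (sat q)
  sd : ∀ q q', gen q → gen q' → ∀ t, t ∈ sat q → t ∈ sat q' → q = q'
  sn : ∀ q, gen q → ∀ q', Gate S G q' → ∀ t ∈ q', t ∈ sat q → noLoc q'
  ge : ∀ q, gen q → ∃ t ∈ q, t ∈ sat q ∧ ∀ b ∈ q, b ≠ t → b ∈ G ∨ b ∈ K
  cl : ∀ q, S.Q q → u ∉ q → ¬ q ⊆ G → ∀ a ∈ q,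
        (∀ b ∈ q, b ≠ a → b ∈ G ∨ b ∈ K ∨ ∃ p, gen p ∧ b ∈ sat p) → Gate S G q ∨ gen q
  cu : ∀ q, S.Q q → u ∈ q → ¬ q ⊆ G →
        (∀ b ∈ q, b ≠ u → b ∈ G ∨ b ∈ K ∨ ∃ p, gen p ∧ b ∈ sat p) → q = h1 ∨ q = h2

/-- Hot hull for a missing face `m`. -/
structure Hot (τ1 τ2 m : α) (H : Set α) : Prop where
  t1 : τ1 ∈ H
  t2 : τ2 ∈ H
  cl : GClosed S G (m ∉ ·) H
  c3 : ∀ q, S.Q q → (q ∩ G).card ≤ 1 → ∀ a ∈ q, ¬ ∀ b ∈ q, b ≠ a → (b ∈ G ∧ b ≠ m) ∨ (b ∉ G ∧ b ∈ H)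

/-- Basic degree data of the pair `(G, F)`. -/
structure Base (Sig : Finset α) (u τ1 τ2 : α) (h1 h2 : Finset α) : Prop where
  GΩ : G ⊆ S.Ω
  perc : Perc S G
  uG : u ∈ G
  deg2 : ∀ f ∈ G, f ≠ u → ∃ q q', FQ S G q ∧ FQ S G q' ∧ q ≠ q' ∧ f ∈ q ∧ f ∈ q'
  degle : ∀ f ∈ G, f ∉ Sig → ∀ q1 q2 q3, FQ S G q1 → FQ S G q2 → FQ S G q3 →
    f ∈ q1 → f ∈ q2 → f ∈ q3 → q1 = q2 ∨ q1 = q3 ∨ q2 = q3
  cnt : ∃ FS : Finset (Finset α), (∀ q, FQ S G q → q ∈ FS) ∧ S.r + FS.card ≤ G.card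
  uS : u ∉ Sig
  c2 : ∀ q, S.Q q → 3 ≤ (q ∩ G).card → q ⊆ G ∨ q = h1 ∨ q = h2
  hq1 : S.Q h1 ∧ u ∈ h1 ∧ τ1 ∈ h1 ∧ τ1 ∉ G ∧ ∀ b ∈ h1, b ≠ τ1 → b ∈ G
  hq2 : S.Q h2 ∧ u ∈ h2 ∧ τ2 ∈ h2 ∧ τ2 ∉ G ∧ ∀ b ∈ h2, b ≠ τ2 → b ∈ G

/-- All hypotheses of the abstract lock theorem. -/
structure LockH (Sig : Finset α) (u τ1 τ2 : α) (h1 h2 : Finset α) (noLoc : Finset α → Prop) :
    Prop where
  base : Base S G Sig u τ1 τ2 h1 h2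
  bp : BPon S G noLoc (fun _ => True)
  cold : ∀ ρ ∈ S.Ω, ρ ∉ G → ∃ K gen sat, ρ ∈ K ∧ Hull S G u τ1 τ2 h1 h2 noLoc K gen sat
  hot : ∀ m ∈ Sig, ∃ H, Hot S G τ1 τ2 m H
  sep : ∃ K1 K2 : Set α, τ1 ∈ K1 ∧ τ2 ∈ K2 ∧ GClosed S G (fun _ => True) K1 ∧
    GClosed S G (fun _ => True) K2 ∧ ∀ t, t ∈ K1 → t ∉ K2

end Abs

/-- Bubble lemma. -/
def BUB_s : Prop := ∀ (α : Type) [DecidableEq α] (W : Finset (Finset α)) (M : Set α)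
  (mo : Option α),
  (∀ q ∈ W, ∀ a ∈ q, a ∈ M → ∃ b ∈ q, b ≠ a ∧ b ∈ M) →
  (∀ f ∈ M, mo ≠ some f → (W.filter (f ∈ ·)).card = 0 ∨ (W.filter (f ∈ ·)).card = 2) →
  (∀ f, mo = some f → (W.filter (f ∈ ·)).card ≤ 1) →
  (∃ q ∈ W, ∃ a ∈ q, a ∈ M) →
  ∃ χ : α → ZMod 2, (∃ a, χ a ≠ 0) ∧ (∀ a, χ a ≠ 0 → a ∈ M ∧ (W.filter (a ∈ ·)).card = 2) ∧
    ∀ q ∈ W, ∑ a ∈ q, χ a = 0

/-- Lemma U. -/
def LU_s : Prop := ∀ (α : Type) [DecidableEq α] (S : Sys α) (G Sig : Finset α) (u τ1 τ2 : α)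
  (h1 h2 : Finset α), Base S G Sig u τ1 τ2 h1 h2 → ∀ R, InS S G R →
  u ∉ R ∧ ∀ g ∈ R, ¬ Cl (FQ S G) (R.erase g : Finset α) u

/-- Lemma A. -/
def LA_s : Prop := ∀ (α : Type) [DecidableEq α] (S : Sys α) (G : Finset α), G ⊆ S.Ω → Perc S G →
  ∀ R, InS S G R →
  (∀ g ∈ R, ∃ φ, Ev S.Q φ ∧ (∀ a ∈ R.erase g, φ a = 0) ∧ φ g = 1 ∧
     (∀ ρ, Perc S (insert ρ (R.erase g)) → φ ρ = 1) ∧
     ∀ χ, Ev (FQ S G) χ → (∀ a ∈ R.erase g, χ a = 0) → (∃ a ∈ G, χ a ≠ 0) → ∀ a ∈ G, φ a = χ a) ∧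
  (∀ R' : Finset α, R' ⊆ G → Perc S R' → ∀ χ, Ev (FQ S G) χ → (∀ a ∈ R', χ a = 0) →
     ∀ a ∈ G, χ a = 0)

/-- Case B: the new face lies in `G`. -/
def CB_s : Prop := ∀ (α : Type) [DecidableEq α] (S : Sys α) (G Sig : Finset α) (u τ1 τ2 : α)
  (h1 h2 : Finset α) (noLoc : Finset α → Prop), LockH S G Sig u τ1 τ2 h1 h2 noLoc →
  ∀ R, InS S G R → ∀ R' : Finset α, R' ⊆ G → Perc S R' → ∀ a ∈ G, Cl (FQ S G) (R' : Set α) a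

/-- The abstract lock theorem. -/
def LOCK_s : Prop := ∀ (α : Type) [DecidableEq α] (S : Sys α) (G Sig : Finset α) (u τ1 τ2 : α)
  (h1 h2 : Finset α) (noLoc : Finset α → Prop), LockH S G Sig u τ1 τ2 h1 h2 noLoc →
  ∀ R, InS S G R → ∀ g ∈ R, ∀ ρ ∈ S.Ω, ρ ∉ R → Perc S (insert ρ (R.erase g)) →
    InS S G (insert ρ (R.erase g))

/-- Ranked blocks. -/
def RANK_s : Prop := ∀ (α β : Type) [DecidableEq α] (S : Sys α) (G : Finset α)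
  (noLoc : Finset α → Prop) (blk : Finset α → β) (rk : β → ℕ) (top : β → α),
  (∀ q q', Gate S G q → Gate S G q' → ∀ t ∈ q, t ∈ q' → t ∉ G → blk q ≠ blk q' →
     rk (blk q') ≤ rk (blk q) → rk (blk q') < rk (blk q) ∧ t = top (blk q)) →
  (∀ B, BPon S G noLoc (blk · = B)) → BPon S G noLoc (fun _ => True)

section Gen
variable {α : Type} [DecidableEq α] (S : Sys α) (G : Finset α)

/-- Gates `γ 0 … γ (k-1)` cover the block; each is tree-like or closes a cycle with a filling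
inside `Wall`. -/
structure Ears (B : Finset α → Prop) (k : ℕ) (γ : ℕ → Finset α) (cls : ℕ → Prop)
    (Wall : Set (Finset α)) : Prop where
  cov : ∀ q, Gate S G q → B q → ∃ i < k, q = γ i
  inj : ∀ i < k, ∀ l < k, γ i = γ l → i = l
  tree : ∀ i < k, ¬ cls i → ∃ s ∈ γ i, s ∉ G ∧ ∀ l < i, s ∉ γ l
  close : ∀ i < k, cls i → ∃ (C : Finset ℕ) (w : Finset (Finset α)), i ∈ C ∧ (∀ l ∈ C, l ≤ i) ∧
    (∀ τ ∈ w, τ ∈ Wall) ∧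
    (∀ t, t ∉ G → Even (C.filter (t ∈ γ ·)).card) ∧
    ∀ f ∈ G, Even ((C.filter (f ∈ γ ·)).card + (w.filter (f ∈ ·)).card)
  wF : ∀ τ ∈ Wall, FQ S G τ

/-- Small quads `sm 0 … sm (s-1)` peel off, ignoring the faces in `fk`. -/
def Peel (s : ℕ) (sm : ℕ → Finset α) (Reg : Set (Finset α)) (fk : Set α) : Prop :=
  ∀ i < s, ∀ f ∈ sm i, ∀ f' ∈ sm i, f ∉ fk → f' ∉ fk →
    ((∃ l < s, i < l ∧ f ∈ sm l) ∨ ∃ τ ∈ Reg, f ∈ τ) →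
    ((∃ l < s, i < l ∧ f' ∈ sm l) ∨ ∃ τ ∈ Reg, f' ∈ τ) → f = f'

end Gen

/-- Forest blocks never close. -/
def GENF_s : Prop := ∀ (α : Type) [DecidableEq α] (S : Sys α) (G : Finset α)
  (noLoc B : Finset α → Prop) (k : ℕ) (γ : ℕ → Finset α) (cls : ℕ → Prop) (s : ℕ)
  (sm : ℕ → Finset α), Ears S G B k γ cls {τ | ∃ i < s, τ = sm i} →
  Peel s sm ∅ ∅ →
  (∀ f, ∀ i < s, ∀ l < s, ∀ p < s, f ∈ sm i → f ∈ sm l → f ∈ sm p → i = l ∨ i = p ∨ l = p) →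
  BPon S G noLoc B

/-- Blocks closed by localisation. -/
def GENL_s : Prop := ∀ (α : Type) [DecidableEq α] (S : Sys α) (G Sig : Finset α) (u τ1 τ2 : α)
  (h1 h2 : Finset α), Base S G Sig u τ1 τ2 h1 h2 →
  ∀ (noLoc B : Finset α → Prop) (k : ℕ) (γ : ℕ → Finset α) (cls : ℕ → Prop) (s : ℕ)
  (sm : ℕ → Finset α) (Reg : Set (Finset α)) (I : Set α) (e : ℕ) (κ : ℕ → α → ZMod 2)
  (fk : ℕ → α),
  (∀ q, Gate S G q → B q → ¬ noLoc q) →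
  Ears S G B k γ cls ({τ | ∃ i < s, τ = sm i} ∪ Reg) →
  Peel s sm Reg {f | ∃ i < e, f = fk i} →
  (∀ f ∈ Sig, ∀ τ τ', τ ∈ {τ | ∃ i < s, τ = sm i} ∪ Reg → τ' ∈ {τ | ∃ i < s, τ = sm i} ∪ Reg →
     f ∈ τ → f ∈ τ' → τ = τ') →
  (∀ f, ∀ τ ∈ Reg, ∀ τ' ∈ Reg, τ ≠ τ' → f ∈ τ → f ∈ τ' → f ∈ I) →
  (∀ i < e, Ev S.Q (κ i) ∧ κ i (fk i) = 1 ∧ (∀ l < i, κ i (fk l) = 0) ∧
     ∀ f ∈ G, κ i f ≠ 0 → ∃ p < s, ∃ p' < s, sm p ≠ sm p' ∧ f ∈ sm p ∧ f ∈ sm p') →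
  (∀ i < k, cls i → ∃ t ∈ γ i, t ∉ G ∧ (∀ l < e, κ l t = 0) ∧
     ∀ ψ, Ev S.Q ψ → (∀ f ∈ G, f ∉ I → ψ f = 0) → ψ t = 0) →
  BPon S G noLoc B


/-! ### The concrete system of triples and quads on `range n` -/

def Om (n : ℕ) : Finset (Finset ℕ) := powersetCard 3 (range n)
def Qn (n : ℕ) (q : Finset (Finset ℕ)) : Prop :=
  ∃ s, s ⊆ range n ∧ s.card = 4 ∧ q = powersetCard 3 s
def DimP (n : ℕ) : Prop := ∀ Y : Finset (Finset ℕ), Y.card < (n - 1).choose 2 →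
  ∃ φ, Ev (Qn n) φ ∧ (∀ a ∈ Y, φ a = 0) ∧ ∃ a ∈ Om n, φ a ≠ 0

def sysN (n : ℕ) (hd : DimP n) : Sys (Finset ℕ) where
  Ω := Om n
  Q := Qn n
  r := (n - 1).choose 2
  Qsub := by
    rintro q ⟨s, hs, -, rfl⟩
    exact powersetCard_mono hs
  Qcard := by
    rintro q ⟨s, -, hs, rfl⟩
    rw [card_powersetCard, hs]; rfl
  dim := hd

/-- The quad on four vertices. -/
def qd (a b c d : ℕ) : Finset (Finset ℕ) := powersetCard 3 {a, b, c, d}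

def DIM_s : Prop := ∀ n, DimP n

/-- Duality with collapsible hypertrees of dimension `n - 4`. -/
def DUAL_s : Prop := ∀ n, 6 ≤ n → ∀ (hd : DimP n) (G : Finset (Finset ℕ)), G ⊆ Om n →
  Perc (sysN n hd) G → (∃ R, InS (sysN n hd) G R) → (∃ t ∈ Om n, t ∉ G) →
  (∀ R, InS (sysN n hd) G R → ∀ g ∈ R, ∀ ρ ∈ Om n, ρ ∉ R →
     Perc (sysN n hd) (insert ρ (R.erase g)) → InS (sysN n hd) G (insert ρ (R.erase g))) →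
  ∃ T T' : Finset (Finset (Fin n)), IsHypertree n (n - 4) T ∧ Collapsible (n - 4) T ∧
    IsHypertree n (n - 4) T' ∧ Collapsible (n - 4) T' ∧
    ¬ Relation.ReflTransGen (Exchange n (n - 4)) T T'

/-- Indicator of the triples through an edge is a cocycle. -/
def KAP_s : Prop := ∀ n x y, x ≠ y →
  Ev (Qn n) (fun s : Finset ℕ => if x ∈ s ∧ y ∈ s then (1 : ZMod 2) else 0)

/-- Percolation from a cone cascade. -/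
def CASC_s : Prop := ∀ n (hd : DimP n) (G : Finset (Finset ℕ)) (v : ℕ) (rk : ℕ → ℕ → ℕ), v < n →
  (∀ x y, rk x y = rk y x) →
  (∀ x < n, ∀ y < n, x ≠ y → x ≠ v → y ≠ v → Cl (Qn n) (G : Set (Finset ℕ)) {v, x, y} ∨
     ∃ w < n, w ≠ v ∧ w ≠ x ∧ w ≠ y ∧ {x, y, w} ∈ G ∧ rk x w < rk x y ∧ rk y w < rk x y) →
  Perc (sysN n hd) G

/-- A member of the locked class from face ranks. -/
def RZ_s : Prop := ∀ n (hd : DimP n) (G : Finset (Finset ℕ)) (frk : Finset ℕ → ℕ), G ⊆ Om n →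
  (∀ f ∈ G, frk f = 0 ∨ ∃ w < n, w ∉ f ∧ ∀ x ∈ f, insert w (f.erase x) ∈ G ∧
     frk (insert w (f.erase x)) < frk f) →
  (G.filter (frk · = 0)).card = (n - 1).choose 2 → ∃ R, InS (sysN n hd) G R

/-- The vertices completing `f` to a quad of `G`. -/
def apx (n : ℕ) (G : Finset (Finset ℕ)) (f : Finset ℕ) : Finset ℕ :=
  (range n).filter (fun w => w ∉ f ∧ ∀ x ∈ f, insert w (f.erase x) ∈ G)

/-- Degree conditions give the first five fields of `Base`. -/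
def CNT_s : Prop := ∀ n (hd : DimP n) (G Sig : Finset (Finset ℕ)) (u : Finset ℕ), G ⊆ Om n →
  u ∈ G → u ∉ Sig → (apx n G u).card = 1 → (∀ f ∈ G, f ∈ Sig → (apx n G f).card = 3) →
  (∀ f ∈ G, f ≠ u → f ∉ Sig → (apx n G f).card = 2) →
  4 * (n - 1).choose 2 + Sig.card ≤ 2 * G.card + 1 →
  (∀ f ∈ G, f ≠ u → ∃ q q', FQ (sysN n hd) G q ∧ FQ (sysN n hd) G q' ∧ q ≠ q' ∧ f ∈ q ∧ f ∈ q') ∧
  (∀ f ∈ G, f ∉ Sig → ∀ q1 q2 q3, FQ (sysN n hd) G q1 → FQ (sysN n hd) G q2 →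
    FQ (sysN n hd) G q3 → f ∈ q1 → f ∈ q2 → f ∈ q3 → q1 = q2 ∨ q1 = q3 ∨ q2 = q3) ∧
  ∃ FS : Finset (Finset (Finset ℕ)), (∀ q, FQ (sysN n hd) G q → q ∈ FS) ∧
    (n - 1).choose 2 + FS.card ≤ G.card

/-- Pairs on which the normalised potential of a cocycle vanishing on `G \ I` is zero. -/
inductive Dv (n root : ℕ) (par : ℕ → ℕ) (G : Finset (Finset ℕ)) (I : Set (Finset ℕ)) :
    ℕ → ℕ → Prop
  | tree {x : ℕ} : x < n → x ≠ root → Dv n root par G I x (par x)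
  | symm {x y : ℕ} : Dv n root par G I x y → Dv n root par G I y x
  | face {x y w : ℕ} : x < n → y < n → w < n → x ≠ y → x ≠ w → y ≠ w → {x, y, w} ∈ G →
      {x, y, w} ∉ I → Dv n root par G I x w → Dv n root par G I y w → Dv n root par G I x y

def TreeOK (n root : ℕ) (par : ℕ → ℕ) : Prop :=
  ∃ trk : ℕ → ℕ, ∀ x < n, x ≠ root → par x < n ∧ trk (par x) < trk x

def LOC_s : Prop := ∀ n root par G I, TreeOK n root par → ∀ x < n, ∀ y < n, ∀ z < n,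
  x ≠ y → x ≠ z → y ≠ z → Dv n root par G I x y → Dv n root par G I x z →
  Dv n root par G I y z →
  ∀ ψ, Ev (Qn n) ψ → (∀ f ∈ G, f ∉ I → ψ f = 0) → ψ {x, y, z} = 0

/-- Zones: four-cycles `c j 0 … c j 3`, rim paths `rim j 0 … rim j (L j - 1)`. -/
structure Zn where
  J : ℕ
  c : ℕ → ℕ → ℕ
  L : ℕ → ℕ
  rim : ℕ → ℕ → ℕ
  lab : Finset ℕ → ℕ
  Sk : ℕ → ℕ → Prop
  Fo : ℕ → ℕ → ℕ → Prop
  Fu : ℕ → ℕ → ℕ → Prop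
  nrk : ℕ → ℕ → ℕ

namespace Zn
variable (Z : Zn)
def nf (j p i : ℕ) : Finset ℕ := {Z.rim j p, Z.c j i, Z.c j ((i + 1) % 4)}
def rf (j p i : ℕ) : Finset ℕ := {Z.rim j p, Z.rim j (p + 1), Z.c j i}
def tet (j p i : ℕ) : Finset (Finset ℕ) :=
  qd (Z.rim j p) (Z.rim j (p + 1)) (Z.c j i) (Z.c j ((i + 1) % 4))
def Node (j p : ℕ) : Prop := j < Z.J ∧ 0 < p ∧ p + 1 < Z.L j
/-- Quads of the segment of zone `j` between positions `p0` and `p1`. -/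
def seg (j p0 p1 : ℕ) : Finset (Finset (Finset ℕ)) :=
  ((Ico p0 p1) ×ˢ (range 4)).image (fun x => Z.tet j x.1 x.2)
/-- Faces of zone `j` that may carry the local cycle for the core `(j, p0, p1)`. -/
def Icore (j p0 p1 : ℕ) : Set (Finset ℕ) :=
  {f | (∃ p i, Z.Node j p ∧ p ≠ p0 ∧ p ≠ p1 ∧ i < 4 ∧ f = Z.nf j p i) ∨
       ∃ p i, p + 1 < Z.L j ∧ i < 4 ∧ f = Z.rf j p i}
def Iall (cs : List (ℕ × ℕ × ℕ)) : Set (Finset ℕ) := {f | ∃ x ∈ cs, f ∈ Z.Icore x.1 x.2.1 x.2.2}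
def Reg (cs : List (ℕ × ℕ × ℕ)) : Set (Finset (Finset ℕ)) :=
  {τ | ∃ x ∈ cs, τ ∈ Z.seg x.1 x.2.1 x.2.2}
def CoresOK (cs : List (ℕ × ℕ × ℕ)) : Prop :=
  (∀ x ∈ cs, x.1 < Z.J ∧ x.2.1 < x.2.2 ∧ x.2.2 < Z.L x.1) ∧
    ∀ x ∈ cs, ∀ y ∈ cs, x.1 = y.1 → x = y
/-- Node `(k, p)` is safe for the cores `cs`. -/
def NGood (cs : List (ℕ × ℕ × ℕ)) (k p : ℕ) : Prop :=
  ∀ x ∈ cs, ((Z.rim k p = Z.rim x.1 x.2.1 ∨ Z.rim k p = Z.rim x.1 x.2.2) ∧ ¬ Z.Fo k p x.1) ∨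
    ¬ Z.Fu k p x.1
/-- Pair `(x, y)` is safe for the cores `cs` (one orientation). -/
def PGood (cs : List (ℕ × ℕ × ℕ)) (x y : ℕ) : Prop :=
  Z.Sk x y ∨ (∃ k p i, Z.Node k p ∧ i < 4 ∧ x = Z.rim k p ∧ y = Z.c k i ∧ Z.NGood cs k p) ∨
    ∃ k p, k < Z.J ∧ p + 1 < Z.L k ∧ x = Z.rim k p ∧ y = Z.rim k (p + 1) ∧ (∀ z ∈ cs, z.1 ≠ k) ∧
      (Z.Node k p → Z.NGood cs k p) ∧ (Z.Node k (p + 1) → Z.NGood cs k (p + 1))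
/-- How the pair `(x, y)` is covered (one orientation). -/
def Cov (x y : ℕ) : Prop :=
  Z.Sk x y ∨ (∃ k p i, Z.Node k p ∧ i < 4 ∧ x = Z.rim k p ∧ y = Z.c k i) ∨
    ∃ k p, k < Z.J ∧ p + 1 < Z.L k ∧ x = Z.rim k p ∧ y = Z.rim k (p + 1)

structure OK (n root : ℕ) (par : ℕ → ℕ) (G : Finset (Finset ℕ)) : Prop where
  cn : ∀ j < Z.J, ∀ i < 4, Z.c j i < n
  ci : ∀ j < Z.J, ∀ i < 4, ∀ i' < 4, Z.c j i = Z.c j i' → i = i'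
  rn : ∀ j < Z.J, ∀ p < Z.L j, Z.rim j p < n
  ri : ∀ j < Z.J, ∀ p < Z.L j, ∀ p' < Z.L j, Z.rim j p = Z.rim j p' → p = p'
  rc : ∀ j < Z.J, ∀ p < Z.L j, ∀ i < 4, Z.rim j p ≠ Z.c j i
  nfG : ∀ j < Z.J, ∀ p < Z.L j, ∀ i < 4, Z.nf j p i ∈ G ∧ Z.lab (Z.nf j p i) / 2 = j + 1 ∧
    (Z.Node j p → Z.lab (Z.nf j p i) % 2 = 0)
  rfG : ∀ j < Z.J, ∀ p, p + 1 < Z.L j → ∀ i < 4, Z.rf j p i ∈ G ∧ Z.lab (Z.rf j p i) = 2 * (j + 1)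
  tree : TreeOK n root par
  sk : ∀ x y, Z.Sk x y → Dv n root par G {f | Z.lab f ≠ 0 ∧ Z.lab f % 2 = 0} x y
  skc : ∀ j < Z.J, ∀ i < 4, Z.Sk (Z.c j i) (Z.c j ((i + 1) % 4)) ∧ Z.Sk (Z.rim j 0) (Z.c j i) ∧
    Z.Sk (Z.rim j (Z.L j - 1)) (Z.c j i)
  fu : ∀ j p, Z.Node j p → Z.Fu j p j ∧ ∀ k, Z.Fo j p k → Z.Fu j p k
  par : ∀ j p, Z.Node j p → ∃ i < 4, Z.Sk (Z.rim j p) (Z.c j i) ∨
    ∃ j' p' i', Z.Node j' p' ∧ i' < 4 ∧ Z.nrk j' p' < Z.nrk j p ∧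
      ((Z.rim j' p' = Z.rim j p ∧ Z.c j' i' = Z.c j i ∧ (∀ k, Z.Fo j' p' k → Z.Fo j p k) ∧
          ∀ k, Z.Fu j' p' k → Z.Fu j p k) ∨
       (Z.rim j' p' = Z.c j i ∧ Z.c j' i' = Z.rim j p ∧ ∀ k, Z.Fu j' p' k → Z.Fo j p k))
  mem : ∀ k p, Z.Node k p → ∀ j < Z.J, ∀ p' < Z.L j, Z.rim j p' = Z.rim k p → ¬ Z.Fo k p j
  cov : ∀ x < n, ∀ y < n, x < y → Z.Cov x y ∨ Z.Cov y x

end Zn

/-- Skeleton pairs from ranks. -/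
def SK_s : Prop := ∀ n root par G I (Sk : ℕ → ℕ → Prop) (srk : ℕ → ℕ → ℕ),
  (∀ x y, Sk x y → Sk y x ∧ srk x y = srk y x) →
  (∀ x y, Sk x y → x < y → (x < n ∧ x ≠ root ∧ y = par x) ∨ (y < n ∧ y ≠ root ∧ x = par y) ∨
     ∃ w, x < n ∧ y < n ∧ w < n ∧ x ≠ w ∧ y ≠ w ∧ {x, y, w} ∈ G ∧ {x, y, w} ∉ I ∧ Sk x w ∧ Sk y w ∧
       srk x w < srk x y ∧ srk y w < srk x y) →
  ∀ x y, Sk x y → x ≠ y → Dv n root par G I x y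

/-- Safe pairs are derivable. -/
def PG_s : Prop := ∀ (Z : Zn) n root par G, Z.OK n root par G → ∀ cs, Z.CoresOK cs →
  ∀ x y, Z.PGood cs x y → Dv n root par G (Z.Iall cs) x y

/-- Segments. -/
def SEG_s : Prop := ∀ (Z : Zn) n (hd : DimP n) root par G, Z.OK n root par G →
  (∀ cs, Z.CoresOK cs → (∀ τ ∈ Z.Reg cs, FQ (sysN n hd) G τ) ∧
     (∀ f, ∀ τ ∈ Z.Reg cs, ∀ τ' ∈ Z.Reg cs, τ ≠ τ' → f ∈ τ → f ∈ τ' → f ∈ Z.Iall cs) ∧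
     (∀ f, ∀ τ ∈ Z.Reg cs, f ∈ τ → Z.lab f ≠ 0)) ∧
  ∀ j < Z.J, ∀ p0 p1, p0 < p1 → p1 < Z.L j → (∀ i < 4, {Z.rim j p0, Z.rim j p1, Z.c j i} ∉ G) →
    ∀ f ∈ G, Even (((range 4).filter (fun i =>
        f ∈ qd (Z.rim j p0) (Z.rim j p1) (Z.c j i) (Z.c j ((i + 1) % 4)))).card +
      ((Z.seg j p0 p1).filter (f ∈ ·)).card)

/-- Plain four-cycle blocks. -/
def ZB_s : Prop := ∀ (Z : Zn) n (hd : DimP n) root par G Sig u τ1 τ2 h1 h2,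
  Base (sysN n hd) G Sig u τ1 τ2 h1 h2 → Z.OK n root par G → (∀ f ∈ Sig, Z.lab f = 0) →
  ∀ j < Z.J, ∀ p0 p1, p0 < p1 → p1 < Z.L j → (∀ i < 4, {Z.rim j p0, Z.rim j p1, Z.c j i} ∉ G) →
  ∀ noLoc B : Finset (Finset ℕ) → Prop,
    (∀ q, Gate (sysN n hd) G q → B q → ¬ noLoc q ∧
      ∃ i < 4, q = qd (Z.rim j p0) (Z.rim j p1) (Z.c j i) (Z.c j ((i + 1) % 4))) →
    BPon (sysN n hd) G noLoc B

/-- The target. -/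
def MAIN_s : Prop := ∃ d n, 2 ≤ d ∧ d + 1 ≤ n ∧ ∃ T T' : Finset (Finset (Fin n)),
  IsHypertree n d T ∧ Collapsible d T ∧ IsHypertree n d T' ∧ Collapsible d T' ∧
    ¬ Relation.ReflTransGen (Exchange n d) T T'

end Pool.Agent.MP_797bdc_co.Lk
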