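import Pool.Agent.MP_797bdc_co.Lk.Stm

/-! A stronger form of the localisation block lemma. -/

namespace Pool.Agent.MP_797bdc_co.Lk

open Finset

/-- As `GENL_s`, but the faces through a killable edge may lie in quads of `Reg`. -/
def GENL2_s : Prop := ∀ (α : Type) [DecidableEq α] (S : Sys α) (G Sig : Finset α) (u τ1 τ2 : α)
  (h1 h2 : Finset α), Base S G Sig u τ1 τ2 h1 h2 →
  ∀ (noLoc B : Finset α → Prop) (k : ℕ) (γ : ℕ → Finset α) (cls : ℕ → Prop) (s : ℕ)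
  (sm : ℕ → Finset α) (Reg : Set (Finset α)) (I : Set α) (e : ℕ) (κ : ℕ → α → ZMod 2)
  (fk : ℕ → α),
  (∀ q, Gate S G q → B q → ¬ noLoc q) →
  Ears S G B k γ cls ({τ | ∃ i < s, τ = sm i} ∪ Reg) →
  Peel s sm Reg {f | ∃ i < e, f = fk i} →
  (∀ f ∈ Sig, ∀ τ τ', τ ∈ {τ | ∃ i < s, τ = sm i} ∪ Reg → τ' ∈ {τ | ∃ i < s, τ = sm i} ∪ Reg →
     f ∈ τ → f ∈ τ' → τ = τ') →
  (∀ f, ∀ τ ∈ Reg, ∀ τ' ∈ Reg, τ ≠ τ' → f ∈ τ → f ∈ τ' → f ∈ I) →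
  (∀ i < e, Ev S.Q (κ i) ∧ κ i (fk i) = 1 ∧ (∀ l < i, κ i (fk l) = 0) ∧
     ∀ f ∈ G, κ i f ≠ 0 → ∃ τ ∈ {τ | ∃ i < s, τ = sm i} ∪ Reg,
       ∃ τ' ∈ {τ | ∃ i < s, τ = sm i} ∪ Reg, τ ≠ τ' ∧ f ∈ τ ∧ f ∈ τ') →
  (∀ i < k, cls i → ∃ t ∈ γ i, t ∉ G ∧ (∀ l < e, κ l t = 0) ∧
     ∀ ψ, Ev S.Q ψ → (∀ f ∈ G, f ∉ I → ψ f = 0) → ψ t = 0) →
  BPon S G noLoc B

end Pool.Agent.MP_797bdc_co.Lk
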