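import Pool.Agent.MP_797bdc_co.Lk.XS

/-! Row C5 of checker X: closing by the boundary of a 5-set, and the general closing. -/

namespace Pool.Agent.MP_797bdc_co.Lk

open Finset

namespace XC5

theorem xor_bit {W a v : ℕ} : (Nat.xor W (p2 a)).testBit v = true ↔
    (W.testBit v = true ∧ v ≠ a) ∨ (¬ W.testBit v = true ∧ v = a) := by
  rw [show Nat.xor W (p2 a) = W ^^^ p2 a from rfl, Nat.testBit_xor, ← p2_bit (a := a) (v := v),
    Ne, ← p2_bit (a := a) (v := v)]
  cases W.testBit v <;> cases (p2 a).testBit v <;> simp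

theorem at_lt {E : XE} (hon : E.on = 2 ^ E.n - 1) {Q l v : ℕ}
    (h : (at_ E.n E.on Q l).testBit v = true) : v < E.n := by
  rw [hon] at h; exact (at_bit.1 h).1

theorem mem_q {E : XE} (hon : E.on = 2 ^ E.n - 1) {Q l : ℕ} {f : Finset ℕ} :
    f ∈ E.q Q l ↔ (∀ v ∈ f, (at_ E.n E.on Q l).testBit v = true) ∧ f.card = 3 := by
  rw [XE.q, mem_qm]
  exact and_congr_left' ⟨fun h v hv => (mem_St.1 (h hv)).2,
    fun h v hv => mem_St.2 ⟨at_lt hon (h v hv), h v hv⟩⟩

theorem cnt5 {a b c d e : ℕ} (ab : a ≠ b) (ac : a ≠ c) (ad : a ≠ d) (ae : a ≠ e) (bc : b ≠ c)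
    (bd : b ≠ d) (be : b ≠ e) (cd : c ≠ d) (ce : c ≠ e) (de : d ≠ e) (f : Finset ℕ)
    (hs : ∀ v ∈ f, v = a ∨ v = b ∨ v = c ∨ v = d ∨ v = e) (h3 : f.card = 3) :
    Even ([e, a, b, c, d].countP (fun v => decide (v ∉ f))) := by
  have h : f = ({a, b, c, d, e} : Finset ℕ).filter (· ∈ f) := by
    ext v
    simp only [mem_filter, mem_insert, mem_singleton]
    exact ⟨fun h => ⟨hs v h, h⟩, fun h => h.2⟩
  rw [h, card_filter, sum_insert (by simp [*]), sum_insert (by simp [*]),
    sum_insert (by simp [*]), sum_insert (by simp [*]), sum_singleton] at h3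
  by_cases ha : a ∈ f <;> by_cases hb : b ∈ f <;> by_cases hc : c ∈ f <;> by_cases hd : d ∈ f <;>
    by_cases he : e ∈ f <;> simp [ha, hb, hc, hd, he] at h3 ⊢

theorem cntIn_eq {E : XE} (hon : E.on = 2 ^ E.n - 1) {Q R m : ℕ} {f : Finset ℕ} (h3 : f.card = 3)
    (hm : ∀ w, m.testBit w = true ↔ w ∈ f) (h : ℕ) :
    cntIn E Q R h m = ((List.range h).map fun u => f10 R (u * 10)).countP
      (fun l => decide (f ∈ E.q Q l)) := by
  induction h with
  | zero => rfl
  | succ h ih =>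
    rw [List.range_succ, List.map_append, List.countP_append, ← ih]
    show cntIn E Q R h m + cn (iz (dd m (at_ E.n E.on Q (f10 R (h * 10))))) 1 0 = _
    congr 1
    have k : iz (dd m (at_ E.n E.on Q (f10 R (h * 10)))) = true ↔ f ∈ E.q Q (f10 R (h * 10)) := by
      rw [iz_iff, dd_z, mem_q hon]
      simp only [hm, h3, and_true]
    rw [cn_eq]
    by_cases c : f ∈ E.q Q (f10 R (h * 10))
    · rw [if_pos (k.2 c)]; simp [c]
    · rw [if_neg (fun x => c (k.1 x))]; simp [c]

end XC5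

open XC5 in
theorem xc5 : XC5_s := by
  intro E hon Q b Wall
  refine ⟨fun g c e hg hb he h5 => ?_, fun R h h4 hg => ?_⟩
  · simp only [gateErr, lor_z, lte_z, land_z, m2_bit] at hg
    obtain ⟨⟨hab, hcd⟩, hx, -⟩ := hg
    simp only [land_z, m4_bit, p2_bit] at he
    simp only [fiveErr, refErr, lor_z, lte_z, xor_z] at h5
    obtain ⟨⟨⟨l1, e1⟩, l2, e2⟩, ⟨l3, e3⟩, l4, e4⟩ := h5
    have hxa := hx (ga g) (Or.inl rfl)
    have hxb := hx (gb g) (Or.inr rfl)
    have ea := he (ga g) (by simp)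
    have eb := he (gb g) (by simp)
    have ec := he (gc g) (by simp)
    have ed := he (gd g) (by simp)
    rw [not_or] at hxa hxb
    refine ⟨[f10 c 18, f10 c 28, f10 c 38, f10 c 48], ∅, ?_, by simp, fun f => ?_⟩
    · intro l hl
      simp only [List.mem_cons, List.not_mem_nil, or_false] at hl
      rcases hl with rfl | rfl | rfl | rfl
      exacts [l1, l2, l3, l4]
    have hW : ∀ v, (Nat.lor (m4 g) (p2 e)).testBit v = true ↔
        v = ga g ∨ v = gb g ∨ v = gc g ∨ v = gd g ∨ v = e := fun v => by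
      rw [lor_bit, m4_bit, p2_bit]; simp only [or_assoc]
    have key : ∀ l x, at_ E.n E.on Q l = Nat.xor (Nat.lor (m4 g) (p2 e)) (p2 x) →
        (x = ga g ∨ x = gb g ∨ x = gc g ∨ x = gd g ∨ x = e) → (f ∈ E.q Q l ↔
        ((∀ v ∈ f, v = ga g ∨ v = gb g ∨ v = gc g ∨ v = gd g ∨ v = e) ∧ f.card = 3) ∧ x ∉ f) := by
      intro l x hl hx
      rw [mem_q hon, hl]
      simp only [xor_bit, hW]
      refine ⟨fun ⟨h, h3⟩ => ⟨⟨fun v hv => ?_, h3⟩, fun hv => ?_⟩,
        fun ⟨⟨h, h3⟩, hn⟩ => ⟨fun v hv => Or.inl ⟨h v hv, fun e => hn (e ▸ hv)⟩, h3⟩⟩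
      · rcases h v hv with h | h
        exacts [h.1, h.2 ▸ hx]
      · rcases h x hv with h | h
        exacts [h.2 rfl, h.1 hx]
    have k0 := key b e (by
      rw [hb]
      refine Nat.eq_of_testBit_eq fun v => ?_
      rw [Bool.eq_iff_iff, xor_bit, hW, m4_bit]
      have := he v
      tauto) (by simp)
    have k1 := key _ _ e1 (by simp)
    have k2 := key _ _ e2 (by simp)
    have k3 := key _ _ e3 (by simp)
    have k4 := key _ _ e4 (by simp)
    by_cases hf : (∀ v ∈ f, v = ga g ∨ v = gb g ∨ v = gc g ∨ v = gd g ∨ v = e) ∧ f.card = 3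
    · have := cnt5 hab.ne hxa.1 hxa.2 ea hxb.1 hxb.2 eb hcd.ne ec ed f hf.1 hf.2
      rw [and_iff_right hf] at k0 k1 k2 k3 k4
      simpa only [List.countP_cons, List.countP_nil, decide_eq_true_eq, k0, k1, k2, k3, k4,
        filter_empty, card_empty, add_zero] using this
    · simp only [hf, false_and, iff_false] at k0 k1 k2 k3 k4
      simp [k0, k1, k2, k3, k4]
  · simp only [genErr, lor_z, lte_z, xor_z, orN_z, fn_eq, cn_z, iz_iff] at hg
    obtain ⟨⟨h0, hb⟩, hu⟩ := hg
    obtain ⟨h, rfl⟩ : ∃ k, h = k + 1 := ⟨h - 1, by omega⟩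
    have hl : (List.range (h + 1)).map (fun u => f10 R (u * 10)) =
        b :: (List.range h).map (fun u => f10 R ((u + 1) * 10)) := by
      rw [List.range_succ_eq_map, List.map_cons, List.map_map]
      exact congrArg₂ _ hb rfl
    refine ⟨(List.range h).map (fun u => f10 R ((u + 1) * 10)), ∅, ?_, by simp, fun f => ?_⟩
    · intro l hl
      obtain ⟨u, hu', rfl⟩ := List.mem_map.1 hl
      exact (hu (u + 1) (by have := List.mem_range.1 hu'; omega)).1.2 (by omega)
    rw [← hl, filter_empty, card_empty, add_zero]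
    by_cases c : ∃ u < h + 1, f ∈ E.q Q (f10 R (u * 10))
    · obtain ⟨u, hu', hf⟩ := c
      have hle : f10 R (u * 10) ≤ b := by
        rcases Nat.eq_zero_or_pos u with rfl | hp
        · exact hb.le
        · exact ((hu u hu').1.2 hp.ne').le
      have c4 := h4 _ hle
      obtain ⟨hs, h3⟩ := mem_qm.1 hf
      have c1 : (St E.n (at_ E.n E.on Q (f10 R (u * 10))) \ f).card = 1 := by
        rw [card_sdiff_of_subset hs, h3, show (St E.n _).card = 4 from c4]
      obtain ⟨v, hv⟩ := card_eq_one.1 c1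
      have hv' : ∀ w, (w ∈ St E.n (at_ E.n E.on Q (f10 R (u * 10))) ∧ w ∉ f) ↔ w = v := fun w => by
        rw [← mem_sdiff, hv, mem_singleton]
      have hq : ∀ w, w ∈ St E.n (at_ E.n E.on Q (f10 R (u * 10))) ↔
          (at_ E.n E.on Q (f10 R (u * 10))).testBit w = true := fun w =>
        mem_St.trans ⟨fun h => h.2, fun h => ⟨at_lt hon h, h⟩⟩
      have hvq := ((hv' v).2 rfl).1
      have hz := ((hu u hu').2 v (mem_St.1 hvq).1).1 (by rw [tb_eq]; exact (hq v).1 hvq)
      rw [← cntIn_eq hon h3 (m := Nat.xor (at_ E.n E.on Q (f10 R (u * 10))) (p2 v))]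
      · rw [Nat.even_iff, ← Nat.and_one_is_mod]; exact hz
      · intro w
        rw [xor_bit, ← hq]
        have h1 := hv' w
        have h2 := @hs w
        have h3 := ((hv' v).2 rfl).2
        by_cases e : w = v
        · subst e; tauto
        · tauto
    · rw [List.countP_eq_zero.2]
      · exact Even.zero
      · intro l hl
        obtain ⟨u, hu', rfl⟩ := List.mem_map.1 hl
        simpa using fun x => c ⟨u, List.mem_range.1 hu', x⟩

end Pool.Agent.MP_797bdc_co.Lk
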