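import Pool.Agent.MP_797bdc_co.Lk.XS

/-! Row CS: closing by a segment. -/

namespace Pool.Agent.MP_797bdc_co.Lk

open Finset

namespace XCS

lemma mem_qd {a b c d : ℕ} {f : Finset ℕ} (h : f ∈ qd a b c d) (hab : a ≠ b) (hac : a ≠ c)
    (had : a ≠ d) (hbc : b ≠ c) (hbd : b ≠ d) (hcd : c ≠ d) :
    f = {a, b, c} ∨ f = {a, b, d} ∨ f = {a, c, d} ∨ f = {b, c, d} := by
  obtain ⟨h1, h2⟩ := mem_powersetCard.1 h
  have h4 : ({a, b, c, d} : Finset ℕ).card = 4 := by simp [*]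
  obtain ⟨x, hx, hxf⟩ := exists_mem_notMem_of_card_lt_card (show f.card < _ by rw [h4, h2]; omega)
  have h5 : f = ({a, b, c, d} : Finset ℕ).erase x :=
    eq_of_subset_of_card_le (subset_erase.2 ⟨h1, hxf⟩) (by rw [card_erase_of_mem hx, h4, h2])
  simp only [mem_insert, mem_singleton] at hx
  rcases hx with rfl | rfl | rfl | rfl
  · right; right; right; rw [h5]; ext y; simp only [mem_erase, mem_insert, mem_singleton]; omega
  · right; right; left; rw [h5]; ext y; simp only [mem_erase, mem_insert, mem_singleton]; omega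
  · right; left; rw [h5]; ext y; simp only [mem_erase, mem_insert, mem_singleton]; omega
  · left; rw [h5]; ext y; simp only [mem_erase, mem_insert, mem_singleton]; omega

lemma tok_mem {a b c d x : ℕ} (hab : a ≠ b) (hax : a ≠ x) (hbx : b ≠ x) :
    {a, b, x} ∈ qd a b c d ↔ x = c ∨ x = d := by
  rw [qd, mem_powersetCard]
  constructor
  · intro h
    have := h.1 (show x ∈ _ by simp)
    simp only [mem_insert, mem_singleton] at this
    omega
  · intro h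
    refine ⟨fun y => ?_, by simp [*]⟩
    simp only [mem_insert, mem_singleton]
    omega

lemma l3 (x : ℕ) : Nat.land x 3 = x % 4 := Nat.and_two_pow_sub_one_eq_mod x 2

lemma qm_eq {n x0 x1 z i : ℕ} (h0 : x0 < n) (h1 : x1 < n) (h2 : zc z i < n)
    (h3 : zc z ((i + 1) % 4) < n) :
    qm n (Nat.lor (m2 x0 x1) (cpair z i)) = qd x0 x1 (zc z i) (zc z ((i + 1) % 4)) := by
  have e : cpair z i = m2 (zc z i) (zc z ((i + 1) % 4)) := by rw [← l3]; rfl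
  rw [qm, qd, e]
  congr 1
  ext v
  rw [mem_St, lor_bit, m2_bit, m2_bit]
  simp only [mem_insert, mem_singleton]
  constructor
  · rintro ⟨-, h⟩
    exact or_assoc.1 h
  · intro h
    refine ⟨?_, or_assoc.2 h⟩
    rcases h with rfl | rfl | rfl | rfl <;> assumption

lemma cnt (P : ℕ → Prop) [DecidablePred P] (p : ℕ → Bool) {w b l1 l2 l3 : ℕ} (hw : w < 4)
    (h0 : p b = true ↔ P w) (h1 : p l1 = true ↔ P ((w + 1) % 4))
    (h2 : p l2 = true ↔ P ((w + 2) % 4)) (h3 : p l3 = true ↔ P ((w + 3) % 4)) :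
    [b, l1, l2, l3].countP p = ((range 4).filter P).card := by
  simp only [List.countP_cons, List.countP_nil, h0, h1, h2, h3, card_filter, sum_range_succ,
    sum_range_zero]
  interval_cases w <;> simp only [Nat.reduceAdd, Nat.reduceMod] <;> omega

lemma ev4 {G : Finset (Finset ℕ)} {a b : ℕ} {c : ℕ → ℕ} (hab : a ≠ b) (ha : ∀ i < 4, a ≠ c i)
    (hb : ∀ i < 4, b ≠ c i) (ci : ∀ i < 4, ∀ i' < 4, c i = c i' → i = i')
    (g0 : ∀ i < 4, ({a, c i, c ((i + 1) % 4)} : Finset ℕ) ∈ G)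
    (g1 : ∀ i < 4, ({b, c i, c ((i + 1) % 4)} : Finset ℕ) ∈ G) {t : Finset ℕ} (ht : t ∉ G) :
    Even ((range 4).filter (fun i => t ∈ qd a b (c i) (c ((i + 1) % 4)))).card := by
  have tm : ∀ m < 4, ∀ l < 4, {a, b, c m} ∈ qd a b (c l) (c ((l + 1) % 4)) ↔
      m = l ∨ m = (l + 1) % 4 := fun m hm l hl => by
    rw [tok_mem hab (ha m hm) (hb m hm)]
    exact or_congr ⟨ci m hm l hl, congrArg _⟩ ⟨ci m hm _ (by omega), congrArg _⟩
  by_cases h : ∃ m < 4, t = {a, b, c m}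
  · obtain ⟨m, hm, rfl⟩ := h
    rw [filter_congr fun l hl' => tm m hm l (mem_range.1 hl')]
    interval_cases m <;> decide
  · rw [filter_false_of_mem, card_empty]
    · exact Even.zero
    intro l hl' e
    have hl4 := mem_range.1 hl'
    have hl5 : (l + 1) % 4 < 4 := by omega
    rcases mem_qd e hab (ha l hl4) (ha _ hl5) (hb l hl4) (hb _ hl5)
      (fun e => by have := ci l hl4 _ hl5 e; omega) with e | e | e | e
    · exact h ⟨l, hl4, e⟩
    · exact h ⟨_, hl5, e⟩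
    · exact ht (e ▸ g0 l hl4)
    · exact ht (e ▸ g1 l hl4)

lemma cm_bit {z i : ℕ} (hi : i < 4) : (cmask z).testBit (zc z i) = true := by
  rw [cmask, lor_bit, m2_bit, m2_bit]
  interval_cases i
  exacts [.inl (.inl rfl), .inl (.inr rfl), .inr (.inl rfl), .inr (.inr rfl)]

lemma main (hs : SEG_s) {E : XE} {hd : DimP E.n} {root : ℕ} {par : ℕ → ℕ}
    (hon : E.on = 2 ^ E.n - 1) (hM : SymM E.n E.tM.get) (hZ : E.Z.OK E.n root par E.G)
    {cs : List (ℕ × ℕ × ℕ)} (hcs : E.Z.CoresOK cs) {Wall : Set (Finset (Finset ℕ))}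
    (hW : E.Z.Reg cs ⊆ Wall) {j p0 p1 q0 q1 w Q b l1 l2 l3 : ℕ} (hm : (j, p0, p1) ∈ cs)
    (a0 : p0 ≤ q0) (a1 : q0 < q1) (a2 : q1 ≤ p1) (hw : w < 4)
    (hr : Nat.land (row E (zr (E.tZ.get j) q0 * 512 + zr (E.tZ.get j) q1))
      (cmask (E.tZ.get j)) = 0)
    (b1 : l1 < b) (b2 : l2 < b) (b3 : l3 < b)
    (e0 : at_ E.n E.on Q b = Nat.lor (m2 (zr (E.tZ.get j) q0) (zr (E.tZ.get j) q1))
      (cpair (E.tZ.get j) w))
    (e1 : at_ E.n E.on Q l1 = Nat.lor (m2 (zr (E.tZ.get j) q0) (zr (E.tZ.get j) q1))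
      (cpair (E.tZ.get j) ((w + 1) % 4)))
    (e2 : at_ E.n E.on Q l2 = Nat.lor (m2 (zr (E.tZ.get j) q0) (zr (E.tZ.get j) q1))
      (cpair (E.tZ.get j) ((w + 2) % 4)))
    (e3 : at_ E.n E.on Q l3 = Nat.lor (m2 (zr (E.tZ.get j) q0) (zr (E.tZ.get j) q1))
      (cpair (E.tZ.get j) ((w + 3) % 4))) : CloL (E.q Q) Wall b := by
  obtain ⟨hj, -, hL⟩ := hcs.1 _ hm
  have h1L : q1 < E.Z.L j := lt_of_le_of_lt a2 hL
  have h0L : q0 < E.Z.L j := a1.trans h1L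
  have n0 : zr (E.tZ.get j) q0 < E.n := hZ.rn j hj q0 h0L
  have n1 : zr (E.tZ.get j) q1 < E.n := hZ.rn j hj q1 h1L
  have nc : ∀ i < 4, zc (E.tZ.get j) i < E.n := hZ.cn j hj
  have hG : ∀ i < 4, {E.Z.rim j q0, E.Z.rim j q1, E.Z.c j i} ∉ E.G := fun i hi h => by
    refine land_z.1 hr _ ((row_bit hon).2 ⟨nc i hi, ?_⟩) (cm_bit hi)
    have l : zr (E.tZ.get j) q1 < 512 := Nat.and_lt_two_pow _ (show 511 < 2 ^ 9 by norm_num)
    have s1 : (zr (E.tZ.get j) q0 * 512 + zr (E.tZ.get j) q1) >>> 9 = zr (E.tZ.get j) q0 := by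
      rw [Nat.shiftRight_eq_div_pow]; omega
    have s2 : (zr (E.tZ.get j) q0 * 512 + zr (E.tZ.get j) q1) &&& 511 = zr (E.tZ.get j) q1 := by
      rw [show 511 = 2 ^ 9 - 1 from rfl, Nat.and_two_pow_sub_one_eq_mod]; omega
    rw [s1, s2]
    exact (mem_Gd hM n0 n1 (nc i hi)).1 h
  have hR : ∀ τ ∈ E.Z.seg j q0 q1, τ ∈ E.Z.Reg cs := fun τ hτ =>
    ⟨_, hm, image_subset_image (product_subset_product_left (Ico_subset_Ico a0 a2)) hτ⟩
  have eq : ∀ l i, i < 4 → at_ E.n E.on Q l = Nat.lor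
      (m2 (zr (E.tZ.get j) q0) (zr (E.tZ.get j) q1)) (cpair (E.tZ.get j) i) → ∀ f,
      (decide (f ∈ E.q Q l) = true ↔
        f ∈ qd (E.Z.rim j q0) (E.Z.rim j q1) (E.Z.c j i) (E.Z.c j ((i + 1) % 4))) :=
    fun l i hi e f => by
      rw [decide_eq_true_iff, XE.q, e, qm_eq n0 n1 (nc i hi) (nc _ (by omega))]
      rfl
  refine ⟨[l1, l2, l3], E.Z.seg j q0 q1, by simp [*], fun τ hτ => hW (hR τ hτ), fun f => ?_⟩
  rw [cnt (fun i => f ∈ qd (E.Z.rim j q0) (E.Z.rim j q1) (E.Z.c j i) (E.Z.c j ((i + 1) % 4))) _ hw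
    (eq b w hw e0 f) (eq l1 _ (by omega) e1 f) (eq l2 _ (by omega) e2 f) (eq l3 _ (by omega) e3 f)]
  by_cases hf : f ∈ E.G
  · exact (hs E.Z E.n hd root par E.G hZ).2 j hj q0 q1 a1 h1L hG f hf
  · rw [filter_false_of_mem (s := E.Z.seg j q0 q1) fun τ hτ e =>
      hf ((((hs E.Z E.n hd root par E.G hZ).1 cs hcs).1 τ (hR τ hτ)).2 e), card_empty, add_zero]
    exact ev4 (fun e => a1.ne (hZ.ri j hj _ h0L _ h1L e)) (hZ.rc j hj q0 h0L) (hZ.rc j hj q1 h1L)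
      (hZ.ci j hj) (fun i hi => (hZ.nfG j hj q0 h0L i hi).1)
      (fun i hi => (hZ.nfG j hj q1 h1L i hi).1) hf

end XCS

theorem xcs : XCS_s := by
  intro hs E hd root par Sig u τ1 τ2 h1 h2 hH nc xC Q b g c Wall hcs hW hb h
  unfold segErr at h
  simp only [fn_eq, refErr, lor_z, lte_z, sub_z, xor_z] at h
  obtain ⟨⟨⟨k1, k2⟩, k3, k4⟩, ⟨k5, k6⟩, ⟨r1, s1⟩, ⟨r2, s2⟩, r3, s3⟩ := h
  refine XCS.main hs (hd := hd) hH.on hH.sym hH.zok hcs hW
    (List.mem_map.2 ⟨_, List.mem_range.2 k1, rfl⟩) k2 k3 k4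
    (w := bt c (nat_lit 29) (nat_lit 3)) (Nat.and_lt_two_pow _ (show 3 < 2 ^ 2 by norm_num)) k5
    r1 r2 r3 (hb.trans k6) ?_ ?_ ?_
  · rw [← XCS.l3]; exact s1
  · rw [← XCS.l3]; exact s2
  · rw [← XCS.l3]; exact s3

end Pool.Agent.MP_797bdc_co.Lk
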