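import Pool.Agent.MP_797bdc_co.Lk.XS
import Pool.Agent.MP_797bdc_co.Lk.GEN

namespace Pool.Agent.MP_797bdc_co.Lk

open Finset

namespace XGW

open GEN (ev_sd peel)

/-- `Ears` without injectivity. -/
structure EarsW {α : Type} [DecidableEq α] (S : Sys α) (G : Finset α) (B : Finset α → Prop) (k : ℕ)
    (γ : ℕ → Finset α) (cls : ℕ → Prop) (Wall : Set (Finset α)) : Prop where
  cov : ∀ q, Gate S G q → B q → ∃ i < k, q = γ i
  tree : ∀ i < k, ¬ cls i → ∃ s ∈ γ i, s ∉ G ∧ ∀ l < i, s ∉ γ l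
  close : ∀ i < k, cls i → ∃ (C : Finset ℕ) (w : Finset (Finset α)), i ∈ C ∧ (∀ l ∈ C, l ≤ i) ∧
    (∀ τ ∈ w, τ ∈ Wall) ∧
    (∀ t, t ∉ G → Even (C.filter (t ∈ γ ·)).card) ∧
    ∀ f ∈ G, Even ((C.filter (f ∈ γ ·)).card + (w.filter (f ∈ ·)).card)
  wF : ∀ τ ∈ Wall, FQ S G τ

variable {α : Type} [DecidableEq α] {S : Sys α} {G : Finset α} {B : Finset α → Prop} {k : ℕ}
  {γ : ℕ → Finset α} {cls : ℕ → Prop} {Wall : Set (Finset α)}

theorem cd1 {β : Type} (x : β) (p : β → Prop) [DecidablePred p] :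
    (({x} : Finset β).filter p).card = if p x then 1 else 0 := by
  rw [filter_singleton]
  split_ifs <;> simp

theorem tog {t i : ℕ} {Q : ℕ → Finset α} (ht : ∀ l < t, Q l ∈ Wall) :
    ∀ R : List ℕ, (∀ l ∈ R, l < t + i) → ∃ (C : Finset ℕ) (w : Finset (Finset α)),
      (∀ l ∈ C, l < i) ∧ (∀ τ ∈ w, τ ∈ Wall) ∧ ∀ f, Even (R.countP (fun l => decide (f ∈ Q l)) +
        (C.filter (fun l => f ∈ Q (t + l))).card + (w.filter (f ∈ ·)).card)
  | [], _ => ⟨∅, ∅, by simp, by simp, fun f => by simp⟩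
  | b :: R, hR => by
    obtain ⟨C, w, a1, a2, a3⟩ := tog ht R fun l hl => hR l (List.mem_cons_of_mem _ hl)
    have hb := hR b List.mem_cons_self
    by_cases c : b < t
    · refine ⟨C, symmDiff w {Q b}, a1, fun τ hτ => ?_, fun f => ?_⟩
      · rcases mem_symmDiff.1 hτ with hτ | hτ
        · exact a2 τ hτ.1
        · rw [mem_singleton.1 hτ.1]; exact ht b c
      · have e1 := ev_sd w {Q b} (f ∈ ·)
        have e2 := a3 f
        rw [cd1] at e1
        rw [List.countP_cons]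
        by_cases cf : f ∈ Q b
        · rw [if_pos cf] at e1
          rw [if_pos (decide_eq_true cf), Nat.even_iff] at *
          omega
        · rw [if_neg cf] at e1
          rw [if_neg (by simpa using cf), Nat.even_iff] at *
          omega
    · obtain ⟨j, rfl⟩ := Nat.exists_eq_add_of_le (not_lt.1 c)
      refine ⟨symmDiff C {j}, w, fun l hl => ?_, a2, fun f => ?_⟩
      · rcases mem_symmDiff.1 hl with hl | hl
        · exact a1 l hl.1
        · rw [mem_singleton.1 hl.1]; omega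
      · have e1 := ev_sd C {j} (fun l => f ∈ Q (t + l))
        have e2 := a3 f
        rw [cd1] at e1
        rw [List.countP_cons]
        by_cases cf : f ∈ Q (t + j)
        · rw [if_pos cf] at e1
          rw [if_pos (decide_eq_true cf), Nat.even_iff] at *
          omega
        · rw [if_neg cf] at e1
          rw [if_neg (by simpa using cf), Nat.even_iff] at *
          omega

theorem toW {t kt : ℕ} {Q : ℕ → Finset α} (h : EarsL S G B t kt k Q Wall) :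
    EarsW S G B k (fun i => Q (t + i)) (fun i => kt ≤ i) Wall := by
  refine ⟨h.cov, fun i _ c => h.tree i (not_le.1 c), fun i hi c => ?_, h.wF⟩
  obtain ⟨R, w, a1, a2, a3⟩ := h.close i hi c
  obtain ⟨C, w', b1, b2, b3⟩ := tog h.tets R a1
  have hw : ∀ τ ∈ symmDiff w w', τ ∈ Wall := fun τ hτ => by
    rcases mem_symmDiff.1 hτ with hτ | hτ
    exacts [a2 τ hτ.1, b2 τ hτ.1]
  have iC : i ∉ C := fun hh => lt_irrefl _ (b1 i hh)
  have key : ∀ f, Even (((insert i C).filter (fun l => f ∈ Q (t + l))).card +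
      ((symmDiff w w').filter (f ∈ ·)).card) := fun f => by
    have e1 := ev_sd w w' (f ∈ ·)
    have e2 := a3 f
    have e3 := b3 f
    rw [List.countP_cons] at e2
    rw [filter_insert]
    by_cases cf : f ∈ Q (t + i)
    · rw [if_pos (decide_eq_true cf)] at e2
      rw [if_pos cf, card_insert_of_notMem fun hh => iC (mem_filter.1 hh).1, Nat.even_iff] at *
      omega
    · rw [if_neg (by simpa using cf)] at e2
      rw [if_neg cf, Nat.even_iff] at *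
      omega
  refine ⟨insert i C, symmDiff w w', mem_insert_self _ _, fun l hl => ?_, hw, fun x hx => ?_,
    fun f _ => key f⟩
  · rcases mem_insert.1 hl with rfl | hl
    exacts [le_rfl, (b1 l hl).le]
  · have e := key x
    have e0 : (symmDiff w w').filter (x ∈ ·) = ∅ :=
      filter_eq_empty_iff.2 fun τ hτ hxτ => hx ((h.wF τ (hw τ hτ)).2 hxτ)
    rw [e0, card_empty, add_zero] at e
    exact e

theorem top (h : EarsW S G B k γ cls Wall) {J : Finset ℕ} {i : ℕ} (hi : i ∈ J) (hk : i < k)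
    (hJ : ∀ l ∈ J, l ≤ i) (ev : ∀ t, t ∉ G → Even (J.filter (t ∈ γ ·)).card) : cls i := by
  by_contra c
  obtain ⟨s, h1, h2, h3⟩ := h.tree i hk c
  have e : J.filter (s ∈ γ ·) = {i} := by
    ext l
    rw [mem_filter, mem_singleton]
    refine ⟨fun hl => ?_, fun hl => hl ▸ ⟨hi, h1⟩⟩
    by_contra c1
    exact h3 l (lt_of_le_of_ne (hJ l hl.1) c1) hl.2
  have := ev s h2
  rw [e, card_singleton] at this
  exact Nat.not_even_one this

theorem fill (h : EarsW S G B k γ cls Wall) : ∀ j ≤ k, ∀ J : Finset ℕ, (∀ l ∈ J, l < j) →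
    (∀ t, t ∉ G → Even (J.filter (t ∈ γ ·)).card) → ∃ w : Finset (Finset α), (∀ τ ∈ w, τ ∈ Wall) ∧
      ∀ f ∈ G, Even ((J.filter (f ∈ γ ·)).card + (w.filter (f ∈ ·)).card)
  | 0, _, J, hJ, _ => ⟨∅, by simp, fun f _ => by
      rw [eq_empty_of_forall_notMem fun l hl => absurd (hJ l hl) (Nat.not_lt_zero l)]; simp⟩
  | j + 1, hj, J, hJ, ev => by
    by_cases c : j ∈ J
    · obtain ⟨C, w, a1, a2, a3, a4, a5⟩ :=
        h.close j hj (top h c hj (fun l hl => Nat.lt_succ_iff.1 (hJ l hl)) ev)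
      obtain ⟨w', b1, b2⟩ := fill h j (by omega) (symmDiff J C) (fun l hl => by
        rw [mem_symmDiff] at hl
        have : l ≠ j := by rintro rfl; tauto
        rcases hl with hl | hl
        · have := hJ l hl.1; omega
        · have := a2 l hl.1; omega) (fun t ht => by
        have e1 := ev_sd J C (t ∈ γ ·)
        have e2 := ev t ht
        have e3 := a4 t ht
        rw [Nat.even_iff] at *
        omega)
      refine ⟨symmDiff w w', fun τ hτ => ?_, fun f hf => ?_⟩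
      · rcases mem_symmDiff.1 hτ with hτ | hτ
        exacts [a3 τ hτ.1, b1 τ hτ.1]
      · have e1 := ev_sd J C (f ∈ γ ·)
        have e2 := ev_sd w w' (f ∈ ·)
        have e3 := a5 f hf
        have e4 := b2 f hf
        rw [Nat.even_iff] at *
        omega
    · exact fill h j (by omega) J (fun l hl => by
        have := hJ l hl
        have : l ≠ j := by rintro rfl; exact c hl
        omega) ev

/-- the local cycle given by the bubble lemma -/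
theorem core (hb : BUB_s) (h : EarsW S G B k γ cls Wall)
    (h3 : ∀ f ∈ G, ∀ q1 ∈ Wall, ∀ q2 ∈ Wall, ∀ q3 ∈ Wall, f ∈ q1 → f ∈ q2 → f ∈ q3 →
      q1 = q2 ∨ q1 = q3 ∨ q2 = q3)
    {X : Set α} (hX : FClosed S G X) {D : Finset (Finset α)} (hD : ∀ q ∈ D, Gate S G q ∧ B q)
    (ev : TEven G D) {q0 : Finset α} (h0 : q0 ∈ D) {m : α} (m0 : m ∈ q0) (mG : m ∈ G) (mX : m ∉ X)
    (uq : ∀ q ∈ D, ∀ f ∈ q, f ∈ G → f ∉ X → q = q0 ∧ f = m) :
    (∃ i < k, cls i ∧ γ i ∈ D) ∧ ∃ (w : Finset (Finset α)) (χ : α → ZMod 2),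
      (∀ τ ∈ w, τ ∈ Wall) ∧ (∃ a, χ a ≠ 0) ∧ (∀ q ∈ w, ∑ a ∈ q, χ a = 0) ∧
      ∀ a, χ a ≠ 0 → a ∈ G ∧ a ∉ X ∧ ∃ τ ∈ w, ∃ τ' ∈ w, τ ≠ τ' ∧ a ∈ τ ∧ a ∈ τ' := by
  classical
  set J := (range k).filter (fun l => γ l ∈ D ∧ ∀ l' < l, γ l' ≠ γ l) with hJ
  have mJ0 : ∀ l, l ∈ J ↔ l < k ∧ γ l ∈ D ∧ ∀ l' < l, γ l' ≠ γ l := fun l => by
    rw [hJ, mem_filter, mem_range]
  have ex : ∀ q ∈ D, ∃ i ∈ J, γ i = q := fun q hq => by
    obtain ⟨i, hi, rfl⟩ := h.cov q (hD q hq).1 (hD q hq).2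
    have hh : ∃ l, γ l = γ i := ⟨i, rfl⟩
    refine ⟨Nat.find hh, (mJ0 _).2 ⟨lt_of_le_of_lt (Nat.find_min' hh rfl) hi, ?_, fun l' hl' => ?_⟩,
      Nat.find_spec hh⟩
    · rw [Nat.find_spec hh]; exact hq
    · rw [Nat.find_spec hh]; exact Nat.find_min hh hl'
  have cd : ∀ t, (J.filter (t ∈ γ ·)).card = (D.filter (t ∈ ·)).card := fun t => by
    refine card_bij (fun l _ => γ l) (fun l hl => ?_) (fun l hl l' hl' e => ?_) fun q hq => ?_
    · rw [mem_filter] at hl ⊢; exact ⟨((mJ0 l).1 hl.1).2.1, hl.2⟩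
    · rcases lt_trichotomy l l' with c | c | c
      · exact absurd e (((mJ0 l').1 (mem_filter.1 hl').1).2.2 l c)
      · exact c
      · exact absurd e.symm (((mJ0 l).1 (mem_filter.1 hl).1).2.2 l' c)
    · rw [mem_filter] at hq
      obtain ⟨i, hi, rfl⟩ := ex q hq.1
      exact ⟨i, mem_filter.2 ⟨hi, hq.2⟩, rfl⟩
  have mJ : ∀ l, l ∈ J → l < k ∧ γ l ∈ D := fun l hl => ⟨((mJ0 l).1 hl).1, ((mJ0 l).1 hl).2.1⟩
  have evJ : ∀ t, t ∉ G → Even (J.filter (t ∈ γ ·)).card := fun t ht => cd t ▸ ev t ht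
  have ne : J.Nonempty := by
    obtain ⟨i, hi, -⟩ := ex q0 h0
    exact ⟨i, hi⟩
  have tp := mJ _ (J.max'_mem ne)
  refine ⟨⟨_, tp.1, top h (J.max'_mem ne) tp.1 (fun l hl => J.le_max' l hl) evJ, tp.2⟩, ?_⟩
  obtain ⟨w, w1, w2⟩ := fill h k le_rfl J (fun l hl => (mJ l hl).1) evJ
  have le2 : ∀ f ∈ G, (w.filter (f ∈ ·)).card ≤ 2 := fun f hf => by
    by_contra c
    obtain ⟨q1, q2, q3, a1, a2, a3, b1, b2, b3⟩ := two_lt_card_iff.1 (not_le.1 c)
    rw [mem_filter] at a1 a2 a3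
    have := h3 f hf q1 (w1 _ a1.1) q2 (w1 _ a2.1) q3 (w1 _ a3.1) a1.2 a2.2 a3.2
    tauto
  have dm : (w.filter (m ∈ ·)).card = 1 := by
    have e : D.filter (m ∈ ·) = {q0} := by
      ext q
      rw [mem_filter, mem_singleton]
      exact ⟨fun hq => (uq q hq.1 m hq.2 mG mX).1, fun hq => hq ▸ ⟨h0, m0⟩⟩
    have e1 := w2 m mG
    have := le2 m mG
    rw [cd, e, card_singleton, Nat.even_iff] at e1
    omega
  obtain ⟨χ, c1, c2, c3⟩ := hb α w {f | f ∈ G ∧ f ∉ X} (some m) (fun q hq a ha haM => by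
      have fq := h.wF q (w1 q hq)
      by_contra c
      exact haM.2 (hX q fq a ha fun b hb hba => by
        by_contra c1; exact c ⟨b, hb, hba, fq.2 hb, c1⟩))
    (fun f hf hne => by
      have e : D.filter (f ∈ ·) = ∅ := filter_eq_empty_iff.2 fun q hq hfq =>
        hne (congrArg some (uq q hq f hfq hf.1 hf.2).2.symm)
      have e1 := w2 f hf.1
      have := le2 f hf.1
      rw [cd, e, card_empty, Nat.even_iff] at e1
      omega)
    (fun f hf => by rw [← Option.some.inj hf, dm])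
    (by
      obtain ⟨q, hq⟩ := card_pos.1 (dm ▸ Nat.one_pos : 0 < (w.filter (m ∈ ·)).card)
      rw [mem_filter] at hq
      exact ⟨q, hq.1, m, hq.2, mG, mX⟩)
  refine ⟨w, χ, w1, c1, c3, fun a ha => ?_⟩
  obtain ⟨⟨a1, a2⟩, a3⟩ := c2 a ha
  obtain ⟨τ, τ', b1, b2, b3⟩ := one_lt_card_iff.1 (by omega : 1 < (w.filter (a ∈ ·)).card)
  rw [mem_filter] at b1 b2
  exact ⟨a1, a2, τ, b1.1, τ', b2.1, b3, b1.2, b2.2⟩

end XGW

open XGW
open GEN (ev_sd peel)

theorem xgw : XGW_s := by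
  intro hb
  constructor
  · intro α _ S G noLoc B safe t kt k Q s sm h0' hp h3 X hX D hD ev q0 h0 m m0 mG mX uq
    have h := toW h0'
    exfalso
    obtain ⟨-, w, χ, w1, ⟨a, ha⟩, c2, c3⟩ := XGW.core hb h (by
      rintro f - _ ⟨i, hi, rfl⟩ _ ⟨l, hl, rfl⟩ _ ⟨p, hp, rfl⟩ a1 a2 a3
      exact (h3 f i hi l hl p hp a1 a2 a3).imp (congrArg sm) (Or.imp (congrArg sm) (congrArg sm)))
      hX hD ev h0 m0 mG mX uq
    obtain ⟨-, -, τ, a1, -, -, -, a2, -⟩ := c3 a ha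
    obtain ⟨i, hi, rfl⟩ := w1 τ a1
    refine ha (peel hp χ (· ∈ w) (fun f hf => hf.elim) (fun l _ hl => c2 _ hl)
      (fun l _ _ f _ hf => ?_) i hi a1 a a2)
    obtain ⟨-, -, τ, b1, τ', b2, b3, b4, b5⟩ := c3 f hf
    exact ⟨τ, τ', b3, b4, b5, Or.inl ⟨b1, w1 τ b1⟩, Or.inl ⟨b2, w1 τ' b2⟩⟩
  intro α _ S G Sig u τ1 τ2 h1 h2 base noLoc B safe t0 kt k Q s sm Reg I e κ fk hn h0' hp hS hI hκ ht
    hsf X hX D hD ev q0 h0 m m0 mG mX uq
  have h := toW h0'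
  obtain ⟨⟨i0, i1, i2, i3⟩, w, χ, w1, ⟨a, ha⟩, c2, c3⟩ := XGW.core hb h (fun f hf q1 a1 q2 a2 q3 a3
      b1 b2 b3 => by
    by_cases c : f ∈ Sig
    · exact Or.inl (hS f c q1 q2 a1 a2 b1 b2)
    · exact base.degle f hf c q1 q2 q3 (h.wF _ a1) (h.wF _ a2) (h.wF _ a3) b1 b2 b3)
    hX hD ev h0 m0 mG mX uq
  refine ⟨hn q0 (hD q0 h0).1 (hD q0 h0).2, χ, fun q hq => ?_, fun b hb _ => ?_,
    ⟨a, (c3 a ha).1, ha⟩, fun φ hφ eφ => ?_⟩
  · by_cases c : q ∈ w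
    · exact c2 q c
    refine sum_eq_zero fun b hb => ?_
    by_contra cb
    obtain ⟨b1, -, τ, b2, τ', b3, b4, b5, b6⟩ := c3 b cb
    rcases base.degle b b1 (fun hs => b4 (hS b hs τ τ' (w1 _ b2) (w1 _ b3) b5 b6)) q τ τ' hq
      (h.wF _ (w1 _ b2)) (h.wF _ (w1 _ b3)) hb b5 b6 with rfl | rfl | c1
    exacts [c b2, c b3, b4 c1]
  · by_contra cb
    exact (c3 b cb).2.1 hb
  suffices key : ∀ t, (∀ l < e, κ l t = 0) →
      (∀ ψ, Ev S.Q ψ → (∀ f ∈ G, f ∉ I → ψ f = 0) → ψ t = 0) → φ t = 0 by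
    obtain ⟨t, t1, t2, t3, t4⟩ := ht i0 i1 i2
    exact ⟨⟨Q (t0 + i0), i3, t, t1, t2, key t t3 t4⟩, fun t h' =>
      key t (hsf q0 (hD q0 h0).1 (hD q0 h0).2 t h').1 (hsf q0 (hD q0 h0).1 (hD q0 h0).2 t h').2⟩
  intro t t3 t4
  have step : ∀ j ≤ e, ∃ ψ, Ev S.Q ψ ∧ ψ t = φ t ∧ (∀ l < j, ψ (fk l) = 0) ∧ ∀ f ∈ G, ψ f ≠ 0 →
      ∃ τ τ', τ ≠ τ' ∧ f ∈ τ ∧ f ∈ τ' ∧ τ ∈ {τ | ∃ i < s, τ = sm i} ∪ Reg ∧
        τ' ∈ {τ | ∃ i < s, τ = sm i} ∪ Reg := by
    intro j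
    induction j with
    | zero =>
      refine fun _ => ⟨φ, hφ, rfl, fun l hl => absurd hl (Nat.not_lt_zero l), fun f hf c => ?_⟩
      obtain ⟨-, -, τ, b2, τ', b3, b4, b5, b6⟩ := c3 f (eφ f hf ▸ c)
      exact ⟨τ, τ', b4, b5, b6, w1 _ b2, w1 _ b3⟩
    | succ j ih =>
      intro hj
      obtain ⟨ψ, p1, p2, p3, p4⟩ := ih (by omega)
      by_cases c : ψ (fk j) = 0
      · refine ⟨ψ, p1, p2, fun l hl => ?_, p4⟩
        rcases Nat.lt_succ_iff_lt_or_eq.1 hl with hl | rfl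
        exacts [p3 l hl, c]
      obtain ⟨k1, k2, k3, k4⟩ := hκ j hj
      refine ⟨fun x => ψ x + κ j x, fun q hq => by rw [sum_add_distrib, p1 q hq, k1 q hq, add_zero],
        by beta_reduce; rw [t3 j hj, add_zero, p2], fun l hl => ?_, fun f hf cf => ?_⟩
      · beta_reduce
        rcases Nat.lt_succ_iff_lt_or_eq.1 hl with hl | rfl
        · rw [p3 l hl, k3 l hl, add_zero]
        · rw [k2]
          revert c
          generalize ψ (fk l) = x
          revert x; decide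
      · by_cases c1 : ψ f = 0
        · obtain ⟨p, b1, p', b2, b3, b4, b5⟩ := k4 f hf fun c2 => cf (by
            beta_reduce; rw [c1, c2, add_zero])
          exact ⟨p, p', b3, b4, b5, b1, b2⟩
        · exact p4 f hf c1
  obtain ⟨ψ, p1, p2, p3, p4⟩ := step e le_rfl
  have fq : ∀ i < s, FQ S G (sm i) := fun i hi => h.wF _ (Or.inl ⟨i, hi, rfl⟩)
  have z := peel hp ψ (fun _ => True) (by rintro f ⟨l, hl, rfl⟩; exact p3 l hl)
    (fun i hi _ => p1 _ (fq i hi).1) fun i hi _ f hf c => by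
      obtain ⟨τ, τ', b1, b2, b3, b4, b5⟩ := p4 f ((fq i hi).2 hf) c
      exact ⟨τ, τ', b1, b2, b3, b4.imp (fun x => ⟨trivial, x⟩) id, b5.imp (fun x => ⟨trivial, x⟩) id⟩
  refine p2 ▸ t4 ψ p1 fun f hf hfI => ?_
  by_contra c
  obtain ⟨τ, τ', b1, b2, b3, b4, b5⟩ := p4 f hf c
  rcases b4 with ⟨i, hi, rfl⟩ | b4
  · exact c (z i hi trivial f b2)
  rcases b5 with ⟨i, hi, rfl⟩ | b5
  · exact c (z i hi trivial f b3)
  exact hfI (hI f τ b4 τ' b5 b1 b2 b3)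

end Pool.Agent.MP_797bdc_co.Lk
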