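import Pool.Agent.MP_797bdc_co.Lk.XS

/-! Checker X, row KL: killable edges and the faces of `Sig`. -/

namespace Pool.Agent.MP_797bdc_co.Lk

open Finset

namespace XKL

theorem tw_succ (E : XE) (T ke h : ℕ) : twSt E T ke (h + 1) = Nat.lor (twSt E T ke h)
    (cn (iz (dd ke (at_ E.n E.on T h))) (Nat.lor (at_ E.n E.on T h)
      (Nat.shiftLeft (Nat.land (twSt E T ke h) (at_ E.n E.on T h)) E.n)) 0) := rfl

theorem shl_bit {a k v : ℕ} :
    (Nat.shiftLeft a k).testBit v = true ↔ k ≤ v ∧ a.testBit (v - k) = true := by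
  rw [show Nat.shiftLeft a k = a <<< k from rfl, Nat.testBit_shiftLeft]; simp

theorem at_lt {E : XE} (hon : E.on = 2 ^ E.n - 1) {A i v : ℕ}
    (h : (at_ E.n E.on A i).testBit v = true) : v < E.n := by
  rw [hon] at h; exact (at_bit.1 h).1

theorem tw_step (E : XE) (T ke h v : ℕ) : (twSt E T ke (h + 1)).testBit v = true ↔
    (twSt E T ke h).testBit v = true ∨ (dd ke (at_ E.n E.on T h) = 0 ∧
      ((at_ E.n E.on T h).testBit v = true ∨ (E.n ≤ v ∧ (twSt E T ke h).testBit (v - E.n) = true ∧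
        (at_ E.n E.on T h).testBit (v - E.n) = true))) := by
  rw [tw_succ, lor_bit, cn_eq]
  split_ifs with c
  · rw [lor_bit, shl_bit, land_bit]
    simp only [iz_iff.1 c, true_and]
  · have : ¬ dd ke (at_ E.n E.on T h) = 0 := fun e => c (iz_iff.2 e)
    simp [this]

theorem tw_lo {E : XE} (T ke : ℕ) {z : ℕ} (hz : z < E.n) (h : ℕ) :
    (twSt E T ke h).testBit z = true ↔
      ∃ p < h, dd ke (at_ E.n E.on T p) = 0 ∧ (at_ E.n E.on T p).testBit z = true := by
  induction h with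
  | zero => simp [twSt]
  | succ h ih =>
    rw [tw_step, ih, Nat.exists_lt_succ_right]
    have : ¬ E.n ≤ z := by omega
    simp [this]

theorem tw_hi {E : XE} (hon : E.on = 2 ^ E.n - 1) (T ke : ℕ) {z : ℕ} (hz : z < E.n) (h : ℕ) :
    (twSt E T ke h).testBit (E.n + z) = true ↔
      ∃ p < h, (dd ke (at_ E.n E.on T p) = 0 ∧ (at_ E.n E.on T p).testBit z = true) ∧
        ∃ p' < p, dd ke (at_ E.n E.on T p') = 0 ∧ (at_ E.n E.on T p').testBit z = true := by
  induction h with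
  | zero => simp [twSt]
  | succ h ih =>
    rw [tw_step, ih, Nat.exists_lt_succ_right, Nat.add_sub_cancel_left, tw_lo T ke hz]
    have : ¬ (at_ E.n E.on T h).testBit (E.n + z) = true := fun e => by
      have := at_lt hon e
      omega
    refine or_congr Iff.rfl ⟨fun ⟨a, b⟩ => ?_, fun ⟨⟨a, b⟩, c⟩ =>
      ⟨a, Or.inr ⟨Nat.le_add_right _ _, c, b⟩⟩⟩
    rcases b with b | ⟨-, c, b⟩
    exacts [absurd b this, ⟨⟨a, b⟩, c⟩]

theorem row3_bit {E : XE} (hon : E.on = 2 ^ E.n - 1) {g z : ℕ} : (row3 E g).testBit z = true ↔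
    z < E.n ∧ bit E.n E.tM.get (gb g) (gc g) z = true := by
  have e1 : bt g 9 262143 >>> 9 = gb g := by
    show ((g >>> 9) &&& (2 ^ 18 - 1)) >>> 9 = (g >>> 18) &&& (2 ^ 9 - 1)
    simp only [Nat.and_two_pow_sub_one_eq_mod, Nat.shiftRight_eq_div_pow]
    omega
  have e2 : bt g 9 262143 &&& 511 = gc g := by
    show ((g >>> 9) &&& (2 ^ 18 - 1)) &&& (2 ^ 9 - 1) = (g >>> 9) &&& (2 ^ 9 - 1)
    simp only [Nat.and_two_pow_sub_one_eq_mod, Nat.shiftRight_eq_div_pow]
    omega
  rw [show row3 E g = row E (bt g 9 262143) from rfl, row_bit hon, e1, e2]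

end XKL

open XKL in
theorem xkl : XKL_s := by
  intro E hd root par Sig u τ1 τ2 h1 h2 H
  have hon := H.on
  refine ⟨fun t1 T KE FK i kl _ hKE hFK hk => ?_, fun s T hs f hf p hp p' hp' hq hq' => ?_⟩
  · rw [killErr, lor_z, lor_z, lor_z, lte_z, shr_z, orN_z, dd_z, hKE] at hk
    obtain ⟨⟨hlt, hm⟩, hl, hr⟩ := hk
    have hb : gb (kl i) < E.n := hm _ (m3_bit.2 (Or.inl rfl))
    have hc : gc (kl i) < E.n := hm _ (m3_bit.2 (Or.inr (Or.inl rfl)))
    refine ⟨hlt.ne, fun l hli => ?_, fun f hf hκ => ?_⟩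
    · rw [kap3, if_neg]
      rintro ⟨m1, m2'⟩
      have := (cn_z.1 (hl l hli)).1 (iz_iff.2 (dd_z.2 fun v hv => ?_))
      · exact absurd this (by decide)
      · rw [hFK l hli, m3_bit]
        simp only [tk3, mem_insert, mem_singleton] at m1 m2'
        rcases m2_bit.1 hv with rfl | rfl
        exacts [m2', m1]
    · have hbc : gb (kl i) ∈ f ∧ gc (kl i) ∈ f := by
        by_contra c
        exact hκ (by rw [kap3, if_neg c])
      have hO : f ∈ Om E.n := (mem_filter.1 hf).1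
      obtain ⟨hsub, hcard⟩ := mem_powersetCard.1 hO
      obtain ⟨z, hzf, hz⟩ : ∃ z ∈ f, z ∉ ({gb (kl i), gc (kl i)} : Finset ℕ) := by
        by_contra c
        have hs : f ⊆ {gb (kl i), gc (kl i)} := fun z hz => by
          by_contra c'
          exact c ⟨z, hz, c'⟩
        have := (card_le_card hs).trans card_le_two
        omega
      have hzn : z < E.n := mem_range.1 (hsub hzf)
      have ef : f = {gb (kl i), gc (kl i), z} := by
        simp only [mem_insert, mem_singleton, not_or] at hz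
        refine (eq_of_subset_of_card_le (fun v hv => ?_) ?_).symm
        · simp only [mem_insert, mem_singleton] at hv
          rcases hv with rfl | rfl | rfl
          exacts [hbc.1, hbc.2, hzf]
        · rw [hcard, card_eq_three.2 ⟨_, _, _, hlt.ne, Ne.symm hz.1, Ne.symm hz.2, rfl⟩]
      have hbit : bit E.n E.tM.get (gb (kl i)) (gc (kl i)) z = true :=
        (mem_Gd H.sym hb hc hzn).1 (ef ▸ hf)
      have ht := hr z ((row3_bit hon).2 ⟨hzn, hbit⟩)
      rw [shr_bit] at ht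
      obtain ⟨p, hp, hA, p', hp', hB⟩ := (tw_hi hon _ _ hzn _).1 ht
      have key : ∀ p, dd (m2 (gc (kl i)) (gb (kl i))) (at_ E.n E.on T p) = 0 ∧
          (at_ E.n E.on T p).testBit z = true → f ∈ E.q T p := fun p hA => by
        refine mem_qm.2 ⟨fun v hv => mem_St.2 ⟨mem_range.1 (hsub hv), ?_⟩, hcard⟩
        rw [ef] at hv
        simp only [mem_insert, mem_singleton] at hv
        rcases hv with rfl | rfl | rfl
        exacts [dd_z.1 hA.1 _ (m2_bit.2 (Or.inr rfl)), dd_z.1 hA.1 _ (m2_bit.2 (Or.inl rfl)), hA.2]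
      exact ⟨p, hp, p', by omega, by omega, key p hA, key p' hB⟩
  · obtain ⟨hcard, ⟨l, hl, ef⟩, hsm⟩ := H.sig f hf
    rw [sigErr, cn_z] at hs
    by_cases c : iz (le1 (Nat.land (orN s (at_ E.n E.on T)) E.sm)) = true
    · exfalso
      have hb : ∀ v ∈ f, (Nat.land (orN s (at_ E.n E.on T)) E.sm).testBit v = true := fun v hv =>
        land_bit.2 ⟨orN_bit.2 ⟨p, hp, (mem_St.1 ((mem_qm.1 hq).1 hv)).2⟩, hsm v hv⟩
      have : f.card ≤ 1 := card_le_one.2 fun a ha b hb' => le1_z (iz_iff.1 c) (hb a ha) (hb b hb')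
      omega
    · have h0 := shr_z.1 (orN_z.1 (hs.2 c) l hl)
      obtain ⟨z, hz⟩ : f.Nonempty := card_pos.1 (by omega)
      have hzn : z < E.n := (mem_St.1 (ef ▸ hz)).1
      have key : ∀ p, f ∈ E.q T p → dd (at_ E.n E.on E.sg l) (at_ E.n E.on T p) = 0 ∧
          (at_ E.n E.on T p).testBit z = true := fun p hq =>
        ⟨dd_z.2 fun v hv => (mem_St.1 ((mem_qm.1 hq).1
          (ef ▸ mem_St.2 ⟨at_lt hon hv, hv⟩))).2, (mem_St.1 ((mem_qm.1 hq).1 hz)).2⟩
      by_contra ne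
      have : (twSt E T (at_ E.n E.on E.sg l) s).testBit (E.n + z) = true := by
        rcases lt_or_gt_of_ne ne with c' | c'
        · exact (tw_hi hon _ _ hzn _).2 ⟨p', hp', key p' hq', p, c', key p hq⟩
        · exact (tw_hi hon _ _ hzn _).2 ⟨p, hp, key p hq, p', c', key p' hq'⟩
      have := h0 _ this
      omega

end Pool.Agent.MP_797bdc_co.Lk
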