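import Pool.Agent.MP_797bdc_co.Lk.XS

/-! Checker X, row PG: cores and safe pairs. -/

namespace Pool.Agent.MP_797bdc_co.Lk

open Finset

namespace XPG

theorem mem_cs {nc xC : ℕ} {z : ℕ × ℕ × ℕ} (h : z ∈ csL nc xC) :
    ∃ c < nc, z = (gd (core xC c), gc (core xC c), gb (core xC c)) := by
  obtain ⟨c, hc, e⟩ := List.mem_map.1 h
  exact ⟨c, List.mem_range.1 hc, e.symm⟩

theorem cores {E : XE} {nc xC : ℕ} (h : coresErr E nc xC = 0) : E.Z.CoresOK (csL nc xC) := by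
  rw [coresErr, orN_z] at h
  simp only [lor_z, lte_z, orN_z, cn_z, beq_iff] at h
  refine ⟨fun z hz => ?_, fun z hz w hw e => ?_⟩
  · obtain ⟨c, hc, rfl⟩ := mem_cs hz
    obtain ⟨⟨a, b⟩, d, -⟩ := h c hc
    exact ⟨a, b, d⟩
  · obtain ⟨c, hc, rfl⟩ := mem_cs hz
    obtain ⟨c', hc', rfl⟩ := mem_cs hw
    rcases lt_trichotomy c c' with k | k | k
    · exact absurd (((h c' hc').2.2 c k).1 e.symm) (by decide)
    · rw [k]
    · exact absurd (((h c hc).2.2 c' k).1 e) (by decide)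

theorem bit0 {a j : ℕ} (h : Nat.land (Nat.shiftRight a j) 1 = 0) : ¬ a.testBit j = true := by
  intro k
  refine land_z.1 h 0 ?_ (by decide)
  rw [shr_bit]; exact k

theorem bit1 {a j : ℕ} (h : Nat.land (Nat.shiftRight a j) 1 = 1) : a.testBit j = true := by
  have k : (Nat.land (Nat.shiftRight a j) 1).testBit 0 = true := by rw [h]; decide
  have := (land_bit.1 k).1
  rwa [shr_bit] at this

theorem ng {E : XE} {root : ℕ} {par : ℕ → ℕ} (hz : E.Z.OK E.n root par E.G) {nc xC k p x : ℕ}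
    (hc : E.Z.CoresOK (csL nc xC)) (hn : E.Z.Node k p) (hx : x = E.Z.rim k p)
    (h : ngErr E nc xC k p x = 0) : E.Z.NGood (csL nc xC) k p := by
  rw [ngErr, orN_z] at h
  intro z hz'
  obtain ⟨h1, h2, h3⟩ := hc.1 z hz'
  obtain ⟨c, hc', rfl⟩ := mem_cs hz'
  have k1 := cn_z.1 (h c hc')
  rw [orr_iff, beq_iff, beq_iff] at k1
  by_cases e : x = zr (zget E (gd (core xC c))) (gc (core xC c)) ∨
      x = zr (zget E (gd (core xC c))) (gb (core xC c))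
  · refine Or.inl ⟨hx ▸ e, fun f => ?_⟩
    rcases e with e | e
    · exact hz.mem k p hn _ h1 _ (lt_trans h2 h3) (e.symm.trans hx) f
    · exact hz.mem k p hn _ h1 _ h3 (e.symm.trans hx) f
  · exact Or.inr (bit0 (k1.2 e))

theorem pg1 {E : XE} {root : ℕ} {par : ℕ → ℕ} (hz : E.Z.OK E.n root par E.G) {nc xC x y w : ℕ}
    (hc : E.Z.CoresOK (csL nc xC)) (hx : x < E.n) (hy : y < E.n)
    (h : pgErr1 E nc xC x y w = 0) : E.Z.PGood (csL nc xC) x y := by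
  rw [pgErr1, cn_z] at h
  by_cases t0 : iz (Nat.land w 3) = true
  · exact Or.inl ⟨hx, hy, bit1 (xor_z.1 (h.1 t0))⟩
  have h' := h.2 t0
  rw [lor_z, lor_z, lor_z, lte_z, lte_z, xor_z, cn_z] at h'
  obtain ⟨⟨a1, a2⟩, a3, a4⟩ := h'
  by_cases t1 : Nat.beq (Nat.land w 3) 1 = true
  · have b := a4.1 t1
    rw [lor_z, lor_z, lte_z, xor_z] at b
    obtain ⟨⟨b1, b2⟩, b3⟩ := b
    have hn : E.Z.Node (f9 w 2) (f9 w 11) := ⟨a1, b1, a2⟩
    refine Or.inr (Or.inl ⟨f9 w 2, f9 w 11, bt w 20 3, hn, ?_, a3, b2, ng hz hc hn a3 b3⟩)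
    exact Nat.lt_succ_of_le Nat.and_le_right
  · have b := a4.2 t1
    rw [lor_z, lor_z, lor_z, xor_z, orN_z, cn_z, cn_z, iz_iff, beq_iff] at b
    obtain ⟨⟨b1, b2⟩, b3, b4⟩ := b
    refine Or.inr (Or.inr ⟨f9 w 2, f9 w 11, a1, a2, a3, b1, fun z hz' e => ?_,
      fun hn => ng hz hc hn a3 (b3.2 hn.2.1.ne'), fun hn => ng hz hc hn b1 (b4.2 hn.2.2.ne)⟩)
    obtain ⟨c, hc', rfl⟩ := mem_cs hz'
    exact absurd ((cn_z.1 (b2 c hc')).1 (beq_iff.2 e)) (by decide)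

end XPG

theorem xpg : XPG_s := by
  intro E hd root par Sig u τ1 τ2 h1 h2 H nc xC hc
  refine ⟨XPG.cores hc, fun x hx y hy w h => ?_⟩
  rw [pgErr, cn_z] at h
  by_cases t : tb w 22 = true
  · exact Or.inr (XPG.pg1 H.zok (XPG.cores hc) hy hx (h.1 t))
  · exact Or.inl (XPG.pg1 H.zok (XPG.cores hc) hx hy (h.2 t))

end Pool.Agent.MP_797bdc_co.Lk
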