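import Pool.Agent.MP_797bdc_co.Lk.XS

/-! Checker X: peeling. -/

namespace Pool.Agent.MP_797bdc_co.Lk

open Finset

namespace XPL

theorem one {d v : ℕ} (h : ∀ w, d.testBit w = true → w = v) :
    d = 0 ∨ (on1 d).testBit v = true := by
  by_cases e : d = 0
  · exact Or.inl e
  · obtain ⟨w, hw⟩ := Nat.exists_testBit_of_ne_zero e
    exact Or.inr (on1_bit.2 ⟨h w hw ▸ hw, h⟩)

theorem miss {S f : Finset ℕ} (h4 : S.card = 4) (hf : f ⊆ S) (h3 : f.card = 3) :
    ∃ v ∈ S, ∀ w, w ∈ f ↔ w ∈ S ∧ w ≠ v := by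
  obtain ⟨v, hv, hv'⟩ := exists_mem_notMem_of_card_lt_card (s := f) (t := S) (by omega)
  have e : insert v f = S := eq_of_subset_of_card_le (insert_subset hv hf)
    (by rw [card_insert_of_notMem hv']; omega)
  refine ⟨v, hv, fun w => ⟨fun h => ⟨hf h, fun k => hv' (k ▸ h)⟩, fun h => ?_⟩⟩
  rw [← e] at h
  exact (mem_insert.1 h.1).resolve_left h.2

theorem pair (E : XE) (T τ i h : ℕ) :
    (∀ u < h, ∀ v, (on1 (dd τ (at_ E.n E.on T (i + 1 + u)))).testBit v = true →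
      (pairSt E T τ i h).testBit v = true) ∧
    ((∀ v, (pairSt E T τ i h).testBit v = true → v < E.n) →
      ∀ u < h, dd τ (at_ E.n E.on T (i + 1 + u)) ≠ 0 ∧ ∀ u' < u, ∀ v,
        (on1 (dd τ (at_ E.n E.on T (i + 1 + u')))).testBit v = true →
        ¬ (on1 (dd τ (at_ E.n E.on T (i + 1 + u)))).testBit v = true) := by
  induction h with
  | zero => exact ⟨fun u hu => absurd hu (Nat.not_lt_zero u),
      fun _ u hu => absurd hu (Nat.not_lt_zero u)⟩
  | succ h ih =>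
    have e : pairSt E T τ i (h + 1) = Nat.lor (pairSt E T τ i h)
        (Nat.lor (on1 (dd τ (at_ E.n E.on T (i + 1 + h))))
          (Nat.lor (Nat.land (pairSt E T τ i h) (on1 (dd τ (at_ E.n E.on T (i + 1 + h)))))
            (cn (iz (dd τ (at_ E.n E.on T (i + 1 + h)))) 1 0) <<< E.n)) := rfl
    rw [e]
    refine ⟨fun u hu v hv => lor_bit.2 ?_, fun H u hu => ?_⟩
    · rcases Nat.lt_succ_iff_lt_or_eq.1 hu with c | rfl
      · exact Or.inl (ih.1 u c v hv)
      · exact Or.inr (lor_bit.2 (Or.inl hv))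
    · rcases Nat.lt_succ_iff_lt_or_eq.1 hu with c | rfl
      · exact ih.2 (fun v hv => H v (lor_bit.2 (Or.inl hv))) u c
      · have K : ∀ w, ¬ (Nat.lor (Nat.land (pairSt E T τ i u)
            (on1 (dd τ (at_ E.n E.on T (i + 1 + u)))))
            (cn (iz (dd τ (at_ E.n E.on T (i + 1 + u)))) 1 0)).testBit w = true := fun w hw => by
          have := H (E.n + w) (lor_bit.2 (Or.inr (lor_bit.2 (Or.inr (by
            rw [Nat.testBit_shiftLeft, Nat.add_sub_cancel_left, hw]; simp)))))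
          omega
        refine ⟨fun z => K 0 (lor_bit.2 (Or.inr ?_)), fun u' c v h1 h2 =>
          K v (lor_bit.2 (Or.inl (land_bit.2 ⟨ih.1 u' c v h1, h2⟩)))⟩
        rw [cn_eq, if_pos (iz_iff.2 z)]
        rfl

theorem cm (z : ℕ) {k : ℕ} (hk : k < 4) : (cmask z).testBit (zc z k) = true := by
  rw [cmask, lor_bit, m2_bit, m2_bit]
  obtain rfl | rfl | rfl | rfl : k = 0 ∨ k = 1 ∨ k = 2 ∨ k = 3 := by omega
  exacts [Or.inl (Or.inl rfl), Or.inl (Or.inr rfl), Or.inr (Or.inl rfl), Or.inr (Or.inr rfl)]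

theorem reg (E : XE) {nc xC τ v : ℕ} {f : Finset ℕ} (hv : τ.testBit v = true)
    (hf : ∀ w, τ.testBit w = true → w ≠ v → w ∈ f) {σ : Finset (Finset ℕ)}
    (hσ : σ ∈ E.Z.Reg (csL nc xC)) (hfσ : f ∈ σ) : (regSt E nc xC τ).testBit v = true := by
  obtain ⟨x, hx, hσ⟩ := hσ
  obtain ⟨c, hc, rfl⟩ := List.mem_map.1 hx
  obtain ⟨⟨p, k⟩, hp, rfl⟩ := mem_image.1 hσ
  simp only [mem_product, mem_Ico, mem_range] at hp
  obtain ⟨⟨p1, p2'⟩, hk⟩ := hp
  obtain ⟨u, rfl⟩ := Nat.exists_eq_add_of_le p1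
  have hs := (mem_powersetCard.1 hfσ).1
  refine orN_bit.2 ⟨c, List.mem_range.1 hc, ?_⟩
  simp only [fn_eq]
  refine orN_bit.2 ⟨u, show u < gb (core xC c) - gc (core xC c) by omega, ?_⟩
  rw [cn_eq]
  split_ifs with e
  · exact hv
  · refine (one fun w hw => ?_).resolve_left fun k => e (iz_iff.2 k)
    obtain ⟨h1, h2⟩ := dd_bit.1 hw
    obtain ⟨h1, h3⟩ := dd_bit.1 h1
    by_contra hne
    have h4 := hs (hf w h1 hne)
    simp only [mem_insert, mem_singleton] at h4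
    rcases h4 with h4 | h4 | h4 | h4
    · exact h2 (m2_bit.2 (Or.inl h4))
    · exact h2 (m2_bit.2 (Or.inr h4))
    · exact h3 (h4 ▸ cm _ hk)
    · exact h3 (h4 ▸ cm _ (Nat.mod_lt _ (by norm_num)))

end XPL

theorem xpl : XPL_s := by
  intro E hd root par Sig u τ1 τ2 h1 h2 H s t1 nc xC e FK T kl hs _ h4 hk hp
  have lt' : ∀ i w, (at_ E.n E.on T i).testBit w = true → w ∈ St E.n (at_ E.n E.on T i) :=
    fun i w hw => mem_St.2 ⟨by rw [H.on] at hw; exact (at_bit.1 hw).1, hw⟩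
  have hp' : ∀ i < t1, (∀ v, (pairSt E T (at_ E.n E.on T i) i (t1 - (i + 1))).testBit v = true →
      v < E.n) ∧ (i < s → le1 (dd (Nat.lor (pairSt E T (at_ E.n E.on T i) i (t1 - (i + 1)))
        (regSt E nc xC (at_ E.n E.on T i)))
        (orN e fun l => on1 (dd (at_ E.n E.on T i) (at_ E.n E.on FK l)))) = 0) := fun i hi => by
    have h := hp i hi
    simp only [peelErr, fn_eq, lor_z, cn_z, lt_iff, shr_z] at h
    exact ⟨h.1, h.2.1⟩
  have P := fun i (hi : i < t1) => (XPL.pair E T (at_ E.n E.on T i) i (t1 - (i + 1))).2 (hp' i hi).1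
  have later : ∀ i l, i < l → l < t1 → ∀ (f : Finset ℕ) v,
      (∀ w, w ∈ f ↔ w ∈ St E.n (at_ E.n E.on T i) ∧ w ≠ v) → f ∈ E.q T l →
      ∃ u < t1 - (i + 1), l = i + 1 + u ∧
        (on1 (dd (at_ E.n E.on T i) (at_ E.n E.on T (i + 1 + u)))).testBit v = true := by
    intro i l hil hl f v hv hf
    obtain ⟨u, rfl⟩ := Nat.exists_eq_add_of_le (show i + 1 ≤ l from hil)
    refine ⟨u, by omega, rfl, (XPL.one fun w hw => ?_).resolve_left
      (P i (by omega) u (by omega)).1⟩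
    obtain ⟨a, b⟩ := dd_bit.1 hw
    by_contra c
    exact b (mem_St.1 ((mem_qm.1 hf).1 ((hv w).2 ⟨lt' i w a, c⟩))).2
  have inj : ∀ i l, i < l → l < t1 → E.q T i ≠ E.q T l := by
    intro i l hil hl h
    obtain ⟨u, rfl⟩ := Nat.exists_eq_add_of_le (show i + 1 ≤ l from hil)
    refine (P i (by omega) u (by omega)).1 (dd_z.2 fun w hw => ?_)
    obtain ⟨f, f1, f2, f3⟩ := exists_subsuperset_card_eq (n := 3)
      (singleton_subset_iff.2 (lt' i w hw)) (by simp)
      (by rw [show (St E.n (at_ E.n E.on T i)).card = 4 from h4 i (by omega)]; norm_num)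
    have hf : f ∈ E.q T i := mem_qm.2 ⟨f2, f3⟩
    rw [h] at hf
    exact (mem_St.1 ((mem_qm.1 hf).1 (singleton_subset_iff.1 f1))).2
  have three : ∀ f i l p, i < l → l < p → p < t1 → f ∈ E.q T i → f ∈ E.q T l → f ∈ E.q T p →
      False := by
    intro f i l p hil hlp hp1 fi fl fp
    obtain ⟨v, -, hv⟩ := XPL.miss (h4 i (by omega)) (mem_qm.1 fi).1 (mem_qm.1 fi).2
    obtain ⟨u, -, rfl, a⟩ := later i l hil (by omega) f v hv fl
    obtain ⟨u', hu', rfl, b⟩ := later i p (by omega) hp1 f v hv fp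
    exact (P i (by omega) u' hu').2 u (by omega) v a b
  refine ⟨fun i hi l hl h => ?_, fun f i hi l hl p hp1 fi fl fp => ?_, ?_⟩
  · rcases lt_trichotomy i l with c | c | c
    exacts [absurd h (inj i l c hl), c, absurd h.symm (inj l i c hi)]
  · by_contra c
    rcases (by omega : (i < l ∧ l < p) ∨ (i < p ∧ p < l) ∨ (l < i ∧ i < p) ∨ (l < p ∧ p < i) ∨
      (p < i ∧ i < l) ∨ (p < l ∧ l < i)) with c | c | c | c | c | c
    exacts [three f i l p c.1 c.2 hp1 fi fl fp, three f i p l c.1 c.2 hl fi fp fl,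
      three f l i p c.1 c.2 hp1 fl fi fp, three f l p i c.1 c.2 hi fl fp fi,
      three f p i l c.1 c.2 hl fp fi fl, three f p l i c.1 c.2 hi fp fl fi]
  · intro i hi
    have key : ∀ f ∈ E.q T i, f ∉ {f | ∃ l < e, f = tk3 (kl l)} →
        ((∃ l < s, i < l ∧ f ∈ E.q T l) ∨ ∃ τ ∈ E.Z.Reg (csL nc xC), f ∈ τ) →
        ∃ v, (∀ w, w ∈ f ↔ w ∈ St E.n (at_ E.n E.on T i) ∧ w ≠ v) ∧
          (dd (Nat.lor (pairSt E T (at_ E.n E.on T i) i (t1 - (i + 1)))
            (regSt E nc xC (at_ E.n E.on T i)))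
            (orN e fun l => on1 (dd (at_ E.n E.on T i) (at_ E.n E.on FK l)))).testBit v = true := by
      intro f fi nk hf
      obtain ⟨v, hv0, hv⟩ := XPL.miss (h4 i (by omega)) (mem_qm.1 fi).1 (mem_qm.1 fi).2
      refine ⟨v, hv, dd_bit.2 ⟨lor_bit.2 ?_, fun k => ?_⟩⟩
      · rcases hf with ⟨l, hl, hil, fl⟩ | ⟨τ, hτ, fτ⟩
        · obtain ⟨u, hu, -, a⟩ := later i l hil (by omega) f v hv fl
          exact Or.inl ((XPL.pair E T _ i _).1 u hu v a)
        · exact Or.inr (XPL.reg E (mem_St.1 hv0).2 (fun w a b => (hv w).2 ⟨lt' i w a, b⟩) hτ fτ)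
      · obtain ⟨l, hl, a⟩ := orN_bit.1 k
        rw [hk l hl] at a
        refine nk ⟨l, hl, eq_of_subset_of_card_le (fun w hw => ?_) ?_⟩
        · obtain ⟨b, c⟩ := (hv w).1 hw
          have : (m3 (kl l)).testBit w = true := by
            by_contra d
            exact c ((on1_bit.1 a).2 w (dd_bit.2 ⟨(mem_St.1 b).2, d⟩))
          simpa [tk3] using m3_bit.1 this
        · rw [(mem_qm.1 fi).2]
          exact card_le_three
    intro f fi f' fi' nk nk' hf hf'
    obtain ⟨v, a, b⟩ := key f fi nk hf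
    obtain ⟨v', a', b'⟩ := key f' fi' nk' hf'
    obtain rfl := le1_z ((hp' i (by omega)).2 hi) b b'
    exact Finset.ext fun w => (a w).trans (a' w).symm

end Pool.Agent.MP_797bdc_co.Lk
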