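import Pool.Agent.MP_797bdc_co.Lk.XS

/-! Checker X, row SF: safe tokens. -/

namespace Pool.Agent.MP_797bdc_co.Lk

open Finset

namespace XSF

theorem r_hi (t : ℕ) : (bt t 9 262143) >>> 9 = gb t := by
  apply Nat.eq_of_testBit_eq
  intro i
  rw [show gb t = (t >>> 18) &&& (2 ^ 9 - 1) from rfl,
    show bt t 9 262143 = (t >>> 9) &&& (2 ^ 18 - 1) from rfl]
  simp only [Nat.testBit_shiftRight, Nat.testBit_and, Nat.testBit_two_pow_sub_one]
  rw [show 9 + (9 + i) = 18 + i by omega]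
  congr 1
  rw [decide_eq_decide]; omega

theorem r_lo (t : ℕ) : (bt t 9 262143) &&& 511 = gc t := by
  rw [show gc t = (t >>> 9) &&& 511 from rfl,
    show bt t 9 262143 = (t >>> 9) &&& 262143 from rfl, Nat.and_assoc]
  rfl

theorem cl_zero {α : Type} [DecidableEq α] {P : Finset α → Prop} {Y : Set α} {ψ : α → ZMod 2}
    (hψ : Ev P ψ) (hY : ∀ a ∈ Y, ψ a = 0) {a : α} (h : Cl P Y a) : ψ a = 0 := by
  induction h with
  | base ha => exact hY _ ha
  | @step q a hq ha _ ih =>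
    have := hψ q hq
    rwa [Finset.sum_eq_single_of_mem a ha ih] at this

end XSF

open XSF in
theorem xsf : XSF_s := by
  intro xpg pg loc E hd root par Sig u τ1 τ2 h1 h2 H nc xC e KE t kl hco hKE hs
  rw [safeErr, lor_z, lor_z, lor_z, lor_z, lte_z, land_z, shr_z, orN_z, cn_z, iz_iff] at hs
  obtain ⟨⟨⟨hlt, hne⟩, hn, hk⟩, -, hp⟩ := hs
  have hdc : gc t ≠ gd t := fun c => hne _ (m2_bit.2 (Or.inl rfl)) (p2_bit.2 c)
  have hdb : gb t ≠ gd t := fun c => hne _ (m2_bit.2 (Or.inr rfl)) (p2_bit.2 c)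
  have hb : gb t < E.n := hn _ (m3_bit.2 (Or.inl rfl))
  have hc : gc t < E.n := hn _ (m3_bit.2 (Or.inr (Or.inl rfl)))
  have hd' : gd t < E.n := hn _ (m3_bit.2 (Or.inr (Or.inr rfl)))
  have hm : ∀ v, v ∈ tk3 t ↔ (m3 t).testBit v = true := fun v => by
    rw [m3_bit, tk3, mem_insert, mem_insert, mem_singleton]
  have hcard : (tk3 t).card = 3 := card_eq_three.2 ⟨_, _, _, hlt.ne, hdb, hdc, rfl⟩
  refine ⟨?_, hcard, hn, fun h0 hG => ?_, fun l hl => ?_, fun ψ hψ h0 => ?_⟩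
  · ext v
    rw [mem_St, hm]
    exact ⟨fun h => h.2, fun h => ⟨hn v h, h⟩⟩
  · refine land_z.1 h0 (gd t) ?_ (p2_bit.2 rfl)
    rw [row3, row_bit H.on]
    refine ⟨hd', ?_⟩
    rw [show bt t (nat_lit 9) (nat_lit 262143) = bt t 9 262143 from rfl, r_hi, r_lo]
    exact (mem_Gd H.sym hb hc hd').1 hG
  · rw [kap3, if_neg]
    rintro ⟨c1, c2⟩
    have h3 := (cn_z.1 (hk l hl)).1 (iz_iff.2 (dd_z.2 fun v hv => ?_))
    · exact absurd h3 (by decide)
    · rw [hKE l hl, m2_bit] at hv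
      rcases hv with rfl | rfl
      exacts [(hm _).1 c2, (hm _).1 c1]
  · by_cases h : nc = 0
    · subst h
      refine cl_zero (P := Qn E.n) hψ (fun a ha => h0 a ha ?_) (H.base.perc (tk3 t) ?_)
      · rintro ⟨x, hx, -⟩
        simp [csL] at hx
      · refine mem_powersetCard.2 ⟨fun v hv => mem_range.2 (hn v ((hm v).1 hv)), hcard⟩
    · have hp := hp h
      rw [lor_z, lor_z] at hp
      obtain ⟨cok, hg⟩ := xpg E hd root par Sig u τ1 τ2 h1 h2 H nc xC hco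
      have dv : ∀ x < E.n, ∀ y < E.n, ∀ w, pgErr E nc xC x y w = 0 →
          Dv E.n root par E.G (E.Z.Iall (csL nc xC)) x y := fun x hx y hy w hw =>
        (hg x hx y hy w hw).elim (pg _ _ _ _ _ H.zok _ cok _ _)
          fun h => (pg _ _ _ _ _ H.zok _ cok _ _ h).symm
      exact loc _ _ _ _ _ H.zok.tree _ hb _ hc _ hd' hlt.ne hdb hdc (dv _ hb _ hc _ hp.1)
        (dv _ hb _ hd' _ hp.2.1) (dv _ hc _ hd' _ hp.2.2) ψ hψ h0

end Pool.Agent.MP_797bdc_co.Lk
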