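import Pool.Agent.MP_797bdc_co.Lk.XS

/-! Row TG of checker X: gates, small tets, zone tets, tree gates. -/

namespace Pool.Agent.MP_797bdc_co.Lk

open Finset

namespace XTG

theorem st4 {n m a b c d : ℕ} (h : ∀ v, m.testBit v = true ↔ v = a ∨ v = b ∨ v = c ∨ v = d)
    (hn : ∀ v, m.testBit v = true → v < n) : St n m = {a, b, c, d} := by
  ext v
  rw [mem_St, mem_insert, mem_insert, mem_insert, mem_singleton, ← h]
  exact ⟨fun x => x.2, fun x => ⟨hn v x, x⟩⟩

theorem card4 {a b c d : ℕ} (h1 : a ≠ b) (h2 : a ≠ c) (h3 : a ≠ d) (h4 : b ≠ c) (h5 : b ≠ d)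
    (h6 : c ≠ d) : ({a, b, c, d} : Finset ℕ).card = 4 := by
  rw [card_insert_of_notMem (by simp [h1, h2, h3]), card_insert_of_notMem (by simp [h4, h5]),
    card_pair h6]

theorem tri {a b c d : ℕ} {t : Finset ℕ} (h4 : ({a, b, c, d} : Finset ℕ).card = 4)
    (hs : t ⊆ {a, b, c, d}) (hc : t.card = 3) :
    t = {a, b, c} ∨ t = {a, b, d} ∨ t = {c, d, a} ∨ t = {c, d, b} := by
  have key : ∀ x y z w : ℕ, w ∉ t → (∀ v, v = a ∨ v = b ∨ v = c ∨ v = d →
      v = x ∨ v = y ∨ v = z ∨ v = w) → t = {x, y, z} := fun x y z w hw hv =>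
    eq_of_subset_of_card_le (fun v h => by
      have h1 := hs h
      simp only [mem_insert, mem_singleton] at h1 ⊢
      rcases hv v h1 with e | e | e | e
      exacts [.inl e, .inr (.inl e), .inr (.inr e), absurd (e ▸ h) hw]) (hc ▸ card_le_three)
  by_cases ha : a ∈ t
  · by_cases hb : b ∈ t
    · by_cases hc' : c ∈ t
      · by_cases hd : d ∈ t
        · have : ({a, b, c, d} : Finset ℕ) ⊆ t := fun v h => by
            simp only [mem_insert, mem_singleton] at h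
            rcases h with e | e | e | e <;> rw [e] <;> assumption
          have := card_le_card this
          omega
        · exact .inl (key _ _ _ _ hd fun v h => by tauto)
      · exact .inr (.inl (key _ _ _ _ hc' fun v h => by tauto))
    · exact .inr (.inr (.inl (key _ _ _ _ hb fun v h => by tauto)))
  · exact .inr (.inr (.inr (key _ _ _ _ ha fun v h => by tauto)))

theorem a511 (x : ℕ) : x &&& 511 = x % 512 := Nat.and_two_pow_sub_one_eq_mod x 9
theorem a18 (x : ℕ) : x &&& 262143 = x % 262144 := Nat.and_two_pow_sub_one_eq_mod x 18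
theorem a3 (x : ℕ) : x &&& 3 = x % 4 := Nat.and_two_pow_sub_one_eq_mod x 2

theorem fa {g : ℕ} (h : g < 2 ^ 36) : (Nat.shiftRight g 18) >>> 9 = ga g := by
  change (g >>> 18) >>> 9 = (g >>> 27) &&& 511
  rw [a511]; simp only [Nat.shiftRight_eq_div_pow]; omega
theorem fb' (g : ℕ) : (Nat.shiftRight g 18) &&& 511 = gb g := rfl
theorem fc (g : ℕ) : (Nat.land g 262143) >>> 9 = gc g := by
  change (g &&& 262143) >>> 9 = (g >>> 9) &&& 511
  rw [a511, a18]; simp only [Nat.shiftRight_eq_div_pow]; omega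
theorem fd (g : ℕ) : (Nat.land g 262143) &&& 511 = gd g := by
  change (g &&& 262143) &&& 511 = g &&& 511
  rw [a511, a511, a18]; omega

theorem gate {E : XE} {g : ℕ} (h : gateErr E g = 0) :
    ga g ≠ gb g ∧ ga g ≠ gc g ∧ ga g ≠ gd g ∧ gb g ≠ gc g ∧ gb g ≠ gd g ∧ gc g ≠ gd g ∧
      ∀ v, (m4 g).testBit v = true → v < E.n := by
  rw [gateErr, lor_z, lor_z, lor_z, lte_z, lte_z, land_z, shr_z] at h
  obtain ⟨⟨h1, h2⟩, h3, h4⟩ := h
  have ha := h3 _ (m2_bit.2 (.inl rfl))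
  have hb := h3 _ (m2_bit.2 (.inr rfl))
  rw [m2_bit, not_or] at ha hb
  exact ⟨h1.ne, ha.1, ha.2, hb.1, hb.2, h2.ne, h4⟩

end XTG

open XTG in
theorem xtg : XTG_s := by
  intro E hd root par Sig u τ1 τ2 h1 h2 H
  refine ⟨fun g h => ?_, fun g hg h => ?_, fun nc xC z hc h => ?_, fun g hg A i x h hx hi ht => ?_⟩
  · obtain ⟨a1, a2, a3, a4, a5, a6, hn⟩ := gate h
    have e := st4 (fun v => m4_bit) hn
    exact ⟨by rw [qm, e, qd], by rw [e]; exact card4 a1 a2 a3 a4 a5 a6, hn⟩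
  · rw [tetErr, lor_z, lor_z, dd_z, dd_z, shr_z] at h
    obtain ⟨⟨r1, r2⟩, hn⟩ := h
    have e := st4 (fun v => m4_bit) hn
    have na := hn _ (m4_bit.2 (.inl rfl))
    have nb := hn _ (m4_bit.2 (.inr (.inl rfl)))
    have nc := hn _ (m4_bit.2 (.inr (.inr (.inl rfl))))
    have nd := hn _ (m4_bit.2 (.inr (.inr (.inr rfl))))
    have b1 := ((row_bit H.on).1 (r1 _ (m2_bit.2 (.inl rfl)))).2
    have b2 := ((row_bit H.on).1 (r1 _ (m2_bit.2 (.inr rfl)))).2
    have b3 := ((row_bit H.on).1 (r2 _ (m2_bit.2 (.inl rfl)))).2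
    have b4 := ((row_bit H.on).1 (r2 _ (m2_bit.2 (.inr rfl)))).2
    replace b1 : bit E.n E.tM.get (ga g) (gb g) (gc g) = true := by rw [← fa hg]; exact b1
    replace b2 : bit E.n E.tM.get (ga g) (gb g) (gd g) = true := by rw [← fa hg]; exact b2
    replace b3 : bit E.n E.tM.get (gc g) (gd g) (ga g) = true := by rw [← fc, ← fd]; exact b3
    replace b4 : bit E.n E.tM.get (gc g) (gd g) (gb g) = true := by rw [← fc, ← fd]; exact b4
    have s1 := H.sym.2 _ na _ nb _ nc b1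
    have s2 := H.sym.2 _ na _ nb _ nd b2
    have s3 := H.sym.2 _ nc _ nd _ na b3
    have c4 := card4 s1.1 s1.2.1 s2.2.1 s1.2.2.1 s2.2.2.1 s3.1
    refine ⟨⟨⟨St E.n (m4 g), filter_subset _ _, by rw [e]; exact c4, rfl⟩, fun t ht => ?_⟩,
      by rw [e]; exact c4, hn⟩
    obtain ⟨t1, t2⟩ := mem_qm.1 ht
    rw [e] at t1
    rcases tri c4 t1 t2 with rfl | rfl | rfl | rfl
    exacts [(mem_Gd H.sym na nb nc).2 b1, (mem_Gd H.sym na nb nd).2 b2,
      (mem_Gd H.sym nc nd na).2 b3, (mem_Gd H.sym nc nd nb).2 b4]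
  · rw [ztErr, lor_z, lor_z, lte_z, sub_z, lte_z] at h
    obtain ⟨k1, k2, k3⟩ := h
    set co := core xC (Nat.land z (nat_lit 3)) with hco
    set p := Nat.shiftRight z (nat_lit 4) with hp
    set i := bt z (nat_lit 2) (nat_lit 3) with hi
    have hm : (gd co, gc co, gb co) ∈ csL nc xC := List.mem_map.2 ⟨_, List.mem_range.2 k1, rfl⟩
    obtain ⟨c1, c2, c3⟩ := hc.1 _ hm
    dsimp only at c1 c2 c3
    have i4 : i < 4 := by
      have : i = (z >>> 2) % 4 := a3 _
      omega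
    have i5 : (i + 1) % 4 < 4 := Nat.mod_lt _ (by norm_num)
    have hb : ∀ v, (ztMask E xC z).testBit v = true ↔ v = E.Z.rim (gd co) p ∨
        v = E.Z.rim (gd co) (p + 1) ∨ v = E.Z.c (gd co) i ∨ v = E.Z.c (gd co) ((i + 1) % 4) := by
      intro v
      rw [ztMask, lor_bit, m2_bit, cpair, m2_bit, or_assoc, ← a3]
      rfl
    have p1 : p < E.Z.L (gd co) := by omega
    have p2 : p + 1 < E.Z.L (gd co) := by omega
    have hn : ∀ v, (ztMask E xC z).testBit v = true → v < E.n := fun v hv => by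
      rcases (hb v).1 hv with e | e | e | e <;> rw [e]
      exacts [H.zok.rn _ c1 _ p1, H.zok.rn _ c1 _ p2, H.zok.cn _ c1 _ i4, H.zok.cn _ c1 _ i5]
    have e := st4 hb hn
    refine ⟨⟨_, hm, mem_image.2 ⟨(p, i), mem_product.2 ⟨mem_Ico.2 ⟨k2, k3⟩, mem_range.2 i4⟩, ?_⟩⟩,
      ?_, hn⟩
    · rw [qm, e]; rfl
    · rw [e]
      refine card4 (fun q => ?_) (H.zok.rc _ c1 _ p1 _ i4) (H.zok.rc _ c1 _ p1 _ i5)
        (H.zok.rc _ c1 _ p2 _ i4) (H.zok.rc _ c1 _ p2 _ i5) (fun q => ?_)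
      · have := H.zok.ri _ c1 _ p1 _ p2 q
        omega
      · have := H.zok.ci _ c1 _ i4 _ i5 q
        omega
  · obtain ⟨a1, a2, a3, a4, a5, a6, hn⟩ := gate h
    rw [treeErr, lor_z, land_z, land_z] at ht
    obtain ⟨t1, t2⟩ := ht
    have ma := m4_bit.2 (.inl rfl : ga g = ga g ∨ ga g = gb g ∨ ga g = gc g ∨ ga g = gd g)
    have mb := m4_bit.2 (.inr (.inl rfl) : gb g = ga g ∨ gb g = gb g ∨ gb g = gc g ∨ gb g = gd g)
    have mx : (m4 g).testBit x = true := m4_bit.2 (.inr (.inr hx))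
    have ax : ga g ≠ x := by rcases hx with e | e <;> rw [e] <;> assumption
    have bx : gb g ≠ x := by rcases hx with e | e <;> rw [e] <;> assumption
    refine ⟨{ga g, gb g, x}, mem_qm.2 ⟨fun v hv => ?_, card_eq_three.2 ⟨_, _, _, a1, ax, bx, rfl⟩⟩,
      fun hG => ?_, fun l hl hq => ?_⟩
    · simp only [mem_insert, mem_singleton] at hv
      rcases hv with e | e | e <;> rw [e]
      exacts [mem_St.2 ⟨hn _ ma, ma⟩, mem_St.2 ⟨hn _ mb, mb⟩, mem_St.2 ⟨hn _ mx, mx⟩]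
    · have hb := (mem_Gd H.sym (hn _ ma) (hn _ mb) (hn _ mx)).1 hG
      rw [← fa hg] at hb
      exact t2 x ((row_bit H.on).2 ⟨hn _ mx, hb⟩) (p2_bit.2 rfl)
    · have hs := (mem_qm.1 hq).1
      have key : ∀ v ∈ ({ga g, gb g, x} : Finset ℕ), (Nat.shiftRight
          (Nat.land A (Nat.sub (p2 (Nat.mul E.n i)) 1)) v).testBit (E.n * l) = true := by
        intro v hv
        have h3 := (mem_St.1 (hs hv)).2
        rw [H.on, at_bit] at h3
        rw [shr_bit, land_bit, Nat.add_comm v, p2_eq]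
        refine ⟨h3.2, ?_⟩
        change (2 ^ (E.n * i) - 1).testBit _ = true
        rw [Nat.testBit_two_pow_sub_one, decide_eq_true_iff]
        have := Nat.mul_le_mul_left E.n (show l + 1 ≤ i from hl)
        rw [Nat.mul_succ] at this
        omega
      exact t1 _ (land_bit.2 ⟨key _ (by simp), key _ (by simp)⟩)
        (land_bit.2 ⟨key _ (by simp), H.ones l (by omega)⟩)

end Pool.Agent.MP_797bdc_co.Lk
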