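import Pool.Agent.MP_797bdc_co.Lk.XASM
import Pool.Agent.MP_797bdc_co.Lk.XA
import Pool.Agent.MP_797bdc_co.Lk.XGW
import Pool.Agent.MP_797bdc_co.Lk.XPG
import Pool.Agent.MP_797bdc_co.Lk.XSF
import Pool.Agent.MP_797bdc_co.Lk.XTG
import Pool.Agent.MP_797bdc_co.Lk.XC5
import Pool.Agent.MP_797bdc_co.Lk.XCS
import Pool.Agent.MP_797bdc_co.Lk.XPL
import Pool.Agent.MP_797bdc_co.Lk.XKL
import Pool.Agent.MP_797bdc_co.Lk.BUB
import Pool.Agent.MP_797bdc_co.Lk.PG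
import Pool.Agent.MP_797bdc_co.Lk.LOC
import Pool.Agent.MP_797bdc_co.Lk.SEG
import Pool.Agent.MP_797bdc_co.Lk.SMALL

/-! Checker X: final form. -/

namespace Pool.Agent.MP_797bdc_co.Lk

open Finset

/-- the special faces (the same as `A.SigD`) -/
noncomputable def xSig (SG : ℕ) : Finset (Finset ℕ) :=
  (range 15).image fun q => {xsq SG q 0, xsq SG q 1, xsq SG q 2}

theorem xh_of {E : XE} {SG : ℕ} (h : iz (xpre E SG) = true) {hd : DimP E.n} {root : ℕ}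
    {par : ℕ → ℕ} {u τ1 τ2 : Finset ℕ} {h1 h2 : Finset (Finset ℕ)} (sym : SymM E.n E.tM.get)
    (base : Base (sysN E.n hd) E.G (xSig SG) u τ1 τ2 h1 h2) (zok : E.Z.OK E.n root par E.G)
    (lab : ∀ f ∈ xSig SG, E.Z.lab f = 0) : XH E hd root par (xSig SG) u τ1 τ2 h1 h2 := by
  simp only [iz_iff, xpre, fn_eq, lor_z, orN_z, xor_z] at h
  obtain ⟨⟨a1, a2⟩, a3, a4⟩ := h
  have on : E.on = 2 ^ E.n - 1 := by rw [a1, ← p2_eq]; rfl
  refine ⟨on, fun l hl => ?_, sym, base, zok, lab, fun f hf => ?_⟩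
  · rw [← tb_eq]; exact beq_iff.2 (a3 l hl)
  obtain ⟨q, hq, rfl⟩ := mem_image.1 hf
  obtain ⟨⟨b1, b2⟩, b3, b4⟩ := a4 q (mem_range.1 hq)
  have m : ∀ v, (xsm3 SG q).testBit v = true ↔
      v ∈ ({xsq SG q 0, xsq SG q 1, xsq SG q 2} : Finset ℕ) := fun v => by
    rw [xsm3, lor_bit, m2_bit, p2_bit, or_assoc, mem_insert, mem_insert, mem_singleton]
  refine ⟨card_eq_three.2 ⟨_, _, _, fun e => ?_, fun e => ?_, fun e => ?_, rfl⟩,
    ⟨q, a2 ▸ mem_range.1 hq, ?_⟩, fun v hv => dd_z.1 b2 v ((m v).2 hv)⟩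
  · exact land_z.1 b3 _ (p2_bit.2 rfl) (p2_bit.2 e)
  · exact land_z.1 b4 _ (m2_bit.2 (Or.inl rfl)) (p2_bit.2 e)
  · exact land_z.1 b4 _ (m2_bit.2 (Or.inr rfl)) (p2_bit.2 e)
  · ext v
    rw [mem_St, ← m, ← b1, on, at_bit]
    exact ⟨fun h => ⟨h.1, h⟩, fun h => h.2⟩

/-- Safe tokens of block `id`. -/
def XSt (E : XE) (tG tX : BT) (id : ℕ) (t : Finset ℕ) : Prop :=
  xnl (tG.get id) = 0 → XSx E (tX.get id) t

theorem xfin {E : XE} {SG : ℕ} {tG tX : BT} (h : iz (xpre E SG) = true)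
    (run : OK2 (xchk E) tG tX) {hd : DimP E.n} {root : ℕ}
    {par : ℕ → ℕ} {u τ1 τ2 : Finset ℕ} {h1 h2 : Finset (Finset ℕ)} (sym : SymM E.n E.tM.get)
    (base : Base (sysN E.n hd) E.G (xSig SG) u τ1 τ2 h1 h2) (zok : E.Z.OK E.n root par E.G)
    (lab : ∀ f ∈ xSig SG, E.Z.lab f = 0) (id : ℕ) :
    XOK2 E.n hd E.G (tG.get id) (XSt E tG tX id) ∧
      ∀ tW x y z, xsw E tG tX tW id x y z = true → XSt E tG tX id {x, y, z} := by
  have H := xok bub pg loc seg kap xgw xpg xsf xtg xc5 xcs xpl xkl E hd root par _ u τ1 τ2 h1 h2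
    (xh_of h sym base zok lab) _ _ (run id)
  refine ⟨H.1, fun tW x y z hw nl => ?_⟩
  rw [xsw, cb_eq, if_pos (iz_iff.2 nl), fb_eq] at hw
  generalize Nat.land (tW.get id) (nat_lit 255) = k at hw
  induction k with
  | zero => exact absurd hw (by simp)
  | succ k ih =>
    rcases orr_iff.1 hw with hw | hw
    · exact ih hw
    rw [fb_eq, cb_eq] at hw
    split_ifs at hw with c
    have e : tk3 (rec_ (Nat.shiftRight (tW.get id) (nat_lit 8)) (nat_lit 96) k) = {x, y, z} := by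
      ext v
      rw [tk3, mem_insert, mem_insert, mem_singleton, ← m3_bit, beq_iff.1 c, lor_bit, m2_bit,
        p2_bit, or_assoc, mem_insert, mem_insert, mem_singleton]
    exact e ▸ H.2 _ hw

end Pool.Agent.MP_797bdc_co.Lk

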