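import Pool.Agent.MP_797bdc_co.Lk.Stm3

namespace Pool.Agent.MP_797bdc_co.Lk

open Finset

namespace ZB2

lemma mem_qd {a b c d : ℕ} {f : Finset ℕ} (h : f ∈ qd a b c d) (hab : a ≠ b) (hac : a ≠ c)
    (had : a ≠ d) (hbc : b ≠ c) (hbd : b ≠ d) (hcd : c ≠ d) :
    f = {a, b, c} ∨ f = {a, b, d} ∨ f = {a, c, d} ∨ f = {b, c, d} := by
  obtain ⟨h1, h2⟩ := mem_powersetCard.1 h
  have h4 : ({a, b, c, d} : Finset ℕ).card = 4 := by simp [*]
  obtain ⟨x, hx, hxf⟩ := exists_mem_notMem_of_card_lt_card (show f.card < _ by rw [h4, h2]; omega)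
  have h5 : f = ({a, b, c, d} : Finset ℕ).erase x :=
    eq_of_subset_of_card_le (subset_erase.2 ⟨h1, hxf⟩) (by rw [card_erase_of_mem hx, h4, h2])
  simp only [mem_insert, mem_singleton] at hx
  rcases hx with rfl | rfl | rfl | rfl
  · right; right; right; rw [h5]; ext y; simp only [mem_erase, mem_insert, mem_singleton]; omega
  · right; right; left; rw [h5]; ext y; simp only [mem_erase, mem_insert, mem_singleton]; omega
  · right; left; rw [h5]; ext y; simp only [mem_erase, mem_insert, mem_singleton]; omega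
  · left; rw [h5]; ext y; simp only [mem_erase, mem_insert, mem_singleton]; omega

lemma tok_mem {a b c d x : ℕ} (hab : a ≠ b) (hax : a ≠ x) (hbx : b ≠ x) :
    {a, b, x} ∈ qd a b c d ↔ x = c ∨ x = d := by
  rw [qd, mem_powersetCard]
  constructor
  · intro h
    have := h.1 (show x ∈ _ by simp)
    simp only [mem_insert, mem_singleton] at this
    omega
  · intro h
    refine ⟨fun y => ?_, by simp [*]⟩
    simp only [mem_insert, mem_singleton]
    omega

end ZB2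

open ZB2 in
theorem zb2 (hl : GENL3_s) (hs : SEG_s) (hp : PG_s) (hc : LOC_s) : ZB2_s := by
  intro Z n hd root par G Sig u τ1 τ2 h1 h2 hB hZ hS j hj p0 p1 h01 h1L hG noLoc B safe hcov
  have hcs : Z.CoresOK [(j, p0, p1)] := ⟨by simp [*], by simp⟩
  obtain ⟨⟨s1, s2, s3⟩, s4⟩ := And.intro ((hs Z n hd root par G hZ).1 _ hcs)
    ((hs Z n hd root par G hZ).2 j hj p0 p1 h01 h1L hG)
  have h0L : p0 < Z.L j := h01.trans h1L
  have hab : Z.rim j p0 ≠ Z.rim j p1 := fun e => h01.ne (hZ.ri j hj _ h0L _ h1L e)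
  have ha := hZ.rc j hj p0 h0L
  have hb := hZ.rc j hj p1 h1L
  have tm : ∀ m < 4, ∀ l < 4, {Z.rim j p0, Z.rim j p1, Z.c j m} ∈
      qd (Z.rim j p0) (Z.rim j p1) (Z.c j l) (Z.c j ((l + 1) % 4)) ↔ m = l ∨ m = (l + 1) % 4 :=
    fun m hm l hl => by
      rw [tok_mem hab (ha m hm) (hb m hm)]
      exact or_congr ⟨hZ.ci j hj m hm l hl, congrArg _⟩
        ⟨hZ.ci j hj m hm _ (by omega), congrArg _⟩
  have ng : ∀ k p, Z.Node k p → Z.rim k p = Z.rim j p0 ∨ Z.rim k p = Z.rim j p1 →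
      Z.NGood [(j, p0, p1)] k p := fun k p hk h x hx => by
    obtain rfl := List.mem_singleton.1 hx
    exact .inl ⟨h, h.elim (fun e => hZ.mem k p hk j hj p0 h0L e.symm)
      fun e => hZ.mem k p hk j hj p1 h1L e.symm⟩
  have pg : ∀ x y, x = Z.rim j p0 ∧ y = Z.rim j p1 ∨ x = Z.rim j p1 ∧ y = Z.rim j p0 →
      Z.Cov x y → Z.PGood [(j, p0, p1)] x y := by
    rintro x y hxy (h | ⟨k, p, i, hk, hi, rfl, rfl⟩ | ⟨k, p, hk, hp', rfl, rfl⟩)
    · exact .inl h
    · exact .inr (.inl ⟨k, p, i, hk, hi, rfl, rfl, ng k p hk (hxy.imp And.left And.left)⟩)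
    · refine .inr (.inr ⟨k, p, hk, hp', rfl, rfl, fun z hz e => ?_,
        fun h => ng _ _ h (hxy.imp And.left And.left),
        fun h => ng _ _ h (hxy.imp And.right And.right).symm⟩)
      obtain rfl := List.mem_singleton.1 hz
      obtain rfl : j = k := e
      rcases hxy with ⟨e1, e2⟩ | ⟨e1, e2⟩
      · exact hG 0 (by omega) (e1 ▸ e2 ▸ (hZ.rfG j hj p hp' 0 (by omega)).1)
      · have := hZ.ri j hj p (by omega) p1 h1L e1
        have := hZ.ri j hj (p + 1) hp' p0 h0L e2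
        omega
  have dab : Dv n root par G (Z.Iall [(j, p0, p1)]) (Z.rim j p0) (Z.rim j p1) := by
    have : Z.Cov (Z.rim j p0) (Z.rim j p1) ∨ Z.Cov (Z.rim j p1) (Z.rim j p0) := by
      rcases lt_or_gt_of_ne hab with h | h
      · exact hZ.cov _ (hZ.rn j hj _ h0L) _ (hZ.rn j hj _ h1L) h
      · exact (hZ.cov _ (hZ.rn j hj _ h1L) _ (hZ.rn j hj _ h0L) h).symm
    rcases this with h | h
    · exact hp Z n root par G hZ _ hcs _ _ (pg _ _ (.inl ⟨rfl, rfl⟩) h)
    · exact (hp Z n root par G hZ _ hcs _ _ (pg _ _ (.inr ⟨rfl, rfl⟩) h)).symm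
  have dc : ∀ p < Z.L j, p = p0 ∨ p = p1 →
      Dv n root par G (Z.Iall [(j, p0, p1)]) (Z.rim j p) (Z.c j 3) := fun p hpL h => by
    refine hp Z n root par G hZ _ hcs _ _ ?_
    by_cases e0 : p = 0
    · exact .inl (e0 ▸ (hZ.skc j hj 3 (by omega)).2.1)
    by_cases e1 : p = Z.L j - 1
    · exact .inl (e1 ▸ (hZ.skc j hj 3 (by omega)).2.2)
    have hn : Z.Node j p := ⟨hj, by omega, by omega⟩
    exact .inr (.inl ⟨j, p, 3, hn, by omega, rfl, rfl,
      ng j p hn (h.imp (congrArg _) (congrArg _))⟩)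
  refine hl _ (sysN n hd) G Sig u τ1 τ2 h1 h2 hB noLoc B safe 4
    (fun i => qd (Z.rim j p0) (Z.rim j p1) (Z.c j i) (Z.c j ((i + 1) % 4))) (· = 3) 0 (fun _ => ∅)
    (Z.Reg [(j, p0, p1)]) (Z.Iall [(j, p0, p1)]) 0 (fun _ _ => 0) (fun _ => ∅)
    (fun q hq hq' => (hcov q hq hq').1)
    ⟨fun q hq hq' => (hcov q hq hq').2.1, fun i hi l hl' e => ?_, fun i hi h3 => ?_,
      fun i hi h3 => ?_, ?_⟩ (fun i hi => by omega) ?_ s2 (fun i hi => by omega) (fun i hi h3 => ?_)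
    fun q hq hq' t ht => ⟨fun l hl' => by omega, (hcov q hq hq').2.2 t ht⟩
  · have e1 := (tm i hi l hl').1 (e ▸ (tm i hi i hi).2 (.inl rfl))
    have e2 := (tm ((i + 1) % 4) (by omega) l hl').1 (e ▸ (tm _ (by omega) i hi).2 (.inr rfl))
    omega
  · refine ⟨_, (tm (i + 1) (by omega) i hi).2 (by omega), hG _ (by omega), fun l hl' e => ?_⟩
    have := (tm (i + 1) (by omega) l (by omega)).1 e
    omega
  · refine ⟨range 4, Z.seg j p0 p1, mem_range.2 hi, fun l hl' => by have := mem_range.1 hl'; omega,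
      fun τ hτ => .inr ⟨_, List.mem_singleton.2 rfl, hτ⟩, fun t ht => ?_, s4⟩
    by_cases h : ∃ m < 4, t = {Z.rim j p0, Z.rim j p1, Z.c j m}
    · obtain ⟨m, hm, rfl⟩ := h
      rw [filter_congr fun l hl' => tm m hm l (mem_range.1 hl')]
      interval_cases m <;> decide
    · rw [filter_false_of_mem, card_empty]
      · exact Even.zero
      intro l hl' e
      have hl4 := mem_range.1 hl'
      have hl5 : (l + 1) % 4 < 4 := by omega
      rcases mem_qd e hab (ha l hl4) (ha _ hl5) (hb l hl4) (hb _ hl5)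
        (fun e => by have := hZ.ci j hj l hl4 _ hl5 e; omega) with e | e | e | e
      · exact h ⟨l, hl4, e⟩
      · exact h ⟨_, hl5, e⟩
      · exact ht (e ▸ (hZ.nfG j hj p0 h0L l hl4).1)
      · exact ht (e ▸ (hZ.nfG j hj p1 h1L l hl4).1)
  · rintro τ (⟨i, hi, -⟩ | h)
    · omega
    · exact s1 τ h
  · rintro f hf τ τ' (⟨i, hi, -⟩ | h) - hfτ -
    · omega
    · exact absurd (hS f hf) (s3 f τ h hfτ)
  · subst h3
    exact ⟨_, (tm 3 hi 3 hi).2 (.inl rfl), hG 3 hi, fun l hl' => by omega,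
      hc n root par G _ hZ.tree _ (hZ.rn j hj _ h0L) _ (hZ.rn j hj _ h1L) _ (hZ.cn j hj 3 hi) hab
        (ha 3 hi) (hb 3 hi) dab (dc p0 h0L (.inl rfl)) (dc p1 h1L (.inr rfl))⟩

end Pool.Agent.MP_797bdc_co.Lk
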