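import Pool.Agent.MP_797bdc_co.Lk.AAsm
import Pool.Agent.MP_797bdc_co.Lk.LOCK3
import Pool.Agent.MP_797bdc_co.Lk.DUAL
import Pool.Agent.MP_797bdc_co.Lk.DIM
import Pool.Agent.MP_797bdc_co.Lk.LA
import Pool.Agent.MP_797bdc_co.Lk.LU
import Pool.Agent.MP_797bdc_co.Lk.GEN3
import Pool.Agent.MP_797bdc_co.Lk.ZB2
import Pool.Agent.MP_797bdc_co.Lk.MAT
import Pool.Agent.MP_797bdc_co.Lk.GNF
import Pool.Agent.MP_797bdc_co.Lk.HT
import Pool.Agent.MP_797bdc_co.Lk.HG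
import Pool.Agent.MP_797bdc_co.Lk.HK
import Pool.Agent.MP_797bdc_co.Lk.HP
import Pool.Agent.MP_797bdc_co.Lk.PCA
import Pool.Agent.MP_797bdc_co.Lk.PCL2
import Pool.Agent.MP_797bdc_co.Lk.HBA
import Pool.Agent.MP_797bdc_co.Lk.HDS
import Pool.Agent.MP_797bdc_co.Lk.SS
import Pool.Agent.MP_797bdc_co.Lk.XFin

/-! The main statement from the results of the kernel runs. -/

namespace Pool.Agent.MP_797bdc_co.Lk

open Finset

theorem zbA : ZB2_s := zb2 (genl3 bub) seg pg loc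
theorem htA : HT_s := htT pca (hk gnf) (hp pcl2 gnf) (hgen pcl2 pca (hk gnf) gnf) gnf

theorem top0 {n : ℕ} (hn : 6 ≤ n) (hd : DimP n) {M : ℕ → ℕ} {Z : Zn} {root : ℕ} {par : ℕ → ℕ}
    {Sig : Finset (Finset ℕ)} {s2 s7 s8 z1 z2 : ℕ}
    (pa : A.PartA n hd M Z root par Sig s2 s7 s8 z1 z2) {SM : ℕ → ℕ → ℕ}
    {safe : Finset (Finset ℕ) → Finset ℕ → Prop}
    (hb : BPon2 (sysN n hd) (Gd n M) (noLocS n (Gd n M) SM) safe (fun _ => True))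
    (hc : HOK3 n hd (Gd n M) {s2, s7, s8} {s2, s7, z1} {s7, s8, z2} (qd s2 s7 s8 z1)
      (qd s2 s7 s8 z2) SM safe) : MAIN_s :=
  ⟨n - 4, n, by omega, by omega, dual n hn hd _ pa.base.GΩ pa.base.perc pa.ins pa.tok
    (lock3 bub la lu _ _ _ _ _ _ _ _ _ _ _ ⟨pa.base, hb, hc, pa.hot, pa.sep⟩)⟩

theorem top {E : XE} (hn : 6 ≤ E.n) (hn' : E.n ≤ 512) (hd : DimP E.n) {root : ℕ} {par : ℕ → ℕ}
    {SG s2 s7 s8 z1 z2 : ℕ}
    (pa : A.PartA E.n hd E.tM.get E.Z root par (A.SigD SG) s2 s7 s8 z1 z2)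
    (rP : iz (xpre E SG) = true) {tG tX tW : BT} (rX : OK2 (xchk E) tG tX) {NX : ℕ} {SM SD SW : ℕ → ℕ → ℕ}
    (hP : POK E.n hd E.G E.Z tG NX SM SD) {Zt It : ℕ → ℕ} {NI PG PM PS ON : ℕ}
    (hO : ON = (2 ^ (E.n * E.n) - 1) / (2 ^ E.n - 1)) {L : List H.DR}
    (hL : H.dall E.n E.tM.get s2 s7 s8 L = true) {x t e : ℕ}
    (c1 : H.Ch (fun x t x' t' => ∃ a b0 k R,
      H.unitOK E.n E.tM.get Zt It s2 s7 s8 NI PG PM PS ON SM x t x' t' a b0 k R = true) 0 0 x t)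
    (hx : 512 * (E.n - 2) + E.n ≤ x) (ht : NI ≤ t)
    (c2 : H.Ch (fun s _ e _ => ∃ L', H.genU E.n E.tM.get Zt It s2 s7 s8 NI PM PS (H.m3 s2 s7 z1)
      (H.m3 s7 s8 z2) (S.sfe E.n E.J E.tM.get Zt It E.tZ E.tF tG E.SK (xsw E tG tX tW) SD SW)
      (H.ddf L) s e L' = true) 0 0 e 0)
    (c3 : H.Ch (fun s _ e _ => ∃ k R,
      H.plainU E.n E.tM.get Zt It s2 s7 s8 NI PG s e k R = true) e 0 NI 0) : MAIN_s := by
  have hX := xfin rP rX (hd := hd) pa.sym pa.base pa.ok pa.lab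
  refine top0 hn hd pa (hP (XSt E tG tX) fun id _ => (hX id).1) ?_
  exact H.hall mat htA pa.sym hn' hd pa.base (hO ▸ (mat E.n (by omega)).2.2.2.2.1)
    (S.sfe_ok' pg loc pa.sym hn' pa.ok (fun id => (hX id).2 tW) SM SD SW)
    (H.dd_ok gnf hd pa.sym hn' hL) c1 hx ht c2 c3

end Pool.Agent.MP_797bdc_co.Lk
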