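import Pool.Agent.MP_797bdc_co.Lk.XS

/-! Checker X: assembly of the rows. -/

namespace Pool.Agent.MP_797bdc_co.Lk

open Finset

namespace XASM

theorem cat_bit {n t T A w : ℕ} : (Nat.lor T (Nat.shiftLeft A (Nat.mul n t))).testBit w = true ↔
    T.testBit w = true ∨ (n * t ≤ w ∧ A.testBit (w - n * t) = true) := by
  rw [lor_bit, show Nat.shiftLeft A (Nat.mul n t) = A <<< (n * t) from rfl, Nat.testBit_shiftLeft]
  simp

theorem cat1 {n t T A l : ℕ} (hl : l < t) :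
    at_ n (2 ^ n - 1) (Nat.lor T (Nat.shiftLeft A (Nat.mul n t))) l = at_ n (2 ^ n - 1) T l :=
  Nat.eq_of_testBit_eq fun v => by
    rw [Bool.eq_iff_iff, at_bit, at_bit, cat_bit]
    have := Nat.mul_le_mul_left n (show l + 1 ≤ t from hl)
    rw [Nat.mul_succ] at this
    exact and_congr_right fun hv => ⟨fun h => h.resolve_right fun h' => by omega, Or.inl⟩

theorem cat2 {n t A i : ℕ} {f : ℕ → ℕ} (hf : ∀ i < t, ∀ w, (f i).testBit w = true → w < n) :
    at_ n (2 ^ n - 1) (Nat.lor (arr n t f) (Nat.shiftLeft A (Nat.mul n t))) (t + i) =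
      at_ n (2 ^ n - 1) A i :=
  Nat.eq_of_testBit_eq fun v => by
    rw [Bool.eq_iff_iff, at_bit, at_bit, cat_bit]
    refine and_congr_right fun hv => ?_
    rw [arr_bit hf hv, show n * (t + i) + v - n * t = n * i + v by rw [Nat.mul_add]; omega]
    exact ⟨fun h => (h.resolve_left fun h' => by omega).2,
      fun h => Or.inr ⟨by rw [Nat.mul_add]; omega, h⟩⟩

theorem rec_lt (x w i : ℕ) : rec_ x w i < 2 ^ w := by
  have h : rec_ x w i = (x >>> (w * i)) &&& (2 ^ w - 1) := by rw [← p2_eq]; rfl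
  rw [h, Nat.and_two_pow_sub_one_eq_mod]
  exact Nat.mod_lt _ (Nat.two_pow_pos w)

theorem xg_lt (r i : ℕ) : xg r i < 2 ^ 36 :=
  Nat.lt_succ_of_le (Nat.and_le_right (n := r >>> (i * 36 + 38)) (m := 68719476735))

end XASM

open XASM in
theorem xok (hb : BUB_s) (hPG : PG_s) (hLOC : LOC_s) (hSEG : SEG_s) (hKAP : KAP_s) (gw : XGW_s)
    (pg : XPG_s) (sf : XSF_s) (tg : XTG_s) (c5 : XC5_s) (cs : XCS_s) (pl : XPL_s) (kl : XKL_s) :
    XOK_s := by
  intro E hd root par Sig u τ1 τ2 h1 h2 H r x h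
  simp only [xchk, xchk1, fn_eq, lor_z, orN_z, sub_z] at h
  obtain ⟨⟨⟨⟨a1, a2⟩, ⟨a3, a4⟩, a5⟩, hC, hT, hZ⟩, ⟨hG, hTr, hCl⟩, ⟨hP, hK⟩, hS, hF⟩ := h
  obtain ⟨g1, g2, g3, g4⟩ := tg E hd root par Sig u τ1 τ2 h1 h2 H
  obtain ⟨k1, k2⟩ := kl E hd root par Sig u τ1 τ2 h1 h2 H
  have CO := (pg E hd root par Sig u τ1 τ2 h1 h2 H _ _ hC).1
  obtain ⟨s1, s2, s3⟩ := (hSEG E.Z E.n hd root par E.G H.zok).1 _ CO
  set kr : ℕ → ℕ := fun l => rec_ (sK x) (nat_lit 27) l with hkr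
  have b3 : ∀ l < he x, ∀ w, (m3 (kr l)).testBit w = true → w < E.n := fun l hl => by
    have := hK l hl
    simp only [killErr, lor_z] at this
    exact shr_z.1 this.1.2
  have eKE : ∀ l < he x, at_ E.n E.on (aKE E x) l = m2 (gc (kr l)) (gb (kr l)) := fun l hl => by
    rw [H.on]
    exact at_arr (fun i hi w hw => b3 i hi w (lor_bit.2 (Or.inl hw))) hl
  have eFK : ∀ l < he x, at_ E.n E.on (aFK E x) l = m3 (kr l) := fun l hl => by
    rw [H.on]; exact at_arr b3 hl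
  have SF := sf pg hPG hLOC E hd root par Sig u τ1 τ2 h1 h2 H (hc x) (sC x) (he x) (aKE E x)
  refine ⟨?_, fun t ht => ?_⟩
  swap
  · have := SF t kr hC eKE (iz_iff.1 ht)
    exact ⟨this.2.2.2.2.1, this.2.2.2.2.2⟩
  set fT : ℕ → ℕ := fun l => cn (lt l (hs x)) (m4 (rec_ (sS x) (nat_lit 36) l))
    (ztMask E (sC x) (rec_ (sZ x) (nat_lit 13) (Nat.sub l (hs x)))) with hfT
  have pT : ∀ l < htn x, (l < hs x → FQ (sysN E.n hd) E.G (qm E.n (fT l))) ∧
      (¬ l < hs x → qm E.n (fT l) ∈ E.Z.Reg (csL (hc x) (sC x))) ∧ (St E.n (fT l)).card = 4 ∧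
      ∀ v, (fT l).testBit v = true → v < E.n := fun l hl => by
    by_cases c : l < hs x
    · have e : fT l = m4 (rec_ (sS x) (nat_lit 36) l) := by rw [hfT]; simp only [cn_eq, lt_iff, c, if_true]
      have := g2 _ (rec_lt _ _ _) (hT l c)
      rw [e]; exact ⟨fun _ => this.1, fun c' => absurd c c', this.2⟩
    · have e : fT l = ztMask E (sC x) (rec_ (sZ x) (nat_lit 13) (Nat.sub l (hs x))) := by
        rw [hfT]; simp only [cn_eq, lt_iff, c, if_false]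
      have := g3 _ _ _ CO (hZ (Nat.sub l (hs x)) (show l - hs x < htn x - hs x by omega))
      rw [e]; exact ⟨fun c' => absurd c' c, fun _ => this.1, this.2⟩
  have eT : ∀ l < htn x, at_ E.n E.on (aT E x) l = fT l := fun l hl => by
    rw [H.on]; exact at_arr (fun i hi => (pT i hi).2.2.2) hl
  have eA : ∀ i < xk r, at_ E.n E.on (aG E r) i = m4 (xg r i) := fun i hi => by
    rw [H.on]; exact at_arr (fun i hi => (g1 _ (hG i hi)).2.2) hi
  set Q := Nat.lor (aT E x) (Nat.shiftLeft (aG E r) (Nat.mul E.n (htn x))) with hQ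
  have eQ1 : ∀ l < htn x, at_ E.n E.on Q l = at_ E.n E.on (aT E x) l := fun l hl => by
    rw [H.on]; exact cat1 hl
  have eQ2 : ∀ i, at_ E.n E.on Q (htn x + i) = at_ E.n E.on (aG E r) i := fun i => by
    rw [H.on]; exact cat2 fun i hi => (pT i hi).2.2.2
  have qG : ∀ i < xk r, E.q Q (htn x + i) = qm E.n (m4 (xg r i)) := fun i hi => by
    rw [XE.q, eQ2, eA i hi]
  have c4T : ∀ l < ht1 x, E.c4 (aT E x) l := fun l hl => by
    rw [XE.c4, eT l (by omega)]; exact (pT l (by omega)).2.2.1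
  have inW : ∀ l < htn x, E.q (aT E x) l ∈ {τ | ∃ i < hs x, τ = E.q (aT E x) i} ∪
      E.Z.Reg (csL (hc x) (sC x)) := fun l hl => by
    by_cases c : l < hs x
    · exact Or.inl ⟨l, c, rfl⟩
    · right; rw [XE.q, eT l hl]; exact (pT l hl).2.1 c
  obtain ⟨p1, p2, p3⟩ := pl E hd root par Sig u τ1 τ2 h1 h2 H _ _ _ _ _ _ _ kr a1 CO c4T eFK hP
  have cl : ∀ i < xk r, hkt x ≤ i → ∃ c xG, closeErr E (xnl r) (hc x) (sC x) xG (hn x) (aSA E x) Q
      (htn x + i) (xg r i) c = 0 := fun i hi hk => by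
    have := hCl (i - hkt x) (show i - hkt x < xk r - hkt x by omega)
    rw [show Nat.add (hkt x) (i - hkt x) = i from Nat.add_sub_cancel' hk] at this
    exact ⟨_, _, this⟩
  intro noLoc B safe hB
  have ears : EarsL (sysN E.n hd) E.G B (htn x) (hkt x) (xk r) (E.q Q)
      ({τ | ∃ i < hs x, τ = E.q (aT E x) i} ∪ E.Z.Reg (csL (hc x) (sC x))) := by
    refine ⟨fun q hq hq' => ?_, fun l hl => ?_, fun i hi => ?_, fun i hi hk => ?_, ?_⟩
    · obtain ⟨⟨i, hi, e⟩, -⟩ := hB q hq hq'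
      exact ⟨i, hi, by rw [qG i hi, (g1 _ (hG i hi)).1]; exact e⟩
    · rw [XE.q, eQ1 l hl]; exact inW l hl
    · have hi' : i < xk r := by omega
      obtain ⟨s, b1, b2, b4⟩ := g4 _ (xg_lt r i) _ i _ (hG i hi') (by
        rw [cn_eq]; split_ifs <;> simp) (by omega) (hTr i hi)
      exact ⟨s, qG i hi' ▸ b1, b2, fun l hl => by rw [XE.q, eQ2]; exact b4 l hl⟩
    · obtain ⟨c, xG, hc'⟩ := cl i hi hk
      have e : at_ E.n E.on Q (htn x + i) = m4 (xg r i) := by rw [eQ2, eA i hi]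
      simp only [closeErr, lor_z, cn_z] at hc'
      obtain ⟨⟨d1, d2⟩, -⟩ := hc'
      by_cases c0 : iz (Nat.land c (nat_lit 3)) = true
      · exact (c5 E H.on Q _ _).1 _ c _ (hG i hi) e (d1 c0).1 (d1 c0).2
      by_cases c1 : Nat.beq (Nat.land c (nat_lit 3)) (nat_lit 1) = true
      · exact cs hSEG E hd root par Sig u τ1 τ2 h1 h2 H _ _ Q _ _ c _ CO Set.subset_union_right e
          ((d2 c0).1 c1)
      · refine (c5 E H.on Q _ _).2 _ _ (fun l hl => ?_) ((d2 c0).2 c1)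
        by_cases c2 : l < htn x
        · rw [XE.c4, eQ1 l c2, eT l c2]; exact (pT l c2).2.2.1
        · obtain ⟨j, rfl⟩ := Nat.exists_eq_add_of_le (not_lt.1 c2)
          rw [XE.c4, eQ2, eA j (by omega)]; exact (g1 _ (hG j (by omega))).2.1
    · rintro τ (⟨i, hi, rfl⟩ | hτ)
      · rw [XE.q, eT i (by omega)]; exact (pT i (by omega)).1 hi
      · exact s1 τ hτ
  by_cases nl : xnl r = 0
  swap
  · have z : hc x + he x = 0 := (Nat.mul_eq_zero.1 a5).resolve_left nl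
    have e1 : E.Z.Reg (csL (hc x) (sC x)) = ∅ := by
      rw [show hc x = 0 by omega]; ext τ; simp [Zn.Reg, csL]
    have e2 : {f | ∃ l < he x, f = tk3 (kr l)} = ∅ := by
      rw [show he x = 0 by omega]; ext τ; simp
    rw [e1, Set.union_empty] at ears
    rw [e1, e2] at p3
    exact (gw hb).1 _ _ _ _ _ _ _ _ _ _ _ _ ears p3 fun f i hi l hl p hp =>
      p2 f i (by omega) l (by omega) p (by omega)
  have hF' := fun l hl => SF _ kr hC eKE (hF l hl).1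
  refine (gw hb).2 _ _ _ Sig u τ1 τ2 h1 h2 H.base _ _ _ _ _ _ _ _ _ _ (E.Z.Iall (csL (hc x) (sC x)))
    (he x) (fun l => kap3 (kr l)) (fun l => tk3 (kr l)) (fun q a b => ((hB q a b).2 nl).1) ears p3
    ?_ s2 (fun i hi => ?_) (fun i hi hk => ?_) fun q a b t ht => ((hB q a b).2 nl).2 t ht nl
  · rintro f hf τ τ' (⟨p, hp, rfl⟩ | a) (⟨p', hp', rfl⟩ | b) c d
    · rw [k2 _ _ ((cn_z.1 hS).1 (iz_iff.2 nl)) f hf p hp p' hp' c d]
    · exact absurd (H.lab f hf) (s3 f _ b d)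
    · exact absurd (H.lab f hf) (s3 f _ a c)
    · exact absurd (H.lab f hf) (s3 f _ a c)
  · obtain ⟨b1, b2, b4⟩ := k1 _ _ _ _ i kr c4T (eKE i hi) (fun l hl => eFK l (by omega)) (hK i hi)
    refine ⟨hKAP E.n _ _ b1, by simp [kap3, tk3], b2, fun f hf c => ?_⟩
    obtain ⟨p, hp, p', hp', d1, d2, d3⟩ := b4 f hf c
    exact ⟨_, inW p (by omega), _, inW p' (by omega), fun e => d1 (p1 p hp p' hp' e), d2, d3⟩
  · obtain ⟨c, xG, hc'⟩ := cl i hi hk
    simp only [closeErr, lor_z] at hc'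
    obtain ⟨d1, d2⟩ := lor_z.1 ((cn_z.1 hc'.2).1 (iz_iff.2 nl))
    have d3 := lte_z.1 d1
    obtain ⟨f1, f2, -, f4, f5, f6⟩ := hF' _ d3
    have e : at_ E.n E.on (aSA E x) (bt c (nat_lit 2) (nat_lit 127)) =
        m3 (rec_ (sF x) (wF x) (bt c (nat_lit 2) (nat_lit 127))) := by
      rw [H.on]; exact at_arr (fun l hl => (hF' l hl).2.2.1) d3
    rw [e] at d2
    refine ⟨_, ?_, f4 (hF _ d3).2, f5, f6⟩
    rw [qG i hi, mem_qm, ← f1]
    exact ⟨fun v hv => mem_St.2 ⟨(mem_St.1 hv).1, dd_z.1 d2 v (mem_St.1 hv).2⟩, f1 ▸ f2⟩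

end Pool.Agent.MP_797bdc_co.Lk
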