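import Pool.Agent.MP_797bdc_co.Lk.PrimB

/-! Checker X (explicit blocks): definitions. Every function returns an error number, `0` = good. -/

namespace Pool.Agent.MP_797bdc_co.Lk

open Nat (add mul sub land lor xor shiftRight shiftLeft ble beq)

noncomputable section

/-- evaluate `x`, then go on -/
def fn (x : Nat) (f : Nat → Nat) : Nat := Nat.rec (nat_lit 0) (fun k _ => f k) (add x (nat_lit 1))
def orN (k : Nat) (f : Nat → Nat) : Nat := Nat.rec (nat_lit 0) (fun i ih => lor ih (f i)) k
def iz (x : Nat) : Bool := beq x (nat_lit 0)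
/-- `0` iff `a < b` -/
def lte (a b : Nat) : Nat := sub (add a (nat_lit 1)) b
/-- bits of `a` outside `b` -/
def dd (a b : Nat) : Nat := xor a (land a b)
/-- `0` iff at most one bit -/
def le1 (d : Nat) : Nat := land d (sub d (nat_lit 1))
def on1 (d : Nat) : Nat := cn (iz (le1 d)) d (nat_lit 0)
def f9 (x i : Nat) : Nat := land (shiftRight x i) (nat_lit 511)
def f10 (x i : Nat) : Nat := land (shiftRight x i) (nat_lit 1023)
def m2 (a b : Nat) : Nat := lor (p2 a) (p2 b)
def m4 (g : Nat) : Nat := lor (m2 (ga g) (gb g)) (m2 (gc g) (gd g))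
/-- the three fields of a 27-bit record as a mask, and the first two -/
def m3 (g : Nat) : Nat := lor (m2 (gc g) (gb g)) (p2 (gd g))
def arr (n k : Nat) (f : Nat → Nat) : Nat := orN k (fun i => shiftLeft (f i) (mul n i))
def at_ (n on A i : Nat) : Nat := land (shiftRight A (mul n i)) on
def rec_ (x w i : Nat) : Nat := land (shiftRight x (mul w i)) (sub (p2 w) (nat_lit 1))

/-- the global data -/
structure XE where
  n : Nat
  on : Nat
  ones : Nat
  kmax : Nat
  J : Nat
  tM : BT
  tZ : BT
  tF : BT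
  SK : Nat
  ns : Nat
  sg : Nat
  sm : Nat

variable (E : XE)

/-- the link of the pair `ab = 512 a + b` -/
def row1 (ab : Nat) : Nat :=
  land (shiftRight (fn (shiftRight ab (nat_lit 9)) E.tM.get) (mul E.n (land ab (nat_lit 511)))) E.on
def row (ab : Nat) : Nat := fn ab (row1 E)
def zget (j : Nat) : Nat := fn j E.tZ.get
def cmask (z : Nat) : Nat :=
  lor (m2 (zc z (nat_lit 0)) (zc z (nat_lit 1))) (m2 (zc z (nat_lit 2)) (zc z (nat_lit 3)))
def cpair (z i : Nat) : Nat := m2 (zc z i) (zc z (land (add i (nat_lit 1)) (nat_lit 3)))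

/-- cores: records `j + 512 p0 + 512^2 p1` -/
def core (xC c : Nat) : Nat := rec_ xC (nat_lit 27) c
def coresErr (nc xC : Nat) : Nat := orN nc fun c =>
  lor (lor (lte (gd (core xC c)) E.J) (lte (gc (core xC c)) (gb (core xC c))))
    (lor (lte (gb (core xC c)) (zl (zget E (gd (core xC c)))))
      (orN c fun c' => cn (beq (gd (core xC c)) (gd (core xC c'))) (nat_lit 1) (nat_lit 0)))

/-- node `(k, p)` with vertex `x` is good for the cores -/
def ngErr (nc xC k p x : Nat) : Nat := orN nc fun c =>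
  cn (orr (beq x (zr (zget E (gd (core xC c))) (gc (core xC c))))
      (beq x (zr (zget E (gd (core xC c))) (gb (core xC c))))) (nat_lit 0)
    (land (shiftRight (nfu (nrec (fn k E.tF.get) p)) (gd (core xC c))) (nat_lit 1))

/-- witness: type (2 bits), zone (9), position (9), index (2) -/
def pgErr1 (nc xC x y w : Nat) : Nat :=
  cn (iz (land w (nat_lit 3)))
    (xor (land (shiftRight E.SK (add (mul E.n x) y)) (nat_lit 1)) (nat_lit 1))
    (lor (lor (lte (f9 w (nat_lit 2)) E.J)
        (lte (add (f9 w (nat_lit 11)) (nat_lit 1)) (zl (zget E (f9 w (nat_lit 2))))))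
      (lor (xor x (zr (zget E (f9 w (nat_lit 2))) (f9 w (nat_lit 11))))
        (cn (beq (land w (nat_lit 3)) (nat_lit 1))
          (lor (lor (lte (nat_lit 0) (f9 w (nat_lit 11)))
              (xor y (zc (zget E (f9 w (nat_lit 2))) (bt w (nat_lit 20) (nat_lit 3)))))
            (ngErr E nc xC (f9 w (nat_lit 2)) (f9 w (nat_lit 11)) x))
          (lor (lor (xor y (zr (zget E (f9 w (nat_lit 2))) (add (f9 w (nat_lit 11)) (nat_lit 1))))
              (orN nc fun c => cn (beq (gd (core xC c)) (f9 w (nat_lit 2))) (nat_lit 1) (nat_lit 0)))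
            (lor (cn (iz (f9 w (nat_lit 11))) (nat_lit 0)
                (ngErr E nc xC (f9 w (nat_lit 2)) (f9 w (nat_lit 11)) x))
              (cn (beq (add (f9 w (nat_lit 11)) (nat_lit 2)) (zl (zget E (f9 w (nat_lit 2)))))
                (nat_lit 0)
                (ngErr E nc xC (f9 w (nat_lit 2)) (add (f9 w (nat_lit 11)) (nat_lit 1)) y)))))))
/-- bit 22 of the witness gives the orientation -/
def pgErr (nc xC x y w : Nat) : Nat :=
  cn (tb w (nat_lit 22)) (pgErr1 E nc xC y x w) (pgErr1 E nc xC x y w)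

/-- the token `t = z + 512 y + 512^2 x` (27 bits, then three witnesses of 23 bits for the pairs
`xy`, `xz`, `yz`) is safe; `KE` lists the killable edges -/
def safeErr (nc xC e KE t : Nat) : Nat :=
  lor (lor (lor (lte (gb t) (gc t)) (land (m2 (gc t) (gb t)) (p2 (gd t))))
      (lor (shiftRight (m3 t) E.n)
        (orN e fun l => cn (iz (dd (at_ E.n E.on KE l) (m3 t))) (nat_lit 1) (nat_lit 0))))
    (cn (iz nc) (nat_lit 0)
      (lor (pgErr E nc xC (gb t) (gc t) (bt t (nat_lit 27) (nat_lit 8388607)))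
        (lor (pgErr E nc xC (gb t) (gd t) (bt t (nat_lit 50) (nat_lit 8388607)))
          (pgErr E nc xC (gc t) (gd t) (bt t (nat_lit 73) (nat_lit 8388607))))))

/-- the link of the first two fields `gb`, `gc` of a 27-bit record -/
def row3 (t : Nat) : Nat := row E (bt t (nat_lit 9) (nat_lit 262143))

def gateErr (g : Nat) : Nat :=
  lor (lor (lte (ga g) (gb g)) (lte (gc g) (gd g)))
    (lor (land (m2 (ga g) (gb g)) (m2 (gc g) (gd g))) (shiftRight (m4 g) E.n))
/-- tree gate number `i`; `A` = masks of the earlier gates, `x` the new vertex -/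
def treeErr (g A x : Nat) : Nat :=
  lor (land (land (shiftRight A (ga g)) (shiftRight A (gb g))) (land (shiftRight A x) E.ones))
    (land (row E (shiftRight g (nat_lit 18))) (p2 x))
/-- small tet: all four faces are in `G` -/
def tetErr (g : Nat) : Nat :=
  lor (lor (dd (m2 (gc g) (gd g)) (row E (shiftRight g (nat_lit 18))))
      (dd (m2 (ga g) (gb g)) (row E (land g (nat_lit 262143))))) (shiftRight (m4 g) E.n)
/-- zone tet: core (2 bits), index (2), position (9) -/
def ztMask (xC u : Nat) : Nat :=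
  lor (m2 (zr (zget E (gd (core xC (land u (nat_lit 3))))) (shiftRight u (nat_lit 4)))
      (zr (zget E (gd (core xC (land u (nat_lit 3))))) (add (shiftRight u (nat_lit 4)) (nat_lit 1))))
    (cpair (zget E (gd (core xC (land u (nat_lit 3))))) (bt u (nat_lit 2) (nat_lit 3)))
def ztErr (nc xC u : Nat) : Nat :=
  lor (lte (land u (nat_lit 3)) nc)
    (lor (sub (gc (core xC (land u (nat_lit 3)))) (shiftRight u (nat_lit 4)))
      (lte (shiftRight u (nat_lit 4)) (gb (core xC (land u (nat_lit 3))))))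

/-- entry `l < b` of the array `Q` is `m` -/
def refErr (Q b l m : Nat) : Nat := lor (lte l b) (xor (at_ E.n E.on Q l) m)
def fiveErr (Q b g c W : Nat) : Nat :=
  lor (lor (refErr E Q b (f10 c (nat_lit 18)) (xor W (p2 (ga g))))
      (refErr E Q b (f10 c (nat_lit 28)) (xor W (p2 (gb g)))))
    (lor (refErr E Q b (f10 c (nat_lit 38)) (xor W (p2 (gc g))))
      (refErr E Q b (f10 c (nat_lit 48)) (xor W (p2 (gd g)))))
def segErr (nc xC Q b g c : Nat) : Nat :=
  fn (core xC (bt c (nat_lit 9) (nat_lit 3))) fun co => fn (zget E (gd co)) fun z =>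
  fn (zr z (f9 c (nat_lit 11))) fun x0 => fn (zr z (f9 c (nat_lit 20))) fun x1 =>
  fn (bt c (nat_lit 29) (nat_lit 3)) fun w =>
  lor (lor (lor (lte (bt c (nat_lit 9) (nat_lit 3)) nc) (sub (gc co) (f9 c (nat_lit 11))))
      (lor (lte (f9 c (nat_lit 11)) (f9 c (nat_lit 20))) (sub (f9 c (nat_lit 20)) (gb co))))
    (lor (lor (land (row E (add (mul x0 (nat_lit 512)) x1)) (cmask z))
        (xor (m4 g) (lor (m2 x0 x1) (cpair z w))))
      (lor (refErr E Q b (f10 c (nat_lit 31))
          (lor (m2 x0 x1) (cpair z (land (add w (nat_lit 1)) (nat_lit 3)))))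
        (lor (refErr E Q b (f10 c (nat_lit 41))
            (lor (m2 x0 x1) (cpair z (land (add w (nat_lit 2)) (nat_lit 3)))))
          (refErr E Q b (f10 c (nat_lit 51))
            (lor (m2 x0 x1) (cpair z (land (add w (nat_lit 3)) (nat_lit 3))))))))
/-- number of `u < h` with `f` inside entry number `f10 R (10 u)` of `Q` -/
def cntIn (Q R h f : Nat) : Nat :=
  Nat.rec (nat_lit 0) (fun u ih => add ih
    (cn (iz (dd f (at_ E.n E.on Q (f10 R (mul u (nat_lit 10)))))) (nat_lit 1) (nat_lit 0))) h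
/-- general closing: `h` references in `R`, the first one is the gate `b` itself -/
def genErr (Q b R h : Nat) : Nat :=
  lor (lor (lte (nat_lit 0) h) (xor (f10 R (nat_lit 0)) b)) (orN h fun u =>
    lor (cn (iz u) (nat_lit 0) (lte (f10 R (mul u (nat_lit 10))) b))
      (fn (at_ E.n E.on Q (f10 R (mul u (nat_lit 10)))) fun q => orN E.n fun v =>
        cn (tb q v) (land (cntIn E Q R h (xor q (p2 v))) (nat_lit 1)) (nat_lit 0)))
/-- closing gate `g` at array position `b` with record `c` -/
def closeErr (nl nc xC xG ns SA Q b g c : Nat) : Nat :=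
  lor (cn (iz (land c (nat_lit 3)))
      (lor (land (m4 g) (p2 (f9 c (nat_lit 9)))) (fiveErr E Q b g c (lor (m4 g) (p2 (f9 c (nat_lit 9))))))
      (cn (beq (land c (nat_lit 3)) (nat_lit 1)) (segErr E nc xC Q b g c)
        (genErr E Q b (shiftRight xG (mul (f10 c (nat_lit 19)) (nat_lit 10))) (f10 c (nat_lit 9)))))
    (cn (iz nl) (lor (lte (bt c (nat_lit 2) (nat_lit 127)) ns)
      (dd (at_ E.n E.on SA (bt c (nat_lit 2) (nat_lit 127))) (m4 g))) (nat_lit 0))

/-- low part: vertices `v` of `τ` such that `τ - v` lies in an entry `l` of `T`, `i < l ≤ i + h`;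
high part: error (entry equal to `τ`, or the same `v` twice) -/
def pairSt (T τ i h : Nat) : Nat :=
  Nat.rec (nat_lit 0) (fun u ih =>
    lor ih (fn (dd τ (at_ E.n E.on T (add (add i (nat_lit 1)) u))) fun d =>
      lor (on1 d) (shiftLeft (lor (land ih (on1 d)) (cn (iz d) (nat_lit 1) (nat_lit 0))) E.n))) h
def regSt (nc xC τ : Nat) : Nat := orN nc fun c =>
  fn (core xC c) fun co => fn (zget E (gd co)) fun z => fn (dd τ (cmask z)) fun σ =>
    orN (sub (gb co) (gc co)) fun u =>
      fn (dd σ (m2 (zr z (add (gc co) u)) (zr z (add (add (gc co) u) (nat_lit 1))))) fun d =>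
        cn (iz d) τ (on1 d)
def peelErr (s t1 nc xC e FK T i : Nat) : Nat :=
  fn (at_ E.n E.on T i) fun τ => fn (pairSt E T τ i (sub t1 (add i (nat_lit 1)))) fun st =>
    lor (shiftRight st E.n) (cn (lt i s)
      (le1 (dd (lor st (regSt E nc xC τ)) (orN e fun l => on1 (dd τ (at_ E.n E.on FK l)))))
      (nat_lit 0))
/-- low part: vertices of the entries containing `ke`; high part: vertices seen twice -/
def twSt (T ke h : Nat) : Nat :=
  Nat.rec (nat_lit 0) (fun p ih =>
    lor ih (fn (at_ E.n E.on T p) fun τ =>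
      cn (iz (dd ke τ)) (lor τ (shiftLeft (land ih τ) E.n)) (nat_lit 0))) h
def killErr (t1 T KE FK g i : Nat) : Nat :=
  lor (lor (lte (gb g) (gc g)) (shiftRight (m3 g) E.n))
    (lor (orN i fun l => cn (iz (dd (at_ E.n E.on KE i) (at_ E.n E.on FK l))) (nat_lit 1) (nat_lit 0))
      (dd (row3 E g) (shiftRight (twSt E T (at_ E.n E.on KE i) t1) E.n)))
def sigErr (s T : Nat) : Nat :=
  cn (iz (le1 (land (orN s (at_ E.n E.on T)) E.sm))) (nat_lit 0) (orN E.ns fun l =>
    shiftRight (twSt E T (at_ E.n E.on E.sg l) s) E.n)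

/-! header of the certificate and its sections -/
def hkt (x : Nat) : Nat := land x (nat_lit 1023)
def hs (x : Nat) : Nat := bt x (nat_lit 10) (nat_lit 63)
def ht1 (x : Nat) : Nat := f10 x (nat_lit 16)
def htn (x : Nat) : Nat := f10 x (nat_lit 26)
def he (x : Nat) : Nat := bt x (nat_lit 36) (nat_lit 63)
def hc (x : Nat) : Nat := bt x (nat_lit 42) (nat_lit 7)
def hn (x : Nat) : Nat := bt x (nat_lit 45) (nat_lit 127)
def sC (x : Nat) : Nat := shiftRight x (nat_lit 52)
def sK (x : Nat) : Nat := shiftRight (sC x) (mul (nat_lit 27) (hc x))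
def sS (x : Nat) : Nat := shiftRight (sK x) (mul (nat_lit 27) (he x))
def sZ (x : Nat) : Nat := shiftRight (sS x) (mul (nat_lit 36) (hs x))
def sF (x : Nat) : Nat := shiftRight (sZ x) (mul (nat_lit 13) (sub (htn x) (hs x)))
def wF (x : Nat) : Nat := cn (iz (hc x)) (nat_lit 27) (nat_lit 96)
def sT (x : Nat) : Nat := shiftRight (sF x) (mul (wF x) (hn x))
def sE (x : Nat) : Nat := shiftRight (sT x) (hkt x)
def aKE (x : Nat) : Nat := arr E.n (he x) fun l =>
  m2 (gc (rec_ (sK x) (nat_lit 27) l)) (gb (rec_ (sK x) (nat_lit 27) l))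
def aFK (x : Nat) : Nat := arr E.n (he x) fun l => m3 (rec_ (sK x) (nat_lit 27) l)
def aT (x : Nat) : Nat := arr E.n (htn x) fun l =>
  cn (lt l (hs x)) (m4 (rec_ (sS x) (nat_lit 36) l))
    (ztMask E (sC x) (rec_ (sZ x) (nat_lit 13) (sub l (hs x))))
def aG (r : Nat) : Nat := arr E.n (xk r) fun i => m4 (xg r i)
def aSA (x : Nat) : Nat := arr E.n (hn x) fun l => m3 (rec_ (sF x) (wF x) l)

def xchk1 (r x : Nat) : Nat :=
  fn (aKE E x) fun KE => fn (aFK E x) fun FK => fn (aT E x) fun T => fn (aG E r) fun A =>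
  fn (aSA E x) fun SA => fn (lor T (shiftLeft A (mul E.n (htn x)))) fun Q =>
  lor (lor (lor (lor (sub (hs x) (ht1 x)) (sub (ht1 x) (htn x)))
        (lor (lor (sub (hkt x) (xk r)) (sub (xk r) E.kmax))
          (mul (xnl r) (add (hc x) (he x)))))
      (lor (coresErr E (hc x) (sC x))
        (lor (orN (hs x) fun l => tetErr E (rec_ (sS x) (nat_lit 36) l))
          (orN (sub (htn x) (hs x)) fun l => ztErr (hc x) (sC x) (rec_ (sZ x) (nat_lit 13) l)))))
    (lor (lor (orN (xk r) fun i => gateErr E (xg r i))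
        (lor (orN (hkt x) fun i => treeErr E (xg r i) (land A (sub (p2 (mul E.n i)) (nat_lit 1)))
            (cn (tb (sT x) i) (gd (xg r i)) (gc (xg r i))))
          (orN (sub (xk r) (hkt x)) fun u => closeErr E (xnl r) (hc x) (sC x)
            (shiftRight (sE x) (mul (nat_lit 61) (sub (xk r) (hkt x)))) (hn x) SA Q
            (add (htn x) (add (hkt x) u)) (xg r (add (hkt x) u)) (rec_ (sE x) (nat_lit 61) u))))
      (lor (lor (orN (ht1 x) (peelErr E (hs x) (ht1 x) (hc x) (sC x) (he x) FK T))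
          (orN (he x) fun i => killErr E (ht1 x) T KE FK (rec_ (sK x) (nat_lit 27) i) i))
        (lor (cn (iz (xnl r)) (sigErr E (hs x) T) (nat_lit 0))
          (orN (hn x) fun l => lor (safeErr E (hc x) (sC x) (he x) KE (rec_ (sF x) (wF x) l))
            (land (row3 E (rec_ (sF x) (wF x) l)) (p2 (gd (rec_ (sF x) (wF x) l))))))))
def xchk (r x : Nat) : Nat := fn r fun r => fn x fun x => xchk1 E r x

/-- test for a further safe token `t` (96 bits, as in `safeErr`) of the block with certificate `x` -/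
def xsb (x t : Nat) : Bool := iz (fn x fun x => safeErr E (hc x) (sC x) (he x) (aKE E x) t)

/-- vertex `i` of the special face `q` -/
def xsq (SG q i : Nat) : Nat :=
  bt SG (mul (add (mul q (nat_lit 3)) i) (nat_lit 9)) (nat_lit 511)
def xsm3 (SG q : Nat) : Nat :=
  lor (m2 (xsq SG q (nat_lit 0)) (xsq SG q (nat_lit 1))) (p2 (xsq SG q (nat_lit 2)))
/-- the constants of `E` are right -/
def xpre (SG : Nat) : Nat :=
  lor (lor (xor E.on (sub (p2 E.n) (nat_lit 1))) (xor E.ns (nat_lit 15)))
    (lor (fn E.ones fun o => orN E.kmax fun l =>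
        xor (land (shiftRight o (mul E.n l)) (nat_lit 1)) (nat_lit 1))
      (orN (nat_lit 15) fun q =>
        lor (lor (xor (at_ E.n E.on E.sg q) (xsm3 SG q)) (dd (xsm3 SG q) E.sm))
          (lor (land (p2 (xsq SG q (nat_lit 0))) (p2 (xsq SG q (nat_lit 1))))
            (land (m2 (xsq SG q (nat_lit 0)) (xsq SG q (nat_lit 1))) (p2 (xsq SG q (nat_lit 2)))))))

/-- both trees have the same shape and all pairs of leaves pass -/
def BT.all2 (f : Nat → Nat → Nat) (t : BT) : BT → Nat :=
  BT.rec (fun x t' => BT.rec (fun y => f x y) (fun _ _ _ _ _ => nat_lit 1) t')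
    (fun k _ _ l r t' => BT.rec (fun _ => nat_lit 1)
      (fun k' l' r' _ _ => lor (xor k k') (lor (l l') (r r'))) t') t

end

end Pool.Agent.MP_797bdc_co.Lk
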