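import Pool.Agent.MP_797bdc_co.Lk.PI
import Pool.Agent.MP_797bdc_co.Lk.XD

/-! Checker X: basic lemmas and the statements of the soundness rows. -/

namespace Pool.Agent.MP_797bdc_co.Lk

open Finset

/-- the vertices of a mask -/
def St (n m : ℕ) : Finset ℕ := (range n).filter (fun v => m.testBit v = true)
/-- the triples inside a mask -/
def qm (n m : ℕ) : Finset (Finset ℕ) := powersetCard 3 (St n m)

theorem mem_St {n m v : ℕ} : v ∈ St n m ↔ v < n ∧ m.testBit v = true := by simp [St]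
theorem mem_qm {n m : ℕ} {f : Finset ℕ} : f ∈ qm n m ↔ f ⊆ St n m ∧ f.card = 3 := mem_powersetCard
theorem fn_eq (x : ℕ) (f : ℕ → ℕ) : fn x f = f x := rfl
theorem lor_z {a b : ℕ} : Nat.lor a b = 0 ↔ a = 0 ∧ b = 0 := Nat.or_eq_zero_iff
theorem xor_z {a b : ℕ} : Nat.xor a b = 0 ↔ a = b := Nat.xor_eq_zero_iff
theorem sub_z {a b : ℕ} : Nat.sub a b = 0 ↔ a ≤ b := Nat.sub_eq_zero_iff_le
theorem lte_z {a b : ℕ} : lte a b = 0 ↔ a < b := Nat.sub_eq_zero_iff_le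
theorem iz_iff {x : ℕ} : iz x = true ↔ x = 0 := Nat.beq_eq.to_iff
theorem beq_iff {x y : ℕ} : Nat.beq x y = true ↔ x = y := Nat.beq_eq.to_iff
theorem cn_z {c : Bool} {a b : ℕ} : cn c a b = 0 ↔ (c = true → a = 0) ∧ (¬ c = true → b = 0) := by
  cases c <;> simp [cn]
theorem orN_succ (k : ℕ) (f : ℕ → ℕ) : orN (k + 1) f = orN k f ||| f k := rfl
theorem orN_z {k : ℕ} {f : ℕ → ℕ} : orN k f = 0 ↔ ∀ i < k, f i = 0 := by
  induction k with
  | zero => simp [orN]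
  | succ k ih => rw [orN_succ, Nat.or_eq_zero_iff, ih, Nat.forall_lt_succ_right]
theorem orN_bit {k v : ℕ} {f : ℕ → ℕ} :
    (orN k f).testBit v = true ↔ ∃ i < k, (f i).testBit v = true := by
  induction k with
  | zero => simp [orN]
  | succ k ih => rw [orN_succ, Nat.testBit_or, Bool.or_eq_true, ih, Nat.exists_lt_succ_right]
theorem lor_bit {a b v : ℕ} :
    (Nat.lor a b).testBit v = true ↔ a.testBit v = true ∨ b.testBit v = true := by
  rw [show Nat.lor a b = a ||| b from rfl, Nat.testBit_or, Bool.or_eq_true]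
theorem land_bit {a b v : ℕ} :
    (Nat.land a b).testBit v = true ↔ a.testBit v = true ∧ b.testBit v = true := by
  rw [show Nat.land a b = a &&& b from rfl, Nat.testBit_and, Bool.and_eq_true]
theorem p2_bit {a v : ℕ} : (p2 a).testBit v = true ↔ v = a := by
  rw [p2_eq, Nat.testBit_two_pow, decide_eq_true_iff, eq_comm]
theorem shr_bit {a k v : ℕ} : (Nat.shiftRight a k).testBit v = a.testBit (k + v) :=
  Nat.testBit_shiftRight a
theorem z_iff {a : ℕ} : a = 0 ↔ ∀ v, ¬ a.testBit v = true :=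
  ⟨fun h v => by simp [h], fun h => Nat.eq_of_testBit_eq fun v => by simpa using h v⟩
theorem land_z {a b : ℕ} :
    Nat.land a b = 0 ↔ ∀ v, a.testBit v = true → ¬ b.testBit v = true := by
  simp only [z_iff (a := Nat.land a b), land_bit, not_and]
theorem shr_z {a k : ℕ} : Nat.shiftRight a k = 0 ↔ ∀ v, a.testBit v = true → v < k := by
  rw [z_iff]
  refine ⟨fun h v hv => ?_, fun h v hv => ?_⟩
  · by_contra c
    exact h (v - k) (by rw [shr_bit, show k + (v - k) = v by omega]; exact hv)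
  · rw [shr_bit] at hv
    have := h _ hv
    omega
theorem dd_bit {a b v : ℕ} :
    (dd a b).testBit v = true ↔ a.testBit v = true ∧ ¬ b.testBit v = true := by
  rw [show dd a b = a ^^^ (a &&& b) from rfl, Nat.testBit_xor, Nat.testBit_and]
  cases a.testBit v <;> cases b.testBit v <;> simp
theorem dd_z {a b : ℕ} : dd a b = 0 ↔ ∀ v, a.testBit v = true → b.testBit v = true := by
  simp only [z_iff (a := dd a b), dd_bit, not_and, not_not]
theorem m2_bit {a b v : ℕ} : (m2 a b).testBit v = true ↔ v = a ∨ v = b := by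
  rw [m2, lor_bit, p2_bit, p2_bit]
theorem m3_bit {g v : ℕ} : (m3 g).testBit v = true ↔ v = gb g ∨ v = gc g ∨ v = gd g := by
  rw [m3, lor_bit, m2_bit, p2_bit]; tauto
theorem m4_bit {g v : ℕ} :
    (m4 g).testBit v = true ↔ v = ga g ∨ v = gb g ∨ v = gc g ∨ v = gd g := by
  rw [m4, lor_bit, m2_bit, m2_bit, or_assoc]
theorem le1_z {d v w : ℕ} (h : le1 d = 0) (hv : d.testBit v = true) (hw : d.testBit w = true) :
    v = w := by
  have key : ∀ v w, v < w → d.testBit v = true → d.testBit w = true → False := by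
    intro v w hlt hv hw
    refine land_z.1 h w hw ?_
    have h1 : d % 2 ^ w ≠ 0 := fun e => by
      have := Nat.testBit_mod_two_pow d w v
      rw [e, hv] at this; simp [hlt] at this
    have h2 : (d - 1) / 2 ^ w = d / 2 ^ w := by
      have h3 := Nat.div_add_mod d (2 ^ w)
      have h4 := Nat.mod_lt d (Nat.two_pow_pos w)
      refine (Nat.div_eq_iff (Nat.two_pow_pos w)).2 ?_
      rw [Nat.mul_comm]; omega
    rw [Nat.testBit_eq_decide_div_mod_eq] at hw ⊢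
    exact h2.symm ▸ hw
  rcases lt_trichotomy v w with c | c | c
  exacts [(key v w c hv hw).elim, c, (key w v c hw hv).elim]
theorem le1_of {d : ℕ} (h : ∀ v w, d.testBit v = true → d.testBit w = true → v = w) :
    le1 d = 0 := by
  rcases Nat.eq_zero_or_pos d with rfl | hd
  · rfl
  obtain ⟨v, hv⟩ := Nat.exists_testBit_of_ne_zero hd.ne'
  have e : d = 2 ^ v := Nat.eq_of_testBit_eq fun w => by
    rw [Nat.testBit_two_pow, Bool.eq_iff_iff, decide_eq_true_iff]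
    exact ⟨h v w hv, fun e => e ▸ hv⟩
  rw [e]
  exact (Nat.and_two_pow_sub_one_eq_mod _ _).trans (Nat.mod_self _)
theorem on1_bit {d v : ℕ} :
    (on1 d).testBit v = true ↔ d.testBit v = true ∧ ∀ w, d.testBit w = true → w = v := by
  rw [on1, cn_eq]
  split_ifs with c
  · exact ⟨fun h => ⟨h, fun w hw => le1_z (iz_iff.1 c) hw h⟩, fun h => h.1⟩
  · refine ⟨fun h => by simp at h, fun h => absurd (iz_iff.2 (le1_of fun a b ha hb => ?_)) c⟩
    rw [h.2 a ha, h.2 b hb]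
theorem at_bit {n A i v : ℕ} :
    (at_ n (2 ^ n - 1) A i).testBit v = true ↔ v < n ∧ A.testBit (n * i + v) = true := by
  rw [at_, land_bit, shr_bit, Nat.testBit_two_pow_sub_one, decide_eq_true_iff, and_comm]; rfl
theorem arr_bit {n k l v : ℕ} {f : ℕ → ℕ} (hf : ∀ i < k, ∀ w, (f i).testBit w = true → w < n)
    (hv : v < n) : (arr n k f).testBit (n * l + v) = true ↔ l < k ∧ (f l).testBit v = true := by
  rw [arr, orN_bit]
  have s : ∀ i w, (Nat.shiftLeft (f i) (Nat.mul n i)).testBit w = true ↔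
      n * i ≤ w ∧ (f i).testBit (w - n * i) = true := fun i w => by
    rw [show Nat.shiftLeft (f i) (Nat.mul n i) = f i <<< (n * i) from rfl, Nat.testBit_shiftLeft]
    simp
  refine ⟨fun ⟨i, hi, h⟩ => ?_, fun h => ⟨l, h.1, (s _ _).2 ⟨by omega, by simpa using h.2⟩⟩⟩
  obtain ⟨h1, h2⟩ := (s _ _).1 h
  have h3 := hf i hi _ h2
  have e : i = l := by
    rcases lt_trichotomy i l with c | c | c
    · have := Nat.mul_le_mul_left n (show i + 1 ≤ l from c)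
      rw [Nat.mul_succ] at this; omega
    · exact c
    · have := Nat.mul_le_mul_left n (show l + 1 ≤ i from c)
      rw [Nat.mul_succ] at this; omega
  subst e
  exact ⟨hi, by simpa using h2⟩
theorem at_arr {n k l : ℕ} {f : ℕ → ℕ} (hf : ∀ i < k, ∀ w, (f i).testBit w = true → w < n)
    (hl : l < k) : at_ n (2 ^ n - 1) (arr n k f) l = f l :=
  Nat.eq_of_testBit_eq fun v => by
    rw [Bool.eq_iff_iff, at_bit]
    exact ⟨fun h => ((arr_bit hf h.1).1 h.2).2,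
      fun h => ⟨hf l hl v h, (arr_bit hf (hf l hl v h)).2 ⟨hl, h⟩⟩⟩
theorem row_bit {E : XE} (hon : E.on = 2 ^ E.n - 1) {ab c : ℕ} : (row E ab).testBit c = true ↔
    c < E.n ∧ bit E.n E.tM.get (ab >>> 9) (ab &&& 511) c = true := by
  rw [row, fn_eq, row1, fn_eq, land_bit, shr_bit, hon, Nat.testBit_two_pow_sub_one,
    decide_eq_true_iff, and_comm]; rfl

/-- the face set, the zones and the entries of an array -/
noncomputable def XE.G (E : XE) : Finset (Finset ℕ) := Gd E.n E.tM.get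
noncomputable def XE.Z (E : XE) : Zn := mkZ E.n E.J E.tZ E.tF E.SK
noncomputable def XE.q (E : XE) (A l : ℕ) : Finset (Finset ℕ) := qm E.n (at_ E.n E.on A l)
/-- entry `l` of the array `A` has four vertices -/
def XE.c4 (E : XE) (A l : ℕ) : Prop := (St E.n (at_ E.n E.on A l)).card = 4
/-- the list of cores -/
noncomputable def csL (nc xC : ℕ) : List (ℕ × ℕ × ℕ) :=
  (List.range nc).map fun c => (gd (core xC c), gc (core xC c), gb (core xC c))
/-- the triple of a 27-bit record -/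
noncomputable def tk3 (g : ℕ) : Finset ℕ := {gb g, gc g, gd g}
/-- indicator of the triples through the first two vertices of a record -/
noncomputable def kap3 (g : ℕ) (s : Finset ℕ) : ZMod 2 := if gb g ∈ s ∧ gc g ∈ s then 1 else 0

/-- Hypotheses on the global data. -/
structure XH (E : XE) (hd : DimP E.n) (root : ℕ) (par : ℕ → ℕ) (Sig : Finset (Finset ℕ))
    (u τ1 τ2 : Finset ℕ) (h1 h2 : Finset (Finset ℕ)) : Prop where
  on : E.on = 2 ^ E.n - 1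
  ones : ∀ l < E.kmax, E.ones.testBit (E.n * l) = true
  sym : SymM E.n E.tM.get
  base : Base (sysN E.n hd) E.G Sig u τ1 τ2 h1 h2
  zok : E.Z.OK E.n root par E.G
  lab : ∀ f ∈ Sig, E.Z.lab f = 0
  sig : ∀ f ∈ Sig, f.card = 3 ∧ (∃ l < E.ns, f = St E.n (at_ E.n E.on E.sg l)) ∧
    ∀ v ∈ f, E.sm.testBit v = true

/-- Safe tokens of the block with certificate `x`. -/
def XSx (E : XE) (x : ℕ) (t : Finset ℕ) : Prop :=
  (∀ l < he x, kap3 (rec_ (sK x) 27 l) t = 0) ∧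
    ∀ ψ, Ev (Qn E.n) ψ → (∀ f ∈ E.G, f ∉ E.Z.Iall (csL (hc x) (sC x)) → ψ f = 0) → ψ t = 0

/-- Entry `b` closes: with earlier entries `R` and quads `w` of `Wall` it covers everything evenly. -/
def CloL {α : Type} [DecidableEq α] (Q : ℕ → Finset α) (Wall : Set (Finset α)) (b : ℕ) : Prop :=
  ∃ (R : List ℕ) (w : Finset (Finset α)), (∀ l ∈ R, l < b) ∧ (∀ τ ∈ w, τ ∈ Wall) ∧
    ∀ f, Even ((b :: R).countP (fun l => decide (f ∈ Q l)) + (w.filter (f ∈ ·)).card)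

/-- Entries `0 … t-1` are quads of `Wall`, then come `kt` tree gates, then the closing gates. -/
structure EarsL {α : Type} [DecidableEq α] (S : Sys α) (G : Finset α) (B : Finset α → Prop)
    (t kt k : ℕ) (Q : ℕ → Finset α) (Wall : Set (Finset α)) : Prop where
  cov : ∀ q, Gate S G q → B q → ∃ i < k, q = Q (t + i)
  tets : ∀ l < t, Q l ∈ Wall
  tree : ∀ i < kt, ∃ s ∈ Q (t + i), s ∉ G ∧ ∀ l < i, s ∉ Q (t + l)
  close : ∀ i < k, kt ≤ i → CloL Q Wall (t + i)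
  wF : ∀ τ ∈ Wall, FQ S G τ

/-- Row GW: `GENF2_s` and `GENL3_s` for `EarsL` (no injectivity). -/
def XGW_s : Prop := BUB_s →
  (∀ (α : Type) [DecidableEq α] (S : Sys α) (G : Finset α)
    (noLoc B : Finset α → Prop) (safe : Finset α → α → Prop) (t kt k : ℕ) (Q : ℕ → Finset α)
    (s : ℕ) (sm : ℕ → Finset α), EarsL S G B t kt k Q {τ | ∃ i < s, τ = sm i} →
    Peel s sm ∅ ∅ →
    (∀ f, ∀ i < s, ∀ l < s, ∀ p < s, f ∈ sm i → f ∈ sm l → f ∈ sm p → i = l ∨ i = p ∨ l = p) →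
    BPon2 S G noLoc safe B) ∧
  ∀ (α : Type) [DecidableEq α] (S : Sys α) (G Sig : Finset α) (u τ1 τ2 : α)
    (h1 h2 : Finset α), Base S G Sig u τ1 τ2 h1 h2 →
    ∀ (noLoc B : Finset α → Prop) (safe : Finset α → α → Prop) (t kt k : ℕ) (Q : ℕ → Finset α)
    (s : ℕ) (sm : ℕ → Finset α) (Reg : Set (Finset α)) (I : Set α) (e : ℕ) (κ : ℕ → α → ZMod 2)
    (fk : ℕ → α),
    (∀ q, Gate S G q → B q → ¬ noLoc q) →
    EarsL S G B t kt k Q ({τ | ∃ i < s, τ = sm i} ∪ Reg) →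
    Peel s sm Reg {f | ∃ i < e, f = fk i} →
    (∀ f ∈ Sig, ∀ τ τ', τ ∈ {τ | ∃ i < s, τ = sm i} ∪ Reg → τ' ∈ {τ | ∃ i < s, τ = sm i} ∪ Reg →
       f ∈ τ → f ∈ τ' → τ = τ') →
    (∀ f, ∀ τ ∈ Reg, ∀ τ' ∈ Reg, τ ≠ τ' → f ∈ τ → f ∈ τ' → f ∈ I) →
    (∀ i < e, Ev S.Q (κ i) ∧ κ i (fk i) = 1 ∧ (∀ l < i, κ i (fk l) = 0) ∧
       ∀ f ∈ G, κ i f ≠ 0 → ∃ τ ∈ {τ | ∃ i < s, τ = sm i} ∪ Reg,
         ∃ τ' ∈ {τ | ∃ i < s, τ = sm i} ∪ Reg, τ ≠ τ' ∧ f ∈ τ ∧ f ∈ τ') →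
    (∀ i < k, kt ≤ i → ∃ x ∈ Q (t + i), x ∉ G ∧ (∀ l < e, κ l x = 0) ∧
       ∀ ψ, Ev S.Q ψ → (∀ f ∈ G, f ∉ I → ψ f = 0) → ψ x = 0) →
    (∀ q, Gate S G q → B q → ∀ x, safe q x → (∀ l < e, κ l x = 0) ∧
       ∀ ψ, Ev S.Q ψ → (∀ f ∈ G, f ∉ I → ψ f = 0) → ψ x = 0) →
    BPon2 S G noLoc safe B

/-- Row PG: cores and safe pairs. -/
def XPG_s : Prop := ∀ E hd root par Sig u τ1 τ2 h1 h2, XH E hd root par Sig u τ1 τ2 h1 h2 →
  ∀ nc xC, coresErr E nc xC = 0 → E.Z.CoresOK (csL nc xC) ∧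
    ∀ x < E.n, ∀ y < E.n, ∀ w, pgErr E nc xC x y w = 0 →
      E.Z.PGood (csL nc xC) x y ∨ E.Z.PGood (csL nc xC) y x

/-- Row SF: safe tokens. -/
def XSF_s : Prop := XPG_s → PG_s → LOC_s → ∀ E hd root par Sig u τ1 τ2 h1 h2,
  XH E hd root par Sig u τ1 τ2 h1 h2 → ∀ nc xC e KE t (kl : ℕ → ℕ), coresErr E nc xC = 0 →
  (∀ l < e, at_ E.n E.on KE l = m2 (gc (kl l)) (gb (kl l))) → safeErr E nc xC e KE t = 0 →
  St E.n (m3 t) = tk3 t ∧ (tk3 t).card = 3 ∧ (∀ v, (m3 t).testBit v = true → v < E.n) ∧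
    (Nat.land (row3 E t) (p2 (gd t)) = 0 → tk3 t ∉ E.G) ∧ (∀ l < e, kap3 (kl l) (tk3 t) = 0) ∧
    ∀ ψ, Ev (Qn E.n) ψ → (∀ f ∈ E.G, f ∉ E.Z.Iall (csL nc xC) → ψ f = 0) → ψ (tk3 t) = 0

/-- Row TG: gates, small tets, zone tets, tree gates. -/
def XTG_s : Prop := ∀ E hd root par Sig u τ1 τ2 h1 h2, XH E hd root par Sig u τ1 τ2 h1 h2 →
  (∀ g, gateErr E g = 0 → qm E.n (m4 g) = qd (ga g) (gb g) (gc g) (gd g) ∧
    (St E.n (m4 g)).card = 4 ∧ ∀ v, (m4 g).testBit v = true → v < E.n) ∧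
  (∀ g < 2 ^ 36, tetErr E g = 0 → FQ (sysN E.n hd) E.G (qm E.n (m4 g)) ∧
    (St E.n (m4 g)).card = 4 ∧ ∀ v, (m4 g).testBit v = true → v < E.n) ∧
  (∀ nc xC z, E.Z.CoresOK (csL nc xC) → ztErr nc xC z = 0 →
    qm E.n (ztMask E xC z) ∈ E.Z.Reg (csL nc xC) ∧ (St E.n (ztMask E xC z)).card = 4 ∧
    ∀ v, (ztMask E xC z).testBit v = true → v < E.n) ∧
  ∀ g < 2 ^ 36, ∀ A i x, gateErr E g = 0 → x = gc g ∨ x = gd g → i ≤ E.kmax →
    treeErr E g (Nat.land A (Nat.sub (p2 (Nat.mul E.n i)) 1)) x = 0 →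
    ∃ s ∈ qm E.n (m4 g), s ∉ E.G ∧ ∀ l < i, s ∉ E.q A l

/-- Row C5: closing by the boundary of a 5-set, and the general closing. -/
def XC5_s : Prop := ∀ (E : XE), E.on = 2 ^ E.n - 1 → ∀ Q b (Wall : Set (Finset (Finset ℕ))),
  (∀ g c e, gateErr E g = 0 → at_ E.n E.on Q b = m4 g → Nat.land (m4 g) (p2 e) = 0 →
    fiveErr E Q b g c (Nat.lor (m4 g) (p2 e)) = 0 → CloL (E.q Q) Wall b) ∧
  ∀ R h, (∀ l ≤ b, E.c4 Q l) → genErr E Q b R h = 0 → CloL (E.q Q) Wall b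

/-- Row CS: closing by a segment. -/
def XCS_s : Prop := SEG_s → ∀ E hd root par Sig u τ1 τ2 h1 h2,
  XH E hd root par Sig u τ1 τ2 h1 h2 → ∀ nc xC Q b g c (Wall : Set (Finset (Finset ℕ))),
  E.Z.CoresOK (csL nc xC) → E.Z.Reg (csL nc xC) ⊆ Wall → at_ E.n E.on Q b = m4 g →
  segErr E nc xC Q b g c = 0 → CloL (E.q Q) Wall b

/-- Row PL: peeling. -/
def XPL_s : Prop := ∀ E hd root par Sig u τ1 τ2 h1 h2, XH E hd root par Sig u τ1 τ2 h1 h2 →
  ∀ s t1 nc xC e FK T (kl : ℕ → ℕ), s ≤ t1 → E.Z.CoresOK (csL nc xC) → (∀ l < t1, E.c4 T l) →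
  (∀ l < e, at_ E.n E.on FK l = m3 (kl l)) → (∀ i < t1, peelErr E s t1 nc xC e FK T i = 0) →
  (∀ i < t1, ∀ l < t1, E.q T i = E.q T l → i = l) ∧
  (∀ f, ∀ i < t1, ∀ l < t1, ∀ p < t1, f ∈ E.q T i → f ∈ E.q T l → f ∈ E.q T p →
    i = l ∨ i = p ∨ l = p) ∧
  Peel s (E.q T) (E.Z.Reg (csL nc xC)) {f | ∃ l < e, f = tk3 (kl l)}

/-- Row KL: killable edges and the faces of `Sig`. -/
def XKL_s : Prop := ∀ E hd root par Sig u τ1 τ2 h1 h2, XH E hd root par Sig u τ1 τ2 h1 h2 →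
  (∀ t1 T KE FK i (kl : ℕ → ℕ), (∀ l < t1, E.c4 T l) →
    at_ E.n E.on KE i = m2 (gc (kl i)) (gb (kl i)) → (∀ l < i, at_ E.n E.on FK l = m3 (kl l)) →
    killErr E t1 T KE FK (kl i) i = 0 →
    gb (kl i) ≠ gc (kl i) ∧ (∀ l < i, kap3 (kl i) (tk3 (kl l)) = 0) ∧
      ∀ f ∈ E.G, kap3 (kl i) f ≠ 0 → ∃ p < t1, ∃ p' < t1, p ≠ p' ∧ f ∈ E.q T p ∧ f ∈ E.q T p') ∧
  ∀ s T, sigErr E s T = 0 → ∀ f ∈ Sig, ∀ p < s, ∀ p' < s, f ∈ E.q T p → f ∈ E.q T p' → p = p'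

/-- Soundness of checker X. -/
def XOK_s : Prop := ∀ E hd root par Sig u τ1 τ2 h1 h2, XH E hd root par Sig u τ1 τ2 h1 h2 →
  ∀ r x, xchk E r x = 0 → XOK2 E.n hd E.G r (fun t => xnl r = 0 → XSx E x t) ∧
    ∀ t, xsb E x t = true → XSx E x (tk3 t)

end Pool.Agent.MP_797bdc_co.Lk
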